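import Mathlib

set_option autoImplicit false

/-!
# Fitting decomposition for compact perturbations of the identity on a Hilbert space
-/

namespace Pool.Agent.Q86.Fitting

open Filter Topology

variable {H : Type*} [NormedAddCommGroup H] [InnerProductSpace ℂ H] [CompleteSpace H]

omit [CompleteSpace H] in
theorem pow_succ_apply' (N : H →L[ℂ] H) (k : ℕ) (x : H) : (N ^ (k + 1)) x = (N ^ k) (N x) := by
  rw [pow_succ]; rfl

omit [CompleteSpace H] in
theorem pow_add_apply (N : H →L[ℂ] H) (j k : ℕ) (x : H) : (N ^ (j + k)) x = (N ^ j) ((N ^ k) x) := by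
  rw [pow_add]; rfl

omit [CompleteSpace H] in
theorem pow_zero_of_le {N : H →L[ℂ] H} {j k : ℕ} (h : j ≤ k) {x : H} (hx : (N ^ j) x = 0) :
    (N ^ k) x = 0 := by
  obtain ⟨m, rfl⟩ := Nat.exists_eq_add_of_le h
  rw [add_comm, pow_add_apply, hx, map_zero]

theorem exists_orthogonal {N : H →L[ℂ] H} {k : ℕ} (h : ∃ x, (N ^ (k + 1)) x = 0 ∧ (N ^ k) x ≠ 0) :
    ∃ y, (N ^ (k + 1)) y = 0 ∧ ‖y‖ = 1 ∧ ∀ z, (N ^ k) z = 0 → 1 ≤ ‖y - z‖ := by
  obtain ⟨x, hx1, hx2⟩ := h
  let K : Submodule ℂ H := LinearMap.ker ((N ^ k : H →L[ℂ] H) : H →ₗ[ℂ] H)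
  have hKc : IsClosed (K : Set H) := (N ^ k).isClosed_ker
  have : CompleteSpace K := hKc.completeSpace_coe
  let u := x - K.starProjection x
  have hmem : (N ^ k) (K.starProjection x) = 0 := K.starProjection_apply_mem x
  have hu1 : (N ^ (k + 1)) u = 0 := by
    rw [map_sub, hx1, pow_zero_of_le (Nat.le_succ k) hmem, sub_zero]
  have hu2 : (N ^ k) u ≠ 0 := by
    rw [map_sub, hmem, sub_zero]; exact hx2
  have hu0 : u ≠ 0 := by rintro h; rw [h, map_zero] at hu2; exact hu2 rfl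
  have hort : ∀ z, (N ^ k) z = 0 → inner ℂ u z = 0 := by
    intro z hz
    exact K.starProjection_inner_eq_zero x z hz
  have hn : (‖u‖ : ℂ) ≠ 0 := by exact_mod_cast norm_ne_zero_iff.2 hu0
  refine ⟨(‖u‖ : ℂ)⁻¹ • u, ?_, norm_smul_inv_norm hu0, ?_⟩
  · rw [map_smul, hu1, smul_zero]
  · intro z hz
    have h1 : inner ℂ ((‖u‖ : ℂ)⁻¹ • u) z = 0 := by
      rw [inner_smul_left, hort z hz, mul_zero]
    have h2 := norm_sub_sq (𝕜 := ℂ) ((‖u‖ : ℂ)⁻¹ • u) z
    have h0 : ‖(‖u‖ : ℂ)⁻¹ • u‖ = 1 := norm_smul_inv_norm hu0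
    rw [h1, h0] at h2
    have h3 : (1 : ℝ) ≤ ‖(‖u‖ : ℂ)⁻¹ • u - z‖ ^ 2 := by
      rw [h2]
      simp only [map_zero, mul_zero, sub_zero, one_pow]
      linarith [sq_nonneg ‖z‖]
    nlinarith [norm_nonneg ((‖u‖ : ℂ)⁻¹ • u - z)]

/-- The kernels of the powers of `1 - C` stabilize. -/
theorem ascent {C : H →L[ℂ] H} (hC : IsCompactOperator C) :
    ∃ k : ℕ, ∀ x, ((1 - C) ^ (k + 1)) x = 0 → ((1 - C) ^ k) x = 0 := by
  by_contra hcon
  push Not at hcon
  set N : H →L[ℂ] H := 1 - C with hN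
  have hex : ∀ k : ℕ, ∃ y, (N ^ (k + 1)) y = 0 ∧ ‖y‖ = 1 ∧ ∀ z, (N ^ k) z = 0 → 1 ≤ ‖y - z‖ :=
    fun k => exists_orthogonal (hcon k)
  choose y hy1 hy2 hy3 using hex
  have hCy : ∀ k, C (y k) = y k - N (y k) := by
    intro k
    rw [hN]
    simp
  have hfar : ∀ j k, j < k → 1 ≤ ‖C (y k) - C (y j)‖ := by
    intro j k hjk
    have h1 : C (y k) - C (y j) = y k - (N (y k) + y j - N (y j)) := by
      rw [hCy, hCy]; abel
    rw [h1]
    apply hy3
    have h2 : (N ^ k) (N (y k)) = 0 := by rw [← pow_succ_apply']; exact hy1 k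
    have h3 : (N ^ k) (y j) = 0 := pow_zero_of_le hjk (hy1 j)
    have h4 : (N ^ k) (N (y j)) = 0 := by
      rw [← pow_succ_apply']; exact pow_zero_of_le (by omega) (hy1 j)
    rw [map_sub, map_add, h2, h3, h4]; simp
  obtain ⟨K, hK, hKs⟩ := hC.image_closedBall_subset_compact (f := (C : H →ₗ[ℂ] H)) 1
  have hmem : ∀ n, C (y n) ∈ K := fun n => hKs ⟨y n, by simp [hy2 n], rfl⟩
  obtain ⟨a, -, ψ, hψ, hψa⟩ := hK.tendsto_subseq hmem
  have hcau := hψa.cauchySeq
  rw [Metric.cauchySeq_iff'] at hcau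
  obtain ⟨M, hM⟩ := hcau 1 one_pos
  have h5 := hM (M + 1) (Nat.le_succ M)
  rw [dist_eq_norm] at h5
  exact absurd h5 (not_lt.2 (hfar _ _ (hψ (Nat.lt_succ_self M))))

omit [CompleteSpace H] in
theorem pow_sub_compact {C : H →L[ℂ] H} (hC : IsCompactOperator C) (k : ℕ) :
    ∃ Ck : H →L[ℂ] H, IsCompactOperator Ck ∧ (1 - C) ^ k = 1 - Ck := by
  induction k with
  | zero => exact ⟨0, isCompactOperator_zero, by simp⟩
  | succ k ih =>
    obtain ⟨Ck, hCk, h⟩ := ih
    refine ⟨Ck + C - Ck * C, ?_, ?_⟩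
    · exact (hCk.add hC).sub (hC.clm_comp Ck)
    · rw [pow_succ, h]; noncomm_ring

theorem finiteDimensional_ker {C : H →L[ℂ] H} (hC : IsCompactOperator C) {F : Submodule ℂ H}
    (hF : ∀ x ∈ F, C x = x) (hFc : IsClosed (F : Set H)) : FiniteDimensional ℂ F := by
  have : CompleteSpace F := hFc.completeSpace_coe
  apply FiniteDimensional.of_isCompactOperator_id
  have h1 : IsCompactOperator (C ∘L F.subtypeL) := hC.comp_clm F.subtypeL
  have h2 : ∀ x : F, (C ∘L F.subtypeL) x ∈ F := by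
    intro x
    change C x ∈ F
    rw [hF x x.2]; exact x.2
  have h3 := h1.codRestrict (f := ((C ∘L F.subtypeL : F →L[ℂ] H) : F →ₗ[ℂ] H)) h2 hFc
  have h4 : (Set.codRestrict ((C ∘L F.subtypeL : F →L[ℂ] H) : F →ₗ[ℂ] H) F h2 : F → F) =
      id := by
    funext x
    apply Subtype.ext
    exact hF x x.2
  have h5 : IsCompactOperator (id : F → F) := by
    rw [← h4]; exact h3
  exact h5

/-- A compact perturbation of the identity that is injective is bijective. -/
theorem bijective_of_injective {C : H →L[ℂ] H} (hC : IsCompactOperator C)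
    (hinj : ∀ x, (1 - C) x = 0 → x = 0) : Function.Bijective (1 - C : H →L[ℂ] H) := by
  have h := IsCompactOperator.hasEigenvalue_or_mem_resolventSet (T := C) hC (μ := (1 : ℂ))
    one_ne_zero
  rcases h with h | h
  · exfalso
    obtain ⟨x, hx⟩ := h.exists_hasEigenvector
    apply hx.2
    apply hinj
    have h1 : C x = x := by
      have := hx.apply_eq_smul
      simpa using this
    simp [h1]
  · rw [spectrum.mem_resolventSet_iff, map_one] at h
    exact (ContinuousLinearMap.isUnit_iff_bijective).1 h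

omit [CompleteSpace H] in
theorem isCompact_starProjection (F : Submodule ℂ H) [FiniteDimensional ℂ F] :
    IsCompactOperator (F.starProjection : H →L[ℂ] H) := by
  have h1 : IsCompactOperator (F.orthogonalProjectionOnto : H →L[ℂ] F) :=
    isCompactOperator_of_locallyCompactSpace_dom _
  exact h1.clm_comp F.subtypeL

/-- Fitting decomposition of `1 - C`, `C` compact. -/
theorem fitting {C : H →L[ℂ] H} (hC : IsCompactOperator C) :
    ∃ k : ℕ, 1 ≤ k ∧ FiniteDimensional ℂ (LinearMap.ker (((1 - C) ^ k : H →L[ℂ] H) : H →ₗ[ℂ] H)) ∧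
      (∀ x, ((1 - C) ^ k) (((1 - C) ^ k) x) = 0 → ((1 - C) ^ k) x = 0) ∧
      ∀ y, ∃ x f, ((1 - C) ^ k) f = 0 ∧ y = ((1 - C) ^ k) x + f := by
  obtain ⟨k₀, hk₀⟩ := ascent hC
  set N : H →L[ℂ] H := 1 - C with hN
  have hstab : ∀ m, ∀ x, (N ^ (k₀ + m)) x = 0 → (N ^ k₀) x = 0 := by
    intro m
    induction m with
    | zero => intro x hx; exact hx
    | succ m ih =>
      intro x hx
      apply ih
      have h1 : (N ^ (k₀ + 1)) ((N ^ m) x) = 0 := by
        rw [← pow_add_apply]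
        rw [show k₀ + 1 + m = k₀ + (m + 1) by ring]
        exact hx
      have h2 := hk₀ _ h1
      rw [pow_add_apply]
      exact h2
  let k := k₀ + 1
  obtain ⟨Ck, hCk, hpow⟩ := pow_sub_compact hC k
  have hpow' : N ^ k = 1 - Ck := hpow
  have hkk : ∀ x, (N ^ k) ((N ^ k) x) = 0 → (N ^ k) x = 0 := by
    intro x hx
    rw [← pow_add_apply] at hx
    have h1 := hstab (k₀ + 2) x (by
      rw [show k₀ + (k₀ + 2) = k + k by simp only [k]; ring]; exact hx)
    exact pow_zero_of_le (Nat.le_succ k₀) h1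
  let F : Submodule ℂ H := LinearMap.ker ((N ^ k : H →L[ℂ] H) : H →ₗ[ℂ] H)
  have hmemF : ∀ x, x ∈ F ↔ (N ^ k) x = 0 := fun x => Iff.rfl
  have hFc : IsClosed (F : Set H) := (N ^ k).isClosed_ker
  have hFd : FiniteDimensional ℂ F := by
    apply finiteDimensional_ker hCk _ hFc
    intro x hx
    rw [hmemF, hpow'] at hx
    have : x - Ck x = 0 := hx
    exact (sub_eq_zero.1 this).symm
  refine ⟨k, by simp [k], hFd, hkk, ?_⟩
  let P : H →L[ℂ] H := F.starProjection
  have hP : IsCompactOperator P := isCompact_starProjection F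
  have hM : N ^ k + P = 1 - (Ck - P) := by rw [hpow']; abel
  have hbij : Function.Bijective (1 - (Ck - P) : H →L[ℂ] H) := by
    apply bijective_of_injective (hCk.sub hP)
    intro x hx
    rw [← hM] at hx
    have hx' : (N ^ k) x + P x = 0 := hx
    have hPx : P x ∈ F := F.starProjection_apply_mem x
    have h1 : (N ^ k) x = -P x := eq_neg_of_add_eq_zero_left hx'
    have h2 : (N ^ k) ((N ^ k) x) = 0 := by
      rw [h1, map_neg, (hmemF _).1 hPx, neg_zero]
    have h3 := hkk x h2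
    have h4 : P x = x := F.starProjection_eq_self_iff.2 ((hmemF x).2 h3)
    rw [h3, zero_add, h4] at hx'
    exact hx'
  intro y
  obtain ⟨x, hx⟩ := hbij.2 y
  rw [← hM] at hx
  refine ⟨x, P x, (hmemF _).1 (F.starProjection_apply_mem x), ?_⟩
  rw [← hx]; rfl

end Pool.Agent.Q86.Fitting
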