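import Pool.Agent.Q37.GU.Stm
import Pool.Agent.Q37.GU.Basic
import Pool.Agent.W327.F4.Chart

/-!
Project GU, P14: units on a cover of a product are locally products.
-/

set_option autoImplicit false

open CategoryTheory CategoryTheory.Limits AlgebraicGeometry Topology
open scoped TensorProduct

namespace Q86.GU_P14

open Pool.Agent.Q37.GU Pool.Agent.W481

/-- a smooth affine chart -/
theorem smooth_affine_chart (X : Over SpecC) (hX : Smooth X.hom) (x : Pt X) :
    ∃ (A : Type) (_ : CommRing A) (_ : Algebra ℂ A) (_ : Algebra.Smooth ℂ A)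
      (i : specOver A ⟶ X) (_ : IsOpenImmersion i.left) (φ : Sp A), (spPt φ).push i = x := by
  obtain ⟨A₀, _, _, i, hi, -, φ₀, hφ₀⟩ := exists_affine_chart X x ⊤ (mem_top x)
  have h1 : Smooth (i.left ≫ X.hom) := inferInstance
  rw [Over.w i] at h1
  have h2 : Algebra.Smooth ℂ A₀ := Pool.Agent.W327.F4.smooth_algebra h1
  exact ⟨A₀, inferInstance, inferInstance, h2, i, hi, φ₀, hφ₀⟩

/-- charts of a product -/
theorem prod_chart {X Y P : Over SpecC} (hX : Smooth X.hom) (hY : Smooth Y.hom) (p : P ⟶ X)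
    (q : P ⟶ Y) (hP : IsLimit (BinaryFan.mk p q)) (z : Pt P) :
    ∃ (A B : Type) (_ : CommRing A) (_ : CommRing B) (_ : Algebra ℂ A) (_ : Algebra ℂ B)
      (_ : Algebra.Smooth ℂ A) (_ : Algebra.Smooth ℂ B) (i : specOver A ⟶ X) (j : specOver B ⟶ Y)
      (_ : IsOpenImmersion i.left) (_ : IsOpenImmersion j.left) (m : specOver (A ⊗[ℂ] B) ⟶ P)
      (_ : IsOpenImmersion m.left),
      m ≫ p = specMap Algebra.TensorProduct.includeLeft ≫ i ∧
      m ≫ q = specMap Algebra.TensorProduct.includeRight ≫ j ∧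
      ∃ χ : Sp (A ⊗[ℂ] B), (spPt χ).push m = z := by
  have hinj : Function.Injective (fun a : Pt P => (a.push p, a.push q)) := by
    intro s t h
    exact BinaryFan.IsLimit.hom_ext hP (congrArg Prod.fst h) (congrArg Prod.snd h)
  let W : Over SpecC := Over.mk (pullback.fst X.hom Y.hom ≫ X.hom)
  let a : W ⟶ X := Over.homMk (pullback.fst X.hom Y.hom) rfl
  let b : W ⟶ Y := Over.homMk (pullback.snd X.hom Y.hom) pullback.condition.symm
  let c : P ⟶ W := Over.homMk (pullback.lift p.left q.left (by rw [Over.w, Over.w])) (by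
    show pullback.lift _ _ _ ≫ pullback.fst _ _ ≫ _ = _
    rw [← Category.assoc, pullback.lift_fst, Over.w])
  let d : W ⟶ P := (BinaryFan.IsLimit.lift' hP a b).1
  have hda : d ≫ p = a := (BinaryFan.IsLimit.lift' hP a b).2.1
  have hdb : d ≫ q = b := (BinaryFan.IsLimit.lift' hP a b).2.2
  have hca : c ≫ a = p := by
    ext1
    exact pullback.lift_fst _ _ _
  have hcb : c ≫ b = q := by
    ext1
    exact pullback.lift_snd _ _ _
  have hcd : c ≫ d = 𝟙 P := by
    apply BinaryFan.IsLimit.hom_ext hP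
    · show (c ≫ d) ≫ p = 𝟙 P ≫ p
      rw [Category.assoc, hda, hca, Category.id_comp]
    · show (c ≫ d) ≫ q = 𝟙 P ≫ q
      rw [Category.assoc, hdb, hcb, Category.id_comp]
  have hdc : d ≫ c = 𝟙 W := by
    ext1
    apply pullback.hom_ext
    · have h1 : (d ≫ c) ≫ a = a := by rw [Category.assoc, hca, hda]
      have h2 : (d ≫ c).left ≫ pullback.fst X.hom Y.hom = pullback.fst X.hom Y.hom :=
        congrArg CommaMorphism.left h1
      rw [h2]
      exact (Category.id_comp _).symm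
    · have h1 : (d ≫ c) ≫ b = b := by rw [Category.assoc, hcb, hdb]
      have h2 : (d ≫ c).left ≫ pullback.snd X.hom Y.hom = pullback.snd X.hom Y.hom :=
        congrArg CommaMorphism.left h1
      rw [h2]
      exact (Category.id_comp _).symm
  have hd' : IsIso d.left := by
    refine ⟨c.left, ?_, ?_⟩
    · exact congrArg CommaMorphism.left hdc
    · exact congrArg CommaMorphism.left hcd
  obtain ⟨A, _, _, _, i, hi, φ, hφ⟩ := smooth_affine_chart X hX (z.push p)
  obtain ⟨B, _, _, _, j, hj, ψ, hψ⟩ := smooth_affine_chart Y hY (z.push q)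
  obtain ⟨m', hm', hm1, hm2, hm3⟩ := @exists_tensor_pullback A B _ _ _ _ _ _ X.hom Y.hom
    i.left j.left hi hj (Over.w i).symm (Over.w j).symm
  let n : specOver (A ⊗[ℂ] B) ⟶ W := Over.homMk m' hm3
  let m : specOver (A ⊗[ℂ] B) ⟶ P := n ≫ d
  have hm : IsOpenImmersion m.left := by
    have : m.left = m' ≫ d.left := rfl
    rw [this]
    exact @IsOpenImmersion.comp _ _ _ _ _ hm' inferInstance
  have hmp : m ≫ p = specMap Algebra.TensorProduct.includeLeft ≫ i := by
    rw [show m ≫ p = n ≫ (d ≫ p) from Category.assoc _ _ _, hda]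
    ext1
    exact hm1
  have hmq : m ≫ q = specMap Algebra.TensorProduct.includeRight ≫ j := by
    rw [show m ≫ q = n ≫ (d ≫ q) from Category.assoc _ _ _, hdb]
    ext1
    exact hm2
  refine ⟨A, B, inferInstance, inferInstance, inferInstance, inferInstance, inferInstance,
    inferInstance, i, j, hi, hj, m, hm, hmp, hmq, ?_⟩
  let χ : Sp (A ⊗[ℂ] B) := Algebra.TensorProduct.lift (Sp.hom φ)
    (Sp.hom ψ) (fun _ _ => Commute.all _ _)
  have hχ1 : Sp.comap Algebra.TensorProduct.includeLeft χ = φ :=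
    Algebra.TensorProduct.lift_comp_includeLeft _ _ (fun _ _ => Commute.all _ _)
  have hχ2 : Sp.comap Algebra.TensorProduct.includeRight χ = ψ :=
    Algebra.TensorProduct.lift_comp_includeRight _ _ (fun _ _ => Commute.all _ _)
  refine ⟨χ, ?_⟩
  apply hinj
  refine Prod.ext ?_ ?_
  · show ((spPt χ).push m).push p = _
    rw [push_comp, hmp, ← push_comp, ← spPt_comap, hχ1, hφ]
  · show ((spPt χ).push m).push q = _
    rw [push_comp, hmq, ← push_comp, ← spPt_comap, hχ2, hψ]

theorem p14 (h11 : S_P11) (h13 : S_P13) : S_P14 := by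
  intro X Y P Z hX hY p q hP f hfe hff v hv z₀
  obtain ⟨A, B, _, _, _, _, _, _, i, j, hi, hj, m, hm, hmp, hmq, χ, hχ⟩ :=
    prod_chart hX hY p q hP (pushC f z₀)
  obtain ⟨C, _, _, _, _, k, hk, h1, h2, h3, h4⟩ := exists_cover_chart f hff (A ⊗[ℂ] B) m hm
  have h3' := h3 hfe
  obtain ⟨w, hw⟩ := h4 z₀ (spPt χ) hχ.symm
  obtain ⟨ψ₀, rfl⟩ := isHomeomorph_spPt.surjective w
  obtain ⟨v', hv'⟩ := unit_chart k v
  have hfA : Algebra.FiniteType ℂ A := inferInstance
  have hfB : Algebra.FiniteType ℂ B := inferInstance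
  have hfAB : Algebra.FiniteType ℂ (A ⊗[ℂ] B) :=
    Algebra.FiniteType.trans hfA (Algebra.FiniteType.baseChange A)
  have hft : Algebra.FiniteType ℂ C := Algebra.FiniteType.trans hfAB inferInstance
  have hu : IsUnit v' := h13 C v' fun ψ => by
    rw [← hv']
    exact hv _
  have hbij : Function.Bijective (Algebra.TensorProduct.lift
      (Algebra.TensorProduct.includeLeft : A →ₐ[ℂ] A ⊗[ℂ] B)
      (Algebra.TensorProduct.includeRight : B →ₐ[ℂ] A ⊗[ℂ] B) (fun _ _ => Commute.all _ _) :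
      A ⊗[ℂ] B →ₐ[ℂ] A ⊗[ℂ] B) := by
    rw [Algebra.TensorProduct.lift_includeLeft_includeRight]
    exact Function.bijective_id
  obtain ⟨N, hN, hid⟩ := h11 A B (A ⊗[ℂ] B) C Algebra.TensorProduct.includeLeft
    Algebra.TensorProduct.includeRight hbij v' hu ψ₀
  have hemb : IsOpenEmbedding (fun ψ : Sp C => (spPt ψ).push k) :=
    (isOpenEmbedding_push k).comp isHomeomorph_spPt.isOpenEmbedding
  have hcp : ∀ ψ : Sp C, pushC p (pushC f ((spPt ψ).push k)) =
      (spPt (Sp.comap Algebra.TensorProduct.includeLeft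
        (Sp.comap (IsScalarTower.toAlgHom ℂ (A ⊗[ℂ] B) C) ψ))).push i := fun ψ => by
    show (((spPt ψ).push k).push f).push p = _
    rw [push_comp k f, ← h1, ← push_comp, ← spPt_comap, push_comp m p, hmp, ← push_comp,
      ← spPt_comap]
  have hcq : ∀ ψ : Sp C, pushC q (pushC f ((spPt ψ).push k)) =
      (spPt (Sp.comap Algebra.TensorProduct.includeRight
        (Sp.comap (IsScalarTower.toAlgHom ℂ (A ⊗[ℂ] B) C) ψ))).push j := fun ψ => by
    show (((spPt ψ).push k).push f).push q = _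
    rw [push_comp k f, ← h1, ← push_comp, ← spPt_comap, push_comp m q, hmq, ← push_comp,
      ← spPt_comap]
  have hp' : ∀ ψ ψ' : Sp C, pushC p (pushC f ((spPt ψ).push k)) =
      pushC p (pushC f ((spPt ψ').push k)) → ∀ a : A,
      ψ.hom (algebraMap (A ⊗[ℂ] B) C (Algebra.TensorProduct.includeLeft (R := ℂ) (S := ℂ)
        (B := B) a)) =
      ψ'.hom (algebraMap (A ⊗[ℂ] B) C (Algebra.TensorProduct.includeLeft (R := ℂ) (S := ℂ)
        (B := B) a)) := by
    intro ψ ψ' h a
    rw [hcp, hcp] at h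
    have h5 := isHomeomorph_spPt.injective ((isOpenEmbedding_push i).injective h)
    exact DFunLike.congr_fun (show _ = (_ : A →ₐ[ℂ] ℂ) from h5) a
  have hq' : ∀ ψ ψ' : Sp C, pushC q (pushC f ((spPt ψ).push k)) =
      pushC q (pushC f ((spPt ψ').push k)) → ∀ b : B,
      ψ.hom (algebraMap (A ⊗[ℂ] B) C (Algebra.TensorProduct.includeRight (R := ℂ)
        (A := A) b)) =
      ψ'.hom (algebraMap (A ⊗[ℂ] B) C (Algebra.TensorProduct.includeRight (R := ℂ)
        (A := A) b)) := by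
    intro ψ ψ' h b
    rw [hcq, hcq] at h
    have h5 := isHomeomorph_spPt.injective ((isOpenEmbedding_push j).injective h)
    exact DFunLike.congr_fun (show _ = (_ : B →ₐ[ℂ] ℂ) from h5) b
  refine ⟨(fun ψ : Sp C => (spPt ψ).push k) '' N, ?_, ?_⟩
  · rw [← hw]
    exact hemb.image_mem_nhds.2 hN
  · rintro _ ⟨ψ, hψ, rfl⟩ _ ⟨ψ₁, hψ₁, rfl⟩ _ ⟨ψ₂, hψ₂, rfl⟩ e1 e2 e3 e4
    rw [← hw] at e2 e3
    have h6 := hid ψ hψ ψ₁ hψ₁ ψ₂ hψ₂ (hp' _ _ e1) (hq' _ _ e2) (hp' _ _ e3) (hq' _ _ e4)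
    rw [← hw]
    have e : ∀ ψ : Sp C, vf v ((spPt ψ).push k) = ψ.hom v' := fun ψ => hv' ψ
    show vf v ((spPt ψ).push k) * vf v ((spPt ψ₀).push k) =
      vf v ((spPt ψ₁).push k) * vf v ((spPt ψ₂).push k)
    rw [e, e, e, e]
    exact h6

end Q86.GU_P14
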