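import Pool.Agent.Q37.GU.Stm
import Pool.Agent.Q37.GU.Basic

/-!
Project GU, P15: a branch on a product comes from a factor, as a germ.
-/

set_option autoImplicit false

open CategoryTheory CategoryTheory.Limits AlgebraicGeometry Topology

namespace Q86.GU_P15

open Pool.Agent.Q37.GU Pool.Agent.W481

/-- the topological core -/
theorem core {S1 S2 P Z : Type} [TopologicalSpace S1] [TopologicalSpace S2] [TopologicalSpace P]
    [TopologicalSpace Z] (p : C(P, S1)) (q : C(P, S2))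
    (hpq : IsHomeomorph (fun b : P => (p b, q b))) (f : C(Z, P)) (hf : IsLocalHomeomorph f)
    (h : Z → ℂ) (z₀ : Z) (a : P) (hz : f z₀ = a) (N : Set Z) (hN : N ∈ 𝓝 z₀)
    (hid : ∀ z ∈ N, ∀ z₁ ∈ N, ∀ z₂ ∈ N, p (f z₁) = p (f z) → q (f z₁) = q (f z₀) →
      p (f z₂) = p (f z₀) → q (f z₂) = q (f z) →
      h z * h z₀ = h z₁ * h z₂ ∧ (h z - 1) * (h z₀ - 1) = (h z₁ - 1) * (h z₂ - 1))
    (g : G a) (hg : gp f hz g = gm h z₀) :
    (∃ g₁ : G (p a), g = gp p rfl g₁) ∨ ∃ g₂ : G (q a), g = gp q rfl g₂ := by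
  subst hz
  obtain ⟨v, rfl⟩ := exists_gm g
  rw [gp_gm, gm_eq_iff] at hg
  obtain ⟨e, he, hfe⟩ := hf z₀
  have hfe' : ∀ z, f z = e z := fun z => congrFun hfe z
  have hsc : ContinuousAt e.symm (f z₀) := by
    rw [hfe']
    exact e.continuousAt_symm (e.map_source he)
  have hs0 : e.symm (f z₀) = z₀ := by
    rw [hfe']
    exact e.left_inv he
  have htgt : e.target ∈ 𝓝 (f z₀) := by
    rw [hfe']
    exact e.open_target.mem_nhds (e.map_source he)
  have hO : {b | b ∈ e.target ∧ e.symm b ∈ N} ∈ 𝓝 (f z₀) := by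
    refine Filter.inter_mem htgt (hsc.preimage_mem_nhds ?_)
    rw [hs0]
    exact hN
  have hfs : ∀ b ∈ e.target, f (e.symm b) = b := fun b hb => by
    rw [hfe']
    exact e.right_inv hb
  -- the inverse of the homeomorphism
  let Φ : P ≃ₜ S1 × S2 := hpq.homeomorph
  have hΦ : ∀ b, Φ b = (p b, q b) := fun b => rfl
  have hO' : (Φ.symm) ⁻¹' {b | b ∈ e.target ∧ e.symm b ∈ N} ∈ 𝓝 (p (f z₀), q (f z₀)) := by
    refine Φ.symm.continuous.continuousAt.preimage_mem_nhds ?_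
    rw [← hΦ, Φ.symm_apply_apply]
    exact hO
  rw [nhds_prod_eq, Filter.mem_prod_iff] at hO'
  obtain ⟨N1, hN1, N2, hN2, hsub⟩ := hO'
  have hx0 : p (f z₀) ∈ N1 := mem_of_mem_nhds hN1
  have hy0 : q (f z₀) ∈ N2 := mem_of_mem_nhds hN2
  let s : S1 × S2 → Z := fun w => e.symm (Φ.symm w)
  have hsN : ∀ x ∈ N1, ∀ y ∈ N2, s (x, y) ∈ N := fun x hx y hy => (hsub (Set.mk_mem_prod hx hy)).2
  have hst : ∀ x ∈ N1, ∀ y ∈ N2, f (s (x, y)) = Φ.symm (x, y) := fun x hx y hy =>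
    hfs _ (hsub (Set.mk_mem_prod hx hy)).1
  have hps : ∀ x ∈ N1, ∀ y ∈ N2, p (f (s (x, y))) = x ∧ q (f (s (x, y))) = y := by
    intro x hx y hy
    rw [hst x hx y hy]
    have h1 := hΦ (Φ.symm (x, y))
    rw [Φ.apply_symm_apply] at h1
    exact ⟨(congrArg Prod.fst h1).symm, (congrArg Prod.snd h1).symm⟩
  have hs00 : s (p (f z₀), q (f z₀)) = z₀ := by
    show e.symm (Φ.symm (p (f z₀), q (f z₀))) = z₀
    rw [← hΦ, Φ.symm_apply_apply, hs0]
  set c := h z₀ with hc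
  have hrel : ∀ x ∈ N1, ∀ y ∈ N2,
      h (s (x, y)) + c = h (s (x, q (f z₀))) + h (s (p (f z₀), y)) ∧
      (h (s (x, q (f z₀))) - c) * (h (s (p (f z₀), y)) - c) = 0 := by
    intro x hx y hy
    obtain ⟨h1, h2⟩ := hid _ (hsN x hx y hy) _ (hsN x hx _ hy0) _ (hsN _ hx0 y hy)
      (by rw [(hps x hx _ hy0).1, (hps x hx y hy).1]) (hps x hx _ hy0).2
      (hps _ hx0 y hy).1 (by rw [(hps _ hx0 y hy).2, (hps x hx y hy).2])
    have h3 : h (s (x, y)) + c = h (s (x, q (f z₀))) + h (s (p (f z₀), y)) := by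
      linear_combination h1 - h2
    refine ⟨h3, ?_⟩
    linear_combination c * h3 - h1
  -- the function near `f z₀`
  have hv : ∀ᶠ b in 𝓝 (f z₀), v b = h (s (p b, q b)) := by
    have h1 : ∀ᶠ b in 𝓝 (f z₀), v (f (e.symm b)) = h (e.symm b) := by
      have h2 : Filter.Tendsto e.symm (𝓝 (f z₀)) (𝓝 z₀) := by
        have := hsc.tendsto
        rwa [hs0] at this
      exact h2.eventually hg
    filter_upwards [h1, htgt] with b hb hbt
    rw [hfs b hbt] at hb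
    rw [hb]
    show h (e.symm b) = h (e.symm (Φ.symm (p b, q b)))
    rw [← hΦ, Φ.symm_apply_apply]
  have hnear : ∀ᶠ b in 𝓝 (f z₀), p b ∈ N1 ∧ q b ∈ N2 :=
    (p.continuous.continuousAt.preimage_mem_nhds hN1 |> fun h1 =>
      Filter.inter_mem h1 (q.continuous.continuousAt.preimage_mem_nhds hN2))
  by_cases hA : ∀ x ∈ N1, h (s (x, q (f z₀))) = c
  · right
    refine ⟨gm (fun y => h (s (p (f z₀), y))) _, ?_⟩
    rw [gp_gm, gm_eq_iff]
    filter_upwards [hv, hnear] with b hb hbn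
    rw [hb]
    have h1 := (hrel _ hbn.1 _ hbn.2).1
    rw [hA _ hbn.1] at h1
    linear_combination h1
  · left
    simp only [not_forall] at hA
    obtain ⟨x, hx, hxc⟩ := hA
    have hB : ∀ y ∈ N2, h (s (p (f z₀), y)) = c := by
      intro y hy
      rcases mul_eq_zero.1 (hrel x hx y hy).2 with h1 | h1
      · exact absurd (sub_eq_zero.1 h1) hxc
      · exact sub_eq_zero.1 h1
    refine ⟨gm (fun x => h (s (x, q (f z₀)))) _, ?_⟩
    rw [gp_gm, gm_eq_iff]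
    filter_upwards [hv, hnear] with b hb hbn
    rw [hb]
    have h1 := (hrel _ hbn.1 _ hbn.2).1
    rw [hB _ hbn.2] at h1
    linear_combination h1

theorem p15 (h14 : S_P14) : S_P15 := by
  intro μ X Y P hX hY p q hP a g hg
  obtain ⟨Z, f, h1, h2, u, hu, z, hz, e⟩ := hg
  obtain ⟨N, hN, hid⟩ := h14 X Y P Z hX hY p q hP f h1 h2 u (fun z => (hu z).1) z
  obtain ⟨N', hN', hid'⟩ := h14 X Y P Z hX hY p q hP f h1 h2 (u - 1)
    (fun z => by rw [vf_sub, vf_one]; exact sub_ne_zero.2 (hu z).2.1) z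
  refine core (pushC p) (pushC q) (prod_homeo p q hP) (pushC f)
    (cover_main f h1 h2).1.isLocalHomeomorph (vf u) z a hz (N ∩ N') (Filter.inter_mem hN hN')
    ?_ g e
  intro w hw w₁ hw₁ w₂ hw₂ e1 e2 e3 e4
  refine ⟨hid w hw.1 w₁ hw₁.1 w₂ hw₂.1 e1 e2 e3 e4, ?_⟩
  have := hid' w hw.2 w₁ hw₁.2 w₂ hw₂.2 e1 e2 e3 e4
  simpa only [vf_sub, vf_one] using this

end Q86.GU_P15
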