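import Pool.Agent.Q37.GU.Stm
import Pool.Agent.Q37.GU.Basic

/-!
Project GU, P16: the nonconstant branches of a product.
-/

set_option autoImplicit false

open CategoryTheory CategoryTheory.Limits AlgebraicGeometry Topology

namespace Q86.GU_P16

open Pool.Agent.Q37.GU Pool.Agent.W481

/-- pull-back along a section -/
theorem gp_section {T S : Type} [TopologicalSpace T] [TopologicalSpace S] (i : C(T, S))
    (p : C(S, T)) (h : ∀ t, p (i t) = t) {a : S} (e : i (p a) = a) (g : G (p a)) :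
    gp i e (gp p rfl g) = g := by
  obtain ⟨v, rfl⟩ := exists_gm g
  rw [gp_gm, gp_gm]
  congr 1
  funext t
  rw [h]

/-- pull-back along a constant map -/
theorem gp_const {T S R : Type} [TopologicalSpace T] [TopologicalSpace S] [TopologicalSpace R]
    (i : C(T, S)) (q : C(S, R)) {t₀ : T} {a : S} (h : ∀ t, q (i t) = q a) (e : i t₀ = a)
    (g : G (q a)) : Cst (gp i e (gp q rfl g)) := by
  obtain ⟨v, rfl⟩ := exists_gm g
  refine ⟨v (q a), ?_⟩
  rw [gp_gm, gp_gm]
  congr 1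
  funext t
  rw [h]

theorem p16 (h15 : S_P15) (h7 : S_T7a) : S_P16 := by
  intro μ X Y P hX hY p q hP a
  let i₁ : X ⟶ P := (BinaryFan.IsLimit.lift' hP (𝟙 X) (constHom X (a.push q))).1
  have hi₁ : i₁ ≫ p = 𝟙 X := (BinaryFan.IsLimit.lift' hP (𝟙 X) (constHom X (a.push q))).2.1
  have hi₁' : i₁ ≫ q = constHom X (a.push q) :=
    (BinaryFan.IsLimit.lift' hP (𝟙 X) (constHom X (a.push q))).2.2
  let i₂ : Y ⟶ P := (BinaryFan.IsLimit.lift' hP (constHom Y (a.push p)) (𝟙 Y)).1
  have hi₂ : i₂ ≫ p = constHom Y (a.push p) :=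
    (BinaryFan.IsLimit.lift' hP (constHom Y (a.push p)) (𝟙 Y)).2.1
  have hi₂' : i₂ ≫ q = 𝟙 Y := (BinaryFan.IsLimit.lift' hP (constHom Y (a.push p)) (𝟙 Y)).2.2
  have hb := (prod_homeo p q hP).bijective
  have hinj : ∀ s t : Pt P, s.push p = t.push p → s.push q = t.push q → s = t :=
    fun s t h h' => hb.1 (Prod.ext h h')
  have k1 : ∀ x : Pt X, (x.push i₁).push p = x := fun x => by
    rw [push_comp, hi₁]; exact Category.comp_id _
  have k2 : ∀ x : Pt X, (x.push i₁).push q = a.push q := fun x => by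
    rw [push_comp, hi₁']; exact push_constHom _ _
  have k3 : ∀ y : Pt Y, (y.push i₂).push q = y := fun y => by
    rw [push_comp, hi₂']; exact Category.comp_id _
  have k4 : ∀ y : Pt Y, (y.push i₂).push p = a.push p := fun y => by
    rw [push_comp, hi₂]; exact push_constHom _ _
  have e1 : pushC i₁ (pushC p a) = a := hinj _ _ (k1 _) (k2 _)
  have e2 : pushC i₂ (pushC q a) = a := hinj _ _ (k4 _) (k3 _)
  have s1 : ∀ g : G (pushC p a), gp (pushC i₁) e1 (gp (pushC p) rfl g) = g :=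
    fun g => gp_section (pushC i₁) (pushC p) k1 e1 g
  have s2 : ∀ g : G (pushC q a), gp (pushC i₂) e2 (gp (pushC q) rfl g) = g :=
    fun g => gp_section (pushC i₂) (pushC q) k3 e2 g
  have c1 : ∀ g : G (pushC q a), Cst (gp (pushC i₁) e1 (gp (pushC q) rfl g)) :=
    fun g => gp_const (pushC i₁) (pushC q) k2 e1 g
  have n1 : ∀ g : G (pushC p a), ¬ Cst g → ¬ Cst (gp (pushC p) (rfl : pushC p a = _) g) := by
    intro g hg hc
    apply hg
    rw [← s1 g]
    exact cst_gp _ _ hc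
  have n2 : ∀ g : G (pushC q a), ¬ Cst g → ¬ Cst (gp (pushC q) (rfl : pushC q a = _) g) := by
    intro g hg hc
    apply hg
    rw [← s2 g]
    exact cst_gp _ _ hc
  let F : NB μ X (pushC p a) ⊕ NB μ Y (pushC q a) → NB μ P a := fun z =>
    Sum.elim (fun g => (⟨gp (pushC p) rfl g.1, h7 μ P X p a _ rfl g.1 g.2.1, n1 g.1 g.2.2⟩ :
        NB μ P a))
      (fun g => ⟨gp (pushC q) rfl g.1, h7 μ P Y q a _ rfl g.1 g.2.1, n2 g.1 g.2.2⟩) z
  have hF1 : ∀ g, (F (Sum.inl g)).1 = gp (pushC p) rfl g.1 := fun g => rfl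
  have hF2 : ∀ g, (F (Sum.inr g)).1 = gp (pushC q) rfl g.1 := fun g => rfl
  have hFi : Function.Injective F := by
    rintro (g | g) (g' | g') hgg
    · have h := congrArg Subtype.val hgg
      rw [hF1, hF1] at h
      have h2 := congrArg (gp (pushC i₁) e1) h
      rw [s1, s1] at h2
      exact congrArg Sum.inl (Subtype.ext h2)
    · have h := congrArg Subtype.val hgg
      rw [hF1, hF2] at h
      have h2 := congrArg (gp (pushC i₁) e1) h
      rw [s1] at h2
      exact absurd (h2 ▸ c1 g'.1) g.2.2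
    · have h := congrArg Subtype.val hgg
      rw [hF1, hF2] at h
      have h2 := congrArg (gp (pushC i₁) e1) h.symm
      rw [s1] at h2
      exact absurd (h2 ▸ c1 g.1) g'.2.2
    · have h := congrArg Subtype.val hgg
      rw [hF2, hF2] at h
      have h2 := congrArg (gp (pushC i₂) e2) h
      rw [s2, s2] at h2
      exact congrArg Sum.inr (Subtype.ext h2)
  have hFs : Function.Surjective F := by
    rintro ⟨g, hbr, hnc⟩
    rcases h15 μ X Y P hX hY p q hP a g hbr with ⟨g₁, hg⟩ | ⟨g₂, hg⟩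
    · have hg1 : g₁ = gp (pushC i₁) e1 g := by rw [hg, s1]
      have hb1 : IsBr μ X (pushC p a) g₁ := by
        rw [hg1]
        exact h7 μ X P i₁ (pushC p a) a e1 g hbr
      have hc1 : ¬ Cst g₁ := fun hc => hnc (by rw [hg]; exact cst_gp _ _ hc)
      exact ⟨Sum.inl ⟨g₁, hb1, hc1⟩, Subtype.ext hg.symm⟩
    · have hg1 : g₂ = gp (pushC i₂) e2 g := by rw [hg, s2]
      have hb1 : IsBr μ Y (pushC q a) g₂ := by
        rw [hg1]
        exact h7 μ Y P i₂ (pushC q a) a e2 g hbr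
      have hc1 : ¬ Cst g₂ := fun hc => hnc (by rw [hg]; exact cst_gp _ _ hc)
      exact ⟨Sum.inr ⟨g₂, hb1, hc1⟩, Subtype.ext hg.symm⟩
  exact ⟨Equiv.ofBijective F ⟨hFi, hFs⟩, hF1, hF2⟩

end Q86.GU_P16
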