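import Mathlib

set_option autoImplicit false

/-!
# Arens-Michael envelopes of Hopf algebras
-/

namespace Pool.Agent.Q86.AMEnv

open scoped TensorProduct Topology

/-- A seminorm on an algebra is submultiplicative. -/
def Submult {A : Type} [Ring A] [Algebra ℂ A] (p : Seminorm ℂ A) : Prop :=
  ∀ a b, p (a * b) ≤ p a * p b

/-- An Arens-Michael algebra: a complete Hausdorff locally convex algebra whose topology is
defined by a family of submultiplicative seminorms, that is, every neighbourhood of `0` contains
the open unit ball of a continuous submultiplicative seminorm. -/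
structure AMAlgebra : Type 1 where
  carrier : Type
  [ring : Ring carrier]
  [algebra : Algebra ℂ carrier]
  [uniform : UniformSpace carrier]
  [uniformAddGroup : IsUniformAddGroup carrier]
  [continuousSMul : ContinuousSMul ℂ carrier]
  [hausdorff : T2Space carrier]
  [complete : CompleteSpace carrier]
  generated : ∀ V ∈ 𝓝 (0 : carrier), ∃ p : Seminorm ℂ carrier,
    Continuous p ∧ Submult p ∧ ∀ x, p x < 1 → x ∈ V

attribute [instance] AMAlgebra.ring AMAlgebra.algebra AMAlgebra.uniform
  AMAlgebra.uniformAddGroup AMAlgebra.continuousSMul AMAlgebra.hausdorff AMAlgebra.complete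

/-- An Arens-Michael envelope of the algebra `A`: the completion of `A` with respect to the family
of all submultiplicative seminorms, that is, an Arens-Michael algebra with a homomorphism
from `A` with dense range along which every submultiplicative seminorm of `A` extends
continuously. -/
structure Envelope (A : Type) [Ring A] [Algebra ℂ A] : Type 1 where
  target : AMAlgebra
  map : A →ₐ[ℂ] target.carrier
  dense : DenseRange map
  extends_seminorm : ∀ p : Seminorm ℂ A, Submult p →
    ∃ q : Seminorm ℂ target.carrier, Continuous q ∧ ∀ a, q (map a) = p a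

section defs

variable {A B A' B' : Type} [Ring A] [Algebra ℂ A] [Ring B] [Algebra ℂ B] [Ring A'] [Algebra ℂ A']
  [Ring B'] [Algebra ℂ B']

/-- `Induces P Q f F`: the map `F` between the envelopes `P` and `Q` is the continuous map induced
by `f`. -/
def Induces (P : Envelope A) (Q : Envelope B) (f : A → B)
    (F : P.target.carrier → Q.target.carrier) : Prop :=
  Continuous F ∧ ∀ a, F (P.map a) = Q.map (f a)

/-- `Intertwines f f' φ ψ`: the maps `F` and `F'` of the envelopes induced by `f : A → B` and by
`f' : A' → B'` satisfy `ψ ∘ F = F' ∘ φ`. -/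
def Intertwines {P : Envelope A} {Q : Envelope B} {P' : Envelope A'} {Q' : Envelope B'}
    (f : A → B) (f' : A' → B') (φ : P.target.carrier → P'.target.carrier)
    (ψ : Q.target.carrier → Q'.target.carrier) : Prop :=
  ∃ F F', Induces P Q f F ∧ Induces P' Q' f' F' ∧ ∀ x, ψ (F x) = F' (φ x)

/-- `IntertwinesFunctional e e' φ`: the continuous functionals `F` and `F'` on the envelopes
induced by `e : A → ℂ` and by `e' : A' → ℂ` satisfy `F = F' ∘ φ`. -/
def IntertwinesFunctional {P : Envelope A} {P' : Envelope A'} (e : A → ℂ) (e' : A' → ℂ)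
    (φ : P.target.carrier → P'.target.carrier) : Prop :=
  ∃ (F : P.target.carrier → ℂ) (F' : P'.target.carrier → ℂ),
    (Continuous F ∧ ∀ a, F (P.map a) = e a) ∧ (Continuous F' ∧ ∀ a, F' (P'.map a) = e' a) ∧
    ∀ x, F x = F' (φ x)

/-- `φ` is an isomorphism of topological algebras. -/
def IsTopIso {P Q : AMAlgebra} (φ : P.carrier → Q.carrier) : Prop :=
  IsHomeomorph φ ∧ ∃ f : P.carrier →ₐ[ℂ] Q.carrier, ∀ x, f x = φ x

end defs

section hopf

section sq

variable (H : Type) [Ring H] [Algebra ℂ H]

/-- The algebra `H ⊗ H`. -/
def Sq : Type := H ⊗[ℂ] H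

noncomputable instance sqRing : Ring (Sq H) := inferInstanceAs (Ring (H ⊗[ℂ] H))

noncomputable instance sqAlgebra : Algebra ℂ (Sq H) := inferInstanceAs (Algebra ℂ (H ⊗[ℂ] H))

variable {H} in
/-- The element `a ⊗ b` of `H ⊗ H`. -/
noncomputable def tens (a b : H) : Sq H := a ⊗ₜ[ℂ] b

end sq

/-- A complex Hopf algebra. -/
structure HopfAlg : Type 1 where
  carrier : Type
  [ring : Ring carrier]
  [hopf : HopfAlgebra ℂ carrier]

attribute [instance] HopfAlg.ring HopfAlg.hopf

noncomputable instance HopfAlg.algebra (H : HopfAlg) : Algebra ℂ H.carrier := inferInstance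

/-- The comultiplication. -/
noncomputable def HopfAlg.comul (H : HopfAlg) : H.carrier → Sq H.carrier :=
  fun h => Coalgebra.comul (R := ℂ) h

/-- The counit. -/
noncomputable def HopfAlg.counit (H : HopfAlg) : H.carrier → ℂ :=
  fun h => Coalgebra.counit (R := ℂ) h

/-- The antipode. -/
noncomputable def HopfAlg.antipode (H : HopfAlg) : H.carrier → H.carrier :=
  fun h => HopfAlgebra.antipode ℂ h

/-- The envelopes of a Hopf algebra `H` and of `H ⊗ H`; the latter is the completed projective
tensor square of the former. -/
structure HopfEnvelope (H : HopfAlg) : Type 1 where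
  one : Envelope H.carrier
  two : Envelope (Sq H.carrier)

variable {H K : HopfAlg}

/-- `φ ⊗̂ φ = ψ`: the map `ψ` is compatible with the maps `x ↦ x ⊗ 1` and `x ↦ 1 ⊗ x`. -/
def IsTensorSquare (P : HopfEnvelope H) (Q : HopfEnvelope K)
    (φ : P.one.target.carrier → Q.one.target.carrier)
    (ψ : P.two.target.carrier → Q.two.target.carrier) : Prop :=
  Intertwines (fun h => tens h 1) (fun k => tens k 1) φ ψ ∧
    Intertwines (fun h => tens 1 h) (fun k => tens 1 k) φ ψ

/-- The pair `φ`, `ψ = φ ⊗̂ φ` is compatible with the comultiplications. -/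
def PreservesComul (P : HopfEnvelope H) (Q : HopfEnvelope K)
    (φ : P.one.target.carrier → Q.one.target.carrier)
    (ψ : P.two.target.carrier → Q.two.target.carrier) : Prop :=
  Intertwines H.comul K.comul φ ψ

/-- The map `φ` is compatible with the counits. -/
def PreservesCounit (P : HopfEnvelope H) (Q : HopfEnvelope K)
    (φ : P.one.target.carrier → Q.one.target.carrier) : Prop :=
  IntertwinesFunctional H.counit K.counit φ

/-- The map `φ` is compatible with the antipodes. -/
def PreservesAntipode (P : HopfEnvelope H) (Q : HopfEnvelope K)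
    (φ : P.one.target.carrier → Q.one.target.carrier) : Prop :=
  Intertwines H.antipode K.antipode φ φ

/-- The envelopes of the Hopf algebras `H` and `K` are isomorphic as Hopf `⊗̂`-algebras: there is
an isomorphism `φ` of topological algebras compatible with comultiplication, counit and antipode.
Here `ψ` is `φ ⊗̂ φ`. -/
def IsoHopf (P : HopfEnvelope H) (Q : HopfEnvelope K) : Prop :=
  ∃ (φ : P.one.target.carrier → Q.one.target.carrier)
    (ψ : P.two.target.carrier → Q.two.target.carrier),
    IsTopIso φ ∧ IsTopIso ψ ∧ IsTensorSquare P Q φ ψ ∧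
    PreservesComul P Q φ ψ ∧ PreservesCounit P Q φ ∧ PreservesAntipode P Q φ

/-- The Hopf algebra `H` is affine: it is finitely generated as an algebra. -/
def HopfAlg.IsAffine (H : HopfAlg) : Prop := Algebra.FiniteType ℂ H.carrier

/-- The Hopf algebras `H` and `K` are isomorphic: there is a bijective algebra homomorphism
compatible with the comultiplications and the counits (hence also with the antipodes). -/
def Isomorphic (H K : HopfAlg) : Prop := Nonempty (H.carrier ≃ₐc[ℂ] K.carrier)

end hopf

end Pool.Agent.Q86.AMEnv
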