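import Pool.Agent.Q86.EnvHopf

set_option autoImplicit false

/-!
# The enveloping algebra of the Lie algebra of derivations of `ℂ[X]`
-/

namespace Pool.Agent.Q86.WittHopf

open Pool.Agent.Q86.EnvHopf
open Polynomial

attribute [local instance 100] LieRing.ofAssociativeRing

/-- The Lie algebra of derivations of the polynomial algebra `ℂ[X]`. -/
abbrev L : Type := Derivation ℂ ℂ[X] ℂ[X]

/-- The derivation `f d/dX`. -/
noncomputable def vf : ℂ[X] →ₗ[ℂ] L where
  toFun f := f • (Polynomial.derivative' : Derivation ℂ ℂ[X] ℂ[X])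
  map_add' f g := add_smul f g _
  map_smul' c f := by rw [smul_assoc]; rfl

theorem vf_apply (f g : ℂ[X]) : vf f g = f * derivative g := rfl

theorem eq_vf (D : L) : D = vf (D X) := by
  apply Polynomial.derivation_ext
  rw [vf_apply, derivative_X, mul_one]

/-- The derivation `Xⁿ d/dX`. -/
noncomputable def E (n : ℕ) : L := vf (X ^ n)

theorem lie_E (m n : ℕ) : ⁅E (m + 1), E n⁆ = ((n : ℂ) - ((m : ℂ) + 1)) • E (m + n) := by
  apply Polynomial.derivation_ext
  rw [Derivation.commutator_apply, Derivation.smul_apply]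
  simp only [E, vf_apply, derivative_X, mul_one, derivative_X_pow]
  rcases n with _ | n
  · simp only [Nat.cast_zero, zero_sub, Nat.cast_add, Nat.cast_one, pow_zero, one_mul]
    simp [Polynomial.smul_eq_C_mul, sub_eq_add_neg, mul_comm]
    ring
  · simp only [Nat.add_sub_cancel, Polynomial.smul_eq_C_mul, Nat.cast_add, Nat.cast_one, map_sub,
      map_add, map_one, map_natCast]
    ring

theorem lie_E0 (n : ℕ) : ⁅E 0, E (n + 1)⁆ = ((n : ℂ) + 1) • E n := by
  apply Polynomial.derivation_ext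
  rw [Derivation.commutator_apply, Derivation.smul_apply]
  simp only [E, vf_apply, derivative_X, mul_one, derivative_X_pow, Nat.add_sub_cancel,
    Polynomial.smul_eq_C_mul, pow_zero, one_mul, derivative_one, mul_zero, sub_zero,
    Nat.cast_add, Nat.cast_one, map_add, map_one, map_natCast]

/-- The generator of the enveloping algebra given by `E n`. -/
noncomputable def g (n : ℕ) : U ℂ L := ii ℂ (E n)

theorem ii_smul (c : ℂ) (x : L) : ii ℂ (c • x) = c • ii ℂ x :=
  map_smul (UniversalEnvelopingAlgebra.ι ℂ : L →ₗ⁅ℂ⁆ U ℂ L) c x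

theorem ii_add (x y : L) : ii ℂ (x + y) = ii ℂ x + ii ℂ y :=
  map_add (UniversalEnvelopingAlgebra.ι ℂ : L →ₗ⁅ℂ⁆ U ℂ L) x y

theorem g_succ_mul (m n : ℕ) :
    g (m + 1) * g n - g n * g (m + 1) = ((n : ℂ) - ((m : ℂ) + 1)) • g (m + n) := by
  rw [g, g, g, ← ii_lie, lie_E, ii_smul]

theorem g_zero_mul (n : ℕ) :
    g 0 * g (n + 1) - g (n + 1) * g 0 = ((n : ℂ) + 1) • g n := by
  rw [g, g, g, ← ii_lie, lie_E0, ii_smul]

theorem g_ne_zero : g 0 ≠ 0 := by
  intro h
  -- the natural representation on `ℂ[X]`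
  let φ : L →ₗ⁅ℂ⁆ Module.End ℂ ℂ[X] :=
    { toFun := fun D => (D : ℂ[X] →ₗ[ℂ] ℂ[X])
      map_add' := fun _ _ => rfl
      map_smul' := fun _ _ => rfl
      map_lie' := fun {D₁ D₂} => by
        ext1 f
        rfl }
  have h1 : UniversalEnvelopingAlgebra.lift ℂ φ (g 0) = φ (E 0) :=
    UniversalEnvelopingAlgebra.lift_ι_apply ℂ φ (E 0)
  rw [h, map_zero] at h1
  have h2 : φ (E 0) X = 1 := by
    change vf (X ^ 0) X = 1
    rw [vf_apply, derivative_X, pow_zero, mul_one]
  rw [← h1] at h2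
  simp at h2

theorem seminorm_comm_le {p : Seminorm ℂ (U ℂ L)} (hp : ∀ a b, p (a * b) ≤ p a * p b)
    (a b : U ℂ L) : p (a * b - b * a) ≤ 2 * p a * p b := by
  calc p (a * b - b * a) ≤ p (a * b) + p (b * a) := map_sub_le_add _ _ _
    _ ≤ p a * p b + p b * p a := add_le_add (hp _ _) (hp _ _)
    _ = 2 * p a * p b := by ring

/-- Every submultiplicative seminorm vanishes on all the `g n`. -/
theorem seminorm_g {p : Seminorm ℂ (U ℂ L)} (hp : ∀ a b, p (a * b) ≤ p a * p b) (n : ℕ) :
    p (g n) = 0 := by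
  -- for large `n`
  obtain ⟨N, hN⟩ := exists_nat_gt (2 * p (g 1) + 1)
  have hlarge : ∀ m, N ≤ m → p (g m) = 0 := by
    intro m hm
    have h1 := seminorm_comm_le hp (g 1) (g m)
    have h2 := g_succ_mul 0 m
    rw [zero_add] at h2
    rw [h2, map_smul_eq_mul] at h1
    have h3 : ‖((m : ℂ) - (((0 : ℕ) : ℂ) + 1))‖ = (m : ℝ) - 1 := by
      have h4 : (1 : ℝ) ≤ m := by
        have := apply_nonneg p (g 1)
        have h5 : (N : ℝ) ≤ m := by exact_mod_cast hm
        linarith
      have h5 : ((m : ℂ) - (((0 : ℕ) : ℂ) + 1)) = (((m : ℝ) - 1 : ℝ) : ℂ) := by push_cast; ring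
      rw [h5, Complex.norm_real, Real.norm_eq_abs, abs_of_nonneg (by linarith)]
    rw [h3, zero_add] at h1
    have h5 : (N : ℝ) ≤ m := by exact_mod_cast hm
    have h6 := apply_nonneg p (g m)
    by_contra h7
    have h8 : 0 < p (g m) := lt_of_le_of_ne h6 (Ne.symm h7)
    have h9 : (m : ℝ) - 1 ≤ 2 * p (g 1) := le_of_mul_le_mul_right h1 h8
    linarith
  -- downward induction
  have hdown : ∀ m, p (g (m + 1)) = 0 → p (g m) = 0 := by
    intro m hm
    have h1 := seminorm_comm_le hp (g 0) (g (m + 1))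
    rw [g_zero_mul, map_smul_eq_mul, hm, mul_zero] at h1
    have h2 : (0 : ℝ) < ‖((m : ℂ) + 1)‖ := by
      rw [norm_pos_iff]
      exact_mod_cast Nat.succ_ne_zero m
    have h3 := apply_nonneg p (g m)
    by_contra h4
    have h5 : 0 < p (g m) := lt_of_le_of_ne h3 (Ne.symm h4)
    have := mul_pos h2 h5
    linarith
  have hall : ∀ k, ∀ m, N ≤ m + k → p (g m) = 0 := by
    intro k
    induction k with
    | zero => intro m hm; exact hlarge m hm
    | succ k ih => intro m hm; exact hdown m (ih (m + 1) (by omega))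
  exact hall N n (by omega)

/-- The enveloping algebra is generated by `g 0` and `g 3`. -/
theorem adjoin_eq_top : Algebra.adjoin ℂ ({g 0, g 3} : Set (U ℂ L)) = ⊤ := by
  set S := Algebra.adjoin ℂ ({g 0, g 3} : Set (U ℂ L)) with hS
  have h0 : g 0 ∈ S := Algebra.subset_adjoin (by simp)
  have h3 : g 3 ∈ S := Algebra.subset_adjoin (by simp)
  have hdown : ∀ n, g (n + 1) ∈ S → g n ∈ S := by
    intro n hn
    have h1 : ((n : ℂ) + 1) • g n ∈ S := by
      rw [← g_zero_mul]
      exact S.sub_mem (S.mul_mem h0 hn) (S.mul_mem hn h0)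
    have h2 : ((n : ℂ) + 1) ≠ 0 := by exact_mod_cast Nat.succ_ne_zero n
    have h4 := S.smul_mem h1 ((n : ℂ) + 1)⁻¹
    rwa [smul_smul, inv_mul_cancel₀ h2, one_smul] at h4
  have h2 : g 2 ∈ S := hdown 2 h3
  have h1 : g 1 ∈ S := hdown 1 h2
  have hall : ∀ n, g n ∈ S := by
    intro n
    induction n with
    | zero => exact h0
    | succ n ih =>
      rcases n with _ | _ | _ | n
      · exact h1
      · exact h2
      · exact h3
      · have h5 := g_succ_mul 1 (n + 3)
        have h6 : (((n + 3 : ℕ) : ℂ) - (((1 : ℕ) : ℂ) + 1)) = ((n + 1 : ℕ) : ℂ) := by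
          push_cast; ring
        rw [h6] at h5
        have h7 : ((n + 1 : ℕ) : ℂ) ≠ 0 := by exact_mod_cast Nat.succ_ne_zero n
        have h8 : ((n + 1 : ℕ) : ℂ) • g (1 + (n + 3)) ∈ S := by
          rw [← h5]
          exact S.sub_mem (S.mul_mem h2 ih) (S.mul_mem ih h2)
        have h9 := S.smul_mem h8 ((n + 1 : ℕ) : ℂ)⁻¹
        rw [smul_smul, inv_mul_cancel₀ h7, one_smul] at h9
        have h10 : 1 + (n + 3) = n + 1 + 1 + 1 + 1 := by ring
        rwa [h10] at h9
  have hvf : ∀ f : ℂ[X], ii ℂ (vf f) ∈ S := by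
    intro f
    induction f using Polynomial.induction_on' with
    | add f h hf hh => rw [map_add, ii_add]; exact S.add_mem hf hh
    | monomial n a =>
      have : vf (monomial n a) = a • E n := by
        rw [E, ← map_smul, Polynomial.smul_eq_C_mul, ← C_mul_X_pow_eq_monomial]
      rw [this, ii_smul]
      exact S.smul_mem (hall n) a
  rw [eq_top_iff]
  rintro a -
  induction a using induction_mul with
  | h1 => exact S.one_mem
  | hgen x => rw [eq_vf x]; exact hvf _
  | hadd a b ha hb => exact S.add_mem ha hb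
  | hsmul c a ha => exact S.smul_mem ha c
  | hmul a b ha hb => exact S.mul_mem ha hb

theorem finiteType : Algebra.FiniteType ℂ (U ℂ L) := by
  classical
  refine ⟨⟨{g 0, g 3}, ?_⟩⟩
  have := adjoin_eq_top
  simpa using this

end Pool.Agent.Q86.WittHopf
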