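import Pool.Agent.Q86.AMEnv
import Pool.Agent.Q86.WittHopf

set_option autoImplicit false

/-!
# Hopf algebras with trivial Arens-Michael envelope
-/

namespace Pool.Agent.Q86.AMEnv

open scoped TensorProduct Topology

/-- All submultiplicative seminorms of `A` factor through the character `χ`. -/
def Collapses {A : Type} [Ring A] [Algebra ℂ A] (χ : A →ₐ[ℂ] ℂ) : Prop :=
  ∀ p : Seminorm ℂ A, Submult p → ∀ a, p (a - χ a • 1) = 0

section general

variable {A B : Type} [Ring A] [Algebra ℂ A] [Ring B] [Algebra ℂ B]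

theorem Collapses.eq {χ : A →ₐ[ℂ] ℂ} (h : Collapses χ) {p : Seminorm ℂ A} (hp : Submult p)
    (a : A) : p a = ‖χ a‖ * p 1 := by
  have h1 := h p hp a
  have h2 : p (χ a • 1) = ‖χ a‖ * p 1 := map_smul_eq_mul _ _ _
  rw [← h2]
  have h3 : a = (a - χ a • 1) + χ a • 1 := by abel
  apply le_antisymm
  · calc p a = p ((a - χ a • 1) + χ a • 1) := by rw [← h3]
      _ ≤ p (a - χ a • 1) + p (χ a • 1) := map_add_le_add _ _ _
      _ = p (χ a • 1) := by rw [h1, zero_add]
  · calc p (χ a • 1) = p (a - (a - χ a • 1)) := by congr 1; abel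
      _ ≤ p a + p (a - χ a • 1) := map_sub_le_add _ _ _
      _ = p a := by rw [h1, add_zero]

/-- The Arens-Michael algebra `ℂ`. -/
noncomputable def amC : AMAlgebra where
  carrier := ℂ
  generated := by
    intro V hV
    obtain ⟨r, hr, hrV⟩ := Metric.mem_nhds_iff.1 hV
    let C : NNReal := ⟨max 1 r⁻¹, by positivity⟩
    refine ⟨C • normSeminorm ℂ ℂ, ?_, ?_, ?_⟩
    · change Continuous fun x : ℂ => (max 1 r⁻¹ : ℝ) * ‖x‖
      fun_prop
    · intro a b
      change (max 1 r⁻¹ : ℝ) * ‖a * b‖ ≤ ((max 1 r⁻¹ : ℝ) * ‖a‖) * ((max 1 r⁻¹ : ℝ) * ‖b‖)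
      rw [norm_mul]
      have h1 : (1 : ℝ) ≤ max 1 r⁻¹ := le_max_left _ _
      have h2 : 0 ≤ ‖a‖ * ‖b‖ := by positivity
      nlinarith [mul_nonneg (mul_nonneg (by linarith : (0 : ℝ) ≤ max 1 r⁻¹) h2)
        (by linarith : (0 : ℝ) ≤ max 1 r⁻¹ - 1)]
    · intro x hx
      change (max 1 r⁻¹ : ℝ) * ‖x‖ < 1 at hx
      apply hrV
      rw [mem_ball_zero_iff]
      have h1 : r⁻¹ * ‖x‖ < 1 :=
        lt_of_le_of_lt (mul_le_mul_of_nonneg_right (le_max_right _ _) (norm_nonneg _)) hx
      rw [inv_mul_lt_iff₀ hr, mul_one] at h1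
      exact h1

/-- If all submultiplicative seminorms factor through `χ` then the envelope is `ℂ`. -/
noncomputable def Collapses.envelope {χ : A →ₐ[ℂ] ℂ} (h : Collapses χ) : Envelope A where
  target := amC
  map := (χ : A →ₐ[ℂ] ℂ)
  dense := by
    have h1 : Function.Surjective χ := fun c => ⟨algebraMap ℂ A c, by simp⟩
    exact h1.denseRange
  extends_seminorm := by
    intro p hp
    let C : NNReal := ⟨p 1, apply_nonneg p 1⟩
    refine ⟨C • normSeminorm ℂ ℂ, ?_, ?_⟩
    · change Continuous fun x : ℂ => p 1 * ‖x‖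
      fun_prop
    · intro a
      change p 1 * ‖χ a‖ = p a
      rw [h.eq hp a, mul_comm]

theorem Collapses.map_eq {χ : A →ₐ[ℂ] ℂ} (h : Collapses χ) (P : Envelope A) (a : A) :
    P.map a = χ a • 1 := by
  by_contra hne
  have h1 : P.map a - χ a • 1 ≠ 0 := sub_ne_zero.2 hne
  have h2 : {P.map a - χ a • 1}ᶜ ∈ 𝓝 (0 : P.target.carrier) :=
    isOpen_compl_singleton.mem_nhds (by simpa using h1.symm)
  obtain ⟨q, hq, hqs, hqV⟩ := P.target.generated _ h2
  have h3 : q (P.map a - χ a • 1) = 0 := by
    let p : Seminorm ℂ A := q.comp P.map.toLinearMap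
    have hp : Submult p := by
      intro x y
      change q (P.map (x * y)) ≤ q (P.map x) * q (P.map y)
      rw [map_mul]
      exact hqs _ _
    have h4 := h p hp a
    change q (P.map (a - χ a • 1)) = 0 at h4
    rwa [map_sub, map_smul, map_one] at h4
  exact hqV _ (by rw [h3]; norm_num) rfl

theorem Collapses.one_ne_zero {χ : A →ₐ[ℂ] ℂ} (_h : Collapses χ) (P : Envelope A) :
    (1 : P.target.carrier) ≠ 0 := by
  intro h0
  let p : Seminorm ℂ A := (normSeminorm ℂ ℂ).comp χ.toLinearMap
  have hp : Submult p := by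
    intro x y
    change ‖χ (x * y)‖ ≤ ‖χ x‖ * ‖χ y‖
    rw [map_mul, norm_mul]
  obtain ⟨q, -, hq⟩ := P.extends_seminorm p hp
  have h1 := hq 1
  rw [map_one, h0, map_zero] at h1
  have h2 : p 1 = 1 := by
    change ‖χ 1‖ = 1
    rw [map_one, norm_one]
  rw [h2] at h1
  exact zero_ne_one h1

theorem Collapses.eq_smul {χ : A →ₐ[ℂ] ℂ} (h : Collapses χ) (P : Envelope A)
    (x : P.target.carrier) : ∃ c : ℂ, c • (1 : P.target.carrier) = x := by
  have h1 : x ∈ closure (Set.range P.map) := P.dense x
  have h2 : Set.range P.map ⊆ (Submodule.span ℂ {(1 : P.target.carrier)} : Set _) := by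
    rintro _ ⟨a, rfl⟩
    rw [h.map_eq]
    exact Submodule.smul_mem _ _ (Submodule.mem_span_singleton_self _)
  have h3 : IsClosed (Submodule.span ℂ {(1 : P.target.carrier)} : Set P.target.carrier) :=
    Submodule.closed_of_finiteDimensional _
  have h4 : x ∈ Submodule.span ℂ {(1 : P.target.carrier)} := closure_minimal h2 h3 h1
  exact Submodule.mem_span_singleton.1 h4

/-- The coordinate functional on the envelope. -/
noncomputable def Collapses.coord {χ : A →ₐ[ℂ] ℂ} (h : Collapses χ) (P : Envelope A) :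
    P.target.carrier →ₗ[ℂ] ℂ where
  toFun x := (h.eq_smul P x).choose
  map_add' x y := by
    have hx := (h.eq_smul P x).choose_spec
    have hy := (h.eq_smul P y).choose_spec
    have hxy := (h.eq_smul P (x + y)).choose_spec
    apply smul_left_injective ℂ (h.one_ne_zero P)
    beta_reduce
    rw [add_smul, hx, hy, hxy]
  map_smul' c x := by
    have hx := (h.eq_smul P x).choose_spec
    have hcx := (h.eq_smul P (c • x)).choose_spec
    apply smul_left_injective ℂ (h.one_ne_zero P)
    beta_reduce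
    rw [RingHom.id_apply, smul_assoc, hx, hcx]

theorem Collapses.coord_smul {χ : A →ₐ[ℂ] ℂ} (h : Collapses χ) (P : Envelope A)
    (x : P.target.carrier) : h.coord P x • (1 : P.target.carrier) = x :=
  (h.eq_smul P x).choose_spec

theorem Collapses.coord_one {χ : A →ₐ[ℂ] ℂ} (h : Collapses χ) (P : Envelope A) :
    h.coord P 1 = 1 := by
  apply smul_left_injective ℂ (h.one_ne_zero P)
  beta_reduce
  rw [h.coord_smul, one_smul]

theorem Collapses.coord_map {χ : A →ₐ[ℂ] ℂ} (h : Collapses χ) (P : Envelope A) (a : A) :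
    h.coord P (P.map a) = χ a := by
  rw [h.map_eq, map_smul, h.coord_one, smul_eq_mul, mul_one]

theorem Collapses.continuous_coord {χ : A →ₐ[ℂ] ℂ} (h : Collapses χ) (P : Envelope A) :
    Continuous (h.coord P) := by
  have : FiniteDimensional ℂ P.target.carrier := by
    apply FiniteDimensional.of_surjective (LinearMap.toSpanSingleton ℂ P.target.carrier 1)
    intro x
    obtain ⟨c, hc⟩ := h.eq_smul P x
    exact ⟨c, hc⟩
  exact LinearMap.continuous_of_finiteDimensional _

/-- The canonical isomorphism between the envelopes. -/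
noncomputable def Collapses.scal {χ : A →ₐ[ℂ] ℂ} (h : Collapses χ) (P : Envelope A)
    (Q : Envelope B) : P.target.carrier →ₐ[ℂ] Q.target.carrier :=
  AlgHom.ofLinearMap ((LinearMap.toSpanSingleton ℂ Q.target.carrier 1) ∘ₗ h.coord P)
    (by
      change h.coord P 1 • (1 : Q.target.carrier) = 1
      rw [h.coord_one, one_smul])
    (by
      intro x y
      change h.coord P (x * y) • (1 : Q.target.carrier) =
        (h.coord P x • (1 : Q.target.carrier)) * (h.coord P y • (1 : Q.target.carrier))
      have h1 : x * y = (h.coord P x * h.coord P y) • 1 := by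
        conv_lhs => rw [← h.coord_smul P x, ← h.coord_smul P y]
        rw [smul_mul_smul_comm, one_mul]
      rw [smul_mul_smul_comm, one_mul]
      congr 1
      conv_lhs => rw [h1]
      rw [map_smul, h.coord_one, smul_eq_mul, mul_one])

theorem Collapses.scal_apply {χ : A →ₐ[ℂ] ℂ} (h : Collapses χ) (P : Envelope A)
    (Q : Envelope B) (x : P.target.carrier) : h.scal P Q x = h.coord P x • 1 := rfl

theorem Collapses.continuous_scal {χ : A →ₐ[ℂ] ℂ} (h : Collapses χ) (P : Envelope A)
    (Q : Envelope B) : Continuous (h.scal P Q) := by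
  have : Continuous fun x => h.coord P x • (1 : Q.target.carrier) :=
    (h.continuous_coord P).smul continuous_const
  exact this

theorem Collapses.coord_scal {χ : A →ₐ[ℂ] ℂ} (h : Collapses χ) {χ' : B →ₐ[ℂ] ℂ}
    (h' : Collapses χ') (P : Envelope A) (Q : Envelope B) (x : P.target.carrier) :
    h'.coord Q (h.scal P Q x) = h.coord P x := by
  rw [h.scal_apply, map_smul, h'.coord_one, smul_eq_mul, mul_one]

theorem Collapses.isTopIso {χ : A →ₐ[ℂ] ℂ} (h : Collapses χ) {χ' : B →ₐ[ℂ] ℂ}
    (h' : Collapses χ') (P : Envelope A) (Q : Envelope B) : IsTopIso (h.scal P Q) := by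
  refine ⟨?_, h.scal P Q, fun _ => rfl⟩
  rw [isHomeomorph_iff_exists_inverse]
  refine ⟨h.continuous_scal P Q, h'.scal Q P, ?_, ?_, h'.continuous_scal Q P⟩
  · intro x
    rw [h'.scal_apply, h.coord_scal h', h.coord_smul]
  · intro x
    rw [h.scal_apply, h'.coord_scal h, h'.coord_smul]

theorem Collapses.induces {χ : A →ₐ[ℂ] ℂ} (h : Collapses χ) {χ' : B →ₐ[ℂ] ℂ}
    (h' : Collapses χ') (P : Envelope A) (Q : Envelope B) {f : A → B}
    (hf : ∀ a, χ' (f a) = χ a) : Induces P Q f (h.scal P Q) := by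
  refine ⟨h.continuous_scal P Q, fun a => ?_⟩
  rw [h.scal_apply, h.coord_map, h'.map_eq, hf]

end general

section hopf

/-- The counit of a Hopf algebra as a character. -/
noncomputable def counitChar (H : HopfAlg) : H.carrier →ₐ[ℂ] ℂ := Bialgebra.counitAlgHom ℂ _

theorem counitChar_apply (H : HopfAlg) (h : H.carrier) :
    counitChar H h = Coalgebra.counit (R := ℂ) h := rfl

/-- The character `ε ⊗ ε` of `H ⊗ H`. -/
noncomputable def counitChar2 (H : HopfAlg) : Sq H.carrier →ₐ[ℂ] ℂ :=
  (Algebra.TensorProduct.lift (counitChar H) (counitChar H) (fun _ _ => Commute.all _ _) :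
    H.carrier ⊗[ℂ] H.carrier →ₐ[ℂ] ℂ)

theorem counitChar2_tens (H : HopfAlg) (a b : H.carrier) :
    counitChar2 H (tens a b) = counitChar H a * counitChar H b :=
  Algebra.TensorProduct.lift_tmul _ _ _ _ _

theorem counitChar2_comul (H : HopfAlg) (a : H.carrier) :
    counitChar2 H (H.comul a) = counitChar H a := by
  have h1 : ∀ t : H.carrier ⊗[ℂ] H.carrier,
      (Algebra.TensorProduct.lift (counitChar H) (counitChar H) (fun _ _ => Commute.all _ _) :
        H.carrier ⊗[ℂ] H.carrier →ₐ[ℂ] ℂ) t =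
      counitChar H (TensorProduct.lid ℂ H.carrier
        ((Coalgebra.counit (R := ℂ) (A := H.carrier)).rTensor H.carrier t)) := by
    intro t
    induction t with
    | zero => simp
    | tmul x y =>
      rw [Algebra.TensorProduct.lift_tmul]
      simp only [LinearMap.rTensor_tmul, TensorProduct.lid_tmul, map_smul, smul_eq_mul]
      rfl
    | add s t hs ht => rw [map_add, hs, ht]; simp only [map_add]
  have h4 := h1 (Coalgebra.comul (R := ℂ) a)
  rw [Coalgebra.rTensor_counit_comul, TensorProduct.lid_tmul, one_smul] at h4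
  exact h4

theorem collapses_tensor {A B : Type} [Ring A] [Algebra ℂ A] [Ring B] [Algebra ℂ B]
    {χ : A →ₐ[ℂ] ℂ} {χ' : B →ₐ[ℂ] ℂ} (h : Collapses χ) (h' : Collapses χ') :
    Collapses (Algebra.TensorProduct.lift χ χ' (fun _ _ => Commute.all _ _) :
      A ⊗[ℂ] B →ₐ[ℂ] ℂ) := by
  intro p hp t
  -- the restrictions to the two factors
  let jl : A →ₐ[ℂ] A ⊗[ℂ] B := Algebra.TensorProduct.includeLeft
  let jr : B →ₐ[ℂ] A ⊗[ℂ] B := Algebra.TensorProduct.includeRight
  have hl : ∀ a, p (jl (a - χ a • 1)) = 0 :=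
    h (p.comp jl.toLinearMap) (by
      intro x y
      change p (jl (x * y)) ≤ p (jl x) * p (jl y)
      rw [map_mul]
      exact hp _ _)
  have hr : ∀ a, p (jr (a - χ' a • 1)) = 0 :=
    h' (p.comp jr.toLinearMap) (by
      intro x y
      change p (jr (x * y)) ≤ p (jr x) * p (jr y)
      rw [map_mul]
      exact hp _ _)
  induction t with
  | zero => simp
  | tmul a b =>
    have h3 : (a ⊗ₜ[ℂ] b) = jl a * jr b := by
      change _ = (a ⊗ₜ[ℂ] 1) * (1 ⊗ₜ[ℂ] b)
      rw [Algebra.TensorProduct.tmul_mul_tmul, mul_one, one_mul]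
    have h4 : (a ⊗ₜ[ℂ] b) - (χ a * χ' b) • (1 : A ⊗[ℂ] B) =
        jl (a - χ a • 1) * jr b + χ a • jr (b - χ' b • 1) := by
      rw [h3, map_sub, map_sub, map_smul, map_smul, map_one, map_one, sub_mul,
        smul_mul_assoc, one_mul, smul_sub, smul_smul]
      abel
    rw [Algebra.TensorProduct.lift_tmul, h4]
    have h5 : p (jl (a - χ a • 1) * jr b) ≤ 0 := by
      refine (hp _ _).trans ?_
      rw [hl, zero_mul]
    have h6 : p (χ a • jr (b - χ' b • 1)) = 0 := by
      rw [map_smul_eq_mul, hr, mul_zero]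
    refine le_antisymm ?_ (apply_nonneg p _)
    refine (map_add_le_add p _ _).trans ?_
    rw [h6, add_zero]
    exact h5
  | add s t hs ht =>
    rw [map_add, add_smul, add_sub_add_comm]
    refine le_antisymm ?_ (apply_nonneg p _)
    refine (map_add_le_add p _ _).trans ?_
    rw [hs, ht, add_zero]

theorem collapses_sq {H : HopfAlg} (h : Collapses (counitChar H)) :
    Collapses (counitChar2 H) := collapses_tensor h h

theorem Collapses.nonempty {H : HopfAlg} (h : Collapses (counitChar H)) :
    Nonempty (HopfEnvelope H) := ⟨⟨h.envelope, (collapses_sq h).envelope⟩⟩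

theorem Collapses.isoHopf {H K : HopfAlg} (h : Collapses (counitChar H))
    (k : Collapses (counitChar K)) (P : HopfEnvelope H) (Q : HopfEnvelope K) : IsoHopf P Q := by
  have h2 := collapses_sq h
  have k2 := collapses_sq k
  have hcomp : ∀ x, h2.scal P.two Q.two (h.scal P.one P.two x) =
      k.scal Q.one Q.two (h.scal P.one Q.one x) := by
    intro x
    rw [h2.scal_apply, h.coord_scal h2, k.scal_apply, h.coord_scal k]
  refine ⟨h.scal P.one Q.one, h2.scal P.two Q.two, h.isTopIso k _ _, h2.isTopIso k2 _ _,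
    ⟨?_, ?_⟩, ?_, ?_, ?_⟩
  · refine ⟨h.scal P.one P.two, k.scal Q.one Q.two, h.induces h2 _ _ ?_, k.induces k2 _ _ ?_,
      hcomp⟩
    · intro a; rw [counitChar2_tens, map_one, mul_one]
    · intro a; rw [counitChar2_tens, map_one, mul_one]
  · refine ⟨h.scal P.one P.two, k.scal Q.one Q.two, h.induces h2 _ _ ?_, k.induces k2 _ _ ?_,
      hcomp⟩
    · intro a; rw [counitChar2_tens, map_one, one_mul]
    · intro a; rw [counitChar2_tens, map_one, one_mul]
  · exact ⟨h.scal P.one P.two, k.scal Q.one Q.two, h.induces h2 _ _ (counitChar2_comul H),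
      k.induces k2 _ _ (counitChar2_comul K), hcomp⟩
  · refine ⟨h.coord P.one, k.coord Q.one, ⟨h.continuous_coord _, h.coord_map _⟩,
      ⟨k.continuous_coord _, k.coord_map _⟩, fun x => ?_⟩
    rw [h.coord_scal k]
  · refine ⟨h.scal P.one P.one, k.scal Q.one Q.one, h.induces h _ _ ?_, k.induces k _ _ ?_, ?_⟩
    · intro a; exact HopfAlgebra.counit_antipode a
    · intro a; exact HopfAlgebra.counit_antipode a
    · intro x
      rw [h.scal_apply P.one Q.one, h.coord_scal h, k.scal_apply, h.coord_scal k]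

end hopf

section witt

open Pool.Agent.Q86.WittHopf Pool.Agent.Q86.EnvHopf

/-- The enveloping algebra of the Lie algebra of derivations of `ℂ[X]` as a Hopf algebra. -/
noncomputable def wittAlg : HopfAlg where
  carrier := U ℂ L

/-- The trivial Hopf algebra `ℂ`. -/
noncomputable def trivAlg : HopfAlg where
  carrier := ℂ

theorem collapses_triv : Collapses (counitChar trivAlg) := by
  intro p _ a
  have h : a - counitChar trivAlg a • (1 : trivAlg.carrier) = 0 := by
    change (a : ℂ) - (a : ℂ) * 1 = 0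
    rw [mul_one, sub_self]
  rw [h, map_zero]

theorem seminorm_ii {p : Seminorm ℂ (U ℂ L)} (hp : ∀ a b, p (a * b) ≤ p a * p b) (x : L) :
    p (ii ℂ x) = 0 := by
  rw [eq_vf x]
  generalize x Polynomial.X = f
  induction f using Polynomial.induction_on' with
  | add f h hf hh =>
    rw [map_add, ii_add]
    refine le_antisymm ?_ (apply_nonneg p _)
    refine (map_add_le_add p _ _).trans ?_
    rw [hf, hh, add_zero]
  | monomial n a =>
    have : vf (Polynomial.monomial n a) = a • E n := by
      rw [E, ← map_smul, Polynomial.smul_eq_C_mul, ← Polynomial.C_mul_X_pow_eq_monomial]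
    rw [this, ii_smul, map_smul_eq_mul]
    have h2 : p (ii ℂ (E n)) = 0 := seminorm_g hp n
    rw [h2, mul_zero]

theorem seminorm_counit {p : Seminorm ℂ (U ℂ L)} (hp : ∀ a b, p (a * b) ≤ p a * p b)
    (a : U ℂ L) : p (a - (Coalgebra.counit (R := ℂ) a : ℂ) • (1 : U ℂ L)) = 0 := by
  induction a using induction_mul with
  | h1 => rw [Bialgebra.counit_one, one_smul, sub_self, map_zero]
  | hgen x => rw [counit_ii, zero_smul, sub_zero]; exact seminorm_ii hp x
  | hadd a b ha hb =>
    rw [map_add, add_smul, add_sub_add_comm]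
    refine le_antisymm ?_ (apply_nonneg p _)
    refine (map_add_le_add p _ _).trans ?_
    rw [ha, hb, add_zero]
  | hsmul c a ha =>
    rw [map_smul, smul_assoc, ← smul_sub, map_smul_eq_mul, ha, mul_zero]
  | hmul a b ha hb =>
    have h1 : a * b - (Coalgebra.counit (R := ℂ) (a * b) : ℂ) • (1 : U ℂ L) =
        (a - (Coalgebra.counit (R := ℂ) a : ℂ) • 1) * b +
        (Coalgebra.counit (R := ℂ) a : ℂ) • (b - (Coalgebra.counit (R := ℂ) b : ℂ) • 1) := by
      rw [Bialgebra.counit_mul, sub_mul, smul_mul_assoc, one_mul, smul_sub, smul_smul]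
      abel
    rw [h1]
    refine le_antisymm ?_ (apply_nonneg p _)
    refine (map_add_le_add p _ _).trans ?_
    rw [map_smul_eq_mul, hb, mul_zero, add_zero]
    refine (hp _ _).trans ?_
    rw [ha, zero_mul]

theorem collapses_witt : Collapses (counitChar wittAlg) := fun _ hp a => seminorm_counit hp a

theorem not_isomorphic : ¬ Isomorphic wittAlg trivAlg := by
  rintro ⟨e⟩
  have h1 : ∀ a b : wittAlg.carrier, a * b = b * a := by
    intro a b
    apply e.injective
    rw [map_mul, map_mul]
    exact mul_comm (G := ℂ) _ _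
  have h2 : ∀ a b : U ℂ L, a * b = b * a := h1
  have h4 := g_zero_mul 0
  rw [h2, sub_self] at h4
  have h5 : g 0 = 0 := by
    simpa using h4.symm
  exact g_ne_zero h5

theorem isAffine_witt : wittAlg.IsAffine := finiteType

theorem isAffine_triv : trivAlg.IsAffine := inferInstanceAs (Algebra.FiniteType ℂ ℂ)

end witt

end Pool.Agent.Q86.AMEnv
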