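import Pool.Agent.Q86.AbgRep3

set_option autoImplicit false
set_option linter.unusedSectionVars false

/-!
# Invariants: exactness and dimension
-/

open Module Polynomial

namespace Q86.Abg

universe u v w

section

variable {k : Type u} [Field k] [CharZero k] {M : Type v} [AddCommGroup M] [Module k M]
  [LieRingModule (S k) M] [LieModule k (S k) M] {J : Type*}

theorem f_cas {N : Type w} [AddCommGroup N] [Module k N] [LieRingModule (S k) N]
    [LieModule k (S k) N] {f : M →ₗ[k] N} (hf : ∀ (X : S k) (v : M), f ⁅X, v⁆ = ⁅X, f v⁆) (v : M) :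
    f (cas k M v) = cas k N (f v) := by
  have h : ∀ (X : S k) (v : M), f (op X v) = op X (f v) := hf
  have t2 : ∀ w : M, f ((2 : Module.End k M) w) = (2 : Module.End k N) (f w) := by
    intro w
    have e1 : (2 : Module.End k M) = (2 : k) • (1 : Module.End k M) := by
      rw [two_smul]; norm_num
    have e2 : (2 : Module.End k N) = (2 : k) • (1 : Module.End k N) := by
      rw [two_smul]; norm_num
    rw [e1, e2]
    show f ((2 : k) • w) = (2 : k) • f w
    rw [map_smul]
  have t6 : ∀ w : M, f ((6 : Module.End k M) w) = (6 : Module.End k N) (f w) := by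
    intro w
    show f ((6 : ℕ) • w) = (6 : ℕ) • f w
    rw [map_nsmul]
  unfold cas
  simp only [LinearMap.add_apply, Module.End.mul_apply, map_add, t2, t6, h]

/-- Invariants can be lifted along equivariant maps. -/
theorem WB.lift_inv [Finite J] {b : Basis J k M} {wt : J → ℤ × ℤ} (h : WB b wt)
    {N : Type w} [AddCommGroup N] [Module k N] [LieRingModule (S k) N]
    [LieModule k (S k) N] {f : M →ₗ[k] N} (hf : ∀ (X : S k) (v : M), f ⁅X, v⁆ = ⁅X, f v⁆) {m : M}
    (hm : f m ∈ inv k N) : ∃ m' ∈ inv k M, f m' = f m := by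
  have : FiniteDimensional k M := Module.Finite.of_basis b
  obtain ⟨p, n, hp⟩ := exists_poly (cas k M)
  refine ⟨(1 - aeval (cas k M) p * cas k M) m, ?_, ?_⟩
  · apply h.mem_inv_of_pow (N := n)
    exact LinearMap.congr_fun hp m
  · rw [LinearMap.sub_apply, Module.End.mul_apply, Module.End.one_apply, map_sub,
      aeval_intertwine (f_cas hf), f_cas hf, cas_apply_of_mem hm, map_zero, sub_zero]

/-- The dimension of the space of invariants. -/
theorem WB.finrank_inv [Fintype J] [DecidableEq J] {b : Basis J k M} {wt : J → ℤ × ℤ}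
    (h : WB b wt) : (finrank k (inv k M) : ℤ) =
      phi (fun μ => ((Finset.univ.filter (fun j => wt j = μ)).card : ℤ)) := by
  have : FiniteDimensional k M := Module.Finite.of_basis b
  obtain ⟨p, n, hp⟩ := exists_poly (cas k M)
  have hP1 := aeval_comm (cas_e1 k M) p
  have hP2 := aeval_comm (cas_e2 k M) p
  have hP3 := aeval_comm (cas_e3 (k := k) (M := M)) p
  have tele := h.tele hP1 hP2 hP3
  obtain ⟨Q, hQ⟩ : ∃ Q : Module.End k M, Q = 1 - aeval (cas k M) p * cas k M := ⟨_, rfl⟩
  rw [← hQ] at hp
  have hQmem : ∀ v, Q v ∈ inv k M := fun v =>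
    h.mem_inv_of_pow (N := n) (LinearMap.congr_fun hp v)
  have hQid : ∀ v ∈ inv k M, Q v = v := by
    intro v hv
    rw [hQ, LinearMap.sub_apply, Module.End.mul_apply, cas_apply_of_mem hv, map_zero, sub_zero]
    rfl
  have hproj : LinearMap.IsProj (inv k M) Q := ⟨hQmem, hQid⟩
  have htr : LinearMap.trace k M Q = (finrank k (inv k M) : k) := hproj.trace
  -- the trace of the projections
  have h1 : ∀ μ, wtr b wt 1 μ = ((Finset.univ.filter (fun j => wt j = μ)).card : k) := by
    intro μ
    unfold wtr
    rw [one_mul, LinearMap.trace_eq_matrix_trace k b, Matrix.trace]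
    simp only [Matrix.diag_apply, LinearMap.toMatrix_apply, repr_proj, b.repr_self]
    rw [Finset.sum_ite]
    simp
  have h2 : ∀ μ, wtr b wt Q μ = if μ = 0 then (finrank k (inv k M) : k) else 0 := by
    intro μ
    have e1 : proj b wt μ * Q = if μ = 0 then Q else 0 := by
      ext v
      have hw : IsWt k 0 (Q v) := by
        constructor
        · rw [hQmem v]; simp [c1]
        · rw [hQmem v]; simp [c2]
      show proj b wt μ (Q v) = _
      rw [h.proj_of_isWt hw]
      split_ifs <;> rfl
    unfold wtr
    rw [LinearMap.trace_mul_comm, e1]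
    split_ifs
    · exact htr
    · exact map_zero _
  have h3 : ∀ μ, wtr b wt 1 μ = wtr b wt (aeval (cas k M) p * cas k M) μ + wtr b wt Q μ := by
    intro μ
    unfold wtr
    rw [← map_add, ← add_mul, hQ]
    congr 1
    noncomm_ring
  have h4 : phi (fun μ => ((Finset.univ.filter (fun j => wt j = μ)).card : k)) =
      (finrank k (inv k M) : k) := by
    have : phi (wtr b wt 1) = phi (wtr b wt (aeval (cas k M) p * cas k M)) + phi (wtr b wt Q) := by
      unfold phi
      simp only [h3]
      ring
    rw [tele, zero_add] at this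
    have e2 : (wtr b wt 1) = fun μ => ((Finset.univ.filter (fun j => wt j = μ)).card : k) :=
      funext h1
    rw [e2] at this
    rw [this]
    unfold phi
    simp only [h2]
    norm_num [Prod.ext_iff]
  unfold phi at h4 ⊢
  apply Int.cast_injective (α := k)
  push_cast
  exact h4.symm

end

end Q86.Abg
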