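import Pool.Agent.Q86.AbgLieD
import Pool.Agent.Q86.AbgRep4

set_option autoImplicit false
set_option linter.unusedSectionVars false

/-!
# The actions on the Allison-Benkart-Gao Lie algebra and its exterior algebra
-/

open TensorProduct Module

namespace Q86.Abg

universe u v

section

variable {k : Type u} {A : Type v} [Field k] [CharZero k] [NonUnitalNonAssocRing A] [Module k A]
  [IsScalarTower k A A] [SMulCommClass k A A]

/-- The action of `X` in `sl_3` on `sl_3 ⊗ A`: `X . (Y ⊗ p) = [X, Y] ⊗ p`. -/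
noncomputable def sT (X : S k) : S k ⊗[k] A →ₗ[k] S k ⊗[k] A :=
  TensorProduct.map (lieS X) LinearMap.id

theorem sT_tmul (X Y : S k) (p : A) : sT X (Y ⊗ₜ[k] p) = ⁅X, Y⁆ ⊗ₜ p := rfl

/-- The action of `sl_3` on the Allison-Benkart-Gao Lie algebra: the adjoint action on the factor
`sl_3` of `sl_3 ⊗ A`, and the zero action on `B(A)`. -/
noncomputable def sAct (X : S k) : ABG k A →ₗ[k] ABG k A :=
  LinearMap.prodMap (sT X) (0 : BB k A →ₗ[k] BB k A)

theorem sAct_fst (X : S k) (x : ABG k A) : (sAct X x).1 = sT X x.1 := rfl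

theorem sAct_snd (X : S k) (x : ABG k A) : (sAct X x).2 = 0 := rfl

theorem sT_add (X Y : S k) (u : S k ⊗[k] A) : sT (X + Y) u = sT X u + sT Y u := by
  induction u using TensorProduct.induction_on with
  | zero => simp
  | tmul Z p => rw [sT_tmul, sT_tmul, sT_tmul, add_lie, TensorProduct.add_tmul]
  | add a b ha hb =>
    rw [map_add, ha, hb, map_add, map_add]
    abel

theorem sT_smul (c : k) (X : S k) (u : S k ⊗[k] A) : sT (c • X) u = c • sT X u := by
  induction u using TensorProduct.induction_on with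
  | zero => simp
  | tmul Z p => rw [sT_tmul, sT_tmul, smul_lie, TensorProduct.smul_tmul']
  | add a b ha hb =>
    rw [map_add, ha, hb, map_add, smul_add]

theorem sT_lie (X Y : S k) (u : S k ⊗[k] A) : sT ⁅X, Y⁆ u = sT X (sT Y u) - sT Y (sT X u) := by
  induction u using TensorProduct.induction_on with
  | zero => simp
  | tmul Z p =>
    rw [sT_tmul, sT_tmul, sT_tmul, sT_tmul, sT_tmul, lie_lie, TensorProduct.sub_tmul]
  | add a b ha hb =>
    simp only [map_add, ha, hb]
    abel

theorem lie_jorS (X Y Z : S k) : ⁅X, jorS Y Z⁆ = jorS ⁅X, Y⁆ Z + jorS Y ⁅X, Z⁆ := by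
  apply Subtype.ext
  have h1 : jorS ⁅X, Y⁆ Z = jorS Z ⁅X, Y⁆ := jorS_comm _ _
  have t1 : Matrix.trace (Z.1 * X.1 * Y.1) = Matrix.trace (X.1 * Y.1 * Z.1) := by
    rw [mul_assoc, Matrix.trace_mul_comm]
  have t2 : Matrix.trace (Z.1 * Y.1 * X.1) = Matrix.trace (X.1 * Z.1 * Y.1) := by
    rw [Matrix.trace_mul_comm, mul_assoc]
  have t3 : Matrix.trace (Y.1 * X.1 * Z.1) = Matrix.trace (X.1 * Z.1 * Y.1) := by
    rw [mul_assoc, Matrix.trace_mul_comm]
  have t4 : Matrix.trace (Y.1 * Z.1 * X.1) = Matrix.trace (X.1 * Y.1 * Z.1) := by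
    rw [Matrix.trace_mul_comm, mul_assoc]
  rw [h1]
  simp only [S.add_val, mv2, mv3, t1, t2, t3, t4]
  module

theorem lie_trS (X Y Z : S k) : trS ⁅X, Y⁆ Z + trS Y ⁅X, Z⁆ = 0 := by
  rw [trS_cyc Y X Z, ← lie_skew X Y, map_neg, LinearMap.neg_apply]
  abel

theorem sT_m1 (X : S k) (u v : S k ⊗[k] A) :
    sT X (m1 u v) = m1 (sT X u) v + m1 u (sT X v) := by
  induction u using TensorProduct.induction_on with
  | zero => simp
  | tmul Y p =>
    induction v using TensorProduct.induction_on with
    | zero => simp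
    | tmul Z q =>
      rw [sT_tmul, sT_tmul, m1_tmul, m1_tmul, m1_tmul, map_add, sT_tmul, sT_tmul, lie_jorS,
        leibniz_lie, TensorProduct.add_tmul, TensorProduct.add_tmul]
      abel
    | add a b ha hb =>
      simp only [map_add, ha, hb]
      abel
  | add a b ha hb =>
    simp only [map_add, LinearMap.add_apply, ha, hb]
    abel

theorem sT_m2 (X : S k) (u v : S k ⊗[k] A) : m2 (sT X u) v + m2 u (sT X v) = 0 := by
  induction u using TensorProduct.induction_on with
  | zero => simp
  | tmul Y p =>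
    induction v using TensorProduct.induction_on with
    | zero => simp
    | tmul Z q =>
      rw [sT_tmul, sT_tmul, m2_tmul, m2_tmul, ← smul_add, ← add_smul, lie_trS, zero_smul, smul_zero]
    | add a b ha hb =>
      simp only [map_add] at ha hb ⊢
      linear_combination (norm := module) ha + hb
  | add a b ha hb =>
    simp only [map_add, LinearMap.add_apply] at ha hb ⊢
    linear_combination (norm := module) ha + hb

variable [IsAlternative A]

theorem sT_act (X : S k) (β : BB k A) (u : S k ⊗[k] A) : sT X (act β u) = act β (sT X u) := by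
  induction u using TensorProduct.induction_on with
  | zero => simp
  | tmul Y p => rfl
  | add a b ha hb => simp only [map_add, ha, hb]

theorem sAct_lie (X : S k) (x y : ABG k A) : sAct X ⁅x, y⁆ = ⁅sAct X x, y⁆ + ⁅x, sAct X y⁆ := by
  apply Prod.ext
  · show sT X (m1 x.1 y.1 + act x.2 y.1 - act y.2 x.1) =
      (m1 (sT X x.1) y.1 + act (0 : BB k A) y.1 - act y.2 (sT X x.1)) +
      (m1 x.1 (sT X y.1) + act x.2 (sT X y.1) - act (0 : BB k A) x.1)
    simp only [map_add, map_sub, sT_m1, sT_act, map_zero, LinearMap.zero_apply]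
    abel
  · show (0 : BB k A) = (m2 (sT X x.1) y.1 + brB (0 : BB k A) y.2) +
      (m2 x.1 (sT X y.1) + brB x.2 (0 : BB k A))
    rw [map_zero, map_zero, LinearMap.zero_apply, add_zero, add_zero, sT_m2]

noncomputable instance : LieRingModule (S k) (ABG k A) where
  bracket X x := sAct X x
  add_lie X Y x := Prod.ext (sT_add X Y x.1) (add_zero (0 : BB k A)).symm
  lie_add X x y := map_add _ _ _
  leibniz_lie X Y x := by
    apply Prod.ext
    · show sT X (sT Y x.1) = sT ⁅X, Y⁆ x.1 + sT Y (sT X x.1)
      rw [sT_lie]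
      abel
    · exact (add_zero (0 : BB k A)).symm

theorem ABG.lie_eq (X : S k) (x : ABG k A) : ⁅X, x⁆ = sAct X x := rfl

noncomputable instance : LieModule k (S k) (ABG k A) where
  smul_lie c X x := Prod.ext (sT_smul c X x.1) (smul_zero c).symm
  lie_smul c X x := map_smul _ _ _

end

section ext

variable {k : Type u} [Field k] [CharZero k] {L : Type v} [LieRing L] [LieAlgebra k L]
  [LieRingModule (S k) L] [LieModule k (S k) L]

/-- The operator of an element of `sl_3` on `L`. -/
noncomputable def opL (X : S k) : L →ₗ[k] L := LieModule.toEnd k (S k) L X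

theorem opL_apply (X : S k) (x : L) : opL X x = ⁅X, x⁆ := rfl

/-- The action of `sl_3` on the exterior algebra. -/
noncomputable instance : LieRingModule (S k) (ExteriorAlgebra k L) where
  bracket X w := derExt (opL X) w
  add_lie X Y w := by
    have h : (opL (X + Y) : L →ₗ[k] L) = opL X + opL Y := by ext y; simp [opL_apply]
    rw [h, derExt_add]
    rfl
  lie_add X x y := map_add _ _ _
  leibniz_lie X Y w := by
    have h : (opL ⁅X, Y⁆ : L →ₗ[k] L) = opL X ∘ₗ opL Y - opL Y ∘ₗ opL X := by
      ext y; simp [opL_apply]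
    rw [h, ← derExt_comm]
    simp

theorem ext_lie (X : S k) (w : ExteriorAlgebra k L) : ⁅X, w⁆ = derExt (opL X) w := rfl

noncomputable instance : LieModule k (S k) (ExteriorAlgebra k L) where
  smul_lie c X w := by
    have h : (opL (c • X) : L →ₗ[k] L) = c • opL X := by ext y; simp [opL_apply]
    rw [ext_lie, ext_lie, h, derExt_smul]
    rfl
  lie_smul c X w := map_smul _ _ _

end ext

end Q86.Abg
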