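import Mathlib

set_option autoImplicit false

/-!
# Identities in alternative algebras
-/

namespace Q86.Abg

/-- Alternative rings. -/
class IsAlternative (A : Type*) [NonUnitalNonAssocRing A] : Prop where
  left_alt : ∀ x y : A, (x * x) * y = x * (x * y)
  right_alt : ∀ x y : A, (y * x) * x = y * (x * x)

section ring

variable {A : Type*} [NonUnitalNonAssocRing A]

/-- The map `D_{p,q} = [L_p, L_q] + [R_p, R_q] + [L_p, R_q]` applied to `r`. -/
def dfun (p q r : A) : A :=
  (p * (q * r) - q * (p * r)) + ((r * q) * p - (r * p) * q) + (p * (r * q) - (p * r) * q)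

variable [IsAlternative A]

open IsAlternative

theorem hL (a b c : A) : (a * b) * c + (b * a) * c - a * (b * c) - b * (a * c) = 0 := by
  have h1 := left_alt (a + b) c
  have h2 := left_alt a c
  have h3 := left_alt b c
  simp only [add_mul, mul_add, h2, h3] at h1
  have h4 := sub_eq_zero.2 h1
  rw [← h4]
  abel

theorem hR (a b c : A) : (a * b) * c + (a * c) * b - a * (b * c) - a * (c * b) = 0 := by
  have h1 := right_alt (b + c) a
  have h2 := right_alt b a
  have h3 := right_alt c a
  simp only [add_mul, mul_add, h2, h3] at h1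
  have h4 := sub_eq_zero.2 h1
  rw [← h4]
  abel

theorem LX (a b c d : A) :
    ((a * b) * c) * d + ((b * a) * c) * d - (a * (b * c)) * d - (b * (a * c)) * d = 0 := by
  have h := congrArg (fun z => z * d) (hL a b c)
  simpa only [add_mul, sub_mul, zero_mul] using h

theorem RX (a b c d : A) :
    ((a * b) * c) * d + ((a * c) * b) * d - (a * (b * c)) * d - (a * (c * b)) * d = 0 := by
  have h := congrArg (fun z => z * d) (hR a b c)
  simpa only [add_mul, sub_mul, zero_mul] using h

theorem XL (d a b c : A) :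
    d * ((a * b) * c) + d * ((b * a) * c) - d * (a * (b * c)) - d * (b * (a * c)) = 0 := by
  have h := congrArg (fun z => d * z) (hL a b c)
  simpa only [mul_add, mul_sub, mul_zero] using h

theorem XR (d a b c : A) :
    d * ((a * b) * c) + d * ((a * c) * b) - d * (a * (b * c)) - d * (a * (c * b)) = 0 := by
  have h := congrArg (fun z => d * z) (hR a b c)
  simpa only [mul_add, mul_sub, mul_zero] using h

theorem dfun_mul (p q r s : A) : dfun p q (r * s) = dfun p q r * s + r * dfun p q s := by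
  unfold dfun
  simp only [mul_add, add_mul, mul_sub, sub_mul]
  linear_combination (norm := module)
      (-1 : ℤ) • (hL q r (p * s)) +
      (1 : ℤ) • (hR r (s * q) p) +
      (1 : ℤ) • (hR (r * s) p q) +
      (1 : ℤ) • (hL q r (s * p)) +
      (-1 : ℤ) • (hR r (s * p) q) +
      (1 : ℤ) • (hR q (p * s) r) +
      (-1 : ℤ) • (LX q r s p) +
      (1 : ℤ) • (RX r q s p) +
      (1 : ℤ) • (hR (r * p) q s) +
      (-1 : ℤ) • (hL (q * r) p s) +
      (1 : ℤ) • (hR (q * r) p s) +
      (1 : ℤ) • (hL p r (q * s)) +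
      (-1 : ℤ) • (XL p q r s) +
      (-1 : ℤ) • (hL (r * q) p s) +
      (1 : ℤ) • (hL (p * r) q s) +
      (-1 : ℤ) • (hL (r * s) p q) +
      (-1 : ℤ) • (hL (p * s) r q) +
      (-1 : ℤ) • (hL (p * s) q r) +
      (1 : ℤ) • (hR (p * s) q r) +
      (-1 : ℤ) • (RX r p s q) +
      (-1 : ℤ) • (XR q r p s) +
      (1 : ℤ) • (XL q p r s) +
      (-1 : ℤ) • (hL (r * s) q p)

theorem dfun_cyc (p q r s : A) :
    dfun (p * q) r s + dfun (q * r) p s + dfun (r * p) q s = 0 := by
  unfold dfun
  linear_combination (norm := module)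
      (-1 : ℤ) • (hR (s * p) q r) +
      (-1 : ℤ) • (XR p q r s) +
      (-1 : ℤ) • (hL (s * r) p q) +
      (1 : ℤ) • (hR p (s * r) q) +
      (-1 : ℤ) • (hR p (q * s) r) +
      (-1 : ℤ) • (RX p q s r) +
      (1 : ℤ) • (LX p s q r) +
      (1 : ℤ) • (RX s p r q) +
      (-1 : ℤ) • (hR r (s * p) q) +
      (1 : ℤ) • (hL (s * p) r q) +
      (1 : ℤ) • (hL p q (r * s)) +
      (1 : ℤ) • (hL q r (p * s)) +
      (1 : ℤ) • (hL p r (q * s)) +
      (-1 : ℤ) • (hR q (r * s) p) +
      (-1 : ℤ) • (RX q r s p) +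
      (1 : ℤ) • (LX q s r p) +
      (1 : ℤ) • (hL q r (s * p)) +
      (-1 : ℤ) • (XR q r p s) +
      (-1 : ℤ) • (XR r p q s) +
      (-1 : ℤ) • (hR r (p * s) q) +
      (-1 : ℤ) • (LX p r s q) +
      (-1 : ℤ) • (hL (s * q) r p) +
      (1 : ℤ) • (hR r (s * q) p) +
      (-1 : ℤ) • (LX p s r q) +
      (1 : ℤ) • (RX p r s q)

theorem dfun_self (p r : A) : dfun p p r = 0 := by
  unfold dfun
  have h1 := hL p r p
  have h2 := hR p r p
  have h3 := left_alt p r
  have h4 := right_alt p r
  have h5 : p * (r * p) - (p * r) * p = 0 := by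
    have h6 := hL p p r
    linear_combination (norm := module) (-1 : ℤ) • h2 + h3
  rw [h5]
  abel

end ring

end Q86.Abg
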