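import Mathlib

set_option autoImplicit false

/-!
# The Chevalley-Eilenberg complex of a Lie algebra on its exterior algebra
-/

open ExteriorAlgebra

namespace Q86.Abg

universe u v

section ext

variable {k : Type u} {L : Type v} [CommRing k] [AddCommGroup L] [Module k L]

theorem ext_lin {N : Type*} [AddCommGroup N] [Module k N] {F G : ExteriorAlgebra k L →ₗ[k] N}
    (h1 : F 1 = G 1) (h2 : ∀ m x, F x = G x → F (ι k m * x) = G (ι k m * x)) : F = G := by
  refine LinearMap.ext fun x => ?_
  induction x using CliffordAlgebra.left_induction with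
  | algebraMap r => rw [Algebra.algebraMap_eq_smul_one, map_smul, map_smul, h1]
  | add x y hx hy => rw [map_add, map_add, hx, hy]
  | ι_mul m x hx => exact h2 _ _ hx

/-- The step of the recursion. -/
noncomputable def derStep (T : L →ₗ[k] L) :
    L →ₗ[k] CliffordAlgebra (0 : QuadraticForm k L) × ExteriorAlgebra k L →ₗ[k]
      ExteriorAlgebra k L :=
  LinearMap.mk₂ k (fun m p => ι k (T m) * p.1 + ι k m * p.2)
    (by intro a b p; simp only [map_add, add_mul]; abel)
    (by intro c a p; simp only [map_smul, smul_mul_assoc, smul_add])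
    (by intro a p q; simp only [Prod.fst_add, Prod.snd_add, mul_add]; abel)
    (by intro c a p; simp only [Prod.smul_fst, Prod.smul_snd, mul_smul_comm, smul_add])

/-- The derivation of the exterior algebra which extends the linear map `T`. -/
noncomputable def derExt (T : L →ₗ[k] L) : ExteriorAlgebra k L →ₗ[k] ExteriorAlgebra k L :=
  CliffordAlgebra.foldr' (0 : QuadraticForm k L) (derStep T) (by
    intro m x fx
    show ι k (T m) * (ι k m * x) + ι k m * (ι k (T m) * x + ι k m * fx) = (0 : k) • fx
    have h1 : ι k (T m) * ι k m + ι k m * ι k (T m) = 0 := ι_add_mul_swap _ _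
    have h2 : ι k m * ι k m = 0 := ι_sq_zero m
    rw [mul_add, ← mul_assoc, ← mul_assoc, ← mul_assoc, ← add_assoc, ← add_mul, h1, h2]
    simp) 0

theorem derExt_one (T : L →ₗ[k] L) : derExt T 1 = 0 := by
  have := CliffordAlgebra.foldr'_algebraMap (Q := (0 : QuadraticForm k L)) (derStep T)
    (by
    intro m x fx
    show ι k (T m) * (ι k m * x) + ι k m * (ι k (T m) * x + ι k m * fx) = (0 : k) • fx
    have h1 : ι k (T m) * ι k m + ι k m * ι k (T m) = 0 := ι_add_mul_swap _ _
    have h2 : ι k m * ι k m = 0 := ι_sq_zero m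
    rw [mul_add, ← mul_assoc, ← mul_assoc, ← mul_assoc, ← add_assoc, ← add_mul, h1, h2]
    simp) 0 1
  rw [map_one, smul_zero] at this
  exact this

theorem derExt_ι_mul (T : L →ₗ[k] L) (m : L) (x : ExteriorAlgebra k L) :
    derExt T (ι k m * x) = ι k (T m) * x + ι k m * derExt T x :=
  CliffordAlgebra.foldr'_ι_mul (Q := (0 : QuadraticForm k L)) (derStep T) _ 0 m x

theorem derExt_ι (T : L →ₗ[k] L) (m : L) : derExt T (ι k m) = ι k (T m) := by
  have := derExt_ι_mul T m 1
  rwa [mul_one, derExt_one, mul_zero, add_zero, mul_one] at this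

theorem derExt_add (T S : L →ₗ[k] L) : derExt (T + S) = derExt T + derExt S := by
  apply ext_lin
  · simp [derExt_one]
  · intro m x hx
    simp only [LinearMap.add_apply, derExt_ι_mul, map_add, add_mul] at hx ⊢
    rw [hx, mul_add]
    abel

theorem derExt_smul (c : k) (T : L →ₗ[k] L) : derExt (c • T) = c • derExt T := by
  apply ext_lin
  · simp [derExt_one]
  · intro m x hx
    simp only [LinearMap.smul_apply, derExt_ι_mul, map_smul, smul_mul_assoc] at hx ⊢
    rw [hx, mul_smul_comm, smul_add]

theorem derExt_comm (T S : L →ₗ[k] L) :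
    derExt T ∘ₗ derExt S - derExt S ∘ₗ derExt T = derExt (T ∘ₗ S - S ∘ₗ T) := by
  apply ext_lin
  · simp [derExt_one]
  · intro m x hx
    simp only [LinearMap.sub_apply, LinearMap.comp_apply, derExt_ι_mul, map_add, map_sub,
      sub_mul] at hx ⊢
    rw [← hx, mul_sub]
    abel

theorem derExt_id_mem {n : ℕ} (T : L →ₗ[k] L) {x : ExteriorAlgebra k L} (hx : x ∈ ⋀[k]^n L) :
    derExt T x ∈ ⋀[k]^n L := by
  induction n generalizing x with
  | zero =>
    have h1 : x ∈ (1 : Submodule k (ExteriorAlgebra k L)) := by simpa using hx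
    rw [Submodule.mem_one] at h1
    obtain ⟨c, rfl⟩ := h1
    rw [Algebra.algebraMap_eq_smul_one, map_smul, derExt_one, smul_zero]
    exact Submodule.zero_mem _
  | succ n ih =>
    have h1 : x ∈ LinearMap.range (ι k (M := L)) * (⋀[k]^n L) := by
      rw [← pow_succ']; exact hx
    have h2 : LinearMap.range (ι k (M := L)) * (⋀[k]^n L) = ⋀[k]^(n + 1) L := by
      rw [← pow_succ']
    rw [← h2]
    clear hx
    induction h1 using Submodule.mul_induction_on' with
    | mem_mul_mem a ha b hb =>
      obtain ⟨m, rfl⟩ := ha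
      rw [derExt_ι_mul]
      exact Submodule.add_mem _ (Submodule.mul_mem_mul ⟨_, rfl⟩ hb)
        (Submodule.mul_mem_mul ⟨_, rfl⟩ (ih hb))
    | add a _ b _ ha hb =>
      rw [map_add]
      exact Submodule.add_mem _ ha hb

end ext

section lie

variable {k : Type u} {L : Type v} [CommRing k] [LieRing L] [LieAlgebra k L]

/-- `ad x` as a linear map. -/
noncomputable def adL (x : L) : L →ₗ[k] L := LieAlgebra.ad k L x

theorem adL_apply (x y : L) : adL (k := k) x y = ⁅x, y⁆ := rfl

/-- The step of the recursion. -/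
noncomputable def ceStep :
    L →ₗ[k] CliffordAlgebra (0 : QuadraticForm k L) × ExteriorAlgebra k L →ₗ[k]
      ExteriorAlgebra k L :=
  LinearMap.mk₂ k (fun m p => derExt (adL m) p.1 - ι k m * p.2)
    (by
      intro a b p
      have h : adL (k := k) (a + b) = adL a + adL b := by ext y; simp [adL_apply]
      rw [h, derExt_add]
      simp only [map_add, add_mul, LinearMap.add_apply]
      abel)
    (by
      intro c a p
      have h : adL (k := k) (c • a) = c • adL a := by ext y; simp [adL_apply]
      rw [h, derExt_smul]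
      simp only [map_smul, smul_mul_assoc, smul_sub, LinearMap.smul_apply])
    (by intro a p q; simp only [Prod.fst_add, Prod.snd_add, mul_add, map_add]; abel)
    (by intro c a p; simp only [Prod.smul_fst, Prod.smul_snd, mul_smul_comm, smul_sub, map_smul])

theorem ceStep_sq (m : L) (x fx : ExteriorAlgebra k L) :
    ceStep (k := k) m (ι k m * x, ceStep m (x, fx)) = ((0 : QuadraticForm k L) m) • fx := by
  show derExt (adL m) (ι k m * x) - ι k m * (derExt (adL m) x - ι k m * fx) = (0 : k) • fx
  have h2 : ι k m * ι k m = 0 := ι_sq_zero m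
  rw [derExt_ι_mul, adL_apply, lie_self, map_zero, zero_mul, zero_add, mul_sub, ← mul_assoc, h2]
  simp

/-- The Chevalley-Eilenberg differential: the linear map `d` on the exterior algebra of `L` with
`d 1 = 0` and `d (x ∧ w) = ad_x w - x ∧ d w`, where `ad_x` acts as a derivation. -/
noncomputable def ceD (k : Type u) (L : Type v) [CommRing k] [LieRing L] [LieAlgebra k L] :
    ExteriorAlgebra k L →ₗ[k] ExteriorAlgebra k L :=
  CliffordAlgebra.foldr' (0 : QuadraticForm k L) ceStep ceStep_sq 0

theorem ceD_one : ceD k L 1 = 0 := by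
  have := CliffordAlgebra.foldr'_algebraMap (Q := (0 : QuadraticForm k L)) ceStep
    ceStep_sq (0 : ExteriorAlgebra k L) 1
  rw [map_one, smul_zero] at this
  exact this

theorem ceD_ι_mul (m : L) (x : ExteriorAlgebra k L) :
    ceD k L (ι k m * x) = derExt (adL m) x - ι k m * ceD k L x :=
  CliffordAlgebra.foldr'_ι_mul (Q := (0 : QuadraticForm k L)) ceStep ceStep_sq 0 m x

theorem ceD_ι (m : L) : ceD k L (ι k m) = 0 := by
  have := ceD_ι_mul (k := k) m 1
  rwa [mul_one, derExt_one, ceD_one, mul_zero, sub_zero] at this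

theorem ceD_ι_mul_ι (x y : L) : ceD k L (ι k x * ι k y) = ι k ⁅x, y⁆ := by
  rw [ceD_ι_mul, ceD_ι, mul_zero, sub_zero, derExt_ι, adL_apply]

/-- A derivation of `L` commutes with the differential. -/
theorem ceD_derExt {T : L →ₗ[k] L} (hT : ∀ x y, T ⁅x, y⁆ = ⁅T x, y⁆ + ⁅x, T y⁆) :
    ceD k L ∘ₗ derExt T = derExt T ∘ₗ ceD k L := by
  apply ext_lin
  · simp [derExt_one, ceD_one]
  · intro m x hx
    simp only [LinearMap.comp_apply] at hx ⊢
    rw [derExt_ι_mul, map_add, ceD_ι_mul, ceD_ι_mul, ceD_ι_mul, map_sub, derExt_ι_mul, hx]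
    have h1 := LinearMap.congr_fun (derExt_comm T (adL m)) x
    have h2 : T ∘ₗ adL m - adL m ∘ₗ T = adL (T m) := by
      ext y
      simp only [LinearMap.sub_apply, LinearMap.comp_apply, adL_apply, hT]
      abel
    rw [h2] at h1
    simp only [LinearMap.sub_apply, LinearMap.comp_apply] at h1
    rw [← h1]
    abel

theorem ceD_adL (m : L) : ceD k L ∘ₗ derExt (adL m) = derExt (adL m) ∘ₗ ceD k L := by
  apply ceD_derExt
  intro x y
  simp only [adL_apply]
  exact leibniz_lie m x y

theorem ceD_ceD : ceD k L ∘ₗ ceD k L = 0 := by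
  apply ext_lin
  · simp [ceD_one]
  · intro m x hx
    simp only [LinearMap.comp_apply, LinearMap.zero_apply] at hx ⊢
    have h1 := LinearMap.congr_fun (ceD_adL (k := k) m) x
    simp only [LinearMap.comp_apply] at h1
    rw [ceD_ι_mul, map_sub, ceD_ι_mul, hx, h1]
    simp

theorem ceD_mem {n : ℕ} {x : ExteriorAlgebra k L} (hx : x ∈ ⋀[k]^(n + 1) L) :
    ceD k L x ∈ ⋀[k]^n L := by
  induction n generalizing x with
  | zero =>
    have h1 : x ∈ LinearMap.range (ι k (M := L)) := by
      simpa using hx
    obtain ⟨m, rfl⟩ := h1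
    rw [ceD_ι]
    exact Submodule.zero_mem _
  | succ n ih =>
    have h1 : x ∈ LinearMap.range (ι k (M := L)) * (⋀[k]^(n + 1) L) := by
      rw [← pow_succ']; exact hx
    have h2 : LinearMap.range (ι k (M := L)) * (⋀[k]^n L) = ⋀[k]^(n + 1) L := by
      rw [← pow_succ']
    clear hx
    induction h1 using Submodule.mul_induction_on' with
    | mem_mul_mem a ha b hb =>
      obtain ⟨m, rfl⟩ := ha
      rw [ceD_ι_mul]
      apply Submodule.sub_mem _ (derExt_id_mem _ hb)
      rw [← h2]
      exact Submodule.mul_mem_mul ⟨_, rfl⟩ (ih hb)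
    | add a _ b _ ha hb =>
      rw [map_add]
      exact Submodule.add_mem _ ha hb

theorem ceD_zero_mem {x : ExteriorAlgebra k L} (hx : x ∈ ⋀[k]^0 L) : ceD k L x = 0 := by
  have h1 : x ∈ (1 : Submodule k (ExteriorAlgebra k L)) := by simpa using hx
  rw [Submodule.mem_one] at h1
  obtain ⟨c, rfl⟩ := h1
  rw [Algebra.algebraMap_eq_smul_one, map_smul, ceD_one, smul_zero]

end lie

end Q86.Abg
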