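import Pool.Agent.Q86.AbgSl

set_option autoImplicit false
set_option linter.unusedSectionVars false

/-!
# The Casimir operator of `sl_3`
-/

namespace Q86.Abg

universe u v

section

variable {k : Type u} [Field k] [CharZero k] {M : Type v} [AddCommGroup M] [Module k M]
  [LieRingModule (S k) M] [LieModule k (S k) M]

/-- The operator of an element of `sl_3`. -/
noncomputable def op (X : S k) : Module.End k M := LieModule.toEnd k (S k) M X

theorem op_apply (X : S k) (v : M) : op X v = ⁅X, v⁆ := rfl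

theorem op_lie (X Y : S k) : (op X * op Y - op Y * op X : Module.End k M) = op ⁅X, Y⁆ := by
  ext v
  show ⁅X, ⁅Y, v⁆⁆ - ⁅Y, ⁅X, v⁆⁆ = ⁅⁅X, Y⁆, v⁆
  rw [lie_lie]

theorem op_add (X Y : S k) : (op (X + Y) : Module.End k M) = op X + op Y := by
  unfold op; rw [map_add]

theorem op_neg (X : S k) : (op (-X) : Module.End k M) = -op X := by
  unfold op; rw [map_neg]

theorem op_zero : (op (0 : S k) : Module.End k M) = 0 := by
  unfold op; rw [map_zero]

theorem op_smul (c : k) (X : S k) : (op (c • X) : Module.End k M) = c • op X := by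
  unfold op; rw [map_smul]

variable (k M)

/-- Three times the Casimir operator. -/
noncomputable def cas : Module.End k M :=
  2 * (op (xh1 k) * op (xh1 k) + op (xh1 k) * op (xh2 k) + op (xh2 k) * op (xh2 k)) +
    6 * (op (xh1 k) + op (xh2 k)) +
    6 * (op (xf1 k) * op (xe1 k) + op (xf2 k) * op (xe2 k) + op (xf3 k) * op (xe3 k))

theorem cas_e1 : cas k M * op (xe1 k) = op (xe1 k) * cas k M := by
  have h1 := op_lie (M := M) (xh1 k) (xe1 k)
  have h2 := op_lie (M := M) (xh2 k) (xe1 k)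
  have r1 := op_lie (M := M) (xe1 k) (xf1 k)
  have r2 := op_lie (M := M) (xe1 k) (xe2 k)
  have r3 := op_lie (M := M) (xe1 k) (xf2 k)
  have r4 := op_lie (M := M) (xe1 k) (xe3 k)
  have r5 := op_lie (M := M) (xe1 k) (xf3 k)
  rw [lie_h1_e1, op_smul, two_smul] at h1
  rw [lie_h2_e1, op_smul, neg_one_smul] at h2
  rw [lie_e1_f1] at r1
  rw [lie_e1_e2] at r2
  rw [lie_e1_f2, op_zero] at r3
  rw [lie_e1_e3, op_zero] at r4
  rw [lie_e1_f3, op_neg] at r5
  unfold cas
  generalize (op (xh1 k) : Module.End k M) = H1 at *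
  generalize (op (xh2 k) : Module.End k M) = H2 at *
  generalize (op (xe1 k) : Module.End k M) = E1 at *
  generalize (op (xe2 k) : Module.End k M) = E2 at *
  generalize (op (xe3 k) : Module.End k M) = E3 at *
  generalize (op (xf1 k) : Module.End k M) = F1 at *
  generalize (op (xf2 k) : Module.End k M) = F2 at *
  generalize (op (xf3 k) : Module.End k M) = F3 at *
  linear_combination (norm := noncomm_ring)
    2 * (H1 * h1 + h1 * H1 + H1 * h2 + h1 * H2 + H2 * h2 + h2 * H2) + 6 * (h1 + h2) +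
    6 * (-(r1 * E1) - F2 * r2 - r3 * E2 - F3 * r4 - r5 * E3) - 4 * h1 - 2 * h2

theorem cas_e2 : cas k M * op (xe2 k) = op (xe2 k) * cas k M := by
  have h1 := op_lie (M := M) (xh1 k) (xe2 k)
  have h2 := op_lie (M := M) (xh2 k) (xe2 k)
  have r1 := op_lie (M := M) (xe2 k) (xf1 k)
  have r2 := op_lie (M := M) (xe1 k) (xe2 k)
  have r3 := op_lie (M := M) (xe2 k) (xf2 k)
  have r4 := op_lie (M := M) (xe2 k) (xe3 k)
  have r5 := op_lie (M := M) (xe2 k) (xf3 k)
  rw [lie_h1_e2, op_smul, neg_one_smul] at h1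
  rw [lie_h2_e2, op_smul, two_smul] at h2
  rw [lie_e2_f1, op_zero] at r1
  rw [lie_e1_e2] at r2
  rw [lie_e2_f2] at r3
  rw [lie_e2_e3, op_zero] at r4
  rw [lie_e2_f3] at r5
  unfold cas
  generalize (op (xh1 k) : Module.End k M) = H1 at *
  generalize (op (xh2 k) : Module.End k M) = H2 at *
  generalize (op (xe1 k) : Module.End k M) = E1 at *
  generalize (op (xe2 k) : Module.End k M) = E2 at *
  generalize (op (xe3 k) : Module.End k M) = E3 at *
  generalize (op (xf1 k) : Module.End k M) = F1 at *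
  generalize (op (xf2 k) : Module.End k M) = F2 at *
  generalize (op (xf3 k) : Module.End k M) = F3 at *
  linear_combination (norm := noncomm_ring)
    2 * (H1 * h1 + h1 * H1 + H1 * h2 + h1 * H2 + H2 * h2 + h2 * H2) + 6 * (h1 + h2) +
    6 * (-(r1 * E1) + F1 * r2 - r3 * E2 - F3 * r4 - r5 * E3) - 2 * h2 + 2 * h1

theorem cas_f1 : cas k M * op (xf1 k) = op (xf1 k) * cas k M := by
  have h1 := op_lie (M := M) (xh1 k) (xf1 k)
  have h2 := op_lie (M := M) (xh2 k) (xf1 k)
  have r1 := op_lie (M := M) (xe1 k) (xf1 k)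
  have r2 := op_lie (M := M) (xf1 k) (xf2 k)
  have r3 := op_lie (M := M) (xe2 k) (xf1 k)
  have r4 := op_lie (M := M) (xf1 k) (xf3 k)
  have r5 := op_lie (M := M) (xe3 k) (xf1 k)
  rw [lie_h1_f1, op_smul, neg_smul, two_smul] at h1
  rw [lie_h2_f1, op_smul, one_smul] at h2
  rw [lie_e1_f1] at r1
  rw [lie_f1_f2, op_neg] at r2
  rw [lie_e2_f1, op_zero] at r3
  rw [lie_f1_f3, op_zero] at r4
  rw [lie_e3_f1, op_neg] at r5
  unfold cas
  generalize (op (xh1 k) : Module.End k M) = H1 at *
  generalize (op (xh2 k) : Module.End k M) = H2 at *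
  generalize (op (xe1 k) : Module.End k M) = E1 at *
  generalize (op (xe2 k) : Module.End k M) = E2 at *
  generalize (op (xe3 k) : Module.End k M) = E3 at *
  generalize (op (xf1 k) : Module.End k M) = F1 at *
  generalize (op (xf2 k) : Module.End k M) = F2 at *
  generalize (op (xf3 k) : Module.End k M) = F3 at *
  linear_combination (norm := noncomm_ring)
    2 * (H1 * h1 + h1 * H1 + H1 * h2 + h1 * H2 + H2 * h2 + h2 * H2) + 6 * (h1 + h2) +
    6 * (F1 * r1 - r2 * E2 + F2 * r3 - r4 * E3 + F3 * r5) - 2 * h1 + 2 * h2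

theorem cas_f2 : cas k M * op (xf2 k) = op (xf2 k) * cas k M := by
  have h1 := op_lie (M := M) (xh1 k) (xf2 k)
  have h2 := op_lie (M := M) (xh2 k) (xf2 k)
  have r1 := op_lie (M := M) (xe1 k) (xf2 k)
  have r2 := op_lie (M := M) (xf1 k) (xf2 k)
  have r3 := op_lie (M := M) (xe2 k) (xf2 k)
  have r4 := op_lie (M := M) (xf2 k) (xf3 k)
  have r5 := op_lie (M := M) (xe3 k) (xf2 k)
  rw [lie_h1_f2, op_smul, one_smul] at h1
  rw [lie_h2_f2, op_smul, neg_smul, two_smul] at h2
  rw [lie_e1_f2, op_zero] at r1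
  rw [lie_f1_f2, op_neg] at r2
  rw [lie_e2_f2] at r3
  rw [lie_f2_f3, op_zero] at r4
  rw [lie_e3_f2] at r5
  unfold cas
  generalize (op (xh1 k) : Module.End k M) = H1 at *
  generalize (op (xh2 k) : Module.End k M) = H2 at *
  generalize (op (xe1 k) : Module.End k M) = E1 at *
  generalize (op (xe2 k) : Module.End k M) = E2 at *
  generalize (op (xe3 k) : Module.End k M) = E3 at *
  generalize (op (xf1 k) : Module.End k M) = F1 at *
  generalize (op (xf2 k) : Module.End k M) = F2 at *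
  generalize (op (xf3 k) : Module.End k M) = F3 at *
  linear_combination (norm := noncomm_ring)
    2 * (H1 * h1 + h1 * H1 + H1 * h2 + h1 * H2 + H2 * h2 + h2 * H2) + 6 * (h1 + h2) +
    6 * (F1 * r1 + r2 * E1 + F2 * r3 - r4 * E3 + F3 * r5) - 2 * h1 - 4 * h2

end

end Q86.Abg
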