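import Pool.Agent.Q86.AbgAlt
import Pool.Agent.Q5.AltChar.Lower

set_option autoImplicit false
set_option linter.unusedSectionVars false

/-!
# The free alternative algebra
-/

open Module Q5.AltChar

namespace Q86.Abg

universe u v

/-- The free nonassociative algebra. -/
abbrev NA (k : Type u) [Field k] (d : ℕ) : Type u := FreeNonUnitalNonAssocAlgebra k (Fin d)

section ideal

variable (k : Type u) [Field k] (d : ℕ)

theorem altIdeal_left (x y : NA k d) : (x * x) * y - x * (x * y) ∈ altIdeal k d := by
  unfold altIdeal
  rw [Submodule.mem_sInf]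
  intro I hI
  exact hI.1 x y

theorem altIdeal_right (x y : NA k d) : (y * x) * x - y * (x * x) ∈ altIdeal k d := by
  unfold altIdeal
  rw [Submodule.mem_sInf]
  intro I hI
  exact hI.2.1 x y

theorem altIdeal_mul {x : NA k d} (hx : x ∈ altIdeal k d) (y : NA k d) :
    x * y ∈ altIdeal k d ∧ y * x ∈ altIdeal k d := by
  unfold altIdeal at *
  rw [Submodule.mem_sInf] at hx
  constructor
  · rw [Submodule.mem_sInf]
    intro I hI
    exact (hI.2.2 x y (hx I hI)).1
  · rw [Submodule.mem_sInf]
    intro I hI
    exact (hI.2.2 x y (hx I hI)).2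

/-- The free alternative algebra with `d` generators: the quotient of the free nonassociative
algebra by the smallest ideal which contains `(x x) y - x (x y)` and `(y x) x - y (x x)` for
all `x, y`. -/
def FreeAlt : Type u := Alt k d

noncomputable instance : AddCommGroup (FreeAlt k d) := inferInstanceAs (AddCommGroup (Alt k d))

noncomputable instance : Module k (FreeAlt k d) := inferInstanceAs (Module k (Alt k d))

/-- The quotient map. -/
noncomputable def toFree : NA k d →ₗ[k] FreeAlt k d := (altIdeal k d).mkQ

theorem toFree_surjective : Function.Surjective (toFree k d) := Submodule.mkQ_surjective _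

theorem toFree_eq_zero {x : NA k d} : toFree k d x = 0 ↔ x ∈ altIdeal k d :=
  Submodule.Quotient.mk_eq_zero _

theorem toFree_eq {x y : NA k d} : toFree k d x = toFree k d y ↔ x - y ∈ altIdeal k d :=
  Submodule.Quotient.eq _

/-- Left multiplication on the quotient. -/
noncomputable def mulF (x : NA k d) : FreeAlt k d →ₗ[k] FreeAlt k d :=
  (altIdeal k d).mapQ (altIdeal k d) (LinearMap.mul k (NA k d) x)
    (fun _ hy => (altIdeal_mul k d hy x).2)

theorem mulF_toFree (x y : NA k d) : mulF k d x (toFree k d y) = toFree k d (x * y) := rfl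

/-- The multiplication on the quotient. -/
noncomputable def mulFF : FreeAlt k d →ₗ[k] FreeAlt k d →ₗ[k] FreeAlt k d :=
  (altIdeal k d).liftQ
    { toFun := mulF k d
      map_add' := by
        intro x y
        apply LinearMap.ext
        intro z
        obtain ⟨z, rfl⟩ := toFree_surjective k d z
        rw [LinearMap.add_apply, mulF_toFree, mulF_toFree, mulF_toFree, add_mul, map_add]
      map_smul' := by
        intro c x
        apply LinearMap.ext
        intro z
        obtain ⟨z, rfl⟩ := toFree_surjective k d z
        rw [LinearMap.smul_apply, mulF_toFree, mulF_toFree, smul_mul_assoc, map_smul]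
        rfl }
    (by
      intro x hx
      rw [LinearMap.mem_ker]
      apply LinearMap.ext
      intro z
      obtain ⟨z, rfl⟩ := toFree_surjective k d z
      show toFree k d (x * z) = 0
      rw [toFree_eq_zero]
      exact (altIdeal_mul k d hx z).1)

noncomputable instance : NonUnitalNonAssocRing (FreeAlt k d) where
  mul x y := mulFF k d x y
  left_distrib x y z := map_add (mulFF k d x) y z
  right_distrib x y z := by
    show mulFF k d (x + y) z = mulFF k d x z + mulFF k d y z
    rw [map_add]; rfl
  zero_mul x := by
    show mulFF k d 0 x = 0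
    rw [map_zero]; rfl
  mul_zero x := map_zero (mulFF k d x)

theorem toFree_mul (x y : NA k d) : toFree k d (x * y) = toFree k d x * toFree k d y := rfl

instance : IsScalarTower k (FreeAlt k d) (FreeAlt k d) where
  smul_assoc c x y := by
    show mulFF k d (c • x) y = c • mulFF k d x y
    rw [map_smul]; rfl

instance : SMulCommClass k (FreeAlt k d) (FreeAlt k d) where
  smul_comm c x y := (map_smul (mulFF k d x) c y).symm

instance : IsAlternative (FreeAlt k d) where
  left_alt x y := by
    obtain ⟨x, rfl⟩ := toFree_surjective k d x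
    obtain ⟨y, rfl⟩ := toFree_surjective k d y
    rw [← toFree_mul, ← toFree_mul, ← toFree_mul, ← toFree_mul, toFree_eq]
    exact altIdeal_left k d x y
  right_alt x y := by
    obtain ⟨x, rfl⟩ := toFree_surjective k d x
    obtain ⟨y, rfl⟩ := toFree_surjective k d y
    rw [← toFree_mul, ← toFree_mul, ← toFree_mul, ← toFree_mul, toFree_eq]
    exact altIdeal_right k d x y

end ideal

section euler

variable (k : Type u) [Field k] (d : ℕ)

/-- The basis of monomials. -/
noncomputable def bNA : Basis (FreeMagma (Fin d)) k (NA k d) :=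
  (Finsupp.basisSingleOne (R := k) (ι := FreeMagma (Fin d))).map
    (MonoidAlgebra.coeffLinearEquiv k).symm

theorem bNA_apply (w : FreeMagma (Fin d)) : bNA k d w = MonoidAlgebra.single w 1 := by
  unfold bNA
  rw [Basis.map_apply, Finsupp.coe_basisSingleOne]
  rfl

/-- The degree operator on the free nonassociative algebra. -/
noncomputable def eNA : NA k d →ₗ[k] NA k d :=
  (bNA k d).constr k (fun w => (len w : k) • bNA k d w)

theorem eNA_single (w : FreeMagma (Fin d)) :
    eNA k d (bNA k d w) = (len w : k) • bNA k d w := Basis.constr_basis _ _ _ _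

theorem bNA_mul (v w : FreeMagma (Fin d)) : bNA k d v * bNA k d w = bNA k d (v * w) := by
  rw [bNA_apply, bNA_apply, bNA_apply, MonoidAlgebra.single_mul_single, one_mul]

theorem eNA_mul (x y : NA k d) : eNA k d (x * y) = eNA k d x * y + x * eNA k d y := by
  have h : (LinearMap.mul k (NA k d)).compr₂ (eNA k d) =
      (LinearMap.mul k (NA k d)).comp (eNA k d) +
      ((LinearMap.mul k (NA k d)).flip.comp (eNA k d)).flip := by
    apply (bNA k d).ext
    intro v
    apply (bNA k d).ext
    intro w
    show eNA k d (bNA k d v * bNA k d w) =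
      eNA k d (bNA k d v) * bNA k d w + bNA k d v * eNA k d (bNA k d w)
    rw [bNA_mul, eNA_single, eNA_single, eNA_single, smul_mul_assoc, mul_smul_comm, bNA_mul]
    have : len (v * w) = len v + len w := rfl
    rw [this, Nat.cast_add, add_smul]
  exact LinearMap.congr_fun (LinearMap.congr_fun h x) y

theorem eNA_ideal : altIdeal k d ≤ (altIdeal k d).comap (eNA k d) := by
  have h : altIdeal k d ≤ altIdeal k d ⊓ (altIdeal k d).comap (eNA k d) := by
    conv_lhs => unfold altIdeal
    apply sInf_le
    refine ⟨?_, ?_, ?_⟩
    · intro x y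
      refine ⟨altIdeal_left k d x y, ?_⟩
      show eNA k d _ ∈ altIdeal k d
      have h1 := altIdeal_left k d (x + eNA k d x) y
      have h2 := altIdeal_left k d x y
      have h3 := altIdeal_left k d (eNA k d x) y
      have h4 := altIdeal_left k d x (eNA k d y)
      have h5 := Submodule.add_mem _ (Submodule.sub_mem _ (Submodule.sub_mem _ h1 h2) h3) h4
      convert h5 using 1
      simp only [map_sub, eNA_mul, mul_add, add_mul]
      abel
    · intro x y
      refine ⟨altIdeal_right k d x y, ?_⟩
      show eNA k d _ ∈ altIdeal k d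
      have h1 := altIdeal_right k d (x + eNA k d x) y
      have h2 := altIdeal_right k d x y
      have h3 := altIdeal_right k d (eNA k d x) y
      have h4 := altIdeal_right k d x (eNA k d y)
      have h5 := Submodule.add_mem _ (Submodule.sub_mem _ (Submodule.sub_mem _ h1 h2) h3) h4
      convert h5 using 1
      simp only [map_sub, eNA_mul, mul_add, add_mul]
      abel
    · rintro x y ⟨hx1, hx2⟩
      have hx2' : eNA k d x ∈ altIdeal k d := hx2
      refine ⟨⟨(altIdeal_mul k d hx1 y).1, ?_⟩, ⟨(altIdeal_mul k d hx1 y).2, ?_⟩⟩
      · show eNA k d _ ∈ altIdeal k d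
        rw [eNA_mul]
        exact Submodule.add_mem _ (altIdeal_mul k d hx2' y).1 (altIdeal_mul k d hx1 _).1
      · show eNA k d _ ∈ altIdeal k d
        rw [eNA_mul]
        exact Submodule.add_mem _ (altIdeal_mul k d hx1 _).2 (altIdeal_mul k d hx2' y).2
  exact h.trans inf_le_right

/-- The degree operator on the free alternative algebra. -/
noncomputable def eF : FreeAlt k d →ₗ[k] FreeAlt k d :=
  (altIdeal k d).mapQ (altIdeal k d) (eNA k d) (eNA_ideal k d)

theorem eF_toFree (x : NA k d) : eF k d (toFree k d x) = toFree k d (eNA k d x) := rfl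

theorem eF_mul (x y : FreeAlt k d) : eF k d (x * y) = eF k d x * y + x * eF k d y := by
  obtain ⟨x, rfl⟩ := toFree_surjective k d x
  obtain ⟨y, rfl⟩ := toFree_surjective k d y
  rw [← toFree_mul, eF_toFree, eNA_mul, map_add, toFree_mul, toFree_mul, eF_toFree, eF_toFree]

/-- The images of the monomials of a given degree. -/
def sF (n : ℕ) : Set (FreeAlt k d) := (fun w => toFree k d (bNA k d w)) '' {w | len w = n}

theorem sF_finite (n : ℕ) : (sF k d n).Finite := by
  apply Set.Finite.image
  apply (finite_len (d := d) n).subset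
  intro w hw
  exact le_of_eq hw

theorem eF_of_mem {n : ℕ} {x : FreeAlt k d} (hx : x ∈ sF k d n) : eF k d x = (n : k) • x := by
  obtain ⟨w, hw, rfl⟩ := hx
  have hw' : len w = n := hw
  show eF k d (toFree k d (bNA k d w)) = (n : k) • toFree k d (bNA k d w)
  rw [eF_toFree, eNA_single, map_smul, hw']

theorem sF_span : Submodule.span k (⋃ n, sF k d n) = ⊤ := by
  rw [eq_top_iff]
  intro x _
  obtain ⟨x, rfl⟩ := toFree_surjective k d x
  have h1 : x ∈ Submodule.span k (Set.range (bNA k d)) := by
    rw [(bNA k d).span_eq]; exact Submodule.mem_top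
  have h2 := Submodule.mem_map_of_mem (f := toFree k d) h1
  rw [Submodule.map_span] at h2
  refine Submodule.span_mono ?_ h2
  rintro _ ⟨_, ⟨w, rfl⟩, rfl⟩
  exact Set.mem_iUnion.2 ⟨len w, ⟨w, rfl, rfl⟩⟩

theorem sF_zero : sF k d 0 = ∅ := by
  ext x
  simp only [Set.mem_empty_iff_false, iff_false]
  rintro ⟨w, hw, _⟩
  have h1 : len w = 0 := hw
  have := len_pos w
  omega

theorem sF_prod {n : ℕ} (hn : 2 ≤ n) {x : FreeAlt k d} (hx : x ∈ sF k d n) :
    ∃ y z : FreeAlt k d, x = y * z := by
  obtain ⟨w, hw, rfl⟩ := hx
  have hw' : len w = n := hw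
  cases w with
  | of i =>
    have : len (FreeMagma.of i) = 1 := rfl
    omega
  | mul a b =>
    refine ⟨toFree k d (bNA k d a), toFree k d (bNA k d b), ?_⟩
    rw [← toFree_mul, bNA_mul]
    rfl

theorem sF_one_card : (sF k d 1).ncard ≤ d := by
  have h1 : sF k d 1 ⊆ Set.range (fun i : Fin d => toFree k d (bNA k d (FreeMagma.of i))) := by
    rintro _ ⟨w, hw, rfl⟩
    have hw' : len w = 1 := hw
    cases w with
    | of i => exact ⟨i, rfl⟩
    | mul a b =>
      have h2 : len a + len b = 1 := hw'
      have := len_pos a
      have := len_pos b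
      omega
  have h2 := Set.ncard_le_ncard h1 (Set.finite_range _)
  refine h2.trans ?_
  rw [← Set.image_univ]
  refine (Set.ncard_image_le).trans ?_
  rw [Set.ncard_univ, Nat.card_fin]

/-- The images of the monomials `magmaOf` are linearly independent. -/
theorem linInd (n : ℕ) : LinearIndependent k
    (fun v : Fin (n + 1) → Fin d => toFree k d (bNA k d (magmaOf n v))) := by
  have hlin : LinearIndependent k (fun v : Fin (n + 1) → Fin d =>
      ofAlt k d ((altIdeal k d).mkQ (MonoidAlgebra.single (magmaOf n v) 1))) := by
    have h2 : (fun v : Fin (n + 1) → Fin d =>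
        ofAlt k d ((altIdeal k d).mkQ (MonoidAlgebra.single (magmaOf n v) 1))) =
        fun v => (MonoidAlgebra.single (FreeMonoid.ofList (List.ofFn v)) 1 :
          MonoidAlgebra k (FreeMonoid (Fin d))) := by
      funext v
      rw [ofAlt_mk, toWord_magmaOf]
    rw [h2]
    have h3 : LinearIndependent k (fun w : FreeMonoid (Fin d) =>
        (MonoidAlgebra.single w 1 : MonoidAlgebra k (FreeMonoid (Fin d)))) := by
      have h4 := (Finsupp.basisSingleOne (R := k) (ι := FreeMonoid (Fin d))).linearIndependent
      apply LinearIndependent.of_comp (MonoidAlgebra.coeffLinearEquiv k).toLinearMap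
      convert h4 using 1
      funext w
      simp
    exact h3.comp (fun v : Fin (n + 1) → Fin d => FreeMonoid.ofList (List.ofFn v)) (by
      intro v w hvw
      exact List.ofFn_injective (FreeMonoid.ofList.injective hvw))
  apply LinearIndependent.of_comp (ofAlt k d)
  convert hlin using 1
  funext v
  show ofAlt k d (toFree k d (bNA k d (magmaOf n v))) = _
  rw [bNA_apply]
  rfl

theorem len_magmaOf (n : ℕ) (v : Fin (n + 1) → Fin d) : len (magmaOf n v) = n + 1 := by
  rw [← content_degree, content_magmaOf_degree]

end euler

end Q86.Abg
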