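import Pool.Agent.Q86.AbgNum
import Pool.Agent.Q86.AbgFree

set_option autoImplicit false
set_option linter.unusedSectionVars false

/-!
# The graded data of the Allison-Benkart-Gao Lie algebra
-/

open Module TensorProduct

namespace Q86.Abg

universe u v

section gb

/-- A homogeneous basis. -/
structure GB (k : Type u) [Field k] (V : Type u) [AddCommGroup V] [Module k V]
    (s : ℕ → Set V) where
  ι : Type u
  b : Basis ι k V
  d : ι → ℕ
  mem : ∀ i, b i ∈ s (d i)
  fin : ∀ n, {i | d i ≤ n}.Finite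

theorem exists_GB (k : Type u) [Field k] {V : Type u} [AddCommGroup V] [Module k V]
    {s : ℕ → Set V} (hfin : ∀ n, (s n).Finite)
    (hspan : Submodule.span k (⋃ n, s n) = ⊤) : Nonempty (GB k V s) := by
  classical
  obtain ⟨t, ht1, ht2, ht3⟩ := exists_linearIndependent k (⋃ n, s n)
  have h1 : ∀ x : t, ∃ n, x.1 ∈ s n := fun x => Set.mem_iUnion.1 (ht1 x.2)
  choose d hd using h1
  have hb : ⊤ ≤ Submodule.span k (Set.range (Subtype.val : t → V)) := by
    rw [Subtype.range_coe, ht2, hspan]
  refine ⟨⟨t, Basis.mk ht3 hb, d, ?_, ?_⟩⟩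
  · intro i
    rw [Basis.mk_apply]
    exact hd i
  · intro n
    have h2 : (⋃ m ∈ Set.Iic n, s m).Finite := (Set.finite_Iic n).biUnion (fun m _ => hfin m)
    apply Set.Finite.of_finite_image (f := Subtype.val) _ Subtype.val_injective.injOn
    apply h2.subset
    rintro _ ⟨x, hx, rfl⟩
    exact Set.mem_biUnion hx (hd x)

end gb

section bS

variable (k : Type u) [Field k] [CharZero k]

/-- The Chevalley basis as a family. -/
def sc : Fin 8 → S k := ![xe1 k, xe2 k, xe3 k, xf1 k, xf2 k, xf3 k, xh1 k, xh2 k]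

theorem sum_sc (g : Fin 8 → k) : ∑ i, g i • sc k i = g 0 • xe1 k + g 1 • xe2 k + g 2 • xe3 k +
    g 3 • xf1 k + g 4 • xf2 k + g 5 • xf3 k + g 6 • xh1 k + g 7 • xh2 k := by
  rw [Fin.sum_univ_eight]
  rfl

theorem sc_val (g : Fin 8 → k) (i j : Fin 3) : (∑ i, g i • sc k i : S k).1 i j =
    (g 0 • Matrix.single 0 1 (1 : k) + g 1 • Matrix.single 1 2 (1 : k) +
      g 2 • Matrix.single 0 2 (1 : k) + g 3 • Matrix.single 1 0 (1 : k) +
      g 4 • Matrix.single 2 1 (1 : k) + g 5 • Matrix.single 2 0 (1 : k) +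
      g 6 • (Matrix.single 0 0 (1 : k) - Matrix.single 1 1 (1 : k)) +
      g 7 • (Matrix.single 1 1 (1 : k) - Matrix.single 2 2 (1 : k)) : Matrix (Fin 3) (Fin 3) k)
      i j := by
  rw [sum_sc]
  rfl

theorem sc_linInd : LinearIndependent k (sc k) := by
  rw [Fintype.linearIndependent_iff]
  intro g hg
  have h : ∀ i j : Fin 3, (∑ i, g i • sc k i : S k).1 i j = 0 := by
    intro i j
    rw [hg]
    rfl
  have h01 := h 0 1
  have h12 := h 1 2
  have h02 := h 0 2
  have h10 := h 1 0
  have h21 := h 2 1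
  have h20 := h 2 0
  have h00 := h 0 0
  have h22 := h 2 2
  rw [sc_val] at h01 h12 h02 h10 h21 h20 h00 h22
  simp [Matrix.single] at h01 h12 h02 h10 h21 h20 h00 h22
  intro i
  fin_cases i
  · exact h01
  · exact h12
  · exact h02
  · exact h10
  · exact h21
  · exact h20
  · exact h00
  · exact h22

/-- The Chevalley basis. -/
noncomputable def bS : Basis (Fin 8) k (S k) :=
  Basis.mk (sc_linInd k) (by
    intro X _
    rw [S.decomp X]
    have h : ∀ i, sc k i ∈ Submodule.span k (Set.range (sc k)) := fun i =>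
      Submodule.subset_span ⟨i, rfl⟩
    have h0 : xe1 k ∈ Submodule.span k (Set.range (sc k)) := h 0
    have h1 : xe2 k ∈ Submodule.span k (Set.range (sc k)) := h 1
    have h2 : xe3 k ∈ Submodule.span k (Set.range (sc k)) := h 2
    have h3 : xf1 k ∈ Submodule.span k (Set.range (sc k)) := h 3
    have h4 : xf2 k ∈ Submodule.span k (Set.range (sc k)) := h 4
    have h5 : xf3 k ∈ Submodule.span k (Set.range (sc k)) := h 5
    have h6 : xh1 k ∈ Submodule.span k (Set.range (sc k)) := h 6
    have h7 : xh2 k ∈ Submodule.span k (Set.range (sc k)) := h 7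
    exact Submodule.add_mem _ (Submodule.add_mem _ (Submodule.add_mem _ (Submodule.add_mem _
      (Submodule.add_mem _ (Submodule.add_mem _ (Submodule.add_mem _ (Submodule.smul_mem _ _ h0)
      (Submodule.smul_mem _ _ h1)) (Submodule.smul_mem _ _ h2)) (Submodule.smul_mem _ _ h3))
      (Submodule.smul_mem _ _ h4)) (Submodule.smul_mem _ _ h5)) (Submodule.smul_mem _ _ h6))
      (Submodule.smul_mem _ _ h7))

theorem bS_apply (i : Fin 8) : bS k i = sc k i := by
  unfold bS
  rw [Basis.mk_apply]

theorem bS_wb : WB (bS k) wS := by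
  intro i
  rw [bS_apply]
  constructor
  · fin_cases i
    · exact (lie_h1_e1 k).trans (by norm_num [c1, wS]; rfl)
    · exact (lie_h1_e2 k).trans (by norm_num [c1, wS]; rfl)
    · exact (lie_h1_e3 k).trans (by norm_num [c1, wS]; rfl)
    · exact (lie_h1_f1 k).trans (by norm_num [c1, wS]; rfl)
    · exact (lie_h1_f2 k).trans (by norm_num [c1, wS]; rfl)
    · exact (lie_h1_f3 k).trans (by norm_num [c1, wS]; rfl)
    · exact (lie_self (xh1 k)).trans (by norm_num [c1, wS])
    · exact (lie_h1_h2 k).trans (by norm_num [c1, wS])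
  · fin_cases i
    · exact (lie_h2_e1 k).trans (by norm_num [c2, wS]; rfl)
    · exact (lie_h2_e2 k).trans (by norm_num [c2, wS]; rfl)
    · exact (lie_h2_e3 k).trans (by norm_num [c2, wS]; rfl)
    · exact (lie_h2_f1 k).trans (by norm_num [c2, wS]; rfl)
    · exact (lie_h2_f2 k).trans (by norm_num [c2, wS]; rfl)
    · exact (lie_h2_f3 k).trans (by norm_num [c2, wS]; rfl)
    · refine Eq.trans (b := 0) ?_ (by norm_num [c2, wS])
      rw [← lie_skew]
      exact (congrArg Neg.neg (lie_h1_h2 k)).trans neg_zero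
    · exact (lie_self (xh2 k)).trans (by norm_num [c2, wS])

end bS

end Q86.Abg
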