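import Pool.Agent.Q86.AbgDat

set_option autoImplicit false
set_option linter.unusedSectionVars false

/-!
# The graded data of the Allison-Benkart-Gao Lie algebra
-/

open Module TensorProduct

namespace Q86.Abg

universe u v

section E

variable {k : Type u} {A : Type u} [Field k] [CharZero k] [NonUnitalNonAssocRing A] [Module k A]
  [IsScalarTower k A A] [SMulCommClass k A A]

/-- The operator on `sl_3 ⊗ A` induced by an operator on `A`. -/
noncomputable def tA (T : Module.End k A) : S k ⊗[k] A →ₗ[k] S k ⊗[k] A :=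
  TensorProduct.map LinearMap.id T

theorem tA_tmul (T : Module.End k A) (X : S k) (p : A) : tA T (X ⊗ₜ[k] p) = X ⊗ₜ T p := rfl

variable {T : Module.End k A} (hT : ∀ x y, T (x * y) = T x * y + x * T y)

include hT in
theorem tA_m1 (u v : S k ⊗[k] A) : tA T (m1 u v) = m1 (tA T u) v + m1 u (tA T v) := by
  induction u using TensorProduct.induction_on with
  | zero => simp
  | tmul X p =>
    induction v using TensorProduct.induction_on with
    | zero => simp
    | tmul Y q =>
      rw [tA_tmul, tA_tmul, m1_tmul, m1_tmul, m1_tmul, map_add, tA_tmul, tA_tmul]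
      simp only [map_smul, map_add, map_sub, hT]
      simp only [TensorProduct.tmul_add, TensorProduct.tmul_sub, TensorProduct.tmul_smul]
      module
    | add a b ha hb =>
      simp only [map_add, ha, hb]
      abel
  | add a b ha hb =>
    simp only [map_add, LinearMap.add_apply, ha, hb]
    abel

theorem bOf_m2 (u v : S k ⊗[k] A) : bOf T hT (m2 u v) = m2 (tA T u) v + m2 u (tA T v) := by
  induction u using TensorProduct.induction_on with
  | zero => simp
  | tmul X p =>
    induction v using TensorProduct.induction_on with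
    | zero => simp
    | tmul Y q =>
      rw [tA_tmul, tA_tmul, m2_tmul, m2_tmul, m2_tmul, map_smul, map_smul, bOf_wed]
      module
    | add a b ha hb =>
      simp only [map_add, ha, hb]
      abel
  | add a b ha hb =>
    simp only [map_add, LinearMap.add_apply, ha, hb]
    abel

variable [IsAlternative A]

theorem DD_bOf (β : BB k A) : DD (bOf T hT β) = T ∘ₗ DD β - DD β ∘ₗ T := by
  induction β using BB.induction with
  | h0 => simp
  | h1 p q =>
    ext x
    rw [bOf_wed, map_add, DD_wed, DD_wed, DD_wed]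
    simp only [LinearMap.add_apply, LinearMap.sub_apply, LinearMap.comp_apply, dEnd_apply, dfun,
      map_add, map_sub, hT]
    simp only [mul_add, add_mul]
    abel
  | h2 a b ha hb =>
    rw [map_add, map_add, ha, hb, map_add]
    ext x
    simp only [LinearMap.add_apply, LinearMap.sub_apply, LinearMap.comp_apply, map_add]
    abel

theorem tA_act (β : BB k A) (u : S k ⊗[k] A) :
    tA T (act β u) = act (bOf T hT β) u + act β (tA T u) := by
  induction u using TensorProduct.induction_on with
  | zero => simp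
  | tmul X p =>
    rw [act_tmul, tA_tmul, tA_tmul, act_tmul, act_tmul, DD_bOf]
    simp only [LinearMap.sub_apply, LinearMap.comp_apply, TensorProduct.tmul_sub]
    abel
  | add a b ha hb =>
    simp only [map_add, ha, hb]
    abel

theorem bOf_brB (β γ : BB k A) :
    bOf T hT (brB β γ) = brB (bOf T hT β) γ + brB β (bOf T hT γ) := by
  induction γ using BB.induction with
  | h0 => simp
  | h1 p q =>
    rw [brB_wed, map_add, bOf_wed, bOf_wed, bOf_wed, brB_wed, map_add, brB_wed, brB_wed, DD_bOf]
    simp only [LinearMap.sub_apply, LinearMap.comp_apply, ← wedL_apply, map_sub,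
      LinearMap.sub_apply]
    abel
  | h2 a b ha hb =>
    simp only [map_add, ha, hb]
    abel

/-- The derivation of the Allison-Benkart-Gao Lie algebra induced by a derivation of `A`. -/
noncomputable def eG (T : Module.End k A) (hT : ∀ x y, T (x * y) = T x * y + x * T y) :
    ABG k A →ₗ[k] ABG k A := LinearMap.prodMap (tA T) (bOf T hT)

theorem eG_lie (x y : ABG k A) : eG T hT ⁅x, y⁆ = ⁅eG T hT x, y⁆ + ⁅x, eG T hT y⁆ := by
  apply Prod.ext
  · show tA T (m1 x.1 y.1 + act x.2 y.1 - act y.2 x.1) =
      (m1 (tA T x.1) y.1 + act (bOf T hT x.2) y.1 - act y.2 (tA T x.1)) +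
      (m1 x.1 (tA T y.1) + act x.2 (tA T y.1) - act (bOf T hT y.2) x.1)
    rw [map_sub, map_add, tA_m1 hT, tA_act hT, tA_act hT]
    abel
  · show bOf T hT (m2 x.1 y.1 + brB x.2 y.2) = (m2 (tA T x.1) y.1 + brB (bOf T hT x.2) y.2) +
      (m2 x.1 (tA T y.1) + brB x.2 (bOf T hT y.2))
    rw [map_add, bOf_m2 hT, bOf_brB hT]
    abel

theorem sT_tA (X : S k) (u : S k ⊗[k] A) : tA T (sT X u) = sT X (tA T u) := by
  induction u using TensorProduct.induction_on with
  | zero => simp
  | tmul Y p => rfl
  | add a b ha hb => simp only [map_add, ha, hb]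

theorem eG_act (X : S k) (x : ABG k A) : eG T hT ⁅X, x⁆ = ⁅X, eG T hT x⁆ := by
  apply Prod.ext
  · exact sT_tA X x.1
  · show bOf T hT 0 = 0
    exact map_zero _

end E

section dat

variable {k : Type u} {A : Type u} [Field k] [CharZero k] [NonUnitalNonAssocRing A] [Module k A]
  [IsScalarTower k A A] [SMulCommClass k A A]

/-- The homogeneous elements of `B(A)`. -/
def sB (s : ℕ → Set A) (n : ℕ) : Set (BB k A) :=
  {x | ∃ (i j : ℕ) (y z : A), y ∈ s i ∧ z ∈ s j ∧ i + j = n ∧ x = wed y z}

theorem sB_finite {s : ℕ → Set A} (hs : ∀ n, (s n).Finite) (n : ℕ) : (sB (k := k) s n).Finite := by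
  have h1 : (⋃ i ∈ Set.Iic n, ⋃ j ∈ Set.Iic n, Set.image2 (wed (k := k)) (s i) (s j)).Finite :=
    (Set.finite_Iic n).biUnion (fun i _ => (Set.finite_Iic n).biUnion
      (fun j _ => (hs i).image2 _ (hs j)))
  apply h1.subset
  rintro x ⟨i, j, y, z, hy, hz, hij, rfl⟩
  refine Set.mem_biUnion (x := i) ?_ (Set.mem_biUnion (x := j) ?_ ⟨y, hy, z, hz, rfl⟩)
  · simp only [Set.mem_Iic]; omega
  · simp only [Set.mem_Iic]; omega

theorem sB_span {s : ℕ → Set A} (hs : Submodule.span k (⋃ n, s n) = ⊤) :
    Submodule.span k (⋃ n, sB (k := k) s n) = ⊤ := by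
  rw [eq_top_iff]
  intro x _
  have key : ∀ p q : A, wed (k := k) p q ∈ Submodule.span k (⋃ n, sB (k := k) s n) := by
    intro p q
    have hp : p ∈ Submodule.span k (⋃ n, s n) := by rw [hs]; exact Submodule.mem_top
    have hq : q ∈ Submodule.span k (⋃ n, s n) := by rw [hs]; exact Submodule.mem_top
    induction hp using Submodule.span_induction with
    | mem y hy =>
      induction hq using Submodule.span_induction with
      | mem z hz =>
        obtain ⟨i, hi⟩ := Set.mem_iUnion.1 hy
        obtain ⟨j, hj⟩ := Set.mem_iUnion.1 hz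
        exact Submodule.subset_span (Set.mem_iUnion.2 ⟨i + j, i, j, y, z, hi, hj, rfl, rfl⟩)
      | zero => rw [← wedL_apply, map_zero]; exact Submodule.zero_mem _
      | add a b _ _ ha hb => rw [← wedL_apply, map_add]; exact Submodule.add_mem _ ha hb
      | smul c a _ ha => rw [← wedL_apply, map_smul]; exact Submodule.smul_mem _ _ ha
    | zero => rw [← wedL_apply, map_zero]; exact Submodule.zero_mem _
    | add a b _ _ ha hb =>
      rw [← wedL_apply, map_add, LinearMap.add_apply]; exact Submodule.add_mem _ ha hb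
    | smul c a _ ha =>
      rw [← wedL_apply, map_smul, LinearMap.smul_apply]; exact Submodule.smul_mem _ _ ha
  induction x using BB.induction with
  | h0 => exact Submodule.zero_mem _
  | h1 p q => exact key p q
  | h2 a b ha hb => exact Submodule.add_mem _ (ha trivial) (hb trivial)

/-- The index type of the basis. -/
def II (ι κ : Type u) : Type u := (Fin 8 × ι) ⊕ κ

open Classical in
noncomputable instance (ι κ : Type u) : LinearOrder (II ι κ) := linearOrderOfSTO WellOrderingRel

/-- The basis of the Allison-Benkart-Gao Lie algebra. -/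
noncomputable def bG {s : ℕ → Set A} (gA : GB k A s) (gB : GB k (BB k A) (sB s)) :
    Basis (II gA.ι gB.ι) k (ABG k A) :=
  (((bS k).tensorProduct gA.b).prod gB.b : Basis ((Fin 8 × gA.ι) ⊕ gB.ι) k
    ((S k ⊗[k] A) × BB k A))

theorem bG_inl {s : ℕ → Set A} (gA : GB k A s) (gB : GB k (BB k A) (sB s)) (c : Fin 8) (a : gA.ι) :
    bG gA gB (Sum.inl (c, a)) = ((bS k c ⊗ₜ gA.b a, 0) : ABG k A) := by
  show (((bS k).tensorProduct gA.b).prod gB.b) (Sum.inl (c, a)) = _
  apply Prod.ext
  · rw [Basis.prod_apply_inl_fst, Basis.tensorProduct_apply]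
  · rw [Basis.prod_apply_inl_snd]

theorem bG_inr {s : ℕ → Set A} (gA : GB k A s) (gB : GB k (BB k A) (sB s)) (β : gB.ι) :
    bG gA gB (Sum.inr β) = ((0, gB.b β) : ABG k A) := by
  show (((bS k).tensorProduct gA.b).prod gB.b) (Sum.inr β) = _
  apply Prod.ext
  · rw [Basis.prod_apply_inr_fst]
  · rw [Basis.prod_apply_inr_snd]

/-- The weights. -/
def wG (ι κ : Type u) : II ι κ → ℤ × ℤ
  | Sum.inl p => wS p.1
  | Sum.inr _ => (0, 0)

/-- The degrees. -/
def dG {ι κ : Type u} (d : ι → ℕ) (e : κ → ℕ) : II ι κ → ℕ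
  | Sum.inl p => d p.2
  | Sum.inr β => e β

variable [IsAlternative A]

/-- The graded data of the Allison-Benkart-Gao Lie algebra of a graded alternative algebra. -/
noncomputable def datG {s : ℕ → Set A} (gA : GB k A s) (gB : GB k (BB k A) (sB s))
    {T : Module.End k A} (hT : ∀ x y, T (x * y) = T x * y + x * T y)
    (hs : ∀ n, ∀ x ∈ s n, T x = (n : k) • x) (h0 : s 0 = ∅) :
    Dat k (ABG k A) (II gA.ι gB.ι) where
  b := bG gA gB
  wt := wG gA.ι gB.ι
  dg := dG gA.d gB.d
  E := eG T hT
  hwt i := by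
    rcases i with ⟨c, a⟩ | β
    · rw [bG_inl]
      constructor
      · apply Prod.ext
        · show (⁅xh1 k, bS k c⁆ : S k) ⊗ₜ[k] gA.b a = (c1 (wS c) : k) • (bS k c ⊗ₜ[k] gA.b a)
          rw [(bS_wb k c).h1, TensorProduct.smul_tmul']
        · exact (smul_zero _).symm
      · apply Prod.ext
        · show (⁅xh2 k, bS k c⁆ : S k) ⊗ₜ[k] gA.b a = (c2 (wS c) : k) • (bS k c ⊗ₜ[k] gA.b a)
          rw [(bS_wb k c).h2, TensorProduct.smul_tmul']
        · exact (smul_zero _).symm
    · rw [bG_inr]
      constructor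
      · apply Prod.ext
        · show sT (xh1 k) (0 : S k ⊗[k] A) = (c1 (0, 0) : k) • (0 : S k ⊗[k] A)
          rw [map_zero, smul_zero]
        · show (0 : BB k A) = (c1 (0, 0) : k) • gB.b β
          simp [c1]
      · apply Prod.ext
        · show sT (xh2 k) (0 : S k ⊗[k] A) = (c2 (0, 0) : k) • (0 : S k ⊗[k] A)
          rw [map_zero, smul_zero]
        · show (0 : BB k A) = (c2 (0, 0) : k) • gB.b β
          simp [c2]
  hE i := by
    rcases i with ⟨c, a⟩ | β
    · rw [bG_inl]
      apply Prod.ext
      · show bS k c ⊗ₜ[k] T (gA.b a) = (gA.d a : k) • (bS k c ⊗ₜ[k] gA.b a)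
        rw [hs _ _ (gA.mem a), TensorProduct.tmul_smul]
      · show bOf T hT 0 = (gA.d a : k) • 0
        rw [map_zero, smul_zero]
    · rw [bG_inr]
      apply Prod.ext
      · show tA T 0 = (gB.d β : k) • 0
        rw [map_zero, smul_zero]
      · show bOf T hT (gB.b β) = (gB.d β : k) • gB.b β
        obtain ⟨i, j, y, z, hy, hz, hij, h⟩ := gB.mem β
        rw [h, bOf_wed, hs i y hy, hs j z hz, ← hij]
        simp only [← wedL_apply, map_smul, LinearMap.smul_apply]
        push_cast
        rw [add_smul]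
  hE_lie x y := eG_lie hT x y
  hE_act X x := eG_act hT X x
  pos i := by
    have h1 : ∀ n, ∀ x ∈ s n, 1 ≤ n := by
      intro n x hx
      rcases Nat.eq_zero_or_pos n with h | h
      · subst h
        rw [h0] at hx
        exact absurd hx (Set.notMem_empty x)
      · exact h
    rcases i with ⟨c, a⟩ | β
    · exact h1 _ _ (gA.mem a)
    · show 1 ≤ gB.d β
      obtain ⟨i, j, y, z, hy, hz, hij, h⟩ := gB.mem β
      have := h1 _ _ hy
      omega
  fin n := by
    have h1 : {i : II gA.ι gB.ι | dG gA.d gB.d i ≤ n} ⊆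
        (Sum.inl '' (Set.univ ×ˢ {a | gA.d a ≤ n})) ∪ (Sum.inr '' {β | gB.d β ≤ n}) := by
      rintro (⟨c, a⟩ | β) hi
      · exact Or.inl ⟨(c, a), ⟨Set.mem_univ _, hi⟩, rfl⟩
      · exact Or.inr ⟨β, hi, rfl⟩
    refine Set.Finite.subset (Set.Finite.union ?_ ?_) h1
    · exact (Set.finite_univ.prod (gA.fin n)).image _
    · exact (gB.fin n).image _

end dat

end Q86.Abg
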