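import Pool.Agent.Q86.AbgExact

set_option autoImplicit false
set_option linter.unusedSectionVars false

/-!
# The Euler characteristic of the complex of equivariant maps
-/

open Module

namespace Q86.Abg

universe u v w

section tel

/-- A telescoping sum. -/
theorem telescope (a r : ℕ → ℤ) (h0 : a 0 = 0) (hr0 : r 0 = 0) (h : ∀ m, a (m + 1) = r m + r (m + 1))
    (N : ℕ) (hN : r N = 0) : ∑ m ∈ Finset.range (N + 1), (-1) ^ m * a m = 0 := by
  have key : ∀ N, ∑ m ∈ Finset.range (N + 1), (-1) ^ m * a m = (-1) ^ N * r N := by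
    intro N
    induction N with
    | zero => simp [h0, hr0]
    | succ N ih =>
      rw [Finset.sum_range_succ, ih, h N, pow_succ]
      ring
  rw [key, hN, mul_zero]

theorem finrank_split {k : Type u} [Field k] {V : Type v} {V' : Type w} [AddCommGroup V] [Module k V]
    [AddCommGroup V'] [Module k V'] [FiniteDimensional k V] (f : V →ₗ[k] V') (p : Submodule k V) :
    finrank k p = finrank k (p.map f) + finrank k (p ⊓ LinearMap.ker f : Submodule k V) := by
  have h1 := LinearMap.finrank_range_add_finrank_ker (f.domRestrict p)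
  rw [← h1]
  congr 1
  · rw [LinearMap.range_domRestrict]
  · have h2 : LinearMap.ker (f.domRestrict p) =
        (p ⊓ LinearMap.ker f).submoduleOf p := by
      ext x
      simp [Submodule.submoduleOf]
    rw [h2]
    have h3 : (p ⊓ LinearMap.ker f) ≤ p := inf_le_left
    exact (Submodule.submoduleOfEquivOfLe h3).finrank_eq

end tel

section dat

variable {k : Type u} [Field k] [CharZero k] {L : Type v} [LieRing L] [LieAlgebra k L]
  [LieRingModule (S k) L] [LieModule k (S k) L] [SDer k L] {I : Type v} [LinearOrder I]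
  (D : Dat k L I) {U : Type w} [AddCommGroup U] [Module k U]
  [LieRingModule (S k) U] [LieModule k (S k) U] {JU : Type} [Fintype JU] [DecidableEq JU]
  (bU : Basis JU k U) (wU : JU → ℤ × ℤ)

/-- Composition with the differential. -/
noncomputable def Dat.cD (U : Type w) [AddCommGroup U] [Module k U] (m n : ℕ) :
    (U →ₗ[k] D.W (m + 1) n) →ₗ[k] (U →ₗ[k] D.W m n) where
  toFun φ := (D.dW m n) ∘ₗ φ
  map_add' φ ψ := LinearMap.comp_add _ _ _
  map_smul' c φ := LinearMap.comp_smul _ _ _

theorem Dat.cD_apply {m n : ℕ} (φ : U →ₗ[k] D.W (m + 1) n) (u : U) :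
    D.cD U m n φ u = D.dW m n (φ u) := rfl

theorem Dat.cD_lie {m n : ℕ} (X : S k) (φ : U →ₗ[k] D.W (m + 1) n) :
    D.cD U m n ⁅X, φ⁆ = ⁅X, D.cD U m n φ⁆ := by
  ext u
  rw [D.cD_apply, LieHom.lie_apply, LieHom.lie_apply, map_sub, D.dW_lie, D.cD_apply, D.cD_apply]

theorem Dat.cD_cD {m n : ℕ} (φ : U →ₗ[k] D.W (m + 1 + 1) n) :
    D.cD U m n (D.cD U (m + 1) n φ) = 0 := by
  apply LinearMap.ext
  intro u
  apply Subtype.ext
  exact LinearMap.congr_fun ceD_ceD (φ u).1

/-- The space of equivariant maps. -/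
noncomputable def Dat.K (U : Type w) [AddCommGroup U] [Module k U]
    [LieRingModule (S k) U] [LieModule k (S k) U] (m n : ℕ) : Submodule k (U →ₗ[k] D.W m n) :=
  inv k (U →ₗ[k] D.W m n)

theorem Dat.mem_K {m n : ℕ} {φ : U →ₗ[k] D.W m n} :
    φ ∈ D.K U m n ↔ ∀ (X : S k) (u : U), φ ⁅X, u⁆ = ⁅X, φ u⁆ := by
  unfold Dat.K
  rw [mem_inv]
  constructor
  · intro h X u
    have h1 := LinearMap.congr_fun (h X) u
    rw [LieHom.lie_apply, LinearMap.zero_apply] at h1
    exact (sub_eq_zero.1 h1).symm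
  · intro h X
    apply LinearMap.ext
    intro u
    rw [LieHom.lie_apply, h X u, sub_self, LinearMap.zero_apply]

variable {bU wU}

theorem Dat.lift_hom (hU : WB bU wU) {j n : ℕ} {φ : U →ₗ[k] D.W j n} (hφ : φ ∈ D.K U j n)
    (h : ∀ u, (φ u).1 ∈ bdy k L j) : ∃ ψ ∈ D.K U (j + 1) n, D.cD U j n ψ = φ := by
  classical
  have := Fintype.ofFinite (D.JW (j + 1) n)
  choose y hy using fun i => D.exists_dW (h (bU i))
  have h1 : D.cD U j n (bU.constr k y) = φ := by
    apply bU.ext
    intro i
    rw [D.cD_apply, Basis.constr_basis, hy]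
  have h2 := wbHom (D.wbW (j + 1) n) hU
  obtain ⟨ψ, hψ, hψ2⟩ := h2.lift_inv (f := D.cD U j n) (fun X v => D.cD_lie X v)
    (m := bU.constr k y) (by rw [h1]; exact hφ)
  exact ⟨ψ, hψ, hψ2.trans h1⟩

theorem Dat.isEmpty_JW {m n : ℕ} (h : n < m) : IsEmpty (D.JW m n) := by
  constructor
  rintro ⟨F, hF1, hF2⟩
  have := D.card_le F
  omega

theorem Dat.isEmpty_JW0 {n : ℕ} (h : 1 ≤ n) : IsEmpty (D.JW 0 n) := by
  constructor
  rintro ⟨F, hF1, hF2⟩
  rw [Finset.card_eq_zero] at hF1
  subst hF1
  unfold Dat.dgF at hF2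
  simp at hF2
  omega

theorem Dat.finrank_zero {m n : ℕ} (h : IsEmpty (D.JW m n)) (p : Submodule k (U →ₗ[k] D.W m n)) :
    finrank k p = 0 := by
  have h1 : Subsingleton (D.W m n) := (D.bW m n).repr.toEquiv.subsingleton
  have h2 : Subsingleton (U →ₗ[k] D.W m n) := ⟨fun f g => LinearMap.ext fun u =>
    Subsingleton.elim _ _⟩
  have h3 : Subsingleton p := ⟨fun f g => Subtype.ext (Subsingleton.elim _ _)⟩
  exact finrank_zero_of_subsingleton

/-- The alternating sum of the dimensions of the spaces of equivariant maps vanishes. -/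
theorem Dat.euler (hU : WB bU wU) {n : ℕ} (hn : 1 ≤ n)
    (hex : ∀ j, 1 ≤ j → ∀ φ ∈ D.K U j n, (∀ u, ceD k L (φ u).1 = 0) → ∀ u, (φ u).1 ∈ bdy k L j) :
    ∑ m ∈ Finset.range (n + 1), (-1) ^ m * (finrank k (D.K U m n) : ℤ) = 0 := by
  have hfin : ∀ m, FiniteDimensional k (U →ₗ[k] D.W m n) := by
    intro m
    have : FiniteDimensional k U := Module.Finite.of_basis bU
    have : FiniteDimensional k (D.W m n) := Module.Finite.of_basis (D.bW m n)
    infer_instance
  apply telescope (fun m => (finrank k (D.K U m n) : ℤ))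
    (fun m => (finrank k ((D.K U (m + 1) n).map (D.cD U m n)) : ℤ))
  · exact_mod_cast D.finrank_zero (D.isEmpty_JW0 hn) _
  · exact_mod_cast D.finrank_zero (D.isEmpty_JW0 hn) _
  · intro m
    have h1 := finrank_split (D.cD U m n) (D.K U (m + 1) n)
    have h2 : (D.K U (m + 1) n ⊓ LinearMap.ker (D.cD U m n)) =
        (D.K U (m + 1 + 1) n).map (D.cD U (m + 1) n) := by
      apply le_antisymm
      · rintro φ ⟨hφ1, hφ2⟩
        rw [SetLike.mem_coe, LinearMap.mem_ker] at hφ2
        have h3 := hex (m + 1) (by omega) φ hφ1 (by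
          intro u
          have := LinearMap.congr_fun hφ2 u
          exact congrArg Subtype.val this)
        obtain ⟨ψ, hψ, hψ2⟩ := D.lift_hom hU hφ1 h3
        exact ⟨ψ, hψ, hψ2⟩
      · rintro _ ⟨ψ, hψ, rfl⟩
        refine ⟨?_, ?_⟩
        · have hψ' : ∀ X : S k, ⁅X, ψ⁆ = 0 := hψ
          intro X
          rw [← D.cD_lie, hψ' X, map_zero]
        · rw [SetLike.mem_coe, LinearMap.mem_ker, D.cD_cD]
    rw [h2] at h1
    rw [h1]
    push_cast
    rfl
  · have h1 : IsEmpty (D.JW (n + 1) n) := D.isEmpty_JW (by omega)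
    have h2 : D.K U (n + 1) n = ⊥ := by
      have h3 : Subsingleton (D.W (n + 1) n) := (D.bW (n + 1) n).repr.toEquiv.subsingleton
      rw [eq_bot_iff]
      intro φ _
      rw [Submodule.mem_bot]
      apply LinearMap.ext
      intro u
      exact Subsingleton.elim _ _
    rw [h2, Submodule.map_bot, finrank_bot]
    rfl

/-- The multiplicity of a weight in the exterior algebra, counted with signs. -/
noncomputable def Dat.X (n : ℕ) (ν : ℤ × ℤ) : ℤ :=
  ∑ F ∈ (D.fin_dgF n).toFinset, (-1) ^ F.card * (if D.wtF F = ν then 1 else 0)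

theorem Dat.count (hU : WB bU wU) (n : ℕ) :
    ∑ m ∈ Finset.range (n + 1), (-1) ^ m * (finrank k (D.K U m n) : ℤ) =
      phi (fun μ => ∑ i, D.X n (μ + wU i)) := by
  classical
  have key : ∀ m, ∀ μ, ∀ [Fintype (D.JW m n)],
      ((Finset.univ.filter (fun p : D.JW m n × JU => D.wtF p.1.1 - wU p.2 = μ)).card : ℤ) =
      ∑ i, ∑ F ∈ (D.fin_dgF n).toFinset.filter (fun F => F.card = m),
        (if D.wtF F = μ + wU i then 1 else 0) := by
    intro m μ _
    rw [Finset.card_filter, ← Finset.univ_product_univ, Finset.sum_product_right]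
    push_cast
    apply Finset.sum_congr rfl
    intro i _
    have h1 : ∀ F : D.JW m n, (if D.wtF F.1 - wU i = μ then (1 : ℤ) else 0) =
        (fun F : Finset I => if D.wtF F = μ + wU i then (1 : ℤ) else 0) F.1 := by
      intro F
      simp only [sub_eq_iff_eq_add]
    rw [Finset.sum_congr rfl (fun F _ => h1 F)]
    have h2 : (Finset.univ : Finset (D.JW m n)).map (Function.Embedding.subtype _) =
        (D.fin_dgF n).toFinset.filter (fun F => F.card = m) := by
      ext F
      simp only [Finset.mem_map, Finset.mem_univ, true_and, Function.Embedding.subtype_apply,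
        Finset.mem_filter, Set.Finite.mem_toFinset]
      constructor
      · rintro ⟨G, rfl⟩
        exact ⟨G.2.2, G.2.1⟩
      · rintro ⟨h3, h4⟩
        exact ⟨⟨F, h4, h3⟩, rfl⟩
    rw [← h2, Finset.sum_map]
    rfl
  have h1 : ∀ m, (finrank k (D.K U m n) : ℤ) =
      phi (fun μ => ∑ i, ∑ F ∈ (D.fin_dgF n).toFinset.filter (fun F => F.card = m),
        (if D.wtF F = μ + wU i then (1 : ℤ) else 0)) := by
    intro m
    have := Fintype.ofFinite (D.JW m n)
    have h2 := (wbHom (D.wbW m n) hU).finrank_inv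
    unfold Dat.K
    rw [h2]
    congr 1
    funext μ
    exact key m μ
  simp only [h1]
  have h3 : ∀ (s : Finset ℕ) (c : ℕ → ℤ) (f : ℕ → ℤ × ℤ → ℤ),
      ∑ m ∈ s, c m * phi (f m) = phi (fun μ => ∑ m ∈ s, c m * f m μ) := by
    intro s c f
    unfold phi
    simp only [← Finset.sum_sub_distrib, ← Finset.sum_add_distrib]
    apply Finset.sum_congr rfl
    intro m _
    ring
  rw [h3]
  congr 1
  funext μ
  simp only [Finset.mul_sum]
  rw [Finset.sum_comm]
  apply Finset.sum_congr rfl
  intro i _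
  unfold Dat.X
  rw [← Finset.sum_fiberwise_of_maps_to (s := (D.fin_dgF n).toFinset)
    (t := Finset.range (n + 1)) (g := fun F => F.card)]
  · apply Finset.sum_congr rfl
    intro m _
    apply Finset.sum_congr rfl
    intro F hF
    rw [(Finset.mem_filter.1 hF).2]
  · intro F hF
    rw [Set.Finite.mem_toFinset] at hF
    have h4 : D.dgF F = n := hF
    have := D.card_le F
    rw [Finset.mem_range]
    omega

end dat

end Q86.Abg
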