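import Pool.Agent.Q86.AbgGr

set_option autoImplicit false
set_option linter.unusedSectionVars false

/-!
# Exactness of the complexes of equivariant maps
-/

open Module

namespace Q86.Abg

universe u v w

section dat

variable {k : Type u} [Field k] [CharZero k] {L : Type v} [LieRing L] [LieAlgebra k L]
  [LieRingModule (S k) L] [LieModule k (S k) L] [SDer k L] {I : Type v} [LinearOrder I]
  (D : Dat k L I)

/-- The differential on the graded pieces. -/
noncomputable def Dat.dW (m n : ℕ) : D.W (m + 1) n →ₗ[k] D.W m n where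
  toFun w := ⟨ceD k L w.1, ⟨ceD_mem w.2.1, by
    have h := w.2.2
    rw [D.eE_ceD, h, map_smul]⟩⟩
  map_add' x y := Subtype.ext (map_add _ _ _)
  map_smul' c x := Subtype.ext (map_smul _ _ _)

theorem Dat.dW_val {m n : ℕ} (w : D.W (m + 1) n) : (D.dW m n w).1 = ceD k L w.1 := rfl

theorem Dat.dW_lie {m n : ℕ} (X : S k) (w : D.W (m + 1) n) :
    D.dW m n ⁅X, w⁆ = ⁅X, D.dW m n w⁆ := Subtype.ext (ceD_lie k L X w.1)

/-- The projection to the component of degree `n`. -/
noncomputable def Dat.pr (n : ℕ) : ExteriorAlgebra k L →ₗ[k] ExteriorAlgebra k L :=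
  D.b.ExteriorAlgebra.constr k (fun F => if D.dgF F = n then D.b.ExteriorAlgebra F else 0)

theorem Dat.repr_pr (n : ℕ) (w : ExteriorAlgebra k L) (F : Finset I) :
    D.b.ExteriorAlgebra.repr (D.pr n w) F =
      if D.dgF F = n then D.b.ExteriorAlgebra.repr w F else 0 := by
  have h1 : (D.b.ExteriorAlgebra.coord F) ∘ₗ (D.pr n) =
      if D.dgF F = n then D.b.ExteriorAlgebra.coord F else 0 := by
    apply D.b.ExteriorAlgebra.ext
    intro G
    show D.b.ExteriorAlgebra.repr (D.pr n (D.b.ExteriorAlgebra G)) F = _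
    unfold Dat.pr
    rw [Basis.constr_basis]
    by_cases hij : G = F
    · subst hij
      split_ifs <;> simp
    · split_ifs <;> simp [Finsupp.single_eq_of_ne (Ne.symm hij)]
  have h2 := LinearMap.congr_fun h1 w
  rw [LinearMap.comp_apply, Basis.coord_apply] at h2
  rw [h2]
  split_ifs <;> rfl

theorem Dat.pr_mem {m : ℕ} (n : ℕ) {w : ExteriorAlgebra k L} (hw : w ∈ ⋀[k]^m L) :
    D.pr n w ∈ D.W m n := by
  rw [D.mem_W_iff, Basis.mem_span_image]
  intro F hF
  have hF' : D.b.ExteriorAlgebra.repr (D.pr n w) F ≠ 0 := by simpa using hF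
  rw [D.repr_pr] at hF'
  have h1 : D.dgF F = n := by
    by_contra h
    rw [if_neg h] at hF'
    exact hF' rfl
  rw [if_pos h1] at hF'
  exact ⟨(mem_ext_iff D.b m w).1 hw F hF', h1⟩

theorem Dat.pr_of {j n : ℕ} {w : ExteriorAlgebra k L} (hw : D.eE w = (j : k) • w) :
    D.pr n w = if j = n then w else 0 := by
  apply D.b.ExteriorAlgebra.repr.injective
  ext F
  rw [D.repr_pr]
  have h1 : D.b.ExteriorAlgebra.repr w F ≠ 0 → D.dgF F = j := by
    intro h0
    have h3 := D.repr_eE w F
    rw [hw, map_smul, Finsupp.smul_apply, smul_eq_mul] at h3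
    exact_mod_cast (mul_right_cancel₀ h0 h3).symm
  by_cases h2 : D.b.ExteriorAlgebra.repr w F = 0
  · rw [h2]
    split_ifs <;> simp [h2]
  · rw [h1 h2]
    split_ifs <;> simp

theorem Dat.pr_ceD (n : ℕ) (w : ExteriorAlgebra k L) :
    D.pr n (ceD k L w) = ceD k L (D.pr n w) := by
  have h1 : (D.pr n) ∘ₗ (ceD k L) = (ceD k L) ∘ₗ (D.pr n) := by
    apply D.b.ExteriorAlgebra.ext
    intro F
    show D.pr n (ceD k L (D.b.ExteriorAlgebra F)) = ceD k L (D.pr n (D.b.ExteriorAlgebra F))
    rw [D.pr_of (D.eE_basis F), D.pr_of (j := D.dgF F) (n := n)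
      (w := ceD k L (D.b.ExteriorAlgebra F))]
    · split_ifs
      · rfl
      · rw [map_zero]
    · rw [D.eE_ceD, D.eE_basis, map_smul]
  exact LinearMap.congr_fun h1 w

theorem Dat.exists_dW {j n : ℕ} {z : D.W j n} (hz : z.1 ∈ bdy k L j) :
    ∃ y : D.W (j + 1) n, D.dW j n y = z := by
  obtain ⟨y, hy, hyz⟩ := mem_bdy.1 hz
  refine ⟨⟨D.pr n y, D.pr_mem n hy⟩, Subtype.ext ?_⟩
  rw [D.dW_val]
  show ceD k L (D.pr n y) = z.1
  rw [← D.pr_ceD, hyz, D.pr_of z.2.2, if_pos rfl]

end dat

section hom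

variable {k : Type u} [Field k] [CharZero k] {U : Type w} [AddCommGroup U] [Module k U]
  [LieRingModule (S k) U] [LieModule k (S k) U] {JU : Type} [Fintype JU] [DecidableEq JU]
  {bU : Basis JU k U} {wU : JU → ℤ × ℤ}

theorem wbHom {M : Type v} [AddCommGroup M] [Module k M] [LieRingModule (S k) M]
    [LieModule k (S k) M] {J : Type*} [Fintype J] [DecidableEq J] {b : Basis J k M}
    {wt : J → ℤ × ℤ} (h : WB b wt) (hU : WB bU wU) :
    WB (bU.linearMap b) (fun p => wt p.1 - wU p.2) := by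
  intro p
  have hc1 : c1 (wt p.1 - wU p.2) = c1 (wt p.1) - c1 (wU p.2) := by
    simp only [c1, Prod.fst_sub, Prod.snd_sub]; ring
  have hc2 : c2 (wt p.1 - wU p.2) = c2 (wt p.1) - c2 (wU p.2) := by
    simp only [c2, Prod.fst_sub, Prod.snd_sub]; ring
  constructor
  · apply bU.ext
    intro i
    rw [LieHom.lie_apply, LinearMap.smul_apply, (hU i).h1, map_smul, Basis.linearMap_apply_apply]
    split_ifs with hi
    · rw [(h p.1).h1, hc1, hi]
      push_cast
      rw [sub_smul]
    · simp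
  · apply bU.ext
    intro i
    rw [LieHom.lie_apply, LinearMap.smul_apply, (hU i).h2, map_smul, Basis.linearMap_apply_apply]
    split_ifs with hi
    · rw [(h p.1).h2, hc2, hi]
      push_cast
      rw [sub_smul]
    · simp

end hom

end Q86.Abg
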