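import Pool.Agent.Q86.AbgGen

set_option autoImplicit false
set_option linter.unusedSectionVars false

/-!
# Direct summands of the homology
-/

open Module TensorProduct

namespace Q86.Abg

universe u v w x

section lift

variable {k : Type u} [Field k] [CharZero k] {M : Type v} [AddCommGroup M] [Module k M]
  [LieRingModule (S k) M] [LieModule k (S k) M] {J : Type*}

/-- Invariants can be lifted along two equivariant maps at once. -/
theorem WB.lift_inv2 [Finite J] {b : Basis J k M} {wt : J → ℤ × ℤ} (h : WB b wt)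
    {N : Type w} [AddCommGroup N] [Module k N] [LieRingModule (S k) N]
    [LieModule k (S k) N] {f : M →ₗ[k] N} (hf : ∀ (X : S k) (v : M), f ⁅X, v⁆ = ⁅X, f v⁆)
    {N' : Type x} [AddCommGroup N'] [Module k N'] [LieRingModule (S k) N']
    [LieModule k (S k) N'] {f' : M →ₗ[k] N'} (hf' : ∀ (X : S k) (v : M), f' ⁅X, v⁆ = ⁅X, f' v⁆)
    {m : M} (hm : f m ∈ inv k N) (hm' : f' m ∈ inv k N') :
    ∃ m' ∈ inv k M, f m' = f m ∧ f' m' = f' m := by
  have : FiniteDimensional k M := Module.Finite.of_basis b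
  obtain ⟨p, n, hp⟩ := exists_poly (cas k M)
  refine ⟨(1 - Polynomial.aeval (cas k M) p * cas k M) m, ?_, ?_, ?_⟩
  · apply h.mem_inv_of_pow (N := n)
    exact LinearMap.congr_fun hp m
  · rw [LinearMap.sub_apply, Module.End.mul_apply, Module.End.one_apply, map_sub,
      aeval_intertwine (f_cas hf), f_cas hf, cas_apply_of_mem hm, map_zero, sub_zero]
  · rw [LinearMap.sub_apply, Module.End.mul_apply, Module.End.one_apply, map_sub,
      aeval_intertwine (f_cas hf'), f_cas hf', cas_apply_of_mem hm', map_zero, sub_zero]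

theorem wbHom' {U : Type w} [AddCommGroup U] [Module k U]
    [LieRingModule (S k) U] [LieModule k (S k) U] {JU : Type*} [Fintype JU] [DecidableEq JU]
    {bU : Basis JU k U} {wU : JU → ℤ × ℤ} [Fintype J] [DecidableEq J] {b : Basis J k M}
    {wt : J → ℤ × ℤ} (h : WB b wt) (hU : WB bU wU) :
    WB (bU.linearMap b) (fun p => wt p.1 - wU p.2) := by
  intro p
  have hc1 : c1 (wt p.1 - wU p.2) = c1 (wt p.1) - c1 (wU p.2) := by
    simp only [c1, Prod.fst_sub, Prod.snd_sub]; ring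
  have hc2 : c2 (wt p.1 - wU p.2) = c2 (wt p.1) - c2 (wU p.2) := by
    simp only [c2, Prod.fst_sub, Prod.snd_sub]; ring
  constructor
  · apply bU.ext
    intro i
    rw [LieHom.lie_apply, LinearMap.smul_apply, (hU i).h1, map_smul, Basis.linearMap_apply_apply]
    split_ifs with hi
    · rw [(h p.1).h1, hc1, hi]
      push_cast
      rw [sub_smul]
    · simp
  · apply bU.ext
    intro i
    rw [LieHom.lie_apply, LinearMap.smul_apply, (hU i).h2, map_smul, Basis.linearMap_apply_apply]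
    split_ifs with hi
    · rw [(h p.1).h2, hc2, hi]
      push_cast
      rw [sub_smul]
    · simp

end lift

section dat

variable {k : Type u} [Field k] [CharZero k] {L : Type v} [LieRing L] [LieAlgebra k L]
  [LieRingModule (S k) L] [LieModule k (S k) L] [SDer k L] {I : Type v} [LinearOrder I]
  (D : Dat k L I) {U : Type w} [AddCommGroup U] [Module k U]
  [LieRingModule (S k) U] [LieModule k (S k) U]

theorem Dat.pr_lie (n : ℕ) (X : S k) (w : ExteriorAlgebra k L) :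
    D.pr n ⁅X, w⁆ = ⁅X, D.pr n w⁆ := by
  have h1 : (D.pr n) ∘ₗ (derExt (opL X)) = (derExt (opL X)) ∘ₗ (D.pr n) := by
    apply D.b.ExteriorAlgebra.ext
    intro F
    show D.pr n ⁅X, D.b.ExteriorAlgebra F⁆ = ⁅X, D.pr n (D.b.ExteriorAlgebra F)⁆
    rw [D.pr_of (D.eE_basis F), D.pr_of (j := D.dgF F) (n := n)
      (w := ⁅X, D.b.ExteriorAlgebra F⁆)]
    · split_ifs
      · rfl
      · rw [lie_zero]
    · rw [D.eE_act, D.eE_basis]
      exact map_smul (derExt (opL X)) _ _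
  exact LinearMap.congr_fun h1 w

/-- The projection from the cycles to the component of degree `n`. -/
noncomputable def Dat.cycPr (j n : ℕ) : cyc k L j →ₗ[k] D.W j n where
  toFun w := ⟨D.pr n (w : ExteriorAlgebra k L), D.pr_mem n (mem_cyc.1 w.2).1⟩
  map_add' x y := Subtype.ext (map_add (D.pr n) (x : ExteriorAlgebra k L) (y : ExteriorAlgebra k L))
  map_smul' c x := Subtype.ext (map_smul (D.pr n) c (x : ExteriorAlgebra k L))

theorem Dat.cycPr_val (j n : ℕ) (w : cyc k L j) :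
    ((D.cycPr j n w : D.W j n) : ExteriorAlgebra k L) = D.pr n (w : ExteriorAlgebra k L) := by
  unfold Dat.cycPr
  rw [LinearMap.coe_mk, AddHom.coe_mk]

theorem Dat.cycPr_lie (j n : ℕ) (X : S k) (w : cyc k L j) :
    D.cycPr j n ⁅X, w⁆ = ⁅X, D.cycPr j n w⁆ := by
  apply Subtype.ext
  rw [D.cycPr_val, LieSubmodule.coe_bracket, LieSubmodule.coe_bracket, D.cycPr_val, D.pr_lie]

/-- The map to the cycles. -/
noncomputable def toCyc {D : Dat k L I} {j n : ℕ}
    (φ : U →ₗ[k] D.W j n)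
    (hcyc : ∀ u, (φ u).1 ∈ cyc k L j) : U →ₗ[k] cyc k L j where
  toFun := fun u => ⟨(φ u).1, hcyc u⟩
  map_add' := fun x y => Subtype.ext (by
        show (φ (x + y)).1 = (φ x).1 + (φ y).1
        rw [map_add]; rfl)
  map_smul' := fun c x => Subtype.ext (by
        show (φ (c • x)).1 = c • (φ x).1
        rw [map_smul]; rfl)

theorem toCyc_val {D : Dat k L I} {j n : ℕ}
    (φ : U →ₗ[k] D.W j n) (hcyc : ∀ u, (φ u).1 ∈ cyc k L j) (u : U) :
    ((toCyc φ hcyc u : cyc k L j) : ExteriorAlgebra k L) = ((φ u : D.W j n) : ExteriorAlgebra k L) := by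
  unfold toCyc
  rw [LinearMap.coe_mk, AddHom.coe_mk]

theorem toCyc_lie {D : Dat k L I} {j n : ℕ}
    {φ : U →ₗ[k] D.W j n} (hφ : φ ∈ D.K U j n) (hcyc : ∀ u, (φ u).1 ∈ cyc k L j) (X : S k) (u : U) :
    toCyc φ hcyc ⁅X, u⁆ = ⁅X, toCyc φ hcyc u⁆ := by
  apply Subtype.ext
  rw [LieSubmodule.coe_bracket, toCyc_val, toCyc_val, D.mem_K.1 hφ X u, LieSubmodule.coe_bracket]

theorem Dat.cycPr_toCyc {j n : ℕ} (φ : U →ₗ[k] D.W j n) (hcyc : ∀ u, (φ u).1 ∈ cyc k L j) (u : U) :
    D.cycPr j n (toCyc φ hcyc u) = φ u := by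
  apply Subtype.ext
  rw [D.cycPr_val, toCyc_val, D.pr_of (φ u).2.2, if_pos rfl]

/-- Precomposition. -/
noncomputable def pre {V : Type v} [AddCommGroup V] [Module k V] {V' : Type x} [AddCommGroup V']
    [Module k V'] (f : V' →ₗ[k] V) : (V →ₗ[k] U) →ₗ[k] (V' →ₗ[k] U) where
  toFun g := g ∘ₗ f
  map_add' _ _ := LinearMap.add_comp _ _ _
  map_smul' _ _ := LinearMap.smul_comp _ _ _

theorem pre_apply {V : Type v} [AddCommGroup V] [Module k V] {V' : Type x} [AddCommGroup V']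
    [Module k V'] (f : V' →ₗ[k] V) (g : V →ₗ[k] U) (v : V') : pre f g v = g (f v) := rfl

theorem pre_lie {V : Type v} [AddCommGroup V] [Module k V] [LieRingModule (S k) V]
    [LieModule k (S k) V] {V' : Type x} [AddCommGroup V']
    [Module k V'] [LieRingModule (S k) V'] [LieModule k (S k) V'] {f : V' →ₗ[k] V}
    (hf : ∀ (X : S k) (v : V'), f ⁅X, v⁆ = ⁅X, f v⁆) (X : S k) (g : V →ₗ[k] U) :
    pre f ⁅X, g⁆ = ⁅X, pre f g⁆ := by
  ext v
  rw [pre_apply, LieHom.lie_apply, LieHom.lie_apply, pre_apply, pre_apply, hf]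

/-- An equivariant left inverse. -/
theorem Dat.exists_retr {JU : Type} [Fintype JU] [DecidableEq JU] {bU : Basis JU k U}
    {wU : JU → ℤ × ℤ} (hU : WB bU wU) {j n : ℕ} {φ : U →ₗ[k] D.W j n} (hφ : φ ∈ D.K U j n)
    (hb : ∀ u, (φ u).1 ∈ bdy k L j → u = 0) :
    ∃ g : D.W j n →ₗ[k] U, (∀ (X : S k) (w : D.W j n), g ⁅X, w⁆ = ⁅X, g w⁆) ∧
      (∀ u, g (φ u) = u) ∧ (∀ y, g (D.dW j n y) = 0) := by
  classical
  have := Fintype.ofFinite (D.JW j n)
  have h1 : LinearMap.ker ((LinearMap.range (D.dW j n)).mkQ ∘ₗ φ) = ⊥ := by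
    rw [LinearMap.ker_eq_bot']
    intro u hu
    have h2 : φ u ∈ LinearMap.range (D.dW j n) := (Submodule.Quotient.mk_eq_zero _).1 hu
    obtain ⟨y, hy⟩ := h2
    apply hb
    rw [← hy, D.dW_val]
    exact mem_bdy.2 ⟨y.1, y.2.1, rfl⟩
  obtain ⟨g1, hg1⟩ := LinearMap.exists_leftInverse_of_injective _ h1
  obtain ⟨g0, hg0⟩ : ∃ g0, g0 = g1 ∘ₗ (LinearMap.range (D.dW j n)).mkQ := ⟨_, rfl⟩
  have e1 : pre φ g0 = LinearMap.id := by
    ext u
    rw [pre_apply, hg0]
    exact LinearMap.congr_fun hg1 u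
  have e2 : pre (D.dW j n) g0 = 0 := by
    ext y
    rw [pre_apply, hg0, LinearMap.comp_apply]
    have h3 : (LinearMap.range (D.dW j n)).mkQ (D.dW j n y) = 0 :=
      (Submodule.Quotient.mk_eq_zero _).2 ⟨y, rfl⟩
    rw [h3, map_zero]
    rfl
  have h2 := wbHom' hU (D.wbW j n)
  obtain ⟨g, hg, hg2, hg3⟩ := h2.lift_inv2 (f := pre φ) (pre_lie (fun X u => D.mem_K.1 hφ X u))
    (f' := pre (D.dW j n)) (pre_lie (fun X u => D.dW_lie X u)) (m := g0)
    (by
      rw [e1, mem_inv]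
      intro X
      ext u
      rw [LieHom.lie_apply]
      simp)
    (by
      rw [e2]
      exact Submodule.zero_mem _)
  refine ⟨g, ?_, ?_, ?_⟩
  · intro X w
    have h3 := LinearMap.congr_fun (mem_inv.1 hg X) w
    rw [LieHom.lie_apply, LinearMap.zero_apply] at h3
    exact (sub_eq_zero.1 h3).symm
  · intro u
    have := LinearMap.congr_fun hg2 u
    rw [e1] at this
    exact this
  · intro y
    have := LinearMap.congr_fun hg3 y
    rw [e2] at this
    exact this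

/-- An equivariant map to the cycles which meets the boundaries only in zero yields a direct
summand of the homology. -/
theorem Dat.summand {JU : Type} [Fintype JU] [DecidableEq JU] {bU : Basis JU k U}
    {wU : JU → ℤ × ℤ} (hU : WB bU wU) {j n : ℕ} {φ : U →ₗ[k] D.W j n} (hφ : φ ∈ D.K U j n)
    (hc : ∀ u, ceD k L (φ u).1 = 0) (hb : ∀ u, (φ u).1 ∈ bdy k L j → u = 0) :
    ∃ (f : U →ₗ⁅k, S k⁆ H k L j) (g : H k L j →ₗ⁅k, S k⁆ U), g.comp f = LieModuleHom.id := by
  have hcyc : ∀ u, (φ u).1 ∈ cyc k L j := fun u => mem_cyc.2 ⟨(φ u).2.1, hc u⟩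
  obtain ⟨g, hg1, hg2, hg3⟩ := D.exists_retr hU hφ hb
  have hker : ((bdy k L j).comap (cyc k L j).incl).toSubmodule ≤
      LinearMap.ker (g ∘ₗ D.cycPr j n) := by
    intro w hw
    have hw' : ((w : cyc k L j) : ExteriorAlgebra k L) ∈ bdy k L j := hw
    rw [LinearMap.mem_ker, LinearMap.comp_apply]
    obtain ⟨y, hy, hyw⟩ := mem_bdy.1 hw'
    have h4 : D.cycPr j n w = D.dW j n ⟨D.pr n y, D.pr_mem n hy⟩ := by
      apply Subtype.ext
      rw [D.cycPr_val, D.dW_val, ← hyw, D.pr_ceD]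
    rw [h4, hg3]
  have hgl : ∀ (X : S k) (w : cyc k L j), (g ∘ₗ D.cycPr j n) ⁅X, w⁆ =
      ⁅X, (g ∘ₗ D.cycPr j n) w⁆ := by
    intro X w
    rw [LinearMap.comp_apply, LinearMap.comp_apply, D.cycPr_lie, hg1]
  obtain ⟨G, hG⟩ : ∃ G : H k L j →ₗ[k] U, ∀ w : cyc k L j,
      G (LieSubmodule.Quotient.mk' ((bdy k L j).comap (cyc k L j).incl) w) =
        (g ∘ₗ D.cycPr j n) w :=
    ⟨Submodule.liftQ _ _ hker, fun w => rfl⟩
  have hGl : ∀ (X : S k) (c : H k L j), G ⁅X, c⁆ = ⁅X, G c⁆ := by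
    intro X c
    obtain ⟨w, rfl⟩ := LieSubmodule.Quotient.surjective_mk' _ c
    rw [← LieModuleHom.map_lie, hG, hG, hgl]
  refine ⟨(LieSubmodule.Quotient.mk' ((bdy k L j).comap (cyc k L j).incl)).comp
      { toCyc φ hcyc with map_lie' := fun {X u} => toCyc_lie hφ hcyc X u },
      { G with map_lie' := fun {X c} => hGl X c }, ?_⟩
  apply LieModuleHom.ext
  intro u
  have h5 : G (LieSubmodule.Quotient.mk' ((bdy k L j).comap (cyc k L j).incl)
    (toCyc φ hcyc u)) = u := by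
    rw [hG, LinearMap.comp_apply, D.cycPr_toCyc, hg2]
  exact h5

end dat

end Q86.Abg
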