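import Pool.Agent.Q86.AbgStmt
import Pool.Agent.Q86.AbgSum

set_option autoImplicit false
set_option linter.unusedSectionVars false

/-!
# The universal properties
-/

open Module TensorProduct Q5.AltChar

namespace Q86.Abg

universe u

section free

variable (k : Type u) [Field k] (d : ℕ)

theorem altIdeal_le {B : Type u} [NonUnitalNonAssocRing B] [Module k B] [IsScalarTower k B B]
    [SMulCommClass k B B] (hB : IsAlternative B) (F : NA k d →ₙₐ[k] B) {x : NA k d}
    (hx : x ∈ altIdeal k d) : F x = 0 := by
  let K : Submodule k (NA k d) :=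
    { carrier := {x | F x = 0}
      add_mem' := fun {a b} ha hb => by
        have ha' : F a = 0 := ha
        have hb' : F b = 0 := hb
        show F (a + b) = 0
        rw [map_add, ha', hb', add_zero]
      zero_mem' := map_zero F
      smul_mem' := fun c a ha => by
        have ha' : F a = 0 := ha
        show F (c • a) = 0
        rw [map_smul, ha', smul_zero] }
  have h : altIdeal k d ≤ K := by
    unfold altIdeal
    apply sInf_le
    refine ⟨?_, ?_, ?_⟩
    · intro x y
      show F _ = 0
      rw [map_sub, map_mul, map_mul, map_mul, map_mul, hB.left_alt, sub_self]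
    · intro x y
      show F _ = 0
      rw [map_sub, map_mul, map_mul, map_mul, map_mul, hB.right_alt, sub_self]
    · intro x y hx
      have hx' : F x = 0 := hx
      refine ⟨?_, ?_⟩
      · show F _ = 0
        rw [map_mul, hx', zero_mul]
      · show F _ = 0
        rw [map_mul, hx', mul_zero]
  exact h hx

/-- The quotient map as a homomorphism of algebras. -/
noncomputable def toFreeHom : NA k d →ₙₐ[k] FreeAlt k d where
  toFun := toFree k d
  map_smul' c x := map_smul (toFree k d) c x
  map_zero' := map_zero (toFree k d)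
  map_add' x y := map_add (toFree k d) x y
  map_mul' x y := toFree_mul k d x y

theorem toFreeHom_apply (x : NA k d) : toFreeHom k d x = toFree k d x := rfl

theorem freeAlt_lift {B : Type u} [NonUnitalNonAssocRing B] [Module k B] [IsScalarTower k B B]
    [SMulCommClass k B B] (hB : IsAlternative B) (y : Fin d → B) :
    ∃! f : FreeAlt k d →ₙₐ[k] B,
      ∀ i, f (toFree k d (FreeNonUnitalNonAssocAlgebra.of k i)) = y i := by
  let F : NA k d →ₙₐ[k] B := FreeNonUnitalNonAssocAlgebra.lift k y
  let Fl : NA k d →ₗ[k] B :=
    { toFun := F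
      map_add' := map_add F
      map_smul' := map_smul F }
  have hker : altIdeal k d ≤ LinearMap.ker Fl := fun x hx => altIdeal_le k d hB F hx
  let G : FreeAlt k d →ₗ[k] B := (altIdeal k d).liftQ Fl hker
  have hG : ∀ x, G (toFree k d x) = F x := fun x => rfl
  refine ⟨{ toFun := G
            map_smul' := fun c x => map_smul G c x
            map_zero' := map_zero G
            map_add' := fun x y => map_add G x y
            map_mul' := ?_ }, ?_, ?_⟩
  · intro x y
    obtain ⟨x, rfl⟩ := toFree_surjective k d x
    obtain ⟨y, rfl⟩ := toFree_surjective k d y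
    show G (toFree k d x * toFree k d y) = G (toFree k d x) * G (toFree k d y)
    rw [← toFree_mul, hG, hG, hG, map_mul]
  · intro i
    show G (toFree k d (FreeNonUnitalNonAssocAlgebra.of k i)) = y i
    rw [hG]
    exact FreeNonUnitalNonAssocAlgebra.lift_of_apply k y i
  · intro f hf
    have h1 : f.comp (toFreeHom k d) = F := by
      apply FreeNonUnitalNonAssocAlgebra.hom_ext
      intro i
      have e1 : F (FreeNonUnitalNonAssocAlgebra.of k i) = y i :=
        FreeNonUnitalNonAssocAlgebra.lift_of_apply k y i
      exact (hf i).trans e1.symm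
    apply NonUnitalAlgHom.ext
    intro x
    obtain ⟨x, rfl⟩ := toFree_surjective k d x
    show f (toFree k d x) = G (toFree k d x)
    rw [hG, ← h1]
    rfl

theorem isFreeAlternative : IsFreeAlternative k (FreeAlt k d)
    (fun i => toFree k d (FreeNonUnitalNonAssocAlgebra.of k i)) where
  alt := inferInstance
  lift _ _ _ _ _ hB y := freeAlt_lift k d hB y

end free

section abg

variable (k : Type u) (A : Type u) [Field k] [CharZero k] [NonUnitalNonAssocRing A] [Module k A]
  [IsScalarTower k A A] [SMulCommClass k A A] [IsAlternative A]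

/-- The map `X ⊗ p`. -/
noncomputable def tG : S k →ₗ[k] A →ₗ[k] ABG k A := (TensorProduct.mk k (S k) A).compr₂ inL

/-- The map `p ∧ q`. -/
noncomputable def wG' : A →ₗ[k] A →ₗ[k] ABG k A := (wedL (k := k)).compr₂ inR

variable {k A}

theorem tG_apply (X : S k) (p : A) : tG k A X p = inL (X ⊗ₜ[k] p) := rfl

theorem wG'_apply (p q : A) : wG' k A p q = inR (wed p q) := rfl

theorem lie_inR_inL (β : BB k A) (v : S k ⊗[k] A) : ⁅(inR β : ABG k A), (inL v : ABG k A)⁆ =
    inL (act β v) := by
  apply Prod.ext
  · show m1 (0 : S k ⊗[k] A) v + act β v - act (0 : BB k A) 0 = act β v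
    rw [map_zero, LinearMap.zero_apply, map_zero, zero_add, sub_zero]
  · show m2 (0 : S k ⊗[k] A) v + brB β 0 = 0
    rw [map_zero, LinearMap.zero_apply, map_zero, add_zero]

theorem lie_inR_inR (β γ : BB k A) : ⁅(inR β : ABG k A), (inR γ : ABG k A)⁆ =
    inR (brB β γ) := by
  apply Prod.ext
  · show m1 (0 : S k ⊗[k] A) 0 + act β 0 - act γ 0 = 0
    simp
  · show m2 (0 : S k ⊗[k] A) 0 + brB β γ = brB β γ
    simp

theorem isABG : IsABG k A (ABG k A) (tG k A) (wG' k A) where
  w_self p := by rw [wG'_apply, wed_self, map_zero]
  w_cyc p q r := by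
    rw [wG'_apply, wG'_apply, wG'_apply, ← map_add, ← map_add, wed_cyc, map_zero]
  univ _ _ _ f g hg1 hg2 := by
    have hker : relB k A ≤ LinearMap.ker (TensorProduct.lift g) := by
      unfold relB
      rw [Submodule.span_le]
      rintro t (⟨p, rfl⟩ | ⟨p, q, r, rfl⟩)
      · exact hg1 p
      · show TensorProduct.lift g _ = 0
        rw [map_add, map_add]
        exact hg2 p q r
    let F1 : S k ⊗[k] A →ₗ[k] _ := TensorProduct.lift f
    let F2 : BB k A →ₗ[k] _ := (relB k A).liftQ (TensorProduct.lift g) hker
    let F : ABG k A →ₗ[k] _ := LinearMap.coprod F1 F2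
    have hF1 : ∀ u, F (inL u) = F1 u := by
      intro u
      show F1 u + F2 0 = F1 u
      rw [map_zero, add_zero]
    have hF2 : ∀ β, F (inR β) = F2 β := by
      intro β
      show F1 0 + F2 β = F2 β
      rw [map_zero, zero_add]
    refine ⟨F, ⟨fun X p => ?_, fun p q => ?_⟩, ?_⟩
    · show F (inL (X ⊗ₜ[k] p)) = f X p
      rw [hF1]
      rfl
    · show F (inR (wed p q)) = g p q
      rw [hF2]
      rfl
    · rintro G ⟨hG1, hG2⟩
      have e1 : G ∘ₗ inL = F1 := by
        apply TensorProduct.ext'
        intro X p
        exact hG1 X p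
      have e2 : ∀ β, G (inR β) = F2 β := by
        intro β
        induction β using BB.induction with
        | h0 => rw [map_zero, map_zero, map_zero]
        | h1 p q => exact hG2 p q
        | h2 a b ha hb => rw [map_add, map_add, map_add, ha, hb]
      apply LinearMap.ext
      intro x
      have hx : x = inL x.1 + inR x.2 := by
        apply Prod.ext
        · exact (add_zero x.1).symm
        · exact (zero_add x.2).symm
      rw [hx, map_add, map_add, hF1, hF2, e2, ← e1]
      rfl
  lie_tt X Y p q := by
    rw [tG_apply, tG_apply, lie_inL, m1_tmul, m2_tmul, tG_apply, tG_apply, wG'_apply, map_add,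
      ← map_smul, mul_smul]
    rfl
  lie_wt p q X r := by
    rw [wG'_apply, tG_apply, lie_inR_inL, act_tmul, DD_wed]
    rfl
  lie_ww p q r s := by
    rw [wG'_apply, wG'_apply, lie_inR_inR, brB_wed, DD_wed, map_add]
    rfl

end abg

end Q86.Abg
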