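import Pool.Agent.Q86.AbgFinA

set_option autoImplicit false
set_option linter.unusedSectionVars false

/-!
# Direct summands
-/

open Module TensorProduct Q5.AltChar

namespace Q86.Abg

universe u

section dat

variable {k : Type u} [Field k] [CharZero k] {L : Type u} [LieRing L] [LieAlgebra k L]
  [LieRingModule (S k) L] [LieModule k (S k) L] [SDer k L] {I : Type u} [LinearOrder I]
  (D : Dat k L I) {U : Type u} [AddCommGroup U] [Module k U]
  [LieRingModule (S k) U] [LieModule k (S k) U]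

/-- The projection to the component of degree `n`, on the exterior power. -/
noncomputable def Dat.prE (j n : ℕ) : (⋀[k]^j L) →ₗ[k] D.W j n where
  toFun w := ⟨D.pr n (w : ExteriorAlgebra k L), D.pr_mem n w.2⟩
  map_add' x y := Subtype.ext (map_add (D.pr n) (x : ExteriorAlgebra k L) (y : ExteriorAlgebra k L))
  map_smul' c x := Subtype.ext (map_smul (D.pr n) c (x : ExteriorAlgebra k L))

theorem Dat.prE_val (j n : ℕ) (w : ⋀[k]^j L) :
    ((D.prE j n w : D.W j n) : ExteriorAlgebra k L) = D.pr n (w : ExteriorAlgebra k L) := by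
  unfold Dat.prE
  rw [LinearMap.coe_mk, AddHom.coe_mk]

/-- An equivariant map to the cycles which meets the boundaries only in zero yields a direct
summand of the homology. -/
theorem Dat.isSummand {JU : Type} [Fintype JU] [DecidableEq JU] {bU : Basis JU k U}
    {wU : JU → ℤ × ℤ} (hU : WB bU wU) {j n : ℕ} {φ : U →ₗ[k] D.W j n} (hφ : φ ∈ D.K U j n)
    (hc : ∀ u, ceD k L (φ u).1 = 0) (hb : ∀ u, (φ u).1 ∈ bdy k L j → u = 0) :
    ∃ (f : U →ₗ[k] ExteriorAlgebra k L) (g : ExteriorAlgebra k L →ₗ[k] U),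
    (∀ u, f u ∈ ⋀[k]^j L ∧ ceD k L (f u) = 0) ∧
    (∀ (X : S k) u, f ⁅X, u⁆ = derExt (opL X) (f u)) ∧
    (∀ y ∈ ⋀[k]^(j + 1) L, g (ceD k L y) = 0) ∧
    (∀ X : S k, ∀ z ∈ ⋀[k]^j L, ceD k L z = 0 → g (derExt (opL X) z) = ⁅X, g z⁆) ∧
    ∀ u, g (f u) = u := by
  obtain ⟨g, hg1, hg2, hg3⟩ := D.exists_retr hU hφ hb
  obtain ⟨G, hG⟩ := LinearMap.exists_extend (g ∘ₗ D.prE j n)
  have hG' : ∀ (z : ExteriorAlgebra k L) (hz : z ∈ ⋀[k]^j L), G z = g (D.prE j n ⟨z, hz⟩) :=
    fun z hz => LinearMap.congr_fun hG ⟨z, hz⟩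
  refine ⟨(D.W j n).toSubmodule.subtype ∘ₗ φ, G, ?_, ?_, ?_, ?_, ?_⟩
  · intro u
    exact ⟨(φ u).2.1, hc u⟩
  · intro X u
    show ((φ ⁅X, u⁆ : D.W j n) : ExteriorAlgebra k L) =
      ⁅X, ((φ u : D.W j n) : ExteriorAlgebra k L)⁆
    rw [D.mem_K.1 hφ X u, LieSubmodule.coe_bracket]
  · intro y hy
    rw [hG' _ (ceD_mem hy)]
    have h4 : D.prE j n ⟨ceD k L y, ceD_mem hy⟩ = D.dW j n ⟨D.pr n y, D.pr_mem n hy⟩ := by
      apply Subtype.ext
      rw [D.prE_val, D.dW_val, D.pr_ceD]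
    rw [h4, hg3]
  · intro X z hz _
    rw [hG' _ hz, hG' _ (derExt_id_mem _ hz), ← hg1]
    congr 1
    apply Subtype.ext
    rw [D.prE_val, LieSubmodule.coe_bracket, D.prE_val, ← D.pr_lie]
    rfl
  · intro u
    show G (φ u : D.W j n) = u
    rw [hG' _ (φ u).2.1]
    have h4 : D.prE j n ⟨(φ u : D.W j n), (φ u).2.1⟩ = φ u := by
      apply Subtype.ext
      rw [D.prE_val, D.pr_of (φ u).2.2, if_pos rfl]
    rw [h4, hg2]

end dat

section triv

variable (k : Type u) [Field k] [CharZero k]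

/-- The trivial module. -/
def Triv (k : Type u) : Type u := k

noncomputable instance : AddCommGroup (Triv k) := inferInstanceAs (AddCommGroup k)

noncomputable instance : Module k (Triv k) := inferInstanceAs (Module k k)

noncomputable instance : LieRingModule (S k) (Triv k) where
  bracket _ _ := 0
  add_lie _ _ _ := (add_zero (0 : Triv k)).symm
  lie_add _ _ _ := (add_zero (0 : Triv k)).symm
  leibniz_lie _ _ _ := (add_zero (0 : Triv k)).symm

noncomputable instance : LieModule k (S k) (Triv k) where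
  smul_lie _ _ _ := (smul_zero _).symm
  lie_smul _ _ _ := (smul_zero _).symm

/-- The basis of the trivial module. -/
noncomputable def bT : Basis Unit k (Triv k) := (Basis.singleton Unit k : Basis Unit k k)

theorem bT_wb : WB (bT k) (fun _ => ((0 : ℤ), (0 : ℤ))) := by
  intro i
  constructor
  · show (0 : Triv k) = (c1 (0, 0) : k) • bT k i
    simp [c1]
  · show (0 : Triv k) = (c2 (0, 0) : k) • bT k i
    simp [c2]

end triv

section hex

variable {k : Type u} [Field k] [CharZero k] {L : Type u} [LieRing L] [LieAlgebra k L]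
  [LieRingModule (S k) L] [LieModule k (S k) L] [SDer k L] {I : Type u} [LinearOrder I]
  {D : Dat k L I}

theorem hex_triv {j n : ℕ}
    (h : ¬ IsSummand k L (fun X => opL X) j k (fun _ => 0))
    {φ : Triv k →ₗ[k] D.W j n} (hφ : φ ∈ D.K (Triv k) j n)
    (hc : ∀ u, ceD k L (φ u).1 = 0) (u : Triv k) : (φ u).1 ∈ bdy k L j := by
  by_contra hu
  apply h
  have hb : ∀ v, (φ v).1 ∈ bdy k L j → v = 0 := by
    intro v hv
    by_contra hv0
    apply hu
    have hdiv : ∀ a b : k, b ≠ 0 → ∃ c : k, a = c • b := fun a b hb =>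
      ⟨a / b, (div_mul_cancel₀ a hb).symm⟩
    obtain ⟨c, hc⟩ : ∃ c : k, u = c • v := hdiv u v hv0
    rw [hc, map_smul]
    exact (bdy k L j).smul_mem c hv
  obtain ⟨f, g, h1, h2, h3, h4, h5⟩ := D.isSummand (bT_wb k) hφ hc hb
  exact ⟨f, g, h1, h2, h3, h4, h5⟩

theorem hex_adj {j n : ℕ}
    (h : ¬ IsSummand k L (fun X => opL X) j (S k) (fun X => lieS X))
    {φ : S k →ₗ[k] D.W j n} (hφ : φ ∈ D.K (S k) j n)
    (hc : ∀ u, ceD k L (φ u).1 = 0) (u : S k) : (φ u).1 ∈ bdy k L j := by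
  by_contra hu
  apply h
  have hb : ∀ v, (φ v).1 ∈ bdy k L j → v = 0 := by
    intro v hv
    by_contra hv0
    apply hu
    let K : Submodule k (S k) := (bdy k L j).toSubmodule.comap
      ((D.W j n).toSubmodule.subtype ∘ₗ φ)
    have hK : ∀ (Y X : S k), X ∈ K → ⁅Y, X⁆ ∈ K := by
      intro Y X hX
      have h1 : ((φ X : D.W j n) : ExteriorAlgebra k L) ∈ bdy k L j := hX
      have h2 : ((φ ⁅Y, X⁆ : D.W j n) : ExteriorAlgebra k L) ∈ bdy k L j := by
        rw [D.mem_K.1 hφ Y X, LieSubmodule.coe_bracket]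
        exact (bdy k L j).lie_mem h1
      exact h2
    exact ideal_top hK (ideal_e3 hK (X := v) hv hv0) u
  obtain ⟨f, g, h1, h2, h3, h4, h5⟩ := D.isSummand (bS_wb k) hφ hc hb
  exact ⟨f, g, h1, h2, h3, h4, h5⟩

end hex

end Q86.Abg
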