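import Pool.Agent.Q86.AbgDatB

set_option autoImplicit false
set_option linter.unusedSectionVars false

/-!
# Generation of the Allison-Benkart-Gao Lie algebra, and simplicity of the adjoint module
-/

open Module TensorProduct

namespace Q86.Abg

universe u v

section ideal

variable {k : Type u} [Field k] [CharZero k] {K : Submodule k (S k)}

theorem ideal_top (hK : ∀ (Y X : S k), X ∈ K → ⁅Y, X⁆ ∈ K) (h : xe3 k ∈ K) (X : S k) : X ∈ K := by
  have e2 : xe2 k ∈ K := by
    have := hK (xf1 k) _ h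
    rw [← lie_skew, lie_e3_f1, neg_neg] at this
    exact this
  have e1 : xe1 k ∈ K := by
    have := hK (xf2 k) _ h
    rw [← lie_skew, lie_e3_f2] at this
    exact (Submodule.neg_mem_iff K).1 this
  have h1 : xh1 k ∈ K := by
    have := hK (xf1 k) _ e1
    rw [← lie_skew, lie_e1_f1] at this
    exact (Submodule.neg_mem_iff K).1 this
  have h2 : xh2 k ∈ K := by
    have := hK (xf2 k) _ e2
    rw [← lie_skew, lie_e2_f2] at this
    exact (Submodule.neg_mem_iff K).1 this
  have f1 : xf1 k ∈ K := by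
    have := hK (xf1 k) _ h1
    rw [← lie_skew, lie_h1_f1, ← neg_smul] at this
    exact (Submodule.smul_mem_iff K (by norm_num)).1 this
  have f2 : xf2 k ∈ K := by
    have := hK (xf2 k) _ h2
    rw [← lie_skew, lie_h2_f2, ← neg_smul] at this
    exact (Submodule.smul_mem_iff K (by norm_num)).1 this
  have f3 : xf3 k ∈ K := by
    have := hK (xf1 k) _ f2
    rw [lie_f1_f2] at this
    exact (Submodule.neg_mem_iff K).1 this
  rw [S.decomp X]
  exact Submodule.add_mem _ (Submodule.add_mem _ (Submodule.add_mem _ (Submodule.add_mem _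
      (Submodule.add_mem _ (Submodule.add_mem _ (Submodule.add_mem _ (Submodule.smul_mem _ _ e1)
      (Submodule.smul_mem _ _ e2)) (Submodule.smul_mem _ _ h)) (Submodule.smul_mem _ _ f1))
      (Submodule.smul_mem _ _ f2)) (Submodule.smul_mem _ _ f3)) (Submodule.smul_mem _ _ h1))
      (Submodule.smul_mem _ _ h2)

theorem ideal_e3 (hK : ∀ (Y X : S k), X ∈ K → ⁅Y, X⁆ ∈ K) {X : S k} (hX : X ∈ K) (h0 : X ≠ 0) :
    xe3 k ∈ K := by
  have two : (2 : k) ≠ 0 := two_ne_zero
  have of_e1 : xe1 k ∈ K → xe3 k ∈ K := by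
    intro h
    have := hK (xe2 k) _ h
    rw [← lie_skew, lie_e1_e2] at this
    exact (Submodule.neg_mem_iff K).1 this
  have of_e2 : xe2 k ∈ K → xe3 k ∈ K := by
    intro h
    have := hK (xe1 k) _ h
    rwa [lie_e1_e2] at this
  have of_f1 : xf1 k ∈ K → xe3 k ∈ K := by
    intro h
    apply of_e1
    have h1 := hK (xe1 k) _ h
    rw [lie_e1_f1] at h1
    have h2 := hK (xe1 k) _ h1
    rw [← lie_skew, lie_h1_e1, ← neg_smul] at h2
    exact (Submodule.smul_mem_iff K (by simpa using two)).1 h2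
  have of_f2 : xf2 k ∈ K → xe3 k ∈ K := by
    intro h
    apply of_e2
    have h1 := hK (xe2 k) _ h
    rw [lie_e2_f2] at h1
    have h2 := hK (xe2 k) _ h1
    rw [← lie_skew, lie_h2_e2, ← neg_smul] at h2
    exact (Submodule.smul_mem_iff K (by simpa using two)).1 h2
  have of_f3 : xf3 k ∈ K → xe3 k ∈ K := by
    intro h
    apply of_e2
    have h1 := hK (xe2 k) _ h
    rw [lie_e2_f3] at h1
    have h2 := hK (xe3 k) _ h1
    rw [lie_e3_f1] at h2
    exact (Submodule.neg_mem_iff K).1 h2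
  -- double brackets
  have db : ∀ (Y : S k) (c : k), (Y.1 * Y.1 = 0) → Y.1 * X.1 * Y.1 = c • Y.1 →
      ⁅Y, ⁅Y, X⁆⁆ = (-2 * c) • Y := by
    intro Y c hY hc
    apply Subtype.ext
    rw [S.lie_val, S.lie_val, S.smul_val]
    have e : Y.1 * (Y.1 * X.1 - X.1 * Y.1) - (Y.1 * X.1 - X.1 * Y.1) * Y.1 =
        Y.1 * Y.1 * X.1 + X.1 * (Y.1 * Y.1) - (Y.1 * X.1 * Y.1 + Y.1 * X.1 * Y.1) := by
      noncomm_ring
    rw [e, hY, hc, zero_mul, mul_zero, add_zero, zero_sub]
    module
  have ms : ∀ (i j : Fin 3), Matrix.single i j (1 : k) * X.1 * Matrix.single i j (1 : k) =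
      X.1 j i • Matrix.single i j (1 : k) := by
    intro i j
    rw [Matrix.smul_single, smul_eq_mul, mul_one]
    ext a b
    by_cases ha : i = a
    · subst ha
      by_cases hb : j = b
      · subst hb
        rw [Matrix.mul_single_apply_same, Matrix.single_mul_apply_same, Matrix.single_apply_same]
        ring
      · rw [Matrix.mul_single_apply_of_ne _ _ _ _ _ (Ne.symm hb), Matrix.single_apply_of_ne]
        tauto
    · rw [mul_assoc, Matrix.single_mul_apply_of_ne _ _ _ _ _ (Ne.symm ha),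
        Matrix.single_apply_of_ne]
      tauto
  by_contra hn
  have z10 : X.1 1 0 = 0 := by
    by_contra h
    apply hn
    apply of_e1
    have h1 := hK (xe1 k) _ (hK (xe1 k) _ hX)
    rw [db (xe1 k) (X.1 1 0) (by rw [xe1_val]; simp) (by rw [xe1_val, ms])] at h1
    exact (Submodule.smul_mem_iff K (mul_ne_zero (by simpa using two) h)).1 h1
  have z21 : X.1 2 1 = 0 := by
    by_contra h
    apply hn
    apply of_e2
    have h1 := hK (xe2 k) _ (hK (xe2 k) _ hX)
    rw [db (xe2 k) (X.1 2 1) (by rw [xe2_val]; simp) (by rw [xe2_val, ms])] at h1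
    exact (Submodule.smul_mem_iff K (mul_ne_zero (by simpa using two) h)).1 h1
  have z20 : X.1 2 0 = 0 := by
    by_contra h
    apply hn
    have h1 := hK (xe3 k) _ (hK (xe3 k) _ hX)
    rw [db (xe3 k) (X.1 2 0) (by rw [xe3_val]; simp) (by rw [xe3_val, ms])] at h1
    exact (Submodule.smul_mem_iff K (mul_ne_zero (by simpa using two) h)).1 h1
  have z01 : X.1 0 1 = 0 := by
    by_contra h
    apply hn
    apply of_f1
    have h1 := hK (xf1 k) _ (hK (xf1 k) _ hX)
    rw [db (xf1 k) (X.1 0 1) (by rw [xf1_val]; simp) (by rw [xf1_val, ms])] at h1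
    exact (Submodule.smul_mem_iff K (mul_ne_zero (by simpa using two) h)).1 h1
  have z12 : X.1 1 2 = 0 := by
    by_contra h
    apply hn
    apply of_f2
    have h1 := hK (xf2 k) _ (hK (xf2 k) _ hX)
    rw [db (xf2 k) (X.1 1 2) (by rw [xf2_val]; simp) (by rw [xf2_val, ms])] at h1
    exact (Submodule.smul_mem_iff K (mul_ne_zero (by simpa using two) h)).1 h1
  have z02 : X.1 0 2 = 0 := by
    by_contra h
    apply hn
    apply of_f3
    have h1 := hK (xf3 k) _ (hK (xf3 k) _ hX)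
    rw [db (xf3 k) (X.1 0 2) (by rw [xf3_val]; simp) (by rw [xf3_val, ms])] at h1
    exact (Submodule.smul_mem_iff K (mul_ne_zero (by simpa using two) h)).1 h1
  have hXd := S.decomp X
  rw [z10, z21, z20, z01, z12, z02] at hXd
  simp only [zero_smul, zero_add] at hXd
  obtain ⟨a, ha⟩ : ∃ a, a = X.1 0 0 := ⟨_, rfl⟩
  obtain ⟨b, hb⟩ : ∃ b, b = X.1 0 0 + X.1 1 1 := ⟨_, rfl⟩
  rw [← hb, ← ha] at hXd
  have k1 : ⁅xe1 k, X⁆ = (b - 2 * a) • xe1 k := by
    rw [hXd, lie_add, lie_smul, lie_smul, ← lie_skew (xe1 k) (xh1 k), ← lie_skew (xe1 k) (xh2 k),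
      lie_h1_e1, lie_h2_e1]
    module
  have k2 : ⁅xe2 k, X⁆ = (a - 2 * b) • xe2 k := by
    rw [hXd, lie_add, lie_smul, lie_smul, ← lie_skew (xe2 k) (xh1 k), ← lie_skew (xe2 k) (xh2 k),
      lie_h1_e2, lie_h2_e2]
    module
  have h1 : b - 2 * a = 0 := by
    by_contra h
    apply hn
    apply of_e1
    have h1 := hK (xe1 k) _ hX
    rw [k1] at h1
    exact (Submodule.smul_mem_iff K h).1 h1
  have h2 : a - 2 * b = 0 := by
    by_contra h
    apply hn
    apply of_e2
    have h1 := hK (xe2 k) _ hX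
    rw [k2] at h1
    exact (Submodule.smul_mem_iff K h).1 h1
  have h3 : (3 : k) ≠ 0 := three_ne_zero
  have h4 : a = 0 := by
    have : (3 : k) * a = 0 := by linear_combination -h2 - 2 * h1
    exact (mul_eq_zero.1 this).resolve_left h3
  have h5 : b = 0 := by
    rw [h4] at h1
    linear_combination h1
  apply h0
  rw [hXd, h4, h5, zero_smul, zero_smul, add_zero]

end ideal

section gen

variable {k : Type u} {A : Type u} [Field k] [CharZero k] [NonUnitalNonAssocRing A] [Module k A]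
  [IsScalarTower k A A] [SMulCommClass k A A] [IsAlternative A]

/-- The span of the brackets. -/
noncomputable def Br (k : Type u) (A : Type u) [Field k] [CharZero k] [NonUnitalNonAssocRing A] [Module k A]
    [IsScalarTower k A A] [SMulCommClass k A A] [IsAlternative A] : Submodule k (ABG k A) :=
  Submodule.span k {z | ∃ x y : ABG k A, z = ⁅x, y⁆}

theorem Br_lie (X : S k) {z : ABG k A} (hz : z ∈ Br k A) : ⁅X, z⁆ ∈ Br k A := by
  have h : Br k A ≤ (Br k A).comap (sAct X) := by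
    conv_lhs => unfold Br
    rw [Submodule.span_le]
    rintro _ ⟨x, y, rfl⟩
    show sAct X ⁅x, y⁆ ∈ Br k A
    rw [sAct_lie]
    exact Submodule.add_mem _ (Submodule.subset_span ⟨_, _, rfl⟩)
      (Submodule.subset_span ⟨_, _, rfl⟩)
  exact h hz

/-- The inclusion of `sl_3 ⊗ A`. -/
noncomputable def inL : S k ⊗[k] A →ₗ[k] ABG k A := LinearMap.inl k (S k ⊗[k] A) (BB k A)

/-- The inclusion of `B(A)`. -/
noncomputable def inR : BB k A →ₗ[k] ABG k A := LinearMap.inr k (S k ⊗[k] A) (BB k A)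

theorem lie_inL (u v : S k ⊗[k] A) : ⁅inL u, inL v⁆ = inL (m1 u v) + inR (m2 u v) := by
  apply Prod.ext
  · show m1 u v + act (0 : BB k A) v - act (0 : BB k A) u = m1 u v + 0
    rw [map_zero, LinearMap.zero_apply, LinearMap.zero_apply]
    abel
  · show m2 u v + brB (0 : BB k A) 0 = 0 + m2 u v
    rw [map_zero]
    abel

theorem gen1 (X : S k) (q r : A) : inL (X ⊗ₜ (q * r)) ∈ Br k A := by
  let f : S k →ₗ[k] ABG k A := inL ∘ₗ ((TensorProduct.mk k (S k) A).flip (q * r))
  have hf : ∀ X, f X = inL (X ⊗ₜ (q * r)) := fun X => rfl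
  have hK : ∀ (Y X : S k), X ∈ (Br k A).comap f → ⁅Y, X⁆ ∈ (Br k A).comap f := by
    intro Y X hX
    have h1 : f X ∈ Br k A := hX
    show f ⁅Y, X⁆ ∈ Br k A
    have h2 := Br_lie Y h1
    have h3 : f ⁅Y, X⁆ = ⁅Y, f X⁆ := rfl
    rw [h3]
    exact h2
  have h3 : xe3 k ∈ (Br k A).comap f := by
    show f (xe3 k) ∈ Br k A
    have h4 : f (xe3 k) = ⁅inL (xe1 k ⊗ₜ[k] q), inL (xe2 k ⊗ₜ[k] r)⁆ := by
      rw [hf, lie_inL, m1_tmul, m2_tmul, lie_e1_e2]
      have j : jorS (xe1 k) (xe2 k) = (2⁻¹ : k) • xe3 k := by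
        apply Subtype.ext
        rw [jorS_val, S.smul_val, xe1_val, xe2_val, xe3_val]
        simp
      have t : trS (xe1 k) (xe2 k) = 0 := by
        rw [trS_apply, xe1_val, xe2_val]
        simp
      rw [j, t, zero_smul, smul_zero, map_zero, add_zero]
      congr 1
      rw [← TensorProduct.smul_tmul', ← TensorProduct.tmul_smul, ← TensorProduct.tmul_add]
      congr 1
      have : (2⁻¹ : k) • (q * r + r * q) + (2⁻¹ : k) • (q * r - r * q) =
          ((2⁻¹ : k) + 2⁻¹) • (q * r) := by module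
      rw [this]
      norm_num
    rw [h4]
    exact Submodule.subset_span ⟨_, _, rfl⟩
  exact ideal_top hK h3 X

theorem gen2 (q r : A) : inR (wed q r) ∈ Br k A := by
  have h1 : ⁅inL (xe1 k ⊗ₜ[k] q), inL (xf1 k ⊗ₜ[k] r)⁆ ∈ Br k A :=
    Submodule.subset_span ⟨_, _, rfl⟩
  rw [lie_inL, m1_tmul, m2_tmul] at h1
  have t : trS (xe1 k) (xf1 k) = 1 := by
    rw [trS_apply, xe1_val, xf1_val]
    simp
  have h2 : inL (⁅xe1 k, xf1 k⁆ ⊗ₜ[k] ((2⁻¹ : k) • (q * r + r * q)) +
      jorS (xe1 k) (xf1 k) ⊗ₜ[k] (q * r - r * q)) ∈ Br k A := by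
    rw [TensorProduct.tmul_smul, TensorProduct.tmul_add, TensorProduct.tmul_sub, map_add, map_smul,
      map_add, map_sub]
    exact Submodule.add_mem _ (Submodule.smul_mem _ _ (Submodule.add_mem _ (gen1 _ _ _)
      (gen1 _ _ _))) (Submodule.sub_mem _ (gen1 _ _ _) (gen1 _ _ _))
  have h3 := (Submodule.add_mem_iff_right _ h2).1 h1
  rw [t, one_smul, map_smul] at h3
  exact (Submodule.smul_mem_iff _ (inv_ne_zero three_ne_zero)).1 h3

theorem bdy_of_Br {z : ABG k A} (hz : z ∈ Br k A) : ExteriorAlgebra.ι k z ∈ bdy k (ABG k A) 1 := by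
  have h : Br k A ≤ (bdy k (ABG k A) 1).toSubmodule.comap (ExteriorAlgebra.ι k) := by
    unfold Br
    rw [Submodule.span_le]
    rintro _ ⟨x, y, rfl⟩
    show ExteriorAlgebra.ι k ⁅x, y⁆ ∈ bdy k (ABG k A) 1
    rw [mem_bdy]
    refine ⟨ExteriorAlgebra.ι k x * ExteriorAlgebra.ι k y, ?_, ceD_ι_mul_ι x y⟩
    show _ ∈ (LinearMap.range (ExteriorAlgebra.ι k (M := ABG k A))) ^ (1 + 1)
    rw [pow_succ, pow_one]
    exact Submodule.mul_mem_mul ⟨_, rfl⟩ ⟨_, rfl⟩
  exact h hz

/-- Every chain of exterior degree one and degree at least two is a boundary. -/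
theorem gen_bdy {s : ℕ → Set A} (gA : GB k A s) (gB : GB k (BB k A) (sB s))
    {T : Module.End k A} (hT : ∀ x y, T (x * y) = T x * y + x * T y)
    (hs : ∀ n, ∀ x ∈ s n, T x = (n : k) • x) (h0 : s 0 = ∅)
    (hp : ∀ n, 2 ≤ n → ∀ x ∈ s n, ∃ y z : A, x = y * z) {n : ℕ} (hn : 2 ≤ n)
    {w : ExteriorAlgebra k (ABG k A)} (hw : w ∈ (datG gA gB hT hs h0).W 1 n) :
    w ∈ bdy k (ABG k A) 1 := by
  obtain ⟨hw1, hw2⟩ := (datG gA gB hT hs h0).mem_W.1 hw
  have h1 : w ∈ LinearMap.range (ExteriorAlgebra.ι k (M := ABG k A)) := by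
    have : w ∈ (LinearMap.range (ExteriorAlgebra.ι k (M := ABG k A))) ^ 1 := hw1
    rwa [pow_one] at this
  obtain ⟨x, rfl⟩ := h1
  have h2 : eG T hT x = (n : k) • x := by
    have h3 : derExt (eG T hT) (ExteriorAlgebra.ι k x) = (n : k) • ExteriorAlgebra.ι k x := hw2
    rw [derExt_ι, ← map_smul] at h3
    exact (ExteriorAlgebra.ι_inj k _ _).1 h3
  apply bdy_of_Br
  have h4 : ∀ i, (bG gA gB).repr x i ≠ 0 → dG gA.d gB.d i = n := by
    intro i hi
    have h5 : ((bG gA gB).coord i) ∘ₗ (eG T hT) = (dG gA.d gB.d i : k) • (bG gA gB).coord i := by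
      apply (bG gA gB).ext
      intro j
      show (bG gA gB).repr (eG T hT (bG gA gB j)) i =
        (dG gA.d gB.d i : k) * (bG gA gB).repr (bG gA gB j) i
      have h6 : eG T hT (bG gA gB j) = (dG gA.d gB.d j : k) • bG gA gB j :=
        (datG gA gB hT hs h0).hE j
      rw [h6, map_smul, Basis.repr_self]
      by_cases hij : j = i
      · subst hij; rfl
      · simp [Finsupp.single_eq_of_ne (Ne.symm hij)]
    have h7 := LinearMap.congr_fun h5 x
    rw [LinearMap.comp_apply, h2, map_smul, LinearMap.smul_apply, Basis.coord_apply, smul_eq_mul,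
      smul_eq_mul] at h7
    exact_mod_cast (mul_right_cancel₀ hi h7).symm
  have h8 : x ∈ Submodule.span k (bG gA gB '' {i | dG gA.d gB.d i = n}) := by
    rw [Basis.mem_span_image]
    intro i hi
    exact h4 i (by simpa using hi)
  refine (Submodule.span_le.2 ?_) h8
  rintro _ ⟨i, hi, rfl⟩
  have hi' : dG gA.d gB.d i = n := hi
  rcases i with ⟨c, a⟩ | β
  · rw [bG_inl]
    have hd : gA.d a = n := hi'
    obtain ⟨y, z, hyz⟩ := hp (gA.d a) (by omega) _ (gA.mem a)
    rw [hyz]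
    exact gen1 (bS k c) y z
  · rw [bG_inr]
    obtain ⟨i, j, y, z, hy, hz, hij, h⟩ := gB.mem β
    rw [h]
    exact gen2 y z

end gen

end Q86.Abg
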