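import Pool.Agent.Q86.AbgHom

set_option autoImplicit false
set_option linter.unusedSectionVars false

/-!
# Graded pieces of the Chevalley-Eilenberg complex
-/

open Module

namespace Q86.Abg

universe u v

section diag

variable {k : Type u} [Field k] {L : Type v} [AddCommGroup L] [Module k L] {I : Type v}
  [LinearOrder I]

theorem derExt_ofFn {T : L →ₗ[k] L} : ∀ {n : ℕ} (v : Fin n → L) (c : Fin n → k)
    (_ : ∀ i, T (v i) = c i • v i),
    derExt T (ExteriorAlgebra.ιMulti k n v) = (∑ i, c i) • ExteriorAlgebra.ιMulti k n v := by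
  intro n
  induction n with
  | zero => intro v c h; simp [derExt_one]
  | succ n ih =>
    intro v c h
    have e : ExteriorAlgebra.ιMulti k (n + 1) v =
        ExteriorAlgebra.ι k (v 0) * ExteriorAlgebra.ιMulti k n (fun i => v i.succ) := by
      rw [ExteriorAlgebra.ιMulti_apply, ExteriorAlgebra.ιMulti_apply, List.ofFn_succ,
        List.prod_cons]
    rw [e, derExt_ι_mul, ih (fun i => v i.succ) (fun i => c i.succ) (fun i => h i.succ), h,
      map_smul, Fin.sum_univ_succ, add_smul, smul_mul_assoc, mul_smul_comm]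

theorem derExt_basis {T : L →ₗ[k] L} {b : Basis I k L} {c : I → k}
    (h : ∀ i, T (b i) = c i • b i) (F : Finset I) :
    derExt T (b.ExteriorAlgebra F) = (∑ i ∈ F, c i) • b.ExteriorAlgebra F := by
  have key : ∀ (n : ℕ) (G : Fin n ↪o I), Finset.univ.map G.toEmbedding = F →
      derExt T (ExteriorAlgebra.ιMulti k n (b ∘ G)) =
        (∑ i ∈ F, c i) • ExteriorAlgebra.ιMulti k n (b ∘ G) := by
    intro n G hG
    rw [derExt_ofFn (b ∘ G) (c ∘ G) (fun i => h _), ← hG, Finset.sum_map]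
    rfl
  rw [ExteriorAlgebra.basis_apply_ofCard b (s := F) rfl]
  exact key _ _ (Finset.map_orderEmbOfFin_univ F rfl)

theorem mem_ext_iff (b : Basis I k L) (m : ℕ) (w : ExteriorAlgebra k L) :
    w ∈ ⋀[k]^m L ↔ ∀ F, b.ExteriorAlgebra.repr w F ≠ 0 → F.card = m := by
  have hspan : (⋀[k]^m L) = Submodule.span k (b.ExteriorAlgebra '' {F | F.card = m}) := by
    apply le_antisymm
    · intro w hw
      have h1 : (⟨w, hw⟩ : ⋀[k]^m L) ∈ Submodule.span k (Set.range (b.exteriorPower m)) := by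
        rw [(b.exteriorPower m).span_eq]
        exact Submodule.mem_top
      have h2 := Submodule.mem_map_of_mem (f := (⋀[k]^m L).subtype) h1
      rw [Submodule.map_span] at h2
      refine Submodule.span_mono ?_ h2
      rintro _ ⟨_, ⟨s, rfl⟩, rfl⟩
      refine ⟨s.1, s.2, ?_⟩
      exact ExteriorAlgebra.basis_eq_coe_basis b s
    · rw [Submodule.span_le]
      rintro _ ⟨F, hF, rfl⟩
      have h3 := ExteriorAlgebra.basis_eq_coe_basis b (⟨F, hF⟩ : Set.powersetCard I m)
      show b.ExteriorAlgebra F ∈ ⋀[k]^m L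
      have h4 : b.ExteriorAlgebra F = ((b.exteriorPower m ⟨F, hF⟩ : ⋀[k]^m L) :
        ExteriorAlgebra k L) := h3
      rw [h4]
      exact Submodule.coe_mem _
  rw [hspan, Basis.mem_span_image]
  constructor
  · intro h F hF
    exact h (by simpa using hF)
  · intro h F hF
    exact h F (by simpa using hF)

theorem repr_derExt {T : L →ₗ[k] L} {b : Basis I k L} {c : I → k}
    (h : ∀ i, T (b i) = c i • b i) (w : ExteriorAlgebra k L) (F : Finset I) :
    b.ExteriorAlgebra.repr (derExt T w) F = (∑ i ∈ F, c i) * b.ExteriorAlgebra.repr w F := by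
  have h1 : (b.ExteriorAlgebra.coord F) ∘ₗ (derExt T) = (∑ i ∈ F, c i) • b.ExteriorAlgebra.coord F := by
    apply b.ExteriorAlgebra.ext
    intro G
    show b.ExteriorAlgebra.repr (derExt T (b.ExteriorAlgebra G)) F =
      (∑ i ∈ F, c i) * b.ExteriorAlgebra.repr (b.ExteriorAlgebra G) F
    rw [derExt_basis h, map_smul, Basis.repr_self]
    by_cases hFG : G = F
    · subst hFG; rfl
    · simp [Finsupp.single_eq_of_ne (Ne.symm hFG)]
  exact LinearMap.congr_fun h1 w

end diag

/-- The data of a graded Lie algebra with an action of `sl_3`. -/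
structure Dat (k : Type u) [Field k] [CharZero k] (L : Type v) [LieRing L] [LieAlgebra k L]
    [LieRingModule (S k) L] [LieModule k (S k) L] (I : Type v) [LinearOrder I] where
  b : Basis I k L
  wt : I → ℤ × ℤ
  dg : I → ℕ
  E : L →ₗ[k] L
  hwt : WB b wt
  hE : ∀ i, E (b i) = (dg i : k) • b i
  hE_lie : ∀ x y : L, E ⁅x, y⁆ = ⁅E x, y⁆ + ⁅x, E y⁆
  hE_act : ∀ (X : S k) (x : L), E ⁅X, x⁆ = ⁅X, E x⁆
  pos : ∀ i, 1 ≤ dg i
  fin : ∀ n, {i | dg i ≤ n}.Finite

section dat

variable {k : Type u} [Field k] [CharZero k] {L : Type v} [LieRing L] [LieAlgebra k L]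
  [LieRingModule (S k) L] [LieModule k (S k) L] {I : Type v} [LinearOrder I] (D : Dat k L I)

/-- The weight of a set of basis vectors. -/
def Dat.wtF (F : Finset I) : ℤ × ℤ := ∑ i ∈ F, D.wt i

/-- The degree of a set of basis vectors. -/
def Dat.dgF (F : Finset I) : ℕ := ∑ i ∈ F, D.dg i

theorem Dat.card_le (F : Finset I) : F.card ≤ D.dgF F := by
  unfold Dat.dgF
  calc F.card = ∑ _i ∈ F, 1 := by simp
    _ ≤ _ := Finset.sum_le_sum (fun i _ => D.pos i)

theorem Dat.fin_dgF (n : ℕ) : {F : Finset I | D.dgF F = n}.Finite := by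
  apply ((D.fin n).toFinset.powerset.finite_toSet).subset
  intro F hF
  rw [Finset.mem_coe, Finset.mem_powerset]
  intro i hi
  rw [Set.Finite.mem_toFinset]
  have h1 : D.dg i ≤ D.dgF F := Finset.single_le_sum (f := D.dg) (fun _ _ => Nat.zero_le _) hi
  exact h1.trans (le_of_eq hF)

theorem c1_sum (F : Finset I) : c1 (∑ i ∈ F, D.wt i) = ∑ i ∈ F, c1 (D.wt i) := by
  unfold c1
  rw [Prod.fst_sum, Prod.snd_sum, Finset.mul_sum, Finset.sum_sub_distrib]

theorem c2_sum (F : Finset I) : c2 (∑ i ∈ F, D.wt i) = ∑ i ∈ F, c2 (D.wt i) := by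
  unfold c2
  rw [Prod.fst_sum, Prod.snd_sum, Finset.mul_sum, Finset.sum_sub_distrib]

theorem Dat.wb : WB D.b.ExteriorAlgebra D.wtF := by
  intro F
  constructor
  · rw [ext_lie, derExt_basis (c := fun i => (c1 (D.wt i) : k)) (fun i => (D.hwt i).h1)]
    unfold Dat.wtF
    rw [c1_sum]
    push_cast
    rfl
  · rw [ext_lie, derExt_basis (c := fun i => (c2 (D.wt i) : k)) (fun i => (D.hwt i).h2)]
    unfold Dat.wtF
    rw [c2_sum]
    push_cast
    rfl

/-- The degree operator on the exterior algebra. -/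
noncomputable def Dat.eE : ExteriorAlgebra k L →ₗ[k] ExteriorAlgebra k L := derExt D.E

theorem Dat.eE_basis (F : Finset I) :
    D.eE (D.b.ExteriorAlgebra F) = (D.dgF F : k) • D.b.ExteriorAlgebra F := by
  unfold Dat.eE Dat.dgF
  rw [derExt_basis (c := fun i => (D.dg i : k)) D.hE]
  push_cast
  rfl

theorem Dat.repr_eE (w : ExteriorAlgebra k L) (F : Finset I) :
    D.b.ExteriorAlgebra.repr (D.eE w) F = (D.dgF F : k) * D.b.ExteriorAlgebra.repr w F := by
  unfold Dat.eE Dat.dgF
  rw [repr_derExt (c := fun i => (D.dg i : k)) D.hE]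
  push_cast
  rfl

theorem Dat.eE_ceD (w : ExteriorAlgebra k L) : D.eE (ceD k L w) = ceD k L (D.eE w) :=
  (LinearMap.congr_fun (ceD_derExt D.hE_lie) w).symm

theorem Dat.eE_act (X : S k) (w : ExteriorAlgebra k L) : D.eE ⁅X, w⁆ = ⁅X, D.eE w⁆ := by
  have h1 := LinearMap.congr_fun (derExt_comm D.E (opL X)) w
  have h2 : D.E ∘ₗ opL X - opL X ∘ₗ D.E = (0 : k) • (LinearMap.id : L →ₗ[k] L) := by
    ext x
    simp only [LinearMap.sub_apply, LinearMap.comp_apply, opL_apply, D.hE_act, sub_self,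
      zero_smul, LinearMap.zero_apply]
  rw [h2, derExt_smul, zero_smul] at h1
  exact sub_eq_zero.1 h1

/-- The component of exterior degree `m` and degree `n` of the exterior algebra. -/
noncomputable def Dat.W (m n : ℕ) : LieSubmodule k (S k) (ExteriorAlgebra k L) where
  carrier := {w | w ∈ ⋀[k]^m L ∧ D.eE w = (n : k) • w}
  add_mem' {x y} hx hy := ⟨Submodule.add_mem _ hx.1 hy.1, by
    rw [map_add, hx.2, hy.2, smul_add]⟩
  zero_mem' := ⟨Submodule.zero_mem _, by simp⟩
  smul_mem' c x hx := ⟨Submodule.smul_mem _ _ hx.1, by rw [map_smul, hx.2, smul_comm]⟩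
  lie_mem {X w} hw := ⟨derExt_id_mem _ hw.1, by
    have h2 : D.eE w = (n : k) • w := hw.2
    have h3 : ⁅X, (n : k) • w⁆ = (n : k) • ⁅X, w⁆ := map_smul (derExt (opL X)) _ _
    rw [D.eE_act, h2, h3]⟩

theorem Dat.mem_W {m n : ℕ} {w : ExteriorAlgebra k L} :
    w ∈ D.W m n ↔ w ∈ ⋀[k]^m L ∧ D.eE w = (n : k) • w := Iff.rfl

/-- The index set of the basis of the component. -/
def Dat.JW (m n : ℕ) : Set (Finset I) := {F | F.card = m ∧ D.dgF F = n}

instance Dat.finJW (m n : ℕ) : Finite (D.JW m n) :=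
  ((D.fin_dgF n).subset (fun _ hF => hF.2)).to_subtype

theorem Dat.mem_W_iff {m n : ℕ} {w : ExteriorAlgebra k L} :
    w ∈ D.W m n ↔ w ∈ Submodule.span k (D.b.ExteriorAlgebra '' D.JW m n) := by
  rw [D.mem_W, mem_ext_iff D.b, Basis.mem_span_image]
  constructor
  · rintro ⟨h1, h2⟩ F hF
    have hF' : D.b.ExteriorAlgebra.repr w F ≠ 0 := by simpa using hF
    refine ⟨h1 F hF', ?_⟩
    have h3 := D.repr_eE w F
    rw [h2, map_smul, Finsupp.smul_apply, smul_eq_mul] at h3
    exact_mod_cast (mul_right_cancel₀ hF' h3).symm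
  · intro h
    refine ⟨fun F hF => (h (by simpa using hF) : F ∈ D.JW m n).1, ?_⟩
    apply D.b.ExteriorAlgebra.repr.injective
    ext F
    rw [D.repr_eE, map_smul, Finsupp.smul_apply, smul_eq_mul]
    by_cases hF : D.b.ExteriorAlgebra.repr w F = 0
    · rw [hF, mul_zero, mul_zero]
    · rw [(h (by simpa using hF) : F ∈ D.JW m n).2]

/-- The basis of the component. -/
noncomputable def Dat.bW (m n : ℕ) : Basis (D.JW m n) k (D.W m n) :=
  Basis.mk (v := fun F => (⟨D.b.ExteriorAlgebra F.1,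
      D.mem_W_iff.2 (Submodule.subset_span ⟨F.1, F.2, rfl⟩)⟩ : D.W m n))
    (by
      apply LinearIndependent.of_comp (D.W m n).toSubmodule.subtype
      exact D.b.ExteriorAlgebra.linearIndependent.comp (fun F : D.JW m n => F.1)
        Subtype.val_injective)
    (by
      rintro ⟨w, hw⟩ _
      have h1 := D.mem_W_iff.1 hw
      have h2 : Submodule.span k (D.b.ExteriorAlgebra '' D.JW m n) =
          (Submodule.span k (Set.range (fun F : D.JW m n => (⟨D.b.ExteriorAlgebra F.1,
            D.mem_W_iff.2 (Submodule.subset_span ⟨F.1, F.2, rfl⟩)⟩ : D.W m n)))).map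
            (D.W m n).toSubmodule.subtype := by
        rw [Submodule.map_span, ← Set.range_comp]
        congr 1
        ext x
        constructor
        · rintro ⟨F, hF, rfl⟩
          exact ⟨⟨F, hF⟩, rfl⟩
        · rintro ⟨F, rfl⟩
          exact ⟨F.1, F.2, rfl⟩
      rw [h2] at h1
      obtain ⟨y, hy, hyw⟩ := h1
      have : y = ⟨w, hw⟩ := Subtype.ext hyw
      rwa [this] at hy)

theorem Dat.bW_apply (m n : ℕ) (F : D.JW m n) :
    ((D.bW m n F : D.W m n) : ExteriorAlgebra k L) = D.b.ExteriorAlgebra F.1 := by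
  unfold Dat.bW
  rw [Basis.mk_apply]

theorem Dat.wbW (m n : ℕ) : WB (D.bW m n) (fun F => D.wtF F.1) := by
  intro F
  constructor
  · apply Subtype.ext
    show ⁅xh1 k, ((D.bW m n F : D.W m n) : ExteriorAlgebra k L)⁆ =
      (c1 (D.wtF F.1) : k) • ((D.bW m n F : D.W m n) : ExteriorAlgebra k L)
    rw [D.bW_apply]
    exact (D.wb F.1).h1
  · apply Subtype.ext
    show ⁅xh2 k, ((D.bW m n F : D.W m n) : ExteriorAlgebra k L)⁆ =
      (c2 (D.wtF F.1) : k) • ((D.bW m n F : D.W m n) : ExteriorAlgebra k L)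
    rw [D.bW_apply]
    exact (D.wb F.1).h2

end dat

end Q86.Abg
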