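import Pool.Agent.Q86.AbgAct

set_option autoImplicit false
set_option linter.unusedSectionVars false

/-!
# Lie algebra homology with the action of `sl_3`
-/

open TensorProduct Module

namespace Q86.Abg

universe u v

section

variable (k : Type u) [Field k] [CharZero k] (L : Type v) [LieRing L] [LieAlgebra k L]
  [LieRingModule (S k) L] [LieModule k (S k) L]

/-- The Lie algebra `sl_3` acts on the Lie algebra `L` by derivations. -/
class SDer : Prop where
  leib : ∀ (X : S k) (x y : L), ⁅X, ⁅x, y⁆⁆ = ⁅⁅X, x⁆, y⁆ + ⁅x, ⁅X, y⁆⁆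

variable [SDer k L]

theorem ceD_lie (X : S k) (w : ExteriorAlgebra k L) : ceD k L ⁅X, w⁆ = ⁅X, ceD k L w⁆ :=
  LinearMap.congr_fun (ceD_derExt (T := opL X) (fun x y => SDer.leib X x y)) w

/-- The cycles of degree `m` of the Chevalley-Eilenberg complex. -/
noncomputable def cyc (m : ℕ) : LieSubmodule k (S k) (ExteriorAlgebra k L) where
  __ := (⋀[k]^m L) ⊓ LinearMap.ker (ceD k L)
  lie_mem {X w} hw := by
    have h1 : w ∈ (⋀[k]^m L) ⊓ LinearMap.ker (ceD k L) := hw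
    show ⁅X, w⁆ ∈ (⋀[k]^m L) ⊓ LinearMap.ker (ceD k L)
    refine ⟨derExt_id_mem _ h1.1, ?_⟩
    show ceD k L ⁅X, w⁆ = 0
    rw [ceD_lie, LinearMap.mem_ker.1 h1.2, lie_zero]

/-- The boundaries of degree `m` of the Chevalley-Eilenberg complex. -/
noncomputable def bdy (m : ℕ) : LieSubmodule k (S k) (ExteriorAlgebra k L) where
  __ := (⋀[k]^(m + 1) L).map (ceD k L)
  lie_mem {X w} hw := by
    have h1 : w ∈ (⋀[k]^(m + 1) L).map (ceD k L) := hw
    show ⁅X, w⁆ ∈ (⋀[k]^(m + 1) L).map (ceD k L)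
    obtain ⟨y, hy, rfl⟩ := h1
    exact ⟨⁅X, y⁆, derExt_id_mem _ hy, ceD_lie k L X y⟩

/-- The homology `H_m(L, k)` of the Lie algebra `L` with trivial coefficients, with the action
of `sl_3`. -/
abbrev H (m : ℕ) : Type _ := (cyc k L m) ⧸ (bdy k L m).comap (cyc k L m).incl

variable {k L}

theorem mem_cyc {m : ℕ} {w : ExteriorAlgebra k L} :
    w ∈ cyc k L m ↔ w ∈ ⋀[k]^m L ∧ ceD k L w = 0 := Iff.rfl

theorem mem_bdy {m : ℕ} {w : ExteriorAlgebra k L} :
    w ∈ bdy k L m ↔ ∃ y ∈ ⋀[k]^(m + 1) L, ceD k L y = w := Iff.rfl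

theorem bdy_le {m : ℕ} {w : ExteriorAlgebra k L} (hw : w ∈ bdy k L m) : w ∈ cyc k L m := by
  obtain ⟨y, hy, rfl⟩ := mem_bdy.1 hw
  exact ⟨ceD_mem hy, LinearMap.congr_fun ceD_ceD y⟩

end

noncomputable instance (k : Type u) (A : Type v) [Field k] [CharZero k] [NonUnitalNonAssocRing A]
    [Module k A] [IsScalarTower k A A] [SMulCommClass k A A] [IsAlternative A] :
    SDer k (ABG k A) where
  leib X x y := sAct_lie X x y

end Q86.Abg
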