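import Pool.Agent.Q86.AbgAlt

set_option autoImplicit false
set_option linter.unusedSectionVars false
set_option linter.unusedSimpArgs false

/-!
# The Allison-Benkart-Gao Lie algebra of an alternative algebra
-/

open TensorProduct

namespace Q86.Abg

universe u v

section sl3

variable (k : Type u) [Field k]

attribute [local instance 100] LieRing.ofAssociativeRing

/-- The Lie algebra of matrices of trace zero of size three. -/
abbrev S : Type u := LieAlgebra.SpecialLinear.sl (Fin 3) k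

variable {k}

theorem S.trace_eq (X : S k) : X.1 2 2 = -X.1 0 0 - X.1 1 1 := by
  have h : Matrix.trace X.1 = 0 := X.2
  rw [Matrix.trace_fin_three] at h
  linear_combination h

theorem S.lie_val (X Y : S k) : (⁅X, Y⁆ : S k).1 = X.1 * Y.1 - Y.1 * X.1 := rfl

/-- The bracket of `sl_3` as a bilinear map. -/
noncomputable def lieS : S k →ₗ[k] S k →ₗ[k] S k := (LieModule.toEnd k (S k) (S k)).toLinearMap

theorem lieS_apply (X Y : S k) : lieS X Y = ⁅X, Y⁆ := rfl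

/-- The trace of the product. -/
noncomputable def trS : S k →ₗ[k] S k →ₗ[k] k :=
  LinearMap.mk₂ k (fun X Y => Matrix.trace (X.1 * Y.1))
    (by intro a b c; simp [add_mul])
    (by intro a b c; simp)
    (by intro a b c; simp [mul_add])
    (by intro a b c; simp)

theorem trS_apply (X Y : S k) : trS X Y = Matrix.trace (X.1 * Y.1) := rfl

variable [CharZero k]

/-- The product `{X, Y} = (XY + YX)/2 - tr(XY)/3`. -/
def jorS (X Y : S k) : S k :=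
  ⟨(2⁻¹ : k) • (X.1 * Y.1 + Y.1 * X.1) - ((3⁻¹ : k) * Matrix.trace (X.1 * Y.1)) • 1, by
    show Matrix.trace (_ : Matrix (Fin 3) (Fin 3) k) = 0
    have h2 : (2 : k) ≠ 0 := two_ne_zero
    have h3 : (3 : k) ≠ 0 := three_ne_zero
    rw [Matrix.trace_sub, Matrix.trace_smul, Matrix.trace_smul, Matrix.trace_add,
      Matrix.trace_mul_comm Y.1 X.1, Matrix.trace_one, Fintype.card_fin]
    simp only [smul_eq_mul]
    push_cast
    field_simp
    ring⟩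

theorem jorS_val (X Y : S k) : (jorS X Y).1 =
    (2⁻¹ : k) • (X.1 * Y.1 + Y.1 * X.1) - ((3⁻¹ : k) * Matrix.trace (X.1 * Y.1)) • 1 := rfl

/-- The product `{X, Y}` as a bilinear map. -/
noncomputable def jorL : S k →ₗ[k] S k →ₗ[k] S k :=
  LinearMap.mk₂ k jorS
    (by
      intro a b c
      apply Subtype.ext
      show (jorS (a + b) c).1 = (jorS a c).1 + (jorS b c).1
      simp only [jorS_val]
      have : (a + b).1 = a.1 + b.1 := rfl
      rw [this, add_mul, mul_add, Matrix.trace_add]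
      module)
    (by
      intro r b c
      apply Subtype.ext
      show (jorS (r • b) c).1 = r • (jorS b c).1
      simp only [jorS_val]
      have : (r • b).1 = r • b.1 := rfl
      rw [this, Matrix.smul_mul, Matrix.mul_smul, Matrix.trace_smul, smul_eq_mul]
      module)
    (by
      intro a b c
      apply Subtype.ext
      show (jorS a (b + c)).1 = (jorS a b).1 + (jorS a c).1
      simp only [jorS_val]
      have : (b + c).1 = b.1 + c.1 := rfl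
      rw [this, add_mul, mul_add, Matrix.trace_add]
      module)
    (by
      intro r b c
      apply Subtype.ext
      show (jorS b (r • c)).1 = r • (jorS b c).1
      simp only [jorS_val]
      have : (r • c).1 = r • c.1 := rfl
      rw [this, Matrix.smul_mul, Matrix.mul_smul, Matrix.trace_smul, smul_eq_mul]
      module)

theorem jorL_apply (X Y : S k) : jorL X Y = jorS X Y := rfl

theorem jorS_comm (X Y : S k) : jorS X Y = jorS Y X := by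
  apply Subtype.ext
  rw [jorS_val, jorS_val, Matrix.trace_mul_comm X.1 Y.1, add_comm]

theorem trS_comm (X Y : S k) : trS X Y = trS Y X := by
  rw [trS_apply, trS_apply, Matrix.trace_mul_comm]

theorem trS_cyc (X Y Z : S k) : trS X ⁅Y, Z⁆ = trS ⁅X, Y⁆ Z := by
  simp only [trS_apply, S.lie_val]
  rw [mul_sub, sub_mul, Matrix.trace_sub, Matrix.trace_sub, ← mul_assoc, ← mul_assoc, mul_assoc Y.1,
    Matrix.trace_mul_comm Y.1, mul_assoc X.1 Z.1, ← mul_assoc, mul_assoc X.1 Z.1 Y.1]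

theorem trS_jor (X Y Z : S k) : trS X (jorS Y Z) = trS (jorS X Y) Z := by
  simp only [trS_apply, jorS_val]
  have hX : Matrix.trace X.1 = 0 := X.2
  have hZ : Matrix.trace Z.1 = 0 := Z.2
  rw [mul_sub, sub_mul, Matrix.mul_smul, Matrix.smul_mul, Matrix.mul_smul, Matrix.smul_mul, mul_one,
    one_mul, Matrix.trace_sub, Matrix.trace_sub, Matrix.trace_smul, Matrix.trace_smul,
    Matrix.trace_smul, Matrix.trace_smul, hX, hZ, mul_add, add_mul, ← mul_assoc, ← mul_assoc,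
    Matrix.trace_add, Matrix.trace_add, mul_assoc Y.1 X.1 Z.1, Matrix.trace_mul_comm Y.1]
  simp only [sub_zero, smul_eq_mul, mul_zero]
  rw [Matrix.trace_mul_comm Y.1 (X.1 * Z.1)]

theorem S.add_val (X Y : S k) : (X + Y).1 = X.1 + Y.1 := rfl

theorem S.smul_val (c : k) (X : S k) : (c • X).1 = c • X.1 := rfl

theorem S.neg_val (X : S k) : (-X).1 = -X.1 := rfl

theorem S.zero_val : (0 : S k).1 = 0 := rfl

theorem mv1 (X Y Z : S k) : (⁅X, ⁅Y, Z⁆⁆ : S k).1 =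
    X.1 * Y.1 * Z.1 - X.1 * Z.1 * Y.1 - Y.1 * Z.1 * X.1 + Z.1 * Y.1 * X.1 := by
  rw [S.lie_val, S.lie_val]
  noncomm_ring

theorem mv2 (X Y Z : S k) : (jorS X ⁅Y, Z⁆).1 =
    (2⁻¹ : k) • (X.1 * Y.1 * Z.1 - X.1 * Z.1 * Y.1 + Y.1 * Z.1 * X.1 - Z.1 * Y.1 * X.1) -
    ((3⁻¹ : k) * (Matrix.trace (X.1 * Y.1 * Z.1) - Matrix.trace (X.1 * Z.1 * Y.1))) • 1 := by
  rw [jorS_val, S.lie_val, mul_sub, sub_mul, Matrix.trace_sub, ← mul_assoc, ← mul_assoc]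
  module

theorem mv3 (X Y Z : S k) : (⁅X, jorS Y Z⁆ : S k).1 =
    (2⁻¹ : k) • (X.1 * Y.1 * Z.1 + X.1 * Z.1 * Y.1 - Y.1 * Z.1 * X.1 - Z.1 * Y.1 * X.1) := by
  rw [S.lie_val, jorS_val, mul_sub, sub_mul, Matrix.mul_smul, Matrix.smul_mul, Matrix.mul_smul,
    Matrix.smul_mul, mul_one, one_mul, mul_add, add_mul, ← mul_assoc, ← mul_assoc]
  module

theorem mv4 (X Y Z : S k) : (jorS X (jorS Y Z)).1 =
    (4⁻¹ : k) • (X.1 * Y.1 * Z.1 + X.1 * Z.1 * Y.1 + Y.1 * Z.1 * X.1 + Z.1 * Y.1 * X.1) -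
    ((3⁻¹ : k) * Matrix.trace (Y.1 * Z.1)) • X.1 -
    ((6⁻¹ : k) * (Matrix.trace (X.1 * Y.1 * Z.1) + Matrix.trace (X.1 * Z.1 * Y.1))) • 1 := by
  have hX : Matrix.trace X.1 = 0 := X.2
  rw [jorS_val, jorS_val, mul_sub, sub_mul, Matrix.mul_smul, Matrix.smul_mul, Matrix.mul_smul,
    Matrix.smul_mul, mul_one, one_mul, mul_add, add_mul, ← mul_assoc, ← mul_assoc,
    Matrix.trace_sub, Matrix.trace_smul, Matrix.trace_smul, hX, Matrix.trace_add, smul_zero,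
    sub_zero, smul_eq_mul]
  have h6 : (6⁻¹ : k) = 3⁻¹ * 2⁻¹ := by norm_num
  have h4 : (4⁻¹ : k) = 2⁻¹ * 2⁻¹ := by norm_num
  rw [h6, h4]
  module

theorem cayley (X Y Z : S k) :
    X.1 * Y.1 * Z.1 + X.1 * Z.1 * Y.1 + Y.1 * X.1 * Z.1 + Y.1 * Z.1 * X.1 + Z.1 * X.1 * Y.1 +
      Z.1 * Y.1 * X.1 - Matrix.trace (X.1 * Y.1) • Z.1 - Matrix.trace (Y.1 * Z.1) • X.1 -
      Matrix.trace (X.1 * Z.1) • Y.1 -
      (Matrix.trace (X.1 * Y.1 * Z.1) + Matrix.trace (X.1 * Z.1 * Y.1)) •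
        (1 : Matrix (Fin 3) (Fin 3) k) = 0 := by
  have hX := X.trace_eq
  have hY := Y.trace_eq
  have hZ := Z.trace_eq
  obtain ⟨x, hx⟩ : ∃ x, x = X.1 := ⟨_, rfl⟩
  obtain ⟨y, hy⟩ : ∃ y, y = Y.1 := ⟨_, rfl⟩
  obtain ⟨z, hz⟩ : ∃ z, z = Z.1 := ⟨_, rfl⟩
  rw [← hx] at hX ⊢
  rw [← hy] at hY ⊢
  rw [← hz] at hZ ⊢
  apply Matrix.ext
  intro i j
  fin_cases i <;> fin_cases j <;>
  · simp only [Matrix.mul_apply, Matrix.trace_fin_three, Fin.sum_univ_three, Matrix.sub_apply,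
      Matrix.add_apply, Matrix.smul_apply, Matrix.one_apply, smul_eq_mul, Matrix.zero_apply,
      Fin.zero_eta, Fin.mk_one, Fin.reduceFinMk, Fin.isValue, Fin.reduceEq, if_true, if_false,
      hX, hY, hZ, zero_ne_one, one_ne_zero]
    ring

theorem mat1 (X Y Z : S k) :
    (1/4 : k) • (⁅X, ⁅Y, Z⁆⁆) +
      (1/2 : k) • (jorS X ⁅Y, Z⁆) +
      (1/2 : k) • (⁅X, jorS Y Z⁆) +
      (1 : k) • (jorS X (jorS Y Z)) +
      (1/3 : k) • (trS Y Z • X) +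
      (-1/4 : k) • (⁅⁅X, Y⁆, Z⁆) +
      (-1/2 : k) • (jorS ⁅X, Y⁆ Z) +
      (-1/2 : k) • (⁅jorS X Y, Z⁆) +
      (-1 : k) • (jorS (jorS X Y) Z) +
      (-1/3 : k) • (trS X Y • Z) = 0 := by
  rw [← lie_skew ⁅X, Y⁆ Z, ← lie_skew (jorS X Y) Z, jorS_comm ⁅X, Y⁆ Z, jorS_comm (jorS X Y) Z]
  have t1 : Matrix.trace (Z.1 * X.1 * Y.1) = Matrix.trace (X.1 * Y.1 * Z.1) := by
    rw [mul_assoc, Matrix.trace_mul_comm]
  have t2 : Matrix.trace (Z.1 * Y.1 * X.1) = Matrix.trace (X.1 * Z.1 * Y.1) := by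
    rw [Matrix.trace_mul_comm, mul_assoc]
  have t3 : Matrix.trace (Y.1 * X.1 * Z.1) = Matrix.trace (X.1 * Z.1 * Y.1) := by
    rw [mul_assoc, Matrix.trace_mul_comm]
  have t4 : Matrix.trace (Y.1 * Z.1 * X.1) = Matrix.trace (X.1 * Y.1 * Z.1) := by
    rw [Matrix.trace_mul_comm, mul_assoc]
  apply Subtype.ext
  simp only [S.add_val, S.smul_val, S.zero_val, S.neg_val, mv1, mv2, mv3, mv4,
    trS_apply, t1, t2, t3, t4]
  module

theorem mat2 (X Y Z : S k) :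
    (-1/4 : k) • (⁅⁅X, Y⁆, Z⁆) +
      (-1/2 : k) • (jorS ⁅X, Y⁆ Z) +
      (1/2 : k) • (⁅jorS X Y, Z⁆) +
      (1 : k) • (jorS (jorS X Y) Z) +
      (1/3 : k) • (trS X Y • Z) +
      (-1/4 : k) • (⁅Y, ⁅X, Z⁆⁆) +
      (-1/2 : k) • (jorS Y ⁅X, Z⁆) +
      (-1/2 : k) • (⁅Y, jorS X Z⁆) +
      (-1 : k) • (jorS Y (jorS X Z)) +
      (-1/3 : k) • (trS X Z • Y) = 0 := by
  rw [← lie_skew ⁅X, Y⁆ Z, ← lie_skew (jorS X Y) Z, jorS_comm ⁅X, Y⁆ Z, jorS_comm (jorS X Y) Z]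
  have t1 : Matrix.trace (Z.1 * X.1 * Y.1) = Matrix.trace (X.1 * Y.1 * Z.1) := by
    rw [mul_assoc, Matrix.trace_mul_comm]
  have t2 : Matrix.trace (Z.1 * Y.1 * X.1) = Matrix.trace (X.1 * Z.1 * Y.1) := by
    rw [Matrix.trace_mul_comm, mul_assoc]
  have t3 : Matrix.trace (Y.1 * X.1 * Z.1) = Matrix.trace (X.1 * Z.1 * Y.1) := by
    rw [mul_assoc, Matrix.trace_mul_comm]
  have t4 : Matrix.trace (Y.1 * Z.1 * X.1) = Matrix.trace (X.1 * Y.1 * Z.1) := by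
    rw [Matrix.trace_mul_comm, mul_assoc]
  apply Subtype.ext
  simp only [S.add_val, S.smul_val, S.zero_val, S.neg_val, mv1, mv2, mv3, mv4,
    trS_apply, t1, t2, t3, t4]
  module

theorem mat3 (X Y Z : S k) :
    (1/4 : k) • (⁅X, ⁅Y, Z⁆⁆) +
      (-1/2 : k) • (jorS X ⁅Y, Z⁆) +
      (1/2 : k) • (⁅X, jorS Y Z⁆) +
      (-1 : k) • (jorS X (jorS Y Z)) +
      (-1/3 : k) • (trS Y Z • X) +
      (-1/4 : k) • (⁅Y, ⁅X, Z⁆⁆) +
      (-1/2 : k) • (jorS Y ⁅X, Z⁆) +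
      (1/2 : k) • (⁅Y, jorS X Z⁆) +
      (1 : k) • (jorS Y (jorS X Z)) +
      (1/3 : k) • (trS X Z • Y) = 0 := by
  have t1 : Matrix.trace (Z.1 * X.1 * Y.1) = Matrix.trace (X.1 * Y.1 * Z.1) := by
    rw [mul_assoc, Matrix.trace_mul_comm]
  have t2 : Matrix.trace (Z.1 * Y.1 * X.1) = Matrix.trace (X.1 * Z.1 * Y.1) := by
    rw [Matrix.trace_mul_comm, mul_assoc]
  have t3 : Matrix.trace (Y.1 * X.1 * Z.1) = Matrix.trace (X.1 * Z.1 * Y.1) := by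
    rw [mul_assoc, Matrix.trace_mul_comm]
  have t4 : Matrix.trace (Y.1 * Z.1 * X.1) = Matrix.trace (X.1 * Y.1 * Z.1) := by
    rw [Matrix.trace_mul_comm, mul_assoc]
  apply Subtype.ext
  simp only [S.add_val, S.smul_val, S.zero_val, S.neg_val, mv1, mv2, mv3, mv4,
    trS_apply, t1, t2, t3, t4]
  module

theorem mat4 (X Y Z : S k) :
    (1/4 : k) • (⁅X, ⁅Y, Z⁆⁆) +
      (-1/2 : k) • (jorS X ⁅Y, Z⁆) +
      (-1/2 : k) • (⁅X, jorS Y Z⁆) +
      (1 : k) • (jorS X (jorS Y Z)) +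
      (1/3 : k) • (trS Y Z • X) +
      (-1/4 : k) • (⁅⁅X, Y⁆, Z⁆) +
      (1/2 : k) • (jorS ⁅X, Y⁆ Z) +
      (1/2 : k) • (⁅jorS X Y, Z⁆) +
      (-1 : k) • (jorS (jorS X Y) Z) +
      (-1/3 : k) • (trS X Y • Z) = 0 := by
  rw [← lie_skew ⁅X, Y⁆ Z, ← lie_skew (jorS X Y) Z, jorS_comm ⁅X, Y⁆ Z, jorS_comm (jorS X Y) Z]
  have t1 : Matrix.trace (Z.1 * X.1 * Y.1) = Matrix.trace (X.1 * Y.1 * Z.1) := by
    rw [mul_assoc, Matrix.trace_mul_comm]
  have t2 : Matrix.trace (Z.1 * Y.1 * X.1) = Matrix.trace (X.1 * Z.1 * Y.1) := by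
    rw [Matrix.trace_mul_comm, mul_assoc]
  have t3 : Matrix.trace (Y.1 * X.1 * Z.1) = Matrix.trace (X.1 * Z.1 * Y.1) := by
    rw [mul_assoc, Matrix.trace_mul_comm]
  have t4 : Matrix.trace (Y.1 * Z.1 * X.1) = Matrix.trace (X.1 * Y.1 * Z.1) := by
    rw [Matrix.trace_mul_comm, mul_assoc]
  apply Subtype.ext
  simp only [S.add_val, S.smul_val, S.zero_val, S.neg_val, mv1, mv2, mv3, mv4,
    trS_apply, t1, t2, t3, t4]
  module

theorem mat5 (X Y Z : S k) :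
    (-1/4 : k) • (⁅⁅X, Y⁆, Z⁆) +
      (1/2 : k) • (jorS ⁅X, Y⁆ Z) +
      (-1/2 : k) • (⁅jorS X Y, Z⁆) +
      (1 : k) • (jorS (jorS X Y) Z) +
      (1/3 : k) • (trS X Y • Z) +
      (-1/4 : k) • (⁅Y, ⁅X, Z⁆⁆) +
      (1/2 : k) • (jorS Y ⁅X, Z⁆) +
      (1/2 : k) • (⁅Y, jorS X Z⁆) +
      (-1 : k) • (jorS Y (jorS X Z)) +
      (-1/3 : k) • (trS X Z • Y) = 0 := by
  rw [← lie_skew ⁅X, Y⁆ Z, ← lie_skew (jorS X Y) Z, jorS_comm ⁅X, Y⁆ Z, jorS_comm (jorS X Y) Z]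
  have t1 : Matrix.trace (Z.1 * X.1 * Y.1) = Matrix.trace (X.1 * Y.1 * Z.1) := by
    rw [mul_assoc, Matrix.trace_mul_comm]
  have t2 : Matrix.trace (Z.1 * Y.1 * X.1) = Matrix.trace (X.1 * Z.1 * Y.1) := by
    rw [Matrix.trace_mul_comm, mul_assoc]
  have t3 : Matrix.trace (Y.1 * X.1 * Z.1) = Matrix.trace (X.1 * Z.1 * Y.1) := by
    rw [mul_assoc, Matrix.trace_mul_comm]
  have t4 : Matrix.trace (Y.1 * Z.1 * X.1) = Matrix.trace (X.1 * Y.1 * Z.1) := by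
    rw [Matrix.trace_mul_comm, mul_assoc]
  apply Subtype.ext
  simp only [S.add_val, S.smul_val, S.zero_val, S.neg_val, mv1, mv2, mv3, mv4,
    trS_apply, t1, t2, t3, t4]
  module

theorem mat6 (X Y Z : S k) :
    (1/4 : k) • (⁅X, ⁅Y, Z⁆⁆) +
      (1/2 : k) • (jorS X ⁅Y, Z⁆) +
      (-1/2 : k) • (⁅X, jorS Y Z⁆) +
      (-1 : k) • (jorS X (jorS Y Z)) +
      (-1/3 : k) • (trS Y Z • X) +
      (-1/4 : k) • (⁅Y, ⁅X, Z⁆⁆) +
      (1/2 : k) • (jorS Y ⁅X, Z⁆) +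
      (-1/2 : k) • (⁅Y, jorS X Z⁆) +
      (1 : k) • (jorS Y (jorS X Z)) +
      (1/3 : k) • (trS X Z • Y) = 0 := by
  have t1 : Matrix.trace (Z.1 * X.1 * Y.1) = Matrix.trace (X.1 * Y.1 * Z.1) := by
    rw [mul_assoc, Matrix.trace_mul_comm]
  have t2 : Matrix.trace (Z.1 * Y.1 * X.1) = Matrix.trace (X.1 * Z.1 * Y.1) := by
    rw [Matrix.trace_mul_comm, mul_assoc]
  have t3 : Matrix.trace (Y.1 * X.1 * Z.1) = Matrix.trace (X.1 * Z.1 * Y.1) := by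
    rw [mul_assoc, Matrix.trace_mul_comm]
  have t4 : Matrix.trace (Y.1 * Z.1 * X.1) = Matrix.trace (X.1 * Y.1 * Z.1) := by
    rw [Matrix.trace_mul_comm, mul_assoc]
  apply Subtype.ext
  simp only [S.add_val, S.smul_val, S.zero_val, S.neg_val, mv1, mv2, mv3, mv4,
    trS_apply, t1, t2, t3, t4]
  module

theorem mat7 (X Y Z : S k) :
    (-1 : k) • (⁅X, jorS Y Z⁆) +
      (-2 : k) • (jorS X (jorS Y Z)) +
      (1/3 : k) • (trS Y Z • X) +
      (1 : k) • (⁅jorS X Y, Z⁆) +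
      (-2 : k) • (jorS (jorS X Y) Z) +
      (1/3 : k) • (trS X Y • Z) +
      (-1 : k) • (⁅Y, jorS X Z⁆) +
      (-2 : k) • (jorS Y (jorS X Z)) +
      (1/3 : k) • (trS X Z • Y) = 0 := by
  rw [← lie_skew (jorS X Y) Z, jorS_comm (jorS X Y) Z]
  have t1 : Matrix.trace (Z.1 * X.1 * Y.1) = Matrix.trace (X.1 * Y.1 * Z.1) := by
    rw [mul_assoc, Matrix.trace_mul_comm]
  have t2 : Matrix.trace (Z.1 * Y.1 * X.1) = Matrix.trace (X.1 * Z.1 * Y.1) := by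
    rw [Matrix.trace_mul_comm, mul_assoc]
  have t3 : Matrix.trace (Y.1 * X.1 * Z.1) = Matrix.trace (X.1 * Z.1 * Y.1) := by
    rw [mul_assoc, Matrix.trace_mul_comm]
  have t4 : Matrix.trace (Y.1 * Z.1 * X.1) = Matrix.trace (X.1 * Y.1 * Z.1) := by
    rw [Matrix.trace_mul_comm, mul_assoc]
  apply Subtype.ext
  simp only [S.add_val, S.smul_val, S.zero_val, S.neg_val, mv1, mv2, mv3, mv4,
    trS_apply, t1, t2, t3, t4]
  linear_combination (norm := module) (-1 : k) • cayley X Y Z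

end sl3

end Q86.Abg
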