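import Pool.Agent.Q86.AbgLie

set_option autoImplicit false
set_option linter.unusedSectionVars false

/-!
# The Allison-Benkart-Gao Lie algebra: the bracket
-/

open TensorProduct

namespace Q86.Abg

universe u v

section B

variable (k : Type u) (A : Type v) [Field k] [NonUnitalNonAssocRing A] [Module k A]
  [IsScalarTower k A A] [SMulCommClass k A A]

/-- The relations of the space `B(A)`: the squares `p ⊗ p`, whose quotient is the exterior square,
and the elements `pq ∧ r + qr ∧ p + rp ∧ q`. -/
def relB : Submodule k (A ⊗[k] A) :=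
  Submodule.span k ({t | ∃ p : A, t = p ⊗ₜ[k] p} ∪
    {t | ∃ p q r : A, t = (p * q) ⊗ₜ[k] r + (q * r) ⊗ₜ[k] p + (r * p) ⊗ₜ[k] q})

/-- The space `B(A)`. -/
abbrev BB : Type _ := (A ⊗[k] A) ⧸ relB k A

variable {k A}

/-- The element `p ∧ q` of `B(A)`. -/
def wed (p q : A) : BB k A := (relB k A).mkQ (p ⊗ₜ[k] q)

/-- The wedge as a bilinear map. -/
noncomputable def wedL : A →ₗ[k] A →ₗ[k] BB k A :=
  LinearMap.mk₂ k wed
    (by intro a b c; simp only [wed, TensorProduct.add_tmul, map_add])
    (by intro a b c; simp only [wed, ← TensorProduct.smul_tmul', map_smul])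
    (by intro a b c; simp only [wed, TensorProduct.tmul_add, map_add])
    (by intro a b c; simp only [wed, TensorProduct.tmul_smul, map_smul])

theorem wedL_apply (p q : A) : wedL (k := k) p q = wed p q := rfl

theorem wed_self (p : A) : wed (k := k) p p = 0 := by
  unfold wed
  rw [Submodule.mkQ_apply, Submodule.Quotient.mk_eq_zero]
  exact Submodule.subset_span (Or.inl ⟨p, rfl⟩)

theorem wed_skew (p q : A) : wed (k := k) q p = -wed p q := by
  have h := wed_self (k := k) (p + q)
  rw [← wedL_apply] at h
  simp only [map_add, LinearMap.add_apply, wedL_apply, wed_self, zero_add, add_zero] at h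
  linear_combination (norm := module) h

theorem wed_cyc (p q r : A) :
    wed (k := k) (p * q) r + wed (q * r) p + wed (r * p) q = 0 := by
  unfold wed
  rw [← map_add, ← map_add, Submodule.mkQ_apply, Submodule.Quotient.mk_eq_zero]
  exact Submodule.subset_span (Or.inr ⟨p, q, r, rfl⟩)

/-- Linear maps out of `B(A)` are determined by their values on the elements `p ∧ q`. -/
theorem BB.ext {N : Type*} [AddCommGroup N] [Module k N] {F G : BB k A →ₗ[k] N}
    (h : ∀ p q, F (wed p q) = G (wed p q)) : F = G := by
  apply Submodule.linearMap_qext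
  apply TensorProduct.ext'
  exact h

theorem BB.induction {P : BB k A → Prop} (h0 : P 0) (h1 : ∀ p q, P (wed p q))
    (h2 : ∀ x y, P x → P y → P (x + y)) (x : BB k A) : P x := by
  obtain ⟨t, rfl⟩ := Submodule.mkQ_surjective _ x
  induction t using TensorProduct.induction_on with
  | zero => rw [map_zero]; exact h0
  | tmul p q => exact h1 p q
  | add x y hx hy => rw [map_add]; exact h2 _ _ hx hy

/-- `D_{p,q}` as an endomorphism. -/
def dEnd (p q : A) : Module.End k A where
  toFun := dfun p q
  map_add' x y := by
    unfold dfun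
    simp only [mul_add, add_mul]
    abel
  map_smul' c x := by
    unfold dfun
    simp only [mul_smul_comm, smul_mul_assoc, RingHom.id_apply, smul_add, smul_sub]

theorem dEnd_apply (p q r : A) : dEnd (k := k) p q r = dfun p q r := rfl

/-- `D_{p,q}` as a bilinear map of `p, q`. -/
def dLin : A →ₗ[k] A →ₗ[k] Module.End k A :=
  LinearMap.mk₂ k dEnd
    (by
      intro a b c
      ext x
      simp only [dEnd_apply, LinearMap.add_apply, dfun, mul_add, add_mul]
      abel)
    (by
      intro a b c
      ext x
      simp only [dEnd_apply, LinearMap.smul_apply, dfun, mul_smul_comm, smul_mul_assoc, smul_add,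
        smul_sub])
    (by
      intro a b c
      ext x
      simp only [dEnd_apply, LinearMap.add_apply, dfun, mul_add, add_mul]
      abel)
    (by
      intro a b c
      ext x
      simp only [dEnd_apply, LinearMap.smul_apply, dfun, mul_smul_comm, smul_mul_assoc, smul_add,
        smul_sub])

/-- The operator `T ⊗ 1 + 1 ⊗ T` on `A ⊗ A`. -/
noncomputable def tt (T : Module.End k A) : A ⊗[k] A →ₗ[k] A ⊗[k] A :=
  TensorProduct.map T LinearMap.id + TensorProduct.map LinearMap.id T

theorem tt_tmul (T : Module.End k A) (p q : A) : tt T (p ⊗ₜ q) = T p ⊗ₜ q + p ⊗ₜ T q := rfl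

theorem tt_relB {T : Module.End k A} (hT : ∀ x y, T (x * y) = T x * y + x * T y) :
    relB k A ≤ (relB k A).comap (tt T) := by
  unfold relB
  rw [Submodule.span_le]
  rintro t (⟨p, rfl⟩ | ⟨p, q, r, rfl⟩)
  · show tt T (p ⊗ₜ p) ∈ relB k A
    rw [tt_tmul]
    have h1 : (T p + p) ⊗ₜ[k] (T p + p) ∈ relB k A := Submodule.subset_span (Or.inl ⟨_, rfl⟩)
    have h2 : (T p) ⊗ₜ[k] (T p) ∈ relB k A := Submodule.subset_span (Or.inl ⟨_, rfl⟩)
    have h3 : p ⊗ₜ[k] p ∈ relB k A := Submodule.subset_span (Or.inl ⟨_, rfl⟩)
    have h4 := Submodule.sub_mem _ (Submodule.sub_mem _ h1 h2) h3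
    rw [TensorProduct.add_tmul, TensorProduct.tmul_add, TensorProduct.tmul_add] at h4
    have h5 : T p ⊗ₜ[k] T p + T p ⊗ₜ[k] p + (p ⊗ₜ[k] T p + p ⊗ₜ[k] p) - T p ⊗ₜ[k] T p - p ⊗ₜ[k] p =
      T p ⊗ₜ[k] p + p ⊗ₜ[k] T p := by abel
    rwa [h5] at h4
  · show tt T (_ + _ + _) ∈ relB k A
    rw [map_add, map_add, tt_tmul, tt_tmul, tt_tmul, hT, hT, hT]
    have h : ∀ a b c : A, (a * b) ⊗ₜ[k] c + (b * c) ⊗ₜ[k] a + (c * a) ⊗ₜ[k] b ∈ relB k A :=
      fun a b c => Submodule.subset_span (Or.inr ⟨_, _, _, rfl⟩)
    have h4 := Submodule.add_mem _ (Submodule.add_mem _ (h (T p) q r) (h p (T q) r)) (h p q (T r))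
    simp only [TensorProduct.add_tmul] at h4 ⊢
    convert h4 using 1
    abel

/-- The operator on `B(A)` induced by a derivation. -/
noncomputable def bOf (T : Module.End k A) (hT : ∀ x y, T (x * y) = T x * y + x * T y) :
    BB k A →ₗ[k] BB k A := Submodule.mapQ _ _ (tt T) (tt_relB hT)

theorem bOf_wed (T : Module.End k A) (hT : ∀ x y, T (x * y) = T x * y + x * T y) (p q : A) :
    bOf T hT (wed p q) = wed (T p) q + wed p (T q) := by
  show (relB k A).mkQ (tt T (p ⊗ₜ q)) = _
  rw [tt_tmul, map_add]
  rfl

variable [IsAlternative A]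

theorem relB_le : relB k A ≤ LinearMap.ker (TensorProduct.lift (dLin (k := k) (A := A))) := by
  unfold relB
  rw [Submodule.span_le]
  rintro t (⟨p, rfl⟩ | ⟨p, q, r, rfl⟩)
  · show TensorProduct.lift dLin (p ⊗ₜ p) = 0
    rw [TensorProduct.lift.tmul]
    ext x
    exact dfun_self p x
  · show TensorProduct.lift dLin (_ + _ + _) = 0
    rw [map_add, map_add, TensorProduct.lift.tmul, TensorProduct.lift.tmul, TensorProduct.lift.tmul]
    ext x
    exact dfun_cyc p q r x

/-- The map from `B(A)` to the derivations of `A`, which sends `p ∧ q` to `D_{p,q}`. -/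
noncomputable def DD : BB k A →ₗ[k] Module.End k A :=
  (relB k A).liftQ (TensorProduct.lift dLin) relB_le

theorem DD_wed (p q : A) : DD (wed (k := k) p q) = dEnd p q := rfl

theorem DD_mul (β : BB k A) (x y : A) : DD β (x * y) = DD β x * y + x * DD β y := by
  induction β using BB.induction with
  | h0 => simp
  | h1 p q => exact dfun_mul p q x y
  | h2 a b ha hb =>
    rw [map_add, LinearMap.add_apply, LinearMap.add_apply, LinearMap.add_apply, ha, hb, add_mul,
      mul_add]
    abel

/-- The action of `B(A)` on itself as a bilinear map. -/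
noncomputable def brB : BB k A →ₗ[k] BB k A →ₗ[k] BB k A :=
  LinearMap.mk₂ k (fun β γ => bOf (DD β) (DD_mul β) γ)
    (by
      intro a b c
      induction c using BB.induction with
      | h0 => simp
      | h1 p q =>
        rw [bOf_wed, bOf_wed, bOf_wed]
        simp only [map_add, LinearMap.add_apply, ← wedL_apply]
        abel
      | h2 x y hx hy =>
        rw [LinearMap.map_add (bOf (DD (a + b)) (DD_mul (a + b))),
          LinearMap.map_add (bOf (DD a) (DD_mul a)), LinearMap.map_add (bOf (DD b) (DD_mul b)),
          hx, hy]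
        abel)
    (by
      intro r a c
      induction c using BB.induction with
      | h0 => simp
      | h1 p q =>
        rw [bOf_wed, bOf_wed]
        simp only [map_smul, LinearMap.smul_apply, ← wedL_apply, smul_add]
      | h2 x y hx hy =>
        rw [LinearMap.map_add (bOf (DD (r • a)) (DD_mul (r • a))),
          LinearMap.map_add (bOf (DD a) (DD_mul a)), hx, hy, smul_add])
    (by intro a b c; rw [map_add])
    (by intro r a c; rw [map_smul])

theorem brB_wed (β : BB k A) (p q : A) : brB β (wed p q) = wed (DD β p) q + wed p (DD β q) :=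
  bOf_wed _ (DD_mul β) _ _

theorem DD_brB (β γ : BB k A) : DD (brB β γ) = DD β ∘ₗ DD γ - DD γ ∘ₗ DD β := by
  induction γ using BB.induction with
  | h0 => simp
  | h1 p q =>
    ext x
    rw [brB_wed, map_add, DD_wed, DD_wed, DD_wed]
    simp only [LinearMap.add_apply, LinearMap.sub_apply, LinearMap.comp_apply, dEnd_apply, dfun,
      map_add, map_sub, DD_mul]
    simp only [mul_add, add_mul]
    abel
  | h2 a b ha hb =>
    rw [map_add, map_add, ha, hb, map_add]
    ext x
    simp only [LinearMap.add_apply, LinearMap.sub_apply, LinearMap.comp_apply, map_add]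
    abel

theorem brB_leib (β γ δ : BB k A) :
    brB β (brB γ δ) = brB (brB β γ) δ + brB γ (brB β δ) := by
  induction δ using BB.induction with
  | h0 => simp
  | h1 p q =>
    rw [brB_wed, brB_wed, brB_wed, map_add, map_add, brB_wed, brB_wed, brB_wed, brB_wed, DD_brB]
    simp only [LinearMap.sub_apply, LinearMap.comp_apply, ← wedL_apply, map_sub,
      LinearMap.sub_apply]
    abel
  | h2 a b ha hb =>
    rw [map_add, map_add, ha, hb, map_add, map_add, map_add]
    abel

/-- The associator. -/
def asc (a b c : A) : A := (a * b) * c - a * (b * c)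

theorem asc_swap (a b c : A) : asc b a c = -asc a b c := by
  have h := hL a b c
  unfold asc
  linear_combination (norm := module) h

theorem asc_swap' (a b c : A) : asc a c b = -asc a b c := by
  have h := hR a b c
  unfold asc
  linear_combination (norm := module) h

theorem dfun_eq (p q r : A) :
    dfun p q r = (p * q - q * p) * r - r * (p * q - q * p) - (3 : ℤ) • asc p q r := by
  have h1 := asc_swap p q r
  have e1 : asc r q p = -asc p q r := by
    rw [asc_swap q r p, asc_swap' q p r, asc_swap p q r, neg_neg]
  have e2 : asc r p q = asc p q r := by rw [asc_swap p r q, asc_swap' p q r, neg_neg]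
  have h3 := asc_swap' p q r
  unfold dfun
  unfold asc at *
  simp only [mul_sub, sub_mul]
  linear_combination (norm := module) (1 : ℤ) • h1 + (1 : ℤ) • e1 - (1 : ℤ) • e2 - (1 : ℤ) • h3

theorem wed_comm3 (a b c : A) :
    wed (k := k) (a * b - b * a) c + wed b (a * c - c * a) = wed a (b * c - c * b) := by
  have h1 := wed_cyc (k := k) a b c
  have h2 := wed_cyc (k := k) b a c
  have h3 := wed_skew (k := k) (a * c) b
  have h4 := wed_skew (k := k) (c * a) b
  have h5 := wed_skew (k := k) (b * c) a
  have h6 := wed_skew (k := k) (c * b) a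
  simp only [← wedL_apply, map_sub, LinearMap.sub_apply] at *
  linear_combination (norm := module) h1 - h2 + h3 - h4 - h5 + h6

theorem wed_asc (p q r s : A) :
    wed (k := k) (asc p q r) s - wed (asc p q s) r + wed (asc p r s) q - wed (asc q r s) p = 0 := by
  have h1 := wed_cyc (k := k) (q * s) r p
  have h2 := wed_cyc (k := k) (p * q) s r
  have h3 := wed_cyc (k := k) (s * r) p q
  have h4 := wed_cyc (k := k) (r * p) q s
  have h5 := wed_skew (k := k) (r * p) (q * s)
  have h6 := wed_skew (k := k) (s * r) (p * q)
  have e1 : asc p q r = asc r p q := by rw [asc_swap p r q, asc_swap' p q r, neg_neg]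
  have e2 : asc p r s = -asc s r p := by
    rw [asc_swap r s p, asc_swap' r p s, asc_swap p r s, neg_neg, neg_neg]
  have e3 : asc q r s = -asc q s r := by rw [asc_swap' q s r]
  rw [e1, e2, e3]
  unfold asc
  simp only [← wedL_apply, map_sub, map_neg, LinearMap.sub_apply, LinearMap.neg_apply] at *
  linear_combination (norm := module) h1 - h2 - h3 + h4 - h5 + h6

theorem brB_skew (β γ : BB k A) : brB γ β = -brB β γ := by
  induction β using BB.induction with
  | h0 => simp
  | h1 p q =>
    induction γ using BB.induction with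
    | h0 => simp
    | h1 r s =>
      rw [brB_wed, brB_wed, DD_wed, DD_wed]
      simp only [dEnd_apply, dfun_eq]
      have h1 := wed_comm3 (k := k) (p * q - q * p) r s
      have h2 := wed_comm3 (k := k) (r * s - s * r) p q
      have h3 := wed_skew (k := k) (p * q - q * p) (r * s - s * r)
      have h4 := wed_asc (k := k) p q r s
      have h5 := wed_skew (k := k) (asc p q s) r
      have h6 := wed_skew (k := k) (asc q r s) p
      have e1 : asc r s p = asc p r s := by rw [asc_swap' r p s, asc_swap p r s, neg_neg]
      have e2 : asc r s q = asc q r s := by rw [asc_swap' r q s, asc_swap q r s, neg_neg]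
      rw [e1, e2]
      simp only [← wedL_apply, map_sub, map_zsmul, LinearMap.sub_apply, LinearMap.smul_apply] at *
      linear_combination (norm := module) h1 + h2 + h3 - (3 : ℤ) • h4 - (3 : ℤ) • h5 - (3 : ℤ) • h6
    | h2 a b ha hb =>
      rw [map_add, LinearMap.add_apply, ha, hb, map_add]
      abel
  | h2 a b ha hb =>
    rw [map_add, ha, hb, map_add, LinearMap.add_apply]
    abel

end B

end Q86.Abg
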