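import Pool.Agent.Q86.AbgLieB

set_option autoImplicit false
set_option linter.unusedSectionVars false
set_option linter.unusedSimpArgs false

/-!
# The Allison-Benkart-Gao Lie algebra: the Jacobi identity
-/

open TensorProduct

namespace Q86.Abg

universe u v

section C

variable {k : Type u} {A : Type v} [Field k] [CharZero k] [NonUnitalNonAssocRing A] [Module k A]
  [IsScalarTower k A A] [SMulCommClass k A A]

/-- The product `p · q = (pq + qp)/2`. -/
noncomputable def jorA : A →ₗ[k] A →ₗ[k] A :=
  (2⁻¹ : k) • (LinearMap.mul k A + (LinearMap.mul k A).flip)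

/-- The commutator. -/
noncomputable def comA : A →ₗ[k] A →ₗ[k] A := LinearMap.mul k A - (LinearMap.mul k A).flip

theorem jorA_apply (p q : A) : jorA (k := k) p q = (2⁻¹ : k) • (p * q + q * p) := rfl

theorem comA_apply (p q : A) : comA (k := k) p q = p * q - q * p := rfl

/-- The component in `sl_3 ⊗ A` of the bracket of `sl_3 ⊗ A`. -/
noncomputable def m1 : S k ⊗[k] A →ₗ[k] S k ⊗[k] A →ₗ[k] S k ⊗[k] A :=
  TensorProduct.map₂ lieS jorA + TensorProduct.map₂ jorL comA

/-- The component in `B(A)` of the bracket of `sl_3 ⊗ A`. -/
noncomputable def m2 : S k ⊗[k] A →ₗ[k] S k ⊗[k] A →ₗ[k] BB k A :=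
  (3⁻¹ : k) • (TensorProduct.map₂ trS wedL).compr₂ (TensorProduct.lid k (BB k A)).toLinearMap

theorem m1_tmul (X Y : S k) (p q : A) : m1 (X ⊗ₜ p) (Y ⊗ₜ q) =
    ⁅X, Y⁆ ⊗ₜ ((2⁻¹ : k) • (p * q + q * p)) + jorS X Y ⊗ₜ[k] (p * q - q * p) := rfl

theorem m2_tmul (X Y : S k) (p q : A) : m2 (X ⊗ₜ p) (Y ⊗ₜ q) =
    (3⁻¹ : k) • (trS X Y • wed p q) := rfl

theorem m1_skew (u v : S k ⊗[k] A) : m1 v u = -m1 u v := by
  induction u using TensorProduct.induction_on with
  | zero => simp
  | tmul X p =>
    induction v using TensorProduct.induction_on with
    | zero => simp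
    | tmul Y q =>
      rw [m1_tmul, m1_tmul, jorS_comm Y X, ← lie_skew X Y, add_comm (q * p) (p * q)]
      have : q * p - p * q = -(p * q - q * p) := by abel
      rw [this, TensorProduct.neg_tmul, TensorProduct.tmul_neg]
      abel
    | add a b ha hb =>
      rw [map_add, LinearMap.add_apply, ha, hb, map_add]
      abel
  | add a b ha hb =>
    rw [map_add, ha, hb, map_add, LinearMap.add_apply]
    abel

theorem m2_skew (u v : S k ⊗[k] A) : m2 v u = -m2 u v := by
  induction u using TensorProduct.induction_on with
  | zero => simp
  | tmul X p =>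
    induction v using TensorProduct.induction_on with
    | zero => simp
    | tmul Y q =>
      rw [m2_tmul, m2_tmul, trS_comm Y X, wed_skew p q]
      module
    | add a b ha hb =>
      rw [map_add, LinearMap.add_apply, ha, hb, map_add]
      abel
  | add a b ha hb =>
    rw [map_add, ha, hb, map_add, LinearMap.add_apply]
    abel

variable [IsAlternative A]

/-- The action of `B(A)` on `sl_3 ⊗ A`. -/
noncomputable def act : BB k A →ₗ[k] Module.End k (S k ⊗[k] A) :=
  (LinearMap.lTensorHom (S k)) ∘ₗ DD

theorem act_tmul (β : BB k A) (X : S k) (p : A) : act β (X ⊗ₜ p) = X ⊗ₜ DD β p := rfl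

theorem act_m1 (β : BB k A) (u v : S k ⊗[k] A) :
    act β (m1 u v) = m1 (act β u) v + m1 u (act β v) := by
  induction u using TensorProduct.induction_on with
  | zero => simp
  | tmul X p =>
    induction v using TensorProduct.induction_on with
    | zero => simp
    | tmul Y q =>
      rw [act_tmul, act_tmul, m1_tmul, m1_tmul, m1_tmul, map_add, act_tmul, act_tmul]
      simp only [map_smul, map_add, map_sub, DD_mul]
      simp only [TensorProduct.tmul_add, TensorProduct.tmul_sub, TensorProduct.tmul_smul]
      module
    | add a b ha hb =>
      rw [map_add, map_add, ha, hb, map_add, map_add, map_add]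
      abel
  | add a b ha hb =>
    rw [map_add, LinearMap.add_apply, map_add, ha, hb, map_add, map_add, LinearMap.add_apply,
      LinearMap.add_apply]
    abel

theorem brB_m2 (β : BB k A) (u v : S k ⊗[k] A) :
    brB β (m2 u v) = m2 (act β u) v + m2 u (act β v) := by
  induction u using TensorProduct.induction_on with
  | zero => simp
  | tmul X p =>
    induction v using TensorProduct.induction_on with
    | zero => simp
    | tmul Y q =>
      rw [act_tmul, act_tmul, m2_tmul, m2_tmul, m2_tmul, map_smul, map_smul, brB_wed]
      module
    | add a b ha hb =>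
      rw [map_add, map_add, ha, hb, map_add, map_add, map_add]
      abel
  | add a b ha hb =>
    rw [map_add, LinearMap.add_apply, map_add, ha, hb, map_add, map_add, LinearMap.add_apply,
      LinearMap.add_apply]
    abel

theorem act_brB (β γ : BB k A) (u : S k ⊗[k] A) :
    act (brB β γ) u = act β (act γ u) - act γ (act β u) := by
  induction u using TensorProduct.induction_on with
  | zero => simp
  | tmul X p =>
    rw [act_tmul, act_tmul, act_tmul, act_tmul, act_tmul, DD_brB]
    simp only [LinearMap.sub_apply, LinearMap.comp_apply, TensorProduct.tmul_sub]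
  | add a b ha hb =>
    rw [map_add, ha, hb, map_add, map_add, map_add, map_add]
    abel

theorem jac2 (u v w : S k ⊗[k] A) : m2 u (m1 v w) = m2 (m1 u v) w + m2 v (m1 u w) := by
  induction u using TensorProduct.induction_on with
  | zero => simp
  | tmul X p =>
    induction v using TensorProduct.induction_on with
    | zero => simp
    | tmul Y q =>
      induction w using TensorProduct.induction_on with
      | zero => simp
      | tmul Z r =>
        rw [m1_tmul, m1_tmul, m1_tmul, map_add, map_add, map_add, LinearMap.add_apply, m2_tmul,
          m2_tmul, m2_tmul, m2_tmul, m2_tmul, m2_tmul]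
        have e1 : trS X ⁅Y, Z⁆ = trS ⁅X, Y⁆ Z := trS_cyc X Y Z
        have e2 : trS Y ⁅X, Z⁆ = -trS ⁅X, Y⁆ Z := by
          rw [trS_cyc, ← lie_skew X Y, map_neg, LinearMap.neg_apply, neg_neg]
        have e3 : trS X (jorS Y Z) = trS (jorS X Y) Z := trS_jor X Y Z
        have e4 : trS Y (jorS X Z) = trS (jorS X Y) Z := by rw [trS_jor, jorS_comm]
        rw [e1, e2, e3, e4]
        have h1 := wed_cyc (k := k) p q r
        have h2 := wed_cyc (k := k) q p r
        have s1 := wed_skew (k := k) (q * r) p
        have s2 := wed_skew (k := k) (r * q) p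
        have s3 := wed_skew (k := k) (p * r) q
        have s4 := wed_skew (k := k) (r * p) q
        simp only [← wedL_apply, map_add, map_sub, map_smul, LinearMap.add_apply,
          LinearMap.sub_apply, LinearMap.smul_apply] at *
        rw [s1, s2, s3, s4]
        linear_combination (norm := skip) (-(3⁻¹ * trS ⁅X, Y⁆ Z * 2⁻¹ + 3⁻¹ * trS (jorS X Y) Z) : k) • h1 +
          (-(3⁻¹ * trS ⁅X, Y⁆ Z * 2⁻¹ - 3⁻¹ * trS (jorS X Y) Z) : k) • h2
        module
      | add a b ha hb =>
        simp only [map_add, LinearMap.add_apply, ha, hb]
        abel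
    | add a b ha hb =>
      simp only [map_add, LinearMap.add_apply, ha, hb]
      abel
  | add a b ha hb =>
    simp only [map_add, LinearMap.add_apply, ha, hb]
    abel

theorem jac1 (u v w : S k ⊗[k] A) : m1 u (m1 v w) - act (m2 v w) u =
    m1 (m1 u v) w + act (m2 u v) w + (m1 v (m1 u w) - act (m2 u w) v) := by
  induction u using TensorProduct.induction_on with
  | zero => simp
  | tmul X p =>
    induction v using TensorProduct.induction_on with
    | zero => simp
    | tmul Y q =>
      induction w using TensorProduct.induction_on with
      | zero => simp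
      | tmul Z r =>
        rw [m1_tmul, m1_tmul, m1_tmul, m2_tmul, m2_tmul, m2_tmul, map_add, map_add, map_add,
          LinearMap.add_apply, m1_tmul, m1_tmul, m1_tmul, m1_tmul, m1_tmul, m1_tmul]
        simp only [map_smul, LinearMap.smul_apply, act_tmul, DD_wed, dEnd_apply, dfun]
        simp only [mul_smul_comm, smul_mul_assoc, mul_add, add_mul, mul_sub, sub_mul]
        have g1 : p * (q * r) = (p * q) * r - asc p q r := by unfold asc; abel
        have g2 : q * (p * r) = (q * p) * r + asc p q r := by
          have := asc_swap p q r
          unfold asc at *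
          linear_combination (norm := module) (-1 : ℤ) • this
        have g3 : q * (r * p) = (q * r) * p - asc p q r := by
          have h1 := asc_swap p q r
          have h2 := asc_swap' q p r
          unfold asc at *
          linear_combination (norm := module) h1 - h2
        have g4 : r * (q * p) = (r * q) * p + asc p q r := by
          have h1 := asc_swap p q r
          have h2 := asc_swap' q p r
          have h3 := asc_swap q r p
          unfold asc at *
          linear_combination (norm := module) h2 - h1 - h3
        have g5 : r * (p * q) = (r * p) * q - asc p q r := by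
          have h1 := asc_swap' p q r
          have h2 := asc_swap p r q
          unfold asc at *
          linear_combination (norm := module) h1 - h2
        have g6 : p * (r * q) = (p * r) * q + asc p q r := by
          have := asc_swap' p q r
          unfold asc at *
          linear_combination (norm := module) (-1 : ℤ) • this
        rw [g1, g2, g3, g4, g5, g6]
        have t1 := congrArg (fun M => M ⊗ₜ[k] ((p * q) * r)) (mat1 X Y Z)
        have t2 := congrArg (fun M => M ⊗ₜ[k] ((q * p) * r)) (mat2 X Y Z)
        have t3 := congrArg (fun M => M ⊗ₜ[k] ((q * r) * p)) (mat3 X Y Z)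
        have t4 := congrArg (fun M => M ⊗ₜ[k] ((r * q) * p)) (mat4 X Y Z)
        have t5 := congrArg (fun M => M ⊗ₜ[k] ((r * p) * q)) (mat5 X Y Z)
        have t6 := congrArg (fun M => M ⊗ₜ[k] ((p * r) * q)) (mat6 X Y Z)
        have t7 := congrArg (fun M => M ⊗ₜ[k] (asc p q r)) (mat7 X Y Z)
        simp only [TensorProduct.add_tmul, ← TensorProduct.smul_tmul', TensorProduct.zero_tmul,
          TensorProduct.tmul_add, TensorProduct.tmul_sub, TensorProduct.tmul_smul] at t1 t2 t3 t4 t5 t6 t7 ⊢
        linear_combination (norm := module) t1 + t2 + t3 + t4 + t5 + t6 + t7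
      | add a b ha hb =>
        simp only [map_add, LinearMap.add_apply] at ha hb ⊢
        linear_combination (norm := module) ha + hb
    | add a b ha hb =>
      simp only [map_add, LinearMap.add_apply] at ha hb ⊢
      linear_combination (norm := module) ha + hb
  | add a b ha hb =>
    simp only [map_add, LinearMap.add_apply] at ha hb ⊢
    linear_combination (norm := module) ha + hb

end C

end Q86.Abg
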