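import Pool.Agent.Q86.AbgLieC
import Pool.Agent.Q86.AbgCE

set_option autoImplicit false
set_option linter.unusedSectionVars false

/-!
# The Allison-Benkart-Gao Lie algebra
-/

open TensorProduct

namespace Q86.Abg

universe u v

section D

variable (k : Type u) (A : Type v) [Field k] [CharZero k] [NonUnitalNonAssocRing A] [Module k A]
  [IsScalarTower k A A] [SMulCommClass k A A]

/-- The space `sl_3 ⊗ A ⊕ B(A)`. -/
def ABG : Type _ := (S k ⊗[k] A) × BB k A

noncomputable instance : AddCommGroup (ABG k A) :=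
  inferInstanceAs (AddCommGroup ((S k ⊗[k] A) × BB k A))

noncomputable instance : Module k (ABG k A) :=
  inferInstanceAs (Module k ((S k ⊗[k] A) × BB k A))

variable {k A} [IsAlternative A]

/-- The Lie bracket of Allison, Benkart and Gao: for `X, Y` in `sl_3` and `p, q, r, s` in `A`,
`[X ⊗ p, Y ⊗ q] = [X, Y] ⊗ p · q + {X, Y} ⊗ [p, q] + (1/3) tr(XY) p ∧ q`,
`[p ∧ q, X ⊗ r] = X ⊗ D_{p,q}(r)` and `[p ∧ q, r ∧ s] = D_{p,q}(r) ∧ s + r ∧ D_{p,q}(s)`. -/
noncomputable instance : LieRing (ABG k A) where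
  bracket x y := (m1 x.1 y.1 + act x.2 y.1 - act y.2 x.1, m2 x.1 y.1 + brB x.2 y.2)
  add_lie x y z := by
    apply Prod.ext
    · show m1 (x.1 + y.1) z.1 + act (x.2 + y.2) z.1 - act z.2 (x.1 + y.1) =
        m1 x.1 z.1 + act x.2 z.1 - act z.2 x.1 + (m1 y.1 z.1 + act y.2 z.1 - act z.2 y.1)
      simp only [map_add, LinearMap.add_apply]
      abel
    · show m2 (x.1 + y.1) z.1 + brB (x.2 + y.2) z.2 =
        m2 x.1 z.1 + brB x.2 z.2 + (m2 y.1 z.1 + brB y.2 z.2)
      simp only [map_add, LinearMap.add_apply]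
      abel
  lie_add x y z := by
    apply Prod.ext
    · show m1 x.1 (y.1 + z.1) + act x.2 (y.1 + z.1) - act (y.2 + z.2) x.1 =
        m1 x.1 y.1 + act x.2 y.1 - act y.2 x.1 + (m1 x.1 z.1 + act x.2 z.1 - act z.2 x.1)
      simp only [map_add, LinearMap.add_apply]
      abel
    · show m2 x.1 (y.1 + z.1) + brB x.2 (y.2 + z.2) =
        m2 x.1 y.1 + brB x.2 y.2 + (m2 x.1 z.1 + brB x.2 z.2)
      simp only [map_add]
      abel
  lie_self x := by
    have h1 := m1_skew x.1 x.1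
    have h2 := m2_skew x.1 x.1
    have h3 := brB_skew x.2 x.2
    have t : (2 : k) ≠ 0 := two_ne_zero
    apply Prod.ext
    · show m1 x.1 x.1 + act x.2 x.1 - act x.2 x.1 = 0
      have h4 : (2 : k) • m1 x.1 x.1 = 0 := by
        rw [two_smul]
        nth_rewrite 1 [h1]
        abel
      rw [(smul_eq_zero_iff_right t).1 h4]
      abel
    · show m2 x.1 x.1 + brB x.2 x.2 = 0
      have h4 : (2 : k) • m2 x.1 x.1 = 0 := by
        rw [two_smul]
        nth_rewrite 1 [h2]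
        abel
      have h5 : (2 : k) • brB x.2 x.2 = 0 := by
        rw [two_smul]
        nth_rewrite 1 [h3]
        abel
      rw [(smul_eq_zero_iff_right t).1 h4, (smul_eq_zero_iff_right t).1 h5, add_zero]
  leibniz_lie x y z := by
    have h1 := jac1 x.1 y.1 z.1
    have h2 := jac2 x.1 y.1 z.1
    have a1 := act_m1 x.2 y.1 z.1
    have a2 := act_m1 y.2 x.1 z.1
    have a3 := act_m1 z.2 x.1 y.1
    have b1 := act_brB y.2 z.2 x.1
    have b2 := act_brB x.2 y.2 z.1
    have b3 := act_brB x.2 z.2 y.1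
    have c1 := brB_m2 x.2 y.1 z.1
    have c2 := brB_m2 y.2 x.1 z.1
    have c3 := brB_m2 z.2 x.1 y.1
    have d1 := brB_leib x.2 y.2 z.2
    have s1 := m1_skew (act y.2 x.1) z.1
    have s2 := m1_skew y.1 (act z.2 x.1)
    have s3 := brB_skew (m2 x.1 y.1) z.2
    have s4 := m2_skew (act y.2 x.1) z.1
    have s5 := m2_skew y.1 (act z.2 x.1)
    apply Prod.ext
    · show m1 x.1 (m1 y.1 z.1 + act y.2 z.1 - act z.2 y.1) +
          act x.2 (m1 y.1 z.1 + act y.2 z.1 - act z.2 y.1) - act (m2 y.1 z.1 + brB y.2 z.2) x.1 =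
        m1 (m1 x.1 y.1 + act x.2 y.1 - act y.2 x.1) z.1 + act (m2 x.1 y.1 + brB x.2 y.2) z.1 -
          act z.2 (m1 x.1 y.1 + act x.2 y.1 - act y.2 x.1) +
        (m1 y.1 (m1 x.1 z.1 + act x.2 z.1 - act z.2 x.1) +
          act y.2 (m1 x.1 z.1 + act x.2 z.1 - act z.2 x.1) - act (m2 x.1 z.1 + brB x.2 z.2) y.1)
      simp only [map_add, map_sub, LinearMap.add_apply, LinearMap.sub_apply] at *
      linear_combination (norm := module) h1 + a1 - a2 + a3 - b1 - b2 + b3 + s2
    · show m2 x.1 (m1 y.1 z.1 + act y.2 z.1 - act z.2 y.1) + brB x.2 (m2 y.1 z.1 + brB y.2 z.2) =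
        m2 (m1 x.1 y.1 + act x.2 y.1 - act y.2 x.1) z.1 + brB (m2 x.1 y.1 + brB x.2 y.2) z.2 +
        (m2 y.1 (m1 x.1 z.1 + act x.2 z.1 - act z.2 x.1) + brB y.2 (m2 x.1 z.1 + brB x.2 z.2))
      simp only [map_add, map_sub, LinearMap.add_apply, LinearMap.sub_apply] at *
      linear_combination (norm := module) h2 + c1 - c2 + c3 + d1 - s3 + s5

theorem ABG.lie_def (x y : ABG k A) : ⁅x, y⁆ =
    ((m1 x.1 y.1 + act x.2 y.1 - act y.2 x.1, m2 x.1 y.1 + brB x.2 y.2) : ABG k A) := rfl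

noncomputable instance : LieAlgebra k (ABG k A) where
  lie_smul t x y := by
    apply Prod.ext
    · show m1 x.1 (t • y.1) + act x.2 (t • y.1) - act (t • y.2) x.1 =
        t • (m1 x.1 y.1 + act x.2 y.1 - act y.2 x.1)
      simp only [map_smul, LinearMap.smul_apply, smul_add, smul_sub]
    · show m2 x.1 (t • y.1) + brB x.2 (t • y.2) = t • (m2 x.1 y.1 + brB x.2 y.2)
      simp only [map_smul, smul_add]

end D

end Q86.Abg
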