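import Pool.Agent.Q86.AbgFinB

set_option autoImplicit false
set_option linter.unusedSectionVars false

/-!
# The homology of the Allison-Benkart-Gao Lie algebra of the free alternative algebra
-/

open Module TensorProduct Q5.AltChar

namespace Q86.Abg

universe u v w

section product

theorem prod_level {ι κ : Type u} (d : ι → ℕ) (e : κ → ℕ) (n : ℕ) (FA : Finset ι) (FB : Finset κ)
    (hA : ∀ a ∈ FA, d a = n) (hB : ∀ β ∈ FB, e β = n) :
    ∏ i ∈ ((Finset.univ ×ˢ FA).disjSum FB : Finset ((Fin 8 × ι) ⊕ κ)),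
      (1 - mono (dG d e i) (wG ι κ i)) = fac (mono n) (FA.card : ℕ) (FB.card : ℕ) := by
  rw [Finset.prod_disjSum, Finset.prod_product]
  have h1 : ∀ c : Fin 8, ∏ a ∈ FA, (1 - mono (dG d e (Sum.inl (c, a))) (wG ι κ (Sum.inl (c, a)))) =
      (1 - mono n (wS c)) ^ FA.card := by
    intro c
    rw [← Finset.prod_const]
    apply Finset.prod_congr rfl
    intro a ha
    show 1 - mono (d a) (wS c) = _
    rw [hA a ha]
  have h2 : ∏ β ∈ FB, (1 - mono (dG d e (Sum.inr β : (Fin 8 × ι) ⊕ κ)) (wG ι κ (Sum.inr β))) =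
      (1 - mono n (0, 0)) ^ FB.card := by
    rw [← Finset.prod_const]
    apply Finset.prod_congr rfl
    intro a ha
    show 1 - mono (e a) (0, 0) = _
    rw [hB a ha]
  rw [h2, Finset.prod_congr rfl (fun c _ => h1 c), fac_nat, Fin.prod_univ_eight]
  simp only [wS, Matrix.cons_val_zero, Matrix.cons_val_one, Matrix.cons_val]
  ring

/-- The basis vectors of one degree. -/
def lev {ι κ : Type u} (FA : Finset ι) (FB : Finset κ) : Finset (II ι κ) :=
  ((Finset.univ ×ˢ FA).disjSum FB : Finset ((Fin 8 × ι) ⊕ κ))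

theorem mem_lev {ι κ : Type u} {d : ι → ℕ} {e : κ → ℕ} {n : ℕ} {FA : Finset ι} {FB : Finset κ}
    (hA : ∀ a, a ∈ FA ↔ d a = n) (hB : ∀ β, β ∈ FB ↔ e β = n) (i : II ι κ) :
    i ∈ lev FA FB ↔ dG d e i = n := by
  rcases i with ⟨c, a⟩ | β
  · refine Iff.trans Finset.inl_mem_disjSum ?_
    rw [Finset.mem_product]
    exact ⟨fun h => (hA a).1 h.2, fun h => ⟨Finset.mem_univ _, (hA a).2 h⟩⟩
  · exact Iff.trans Finset.inr_mem_disjSum (hB β)

theorem prod_lev {ι κ : Type u} {d : ι → ℕ} {e : κ → ℕ} {n : ℕ} {FA : Finset ι} {FB : Finset κ}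
    (hA : ∀ a, a ∈ FA ↔ d a = n) (hB : ∀ β, β ∈ FB ↔ e β = n) :
    ∏ i ∈ lev FA FB, (1 - mono (dG d e i) (wG ι κ i)) = fac (mono n) (FA.card : ℕ) (FB.card : ℕ) :=
  prod_level d e n FA FB (fun a ha => (hA a).1 ha) (fun β hβ => (hB β).1 hβ)

variable {k : Type u} {A : Type u} [Field k] [CharZero k] [NonUnitalNonAssocRing A] [Module k A]
  [IsScalarTower k A A] [SMulCommClass k A A] [IsAlternative A]

/-- The number of basis vectors of degree `n`. -/
noncomputable def nA {V : Type u} [AddCommGroup V] [Module k V] {s : ℕ → Set V} (g : GB k V s)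
    (n : ℕ) : ℕ := {a | g.d a = n}.ncard

theorem prod_all {s : ℕ → Set A} (gA : GB k A s) (gB : GB k (BB k A) (sB s))
    {T : Module.End k A} (hT : ∀ x y, T (x * y) = T x * y + x * T y)
    (hs : ∀ n, ∀ x ∈ s n, T x = (n : k) • x) (h0 : s 0 = ∅) (N : ℕ) :
    ∏ i ∈ ((datG gA gB hT hs h0).fin N).toFinset,
      (1 - mono ((datG gA gB hT hs h0).dg i) ((datG gA gB hT hs h0).wt i)) =
      lam1 (fun n => (nA gA n : ℤ)) (fun n => (nA gB n : ℤ)) N := by
  classical
  have hpos := (datG gA gB hT hs h0).pos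
  induction N with
  | zero =>
    have h1 : ((datG gA gB hT hs h0).fin 0).toFinset = ∅ := by
      ext i
      rw [Set.Finite.mem_toFinset]
      constructor
      · intro h
        have h2 : (datG gA gB hT hs h0).dg i ≤ 0 := h
        have := hpos i
        omega
      · intro h
        exact absurd h (Finset.notMem_empty i)
    rw [h1]
    unfold lam1
    rw [Finset.prod_empty, Finset.prod_range_zero]
  | succ N ih =>
    have fA : {a | gA.d a = N + 1}.Finite :=
      (gA.fin (N + 1)).subset (fun a (ha : gA.d a = N + 1) => le_of_eq ha)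
    have fB : {a | gB.d a = N + 1}.Finite :=
      (gB.fin (N + 1)).subset (fun a (ha : gB.d a = N + 1) => le_of_eq ha)
    have hA : ∀ a, a ∈ fA.toFinset ↔ gA.d a = N + 1 := fun a => fA.mem_toFinset
    have hB : ∀ a, a ∈ fB.toFinset ↔ gB.d a = N + 1 := fun a => fB.mem_toFinset
    have h1 : ((datG gA gB hT hs h0).fin (N + 1)).toFinset =
        ((datG gA gB hT hs h0).fin N).toFinset ∪ lev fA.toFinset fB.toFinset := by
      ext i
      rw [Finset.mem_union, Set.Finite.mem_toFinset, Set.Finite.mem_toFinset, mem_lev hA hB]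
      show dG gA.d gB.d i ≤ N + 1 ↔ dG gA.d gB.d i ≤ N ∨ dG gA.d gB.d i = N + 1
      omega
    have h3 : Disjoint ((datG gA gB hT hs h0).fin N).toFinset (lev fA.toFinset fB.toFinset) := by
      rw [Finset.disjoint_left]
      intro i hi1 hi2
      rw [Set.Finite.mem_toFinset] at hi1
      rw [mem_lev hA hB] at hi2
      have h4 : dG gA.d gB.d i ≤ N := hi1
      omega
    rw [h1, Finset.prod_union h3, ih]
    refine Eq.trans (congrArg _ (prod_lev hA hB)) ?_
    unfold lam1
    rw [Finset.prod_range_succ]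
    congr 2
    · exact congrArg (Nat.cast (R := ℤ)) (Set.ncard_eq_toFinset_card _ fA).symm
    · exact congrArg (Nat.cast (R := ℤ)) (Set.ncard_eq_toFinset_card _ fB).symm

end product

section card

variable {k : Type u} [Field k] [CharZero k] {V : Type u} [AddCommGroup V] [Module k V]
  {s : ℕ → Set V} (g : GB k V s) {T : Module.End k V}

include g in
theorem card_le_nA (hs : ∀ n, ∀ x ∈ s n, T x = (n : k) • x) {J : Type} [Fintype J] {v : J → V}
    (hv : LinearIndependent k v) {n : ℕ} (hvn : ∀ j, v j ∈ s n) :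
    Fintype.card J ≤ nA g n := by
  have hF : {a | g.d a = n}.Finite :=
    (g.fin n).subset (fun a (ha : g.d a = n) => le_of_eq ha)
  have key : ∀ j, v j ∈ Submodule.span k (g.b '' {a | g.d a = n}) := by
    intro j
    rw [Basis.mem_span_image]
    intro i hi
    have hi' : g.b.repr (v j) i ≠ 0 := by simpa using hi
    have h5 : (g.b.coord i) ∘ₗ T = (g.d i : k) • g.b.coord i := by
      apply g.b.ext
      intro l
      show g.b.repr (T (g.b l)) i = (g.d i : k) * g.b.repr (g.b l) i
      rw [hs _ _ (g.mem l), map_smul, Basis.repr_self]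
      by_cases hij : l = i
      · subst hij; rfl
      · simp [Finsupp.single_eq_of_ne (Ne.symm hij)]
    have h7 := LinearMap.congr_fun h5 (v j)
    rw [LinearMap.comp_apply, hs n _ (hvn j), map_smul, LinearMap.smul_apply, Basis.coord_apply,
      smul_eq_mul, smul_eq_mul] at h7
    exact_mod_cast (mul_right_cancel₀ hi' h7).symm
  have hfin : (g.b '' {a | g.d a = n}).Finite := hF.image _
  have := hfin.fintype
  have : FiniteDimensional k (Submodule.span k (g.b '' {a | g.d a = n})) :=
    FiniteDimensional.span_of_finite k hfin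
  have h1 : LinearIndependent k (fun j => (⟨v j, key j⟩ :
      Submodule.span k (g.b '' {a | g.d a = n}))) := by
    apply LinearIndependent.of_comp (Submodule.subtype _)
    exact hv
  have h2 := h1.fintype_card_le_finrank
  have h3 := finrank_span_le_card (R := k) (g.b '' {a | g.d a = n})
  refine h2.trans (h3.trans ?_)
  rw [← Set.ncard_eq_toFinset_card']
  unfold nA
  exact Set.ncard_image_le hF

theorem nA_le {n : ℕ} (hfin : (s n).Finite) : nA g n ≤ (s n).ncard := by
  unfold nA
  have h1 : g.b '' {a | g.d a = n} ⊆ s n := by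
    rintro _ ⟨a, ha, rfl⟩
    have ha' : g.d a = n := ha
    rw [← ha']
    exact g.mem a
  rw [← Set.ncard_image_of_injective _ g.b.injective]
  exact Set.ncard_le_ncard h1 hfin

end card

section final

variable (k : Type u) [Field k] [CharZero k]

theorem main_aux
    (h1 : ∀ m, 2 ≤ m → m ≤ 9 →
      ¬ IsSummand k (ABG k (FreeAlt k 4)) (fun X => opL X) m k (fun _ => 0))
    (h2 : ∀ m, 2 ≤ m → m ≤ 9 →
      ¬ IsSummand k (ABG k (FreeAlt k 4)) (fun X => opL X) m (S k) (fun X => lieS X)) :
    False := by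
  obtain ⟨gA⟩ := exists_GB k (sF_finite k 4) (sF_span k 4)
  obtain ⟨gB⟩ := exists_GB k (sB_finite (k := k) (sF_finite k 4)) (sB_span (sF_span k 4))
  have hT := eF_mul k 4
  have hs : ∀ n, ∀ x ∈ sF k 4 n, eF k 4 x = (n : k) • x := fun n x hx => eF_of_mem k 4 hx
  have h0 := sF_zero k 4
  let D := datG gA gB hT hs h0
  have hA1 : nA gA 1 = 4 := by
    apply le_antisymm
    · exact (nA_le gA (sF_finite k 4 1)).trans (sF_one_card k 4)
    · have h3 := card_le_nA gA hs (linInd k 4 0) (n := 1)
        (fun v => ⟨_, len_magmaOf 4 0 v, rfl⟩)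
      simpa using h3
  have hA9 : 262144 ≤ nA gA 9 := by
    have h3 := card_le_nA gA hs (linInd k 4 8) (n := 9)
      (fun v => ⟨_, len_magmaOf 4 8 v, rfl⟩)
    rw [Fintype.card_fun, Fintype.card_fin, Fintype.card_fin] at h3
    norm_num at h3
    exact h3
  have hB1 : nA gB 1 = 0 := by
    unfold nA
    have h3 : {a | gB.d a = 1} = ∅ := by
      ext β
      simp only [Set.mem_ofPred_eq, Set.mem_empty_iff_false, iff_false]
      intro hβ
      obtain ⟨i, j, y, z, hy, hz, hij, h⟩ := gB.mem β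
      rw [hβ] at hij
      have h4 : i ≠ 0 := by
        rintro rfl
        rw [h0] at hy
        exact hy
      have h5 : j ≠ 0 := by
        rintro rfl
        rw [h0] at hz
        exact hz
      omega
    rw [h3, Set.ncard_empty]
  have hX : ∀ n, ∀ ν, D.X n ν =
      cfn (lam1 (fun n => (nA gA n : ℤ)) (fun n => (nA gB n : ℤ)) n) n ν := by
    intro n ν
    rw [← D.X_eq le_rfl ν]
    unfold cfn
    rw [← prod_all gA gB hT hs h0 n]
  have hgen : ∀ n, 2 ≤ n → ∀ w ∈ D.W 1 n, w ∈ bdy k (ABG k (FreeAlt k 4)) 1 := fun n hn w hw =>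
    gen_bdy gA gB hT hs h0 (fun m hm x hx => sF_prod k 4 hm hx) hn hw
  have hbig : ∀ j n, n < j → ∀ w : D.W j n, w.1 ∈ bdy k (ABG k (FreeAlt k 4)) j := by
    intro j n hjn w
    have h3 : IsEmpty (D.JW j n) := D.isEmpty_JW hjn
    have h4 : Subsingleton (D.W j n) := (D.bW j n).repr.toEquiv.subsingleton
    rw [Subsingleton.elim w 0]
    exact (bdy k (ABG k (FreeAlt k 4)) j).zero_mem
  have e1 : ∀ N, 1 ≤ N → N ≤ 8 →
      phi (cfn (lam1 (fun n => (nA gA n : ℤ)) (fun n => (nA gB n : ℤ)) (N + 1)) (N + 1)) = 0 := by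
    intro N hN hN8
    have h3 := D.euler (bT_wb k) (n := N + 1) (by omega) (by
      intro j hj φ hφ hc u
      by_cases hj2 : 2 ≤ j
      · by_cases hj9 : j ≤ 9
        · exact hex_triv (h1 j hj2 hj9) hφ hc u
        · exact hbig j (N + 1) (by omega) (φ u)
      · have hj1 : j = 1 := by omega
        subst hj1
        exact hgen (N + 1) (by omega) _ (φ u).2)
    rw [D.count (bT_wb k)] at h3
    rw [← h3]
    congr 1
    funext ν
    have h4 : ν + ((0 : ℤ), (0 : ℤ)) = ν := add_zero ν
    rw [← hX, Finset.univ_unique, Finset.sum_singleton, h4]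
  have e2 : ∀ N, 1 ≤ N → N ≤ 8 →
      phiA wS (cfn (lam1 (fun n => (nA gA n : ℤ)) (fun n => (nA gB n : ℤ)) (N + 1)) (N + 1)) = 0 := by
    intro N hN hN8
    have h3 := D.euler (bS_wb k) (n := N + 1) (by omega) (by
      intro j hj φ hφ hc u
      by_cases hj2 : 2 ≤ j
      · by_cases hj9 : j ≤ 9
        · exact hex_adj (h2 j hj2 hj9) hφ hc u
        · exact hbig j (N + 1) (by omega) (φ u)
      · have hj1 : j = 1 := by omega
        subst hj1
        exact hgen (N + 1) (by omega) _ (φ u).2)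
    rw [D.count (bS_wb k)] at h3
    rw [← h3]
    unfold phiA
    congr 1
    funext ν
    apply Finset.sum_congr rfl
    intro i _
    rw [← hX]
  have h3 := numeric hA1 hB1 e1 e2
  omega

/-- For some `m` with `2 ≤ m ≤ 9` the homology `H_m` of the Allison-Benkart-Gao Lie algebra of the
free alternative algebra with four generators has a trivial or an adjoint component. -/
theorem main : ∃ (A : Type u) (_ : NonUnitalNonAssocRing A) (_ : Module k A)
    (_ : IsScalarTower k A A) (_ : SMulCommClass k A A) (x : Fin 4 → A)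
    (L : Type u) (_ : LieRing L) (_ : LieAlgebra k L) (t : S k →ₗ[k] A →ₗ[k] L)
    (w : A →ₗ[k] A →ₗ[k] L) (θ : S k → L →ₗ[k] L) (m : ℕ),
    IsFreeAlternative k A x ∧ IsABG k A L t w ∧
    (∀ X Y p, θ X (t Y p) = t ⁅X, Y⁆ p) ∧ (∀ X p q, θ X (w p q) = 0) ∧ 2 ≤ m ∧ m ≤ 9 ∧
    (IsSummand k L θ m k (fun _ => 0) ∨ IsSummand k L θ m (S k) (fun X => lieS X)) := by
  by_contra hn
  apply main_aux k
  · intro m hm hm9 h
    exact hn ⟨FreeAlt k 4, inferInstance, inferInstance, inferInstance, inferInstance, _,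
      ABG k (FreeAlt k 4), inferInstance, inferInstance, tG k (FreeAlt k 4), wG' k (FreeAlt k 4),
      fun X => opL X, m, isFreeAlternative k 4, isABG, fun X Y p => rfl, fun X p q => rfl, hm, hm9,
      Or.inl h⟩
  · intro m hm hm9 h
    exact hn ⟨FreeAlt k 4, inferInstance, inferInstance, inferInstance, inferInstance, _,
      ABG k (FreeAlt k 4), inferInstance, inferInstance, tG k (FreeAlt k 4), wG' k (FreeAlt k 4),
      fun X => opL X, m, isFreeAlternative k 4, isABG, fun X Y p => rfl, fun X p q => rfl, hm, hm9,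
      Or.inr h⟩

end final

end Q86.Abg
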