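import Pool.Agent.Q86.AbgProd

set_option autoImplicit false
set_option linter.unusedSectionVars false

/-!
# The numerical recursion
-/

open Module Q5.AltChar

namespace Q86.Abg

/-- The entry of a table. -/
def ent (P : List (List (List ℤ))) (m : ℕ) (ν : ℤ × ℤ) : ℤ :=
  if 0 ≤ m + ν.1 ∧ 0 ≤ m + ν.2 then
    ((P.getD m []).getD (m + ν.2).toNat []).getD (m + ν.1).toNat 0 else 0

theorem cfn_eq {P : List (List (List ℤ))} {F : PowerSeries Tor} (h : Rep P F) {m : ℕ}
    (hm : m < 10) : cfn F m = ent P m := by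
  funext ν
  obtain ⟨a, b⟩ := ν
  have h1 := congrArg (fun f : Tor => f.coeff ((m + a : ℤ), (m + b : ℤ))) (h m hm)
  simp only [AddMonoidAlgebra.coeff_single_mul_apply, one_mul, coeff_val2] at h1
  unfold ent cfn
  rw [cf_apply]
  simp only
  rw [h1]
  congr 1
  ext <;> simp

theorem check1 : ∀ n < 7, phiA wS (ent (tab (n + 1)) (n + 2)) = valA (n + 2) ∧
    phi (ent (tab (n + 1)) (n + 2)) = valB (n + 2) := by
  decide +kernel

theorem check2 : phiA wS (ent (tab 8) 9) = 261176 := by
  decide +kernel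

theorem numeric {A B : ℕ → ℕ} (hA : A 1 = 4) (hB : B 1 = 0)
    (h1 : ∀ N, 1 ≤ N → N ≤ 8 →
      phi (cfn (lam1 (fun n => (A n : ℤ)) (fun n => (B n : ℤ)) (N + 1)) (N + 1)) = 0)
    (h2 : ∀ N, 1 ≤ N → N ≤ 8 →
      phiA wS (cfn (lam1 (fun n => (A n : ℤ)) (fun n => (B n : ℤ)) (N + 1)) (N + 1)) = 0) :
    A 9 = 261176 := by
  have key : ∀ n ≤ 7, ∀ m, 1 ≤ m → m ≤ n + 1 → A m = valA m ∧ B m = valB m := by
    intro n
    induction n with
    | zero =>
      intro _ m h3 h4
      have : m = 1 := by omega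
      subst this
      exact ⟨hA, hB⟩
    | succ n ih =>
      intro hn m h3 h4
      by_cases h5 : m ≤ n + 1
      · exact ih (by omega) m h3 h5
      · have h6 : m = n + 2 := by omega
        subst h6
        obtain ⟨h7, h8⟩ := recursion (h1 (n + 1) (by omega) (by omega)) (h2 (n + 1) (by omega) (by omega))
        have h9 : lam1 (fun n => (A n : ℤ)) (fun n => (B n : ℤ)) (n + 1) =
            lam1 (fun n => (valA n : ℤ)) (fun n => (valB n : ℤ)) (n + 1) := by
          apply lam1_congr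
          intro m hm1 hm2
          obtain ⟨h10, h11⟩ := ih (by omega) m hm1 hm2
          rw [h10, h11]
          exact ⟨rfl, rfl⟩
        rw [h9, cfn_eq (rep_tab (n + 1)) (by omega)] at h7 h8
        obtain ⟨h12, h13⟩ := check1 n (by omega)
        constructor
        · exact_mod_cast h7.trans h12
        · exact_mod_cast h8.trans h13
  obtain ⟨h7, _⟩ := recursion (h1 8 (by omega) le_rfl) (h2 8 (by omega) le_rfl)
  have h9 : lam1 (fun n => (A n : ℤ)) (fun n => (B n : ℤ)) 8 =
      lam1 (fun n => (valA n : ℤ)) (fun n => (valB n : ℤ)) 8 := by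
    apply lam1_congr
    intro m hm1 hm2
    obtain ⟨h10, h11⟩ := key 7 le_rfl m hm1 (by omega)
    rw [h10, h11]
    exact ⟨rfl, rfl⟩
  rw [h9, cfn_eq (rep_tab 8) (by omega)] at h7
  exact_mod_cast h7.trans check2

end Q86.Abg
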