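import Pool.Agent.Q86.AbgEuler
import Pool.Agent.Q5.AltChar.Final

set_option autoImplicit false
set_option linter.unusedSectionVars false

/-!
# The product formula for the Euler characteristic
-/

open Module Q5.AltChar

namespace Q86.Abg

universe u v w

/-- The coefficient as an additive map. -/
noncomputable def cf (ν : ℤ × ℤ) : Tor →+ ℤ where
  toFun f := f.coeff ν
  map_zero' := by simp
  map_add' f g := by simp

theorem cf_apply (ν : ℤ × ℤ) (f : Tor) : cf ν f = f.coeff ν := rfl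

theorem cf_single (ν μ : ℤ × ℤ) (c : ℤ) :
    cf ν (AddMonoidAlgebra.single μ c) = if μ = ν then c else 0 := by
  rw [cf_apply, AddMonoidAlgebra.coeff_single, Finsupp.single_apply]

/-- The delta function. -/
def dl (μ ν : ℤ × ℤ) : ℤ := if μ = ν then 1 else 0

theorem cf_single_one (ν μ : ℤ × ℤ) : cf ν (AddMonoidAlgebra.single μ 1) = dl μ ν :=
  cf_single ν μ 1

theorem mono_prod {ι : Type*} (t : Finset ι) (dg : ι → ℕ) (wt : ι → ℤ × ℤ) :
    ∏ i ∈ t, mono (dg i) (wt i) = mono (∑ i ∈ t, dg i) (∑ i ∈ t, wt i) := by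
  classical
  induction t using Finset.induction_on with
  | empty =>
    simp only [Finset.prod_empty, Finset.sum_empty]
    unfold mono
    have h1 : (AddMonoidAlgebra.single (0 : ℤ × ℤ) 1 : Tor) = 1 := rfl
    rw [h1, PowerSeries.monomial_zero_eq_C_apply, map_one]
  | insert a t ha ih =>
    rw [Finset.prod_insert ha, Finset.sum_insert ha, Finset.sum_insert ha, ih]
    unfold mono
    rw [PowerSeries.monomial_mul_monomial, AddMonoidAlgebra.single_mul_single, one_mul]

section dat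

variable {k : Type u} [Field k] [CharZero k] {L : Type v} [LieRing L] [LieAlgebra k L]
  [LieRingModule (S k) L] [LieModule k (S k) L] [SDer k L] {I : Type v} [LinearOrder I]
  (D : Dat k L I)

theorem Dat.X_eq {N n : ℕ} (hn : n ≤ N) (ν : ℤ × ℤ) :
    cf ν (PowerSeries.coeff n (∏ i ∈ (D.fin N).toFinset, (1 - mono (D.dg i) (D.wt i)))) =
      D.X n ν := by
  classical
  have h1 : ∏ i ∈ (D.fin N).toFinset, (1 - mono (D.dg i) (D.wt i)) =
      ∑ t ∈ (D.fin N).toFinset.powerset, (-1) ^ t.card * mono (D.dgF t) (D.wtF t) := by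
    simp only [sub_eq_add_neg]
    rw [Finset.prod_one_add]
    apply Finset.sum_congr rfl
    intro t _
    rw [Finset.prod_neg, mono_prod]
    rfl
  rw [h1, map_sum, map_sum]
  have h2 : ∀ t : Finset I, cf ν (PowerSeries.coeff n ((-1) ^ t.card * mono (D.dgF t) (D.wtF t))) =
      if D.dgF t = n then (-1) ^ t.card * (if D.wtF t = ν then 1 else 0) else 0 := by
    intro t
    rcases Nat.even_or_odd t.card with h | h
    · rw [h.neg_one_pow, h.neg_one_pow, one_mul, one_mul]
      unfold mono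
      rw [PowerSeries.coeff_monomial]
      by_cases h3 : D.dgF t = n
      · rw [if_pos h3.symm, if_pos h3, cf_single]
      · rw [if_neg (fun h => h3 h.symm), if_neg h3, map_zero]
    · rw [h.neg_one_pow, h.neg_one_pow, neg_one_mul, map_neg, map_neg]
      unfold mono
      rw [PowerSeries.coeff_monomial]
      by_cases h3 : D.dgF t = n
      · rw [if_pos h3.symm, if_pos h3, cf_single, neg_one_mul]
      · rw [if_neg (fun h => h3 h.symm), if_neg h3, map_zero, neg_zero]
  rw [Finset.sum_congr rfl (fun t _ => h2 t), ← Finset.sum_filter]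
  unfold Dat.X
  apply Finset.sum_congr _ (fun _ _ => rfl)
  ext t
  rw [Finset.mem_filter, Finset.mem_powerset, Set.Finite.mem_toFinset]
  constructor
  · rintro ⟨_, h3⟩
    exact h3
  · intro h3
    refine ⟨?_, h3⟩
    intro i hi
    rw [Set.Finite.mem_toFinset]
    have h4 : D.dg i ≤ D.dgF t := Finset.single_le_sum (f := D.dg) (fun _ _ => Nat.zero_le _) hi
    have h5 : D.dgF t = n := h3
    exact (h4.trans (le_of_eq h5)).trans hn

end dat

/-- The multiplicity of the adjoint module, as an alternating sum. -/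
def phiA (wS : Fin 8 → ℤ × ℤ) (f : ℤ × ℤ → ℤ) : ℤ := phi (fun μ => ∑ i, f (μ + wS i))

/-- The weights of the Chevalley basis. -/
def wS : Fin 8 → ℤ × ℤ := ![(1, 0), (0, 1), (1, 1), (-1, 0), (0, -1), (-1, -1), (0, 0), (0, 0)]

/-- The part of a coefficient. -/
noncomputable def cfn (F : PowerSeries Tor) (n : ℕ) (ν : ℤ × ℤ) : ℤ := cf ν (PowerSeries.coeff n F)

theorem coeff_step (F : PowerSeries Tor) {n : ℕ} (hn : 0 < n) (μ : ℤ × ℤ) (c : ℕ) :
    PowerSeries.coeff n (F * (1 - mono n μ) ^ c) =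
      PowerSeries.coeff n F - c • (AddMonoidAlgebra.single μ 1 * PowerSeries.coeff 0 F) := by
  have h := coeff_mul_one_sub_pow F hn μ c n
  unfold mono
  rw [h, Nat.div_self hn, Finset.sum_range_succ, Finset.sum_range_one, coef_eq, coef_eq]
  have h2 : (AddMonoidAlgebra.single (0 • μ) 1 : Tor) = 1 := by
    rw [zero_smul]; rfl
  rw [h2]
  simp only [pow_zero, Nat.choose_zero_right, Nat.cast_one, mul_one, one_smul, one_mul, mul_zero,
    Nat.sub_zero, pow_one, Nat.choose_one_right, neg_mul, neg_smul, Nat.sub_self]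
  rw [natCast_zsmul]
  abel

theorem coeff0_step (F : PowerSeries Tor) {n : ℕ} (hn : 0 < n) (μ : ℤ × ℤ) (c : ℕ) :
    PowerSeries.coeff 0 (F * (1 - mono n μ) ^ c) = PowerSeries.coeff 0 F := by
  have h := coeff_mul_one_sub_pow F hn μ c 0
  unfold mono
  rw [h, Nat.zero_div, Finset.sum_range_one, coef_eq]
  have h2 : (AddMonoidAlgebra.single (0 • μ) 1 : Tor) = 1 := by
    rw [zero_smul]; rfl
  rw [h2]
  simp

theorem coeff_fac (F : PowerSeries Tor) {n : ℕ} (hn : 0 < n) (A B : ℕ) (ν : ℤ × ℤ)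
    (h0 : PowerSeries.coeff 0 F = 1) :
    cf ν (PowerSeries.coeff n (F * fac (mono n) A B)) = cf ν (PowerSeries.coeff n F) -
      A * (∑ i, dl (wS i) ν) - B * dl (0, 0) ν := by
  rw [fac_nat]
  simp only [← mul_assoc]
  simp only [coeff_step _ hn, coeff0_step _ hn, h0, mul_one]
  simp only [map_sub, map_nsmul, cf_single_one]
  simp only [Fin.sum_univ_eight, wS, Matrix.cons_val_zero, Matrix.cons_val_one, Matrix.cons_val]
  simp only [nsmul_eq_mul]
  ring

theorem coeff0_fac (F : PowerSeries Tor) {n : ℕ} (hn : 0 < n) (A B : ℕ) :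
    PowerSeries.coeff 0 (F * fac (mono n) A B) = PowerSeries.coeff 0 F := by
  rw [fac_nat]
  simp only [← mul_assoc]
  simp only [coeff0_step _ hn]

theorem coeff0_lam1 (A B : ℕ → ℕ) (N : ℕ) :
    PowerSeries.coeff 0 (lam1 (fun n => (A n : ℤ)) (fun n => (B n : ℤ)) N) = 1 := by
  induction N with
  | zero =>
    unfold lam1
    rw [Finset.prod_range_zero]
    simp
  | succ N ih =>
    have h : lam1 (fun n => (A n : ℤ)) (fun n => (B n : ℤ)) (N + 1) =
        lam1 (fun n => (A n : ℤ)) (fun n => (B n : ℤ)) N *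
          fac (mono (N + 1)) (A (N + 1) : ℕ) (B (N + 1) : ℕ) := by
      unfold lam1
      rw [Finset.prod_range_succ]
    rw [h, coeff0_fac _ (by omega), ih]

/-- The recursion for the dimensions. -/
theorem recursion {A B : ℕ → ℕ} {N : ℕ}
    (h1 : phi (cfn (lam1 (fun n => (A n : ℤ)) (fun n => (B n : ℤ)) (N + 1)) (N + 1)) = 0)
    (h2 : phiA wS (cfn (lam1 (fun n => (A n : ℤ)) (fun n => (B n : ℤ)) (N + 1)) (N + 1)) = 0) :
    (A (N + 1) : ℤ) = phiA wS (cfn (lam1 (fun n => (A n : ℤ)) (fun n => (B n : ℤ)) N) (N + 1)) ∧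
    (B (N + 1) : ℤ) = phi (cfn (lam1 (fun n => (A n : ℤ)) (fun n => (B n : ℤ)) N) (N + 1)) := by
  have h : lam1 (fun n => (A n : ℤ)) (fun n => (B n : ℤ)) (N + 1) =
      lam1 (fun n => (A n : ℤ)) (fun n => (B n : ℤ)) N *
        fac (mono (N + 1)) (A (N + 1) : ℕ) (B (N + 1) : ℕ) := by
    unfold lam1
    rw [Finset.prod_range_succ]
  have h3 : ∀ ν, cfn (lam1 (fun n => (A n : ℤ)) (fun n => (B n : ℤ)) (N + 1)) (N + 1) ν =
      cfn (lam1 (fun n => (A n : ℤ)) (fun n => (B n : ℤ)) N) (N + 1) ν -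
      A (N + 1) * (∑ i, dl (wS i) ν) - B (N + 1) * dl (0, 0) ν := by
    intro ν
    unfold cfn
    rw [h, coeff_fac _ (by omega) _ _ _ (coeff0_lam1 A B N)]
  generalize cfn (lam1 (fun n => (A n : ℤ)) (fun n => (B n : ℤ)) (N + 1)) (N + 1) = X at *
  generalize cfn (lam1 (fun n => (A n : ℤ)) (fun n => (B n : ℤ)) N) (N + 1) = Y at *
  have hX : X = fun ν => Y ν - A (N + 1) * (∑ i, dl (wS i) ν) - B (N + 1) * dl (0, 0) ν := funext h3
  have e1 : phi X = phi Y - A (N + 1) * phi (fun ν => ∑ i, dl (wS i) ν) -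
      B (N + 1) * phi (dl (0, 0)) := by
    rw [hX]; unfold phi; ring
  have e2 : phiA wS X = phiA wS Y -
      A (N + 1) * phiA wS (fun ν => ∑ i, dl (wS i) ν) -
      B (N + 1) * phiA wS (dl (0, 0)) := by
    rw [hX]
    unfold phiA phi
    simp only [Finset.sum_sub_distrib, ← Finset.mul_sum]
    ring
  have c1 : phi (fun ν => ∑ i, dl (wS i) ν) = 0 := by decide
  have c2 : phi (dl (0, 0)) = 1 := by decide
  have c3 : phiA wS (fun ν => ∑ i, dl (wS i) ν) = 1 := by decide
  have c4 : phiA wS (dl (0, 0)) = 0 := by decide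
  rw [c1, c2, h1] at e1
  rw [c3, c4, h2] at e2
  constructor
  · linarith
  · linarith

end Q86.Abg
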