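import Pool.Agent.Q86.AbgCas

set_option autoImplicit false
set_option linter.unusedSectionVars false

/-!
# Weights and traces
-/

open Module

namespace Q86.Abg

universe u v

section

variable {k : Type u} [Field k] [CharZero k] {M : Type v} [AddCommGroup M] [Module k M]
  [LieRingModule (S k) M] [LieModule k (S k) M]

/-- The value of the first coroot on a weight which is given in the basis of simple roots. -/
def c1 (μ : ℤ × ℤ) : ℤ := 2 * μ.1 - μ.2

/-- The value of the second coroot on a weight which is given in the basis of simple roots. -/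
def c2 (μ : ℤ × ℤ) : ℤ := 2 * μ.2 - μ.1

theorem c12_inj {μ ν : ℤ × ℤ} (h1 : c1 μ = c1 ν) (h2 : c2 μ = c2 ν) : μ = ν := by
  unfold c1 at h1
  unfold c2 at h2
  ext <;> omega

theorem c1_add (μ ν : ℤ × ℤ) : c1 (μ + ν) = c1 μ + c1 ν := by
  simp only [c1, Prod.fst_add, Prod.snd_add]; ring

theorem c2_add (μ ν : ℤ × ℤ) : c2 (μ + ν) = c2 μ + c2 ν := by
  simp only [c2, Prod.fst_add, Prod.snd_add]; ring

variable (k) in
/-- The vector `v` has weight `μ`. -/
structure IsWt (μ : ℤ × ℤ) (v : M) : Prop where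
  h1 : ⁅xh1 k, v⁆ = (c1 μ : k) • v
  h2 : ⁅xh2 k, v⁆ = (c2 μ : k) • v

variable {J : Type*}

/-- A basis of weight vectors. -/
def WB (b : Basis J k M) (wt : J → ℤ × ℤ) : Prop := ∀ j, IsWt k (wt j) (b j)

theorem WB.repr_h1 {b : Basis J k M} {wt : J → ℤ × ℤ} (h : WB b wt) (v : M) (j : J) :
    b.repr ⁅xh1 k, v⁆ j = (c1 (wt j) : k) * b.repr v j := by
  have h1 : (b.coord j) ∘ₗ (op (xh1 k)) = (c1 (wt j) : k) • b.coord j := by
    apply b.ext
    intro i
    show b.repr ⁅xh1 k, b i⁆ j = (c1 (wt j) : k) * b.repr (b i) j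
    rw [(h i).h1, map_smul, b.repr_self]
    by_cases hij : i = j
    · subst hij; rfl
    · simp [Finsupp.single_eq_of_ne (Ne.symm hij)]
  exact LinearMap.congr_fun h1 v

theorem WB.repr_h2 {b : Basis J k M} {wt : J → ℤ × ℤ} (h : WB b wt) (v : M) (j : J) :
    b.repr ⁅xh2 k, v⁆ j = (c2 (wt j) : k) * b.repr v j := by
  have h1 : (b.coord j) ∘ₗ (op (xh2 k)) = (c2 (wt j) : k) • b.coord j := by
    apply b.ext
    intro i
    show b.repr ⁅xh2 k, b i⁆ j = (c2 (wt j) : k) * b.repr (b i) j
    rw [(h i).h2, map_smul, b.repr_self]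
    by_cases hij : i = j
    · subst hij; rfl
    · simp [Finsupp.single_eq_of_ne (Ne.symm hij)]
  exact LinearMap.congr_fun h1 v

theorem WB.repr_eq_zero {b : Basis J k M} {wt : J → ℤ × ℤ} (h : WB b wt) {μ : ℤ × ℤ} {v : M}
    (hv : IsWt k μ v) {j : J} (hj : wt j ≠ μ) : b.repr v j = 0 := by
  by_contra h0
  apply hj
  have e1 := h.repr_h1 v j
  have e2 := h.repr_h2 v j
  rw [hv.h1, map_smul, Finsupp.smul_apply, smul_eq_mul] at e1
  rw [hv.h2, map_smul, Finsupp.smul_apply, smul_eq_mul] at e2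
  have e3 := mul_right_cancel₀ h0 e1
  have e4 := mul_right_cancel₀ h0 e2
  exact (c12_inj (Int.cast_injective e3) (Int.cast_injective e4)).symm

/-- The projection to the weight space of weight `μ`. -/
noncomputable def proj (b : Basis J k M) (wt : J → ℤ × ℤ) (μ : ℤ × ℤ) : Module.End k M :=
  b.constr k (fun j => if wt j = μ then b j else 0)

theorem proj_basis (b : Basis J k M) (wt : J → ℤ × ℤ) (μ : ℤ × ℤ) (j : J) :
    proj b wt μ (b j) = if wt j = μ then b j else 0 := b.constr_basis _ _ _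

theorem repr_proj (b : Basis J k M) (wt : J → ℤ × ℤ) (μ : ℤ × ℤ) (v : M) (j : J) :
    b.repr (proj b wt μ v) j = if wt j = μ then b.repr v j else 0 := by
  have h1 : (b.coord j) ∘ₗ (proj b wt μ) = if wt j = μ then b.coord j else 0 := by
    apply b.ext
    intro i
    show b.repr (proj b wt μ (b i)) j = _
    rw [proj_basis]
    by_cases hij : i = j
    · subst hij
      split_ifs <;> simp
    · split_ifs <;> simp [hij, Finsupp.single_eq_of_ne (Ne.symm hij)]
  have h2 := LinearMap.congr_fun h1 v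
  rw [LinearMap.comp_apply, Basis.coord_apply] at h2
  rw [h2]
  split_ifs <;> rfl

theorem WB.proj_of_isWt {b : Basis J k M} {wt : J → ℤ × ℤ} (h : WB b wt) {μ ν : ℤ × ℤ} {v : M}
    (hv : IsWt k μ v) : proj b wt ν v = if ν = μ then v else 0 := by
  apply b.repr.injective
  ext j
  rw [repr_proj]
  by_cases h1 : wt j = ν
  · rw [if_pos h1]
    by_cases h2 : ν = μ
    · rw [if_pos h2]
    · rw [if_neg h2, map_zero]
      exact h.repr_eq_zero hv (by rw [h1]; exact h2)
  · rw [if_neg h1]
    by_cases h2 : ν = μ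
    · rw [if_pos h2]
      exact (h.repr_eq_zero hv (by rw [← h2]; exact h1)).symm
    · rw [if_neg h2, map_zero]
      rfl

/-- An operator which shifts the weights by `α` intertwines the projections. -/
theorem WB.proj_comm {b : Basis J k M} {wt : J → ℤ × ℤ} (h : WB b wt) {T : Module.End k M}
    {α : ℤ × ℤ} (hT1 : op (xh1 k) * T - T * op (xh1 k) = (c1 α : k) • T)
    (hT2 : op (xh2 k) * T - T * op (xh2 k) = (c2 α : k) • T) (ν : ℤ × ℤ) :
    T * proj b wt ν = proj b wt (ν + α) * T := by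
  apply b.ext
  intro j
  have h1 : IsWt k (wt j + α) (T (b j)) := by
    constructor
    · have e := LinearMap.congr_fun hT1 (b j)
      have e' : ⁅xh1 k, T (b j)⁆ - T ⁅xh1 k, b j⁆ = (c1 α : k) • T (b j) := e
      rw [(h j).h1, map_smul] at e'
      rw [c1_add, Int.cast_add, add_smul]
      linear_combination (norm := module) e'
    · have e := LinearMap.congr_fun hT2 (b j)
      have e' : ⁅xh2 k, T (b j)⁆ - T ⁅xh2 k, b j⁆ = (c2 α : k) • T (b j) := e
      rw [(h j).h2, map_smul] at e'
      rw [c2_add, Int.cast_add, add_smul]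
      linear_combination (norm := module) e'
  show T (proj b wt ν (b j)) = proj b wt (ν + α) (T (b j))
  rw [proj_basis, h.proj_of_isWt h1]
  by_cases h2 : wt j = ν
  · rw [if_pos h2, if_pos (by rw [h2])]
  · rw [if_neg h2, if_neg, map_zero]
    intro h3
    exact h2 (add_right_cancel h3).symm

theorem WB.h1_proj {b : Basis J k M} {wt : J → ℤ × ℤ} (h : WB b wt) (ν : ℤ × ℤ) :
    op (xh1 k) * proj b wt ν = (c1 ν : k) • proj b wt ν := by
  apply b.ext
  intro j
  show ⁅xh1 k, proj b wt ν (b j)⁆ = (c1 ν : k) • proj b wt ν (b j)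
  rw [proj_basis]
  split_ifs with h1
  · rw [(h j).h1, h1]
  · simp

theorem WB.h2_proj {b : Basis J k M} {wt : J → ℤ × ℤ} (h : WB b wt) (ν : ℤ × ℤ) :
    op (xh2 k) * proj b wt ν = (c2 ν : k) • proj b wt ν := by
  apply b.ext
  intro j
  show ⁅xh2 k, proj b wt ν (b j)⁆ = (c2 ν : k) • proj b wt ν (b j)
  rw [proj_basis]
  split_ifs with h1
  · rw [(h j).h2, h1]
  · simp

/-- The trace of an operator on a weight space. -/
noncomputable def wtr (b : Basis J k M) (wt : J → ℤ × ℤ) (P : Module.End k M) (μ : ℤ × ℤ) : k :=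
  LinearMap.trace k M (P * proj b wt μ)

theorem wtr_step {b : Basis J k M} {wt : J → ℤ × ℤ} {P E F H : Module.End k M}
    {μ μ' : ℤ × ℤ} {c : k} (hE : E * proj b wt μ = proj b wt μ' * E)
    (hH : H * proj b wt μ' = c • proj b wt μ') (hEF : E * F - F * E = H)
    (hPE : P * E = E * P) :
    wtr b wt (P * (F * E)) μ = wtr b wt (P * (F * E)) μ' + c * wtr b wt P μ' := by
  unfold wtr
  have e1 : P * (F * E) * proj b wt μ = (P * F * proj b wt μ') * E := by
    rw [mul_assoc, mul_assoc, hE]
    noncomm_ring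
  rw [e1, LinearMap.trace_mul_comm]
  have e2 : E * (P * F * proj b wt μ') = P * (F * E) * proj b wt μ' + c • (P * proj b wt μ') := by
    have e3 : E * (P * F * proj b wt μ') = P * (E * F) * proj b wt μ' := by
      rw [← mul_assoc, ← mul_assoc, ← hPE]
      noncomm_ring
    have e4 : E * F = F * E + H := by rw [← hEF]; noncomm_ring
    rw [e3, e4, mul_add, add_mul, mul_assoc P H, hH, mul_smul_comm]
  rw [e2, map_add, map_smul, smul_eq_mul]

end

end Q86.Abg
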