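import Pool.Agent.Q86.AbgRep

set_option autoImplicit false
set_option linter.unusedSectionVars false

/-!
# The dimension of the space of invariants
-/

open Module

namespace Q86.Abg

universe u v

/-- The alternating sum over the Weyl group of the values at `ρ - w ρ`. -/
def phi {R : Type*} [AddCommGroup R] (f : ℤ × ℤ → R) : R :=
  f (0, 0) - f (1, 0) - f (0, 1) + f (2, 1) + f (1, 2) - f (2, 2)

section

variable {k : Type u} [Field k] [CharZero k] {M : Type v} [AddCommGroup M] [Module k M]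
  [LieRingModule (S k) M] [LieModule k (S k) M] {J : Type*}

theorem WB.e1_proj {b : Basis J k M} {wt : J → ℤ × ℤ} (h : WB b wt) (ν : ℤ × ℤ) :
    op (xe1 k) * proj b wt ν = proj b wt (ν + (1, 0)) * op (xe1 k) := by
  apply h.proj_comm
  · rw [op_lie, lie_h1_e1, op_smul]; norm_num [c1]
  · rw [op_lie, lie_h2_e1, op_smul]; norm_num [c2]

theorem WB.e2_proj {b : Basis J k M} {wt : J → ℤ × ℤ} (h : WB b wt) (ν : ℤ × ℤ) :
    op (xe2 k) * proj b wt ν = proj b wt (ν + (0, 1)) * op (xe2 k) := by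
  apply h.proj_comm
  · rw [op_lie, lie_h1_e2, op_smul]; norm_num [c1]
  · rw [op_lie, lie_h2_e2, op_smul]; norm_num [c2]

theorem WB.e3_proj {b : Basis J k M} {wt : J → ℤ × ℤ} (h : WB b wt) (ν : ℤ × ℤ) :
    op (xe3 k) * proj b wt ν = proj b wt (ν + (1, 1)) * op (xe3 k) := by
  apply h.proj_comm
  · rw [op_lie, lie_h1_e3, op_smul]; norm_num [c1]
  · rw [op_lie, lie_h2_e3, op_smul]; norm_num [c2]

theorem WB.f1_proj {b : Basis J k M} {wt : J → ℤ × ℤ} (h : WB b wt) (ν : ℤ × ℤ) :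
    op (xf1 k) * proj b wt ν = proj b wt (ν + (-1, 0)) * op (xf1 k) := by
  apply h.proj_comm
  · rw [op_lie, lie_h1_f1, op_smul]; norm_num [c1]
  · rw [op_lie, lie_h2_f1, op_smul]; norm_num [c2]

theorem WB.f2_proj {b : Basis J k M} {wt : J → ℤ × ℤ} (h : WB b wt) (ν : ℤ × ℤ) :
    op (xf2 k) * proj b wt ν = proj b wt (ν + (0, -1)) * op (xf2 k) := by
  apply h.proj_comm
  · rw [op_lie, lie_h1_f2, op_smul]; norm_num [c1]
  · rw [op_lie, lie_h2_f2, op_smul]; norm_num [c2]

theorem WB.f3_proj {b : Basis J k M} {wt : J → ℤ × ℤ} (h : WB b wt) (ν : ℤ × ℤ) :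
    op (xf3 k) * proj b wt ν = proj b wt (ν + (-1, -1)) * op (xf3 k) := by
  apply h.proj_comm
  · rw [op_lie, lie_h1_f3, op_smul]; norm_num [c1]
  · rw [op_lie, lie_h2_f3, op_smul]; norm_num [c2]

theorem WB.h3_proj {b : Basis J k M} {wt : J → ℤ × ℤ} (h : WB b wt) (ν : ℤ × ℤ) :
    op (xh1 k + xh2 k) * proj b wt ν = ((c1 ν + c2 ν : ℤ) : k) • proj b wt ν := by
  rw [op_add, add_mul, h.h1_proj, h.h2_proj, ← add_smul, Int.cast_add]

/-- The eigenvalue of the Casimir operator on a highest weight vector. -/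
def cv (μ : ℤ × ℤ) : ℤ := 6 * (μ.1 ^ 2 - μ.1 * μ.2 + μ.2 ^ 2) + 6 * (μ.1 + μ.2)

theorem WB.cas_proj {b : Basis J k M} {wt : J → ℤ × ℤ} (h : WB b wt) (P : Module.End k M)
    (μ : ℤ × ℤ) : wtr b wt (P * cas k M) μ = (cv μ : k) * wtr b wt P μ +
      6 * (wtr b wt (P * (op (xf1 k) * op (xe1 k))) μ +
        wtr b wt (P * (op (xf2 k) * op (xe2 k))) μ +
        wtr b wt (P * (op (xf3 k) * op (xe3 k))) μ) := by
  have h1 := h.h1_proj μ
  have h2 := h.h2_proj μ
  have e : P * cas k M * proj b wt μ = (cv μ : k) • (P * proj b wt μ) +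
      (6 : k) • (P * (op (xf1 k) * op (xe1 k)) * proj b wt μ +
        P * (op (xf2 k) * op (xe2 k)) * proj b wt μ +
        P * (op (xf3 k) * op (xe3 k)) * proj b wt μ) := by
    have e1 : (2 : Module.End k M) * (op (xh1 k) * op (xh1 k) + op (xh1 k) * op (xh2 k) +
        op (xh2 k) * op (xh2 k)) * proj b wt μ + 6 * (op (xh1 k) + op (xh2 k)) * proj b wt μ =
        (cv μ : k) • proj b wt μ := by
      have a1 : op (xh1 k) * op (xh1 k) * proj b wt μ = ((c1 μ : k) * (c1 μ : k)) • proj b wt μ := by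
        rw [mul_assoc, h1, mul_smul_comm, h1, smul_smul]
      have a2 : op (xh1 k) * op (xh2 k) * proj b wt μ = ((c2 μ : k) * (c1 μ : k)) • proj b wt μ := by
        rw [mul_assoc, h2, mul_smul_comm, h1, smul_smul]
      have a3 : op (xh2 k) * op (xh2 k) * proj b wt μ = ((c2 μ : k) * (c2 μ : k)) • proj b wt μ := by
        rw [mul_assoc, h2, mul_smul_comm, h2, smul_smul]
      have b1 : (2 : Module.End k M) * (op (xh1 k) * op (xh1 k) + op (xh1 k) * op (xh2 k) +
        op (xh2 k) * op (xh2 k)) * proj b wt μ = (2 : k) • (op (xh1 k) * op (xh1 k) * proj b wt μ +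
          op (xh1 k) * op (xh2 k) * proj b wt μ + op (xh2 k) * op (xh2 k) * proj b wt μ) := by
        rw [two_smul]
        noncomm_ring
      have b2 : (6 : Module.End k M) * (op (xh1 k) + op (xh2 k)) * proj b wt μ =
          (6 : k) • (op (xh1 k) * proj b wt μ + op (xh2 k) * proj b wt μ) := by
        have : (6 : k) = ((6 : ℕ) : k) := by norm_num
        rw [this, Nat.cast_smul_eq_nsmul]
        noncomm_ring
      rw [b1, b2, a1, a2, a3, h1, h2]
      have c : (cv μ : k) = 2 * ((c1 μ : k) * c1 μ + (c2 μ : k) * c1 μ + (c2 μ : k) * c2 μ) +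
          6 * (c1 μ + c2 μ) := by
        unfold cv c1 c2
        push_cast
        ring
      rw [c]
      module
    have e2 : P * cas k M * proj b wt μ = P * ((2 : Module.End k M) * (op (xh1 k) * op (xh1 k) +
        op (xh1 k) * op (xh2 k) +
        op (xh2 k) * op (xh2 k)) * proj b wt μ + 6 * (op (xh1 k) + op (xh2 k)) * proj b wt μ) +
        (6 : ℕ) • (P * (op (xf1 k) * op (xe1 k)) * proj b wt μ +
        P * (op (xf2 k) * op (xe2 k)) * proj b wt μ +
        P * (op (xf3 k) * op (xe3 k)) * proj b wt μ) := by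
      unfold cas
      noncomm_ring
    have : (6 : k) = ((6 : ℕ) : k) := by norm_num
    rw [e2, e1, mul_smul_comm, this, Nat.cast_smul_eq_nsmul]
  unfold wtr
  rw [e, map_add, map_smul, map_smul, map_add, map_add, smul_eq_mul, smul_eq_mul]

/-- The telescoping identity. -/
theorem WB.tele {b : Basis J k M} {wt : J → ℤ × ℤ} (h : WB b wt) {P : Module.End k M}
    (hP1 : P * op (xe1 k) = op (xe1 k) * P) (hP2 : P * op (xe2 k) = op (xe2 k) * P)
    (hP3 : P * op (xe3 k) = op (xe3 k) * P) : phi (wtr b wt (P * cas k M)) = 0 := by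
  have q1 : (op (xe1 k) * op (xf1 k) - op (xf1 k) * op (xe1 k) : Module.End k M) = op (xh1 k) := by
    rw [op_lie, lie_e1_f1]
  have q2 : (op (xe2 k) * op (xf2 k) - op (xf2 k) * op (xe2 k) : Module.End k M) = op (xh2 k) := by
    rw [op_lie, lie_e2_f2]
  have q3 : (op (xe3 k) * op (xf3 k) - op (xf3 k) * op (xe3 k) : Module.End k M) =
      op (xh1 k + xh2 k) := by
    rw [op_lie, lie_e3_f3]
  have s1 := fun ν => wtr_step (b := b) (wt := wt) (h.e1_proj ν) (h.h1_proj _) q1 hP1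
  have s2 := fun ν => wtr_step (b := b) (wt := wt) (h.e2_proj ν) (h.h2_proj _) q2 hP2
  have s3 := fun ν => wtr_step (b := b) (wt := wt) (h.e3_proj ν) (h.h3_proj _) q3 hP3
  unfold phi
  simp only [h.cas_proj]
  have a1 := s1 (0, 0)
  have a2 := s1 (0, 1)
  have a3 := s1 (1, 1)
  have a4 := s1 (1, 2)
  have b1 := s2 (0, 0)
  have b2 := s2 (1, 0)
  have b3 := s2 (1, 1)
  have b4 := s2 (2, 1)
  have c1' := s3 (0, 0)
  have c2' := s3 (1, 1)
  have c3' := s3 (1, 0)
  have c4' := s3 (0, 1)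
  simp only [Prod.mk_add_mk, c1, c2, cv] at a1 a2 a3 a4 b1 b2 b3 b4 c1' c2' c3' c4' ⊢
  norm_num at a1 a2 a3 a4 b1 b2 b3 b4 c1' c2' c3' c4' ⊢
  linear_combination 6 * (a1 - a2 - a3 + a4) + 6 * (b1 - b2 - b3 + b4) +
    6 * (c1' + c2' - c3' - c4')

end

end Q86.Abg
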