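import Pool.Agent.Q86.AbgRep2

set_option autoImplicit false
set_option linter.unusedSectionVars false

/-!
# The dimension of the space of invariants
-/

open Module Polynomial

namespace Q86.Abg

universe u v w

section poly

variable {k : Type u} [Field k] {M : Type v} [AddCommGroup M] [Module k M]

theorem aeval_comm {Ω E : Module.End k M} (h : Ω * E = E * Ω) (p : k[X]) :
    aeval Ω p * E = E * aeval Ω p := by
  induction p using Polynomial.induction_on with
  | C a => simp [Algebra.commutes]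
  | add p q hp hq => rw [map_add, add_mul, mul_add, hp, hq]
  | monomial n a _ =>
    rw [map_mul, aeval_C, map_pow, aeval_X]
    have h1 : Ω ^ (n + 1) * E = E * Ω ^ (n + 1) := (Commute.pow_left h (n + 1) : _)
    rw [mul_assoc, h1, ← mul_assoc, ← mul_assoc, Algebra.commutes]

theorem aeval_intertwine {N : Type w} [AddCommGroup N] [Module k N] {Ω : Module.End k M}
    {Ω' : Module.End k N} {f : M →ₗ[k] N} (h : ∀ v, f (Ω v) = Ω' (f v)) (p : k[X]) (v : M) :
    f (aeval Ω p v) = aeval Ω' p (f v) := by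
  induction p using Polynomial.induction_on generalizing v with
  | C a => simp [Algebra.algebraMap_eq_smul_one]
  | add p q hp hq => simp [hp, hq]
  | monomial n a _ =>
    rw [map_mul, aeval_C, map_pow, aeval_X, map_mul, aeval_C, map_pow, aeval_X]
    have h1 : ∀ n v, f ((Ω ^ n) v) = (Ω' ^ n) (f v) := by
      intro n
      induction n with
      | zero => intro v; rfl
      | succ n ih =>
        intro v
        rw [pow_succ, pow_succ]
        show f ((Ω ^ n) (Ω v)) = (Ω' ^ n) (Ω' (f v))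
        rw [ih, h]
    simp only [Module.End.mul_apply, Algebra.algebraMap_eq_smul_one, LinearMap.smul_apply,
      Module.End.one_apply, map_smul, h1]

/-- There is a polynomial projection to the generalized kernel. -/
theorem exists_poly [FiniteDimensional k M] (Ω : Module.End k M) :
    ∃ (p : k[X]) (N : ℕ), Ω ^ N * (1 - aeval Ω p * Ω) = 0 := by
  have hm : minpoly k Ω ≠ 0 := minpoly.ne_zero (Algebra.IsIntegral.isIntegral Ω)
  obtain ⟨q, hq1, hq2⟩ := exists_eq_pow_rootMultiplicity_mul_and_not_dvd (minpoly k Ω) hm 0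
  rw [C_0, sub_zero, X_dvd_iff] at hq2
  have h0 := minpoly.aeval k Ω
  rw [hq1, C_0, sub_zero, map_mul, map_pow, aeval_X] at h0
  have h1 := divX_mul_X_add q
  rw [← h1, map_add, map_mul, aeval_X, aeval_C] at h0
  refine ⟨-C (q.coeff 0)⁻¹ * q.divX, rootMultiplicity 0 (minpoly k Ω), ?_⟩
  have h2 : (1 : Module.End k M) - aeval Ω (-C (q.coeff 0)⁻¹ * q.divX) * Ω =
      (aeval Ω q.divX * Ω + algebraMap k (Module.End k M) (q.coeff 0)) *
        algebraMap k (Module.End k M) (q.coeff 0)⁻¹ := by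
    rw [map_mul, map_neg, aeval_C, add_mul, ← map_mul, mul_inv_cancel₀ hq2, map_one,
      ← Algebra.commutes (q.coeff 0)⁻¹ (aeval Ω q.divX * Ω)]
    noncomm_ring
  rw [h2, ← mul_assoc, h0, zero_mul]

end poly

section

variable {k : Type u} [Field k] [CharZero k]

theorem S.decomp (X : S k) : X = X.1 0 1 • xe1 k + X.1 1 2 • xe2 k + X.1 0 2 • xe3 k +
    X.1 1 0 • xf1 k + X.1 2 1 • xf2 k + X.1 2 0 • xf3 k + X.1 0 0 • xh1 k +
    (X.1 0 0 + X.1 1 1) • xh2 k := by
  have hX := X.trace_eq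
  apply Subtype.ext
  simp only [S.add_val, S.smul_val, xe1_val, xe2_val, xe3_val, xf1_val, xf2_val, xf3_val, xh1_val,
    xh2_val]
  apply Matrix.ext
  intro i j
  fin_cases i <;> fin_cases j <;> simp [Matrix.single, hX]
  ring

variable {M : Type v} [AddCommGroup M] [Module k M]
  [LieRingModule (S k) M] [LieModule k (S k) M] {J : Type*}

/-- The invariants. -/
def inv (k : Type u) [Field k] (M : Type v) [AddCommGroup M] [Module k M]
    [LieRingModule (S k) M] [LieModule k (S k) M] : Submodule k M where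
  carrier := {v | ∀ X : S k, ⁅X, v⁆ = 0}
  add_mem' {v w} hv hw X := by rw [lie_add, hv, hw, add_zero]
  zero_mem' X := lie_zero X
  smul_mem' c v hv X := by rw [lie_smul, hv, smul_zero]

theorem mem_inv {v : M} : v ∈ inv k M ↔ ∀ X : S k, ⁅X, v⁆ = 0 := Iff.rfl

theorem mem_inv_of {v : M} (h1 : ⁅xe1 k, v⁆ = 0) (h2 : ⁅xe2 k, v⁆ = 0) (h3 : ⁅xf1 k, v⁆ = 0)
    (h4 : ⁅xf2 k, v⁆ = 0) : v ∈ inv k M := by
  have h5 : ⁅xe3 k, v⁆ = 0 := by
    rw [← lie_e1_e2, lie_lie, h1, h2, lie_zero, lie_zero, sub_zero]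
  have h6 : ⁅xf3 k, v⁆ = 0 := by
    have : ⁅-xf3 k, v⁆ = 0 := by
      rw [← lie_f1_f2, lie_lie, h3, h4, lie_zero, lie_zero, sub_zero]
    rwa [neg_lie, neg_eq_zero] at this
  have h7 : ⁅xh1 k, v⁆ = 0 := by
    rw [← lie_e1_f1, lie_lie, h1, h3, lie_zero, lie_zero, sub_zero]
  have h8 : ⁅xh2 k, v⁆ = 0 := by
    rw [← lie_e2_f2, lie_lie, h2, h4, lie_zero, lie_zero, sub_zero]
  intro X
  rw [S.decomp X]
  simp only [add_lie, smul_lie, h1, h2, h3, h4, h5, h6, h7, h8, smul_zero, add_zero]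

theorem cas_apply_of_mem {v : M} (h : v ∈ inv k M) : cas k M v = 0 := by
  have h' : ∀ X : S k, op X v = 0 := h
  unfold cas
  simp only [LinearMap.add_apply, Module.End.mul_apply, h', map_zero, add_zero, map_add]

theorem cas_e3 : cas k M * op (xe3 k) = op (xe3 k) * cas k M := by
  have h1 := cas_e1 k M
  have h2 := cas_e2 k M
  have h3 : (op (xe3 k) : Module.End k M) = op (xe1 k) * op (xe2 k) - op (xe2 k) * op (xe1 k) := by
    rw [op_lie, lie_e1_e2]
  rw [h3, mul_sub, sub_mul, ← mul_assoc, h1, mul_assoc, h2, ← mul_assoc (cas k M), h2, mul_assoc,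
    h1]
  noncomm_ring

theorem cas_h1 : cas k M * op (xh1 k) = op (xh1 k) * cas k M := by
  have h1 := cas_e1 k M
  have h2 := cas_f1 k M
  have h3 : (op (xh1 k) : Module.End k M) = op (xe1 k) * op (xf1 k) - op (xf1 k) * op (xe1 k) := by
    rw [op_lie, lie_e1_f1]
  rw [h3, mul_sub, sub_mul, ← mul_assoc, h1, mul_assoc, h2, ← mul_assoc (cas k M), h2, mul_assoc,
    h1]
  noncomm_ring

theorem cas_h2 : cas k M * op (xh2 k) = op (xh2 k) * cas k M := by
  have h1 := cas_e2 k M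
  have h2 := cas_f2 k M
  have h3 : (op (xh2 k) : Module.End k M) = op (xe2 k) * op (xf2 k) - op (xf2 k) * op (xe2 k) := by
    rw [op_lie, lie_e2_f2]
  rw [h3, mul_sub, sub_mul, ← mul_assoc, h1, mul_assoc, h2, ← mul_assoc (cas k M), h2, mul_assoc,
    h1]
  noncomm_ring

/-- The height of a weight. -/
def ht (μ : ℤ × ℤ) : ℤ := μ.1 + μ.2

theorem WB.eq_zero_of_ht {b : Basis J k M} {wt : J → ℤ × ℤ} (h : WB b wt) {μ : ℤ × ℤ} {v : M}
    (hv : IsWt k μ v) (hj : ∀ j, wt j ≠ μ) : v = 0 := by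
  apply b.repr.injective
  ext j
  rw [h.repr_eq_zero hv (hj j), map_zero]
  rfl

theorem isWt_lie {μ α : ℤ × ℤ} {v : M} (hv : IsWt k μ v) {X : S k}
    (h1 : ⁅xh1 k, X⁆ = (c1 α : k) • X) (h2 : ⁅xh2 k, X⁆ = (c2 α : k) • X) :
    IsWt k (μ + α) ⁅X, v⁆ := by
  constructor
  · rw [leibniz_lie, h1, hv.h1, smul_lie, lie_smul, c1_add, Int.cast_add, add_smul, add_comm]
  · rw [leibniz_lie, h2, hv.h2, smul_lie, lie_smul, c2_add, Int.cast_add, add_smul, add_comm]

theorem isWt_e1 {μ : ℤ × ℤ} {v : M} (hv : IsWt k μ v) : IsWt k (μ + (1, 0)) ⁅xe1 k, v⁆ :=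
  isWt_lie hv (by rw [lie_h1_e1]; norm_num [c1]) (by rw [lie_h2_e1]; norm_num [c2])

theorem isWt_e2 {μ : ℤ × ℤ} {v : M} (hv : IsWt k μ v) : IsWt k (μ + (0, 1)) ⁅xe2 k, v⁆ :=
  isWt_lie hv (by rw [lie_h1_e2]; norm_num [c1]) (by rw [lie_h2_e2]; norm_num [c2])

theorem isWt_f1 {μ : ℤ × ℤ} {v : M} (hv : IsWt k μ v) : IsWt k (μ + (-1, 0)) ⁅xf1 k, v⁆ :=
  isWt_lie hv (by rw [lie_h1_f1]; norm_num [c1]) (by rw [lie_h2_f1]; norm_num [c2])

theorem isWt_f2 {μ : ℤ × ℤ} {v : M} (hv : IsWt k μ v) : IsWt k (μ + (0, -1)) ⁅xf2 k, v⁆ :=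
  isWt_lie hv (by rw [lie_h1_f2]; norm_num [c1]) (by rw [lie_h2_f2]; norm_num [c2])

theorem pow_comm_apply {Ω E : Module.End k M} (h : Ω * E = E * Ω) (N : ℕ) {v : M}
    (hv : (Ω ^ N) v = 0) : (Ω ^ N) (E v) = 0 := by
  have h1 : Ω ^ N * E = E * Ω ^ N := (Commute.pow_left h N : _)
  have h2 := LinearMap.congr_fun h1 v
  rw [Module.End.mul_apply, Module.End.mul_apply, hv, map_zero] at h2
  exact h2

theorem cas_hw {μ : ℤ × ℤ} {v : M} (hv : IsWt k μ v) (h1 : ⁅xe1 k, v⁆ = 0)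
    (h2 : ⁅xe2 k, v⁆ = 0) : cas k M v = (cv μ : k) • v := by
  have h3 : ⁅xe3 k, v⁆ = 0 := by
    rw [← lie_e1_e2, lie_lie, h1, h2, lie_zero, lie_zero, sub_zero]
  have e1 : op (xh1 k) v = (c1 μ : k) • v := hv.h1
  have e2 : op (xh2 k) v = (c2 μ : k) • v := hv.h2
  have e3 : op (xe1 k) v = 0 := h1
  have e4 : op (xe2 k) v = 0 := h2
  have e5 : op (xe3 k) v = 0 := h3
  have c : (cv μ : k) = 2 * ((c1 μ : k) * c1 μ + (c2 μ : k) * c1 μ + (c2 μ : k) * c2 μ) +
      6 * (c1 μ + c2 μ) := by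
    unfold cv c1 c2
    push_cast
    ring
  have t2 : ∀ w : M, (2 : Module.End k M) w = (2 : k) • w := by
    intro w
    have : (2 : Module.End k M) = (2 : k) • (1 : Module.End k M) := by
      rw [two_smul]; norm_num
    rw [this]; rfl
  have t6 : ∀ w : M, (6 : Module.End k M) w = (6 : k) • w := by
    intro w
    have h6 : (6 : k) = ((6 : ℕ) : k) := by norm_num
    rw [h6, Nat.cast_smul_eq_nsmul]
    rfl
  unfold cas
  simp only [LinearMap.add_apply, Module.End.mul_apply, e1, e2, e3, e4, e5, map_smul, map_zero,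
    t2, t6, add_zero, smul_zero]
  rw [c]
  module

theorem cas_lw {μ : ℤ × ℤ} {v : M} (hv : IsWt k μ v) (h1 : ⁅xf1 k, v⁆ = 0)
    (h2 : ⁅xf2 k, v⁆ = 0) : cas k M v = (cv (-μ) : k) • v := by
  have h3 : ⁅xf3 k, v⁆ = 0 := by
    have : ⁅-xf3 k, v⁆ = 0 := by
      rw [← lie_f1_f2, lie_lie, h1, h2, lie_zero, lie_zero, sub_zero]
    rwa [neg_lie, neg_eq_zero] at this
  have e1 : op (xh1 k) v = (c1 μ : k) • v := hv.h1
  have e2 : op (xh2 k) v = (c2 μ : k) • v := hv.h2
  have g1 : op (xf1 k) (op (xe1 k) v) = -((c1 μ : k) • v) := by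
    show ⁅xf1 k, ⁅xe1 k, v⁆⁆ = _
    rw [leibniz_lie, h1, lie_zero, add_zero, ← lie_skew, lie_e1_f1, neg_lie, hv.h1]
  have g2 : op (xf2 k) (op (xe2 k) v) = -((c2 μ : k) • v) := by
    show ⁅xf2 k, ⁅xe2 k, v⁆⁆ = _
    rw [leibniz_lie, h2, lie_zero, add_zero, ← lie_skew, lie_e2_f2, neg_lie, hv.h2]
  have g3 : op (xf3 k) (op (xe3 k) v) = -((c1 μ : k) • v) - (c2 μ : k) • v := by
    show ⁅xf3 k, ⁅xe3 k, v⁆⁆ = _
    rw [leibniz_lie, h3, lie_zero, add_zero, ← lie_skew, lie_e3_f3, neg_lie, add_lie, hv.h1, hv.h2]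
    abel
  have c : (cv (-μ) : k) = 2 * ((c1 μ : k) * c1 μ + (c2 μ : k) * c1 μ + (c2 μ : k) * c2 μ) -
      6 * (c1 μ + c2 μ) := by
    unfold cv c1 c2
    simp only [Prod.fst_neg, Prod.snd_neg]
    push_cast
    ring
  have t2 : ∀ w : M, (2 : Module.End k M) w = (2 : k) • w := by
    intro w
    have : (2 : Module.End k M) = (2 : k) • (1 : Module.End k M) := by
      rw [two_smul]; norm_num
    rw [this]; rfl
  have t6 : ∀ w : M, (6 : Module.End k M) w = (6 : k) • w := by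
    intro w
    have h6 : (6 : k) = ((6 : ℕ) : k) := by norm_num
    rw [h6, Nat.cast_smul_eq_nsmul]
    rfl
  unfold cas
  simp only [LinearMap.add_apply, Module.End.mul_apply, e1, e2, g1, g2, g3, map_smul,
    t2, t6]
  rw [c]
  module

theorem cv_pos {μ : ℤ × ℤ} (h : 0 < ht μ) : 0 < cv μ := by
  unfold ht at h
  unfold cv
  nlinarith [sq_nonneg (μ.1 - μ.2), sq_nonneg (μ.1 + μ.2), sq_nonneg μ.1, sq_nonneg μ.2]

theorem eq_zero_of_pow {Ω : Module.End k M} {c : k} {v : M} (h : Ω v = c • v) (hc : c ≠ 0)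
    {N : ℕ} (hv : (Ω ^ N) v = 0) : v = 0 := by
  have h1 : ∀ N : ℕ, (Ω ^ N) v = c ^ N • v := by
    intro N
    induction N with
    | zero => simp
    | succ N ih =>
      rw [pow_succ', Module.End.mul_apply, ih, map_smul, h, smul_smul, pow_succ]
  rw [h1] at hv
  exact (smul_eq_zero_iff_right (pow_ne_zero N hc)).1 hv

theorem WB.up {b : Basis J k M} {wt : J → ℤ × ℤ} (h : WB b wt) {B : ℤ}
    (hB : ∀ j, ht (wt j) ≤ B) (N : ℕ) : ∀ (n : ℕ) (μ : ℤ × ℤ) (v : M), IsWt k μ v →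
      ((cas k M) ^ N) v = 0 → 0 < ht μ → B - ht μ < n → v = 0 := by
  intro n
  induction n with
  | zero =>
    intro μ v hv _ _ h2
    apply h.eq_zero_of_ht hv
    intro j hj
    have := hB j
    rw [hj] at this
    push_cast at h2
    omega
  | succ n ih =>
    intro μ v hv h0 h1 h2
    have k1 : ⁅xe1 k, v⁆ = 0 := by
      refine ih _ _ (isWt_e1 hv) (pow_comm_apply (cas_e1 k M) N h0) ?_ ?_
      · unfold ht at *; simp only [Prod.fst_add, Prod.snd_add]; omega
      · unfold ht at *; simp only [Prod.fst_add, Prod.snd_add]; push_cast at h2; omega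
    have k2 : ⁅xe2 k, v⁆ = 0 := by
      refine ih _ _ (isWt_e2 hv) (pow_comm_apply (cas_e2 k M) N h0) ?_ ?_
      · unfold ht at *; simp only [Prod.fst_add, Prod.snd_add]; omega
      · unfold ht at *; simp only [Prod.fst_add, Prod.snd_add]; push_cast at h2; omega
    refine eq_zero_of_pow (cas_hw hv k1 k2) ?_ h0
    have := cv_pos h1
    exact_mod_cast this.ne'

theorem WB.down {b : Basis J k M} {wt : J → ℤ × ℤ} (h : WB b wt) {B : ℤ}
    (hB : ∀ j, -B ≤ ht (wt j)) (N : ℕ) : ∀ (n : ℕ) (μ : ℤ × ℤ) (v : M), IsWt k μ v →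
      ((cas k M) ^ N) v = 0 → ht μ < 0 → B + ht μ < n → v = 0 := by
  intro n
  induction n with
  | zero =>
    intro μ v hv _ _ h2
    apply h.eq_zero_of_ht hv
    intro j hj
    have := hB j
    rw [hj] at this
    push_cast at h2
    omega
  | succ n ih =>
    intro μ v hv h0 h1 h2
    have k1 : ⁅xf1 k, v⁆ = 0 := by
      refine ih _ _ (isWt_f1 hv) (pow_comm_apply (cas_f1 k M) N h0) ?_ ?_
      · unfold ht at *; simp only [Prod.fst_add, Prod.snd_add]; omega
      · unfold ht at *; simp only [Prod.fst_add, Prod.snd_add]; push_cast at h2; omega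
    have k2 : ⁅xf2 k, v⁆ = 0 := by
      refine ih _ _ (isWt_f2 hv) (pow_comm_apply (cas_f2 k M) N h0) ?_ ?_
      · unfold ht at *; simp only [Prod.fst_add, Prod.snd_add]; omega
      · unfold ht at *; simp only [Prod.fst_add, Prod.snd_add]; push_cast at h2; omega
    refine eq_zero_of_pow (cas_lw hv k1 k2) ?_ h0
    have h3 : 0 < ht (-μ) := by unfold ht at *; simp only [Prod.fst_neg, Prod.snd_neg]; omega
    have := cv_pos h3
    exact_mod_cast this.ne'

theorem isWt_proj (b : Basis J k M) (wt : J → ℤ × ℤ) (h : WB b wt) (μ : ℤ × ℤ) (v : M) :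
    IsWt k μ (proj b wt μ v) := by
  constructor
  · exact LinearMap.congr_fun (h.h1_proj μ) v
  · exact LinearMap.congr_fun (h.h2_proj μ) v

/-- The generalized kernel of the Casimir operator consists of invariants. -/
theorem WB.mem_inv_of_pow [Finite J] {b : Basis J k M} {wt : J → ℤ × ℤ} (h : WB b wt) {N : ℕ}
    {v : M} (hv : ((cas k M) ^ N) v = 0) : v ∈ inv k M := by
  have := Fintype.ofFinite J
  obtain ⟨B, hB1, hB2⟩ : ∃ B : ℤ, (∀ j, ht (wt j) ≤ B) ∧ ∀ j, -B ≤ ht (wt j) := by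
    refine ⟨∑ j, |ht (wt j)|, fun j => ?_, fun j => ?_⟩
    · exact (le_abs_self _).trans (Finset.single_le_sum (f := fun j => |ht (wt j)|)
        (fun i _ => abs_nonneg _) (Finset.mem_univ j))
    · have h1 := (neg_le_abs (ht (wt j))).trans (Finset.single_le_sum (f := fun j => |ht (wt j)|)
        (fun i _ => abs_nonneg _) (Finset.mem_univ j))
      linarith
  have key : ∀ μ w, IsWt k μ w → ((cas k M) ^ N) w = 0 → ht μ ≠ 0 → w = 0 := by
    intro μ w hw h0 h1
    rcases lt_or_gt_of_ne h1 with h2 | h2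
    · exact h.down hB2 N (B + ht μ).toNat.succ μ w hw h0 h2 (by push_cast; omega)
    · exact h.up hB1 N (B - ht μ).toNat.succ μ w hw h0 h2 (by push_cast; omega)
  have hw : ∀ μ w, IsWt k μ w → ((cas k M) ^ N) w = 0 → w ∈ inv k M := by
    intro μ w hw h0
    by_cases h1 : ht μ = 0
    · apply mem_inv_of
      · refine key _ _ (isWt_e1 hw) (pow_comm_apply (cas_e1 k M) N h0) ?_
        unfold ht at *; simp only [Prod.fst_add, Prod.snd_add]; omega
      · refine key _ _ (isWt_e2 hw) (pow_comm_apply (cas_e2 k M) N h0) ?_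
        unfold ht at *; simp only [Prod.fst_add, Prod.snd_add]; omega
      · refine key _ _ (isWt_f1 hw) (pow_comm_apply (cas_f1 k M) N h0) ?_
        unfold ht at *; simp only [Prod.fst_add, Prod.snd_add]; omega
      · refine key _ _ (isWt_f2 hw) (pow_comm_apply (cas_f2 k M) N h0) ?_
        unfold ht at *; simp only [Prod.fst_add, Prod.snd_add]; omega
    · rw [key μ w hw h0 h1]
      exact Submodule.zero_mem _
  have hs : v = ∑ μ ∈ Finset.univ.image wt, proj b wt μ v := by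
    apply b.repr.injective
    ext j
    rw [map_sum, Finsupp.finset_sum_apply]
    simp only [repr_proj]
    rw [Finset.sum_ite_eq]
    simp
  rw [hs]
  apply Submodule.sum_mem
  intro μ _
  refine hw μ _ (isWt_proj b wt h μ v) ?_
  have hc : cas k M * proj b wt μ = proj b wt μ * cas k M := by
    have := h.proj_comm (T := cas k M) (α := (0, 0)) (by
      rw [cas_h1]; simp [c1]) (by rw [cas_h2]; simp [c2]) μ
    rw [this]
    congr 2
    ext <;> simp
  exact pow_comm_apply hc N hv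

end

end Q86.Abg
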