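import Pool.Agent.Q86.AbgLie

set_option autoImplicit false
set_option linter.unusedSectionVars false

/-!
# The Chevalley basis of `sl_3`
-/

namespace Q86.Abg

universe u v

section

variable (k : Type u) [Field k] [CharZero k]

attribute [local instance 100] LieRing.ofAssociativeRing

/-- The elements of the Chevalley basis. -/
def xe1 : S k := LieAlgebra.SpecialLinear.single 0 1 (by decide) 1
/-- The elements of the Chevalley basis. -/
def xe2 : S k := LieAlgebra.SpecialLinear.single 1 2 (by decide) 1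
/-- The elements of the Chevalley basis. -/
def xe3 : S k := LieAlgebra.SpecialLinear.single 0 2 (by decide) 1
/-- The elements of the Chevalley basis. -/
def xf1 : S k := LieAlgebra.SpecialLinear.single 1 0 (by decide) 1
/-- The elements of the Chevalley basis. -/
def xf2 : S k := LieAlgebra.SpecialLinear.single 2 1 (by decide) 1
/-- The elements of the Chevalley basis. -/
def xf3 : S k := LieAlgebra.SpecialLinear.single 2 0 (by decide) 1
/-- The elements of the Chevalley basis. -/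
def xh1 : S k := LieAlgebra.SpecialLinear.singleSubSingle 0 1 1
/-- The elements of the Chevalley basis. -/
def xh2 : S k := LieAlgebra.SpecialLinear.singleSubSingle 1 2 1

theorem xe1_val : (xe1 k).1 = Matrix.single 0 1 1 := rfl
theorem xe2_val : (xe2 k).1 = Matrix.single 1 2 1 := rfl
theorem xe3_val : (xe3 k).1 = Matrix.single 0 2 1 := rfl
theorem xf1_val : (xf1 k).1 = Matrix.single 1 0 1 := rfl
theorem xf2_val : (xf2 k).1 = Matrix.single 2 1 1 := rfl
theorem xf3_val : (xf3 k).1 = Matrix.single 2 0 1 := rfl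
theorem xh1_val : (xh1 k).1 = Matrix.single 0 0 1 - Matrix.single 1 1 1 := rfl
theorem xh2_val : (xh2 k).1 = Matrix.single 1 1 1 - Matrix.single 2 2 1 := rfl

theorem lie_e1_e2 : ⁅xe1 k, xe2 k⁆ = xe3 k := by
  apply Subtype.ext; rw [S.lie_val, xe1_val, xe2_val, xe3_val]; simp
theorem lie_e1_e3 : ⁅xe1 k, xe3 k⁆ = 0 := by
  apply Subtype.ext; rw [S.lie_val, xe1_val, xe3_val, S.zero_val]; simp
theorem lie_e2_e3 : ⁅xe2 k, xe3 k⁆ = 0 := by
  apply Subtype.ext; rw [S.lie_val, xe2_val, xe3_val, S.zero_val]; simp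
theorem lie_f1_f2 : ⁅xf1 k, xf2 k⁆ = -xf3 k := by
  apply Subtype.ext; rw [S.lie_val, xf1_val, xf2_val, S.neg_val, xf3_val]; simp
theorem lie_f1_f3 : ⁅xf1 k, xf3 k⁆ = 0 := by
  apply Subtype.ext; rw [S.lie_val, xf1_val, xf3_val, S.zero_val]; simp
theorem lie_f2_f3 : ⁅xf2 k, xf3 k⁆ = 0 := by
  apply Subtype.ext; rw [S.lie_val, xf2_val, xf3_val, S.zero_val]; simp
theorem lie_e1_f1 : ⁅xe1 k, xf1 k⁆ = xh1 k := by
  apply Subtype.ext; rw [S.lie_val, xe1_val, xf1_val, xh1_val]; simp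
theorem lie_e2_f2 : ⁅xe2 k, xf2 k⁆ = xh2 k := by
  apply Subtype.ext; rw [S.lie_val, xe2_val, xf2_val, xh2_val]; simp
theorem lie_e3_f3 : ⁅xe3 k, xf3 k⁆ = xh1 k + xh2 k := by
  apply Subtype.ext; rw [S.lie_val, xe3_val, xf3_val, S.add_val, xh1_val, xh2_val]; simp
theorem lie_e1_f2 : ⁅xe1 k, xf2 k⁆ = 0 := by
  apply Subtype.ext; rw [S.lie_val, xe1_val, xf2_val, S.zero_val]; simp
theorem lie_e2_f1 : ⁅xe2 k, xf1 k⁆ = 0 := by
  apply Subtype.ext; rw [S.lie_val, xe2_val, xf1_val, S.zero_val]; simp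
theorem lie_e1_f3 : ⁅xe1 k, xf3 k⁆ = -xf2 k := by
  apply Subtype.ext; rw [S.lie_val, xe1_val, xf3_val, S.neg_val, xf2_val]; simp
theorem lie_e2_f3 : ⁅xe2 k, xf3 k⁆ = xf1 k := by
  apply Subtype.ext; rw [S.lie_val, xe2_val, xf3_val, xf1_val]; simp
theorem lie_e3_f1 : ⁅xe3 k, xf1 k⁆ = -xe2 k := by
  apply Subtype.ext; rw [S.lie_val, xe3_val, xf1_val, S.neg_val, xe2_val]; simp
theorem lie_e3_f2 : ⁅xe3 k, xf2 k⁆ = xe1 k := by
  apply Subtype.ext; rw [S.lie_val, xe3_val, xf2_val, xe1_val]; simp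
theorem lie_h1_e1 : ⁅xh1 k, xe1 k⁆ = (2 : k) • xe1 k := by
  apply Subtype.ext; rw [S.lie_val, xh1_val, xe1_val, S.smul_val, xe1_val, sub_mul, mul_sub]
  simp [two_smul, ← Matrix.single_add]
theorem lie_h1_e2 : ⁅xh1 k, xe2 k⁆ = (-1 : k) • xe2 k := by
  apply Subtype.ext; rw [S.lie_val, xh1_val, xe2_val, S.smul_val, xe2_val, sub_mul, mul_sub]
  simp
theorem lie_h1_e3 : ⁅xh1 k, xe3 k⁆ = (1 : k) • xe3 k := by
  apply Subtype.ext; rw [S.lie_val, xh1_val, xe3_val, S.smul_val, xe3_val, sub_mul, mul_sub]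
  simp
theorem lie_h2_e1 : ⁅xh2 k, xe1 k⁆ = (-1 : k) • xe1 k := by
  apply Subtype.ext; rw [S.lie_val, xh2_val, xe1_val, S.smul_val, xe1_val, sub_mul, mul_sub]
  simp
theorem lie_h2_e2 : ⁅xh2 k, xe2 k⁆ = (2 : k) • xe2 k := by
  apply Subtype.ext; rw [S.lie_val, xh2_val, xe2_val, S.smul_val, xe2_val, sub_mul, mul_sub]
  simp [two_smul, ← Matrix.single_add]
theorem lie_h2_e3 : ⁅xh2 k, xe3 k⁆ = (1 : k) • xe3 k := by
  apply Subtype.ext; rw [S.lie_val, xh2_val, xe3_val, S.smul_val, xe3_val, sub_mul, mul_sub]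
  simp
theorem lie_h1_f1 : ⁅xh1 k, xf1 k⁆ = (-2 : k) • xf1 k := by
  apply Subtype.ext; rw [S.lie_val, xh1_val, xf1_val, S.smul_val, xf1_val, sub_mul, mul_sub]
  simp; rw [show (2 : k) = 1 + 1 by norm_num, Matrix.single_add]; abel
theorem lie_h1_f2 : ⁅xh1 k, xf2 k⁆ = (1 : k) • xf2 k := by
  apply Subtype.ext; rw [S.lie_val, xh1_val, xf2_val, S.smul_val, xf2_val, sub_mul, mul_sub]
  simp
theorem lie_h1_f3 : ⁅xh1 k, xf3 k⁆ = (-1 : k) • xf3 k := by
  apply Subtype.ext; rw [S.lie_val, xh1_val, xf3_val, S.smul_val, xf3_val, sub_mul, mul_sub]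
  simp
theorem lie_h2_f1 : ⁅xh2 k, xf1 k⁆ = (1 : k) • xf1 k := by
  apply Subtype.ext; rw [S.lie_val, xh2_val, xf1_val, S.smul_val, xf1_val, sub_mul, mul_sub]
  simp
theorem lie_h2_f2 : ⁅xh2 k, xf2 k⁆ = (-2 : k) • xf2 k := by
  apply Subtype.ext; rw [S.lie_val, xh2_val, xf2_val, S.smul_val, xf2_val, sub_mul, mul_sub]
  simp; rw [show (2 : k) = 1 + 1 by norm_num, Matrix.single_add]; abel
theorem lie_h2_f3 : ⁅xh2 k, xf3 k⁆ = (-1 : k) • xf3 k := by
  apply Subtype.ext; rw [S.lie_val, xh2_val, xf3_val, S.smul_val, xf3_val, sub_mul, mul_sub]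
  simp
theorem lie_h1_h2 : ⁅xh1 k, xh2 k⁆ = 0 := by
  apply Subtype.ext; rw [S.lie_val, xh1_val, xh2_val, S.zero_val, sub_mul, mul_sub, mul_sub,
    sub_mul, mul_sub, mul_sub]; simp

end

end Q86.Abg
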