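import Pool.Agent.Q86.AbgCE
import Pool.Agent.Q86.AbgLie

set_option autoImplicit false
set_option linter.unusedSectionVars false

/-!
# The free alternative algebra, its Allison-Benkart-Gao Lie algebra, and direct summands of the
homology
-/

namespace Q86.Abg

universe u

section

variable (k : Type u) [Field k] [CharZero k]

/-- `A` is the free (non-unital) alternative algebra on the generators `x i`. -/
structure IsFreeAlternative (A : Type u) [NonUnitalNonAssocRing A] [Module k A]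
    [IsScalarTower k A A] [SMulCommClass k A A] {d : ℕ} (x : Fin d → A) : Prop where
  alt : IsAlternative A
  lift : ∀ (B : Type u) [NonUnitalNonAssocRing B] [Module k B] [IsScalarTower k B B]
    [SMulCommClass k B B], IsAlternative B → ∀ y : Fin d → B, ∃! f : A →ₙₐ[k] B, ∀ i, f (x i) = y i

/-- `L` is the Lie algebra `ABG(A) = sl_3 ⊗ A ⊕ B(A)`, where `t X p` stands for `X ⊗ p` and `w p q`
for the class of `p ∧ q`: the vector space `L` has the universal property of `sl_3 ⊗ A ⊕ B(A)`, and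
the brackets are those of Allison, Benkart and Gao. Here `jorS X Y = (XY + YX)/2 - tr(XY)/3` and
`dfun p q` is the map `D_{p,q}`. -/
structure IsABG (A : Type u) [NonUnitalNonAssocRing A] [Module k A] (L : Type u) [LieRing L]
    [LieAlgebra k L] (t : S k →ₗ[k] A →ₗ[k] L) (w : A →ₗ[k] A →ₗ[k] L) : Prop where
  w_self : ∀ p, w p p = 0
  w_cyc : ∀ p q r, w (p * q) r + w (q * r) p + w (r * p) q = 0
  univ : ∀ (M : Type u) [AddCommGroup M] [Module k M] (f : S k →ₗ[k] A →ₗ[k] M)
    (g : A →ₗ[k] A →ₗ[k] M), (∀ p, g p p = 0) →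
    (∀ p q r, g (p * q) r + g (q * r) p + g (r * p) q = 0) →
    ∃! F : L →ₗ[k] M, (∀ X p, F (t X p) = f X p) ∧ ∀ p q, F (w p q) = g p q
  lie_tt : ∀ (X Y : S k) (p q : A), ⁅t X p, t Y q⁆ =
    t ⁅X, Y⁆ ((2⁻¹ : k) • (p * q + q * p)) + t (jorS X Y) (p * q - q * p) +
      ((3⁻¹ : k) * Matrix.trace (X.1 * Y.1)) • w p q
  lie_wt : ∀ (p q : A) (X : S k) (r : A), ⁅w p q, t X r⁆ = t X (dfun p q r)
  lie_ww : ∀ p q r s : A, ⁅w p q, w r s⁆ = w (dfun p q r) s + w r (dfun p q s)

/-- Let `sl_3` act on the Lie algebra `L` by the derivations `θ X`. The `sl_3`-module `U`, on which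
`X` acts by `ρ X`, is a direct summand of the homology `H_m(L, k)` of the Chevalley-Eilenberg
complex: there are `sl_3`-equivariant linear maps `f` from `U` to the cycles and `g` from the cycles
to `U` such that `g` vanishes on the boundaries and `g ∘ f` is the identity. -/
def IsSummand (L : Type u) [LieRing L] [LieAlgebra k L] (θ : S k → L →ₗ[k] L) (m : ℕ) (U : Type u)
    [AddCommGroup U] [Module k U] (ρ : S k → U →ₗ[k] U) : Prop :=
  ∃ (f : U →ₗ[k] ExteriorAlgebra k L) (g : ExteriorAlgebra k L →ₗ[k] U),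
    (∀ u, f u ∈ ⋀[k]^m L ∧ ceD k L (f u) = 0) ∧
    (∀ X u, f (ρ X u) = derExt (θ X) (f u)) ∧
    (∀ y ∈ ⋀[k]^(m + 1) L, g (ceD k L y) = 0) ∧
    (∀ X, ∀ z ∈ ⋀[k]^m L, ceD k L z = 0 → g (derExt (θ X) z) = ρ X (g z)) ∧
    ∀ u, g (f u) = u

end

end Q86.Abg
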