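import Pool.Agent.Q86.AlbCub

/-!
# Identities in a Euclidean cubic norm structure
-/

set_option autoImplicit false

namespace Pool.Agent.Q86.Alb

namespace Cubic

variable {J : Type*} [NormedAddCommGroup J] [InnerProductSpace ℝ J] (C : Cubic J)

/-- trace -/
noncomputable def t (x : J) : ℝ := inner ℝ C.one x
/-- adjoint -/
noncomputable def sh (x : J) : J := (1 / 2 : ℝ) • C.cr x x
/-- norm form -/
noncomputable def N (x : J) : ℝ := inner ℝ (C.sh x) x / 3
/-- second coefficient -/
noncomputable def S (x : J) : ℝ := C.t (C.sh x)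

theorem adj' (x : J) : C.sh (C.sh x) = C.N x • x := C.adj x

theorem sh_add (x y : J) : C.sh (x + y) = C.sh x + C.cr x y + C.sh y := by
  simp only [sh, map_add, LinearMap.add_apply, C.cr_comm y x]
  module

theorem sh_smul (r : ℝ) (x : J) : C.sh (r • x) = (r ^ 2) • C.sh x := by
  simp only [sh, map_smul, LinearMap.smul_apply]
  module

theorem cr_symm' (x y z : J) : inner ℝ (C.cr x y) z = inner ℝ (C.cr x z) y := by
  rw [C.cr_comm x y, C.cr_symm, real_inner_comm]

theorem inner_cr_self (x y : J) : inner ℝ (C.cr x y) x = 2 * inner ℝ (C.sh x) y := by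
  rw [C.cr_symm', sh, real_inner_smul_left]; ring

theorem N_add (x y : J) :
    C.N (x + y) = C.N x + inner ℝ (C.sh x) y + inner ℝ x (C.sh y) + C.N y := by
  have h1 := C.inner_cr_self x y
  have h2 := C.inner_cr_self y x
  rw [C.cr_comm y x] at h2
  rw [real_inner_comm y (C.sh x)] at h1 ⊢
  rw [real_inner_comm x (C.sh y)] at h2
  simp only [N, sh_add, inner_add_left, inner_add_right]
  rw [real_inner_comm y (C.sh x)]
  rw [real_inner_comm x (C.sh y)]
  rw [h1, h2]
  ring

theorem N_smul (r : ℝ) (x : J) : C.N (r • x) = r ^ 3 * C.N x := by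
  simp only [N, sh_smul, real_inner_smul_left, real_inner_smul_right]; ring

private theorem three {E : Type*} [AddCommGroup E] [Module ℝ E] (P1 P2 P3 : E)
    (h : ∀ r : ℝ, r • P1 + r ^ 2 • P2 + r ^ 3 • P3 = 0) : P1 = 0 ∧ P2 = 0 ∧ P3 = 0 := by
  have h1 := h 1
  have h2 := h (-1)
  have h3 := h 2
  have e2 : P2 = 0 := by
    have : P2 = (1 / 2 : ℝ) • ((1 : ℝ) • P1 + (1 : ℝ) ^ 2 • P2 + (1 : ℝ) ^ 3 • P3) +
      (1 / 2 : ℝ) • ((-1 : ℝ) • P1 + (-1 : ℝ) ^ 2 • P2 + (-1 : ℝ) ^ 3 • P3) := by module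
    rw [this, h1, h2]; simp
  have e3 : P3 = 0 := by
    have : P3 = (1 / 6 : ℝ) • ((2 : ℝ) • P1 + (2 : ℝ) ^ 2 • P2 + (2 : ℝ) ^ 3 • P3) -
      (1 / 3 : ℝ) • ((1 : ℝ) • P1 + (1 : ℝ) ^ 2 • P2 + (1 : ℝ) ^ 3 • P3) - (1 / 3 : ℝ) • P2 := by module
    rw [this, h1, h3, e2]; simp
  refine ⟨?_, e2, e3⟩
  rw [e2, e3] at h1
  simpa using h1

theorem polar (x y : J) :
    C.cr (C.sh x) (C.cr x y) = C.N x • y + inner ℝ (C.sh x) y • x ∧
    C.sh (C.cr x y) + C.cr (C.sh x) (C.sh y) =
      inner ℝ x (C.sh y) • x + inner ℝ (C.sh x) y • y := by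
  have key : ∀ r : ℝ, r • (C.cr (C.sh x) (C.cr x y) - (C.N x • y + inner ℝ (C.sh x) y • x)) +
      r ^ 2 • (C.sh (C.cr x y) + C.cr (C.sh x) (C.sh y) -
        (inner ℝ x (C.sh y) • x + inner ℝ (C.sh x) y • y)) +
      r ^ 3 • (C.cr (C.cr x y) (C.sh y) - (inner ℝ x (C.sh y) • y + C.N y • x)) = 0 := by
    intro r
    have h := C.adj' (x + r • y)
    rw [C.sh_add x, C.sh_add, C.sh_add, C.N_add, C.N_smul, C.sh_smul, C.adj' x, map_smul, C.sh_smul,
      C.sh_smul, C.adj' y] at h
    simp only [map_add, map_smul, LinearMap.add_apply, LinearMap.smul_apply, real_inner_smul_right] at h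
    rw [← sub_eq_zero] at h
    rw [← h]
    module
  obtain ⟨h1, h2, -⟩ := three _ _ _ key
  exact ⟨sub_eq_zero.mp h1, sub_eq_zero.mp h2⟩

theorem adj2 (x y : J) : C.cr (C.sh x) (C.cr x y) = C.N x • y + inner ℝ (C.sh x) y • x :=
  (C.polar x y).1

theorem adj3 (x y z : J) : C.cr (C.cr x y) (C.cr x z) + C.cr (C.sh x) (C.cr y z) =
    inner ℝ x (C.cr y z) • x + inner ℝ (C.sh x) y • z + inner ℝ (C.sh x) z • y := by
  have h1 := (C.polar x (y + z)).2
  have h2 := (C.polar x y).2
  have h3 := (C.polar x z).2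
  rw [map_add, C.sh_add, C.sh_add] at h1
  simp only [map_add, inner_add_right] at h1
  have : C.cr (C.cr x y) (C.cr x z) + C.cr (C.sh x) (C.cr y z) =
      (C.sh (C.cr x y) + C.cr (C.cr x y) (C.cr x z) + C.sh (C.cr x z) +
        (C.cr (C.sh x) (C.sh y) + C.cr (C.sh x) (C.cr y z) + C.cr (C.sh x) (C.sh z))) -
      (C.sh (C.cr x y) + C.cr (C.sh x) (C.sh y)) - (C.sh (C.cr x z) + C.cr (C.sh x) (C.sh z)) := by
    abel
  rw [this, h1, h2, h3]
  module

theorem t_add (x y : J) : C.t (x + y) = C.t x + C.t y := inner_add_right _ _ _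
theorem t_sub (x y : J) : C.t (x - y) = C.t x - C.t y := inner_sub_right _ _ _
theorem t_smul (r : ℝ) (x : J) : C.t (r • x) = r * C.t x := real_inner_smul_right _ _ _
theorem t_one : C.t C.one = 3 := C.one_one
theorem inner_one (x : J) : inner ℝ x C.one = C.t x := real_inner_comm _ _

theorem cr_one_left (y : J) : C.cr C.one y = C.t y • C.one - y := C.cr_one y
theorem cr_one_right (y : J) : C.cr y C.one = C.t y • C.one - y := by
  rw [C.cr_comm]; exact C.cr_one y

theorem t_cr (x y : J) : C.t (C.cr x y) = C.t x * C.t y - inner ℝ x y := by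
  rw [t, real_inner_comm, C.cr_symm, C.cr_one_right, inner_sub_right, real_inner_smul_right,
    C.inner_one]
  ring

theorem two_S (x : J) : inner ℝ x x = C.t x ^ 2 - 2 * C.S x := by
  rw [S, sh, C.t_smul, C.t_cr]; ring

theorem sh_one : C.sh C.one = C.one := by
  rw [sh, C.cr_one_right, C.t_one]; module

theorem N_one : C.N C.one = 1 := by
  rw [N, C.sh_one, C.one_one]; norm_num

theorem three_N (x : J) : inner ℝ (C.sh x) x = 3 * C.N x := by rw [N]; ring
theorem three_N' (x : J) : inner ℝ x (C.sh x) = 3 * C.N x := by rw [real_inner_comm, three_N]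

theorem cr_self (x : J) : C.cr x x = (2 : ℝ) • C.sh x := by rw [sh]; module

theorem cr_sh (x : J) : C.cr x (C.sh x) =
    (C.t x * C.S x - C.N x) • C.one - C.S x • x - C.t x • C.sh x := by
  have h := C.adj2 x C.one
  rw [C.cr_one_right, map_sub, map_smul, C.cr_one_right, C.inner_one, C.cr_comm _ x] at h
  change _ = C.N x • C.one + C.S x • x at h
  change C.t x • (C.S x • C.one - C.sh x) - _ = _ at h
  rw [sub_eq_iff_eq_add] at h
  have : C.cr x (C.sh x) = (C.N x • C.one + C.S x • x + C.cr x (C.sh x)) -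
    (C.N x • C.one + C.S x • x) := by abel
  rw [this, ← h]; module

theorem adj2' (x y : J) : C.cr x (C.cr (C.sh x) y) = C.N x • y + inner ℝ x y • C.sh x := by
  refine ext_inner_right ℝ fun z => ?_
  rw [C.cr_comm x, C.cr_symm, C.cr_comm (C.sh x) y, C.cr_symm, C.adj2, inner_add_right,
    inner_add_left, real_inner_smul_right, real_inner_smul_right, real_inner_smul_left,
    real_inner_smul_left, real_inner_comm x y]
  ring

theorem cr_cr (x y : J) : C.cr x (C.cr x y) =
    (C.t x * (C.t x * C.t y - inner ℝ x y) + C.t y * C.S x - inner ℝ (C.sh x) y) • C.one -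
      C.t x • C.cr x y - C.t y • C.sh x - C.cr (C.sh x) y - C.S x • y -
      (C.t x * C.t y - inner ℝ x y) • x := by
  have h := C.adj3 x y C.one
  rw [C.cr_one_right, C.cr_one_right, map_sub, map_sub, map_smul, map_smul, C.cr_one_right,
    C.cr_one_right, C.t_cr, inner_sub_right, real_inner_smul_right, C.inner_one, C.inner_one,
    C.cr_comm _ x] at h
  change _ + (C.t y • (C.S x • C.one - C.sh x) - C.cr (C.sh x) y) =
    _ + _ + C.S x • y at h
  have : C.cr x (C.cr x y) = (C.t x • ((C.t x * C.t y - inner ℝ x y) • C.one - C.cr x y) +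
      (C.t y • (C.S x • C.one - C.sh x) - C.cr (C.sh x) y)) -
      (C.t x • ((C.t x * C.t y - inner ℝ x y) • C.one - C.cr x y) - C.cr x (C.cr x y) +
      (C.t y • (C.S x • C.one - C.sh x) - C.cr (C.sh x) y)) := by abel
  rw [this, h]
  module

/-- Jordan product as a bilinear map -/
noncomputable def mul : J →ₗ[ℝ] J →ₗ[ℝ] J :=
  LinearMap.mk₂ ℝ (fun x y => (1 / 2 : ℝ) • (C.cr x y + (inner ℝ C.one x) • y +
    (inner ℝ C.one y) • x - (inner ℝ C.one x * inner ℝ C.one y - inner ℝ x y) • C.one))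
    (fun x y z => by
      simp only [map_add, LinearMap.add_apply, inner_add_right, inner_add_left]; module)
    (fun r x z => by
      simp only [map_smul, LinearMap.smul_apply, real_inner_smul_right, real_inner_smul_left]; module)
    (fun x y z => by
      simp only [map_add, inner_add_right]; module)
    (fun r x z => by
      simp only [map_smul, real_inner_smul_right]; module)

theorem mul_def (x y : J) : C.mul x y = (1 / 2 : ℝ) • (C.cr x y + C.t x • y +
    C.t y • x - (C.t x * C.t y - inner ℝ x y) • C.one) := rfl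

theorem mul_comm (x y : J) : C.mul x y = C.mul y x := by
  rw [mul_def, mul_def, C.cr_comm, real_inner_comm x y, _root_.mul_comm (C.t x)]; abel_nf

theorem one_mul (y : J) : C.mul C.one y = y := by
  rw [mul_def, C.cr_one_left, C.t_one]
  change (1 / 2 : ℝ) • (C.t y • C.one - y + (3 : ℝ) • y + C.t y • C.one -
    (3 * C.t y - C.t y) • C.one) = y
  module

theorem mul_one (y : J) : C.mul y C.one = y := by rw [C.mul_comm, C.one_mul]

theorem inner_mul (x y z : J) : inner ℝ (C.mul x y) z = inner ℝ y (C.mul x z) := by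
  simp only [mul_def, inner_add_left, inner_add_right, inner_sub_left, inner_sub_right,
    real_inner_smul_left, real_inner_smul_right, C.inner_one]
  rw [show inner ℝ C.one z = C.t z from rfl, C.cr_comm x y, C.cr_symm, real_inner_comm x y]
  ring

theorem t_mul (x y : J) : C.t (C.mul x y) = inner ℝ x y := by
  rw [t, real_inner_comm, C.inner_mul, C.mul_one, real_inner_comm]

theorem sq (x : J) : C.mul x x = C.sh x + C.t x • x - C.S x • C.one := by
  rw [mul_def, C.cr_self, C.two_S]; module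

theorem mul_sh (x : J) : C.mul x (C.sh x) = C.N x • C.one := by
  rw [mul_def, C.cr_sh, C.three_N']
  change (1 / 2 : ℝ) • (_ + C.t x • C.sh x + C.S x • x - (C.t x * C.S x - _) • C.one) = _
  module

theorem t_mul_left (x y : J) : C.t (C.mul x y) = inner ℝ x y := C.t_mul x y

theorem mul_add (x y z : J) : C.mul x (y + z) = C.mul x y + C.mul x z := map_add _ _ _

theorem inner_sh_cr (x y : J) : inner ℝ (C.sh x) (C.cr x y) =
    (C.t x * C.S x - C.N x) * C.t y - C.S x * inner ℝ x y - C.t x * inner ℝ (C.sh x) y := by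
  rw [C.cr_comm x y, ← real_inner_comm, C.cr_symm, C.cr_sh, inner_sub_right, inner_sub_right,
    real_inner_smul_right, real_inner_smul_right, real_inner_smul_right, C.inner_one,
    real_inner_comm y x, real_inner_comm y (C.sh x)]

theorem inner_cr_sh (x y : J) : inner ℝ x (C.cr (C.sh x) y) =
    (C.t x * C.S x - C.N x) * C.t y - C.S x * inner ℝ x y - C.t x * inner ℝ (C.sh x) y := by
  rw [← C.cr_symm, C.cr_sh, inner_sub_left, inner_sub_left,
    real_inner_smul_left, real_inner_smul_left, real_inner_smul_left]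
  rfl

/-- the basic commutation: `x^# ∘ (x ∘ y) = x ∘ (x^# ∘ y)` -/
theorem jordan_sh (x y : J) : C.mul (C.sh x) (C.mul x y) = C.mul x (C.mul (C.sh x) y) := by
  have h1 : C.mul (C.sh x) x = C.N x • C.one := by rw [C.mul_comm, C.mul_sh]
  have h2 := C.mul_sh x
  rw [C.mul_def x y, C.mul_def (C.sh x) y]
  simp only [map_smul, map_add, map_sub, h1, h2, C.mul_one]
  rw [C.mul_def (C.sh x) (C.cr x y), C.mul_def (C.sh x) y, C.mul_def x (C.cr (C.sh x) y),
    C.mul_def x y, C.adj2, C.adj2', C.t_cr, C.t_cr, C.inner_sh_cr, C.inner_cr_sh]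
  change (1 / 2 : ℝ) • ((1 / 2 : ℝ) • (_ + C.S x • _ + _ - (C.S x * _ - _) • C.one) +
    _ • (1 / 2 : ℝ) • (_ + C.S x • y + _ - (C.S x * _ - _) • C.one) + _ - _) =
    (1 / 2 : ℝ) • ((1 / 2 : ℝ) • (_ + _ + (C.S x * _ - _) • _ - (_ * (C.S x * _ - _) - _) • C.one) +
    C.S x • (1 / 2 : ℝ) • _ + _ - (C.S x * _ - _) • _)
  module

theorem jordan (x y : J) : C.mul (C.mul x x) (C.mul x y) = C.mul x (C.mul (C.mul x x) y) := by
  rw [C.sq]
  simp only [map_add, map_sub, map_smul, LinearMap.add_apply, LinearMap.sub_apply,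
    LinearMap.smul_apply, C.jordan_sh, C.one_mul]

theorem cube (x : J) : C.mul x (C.mul x x) = C.t x • C.mul x x - C.S x • x + C.N x • C.one := by
  conv_lhs => rw [C.sq x]
  rw [map_sub, map_add, map_smul, map_smul, C.mul_sh, C.mul_one]
  abel

theorem jordan_lin (x z y : J) : (2 : ℝ) • C.mul (C.mul x z) (C.mul x y) +
    C.mul (C.mul x x) (C.mul z y) - C.mul z (C.mul (C.mul x x) y) -
    (2 : ℝ) • C.mul x (C.mul (C.mul x z) y) = 0 := by
  have h1 := C.jordan (x + z) y
  have h2 := C.jordan (x - z) y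
  have h3 := C.jordan z y
  simp only [map_add, map_sub, LinearMap.add_apply, LinearMap.sub_apply, C.mul_comm z x] at h1 h2
  linear_combination (norm := module) (1 / 2 : ℝ) • h1 - (1 / 2 : ℝ) • h2 - h3

/-- the linearised Jordan identity in the form `L_{x³} = 3 L_{x²} L_x - 2 L_x³` -/
theorem cube_op (x z : J) : C.mul (C.mul x (C.mul x x)) z =
    (3 : ℝ) • C.mul (C.mul x x) (C.mul x z) - (2 : ℝ) • C.mul x (C.mul x (C.mul x z)) := by
  have h := C.jordan_lin x z x
  rw [C.mul_comm (C.mul x z) (C.mul x x), C.mul_comm z x, C.mul_comm (C.mul x z) x,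
    C.mul_comm (C.mul x x) x, C.mul_comm z] at h
  linear_combination (norm := module) (-1 : ℝ) • h

/-- for an idempotent `e` : `L_e = 3 L_e² - 2 L_e³` -/
theorem idem_op {e : J} (he : C.mul e e = e) (z : J) :
    C.mul e z = (3 : ℝ) • C.mul e (C.mul e z) - (2 : ℝ) • C.mul e (C.mul e (C.mul e z)) := by
  have h := C.cube_op e z
  rwa [he, he] at h

/-- `L_e ≥ 0` for an idempotent -/
theorem idem_pos {e : J} (he : C.mul e e = e) (z : J) : 0 ≤ inner ℝ (C.mul e z) z := by
  have h := C.idem_op he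
  set a := C.mul e z with ha
  set b := C.mul e a with hb
  set c := C.mul e b with hc
  have h0 : a = (3 : ℝ) • b - (2 : ℝ) • c := h z
  have h1 : b = (3 : ℝ) • c - (2 : ℝ) • C.mul e c := h a
  -- `L = L² + 4 (L - L²)²`
  have k1 : inner ℝ b z = inner ℝ a a := by rw [hb, C.inner_mul, ← ha]
  have k2 : inner ℝ c z = inner ℝ b a := by rw [hc, C.inner_mul, ← ha]
  have k3 : inner ℝ (C.mul e c) z = inner ℝ b b := by
    rw [C.inner_mul, ← ha, hc, C.inner_mul, ← hb]
  have k4 : inner ℝ a z = inner ℝ a a + 4 * inner ℝ (a - b) (a - b) := by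
    have e1 : inner ℝ a z = 3 * inner ℝ b z - 2 * inner ℝ c z := by
      conv_lhs => rw [h0]
      rw [inner_sub_left, real_inner_smul_left, real_inner_smul_left]
    have e2 : inner ℝ b z = 3 * inner ℝ c z - 2 * inner ℝ (C.mul e c) z := by
      conv_lhs => rw [h1]
      rw [inner_sub_left, real_inner_smul_left, real_inner_smul_left]
    rw [inner_sub_left, inner_sub_right, inner_sub_right, real_inner_comm b a]
    rw [k1, k2] at e1
    rw [k1, k2, k3] at e2
    linarith
  rw [k4]
  have p1 := real_inner_self_nonneg (x := a)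
  have p2 := real_inner_self_nonneg (x := a - b)
  linarith

end Cubic

end Pool.Agent.Q86.Alb
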