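import Pool.Agent.Q86.AlbA

/-!
# The quadratic representation of a Euclidean cubic norm structure
-/

set_option autoImplicit false

namespace Pool.Agent.Q86.Alb

namespace Cubic

variable {J : Type*} [NormedAddCommGroup J] [InnerProductSpace ℝ J] (C : Cubic J)

/-- the operator `U_x` -/
noncomputable def U (x : J) : J →ₗ[ℝ] J where
  toFun y := inner ℝ x y • x - C.cr (C.sh x) y
  map_add' y z := by simp only [inner_add_right, map_add]; module
  map_smul' r y := by simp only [real_inner_smul_right, map_smul, RingHom.id_apply]; module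

theorem U_def (x y : J) : C.U x y = inner ℝ x y • x - C.cr (C.sh x) y := rfl

theorem U_symm (x y z : J) : inner ℝ (C.U x y) z = inner ℝ y (C.U x z) := by
  rw [U_def, U_def, inner_sub_left, inner_sub_right, real_inner_smul_left, real_inner_smul_right,
    C.cr_comm (C.sh x) y, C.cr_symm, real_inner_comm y x]
  ring

theorem U_one (x : J) : C.U x C.one = C.mul x x := by
  rw [U_def, C.cr_one_right, C.inner_one, C.sq]
  change _ - (C.S x • C.one - C.sh x) = _
  module

theorem U_smul (r : ℝ) (x y : J) : C.U (r • x) y = (r ^ 2) • C.U x y := by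
  rw [U_def, U_def, C.sh_smul, map_smul, LinearMap.smul_apply, real_inner_smul_left]; module

theorem mul_cr (x y : J) : C.mul x (C.cr x y) = (1 / 2 : ℝ) •
    ((C.t y * C.S x + inner ℝ (C.sh x) y) • C.one - C.t y • C.sh x - C.cr (C.sh x) y - C.S x • y) := by
  have h : inner ℝ x (C.cr x y) = 2 * inner ℝ (C.sh x) y := by
    rw [real_inner_comm, C.inner_cr_self]
  rw [C.mul_def, C.cr_cr, C.t_cr, h]
  module

theorem U_eq (x y : J) : C.U x y = (2 : ℝ) • C.mul x (C.mul x y) - C.mul (C.mul x x) y := by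
  rw [C.mul_def x y, C.sq]
  simp only [map_smul, map_add, map_sub, LinearMap.add_apply, LinearMap.sub_apply,
    LinearMap.smul_apply, C.mul_one, C.one_mul, C.mul_cr]
  rw [C.sq, C.mul_def (C.sh x) y, C.mul_def x y, U_def]
  change _ = (2 : ℝ) • (1 / 2 : ℝ) • _ - ((1 / 2 : ℝ) • (_ + C.S x • y + _ -
    (C.S x * _ - _) • _) + _ - _)
  module

theorem inner_sh_U (x y : J) : inner ℝ (C.sh x) (C.U x y) = C.N x * inner ℝ x y := by
  rw [U_def, inner_sub_right, real_inner_smul_right, C.three_N, ← C.cr_symm (C.sh x) (C.sh x) y,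
    C.cr_self, C.adj', real_inner_smul_left, real_inner_smul_left]
  ring

theorem cr_U (x y : J) : C.cr x (C.U x y) = inner ℝ x y • C.sh x - C.N x • y := by
  rw [U_def, map_sub, map_smul, C.cr_self, C.adj2']; module

theorem U_sh_U (x y : J) : C.U (C.sh x) (C.U x y) = (C.N x ^ 2) • y := by
  rw [U_def, C.inner_sh_U, C.adj', map_smul, LinearMap.smul_apply, C.cr_U]; module

theorem inner_U_sh (x y : J) : inner ℝ x (C.U (C.sh x) y) = C.N x * inner ℝ (C.sh x) y := by
  rw [U_def, C.adj', inner_sub_right, real_inner_smul_right, C.three_N', map_smul,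
    LinearMap.smul_apply, real_inner_smul_right, ← C.cr_symm x x y, C.cr_self,
    real_inner_smul_left]
  ring

theorem U_U_sh (x y : J) : C.U x (C.U (C.sh x) y) = (C.N x ^ 2) • y := by
  rw [C.U_def x, C.inner_U_sh, U_def, C.adj', map_sub, map_smul, C.cr_self, C.adj', map_smul,
    LinearMap.smul_apply, map_smul, C.adj2]
  module

theorem sh_U (x y : J) : C.sh (C.U x y) = C.U (C.sh x) (C.sh y) := by
  have h1 := (C.polar (C.sh x) y).2
  rw [C.adj', map_smul, LinearMap.smul_apply, real_inner_smul_left] at h1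
  have h2 : C.sh (inner ℝ x y • x - C.cr (C.sh x) y) = (inner ℝ x y) ^ 2 • C.sh x -
      inner ℝ x y • C.cr x (C.cr (C.sh x) y) + C.sh (C.cr (C.sh x) y) := by
    rw [sub_eq_add_neg, C.sh_add, C.sh_smul, map_smul, LinearMap.smul_apply, map_neg,
      ← neg_one_smul ℝ (C.cr (C.sh x) y), C.sh_smul]
    module
  rw [U_def, h2, C.adj2', U_def, C.adj', map_smul, LinearMap.smul_apply]
  linear_combination (norm := module) h1

theorem cr_U_U (x y z : J) : C.cr (C.U x y) (C.U x z) = C.U (C.sh x) (C.cr y z) := by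
  have h1 := C.sh_U x (y + z)
  rw [map_add, C.sh_add, C.sh_add, map_add, map_add, C.sh_U, C.sh_U] at h1
  linear_combination (norm := module) h1

theorem sh_smul' (r : ℝ) (x y : J) : C.cr (r • x) y = r • C.cr x y := by
  rw [map_smul, LinearMap.smul_apply]

/-- the fundamental formula, for `x` with `N x ≠ 0` -/
theorem fund {x : J} (hx : C.N x ≠ 0) (y z : J) :
    C.U (C.U x y) z = C.U x (C.U y (C.U x z)) := by
  have key : C.cr (C.U (C.sh x) (C.sh y)) z = C.U x (C.cr (C.sh y) (C.U x z)) := by
    have h1 := C.cr_U_U (C.sh x) (C.sh y) (C.U x z)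
    rw [C.U_sh_U, C.adj', C.U_smul, map_smul] at h1
    exact smul_right_injective J (pow_ne_zero 2 hx) h1
  rw [C.U_def (C.U x y) z, C.sh_U, key, C.U_def y, map_sub, map_smul, C.U_symm]

theorem N_U (x y : J) : C.N (C.U x y) • C.U x y = (C.N x ^ 2 * C.N y) • C.U x y := by
  rw [← C.adj', C.sh_U, C.sh_U, C.adj', C.adj', map_smul, C.U_smul]
  module

theorem sh_sq (x : J) : C.sh (C.mul x x) = C.mul (C.sh x) (C.sh x) := by
  rw [← C.U_one, C.sh_U, C.sh_one, C.U_one]

theorem N_sq (x : J) : C.N (C.mul x x) • C.mul x x = (C.N x ^ 2) • C.mul x x := by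
  have h := C.N_U x C.one
  rwa [C.U_one, C.N_one, _root_.mul_one] at h

/-- uniqueness of the Jordan inverse in the form needed here -/
theorem N_ne_zero_of_U {g c : J} (h : C.U g c = C.one) : C.N g ≠ 0 := by
  intro h0
  have h1 := C.N_U g c
  rw [h, h0, C.N_one] at h1
  have h2 : C.one = 0 := by simpa using h1
  have h3 := C.one_one
  rw [h2] at h3
  simp at h3

end Cubic

end Pool.Agent.Q86.Alb
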