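import Pool.Agent.Q86.AlbB

/-!
# Spectral theorem in a Euclidean cubic norm structure
-/

set_option autoImplicit false

namespace Pool.Agent.Q86.Alb

open Polynomial

namespace Cubic

variable {J : Type*} [NormedAddCommGroup J] [InnerProductSpace ℝ J] (C : Cubic J)

/-- left multiplication as an endomorphism -/
noncomputable def La (a : J) : Module.End ℝ J := C.mul a

theorem La_apply (a x : J) : C.La a x = C.mul a x := rfl

/-- `p(a)` -/
noncomputable def pw (p : ℝ[X]) (a : J) : J := aeval (C.La a) p C.one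

theorem pw_mul (p q : ℝ[X]) (a : J) : C.pw (p * q) a = aeval (C.La a) p (C.pw q a) := by
  rw [pw, map_mul, Module.End.mul_apply, pw]

theorem pw_add (p q : ℝ[X]) (a : J) : C.pw (p + q) a = C.pw p a + C.pw q a := by
  rw [pw, map_add, LinearMap.add_apply, pw, pw]

theorem pw_sum {ι : Type*} (s : Finset ι) (p : ι → ℝ[X]) (a : J) :
    C.pw (∑ i ∈ s, p i) a = ∑ i ∈ s, C.pw (p i) a := by
  rw [pw, map_sum, LinearMap.sum_apply]; rfl

theorem pw_C_mul (r : ℝ) (p : ℝ[X]) (a : J) : C.pw (Polynomial.C r * p) a = r • C.pw p a := by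
  rw [pw_mul, aeval_C, Module.algebraMap_end_apply]

theorem pw_X_mul (p : ℝ[X]) (a : J) : C.pw (X * p) a = C.mul a (C.pw p a) := by
  rw [pw_mul, aeval_X]; rfl

theorem pw_one (a : J) : C.pw 1 a = C.one := by
  rw [pw, map_one]; rfl

theorem pw_X (a : J) : C.pw X a = a := by
  have h := C.pw_X_mul 1 a
  rwa [_root_.mul_one, pw_one, C.mul_one] at h

theorem sq_mul_pow (a : J) (m : ℕ) : C.mul (C.mul a a) (C.pw (X ^ m) a) =
    C.mul a (C.mul a (C.pw (X ^ m) a)) := by
  induction m with
  | zero => rw [pow_zero, pw_one, C.mul_one, C.mul_one]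
  | succ m ih => rw [pow_succ', pw_X_mul, C.jordan, ih]

theorem sq_mul_pw (a : J) (q : ℝ[X]) : C.mul (C.mul a a) (C.pw q a) =
    C.mul a (C.mul a (C.pw q a)) := by
  induction q using Polynomial.induction_on' with
  | add p q hp hq => rw [pw_add, map_add, map_add, map_add, hp, hq]
  | monomial n r =>
    rw [← Polynomial.C_mul_X_pow_eq_monomial, pw_C_mul, map_smul, map_smul, map_smul, sq_mul_pow]

theorem pw_cube (a : J) (q : ℝ[X]) : C.pw (X ^ 3 * q) a =
    C.t a • C.pw (X ^ 2 * q) a - C.S a • C.pw (X * q) a + C.N a • C.pw q a := by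
  have h1 : C.pw (X ^ 3) a = C.t a • C.pw (X ^ 2) a - C.S a • C.pw X a + C.N a • C.pw 1 a := by
    rw [show (X : ℝ[X]) ^ 3 = X * (X * X) by ring, show (X : ℝ[X]) ^ 2 = X * X by ring, pw_X_mul,
      pw_X_mul, pw_X, pw_one, C.cube]
  have h2 : ∀ p : ℝ[X], C.pw (p * q) a = aeval (C.La a) q (C.pw p a) := by
    intro p; rw [_root_.mul_comm, pw_mul]
  rw [h2, h2, h2, h1, map_add, map_sub, map_smul, map_smul, map_smul, pw_one]
  rfl

theorem pow_mul_pw (a : J) (q : ℝ[X]) (n : ℕ) :
    C.mul (C.pw (X ^ n) a) (C.pw q a) = C.pw (X ^ n * q) a := by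
  induction n using Nat.strong_induction_on with
  | _ n ih =>
    match n with
    | 0 => rw [pow_zero, pw_one, C.one_mul, _root_.one_mul]
    | 1 => rw [pow_one, pw_X, pw_X_mul]
    | 2 =>
      rw [show (X : ℝ[X]) ^ 2 = X * X by ring, pw_X_mul, pw_X, mul_assoc, pw_X_mul, pw_X_mul,
        sq_mul_pw]
    | n + 3 =>
      have e1 : (X : ℝ[X]) ^ (n + 3) = X ^ 3 * X ^ n := by ring
      have e2 : (X : ℝ[X]) ^ (n + 3) * q = X ^ 3 * (X ^ n * q) := by ring
      rw [e2, e1, pw_cube, pw_cube]
      have i0 := ih n (by omega)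
      have i1 := ih (n + 1) (by omega)
      have i2 := ih (n + 2) (by omega)
      have f1 : (X : ℝ[X]) * X ^ n = X ^ (n + 1) := by ring
      have f2 : (X : ℝ[X]) ^ 2 * X ^ n = X ^ (n + 2) := by ring
      have f3 : (X : ℝ[X]) * (X ^ n * q) = X ^ (n + 1) * q := by ring
      have f4 : (X : ℝ[X]) ^ 2 * (X ^ n * q) = X ^ (n + 2) * q := by ring
      rw [f1, f2, f3, f4, ← i0, ← i1, ← i2]
      simp only [map_add, map_sub, map_smul, LinearMap.add_apply, LinearMap.sub_apply,
        LinearMap.smul_apply]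

theorem pw_mul_pw (a : J) (p q : ℝ[X]) : C.mul (C.pw p a) (C.pw q a) = C.pw (p * q) a := by
  induction p using Polynomial.induction_on' with
  | add p p' hp hp' => rw [pw_add, map_add, LinearMap.add_apply, hp, hp', add_mul, pw_add]
  | monomial n r =>
    rw [← Polynomial.C_mul_X_pow_eq_monomial, pw_C_mul, map_smul, LinearMap.smul_apply, pow_mul_pw,
      mul_assoc, pw_C_mul]

/-- spectral resolution of `a` -/
structure Res (a : J) (s : Finset ℝ) (e : ℝ → J) : Prop where
  ne : ∀ i ∈ s, e i ≠ 0
  orth : ∀ i ∈ s, ∀ j ∈ s, C.mul (e i) (e j) = if i = j then e i else 0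
  sum : ∑ i ∈ s, e i = C.one
  eq : a = ∑ i ∈ s, i • e i

theorem exists_res [FiniteDimensional ℝ J] (a : J) : ∃ s e, C.Res a s e := by
  classical
  have hsym : (C.La a).IsSymmetric := fun x y => C.inner_mul a x y
  set n := Module.finrank ℝ J with hn
  set b := hsym.eigenvectorBasis hn.symm
  set lam := hsym.eigenvalues hn.symm
  have hb : ∀ i, C.La a (b i) = lam i • b i := fun i => hsym.apply_eigenvectorBasis hn.symm i
  have hbp : ∀ (p : ℝ[X]) i, aeval (C.La a) p (b i) = (p.eval (lam i)) • b i := by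
    intro p i
    induction p using Polynomial.induction_on' with
    | add p q hp hq => rw [map_add, LinearMap.add_apply, hp, hq, eval_add, add_smul]
    | monomial m r =>
      have : ∀ m : ℕ, (C.La a ^ m) (b i) = (lam i ^ m) • b i := by
        intro m
        induction m with
        | zero => simp
        | succ m ih => rw [pow_succ', Module.End.mul_apply, ih, map_smul, hb, smul_smul, pow_succ]
      rw [aeval_monomial, Module.End.mul_apply, this, Module.algebraMap_end_apply, eval_monomial,
        smul_smul]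
  set L : Finset ℝ := Finset.univ.image lam with hL
  have hpq : ∀ p q : ℝ[X], (∀ x ∈ L, p.eval x = q.eval x) → C.pw p a = C.pw q a := by
    intro p q h
    have : aeval (C.La a) p = aeval (C.La a) q := by
      refine b.toBasis.ext fun i => ?_
      rw [OrthonormalBasis.coe_toBasis, hbp, hbp, h _ (Finset.mem_image_of_mem _ (Finset.mem_univ i))]
    rw [pw, this, pw]
  have hne : (Finset.univ : Finset (Fin n)).Nonempty := by
    rw [Finset.univ_nonempty_iff]
    by_contra h
    rw [not_nonempty_iff] at h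
    have : C.one = 0 := by
      have := b.sum_repr C.one
      rw [← this]; simp
    have h3 := C.one_one
    rw [this] at h3
    simp at h3
  have hLne : L.Nonempty := hne.image _
  set B : ℝ → ℝ[X] := fun i => Lagrange.basis L id i with hB
  have hB1 : ∀ i ∈ L, ∀ j ∈ L, (B i).eval j = if i = j then 1 else 0 := by
    intro i hi j hj
    split_ifs with h
    · subst h
      exact Lagrange.eval_basis_self (v := id) (fun x _ y _ h => h) hi
    · exact Lagrange.eval_basis_of_ne (v := id) h hj
  have horth : ∀ i ∈ L, ∀ j ∈ L, C.mul (C.pw (B i) a) (C.pw (B j) a) =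
      if i = j then C.pw (B i) a else 0 := by
    intro i hi j hj
    rw [pw_mul_pw]
    split_ifs with h
    · subst h
      refine hpq _ _ fun x hx => ?_
      rw [eval_mul, hB1 i hi x hx]
      split_ifs <;> simp
    · have : C.pw (B i * B j) a = C.pw 0 a := by
        refine hpq _ _ fun x hx => ?_
        rw [eval_mul, hB1 i hi x hx, hB1 j hj x hx]
        split_ifs with h1 h2 <;> simp
        exact h (h1.trans h2.symm)
      rw [this, pw, map_zero, LinearMap.zero_apply]
  have hsum : ∑ i ∈ L, C.pw (B i) a = C.one := by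
    rw [← pw_sum, hB]
    have : ∑ i ∈ L, Lagrange.basis L id i = 1 :=
      Lagrange.sum_basis (v := id) (fun x _ y _ h => h) hLne
    simp only
    rw [this, pw_one]
  have ha : a = ∑ i ∈ L, i • C.pw (B i) a := by
    have : ∀ i ∈ L, i • C.pw (B i) a = C.pw (X * B i) a := by
      intro i hi
      rw [← pw_C_mul]
      refine hpq _ _ fun x hx => ?_
      rw [eval_mul, eval_mul, eval_C, eval_X, hB1 i hi x hx]
      split_ifs with h
      · rw [h]
      · simp
    rw [Finset.sum_congr rfl this, ← pw_sum, ← Finset.mul_sum]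
    have h1 : ∑ i ∈ L, B i = 1 := Lagrange.sum_basis (v := id) (fun x _ y _ h => h) hLne
    rw [h1, _root_.mul_one, pw_X]
  refine ⟨L.filter fun i => C.pw (B i) a ≠ 0, fun i => C.pw (B i) a, ?_, ?_, ?_, ?_⟩
  · intro i hi
    exact (Finset.mem_filter.mp hi).2
  · intro i hi j hj
    exact horth i (Finset.mem_filter.mp hi).1 j (Finset.mem_filter.mp hj).1
  · rw [← hsum, Finset.sum_filter_ne_zero]
  · conv_lhs => rw [ha]
    symm
    refine Finset.sum_subset (Finset.filter_subset _ _) fun i hi hi' => ?_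
    have : C.pw (B i) a = 0 := by
      by_contra h
      exact hi' (Finset.mem_filter.mpr ⟨hi, h⟩)
    rw [this, smul_zero]

end Cubic

end Pool.Agent.Q86.Alb
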