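import Pool.Agent.Q86.AlbDefs

/-!
# Euclidean cubic norm structures
-/

set_option autoImplicit false

namespace Pool.Agent.Q86.Alb

/-- A Euclidean cubic norm structure on `J`: a symmetric bilinear `cr x y = x × y` (the linearised
adjoint, `x^# = (1/2) x × x`) with `<x × y, z>` symmetric, a unit, and the adjoint identity
`x^## = N(x) x`, `N(x) = <x^#, x> / 3`. -/
structure Cubic (J : Type*) [NormedAddCommGroup J] [InnerProductSpace ℝ J] where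
  cr : J →ₗ[ℝ] J →ₗ[ℝ] J
  one : J
  cr_comm : ∀ x y, cr x y = cr y x
  cr_symm : ∀ x y z, inner ℝ (cr x y) z = inner ℝ x (cr y z)
  one_one : inner ℝ one one = 3
  cr_one : ∀ y, cr one y = (inner ℝ one y) • one - y
  adj : ∀ x, (1 / 2 : ℝ) • cr ((1 / 2 : ℝ) • cr x x) ((1 / 2 : ℝ) • cr x x) =
    (inner ℝ ((1 / 2 : ℝ) • cr x x) x / 3) • x

/-- `H₃(𝕆)` is a Euclidean cubic norm structure with unit `H3.one`, and the Jordan product is the one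
of the cubic norm structure. -/
def StH3 : Prop := ∃ C : Cubic H3, C.one = H3.one ∧ (∀ x : H3, inner ℝ C.one x = H3.tr x) ∧
  ∀ x y : H3, H3.jmul x y = (1 / 2 : ℝ) • (C.cr x y + (inner ℝ C.one x) • y +
    (inner ℝ C.one y) • x - (inner ℝ C.one x * inner ℝ C.one y - inner ℝ x y) • C.one)

open MeasureTheory

/-- reduction of a positive trace to the pointwise trace, and Minkowski's inequality -/
def StMin : Prop := ∀ (Ω : Type) (_ : MeasurableSpace Ω) (μ : Measure Ω) (τ : (Ω → HC) → ℂ),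
  IsPosTrace μ τ → ∀ p : ℝ, 1 ≤ p → ∀ u v w : Ω → H3, MemLp u ⊤ μ → MemLp v ⊤ μ → MemLp w ⊤ μ →
  (∀ᵐ ω ∂μ, 0 ≤ (u ω).tr) → (∀ᵐ ω ∂μ, 0 ≤ (v ω).tr) → (∀ᵐ ω ∂μ, 0 ≤ (w ω).tr) →
  (∀ᵐ ω ∂μ, (w ω).tr ^ (1 / p) ≤ (u ω).tr ^ (1 / p) + (v ω).tr ^ (1 / p)) →
  0 ≤ (τ fun ω => (u ω, 0)).re ∧ (τ fun ω => (u ω, 0)).im = 0 ∧
  (τ fun ω => (w ω, 0)).re ^ (1 / p) ≤
    (τ fun ω => (u ω, 0)).re ^ (1 / p) + (τ fun ω => (v ω, 0)).re ^ (1 / p)

end Pool.Agent.Q86.Alb
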