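import Pool.Agent.Q86.AlbC

/-!
# Positivity and the key inequality
-/

set_option autoImplicit false

namespace Pool.Agent.Q86.Alb

open Polynomial

/-- functional calculus along a resolution -/
noncomputable def fs {J : Type*} [AddCommGroup J] [Module ℝ J] (φ : ℝ → ℝ) (s : Finset ℝ)
    (e : ℝ → J) : J := ∑ i ∈ s, φ i • e i

namespace Cubic

variable {J : Type*} [NormedAddCommGroup J] [InnerProductSpace ℝ J] (C : Cubic J)

section res

variable {C} {a : J} {s : Finset ℝ} {e : ℝ → J}

theorem Res.fs_mul (h : C.Res a s e) (φ ψ : ℝ → ℝ) :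
    C.mul (fs φ s e) (fs ψ s e) = fs (fun i => φ i * ψ i) s e := by
  unfold fs
  rw [map_sum]
  refine Finset.sum_congr rfl fun j hj => ?_
  rw [map_sum, LinearMap.sum_apply, Finset.sum_eq_single_of_mem j hj]
  · rw [map_smul, map_smul, LinearMap.smul_apply, h.orth j hj j hj, if_pos rfl, smul_smul,
      _root_.mul_comm]
  · intro i hi hij
    rw [map_smul, map_smul, LinearMap.smul_apply, h.orth i hi j hj, if_neg hij, smul_zero, smul_zero]

theorem Res.fs_id (h : C.Res a s e) : fs (fun i => i) s e = a := h.eq.symm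

theorem Res.fs_one (h : C.Res a s e) : fs (fun _ => 1) s e = C.one := by
  rw [fs, ← h.sum]; simp

theorem Res.U_fs (h : C.Res a s e) (φ ψ : ℝ → ℝ) :
    C.U (fs φ s e) (fs ψ s e) = fs (fun i => φ i * φ i * ψ i) s e := by
  rw [C.U_eq, h.fs_mul, h.fs_mul, h.fs_mul, h.fs_mul]
  unfold fs
  rw [Finset.smul_sum, ← Finset.sum_sub_distrib]
  refine Finset.sum_congr rfl fun i _ => ?_
  module

theorem Res.idem (h : C.Res a s e) {i : ℝ} (hi : i ∈ s) : C.mul (e i) (e i) = e i := by
  rw [h.orth i hi i hi, if_pos rfl]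

theorem Res.t_pos (h : C.Res a s e) {i : ℝ} (hi : i ∈ s) : 0 < C.t (e i) := by
  rw [← h.idem hi, C.t_mul]
  exact real_inner_self_pos.mpr (h.ne i hi)

theorem Res.inner_self (h : C.Res a s e) {i : ℝ} (hi : i ∈ s) : inner ℝ (e i) (e i) = C.t (e i) := by
  rw [← C.t_mul, h.idem hi]

theorem Res.inner_ne (h : C.Res a s e) {i j : ℝ} (hi : i ∈ s) (hj : j ∈ s) (hij : i ≠ j) :
    inner ℝ (e i) (e j) = 0 := by
  rw [← C.t_mul, h.orth i hi j hj, if_neg hij, t, inner_zero_right]

theorem Res.inner_fs (h : C.Res a s e) (φ : ℝ → ℝ) {i : ℝ} (hi : i ∈ s) :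
    inner ℝ (fs φ s e) (e i) = φ i * C.t (e i) := by
  rw [fs, sum_inner, Finset.sum_eq_single_of_mem i hi, real_inner_smul_left, h.inner_self hi]
  intro j hj hji
  rw [real_inner_smul_left, h.inner_ne hj hi hji, mul_zero]

theorem t_fs (φ : ℝ → ℝ) : C.t (fs φ s e) = ∑ i ∈ s, φ i * C.t (e i) := by
  rw [t, fs, inner_sum]
  exact Finset.sum_congr rfl fun i _ => real_inner_smul_right _ _ _

theorem Res.sum_inner_left (h : C.Res a s e) (x : J) : ∑ i ∈ s, inner ℝ (e i) x = C.t x := by
  rw [← sum_inner, h.sum]; rfl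

/-- the polynomial calculus along a resolution -/
theorem Res.pw_eq (h : C.Res a s e) (p : ℝ[X]) : C.pw p a = fs (fun i => p.eval i) s e := by
  induction p using Polynomial.induction_on' with
  | add p q hp hq =>
    rw [pw_add, hp, hq]
    unfold fs
    rw [← Finset.sum_add_distrib]
    exact Finset.sum_congr rfl fun i _ => by simp only [eval_add, add_smul]
  | monomial n r =>
    rw [← Polynomial.C_mul_X_pow_eq_monomial, pw_C_mul]
    have : ∀ n : ℕ, C.pw (X ^ n) a = fs (fun i => i ^ n) s e := by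
      intro n
      induction n with
      | zero => rw [pow_zero, pw_one, ← h.fs_one]; simp
      | succ n ih =>
        rw [pow_succ', pw_X_mul, ih]
        conv_lhs => rw [← h.fs_id]
        rw [h.fs_mul]
        simp only [pow_succ']
    rw [this]
    unfold fs
    rw [Finset.smul_sum]
    exact Finset.sum_congr rfl fun i _ => by
      simp only [smul_smul, eval_mul, eval_C, eval_pow, eval_X]

end res

/-- two resolutions of the same element give the same functional calculus -/
theorem fs_unique {a : J} {s s' : Finset ℝ} {e e' : ℝ → J} (h : C.Res a s e) (h' : C.Res a s' e')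
    (φ : ℝ → ℝ) : fs φ s e = fs φ s' e' := by
  classical
  set p : ℝ[X] := Lagrange.interpolate (s ∪ s') id φ with hp
  have hev : ∀ i ∈ s ∪ s', p.eval i = φ i := fun i hi =>
    Lagrange.eval_interpolate_at_node (v := id) φ (fun x _ y _ h => h) hi
  have h1 : fs φ s e = C.pw p a := by
    rw [h.pw_eq]
    unfold fs
    exact Finset.sum_congr rfl fun i hi => by simp only [hev i (Finset.mem_union_left _ hi)]
  have h2 : fs φ s' e' = C.pw p a := by
    rw [h'.pw_eq]
    unfold fs
    exact Finset.sum_congr rfl fun i hi => by simp only [hev i (Finset.mem_union_right _ hi)]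
  rw [h1, h2]

/-- positivity -/
def Pos (a : J) : Prop := ∀ z, 0 ≤ inner ℝ a (C.mul z z)

variable {C}

theorem inner_idem_sq {e : J} (he : C.mul e e = e) (z : J) : 0 ≤ inner ℝ e (C.mul z z) := by
  have h := C.idem_pos he z
  rw [C.mul_comm] at h
  rwa [C.inner_mul] at h

theorem Pos.add {a b : J} (ha : C.Pos a) (hb : C.Pos b) : C.Pos (a + b) := by
  intro z
  rw [inner_add_left]
  exact add_nonneg (ha z) (hb z)

theorem Pos.smul {a : J} (ha : C.Pos a) {r : ℝ} (hr : 0 ≤ r) : C.Pos (r • a) := by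
  intro z
  rw [real_inner_smul_left]
  exact mul_nonneg hr (ha z)

theorem Res.pos_fs {a : J} {s : Finset ℝ} {e : ℝ → J} (h : C.Res a s e) {φ : ℝ → ℝ}
    (hφ : ∀ i ∈ s, 0 ≤ φ i) : C.Pos (fs φ s e) := by
  intro z
  rw [fs, sum_inner]
  refine Finset.sum_nonneg fun i hi => ?_
  rw [real_inner_smul_left]
  exact mul_nonneg (hφ i hi) (inner_idem_sq (h.idem hi) z)

theorem Res.nonneg {a : J} {s : Finset ℝ} {e : ℝ → J} (h : C.Res a s e) (ha : C.Pos a) {i : ℝ}
    (hi : i ∈ s) : 0 ≤ i := by
  have h1 := ha (e i)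
  rw [h.idem hi] at h1
  have h2 := h.inner_fs (fun i => i) hi
  rw [h.fs_id] at h2
  rw [h2] at h1
  exact nonneg_of_mul_nonneg_left h1 (h.t_pos hi)

variable [FiniteDimensional ℝ J]

theorem pos_sq (w : J) : C.Pos (C.mul w w) := by
  obtain ⟨s, e, h⟩ := C.exists_res w
  have : C.mul w w = fs (fun i => i * i) s e := by
    conv_lhs => rw [← h.fs_id]
    rw [h.fs_mul]
  rw [this]
  exact h.pos_fs fun i _ => mul_self_nonneg i

theorem U_pos (g z : J) : C.Pos (C.U g (C.mul z z)) := by
  set w := C.U g (C.mul z z) with hw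
  obtain ⟨s, e, h⟩ := C.exists_res w
  have hT : 0 ≤ C.t w := by
    rw [t, hw, ← C.U_symm, C.U_one]
    exact pos_sq g z
  have hS : 0 ≤ C.S w := by
    rw [S, t, hw, C.sh_U, ← C.U_symm, C.U_one, C.sh_sq]
    exact pos_sq _ _
  have hN : 0 ≤ C.N w := by
    have h1 := C.N_U g (C.mul z z)
    rw [← hw] at h1
    by_cases hw0 : w = 0
    · rw [hw0, N, inner_zero_right]; norm_num
    have h2 : C.N w = C.N g ^ 2 * C.N (C.mul z z) := smul_left_injective ℝ hw0 h1
    have h3 : C.mul z z ≠ 0 := by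
      intro h0
      rw [h0, map_zero] at hw
      exact hw0 hw
    have h4 : C.N (C.mul z z) = C.N z ^ 2 := smul_left_injective ℝ h3 (C.N_sq z)
    rw [h2, h4]
    positivity
  have hi0 : ∀ i ∈ s, 0 ≤ i := by
    intro i hi
    have hc := C.cube w
    have h1 : C.mul w (C.mul w w) = fs (fun i => i * (i * i)) s e := by
      conv_lhs => rw [← h.fs_id]
      rw [h.fs_mul, h.fs_mul]
    have h2 : C.mul w w = fs (fun i => i * i) s e := by
      conv_lhs => rw [← h.fs_id]
      rw [h.fs_mul]
    have h3 : inner ℝ (C.mul w (C.mul w w)) (e i) = i * (i * i) * C.t (e i) := by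
      rw [h1, h.inner_fs _ hi]
    have h4 : inner ℝ (C.mul w w) (e i) = i * i * C.t (e i) := by
      rw [h2, h.inner_fs _ hi]
    have h5 : inner ℝ w (e i) = i * C.t (e i) := by
      conv_lhs => rw [← h.fs_id]
      rw [h.inner_fs _ hi]
    have h6 : inner ℝ C.one (e i) = C.t (e i) := rfl
    rw [hc, inner_add_left, inner_sub_left, real_inner_smul_left, real_inner_smul_left,
      real_inner_smul_left, h4, h5, h6] at h3
    have h7 : C.t w * (i * i) - C.S w * i + C.N w = i * (i * i) := by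
      have := h.t_pos hi
      apply mul_right_cancel₀ this.ne'
      linarith
    by_contra hneg
    rw [not_le] at hneg
    nlinarith [mul_pos_of_neg_of_neg hneg hneg, mul_nonneg hT (mul_self_nonneg i),
      mul_nonneg hS (neg_pos.mpr hneg).le, mul_pos (mul_pos_of_neg_of_neg hneg hneg) (neg_pos.mpr hneg)]
  rw [← h.fs_id]
  exact h.pos_fs hi0

/-- the key inequality: `c⁻¹ = g²` with `U_g c = 1` -/
theorem key {g c : J} (hgc : C.U g c = C.one) (h x y : J) :
    0 ≤ inner ℝ (C.U h c) (C.mul x x) + 2 * inner ℝ h (C.mul x y) +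
      inner ℝ (C.mul g g) (C.mul y y) := by
  have hNg := C.N_ne_zero_of_U hgc
  set h' : J := ((C.N g) ^ 2)⁻¹ • C.U (C.sh g) h with hh'
  have hUh : C.U g h' = h := by
    rw [hh', map_smul, C.U_U_sh, smul_smul, inv_mul_cancel₀ (pow_ne_zero 2 hNg), one_smul]
  obtain ⟨s, e, r⟩ := C.exists_res h'
  have e1 : C.U h c = C.U g (fs (fun i => i * i) s e) := by
    have h2 : C.mul h' h' = fs (fun i => i * i) s e := by
      conv_lhs => rw [← r.fs_id]
      rw [r.fs_mul]
    rw [← hUh, C.fund hNg, hgc, C.U_one, h2]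
  have e2 : h = C.U g (fs (fun i => i) s e) := by rw [r.fs_id, hUh]
  have e3 : C.mul g g = C.U g (fs (fun _ => 1) s e) := by rw [r.fs_one, C.U_one]
  rw [e1, e3]
  conv_rhs => rw [e2]
  rw [C.U_symm, C.U_symm, C.U_symm, fs, fs, fs, sum_inner, sum_inner, sum_inner, Finset.mul_sum,
    ← Finset.sum_add_distrib, ← Finset.sum_add_distrib]
  refine Finset.sum_nonneg fun i hi => ?_
  have h5 : inner ℝ ((i * i) • e i) (C.U g (C.mul x x)) + 2 * inner ℝ (i • e i) (C.U g (C.mul x y)) +
      inner ℝ ((1 : ℝ) • e i) (C.U g (C.mul y y)) =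
      inner ℝ (e i) (C.U g (C.mul (i • x + y) (i • x + y))) := by
    simp only [map_add, map_smul, LinearMap.add_apply, LinearMap.smul_apply, inner_add_right,
      real_inner_smul_left, real_inner_smul_right, C.mul_comm y x]
    ring
  rw [h5, real_inner_comm, ← r.idem hi]
  exact U_pos g _ (e i)

end Cubic

end Pool.Agent.Q86.Alb
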