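import Mathlib

/-!
# The Albert algebra `H₃(𝕆)`, its complexification, and the spectral `L^p`-expression (definitions)
-/

set_option autoImplicit false

namespace Pool.Agent.Q86.Alb

open MeasureTheory

/-- The real octonions: the Cayley–Dickson double of Hamilton's quaternions, i.e. pairs `(a, b)`
of quaternions with product `(a, b) (c, d) = (a c - d̄ b, d a + b c̄)`. -/
def Oct : Type := Quaternion ℝ × Quaternion ℝ

noncomputable instance : AddCommGroup Oct := inferInstanceAs (AddCommGroup (Quaternion ℝ × Quaternion ℝ))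
noncomputable instance : Module ℝ Oct := inferInstanceAs (Module ℝ (Quaternion ℝ × Quaternion ℝ))

noncomputable instance : Mul Oct :=
  ⟨fun x y => (x.1 * y.1 - star y.2 * x.2, y.2 * x.1 + x.2 * star y.1)⟩

/-- octonion conjugation -/
noncomputable instance : Star Oct := ⟨fun x => (star x.1, -x.2)⟩

/-- real part of an octonion -/
noncomputable def Oct.re (x : Oct) : ℝ := x.1.re

/-- a real number as an octonion -/
noncomputable def Oct.ofReal (r : ℝ) : Oct := ((r : Quaternion ℝ), 0)

/-- The real vector space `H₃(𝕆)` of Hermitian `3 × 3` octonion matrices: `(d, o)` stands for the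
matrix with real diagonal entries `d 0, d 1, d 2`, with entries `o 0`, `o 1`, `o 2` in the places
`(1, 2)`, `(2, 0)`, `(0, 1)`, and with their conjugates in the transposed places. -/
def H3 : Type := (Fin 3 → ℝ) × (Fin 3 → Oct)

noncomputable instance : AddCommGroup H3 := inferInstanceAs (AddCommGroup ((Fin 3 → ℝ) × (Fin 3 → Oct)))
noncomputable instance : Module ℝ H3 := inferInstanceAs (Module ℝ ((Fin 3 → ℝ) × (Fin 3 → Oct)))

/-- the Hermitian matrix of an element of `H3` -/
noncomputable def H3.toMatrix (x : H3) : Matrix (Fin 3) (Fin 3) Oct :=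
  !![Oct.ofReal (x.1 0), x.2 2, star (x.2 1);
     star (x.2 2), Oct.ofReal (x.1 1), x.2 0;
     x.2 1, star (x.2 0), Oct.ofReal (x.1 2)]

/-- read off an element of `H3` from a (Hermitian) matrix -/
noncomputable def H3.ofMatrix (m : Matrix (Fin 3) (Fin 3) Oct) : H3 :=
  (![(m 0 0).re, (m 1 1).re, (m 2 2).re], ![m 1 2, m 2 0, m 0 1])

/-- The Jordan product `x ∘ y = (x y + y x) / 2` of the Albert algebra. -/
noncomputable def H3.jmul (x y : H3) : H3 :=
  H3.ofMatrix ((1 / 2 : ℝ) • (x.toMatrix * y.toMatrix + y.toMatrix * x.toMatrix))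

/-- the unit matrix -/
noncomputable def H3.one : H3 := (fun _ => 1, fun _ => 0)

/-- the sum of the diagonal entries -/
noncomputable def H3.tr (x : H3) : ℝ := x.1 0 + x.1 1 + x.1 2

/-- the standard scalar product `Re (x ȳ)` of octonions, in coordinates -/
noncomputable def Oct.dot (x y : Oct) : ℝ :=
  x.1.re * y.1.re + x.1.imI * y.1.imI + x.1.imJ * y.1.imJ + x.1.imK * y.1.imK +
    (x.2.re * y.2.re + x.2.imI * y.2.imI + x.2.imJ * y.2.imJ + x.2.imK * y.2.imK)

/-- The trace form `Re tr (x y)`. -/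
noncomputable def H3.form (x y : H3) : ℝ := (∑ i, x.1 i * y.1 i) + 2 * ∑ i, (x.2 i).dot (y.2 i)

theorem Oct.dot_comm (x y : Oct) : x.dot y = y.dot x := by simp only [Oct.dot]; ring

theorem Oct.dot_self_nonneg (x : Oct) : 0 ≤ x.dot x := by
  have h := fun a : ℝ => mul_self_nonneg a
  simp only [Oct.dot]
  exact add_nonneg (add_nonneg (add_nonneg (add_nonneg (h _) (h _)) (h _)) (h _))
    (add_nonneg (add_nonneg (add_nonneg (h _) (h _)) (h _)) (h _))

theorem Oct.eq_zero_of_dot (x : Oct) (hx : x.dot x = 0) : x = 0 := by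
  have e : ∀ a b c d e f g h : ℝ, a * a + b * b + c * c + d * d + (e * e + f * f + g * g + h * h) = 0 →
      a = 0 ∧ b = 0 ∧ c = 0 ∧ d = 0 ∧ e = 0 ∧ f = 0 ∧ g = 0 ∧ h = 0 := by
    intro a b c d e f g h H
    have h1 := mul_self_nonneg a
    have h2 := mul_self_nonneg b
    have h3 := mul_self_nonneg c
    have h4 := mul_self_nonneg d
    have h5 := mul_self_nonneg e
    have h6 := mul_self_nonneg f
    have h7 := mul_self_nonneg g
    have h8 := mul_self_nonneg h
    refine ⟨?_, ?_, ?_, ?_, ?_, ?_, ?_, ?_⟩ <;> exact mul_self_eq_zero.mp (by linarith)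
  obtain ⟨h1, h2, h3, h4, h5, h6, h7, h8⟩ := e _ _ _ _ _ _ _ _ hx
  exact Prod.ext (QuaternionAlgebra.ext h1 h2 h3 h4) (QuaternionAlgebra.ext h5 h6 h7 h8)

theorem Oct.dot_add (x y z : Oct) : (x + y).dot z = x.dot z + y.dot z := by
  have h : x + y = (x.1 + y.1, x.2 + y.2) := rfl
  simp only [Oct.dot, h, Quaternion.re_add, Quaternion.imI_add, Quaternion.imJ_add,
    Quaternion.imK_add]
  ring

theorem Oct.dot_smul (r : ℝ) (x y : Oct) : (r • x).dot y = r * x.dot y := by
  have h : r • x = (r • x.1, r • x.2) := rfl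
  simp only [Oct.dot, h, Quaternion.re_smul, Quaternion.imI_smul, Quaternion.imJ_smul,
    Quaternion.imK_smul, smul_eq_mul]
  ring

/-- `H₃(𝕆)` is a Euclidean space with the trace form (27 real coordinates). -/
@[instance_reducible] noncomputable def H3.core : InnerProductSpace.Core ℝ H3 where
  inner := H3.form
  conj_inner_symm x y := by
    simp only [H3.form, conj_trivial, Oct.dot_comm (y.2 _), mul_comm (y.1 _)]
  re_inner_nonneg x := by
    show 0 ≤ H3.form x x
    exact add_nonneg (Finset.sum_nonneg fun i _ => mul_self_nonneg _)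
      (mul_nonneg two_pos.le (Finset.sum_nonneg fun i _ => Oct.dot_self_nonneg _))
  add_left x y z := by
    show H3.form (x + y) z = H3.form x z + H3.form y z
    have h1 : ∀ i, (x + y).1 i = x.1 i + y.1 i := fun i => rfl
    have h2 : ∀ i, (x + y).2 i = x.2 i + y.2 i := fun i => rfl
    simp only [H3.form, h1, h2, Oct.dot_add, add_mul, Finset.sum_add_distrib]
    ring
  smul_left x y r := by
    show H3.form (r • x) y = r * H3.form x y
    have h1 : ∀ i, (r • x).1 i = r * x.1 i := fun i => rfl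
    have h2 : ∀ i, (r • x).2 i = r • x.2 i := fun i => rfl
    simp only [H3.form, h1, h2, Oct.dot_smul, mul_assoc, ← Finset.mul_sum]
    ring
  definite x hx := by
    have h : H3.form x x = 0 := hx
    have h1 : 0 ≤ ∑ i, x.1 i * x.1 i := Finset.sum_nonneg fun i _ => mul_self_nonneg _
    have h2 : 0 ≤ ∑ i, (x.2 i).dot (x.2 i) := Finset.sum_nonneg fun i _ => Oct.dot_self_nonneg _
    have h3 : ∑ i, x.1 i * x.1 i = 0 := by simp only [H3.form] at h; linarith
    have h4 : ∑ i, (x.2 i).dot (x.2 i) = 0 := by simp only [H3.form] at h; linarith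
    rw [Finset.sum_eq_zero_iff_of_nonneg fun i _ => mul_self_nonneg _] at h3
    rw [Finset.sum_eq_zero_iff_of_nonneg fun i _ => Oct.dot_self_nonneg _] at h4
    exact Prod.ext (funext fun i => mul_self_eq_zero.mp (h3 i (Finset.mem_univ i)))
      (funext fun i => Oct.eq_zero_of_dot _ (h4 i (Finset.mem_univ i)))

noncomputable instance : NormedAddCommGroup H3 := H3.core.toNormedAddCommGroup
noncomputable instance : InnerProductSpace ℝ H3 := InnerProductSpace.ofCore H3.core.toCore

theorem H3.inner_def (x y : H3) : inner ℝ x y = H3.form x y := rfl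

/-- The complexification `H₃(𝕆_ℂ) = H₃(𝕆) + i H₃(𝕆)`; the pair `(a, b)` stands for `a + i b`. -/
abbrev HC : Type := H3 × H3

/-- the complex bilinear extension of the Jordan product -/
noncomputable def HC.jmul (x y : HC) : HC :=
  (H3.jmul x.1 y.1 - H3.jmul x.2 y.2, H3.jmul x.1 y.2 + H3.jmul x.2 y.1)

/-- the involution `(a + i b)* = a - i b` -/
noncomputable def HC.conj (x : HC) : HC := (x.1, -x.2)

/-- multiplication by a complex scalar -/
noncomputable def HC.csmul (c : ℂ) (x : HC) : HC :=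
  (c.re • x.1 - c.im • x.2, c.re • x.2 + c.im • x.1)

/-- A (finite, everywhere defined) positive trace on `M = L^∞(Ω, H₃(𝕆_ℂ))`. The elements of `M` are
the functions `x` with `MemLp x ⊤ μ` (strongly measurable and essentially bounded), modulo null
functions. Every normal finite faithful trace is such a `τ`; normality and faithfulness are not
needed. -/
structure IsPosTrace {Ω : Type*} [MeasurableSpace Ω] (μ : Measure Ω) (τ : (Ω → HC) → ℂ) : Prop where
  congr : ∀ x y, MemLp x ⊤ μ → MemLp y ⊤ μ → x =ᵐ[μ] y → τ x = τ y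
  add : ∀ x y, MemLp x ⊤ μ → MemLp y ⊤ μ → τ (x + y) = τ x + τ y
  smul : ∀ (c : ℂ) (x), MemLp x ⊤ μ → τ (fun ω => HC.csmul c (x ω)) = c * τ x
  pos : ∀ x, MemLp x ⊤ μ → 0 ≤ (τ fun ω => HC.jmul (HC.conj (x ω)) (x ω)).re ∧
    (τ fun ω => HC.jmul (HC.conj (x ω)) (x ω)).im = 0
  trace : ∀ x y z, MemLp x ⊤ μ → MemLp y ⊤ μ → MemLp z ⊤ μ →
    τ (fun ω => HC.jmul (x ω) (HC.jmul (y ω) (z ω))) = τ (fun ω => HC.jmul (HC.jmul (x ω) (y ω)) (z ω))

/-- `b = φ(a)` in the sense of functional calculus: `a = ∑ i • e i` with non-zero idempotents `e i`,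
`i ∈ s`, with `e i ∘ e j = 0` for `i ≠ j` and `∑ e i = 1` (so that `s` is the spectrum of `a`), and
`b = ∑ φ i • e i`. -/
def IsFC (φ : ℝ → ℝ) (a b : H3) : Prop :=
  ∃ (s : Finset ℝ) (e : ℝ → H3), (∀ i ∈ s, e i ≠ 0) ∧
    (∀ i ∈ s, ∀ j ∈ s, (e i).jmul (e j) = if i = j then e i else 0) ∧
    ∑ i ∈ s, e i = H3.one ∧ a = ∑ i ∈ s, i • e i ∧ b = ∑ i ∈ s, φ i • e i

open Classical in
/-- functional calculus in `H₃(𝕆)` -/
noncomputable def fc (φ : ℝ → ℝ) (a : H3) : H3 :=
  if h : ∃ b, IsFC φ a b then h.choose else 0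

/-- `(x* ∘ x)^(p / 2)` for `x` in `H₃(𝕆_ℂ)` (the element `x* ∘ x` lies in `H₃(𝕆)`) -/
noncomputable def HC.absPow (p : ℝ) (x : HC) : HC :=
  (fc (fun t => t ^ (p / 2)) (HC.jmul (HC.conj x) x).1, 0)

/-- `‖x‖_p = (τ [(x* ∘ x)^(p / 2)])^(1 / p)` -/
noncomputable def normP {Ω : Type*} (τ : (Ω → HC) → ℂ) (p : ℝ) (x : Ω → HC) : ℝ :=
  (τ fun ω => HC.absPow p (x ω)).re ^ (1 / p)

end Pool.Agent.Q86.Alb
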