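import Pool.Agent.Q86.AlbD

/-!
# The triangle inequality at a point
-/

set_option autoImplicit false

namespace Pool.Agent.Q86.Alb

namespace Cubic

variable {J : Type*} [NormedAddCommGroup J] [InnerProductSpace ℝ J] {C : Cubic J}

theorem young_trace {a a' : J} {s s' : Finset ℝ} {e e' : ℝ → J} (h : C.Res a s e)
    (h' : C.Res a' s' e') (φ ψ F G : ℝ → ℝ)
    (H : ∀ i ∈ s, ∀ j ∈ s', φ i * ψ j ≤ F i + G j) :
    inner ℝ (fs φ s e) (fs ψ s' e') ≤ C.t (fs F s e) + C.t (fs G s' e') := by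
  have e1 : inner ℝ (fs φ s e) (fs ψ s' e') =
      ∑ i ∈ s, ∑ j ∈ s', (φ i * ψ j) * inner ℝ (e i) (e' j) := by
    rw [fs, fs, sum_inner]
    refine Finset.sum_congr rfl fun i _ => ?_
    rw [inner_sum]
    refine Finset.sum_congr rfl fun j _ => ?_
    rw [real_inner_smul_left, real_inner_smul_right]; ring
  have e2 : C.t (fs F s e) = ∑ i ∈ s, ∑ j ∈ s', F i * inner ℝ (e i) (e' j) := by
    rw [t_fs]
    refine Finset.sum_congr rfl fun i _ => ?_
    rw [← Finset.mul_sum, ← inner_sum, h'.sum, C.inner_one]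
  have e3 : C.t (fs G s' e') = ∑ i ∈ s, ∑ j ∈ s', G j * inner ℝ (e i) (e' j) := by
    rw [t_fs, Finset.sum_comm]
    refine Finset.sum_congr rfl fun j _ => ?_
    rw [← Finset.mul_sum, ← sum_inner, h.sum]; rfl
  rw [e1, e2, e3, ← Finset.sum_add_distrib]
  refine Finset.sum_le_sum fun i hi => ?_
  rw [← Finset.sum_add_distrib]
  refine Finset.sum_le_sum fun j hj => ?_
  have h1 : 0 ≤ inner ℝ (e i) (e' j) := by
    have := inner_idem_sq (h.idem hi) (e' j)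
    rwa [h'.idem hj] at this
  nlinarith [mul_le_mul_of_nonneg_right (H i hi j hj) h1]

/-- scalar Young inequality, `p ≥ 2` -/
theorem young_ge {p : ℝ} (hp : 2 ≤ p) {n m : ℝ} (hn : 0 < n) (hm : 0 < m) {x y : ℝ} (hx : 0 ≤ x)
    (hy : 0 ≤ y) : x ^ (p / 2 - 1) * y ≤
      n ^ (p - 2) * m ^ 2 * ((p - 2) / p * (x ^ (p / 2) / n ^ p)) +
        n ^ (p - 2) * m ^ 2 * (2 / p * (y ^ (p / 2) / m ^ p)) := by
  have hp0 : 0 < p := by linarith
  have h := Real.geom_mean_le_arith_mean2_weighted (w₁ := (p - 2) / p) (w₂ := 2 / p)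
    (p₁ := x ^ (p / 2) / n ^ p) (p₂ := y ^ (p / 2) / m ^ p) (div_nonneg (by linarith) hp0.le)
    (by positivity) (by positivity) (by positivity) (by field_simp; ring)
  have e1 : (x ^ (p / 2) / n ^ p) ^ ((p - 2) / p) = x ^ (p / 2 - 1) / n ^ (p - 2) := by
    rw [Real.div_rpow (by positivity) (by positivity), ← Real.rpow_mul hx, ← Real.rpow_mul hn.le]
    congr 2 <;> field_simp
  have e2 : (y ^ (p / 2) / m ^ p) ^ (2 / p) = y / m ^ 2 := by
    rw [Real.div_rpow (by positivity) (by positivity), ← Real.rpow_mul hy, ← Real.rpow_mul hm.le,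
      show p / 2 * (2 / p) = 1 by field_simp, show p * (2 / p) = 2 by field_simp, Real.rpow_one]
    norm_num
  rw [e1, e2] at h
  have hk : 0 < n ^ (p - 2) * m ^ 2 := by positivity
  calc x ^ (p / 2 - 1) * y = n ^ (p - 2) * m ^ 2 * (x ^ (p / 2 - 1) / n ^ (p - 2) * (y / m ^ 2)) := by
        field_simp
    _ ≤ n ^ (p - 2) * m ^ 2 * ((p - 2) / p * (x ^ (p / 2) / n ^ p) + 2 / p * (y ^ (p / 2) / m ^ p)) :=
        mul_le_mul_of_nonneg_left h hk.le
    _ = _ := by ring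

/-- scalar Young inequality, `1 ≤ p < 2` -/
theorem young_lt {p : ℝ} (hp : 1 ≤ p) (hp2 : p < 2) {n m : ℝ} (hn : 0 < n) (hm : 0 < m) {x y : ℝ}
    (hx : 0 ≤ x) (hy : 0 ≤ y) : y ^ ((2 - p) / 2) * x ^ (p - 1) ≤
      m ^ (2 - p) * n ^ (2 * p - 2) * ((2 - p) / p * (y ^ (p / 2) / m ^ p)) +
        m ^ (2 - p) * n ^ (2 * p - 2) * ((2 * p - 2) / p * (x ^ (p / 2) / n ^ p)) := by
  have hp0 : 0 < p := by linarith
  have h := Real.geom_mean_le_arith_mean2_weighted (w₁ := (2 - p) / p) (w₂ := (2 * p - 2) / p)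
    (p₁ := y ^ (p / 2) / m ^ p) (p₂ := x ^ (p / 2) / n ^ p) (div_nonneg (by linarith) hp0.le)
    (div_nonneg (by linarith) hp0.le) (by positivity) (by positivity) (by field_simp; ring)
  have e1 : (y ^ (p / 2) / m ^ p) ^ ((2 - p) / p) = y ^ ((2 - p) / 2) / m ^ (2 - p) := by
    rw [Real.div_rpow (by positivity) (by positivity), ← Real.rpow_mul hy, ← Real.rpow_mul hm.le]
    congr 2 <;> field_simp
  have e2 : (x ^ (p / 2) / n ^ p) ^ ((2 * p - 2) / p) = x ^ (p - 1) / n ^ (2 * p - 2) := by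
    rw [Real.div_rpow (by positivity) (by positivity), ← Real.rpow_mul hx, ← Real.rpow_mul hn.le]
    congr 2 <;> field_simp
  rw [e1, e2] at h
  have hk : 0 < m ^ (2 - p) * n ^ (2 * p - 2) := by positivity
  calc y ^ ((2 - p) / 2) * x ^ (p - 1) = m ^ (2 - p) * n ^ (2 * p - 2) *
        (y ^ ((2 - p) / 2) / m ^ (2 - p) * (x ^ (p - 1) / n ^ (2 * p - 2))) := by field_simp
    _ ≤ m ^ (2 - p) * n ^ (2 * p - 2) *
        ((2 - p) / p * (y ^ (p / 2) / m ^ p) + (2 * p - 2) / p * (x ^ (p / 2) / n ^ p)) :=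
        mul_le_mul_of_nonneg_left h hk.le
    _ = _ := by ring

variable (C) in
/-- `a² + b²` -/
noncomputable def ab (a b : J) : J := C.mul a a + C.mul b b

variable [FiniteDimensional ℝ J]

theorem pos_ab (a b : J) : C.Pos (C.ab a b) := (pos_sq a).add (pos_sq b)

/-- `tr y^(p/2)` along a resolution -/
theorem t_rpow_nonneg {a : J} {s : Finset ℝ} {e : ℝ → J} (h : C.Res a s e) (ha : C.Pos a) (r : ℝ) :
    0 ≤ C.t (fs (fun i => i ^ r) s e) := by
  rw [t_fs]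
  exact Finset.sum_nonneg fun i hi =>
    mul_nonneg (Real.rpow_nonneg (h.nonneg ha hi) _) (h.t_pos hi).le

theorem sq_le (c : J) (hc : C.Pos c) {θ : ℝ} (h0 : 0 < θ) (h1 : θ < 1) (x y : J) :
    inner ℝ c (C.mul (x + y) (x + y)) ≤
      inner ℝ c (C.mul x x) / θ + inner ℝ c (C.mul y y) / (1 - θ) := by
  have h := hc ((1 - θ) • x - θ • y)
  simp only [map_add, map_sub, map_smul, LinearMap.add_apply, LinearMap.sub_apply,
    LinearMap.smul_apply, inner_add_right, inner_sub_right, real_inner_smul_right,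
    C.mul_comm y x] at h ⊢
  have h2 : 0 < 1 - θ := by linarith
  have h3 : inner ℝ c (C.mul x x) / θ + inner ℝ c (C.mul y y) / (1 - θ) -
      (inner ℝ c (C.mul x x) + inner ℝ c (C.mul x y) + (inner ℝ c (C.mul x y) + inner ℝ c (C.mul y y)))
      = ((1 - θ) * ((1 - θ) * inner ℝ c (C.mul x x) - θ * inner ℝ c (C.mul x y)) -
          θ * ((1 - θ) * inner ℝ c (C.mul x y) - θ * inner ℝ c (C.mul y y))) / (θ * (1 - θ)) := by
    field_simp
    ring
  have h4 : 0 ≤ ((1 - θ) * ((1 - θ) * inner ℝ c (C.mul x x) - θ * inner ℝ c (C.mul x y)) -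
          θ * ((1 - θ) * inner ℝ c (C.mul x y) - θ * inner ℝ c (C.mul y y))) / (θ * (1 - θ)) := by
    refine div_nonneg ?_ (by positivity)
    linarith
  linarith

omit [FiniteDimensional ℝ J] in
theorem t_fs_mul (s : Finset ℝ) (e : ℝ → J) (k : ℝ) (φ : ℝ → ℝ) :
    C.t (fs (fun i => k * φ i) s e) = k * C.t (fs φ s e) := by
  rw [t_fs, t_fs, Finset.mul_sum]
  exact Finset.sum_congr rfl fun i _ => mul_assoc _ _ _

omit [FiniteDimensional ℝ J] in
theorem fs_congr {s : Finset ℝ} {e : ℝ → J} {φ ψ : ℝ → ℝ} (h : ∀ i ∈ s, φ i = ψ i) :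
    fs φ s e = fs ψ s e := Finset.sum_congr rfl fun i hi => by rw [h i hi]

omit [FiniteDimensional ℝ J] in
theorem Res.inner_fs_fs {a : J} {s : Finset ℝ} {e : ℝ → J} (h : C.Res a s e) (φ ψ : ℝ → ℝ) :
    inner ℝ (fs φ s e) (fs ψ s e) = C.t (fs (fun i => φ i * ψ i) s e) := by
  rw [← h.fs_mul, C.t_mul]

theorem tri_ge {p : ℝ} (hp : 2 ≤ p) {a₁ b₁ a₂ b₂ : J} {s s₁ s₂ : Finset ℝ} {e e₁ e₂ : ℝ → J}
    (h : C.Res (C.ab (a₁ + a₂) (b₁ + b₂)) s e) (h₁ : C.Res (C.ab a₁ b₁) s₁ e₁)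
    (h₂ : C.Res (C.ab a₂ b₂) s₂ e₂) {m₁ m₂ : ℝ} (hm₁ : 0 < m₁) (hm₂ : 0 < m₂)
    (hA₁ : C.t (fs (fun i => i ^ (p / 2)) s₁ e₁) ≤ m₁ ^ p)
    (hA₂ : C.t (fs (fun i => i ^ (p / 2)) s₂ e₂) ≤ m₂ ^ p) :
    C.t (fs (fun i => i ^ (p / 2)) s e) ≤ (m₁ + m₂) ^ p := by
  have hp0 : 0 < p := by linarith
  set A := C.t (fs (fun i => i ^ (p / 2)) s e) with hA
  by_contra hcon
  rw [not_le] at hcon
  have hm : 0 < m₁ + m₂ := by linarith
  have hA0 : 0 < A := lt_trans (by positivity) hcon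
  set n := A ^ (1 / p) with hn
  have hn0 : 0 < n := by positivity
  have hnp : n ^ p = A := by
    rw [hn, ← Real.rpow_mul hA0.le, one_div_mul_cancel hp0.ne', Real.rpow_one]
  have hnm : m₁ + m₂ < n := by
    rw [← hnp] at hcon
    exact lt_of_not_ge fun h => absurd hcon (not_lt.mpr (Real.rpow_le_rpow hn0.le h hp0.le))
  set c := fs (fun i => i ^ (p / 2 - 1)) s e with hc
  have hpos := fun i (hi : i ∈ s) => h.nonneg (pos_ab _ _) hi
  have hcpos : C.Pos c := h.pos_fs fun i hi => Real.rpow_nonneg (hpos i hi) _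
  have e1 : inner ℝ c (C.ab (a₁ + a₂) (b₁ + b₂)) = A := by
    conv_lhs => rw [← h.fs_id]
    rw [hc, h.inner_fs_fs, hA]
    congr 1
    refine fs_congr fun i hi => ?_
    rcases (hpos i hi).eq_or_lt with h0 | h0
    · rw [← h0, mul_zero, Real.zero_rpow (by positivity)]
    · rw [Real.rpow_sub_one h0.ne']; field_simp
  have bound : ∀ {a' : J} {s' : Finset ℝ} {e' : ℝ → J} {m : ℝ}, C.Res a' s' e' → C.Pos a' → 0 < m →
      C.t (fs (fun i => i ^ (p / 2)) s' e') ≤ m ^ p → inner ℝ c a' ≤ n ^ (p - 2) * m ^ 2 := by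
    intro a' s' e' m h' ha' hm' hA'
    have y := young_trace h h' (fun i => i ^ (p / 2 - 1)) (fun j => j)
      (fun i => (n ^ (p - 2) * m ^ 2 * ((p - 2) / p) / n ^ p) * i ^ (p / 2))
      (fun j => (n ^ (p - 2) * m ^ 2 * (2 / p) / m ^ p) * j ^ (p / 2)) (fun i hi j hj => by
        have := young_ge hp hn0 hm' (hpos i hi) (h'.nonneg ha' hj)
        refine this.trans (le_of_eq ?_)
        ring)
    rw [h'.fs_id, t_fs_mul, t_fs_mul, ← hA] at y
    refine y.trans ?_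
    have k1 : n ^ (p - 2) * m ^ 2 * ((p - 2) / p) / n ^ p * A = n ^ (p - 2) * m ^ 2 * ((p - 2) / p) := by
      rw [hnp]; field_simp
    have k2 : n ^ (p - 2) * m ^ 2 * (2 / p) / m ^ p * C.t (fs (fun i => i ^ (p / 2)) s' e') ≤
        n ^ (p - 2) * m ^ 2 * (2 / p) := by
      rw [div_mul_eq_mul_div, div_le_iff₀ (by positivity)]
      exact mul_le_mul_of_nonneg_left hA' (by positivity)
    rw [k1]
    calc _ ≤ n ^ (p - 2) * m ^ 2 * ((p - 2) / p) + n ^ (p - 2) * m ^ 2 * (2 / p) := by linarith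
      _ = n ^ (p - 2) * m ^ 2 := by field_simp; ring
  have b1 := bound h₁ (pos_ab _ _) hm₁ hA₁
  have b2 := bound h₂ (pos_ab _ _) hm₂ hA₂
  set θ := m₁ / (m₁ + m₂) with hθ
  have hθ0 : 0 < θ := by positivity
  have hθ1 : 1 - θ = m₂ / (m₁ + m₂) := by rw [hθ]; field_simp; ring
  have hθ2 : θ < 1 := by
    have : 0 < 1 - θ := by rw [hθ1]; positivity
    linarith
  have q1 := sq_le c hcpos hθ0 hθ2 a₁ a₂
  have q2 := sq_le c hcpos hθ0 hθ2 b₁ b₂
  have q3 : A ≤ inner ℝ c (C.ab a₁ b₁) / θ + inner ℝ c (C.ab a₂ b₂) / (1 - θ) := by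
    rw [← e1, ab, ab, ab, inner_add_right, inner_add_right, inner_add_right, add_div, add_div]
    linarith
  have q4 : A ≤ n ^ (p - 2) * (m₁ + m₂) ^ 2 := by
    calc A ≤ n ^ (p - 2) * m₁ ^ 2 / θ + n ^ (p - 2) * m₂ ^ 2 / (1 - θ) := by
          refine q3.trans (add_le_add ?_ ?_)
          · exact div_le_div_of_nonneg_right b1 hθ0.le
          · exact div_le_div_of_nonneg_right b2 (by linarith)
      _ = n ^ (p - 2) * (m₁ + m₂) ^ 2 := by
          rw [hθ1, hθ]; field_simp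
  have q5 : A = n ^ (p - 2) * n ^ 2 := by
    rw [← hnp, ← Real.rpow_natCast, ← Real.rpow_add hn0]; norm_num
  rw [q5] at q4
  have q6 := le_of_mul_le_mul_left q4 (by positivity)
  nlinarith [q6, hnm, hm]

/-- one half of the estimate for `p < 2` -/
theorem half_lt {p : ℝ} (hp : 1 ≤ p) (hp2 : p < 2) {Y a b A' B' : J} {s s₁ : Finset ℝ}
    {e e₁ : ℝ → J} (h : C.Res Y s e) (hY : Y = C.ab A' B') (h₁ : C.Res (C.ab a b) s₁ e₁)
    {n m : ℝ} (hn : 0 < n) (hm : 0 < m) (hA : C.t (fs (fun i => i ^ (p / 2)) s e) ≤ n ^ p)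
    (hA₁ : C.t (fs (fun i => i ^ (p / 2)) s₁ e₁) ≤ m ^ p) :
    inner ℝ (fs (fun i => i ^ ((p - 2) / 2)) s e) (C.mul A' a + C.mul B' b) ≤ m * n ^ (p - 1) := by
  have hp0 : 0 < p := by linarith
  set H := fs (fun i => i ^ ((p - 2) / 2)) s e with hH
  set V := fs (fun i => i ^ ((p - 2) / 2) * i ^ ((p - 2) / 2) * i) s e with hV
  have hYpos : C.Pos Y := by rw [hY]; exact pos_ab _ _
  have hpos := fun i (hi : i ∈ s) => h.nonneg hYpos hi
  have hpos₁ := fun i (hi : i ∈ s₁) => h₁.nonneg (pos_ab _ _) hi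
  have hUV : C.U H Y = V := by
    conv_lhs => rw [← h.fs_id]
    rw [hH, h.U_fs]
  have htV : 0 ≤ C.t V := by
    rw [hV, t_fs]
    exact Finset.sum_nonneg fun i hi => mul_nonneg (mul_nonneg (mul_self_nonneg _) (hpos i hi))
      (h.t_pos hi).le
  set τ := (m / n) ^ (p - 1) with hτ
  have hτ0 : 0 < τ := by positivity
  refine le_of_forall_pos_le_add fun ε hε => ?_
  set δ := ε / (C.t V + 1) with hδ
  have hδ0 : 0 < δ := by positivity
  set φ : ℝ → ℝ := fun i => τ * i ^ ((2 - p) / 2) + δ with hφ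
  have hφ0 : ∀ i ∈ s₁, 0 < φ i := fun i hi =>
    add_pos_of_nonneg_of_pos (mul_nonneg hτ0.le (Real.rpow_nonneg (hpos₁ i hi) _)) hδ0
  set c := fs φ s₁ e₁ with hc
  set g := fs (fun i => (Real.sqrt (φ i))⁻¹) s₁ e₁ with hg
  have hgc : C.U g c = C.one := by
    rw [hg, hc, h₁.U_fs, ← h₁.fs_one]
    refine fs_congr fun i hi => ?_
    have := hφ0 i hi
    rw [← mul_inv, Real.mul_self_sqrt this.le, inv_mul_cancel₀ this.ne']
  have k1 := key hgc H A' (-a)
  have k2 := key hgc H B' (-b)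
  -- the first term
  have f1 : inner ℝ (C.U H c) (C.mul A' A') + inner ℝ (C.U H c) (C.mul B' B') ≤
      m * n ^ (p - 1) + ε := by
    rw [← inner_add_right]
    change inner ℝ (C.U H c) (C.ab A' B') ≤ _
    rw [← hY, C.U_symm, hUV]
    have y := young_trace h₁ h φ (fun i => i ^ ((p - 2) / 2) * i ^ ((p - 2) / 2) * i)
      (fun j => (τ * (m ^ (2 - p) * n ^ (2 * p - 2) * ((2 - p) / p)) / m ^ p) * j ^ (p / 2))
      (fun i => (τ * (m ^ (2 - p) * n ^ (2 * p - 2) * ((2 * p - 2) / p)) / n ^ p) * i ^ (p / 2) +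
        δ * (i ^ ((p - 2) / 2) * i ^ ((p - 2) / 2) * i)) (fun j hj i hi => by
        have hv : i ^ ((p - 2) / 2) * i ^ ((p - 2) / 2) * i ≤ i ^ (p - 1) := by
          rcases (hpos i hi).eq_or_lt with h0 | h0
          · rw [← h0, mul_zero]; exact Real.rpow_nonneg le_rfl _
          · rw [← Real.rpow_add h0, ← Real.rpow_add_one h0.ne']
            exact le_of_eq (by ring_nf)
        have hyl := young_lt hp hp2 hn hm (hpos i hi) (hpos₁ j hj)
        have h3 : j ^ ((2 - p) / 2) * (i ^ ((p - 2) / 2) * i ^ ((p - 2) / 2) * i) ≤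
            j ^ ((2 - p) / 2) * i ^ (p - 1) :=
          mul_le_mul_of_nonneg_left hv (Real.rpow_nonneg (hpos₁ j hj) _)
        have h4 := mul_le_mul_of_nonneg_left (h3.trans hyl) hτ0.le
        calc φ j * (i ^ ((p - 2) / 2) * i ^ ((p - 2) / 2) * i) =
            τ * (j ^ ((2 - p) / 2) * (i ^ ((p - 2) / 2) * i ^ ((p - 2) / 2) * i)) +
              δ * (i ^ ((p - 2) / 2) * i ^ ((p - 2) / 2) * i) := by rw [hφ]; ring
          _ ≤ _ := by
            refine (add_le_add_left h4 _).trans (le_of_eq ?_)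
            ring)
    refine y.trans ?_
    have g1 : C.t (fs (fun i => (τ * (m ^ (2 - p) * n ^ (2 * p - 2) * ((2 * p - 2) / p)) / n ^ p) *
        i ^ (p / 2) + δ * (i ^ ((p - 2) / 2) * i ^ ((p - 2) / 2) * i)) s e) =
        (τ * (m ^ (2 - p) * n ^ (2 * p - 2) * ((2 * p - 2) / p)) / n ^ p) *
          C.t (fs (fun i => i ^ (p / 2)) s e) + δ * C.t V := by
      rw [t_fs, t_fs, hV, t_fs, Finset.mul_sum, Finset.mul_sum, ← Finset.sum_add_distrib]
      exact Finset.sum_congr rfl fun i _ => by ring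
    rw [g1, t_fs_mul]
    have g2 : τ * (m ^ (2 - p) * n ^ (2 * p - 2) * ((2 - p) / p)) / m ^ p *
        C.t (fs (fun i => i ^ (p / 2)) s₁ e₁) ≤ τ * (m ^ (2 - p) * n ^ (2 * p - 2) * ((2 - p) / p)) := by
      rw [div_mul_eq_mul_div, div_le_iff₀ (by positivity)]
      refine mul_le_mul_of_nonneg_left hA₁ ?_
      have : 0 ≤ (2 - p) / p := div_nonneg (by linarith) hp0.le
      positivity
    have g3 : τ * (m ^ (2 - p) * n ^ (2 * p - 2) * ((2 * p - 2) / p)) / n ^ p *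
        C.t (fs (fun i => i ^ (p / 2)) s e) ≤
        τ * (m ^ (2 - p) * n ^ (2 * p - 2) * ((2 * p - 2) / p)) := by
      rw [div_mul_eq_mul_div, div_le_iff₀ (by positivity)]
      refine mul_le_mul_of_nonneg_left hA ?_
      have : 0 ≤ (2 * p - 2) / p := div_nonneg (by linarith) hp0.le
      positivity
    have g4 : δ * C.t V ≤ ε := by
      rw [hδ, div_mul_eq_mul_div, div_le_iff₀ (by positivity)]
      nlinarith
    have g5 : τ * (m ^ (2 - p) * n ^ (2 * p - 2) * ((2 - p) / p)) +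
        τ * (m ^ (2 - p) * n ^ (2 * p - 2) * ((2 * p - 2) / p)) = m * n ^ (p - 1) := by
      have g6 : τ * (m ^ (2 - p) * n ^ (2 * p - 2)) = m * n ^ (p - 1) := by
        rw [hτ, Real.div_rpow hm.le hn.le, show m ^ (p - 1) / n ^ (p - 1) *
          (m ^ (2 - p) * n ^ (2 * p - 2)) = (m ^ (p - 1) * m ^ (2 - p)) *
          (n ^ (2 * p - 2) / n ^ (p - 1)) by ring, ← Real.rpow_add hm, ← Real.rpow_sub hn]
        rw [show p - 1 + (2 - p) = 1 by ring, show 2 * p - 2 - (p - 1) = p - 1 by ring,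
          Real.rpow_one]
      have g7 : (2 - p) / p + (2 * p - 2) / p = 1 := by field_simp; ring
      calc _ = τ * (m ^ (2 - p) * n ^ (2 * p - 2)) * ((2 - p) / p + (2 * p - 2) / p) := by ring
        _ = _ := by rw [g6, g7, _root_.mul_one]
    linarith
  -- the second term
  have f2 : inner ℝ (C.mul g g) (C.mul a a) + inner ℝ (C.mul g g) (C.mul b b) ≤
      m * n ^ (p - 1) := by
    rw [← inner_add_right]
    change inner ℝ (C.mul g g) (C.ab a b) ≤ _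
    conv_lhs => rw [← h₁.fs_id]
    rw [hg, h₁.fs_mul, h₁.inner_fs_fs]
    have g1 : C.t (fs (fun i => (Real.sqrt (φ i))⁻¹ * (Real.sqrt (φ i))⁻¹ * i) s₁ e₁) ≤
        τ⁻¹ * C.t (fs (fun i => i ^ (p / 2)) s₁ e₁) := by
      rw [← t_fs_mul, t_fs, t_fs]
      refine Finset.sum_le_sum fun i hi => mul_le_mul_of_nonneg_right ?_ (h₁.t_pos hi).le
      have hφi := hφ0 i hi
      rw [← mul_inv, Real.mul_self_sqrt hφi.le]
      rw [inv_mul_eq_div, inv_mul_eq_div, div_le_div_iff₀ hφi hτ0]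
      have hi0 := hpos₁ i hi
      have h5 : i ^ (p / 2) * i ^ ((2 - p) / 2) = i := by
        rcases hi0.eq_or_lt with h0 | h0
        · rw [← h0, Real.zero_rpow (by positivity), zero_mul]
        · rw [← Real.rpow_add h0, show p / 2 + (2 - p) / 2 = 1 by ring, Real.rpow_one]
      calc i * τ = τ * (i ^ (p / 2) * i ^ ((2 - p) / 2)) := by rw [h5]; ring
        _ ≤ τ * (i ^ (p / 2) * i ^ ((2 - p) / 2)) + i ^ (p / 2) * δ :=
          le_add_of_nonneg_right (mul_nonneg (Real.rpow_nonneg hi0 _) hδ0.le)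
        _ = i ^ (p / 2) * φ i := by rw [hφ]; ring
    refine g1.trans ((mul_le_mul_of_nonneg_left hA₁ (by positivity)).trans (le_of_eq ?_))
    rw [hτ, Real.div_rpow hm.le hn.le, inv_div, Real.rpow_sub_one hm.ne']
    field_simp
  have f3 : inner ℝ H (C.mul A' (-a)) + inner ℝ H (C.mul B' (-b)) =
      - inner ℝ H (C.mul A' a + C.mul B' b) := by
    rw [map_neg, map_neg, inner_neg_right, inner_neg_right, inner_add_right]; ring
  have f4 : C.mul (-a) (-a) = C.mul a a := by simp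
  have f5 : C.mul (-b) (-b) = C.mul b b := by simp
  rw [f4] at k1
  rw [f5] at k2
  linarith

theorem tri_lt {p : ℝ} (hp : 1 ≤ p) (hp2 : p < 2) {a₁ b₁ a₂ b₂ : J} {s s₁ s₂ : Finset ℝ}
    {e e₁ e₂ : ℝ → J} (h : C.Res (C.ab (a₁ + a₂) (b₁ + b₂)) s e) (h₁ : C.Res (C.ab a₁ b₁) s₁ e₁)
    (h₂ : C.Res (C.ab a₂ b₂) s₂ e₂) {m₁ m₂ : ℝ} (hm₁ : 0 < m₁) (hm₂ : 0 < m₂)
    (hA₁ : C.t (fs (fun i => i ^ (p / 2)) s₁ e₁) ≤ m₁ ^ p)
    (hA₂ : C.t (fs (fun i => i ^ (p / 2)) s₂ e₂) ≤ m₂ ^ p) :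
    C.t (fs (fun i => i ^ (p / 2)) s e) ≤ (m₁ + m₂) ^ p := by
  have hp0 : 0 < p := by linarith
  set A := C.t (fs (fun i => i ^ (p / 2)) s e) with hA
  by_contra hcon
  rw [not_le] at hcon
  have hm : 0 < m₁ + m₂ := by linarith
  have hA0 : 0 < A := lt_trans (by positivity) hcon
  set n := A ^ (1 / p) with hn
  have hn0 : 0 < n := by positivity
  have hnp : n ^ p = A := by
    rw [hn, ← Real.rpow_mul hA0.le, one_div_mul_cancel hp0.ne', Real.rpow_one]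
  have hnm : m₁ + m₂ < n := by
    rw [← hnp] at hcon
    exact lt_of_not_ge fun h => absurd hcon (not_lt.mpr (Real.rpow_le_rpow hn0.le h hp0.le))
  have hpos := fun i (hi : i ∈ s) => h.nonneg (pos_ab _ _) hi
  have q1 := half_lt hp hp2 h rfl h₁ hn0 hm₁ (by rw [← hA, hnp]) hA₁
  have q2 := half_lt hp hp2 h rfl h₂ hn0 hm₂ (by rw [← hA, hnp]) hA₂
  set H := fs (fun i => i ^ ((p - 2) / 2)) s e with hH
  have e1 : inner ℝ H (C.ab (a₁ + a₂) (b₁ + b₂)) = A := by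
    conv_lhs => rw [← h.fs_id]
    rw [hH, h.inner_fs_fs, hA]
    congr 1
    refine fs_congr fun i hi => ?_
    rcases (hpos i hi).eq_or_lt with h0 | h0
    · rw [← h0, mul_zero, Real.zero_rpow (by positivity)]
    · rw [← Real.rpow_add_one h0.ne']; congr 1; ring
  have e2 : inner ℝ H (C.mul (a₁ + a₂) a₁ + C.mul (b₁ + b₂) b₁) +
      inner ℝ H (C.mul (a₁ + a₂) a₂ + C.mul (b₁ + b₂) b₂) = A := by
    rw [← e1, ← inner_add_right, ab, C.mul_add (a₁ + a₂) a₁, C.mul_add (b₁ + b₂) b₁]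
    congr 1; abel
  have e3 : A ≤ (m₁ + m₂) * n ^ (p - 1) := by
    calc A ≤ m₁ * n ^ (p - 1) + m₂ * n ^ (p - 1) := by linarith
      _ = _ := by ring
  have e4 : A = n * n ^ (p - 1) := by
    rw [← hnp, Real.rpow_sub_one hn0.ne']; field_simp
  rw [e4] at e3
  have := le_of_mul_le_mul_right e3 (by positivity)
  linarith

/-- the triangle inequality at a point -/
theorem tri {p : ℝ} (hp : 1 ≤ p) {a₁ b₁ a₂ b₂ : J} {s s₁ s₂ : Finset ℝ}
    {e e₁ e₂ : ℝ → J} (h : C.Res (C.ab (a₁ + a₂) (b₁ + b₂)) s e) (h₁ : C.Res (C.ab a₁ b₁) s₁ e₁)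
    (h₂ : C.Res (C.ab a₂ b₂) s₂ e₂) :
    C.t (fs (fun i => i ^ (p / 2)) s e) ^ (1 / p) ≤
      C.t (fs (fun i => i ^ (p / 2)) s₁ e₁) ^ (1 / p) +
        C.t (fs (fun i => i ^ (p / 2)) s₂ e₂) ^ (1 / p) := by
  have hp0 : 0 < p := by linarith
  have n0 := t_rpow_nonneg h (pos_ab _ _) (p / 2)
  have n1 := t_rpow_nonneg h₁ (pos_ab _ _) (p / 2)
  have n2 := t_rpow_nonneg h₂ (pos_ab _ _) (p / 2)
  refine le_of_forall_pos_le_add fun ε hε => ?_
  set m₁ := C.t (fs (fun i => i ^ (p / 2)) s₁ e₁) ^ (1 / p) + ε / 2 with hm₁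
  set m₂ := C.t (fs (fun i => i ^ (p / 2)) s₂ e₂) ^ (1 / p) + ε / 2 with hm₂
  have hm₁0 : 0 < m₁ := by positivity
  have hm₂0 : 0 < m₂ := by positivity
  have aux : ∀ x m : ℝ, 0 ≤ x → x ^ (1 / p) ≤ m → x ≤ m ^ p := by
    intro x m hx hxm
    calc x = (x ^ (1 / p)) ^ p := by
          rw [← Real.rpow_mul hx, one_div_mul_cancel hp0.ne', Real.rpow_one]
      _ ≤ m ^ p := Real.rpow_le_rpow (Real.rpow_nonneg hx _) hxm hp0.le
  have hA₁ := aux _ m₁ n1 (by rw [hm₁]; linarith)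
  have hA₂ := aux _ m₂ n2 (by rw [hm₂]; linarith)
  have hfin : C.t (fs (fun i => i ^ (p / 2)) s e) ≤ (m₁ + m₂) ^ p := by
    rcases lt_or_ge p 2 with h2 | h2
    · exact tri_lt hp h2 h h₁ h₂ hm₁0 hm₂0 hA₁ hA₂
    · exact tri_ge h2 h h₁ h₂ hm₁0 hm₂0 hA₁ hA₂
  calc _ ≤ ((m₁ + m₂) ^ p) ^ (1 / p) := Real.rpow_le_rpow n0 hfin (by positivity)
    _ = m₁ + m₂ := by
      rw [← Real.rpow_mul (by positivity), mul_one_div_cancel hp0.ne', Real.rpow_one]
    _ = _ := by rw [hm₁, hm₂]; ring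

end Cubic

end Pool.Agent.Q86.Alb
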