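import Pool.Agent.Q86.AlbE

/-!
# Continuity of the functional calculus
-/

set_option autoImplicit false

namespace Pool.Agent.Q86.Alb

open Polynomial Topology

namespace Cubic

variable {J : Type*} [NormedAddCommGroup J] [InnerProductSpace ℝ J] (C : Cubic J)
  [FiniteDimensional ℝ J]

/-- functional calculus -/
noncomputable def fcal (φ : ℝ → ℝ) (a : J) : J :=
  fs φ (C.exists_res a).choose (C.exists_res a).choose_spec.choose

theorem fcal_eq {a : J} {s : Finset ℝ} {e : ℝ → J} (h : C.Res a s e) (φ : ℝ → ℝ) :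
    C.fcal φ a = fs φ s e :=
  C.fs_unique (C.exists_res a).choose_spec.choose_spec h φ

/-- the product as a continuous linear map valued map -/
noncomputable def Lc : J →ₗ[ℝ] J →L[ℝ] J := LinearMap.toContinuousLinearMap.toLinearMap ∘ₗ C.mul

theorem Lc_apply (a x : J) : C.Lc a x = C.mul a x := rfl

theorem continuous_Lc : Continuous C.Lc := LinearMap.continuous_of_finiteDimensional _

theorem continuous_pw (p : ℝ[X]) : Continuous (C.pw p) := by
  induction p using Polynomial.induction_on' with
  | add p q hp hq =>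
    have : C.pw (p + q) = fun a => C.pw p a + C.pw q a := funext fun a => C.pw_add p q a
    rw [this]
    exact hp.add hq
  | monomial n r =>
    have : C.pw (monomial n r) = fun a => r • C.pw (X ^ n) a := funext fun a => by
      rw [← Polynomial.C_mul_X_pow_eq_monomial, pw_C_mul]
    rw [this]
    refine Continuous.const_smul ?_ r
    induction n with
    | zero =>
      have : C.pw (X ^ 0) = fun _ => C.one := funext fun a => by rw [pow_zero, pw_one]
      rw [this]
      exact continuous_const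
    | succ n ih =>
      have h2 : C.pw (X ^ (n + 1)) = fun a => C.Lc a (C.pw (X ^ n) a) := funext fun a => by
        rw [pow_succ', pw_X_mul]; rfl
      rw [h2]
      refine C.continuous_Lc.clm_apply ?_
      exact ih (funext fun a => by rw [← Polynomial.C_mul_X_pow_eq_monomial, pw_C_mul])

theorem norm_fs_sq {a : J} {s : Finset ℝ} {e : ℝ → J} (h : C.Res a s e) (φ : ℝ → ℝ) :
    ‖fs φ s e‖ ^ 2 = ∑ i ∈ s, φ i ^ 2 * C.t (e i) := by
  rw [← real_inner_self_eq_norm_sq, h.inner_fs_fs, t_fs]
  exact Finset.sum_congr rfl fun i _ => by ring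

theorem norm_fs_le {a : J} {s : Finset ℝ} {e : ℝ → J} (h : C.Res a s e) (φ : ℝ → ℝ) {M : ℝ}
    (hM : 0 ≤ M) (hφ : ∀ i ∈ s, |φ i| ≤ M) : ‖fs φ s e‖ ≤ 2 * M := by
  have h1 : ‖fs φ s e‖ ^ 2 ≤ (2 * M) ^ 2 := by
    rw [C.norm_fs_sq h]
    calc ∑ i ∈ s, φ i ^ 2 * C.t (e i) ≤ ∑ i ∈ s, M ^ 2 * C.t (e i) := by
          refine Finset.sum_le_sum fun i hi => mul_le_mul_of_nonneg_right ?_ (h.t_pos hi).le
          rw [← sq_abs]
          exact pow_le_pow_left₀ (abs_nonneg _) (hφ i hi) 2
      _ = M ^ 2 * 3 := by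
          rw [← Finset.mul_sum]
          have : ∑ i ∈ s, C.t (e i) = 3 := by
            have h3 := h.sum_inner_left C.one
            simp only [C.inner_one, C.t_one] at h3
            exact h3
          rw [this]
      _ ≤ (2 * M) ^ 2 := by nlinarith [sq_nonneg M]
  exact le_of_sq_le_sq h1 (by positivity)

theorem eig_le {a : J} {s : Finset ℝ} {e : ℝ → J} (h : C.Res a s e) {i : ℝ} (hi : i ∈ s) :
    |i| ≤ ‖C.Lc a‖ := by
  have h1 : C.mul a (e i) = i • e i := by
    conv_lhs => rw [h.eq]
    rw [map_sum, LinearMap.sum_apply, Finset.sum_eq_single_of_mem i hi]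
    · rw [map_smul, LinearMap.smul_apply, h.idem hi]
    · intro j hj hji
      rw [map_smul, LinearMap.smul_apply, h.orth j hj i hi, if_neg hji, smul_zero]
  have h2 := (C.Lc a).le_opNorm (e i)
  rw [Lc_apply, h1, norm_smul, Real.norm_eq_abs] at h2
  exact le_of_mul_le_mul_right h2 (norm_pos_iff.mpr (h.ne i hi))

theorem continuous_fcal {φ : ℝ → ℝ} (hφ : Continuous φ) : Continuous (C.fcal φ) := by
  rw [continuous_iff_continuousAt]
  intro a₀
  refine continuousAt_of_locally_uniform_approx_of_continuousAt fun u hu => ?_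
  obtain ⟨ε, hε, hεu⟩ := Metric.mem_uniformity_dist.mp hu
  set R := ‖C.Lc a₀‖ + 1 with hR
  have hnear : ∀ᶠ a in 𝓝 a₀, ‖C.Lc a‖ < R := by
    have : Continuous fun a => ‖C.Lc a‖ := C.continuous_Lc.norm
    exact this.continuousAt.eventually_lt continuousAt_const (by simp [hR])
  obtain ⟨q, hq⟩ := exists_polynomial_near_of_continuousOn (-R) R φ hφ.continuousOn (ε / 4)
    (by positivity)
  refine ⟨{a | ‖C.Lc a‖ < R}, hnear, C.pw q, (C.continuous_pw q).continuousAt, fun a ha => ?_⟩
  apply hεu
  obtain ⟨s, e, h⟩ := C.exists_res a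
  rw [C.fcal_eq h, h.pw_eq, dist_eq_norm]
  have h2 : fs φ s e - fs (fun i => q.eval i) s e = fs (fun i => φ i - q.eval i) s e := by
    unfold fs
    rw [← Finset.sum_sub_distrib]
    exact Finset.sum_congr rfl fun i _ => by rw [sub_smul]
  rw [h2]
  have h3 := C.norm_fs_le h (fun i => φ i - q.eval i) (M := ε / 4) (by positivity) (fun i hi => by
    have hi' := (C.eig_le h hi).trans (le_of_lt ha)
    have := hq i (abs_le.mp hi')
    rw [abs_sub_comm]
    exact this.le)
  linarith

end Cubic

end Pool.Agent.Q86.Alb
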