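import Pool.Agent.Q86.AlbF

/-!
# The spectral `L^p`-expression on `L^∞(Ω, H₃(𝕆_ℂ))` is a norm: assembly
-/

set_option autoImplicit false

namespace Pool.Agent.Q86.Alb

open MeasureTheory

theorem memLp_top_comp {Ω E F : Type*} [MeasurableSpace Ω] {μ : Measure Ω} [NormedAddCommGroup E]
    [ProperSpace E] [NormedAddCommGroup F] {f : E → F} (hf : Continuous f) {x : Ω → E}
    (hx : MemLp x ⊤ μ) : MemLp (fun ω => f (x ω)) ⊤ μ := by
  obtain ⟨R, hR⟩ : ∃ R : ℝ, ∀ᵐ ω ∂μ, ‖x ω‖ ≤ R := by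
    refine ⟨(eLpNormEssSup x μ).toReal, ?_⟩
    have h1 : eLpNormEssSup x μ ≠ ⊤ := by
      have := hx.2
      rw [eLpNorm_exponent_top] at this
      exact this.ne
    filter_upwards [ae_le_eLpNormEssSup (f := x) (μ := μ)] with ω hω
    have := ENNReal.toReal_mono h1 hω
    simpa using this
  have hK : IsCompact (Metric.closedBall (0 : E) R) := isCompact_closedBall 0 R
  obtain ⟨M, hM⟩ := (hK.image hf).isBounded.exists_norm_le
  refine memLp_top_of_bound (hf.comp_aestronglyMeasurable hx.1) M ?_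
  filter_upwards [hR] with ω hω
  exact hM _ ⟨x ω, by simpa using hω, rfl⟩

noncomputable instance : FiniteDimensional ℝ Oct :=
  inferInstanceAs (FiniteDimensional ℝ (Quaternion ℝ × Quaternion ℝ))

noncomputable instance : FiniteDimensional ℝ H3 :=
  inferInstanceAs (FiniteDimensional ℝ ((Fin 3 → ℝ) × (Fin 3 → Oct)))

noncomputable instance : ProperSpace H3 := FiniteDimensional.proper ℝ H3

section

variable {C : Cubic H3} (hone : C.one = H3.one) (htr : ∀ x : H3, inner ℝ C.one x = H3.tr x)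
  (hmul : ∀ x y : H3, H3.jmul x y = C.mul x y)

include hone hmul in
theorem isFC_iff (φ : ℝ → ℝ) (a b : H3) :
    IsFC φ a b ↔ ∃ s e, C.Res a s e ∧ b = fs φ s e := by
  constructor
  · rintro ⟨s, e, h1, h2, h3, h4, h5⟩
    refine ⟨s, e, ⟨h1, fun i hi j hj => ?_, by rw [h3, hone], h4⟩, h5⟩
    rw [← hmul]; exact h2 i hi j hj
  · rintro ⟨s, e, h, h5⟩
    refine ⟨s, e, h.ne, fun i hi j hj => ?_, by rw [h.sum, hone], h.eq, h5⟩
    rw [hmul]; exact h.orth i hi j hj

include hone hmul in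
theorem isFC_fcal (φ : ℝ → ℝ) (a : H3) : IsFC φ a (C.fcal φ a) := by
  rw [isFC_iff hone hmul]
  obtain ⟨s, e, h⟩ := C.exists_res a
  exact ⟨s, e, h, C.fcal_eq h φ⟩

include hone hmul in
theorem isFC_unique {φ : ℝ → ℝ} {a b : H3} (h : IsFC φ a b) : b = C.fcal φ a := by
  rw [isFC_iff hone hmul] at h
  obtain ⟨s, e, h, rfl⟩ := h
  exact (C.fcal_eq h φ).symm

include hone hmul in
theorem fc_eq (φ : ℝ → ℝ) (a : H3) : fc φ a = C.fcal φ a := by
  unfold fc
  have h : ∃ b, IsFC φ a b := ⟨_, isFC_fcal hone hmul φ a⟩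
  rw [dif_pos h]
  exact isFC_unique hone hmul h.choose_spec

include hmul in
theorem abs_sq_fst (x : HC) : (HC.jmul (HC.conj x) x).1 = C.ab x.1 x.2 := by
  simp only [HC.jmul, HC.conj, hmul, Cubic.ab, map_neg, LinearMap.neg_apply]
  abel

include hmul in
theorem abs_sq_snd (x : HC) : (HC.jmul (HC.conj x) x).2 = 0 := by
  simp only [HC.jmul, HC.conj, hmul, map_neg, LinearMap.neg_apply]
  rw [C.mul_comm x.1]
  abel

include hone hmul in
theorem absPow_eq (p : ℝ) (x : HC) :
    HC.absPow p x = (C.fcal (fun t => t ^ (p / 2)) (C.ab x.1 x.2), 0) := by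
  rw [HC.absPow, fc_eq hone hmul, abs_sq_fst hmul]

theorem continuous_ab (C : Cubic H3) : Continuous fun x : HC => C.ab x.1 x.2 := by
  have h1 : Continuous fun x : HC => C.mul x.1 x.1 := (C.continuous_Lc.comp continuous_fst).clm_apply continuous_fst
  have h2 : Continuous fun x : HC => C.mul x.2 x.2 := (C.continuous_Lc.comp continuous_snd).clm_apply continuous_snd
  exact h1.add h2

theorem memLp_pow (C : Cubic H3) {Ω : Type*} [MeasurableSpace Ω] {μ : Measure Ω} {x : Ω → HC}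
    (hx : MemLp x ⊤ μ) {p : ℝ} (hp : 1 ≤ p) :
    MemLp (fun ω => C.fcal (fun t => t ^ (p / 2)) (C.ab (x ω).1 (x ω).2)) ⊤ μ := by
  have h1 : Continuous fun t : ℝ => t ^ (p / 2) := Real.continuous_rpow_const (by positivity)
  exact memLp_top_comp (f := fun x : HC => C.fcal (fun t => t ^ (p / 2)) (C.ab x.1 x.2))
    ((C.continuous_fcal h1).comp (continuous_ab C)) hx

end

end Pool.Agent.Q86.Alb
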