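import Pool.Agent.Q86.AlbG
import Pool.Agent.Q275.AlbH3

/-!
# The product of `H3` is the symmetrised matrix product
-/

set_option autoImplicit false

namespace Pool.Agent.Q86.Alb

open Pool.Agent.Q275.Alb

theorem toMatrix_ofMatrix {M : Matrix (Fin 3) (Fin 3) Oct} (hM : ∀ i j, star (M i j) = M j i) :
    (H3.ofMatrix M).toMatrix = M := by
  have hd : ∀ i, Oct.ofReal (M i i).re = M i i := by
    intro i
    have h := hM i i
    have h1 : star (M i i).1 = (M i i).1 := congrArg Prod.fst h
    have h2 : -(M i i).2 = (M i i).2 := congrArg Prod.snd h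
    refine Prod.ext ?_ ?_
    · change (((M i i).1.re : ℝ) : Quaternion ℝ) = (M i i).1
      have i1 := congrArg (fun q : Quaternion ℝ => q.imI) h1
      have i2 := congrArg (fun q : Quaternion ℝ => q.imJ) h1
      have i3 := congrArg (fun q : Quaternion ℝ => q.imK) h1
      simp only [Quaternion.imI_star, Quaternion.imJ_star, Quaternion.imK_star] at i1 i2 i3
      refine QuaternionAlgebra.ext ?_ ?_ ?_ ?_
      · simp
      · simp only [Quaternion.imI_coe]; linarith
      · simp only [Quaternion.imJ_coe]; linarith
      · simp only [Quaternion.imK_coe]; linarith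
    · change (0 : Quaternion ℝ) = (M i i).2
      have h3 : (2 : ℝ) • (M i i).2 = 0 := by
        rw [two_smul]
        nth_rewrite 1 [← h2]
        exact neg_add_cancel _
      rcases smul_eq_zero.mp h3 with h4 | h4
      · norm_num at h4
      · exact h4.symm
  ext i j
  fin_cases i <;> fin_cases j
  · exact hd 0
  · rfl
  · exact hM 2 0
  · exact hM 0 1
  · exact hd 1
  · rfl
  · rfl
  · exact hM 1 2
  · exact hd 2

theorem toMatrix_herm (x : H3) (i j : Fin 3) : star (x.toMatrix i j) = x.toMatrix j i := by
  have h0 : ∀ r : ℝ, star (Oct.ofReal r) = Oct.ofReal r := by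
    intro r
    refine Prod.ext ?_ ?_
    · change star ((r : ℝ) : Quaternion ℝ) = _
      exact Quaternion.star_coe r
    · change -(0 : Quaternion ℝ) = 0
      exact neg_zero
  fin_cases i <;> fin_cases j
  · exact h0 _
  · rfl
  · exact star_star' _
  · exact star_star' _
  · exact h0 _
  · rfl
  · rfl
  · exact star_star' _
  · exact h0 _

theorem toMatrix_jmul (x y : H3) : (H3.jmul x y).toMatrix =
    (1 / 2 : ℝ) • (x.toMatrix * y.toMatrix + y.toMatrix * x.toMatrix) := by
  refine toMatrix_ofMatrix fun i j => ?_
  have h1 : ∀ (x y : H3) (i j : Fin 3), star ((x.toMatrix * y.toMatrix) i j) =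
      (y.toMatrix * x.toMatrix) j i := by
    intro x y i j
    rw [Matrix.mul_apply, Matrix.mul_apply, Fin.sum_univ_three, Fin.sum_univ_three, star_add',
      star_add', star_mul', star_mul', star_mul']
    simp only [toMatrix_herm]
  rw [Matrix.smul_apply, Matrix.smul_apply, Matrix.add_apply, Matrix.add_apply, star_smul',
    star_add', h1, h1, add_comm]

end Pool.Agent.Q86.Alb
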