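import Pool.Agent.Q86.AlbI
import Pool.Agent.Q275.AlbMin

/-!
# The spectral `L^p`-expression on `L^∞(Ω, H₃(𝕆_ℂ))` is a norm
-/

set_option autoImplicit false

namespace Pool.Agent.Q86.Alb

open MeasureTheory

theorem main {Ω : Type*} [MeasurableSpace Ω] {μ : Measure Ω} {τ : (Ω → HC) → ℂ}
    (hτ : IsPosTrace μ τ) {p : ℝ} (hp : 1 ≤ p) {x y : Ω → HC} (hx : MemLp x ⊤ μ)
    (hy : MemLp y ⊤ μ) :
    MemLp (fun ω => HC.absPow p (x ω)) ⊤ μ ∧ 0 ≤ (τ fun ω => HC.absPow p (x ω)).re ∧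
      (τ fun ω => HC.absPow p (x ω)).im = 0 ∧ normP τ p (x + y) ≤ normP τ p x + normP τ p y := by
  obtain ⟨C, hone, htr, hmul'⟩ := Pool.Agent.Q275.Alb.h3
  have hmul : ∀ x y : H3, H3.jmul x y = C.mul x y := hmul'
  have hpow : ∀ z : Ω → HC, (fun ω => HC.absPow p (z ω)) =
      fun ω => ((C.fcal (fun t => t ^ (p / 2)) (C.ab (z ω).1 (z ω).2), 0) : HC) := fun z =>
    funext fun ω => absPow_eq hone hmul p (z ω)
  have hmem : ∀ z : Ω → HC, MemLp z ⊤ μ →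
      MemLp (fun ω => C.fcal (fun t => t ^ (p / 2)) (C.ab (z ω).1 (z ω).2)) ⊤ μ := fun z hz =>
    memLp_pow C hz hp
  have hnn : ∀ z : HC, 0 ≤ H3.tr (C.fcal (fun t => t ^ (p / 2)) (C.ab z.1 z.2)) := by
    intro z
    obtain ⟨s, e, h⟩ := C.exists_res (C.ab z.1 z.2)
    rw [C.fcal_eq h, ← htr]
    exact Cubic.t_rpow_nonneg h (Cubic.pos_ab _ _) _
  have htri : ∀ ω, H3.tr (C.fcal (fun t => t ^ (p / 2)) (C.ab ((x + y) ω).1 ((x + y) ω).2)) ^ (1 / p) ≤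
      H3.tr (C.fcal (fun t => t ^ (p / 2)) (C.ab (x ω).1 (x ω).2)) ^ (1 / p) +
      H3.tr (C.fcal (fun t => t ^ (p / 2)) (C.ab (y ω).1 (y ω).2)) ^ (1 / p) := by
    intro ω
    obtain ⟨s, e, h⟩ := C.exists_res (C.ab ((x + y) ω).1 ((x + y) ω).2)
    obtain ⟨s₁, e₁, h₁⟩ := C.exists_res (C.ab (x ω).1 (x ω).2)
    obtain ⟨s₂, e₂, h₂⟩ := C.exists_res (C.ab (y ω).1 (y ω).2)
    rw [C.fcal_eq h, C.fcal_eq h₁, C.fcal_eq h₂, ← htr, ← htr, ← htr]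
    exact Cubic.tri hp h h₁ h₂
  have key := Pool.Agent.Q275.Alb.minkowski hτ hp _ _ _ (hmem x hx) (hmem y hy)
    (hmem (x + y) (hx.add hy)) (Filter.Eventually.of_forall fun ω => hnn (x ω))
    (Filter.Eventually.of_forall fun ω => hnn (y ω))
    (Filter.Eventually.of_forall fun ω => hnn ((x + y) ω)) (Filter.Eventually.of_forall htri)
  refine ⟨?_, ?_, ?_, ?_⟩
  · rw [hpow]
    exact memLp_top_comp (f := fun a : H3 => ((a, 0) : HC))
      (continuous_id.prodMk continuous_const) (hmem x hx)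
  · rw [hpow]; exact key.1
  · rw [hpow]; exact key.2.1
  · unfold normP
    rw [hpow, hpow, hpow]
    exact key.2.2

theorem existsUnique_fc (φ : ℝ → ℝ) (a : H3) : ∃! b, IsFC φ a b := by
  obtain ⟨C, hone, -, hmul'⟩ := Pool.Agent.Q275.Alb.h3
  have hmul : ∀ x y : H3, H3.jmul x y = C.mul x y := hmul'
  exact ⟨_, isFC_fcal hone hmul φ a, fun b hb => isFC_unique hone hmul hb⟩

theorem conj_jmul_snd (x : HC) : (HC.jmul (HC.conj x) x).2 = 0 := by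
  obtain ⟨C, -, -, hmul'⟩ := Pool.Agent.Q275.Alb.h3
  have hmul : ∀ x y : H3, H3.jmul x y = C.mul x y := hmul'
  exact abs_sq_snd hmul x

end Pool.Agent.Q86.Alb
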