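import Pool.Agent.Q86.DiscAlg

set_option autoImplicit false

/-!
# A Banach algebra with countably generated spectrum and non-separable Gelfand space
-/

namespace Pool.Agent.Q86.DiscAlg

open Metric Set Filter Topology
open scoped BoundedContinuousFunction

/-- A continuous function on the bidisc, restricted to a horizontal disc. -/
noncomputable def sl1 (p : C(K × K, ℂ)) (t : K) : C(K, ℂ) := ⟨fun z => p (z, t), by fun_prop⟩

/-- A continuous function on the bidisc, restricted to a vertical disc. -/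
noncomputable def sl2 (p : C(K × K, ℂ)) (t : K) : C(K, ℂ) := ⟨fun z => p (t, z), by fun_prop⟩

/-- The bidisc algebra: continuous functions on the closed bidisc that are separately
holomorphic in the open discs. -/
noncomputable def P : Subalgebra ℂ C(K × K, ℂ) where
  carrier := {p | (∀ t, sl1 p t ∈ A) ∧ ∀ t, sl2 p t ∈ A}
  mul_mem' {f g} hf hg := ⟨fun t => A.mul_mem (hf.1 t) (hg.1 t),
    fun t => A.mul_mem (hf.2 t) (hg.2 t)⟩
  add_mem' {f g} hf hg := ⟨fun t => A.add_mem (hf.1 t) (hg.1 t),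
    fun t => A.add_mem (hf.2 t) (hg.2 t)⟩
  algebraMap_mem' c := ⟨fun _ => A.algebraMap_mem c, fun _ => A.algebraMap_mem c⟩

/-- The topological boundary of the bidisc. -/
abbrev Bd : Type := {x : K × K // ‖(x.1 : ℂ)‖ = 1 ∨ ‖(x.2 : ℂ)‖ = 1}

theorem isClosed_bd : IsClosed {x : K × K | ‖(x.1 : ℂ)‖ = 1 ∨ ‖(x.2 : ℂ)‖ = 1} := by
  apply IsClosed.union
  · exact isClosed_eq (by fun_prop) continuous_const
  · exact isClosed_eq (by fun_prop) continuous_const

instance : CompactSpace Bd := isCompact_iff_compactSpace.1 isClosed_bd.isCompact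

theorem continuous_sl1 (p : C(K × K, ℂ)) : Continuous (sl1 p) := by
  have h : sl1 p = (p.comp ⟨fun x : K × K => (x.2, x.1), by fun_prop⟩).curry := by
    funext t; ext z; rfl
  rw [h]
  exact (ContinuousMap.curry _).continuous

theorem K_norm_le (z : K) : ‖(z : ℂ)‖ ≤ 1 := by
  have := z.2
  rwa [mem_closedBall_zero_iff] at this

instance : PreconnectedSpace K :=
  isPreconnected_iff_preconnectedSpace.1 (convex_closedBall (0 : ℂ) 1).isPreconnected

/-- The point `1` of the closed disc. -/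
def oneK : K := ⟨1, by simp⟩

/-- The point `0` of the closed disc. -/
def zeroK : K := ⟨0, by simp⟩

theorem val_mk {f : C(K, ℂ)} (hf : f ∈ A) (z : K) : val ⟨f, hf⟩ z = f z := by
  rw [val, ev_of_mem _ z.2]

/-- A function of the bidisc algebra without zeros on the boundary has no zeros. -/
theorem zero_free {p : C(K × K, ℂ)} (hp : p ∈ P) (h : ∀ x : Bd, p x ≠ 0) (x : K × K) :
    p x ≠ 0 := by
  let T : Set K := {t | ∃ z : K, p (z, t) = 0}
  have hclosed : IsClosed T := by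
    have h1 : T = Prod.snd '' {x : K × K | p x = 0} := by
      ext t
      constructor
      · rintro ⟨z, hz⟩; exact ⟨(z, t), hz, rfl⟩
      · rintro ⟨⟨z, t'⟩, hz, rfl⟩; exact ⟨z, hz⟩
    rw [h1]
    have h2 : IsClosed {x : K × K | p x = 0} := isClosed_eq p.continuous continuous_const
    exact (h2.isCompact.image continuous_snd).isClosed
  have hopen : IsOpen T := by
    rw [isOpen_iff_mem_nhds]
    rintro t₀ ⟨z₀, hz₀⟩
    let f : A := ⟨sl1 p t₀, hp.1 t₀⟩
    have hval : ∀ (t z : K), val (⟨sl1 p t, hp.1 t⟩ : A) z = p (z, t) := fun t z =>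
      val_mk (hp.1 t) z
    have hne : ∀ z ∈ sphere (0 : ℂ) 1, val f z ≠ 0 := by
      intro z hz
      have hz' : ‖z‖ = 1 := mem_sphere_zero_iff_norm.1 hz
      have := hval t₀ ⟨z, sphere_subset hz⟩
      rw [this]
      exact h ⟨(⟨z, sphere_subset hz⟩, t₀), Or.inl hz'⟩
    have hlt : ‖(z₀ : ℂ)‖ < 1 := by
      refine lt_of_le_of_ne (K_norm_le z₀) fun h1 => ?_
      exact h ⟨(z₀, t₀), Or.inl h1⟩ hz₀
    have hv0 : val f z₀ = 0 := by rw [hval t₀ z₀, hz₀]
    obtain ⟨δ, hδ, hpers⟩ := persist hne (ρ := (‖(z₀ : ℂ)‖ + 1) / 2) (by linarith)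
      (z₀ := (z₀ : ℂ)) (by linarith) hv0
    have hc := (Metric.tendsto_nhds.1 ((continuous_sl1 p).tendsto t₀)) δ hδ
    filter_upwards [hc] with t ht
    rw [dist_eq_norm] at ht
    obtain ⟨z, hz, hgz⟩ := hpers ⟨sl1 p t, hp.1 t⟩ ht
    have hzK : z ∈ closedBall (0 : ℂ) 1 := by
      rw [mem_closedBall_zero_iff]; linarith
    refine ⟨⟨z, hzK⟩, ?_⟩
    have := hval t ⟨z, hzK⟩
    rw [← this]; exact hgz
  have hne1 : oneK ∉ T := by
    rintro ⟨z, hz⟩
    exact h ⟨(z, oneK), Or.inr (by simp [oneK])⟩ hz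
  have hTempty : T = ∅ := by
    rcases isClopen_iff.1 ⟨hclosed, hopen⟩ with h1 | h1
    · exact h1
    · rw [h1] at hne1; exact absurd (mem_univ _) hne1
  intro hx
  have : x.2 ∈ T := ⟨x.1, hx⟩
  rw [hTempty] at this
  exact this

/-- The inverse of a zero-free function of the disc algebra. -/
theorem inv_mem_A {f g : C(K, ℂ)} (hf : f ∈ A) (h : ∀ z, g z * f z = 1) : g ∈ A := by
  change DifferentiableOn ℂ (ev g) (ball 0 1)
  have hf' : DifferentiableOn ℂ (ev f) (ball 0 1) := hf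
  have hne : ∀ z ∈ ball (0 : ℂ) 1, ev f z ≠ 0 := by
    intro z hz h0
    rw [ev_of_mem _ (ball_subset_closedBall hz)] at h0
    have := h ⟨z, ball_subset_closedBall hz⟩
    rw [h0, mul_zero] at this
    exact zero_ne_one this
  refine (hf'.inv hne).congr fun z hz => ?_
  apply eq_inv_of_mul_eq_one_left
  rw [ev_of_mem _ (ball_subset_closedBall hz), ev_of_mem _ (ball_subset_closedBall hz)]
  exact h _

theorem inv_mem_P {f g : C(K × K, ℂ)} (hf : f ∈ P) (h : ∀ z, g z * f z = 1) : g ∈ P :=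
  ⟨fun t => inv_mem_A (hf.1 t) fun z => h (z, t), fun t => inv_mem_A (hf.2 t) fun z => h (t, z)⟩

/-- The maximum principle at the origin. -/
theorem max_principle {p : C(K × K, ℂ)} (hp : p ∈ P) {C : ℝ} (h : ∀ x : Bd, ‖p x‖ ≤ C) :
    ‖p (zeroK, zeroK)‖ ≤ C := by
  let f : A := ⟨sl1 p zeroK, hp.1 zeroK⟩
  have hval : ∀ z : K, val f z = p (z, zeroK) := fun z => val_mk (hp.1 zeroK) z
  have hdc : DiffContOnCl ℂ (val f) (ball 0 1) := by
    refine ⟨differentiableOn_val f, ?_⟩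
    rw [closure_ball _ one_ne_zero]; exact continuousOn_val f
  have h1 := Complex.norm_le_of_forall_mem_frontier_norm_le isBounded_ball hdc (C := C) (by
    intro z hz
    rw [frontier_ball _ one_ne_zero] at hz
    have hz' : ‖z‖ = 1 := mem_sphere_zero_iff_norm.1 hz
    have h2 := hval ⟨z, sphere_subset hz⟩
    rw [h2]
    exact h ⟨(⟨z, sphere_subset hz⟩, zeroK), Or.inl hz'⟩)
    (subset_closure (mem_ball_self one_pos))
  have h3 := hval zeroK
  have h4 : ((zeroK : K) : ℂ) = 0 := rfl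
  rw [h4] at h3
  rwa [h3] at h1

/-- The bounded continuous functions on `ℕ × ∂(D²)`. -/
abbrev BC : Type := (ℕ × Bd) →ᵇ ℂ

/-- `f n` is within `ε` of the bidisc algebra on the boundary of the bidisc. -/
def Near (f : BC) (n : ℕ) (ε : ℝ) : Prop := ∃ p ∈ P, ∀ x : Bd, ‖f (n, x) - p x‖ ≤ ε

/-- The algebra of the bounded sequences of continuous functions on the boundary of the bidisc
whose distance from the bidisc algebra tends to zero. -/
noncomputable def BigA : Subalgebra ℂ BC where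
  carrier := {f | ∀ ε > 0, ∃ N, ∀ n ≥ N, Near f n ε}
  mul_mem' {f g} hf hg := by
    intro ε hε
    let M : ℝ := ‖f‖ + ‖g‖ + 2
    have hM : 0 < M := by positivity
    let ε' : ℝ := min 1 (ε / M)
    have hε' : 0 < ε' := lt_min one_pos (div_pos hε hM)
    obtain ⟨N₁, h₁⟩ := hf ε' hε'
    obtain ⟨N₂, h₂⟩ := hg ε' hε'
    refine ⟨max N₁ N₂, fun n hn => ?_⟩
    obtain ⟨p, hp, hfp⟩ := h₁ n ((le_max_left _ _).trans hn)
    obtain ⟨q, hq, hgq⟩ := h₂ n ((le_max_right _ _).trans hn)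
    refine ⟨p * q, P.mul_mem hp hq, fun x => ?_⟩
    have e1 : (f * g) (n, x) - (p * q) x =
        f (n, x) * (g (n, x) - q x) + (f (n, x) - p x) * q x := by
      change f (n, x) * g (n, x) - p x * q x = _
      ring
    rw [e1]
    have hfn : ‖f (n, x)‖ ≤ ‖f‖ := f.norm_coe_le_norm _
    have hgn : ‖g (n, x)‖ ≤ ‖g‖ := g.norm_coe_le_norm _
    have hqn : ‖q x‖ ≤ ‖g‖ + 1 := by
      calc ‖q x‖ = ‖g (n, x) - (g (n, x) - q x)‖ := by congr 1; ring
        _ ≤ ‖g (n, x)‖ + ‖g (n, x) - q x‖ := norm_sub_le _ _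
        _ ≤ ‖g‖ + 1 := add_le_add hgn ((hgq x).trans (min_le_left _ _))
    calc ‖f (n, x) * (g (n, x) - q x) + (f (n, x) - p x) * q x‖
        ≤ ‖f (n, x)‖ * ‖g (n, x) - q x‖ + ‖f (n, x) - p x‖ * ‖q x‖ := by
          refine (norm_add_le _ _).trans ?_
          rw [norm_mul, norm_mul]
      _ ≤ ‖f‖ * ε' + ε' * (‖g‖ + 1) := by
          gcongr
          · exact hgq x
          · exact hfp x
      _ ≤ M * ε' := by simp only [M]; nlinarith
      _ ≤ M * (ε / M) := by gcongr; exact min_le_right _ _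
      _ = ε := by field_simp
  add_mem' {f g} hf hg := by
    intro ε hε
    obtain ⟨N₁, h₁⟩ := hf (ε / 2) (half_pos hε)
    obtain ⟨N₂, h₂⟩ := hg (ε / 2) (half_pos hε)
    refine ⟨max N₁ N₂, fun n hn => ?_⟩
    obtain ⟨p, hp, hfp⟩ := h₁ n ((le_max_left _ _).trans hn)
    obtain ⟨q, hq, hgq⟩ := h₂ n ((le_max_right _ _).trans hn)
    refine ⟨p + q, P.add_mem hp hq, fun x => ?_⟩
    have e1 : (f + g) (n, x) - (p + q) x = (f (n, x) - p x) + (g (n, x) - q x) := by
      change f (n, x) + g (n, x) - (p x + q x) = _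
      ring
    rw [e1]
    calc _ ≤ ‖f (n, x) - p x‖ + ‖g (n, x) - q x‖ := norm_add_le _ _
      _ ≤ ε / 2 + ε / 2 := add_le_add (hfp x) (hgq x)
      _ = ε := add_halves ε
  algebraMap_mem' c := by
    intro ε hε
    refine ⟨0, fun n _ => ⟨algebraMap ℂ C(K × K, ℂ) c, P.algebraMap_mem c, fun x => ?_⟩⟩
    have e1 : (algebraMap ℂ BC c) (n, x) - (algebraMap ℂ C(K × K, ℂ) c) x = 0 := by
      change c - c = 0
      rw [sub_self]
    rw [e1, norm_zero]
    exact hε.le

theorem isClosed_BigA : IsClosed (BigA : Set BC) := by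
  rw [← isSeqClosed_iff_isClosed]
  intro u f hu hf ε hε
  obtain ⟨m, hm⟩ := ((Metric.tendsto_nhds.1 hf) (ε / 2) (half_pos hε)).exists
  obtain ⟨N, hN⟩ := hu m (ε / 2) (half_pos hε)
  refine ⟨N, fun n hn => ?_⟩
  obtain ⟨p, hp, hfp⟩ := hN n hn
  refine ⟨p, hp, fun x => ?_⟩
  rw [dist_eq_norm] at hm
  have h1 : ‖(u m - f) (n, x)‖ ≤ ε / 2 := ((u m - f).norm_coe_le_norm _).trans hm.le
  have h2 : ‖f (n, x) - u m (n, x)‖ ≤ ε / 2 := by
    rw [norm_sub_rev]; exact h1
  calc ‖f (n, x) - p x‖ = ‖(f (n, x) - u m (n, x)) + (u m (n, x) - p x)‖ := by congr 1; ring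
    _ ≤ ‖f (n, x) - u m (n, x)‖ + ‖u m (n, x) - p x‖ := norm_add_le _ _
    _ ≤ ε / 2 + ε / 2 := add_le_add h2 (hfp x)
    _ = ε := add_halves ε

instance : CompleteSpace BigA := isClosed_BigA.completeSpace_coe

instance : Nonempty Bd := ⟨⟨(oneK, oneK), Or.inl (by simp [oneK])⟩⟩

theorem norm_one_BigA : ‖(1 : BigA)‖ = 1 := by
  change ‖(1 : BC)‖ = 1
  exact norm_one

/-- Evaluation at a point. -/
noncomputable def evHom (y : ℕ × Bd) : BigA →ₐ[ℂ] ℂ where
  toFun f := (f : BC) y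
  map_one' := rfl
  map_mul' _ _ := rfl
  map_zero' := rfl
  map_add' _ _ := rfl
  commutes' c := rfl

/-- Elements bounded away from zero are invertible. -/
theorem isUnit_of_lower {f : BigA} {δ : ℝ} (hδ : 0 < δ) (h : ∀ y, δ ≤ ‖(f : BC) y‖) :
    IsUnit f := by
  have hne : ∀ y, (f : BC) y ≠ 0 := by
    intro y h0
    have := h y
    rw [h0, norm_zero] at this
    linarith
  let g : BC := BoundedContinuousFunction.ofNormedAddCommGroup (fun y => ((f : BC) y)⁻¹)
    ((f : BC).continuous.inv₀ hne) δ⁻¹ (fun y => by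
      rw [norm_inv]; exact inv_anti₀ hδ (h y))
  have hg : ∀ y, g y = ((f : BC) y)⁻¹ := fun y => rfl
  have hmem : g ∈ BigA := by
    intro ε hε
    let ε' : ℝ := min (δ / 2) (ε * (δ * (δ / 2)))
    have hε' : 0 < ε' := lt_min (half_pos hδ) (by positivity)
    obtain ⟨N, hN⟩ := f.2 ε' hε'
    refine ⟨N, fun n hn => ?_⟩
    obtain ⟨p, hp, hfp⟩ := hN n hn
    have hlow : ∀ x : Bd, δ / 2 ≤ ‖p x‖ := by
      intro x
      have h1 := h (n, x)
      have h2 : ‖(f : BC) (n, x)‖ ≤ ‖(f : BC) (n, x) - p x‖ + ‖p x‖ := by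
        calc _ = ‖((f : BC) (n, x) - p x) + p x‖ := by congr 1; ring
          _ ≤ _ := norm_add_le _ _
      have h3 := (hfp x).trans (min_le_left _ _)
      linarith
    have hp0 : ∀ x, p x ≠ 0 := zero_free hp (by
      intro x h0
      have := hlow x
      rw [h0, norm_zero] at this
      linarith)
    let q : C(K × K, ℂ) := ⟨fun x => (p x)⁻¹, p.continuous.inv₀ hp0⟩
    refine ⟨q, inv_mem_P hp fun z => inv_mul_cancel₀ (hp0 z), fun x => ?_⟩
    rw [hg]
    change ‖((f : BC) (n, x))⁻¹ - (p x)⁻¹‖ ≤ ε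
    rw [inv_sub_inv (hne _) (hp0 _), norm_div, norm_mul, norm_sub_rev]
    have h4 : δ * (δ / 2) ≤ ‖(f : BC) (n, x)‖ * ‖p x‖ :=
      mul_le_mul (h _) (hlow x) (half_pos hδ).le (norm_nonneg _)
    rw [div_le_iff₀ (lt_of_lt_of_le (by positivity) h4)]
    calc ‖(f : BC) (n, x) - p x‖ ≤ ε * (δ * (δ / 2)) := (hfp x).trans (min_le_right _ _)
      _ ≤ ε * (‖(f : BC) (n, x)‖ * ‖p x‖) := by gcongr
  have hmul : f * ⟨g, hmem⟩ = 1 := by
    apply Subtype.ext
    ext y
    change (f : BC) y * g y = 1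
    rw [hg, mul_inv_cancel₀ (hne y)]
  exact IsUnit.of_mul_eq_one _ hmul

/-- The character given by evaluation at a point. -/
noncomputable def evChar (y : ℕ × Bd) : WeakDual.characterSpace ℂ BigA :=
  WeakDual.CharacterSpace.equivAlgHom.symm (evHom y)

theorem evChar_apply (y : ℕ × Bd) (f : BigA) : evChar y f = (f : BC) y := rfl

/-- The spectrum is generated by countably many evaluations. -/
theorem countably_generated : ∃ S : Set (WeakDual.characterSpace ℂ BigA), S.Countable ∧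
    ∀ f : BigA, spectrum ℂ f = closure ((fun φ : WeakDual.characterSpace ℂ BigA => φ f) '' S) := by
  obtain ⟨D, hDc, hDd⟩ := TopologicalSpace.exists_countable_dense (ℕ × Bd)
  refine ⟨evChar '' D, hDc.image _, fun f => ?_⟩
  apply Subset.antisymm
  · intro c hc
    by_contra hcl
    rw [Metric.mem_closure_iff] at hcl
    push Not at hcl
    obtain ⟨δ, hδ, hfar⟩ := hcl
    have h1 : ∀ y ∈ D, δ ≤ ‖((algebraMap ℂ BigA c - f : BigA) : BC) y‖ := by
      intro y hy
      have h2 := hfar _ ⟨_, ⟨y, hy, rfl⟩, rfl⟩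
      rw [dist_eq_norm] at h2
      have h3 : ((algebraMap ℂ BigA c - f : BigA) : BC) y = c - (f : BC) y := rfl
      rw [h3]
      exact h2
    have h4 : ∀ y, δ ≤ ‖((algebraMap ℂ BigA c - f : BigA) : BC) y‖ := by
      intro y
      have hcl : IsClosed {y : ℕ × Bd | δ ≤ ‖((algebraMap ℂ BigA c - f : BigA) : BC) y‖} :=
        isClosed_le continuous_const
          ((algebraMap ℂ BigA c - f : BigA) : BC).continuous.norm
      have h5 : closure D ⊆ {y : ℕ × Bd | δ ≤ ‖((algebraMap ℂ BigA c - f : BigA) : BC) y‖} :=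
        closure_minimal h1 hcl
      exact h5 (hDd y)
    exact hc (isUnit_of_lower hδ h4)
  · apply closure_minimal _ (spectrum.isClosed f)
    rintro _ ⟨φ, -, rfl⟩
    rw [WeakDual.CharacterSpace.mem_spectrum_iff_exists]
    exact ⟨φ, rfl⟩

/-- The constant sequence given by an element of the bidisc algebra. -/
noncomputable def const (p : C(K × K, ℂ)) (hp : p ∈ P) : BigA :=
  ⟨BoundedContinuousFunction.ofNormedAddCommGroup (fun y : ℕ × Bd => p y.2)
    (by fun_prop) ‖p‖ (fun _ => p.norm_coe_le_norm _),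
    fun ε hε => ⟨0, fun n _ => ⟨p, hp, fun x => by
      change ‖p x - p x‖ ≤ ε
      rw [sub_self, norm_zero]; exact hε.le⟩⟩⟩

theorem const_apply (p : C(K × K, ℂ)) (hp : p ∈ P) (y : ℕ × Bd) : (const p hp : BC) y = p y.2 :=
  rfl

/-- The first coordinate. -/
def Z1 : C(K × K, ℂ) := ⟨fun x => (x.1 : ℂ), by fun_prop⟩

/-- The second coordinate. -/
def Z2 : C(K × K, ℂ) := ⟨fun x => (x.2 : ℂ), by fun_prop⟩

theorem Z1_mem : Z1 ∈ P := ⟨fun _ => Z.2, fun t => A.algebraMap_mem (t : ℂ)⟩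

theorem Z2_mem : Z2 ∈ P := ⟨fun t => A.algebraMap_mem (t : ℂ), fun _ => Z.2⟩

open Classical in
/-- The indicator of a set of indices. -/
noncomputable def ind (N : Set ℕ) : BigA :=
  ⟨BoundedContinuousFunction.ofNormedAddCommGroup
    (fun y : ℕ × Bd => if y.1 ∈ N then (1 : ℂ) else 0)
    ((continuous_of_discreteTopology (f := fun n : ℕ => if n ∈ N then (1 : ℂ) else 0)).comp
      continuous_fst) 1 (fun y => by
        by_cases h : y.1 ∈ N <;> simp [h]),
    fun ε hε => ⟨0, fun n _ => ⟨algebraMap ℂ C(K × K, ℂ) (if n ∈ N then (1 : ℂ) else 0),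
      P.algebraMap_mem _, fun x => by
        change ‖(if n ∈ N then (1 : ℂ) else 0) - (if n ∈ N then (1 : ℂ) else 0)‖ ≤ ε
        rw [sub_self, norm_zero]; exact hε.le⟩⟩⟩

theorem ind_of_mem {N : Set ℕ} {n : ℕ} (h : n ∈ N) (x : Bd) : (ind N : BC) (n, x) = 1 := by
  classical
  change (if n ∈ N then (1 : ℂ) else 0) = 1
  rw [if_pos h]

theorem ind_of_notMem {N : Set ℕ} {n : ℕ} (h : n ∉ N) (x : Bd) : (ind N : BC) (n, x) = 0 := by
  classical
  change (if n ∈ N then (1 : ℂ) else 0) = 0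
  rw [if_neg h]

theorem ind_mul (M N : Set ℕ) : ind M * ind N = ind (M ∩ N) := by
  apply Subtype.ext
  ext ⟨n, x⟩
  change (ind M : BC) (n, x) * (ind N : BC) (n, x) = (ind (M ∩ N) : BC) (n, x)
  by_cases h1 : n ∈ M <;> by_cases h2 : n ∈ N
  · have h3 : n ∈ M ∩ N := Set.mem_inter h1 h2
    rw [ind_of_mem h1, ind_of_mem h2, ind_of_mem h3, one_mul]
  · have h3 : n ∉ M ∩ N := fun (h : n ∈ M ∩ N) => h2 h.2
    rw [ind_of_mem h1, ind_of_notMem h2, ind_of_notMem h3, one_mul]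
  · have h3 : n ∉ M ∩ N := fun (h : n ∈ M ∩ N) => h1 h.1
    rw [ind_of_notMem h1, ind_of_notMem h3, zero_mul]
  · have h3 : n ∉ M ∩ N := fun (h : n ∈ M ∩ N) => h1 h.1
    rw [ind_of_notMem h1, ind_of_notMem h3, zero_mul]

/-- The open set attached to a set of indices. -/
def O (N : Set ℕ) : Set (WeakDual.characterSpace ℂ BigA) :=
  {φ | ‖φ (const Z1 Z1_mem)‖ < 1 / 2 ∧ ‖φ (const Z2 Z2_mem)‖ < 1 / 2 ∧ φ (ind N) ≠ 0}

theorem continuous_apply_char (f : BigA) :
    Continuous fun φ : WeakDual.characterSpace ℂ BigA => φ f :=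
  (WeakDual.eval_continuous f).comp continuous_subtype_val

theorem isOpen_O (N : Set ℕ) : IsOpen (O N) := by
  apply IsOpen.inter
  · exact isOpen_lt (continuous_apply_char _).norm continuous_const
  · apply IsOpen.inter
    · exact isOpen_lt (continuous_apply_char _).norm continuous_const
    · exact isOpen_ne_fun (continuous_apply_char _) continuous_const

/-- The denominator `|z|² + |w|²` on the boundary. -/
theorem denom_pos (x : Bd) : 1 ≤ ‖(x.1.1 : ℂ)‖ ^ 2 + ‖(x.1.2 : ℂ)‖ ^ 2 := by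
  rcases x.2 with h | h
  · rw [h]; nlinarith [sq_nonneg ‖(x.1.2 : ℂ)‖]
  · rw [h]; nlinarith [sq_nonneg ‖(x.1.1 : ℂ)‖]

/-- The function `conj (c x) / (|z|² + |w|²)` on a finite set of indices. -/
theorem exists_partial_inverse {F : Set ℕ} (hF : F.Finite) (c : C(Bd, ℂ)) :
    ∃ g : BigA, (∀ n x, n ∈ F → (g : BC) (n, x) = (starRingEnd ℂ) (c x) /
      ((‖(x.1.1 : ℂ)‖ ^ 2 + ‖(x.1.2 : ℂ)‖ ^ 2 : ℝ) : ℂ)) ∧
      ∀ n x, n ∉ F → (g : BC) (n, x) = 0 := by
  classical
  let u : C(Bd, ℂ) := ⟨fun x => (starRingEnd ℂ) (c x) /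
      ((‖(x.1.1 : ℂ)‖ ^ 2 + ‖(x.1.2 : ℂ)‖ ^ 2 : ℝ) : ℂ), by
    apply Continuous.div
    · exact Complex.continuous_conj.comp c.continuous
    · fun_prop
    · intro x
      have := denom_pos x
      exact_mod_cast (by linarith : (‖(x.1.1 : ℂ)‖ ^ 2 + ‖(x.1.2 : ℂ)‖ ^ 2 : ℝ) ≠ 0)⟩
  obtain ⟨N, hN⟩ := hF.bddAbove
  let g : BC := BoundedContinuousFunction.ofNormedAddCommGroup
    (fun y : ℕ × Bd => (if y.1 ∈ F then (1 : ℂ) else 0) * u y.2)
    (((continuous_of_discreteTopology (f := fun n : ℕ => if n ∈ F then (1 : ℂ) else 0)).comp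
      continuous_fst).mul (u.continuous.comp continuous_snd)) ‖u‖ (fun y => by
        rw [norm_mul]
        have h1 : ‖(if y.1 ∈ F then (1 : ℂ) else 0)‖ ≤ 1 := by
          by_cases h : y.1 ∈ F <;> simp [h]
        calc _ ≤ 1 * ‖u‖ := mul_le_mul h1 (u.norm_coe_le_norm _) (norm_nonneg _) zero_le_one
          _ = ‖u‖ := one_mul _)
  refine ⟨⟨g, fun ε hε => ⟨N + 1, fun n hn => ⟨0, P.zero_mem, fun x => ?_⟩⟩⟩, ?_, ?_⟩
  · have : n ∉ F := fun h => by have := hN h; omega
    change ‖(if n ∈ F then (1 : ℂ) else 0) * u x - 0‖ ≤ ε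
    rw [if_neg this, zero_mul, sub_zero, norm_zero]
    exact hε.le
  · intro n x hn
    change (if n ∈ F then (1 : ℂ) else 0) * u x = _
    rw [if_pos hn, one_mul]; rfl
  · intro n x hn
    change (if n ∈ F then (1 : ℂ) else 0) * u x = _
    rw [if_neg hn, zero_mul]

theorem disjoint_O {M N : Set ℕ} (h : (M ∩ N).Finite) : Disjoint (O M) (O N) := by
  rw [Set.disjoint_left]
  rintro φ ⟨h1, h2, h3⟩ ⟨-, -, h4⟩
  set F := M ∩ N with hF
  have h5 : φ (ind F) ≠ 0 := by
    rw [hF, ← ind_mul, map_mul]; exact mul_ne_zero h3 h4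
  have h6 : φ (ind F) = 1 := by
    have h7 : ind F * ind F = ind F := by rw [ind_mul, Set.inter_self]
    have h8 : φ (ind F) * φ (ind F) = φ (ind F) := by rw [← map_mul, h7]
    exact mul_left_cancel₀ h5 (by rw [h8, mul_one])
  obtain ⟨g1, hg1, hg1'⟩ := exists_partial_inverse h ⟨fun x => (x.1.1 : ℂ), by fun_prop⟩
  obtain ⟨g2, hg2, hg2'⟩ := exists_partial_inverse h ⟨fun x => (x.1.2 : ℂ), by fun_prop⟩
  have hbound : ∀ (g : BigA) (c : Bd → ℂ), (∀ x, ‖c x‖ ≤ 1) →
      (∀ n x, n ∈ F → (g : BC) (n, x) = (starRingEnd ℂ) (c x) /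
        ((‖(x.1.1 : ℂ)‖ ^ 2 + ‖(x.1.2 : ℂ)‖ ^ 2 : ℝ) : ℂ)) →
      (∀ n x, n ∉ F → (g : BC) (n, x) = 0) → ‖φ g‖ ≤ 1 := by
    intro g c hc hgF hgF'
    have h7 : ‖g‖ ≤ 1 := by
      change ‖(g : BC)‖ ≤ 1
      rw [BoundedContinuousFunction.norm_le zero_le_one]
      rintro ⟨n, x⟩
      by_cases hn : n ∈ F
      · rw [hgF n x hn, norm_div, RCLike.norm_conj, Complex.norm_real, Real.norm_eq_abs,
          abs_of_pos (by linarith [denom_pos x])]
        rw [div_le_one (by linarith [denom_pos x])]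
        exact (hc x).trans (denom_pos x)
      · rw [hgF' n x hn, norm_zero]; exact zero_le_one
    have h8 : ‖φ g‖ ≤ ‖g‖ := by
      have h9 := AlgHom.norm_apply_le_self_mul_norm_one
        (WeakDual.CharacterSpace.toAlgHom φ) g
      have h10 : ‖(1 : BigA)‖ ≤ 1 := by
        change ‖(1 : BC)‖ ≤ 1
        rw [BoundedContinuousFunction.norm_le zero_le_one]
        intro y
        change ‖(1 : ℂ)‖ ≤ 1
        rw [norm_one]
      exact h9.trans (mul_le_of_le_one_right (norm_nonneg _) h10)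
    exact h8.trans h7
  have hb1 := hbound g1 (fun x => (x.1.1 : ℂ)) (fun x => K_norm_le _) hg1 hg1'
  have hb2 := hbound g2 (fun x => (x.1.2 : ℂ)) (fun x => K_norm_le _) hg2 hg2'
  have hsum : ind F = g1 * const Z1 Z1_mem + g2 * const Z2 Z2_mem := by
    apply Subtype.ext
    ext ⟨n, x⟩
    change (ind F : BC) (n, x) = (g1 : BC) (n, x) * (x.1.1 : ℂ) + (g2 : BC) (n, x) * (x.1.2 : ℂ)
    by_cases hn : n ∈ F
    · rw [ind_of_mem hn, hg1 n x hn, hg2 n x hn]
      change (1 : ℂ) = (starRingEnd ℂ) (x.1.1 : ℂ) / _ * _ + (starRingEnd ℂ) (x.1.2 : ℂ) / _ * _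
      have hd : ((‖(x.1.1 : ℂ)‖ ^ 2 + ‖(x.1.2 : ℂ)‖ ^ 2 : ℝ) : ℂ) ≠ 0 := by
        have := denom_pos x
        exact_mod_cast (by linarith : (‖(x.1.1 : ℂ)‖ ^ 2 + ‖(x.1.2 : ℂ)‖ ^ 2 : ℝ) ≠ 0)
      rw [div_mul_eq_mul_div, div_mul_eq_mul_div, ← add_div, eq_div_iff hd, one_mul]
      rw [Complex.conj_mul', Complex.conj_mul']
      push_cast
      rfl
    · rw [ind_of_notMem hn, hg1' n x hn, hg2' n x hn]; ring
  have h9 := congrArg φ hsum
  rw [h6, map_add, map_mul, map_mul] at h9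
  have h10 : (1 : ℝ) ≤ 1 * ‖φ (const Z1 Z1_mem)‖ + 1 * ‖φ (const Z2 Z2_mem)‖ := by
    calc (1 : ℝ) = ‖(1 : ℂ)‖ := norm_one.symm
      _ = ‖φ g1 * φ (const Z1 Z1_mem) + φ g2 * φ (const Z2 Z2_mem)‖ := by rw [← h9]
      _ ≤ ‖φ g1‖ * ‖φ (const Z1 Z1_mem)‖ + ‖φ g2‖ * ‖φ (const Z2 Z2_mem)‖ := by
          refine (norm_add_le _ _).trans ?_
          rw [norm_mul, norm_mul]
      _ ≤ _ := by gcongr
  linarith

theorem nonempty_O {N : Set ℕ} (hN : N.Infinite) : (O N).Nonempty := by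
  let I : Ideal BigA := Ideal.span {const Z1 Z1_mem, const Z2 Z2_mem, 1 - ind N}
  have hI : I ≠ ⊤ := by
    intro htop
    have h1 : (1 : BigA) ∈ I := by rw [htop]; trivial
    obtain ⟨a, r, hr, hs⟩ := Ideal.mem_span_insert.1 h1
    obtain ⟨b, s, hs', hr'⟩ := Ideal.mem_span_insert.1 hr
    obtain ⟨c, hc⟩ := Ideal.mem_span_singleton'.1 hs'
    have heq : (1 : BigA) = a * const Z1 Z1_mem + (b * const Z2 Z2_mem + c * (1 - ind N)) := by
      rw [hc, ← hr', ← hs]
    obtain ⟨N₁, h₁⟩ := a.2 (1 / 8) (by norm_num)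
    obtain ⟨N₂, h₂⟩ := b.2 (1 / 8) (by norm_num)
    obtain ⟨n, hnN, hn⟩ := hN.exists_gt (max N₁ N₂)
    obtain ⟨p, hp, hap⟩ := h₁ n ((le_max_left _ _).trans hn.le)
    obtain ⟨q, hq, hbq⟩ := h₂ n ((le_max_right _ _).trans hn.le)
    have hP : 1 - p * Z1 - q * Z2 ∈ P :=
      P.sub_mem (P.sub_mem P.one_mem (P.mul_mem hp Z1_mem)) (P.mul_mem hq Z2_mem)
    have hmax := max_principle hP (C := 1 / 4) (by
      intro x
      have h2 := congrArg (fun f : BigA => (f : BC) (n, x)) heq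
      change (1 : ℂ) = (a : BC) (n, x) * (x.1.1 : ℂ) + ((b : BC) (n, x) * (x.1.2 : ℂ) +
        (c : BC) (n, x) * (1 - (ind N : BC) (n, x))) at h2
      rw [ind_of_mem hnN, sub_self, mul_zero, add_zero] at h2
      have h3 : (1 - p * Z1 - q * Z2) (x : K × K) =
          ((a : BC) (n, x) - p x) * (x.1.1 : ℂ) + ((b : BC) (n, x) - q x) * (x.1.2 : ℂ) := by
        change (1 : ℂ) - p x * (x.1.1 : ℂ) - q x * (x.1.2 : ℂ) = _
        conv_lhs => rw [h2]
        ring
      rw [h3]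
      calc _ ≤ ‖(a : BC) (n, x) - p x‖ * ‖(x.1.1 : ℂ)‖ + ‖(b : BC) (n, x) - q x‖ * ‖(x.1.2 : ℂ)‖ := by
            refine (norm_add_le _ _).trans ?_
            rw [norm_mul, norm_mul]
        _ ≤ 1 / 8 * 1 + 1 / 8 * 1 := by
            gcongr
            · exact hap x
            · exact K_norm_le _
            · exact hbq x
            · exact K_norm_le _
        _ = 1 / 4 := by norm_num)
    have h4 : (1 - p * Z1 - q * Z2) (zeroK, zeroK) = 1 := by
      change (1 : ℂ) - p (zeroK, zeroK) * 0 - q (zeroK, zeroK) * 0 = 1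
      ring
    rw [h4, norm_one] at hmax
    norm_num at hmax
  obtain ⟨M, hM, hIM⟩ := Ideal.exists_le_maximal I hI
  let φ : WeakDual.characterSpace ℂ BigA := M.toCharacterSpace
  have hzero : ∀ f ∈ I, φ f = 0 := fun f hf => M.toCharacterSpace_apply_eq_zero_of_mem (hIM hf)
  have h1 : φ (const Z1 Z1_mem) = 0 := hzero _ (Ideal.subset_span (by simp))
  have h2 : φ (const Z2 Z2_mem) = 0 := hzero _ (Ideal.subset_span (by simp))
  have h3 : φ (1 - ind N) = 0 := hzero _ (Ideal.subset_span (by simp))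
  refine ⟨φ, ?_, ?_, ?_⟩
  · rw [h1, norm_zero]; norm_num
  · rw [h2, norm_zero]; norm_num
  · rw [map_sub, map_one, sub_eq_zero] at h3
    rw [← h3]; exact one_ne_zero

/-- An almost disjoint family indexed by the binary sequences. -/
def adf (s : ℕ → Bool) : Set ℕ := Set.range fun n => Encodable.encode (List.ofFn fun i : Fin n => s i)

theorem adf_infinite (s : ℕ → Bool) : (adf s).Infinite := by
  apply Set.infinite_range_of_injective
  intro m n h
  have h1 := Encodable.encode_injective h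
  have h2 := congrArg List.length h1
  simpa using h2

theorem adf_finite {s t : ℕ → Bool} (h : s ≠ t) : (adf s ∩ adf t).Finite := by
  obtain ⟨k, hk⟩ := Function.ne_iff.1 h
  apply Set.Finite.subset (Set.Finite.image
    (fun n => Encodable.encode (List.ofFn fun i : Fin n => s i)) (Set.finite_Iic k))
  rintro _ ⟨⟨m, rfl⟩, n, hn⟩
  refine ⟨m, ?_, rfl⟩
  rw [Set.mem_Iic]
  by_contra hlt
  push Not at hlt
  have h1 : List.ofFn (fun i : Fin n => t i) = List.ofFn (fun i : Fin m => s i) :=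
    Encodable.encode_injective hn
  have h2 : n = m := by simpa using congrArg List.length h1
  subst h2
  have h3 := List.ofFn_injective h1
  have h4 := congrFun h3 ⟨k, hlt⟩
  exact hk h4.symm

theorem not_separable : ¬ TopologicalSpace.SeparableSpace (WeakDual.characterSpace ℂ BigA) := by
  intro hsep
  have hc : Countable (ℕ → Bool) := by
    apply Pairwise.countable_of_isOpen_disjoint (s := fun s : ℕ → Bool => O (adf s))
    · intro s t hst
      exact disjoint_O (adf_finite hst)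
    · exact fun s => isOpen_O _
    · exact fun s => nonempty_O (adf_infinite s)
  obtain ⟨e, he⟩ := exists_surjective_nat (ℕ → Bool)
  obtain ⟨n, hn⟩ := he fun k => !(e k k)
  have h1 := congrFun hn n
  simp at h1

end Pool.Agent.Q86.DiscAlg
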