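import Mathlib

/-!
# Multiplication and translation on `L²(ℝ)`
-/

set_option autoImplicit false

open MeasureTheory

namespace Pool.Agent.Q86.Cs

/-- the space `L²(ℝ)` -/
abbrev E : Type := Lp ℂ 2 (volume : Measure ℝ)

theorem memLp_mul {c : ℝ → ℝ} (hc : Measurable c) (hb : ∀ x, |c x| ≤ 1) (f : E) :
    MemLp (fun x => (c x : ℂ) * f x) 2 (volume : Measure ℝ) := by
  refine (Lp.memLp f).of_le ?_ ?_
  · exact (Complex.measurable_ofReal.comp hc).aestronglyMeasurable.mul
      (Lp.memLp f).aestronglyMeasurable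
  · filter_upwards with x
    rw [norm_mul, Complex.norm_real, Real.norm_eq_abs]
    exact mul_le_of_le_one_left (norm_nonneg _) (hb x)

/-- multiplication by a real function bounded by one -/
noncomputable def mulOp (c : ℝ → ℝ) (hc : Measurable c) (hb : ∀ x, |c x| ≤ 1) : E →L[ℂ] E :=
  LinearMap.mkContinuous
    { toFun := fun f => (memLp_mul hc hb f).toLp _
      map_add' := fun f g => by
        apply Lp.ext
        filter_upwards [(memLp_mul hc hb (f + g)).coeFn_toLp, (memLp_mul hc hb f).coeFn_toLp,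
          (memLp_mul hc hb g).coeFn_toLp, Lp.coeFn_add f g,
          Lp.coeFn_add ((memLp_mul hc hb f).toLp _) ((memLp_mul hc hb g).toLp _)]
          with x h1 h2 h3 h4 h5
        rw [h1, h5, Pi.add_apply, h2, h3, h4, Pi.add_apply]
        ring
      map_smul' := fun a f => by
        apply Lp.ext
        filter_upwards [(memLp_mul hc hb (a • f)).coeFn_toLp, (memLp_mul hc hb f).coeFn_toLp,
          Lp.coeFn_smul a f, Lp.coeFn_smul a ((memLp_mul hc hb f).toLp _)]
          with x h1 h2 h3 h4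
        rw [h1, RingHom.id_apply, h4, Pi.smul_apply, h2, h3, Pi.smul_apply, smul_eq_mul,
          smul_eq_mul]
        ring }
    1 (fun f => by
      rw [one_mul]
      refine Lp.norm_le_norm_of_ae_le ?_
      filter_upwards [(memLp_mul hc hb f).coeFn_toLp] with x h1
      show ‖((memLp_mul hc hb f).toLp _ : ℝ → ℂ) x‖ ≤ _
      rw [h1, norm_mul, Complex.norm_real, Real.norm_eq_abs]
      exact mul_le_of_le_one_left (norm_nonneg _) (hb x))

theorem mulOp_coe {c : ℝ → ℝ} (hc : Measurable c) (hb : ∀ x, |c x| ≤ 1) (f : E) :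
    (mulOp c hc hb f : ℝ → ℂ) =ᵐ[volume] fun x => (c x : ℂ) * f x :=
  (memLp_mul hc hb f).coeFn_toLp

theorem mulOp_norm {c : ℝ → ℝ} (hc : Measurable c) (hb : ∀ x, |c x| ≤ 1) (f : E) :
    ‖mulOp c hc hb f‖ ≤ ‖f‖ := by
  refine Lp.norm_le_norm_of_ae_le ?_
  filter_upwards [mulOp_coe hc hb f] with x h1
  rw [h1, norm_mul, Complex.norm_real, Real.norm_eq_abs]
  exact mul_le_of_le_one_left (norm_nonneg _) (hb x)

/-- translation by `t` to the right -/
noncomputable def tr (t : ℝ) : E →L[ℂ] E :=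
  (Lp.compMeasurePreservingₗᵢ ℂ (fun x : ℝ => -t + x)
    (measurePreserving_add_left volume (-t))).toContinuousLinearMap

theorem tr_eq (t : ℝ) (f : E) : tr t f = (DomAddAct.mk (-t)) +ᵥ f := rfl

theorem tr_coe (t : ℝ) (f : E) : (tr t f : ℝ → ℂ) =ᵐ[volume] fun x => f (x - t) := by
  have h := DomAddAct.vadd_Lp_ae_eq (DomAddAct.mk (-t)) f
  rw [tr_eq]
  filter_upwards [h] with x hx
  rw [hx]
  congr 1
  show -t + x = x - t
  ring

theorem tr_norm (t : ℝ) (f : E) : ‖tr t f‖ = ‖f‖ := DomAddAct.norm_vadd_Lp (DomAddAct.mk (-t)) f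

theorem tr_continuous (f : E) : Continuous fun t : ℝ => tr t f := by
  have _ : Fact ((2 : ENNReal) ≠ ⊤) := ⟨by norm_num⟩
  have h : Continuous fun t : ℝ => (DomAddAct.mk (-t)) +ᵥ f :=
    (DomAddAct.continuous_mk.comp continuous_neg).vadd continuous_const
  exact h

end Pool.Agent.Q86.Cs
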