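import Pool.Agent.Q86.CsA

/-!
# The weighted translation semigroup
-/

set_option autoImplicit false

open MeasureTheory

namespace Pool.Agent.Q86.Cs

/-- square root weight -/
noncomputable def sw (x : ℝ) : ℝ := Real.sqrt (1 + max x 0)

theorem sw_arg (x : ℝ) : 1 ≤ 1 + max x 0 := by
  have := le_max_right x 0
  linarith

theorem sw_ge (x : ℝ) : 1 ≤ sw x := by
  unfold sw
  rw [Real.one_le_sqrt]
  exact sw_arg x

theorem sw_pos (x : ℝ) : 0 < sw x := lt_of_lt_of_le one_pos (sw_ge x)

theorem sw_mono {x y : ℝ} (h : x ≤ y) : sw x ≤ sw y :=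
  Real.sqrt_le_sqrt (by have := max_le_max_right 0 h; linarith)

theorem sw_lip (x y : ℝ) : |sw x - sw y| ≤ |x - y| := by
  wlog h : y ≤ x generalizing x y with H
  · rw [abs_sub_comm, abs_sub_comm x y]
    exact H y x (le_of_not_ge h)
  have h1 := sw_mono h
  rw [abs_of_nonneg (by linarith), abs_of_nonneg (by linarith)]
  have e1 : sw x ^ 2 = 1 + max x 0 := Real.sq_sqrt (by linarith [sw_arg x])
  have e2 : sw y ^ 2 = 1 + max y 0 := Real.sq_sqrt (by linarith [sw_arg y])
  have h2 : max x 0 - max y 0 ≤ x - y := by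
    rcases le_total x 0 with hx | hx
    · rw [max_eq_right hx]
      have := le_max_right y 0
      linarith
    · rw [max_eq_left hx]
      have := le_max_left y 0
      linarith
  nlinarith [sw_ge x, sw_ge y]

theorem sw_cont : Continuous sw := by unfold sw; fun_prop

/-- the multiplier -/
noncomputable def cc (t x : ℝ) : ℝ := Real.sqrt (sw (x - t) / sw x)

theorem cc_meas (t : ℝ) : Measurable (cc t) := by
  have : Continuous (cc t) := by
    unfold cc
    refine Continuous.sqrt ?_
    exact (sw_cont.comp (continuous_id.sub continuous_const)).div sw_cont fun x => (sw_pos x).ne'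
  exact this.measurable

theorem ratio_nonneg (t x : ℝ) : 0 ≤ sw (x - t) / sw x := (div_pos (sw_pos _) (sw_pos _)).le

theorem cc_sq (t x : ℝ) : cc t x ^ 2 = sw (x - t) / sw x := Real.sq_sqrt (ratio_nonneg t x)

theorem cc_bound {t : ℝ} (ht : 0 ≤ t) (x : ℝ) : |cc t x| ≤ 1 := by
  unfold cc
  rw [abs_of_nonneg (Real.sqrt_nonneg _), Real.sqrt_le_one, div_le_one (sw_pos x)]
  exact sw_mono (by linarith)

theorem cc_zero (x : ℝ) : cc 0 x = 1 := by
  unfold cc
  rw [sub_zero, div_self (sw_pos x).ne', Real.sqrt_one]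

theorem cc_add (s t x : ℝ) : cc (s + t) x = cc s x * cc t (x - s) := by
  unfold cc
  rw [← Real.sqrt_mul (ratio_nonneg s x)]
  congr 1
  have h1 := (sw_pos (x - s)).ne'
  have h2 := (sw_pos x).ne'
  rw [show x - (s + t) = x - s - t by ring]
  field_simp

theorem cc_close (t u x : ℝ) : |cc t x - cc u x| ≤ Real.sqrt |t - u| := by
  have h1 : |sw (x - t) / sw x - sw (x - u) / sw x| ≤ |t - u| := by
    rw [← sub_div, abs_div, abs_of_pos (sw_pos x)]
    have h2 := sw_lip (x - t) (x - u)
    have h3 : |x - t - (x - u)| = |t - u| := by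
      rw [show x - t - (x - u) = -(t - u) by ring, abs_neg]
    rw [h3] at h2
    refine (div_le_self (abs_nonneg _) (sw_ge x)).trans h2
  have h0 : ∀ a b : ℝ, 0 ≤ a → 0 ≤ b → |Real.sqrt a - Real.sqrt b| ≤ Real.sqrt |a - b| := by
    intro a b ha hb
    wlog h : b ≤ a generalizing a b with H
    · rw [abs_sub_comm, abs_sub_comm a b]
      exact H b a hb ha (le_of_not_ge h)
    have h3 := Real.sqrt_le_sqrt h
    rw [abs_of_nonneg (by linarith), abs_of_nonneg (by linarith)]
    have h4 : a = b + (a - b) := by ring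
    have h5 : Real.sqrt a ≤ Real.sqrt b + Real.sqrt (a - b) := by
      rw [Real.sqrt_le_left (by positivity)]
      have g1 := Real.sq_sqrt hb
      have g2 := Real.sq_sqrt (show 0 ≤ a - b by linarith)
      have g3 := mul_nonneg (Real.sqrt_nonneg b) (Real.sqrt_nonneg (a - b))
      nlinarith
    linarith
  exact (h0 _ _ (ratio_nonneg t x) (ratio_nonneg u x)).trans (Real.sqrt_le_sqrt h1)

/-- the semigroup on `L²(ℝ)` for nonnegative times -/
noncomputable def W (t : ℝ) : E →L[ℂ] E :=
  (mulOp (cc (max t 0)) (cc_meas _) (cc_bound (le_max_right t 0))).comp (tr (max t 0))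

theorem W_apply (t : ℝ) (f : E) : W t f = mulOp (cc (max t 0)) (cc_meas _)
    (cc_bound (le_max_right t 0)) (tr (max t 0) f) := rfl

theorem W_coe {t : ℝ} (ht : 0 ≤ t) (f : E) :
    (W t f : ℝ → ℂ) =ᵐ[volume] fun x => (cc t x : ℂ) * f (x - t) := by
  have h1 := mulOp_coe (cc_meas (max t 0)) (cc_bound (le_max_right t 0)) (tr (max t 0) f)
  have h2 := tr_coe (max t 0) f
  rw [W_apply]
  filter_upwards [h1, h2] with x h3 h4
  rw [h3, h4, max_eq_left ht]

theorem W_norm (t : ℝ) (f : E) : ‖W t f‖ ≤ ‖f‖ := by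
  rw [W_apply, ← tr_norm (max t 0) f]
  exact mulOp_norm _ _ _

theorem W_zero (f : E) : W 0 f = f := by
  apply Lp.ext
  filter_upwards [W_coe le_rfl f] with x h
  rw [h, cc_zero, sub_zero, Complex.ofReal_one, one_mul]

theorem ae_shift {P : ℝ → Prop} (h : ∀ᵐ x ∂(volume : Measure ℝ), P x) (s : ℝ) :
    ∀ᵐ x ∂(volume : Measure ℝ), P (x - s) :=
  (measurePreserving_sub_right volume s).quasiMeasurePreserving.ae h

theorem W_add {s t : ℝ} (hs : 0 ≤ s) (ht : 0 ≤ t) (f : E) : W (s + t) f = W s (W t f) := by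
  apply Lp.ext
  filter_upwards [W_coe (add_nonneg hs ht) f, W_coe hs (W t f), ae_shift (W_coe ht f) s]
    with x h1 h2 h3
  rw [h1, h2, h3, cc_add, Complex.ofReal_mul, mul_assoc]
  congr 3
  ring

theorem W_cont (f : E) : Continuous fun t : ℝ => W t f := by
  have hkey : ∀ t u : ℝ, ‖W t f - W u f‖ ≤ Real.sqrt |max t 0 - max u 0| * ‖f‖
      + ‖tr (max t 0) f - tr (max u 0) f‖ := by
    intro t u
    have e : W t f - W u f = (mulOp (cc (max t 0)) (cc_meas _) (cc_bound (le_max_right t 0))
        (tr (max t 0) f) - mulOp (cc (max u 0)) (cc_meas _) (cc_bound (le_max_right u 0))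
        (tr (max t 0) f)) + mulOp (cc (max u 0)) (cc_meas _) (cc_bound (le_max_right u 0))
        (tr (max t 0) f - tr (max u 0) f) := by
      rw [map_sub, W_apply, W_apply]
      abel
    rw [e]
    refine (norm_add_le _ _).trans (add_le_add ?_ (mulOp_norm _ _ _))
    rw [← tr_norm (max t 0) f]
    refine Lp.norm_le_mul_norm_of_ae_le_mul ?_
    filter_upwards [Lp.coeFn_sub (mulOp (cc (max t 0)) (cc_meas _) (cc_bound (le_max_right t 0))
        (tr (max t 0) f)) (mulOp (cc (max u 0)) (cc_meas _) (cc_bound (le_max_right u 0))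
        (tr (max t 0) f)), mulOp_coe (cc_meas (max t 0)) (cc_bound (le_max_right t 0))
          (tr (max t 0) f), mulOp_coe (cc_meas (max u 0)) (cc_bound (le_max_right u 0))
          (tr (max t 0) f)] with x h1 h2 h3
    rw [h1, Pi.sub_apply, h2, h3, ← sub_mul, norm_mul, ← Complex.ofReal_sub, Complex.norm_real,
      Real.norm_eq_abs]
    exact mul_le_mul_of_nonneg_right (cc_close _ _ _) (norm_nonneg _)
  rw [continuous_iff_continuousAt]
  intro u
  rw [ContinuousAt, tendsto_iff_norm_sub_tendsto_zero]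
  have h1 : Filter.Tendsto (fun t => Real.sqrt |max t 0 - max u 0| * ‖f‖
      + ‖tr (max t 0) f - tr (max u 0) f‖) (nhds u) (nhds 0) := by
    have hc : Continuous fun t => Real.sqrt |max t 0 - max u 0| * ‖f‖
      + ‖tr (max t 0) f - tr (max u 0) f‖ := by
      have h2 : Continuous fun t => tr (max t 0) f :=
        (tr_continuous f).comp (continuous_id.max continuous_const)
      fun_prop
    have h3 := hc.tendsto u
    simpa using h3
  exact squeeze_zero (fun t => norm_nonneg _) (fun t => hkey t u) h1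

end Pool.Agent.Q86.Cs
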