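import Pool.Agent.Q86.CsB

/-!
# The resolvent estimate
-/

set_option autoImplicit false

open MeasureTheory

namespace Pool.Agent.Q86.Cs

theorem int_sq (f : E) : Integrable (fun x => ‖f x‖ ^ 2) (volume : Measure ℝ) :=
  (memLp_two_iff_integrable_sq_norm (Lp.memLp f).aestronglyMeasurable).mp (Lp.memLp f)

theorem int_mul_sq {c : ℝ → ℝ} (hc : Measurable c) (hb : ∀ x, |c x| ≤ 1) (f : E) :
    Integrable (fun x => c x * ‖f x‖ ^ 2) (volume : Measure ℝ) := by
  refine (int_sq f).mono' ?_ ?_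
  · exact hc.aestronglyMeasurable.mul (int_sq f).aestronglyMeasurable
  · filter_upwards with x
    rw [norm_mul, Real.norm_eq_abs, Real.norm_eq_abs, abs_of_nonneg (sq_nonneg ‖f x‖)]
    exact mul_le_of_le_one_left (sq_nonneg _) (hb x)

theorem norm_sq_int (f : E) : ‖f‖ ^ 2 = ∫ x, ‖f x‖ ^ 2 := by
  have h := L2.inner_def (𝕜 := ℂ) f f
  rw [inner_self_eq_norm_sq_to_K] at h
  simp only [inner_self_eq_norm_sq_to_K] at h
  have h2 : (∫ a, ((‖f a‖ : ℂ)) ^ 2) = ((∫ a, ‖f a‖ ^ 2 : ℝ) : ℂ) := by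
    rw [← integral_complex_ofReal]
    simp only [Complex.ofReal_pow]
  have h3 : ((‖f‖ : ℂ)) ^ 2 = ∫ a, ((‖f a‖ : ℂ)) ^ 2 := h
  rw [h2] at h3
  exact_mod_cast h3

theorem mulOp_inner {c : ℝ → ℝ} (hc : Measurable c) (hb : ∀ x, |c x| ≤ 1) (f g : E) :
    inner ℂ (mulOp c hc hb f) g = inner ℂ f (mulOp c hc hb g) := by
  rw [L2.inner_def, L2.inner_def]
  apply integral_congr_ae
  filter_upwards [mulOp_coe hc hb f, mulOp_coe hc hb g] with x h1 h2
  rw [h1, h2]
  simp only [RCLike.inner_apply, map_mul, Complex.conj_ofReal]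
  ring

theorem mulOp_form {c : ℝ → ℝ} (hc : Measurable c) (hb : ∀ x, |c x| ≤ 1) (f : E) :
    (inner ℂ (mulOp c hc hb f) f).re = ∫ x, c x * ‖f x‖ ^ 2 := by
  rw [L2.inner_def]
  have h : (∫ a, inner ℂ ((mulOp c hc hb f : ℝ → ℂ) a) ((f : ℝ → ℂ) a))
      = ((∫ a, c a * ‖f a‖ ^ 2 : ℝ) : ℂ) := by
    rw [← integral_complex_ofReal]
    apply integral_congr_ae
    filter_upwards [mulOp_coe hc hb f] with x h1
    rw [h1]
    simp only [RCLike.inner_apply, map_mul, Complex.conj_ofReal, Complex.ofReal_mul,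
      Complex.ofReal_pow]
    rw [← Complex.mul_conj']
    ring
  rw [h, Complex.ofReal_re]

/-- the multiplier of the Lyapunov form -/
noncomputable def th (κ x : ℝ) : ℝ := min 1 (κ * max x 0)

theorem th_meas (κ : ℝ) : Measurable (th κ) := by
  have : Continuous (th κ) := by unfold th; fun_prop
  exact this.measurable

theorem th_nonneg {κ : ℝ} (hκ : 0 < κ) (x : ℝ) : 0 ≤ th κ x :=
  le_min zero_le_one (mul_nonneg hκ.le (le_max_right _ _))

theorem th_bound {κ : ℝ} (hκ : 0 < κ) (x : ℝ) : |th κ x| ≤ 1 := by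
  rw [abs_of_nonneg (th_nonneg hκ x)]
  exact min_le_left _ _

theorem ratio_ge {v h : ℝ} (hv : 0 ≤ v) (hh : 0 ≤ h) :
    1 - h / (2 * (1 + v)) ≤ sw v / sw (v + h) := by
  have e1 : sw v ^ 2 = 1 + v := by
    unfold sw
    rw [Real.sq_sqrt (by linarith [sw_arg v]), max_eq_left hv]
  have e2 : sw (v + h) ^ 2 = 1 + v + h := by
    unfold sw
    rw [Real.sq_sqrt (by linarith [sw_arg (v + h)]), max_eq_left (by linarith)]
    ring
  have hA := sw_pos v
  have hB := sw_pos (v + h)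
  set A := sw v
  set B := sw (v + h)
  rw [← e1]
  by_cases hc : 2 * A ^ 2 ≤ h
  · have h1 : 1 - h / (2 * A ^ 2) ≤ 0 := by
      rw [sub_nonpos, one_le_div (by positivity)]
      exact hc
    exact h1.trans (div_pos hA hB).le
  · push Not at hc
    rw [le_div_iff₀ hB]
    have h2 : (1 - h / (2 * A ^ 2)) * B = (2 * A ^ 2 - h) * B / (2 * A ^ 2) := by
      field_simp
    rw [h2, div_le_iff₀ (by positivity)]
    have h3 : 0 ≤ (2 * A ^ 2 - h) * B := mul_nonneg (by linarith) hB.le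
    refine abs_le_of_sq_le_sq' ?_ (by positivity) |>.2
    have h4 : ((2 * A ^ 2 - h) * B) ^ 2 = (2 * A ^ 2 - h) ^ 2 * (A ^ 2 + h) := by
      rw [mul_pow, e2, e1]
    rw [h4]
    nlinarith [mul_nonneg (sq_nonneg h) (show 0 ≤ 3 * A ^ 2 - h by nlinarith)]

theorem key {κ h v : ℝ} (hκ : 0 < κ) (hh : 0 < h) (h1 : h ≤ 1) (h2 : κ * h ≤ 1 / 2)
    (hv : 0 ≤ v) : Real.exp (-(2 * κ * h)) * th κ v + κ * h * (1 - h) / 2
      ≤ (sw v / sw (v + h)) * th κ (v + h) := by
  have hr := ratio_ge hv hh.le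
  have hvh : 0 ≤ v + h := by linarith
  have hthv : th κ v = min 1 (κ * v) := by unfold th; rw [max_eq_left hv]
  have hthh : th κ (v + h) = min 1 (κ * (v + h)) := by unfold th; rw [max_eq_left hvh]
  have hth0 := th_nonneg hκ (v + h)
  refine le_trans ?_ (mul_le_mul_of_nonneg_right hr hth0)
  have hq : 0 ≤ h / (2 * (1 + v)) := by positivity
  by_cases hc : κ * (v + h) ≤ 1
  · rw [hthh, min_eq_right hc, hthv, min_eq_right (by nlinarith)]
    have he : Real.exp (-(2 * κ * h)) ≤ 1 := Real.exp_le_one_iff.mpr (by nlinarith)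
    have h3 : Real.exp (-(2 * κ * h)) * (κ * v) ≤ κ * v :=
      mul_le_of_le_one_left (by positivity) he
    have h4 : h / (2 * (1 + v)) * (v + h) ≤ h * (1 + h) / 2 := by
      rw [div_mul_eq_mul_div, div_le_div_iff₀ (by positivity) (by norm_num)]
      nlinarith [mul_nonneg hh.le (mul_nonneg hv hh.le), mul_pos hh hh]
    nlinarith
  · push Not at hc
    rw [hthh, min_eq_left hc.le, mul_one]
    have h3 : th κ v ≤ 1 := (le_abs_self _).trans (th_bound hκ v)
    have h4 : Real.exp (-(2 * κ * h)) * th κ v ≤ Real.exp (-(2 * κ * h)) :=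
      mul_le_of_le_one_right (Real.exp_pos _).le h3
    have h5 : Real.exp (-(2 * κ * h)) ≤ 1 - 2 * κ * h + (2 * κ * h) ^ 2 / 2 := by
      have hx : 0 ≤ 2 * κ * h := by positivity
      have := Real.quadratic_le_exp_of_nonneg hx
      rw [Real.exp_neg, inv_le_comm₀ (Real.exp_pos _) (by nlinarith)]
      refine le_trans ?_ this
      rw [inv_le_iff_one_le_mul₀ (by nlinarith)]
      nlinarith [sq_nonneg (2 * κ * h), pow_nonneg hx 3, pow_nonneg hx 4]
    have h6 : h / (2 * (1 + v)) ≤ κ * h / 2 := by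
      rw [div_le_div_iff₀ (by positivity) (by norm_num)]
      have h7 : 1 ≤ κ * (1 + v) := by nlinarith
      nlinarith [mul_le_mul_of_nonneg_left h7 hh.le]
    nlinarith [mul_pos hκ hh]

end Pool.Agent.Q86.Cs
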