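import Pool.Agent.Q86.CsC

/-!
# The half line and the lower bound
-/

set_option autoImplicit false

open MeasureTheory Filter Topology

namespace Pool.Agent.Q86.Cs

theorem form_W {κ h : ℝ} (hκ : 0 < κ) (hh : 0 < h) (h1 : h ≤ 1) (h2 : κ * h ≤ 1 / 2) {x : E}
    (hx : ∀ᵐ v ∂(volume : Measure ℝ), v < 0 → x v = 0) :
    Real.exp (-(2 * κ * h)) * (inner ℂ (mulOp (th κ) (th_meas κ) (th_bound hκ) x) x).re
      + κ * h * (1 - h) / 2 * ‖x‖ ^ 2
      ≤ (inner ℂ (mulOp (th κ) (th_meas κ) (th_bound hκ) (W h x)) (W h x)).re := by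
  rw [mulOp_form, mulOp_form, norm_sq_int]
  have e1 : ∫ v, th κ v * ‖W h x v‖ ^ 2
      = ∫ v, (sw v / sw (v + h)) * th κ (v + h) * ‖x v‖ ^ 2 := by
    rw [← integral_sub_right_eq_self (fun v => (sw v / sw (v + h)) * th κ (v + h) * ‖x v‖ ^ 2) h]
    apply integral_congr_ae
    filter_upwards [W_coe hh.le x] with v hv
    rw [hv, norm_mul, mul_pow, Complex.norm_real, Real.norm_eq_abs, sq_abs, cc_sq]
    rw [sub_add_cancel]
    ring
  rw [e1, ← integral_const_mul, ← integral_const_mul, ← integral_add]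
  · apply integral_mono_ae
    · exact ((int_mul_sq (th_meas κ) (th_bound hκ) x).const_mul _).add ((int_sq x).const_mul _)
    · have hc : Measurable fun v => (sw v / sw (v + h)) * th κ (v + h) :=
        (sw_cont.measurable.div (sw_cont.measurable.comp (measurable_id.add_const h))).mul
          ((th_meas κ).comp (measurable_id.add_const h))
      refine int_mul_sq hc ?_ x
      intro v
      rw [abs_mul, abs_of_nonneg (div_pos (sw_pos _) (sw_pos _)).le]
      refine mul_le_one₀ ?_ (abs_nonneg _) (th_bound hκ _)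
      rw [div_le_one (sw_pos _)]
      exact sw_mono (by linarith)
    · filter_upwards [hx] with v hv
      show Real.exp (-(2 * κ * h)) * (th κ v * ‖x v‖ ^ 2) + κ * h * (1 - h) / 2 * ‖x v‖ ^ 2
        ≤ (sw v / sw (v + h)) * th κ (v + h) * ‖x v‖ ^ 2
      rcases lt_or_ge v 0 with h3 | h3
      · rw [hv h3]
        simp
      · have := key hκ hh h1 h2 h3
        have h4 := mul_le_mul_of_nonneg_right this (sq_nonneg ‖x v‖)
        calc _ = (Real.exp (-(2 * κ * h)) * th κ v + κ * h * (1 - h) / 2) * ‖x v‖ ^ 2 := by ring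
          _ ≤ _ := h4
  · exact (int_mul_sq (th_meas κ) (th_bound hκ) x).const_mul _
  · exact (int_sq x).const_mul _

theorem lower {x y : E} (hx : ∀ᵐ v ∂(volume : Measure ℝ), v < 0 → x v = 0)
    (hy : Tendsto (fun h : ℝ => ((h : ℂ)⁻¹) • (W h x - x)) (𝓝[>] 0) (𝓝 y)) {μ : ℂ}
    (hμ : μ.re < 0) : (1 / 4 : ℝ) * |μ.re| * ‖x‖ ≤ ‖μ • x - y‖ := by
  set κ : ℝ := -μ.re with hκdef
  have hκ : 0 < κ := by rw [hκdef]; linarith
  have habs : |μ.re| = κ := abs_of_neg hμ
  rw [habs]
  set Q := mulOp (th κ) (th_meas κ) (th_bound hκ) with hQ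
  set g := μ • x - y with hg
  have hyg : y = μ • x - g := by rw [hg]; abel
  -- the difference quotients
  have hd : ∀ h : ℝ, 0 < h → W h x = x + (h : ℂ) • (((h : ℂ)⁻¹) • (W h x - x)) := by
    intro h hh
    have : (h : ℂ) ≠ 0 := by exact_mod_cast hh.ne'
    rw [smul_smul, mul_inv_cancel₀ this, one_smul]
    abel
  have hW : Tendsto (fun h : ℝ => W h x) (𝓝[>] 0) (𝓝 x) := by
    have := (W_cont x).tendsto 0
    rw [W_zero] at this
    exact this.mono_left nhdsWithin_le_nhds
  -- lower bound for the derivative of the form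
  have hl : ∀ᶠ h : ℝ in 𝓝[>] 0, ((Real.exp (-(2 * κ * h)) - 1) / h) * (inner ℂ (Q x) x).re
      + κ * (1 - h) / 2 * ‖x‖ ^ 2
      ≤ (inner ℂ (Q (((h : ℂ)⁻¹) • (W h x - x))) (W h x)).re
        + (inner ℂ (Q x) (((h : ℂ)⁻¹) • (W h x - x))).re := by
    have hsmall : ∀ᶠ h : ℝ in 𝓝[>] 0, h < min 1 (1 / (2 * κ)) := by
      apply Filter.Eventually.filter_mono nhdsWithin_le_nhds
      exact gt_mem_nhds (lt_min one_pos (by positivity))
    filter_upwards [hsmall, self_mem_nhdsWithin] with h h1 h0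
    have h0' : 0 < h := h0
    have h2 : κ * h ≤ 1 / 2 := by
      have := (lt_min_iff.mp h1).2
      rw [lt_div_iff₀ (by positivity)] at this
      linarith
    have h3 := form_W hκ h0' (lt_min_iff.mp h1).1.le h2 hx
    set d := ((h : ℂ)⁻¹) • (W h x - x) with hdd
    have e1 := hd h h0'
    rw [← hdd] at e1
    have e2 : (inner ℂ (Q (W h x)) (W h x)).re = (inner ℂ (Q x) x).re
        + h * ((inner ℂ (Q d) (W h x)).re + (inner ℂ (Q x) d).re) := by
      have s1 : inner ℂ (Q (W h x)) (W h x) = inner ℂ (Q x) (W h x)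
          + (h : ℂ) * inner ℂ (Q d) (W h x) := by
        conv_lhs =>
          enter [2]
          rw [e1]
        rw [map_add, map_smul, inner_add_left, inner_smul_left, Complex.conj_ofReal]
      have s2 : inner ℂ (Q x) (W h x) = inner ℂ (Q x) x + (h : ℂ) * inner ℂ (Q x) d := by
        rw [e1, inner_add_right, inner_smul_right]
      rw [s1, s2]
      simp only [Complex.add_re, Complex.mul_re, Complex.ofReal_re, Complex.ofReal_im, zero_mul,
        sub_zero]
      ring
    rw [← hQ, e2] at h3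
    have h4 : (Real.exp (-(2 * κ * h)) - 1) * (inner ℂ (Q x) x).re
        + κ * h * (1 - h) / 2 * ‖x‖ ^ 2
        ≤ h * ((inner ℂ (Q d) (W h x)).re + (inner ℂ (Q x) d).re) := by linarith
    have h5 : ((Real.exp (-(2 * κ * h)) - 1) / h) * (inner ℂ (Q x) x).re
      + κ * (1 - h) / 2 * ‖x‖ ^ 2 = ((Real.exp (-(2 * κ * h)) - 1) * (inner ℂ (Q x) x).re
        + κ * h * (1 - h) / 2 * ‖x‖ ^ 2) / h := by
      field_simp
    rw [h5, div_le_iff₀ h0']
    linarith
  -- limits
  have hexp : Tendsto (fun h : ℝ => (Real.exp (-(2 * κ * h)) - 1) / h) (𝓝[>] 0)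
      (𝓝 (-(2 * κ))) := by
    have hder : HasDerivAt (fun h : ℝ => Real.exp (-(2 * κ * h))) (-(2 * κ)) 0 := by
      have h1 : HasDerivAt (fun h : ℝ => -(2 * κ * h)) (-(2 * κ)) 0 := by
        have e : (fun h : ℝ => -(2 * κ * h)) = fun h => (-(2 * κ)) * h := by
          funext h
          ring
        rw [e]
        exact hasDerivAt_const_mul (-(2 * κ))
      have := h1.exp
      simpa using this
    have h2 := hder.tendsto_slope_zero_right
    refine h2.congr fun h => ?_
    simp only [zero_add, mul_zero, neg_zero, Real.exp_zero, smul_eq_mul]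
    rw [div_eq_inv_mul]
  have hL : Tendsto (fun h : ℝ => ((Real.exp (-(2 * κ * h)) - 1) / h) * (inner ℂ (Q x) x).re
      + κ * (1 - h) / 2 * ‖x‖ ^ 2) (𝓝[>] 0)
      (𝓝 (-(2 * κ) * (inner ℂ (Q x) x).re + κ / 2 * ‖x‖ ^ 2)) := by
    refine (hexp.mul_const _).add ?_
    have hc : Continuous fun h : ℝ => κ * (1 - h) / 2 * ‖x‖ ^ 2 := by fun_prop
    have := (hc.tendsto 0).mono_left (nhdsWithin_le_nhds (s := Set.Ioi (0 : ℝ)))
    simpa using this
  have hR : Tendsto (fun h : ℝ => (inner ℂ (Q (((h : ℂ)⁻¹) • (W h x - x))) (W h x)).re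
        + (inner ℂ (Q x) (((h : ℂ)⁻¹) • (W h x - x))).re) (𝓝[>] 0)
      (𝓝 ((inner ℂ (Q y) x).re + (inner ℂ (Q x) y).re)) := by
    refine Tendsto.add ?_ ?_
    · exact (Complex.continuous_re.tendsto _).comp (((Q.continuous.tendsto y).comp hy).inner hW)
    · exact (Complex.continuous_re.tendsto _).comp (tendsto_const_nhds.inner hy)
  have hmain := le_of_tendsto_of_tendsto hL hR hl
  have s1 : (inner ℂ (Q x) y).re = (inner ℂ (Q y) x).re := by
    rw [hQ, mulOp_inner, ← inner_conj_symm, Complex.conj_re]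
  have s2 : (inner ℂ (Q y) x).re = -κ * (inner ℂ (Q x) x).re - (inner ℂ (Q g) x).re := by
    rw [hyg, map_sub, map_smul, inner_sub_left, inner_smul_left, Complex.sub_re, Complex.mul_re]
    have him : (inner ℂ (Q x) x).im = 0 := by
      have h1 : inner ℂ (Q x) x = inner ℂ x (Q x) := by rw [hQ]; exact mulOp_inner _ _ _ _
      have h2 : (starRingEnd ℂ) (inner ℂ (Q x) x) = inner ℂ (Q x) x := by
        rw [inner_conj_symm, ← h1]
      exact Complex.conj_eq_iff_im.mp h2
    rw [him, mul_zero, sub_zero, Complex.conj_re, hκdef, neg_neg]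
  rw [s1, s2] at hmain
  have h3 : κ / 2 * ‖x‖ ^ 2 ≤ -2 * (inner ℂ (Q g) x).re := by linarith
  have h4 : |(inner ℂ (Q g) x).re| ≤ ‖g‖ * ‖x‖ :=
    (Complex.abs_re_le_norm _).trans ((norm_inner_le_norm _ _).trans
      (mul_le_mul_of_nonneg_right (mulOp_norm _ _ _) (norm_nonneg _)))
  have h5 : κ / 2 * ‖x‖ ^ 2 ≤ 2 * (‖g‖ * ‖x‖) := by
    have := neg_abs_le (inner ℂ (Q g) x).re
    linarith
  rcases eq_or_lt_of_le (norm_nonneg x) with h6 | h6
  · rw [← h6, mul_zero]
    exact norm_nonneg _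
  · have h7 : κ / 2 * ‖x‖ ≤ 2 * ‖g‖ := by
      have : (κ / 2 * ‖x‖) * ‖x‖ ≤ (2 * ‖g‖) * ‖x‖ := by nlinarith
      exact le_of_mul_le_mul_right this h6
    linarith

/-- the function `χ` of the negative half line -/
noncomputable def neg (x : ℝ) : ℝ := Set.indicator (Set.Iio 0) (fun _ => 1) x

theorem neg_meas : Measurable neg := measurable_const.indicator measurableSet_Iio

theorem neg_bound (x : ℝ) : |neg x| ≤ 1 := by
  unfold neg
  by_cases h : x ∈ Set.Iio (0 : ℝ)
  · rw [Set.indicator_of_mem h, abs_one]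
  · rw [Set.indicator_of_notMem h, abs_zero]
    exact zero_le_one

/-- the functions supported on the half line -/
noncomputable def S : Submodule ℂ E := (mulOp neg neg_meas neg_bound).ker

theorem mem_S (f : E) : f ∈ S ↔ ∀ᵐ v ∂(volume : Measure ℝ), v < 0 → f v = 0 := by
  have h1 : f ∈ S ↔ mulOp neg neg_meas neg_bound f = 0 := Iff.rfl
  rw [h1, Lp.ext_iff]
  constructor
  · intro h
    filter_upwards [h, mulOp_coe neg_meas neg_bound f, Lp.coeFn_zero ℂ 2 (volume : Measure ℝ)]
      with x h2 h3 h4 h5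
    rw [h3, h4] at h2
    have : neg x = 1 := Set.indicator_of_mem (show x ∈ Set.Iio (0 : ℝ) from h5) _
    rw [this] at h2
    simpa using h2
  · intro h
    filter_upwards [h, mulOp_coe neg_meas neg_bound f, Lp.coeFn_zero ℂ 2 (volume : Measure ℝ)]
      with x h2 h3 h4
    rw [h3, h4]
    by_cases h5 : x < 0
    · rw [h2 h5, mul_zero]; rfl
    · have : neg x = 0 := Set.indicator_of_notMem (show x ∉ Set.Iio (0 : ℝ) from h5) _
      rw [this]; simp

noncomputable instance : CompleteSpace S :=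
  (ContinuousLinearMap.isClosed_ker (mulOp neg neg_meas neg_bound)).completeSpace_coe

theorem W_mem (t : ℝ) {f : E} (hf : f ∈ S) : W t f ∈ S := by
  have e : W t f = W (max t 0) f := by
    rw [W_apply, W_apply]
    congr 2
    · simp
    · simp
  rw [e]
  rw [mem_S] at hf ⊢
  have h0 := le_max_right t 0
  filter_upwards [W_coe h0 f, ae_shift hf (max t 0)] with x h1 h2 h3
  rw [h1, h2 (by linarith), mul_zero]

/-- the semigroup -/
noncomputable def T (t : ℝ) : S →L[ℂ] S :=
  ((W t).comp S.subtypeL).codRestrict S fun f => W_mem t f.2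

theorem T_coe (t : ℝ) (f : S) : ((T t f : S) : E) = W t f := rfl

theorem T_norm (t : ℝ) : ‖T t‖ ≤ 1 := by
  refine ContinuousLinearMap.opNorm_le_bound _ zero_le_one fun f => ?_
  rw [one_mul]
  exact W_norm t f

end Pool.Agent.Q86.Cs
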