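import Pool.Agent.Q86.CsD

/-!
# Failure of the lower bound for the semigroup
-/

set_option autoImplicit false

open MeasureTheory Filter Topology

namespace Pool.Agent.Q86.Cs

theorem vol_ne : (volume : Measure ℝ) (Set.Icc (0 : ℝ) 1) ≠ ⊤ := by
  rw [Real.volume_Icc]
  exact ENNReal.ofReal_ne_top

/-- the indicator of the unit interval -/
noncomputable def f0 : E := indicatorConstLp 2 (measurableSet_Icc : MeasurableSet (Set.Icc (0 : ℝ) 1))
  vol_ne (1 : ℂ)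

theorem f0_coe : (f0 : ℝ → ℂ) =ᵐ[volume] Set.indicator (Set.Icc (0 : ℝ) 1) fun _ => (1 : ℂ) :=
  indicatorConstLp_coeFn

theorem f0_norm : ‖f0‖ = 1 := by
  unfold f0
  rw [norm_indicatorConstLp (by norm_num) (by norm_num)]
  simp [measureReal_def]

theorem f0_mem : f0 ∈ S := by
  rw [mem_S]
  filter_upwards [f0_coe] with v hv h
  rw [hv, Set.indicator_of_notMem]
  intro h2
  exact absurd h2.1 (not_le.mpr h)

theorem W_f0 {t : ℝ} (ht : 0 ≤ t) : ‖W t f0‖ ≤ Real.sqrt (sw 1 / sw t) := by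
  have h1 : ‖W t f0‖ ≤ Real.sqrt (sw 1 / sw t) * ‖tr t f0‖ := by
    refine Lp.norm_le_mul_norm_of_ae_le_mul ?_
    filter_upwards [W_coe ht f0, tr_coe t f0, ae_shift f0_coe t] with v h2 h3 h4
    rw [h2, h3, h4, norm_mul, Complex.norm_real, Real.norm_eq_abs]
    by_cases h5 : v - t ∈ Set.Icc (0 : ℝ) 1
    · refine mul_le_mul_of_nonneg_right ?_ (norm_nonneg _)
      unfold cc
      rw [abs_of_nonneg (Real.sqrt_nonneg _)]
      refine Real.sqrt_le_sqrt (div_le_div₀ (sw_pos _).le (sw_mono h5.2) (sw_pos _) (sw_mono ?_))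
      linarith [h5.1]
    · rw [Set.indicator_of_notMem h5]
      simp
  rw [tr_norm, f0_norm, mul_one] at h1
  exact h1

theorem no_lower {m : ℝ} (hm : 0 < m) (h : ∀ t : ℝ, 0 ≤ t → ∀ x : S, m * ‖x‖ ≤ ‖T t x‖) :
    False := by
  set t : ℝ := (sw 1 / m ^ 2) ^ 2 with ht
  have ht0 : 0 ≤ t := sq_nonneg _
  have h1 := h t ht0 ⟨f0, f0_mem⟩
  have e1 : ‖(⟨f0, f0_mem⟩ : S)‖ = 1 := f0_norm
  have e2 : ‖T t ⟨f0, f0_mem⟩‖ = ‖W t f0‖ := rfl
  rw [e1, e2, mul_one] at h1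
  have h2 := h1.trans (W_f0 ht0)
  have h3 : m ^ 2 ≤ sw 1 / sw t := by
    have := pow_le_pow_left₀ hm.le h2 2
    rwa [Real.sq_sqrt (div_pos (sw_pos _) (sw_pos _)).le] at this
  have h4 : sw t ≤ sw 1 / m ^ 2 := by
    rw [le_div_iff₀ (sw_pos t)] at h3
    rw [le_div_iff₀ (by positivity)]
    linarith
  have h5 : sw 1 / m ^ 2 < sw t := by
    have : sw t = Real.sqrt (1 + t) := by
      unfold sw
      rw [max_eq_left ht0]
    rw [this]
    apply Real.lt_sqrt_of_sq_lt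
    rw [← ht]
    linarith
  linarith

theorem main : ¬ (∀ (H : Type) [NormedAddCommGroup H] [InnerProductSpace ℂ H] [CompleteSpace H]
      (T : ℝ → H →L[ℂ] H),
      T 0 = ContinuousLinearMap.id ℂ H →
      (∀ s t : ℝ, 0 ≤ s → 0 ≤ t → T (s + t) = (T s).comp (T t)) →
      (∀ x : H, ContinuousOn (fun t : ℝ => T t x) (Set.Ici 0)) →
      (∀ t : ℝ, 0 ≤ t → ‖T t‖ ≤ 1) →
      ∀ m : ℝ, 0 < m →
      (∀ x y : H,
        Filter.Tendsto (fun h : ℝ => ((h : ℂ)⁻¹) • (T h x - x))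
          (nhdsWithin 0 (Set.Ioi 0)) (nhds y) →
        ∀ μ : ℂ, μ.re < 0 → m * |μ.re| * ‖x‖ ≤ ‖μ • x - y‖) →
      ∃ m₁ : ℝ, 0 < m₁ ∧ ∀ t : ℝ, 0 ≤ t → ∀ x : H, m₁ * ‖x‖ ≤ ‖T t x‖) := by
  intro h
  have c1 : T 0 = ContinuousLinearMap.id ℂ S := by
    ext f : 1
    apply Subtype.ext
    rw [T_coe, W_zero]
    rfl
  have c2 : ∀ s t : ℝ, 0 ≤ s → 0 ≤ t → T (s + t) = (T s).comp (T t) := by
    intro s t hs ht
    ext f : 1
    apply Subtype.ext
    rw [T_coe, W_add hs ht]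
    rfl
  have c3 : ∀ x : S, ContinuousOn (fun t : ℝ => T t x) (Set.Ici 0) := by
    intro x
    apply Continuous.continuousOn
    rw [continuous_induced_rng]
    exact W_cont x
  have c4 : ∀ x y : S, Filter.Tendsto (fun h : ℝ => ((h : ℂ)⁻¹) • (T h x - x))
          (nhdsWithin 0 (Set.Ioi 0)) (nhds y) →
        ∀ μ : ℂ, μ.re < 0 → (1 / 4 : ℝ) * |μ.re| * ‖x‖ ≤ ‖μ • x - y‖ := by
    intro x y hxy μ hμ
    have hx := (mem_S (x : E)).mp x.2
    have hy : Tendsto (fun h : ℝ => ((h : ℂ)⁻¹) • (W h x - x)) (𝓝[>] 0) (𝓝 (y : E)) :=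
      (S.subtypeL.continuous.tendsto y).comp hxy
    exact lower hx hy hμ
  obtain ⟨m₁, hm, h1⟩ := h S T c1 c2 c3 (fun t _ => T_norm t) (1 / 4) (by norm_num) c4
  exact no_lower hm h1

end Pool.Agent.Q86.Cs
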