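import Mathlib

set_option autoImplicit false

/-!
# The disc algebra
-/

namespace Pool.Agent.Q86.DiscAlg

open Metric Set Filter Topology

/-- The closed unit disc. -/
abbrev K : Type := closedBall (0 : ℂ) 1

instance : CompactSpace K := isCompact_iff_compactSpace.1 (isCompact_closedBall (0 : ℂ) 1)

/-- The value of `f` at a point of the closed disc, and `0` outside. -/
noncomputable def ev (f : C(K, ℂ)) (z : ℂ) : ℂ := by
  classical exact if h : z ∈ closedBall (0 : ℂ) 1 then f ⟨z, h⟩ else 0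

theorem ev_of_mem (f : C(K, ℂ)) {z : ℂ} (h : z ∈ closedBall (0 : ℂ) 1) : ev f z = f ⟨z, h⟩ := by
  simp only [ev, dif_pos h]

theorem ev_of_notMem (f : C(K, ℂ)) {z : ℂ} (h : z ∉ closedBall (0 : ℂ) 1) : ev f z = 0 := by
  simp only [ev, dif_neg h]

theorem ev_add (f g : C(K, ℂ)) (z : ℂ) : ev (f + g) z = ev f z + ev g z := by
  by_cases h : z ∈ closedBall (0 : ℂ) 1
  · simp only [ev_of_mem _ h, ContinuousMap.add_apply]
  · simp only [ev_of_notMem _ h, add_zero]

theorem ev_sub (f g : C(K, ℂ)) (z : ℂ) : ev (f - g) z = ev f z - ev g z := by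
  by_cases h : z ∈ closedBall (0 : ℂ) 1
  · simp only [ev_of_mem _ h, ContinuousMap.sub_apply]
  · simp only [ev_of_notMem _ h, sub_zero]

theorem ev_mul (f g : C(K, ℂ)) (z : ℂ) : ev (f * g) z = ev f z * ev g z := by
  by_cases h : z ∈ closedBall (0 : ℂ) 1
  · simp only [ev_of_mem _ h, ContinuousMap.mul_apply]
  · simp only [ev_of_notMem _ h, mul_zero]

theorem norm_ev_le (f : C(K, ℂ)) (z : ℂ) : ‖ev f z‖ ≤ ‖f‖ := by
  by_cases h : z ∈ closedBall (0 : ℂ) 1
  · rw [ev_of_mem _ h]; exact f.norm_coe_le_norm _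
  · rw [ev_of_notMem _ h, norm_zero]; exact norm_nonneg _

theorem continuousOn_ev (f : C(K, ℂ)) : ContinuousOn (ev f) (closedBall 0 1) := by
  rw [continuousOn_iff_continuous_domRestrict]
  have : (closedBall (0 : ℂ) 1).domRestrict (ev f) = f := by
    funext z
    exact ev_of_mem f z.2
  rw [this]
  exact f.continuous

/-- The disc algebra: the continuous functions on the closed disc that are holomorphic on the
open disc. -/
def A : Subalgebra ℂ C(K, ℂ) where
  carrier := {f | DifferentiableOn ℂ (ev f) (ball 0 1)}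
  mul_mem' {f g} hf hg := by
    have h : ev (f * g) = fun z => ev f z * ev g z := by funext z; exact ev_mul f g z
    change DifferentiableOn ℂ (ev (f * g)) (ball 0 1)
    rw [h]
    exact DifferentiableOn.mul hf hg
  add_mem' {f g} hf hg := by
    have h : ev (f + g) = fun z => ev f z + ev g z := by funext z; exact ev_add f g z
    change DifferentiableOn ℂ (ev (f + g)) (ball 0 1)
    rw [h]
    exact DifferentiableOn.add hf hg
  algebraMap_mem' c := by
    change DifferentiableOn ℂ (ev (algebraMap ℂ C(K, ℂ) c)) (ball 0 1)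
    refine (differentiableOn_const c).congr fun z hz => ?_
    rw [ev_of_mem _ (ball_subset_closedBall hz)]
    rfl

theorem isClosed_A : IsClosed (A : Set C(K, ℂ)) := by
  rw [← isSeqClosed_iff_isClosed]
  intro u f hu hf
  change DifferentiableOn ℂ (ev f) (ball 0 1)
  have h1 : TendstoLocallyUniformlyOn (fun n => ev (u n)) (ev f) atTop (ball 0 1) := by
    apply TendstoUniformlyOn.tendstoLocallyUniformlyOn
    rw [Metric.tendstoUniformlyOn_iff]
    intro ε hε
    have h2 := (Metric.tendsto_nhds.1 hf) ε hε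
    filter_upwards [h2] with n hn z _
    rw [dist_eq_norm, ← ev_sub, ← norm_neg]
    rw [dist_eq_norm] at hn
    calc ‖-ev (f - u n) z‖ = ‖ev (f - u n) z‖ := norm_neg _
      _ ≤ ‖f - u n‖ := norm_ev_le _ _
      _ = ‖u n - f‖ := norm_sub_rev _ _
      _ < ε := hn
  exact h1.differentiableOn (Eventually.of_forall hu) isOpen_ball

instance : CompleteSpace A := isClosed_A.completeSpace_coe

/-- The value of an element of the disc algebra. -/
noncomputable def val (f : A) (z : ℂ) : ℂ := ev (f : C(K, ℂ)) z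

theorem val_mul (f g : A) (z : ℂ) : val (f * g) z = val f z * val g z := ev_mul _ _ _

theorem val_sub (f g : A) (z : ℂ) : val (f - g) z = val f z - val g z := ev_sub _ _ _

theorem norm_val_le (f : A) (z : ℂ) : ‖val f z‖ ≤ ‖f‖ := norm_ev_le _ _

theorem norm_val_sub_le (f g : A) (z : ℂ) : ‖val f z - val g z‖ ≤ ‖f - g‖ := by
  rw [← val_sub]; exact norm_val_le _ _

theorem differentiableOn_val (f : A) : DifferentiableOn ℂ (val f) (ball 0 1) := f.2

theorem continuousOn_val (f : A) : ContinuousOn (val f) (closedBall 0 1) := continuousOn_ev _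

theorem sphere_subset : sphere (0 : ℂ) 1 ⊆ closedBall 0 1 := sphere_subset_closedBall

/-- The coordinate function. -/
noncomputable def Z : A :=
  ⟨⟨fun z => (z : ℂ), continuous_subtype_val⟩, by
    change DifferentiableOn ℂ (ev _) (ball 0 1)
    refine differentiableOn_id.congr fun z hz => ?_
    rw [ev_of_mem _ (ball_subset_closedBall hz)]
    rfl⟩

theorem val_Z {z : ℂ} (hz : z ∈ closedBall (0 : ℂ) 1) : val Z z = z := by
  rw [val, ev_of_mem _ hz]; rfl

theorem val_const (c : ℂ) {z : ℂ} (hz : z ∈ closedBall (0 : ℂ) 1) :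
    val (algebraMap ℂ A c) z = c := by
  rw [val, ev_of_mem _ hz]; rfl

theorem val_one {z : ℂ} (hz : z ∈ closedBall (0 : ℂ) 1) : val 1 z = 1 := by
  rw [← val_const 1 hz, map_one]

theorem val_Z_pow (n : ℕ) {z : ℂ} (hz : z ∈ closedBall (0 : ℂ) 1) : val (Z ^ n) z = z ^ n := by
  induction n with
  | zero => rw [pow_zero, pow_zero, val_one hz]
  | succ n ih => rw [pow_succ, val_mul, ih, val_Z hz, pow_succ]

theorem norm_le_of_val {f : A} {C : ℝ} (hC : 0 ≤ C) (h : ∀ z ∈ closedBall (0 : ℂ) 1, ‖val f z‖ ≤ C) :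
    ‖f‖ ≤ C := by
  change ‖(f : C(K, ℂ))‖ ≤ C
  rw [ContinuousMap.norm_le _ hC]
  intro z
  have := h z z.2
  rwa [val, ev_of_mem _ z.2] at this

/-- There is no continuous square root of `z` on the unit circle. -/
theorem no_sqrt {h : ℂ → ℂ} (hc : ContinuousOn h (sphere 0 1)) :
    ¬ ∀ z ∈ sphere (0 : ℂ) 1, h z ^ 2 = z := by
  intro hs
  let c : ℝ → ℂ := fun θ => Complex.exp (θ * Complex.I)
  have hcmem : ∀ θ, c θ ∈ sphere (0 : ℂ) 1 := by
    intro θ
    rw [mem_sphere_zero_iff_norm]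
    exact Complex.norm_exp_ofReal_mul_I θ
  have hcc : Continuous c := by fun_prop
  let φ : ℝ → ℂ := fun θ => h (c θ)
  let ψ : ℝ → ℂ := fun θ => Complex.exp (θ / 2 * Complex.I)
  have hφ : Continuous φ := hc.comp_continuous hcc hcmem
  have hψ : Continuous ψ := by fun_prop
  have hsq : EqOn (φ ^ 2) (ψ ^ 2) univ := by
    intro θ _
    change h (c θ) ^ 2 = Complex.exp (θ / 2 * Complex.I) ^ 2
    rw [hs _ (hcmem θ), ← Complex.exp_nat_mul]
    simp only [c]
    congr 1
    push_cast
    ring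
  have hne : ∀ {x : ℝ}, x ∈ univ → ψ x ≠ 0 := fun _ => Complex.exp_ne_zero _
  have h1 := isPreconnected_univ.eq_or_eq_neg_of_sq_eq hφ.continuousOn hψ.continuousOn hsq hne
  have h2 : φ (2 * Real.pi) = φ 0 := by
    have : c (2 * Real.pi) = c 0 := by
      simp only [c]
      push_cast
      rw [Complex.exp_two_pi_mul_I]
      simp
    simp only [φ, this]
  have h3 : ψ (2 * Real.pi) = -1 := by
    simp only [ψ]
    push_cast
    rw [mul_div_cancel_left₀ _ (two_ne_zero' ℂ), Complex.exp_pi_mul_I]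
  have h4 : ψ 0 = 1 := by simp [ψ]
  rcases h1 with h1 | h1
  · have h5 : φ (2 * Real.pi) = ψ (2 * Real.pi) := h1 (mem_univ _)
    have h6 : φ 0 = ψ 0 := h1 (mem_univ _)
    rw [h2, h6, h3, h4] at h5
    norm_num at h5
  · have h5 : φ (2 * Real.pi) = -ψ (2 * Real.pi) := h1 (mem_univ _)
    have h6 : φ 0 = -ψ 0 := h1 (mem_univ _)
    rw [h2, h6, h3, h4] at h5
    norm_num at h5

/-- If `g` is close to `f` on the circle then `g = f k ^ 2` there. -/
theorem exists_factor {f g : A} {m : ℝ} (hm : ∀ z ∈ sphere (0 : ℂ) 1, m ≤ ‖val f z‖)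
    (h0 : 0 < m) (hfg : ‖g - f‖ < m) :
    ∃ k : ℂ → ℂ, ContinuousOn k (sphere 0 1) ∧
      ∀ z ∈ sphere (0 : ℂ) 1, k z ≠ 0 ∧ val g z = val f z * k z ^ 2 := by
  have hne : ∀ z ∈ sphere (0 : ℂ) 1, val f z ≠ 0 := by
    intro z hz h
    have := hm z hz
    rw [h, norm_zero] at this
    linarith
  have hslit : ∀ z ∈ sphere (0 : ℂ) 1, val g z / val f z ∈ Complex.slitPlane := by
    intro z hz
    left
    have h1 : ‖val g z / val f z - 1‖ < 1 := by
      rw [div_sub_one (hne z hz), norm_div, div_lt_one (norm_pos_iff.2 (hne z hz))]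
      exact lt_of_le_of_lt (norm_val_sub_le _ _ _) (hfg.trans_le (hm z hz))
    have h2 := (Complex.abs_re_le_norm _).trans_lt h1
    rw [Complex.sub_re, Complex.one_re, abs_lt] at h2
    linarith [h2.1]
  refine ⟨fun z => Complex.exp (Complex.log (val g z / val f z) / 2), ?_, fun z hz => ⟨?_, ?_⟩⟩
  · have h1 : ContinuousOn (fun z => val g z / val f z) (sphere 0 1) :=
      ((continuousOn_val g).mono sphere_subset).div ((continuousOn_val f).mono sphere_subset) hne
    exact Complex.continuous_exp.comp_continuousOn ((h1.clog hslit).div_const 2)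
  · exact Complex.exp_ne_zero _
  · rw [← Complex.exp_nat_mul]
    have h3 : ((2 : ℕ) : ℂ) * (Complex.log (val g z / val f z) / 2) =
        Complex.log (val g z / val f z) := by push_cast; ring
    rw [h3, Complex.exp_log (div_ne_zero_iff.2 ⟨?_, hne z hz⟩), mul_div_cancel₀ _ (hne z hz)]
    intro h4
    have h5 := hslit z hz
    rw [h4, zero_div] at h5
    exact Complex.zero_notMem_slitPlane h5

/-- A function without zeros on the circle is bounded below there. -/
theorem exists_lower {f : A} (hne : ∀ z ∈ sphere (0 : ℂ) 1, val f z ≠ 0) :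
    ∃ m, 0 < m ∧ ∀ z ∈ sphere (0 : ℂ) 1, m ≤ ‖val f z‖ := by
  have hc : ContinuousOn (fun z => ‖val f z‖) (sphere 0 1) :=
    ((continuousOn_val f).mono sphere_subset).norm
  obtain ⟨z₀, hz₀, hmin⟩ := (isCompact_sphere (0 : ℂ) 1).exists_isMinOn
    (NormedSpace.sphere_nonempty.2 zero_le_one) hc
  exact ⟨‖val f z₀‖, norm_pos_iff.2 (hne z₀ hz₀), fun z hz => hmin hz⟩

/-- Zeros in the disc of radius `ρ` persist under small perturbations, for functions without zeros
on the unit circle. -/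
theorem persist {f : A} (hne : ∀ z ∈ sphere (0 : ℂ) 1, val f z ≠ 0) {ρ : ℝ} (hρ : ρ < 1)
    {z₀ : ℂ} (hz₀ : ‖z₀‖ < ρ) (hf0 : val f z₀ = 0) :
    ∃ δ, 0 < δ ∧ ∀ g : A, ‖g - f‖ < δ → ∃ z, ‖z‖ < ρ ∧ val g z = 0 := by
  have hz1 : z₀ ∈ ball (0 : ℂ) 1 := by rw [mem_ball_zero_iff]; linarith
  have han : AnalyticOnNhd ℂ (val f) (ball 0 1) :=
    (differentiableOn_val f).analyticOnNhd isOpen_ball
  -- zeros are isolated
  have hiso : ∀ᶠ z in 𝓝[≠] z₀, val f z ≠ 0 := by
    rcases (han z₀ hz1).eventually_eq_zero_or_eventually_ne_zero with h | h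
    · exfalso
      have h1 : EqOn (val f) 0 (ball 0 1) :=
        han.eqOn_zero_of_preconnected_of_eventuallyEq_zero
          (convex_ball (0 : ℂ) 1).isPreconnected hz1 h
      have h2 : EqOn (val f) 0 (closedBall (0 : ℂ) 1) :=
        h1.of_subset_closure (continuousOn_val f) continuousOn_const ball_subset_closedBall
          (by rw [closure_ball _ one_ne_zero])
      have h3 : (1 : ℂ) ∈ sphere (0 : ℂ) 1 := by simp
      exact hne 1 h3 (h2 (sphere_subset h3))
    · exact h
  have hsmall : ∀ᶠ z in 𝓝 z₀, z ∈ ball (0 : ℂ) ρ :=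
    isOpen_ball.mem_nhds (by rw [mem_ball_zero_iff]; exact hz₀)
  rw [eventually_nhdsWithin_iff] at hiso
  obtain ⟨ε, hε, hball⟩ := Metric.eventually_nhds_iff_ball.1 (hiso.and hsmall)
  let r := ε / 2
  have hr : 0 < r := half_pos hε
  have hrε : r < ε := half_lt_self hε
  have hcb : closedBall z₀ r ⊆ ball (0 : ℂ) ρ := by
    intro z hz
    exact (hball z (lt_of_le_of_lt hz hrε)).2
  have hcb1 : closedBall z₀ r ⊆ ball (0 : ℂ) 1 := hcb.trans (ball_subset_ball hρ.le)
  have hsph : ∀ z ∈ sphere z₀ r, val f z ≠ 0 := by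
    intro z hz
    have hz' : dist z z₀ = r := hz
    refine (hball z ?_).1 ?_
    · rw [mem_ball, hz']; exact hrε
    · intro h
      rw [h, dist_self] at hz'
      exact hr.ne hz'
  obtain ⟨z₁, hz₁, hmin⟩ := (isCompact_sphere z₀ r).exists_isMinOn
    (NormedSpace.sphere_nonempty.2 hr.le)
    (f := fun z => ‖val f z‖) (((continuousOn_val f).mono
      (sphere_subset_closedBall.trans (hcb1.trans ball_subset_closedBall))).norm)
  set m := ‖val f z₁‖ with hm
  have hm0 : 0 < m := norm_pos_iff.2 (hsph z₁ hz₁)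
  refine ⟨m / 2, half_pos hm0, fun g hg => ?_⟩
  by_contra hno
  push Not at hno
  have hgne : ∀ z ∈ closedBall z₀ r, val g z ≠ 0 := fun z hz =>
    hno z (by rw [← mem_ball_zero_iff]; exact hcb hz)
  have hdc : DiffContOnCl ℂ (fun z => (val g z)⁻¹) (ball z₀ r) := by
    refine DiffContOnCl.inv ⟨?_, ?_⟩ ?_
    · exact (differentiableOn_val g).mono (ball_subset_closedBall.trans hcb1)
    · rw [closure_ball _ hr.ne']
      exact (continuousOn_val g).mono (hcb1.trans ball_subset_closedBall)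
    · intro z hz
      rw [closure_ball _ hr.ne'] at hz
      exact hgne z hz
  have hbd : ∀ z ∈ frontier (ball z₀ r), ‖(val g z)⁻¹‖ ≤ (m / 2)⁻¹ := by
    intro z hz
    rw [frontier_ball _ hr.ne'] at hz
    rw [norm_inv]
    apply inv_anti₀ (half_pos hm0)
    have h1 : m ≤ ‖val f z‖ := hmin hz
    have h2 : ‖val f z‖ ≤ ‖val g z‖ + ‖g - f‖ := by
      calc ‖val f z‖ = ‖val g z - (val g z - val f z)‖ := by congr 1; ring
        _ ≤ ‖val g z‖ + ‖val g z - val f z‖ := norm_sub_le _ _
        _ ≤ ‖val g z‖ + ‖g - f‖ := by gcongr; exact norm_val_sub_le _ _ _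
    linarith
  have h3 := Complex.norm_le_of_forall_mem_frontier_norm_le isBounded_ball hdc hbd
    (subset_closure (mem_ball_self hr))
  have h4 : ‖val g z₀‖ < m / 2 := by
    have h5 := norm_val_sub_le g f z₀
    rw [hf0, sub_zero] at h5
    exact lt_of_le_of_lt h5 hg
  have h6 : 0 < ‖val g z₀‖ := norm_pos_iff.2 (hgne z₀ (mem_closedBall_self hr.le))
  rw [norm_inv] at h3
  have h7 := (inv_le_inv₀ h6 (half_pos hm0)).1 h3
  linarith

end Pool.Agent.Q86.DiscAlg
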