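import Mathlib

set_option autoImplicit false

/-!
# The Hopf algebra structure of the universal enveloping algebra of a Lie algebra
-/

namespace Pool.Agent.Q86.EnvHopf

open scoped TensorProduct

attribute [local instance 100] LieRing.ofAssociativeRing

universe u v

variable (R : Type u) (L : Type v) [CommRing R] [LieRing L] [LieAlgebra R L]

/-- abbreviation for the enveloping algebra -/
abbrev U : Type (max u v) := UniversalEnvelopingAlgebra R L

variable {L} in
/-- The canonical map of the Lie algebra. -/
noncomputable def ii (x : L) : U R L := UniversalEnvelopingAlgebra.ι R x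

theorem ii_lie (x y : L) : ii R ⁅x, y⁆ = ii R x * ii R y - ii R y * ii R x := by
  exact LieHom.map_lie (UniversalEnvelopingAlgebra.ι R : L →ₗ⁅R⁆ U R L) x y

variable {R L} in
theorem hom_ext' {A : Type*} [Ring A] [Algebra R A] {f g : U R L →ₐ[R] A}
    (h : ∀ x, f (ii R x) = g (ii R x)) : f = g :=
  UniversalEnvelopingAlgebra.hom_ext R (LieHom.ext h)

/-- The primitive coproduct on generators. -/
noncomputable def comulLie : L →ₗ⁅R⁆ (U R L ⊗[R] U R L) :=
  { ((TensorProduct.mk R (U R L) (U R L)).flip 1 + TensorProduct.mk R (U R L) (U R L) 1) ∘ₗ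
      (UniversalEnvelopingAlgebra.ι R : L →ₗ⁅R⁆ U R L).toLinearMap with
    map_lie' := by
      intro x y
      have h : ∀ z : L, (((TensorProduct.mk R (U R L) (U R L)).flip 1 +
          TensorProduct.mk R (U R L) (U R L) 1) ∘ₗ
          (UniversalEnvelopingAlgebra.ι R : L →ₗ⁅R⁆ U R L).toLinearMap) z =
          ii R z ⊗ₜ 1 + 1 ⊗ₜ ii R z := fun z => rfl
      change (((TensorProduct.mk R (U R L) (U R L)).flip 1 +
          TensorProduct.mk R (U R L) (U R L) 1) ∘ₗ
          (UniversalEnvelopingAlgebra.ι R : L →ₗ⁅R⁆ U R L).toLinearMap) ⁅x, y⁆ =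
        ⁅(((TensorProduct.mk R (U R L) (U R L)).flip 1 +
          TensorProduct.mk R (U R L) (U R L) 1) ∘ₗ
          (UniversalEnvelopingAlgebra.ι R : L →ₗ⁅R⁆ U R L).toLinearMap) x,
        (((TensorProduct.mk R (U R L) (U R L)).flip 1 +
          TensorProduct.mk R (U R L) (U R L) 1) ∘ₗ
          (UniversalEnvelopingAlgebra.ι R : L →ₗ⁅R⁆ U R L).toLinearMap) y⁆
      rw [h, h, h, LieRing.of_associative_ring_bracket, ii_lie]
      simp only [mul_add, add_mul, Algebra.TensorProduct.tmul_mul_tmul, one_mul, mul_one,
        TensorProduct.sub_tmul, TensorProduct.tmul_sub]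
      abel }

theorem comulLie_apply (x : L) : comulLie R L x = ii R x ⊗ₜ 1 + 1 ⊗ₜ ii R x := rfl

/-- The comultiplication. -/
noncomputable def comulHom : U R L →ₐ[R] (U R L ⊗[R] U R L) :=
  UniversalEnvelopingAlgebra.lift R (comulLie R L)

theorem comulHom_ii (x : L) : comulHom R L (ii R x) = ii R x ⊗ₜ 1 + 1 ⊗ₜ ii R x := by
  rw [comulHom, ii, UniversalEnvelopingAlgebra.lift_ι_apply, comulLie_apply]
  rfl

/-- The counit. -/
noncomputable def counitHom : U R L →ₐ[R] R :=
  UniversalEnvelopingAlgebra.lift R (0 : L →ₗ⁅R⁆ R)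

theorem counitHom_ii (x : L) : counitHom R L (ii R x) = 0 := by
  rw [counitHom, ii, UniversalEnvelopingAlgebra.lift_ι_apply]; rfl

noncomputable instance : Bialgebra R (U R L) :=
  .ofAlgHom (comulHom R L) (counitHom R L)
    (by
      apply hom_ext'
      intro x
      simp only [AlgHom.comp_apply, comulHom_ii, map_add, Algebra.TensorProduct.map_tmul,
        AlgHom.id_apply, map_one, TensorProduct.add_tmul, TensorProduct.tmul_add,
        Algebra.TensorProduct.one_def]
      simp [add_assoc])
    (by
      apply hom_ext'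
      intro x
      simp [comulHom_ii, counitHom_ii])
    (by
      apply hom_ext'
      intro x
      simp [comulHom_ii, counitHom_ii])

theorem comul_ii (x : L) : Coalgebra.comul (R := R) (ii R x) = ii R x ⊗ₜ[R] 1 + 1 ⊗ₜ[R] ii R x :=
  comulHom_ii R L x

theorem counit_ii (x : L) : Coalgebra.counit (R := R) (ii R x) = 0 :=
  counitHom_ii R L x

/-- Induction principle: a submodule closed under multiplication containing `1` and the
generators is everything. -/
theorem induction_mul {P : U R L → Prop} (h1 : P 1) (hgen : ∀ x : L, P (ii R x))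
    (hadd : ∀ a b, P a → P b → P (a + b)) (hsmul : ∀ (c : R) a, P a → P (c • a))
    (hmul : ∀ a b, P a → P b → P (a * b)) (a : U R L) : P a := by
  let S : Subalgebra R (U R L) :=
    { carrier := {a | P a}
      mul_mem' := fun {a b} ha hb => hmul a b ha hb
      add_mem' := fun {a b} ha hb => hadd a b ha hb
      algebraMap_mem' := fun c => by
        rw [Algebra.algebraMap_eq_smul_one]; exact hsmul c 1 h1 }
  let f : L →ₗ⁅R⁆ S :=
    { toFun := fun x => ⟨ii R x, hgen x⟩
      map_add' := fun x y => by
        apply Subtype.ext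
        exact map_add (UniversalEnvelopingAlgebra.ι R : L →ₗ⁅R⁆ U R L) x y
      map_smul' := fun c x => by
        apply Subtype.ext
        exact map_smul (UniversalEnvelopingAlgebra.ι R : L →ₗ⁅R⁆ U R L) c x
      map_lie' := fun {x y} => by
        apply Subtype.ext
        exact ii_lie R L x y }
  let F : U R L →ₐ[R] S := UniversalEnvelopingAlgebra.lift R f
  have h : S.val.comp F = AlgHom.id R (U R L) := by
    apply hom_ext'
    intro x
    rw [AlgHom.comp_apply]
    have : F (ii R x) = f x := UniversalEnvelopingAlgebra.lift_ι_apply R f x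
    rw [this]
    rfl
  have h2 := (F a).2
  have h3 : ((F a : S) : U R L) = a := congrArg (fun g => g a) h
  rw [h3] at h2
  exact h2

/-- The antipode as an algebra homomorphism into the opposite algebra. -/
noncomputable def antiLie : L →ₗ⁅R⁆ (U R L)ᵐᵒᵖ :=
  { toFun := fun x => MulOpposite.op (-ii R x)
    map_add' := fun x y => by
      have h := map_add (UniversalEnvelopingAlgebra.ι R : L →ₗ⁅R⁆ U R L) x y
      rw [← MulOpposite.op_add]
      congr 1
      change -(UniversalEnvelopingAlgebra.ι R (x + y)) = _
      rw [h, neg_add]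
      rfl
    map_smul' := fun c x => by
      have h := map_smul (UniversalEnvelopingAlgebra.ι R : L →ₗ⁅R⁆ U R L) c x
      change MulOpposite.op (-(UniversalEnvelopingAlgebra.ι R (c • x))) = _
      rw [h]
      change _ = c • MulOpposite.op (-ii R x)
      rw [← MulOpposite.op_smul, smul_neg]
      rfl
    map_lie' := fun {x y} => by
      change MulOpposite.op (-ii R ⁅x, y⁆) = MulOpposite.op (-ii R x) * MulOpposite.op (-ii R y) -
        MulOpposite.op (-ii R y) * MulOpposite.op (-ii R x)
      rw [← MulOpposite.op_mul, ← MulOpposite.op_mul, ← MulOpposite.op_sub, ii_lie]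
      congr 1
      noncomm_ring }

/-- The antipode as a linear map. -/
noncomputable def anti : U R L →ₗ[R] U R L :=
  (MulOpposite.opLinearEquiv R).symm.toLinearMap ∘ₗ
    (UniversalEnvelopingAlgebra.lift R (antiLie R L)).toLinearMap

theorem anti_one : anti R L 1 = 1 := by
  simp [anti]

theorem anti_mul (a b : U R L) : anti R L (a * b) = anti R L b * anti R L a := by
  simp [anti]

theorem anti_ii (x : L) : anti R L (ii R x) = -ii R x := by
  have h : UniversalEnvelopingAlgebra.lift R (antiLie R L) (ii R x) = antiLie R L x :=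
    UniversalEnvelopingAlgebra.lift_ι_apply R _ x
  change MulOpposite.unop (UniversalEnvelopingAlgebra.lift R (antiLie R L) (ii R x)) = _
  rw [h]; rfl

/-- The map `a ⊗ b ↦ S(a) b`. -/
noncomputable def leftMap : U R L ⊗[R] U R L →ₗ[R] U R L :=
  LinearMap.mul' R (U R L) ∘ₗ (anti R L).rTensor (U R L)

/-- The map `a ⊗ b ↦ a S(b)`. -/
noncomputable def rightMap : U R L ⊗[R] U R L →ₗ[R] U R L :=
  LinearMap.mul' R (U R L) ∘ₗ (anti R L).lTensor (U R L)

theorem leftMap_tmul (a b : U R L) : leftMap R L (a ⊗ₜ b) = anti R L a * b := rfl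

theorem rightMap_tmul (a b : U R L) : rightMap R L (a ⊗ₜ b) = a * anti R L b := rfl

theorem leftMap_mul_tmul (t : U R L ⊗[R] U R L) (a b : U R L) :
    leftMap R L (t * (a ⊗ₜ b)) = anti R L a * leftMap R L t * b := by
  induction t with
  | zero => simp
  | tmul x y =>
    rw [Algebra.TensorProduct.tmul_mul_tmul, leftMap_tmul, leftMap_tmul, anti_mul]
    simp only [mul_assoc]
  | add s t hs ht => rw [add_mul, map_add, map_add, hs, ht, mul_add, add_mul]

theorem rightMap_tmul_mul (t : U R L ⊗[R] U R L) (a b : U R L) :
    rightMap R L ((a ⊗ₜ b) * t) = a * rightMap R L t * anti R L b := by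
  induction t with
  | zero => simp
  | tmul x y =>
    rw [Algebra.TensorProduct.tmul_mul_tmul, rightMap_tmul, rightMap_tmul, anti_mul]
    simp only [mul_assoc]
  | add s t hs ht => rw [mul_add, map_add, map_add, hs, ht, mul_add, add_mul]

theorem leftMap_mul {t : U R L ⊗[R] U R L} {c : R}
    (h : leftMap R L t = algebraMap R (U R L) c) (s : U R L ⊗[R] U R L) :
    leftMap R L (t * s) = c • leftMap R L s := by
  induction s with
  | zero => simp
  | tmul a b =>
    rw [leftMap_mul_tmul, h, leftMap_tmul, ← Algebra.commutes, mul_assoc, ← Algebra.smul_def]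
  | add s t hs ht => rw [mul_add, map_add, map_add, hs, ht, smul_add]

theorem rightMap_mul {t : U R L ⊗[R] U R L} {c : R}
    (h : rightMap R L t = algebraMap R (U R L) c) (s : U R L ⊗[R] U R L) :
    rightMap R L (s * t) = c • rightMap R L s := by
  induction s with
  | zero => simp
  | tmul a b =>
    rw [rightMap_tmul_mul, h, rightMap_tmul, ← Algebra.commutes, mul_assoc, ← Algebra.smul_def]
  | add s t hs ht => rw [add_mul, map_add, map_add, hs, ht, smul_add]

theorem left_antipode (a : U R L) :
    leftMap R L (Coalgebra.comul (R := R) a) = algebraMap R (U R L) (Coalgebra.counit (R := R) a) := by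
  induction a using induction_mul with
  | h1 =>
    rw [Bialgebra.comul_one, Bialgebra.counit_one, Algebra.TensorProduct.one_def, leftMap_tmul,
      anti_one, map_one, one_mul]
  | hgen x =>
    rw [comul_ii, counit_ii, map_add, leftMap_tmul, leftMap_tmul, anti_ii, anti_one]
    simp
  | hadd a b ha hb => simp only [map_add, ha, hb]
  | hsmul c a ha => rw [map_smul, map_smul, ha, map_smul, Algebra.smul_def, smul_eq_mul, map_mul]
  | hmul a b ha hb =>
    rw [Bialgebra.comul_mul, Bialgebra.counit_mul, leftMap_mul R L ha, hb, map_mul,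
      Algebra.smul_def]

theorem right_antipode (a : U R L) :
    rightMap R L (Coalgebra.comul (R := R) a) =
      algebraMap R (U R L) (Coalgebra.counit (R := R) a) := by
  induction a using induction_mul with
  | h1 =>
    rw [Bialgebra.comul_one, Bialgebra.counit_one, Algebra.TensorProduct.one_def, rightMap_tmul,
      anti_one, map_one, one_mul]
  | hgen x =>
    rw [comul_ii, counit_ii, map_add, rightMap_tmul, rightMap_tmul, anti_ii, anti_one]
    simp
  | hadd a b ha hb => simp only [map_add, ha, hb]
  | hsmul c a ha => rw [map_smul, map_smul, ha, map_smul, Algebra.smul_def, smul_eq_mul, map_mul]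
  | hmul a b ha hb =>
    rw [Bialgebra.comul_mul, Bialgebra.counit_mul, rightMap_mul R L hb, ha, map_mul,
      Algebra.smul_def, ← Algebra.commutes]

/-- The Hopf algebra structure of the enveloping algebra. -/
noncomputable instance : HopfAlgebra R (U R L) where
  antipode := anti R L
  mul_antipode_rTensor_comul := by
    ext a
    exact left_antipode R L a
  mul_antipode_lTensor_comul := by
    ext a
    exact right_antipode R L a

end Pool.Agent.Q86.EnvHopf
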