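import Mathlib

/-!
# F-algebras, topological invariant means, invariant subspace properties
-/

set_option autoImplicit false

open Filter Topology Set

noncomputable section

namespace Pool.Agent.Q86.FAlg

section algebra

variable {A M : Type} [NonUnitalNormedRing A] [NormedSpace ℂ A] [IsScalarTower ℂ A A]
  [SMulCommClass ℂ A A] [CompleteSpace A] [CStarAlgebra M]

/-- `A` is an F-algebra with dual `M`: `A` is a complex Banach algebra, `M` a `C*`-algebra,
`Φ` an isometric linear isomorphism of `M` onto the dual space of `A` (thus `M` is a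
`W*`-algebra and `A` is its predual) and the identity of `M` is a multiplicative functional. -/
structure IsFAlgebra (Φ : M ≃ₗᵢ[ℂ] StrongDual ℂ A) : Prop where
  nonzero : Φ 1 ≠ 0
  mul : ∀ a b : A, Φ 1 (a * b) = Φ 1 a * Φ 1 b

/-- `P_1(A)`: the elements of `A` that are positive on `M` (the positive elements of a
`C*`-algebra are the `star y * y`) and take the value `1` at the identity. -/
def P1 (Φ : M ≃ₗᵢ[ℂ] StrongDual ℂ A) : Set A :=
  {a | (∀ y : M, 0 ≤ (Φ (star y * y) a).re ∧ (Φ (star y * y) a).im = 0) ∧ Φ 1 a = 1}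

/-- The module action: `⟨b, f · a⟩ = ⟨a b, f⟩`. -/
def act (f : StrongDual ℂ A) (a : A) : StrongDual ℂ A :=
  f.comp (ContinuousLinearMap.mul ℂ A a)

/-- Almost periodic functionals: `a ↦ f · a` is a compact operator from `A` to the dual. -/
def AP (A : Type) [NonUnitalNormedRing A] [NormedSpace ℂ A] [IsScalarTower ℂ A A]
    [SMulCommClass ℂ A A] : Set (StrongDual ℂ A) :=
  {f | IsCompactOperator fun a : A => act f a}

/-- Weakly almost periodic functionals: `a ↦ f · a` maps the closed unit ball of `A` to a set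
whose closure in the weak topology of the dual is weakly compact. -/
def WAP (A : Type) [NonUnitalNormedRing A] [NormedSpace ℂ A] [IsScalarTower ℂ A A]
    [SMulCommClass ℂ A A] : Set (StrongDual ℂ A) :=
  {f | IsCompact (closure (toWeakSpace ℂ (StrongDual ℂ A) ''
    ((fun a : A => act f a) '' Metric.closedBall 0 1)))}

/-- A topological left invariant mean on a subspace `V` of the dual of `A` containing the
identity `e`: a linear functional `m` with `‖m‖ = m e = 1` and `m (f · a) = m f` for `f ∈ V`,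
`a ∈ P_1(A)`. The functional is taken on the whole dual; by the Hahn-Banach theorem this is the
same as a functional on `V`. -/
def HasTLIM (Φ : M ≃ₗᵢ[ℂ] StrongDual ℂ A) (V : Set (StrongDual ℂ A)) : Prop :=
  ∃ m : StrongDual ℂ (StrongDual ℂ A), ‖m‖ = 1 ∧ m (Φ 1) = 1 ∧
    ∀ f ∈ V, ∀ a ∈ P1 Φ, m (act f a) = m f

end algebra

section rep

variable {𝕜 A E : Type} [RCLike 𝕜] [Mul A] [TopologicalSpace A] [AddCommGroup E] [Module 𝕜 E]

/-- `T_s`, `s ∈ S`, is a linear representation of `S` on `E` with `s ↦ T_s x` continuous on `S`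
for each `x`. -/
structure IsRep [TopologicalSpace E] (S : Set A) (T : A → E →ₗ[𝕜] E) : Prop where
  mul : ∀ s ∈ S, ∀ t ∈ S, T (s * t) = (T s).comp (T t)
  cont : ∀ x : E, ContinuousOn (fun s => T s x) S

/-- The `n`-dimensional subspaces of `E` contained in `X`. -/
def subspaces (𝕜 : Type) [RCLike 𝕜] {E : Type} [AddCommGroup E] [Module 𝕜 E] (n : ℕ)
    (X : Set E) : Set (Submodule 𝕜 E) :=
  {L | Module.finrank 𝕜 L = n ∧ (L : Set E) ⊆ X}

/-- `X` is `n`-consistent. -/
def IsConsistent (S : Set A) (T : A → E →ₗ[𝕜] E) (n : ℕ) (X : Set E) : Prop :=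
  (subspaces 𝕜 n X).Nonempty ∧
    ∀ L ∈ subspaces 𝕜 n X, ∀ s ∈ S, L.map (T s) ∈ subspaces 𝕜 n X

/-- `H` is a closed `S`-invariant subspace of codimension `n` and `(x + H) ∩ X` is compact for
every `x`. -/
structure IsTransversal [TopologicalSpace E] (S : Set A) (T : A → E →ₗ[𝕜] E) (n : ℕ)
    (X : Set E) (H : Submodule 𝕜 E) : Prop where
  closed : IsClosed (H : Set E)
  inv : ∀ s ∈ S, ∀ x ∈ H, T s x ∈ H
  codim : Module.finrank 𝕜 (E ⧸ H) = n
  compact : ∀ x : E, IsCompact ({y | y - x ∈ H} ∩ X)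

/-- The maps `T_s`, `s ∈ S`, are equicontinuous on every compact set. -/
def EqOnCompacts [UniformSpace E] (S : Set A) (T : A → E →ₗ[𝕜] E) : Prop :=
  ∀ K : Set E, IsCompact K → EquicontinuousOn (fun (s : S) (x : E) => T s x) K

/-- Quasi-equicontinuity on compact sets: for every compact `K` the closure of
`{T_s|_K : s ∈ S}` in the product space `E^K` contains only continuous maps. -/
def QuasiEqOnCompacts [TopologicalSpace E] (S : Set A) (T : A → E →ₗ[𝕜] E) : Prop :=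
  ∀ K : Set E, IsCompact K →
    ∀ g ∈ closure ((fun (s : A) (x : K) => T s (x : E)) '' S), Continuous g

/-- Joint continuity on compact sets: if `K` is compact, `s_α → s` in `S`, `x_α → x` in `K` and
`T_{s_α} x_α ∈ K`, then `T_{s_α} x_α → T_s x`. -/
def JointOnCompacts [TopologicalSpace E] (S : Set A) (T : A → E →ₗ[𝕜] E) : Prop :=
  ∀ K : Set E, IsCompact K → ∀ (ι : Type) (l : Filter ι) (s : ι → A) (x : ι → E) (s₀ : A) (x₀ : E),
    s₀ ∈ S → x₀ ∈ K → (∀ i, s i ∈ S) → (∀ i, x i ∈ K) → (∀ i, T (s i) (x i) ∈ K) →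
    Tendsto s l (𝓝 s₀) → Tendsto x l (𝓝 x₀) → Tendsto (fun i => T (s i) (x i)) l (𝓝 (T s₀ x₀))

end rep

section props

variable {A : Type} [Mul A] [TopologicalSpace A]

/-- Property `(F_n^A)` of the semigroup `S ⊆ A`, for locally convex spaces over `𝕜`. -/
def FA (𝕜 : Type) [RCLike 𝕜] (S : Set A) (n : ℕ) : Prop :=
  ∀ (E : Type) [AddCommGroup E] [Module 𝕜 E] [Module ℝ E] [IsScalarTower ℝ 𝕜 E]
    [UniformSpace E] [IsUniformAddGroup E] [ContinuousSMul 𝕜 E] [LocallyConvexSpace ℝ E]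
    [T2Space E] (T : A → E →ₗ[𝕜] E), IsRep S T → EqOnCompacts S T →
    ∀ X : Set E, IsConsistent S T n X → (∃ H : Submodule 𝕜 E, IsTransversal S T n X H) →
    ∃ L ∈ subspaces 𝕜 n X, ∀ s ∈ S, L.map (T s) = L

/-- The weaker form of `(F_n^A)` in which the sets `(x + H) ∩ X` are also assumed convex. -/
def FAc (𝕜 : Type) [RCLike 𝕜] (S : Set A) (n : ℕ) : Prop :=
  ∀ (E : Type) [AddCommGroup E] [Module 𝕜 E] [Module ℝ E] [IsScalarTower ℝ 𝕜 E]
    [UniformSpace E] [IsUniformAddGroup E] [ContinuousSMul 𝕜 E] [LocallyConvexSpace ℝ E]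
    [T2Space E] (T : A → E →ₗ[𝕜] E), IsRep S T → EqOnCompacts S T →
    ∀ X : Set E, IsConsistent S T n X → (∃ H : Submodule 𝕜 E, IsTransversal S T n X H ∧
      ∀ x : E, Convex ℝ ({y | y - x ∈ H} ∩ X)) →
    ∃ L ∈ subspaces 𝕜 n X, ∀ s ∈ S, L.map (T s) = L

/-- Property `(F_n^W)` of the semigroup `S ⊆ A`, for locally convex spaces over `𝕜`. -/
def FW (𝕜 : Type) [RCLike 𝕜] (S : Set A) (n : ℕ) : Prop :=
  ∀ (E : Type) [AddCommGroup E] [Module 𝕜 E] [Module ℝ E] [IsScalarTower ℝ 𝕜 E]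
    [UniformSpace E] [IsUniformAddGroup E] [ContinuousSMul 𝕜 E] [LocallyConvexSpace ℝ E]
    [T2Space E] (T : A → E →ₗ[𝕜] E), IsRep S T → QuasiEqOnCompacts S T →
    ∀ X : Set E, IsConsistent S T n X → (∃ H : Submodule 𝕜 E, IsTransversal S T n X H) →
    ∃ L ∈ subspaces 𝕜 n X, ∀ s ∈ S, L.map (T s) = L

/-- The weaker form of `(F_n^W)` in which the sets `(x + H) ∩ X` are also assumed convex. -/
def FWc (𝕜 : Type) [RCLike 𝕜] (S : Set A) (n : ℕ) : Prop :=
  ∀ (E : Type) [AddCommGroup E] [Module 𝕜 E] [Module ℝ E] [IsScalarTower ℝ 𝕜 E]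
    [UniformSpace E] [IsUniformAddGroup E] [ContinuousSMul 𝕜 E] [LocallyConvexSpace ℝ E]
    [T2Space E] (T : A → E →ₗ[𝕜] E), IsRep S T → QuasiEqOnCompacts S T →
    ∀ X : Set E, IsConsistent S T n X → (∃ H : Submodule 𝕜 E, IsTransversal S T n X H ∧
      ∀ x : E, Convex ℝ ({y | y - x ∈ H} ∩ X)) →
    ∃ L ∈ subspaces 𝕜 n X, ∀ s ∈ S, L.map (T s) = L

/-- Property `(F_n)` of the semigroup `S ⊆ A`, for locally convex spaces over `𝕜`. -/
def FJ (𝕜 : Type) [RCLike 𝕜] (S : Set A) (n : ℕ) : Prop :=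
  ∀ (E : Type) [AddCommGroup E] [Module 𝕜 E] [Module ℝ E] [IsScalarTower ℝ 𝕜 E]
    [UniformSpace E] [IsUniformAddGroup E] [ContinuousSMul 𝕜 E] [LocallyConvexSpace ℝ E]
    [T2Space E] (T : A → E →ₗ[𝕜] E), IsRep S T → JointOnCompacts S T →
    ∀ X : Set E, IsConsistent S T n X → (∃ H : Submodule 𝕜 E, IsTransversal S T n X H) →
    ∃ L ∈ subspaces 𝕜 n X, ∀ s ∈ S, L.map (T s) = L

/-- The weaker form of `(F_n)` in which the sets `(x + H) ∩ X` are also assumed convex. -/
def FJc (𝕜 : Type) [RCLike 𝕜] (S : Set A) (n : ℕ) : Prop :=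
  ∀ (E : Type) [AddCommGroup E] [Module 𝕜 E] [Module ℝ E] [IsScalarTower ℝ 𝕜 E]
    [UniformSpace E] [IsUniformAddGroup E] [ContinuousSMul 𝕜 E] [LocallyConvexSpace ℝ E]
    [T2Space E] (T : A → E →ₗ[𝕜] E), IsRep S T → JointOnCompacts S T →
    ∀ X : Set E, IsConsistent S T n X → (∃ H : Submodule 𝕜 E, IsTransversal S T n X H ∧
      ∀ x : E, Convex ℝ ({y | y - x ∈ H} ∩ X)) →
    ∃ L ∈ subspaces 𝕜 n X, ∀ s ∈ S, L.map (T s) = L

end props

end Pool.Agent.Q86.FAlg
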