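import Pool.Agent.W685.RT.L1

/-!
# The convolution algebra `ℓ¹(ℕ)` and its dual
-/

set_option autoImplicit false

open Filter Topology Finset
open scoped ENNReal

noncomputable section

namespace Pool.Agent.Q86.L1N

open Pool.Agent.W685.RT (L1 l1_summable l1_norm mkOp mkOp_apply mkOp_f op_apply op_norm_le f_apply
  norm_f hasSum_f)

/-- the Banach space `ℓ¹(ℕ)`, with complex coefficients -/
def A : Type := L1

instance : NormedAddCommGroup A := inferInstanceAs (NormedAddCommGroup L1)
instance : NormedSpace ℂ A := inferInstanceAs (NormedSpace ℂ L1)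
instance : CompleteSpace A := inferInstanceAs (CompleteSpace L1)

/-- the coordinates -/
def co (a : A) : ℕ → ℂ := fun n => (show L1 from a) n

lemma co_ext {a b : A} (h : ∀ n, co a n = co b n) : a = b := by
  apply lp.ext
  funext n
  exact h n

lemma co_add (a b : A) (n : ℕ) : co (a + b) n = co a n + co b n := rfl
lemma co_smul (c : ℂ) (a : A) (n : ℕ) : co (c • a) n = c * co a n := rfl
lemma co_zero (n : ℕ) : co 0 n = 0 := rfl
lemma co_summable (a : A) : Summable fun n => ‖co a n‖ := l1_summable a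
lemma norm_eq (a : A) : ‖a‖ = ∑' n, ‖co a n‖ := l1_norm a

lemma norm_co_le (a : A) (n : ℕ) : ‖co a n‖ ≤ ‖a‖ := by
  rw [norm_eq]
  exact (co_summable a).le_tsum n fun _ _ => norm_nonneg _

/-- elements from summable sequences -/
def mk (u : ℕ → ℂ) (hu : Summable fun n => ‖u n‖) : A :=
  (⟨u, memℓp_gen (by simpa using hu)⟩ : L1)

lemma co_mk (u : ℕ → ℂ) (hu : Summable fun n => ‖u n‖) (n : ℕ) : co (mk u hu) n = u n := rfl

lemma conv_summable (a b : A) :
    Summable fun n => ‖∑ k ∈ antidiagonal n, co a k.1 * co b k.2‖ :=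
  summable_norm_sum_mul_antidiagonal_of_summable_norm (co_summable a) (co_summable b)

/-- convolution -/
instance : Mul A := ⟨fun a b => mk (fun n => ∑ k ∈ antidiagonal n, co a k.1 * co b k.2)
  (conv_summable a b)⟩

lemma co_mul (a b : A) (n : ℕ) : co (a * b) n = ∑ k ∈ antidiagonal n, co a k.1 * co b k.2 := rfl

/-- the power series -/
def ps (a : A) : PowerSeries ℂ := PowerSeries.mk (co a)

lemma ps_inj {a b : A} (h : ps a = ps b) : a = b := by
  apply co_ext
  intro n
  have := congrArg (PowerSeries.coeff n) h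
  simpa [ps] using this

lemma ps_mul (a b : A) : ps (a * b) = ps a * ps b := by
  ext n
  rw [PowerSeries.coeff_mul]
  simp [ps, co_mul]

lemma ps_add (a b : A) : ps (a + b) = ps a + ps b := by
  ext n
  simp [ps, co_add]

lemma ps_smul (c : ℂ) (a : A) : ps (c • a) = c • ps a := by
  ext n
  simp [ps, co_smul]

lemma ps_zero : ps 0 = 0 := by
  ext n
  simp [ps, co_zero]

lemma norm_mul_le' (a b : A) : ‖a * b‖ ≤ ‖a‖ * ‖b‖ := by
  rw [norm_eq, norm_eq a, norm_eq b]
  have ha : Summable fun n => ‖(‖co a n‖ : ℝ)‖ := by simpa using co_summable a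
  have hb : Summable fun n => ‖(‖co b n‖ : ℝ)‖ := by simpa using co_summable b
  rw [tsum_mul_tsum_eq_tsum_sum_antidiagonal_of_summable_norm ha hb]
  refine Summable.tsum_le_tsum (fun n => ?_) (co_summable (a * b)) ?_
  · rw [co_mul]
    refine (norm_sum_le _ _).trans (le_of_eq ?_)
    refine Finset.sum_congr rfl fun k _ => norm_mul _ _
  · have := summable_norm_sum_mul_antidiagonal_of_summable_norm ha hb
    exact this.of_norm

instance : NonUnitalNormedRing A :=
  { (inferInstance : NormedAddCommGroup A) with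
    mul := (· * ·)
    left_distrib := fun a b c => ps_inj (by rw [ps_mul, ps_add, ps_add, ps_mul, ps_mul, mul_add])
    right_distrib := fun a b c => ps_inj (by rw [ps_mul, ps_add, ps_add, ps_mul, ps_mul, add_mul])
    zero_mul := fun a => ps_inj (by rw [ps_mul, ps_zero, zero_mul])
    mul_zero := fun a => ps_inj (by rw [ps_mul, ps_zero, mul_zero])
    mul_assoc := fun a b c => ps_inj (by rw [ps_mul, ps_mul, ps_mul, ps_mul, mul_assoc])
    norm_mul_le := norm_mul_le' }

instance : IsScalarTower ℂ A A := ⟨fun c a b => ps_inj (by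
  rw [smul_eq_mul, smul_eq_mul, ps_mul, ps_smul, ps_smul, ps_mul, smul_mul_assoc])⟩

instance : SMulCommClass ℂ A A := ⟨fun c a b => ps_inj (by
  rw [smul_eq_mul, smul_eq_mul, ps_mul, ps_smul, ps_smul, ps_mul, mul_smul_comm])⟩

/-- point masses -/
def de (n : ℕ) : A := (Pool.Agent.W685.RT.f n : L1)

lemma co_de (i k : ℕ) : co (de i) k = if k = i then 1 else 0 := f_apply i k

lemma norm_de (i : ℕ) : ‖de i‖ = 1 := norm_f i

lemma ps_de (i : ℕ) : ps (de i) = PowerSeries.X ^ i := by
  ext n
  rw [PowerSeries.coeff_X_pow]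
  simp [ps, co_de]

lemma de_mul (i j : ℕ) : de i * de j = de (i + j) := ps_inj (by
  rw [ps_mul, ps_de, ps_de, ps_de, pow_add])

section op

variable {Y : Type*} [NormedAddCommGroup Y] [NormedSpace ℂ Y]

lemma apply_hasSum (S : A →L[ℂ] Y) (a : A) : HasSum (fun i => co a i • S (de i)) (S a) :=
  op_apply (Y := Y) S a

lemma norm_apply_le (S : A →L[ℂ] Y) (C : ℝ) (hS : ∀ i, ‖S (de i)‖ ≤ C) (a : A) :
    ‖S a‖ ≤ C * ‖a‖ := by
  have h := apply_hasSum S a
  have hs : Summable fun i => ‖co a i • S (de i)‖ := by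
    refine Summable.of_nonneg_of_le (fun _ => norm_nonneg _) (fun i => ?_)
      ((co_summable a).mul_right C)
    rw [norm_smul]
    exact mul_le_mul_of_nonneg_left (hS i) (norm_nonneg _)
  rw [← h.tsum_eq]
  refine (norm_tsum_le_tsum_norm hs).trans ?_
  rw [norm_eq, ← tsum_mul_left]
  refine Summable.tsum_le_tsum (fun i => ?_) hs ((co_summable a).mul_left C)
  rw [norm_smul, mul_comm]
  exact mul_le_mul_of_nonneg_right (hS i) (norm_nonneg _)

lemma clm_ext {S T : A →L[ℂ] Y} (h : ∀ i, S (de i) = T (de i)) : S = T := by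
  ext a
  have h1 := apply_hasSum S a
  have h2 := apply_hasSum T a
  simp_rw [h] at h1
  exact h1.unique h2

end op

/-- the von Neumann algebra `ℓ^∞(ℕ)` -/
abbrev M : Type := lp (fun _ : ℕ => ℂ) ∞

/-- the pairing -/
def pair (x : M) : StrongDual ℂ A :=
  (mkOp (Y := ℂ) (fun i => x i) ‖x‖ (fun i => lp.norm_apply_le_norm (by simp) x i) : L1 →L[ℂ] ℂ)

lemma pair_apply (x : M) (a : A) : pair x a = ∑' i, co a i * x i := by
  have := mkOp_apply (Y := ℂ) (fun i => x i) ‖x‖ (fun i => lp.norm_apply_le_norm (by simp) x i) a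
  exact this

lemma pair_de (x : M) (i : ℕ) : pair x (de i) = x i :=
  mkOp_f (Y := ℂ) (fun i => x i) ‖x‖ (fun i => lp.norm_apply_le_norm (by simp) x i) i

/-- `ℓ^∞(ℕ)` is the dual of `ℓ¹(ℕ)` -/
def Phi : M ≃ₗᵢ[ℂ] StrongDual ℂ A :=
  LinearIsometryEquiv.ofSurjective
    { toFun := pair
      map_add' := fun x y => clm_ext fun i => by
        rw [add_apply, pair_de, pair_de, pair_de]; rfl
      map_smul' := fun c x => clm_ext fun i => by
        rw [RingHom.id_apply, smul_apply, pair_de, pair_de]; rfl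
      norm_map' := fun x => by
        apply le_antisymm
        · refine ContinuousLinearMap.opNorm_le_bound _ (norm_nonneg _) fun a => ?_
          refine norm_apply_le _ _ (fun i => ?_) a
          show ‖pair x (de i)‖ ≤ _
          rw [pair_de]
          exact lp.norm_apply_le_norm (by simp) x i
        · refine lp.norm_le_of_forall_le (norm_nonneg _) fun i => ?_
          have h := (pair x).le_opNorm (de i)
          rw [norm_de, mul_one, pair_de] at h
          exact h }
    (by
      intro g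
      have hg : ∀ i, ‖g (de i)‖ ≤ ‖g‖ := fun i => by
        have h := g.le_opNorm (de i)
        rwa [norm_de, mul_one] at h
      let x : M := ⟨fun i => g (de i), memℓp_infty ⟨‖g‖, by rintro _ ⟨i, rfl⟩; exact hg i⟩⟩
      exact ⟨x, clm_ext fun i => pair_de x i⟩)

lemma Phi_apply (x : M) : Phi x = pair x := rfl

end Pool.Agent.Q86.L1N
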