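import Pool.Agent.Q86.FAlgDefs
import Pool.Agent.Q86.L1N

/-!
# The convolution algebra `ℓ¹(ℕ)` has a TLIM on its dual, but fails the finite dimensional
invariant subspace properties
-/

set_option autoImplicit false

open Filter Topology Set

noncomputable section

namespace Pool.Agent.Q86.FAlg

open Pool.Agent.Q86.L1N

/-- `P_1` of `ℓ¹(ℕ)` -/
abbrev SS : Set A := P1 Phi

/-! ### functionals from bounded sequences -/

/-- bounded sequences -/
def bd (x : ℕ → ℂ) (hx : ∀ n, ‖x n‖ ≤ 1) : M :=
  ⟨x, memℓp_infty ⟨1, by rintro _ ⟨i, rfl⟩; exact hx i⟩⟩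

lemma bd_apply (x : ℕ → ℂ) (hx : ∀ n, ‖x n‖ ≤ 1) (n : ℕ) : (bd x hx) n = x n := rfl

lemma mul_of_de (g : StrongDual ℂ A) (h : ∀ i j, g (de (i + j)) = g (de i) * g (de j)) (a b : A) :
    g (a * b) = g a * g b := by
  have h1 : ∀ i, g.comp (ContinuousLinearMap.mul ℂ A (de i)) = (g (de i)) • g := by
    intro i
    apply clm_ext
    intro j
    simp [de_mul, h]
  have h2 : ∀ i (b : A), g (de i * b) = g (de i) * g b := by
    intro i b
    have := congrArg (fun k : StrongDual ℂ A => k b) (h1 i)
    simpa using this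
  have h3 : g.comp ((ContinuousLinearMap.mul ℂ A).flip b) = (g b) • g := by
    apply clm_ext
    intro i
    simp [h2, mul_comm]
  have := congrArg (fun k : StrongDual ℂ A => k a) h3
  simpa [mul_comm] using this

lemma one_de (i : ℕ) : Phi 1 (de i) = 1 := by
  rw [Phi_apply, pair_de]
  rfl

theorem isF : IsFAlgebra Phi where
  nonzero := by
    intro h
    have := one_de 0
    rw [h] at this
    simp at this
  mul := mul_of_de _ fun i j => by simp [one_de]

lemma de_mem (i : ℕ) : de i ∈ SS := by
  refine ⟨fun y => ?_, one_de i⟩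
  rw [Phi_apply, pair_de]
  have h : (star y * y : M) i = star (y i) * y i := rfl
  rw [h]
  have h2 : star (y i) * y i = ((Complex.normSq (y i) : ℝ) : ℂ) := by
    rw [Complex.star_def, mul_comm, Complex.mul_conj]
  rw [h2, Complex.ofReal_re, Complex.ofReal_im]
  exact ⟨Complex.normSq_nonneg _, rfl⟩

/-- the coordinates of elements of `P_1` are nonnegative -/
lemma co_nonneg {a : A} (ha : a ∈ SS) (i : ℕ) : 0 ≤ (co a i).re ∧ (co a i).im = 0 := by
  have h := ha.1 (bd (fun n => if n = i then 1 else 0) fun n => by split_ifs <;> simp)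
  have h2 : Phi (star (bd (fun n => if n = i then 1 else 0) fun n => by split_ifs <;> simp : M) *
      (bd (fun n => if n = i then 1 else 0) fun n => by split_ifs <;> simp)) a = co a i := by
    rw [Phi_apply, pair_apply, tsum_eq_single i]
    · have : (star (bd (fun n => if n = i then (1:ℂ) else 0) fun n => by split_ifs <;> simp : M) *
      (bd (fun n => if n = i then 1 else 0) fun n => by split_ifs <;> simp)) i = 1 := by
        show star (if i = i then (1:ℂ) else 0) * (if i = i then (1:ℂ) else 0) = 1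
        simp
      rw [this, mul_one]
    · intro j hj
      have : (star (bd (fun n => if n = i then (1:ℂ) else 0) fun n => by split_ifs <;> simp : M) *
      (bd (fun n => if n = i then 1 else 0) fun n => by split_ifs <;> simp)) j = 0 := by
        show star (if j = i then (1:ℂ) else 0) * (if j = i then (1:ℂ) else 0) = 0
        simp [hj]
      rw [this, mul_zero]
  rw [h2] at h
  exact h

lemma mul_mem {a b : A} (ha : a ∈ SS) (hb : b ∈ SS) : a * b ∈ SS := by
  refine ⟨fun y => ?_, ?_⟩
  · rw [Phi_apply]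
    have h := apply_hasSum (pair (star y * y)) (a * b)
    have h1 : ∀ i, co (a * b) i • pair (star y * y) (de i) =
        (((co (a*b) i).re * Complex.normSq (y i) : ℝ) : ℂ) ∧ 0 ≤ (co (a*b) i).re := by
      intro i
      have e1 : (co (a*b) i).im = 0 ∧ 0 ≤ (co (a*b) i).re := by
        rw [co_mul, Complex.im_sum, Complex.re_sum]
        constructor
        · refine Finset.sum_eq_zero fun k _ => ?_
          rw [Complex.mul_im, (co_nonneg ha _).2, (co_nonneg hb _).2]; simp
        · refine Finset.sum_nonneg fun k _ => ?_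
          rw [Complex.mul_re, (co_nonneg ha _).2, (co_nonneg hb _).2]
          simp only [mul_zero, sub_zero]
          exact mul_nonneg (co_nonneg ha _).1 (co_nonneg hb _).1
      refine ⟨?_, e1.2⟩
      rw [pair_de]
      have e2 : (star y * y : M) i = star (y i) * y i := rfl
      have e3 : star (y i) * y i = ((Complex.normSq (y i) : ℝ) : ℂ) := by
        rw [Complex.star_def, mul_comm, Complex.mul_conj]
      rw [e2, e3, smul_eq_mul, Complex.ofReal_mul]
      congr 1
      apply Complex.ext
      · simp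
      · simp [e1.1]
    have hre := Complex.hasSum_re h
    have him := Complex.hasSum_im h
    constructor
    · refine hre.nonneg fun i => ?_
      rw [(h1 i).1, Complex.ofReal_re]
      exact mul_nonneg (h1 i).2 (Complex.normSq_nonneg _)
    · refine him.unique ?_
      have : (fun i => (co (a * b) i • pair (star y * y) (de i)).im) = fun _ => (0:ℝ) := by
        funext i
        rw [(h1 i).1, Complex.ofReal_im]
      rw [this]
      exact hasSum_zero
  · rw [isF.mul, ha.2, hb.2, one_mul]

/-! ### the invariant mean -/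

/-- Cesàro means -/
def ces (N : ℕ) : StrongDual ℂ (StrongDual ℂ A) :=
  ((N + 1 : ℝ)⁻¹ : ℂ) • ∑ n ∈ Finset.range (N + 1), ContinuousLinearMap.apply ℂ ℂ (de n)

lemma ces_apply (N : ℕ) (f : StrongDual ℂ A) :
    ces N f = ((N + 1 : ℝ)⁻¹ : ℂ) * ∑ n ∈ Finset.range (N + 1), f (de n) := by
  simp [ces]

lemma ces_norm (N : ℕ) : ‖ces N‖ ≤ 1 := by
  refine ContinuousLinearMap.opNorm_le_bound _ zero_le_one fun f => ?_
  rw [ces_apply, norm_mul, one_mul]
  have h1 : ‖((N + 1 : ℝ)⁻¹ : ℂ)‖ = (N + 1 : ℝ)⁻¹ := by
    rw [norm_inv]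
    congr 1
    rw [Complex.norm_real, Real.norm_eq_abs, abs_of_nonneg (by positivity)]
  rw [h1]
  have h2 : ‖∑ n ∈ Finset.range (N + 1), f (de n)‖ ≤ (N + 1 : ℝ) * ‖f‖ := by
    refine (norm_sum_le _ _).trans ?_
    refine (Finset.sum_le_card_nsmul _ _ ‖f‖ fun n _ => ?_).trans ?_
    · have := f.le_opNorm (de n)
      rwa [norm_de, mul_one] at this
    · simp
  calc (N + 1 : ℝ)⁻¹ * ‖∑ n ∈ Finset.range (N + 1), f (de n)‖
      ≤ (N + 1 : ℝ)⁻¹ * ((N + 1 : ℝ) * ‖f‖) := by
        exact mul_le_mul_of_nonneg_left h2 (by positivity)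
    _ = ‖f‖ := by
        rw [← mul_assoc, inv_mul_cancel₀ (by positivity), one_mul]

lemma act_de (f : StrongDual ℂ A) (i j : ℕ) : act f (de i) (de j) = f (de (i + j)) := by
  show f (de i * de j) = _
  rw [de_mul]

lemma ces_inv (f : StrongDual ℂ A) :
    Tendsto (fun N => ces N (act f (de 1)) - ces N f) atTop (𝓝 0) := by
  have h1 : ∀ N, ‖ces N (act f (de 1)) - ces N f‖ ≤ (2 * ‖f‖) * (1 / ((N : ℝ) + 1)) := by
    intro N
    rw [ces_apply, ces_apply, ← mul_sub, ← Finset.sum_sub_distrib]
    have h2 : ∑ n ∈ Finset.range (N + 1), (act f (de 1) (de n) - f (de n)) =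
        f (de (N + 1)) - f (de 0) := by
      rw [← Finset.sum_range_sub (fun n => f (de n))]
      refine Finset.sum_congr rfl fun n _ => ?_
      rw [act_de, add_comm]
    rw [h2, norm_mul]
    have h3 : ‖((N + 1 : ℝ)⁻¹ : ℂ)‖ = 1 / ((N : ℝ) + 1) := by
      rw [norm_inv, one_div]
      congr 1
      rw [Complex.norm_real, Real.norm_eq_abs, abs_of_nonneg (by positivity)]
    rw [h3, mul_comm]
    refine mul_le_mul_of_nonneg_right ?_ (by positivity)
    have hb : ∀ i, ‖f (de i)‖ ≤ ‖f‖ := fun i => by
      have := f.le_opNorm (de i)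
      rwa [norm_de, mul_one] at this
    refine (norm_sub_le _ _).trans ?_
    linarith [hb (N + 1), hb 0]
  have h4 : Tendsto (fun N : ℕ => (2 * ‖f‖) * (1 / ((N : ℝ) + 1))) atTop (𝓝 0) := by
    have := (tendsto_one_div_add_atTop_nhds_zero_nat (𝕜 := ℝ)).const_mul (2 * ‖f‖)
    simpa using this
  exact squeeze_zero_norm h1 h4

theorem tlim : HasTLIM Phi (univ : Set (StrongDual ℂ A)) := by
  -- a weak-* cluster point
  have hc : IsCompact (WeakDual.toStrongDual ⁻¹' Metric.closedBall
      (0 : StrongDual ℂ (StrongDual ℂ A)) 1) := WeakDual.isCompact_closedBall _ _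
  have hin : map (fun N => StrongDual.toWeakDual (ces N)) (atTop : Filter ℕ) ≤
      𝓟 (WeakDual.toStrongDual ⁻¹' Metric.closedBall
      (0 : StrongDual ℂ (StrongDual ℂ A)) 1) := by
    rw [le_principal_iff, mem_map]
    refine univ_mem' fun N => ?_
    exact (mem_closedBall_zero_iff (E := StrongDual ℂ (StrongDual ℂ A))).2 (ces_norm N)
  obtain ⟨m, hm, hcl⟩ := hc.exists_mapClusterPt hin
  have hev : ∀ f : StrongDual ℂ A, MapClusterPt (m f) atTop fun N => ces N f := by
    intro f
    have hcont : Continuous fun x : WeakDual ℂ (StrongDual ℂ A) => x f :=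
      WeakDual.eval_continuous f
    exact hcl.continuousAt_comp hcont.continuousAt
  have hlim : ∀ (f : StrongDual ℂ A) (c : ℂ), Tendsto (fun N => ces N f) atTop (𝓝 c) →
      m f = c := by
    intro f c h
    have h1 := hev f
    have h2 := h1.clusterPt
    exact eq_of_nhds_neBot (h2.mono h)
  set m' : StrongDual ℂ (StrongDual ℂ A) := WeakDual.toStrongDual m with hm'
  have hm'f : ∀ f, m' f = m f := fun f => rfl
  have hle : ‖m'‖ ≤ 1 := (mem_closedBall_zero_iff (E := StrongDual ℂ (StrongDual ℂ A))).1 hm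
  have hone : m' (Phi 1) = 1 := by
    rw [hm'f]
    apply hlim
    have : (fun N => ces N (Phi 1)) = fun _ => (1 : ℂ) := by
      funext N
      rw [ces_apply]
      simp only [one_de, Finset.sum_const, Finset.card_range, nsmul_eq_mul, mul_one]
      push_cast
      exact inv_mul_cancel₀ (by
        have : ((N : ℂ) + 1) = ((N + 1 : ℕ) : ℂ) := by push_cast; ring
        rw [this]
        exact Nat.cast_ne_zero.2 (Nat.succ_ne_zero N))
    rw [this]
    exact tendsto_const_nhds
  have hn1 : ‖Phi (1 : M)‖ = 1 := by rw [LinearIsometryEquiv.norm_map, norm_one]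
  have hnorm : ‖m'‖ = 1 := by
    refine le_antisymm hle ?_
    have := m'.le_opNorm (Phi 1)
    rw [hone, hn1, mul_one, norm_one] at this
    exact this
  have hinv1 : ∀ f, m' (act f (de 1)) = m' f := by
    intro f
    rw [← sub_eq_zero, ← map_sub, hm'f]
    apply hlim
    have h := ces_inv f
    refine h.congr fun N => ?_
    rw [map_sub]
  have hinvk : ∀ k f, m' (act f (de k)) = m' f := by
    intro k
    induction k with
    | zero =>
      intro f
      congr 1
      apply clm_ext
      intro i
      rw [act_de, zero_add]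
    | succ k ih =>
      intro f
      rw [← ih f, ← hinv1 (act f (de k))]
      congr 1
      apply clm_ext
      intro i
      rw [act_de]
      show _ = f (de k * (de 1 * de i))
      rw [de_mul, de_mul, add_assoc]
  refine ⟨m', hnorm, hone, fun f _ a ha => ?_⟩
  -- the functional `a ↦ m (f · a)`
  let L : StrongDual ℂ A :=
    m'.comp ((ContinuousLinearMap.compL ℂ A A ℂ f).comp (ContinuousLinearMap.mul ℂ A))
  have hL : L = (m' f) • Phi 1 := by
    apply clm_ext
    intro i
    show m' (act f (de i)) = _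
    rw [hinvk, smul_apply, one_de, smul_eq_mul, mul_one]
  have h2 : m' (act f a) = L a := rfl
  rw [h2, hL, smul_apply, ha.2, smul_eq_mul, mul_one]

end Pool.Agent.Q86.FAlg
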