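import Pool.Agent.Q86.FAlgTwo

/-!
# The invariant mean on the dual of `A2`, and a representation of `P_1(A2)` by operators of rank
`n` without invariant subspace
-/

set_option autoImplicit false

open Filter Topology Set
open scoped ENNReal

noncomputable section

namespace Pool.Agent.Q86.FAlg

open Pool.Agent.Q86.L1N

/-- `P_1` of `A2` -/
abbrev SS2 : Set A2 := P1 Phi2

/-! ### the invariant mean -/

/-- `b ↦ (b/2, b/2)` -/
def hf : A →L[ℂ] A2 := (1 / 2 : ℂ) • (inl + inr)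

/-- `b ↦ (b/2, -b/2)` -/
def alt : A →L[ℂ] A2 := (1 / 2 : ℂ) • (inl - inr)

lemma fs_sub (a b : A2) : fs (a - b) = fs a - fs b := rfl
lemma sn_sub (a b : A2) : sn (a - b) = sn a - sn b := rfl

lemma sm_hf (b : A) : sm (hf b) = b := by
  have : sm (inl b + inr b) = (2 : ℂ) • b := by
    rw [sm_add, sm, sm, inl_apply, inr_apply, fs_pt, sn_pt, fs_pt, sn_pt, two_smul]; abel
  show sm ((1 / 2 : ℂ) • (inl b + inr b)) = b
  rw [sm_smul, this, smul_smul]
  norm_num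

lemma df_hf (b : A) : df (hf b) = 0 := by
  have : df (inl b + inr b) = 0 := by
    rw [df_add, df, df, inl_apply, inr_apply, fs_pt, sn_pt, fs_pt, sn_pt]; abel
  show df ((1 / 2 : ℂ) • (inl b + inr b)) = 0
  rw [df_smul, this, smul_zero]

lemma sm_alt (b : A) : sm (alt b) = 0 := by
  have : sm (inl b - inr b) = 0 := by
    rw [sm, fs_sub, sn_sub, inl_apply, inr_apply, fs_pt, sn_pt, fs_pt, sn_pt]; abel
  show sm ((1 / 2 : ℂ) • (inl b - inr b)) = 0
  rw [sm_smul, this, smul_zero]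

lemma df_alt (b : A) : df (alt b) = b := by
  have : df (inl b - inr b) = (2 : ℂ) • b := by
    rw [df, fs_sub, sn_sub, inl_apply, inr_apply, fs_pt, sn_pt, fs_pt, sn_pt, two_smul]; abel
  show df ((1 / 2 : ℂ) • (inl b - inr b)) = b
  rw [df_smul, this, smul_smul]
  norm_num

lemma hf_norm : ‖hf‖ ≤ 1 := by
  refine ContinuousLinearMap.opNorm_le_bound _ zero_le_one fun b => ?_
  have h1 : ‖(1 / 2 : ℂ)‖ = 1 / 2 := by simp
  show ‖(1 / 2 : ℂ) • (inl b + inr b)‖ ≤ _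
  rw [norm_smul, h1]
  have h2 := norm_add_le (inl b) (inr b)
  rw [inl_norm, inr_norm] at h2
  linarith

lemma mul_hf (a : A2) (b : A) : a * hf b = hf (sm a * b) + alt (df a * dmp b) := by
  apply ext3
  · rw [sm_mul, sm_add, sm_hf, sm_hf, sm_alt, add_zero]
  · rw [df_mul, df_add, sm_hf, df_hf, df_alt, zero_add]

lemma dmp_norm (b : A) : ‖dmp b‖ ≤ ‖b‖ := by
  have := dmpl_norm b
  rw [one_mul] at this
  exact this

lemma mem_of_mem {a : A2} (ha : a ∈ SS2) : sm a ∈ SS := by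
  refine ⟨fun y => ?_, ?_⟩
  · have h := ha.1 (y, y)
    have e : Phi2 (star (y, y) * (y, y)) a = Phi (star y * y) (sm a) := by
      rw [Phi2_apply, sm, map_add]
      rfl
    rw [e] at h
    exact h
  · rw [← Phi2_one]
    exact ha.2

/-- A norm one functional on the dual space that is invariant annihilates decaying functionals -/
lemma mean_decay (m : StrongDual ℂ (StrongDual ℂ A)) (hm : ‖m‖ = 1)
    (hinv : ∀ f, ∀ a ∈ SS, m (act f a) = m f) (g : StrongDual ℂ A) (C : ℝ) (hC : 0 ≤ C)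
    (hg : ∀ k b, ‖g (de k * b)‖ ≤ C * (1 / 2 : ℝ) ^ k * ‖b‖) : m g = 0 := by
  have h1 : ∀ k, ‖m g‖ ≤ C * (1 / 2 : ℝ) ^ k := by
    intro k
    rw [← hinv g (de k) (de_mem k)]
    refine (m.le_opNorm _).trans ?_
    rw [hm, one_mul]
    exact ContinuousLinearMap.opNorm_le_bound _ (by positivity) fun b => hg k b
  have h2 : Tendsto (fun k : ℕ => C * (1 / 2 : ℝ) ^ k) atTop (𝓝 0) := by
    have := (tendsto_pow_atTop_nhds_zero_of_lt_one (r := (1 / 2 : ℝ)) (by norm_num)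
      (by norm_num)).const_mul C
    simpa using this
  have h3 : ‖m g‖ ≤ 0 := ge_of_tendsto' h2 h1
  exact norm_le_zero_iff.1 h3

theorem tlim2 : HasTLIM Phi2 (univ : Set (StrongDual ℂ A2)) := by
  obtain ⟨m, hm, hone, hinv⟩ := tlim
  have hinv' : ∀ f, ∀ a ∈ SS, m (act f a) = m f := fun f a ha => hinv f (mem_univ _) a ha
  let m2 : StrongDual ℂ (StrongDual ℂ A2) := m.comp ((ContinuousLinearMap.compL ℂ A A2 ℂ).flip hf)
  have hm2 : ∀ f, m2 f = m (f.comp hf) := fun f => rfl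
  have hle : ‖m2‖ ≤ 1 := by
    refine ContinuousLinearMap.opNorm_le_bound _ zero_le_one fun f => ?_
    rw [hm2, one_mul]
    refine (m.le_opNorm _).trans ?_
    rw [hm, one_mul]
    refine (f.opNorm_comp_le hf).trans ?_
    have := mul_le_mul_of_nonneg_left hf_norm (norm_nonneg f)
    rwa [mul_one] at this
  have h1 : m2 (Phi2 1) = 1 := by
    rw [hm2]
    have : (Phi2 1).comp hf = Phi 1 := by
      ext b
      show Phi2 1 (hf b) = _
      rw [Phi2_one, sm_hf]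
    rw [this, hone]
  have hn1 : ‖Phi2 (1 : M × M)‖ = 1 := by rw [LinearIsometryEquiv.norm_map, norm_one]
  refine ⟨m2, le_antisymm hle ?_, h1, ?_⟩
  · have := m2.le_opNorm (Phi2 1)
    rw [h1, hn1, mul_one, norm_one] at this
    exact this
  · intro f _ a ha
    rw [hm2, hm2]
    let g : StrongDual ℂ A := f.comp (alt.comp ((ContinuousLinearMap.mul ℂ A (df a)).comp dmp))
    have hg : ∀ b, g b = f (alt (df a * dmp b)) := fun b => rfl
    have hsplit : (act f a).comp hf = act (f.comp hf) (sm a) + g := by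
      ext b
      rw [add_apply]
      show f (a * hf b) = f (hf (sm a * b)) + f (alt (df a * dmp b))
      rw [mul_hf, map_add]
    rw [hsplit, map_add, hinv' _ _ (mem_of_mem ha)]
    have hz : m g = 0 := by
      refine mean_decay m hm hinv' g (‖f‖ * (‖alt‖ * ‖df a‖)) (by positivity) fun k b => ?_
      rw [hg, dmp_mul, dmp_de]
      have e1 : df a * ((1 / 2 : ℂ) ^ k • de k * dmp b) = (1 / 2 : ℂ) ^ k • (df a * (de k * dmp b)) := by
        rw [smul_mul_assoc, mul_smul_comm]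
      rw [e1, map_smul, map_smul, norm_smul, norm_pow]
      have e2 : ‖(1 / 2 : ℂ)‖ = 1 / 2 := by simp
      rw [e2]
      have e3 : ‖f (alt (df a * (de k * dmp b)))‖ ≤ ‖f‖ * (‖alt‖ * ‖df a‖) * ‖b‖ := by
        have q1 := f.le_opNorm (alt (df a * (de k * dmp b)))
        have q2 := alt.le_opNorm (df a * (de k * dmp b))
        have q3 := norm_mul_le (df a) (de k * dmp b)
        have q4 := norm_mul_le (de k) (dmp b)
        rw [norm_de, one_mul] at q4
        have q5 := dmp_norm b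
        calc _ ≤ ‖f‖ * ‖alt (df a * (de k * dmp b))‖ := q1
          _ ≤ ‖f‖ * (‖alt‖ * ‖df a * (de k * dmp b)‖) :=
            mul_le_mul_of_nonneg_left q2 (norm_nonneg _)
          _ ≤ ‖f‖ * (‖alt‖ * (‖df a‖ * ‖b‖)) := by
            refine mul_le_mul_of_nonneg_left ?_ (norm_nonneg _)
            refine mul_le_mul_of_nonneg_left ?_ (norm_nonneg _)
            refine q3.trans ?_
            exact mul_le_mul_of_nonneg_left (q4.trans q5) (norm_nonneg _)
          _ = _ := by ring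
      calc (1 / 2 : ℝ) ^ k * ‖f (alt (df a * (de k * dmp b)))‖
          ≤ (1 / 2 : ℝ) ^ k * (‖f‖ * (‖alt‖ * ‖df a‖) * ‖b‖) :=
            mul_le_mul_of_nonneg_left e3 (by positivity)
        _ = _ := by ring
    rw [hz, add_zero]

/-! ### the invariant function -/

/-- the character `χ(a) = ∑ a_n 2^{-n}` -/
def chi : StrongDual ℂ A := (Phi 1).comp dmp

lemma chi_de (i : ℕ) : chi (de i) = (1 / 2 : ℂ) ^ i := by
  show Phi 1 (dmp (de i)) = _
  rw [dmp_de, map_smul, one_de, smul_eq_mul, mul_one]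

lemma chi_mul (a b : A) : chi (a * b) = chi a * chi b := by
  show Phi 1 (dmp (a * b)) = Phi 1 (dmp a) * Phi 1 (dmp b)
  rw [dmp_mul, isF.mul]

lemma chi_hasSum (a : A) : HasSum (fun i => co a i * (1 / 2 : ℂ) ^ i) (chi a) := by
  have := apply_hasSum chi a
  simpa [chi_de] using this

lemma chi_real {a : A} (ha : a ∈ SS) : (chi a).im = 0 ∧ 0 < (chi a).re := by
  have hc := chi_hasSum a
  have h2 : ∀ i, co a i * (1 / 2 : ℂ) ^ i = (((co a i).re * (1 / 2 : ℝ) ^ i : ℝ) : ℂ) := by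
    intro i
    have h3 : co a i = ((co a i).re : ℂ) := by
      apply Complex.ext
      · simp
      · simp [(co_nonneg ha i).2]
    rw [Complex.ofReal_mul, ← h3]
    congr 1
    push_cast
    rfl
  have hs : ∃ i, co a i ≠ 0 := by
    by_contra hcon
    push Not at hcon
    have ha0 : a = 0 := co_ext fun n => by rw [hcon n, co_zero]
    have := ha.2
    rw [ha0, map_zero] at this
    exact zero_ne_one this
  obtain ⟨i, hi⟩ := hs
  have hre := Complex.hasSum_re hc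
  have him := Complex.hasSum_im hc
  constructor
  · refine him.unique ?_
    have : (fun i => (co a i * (1 / 2 : ℂ) ^ i).im) = fun _ => (0:ℝ) := by
      funext j
      rw [h2, Complex.ofReal_im]
    rw [this]
    exact hasSum_zero
  · have hnn : ∀ j, 0 ≤ (co a j * (1 / 2 : ℂ) ^ j).re := fun j => by
      rw [h2, Complex.ofReal_re]
      exact mul_nonneg (co_nonneg ha j).1 (by positivity)
    have hle := le_hasSum hre i fun j _ => hnn j
    refine lt_of_lt_of_le ?_ hle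
    rw [h2, Complex.ofReal_re]
    have h5 : 0 < (co a i).re := by
      refine lt_of_le_of_ne (co_nonneg ha i).1 fun h => hi ?_
      apply Complex.ext
      · simp [← h]
      · simp [(co_nonneg ha i).2]
    positivity

/-- the mean sign -/
def sg (a : A2) : ℝ := (Phi 1 (df a)).re

/-- the damped mass -/
def dm (a : A2) : ℝ := (chi (sm a)).re

lemma dm_pos {a : A2} (ha : a ∈ SS2) : 0 < dm a := (chi_real (mem_of_mem ha)).2

lemma dm_mul {a b : A2} (ha : a ∈ SS2) : dm (a * b) = dm a * dm b := by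
  rw [dm, sm_mul, chi_mul, Complex.mul_re, (chi_real (mem_of_mem ha)).1, zero_mul, sub_zero]
  rfl

lemma sg_mul {a b : A2} (hb : b ∈ SS2) : sg (a * b) = sg a * dm b := by
  rw [sg, df_mul, isF.mul, Complex.mul_re]
  have h1 : Phi 1 (dmp (sm b)) = chi (sm b) := rfl
  rw [h1, (chi_real (mem_of_mem hb)).1, mul_zero, sub_zero]
  rfl

/-- the function `G(a) = w / (|w| + χ)` -/
def GG (a : A2) : ℝ := sg a / (|sg a| + dm a)

lemma GG_abs {a : A2} (ha : a ∈ SS2) : |GG a| ≤ 1 := by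
  have h := dm_pos ha
  have h1 : 0 < |sg a| + dm a := add_pos_of_nonneg_of_pos (abs_nonneg _) h
  rw [GG, abs_div, abs_of_pos h1, div_le_one h1]
  linarith

lemma GG_mul {a b : A2} (ha : a ∈ SS2) (hb : b ∈ SS2) :
    GG (a * b) = GG a := by
  have h := dm_pos ha
  have h' := dm_pos hb
  have h1 : 0 < |sg a| + dm a := add_pos_of_nonneg_of_pos (abs_nonneg _) h
  rw [GG, GG, sg_mul hb, dm_mul ha, abs_mul, abs_of_pos h', ← add_mul,
    mul_div_mul_right _ _ h'.ne']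

lemma dfL_cont : Continuous df := by
  have : df = fun a => fsL a - snL a := rfl
  rw [this]
  fun_prop

lemma smL_cont : Continuous sm := by
  have : sm = fun a => fsL a + snL a := rfl
  rw [this]
  fun_prop

lemma GG_cont : ContinuousOn GG SS2 := by
  have h1 : Continuous sg := Complex.continuous_re.comp ((Phi 1).continuous.comp dfL_cont)
  have h2 : Continuous dm := Complex.continuous_re.comp (chi.continuous.comp smL_cont)
  refine h1.continuousOn.div (h1.abs.add h2).continuousOn fun a ha => ?_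
  exact (add_pos_of_nonneg_of_pos (abs_nonneg _) (dm_pos ha)).ne'

/-- a point mass with sign `+` -/
def ap : A2 := inl (de 0)
/-- a point mass with sign `-` -/
def am : A2 := inr (de 0)

lemma ap_mem : ap ∈ SS2 := by
  refine ⟨fun y => ?_, ?_⟩
  · have h := (de_mem 0).1 y.1
    have e : Phi2 (star y * y) ap = Phi (star y.1 * y.1) (de 0) := by
      rw [Phi2_apply, ap, inl_apply, fs_pt, sn_pt, map_zero, add_zero]
      rfl
    rw [e]
    exact h
  · rw [Phi2_one, ap, sm, inl_apply, fs_pt, sn_pt, add_zero, one_de]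

lemma am_mem : am ∈ SS2 := by
  refine ⟨fun y => ?_, ?_⟩
  · have h := (de_mem 0).1 y.2
    have e : Phi2 (star y * y) am = Phi (star y.2 * y.2) (de 0) := by
      rw [Phi2_apply, am, inr_apply, fs_pt, sn_pt, map_zero, zero_add]
      rfl
    rw [e]
    exact h
  · rw [Phi2_one, am, sm, inr_apply, fs_pt, sn_pt, zero_add, one_de]

lemma GG_ap : 0 < GG ap := by
  have h1 : sg ap = 1 := by
    rw [sg, ap, df, inl_apply, fs_pt, sn_pt, sub_zero, one_de, Complex.one_re]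
  have h2 := dm_pos ap_mem
  rw [GG, h1]
  positivity

lemma GG_am : GG am < 0 := by
  have h1 : sg am = -1 := by
    rw [sg, am, df, inr_apply, fs_pt, sn_pt, zero_sub, map_neg, one_de, Complex.neg_re,
      Complex.one_re]
  have h2 := dm_pos am_mem
  rw [GG, h1]
  refine div_neg_of_neg_of_pos (by norm_num) ?_
  positivity

/-! ### the representation -/

section rep

variable (𝕜 : Type) [RCLike 𝕜] (n : ℕ)

/-- the space `W ⊕ W`, `W = 𝕜ⁿ` -/
abbrev EE : Type := (Fin n → 𝕜) × (Fin n → 𝕜)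

/-- `T_a (x, y) = (x, G(a) x)` -/
def TT (a : A2) : EE 𝕜 n →ₗ[𝕜] EE 𝕜 n where
  toFun v := (v.1, (GG a : 𝕜) • v.1)
  map_add' v w := by
    refine Prod.ext rfl ?_
    show (GG a : 𝕜) • (v.1 + w.1) = (GG a : 𝕜) • v.1 + (GG a : 𝕜) • w.1
    rw [smul_add]
  map_smul' c v := by
    refine Prod.ext rfl ?_
    show (GG a : 𝕜) • (c • v.1) = c • ((GG a : 𝕜) • v.1)
    rw [smul_comm]

/-- the invariant set -/
def XX : Set (EE 𝕜 n) := {v | ‖v.2‖ ≤ ‖v.1‖}

/-- the invariant subspace -/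
def HH : Submodule 𝕜 (EE 𝕜 n) := LinearMap.ker (LinearMap.fst 𝕜 (Fin n → 𝕜) (Fin n → 𝕜))

variable {𝕜 n}

lemma TT_apply (a : A2) (v : EE 𝕜 n) : TT 𝕜 n a v = (v.1, (GG a : 𝕜) • v.1) := rfl

lemma GG_smul {a : A2} (ha : a ∈ SS2) (x : Fin n → 𝕜) : ‖(GG a : 𝕜) • x‖ ≤ ‖x‖ := by
  rw [norm_smul, RCLike.norm_ofReal]
  exact mul_le_of_le_one_left (norm_nonneg _) (GG_abs ha)

lemma TT_norm {a : A2} (ha : a ∈ SS2) (v : EE 𝕜 n) : ‖TT 𝕜 n a v‖ ≤ ‖v‖ := by
  rw [TT_apply, Prod.norm_def]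
  have h1 : ‖v.1‖ ≤ ‖v‖ := norm_fst_le v
  exact max_le h1 ((GG_smul ha _).trans h1)

lemma TT_dist {a : A2} (ha : a ∈ SS2) (v w : EE 𝕜 n) :
    dist (TT 𝕜 n a v) (TT 𝕜 n a w) ≤ dist v w := by
  rw [dist_eq_norm, dist_eq_norm, ← map_sub]
  exact TT_norm ha _

lemma isRep : IsRep SS2 (TT 𝕜 n) where
  mul s hs t ht := by
    apply LinearMap.ext
    intro v
    rw [LinearMap.comp_apply, TT_apply, TT_apply, TT_apply, GG_mul hs ht]
  cont x := by
    have h1 : Continuous fun t : ℝ => ((x.1, (t : 𝕜) • x.1) : EE 𝕜 n) :=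
      continuous_const.prodMk (Continuous.smul (f := fun t : ℝ => ((t : ℝ) : 𝕜))
        RCLike.continuous_ofReal continuous_const)
    exact h1.comp_continuousOn GG_cont

lemma eqOn : EqOnCompacts SS2 (TT 𝕜 n) := by
  intro K _ x₀ _
  rw [Metric.uniformity_basis_dist.equicontinuousWithinAt_iff_right]
  intro ε hε
  have : Metric.ball x₀ ε ∈ 𝓝[K] x₀ := nhdsWithin_le_nhds (Metric.ball_mem_nhds _ hε)
  filter_upwards [this] with x hx s
  have h1 := TT_dist s.2 x₀ x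
  have h2 : dist x₀ x < ε := by rw [dist_comm]; exact hx
  show dist (TT 𝕜 n s x₀) (TT 𝕜 n s x) < ε
  linarith

lemma quasi : QuasiEqOnCompacts SS2 (TT 𝕜 n) := by
  intro K _ g hg
  have hcl : IsClosed {g : K → EE 𝕜 n | ∀ x y : K, dist (g x) (g y) ≤ dist x y} := by
    have : {g : K → EE 𝕜 n | ∀ x y : K, dist (g x) (g y) ≤ dist x y} =
        ⋂ x : K, ⋂ y : K, {g | dist (g x) (g y) ≤ dist x y} := by
      ext; simp
    rw [this]
    refine isClosed_iInter fun x => isClosed_iInter fun y => ?_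
    exact isClosed_le ((continuous_apply x).dist (continuous_apply y)) continuous_const
  have hsub : (fun (s : A2) (x : K) => TT 𝕜 n s (x : EE 𝕜 n)) '' SS2 ⊆
      {g : K → EE 𝕜 n | ∀ x y : K, dist (g x) (g y) ≤ dist x y} := by
    rintro _ ⟨s, hs, rfl⟩ x y
    exact TT_dist hs _ _
  have h := closure_minimal hsub hcl hg
  exact (LipschitzWith.of_dist_le_mul (K := 1) (by
    intro x y
    have := h x y
    simpa using this)).continuous

lemma joint : JointOnCompacts SS2 (TT 𝕜 n) := by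
  intro K _ ι l s x s₀ x₀ hs₀ _ hs _ _ hst hxt
  have h1 : Tendsto (fun i => GG (s i)) l (𝓝 (GG s₀)) := by
    have hc := GG_cont s₀ hs₀
    refine hc.tendsto.comp ?_
    rw [tendsto_nhdsWithin_iff]
    exact ⟨hst, Eventually.of_forall hs⟩
  have h2 : Tendsto (fun i => (x i).1) l (𝓝 x₀.1) := (continuous_fst.tendsto x₀).comp hxt
  have h3 : Tendsto (fun i => ((GG (s i) : ℝ) : 𝕜)) l (𝓝 ((GG s₀ : ℝ) : 𝕜)) :=
    (RCLike.continuous_ofReal.tendsto _).comp h1
  exact h2.prodMk_nhds (h3.smul h2)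

lemma TT_inj (a : A2) (L : Submodule 𝕜 (EE 𝕜 n)) (hL : (L : Set (EE 𝕜 n)) ⊆ XX 𝕜 n) :
    Function.Injective ((TT 𝕜 n a).domRestrict L) := by
  rw [← LinearMap.ker_eq_bot, LinearMap.ker_eq_bot']
  rintro ⟨v, hv⟩ h
  have h1 : TT 𝕜 n a v = 0 := h
  rw [TT_apply] at h1
  have h2 : v.1 = 0 := congrArg Prod.fst h1
  have h3 : ‖v.2‖ ≤ ‖v.1‖ := hL hv
  rw [h2, norm_zero] at h3
  have h4 : v.2 = 0 := norm_le_zero_iff.1 h3
  apply Subtype.ext
  exact Prod.ext h2 h4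

lemma consistent : IsConsistent SS2 (TT 𝕜 n) n (XX 𝕜 n) := by
  constructor
  · refine ⟨LinearMap.range (LinearMap.inl 𝕜 (Fin n → 𝕜) (Fin n → 𝕜)), ?_, ?_⟩
    · rw [LinearMap.finrank_range_of_inj LinearMap.inl_injective]
      simp
    · rintro _ ⟨x, rfl⟩
      show ‖(0 : Fin n → 𝕜)‖ ≤ ‖x‖
      rw [norm_zero]
      exact norm_nonneg _
  · rintro L ⟨hL1, hL2⟩ s hs
    refine ⟨?_, ?_⟩
    · have h1 : L.map (TT 𝕜 n s) = LinearMap.range ((TT 𝕜 n s).domRestrict L) := by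
        rw [LinearMap.range_domRestrict]
      rw [h1, LinearMap.finrank_range_of_inj (TT_inj s L hL2)]
      exact hL1
    · rintro _ ⟨v, _, rfl⟩
      exact GG_smul hs _

lemma transversal : IsTransversal SS2 (TT 𝕜 n) n (XX 𝕜 n) (HH 𝕜 n) where
  closed := by
    have : ((HH 𝕜 n : Submodule 𝕜 (EE 𝕜 n)) : Set (EE 𝕜 n)) = {v | v.1 = 0} := by
      ext v; simp [HH]
    rw [this]
    exact isClosed_eq continuous_fst continuous_const
  inv s _ x hx := by
    simp only [HH, LinearMap.mem_ker, LinearMap.fst_apply] at hx ⊢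
    exact hx
  codim := by
    have e := LinearMap.quotKerEquivOfSurjective (LinearMap.fst 𝕜 (Fin n → 𝕜) (Fin n → 𝕜))
      LinearMap.fst_surjective
    rw [HH, LinearEquiv.finrank_eq e]
    simp
  compact x := by
    have h1 : ({y | y - x ∈ HH 𝕜 n} ∩ XX 𝕜 n) = {x.1} ×ˢ Metric.closedBall 0 ‖x.1‖ := by
      ext y
      simp only [HH, mem_inter_iff, mem_ofPred_eq, LinearMap.mem_ker, LinearMap.fst_apply,
        Prod.fst_sub, sub_eq_zero, XX, mem_prod, mem_singleton_iff, mem_closedBall_zero_iff]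
      constructor
      · rintro ⟨h1, h2⟩
        exact ⟨h1, by rw [← h1]; exact h2⟩
      · rintro ⟨h1, h2⟩
        exact ⟨h1, by rw [h1]; exact h2⟩
    rw [h1]
    exact isCompact_singleton.prod (isCompact_closedBall _ _)

lemma convex_sections (x : EE 𝕜 n) : Convex ℝ ({y | y - x ∈ HH 𝕜 n} ∩ XX 𝕜 n) := by
  have h1 : ({y | y - x ∈ HH 𝕜 n} ∩ XX 𝕜 n) = {x.1} ×ˢ Metric.closedBall 0 ‖x.1‖ := by
    ext y
    simp only [HH, mem_inter_iff, mem_ofPred_eq, LinearMap.mem_ker, LinearMap.fst_apply,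
      Prod.fst_sub, sub_eq_zero, XX, mem_prod, mem_singleton_iff, mem_closedBall_zero_iff]
    constructor
    · rintro ⟨h1, h2⟩
      exact ⟨h1, by rw [← h1]; exact h2⟩
    · rintro ⟨h1, h2⟩
      exact ⟨h1, by rw [h1]; exact h2⟩
  rw [h1]
  exact (convex_singleton _).prod (convex_closedBall _ _)

lemma not_fixed (hn : 1 ≤ n) :
    ¬ ∃ L ∈ subspaces 𝕜 n (XX 𝕜 n), ∀ s ∈ SS2, L.map (TT 𝕜 n s) = L := by
  rintro ⟨L, ⟨hL1, hL2⟩, h⟩
  have hne : L ≠ ⊥ := by
    rintro rfl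
    rw [finrank_bot] at hL1
    omega
  obtain ⟨v, hv, hv0⟩ := Submodule.exists_mem_ne_zero_of_ne_bot hne
  have h1 : TT 𝕜 n ap v ∈ L := by
    have := h ap ap_mem
    rw [← this]
    exact ⟨v, hv, rfl⟩
  have h2 : TT 𝕜 n am v ∈ L := by
    have := h am am_mem
    rw [← this]
    exact ⟨v, hv, rfl⟩
  have h3 : TT 𝕜 n ap v - TT 𝕜 n am v ∈ L := L.sub_mem h1 h2
  have h4 : TT 𝕜 n ap v - TT 𝕜 n am v = (0, ((GG ap : 𝕜) - (GG am : 𝕜)) • v.1) := by
    rw [TT_apply, TT_apply, Prod.mk_sub_mk, sub_self, sub_smul]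
  rw [h4] at h3
  have h5 : ‖((GG ap : 𝕜) - (GG am : 𝕜)) • v.1‖ ≤ ‖(0 : Fin n → 𝕜)‖ := hL2 h3
  rw [norm_zero] at h5
  have h6 : ((GG ap : 𝕜) - (GG am : 𝕜)) • v.1 = 0 := norm_le_zero_iff.1 h5
  have h7 : ((GG ap : 𝕜) - (GG am : 𝕜)) ≠ 0 := by
    rw [← RCLike.ofReal_sub]
    rw [Ne, RCLike.ofReal_eq_zero]
    have := GG_ap
    have := GG_am
    linarith
  have h8 : v.1 = 0 := by
    rcases smul_eq_zero.1 h6 with h | h
    · exact absurd h h7
    · exact h
  have h9 : ‖v.2‖ ≤ ‖v.1‖ := hL2 hv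
  rw [h8, norm_zero] at h9
  exact hv0 (Prod.ext h8 (norm_le_zero_iff.1 h9))

end rep

theorem not_FAc (𝕜 : Type) [RCLike 𝕜] (n : ℕ) (hn : 1 ≤ n) : ¬ FAc 𝕜 SS2 n := fun h =>
  not_fixed (𝕜 := 𝕜) hn (h (EE 𝕜 n) (TT 𝕜 n) isRep eqOn (XX 𝕜 n) consistent
    ⟨HH 𝕜 n, transversal, convex_sections⟩)

theorem not_FWc (𝕜 : Type) [RCLike 𝕜] (n : ℕ) (hn : 1 ≤ n) : ¬ FWc 𝕜 SS2 n := fun h =>
  not_fixed (𝕜 := 𝕜) hn (h (EE 𝕜 n) (TT 𝕜 n) isRep quasi (XX 𝕜 n) consistent
    ⟨HH 𝕜 n, transversal, convex_sections⟩)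

theorem not_FJc (𝕜 : Type) [RCLike 𝕜] (n : ℕ) (hn : 1 ≤ n) : ¬ FJc 𝕜 SS2 n := fun h =>
  not_fixed (𝕜 := 𝕜) hn (h (EE 𝕜 n) (TT 𝕜 n) isRep joint (XX 𝕜 n) consistent
    ⟨HH 𝕜 n, transversal, convex_sections⟩)

theorem not_FA (𝕜 : Type) [RCLike 𝕜] (n : ℕ) (hn : 1 ≤ n) : ¬ FA 𝕜 SS2 n := fun h =>
  not_fixed (𝕜 := 𝕜) hn (h (EE 𝕜 n) (TT 𝕜 n) isRep eqOn (XX 𝕜 n) consistent
    ⟨HH 𝕜 n, transversal⟩)

theorem not_FW (𝕜 : Type) [RCLike 𝕜] (n : ℕ) (hn : 1 ≤ n) : ¬ FW 𝕜 SS2 n := fun h =>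
  not_fixed (𝕜 := 𝕜) hn (h (EE 𝕜 n) (TT 𝕜 n) isRep quasi (XX 𝕜 n) consistent
    ⟨HH 𝕜 n, transversal⟩)

theorem not_FJ (𝕜 : Type) [RCLike 𝕜] (n : ℕ) (hn : 1 ≤ n) : ¬ FJ 𝕜 SS2 n := fun h =>
  not_fixed (𝕜 := 𝕜) hn (h (EE 𝕜 n) (TT 𝕜 n) isRep joint (XX 𝕜 n) consistent
    ⟨HH 𝕜 n, transversal⟩)

end Pool.Agent.Q86.FAlg
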