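import Pool.Agent.Q86.FAlgEx

/-!
# An F-algebra with fading signs

`A2 = ℓ¹(ℕ × {+,-})`, with `(n,σ)(m,τ)` = the probability measure on `{(n+m,+), (n+m,-)}` with
mean sign `σ 2^{-m}`.
-/

set_option autoImplicit false

open Filter Topology Set
open scoped ENNReal

noncomputable section

namespace Pool.Agent.Q86.FAlg

open Pool.Agent.Q86.L1N

/-! ### the damping operator -/

lemma dmp_summable (a : A) : Summable fun n => ‖(1 / 2 : ℂ) ^ n * co a n‖ := by
  refine Summable.of_nonneg_of_le (fun _ => norm_nonneg _) (fun n => ?_) (co_summable a)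
  rw [norm_mul, norm_pow]
  have h : ‖(1 / 2 : ℂ)‖ ^ n ≤ 1 := by
    refine pow_le_one₀ (norm_nonneg _) ?_
    simp
    norm_num
  nlinarith [norm_nonneg (co a n)]

/-- `D a = (2^{-n} a_n)` -/
def dmpl : A →ₗ[ℂ] A where
  toFun a := mk (fun n => (1 / 2 : ℂ) ^ n * co a n) (dmp_summable a)
  map_add' a b := co_ext fun n => by
    rw [co_mk, co_add, co_add, co_mk, co_mk]; ring
  map_smul' c a := co_ext fun n => by
    rw [co_mk, co_smul, RingHom.id_apply, co_smul, co_mk]; ring

lemma dmpl_norm (a : A) : ‖dmpl a‖ ≤ 1 * ‖a‖ := by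
  rw [one_mul, norm_eq, norm_eq]
  refine Summable.tsum_le_tsum (fun n => ?_) (co_summable _) (co_summable a)
  show ‖(1 / 2 : ℂ) ^ n * co a n‖ ≤ _
  rw [norm_mul, norm_pow]
  have h : ‖(1 / 2 : ℂ)‖ ^ n ≤ 1 := by
    refine pow_le_one₀ (norm_nonneg _) ?_
    simp
    norm_num
  nlinarith [norm_nonneg (co a n)]

/-- `D` as a continuous linear map -/
def dmp : A →L[ℂ] A := dmpl.mkContinuous 1 dmpl_norm

lemma co_dmp (a : A) (n : ℕ) : co (dmp a) n = (1 / 2 : ℂ) ^ n * co a n := rfl

lemma dmp_mul (a b : A) : dmp (a * b) = dmp a * dmp b := by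
  apply co_ext
  intro n
  rw [co_dmp, co_mul, co_mul, Finset.mul_sum]
  refine Finset.sum_congr rfl fun k hk => ?_
  rw [co_dmp, co_dmp, ← Finset.HasAntidiagonal.mem_antidiagonal.1 hk, pow_add]
  ring

lemma dmp_de (i : ℕ) : dmp (de i) = (1 / 2 : ℂ) ^ i • de i := by
  apply co_ext
  intro n
  rw [co_dmp, co_smul, co_de]
  by_cases h : n = i
  · rw [h]
  · simp [h]

/-- the part with kept sign and the part with changed sign -/
lemma split_norm (s : A) : ‖(1 / 2 : ℂ) • (s + dmp s)‖ + ‖(1 / 2 : ℂ) • (s - dmp s)‖ ≤ ‖s‖ := by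
  rw [norm_eq, norm_eq, norm_eq, ← (co_summable _).tsum_add (co_summable _)]
  refine Summable.tsum_le_tsum (fun n => ?_) ((co_summable _).add (co_summable _)) (co_summable s)
  have h1 : co ((1 / 2 : ℂ) • (s + dmp s)) n = (((1 + (1 / 2 : ℝ) ^ n) / 2 : ℝ) : ℂ) * co s n := by
    rw [co_smul, co_add, co_dmp]
    push_cast
    ring
  have h2 : co ((1 / 2 : ℂ) • (s - dmp s)) n = (((1 - (1 / 2 : ℝ) ^ n) / 2 : ℝ) : ℂ) * co s n := by
    rw [sub_eq_add_neg, ← neg_one_smul ℂ (dmp s), co_smul, co_add, co_smul, co_dmp]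
    push_cast
    ring
  have h3 : (1 / 2 : ℝ) ^ n ≤ 1 := pow_le_one₀ (by norm_num) (by norm_num)
  have h4 : (0 : ℝ) ≤ (1 / 2 : ℝ) ^ n := by positivity
  rw [h1, h2, norm_mul, norm_mul, Complex.norm_real, Complex.norm_real, Real.norm_eq_abs,
    Real.norm_eq_abs, abs_of_nonneg (by linarith), abs_of_nonneg (by linarith), ← add_mul]
  have : (1 + (1 / 2 : ℝ) ^ n) / 2 + (1 - (1 / 2 : ℝ) ^ n) / 2 = 1 := by ring
  rw [this, one_mul]

/-! ### the algebra -/

/-- `ℓ¹(ℕ × {+,-})`, as the `ℓ¹`-sum of two copies of `ℓ¹(ℕ)` -/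
def A2 : Type := WithLp 1 (A × A)

instance : NormedAddCommGroup A2 := inferInstanceAs (NormedAddCommGroup (WithLp 1 (A × A)))
instance : NormedSpace ℂ A2 := inferInstanceAs (NormedSpace ℂ (WithLp 1 (A × A)))
instance : CompleteSpace A2 := inferInstanceAs (CompleteSpace (WithLp 1 (A × A)))

/-- pairs -/
def pt (p q : A) : A2 := (WithLp.toLp 1 (p, q) : WithLp 1 (A × A))
/-- the `+` part -/
def fs (a : A2) : A := (show WithLp 1 (A × A) from a).fst
/-- the `-` part -/
def sn (a : A2) : A := (show WithLp 1 (A × A) from a).snd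

lemma fs_pt (p q : A) : fs (pt p q) = p := rfl
lemma sn_pt (p q : A) : sn (pt p q) = q := rfl
lemma pt_eta (a : A2) : pt (fs a) (sn a) = a := rfl
lemma fs_add (a b : A2) : fs (a + b) = fs a + fs b := rfl
lemma sn_add (a b : A2) : sn (a + b) = sn a + sn b := rfl
lemma fs_smul (c : ℂ) (a : A2) : fs (c • a) = c • fs a := rfl
lemma sn_smul (c : ℂ) (a : A2) : sn (c • a) = c • sn a := rfl
lemma fs_zero : fs 0 = 0 := rfl
lemma sn_zero : sn 0 = 0 := rfl
lemma norm2 (a : A2) : ‖a‖ = ‖fs a‖ + ‖sn a‖ := WithLp.prod_norm_eq_of_L1 _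
lemma ext2 {a b : A2} (h1 : fs a = fs b) (h2 : sn a = sn b) : a = b := by
  rw [← pt_eta a, ← pt_eta b, h1, h2]

/-- sum of the two parts -/
def sm (a : A2) : A := fs a + sn a
/-- difference of the two parts -/
def df (a : A2) : A := fs a - sn a

lemma ext3 {a b : A2} (h1 : sm a = sm b) (h2 : df a = df b) : a = b := by
  have e1 : (2 : ℂ) • fs a = (2 : ℂ) • fs b := by
    have : ∀ x : A2, (2 : ℂ) • fs x = sm x + df x := by
      intro x; rw [sm, df, two_smul]; abel
    rw [this, this, h1, h2]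
  have e2 : (2 : ℂ) • sn a = (2 : ℂ) • sn b := by
    have : ∀ x : A2, (2 : ℂ) • sn x = sm x - df x := by
      intro x; rw [sm, df, two_smul]; abel
    rw [this, this, h1, h2]
  exact ext2 (smul_right_injective A (two_ne_zero (α := ℂ)) e1)
    (smul_right_injective A (two_ne_zero (α := ℂ)) e2)

lemma sm_add (a b : A2) : sm (a + b) = sm a + sm b := by
  rw [sm, sm, sm, fs_add, sn_add]; abel
lemma df_add (a b : A2) : df (a + b) = df a + df b := by
  rw [df, df, df, fs_add, sn_add]; abel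
lemma sm_smul (c : ℂ) (a : A2) : sm (c • a) = c • sm a := by
  rw [sm, sm, fs_smul, sn_smul, smul_add]
lemma df_smul (c : ℂ) (a : A2) : df (c • a) = c • df a := by
  rw [df, df, fs_smul, sn_smul, smul_sub]
lemma sm_zero : sm 0 = 0 := by rw [sm, fs_zero, sn_zero, add_zero]
lemma df_zero : df 0 = 0 := by rw [df, fs_zero, sn_zero, sub_zero]

/-- kept sign -/
def ke (s : A) : A := (1 / 2 : ℂ) • (s + dmp s)
/-- changed sign -/
def ch (s : A) : A := (1 / 2 : ℂ) • (s - dmp s)

lemma ke_add_ch (s : A) : ke s + ch s = s := by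
  rw [ke, ch, ← smul_add]
  have : s + dmp s + (s - dmp s) = (2 : ℂ) • s := by rw [two_smul]; abel
  rw [this, smul_smul]
  norm_num

lemma ke_sub_ch (s : A) : ke s - ch s = dmp s := by
  rw [ke, ch, ← smul_sub]
  have : s + dmp s - (s - dmp s) = (2 : ℂ) • dmp s := by rw [two_smul]; abel
  rw [this, smul_smul]
  norm_num

/-- the product -/
instance : Mul A2 := ⟨fun a b => pt (fs a * ke (sm b) + sn a * ch (sm b))
  (fs a * ch (sm b) + sn a * ke (sm b))⟩

lemma fs_mul (a b : A2) : fs (a * b) = fs a * ke (sm b) + sn a * ch (sm b) := rfl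
lemma sn_mul (a b : A2) : sn (a * b) = fs a * ch (sm b) + sn a * ke (sm b) := rfl

lemma sm_mul (a b : A2) : sm (a * b) = sm a * sm b := by
  rw [sm, fs_mul, sn_mul]
  have : fs a * ke (sm b) + sn a * ch (sm b) + (fs a * ch (sm b) + sn a * ke (sm b)) =
      (fs a + sn a) * (ke (sm b) + ch (sm b)) := by
    rw [add_mul, mul_add, mul_add]; abel
  rw [this, ke_add_ch]
  rfl

lemma df_mul (a b : A2) : df (a * b) = df a * dmp (sm b) := by
  rw [df, fs_mul, sn_mul]
  have : fs a * ke (sm b) + sn a * ch (sm b) - (fs a * ch (sm b) + sn a * ke (sm b)) =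
      (fs a - sn a) * (ke (sm b) - ch (sm b)) := by
    rw [sub_mul, mul_sub, mul_sub]; abel
  rw [this, ke_sub_ch]
  rfl

lemma norm_mul_le2 (a b : A2) : ‖a * b‖ ≤ ‖a‖ * ‖b‖ := by
  rw [norm2, norm2 a, norm2 b, fs_mul, sn_mul]
  have h1 : ‖fs a * ke (sm b) + sn a * ch (sm b)‖ ≤ ‖fs a‖ * ‖ke (sm b)‖ + ‖sn a‖ * ‖ch (sm b)‖ :=
    (norm_add_le _ _).trans (add_le_add (norm_mul_le _ _) (norm_mul_le _ _))
  have h2 : ‖fs a * ch (sm b) + sn a * ke (sm b)‖ ≤ ‖fs a‖ * ‖ch (sm b)‖ + ‖sn a‖ * ‖ke (sm b)‖ :=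
    (norm_add_le _ _).trans (add_le_add (norm_mul_le _ _) (norm_mul_le _ _))
  have h3 : ‖ke (sm b)‖ + ‖ch (sm b)‖ ≤ ‖sm b‖ := split_norm (sm b)
  have h4 : ‖sm b‖ ≤ ‖fs b‖ + ‖sn b‖ := norm_add_le _ _
  have h5 := norm_nonneg (fs a)
  have h6 := norm_nonneg (sn a)
  nlinarith [mul_le_mul_of_nonneg_left (h3.trans h4) (add_nonneg h5 h6)]

instance : NonUnitalNormedRing A2 :=
  { (inferInstance : NormedAddCommGroup A2) with
    mul := (· * ·)
    left_distrib := fun a b c => ext3 (by rw [sm_mul, sm_add, sm_add, sm_mul, sm_mul, mul_add])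
      (by rw [df_mul, df_add, sm_add, df_mul, df_mul, map_add, mul_add])
    right_distrib := fun a b c => ext3 (by rw [sm_mul, sm_add, sm_add, sm_mul, sm_mul, add_mul])
      (by rw [df_mul, df_add, df_add, df_mul, df_mul, add_mul])
    zero_mul := fun a => ext3 (by rw [sm_mul, sm_zero, zero_mul])
      (by rw [df_mul, df_zero, zero_mul])
    mul_zero := fun a => ext3 (by rw [sm_mul, sm_zero, mul_zero])
      (by rw [df_mul, sm_zero, df_zero, map_zero, mul_zero])
    mul_assoc := fun a b c => ext3 (by rw [sm_mul, sm_mul, sm_mul, sm_mul, mul_assoc])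
      (by rw [df_mul, df_mul, df_mul, sm_mul, dmp_mul, mul_assoc])
    norm_mul_le := norm_mul_le2 }

instance : IsScalarTower ℂ A2 A2 := ⟨fun c a b => ext3
  (by rw [smul_eq_mul, smul_eq_mul, sm_mul, sm_smul, sm_smul, sm_mul, smul_mul_assoc])
  (by rw [smul_eq_mul, smul_eq_mul, df_mul, df_smul, df_smul, df_mul, smul_mul_assoc])⟩

instance : SMulCommClass ℂ A2 A2 := ⟨fun c a b => ext3
  (by rw [smul_eq_mul, smul_eq_mul, sm_mul, sm_smul, sm_smul, sm_mul, mul_smul_comm])
  (by rw [smul_eq_mul, smul_eq_mul, df_mul, df_smul, sm_smul, df_mul, map_smul,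
    mul_smul_comm])⟩

/-! ### the dual -/

/-- the `+` part, as a continuous linear map -/
def fsL : A2 →L[ℂ] A :=
  LinearMap.mkContinuous
    { toFun := fs
      map_add' := fs_add
      map_smul' := fs_smul } 1 (fun a => by
        rw [one_mul, norm2]
        show ‖fs a‖ ≤ _
        linarith [norm_nonneg (sn a)])

/-- the `-` part, as a continuous linear map -/
def snL : A2 →L[ℂ] A :=
  LinearMap.mkContinuous
    { toFun := sn
      map_add' := sn_add
      map_smul' := sn_smul } 1 (fun a => by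
        rw [one_mul, norm2]
        show ‖sn a‖ ≤ _
        linarith [norm_nonneg (fs a)])

/-- inclusion of the `+` part -/
def inl : A →L[ℂ] A2 :=
  LinearMap.mkContinuous
    { toFun := fun p => pt p 0
      map_add' := fun p q => ext2 rfl (by rw [sn_pt, sn_add, sn_pt, sn_pt, add_zero])
      map_smul' := fun c p => ext2 rfl (by
        rw [sn_pt, RingHom.id_apply, sn_smul, sn_pt, smul_zero]) } 1 (fun p => by
        rw [one_mul, norm2]
        show ‖p‖ + ‖(0 : A)‖ ≤ _
        rw [norm_zero, add_zero])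

/-- inclusion of the `-` part -/
def inr : A →L[ℂ] A2 :=
  LinearMap.mkContinuous
    { toFun := fun p => pt 0 p
      map_add' := fun p q => ext2 (by rw [fs_pt, fs_add, fs_pt, fs_pt, add_zero]) rfl
      map_smul' := fun c p => ext2 (by
        rw [fs_pt, RingHom.id_apply, fs_smul, fs_pt, smul_zero]) rfl } 1 (fun p => by
        rw [one_mul, norm2]
        show ‖(0 : A)‖ + ‖p‖ ≤ _
        rw [norm_zero, zero_add])

lemma inl_apply (p : A) : inl p = pt p 0 := rfl
lemma inr_apply (p : A) : inr p = pt 0 p := rfl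
lemma fsL_apply (a : A2) : fsL a = fs a := rfl
lemma snL_apply (a : A2) : snL a = sn a := rfl
lemma inl_norm (p : A) : ‖inl p‖ = ‖p‖ := by
  rw [inl_apply, norm2, fs_pt, sn_pt, norm_zero, add_zero]
lemma inr_norm (p : A) : ‖inr p‖ = ‖p‖ := by
  rw [inr_apply, norm2, fs_pt, sn_pt, norm_zero, zero_add]

lemma decomp (a : A2) : a = inl (fs a) + inr (sn a) := by
  apply ext2
  · rw [fs_add, inl_apply, inr_apply, fs_pt, fs_pt, add_zero]
  · rw [sn_add, inl_apply, inr_apply, sn_pt, sn_pt, zero_add]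

/-- the pairing -/
def pair2 (x : M × M) : StrongDual ℂ A2 := (Phi x.1).comp fsL + (Phi x.2).comp snL

lemma pair2_apply (x : M × M) (a : A2) : pair2 x a = Phi x.1 (fs a) + Phi x.2 (sn a) := rfl

lemma pair2_norm (x : M × M) : ‖pair2 x‖ = ‖x‖ := by
  apply le_antisymm
  · refine ContinuousLinearMap.opNorm_le_bound _ (norm_nonneg _) fun a => ?_
    rw [pair2_apply, norm2]
    have h1 : ‖Phi x.1 (fs a)‖ ≤ ‖x‖ * ‖fs a‖ := by
      refine ((Phi x.1).le_opNorm _).trans ?_
      rw [LinearIsometryEquiv.norm_map]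
      exact mul_le_mul_of_nonneg_right (norm_fst_le x) (norm_nonneg _)
    have h2 : ‖Phi x.2 (sn a)‖ ≤ ‖x‖ * ‖sn a‖ := by
      refine ((Phi x.2).le_opNorm _).trans ?_
      rw [LinearIsometryEquiv.norm_map]
      exact mul_le_mul_of_nonneg_right (norm_snd_le x) (norm_nonneg _)
    refine (norm_add_le _ _).trans ?_
    rw [mul_add]
    exact add_le_add h1 h2
  · rw [Prod.norm_def]
    refine max_le ?_ ?_
    · rw [← LinearIsometryEquiv.norm_map Phi x.1]
      refine ContinuousLinearMap.opNorm_le_bound _ (norm_nonneg _) fun p => ?_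
      have h := (pair2 x).le_opNorm (inl p)
      rw [inl_norm, pair2_apply, inl_apply, fs_pt, sn_pt, map_zero, add_zero] at h
      exact h
    · rw [← LinearIsometryEquiv.norm_map Phi x.2]
      refine ContinuousLinearMap.opNorm_le_bound _ (norm_nonneg _) fun p => ?_
      have h := (pair2 x).le_opNorm (inr p)
      rw [inr_norm, pair2_apply, inr_apply, fs_pt, sn_pt, map_zero, zero_add] at h
      exact h

/-- `ℓ^∞ ⊕ ℓ^∞` is the dual of `A2` -/
def Phi2 : (M × M) ≃ₗᵢ[ℂ] StrongDual ℂ A2 :=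
  LinearIsometryEquiv.ofSurjective
    { toFun := pair2
      map_add' := fun x y => by
        ext a
        rw [add_apply, pair2_apply, pair2_apply, pair2_apply, Prod.fst_add, Prod.snd_add,
          map_add, map_add, add_apply, add_apply]
        ring
      map_smul' := fun c x => by
        ext a
        rw [RingHom.id_apply, smul_apply, pair2_apply, pair2_apply, Prod.smul_fst, Prod.smul_snd,
          map_smul, map_smul, smul_apply, smul_apply, smul_add]
      norm_map' := pair2_norm }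
    (by
      intro g
      refine ⟨(Phi.symm (g.comp inl), Phi.symm (g.comp inr)), ?_⟩
      ext a
      show Phi (Phi.symm (g.comp inl)) (fs a) + Phi (Phi.symm (g.comp inr)) (sn a) = g a
      rw [LinearIsometryEquiv.apply_symm_apply, LinearIsometryEquiv.apply_symm_apply]
      show g (inl (fs a)) + g (inr (sn a)) = g a
      rw [← map_add, ← decomp])

lemma Phi2_apply (x : M × M) (a : A2) : Phi2 x a = Phi x.1 (fs a) + Phi x.2 (sn a) := rfl

lemma Phi2_one (a : A2) : Phi2 1 a = Phi 1 (sm a) := by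
  rw [Phi2_apply, sm, map_add]
  rfl

theorem isF2 : IsFAlgebra Phi2 where
  nonzero := by
    intro h
    have h1 := Phi2_one (inl (de 0))
    rw [h, zero_apply, sm, inl_apply, fs_pt, sn_pt, add_zero, one_de] at h1
    exact zero_ne_one h1
  mul a b := by rw [Phi2_one, Phi2_one, Phi2_one, sm_mul, isF.mul]

end Pool.Agent.Q86.FAlg
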