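import Mathlib

/-!
# Semitopological semigroups, weakly almost periodic functions, left invariant means and the
fixed point property (F)
-/

set_option autoImplicit false

open Filter Topology Set
open scoped BoundedContinuousFunction

namespace Pool.Agent.Q86.FixD

universe u v w

section wap

variable {S : Type*} [Semigroup S] [TopologicalSpace S] [SeparatelyContinuousMul S]

/-- The left translate `ℓ_a f`, where `ℓ_a f (t) = f (a t)`. -/
noncomputable def lt (a : S) (f : S →ᵇ ℝ) : S →ᵇ ℝ :=
  f.compContinuous ⟨fun t => a * t, continuous_const_mul a⟩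

/-- `f` is weakly almost periodic: its orbit under left translations is relatively weakly compact
in the Banach space of bounded continuous functions. -/
def IsWAP (f : S →ᵇ ℝ) : Prop :=
  IsCompact (closure (toWeakSpace ℝ (S →ᵇ ℝ) '' range fun a : S => lt a f))

/-- `m` is (on the space of weakly almost periodic functions) a left invariant mean. -/
structure IsLIM (m : (S →ᵇ ℝ) → ℝ) : Prop where
  add : ∀ f g, IsWAP f → IsWAP g → m (f + g) = m f + m g
  smul : ∀ (c : ℝ) f, IsWAP f → m (c • f) = c * m f
  nonneg : ∀ f, IsWAP f → (∀ t, 0 ≤ f t) → 0 ≤ m f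
  one : m 1 = 1
  inv : ∀ a f, IsWAP f → m (lt a f) = m f

end wap

section rep

variable {S : Type u} [Semigroup S] [TopologicalSpace S]

/-- A weakly separately continuous, weakly quasi-equicontinuous and `Q`-nonexpansive representation
of `S` on a subset `C` of the locally convex space `E`, whose topology is given by the family `Q` of
seminorms; `C` carries the weak topology. -/
structure IsRep {E : Type v} [AddCommGroup E] [Module ℝ E] [TopologicalSpace E] {ι : Type w}
    (Q : SeminormFamily ℝ E ι) (C : Set (WeakSpace ℝ E)) (T : S → C → C) : Prop where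
  mul : ∀ s t x, T (s * t) x = T s (T t x)
  cont : ∀ s, Continuous (T s)
  cont_left : ∀ x, Continuous fun s => T s x
  quasi : ∀ f ∈ closure (range T), Continuous f
  nonexp : ∀ i s (x y : C), Q i ((toWeakSpace ℝ E).symm (T s x - T s y)) ≤
    Q i ((toWeakSpace ℝ E).symm (x - y))

/-- Property (F): every weakly separately continuous, weakly quasi-equicontinuous,
`Q`-nonexpansive representation of `S` on a nonempty weakly compact convex subset of a Hausdorff
locally convex space `(E, Q)` has a common fixed point. -/
def PropF (S : Type u) [Semigroup S] [TopologicalSpace S] : Prop :=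
  ∀ (E : Type v) [AddCommGroup E] [Module ℝ E] [TopologicalSpace E] [IsTopologicalAddGroup E]
    [ContinuousSMul ℝ E] [T2Space E] (ι : Type w) (Q : SeminormFamily ℝ E ι),
    WithSeminorms Q → ∀ C : Set (WeakSpace ℝ E), C.Nonempty → IsCompact C → Convex ℝ C →
      ∀ T : S → C → C, IsRep Q C T → ∃ x : C, ∀ s, T s x = x

end rep

end Pool.Agent.Q86.FixD
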