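import Mathlib

/-!
# Separately continuous functions on products of compact spaces

Grothendieck's lemma in a sequential form: if `φ : A → K → ℝ` is separately continuous on a product
of compact spaces and `a₀` is in the closure of `S ⊆ A`, then some sequence in `S` converges to `a₀`
pointwise on `K`. Consequently `a ↦ φ a` is continuous into `L¹(μ)`.
-/

set_option autoImplicit false

open MeasureTheory Filter Topology Set

namespace Pool.Agent.Q86.FixG

section seq

variable {A K : Type*} [TopologicalSpace A] [TopologicalSpace K] [CompactSpace A] [CompactSpace K]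

/-- finite nets -/
lemma exists_net {φ : A → K → ℝ} (hK : ∀ a, Continuous (φ a)) (F : Finset A) {ε : ℝ} (hε : 0 < ε) :
    ∃ N : Finset K, ∀ z : K, ∃ x ∈ N, ∀ a ∈ F, |φ a z - φ a x| < ε := by
  classical
  have h := isCompact_univ.elim_nhds_subcover (X := K)
    (fun x => {z | ∀ a ∈ F, |φ a z - φ a x| < ε}) (by
      intro x _
      have : {z | ∀ a ∈ F, |φ a z - φ a x| < ε} = ⋂ a ∈ F, {z | |φ a z - φ a x| < ε} := by
        ext z; simp
      rw [this]
      refine (Filter.biInter_finset_mem F).2 fun a _ => ?_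
      have h1 : Continuous fun z => |φ a z - φ a x| := ((hK a).sub continuous_const).abs
      have h2 : IsOpen {z | |φ a z - φ a x| < ε} := isOpen_lt h1 continuous_const
      exact h2.mem_nhds (by simpa using hε))
  obtain ⟨t, -, ht⟩ := h
  refine ⟨t, fun z => ?_⟩
  have := ht (mem_univ z)
  simp only [mem_iUnion, exists_prop] at this
  obtain ⟨x, hx, hz⟩ := this
  exact ⟨x, hx, hz⟩

lemma exists_near {φ : A → K → ℝ} (hA : ∀ x, Continuous fun a => φ a x) {S : Set A} {a₀ : A}
    (h0 : a₀ ∈ closure S) (Q : Finset K) {ε : ℝ} (hε : 0 < ε) :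
    ∃ a ∈ S, ∀ x ∈ Q, |φ a x - φ a₀ x| < ε := by
  have h1 : {a | ∀ x ∈ Q, |φ a x - φ a₀ x| < ε} ∈ 𝓝 a₀ := by
    have : {a | ∀ x ∈ Q, |φ a x - φ a₀ x| < ε} = ⋂ x ∈ Q, {a | |φ a x - φ a₀ x| < ε} := by
      ext z; simp
    rw [this]
    refine (Filter.biInter_finset_mem Q).2 fun x _ => ?_
    have h1 : Continuous fun a => |φ a x - φ a₀ x| := ((hA x).sub continuous_const).abs
    have h2 : IsOpen {a | |φ a x - φ a₀ x| < ε} := isOpen_lt h1 continuous_const
    exact h2.mem_nhds (by simpa using hε)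
  obtain ⟨a, ha1, ha2⟩ := mem_closure_iff_nhds.1 h0 _ h1
  exact ⟨a, ha2, ha1⟩

/-- **Grothendieck's lemma**, sequential form. -/
theorem exists_seq {φ : A → K → ℝ} (hK : ∀ a, Continuous (φ a)) (hA : ∀ x, Continuous fun a => φ a x)
    {S : Set A} {a₀ : A} (h0 : a₀ ∈ closure S) :
    ∃ a : ℕ → A, (∀ n, a n ∈ S) ∧ ∀ z, Tendsto (fun n => φ (a n) z) atTop (𝓝 (φ a₀ z)) := by
  classical
  have hpos : ∀ n : ℕ, (0 : ℝ) < 1 / ((n : ℝ) + 1) := fun n => by positivity
  choose σ hσS hσ using fun (Q : Finset K) (n : ℕ) => exists_near hA h0 Q (hpos n)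
  choose N hN using fun (F : Finset A) (n : ℕ) => exists_net hK F (hpos n)
  let step : ℕ → Finset A × Finset K → Finset A × Finset K := fun n P =>
    (insert (σ P.2 n) P.1, P.2 ∪ N (insert (σ P.2 n) P.1) (n + 1))
  let P : ℕ → Finset A × Finset K := fun n => Nat.rec ({a₀}, N {a₀} 0) step n
  have hP : ∀ n, P (n + 1) = step n (P n) := fun n => rfl
  have hFmono : Monotone fun n => (P n).1 := by
    apply monotone_nat_of_le_succ
    intro n
    rw [hP]
    exact Finset.subset_insert _ _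
  have hQmono : Monotone fun n => (P n).2 := by
    apply monotone_nat_of_le_succ
    intro n
    rw [hP]
    exact Finset.subset_union_left
  have hnet : ∀ n, ∀ z : K, ∃ x ∈ (P n).2, ∀ a ∈ (P n).1, |φ a z - φ a x| < 1 / ((n : ℝ) + 1) := by
    intro n z
    rcases n with _ | n
    · exact hN {a₀} 0 z
    · obtain ⟨x, hx, h⟩ := hN (P (n + 1)).1 (n + 1) z
      exact ⟨x, Finset.mem_union_right _ hx, h⟩
  have h00 : ∀ n, a₀ ∈ (P n).1 := fun n => hFmono (Nat.zero_le n) (Finset.mem_singleton_self a₀)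
  refine ⟨fun n => σ (P n).2 n, fun n => hσS _ _, fun z => ?_⟩
  rw [tendsto_iff_ultrafilter]
  intro 𝒰 h𝒰
  obtain ⟨b, -, hb⟩ := isCompact_univ.ultrafilter_le_nhds (𝒰.map fun n => σ (P n).2 n) (by simp)
  have hb' : Tendsto (fun n => σ (P n).2 n) 𝒰 (𝓝 b) := hb
  choose x hxQ hx using fun n => hnet n z
  obtain ⟨y, -, hy⟩ := isCompact_univ.ultrafilter_le_nhds (𝒰.map x) (by simp)
  have hy' : Tendsto x 𝒰 (𝓝 y) := hy
  have hinv : Tendsto (fun n : ℕ => 1 / ((n : ℝ) + 1)) atTop (𝓝 0) :=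
    tendsto_one_div_add_atTop_nhds_zero_nat
  -- values at `y` and `z` agree for the members of the sets
  have key : ∀ (m : ℕ) (a : A), a ∈ (P m).1 → φ a y = φ a z := by
    intro m a ha
    have h1 : Tendsto (fun n => φ a (x n)) atTop (𝓝 (φ a z)) := by
      rw [tendsto_iff_dist_tendsto_zero]
      refine squeeze_zero' (Eventually.of_forall fun n => dist_nonneg) ?_ hinv
      filter_upwards [eventually_ge_atTop m] with n hn
      have := hx n a (hFmono hn ha)
      rw [Real.dist_eq, abs_sub_comm]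
      exact this.le
    have h2 : Tendsto (fun n => φ a (x n)) 𝒰 (𝓝 (φ a y)) := ((hK a).tendsto y).comp hy'
    exact tendsto_nhds_unique h2 (h1.mono_left h𝒰)
  have hmem : ∀ n, σ (P n).2 n ∈ (P (n + 1)).1 := fun n => Finset.mem_insert_self _ _
  -- `φ b y = φ b z`
  have hby : φ b y = φ b z := by
    have h1 : Tendsto (fun n => φ (σ (P n).2 n) y) 𝒰 (𝓝 (φ b y)) := ((hA y).tendsto b).comp hb'
    have h2 : Tendsto (fun n => φ (σ (P n).2 n) z) 𝒰 (𝓝 (φ b z)) := ((hA z).tendsto b).comp hb'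
    have h3 : (fun n => φ (σ (P n).2 n) y) = fun n => φ (σ (P n).2 n) z := by
      funext n
      exact key (n + 1) _ (hmem n)
    rw [h3] at h1
    exact tendsto_nhds_unique h1 h2
  have hbx : ∀ n, φ b (x n) = φ a₀ (x n) := by
    intro n
    have h1 : Tendsto (fun k => φ (σ (P k).2 k) (x n)) 𝒰 (𝓝 (φ b (x n))) :=
      ((hA (x n)).tendsto b).comp hb'
    have h2 : Tendsto (fun k => φ (σ (P k).2 k) (x n)) atTop (𝓝 (φ a₀ (x n))) := by
      rw [tendsto_iff_dist_tendsto_zero]
      refine squeeze_zero' (Eventually.of_forall fun n => dist_nonneg) ?_ hinv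
      filter_upwards [eventually_ge_atTop n] with k hk
      rw [Real.dist_eq]
      exact (hσ (P k).2 k (x n) (hQmono hk (hxQ n))).le
    exact tendsto_nhds_unique h1 (h2.mono_left h𝒰)
  have hby0 : φ b y = φ a₀ y := by
    have h1 : Tendsto (fun n => φ b (x n)) 𝒰 (𝓝 (φ b y)) := ((hK b).tendsto y).comp hy'
    have h2 : Tendsto (fun n => φ a₀ (x n)) 𝒰 (𝓝 (φ a₀ y)) := ((hK a₀).tendsto y).comp hy'
    simp_rw [hbx] at h1
    exact tendsto_nhds_unique h1 h2
  have hfin : φ b z = φ a₀ z := by rw [← hby, hby0]; exact key 0 a₀ (h00 0)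
  have h1 : Tendsto (fun n => φ (σ (P n).2 n) z) 𝒰 (𝓝 (φ b z)) := ((hA z).tendsto b).comp hb'
  rwa [hfin] at h1

end seq

section l1

variable {A K : Type*} [TopologicalSpace A] [TopologicalSpace K] [CompactSpace A] [CompactSpace K]
variable [MeasurableSpace K] [BorelSpace K]

/-- continuity into `L¹` -/
theorem eventually_l1 {φ : A → K → ℝ} (hK : ∀ a, Continuous (φ a))
    (hA : ∀ x, Continuous fun a => φ a x) {M : ℝ} (hM : ∀ a x, |φ a x| ≤ M) (μ : Measure K)
    [IsFiniteMeasure μ] (a₀ : A) {ε : ℝ} (hε : 0 < ε) :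
    ∀ᶠ a in 𝓝 a₀, ∫ x, |φ a x - φ a₀ x| ∂μ < ε := by
  by_contra hcon
  rw [not_eventually] at hcon
  have h0 : a₀ ∈ closure {a | ¬ ∫ x, |φ a x - φ a₀ x| ∂μ < ε} := mem_closure_iff_frequently.2 hcon
  obtain ⟨a, haS, ha⟩ := exists_seq hK hA h0
  have hlim : Tendsto (fun n => ∫ x, |φ (a n) x - φ a₀ x| ∂μ) atTop (𝓝 (∫ x : K, (0 : ℝ) ∂μ)) := by
    apply tendsto_integral_of_dominated_convergence (fun _ => 2 * M)
    · intro n
      exact (((hK (a n)).sub (hK a₀)).abs).aestronglyMeasurable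
    · exact integrable_const _
    · intro n
      refine Eventually.of_forall fun x => ?_
      rw [Real.norm_eq_abs, abs_abs]
      have h1 := hM (a n) x
      have h2 := hM a₀ x
      calc |φ (a n) x - φ a₀ x| ≤ |φ (a n) x| + |φ a₀ x| := abs_sub _ _
        _ ≤ 2 * M := by linarith
    · refine Eventually.of_forall fun x => ?_
      have := ((ha x).sub_const (φ a₀ x)).abs
      simpa using this
  rw [integral_zero] at hlim
  obtain ⟨n, hn⟩ := (hlim.eventually (gt_mem_nhds hε)).exists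
  exact haS n hn

end l1

end Pool.Agent.Q86.FixG
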