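import Mathlib

/-!
# Hahn-Banach for one seminorm, and the unit ball of its dual
-/

set_option autoImplicit false

open Filter Topology Set

namespace Pool.Agent.Q86.FixHB

variable {V : Type*} [AddCommGroup V] [Module ℝ V]

/-- the linear functionals dominated by the seminorm `p`, as functions -/
def BB (p : Seminorm ℝ V) : Set (V → ℝ) :=
  {f | (∀ x y, f (x + y) = f x + f y) ∧ (∀ (c : ℝ) x, f (c • x) = c * f x) ∧ ∀ x, f x ≤ p x}

lemma BB_abs {p : Seminorm ℝ V} {f : V → ℝ} (hf : f ∈ BB p) (x : V) : |f x| ≤ p x := by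
  obtain ⟨-, h2, h3⟩ := hf
  rw [abs_le]
  constructor
  · have h := h3 ((-1 : ℝ) • x)
    rw [h2, map_smul_eq_mul] at h
    simp at h
    linarith
  · exact h3 x

lemma BB_sub {p : Seminorm ℝ V} {f : V → ℝ} (hf : f ∈ BB p) (x y : V) : f (x - y) = f x - f y := by
  obtain ⟨h1, h2, -⟩ := hf
  have : x - y = x + (-1 : ℝ) • y := by simp [sub_eq_add_neg]
  rw [this, h1, h2]; ring

lemma BB_closed (p : Seminorm ℝ V) : IsClosed (BB p) := by
  have : BB p = (⋂ x, ⋂ y, {f : V → ℝ | f (x + y) = f x + f y}) ∩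
      ((⋂ c : ℝ, ⋂ x, {f : V → ℝ | f (c • x) = c * f x}) ∩ ⋂ x, {f : V → ℝ | f x ≤ p x}) := by
    ext f; simp [BB]
  rw [this]
  refine IsClosed.inter ?_ (IsClosed.inter ?_ ?_)
  · exact isClosed_iInter fun x => isClosed_iInter fun y =>
      isClosed_eq (by fun_prop) (by fun_prop)
  · exact isClosed_iInter fun c => isClosed_iInter fun y =>
      isClosed_eq (by fun_prop) (by fun_prop)
  · exact isClosed_iInter fun x => isClosed_le (continuous_apply _) continuous_const

lemma BB_compact (p : Seminorm ℝ V) : IsCompact (BB p) := by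
  have h : IsCompact (Set.pi univ fun x : V => Icc (-(p x)) (p x)) :=
    isCompact_univ_pi fun x => isCompact_Icc
  refine h.of_isClosed_subset (BB_closed p) ?_
  intro f hf x _
  exact abs_le.1 (BB_abs hf x)

/-- Hahn-Banach relative to a subspace. -/
theorem exists_vanish (p : Seminorm ℝ V) (W : Submodule ℝ V) (z : V) {δ : ℝ} (hδ : 0 < δ)
    (h : ∀ w ∈ W, δ ≤ p (z - w)) : ∃ f ∈ BB p, (∀ w ∈ W, f w = 0) ∧ f z = δ := by
  have hz : z ∉ W := by
    intro hz
    have := h z hz
    rw [sub_self, map_zero] at this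
    linarith
  let f₀ : V →ₗ.[ℝ] ℝ := ⟨W, 0⟩
  have hz' : z ∉ f₀.domain := hz
  obtain ⟨g, hg, hgp⟩ := exists_extension_of_le_sublinear (f₀.supSpanSingleton z δ hz') p
    (by intro c hc x; rw [map_smul_eq_mul, Real.norm_of_nonneg hc.le])
    (fun x y => map_add_le_add p x y) (by
      rintro ⟨x, hx⟩
      rw [LinearPMap.domain_supSpanSingleton, Submodule.mem_sup] at hx
      obtain ⟨w, hw, w', hw', rfl⟩ := hx
      obtain ⟨c, rfl⟩ := Submodule.mem_span_singleton.1 hw'
      have h1 := LinearPMap.supSpanSingleton_apply_mk f₀ z δ hz' w hw c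
      simp only [RingHom.id_apply] at h1
      rw [h1]
      have h2 : f₀ ⟨w, hw⟩ = 0 := rfl
      rw [h2, zero_add]
      show c • δ ≤ p (w + c • z)
      rw [smul_eq_mul]
      rcases eq_or_ne c 0 with rfl | hc
      · simp
      · have h3 : w + c • z = c • (z - (-c⁻¹) • w) := by
          rw [smul_sub, smul_smul]
          have : c * -c⁻¹ = -1 := by field_simp
          rw [this, neg_one_smul, sub_neg_eq_add, add_comm]
        rw [h3, map_smul_eq_mul, Real.norm_eq_abs]
        have h4 := h ((-c⁻¹) • w) (W.smul_mem _ hw)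
        calc c * δ ≤ |c| * δ := by gcongr; exact le_abs_self c
          _ ≤ |c| * p (z - (-c⁻¹) • w) := by gcongr)
  refine ⟨g, ⟨fun x y => map_add g x y, fun c x => by simp, hgp⟩, ?_, ?_⟩
  · intro w hw
    have h1 := hg ⟨w, by
      rw [LinearPMap.domain_supSpanSingleton]; exact Submodule.mem_sup_left hw⟩
    rw [h1]
    have h2 := LinearPMap.supSpanSingleton_apply_mk f₀ z δ hz' w hw 0
    simp only [RingHom.id_apply, zero_smul, add_zero] at h2
    rw [h2]; rfl
  · have h1 := hg ⟨z, by
      rw [LinearPMap.domain_supSpanSingleton]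
      exact Submodule.mem_sup_right (Submodule.mem_span_singleton_self z)⟩
    rw [h1]
    exact LinearPMap.supSpanSingleton_apply_self f₀ δ hz'

/-- norming functionals -/
theorem exists_norming (p : Seminorm ℝ V) (z : V) : ∃ f ∈ BB p, f z = p z := by
  rcases (apply_nonneg p z).eq_or_lt with h | h
  · refine ⟨0, ⟨fun x y => by simp, fun c x => by simp, fun x => ?_⟩, by simpa using h⟩
    simp
  · obtain ⟨f, hf, -, h2⟩ := exists_vanish p ⊥ z h (by
      intro w hw
      rw [Submodule.mem_bot] at hw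
      rw [hw, sub_zero])
    exact ⟨f, hf, h2⟩

end Pool.Agent.Q86.FixHB
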