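import Pool.Agent.Q86.FixW

/-!
# The invariant measure of a minimal action
-/

set_option autoImplicit false
set_option linter.unusedSectionVars false
set_option linter.style.haveILetI false

open MeasureTheory Filter Topology Set
open scoped BoundedContinuousFunction NNReal ENNReal CompactlySupported

namespace Pool.Agent.Q86.FixM

open Pool.Agent.Q86.FixG Pool.Agent.Q86.FixD Pool.Agent.Q86.FixW

variable {S K : Type*} [Semigroup S] [TopologicalSpace S] [SeparatelyContinuousMul S]
variable [TopologicalSpace K] [CompactSpace K] [T2Space K] {T : S → K → K}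

/-- the invariant probability measure obtained from a left invariant mean -/
theorem exists_measure [MeasurableSpace K] [BorelSpace K] (hT : Act T) {m : (S →ᵇ ℝ) → ℝ}
    (hm : IsLIM m) (y : K) :
    ∃ μ : Measure K, IsProbabilityMeasure μ ∧ μ.Regular ∧
      ∀ (t : S) (F : C(K, ℝ)), ∫ x, F (T t x) ∂μ = ∫ x, F x ∂μ := by
  let Λ₀ : C_c(K, ℝ) →ₗ[ℝ] ℝ :=
    { toFun := fun F => m (gg hT F y)
      map_add' := by
        intro F G
        have h : gg hT ((F + G : C_c(K, ℝ)) : C(K, ℝ)) y = gg hT (F : C(K, ℝ)) y + gg hT (G : C(K, ℝ)) y := rfl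
        show m (gg hT ((F + G : C_c(K, ℝ)) : C(K, ℝ)) y) = _
        rw [h, hm.add _ _ (gg_wap hT _ y) (gg_wap hT _ y)]
      map_smul' := by
        intro c F
        have h : gg hT ((c • F : C_c(K, ℝ)) : C(K, ℝ)) y = c • gg hT (F : C(K, ℝ)) y := rfl
        show m (gg hT ((c • F : C_c(K, ℝ)) : C(K, ℝ)) y) = _
        rw [h, hm.smul _ _ (gg_wap hT _ y)]
        rfl }
  let Λ : C_c(K, ℝ) →ₚ[ℝ] ℝ := PositiveLinearMap.mk₀ Λ₀ (by
    intro F hF
    exact hm.nonneg _ (gg_wap hT _ y) (fun s => hF (T s y)))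
  have hΛ : ∀ F : C_c(K, ℝ), Λ F = m (gg hT F y) := fun F => rfl
  have hint : ∀ F : C(K, ℝ), ∫ x, F x ∂(RealRMK.rieszMeasure Λ) = m (gg hT F y) := by
    intro F
    have h := RealRMK.integral_rieszMeasure Λ ⟨F, HasCompactSupport.of_compactSpace _⟩
    rw [hΛ] at h
    exact h
  have hreg : (RealRMK.rieszMeasure Λ).Regular := inferInstance
  have hfin : IsFiniteMeasure (RealRMK.rieszMeasure Λ) := ⟨isCompact_univ.measure_lt_top⟩
  refine ⟨RealRMK.rieszMeasure Λ, ?_, hreg, ?_⟩
  · constructor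
    have h1 := hint 1
    have h2 : gg hT (1 : C(K, ℝ)) y = 1 := rfl
    rw [h2, hm.one] at h1
    simp only [ContinuousMap.one_apply, integral_const, smul_eq_mul, mul_one] at h1
    have h3 := ENNReal.ofReal_toReal (measure_ne_top (RealRMK.rieszMeasure Λ) univ)
    rw [← h3]
    rw [Measure.real] at h1
    rw [h1, ENNReal.ofReal_one]
  · intro t F
    have h1 := hint (F.comp ⟨T t, hT.cont t⟩)
    have h2 : gg hT (F.comp ⟨T t, hT.cont t⟩) y = lt t (gg hT F y) := by
      ext s
      show F (T t (T s y)) = F (T (t * s) y)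
      rw [hT.mul]
    rw [h2, hm.inv _ _ (gg_wap hT _ y), ← hint F] at h1
    exact h1

end Pool.Agent.Q86.FixM
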