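import Pool.Agent.Q86.FixS

/-!
# The fixed point theorem
-/

set_option autoImplicit false
set_option linter.unusedSectionVars false
set_option linter.style.haveILetI false

open MeasureTheory Filter Topology Set
open scoped NNReal ENNReal BoundedContinuousFunction

namespace Pool.Agent.Q86.FixMain

open Pool.Agent.Q86.FixG Pool.Agent.Q86.FixN Pool.Agent.Q86.FixHB Pool.Agent.Q86.FixS
open Pool.Agent.Q86.FixD Pool.Agent.Q86.FixW Pool.Agent.Q86.FixM

/-- minimal closed sets with a property that passes to intersections of chains -/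
lemma exists_min {C : Type*} [TopologicalSpace C] [CompactSpace C] (P : Set C → Prop) {X₀ : Set C}
    (h0 : P X₀) (hc : ∀ X, P X → IsClosed X ∧ X.Nonempty)
    (hi : ∀ c : Set (Set C), c.Nonempty → (∀ X ∈ c, P X) → (⋂₀ c).Nonempty → P (⋂₀ c)) :
    ∃ X ⊆ X₀, P X ∧ ∀ Y ⊆ X, P Y → Y = X := by
  obtain ⟨X, hX⟩ := zorn_superset {X | P X ∧ X ⊆ X₀} (by
    intro c hcs hch
    rcases c.eq_empty_or_nonempty with rfl | hne
    · exact ⟨X₀, ⟨h0, Subset.rfl⟩, fun s hs => absurd hs (notMem_empty s)⟩
    · have h1 : (⋂₀ c).Nonempty := by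
        haveI : Nonempty c := hne.to_subtype
        have hdir : DirectedOn (· ⊇ ·) c := by
          intro a ha b hb
          rcases hch.total ha hb with h2 | h2
          · exact ⟨a, ha, Subset.rfl, h2⟩
          · exact ⟨b, hb, h2, Subset.rfl⟩
        exact IsCompact.nonempty_sInter_of_directed_nonempty_isCompact_isClosed hdir
          (fun s hs => (hc s (hcs hs).1).2) (fun s hs => (hc s (hcs hs).1).1.isCompact)
          (fun s hs => (hc s (hcs hs).1).1)
      refine ⟨⋂₀ c, ⟨hi c hne (fun X hX => (hcs hX).1) h1, ?_⟩, fun s hs => sInter_subset_of_mem hs⟩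
      obtain ⟨s, hs⟩ := hne
      exact (sInter_subset_of_mem hs).trans (hcs hs).2)
  refine ⟨X, hX.prop.2, hX.prop.1, fun Y hYX hY => ?_⟩
  exact Subset.antisymm hYX (hX.le_of_le ⟨hY, hYX.trans hX.prop.2⟩ hYX)

section restrict

variable {S K : Type*} [Semigroup S] [TopologicalSpace S] [TopologicalSpace K] [CompactSpace K]
  [T2Space K] {T : S → K → K}

lemma Act_restrict (hT : Act T) (Y : Set K) (hY : ∀ s, MapsTo (T s) Y Y) :
    Act (fun s => (hY s).restrict) := by
  refine ⟨?_, ?_, ?_, ?_⟩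
  · intro s t x
    apply Subtype.ext
    exact hT.mul s t x
  · intro s
    exact (hT.cont s).restrict (hY s)
  · intro x
    exact (hT.cont_left x).subtype_mk _
  · intro f hf
    let r : (K → K) → (Y → K) := fun σ y => σ y
    have hr : Continuous r := continuous_pi fun y => continuous_apply _
    have hcl : IsClosed (r '' closure (range T)) := (isClosed_closure.isCompact.image hr).isClosed
    let j : (Y → Y) → (Y → K) := fun g y => g y
    have hj : Continuous j := continuous_pi fun y => continuous_subtype_val.comp (continuous_apply y)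
    have h1 : j f ∈ closure (j '' range fun s => (hY s).restrict) :=
      image_closure_subset_closure_image hj ⟨f, hf, rfl⟩
    have h2 : closure (j '' range fun s => (hY s).restrict) ⊆ r '' closure (range T) := by
      refine closure_minimal ?_ hcl
      rintro _ ⟨_, ⟨s, rfl⟩, rfl⟩
      exact ⟨T s, subset_closure ⟨s, rfl⟩, rfl⟩
    obtain ⟨σ, hσ, hσf⟩ := h2 h1
    have h3 : Continuous fun y : Y => (f y : K) := by
      have h4 : (fun y : Y => (f y : K)) = fun y : Y => σ y := hσf.symm
      rw [h4]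
      exact (hT.quasi σ hσ).comp continuous_subtype_val
    exact continuous_induced_rng.2 h3

end restrict

section main

universe v w

variable {S : Type*} [Semigroup S] [TopologicalSpace S] [SeparatelyContinuousMul S]
variable {V : Type*} [AddCommGroup V] [Module ℝ V] [TopologicalSpace V] [T2Space V]

/-- the fixed point theorem in terms of one topology and a family of seminorms -/
theorem fixed {m : (S →ᵇ ℝ) → ℝ} (hm : IsLIM m) {ι : Type*} (p : ι → Seminorm ℝ V)
    (hp : ∀ i, ∀ f ∈ BB (p i), Continuous f) (hsep : ∀ x : V, (∀ i, p i x = 0) → x = 0)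
    {C : Set V} (hCn : C.Nonempty) (hC : IsCompact C) (hconv : Convex ℝ C) {T : S → C → C}
    (hT : Act T) (hne : ∀ i s (x y : C), p i ((T s x : V) - T s y) ≤ p i ((x : V) - y)) :
    ∃ x : C, ∀ s, T s x = x := by
  classical
  haveI : CompactSpace C := isCompact_iff_compactSpace.1 hC
  -- minimal convex set
  let P : Set C → Prop := fun X => IsClosed X ∧ X.Nonempty ∧ (∀ s, MapsTo (T s) X X) ∧
    Convex ℝ (Subtype.val '' X : Set V)
  obtain ⟨X, -, hPX, hXmin⟩ := exists_min P (X₀ := univ) ⟨isClosed_univ, by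
      obtain ⟨x, hx⟩ := hCn; exact ⟨⟨x, hx⟩, trivial⟩, fun s => mapsTo_univ _ _, by
      rw [image_univ, Subtype.range_coe]; exact hconv⟩ (fun X hX => ⟨hX.1, hX.2.1⟩) (by
    intro c hc hcP hne
    refine ⟨isClosed_sInter fun X hX => (hcP X hX).1, hne, ?_, ?_⟩
    · intro s x hx X hX
      exact (hcP X hX).2.2.1 s (hx X hX)
    · have : (Subtype.val '' ⋂₀ c : Set V) = ⋂ X ∈ c, (Subtype.val '' X : Set V) := by
        ext x
        simp only [mem_image, mem_sInter, mem_iInter]
        constructor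
        · rintro ⟨y, hy, rfl⟩ X hX
          exact ⟨y, hy X hX, rfl⟩
        · intro h
          obtain ⟨X, hX⟩ := hc
          obtain ⟨y, hy, rfl⟩ := h X hX
          refine ⟨y, fun X' hX' => ?_, rfl⟩
          obtain ⟨y', hy', h2⟩ := h X' hX'
          rwa [← Subtype.ext h2]
      rw [this]
      exact convex_iInter₂ fun X hX => (hcP X hX).2.2.2)
  -- minimal invariant set
  let P' : Set C → Prop := fun X => IsClosed X ∧ X.Nonempty ∧ ∀ s, MapsTo (T s) X X
  obtain ⟨Y, hYX, hPY, hYmin⟩ := exists_min P' (X₀ := X) ⟨hPX.1, hPX.2.1, hPX.2.2.1⟩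
    (fun X hX => ⟨hX.1, hX.2.1⟩) (by
    intro c hc hcP hne
    refine ⟨isClosed_sInter fun X hX => (hcP X hX).1, hne, ?_⟩
    intro s x hx X hX
    exact (hcP X hX).2.2 s (hx X hX))
  obtain ⟨hYc, hYn, hYi⟩ := hPY
  haveI : CompactSpace Y := isCompact_iff_compactSpace.1 hYc.isCompact
  let T' : S → Y → Y := fun s => (hYi s).restrict
  have hT' : Act T' := Act_restrict hT Y hYi
  have hmin : Minimal T' := by
    intro Z hZc hZn hZi
    have h1 := hYmin (Subtype.val '' Z) (by rintro _ ⟨y, -, rfl⟩; exact y.2)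
      ⟨hYc.isClosedEmbedding_subtypeVal.isClosedMap Z hZc, hZn.image _, by
        rintro s _ ⟨y, hy, rfl⟩
        exact ⟨T' s y, hZi s hy, rfl⟩⟩
    rw [eq_univ_iff_forall]
    intro y
    have h2 : (y : C) ∈ Subtype.val '' Z := by rw [h1]; exact y.2
    obtain ⟨y', hy', h3⟩ := h2
    rwa [← Subtype.ext h3]
  letI : MeasurableSpace Y := borel Y
  haveI : BorelSpace Y := ⟨rfl⟩
  obtain ⟨y₀, hy₀⟩ := hYn
  obtain ⟨μ, hμ1, hμ2, hμ3⟩ := exists_measure hT' hm ⟨y₀, hy₀⟩
  have hInv : Inv T' μ := ⟨hT'.cont, hμ1, hμ2, hμ3⟩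
  -- the points of `Y` are not separated by the seminorms
  have hdist : ∀ i, ∀ a b : Y, p i ((a : V) - (b : V)) = 0 := by
    intro i
    by_contra hcon
    push Not at hcon
    obtain ⟨a, b, hab⟩ := hcon
    have hab' : 0 < p i ((a : V) - (b : V)) := lt_of_le_of_ne (apply_nonneg _ _) (Ne.symm hab)
    let v : Y → V := fun y => ((y : C) : V)
    have hv : ∀ f ∈ BB (p i), Continuous fun x => f (v x) := fun f hf =>
      (hp i f hf).comp (continuous_subtype_val.comp continuous_subtype_val)
    have hne' : ∀ s x y, p i (v (T' s x) - v (T' s y)) ≤ p i (v x - v y) := fun s x y => hne i s x y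
    obtain ⟨M, hM⟩ := bounded hInv hmin hv hne'
    let D : Set ℝ := range fun q : Y × Y => p i (v q.1 - v q.2)
    have hDb : BddAbove D := by
      refine ⟨M + M, ?_⟩
      rintro _ ⟨q, rfl⟩
      exact (map_sub_le_add (p i) _ _).trans (add_le_add (hM _) (hM _))
    obtain ⟨d, hd⟩ : ∃ d, d = sSup D := ⟨_, rfl⟩
    have hle : ∀ x y : Y, p i (v x - v y) ≤ d := fun x y => by
      rw [hd]; exact le_csSup hDb ⟨(x, y), rfl⟩
    have hd0 : 0 < d := hab'.trans_le (hle a b)
    obtain ⟨F, hF⟩ := exists_net hInv hmin hv hne' (half_pos hd0)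
    have hFn : F.Nonempty := by
      obtain ⟨y, hy, -⟩ := hF a
      exact ⟨y, hy⟩
    have hcard : 0 < (F.card : ℝ) := by exact_mod_cast hFn.card_pos
    obtain ⟨r, hr⟩ : ∃ r, r = d - d / (2 * F.card) := ⟨_, rfl⟩
    have hrd : r < d := by
      have : 0 < d / (2 * F.card) := by positivity
      linarith
    let u : V := ∑ y ∈ F, ((F.card : ℝ)⁻¹) • v y
    have hu : ∀ z : Y, p i (u - v z) ≤ r := by
      intro z
      have e1 : u - v z = ∑ y ∈ F, ((F.card : ℝ)⁻¹) • (v y - v z) := by
        simp only [smul_sub, Finset.sum_sub_distrib, Finset.sum_const]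
        rw [← Nat.cast_smul_eq_nsmul ℝ, smul_smul, mul_inv_cancel₀ hcard.ne', one_smul]
      obtain ⟨y₁, hy₁, hy₁z⟩ := hF z
      rw [e1]
      have e2 : p i (∑ y ∈ F, ((F.card : ℝ)⁻¹) • (v y - v z)) ≤
          ∑ y ∈ F, (F.card : ℝ)⁻¹ * p i (v y - v z) := by
        refine (Finset.le_sum_of_subadditive (p i) (map_zero (p i)).le (fun x y => map_add_le_add _ x y) F _).trans ?_
        refine Finset.sum_le_sum fun y _ => ?_
        rw [map_smul_eq_mul, Real.norm_of_nonneg (by positivity)]
      refine e2.trans ?_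
      rw [← Finset.mul_sum, ← Finset.add_sum_erase F _ hy₁]
      have e3 : ∑ y ∈ F.erase y₁, p i (v y - v z) ≤ (F.card - 1) * d := by
        refine (Finset.sum_le_card_nsmul _ _ d fun y _ => hle y z).trans ?_
        rw [Finset.card_erase_of_mem hy₁, nsmul_eq_mul, Nat.cast_sub hFn.card_pos, Nat.cast_one]
      have e4 : p i (v y₁ - v z) ≤ d / 2 := by
        have h5 : v y₁ - v z = -(v z - v y₁) := by abel
        rw [h5, map_neg_eq_map]
        exact hy₁z
      calc (F.card : ℝ)⁻¹ * (p i (v y₁ - v z) + ∑ y ∈ F.erase y₁, p i (v y - v z))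
          ≤ (F.card : ℝ)⁻¹ * (d / 2 + (F.card - 1) * d) := by gcongr
        _ = r := by rw [hr]; field_simp; ring
    have huX : u ∈ (Subtype.val '' X : Set V) := by
      refine hPX.2.2.2.sum_mem (fun _ _ => by positivity) ?_ (fun y _ => ⟨(y : C), hYX y.2, rfl⟩)
      rw [Finset.sum_const, nsmul_eq_mul, mul_inv_cancel₀ hcard.ne']
    obtain ⟨x₀, hx₀, hx₀u⟩ := huX
    let X' : Set C := {x | x ∈ X ∧ ∀ y : Y, p i ((x : V) - v y) ≤ r}
    have hX'c : IsClosed X' := by
      refine hPX.1.inter ?_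
      show IsClosed {x : C | ∀ y : Y, p i ((x : V) - v y) ≤ r}
      have : {x : C | ∀ y : Y, p i ((x : V) - v y) ≤ r} =
          ⋂ y : Y, ⋂ f ∈ BB (p i), {x : C | f ((x : V) - v y) ≤ r} := by
        ext x
        simp only [mem_ofPred_eq, mem_iInter]
        exact forall_congr' fun y => le_iff _ _ _
      rw [this]
      refine isClosed_iInter fun y => isClosed_biInter fun f hf => ?_
      have h6 : Continuous fun x : C => f ((x : V) - v y) := by
        have : (fun x : C => f ((x : V) - v y)) = fun x : C => f x - f (v y) := by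
          funext x; exact BB_sub hf _ _
        rw [this]
        exact ((hp i f hf).comp continuous_subtype_val).sub continuous_const
      exact isClosed_le h6 continuous_const
    have hX'i : ∀ s, MapsTo (T s) X' X' := by
      rintro s x ⟨hx1, hx2⟩
      refine ⟨hPX.2.2.1 s hx1, fun y => ?_⟩
      obtain ⟨y', hy'⟩ := surj hInv hmin s y
      have h7 : v y = ((T s (y' : C) : C) : V) := by rw [← hy']; rfl
      rw [h7]
      exact (hne i s x y').trans (hx2 y')
    have hX'v : Convex ℝ (Subtype.val '' X' : Set V) := by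
      have : (Subtype.val '' X' : Set V) = (Subtype.val '' X : Set V) ∩
          ⋂ y : Y, {x | p i (x - v y) ≤ r} := by
        ext x
        simp only [mem_image, mem_inter_iff, mem_iInter, mem_ofPred_eq, X']
        constructor
        · rintro ⟨y, ⟨hy1, hy2⟩, rfl⟩
          exact ⟨⟨y, hy1, rfl⟩, hy2⟩
        · rintro ⟨⟨y, hy1, rfl⟩, hy2⟩
          exact ⟨y, ⟨hy1, hy2⟩, rfl⟩
      rw [this]
      refine hPX.2.2.2.inter (convex_iInter fun y => ?_)
      have h8 : {x | p i (x - v y) ≤ r} = (p i).closedBall (v y) r := by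
        ext x; rw [Seminorm.mem_closedBall]; rfl
      rw [h8]
      exact Seminorm.convex_closedBall _ _ _
    have hX' := hXmin X' (fun x hx => hx.1) ⟨hX'c, ⟨x₀, hx₀, fun y => by rw [hx₀u]; exact hu y⟩,
      hX'i, hX'v⟩
    have h9 : ∀ x y : Y, p i (v x - v y) ≤ r := by
      intro x y
      have : (x : C) ∈ X' := by rw [hX']; exact hYX x.2
      exact this.2 y
    have h10 : d ≤ r := by
      rw [hd]
      refine csSup_le ⟨_, ⟨(a, b), rfl⟩⟩ ?_
      rintro _ ⟨q, rfl⟩
      exact h9 _ _
    linarith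
  refine ⟨y₀, fun s => ?_⟩
  have h1 : (T' s ⟨y₀, hy₀⟩ : C) = y₀ := by
    apply Subtype.ext
    have := hsep _ fun i => hdist i (T' s ⟨y₀, hy₀⟩) ⟨y₀, hy₀⟩
    exact sub_eq_zero.1 this
  exact h1

/-- **Main theorem**: if `WAP(S)` has a left invariant mean, then `S` has property (F). -/
theorem propF (hS : ∃ m : (S →ᵇ ℝ) → ℝ, IsLIM m) : PropF.{_, v, w} S := by
  obtain ⟨m, hm⟩ := hS
  intro E _ _ _ _ _ _ ι Q hQ C hCn hC hconv T hT
  haveI : LocallyConvexSpace ℝ E := hQ.toLocallyConvexSpace
  haveI : T2Space (WeakSpace ℝ E) := inferInstance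
  let p : ι → Seminorm ℝ (WeakSpace ℝ E) := fun i =>
    (Q i).comp ((toWeakSpace ℝ E).symm : WeakSpace ℝ E →ₗ[ℝ] E)
  have hp : ∀ i, ∀ f ∈ BB (p i), Continuous f := by
    intro i f hf
    let g : E →ₗ[ℝ] ℝ :=
      { toFun := fun x => f (toWeakSpace ℝ E x)
        map_add' := fun x y => by rw [map_add]; exact hf.1 _ _
        map_smul' := fun c x => by rw [map_smul]; exact hf.2.1 _ _ }
    have hg : ∀ x, |g x| ≤ Q i x := fun x => BB_abs hf _
    have hgc : Continuous g := by
      refine continuous_of_continuousAt_zero g ?_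
      rw [ContinuousAt, map_zero]
      refine squeeze_zero_norm (fun x => hg x) ?_
      have := (hQ.continuous_seminorm i).tendsto 0
      rwa [map_zero] at this
    exact WeakBilin.eval_continuous (topDualPairing ℝ E).flip (⟨g, hgc⟩ : E →L[ℝ] ℝ)
  have hsep : ∀ x : WeakSpace ℝ E, (∀ i, p i x = 0) → x = 0 := by
    intro x hx
    by_contra hx0
    obtain ⟨i, hi⟩ := hQ.separating_of_T1 ((toWeakSpace ℝ E).symm x) (by simpa using hx0)
    exact hi (hx i)
  exact fixed hm p hp hsep hCn hC hconv (T := T) ⟨hT.mul, hT.cont, hT.cont_left, hT.quasi⟩ hT.nonexp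

end main

end Pool.Agent.Q86.FixMain
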