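import Pool.Agent.Q86.FixM

/-!
# Consequences of minimality
-/

set_option autoImplicit false
set_option linter.unusedSectionVars false
set_option linter.style.haveILetI false

open MeasureTheory Filter Topology Set
open scoped NNReal ENNReal

namespace Pool.Agent.Q86.FixN

variable {S K : Type*}
variable [TopologicalSpace K] [CompactSpace K] [T2Space K] [MeasurableSpace K] [BorelSpace K]

/-- invariant probability measure of a family of continuous maps -/
structure Inv (T : S → K → K) (μ : Measure K) : Prop where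
  cont : ∀ s, Continuous (T s)
  prob : IsProbabilityMeasure μ
  reg : μ.Regular
  inv : ∀ (t : S) (F : C(K, ℝ)), ∫ x, F (T t x) ∂μ = ∫ x, F x ∂μ

/-- minimality -/
def Minimal (T : S → K → K) : Prop :=
  ∀ Z : Set K, IsClosed Z → Z.Nonempty → (∀ s, MapsTo (T s) Z Z) → Z = univ

variable {T : S → K → K} {μ : Measure K}

lemma int_cont [IsFiniteMeasure μ] {F : K → ℝ} (hF : Continuous F) : Integrable F μ :=
  hF.integrable_of_hasCompactSupport (HasCompactSupport.of_compactSpace _)

lemma int_pos [IsFiniteMeasure μ] {F : K → ℝ} (hF : Continuous F) (h0 : ∀ x, 0 ≤ F x) {x : K}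
    (hx : 0 < F x) (hsup : ∀ U, IsOpen U → x ∈ U → 0 < μ U) : 0 < ∫ x, F x ∂μ := by
  rw [integral_pos_iff_support_of_nonneg h0 (int_cont hF)]
  have h1 : 0 < μ {z | 0 < F z} := hsup _ (isOpen_lt continuous_const hF) hx
  refine h1.trans_le (measure_mono fun z hz => ?_)
  exact (ne_of_gt hz : F z ≠ 0)

lemma real_le_int [IsFiniteMeasure μ] {F : K → ℝ} (hF : Continuous F) (h0 : ∀ x, 0 ≤ F x)
    {A : Set K} (hA : MeasurableSet A) (h1 : ∀ x ∈ A, 1 ≤ F x) : μ.real A ≤ ∫ x, F x ∂μ := by
  have h2 : μ.real A = ∫ x, A.indicator (fun _ => (1 : ℝ)) x ∂μ := by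
    rw [integral_indicator hA]; simp
  rw [h2]
  refine integral_mono ((integrable_const _).indicator hA) (int_cont hF) fun x => ?_
  by_cases hx : x ∈ A
  · rw [indicator_of_mem hx]; exact h1 x hx
  · rw [indicator_of_notMem hx]; exact h0 x

lemma int_le_real [IsFiniteMeasure μ] {F : K → ℝ} (hF : Continuous F) {U : Set K}
    (hU : MeasurableSet U) (h1 : ∀ x, F x ≤ 1) (h0 : ∀ x ∉ U, F x ≤ 0) : ∫ x, F x ∂μ ≤ μ.real U := by
  have h2 : μ.real U = ∫ x, U.indicator (fun _ => (1 : ℝ)) x ∂μ := by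
    rw [integral_indicator hU]; simp
  rw [h2]
  refine integral_mono (int_cont hF) ((integrable_const _).indicator hU) fun x => ?_
  by_cases hx : x ∈ U
  · rw [indicator_of_mem hx]; exact h1 x
  · rw [indicator_of_notMem hx]; exact h0 x hx

theorem le_of_maps (h : Inv T μ) {s : S} {A B : Set K} (hA : IsClosed A) (hB : IsClosed B)
    (hAB : MapsTo (T s) A B) : μ A ≤ μ B := by
  haveI := h.prob
  haveI := h.reg
  refine le_of_forall_gt fun r hr => ?_
  obtain ⟨U, hBU, hU, hUr⟩ := B.exists_isOpen_lt_of_lt r hr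
  obtain ⟨F, hF0, hF1, hF⟩ := exists_continuous_zero_one_of_isClosed hU.isClosed_compl hB
    (Set.disjoint_left.2 fun x hx hxB => hx (hBU hxB))
  have h1 : μ.real A ≤ ∫ x, F (T s x) ∂μ :=
    real_le_int (F.continuous.comp (h.cont s)) (fun x => (hF _).1) hA.measurableSet
      (fun x hx => (hF1 (hAB hx)).ge)
  have h2 : ∫ x, F x ∂μ ≤ μ.real U :=
    int_le_real F.continuous hU.measurableSet (fun x => (hF x).2) (fun x hx => (hF0 hx).le)
  rw [h.inv] at h1
  have h3 : μ A ≤ μ U := by
    rw [← ENNReal.toReal_le_toReal (measure_ne_top _ _) (measure_ne_top _ _)]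
    exact h1.trans h2
  exact h3.trans_lt hUr

theorem full (h : Inv T μ) (hmin : Minimal T) (x : K) (U : Set K) (hU : IsOpen U) (hx : x ∈ U) :
    0 < μ U := by
  haveI := h.prob
  haveI := h.reg
  let Z : Set K := {x | ∀ U, IsOpen U → x ∈ U → 0 < μ U}
  have hZc : IsClosed Z := by
    rw [← isOpen_compl_iff, isOpen_iff_forall_mem_open]
    intro x hx
    simp only [Z, mem_compl_iff, mem_ofPred_eq, not_forall] at hx
    obtain ⟨U, hU, hxU, h0⟩ := hx
    exact ⟨U, fun y hy hyZ => h0 (hyZ U hU hy), hU, hxU⟩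
  have hZn : Z.Nonempty := by
    by_contra hne
    rw [Set.not_nonempty_iff_eq_empty] at hne
    have h1 : μ univ = 0 := by
      apply isCompact_univ.measure_zero_of_nhdsWithin
      intro x _
      have hx : x ∉ Z := by rw [hne]; exact notMem_empty x
      simp only [Z, mem_ofPred_eq, not_forall] at hx
      obtain ⟨U, hU, hxU, h0⟩ := hx
      exact ⟨U, mem_nhdsWithin_of_mem_nhds (hU.mem_nhds hxU), by simpa using h0⟩
    rw [measure_univ] at h1
    exact one_ne_zero h1
  have hZi : ∀ s, MapsTo (T s) Z Z := by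
    intro s x hx U hU hxU
    obtain ⟨F, hF0, hF1, hF⟩ := exists_continuous_zero_one_of_isClosed hU.isClosed_compl
      (isClosed_singleton (x := T s x)) (Set.disjoint_left.2 fun y hy hyB => hy (by
        rw [mem_singleton_iff] at hyB; rw [hyB]; exact hxU))
    have h1 : 0 < ∫ x, F (T s x) ∂μ :=
      int_pos (F.continuous.comp (h.cont s)) (fun x => (hF _).1) (x := x) (by
        have := hF1 (mem_singleton (T s x))
        rw [this]; exact one_pos) hx
    have h2 : ∫ x, F x ∂μ ≤ μ.real U :=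
      int_le_real F.continuous hU.measurableSet (fun x => (hF x).2) (fun x hx => (hF0 hx).le)
    rw [h.inv] at h1
    have h3 : 0 < μ.real U := h1.trans_le h2
    rw [Measure.real, ENNReal.toReal_pos_iff] at h3
    exact h3.1
  have := hmin Z hZc hZn hZi
  have hxZ : x ∈ Z := by rw [this]; trivial
  exact hxZ U hU hx

theorem surj (h : Inv T μ) (hmin : Minimal T) (s : S) : Function.Surjective (T s) := by
  haveI := h.prob
  intro z
  by_contra hz
  have hcl : IsClosed (range (T s)) := (isCompact_range (h.cont s)).isClosed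
  obtain ⟨F, hF0, hF1, hF⟩ := exists_continuous_zero_one_of_isClosed hcl
    (isClosed_singleton (x := z)) (Set.disjoint_left.2 fun y hy hyB => hz (by
      rw [mem_singleton_iff] at hyB; rw [← hyB]; exact hy))
  have h1 : 0 < ∫ x, F x ∂μ := int_pos F.continuous (fun x => (hF _).1) (x := z) (by
    rw [hF1 (mem_singleton z)]; exact one_pos) (fun U hU hz => full h hmin z U hU hz)
  have h2 : ∫ x, F (T s x) ∂μ = 0 := by
    have : (fun x => F (T s x)) = fun _ => 0 := by
      funext x
      exact hF0 ⟨x, rfl⟩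
    rw [this, integral_zero]
  rw [← h.inv s F, h2] at h1
  exact lt_irrefl _ h1

theorem unif (h : Inv T μ) (hmin : Minimal T) {R : Set (K × K)} (hR : IsClosed R)
    (hRT : ∀ s x y, (x, y) ∈ R → (T s x, T s y) ∈ R) {δ : ℝ≥0∞} {y₁ : K}
    (h1 : δ ≤ μ {z | (y₁, z) ∈ R}) (y : K) : δ ≤ μ {z | (y, z) ∈ R} := by
  haveI := h.prob
  haveI := h.reg
  have hB : ∀ y, IsClosed {z | (y, z) ∈ R} := fun y => hR.preimage (by fun_prop)
  have hG : IsClosed {y | δ ≤ μ {z | (y, z) ∈ R}} := by
    refine isClosed_of_closure_subset fun y hy => ?_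
    show δ ≤ μ {z | (y, z) ∈ R}
    refine le_of_forall_gt fun r hr => ?_
    obtain ⟨U, hBU, hU, hUr⟩ := Set.exists_isOpen_lt_of_lt _ r hr
    have hN : IsClosed (Prod.fst '' (R ∩ (Prod.snd ⁻¹' Uᶜ))) :=
      ((hR.inter (hU.isClosed_compl.preimage continuous_snd)).isCompact.image continuous_fst).isClosed
    have hyN : y ∉ Prod.fst '' (R ∩ (Prod.snd ⁻¹' Uᶜ)) := by
      rintro ⟨⟨a, b⟩, ⟨hab, hb⟩, rfl⟩
      exact hb (hBU hab)
    obtain ⟨y', hy'N, hy'⟩ := mem_closure_iff.1 hy _ hN.isOpen_compl hyN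
    have h2 : {z | (y', z) ∈ R} ⊆ U := by
      intro z hz
      by_contra hzU
      exact hy'N ⟨(y', z), ⟨hz, hzU⟩, rfl⟩
    exact (hy'.trans (measure_mono h2)).trans_lt hUr
  have := hmin _ hG ⟨y₁, h1⟩ (by
    intro s y hy
    have hy' : δ ≤ μ {z | (y, z) ∈ R} := hy
    show δ ≤ μ {z | (T s y, z) ∈ R}
    refine le_trans hy' (le_of_maps h (s := s) (hB y) (hB (T s y)) ?_)
    intro z hz
    exact hRT s y z hz)
  have hy : y ∈ {y | δ ≤ μ {z | (y, z) ∈ R}} := by rw [this]; trivial
  exact hy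

theorem net [IsProbabilityMeasure μ] {R : Set (K × K)} (hR : IsClosed R) {δ : ℝ≥0∞} (hδ : δ ≠ 0)
    (h1 : ∀ y, δ ≤ μ {z | (y, z) ∈ R}) :
    ∃ F : Finset K, ∀ z, ∃ y ∈ F, ∃ x, (z, x) ∈ R ∧ (y, x) ∈ R := by
  classical
  have hB : ∀ y, IsClosed {z | (y, z) ∈ R} := fun y => hR.preimage (by fun_prop)
  by_contra hcon
  push Not at hcon
  have hind : ∀ n : ℕ, ∃ F : Finset K, F.card = n ∧
      (F : Set K).PairwiseDisjoint fun y => {z | (y, z) ∈ R} := by
    intro n
    induction n with
    | zero => exact ⟨∅, rfl, by simp⟩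
    | succ n ih =>
      obtain ⟨F, hF, hd⟩ := ih
      obtain ⟨z, hz⟩ := hcon F
      have hzF : z ∉ F := by
        intro hzF
        have hne : ({x | (z, x) ∈ R} : Set K).Nonempty := by
          rw [Set.nonempty_iff_ne_empty]
          intro he
          have := h1 z
          rw [he, measure_empty, nonpos_iff_eq_zero] at this
          exact hδ this
        obtain ⟨x, hx⟩ := hne
        exact hz z hzF x hx hx
      refine ⟨insert z F, by rw [Finset.card_insert_of_notMem hzF, hF], ?_⟩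
      rw [Finset.coe_insert, Set.pairwiseDisjoint_insert]
      refine ⟨hd, fun y hy _ => ?_⟩
      rw [Set.disjoint_left]
      intro x hx hx'
      exact hz y hy x hx hx'
  have hle : ∀ n : ℕ, (n : ℝ≥0∞) * δ ≤ 1 := by
    intro n
    obtain ⟨F, hF, hd⟩ := hind n
    calc (n : ℝ≥0∞) * δ = ∑ y ∈ F, δ := by rw [Finset.sum_const, hF, nsmul_eq_mul]
      _ ≤ ∑ y ∈ F, μ {z | (y, z) ∈ R} := Finset.sum_le_sum fun y _ => h1 y
      _ = μ (⋃ y ∈ F, {z | (y, z) ∈ R}) := by
        rw [measure_biUnion_finset hd fun y _ => (hB y).measurableSet]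
      _ ≤ 1 := prob_le_one
  have hδt : δ ≠ ∞ := by
    intro h
    have := hle 1
    rw [h] at this
    simp at this
  obtain ⟨n, hn⟩ := ENNReal.exists_nat_mul_gt hδ (b := 1) ENNReal.one_ne_top
  exact absurd (hle n) (not_le.2 hn)

end Pool.Agent.Q86.FixN
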