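import Pool.Agent.Q86.FixN
import Pool.Agent.Q86.FixHB

/-!
# Total boundedness of minimal sets of nonexpansive maps
-/

set_option autoImplicit false
set_option linter.unusedSectionVars false
set_option linter.style.haveILetI false

open MeasureTheory Filter Topology Set
open scoped NNReal ENNReal

namespace Pool.Agent.Q86.FixS

open Pool.Agent.Q86.FixG Pool.Agent.Q86.FixN Pool.Agent.Q86.FixHB

variable {S K V : Type*} [AddCommGroup V] [Module ℝ V]
variable [TopologicalSpace K] [CompactSpace K] [T2Space K] [MeasurableSpace K] [BorelSpace K]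
variable {T : S → K → K} {μ : Measure K} {p : Seminorm ℝ V} {v : K → V}

/-- rational approximation in a real span -/
lemma exists_countable (p : Seminorm ℝ V) (e : ℕ → V) : ∃ W : Set V, W.Countable ∧
    ∀ w ∈ Submodule.span ℝ (range e), ∀ δ : ℝ, 0 < δ → ∃ w' ∈ W, p (w - w') < δ := by
  letI : Module ℚ V := Module.compHom V (algebraMap ℚ ℝ)
  have hsm : ∀ (q : ℚ) (x : V), q • x = (q : ℝ) • x := fun q x => rfl
  have hco : Countable (Submodule.span ℚ (range e)) := inferInstance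
  refine ⟨(Submodule.span ℚ (range e) : Set V), hco, ?_⟩
  intro w hw
  induction hw using Submodule.span_induction with
  | mem x hx =>
    intro δ hδ
    exact ⟨x, Submodule.subset_span hx, by rw [sub_self, map_zero]; exact hδ⟩
  | zero =>
    intro δ hδ
    exact ⟨0, Submodule.zero_mem _, by rw [sub_self, map_zero]; exact hδ⟩
  | add x y _ _ ihx ihy =>
    intro δ hδ
    obtain ⟨x', hx', h1⟩ := ihx (δ / 2) (by linarith)
    obtain ⟨y', hy', h2⟩ := ihy (δ / 2) (by linarith)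
    refine ⟨x' + y', Submodule.add_mem _ hx' hy', ?_⟩
    have : x + y - (x' + y') = (x - x') + (y - y') := by abel
    rw [this]
    calc p ((x - x') + (y - y')) ≤ p (x - x') + p (y - y') := map_add_le_add p _ _
      _ < δ := by linarith
  | smul a x _ ih =>
    intro δ hδ
    have hpx : 0 ≤ p x := apply_nonneg p x
    obtain ⟨q, hq1, hq2⟩ := exists_rat_btwn (show a < a + δ / (2 * (p x + 1)) by
      have : 0 < δ / (2 * (p x + 1)) := by positivity
      linarith)
    obtain ⟨x', hx', h1⟩ := ih (δ / (2 * (|(q : ℝ)| + 1))) (by positivity)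
    refine ⟨q • x', Submodule.smul_mem _ q hx', ?_⟩
    rw [hsm]
    have e1 : a • x - (q : ℝ) • x' = (a - q) • x + (q : ℝ) • (x - x') := by
      rw [sub_smul, smul_sub]; abel
    rw [e1]
    have h2 : |a - q| * p x < δ / 2 ∨ |a - q| * p x ≤ δ / 2 * (p x / (p x + 1)) := by
      right
      have h3 : |a - q| ≤ δ / (2 * (p x + 1)) := by
        rw [abs_le]; constructor <;> linarith
      calc |a - q| * p x ≤ δ / (2 * (p x + 1)) * p x := by gcongr
        _ = δ / 2 * (p x / (p x + 1)) := by field_simp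
    have h4 : |a - (q : ℝ)| * p x ≤ δ / 2 := by
      rcases h2 with h2 | h2
      · exact h2.le
      · refine h2.trans ?_
        have : p x / (p x + 1) ≤ 1 := by rw [div_le_one (by linarith)]; linarith
        nlinarith
    have h5 : |(q : ℝ)| * p (x - x') < δ / 2 := by
      rcases (abs_nonneg (q : ℝ)).eq_or_lt with h | h
      · rw [← h, zero_mul]; linarith
      · calc |(q : ℝ)| * p (x - x') < |(q : ℝ)| * (δ / (2 * (|(q : ℝ)| + 1))) := by gcongr
          _ = δ / 2 * (|(q : ℝ)| / (|(q : ℝ)| + 1)) := by field_simp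
          _ ≤ δ / 2 * 1 := by
            gcongr
            rw [div_le_one (by linarith)]; linarith
          _ = δ / 2 := mul_one _
    calc p ((a - q) • x + (q : ℝ) • (x - x')) ≤ p ((a - (q : ℝ)) • x) + p ((q : ℝ) • (x - x')) :=
          map_add_le_add p _ _
      _ = |a - (q : ℝ)| * p x + |(q : ℝ)| * p (x - x') := by
          rw [map_smul_eq_mul, map_smul_eq_mul, Real.norm_eq_abs, Real.norm_eq_abs]
      _ < δ := by linarith

/-- the closed relation `p (v y - v z) ≤ ε` -/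
def RR (p : Seminorm ℝ V) (v : K → V) (ε : ℝ) : Set (K × K) := {q | p (v q.2 - v q.1) ≤ ε}

lemma le_iff (p : Seminorm ℝ V) (x : V) (ε : ℝ) : p x ≤ ε ↔ ∀ f ∈ BB p, f x ≤ ε := by
  constructor
  · intro h f hf
    exact (hf.2.2 x).trans h
  · intro h
    obtain ⟨f, hf, hx⟩ := exists_norming p x
    rw [← hx]
    exact h f hf

lemma RR_closed (hv : ∀ f ∈ BB p, Continuous fun x => f (v x)) (ε : ℝ) : IsClosed (RR p v ε) := by
  have : RR p v ε = ⋂ f ∈ BB p, {q : K × K | f (v q.2) - f (v q.1) ≤ ε} := by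
    ext q
    simp only [RR, mem_ofPred_eq, mem_iInter]
    rw [le_iff]
    refine forall₂_congr fun f hf => ?_
    rw [BB_sub hf]
  rw [this]
  refine isClosed_biInter fun f hf => ?_
  exact isClosed_le (((hv f hf).comp continuous_snd).sub ((hv f hf).comp continuous_fst))
    continuous_const

lemma net_of_pos (h : Inv T μ) (hmin : Minimal T) (hv : ∀ f ∈ BB p, Continuous fun x => f (v x))
    (hne : ∀ s x y, p (v (T s x) - v (T s y)) ≤ p (v x - v y)) {ε : ℝ} {y₁ : K}
    (h1 : μ {z | p (v z - v y₁) ≤ ε} ≠ 0) : ∃ F : Finset K, ∀ z, ∃ y ∈ F, p (v z - v y) ≤ 2 * ε := by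
  haveI := h.prob
  have hR := RR_closed hv ε
  obtain ⟨F, hF⟩ := net hR h1 (fun y => unif h hmin hR (by
    intro s x y hxy
    exact (hne s y x).trans hxy) (y₁ := y₁) le_rfl y)
  refine ⟨F, fun z => ?_⟩
  obtain ⟨y, hy, x, hx1, hx2⟩ := hF z
  refine ⟨y, hy, ?_⟩
  have h2 : p (v x - v z) ≤ ε := hx1
  have h3 : p (v x - v y) ≤ ε := hx2
  have h4 : v z - v y = (v x - v y) - (v x - v z) := by abel
  rw [h4]
  exact (map_sub_le_add p _ _).trans (by linarith)

lemma bounded (h : Inv T μ) (hmin : Minimal T) (hv : ∀ f ∈ BB p, Continuous fun x => f (v x))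
    (hne : ∀ s x y, p (v (T s x) - v (T s y)) ≤ p (v x - v y)) : ∃ M : ℝ, ∀ z, p (v z) ≤ M := by
  haveI := h.prob
  haveI : Nonempty K := by
    by_contra hK
    rw [not_nonempty_iff] at hK
    have h1 : μ univ = 0 := by rw [univ_eq_empty_iff.2 hK, measure_empty]
    rw [measure_univ] at h1
    exact one_ne_zero h1
  obtain ⟨y₁⟩ := ‹Nonempty K›
  have hn : ∃ n : ℕ, μ {z | p (v z - v y₁) ≤ n} ≠ 0 := by
    by_contra hcon
    push Not at hcon
    have h1 : μ (⋃ n : ℕ, {z | p (v z - v y₁) ≤ n}) = 0 := measure_iUnion_null hcon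
    have h2 : (⋃ n : ℕ, {z | p (v z - v y₁) ≤ n}) = univ := by
      rw [eq_univ_iff_forall]
      intro z
      obtain ⟨n, hn⟩ := exists_nat_ge (p (v z - v y₁))
      exact mem_iUnion.2 ⟨n, hn⟩
    rw [h2, measure_univ] at h1
    exact one_ne_zero h1
  obtain ⟨n, hn⟩ := hn
  obtain ⟨F, hF⟩ := net_of_pos h hmin hv hne hn
  refine ⟨∑ y ∈ F, p (v y) + 2 * n, fun z => ?_⟩
  obtain ⟨y, hy, hyz⟩ := hF z
  have h1 : v z = v y + (v z - v y) := by abel
  rw [h1]
  refine (map_add_le_add p _ _).trans (add_le_add ?_ hyz)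
  exact Finset.single_le_sum (f := fun y => p (v y)) (fun y _ => apply_nonneg p _) hy

theorem small (h : Inv T μ) (hmin : Minimal T) (hv : ∀ f ∈ BB p, Continuous fun x => f (v x))
    (hne : ∀ s x y, p (v (T s x) - v (T s y)) ≤ p (v x - v y)) {ε : ℝ} (hε : 0 < ε) :
    ∃ y, μ {z | p (v z - v y) ≤ ε} ≠ 0 := by
  haveI := h.prob
  obtain ⟨M, hM⟩ := bounded h hmin hv hne
  haveI : CompactSpace (BB p) := isCompact_iff_compactSpace.1 (BB_compact p)
  let φ : BB p → K → ℝ := fun f x => f.1 (v x)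
  have hK : ∀ f, Continuous (φ f) := fun f => hv f.1 f.2
  have hA : ∀ x, Continuous fun f => φ f x := fun x =>
    (continuous_apply (v x)).comp continuous_subtype_val
  have hφM : ∀ f x, |φ f x| ≤ M := fun f x => (BB_abs f.2 _).trans (hM x)
  have hpos : ∀ n : ℕ, (0 : ℝ) < 1 / ((n : ℝ) + 1) := fun n => by positivity
  -- finite `L¹` nets
  have hD : ∀ n : ℕ, ∃ D : Finset (BB p), ∀ f, ∃ d ∈ D, ∫ x, |φ f x - φ d x| ∂μ < 1 / ((n : ℝ) + 1) := by
    intro n
    obtain ⟨t, -, ht⟩ := isCompact_univ.elim_nhds_subcover (X := BB p)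
      (fun d => {f | ∫ x, |φ f x - φ d x| ∂μ < 1 / ((n : ℝ) + 1)})
      (fun d _ => eventually_l1 hK hA hφM μ d (hpos n))
    refine ⟨t, fun f => ?_⟩
    have := ht (mem_univ f)
    simp only [mem_iUnion, exists_prop] at this
    exact this
  choose D hD using hD
  have hDc : (⋃ n, (D n : Set (BB p))).Countable := countable_iUnion fun n => (D n).countable_toSet
  -- every functional is a limit along a fixed ultrafilter of members of `D`
  let 𝒰 : Ultrafilter ℕ := Ultrafilter.of atTop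
  have h𝒰 : (𝒰 : Filter ℕ) ≤ atTop := Ultrafilter.of_le _
  have hinv : Tendsto (fun n : ℕ => 1 / ((n : ℝ) + 1)) 𝒰 (𝓝 0) :=
    tendsto_one_div_add_atTop_nhds_zero_nat.mono_left h𝒰
  have claimA : ∀ f : BB p, ∃ d : ℕ → BB p, (∀ n, d n ∈ ⋃ n, (D n : Set (BB p))) ∧
      ∀ x, Tendsto (fun n => φ (d n) x) 𝒰 (𝓝 (φ f x)) := by
    intro f
    choose d hd1 hd2 using fun n => hD n f
    refine ⟨d, fun n => mem_iUnion.2 ⟨n, hd1 n⟩, ?_⟩
    obtain ⟨g, -, hg⟩ := isCompact_univ.ultrafilter_le_nhds (𝒰.map d) (by simp)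
    have hg' : Tendsto d 𝒰 (𝓝 g) := hg
    have h0 : ∫ x, |φ f x - φ g x| ∂μ ≤ 0 := by
      refine le_of_forall_pos_le_add fun η hη => ?_
      rw [zero_add]
      have e1 : ∀ᶠ n in 𝒰, ∫ x, |φ (d n) x - φ g x| ∂μ < η / 2 :=
        hg'.eventually (eventually_l1 hK hA hφM μ g (by linarith))
      have e2 : ∀ᶠ n : ℕ in 𝒰, 1 / ((n : ℝ) + 1) < η / 2 := hinv.eventually (gt_mem_nhds (by linarith))
      obtain ⟨n, hn1, hn2⟩ := (e1.and e2).exists
      have hi : ∀ a b : BB p, Integrable (fun x => |φ a x - φ b x|) μ := fun a b =>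
        int_cont (((hK a).sub (hK b)).abs)
      calc ∫ x, |φ f x - φ g x| ∂μ ≤ ∫ x, (|φ f x - φ (d n) x| + |φ (d n) x - φ g x|) ∂μ := by
            refine integral_mono (hi f g) ((hi f (d n)).add (hi (d n) g)) fun x => ?_
            exact abs_sub_le _ _ _
        _ = ∫ x, |φ f x - φ (d n) x| ∂μ + ∫ x, |φ (d n) x - φ g x| ∂μ :=
            integral_add (hi f (d n)) (hi (d n) g)
        _ ≤ η := by linarith [hd2 n]
    have h1 : ∀ x, φ f x = φ g x := by
      intro x
      by_contra hx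
      have h2 : 0 < ∫ x, |φ f x - φ g x| ∂μ :=
        int_pos (((hK f).sub (hK g)).abs) (fun x => abs_nonneg _) (x := x)
          (abs_pos.2 (sub_ne_zero.2 hx)) (fun U hU hz => full h hmin x U hU hz)
      linarith
    intro x
    rw [h1 x]
    exact ((hA x).tendsto g).comp hg'
  -- a countable set of points whose values of the members of `D` are dense
  haveI : Countable (⋃ n, (D n : Set (BB p))) := hDc
  let Φ : K → ((⋃ n, (D n : Set (BB p)) : Set (BB p)) → ℝ) := fun x d => φ d.1 x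
  haveI : Nonempty K := by
    by_contra hK'
    rw [not_nonempty_iff] at hK'
    have h1 : μ univ = 0 := by rw [univ_eq_empty_iff.2 hK', measure_empty]
    rw [measure_univ] at h1
    exact one_ne_zero h1
  haveI : Nonempty (range Φ) := (range_nonempty Φ).to_subtype
  have hseq : ∀ k : ℕ, ∃ x : K, Φ x = (TopologicalSpace.denseSeq (range Φ) k).1 := fun k =>
    (TopologicalSpace.denseSeq (range Φ) k).2
  choose e he using hseq
  have claimB : ∀ z : K, ∃ 𝒱 : Ultrafilter ℕ, Tendsto (fun k => Φ (e k)) 𝒱 (𝓝 (Φ z)) := by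
    intro z
    have h1 : (⟨Φ z, z, rfl⟩ : range Φ) ∈ closure (range (TopologicalSpace.denseSeq (range Φ))) :=
      (TopologicalSpace.denseRange_denseSeq (range Φ)) _
    have h2 : NeBot (comap (TopologicalSpace.denseSeq (range Φ)) (𝓝 (⟨Φ z, z, rfl⟩ : range Φ))) := by
      rw [comap_neBot_iff]
      intro t ht
      obtain ⟨y, hy, ⟨k, rfl⟩⟩ := mem_closure_iff_nhds.1 h1 t ht
      exact ⟨k, hy⟩
    refine ⟨Ultrafilter.of (comap (TopologicalSpace.denseSeq (range Φ)) (𝓝 (⟨Φ z, z, rfl⟩ : range Φ))), ?_⟩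
    have h3 : Tendsto (TopologicalSpace.denseSeq (range Φ))
        (Ultrafilter.of (comap (TopologicalSpace.denseSeq (range Φ)) (𝓝 (⟨Φ z, z, rfl⟩ : range Φ))) : Ultrafilter ℕ)
        (𝓝 (⟨Φ z, z, rfl⟩ : range Φ)) := tendsto_comap.mono_left (Ultrafilter.of_le _)
    have h4 := (continuous_subtype_val.tendsto (⟨Φ z, z, rfl⟩ : range Φ)).comp h3
    have h5 : (fun k => Φ (e k)) = Subtype.val ∘ TopologicalSpace.denseSeq (range Φ) := by
      funext k
      exact he k
    rw [h5]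
    exact h4
  have claimC : ∀ z : K, ∀ δ : ℝ, 0 < δ → ∃ w ∈ Submodule.span ℝ (range fun k => v (e k)),
      p (v z - w) < δ := by
    intro z δ hδ
    by_contra hcon
    push Not at hcon
    obtain ⟨f, hf, hf0, hfz⟩ := exists_vanish p _ (v z) hδ hcon
    obtain ⟨𝒱, h𝒱⟩ := claimB z
    obtain ⟨z', -, hz'⟩ := isCompact_univ.ultrafilter_le_nhds (𝒱.map e) (by simp)
    have hz'' : Tendsto e 𝒱 (𝓝 z') := hz'
    have hΦ : ∀ d ∈ ⋃ n, (D n : Set (BB p)), φ d z' = φ d z := by
      intro d hd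
      have h1 : Tendsto (fun k => φ d (e k)) 𝒱 (𝓝 (φ d z')) := ((hK d).tendsto z').comp hz''
      have h2 : Tendsto (fun k => φ d (e k)) 𝒱 (𝓝 (φ d z)) :=
        ((continuous_apply (⟨d, hd⟩ : (⋃ n, (D n : Set (BB p)) : Set (BB p)))).tendsto (Φ z)).comp h𝒱
      exact tendsto_nhds_unique h1 h2
    obtain ⟨d, hd1, hd2⟩ := claimA ⟨f, hf⟩
    have h3 : φ ⟨f, hf⟩ z' = φ ⟨f, hf⟩ z := by
      have h4 := hd2 z'
      have h5 : (fun n => φ (d n) z') = fun n => φ (d n) z := by
        funext n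
        exact hΦ (d n) (hd1 n)
      rw [h5] at h4
      exact tendsto_nhds_unique h4 (hd2 z)
    have h6 : Tendsto (fun k => φ ⟨f, hf⟩ (e k)) 𝒱 (𝓝 (φ ⟨f, hf⟩ z')) :=
      ((hK _).tendsto z').comp hz''
    have h7 : (fun k => φ ⟨f, hf⟩ (e k)) = fun _ => 0 := by
      funext k
      exact hf0 _ (Submodule.subset_span ⟨k, rfl⟩)
    rw [h7] at h6
    have h8 := tendsto_nhds_unique h6 tendsto_const_nhds
    have h9 : φ ⟨f, hf⟩ z = δ := hfz
    rw [h3, h9] at h8
    linarith
  obtain ⟨W, hWc, hW⟩ := exists_countable p fun k => v (e k)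
  have hcov : (⋃ w ∈ W, {z | p (v z - w) ≤ ε / 2}) = univ := by
    rw [eq_univ_iff_forall]
    intro z
    obtain ⟨w, hw, hw'⟩ := claimC z (ε / 4) (by linarith)
    obtain ⟨w', hw1, hw2⟩ := hW w hw (ε / 4) (by linarith)
    refine mem_iUnion₂.2 ⟨w', hw1, ?_⟩
    show p (v z - w') ≤ ε / 2
    have : v z - w' = (v z - w) + (w - w') := by abel
    rw [this]
    exact (map_add_le_add p _ _).trans (by linarith)
  have hex : ∃ w ∈ W, μ {z | p (v z - w) ≤ ε / 2} ≠ 0 := by
    by_contra hcon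
    push Not at hcon
    have h1 : μ (⋃ w ∈ W, {z | p (v z - w) ≤ ε / 2}) = 0 := (measure_biUnion_null_iff hWc).2 hcon
    rw [hcov, measure_univ] at h1
    exact one_ne_zero h1
  obtain ⟨w, -, hw⟩ := hex
  obtain ⟨y, hy⟩ := nonempty_of_measure_ne_zero hw
  refine ⟨y, fun h0 => hw (measure_mono_null ?_ h0)⟩
  intro z hz
  have h1 : p (v z - w) ≤ ε / 2 := hz
  have h2 : p (v y - w) ≤ ε / 2 := hy
  show p (v z - v y) ≤ ε
  have h3 : v z - v y = (v z - w) - (v y - w) := by abel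
  rw [h3]
  exact (map_sub_le_add p _ _).trans (by linarith)

/-- minimal sets are totally bounded -/
theorem exists_net (h : Inv T μ) (hmin : Minimal T) (hv : ∀ f ∈ BB p, Continuous fun x => f (v x))
    (hne : ∀ s x y, p (v (T s x) - v (T s y)) ≤ p (v x - v y)) {ε : ℝ} (hε : 0 < ε) :
    ∃ F : Finset K, ∀ z, ∃ y ∈ F, p (v z - v y) ≤ ε := by
  obtain ⟨y, hy⟩ := small h hmin hv hne (half_pos hε)
  obtain ⟨F, hF⟩ := net_of_pos h hmin hv hne hy
  refine ⟨F, fun z => ?_⟩
  obtain ⟨y, hy, h1⟩ := hF z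
  exact ⟨y, hy, by linarith⟩

end Pool.Agent.Q86.FixS
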