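import Pool.Agent.Q86.FixG
import Pool.Agent.Q86.FixDefs
import Pool.Agent.H731R2.Riesz

/-!
# Quasi-equicontinuous actions on compact spaces and weakly almost periodic functions
-/

set_option autoImplicit false
set_option linter.unusedSectionVars false
set_option linter.style.haveILetI false

open MeasureTheory Filter Topology Set
open scoped BoundedContinuousFunction

namespace Pool.Agent.Q86.FixW

open Pool.Agent.Q86.FixG Pool.Agent.Q86.FixD

/-- A real bounded functional on `C(K)` is dominated by a finite measure. -/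
lemma real_dom {K : Type*} [TopologicalSpace K] [CompactSpace K] [T2Space K] [MeasurableSpace K]
    [BorelSpace K] (Φ : C(K, ℝ) →L[ℝ] ℝ) :
    ∃ μ : Measure K, IsFiniteMeasure μ ∧ ∀ h : C(K, ℝ), |Φ h| ≤ ∫ x, |h x| ∂μ := by
  let re : C(K, ℂ) → C(K, ℝ) := fun h => ⟨fun x => (h x).re, by fun_prop⟩
  let im : C(K, ℂ) → C(K, ℝ) := fun h => ⟨fun x => (h x).im, by fun_prop⟩
  have re_add : ∀ f g, re (f + g) = re f + re g := fun f g => rfl
  have im_add : ∀ f g, im (f + g) = im f + im g := fun f g => rfl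
  have re_smul : ∀ (c : ℂ) f, re (c • f) = c.re • re f - c.im • im f := by
    intro c f; ext x; simp [re, im]
  have im_smul : ∀ (c : ℂ) f, im (c • f) = c.re • im f + c.im • re f := by
    intro c f; ext x; simp [re, im]
  have re_norm : ∀ f, ‖re f‖ ≤ ‖f‖ := by
    intro f
    rw [ContinuousMap.norm_le _ (norm_nonneg _)]
    intro x
    exact (Complex.abs_re_le_norm _).trans (f.norm_coe_le_norm x)
  have im_norm : ∀ f, ‖im f‖ ≤ ‖f‖ := by
    intro f
    rw [ContinuousMap.norm_le _ (norm_nonneg _)]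
    intro x
    exact (Complex.abs_im_le_norm _).trans (f.norm_coe_le_norm x)
  let L : C(K, ℂ) →ₗ[ℂ] ℂ :=
    { toFun := fun h => (Φ (re h) : ℂ) + Complex.I * (Φ (im h) : ℂ)
      map_add' := by
        intro f g
        rw [re_add, im_add, map_add, map_add]
        push_cast; ring
      map_smul' := by
        intro c f
        rw [re_smul, im_smul, map_sub, map_add, map_smul, map_smul, map_smul, map_smul]
        simp only [smul_eq_mul, RingHom.id_apply]
        apply Complex.ext <;> simp }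
  let Ψ : StrongDual ℂ C(K, ℂ) := L.mkContinuous (2 * ‖Φ‖) (by
    intro h
    show ‖(Φ (re h) : ℂ) + Complex.I * (Φ (im h) : ℂ)‖ ≤ _
    refine (norm_add_le _ _).trans ?_
    rw [norm_mul, Complex.norm_I, one_mul, Complex.norm_real, Complex.norm_real]
    have h1 : ‖Φ (re h)‖ ≤ ‖Φ‖ * ‖h‖ :=
      (Φ.le_opNorm _).trans (mul_le_mul_of_nonneg_left (re_norm h) (norm_nonneg _))
    have h2 : ‖Φ (im h)‖ ≤ ‖Φ‖ * ‖h‖ :=
      (Φ.le_opNorm _).trans (mul_le_mul_of_nonneg_left (im_norm h) (norm_nonneg _))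
    linarith)
  obtain ⟨μ, hμ, -, hdom⟩ := Pool.Agent.H731R2.exists_dominating_measure Ψ
  refine ⟨μ, hμ, fun h => ?_⟩
  have h1 := hdom ⟨fun x => (h x : ℂ), by fun_prop⟩
  have h2 : re ⟨fun x => (h x : ℂ), by fun_prop⟩ = h := by ext x; simp [re]
  have h3 : im ⟨fun x => (h x : ℂ), by fun_prop⟩ = 0 := by ext x; simp [im]
  have h4 : Ψ ⟨fun x => (h x : ℂ), by fun_prop⟩ = (Φ h : ℂ) := by
    show (Φ (re _) : ℂ) + Complex.I * (Φ (im _) : ℂ) = _
    rw [h2, h3]; simp
  rw [h4, Complex.norm_real, Real.norm_eq_abs] at h1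
  simpa using h1

/-- A quasi-equicontinuous, separately continuous action on a compact space. -/
structure Act {S K : Type*} [Semigroup S] [TopologicalSpace S] [TopologicalSpace K]
    (T : S → K → K) : Prop where
  mul : ∀ s t x, T (s * t) x = T s (T t x)
  cont : ∀ s, Continuous (T s)
  cont_left : ∀ x, Continuous fun s => T s x
  quasi : ∀ f ∈ closure (range T), Continuous f

section

variable {S K : Type*} [Semigroup S] [TopologicalSpace S] [SeparatelyContinuousMul S]
variable [TopologicalSpace K] [CompactSpace K] [T2Space K] {T : S → K → K}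

/-- the function `s ↦ F (T_s y)` -/
noncomputable def gg (hT : Act T) (F : C(K, ℝ)) (y : K) : S →ᵇ ℝ :=
  (BoundedContinuousFunction.mkOfCompact F).compContinuous ⟨fun s => T s y, hT.cont_left y⟩

lemma gg_apply (hT : Act T) (F : C(K, ℝ)) (y : K) (s : S) : gg hT F y s = F (T s y) := rfl

theorem gg_wap (hT : Act T) (F : C(K, ℝ)) (y : K) : IsWAP (gg hT F y) := by
  letI : MeasurableSpace K := borel K
  haveI : BorelSpace K := ⟨rfl⟩
  -- the compact set of limit maps
  let Sg : Set (K → K) := closure (range T)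
  have hSg : IsCompact Sg := isClosed_closure.isCompact
  haveI : CompactSpace Sg := isCompact_iff_compactSpace.1 hSg
  let Ψ : Sg → (S →ᵇ ℝ) := fun σ =>
    (BoundedContinuousFunction.mkOfCompact (F.comp ⟨σ.1, hT.quasi σ.1 σ.2⟩)).compContinuous
      ⟨fun s => T s y, hT.cont_left y⟩
  have hΨ : ∀ (σ : Sg) s, Ψ σ s = F (σ.1 (T s y)) := fun σ s => rfl
  have hφK : ∀ σ : Sg, Continuous fun x => F (σ.1 x) := fun σ =>
    F.continuous.comp (hT.quasi σ.1 σ.2)
  have hφA : ∀ x, Continuous fun σ : Sg => F (σ.1 x) := fun x =>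
    F.continuous.comp ((continuous_apply x).comp continuous_subtype_val)
  have hM : ∀ (σ : Sg) x, |F (σ.1 x)| ≤ ‖F‖ := fun σ x => F.norm_coe_le_norm _
  have hcont : Continuous fun σ => toWeakSpace ℝ (S →ᵇ ℝ) (Ψ σ) := by
    refine WeakBilin.continuous_of_continuous_eval _ fun Λ => ?_
    show Continuous fun σ => Λ (Ψ σ)
    -- pull the functional back to `C(K)`
    let R : C(K, ℝ) →ₗ[ℝ] (S →ᵇ ℝ) :=
      { toFun := fun h => (BoundedContinuousFunction.mkOfCompact h).compContinuous
          ⟨fun s => T s y, hT.cont_left y⟩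
        map_add' := fun f g => rfl
        map_smul' := fun c f => rfl }
    have hR : ∀ h, ‖R h‖ ≤ 1 * ‖h‖ := by
      intro h
      rw [one_mul]
      refine (BoundedContinuousFunction.norm_le (norm_nonneg _)).2 fun s => ?_
      exact h.norm_coe_le_norm _
    let Φ : C(K, ℝ) →L[ℝ] ℝ := Λ.comp (R.mkContinuous 1 hR)
    obtain ⟨ν, hν, hdom⟩ := real_dom Φ
    rw [continuous_iff_continuousAt]
    intro σ₀
    rw [ContinuousAt, Metric.tendsto_nhds]
    intro ε hε
    filter_upwards [eventually_l1 hφK hφA hM ν σ₀ hε] with σ hσ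
    rw [Real.dist_eq, ← map_sub]
    have h1 : Ψ σ - Ψ σ₀ = R (F.comp ⟨σ.1, hT.quasi σ.1 σ.2⟩ - F.comp ⟨σ₀.1, hT.quasi σ₀.1 σ₀.2⟩) := by
      rfl
    rw [h1]
    refine lt_of_le_of_lt (hdom _) ?_
    exact hσ
  have hcomp : IsCompact (range fun σ => toWeakSpace ℝ (S →ᵇ ℝ) (Ψ σ)) := isCompact_range hcont
  refine hcomp.closure_of_subset ?_
  rintro _ ⟨_, ⟨a, rfl⟩, rfl⟩
  refine ⟨⟨T a, subset_closure ⟨a, rfl⟩⟩, ?_⟩
  refine congrArg (toWeakSpace ℝ (S →ᵇ ℝ)) ?_
  ext s
  show F (T a (T s y)) = F (T (a * s) y)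
  rw [hT.mul]

end

end Pool.Agent.Q86.FixW
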