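import Pool.Agent.Q86.FrMod

set_option autoImplicit false

/-!
# Injective coresolutions of Fréchet modules
-/

namespace Pool.Agent.Q86.FrMod

universe u v

variable {A : FrechetAlgebra.{v}}

/-- An injective coresolution `0 → X → J 0 → J 1 → J 2 → ...` of the Fréchet module `X`: a complex
of Fréchet modules and morphisms in which every `J k` is injective, together with a contracting
homotopy consisting of continuous linear maps `s : J 0 → X` and `t k : J (k + 1) → J k`. -/
structure InjectiveCoresolution (X : FrechetModule.{u, v} A) : Type (max v (u + 1)) where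
  J : ℕ → FrechetModule.{u, v} A
  injective : ∀ k, IsInjective (J k)
  ι : X.carrier →L[ℂ] (J 0).carrier
  ι_morphism : IsMorphism ι
  d : ∀ k, (J k).carrier →L[ℂ] (J (k + 1)).carrier
  d_morphism : ∀ k, IsMorphism (d k)
  d_ι : ∀ x, d 0 (ι x) = 0
  d_d : ∀ k x, d (k + 1) (d k x) = 0
  s : (J 0).carrier →L[ℂ] X.carrier
  t : ∀ k, (J (k + 1)).carrier →L[ℂ] (J k).carrier
  s_ι : ∀ x, s (ι x) = x
  homotopy_zero : ∀ x, ι (s x) + t 0 (d 0 x) = x
  homotopy_succ : ∀ k x, d k (t k x) + t (k + 1) (d (k + 1) x) = x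

end Pool.Agent.Q86.FrMod
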