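import Mathlib

set_option autoImplicit false

/-!
# Fréchet algebras and Fréchet modules

All spaces are complex.  A Fréchet space is a complete metrizable locally convex space.
Algebras are associative and not assumed unital; the multiplication is jointly continuous.
-/

namespace Pool.Agent.Q86.FrMod

open TopologicalSpace

universe u v

/-- A topological vector space over `ℂ` is a Fréchet space: it is locally convex and completely
metrizable (and addition and scalar multiplication are continuous). -/
class IsFrechet (E : Type u) [AddCommGroup E] [Module ℂ E] [TopologicalSpace E] : Prop where
  continuous_add_sub : IsTopologicalAddGroup E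
  continuous_smul : ContinuousSMul ℂ E
  locally_convex : LocallyConvexSpace ℝ E
  completely_metrizable : IsCompletelyMetrizableSpace E

attribute [instance] IsFrechet.continuous_add_sub IsFrechet.continuous_smul
  IsFrechet.locally_convex IsFrechet.completely_metrizable

/-- A Fréchet algebra: a Fréchet space with an associative jointly continuous bilinear
multiplication (no unit is required). -/
structure FrechetAlgebra : Type (u + 1) where
  carrier : Type u
  [ring : NonUnitalRing carrier]
  [module : Module ℂ carrier]
  [tower : IsScalarTower ℂ carrier carrier]
  [comm : SMulCommClass ℂ carrier carrier]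
  [topology : TopologicalSpace carrier]
  [frechet : IsFrechet carrier]
  [continuous_mul : ContinuousMul carrier]

attribute [instance] FrechetAlgebra.ring FrechetAlgebra.module FrechetAlgebra.tower
  FrechetAlgebra.comm FrechetAlgebra.topology FrechetAlgebra.frechet
  FrechetAlgebra.continuous_mul

/-- A Fréchet (left) module over the Fréchet algebra `A`: a Fréchet space `X` with a bilinear
jointly continuous action `A × X → X` satisfying `(a b) x = a (b x)`. -/
structure FrechetModule (A : FrechetAlgebra.{v}) : Type (max v (u + 1)) where
  carrier : Type u
  [group : AddCommGroup carrier]
  [module : Module ℂ carrier]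
  [topology : TopologicalSpace carrier]
  [frechet : IsFrechet carrier]
  act : A.carrier →ₗ[ℂ] carrier →ₗ[ℂ] carrier
  act_mul : ∀ (a b : A.carrier) (x : carrier), act (a * b) x = act a (act b x)
  act_continuous : Continuous fun p : A.carrier × carrier => act p.1 p.2

attribute [instance] FrechetModule.group FrechetModule.module FrechetModule.topology
  FrechetModule.frechet

variable {A : FrechetAlgebra.{v}}

/-- A continuous linear map between Fréchet modules is a morphism if it commutes with the
actions. -/
def IsMorphism {X Y : FrechetModule.{u, v} A} (f : X.carrier →L[ℂ] Y.carrier) : Prop :=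
  ∀ (a : A.carrier) (x : X.carrier), f (X.act a x) = Y.act a (f x)

/-- `J` is an injective Fréchet module: every morphism `φ : J → Y` of Fréchet modules that has a
continuous linear left inverse has a left inverse that is a morphism of Fréchet modules. -/
def IsInjective (J : FrechetModule.{u, v} A) : Prop :=
  ∀ (Y : FrechetModule.{u, v} A) (φ : J.carrier →L[ℂ] Y.carrier), IsMorphism φ →
    (∃ ψ : Y.carrier →L[ℂ] J.carrier, ∀ x, ψ (φ x) = x) →
    ∃ ψ : Y.carrier →L[ℂ] J.carrier, IsMorphism ψ ∧ ∀ x, ψ (φ x) = x

end Pool.Agent.Q86.FrMod
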