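import Mathlib

set_option autoImplicit false

/-!
# Hilbert modules, reduced linking algebras and blockwise conditional expectations
-/

namespace Pool.Agent.Q86.HMod

universe u v

/-- The data of a right Hilbert module over `B`: a complex normed space, a right action
`act x b = x b` of `B` and a `B`-valued inner product. -/
structure HilbertData (B : Type u) : Type (max u (v + 1)) where
  carrier : Type v
  [normed : NormedAddCommGroup carrier]
  [normedSpace : NormedSpace ℂ carrier]
  act : carrier → B → carrier
  inner : carrier → carrier → B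

attribute [instance] HilbertData.normed HilbertData.normedSpace

/-- The action is bilinear and associative. -/
structure IsRightAction {B : Type u} [NonUnitalCStarAlgebra B] (E : HilbertData.{u, v} B) :
    Prop where
  act_add : ∀ x (b c : B), E.act x (b + c) = E.act x b + E.act x c
  add_act : ∀ x y (b : B), E.act (x + y) b = E.act x b + E.act y b
  act_smul : ∀ x (c : ℂ) (b : B), E.act x (c • b) = c • E.act x b
  smul_act : ∀ (c : ℂ) x (b : B), E.act (c • x) b = c • E.act x b
  act_act : ∀ x (b c : B), E.act (E.act x b) c = E.act x (b * c)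

/-- The inner product is linear in the second variable, compatible with the action, hermitian and
positive, and it induces the norm. -/
structure IsInnerProduct {B : Type u} [NonUnitalCStarAlgebra B] (E : HilbertData.{u, v} B) :
    Prop where
  inner_add : ∀ x y z, E.inner x (y + z) = E.inner x y + E.inner x z
  inner_smul : ∀ x y (c : ℂ), E.inner x (c • y) = c • E.inner x y
  inner_act : ∀ x y b, E.inner x (E.act y b) = E.inner x y * b
  star_inner : ∀ x y, star (E.inner x y) = E.inner y x
  inner_self : ∀ x, ∃ b : B, E.inner x x = star b * b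
  norm_sq : ∀ x, ‖x‖ ^ 2 = ‖E.inner x x‖

/-- A right Hilbert module over the C*-algebra `B`, with inner product linear in the second
variable. -/
structure HilbertModule (B : Type u) [NonUnitalCStarAlgebra B] : Type (max u (v + 1)) extends
    HilbertData.{u, v} B where
  complete : CompleteSpace carrier
  action : IsRightAction toHilbertData
  product : IsInnerProduct toHilbertData

section defs

variable {B : Type u} [NonUnitalCStarAlgebra B] (E : HilbertModule.{u, v} B)

/-- A closed ternary subspace: a closed linear subspace `F` with `x ⟨y, z⟩ ∈ F` for all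
`x y z ∈ F`. -/
def IsTernary (F : Submodule ℂ E.carrier) : Prop :=
  IsClosed {x | x ∈ F} ∧ ∀ x y z, x ∈ F → y ∈ F → z ∈ F → E.act x (E.inner y z) ∈ F

/-- The closed linear span of the inner products `⟨x, y⟩` with `x y ∈ F`. -/
def coeff (F : Submodule ℂ E.carrier) : Set B :=
  closure {b | ∃ (n : ℕ) (x y : Fin n → E.carrier), (∀ i, x i ∈ F) ∧ (∀ i, y i ∈ F) ∧
    b = ∑ i, E.inner (x i) (y i)}

/-- The set `coeff E F ⊕ F` of elements of `B ⊕ E`. -/
def corePart (F : Submodule ℂ E.carrier) : Set (B × E.carrier) :=
  {z | z.1 ∈ coeff E F ∧ z.2 ∈ F}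

/-- The `B`-valued inner product of the Hilbert module `B ⊕ E`. -/
def dinner (v z : B × E.carrier) : B := star v.1 * z.1 + E.inner v.2 z.2

/-- The norm of the Hilbert module `B ⊕ E`. -/
noncomputable def hnorm (z : B × E.carrier) : ℝ := √‖dinner E z z‖

/-- The maps of `B ⊕ E` into itself.  (All the maps in the linking algebra are linear.) -/
abbrev Op : Type (max u v) := B × E.carrier → B × E.carrier

/-- `OpNormLE E T C`: for all `z`, the norm of `T z` is at most `C` times the norm of `z` (in the
Hilbert module `B ⊕ E`). -/
def OpNormLE (T : Op E) (C : ℝ) : Prop := ∀ z, hnorm E (T z) ≤ C * hnorm E z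

/-- The rank-one operator `z ↦ u ⟨v, z⟩` on the Hilbert module `B ⊕ E`. -/
def rankOne (u v : B × E.carrier) : Op E :=
  fun z => (u.1 * dinner E v z, E.act u.2 (dinner E v z))

/-- The linear span of the rank-one operators `z ↦ u ⟨v, z⟩`, with `u v` in `coeff E F ⊕ F`. -/
def preLinking (F : Submodule ℂ E.carrier) : Set (Op E) :=
  {T | ∃ (n : ℕ) (u v : Fin n → B × E.carrier), (∀ i, u i ∈ corePart E F) ∧
    (∀ i, v i ∈ corePart E F) ∧ ∀ z, T z = ∑ i, rankOne E (u i) (v i) z}

/-- The reduced linking algebra of the closed ternary subspace `F` of `E`, as an algebra of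
operators on the Hilbert module `B ⊕ E`: the operator norm closure of `preLinking E F`.  For
`F = ⊤` it is the reduced linking algebra of `E`. -/
def linking (F : Submodule ℂ E.carrier) : Set (Op E) :=
  {T | ∀ ε > 0, ∃ S ∈ preLinking E F, OpNormLE E (T - S) ε}

/-- The projection of `B ⊕ E` onto `B` (for `i = 0`) or onto `E` (for `i = 1`). -/
def proj (i : Fin 2) : Op E := fun z => if i = 0 then (z.1, 0) else (0, z.2)

/-- The element of the `21`-corner given by `x ∈ E`, that is, the operator `(b, y) ↦ (0, x b)`. -/
def corner (x : E.carrier) : Op E := fun z => (0, E.act x z.1)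

/-- The operator `T` on `B ⊕ E` belongs to the `ij`-corner: `pᵢ T pⱼ = T`. -/
def InCorner (i j : Fin 2) (T : Op E) : Prop := ∀ z, proj E i (T (proj E j z)) = T z

/-- `Φ` is linear on the set `L` of operators on `B ⊕ E`. -/
def LinearOn (L : Set (Op E)) (Φ : Op E → Op E) : Prop :=
  (∀ S ∈ L, ∀ T ∈ L, Φ (S + T) = Φ S + Φ T) ∧ ∀ (c : ℂ), ∀ T ∈ L, Φ (c • T) = c • Φ T

/-- `IsBlockwiseCE E F Φ`: the map `Φ`, considered on the reduced linking algebra of `E`, is a
blockwise conditional expectation onto the reduced linking algebra of the closed ternary subspace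
`F`: it is linear, maps the first algebra into the second, is the identity on the second,
has norm at most one, and maps each of the four corners of the first algebra into the same
corner. -/
structure IsBlockwiseCE (F : Submodule ℂ E.carrier) (Φ : Op E → Op E) : Prop where
  linear : LinearOn E (linking E ⊤) Φ
  maps_into : ∀ T ∈ linking E ⊤, Φ T ∈ linking E F
  idempotent : ∀ T ∈ linking E F, Φ T = T
  contractive : ∀ T ∈ linking E ⊤, ∀ C : ℝ, OpNormLE E T C → OpNormLE E (Φ T) C
  blockwise : ∀ T ∈ linking E ⊤, ∀ i j : Fin 2, InCorner E i j T → InCorner E i j (Φ T)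

/-- The linear map `P` on `E` is the `21`-corner of a blockwise conditional expectation of the
reduced linking algebra of `E` onto that of `F`. -/
def ExtendsToCE (F : Submodule ℂ E.carrier) (P : E.carrier →ₗ[ℂ] E.carrier) : Prop :=
  ∃ Φ : Op E → Op E, IsBlockwiseCE E F Φ ∧ ∀ x, Φ (corner E x) = corner E (P x)

/-- `P` is a linear idempotent of `E` with range `F`. -/
def IsIdempotentOnto (F : Submodule ℂ E.carrier) (P : E.carrier →ₗ[ℂ] E.carrier) : Prop :=
  (∀ x, P x ∈ F) ∧ ∀ x ∈ F, P x = x

/-- The ternary identity `P (P x ⟨y, P z⟩) = P x ⟨P y, P z⟩`. -/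
def TernaryIdentity (P : E.carrier →ₗ[ℂ] E.carrier) : Prop :=
  ∀ x y z, P (E.act (P x) (E.inner y (P z))) = E.act (P x) (E.inner (P y) (P z))

end defs

end Pool.Agent.Q86.HMod
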