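import Pool.Agent.Q86.HMod

set_option autoImplicit false

/-!
# Two examples about blockwise conditional expectations
-/

namespace Pool.Agent.Q86.HMod

section general

variable (B : Type) [CStarAlgebra B]

/-- The unital C*-algebra `B` as a Hilbert module over itself. -/
noncomputable abbrev self : HilbertModule.{0, 0} B where
  carrier := B
  act x b := x * b
  inner x y := star x * y
  complete := inferInstance
  action :=
    { act_add := fun x b c => mul_add x b c
      add_act := fun x y b => add_mul x y b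
      act_smul := fun x c b => mul_smul_comm c x b
      smul_act := fun c x b => smul_mul_assoc c x b
      act_act := fun x b c => mul_assoc x b c }
  product :=
    { inner_add := fun x y z => mul_add (star x) y z
      inner_smul := fun x y c => mul_smul_comm c (star x) y
      inner_act := fun x y b => (mul_assoc (star x) y b).symm
      star_inner := fun x y => by rw [star_mul, star_star]
      inner_self := fun x => ⟨x, rfl⟩
      norm_sq := fun x => by rw [CStarRing.norm_star_mul_self, sq] }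

theorem self_act (x b : B) : (self B).act x b = x * b := rfl

theorem self_inner (x y : B) : (self B).inner x y = star x * y := rfl

theorem dinner_self (v z : B × B) : dinner (self B) v z = star v.1 * z.1 + star v.2 * z.2 := rfl

theorem rankOne_self (u v z : B × B) : rankOne (self B) u v z =
    (u.1 * (star v.1 * z.1 + star v.2 * z.2), u.2 * (star v.1 * z.1 + star v.2 * z.2)) := rfl

theorem corner_self (x : B) (z : B × B) : corner (self B) x z = ((0 : B), x * z.1) := rfl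

theorem norm_fst_le (z : B × B) : ‖z.1‖ ≤ hnorm (self B) z := by
  let _ := CStarAlgebra.spectralOrder B
  have _ := CStarAlgebra.spectralOrderedRing B
  apply Real.le_sqrt_of_sq_le
  rw [dinner_self, sq, ← CStarRing.norm_star_mul_self]
  apply CStarAlgebra.norm_le_norm_of_nonneg_of_le (star_mul_self_nonneg _)
  exact le_add_of_nonneg_right (star_mul_self_nonneg _)

theorem norm_snd_le (z : B × B) : ‖z.2‖ ≤ hnorm (self B) z := by
  let _ := CStarAlgebra.spectralOrder B
  have _ := CStarAlgebra.spectralOrderedRing B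
  apply Real.le_sqrt_of_sq_le
  rw [dinner_self, sq, ← CStarRing.norm_star_mul_self]
  apply CStarAlgebra.norm_le_norm_of_nonneg_of_le (star_mul_self_nonneg _)
  exact le_add_of_nonneg_left (star_mul_self_nonneg _)

theorem hnorm_left (b : B) : hnorm (self B) (b, (0 : B)) = ‖b‖ := by
  rw [hnorm, dinner_self, mul_zero, add_zero, CStarRing.norm_star_mul_self,
    Real.sqrt_mul_self (norm_nonneg _)]

theorem hnorm_right (b : B) : hnorm (self B) ((0 : B), b) = ‖b‖ := by
  rw [hnorm, dinner_self, mul_zero, zero_add, CStarRing.norm_star_mul_self,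
    Real.sqrt_mul_self (norm_nonneg _)]

theorem norm_one_le : ‖(1 : B)‖ ≤ 1 := by
  rcases subsingleton_or_nontrivial B with h | h
  · rw [Subsingleton.elim (1 : B) 0]; simp
  · simp

theorem inner_mem_coeff {F : Submodule ℂ B} {x y : B} (hx : x ∈ F) (hy : y ∈ F) :
    star x * y ∈ coeff (self B) F := by
  apply subset_closure
  exact ⟨1, fun _ => x, fun _ => y, fun _ => hx, fun _ => hy, by simp⟩

theorem mem_coeff_top (b : B) : b ∈ coeff (self B) ⊤ := by
  have h := inner_mem_coeff B (F := ⊤) (x := 1) (y := b) trivial trivial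
  rwa [star_one, one_mul] at h

theorem mem_core_top (z : B × B) : z ∈ corePart (self B) ⊤ := ⟨mem_coeff_top B _, trivial⟩

theorem mem_linking_of_pre {F : Submodule ℂ B} {T : Op (self B)}
    (hT : T ∈ preLinking (self B) F) : T ∈ linking (self B) F := by
  intro ε hε
  refine ⟨T, hT, fun z => ?_⟩
  have h1 : (T - T) z = ((0 : B), (0 : B)) := by rw [sub_self]; rfl
  rw [h1, hnorm_left, norm_zero]
  exact mul_nonneg hε.le (Real.sqrt_nonneg _)

theorem rankOne_mem_pre {F : Submodule ℂ B} {u v : B × B} (hu : u ∈ corePart (self B) F)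
    (hv : v ∈ corePart (self B) F) : rankOne (self B) u v ∈ preLinking (self B) F :=
  ⟨1, fun _ => u, fun _ => v, fun _ => hu, fun _ => hv, fun z => by simp⟩

theorem rankOne_mem (u v : B × B) : rankOne (self B) u v ∈ linking (self B) ⊤ :=
  mem_linking_of_pre B (rankOne_mem_pre B (mem_core_top B u) (mem_core_top B v))

theorem corner_eq (x : B) :
    corner (self B) x = rankOne (self B) ((0 : B), x) ((1 : B), (0 : B)) := by
  funext z
  rw [rankOne_self]
  change ((0 : B), x * z.1) = _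
  simp

theorem corner_mem (x : B) : corner (self B) x ∈ linking (self B) ⊤ := by
  rw [corner_eq]; exact rankOne_mem B _ _

/-- A map on `B` that is the `21`-corner of a blockwise conditional expectation is a
contraction. -/
theorem contractive_of_extends {F : Submodule ℂ B} {P : B →ₗ[ℂ] B}
    (h : ExtendsToCE (self B) F P) (x : B) : ‖P x‖ ≤ ‖x‖ := by
  obtain ⟨Φ, hΦ, hP⟩ := h
  have h0 : OpNormLE (self B) (corner (self B) x) ‖x‖ := by
    intro z
    have h1 : hnorm (self B) (corner (self B) x z) = ‖x * z.1‖ := hnorm_right B _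
    rw [h1]
    exact (norm_mul_le _ _).trans
      (mul_le_mul_of_nonneg_left (norm_fst_le B z) (norm_nonneg _))
  have h1 := hΦ.contractive _ (corner_mem B x) _ h0 ((1 : B), (0 : B))
  rw [hP] at h1
  have h2 : hnorm (self B) (corner (self B) (P x) ((1 : B), (0 : B))) = ‖P x * 1‖ :=
    hnorm_right B _
  have h3 : hnorm (self B) ((1 : B), (0 : B)) = ‖(1 : B)‖ := hnorm_left B _
  have h4 : ‖P x * 1‖ ≤ ‖x‖ * ‖(1 : B)‖ := by
    rw [← h2, ← h3]; exact h1
  rw [mul_one] at h4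
  exact h4.trans (mul_le_of_le_one_right (norm_nonneg _) (norm_one_le B))

end general

/-! ### A two-dimensional example -/

section twodim

/-- The map `(s, t) ↦ (2 s - t, 2 s - t)` on `ℂ × ℂ`. -/
noncomputable def skew : (ℂ × ℂ) →ₗ[ℂ] (ℂ × ℂ) :=
  ((2 : ℂ) • LinearMap.fst ℂ ℂ ℂ - LinearMap.snd ℂ ℂ ℂ).smulRight ((1 : ℂ), (1 : ℂ))

theorem skew_apply (x : ℂ × ℂ) : skew x = (2 * x.1 - x.2, 2 * x.1 - x.2) := by
  simp [skew]

theorem skew_idem (x : ℂ × ℂ) : skew (skew x) = skew x := by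
  simp only [skew_apply]; ext <;> ring

theorem skew_identity (x y z : ℂ × ℂ) :
    skew (skew x * (star y * skew z)) = skew x * (star (skew y) * skew z) := by
  simp only [skew_apply, Prod.mul_def, Prod.fst_star, Prod.snd_star, star_sub, star_mul']
  have : star (2 : ℂ) = 2 := by simp
  rw [this]
  ext <;> ring

theorem skew_norm : ‖((1 : ℂ), (-1 : ℂ))‖ < ‖skew ((1 : ℂ), (-1 : ℂ))‖ := by
  rw [skew_apply, Prod.norm_def, Prod.norm_def]
  norm_num

theorem not_extends_skew (F : Submodule ℂ (ℂ × ℂ)) : ¬ ExtendsToCE (self (ℂ × ℂ)) F skew := by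
  intro h
  exact absurd (contractive_of_extends (ℂ × ℂ) h ((1 : ℂ), (-1 : ℂ))) (not_le.2 skew_norm)

theorem isTernary_range_skew : IsTernary (self (ℂ × ℂ)) (skew : (ℂ × ℂ) →ₗ[ℂ] (ℂ × ℂ)).range := by
  refine ⟨Submodule.closed_of_finiteDimensional (skew : (ℂ × ℂ) →ₗ[ℂ] (ℂ × ℂ)).range, ?_⟩
  rintro _ _ _ ⟨x, rfl⟩ ⟨y, rfl⟩ ⟨z, rfl⟩
  exact ⟨_, skew_identity x y z⟩

theorem isIdempotentOnto_skew : IsIdempotentOnto (self (ℂ × ℂ))
    (skew : (ℂ × ℂ) →ₗ[ℂ] (ℂ × ℂ)).range skew :=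
  ⟨fun x => ⟨x, rfl⟩, by rintro _ ⟨x, rfl⟩; exact skew_idem x⟩

end twodim

/-! ### The bounded operators on a Hilbert space -/

section compact

variable {H : Type} [NormedAddCommGroup H] [InnerProductSpace ℂ H] [CompleteSpace H]

/-- The ternary subspace `{x : e x = x}` of the algebra of bounded operators, where `e` is the
projection onto the line spanned by the unit vector `ξ`. -/
noncomputable def rowSpace (ξ : H) : Submodule ℂ (H →L[ℂ] H) where
  carrier := {x | InnerProductSpace.rankOne ℂ ξ ξ * x = x}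
  add_mem' {x y} hx hy := by
    simp only [Set.mem_ofPred_eq] at hx hy ⊢
    rw [mul_add, hx, hy]
  zero_mem' := by simp
  smul_mem' c x hx := by
    simp only [Set.mem_ofPred_eq] at hx ⊢
    rw [mul_smul_comm, hx]

omit [CompleteSpace H] in
theorem mem_rowSpace {ξ : H} {x : H →L[ℂ] H} :
    x ∈ rowSpace ξ ↔ InnerProductSpace.rankOne ℂ ξ ξ * x = x := Iff.rfl

theorem isTernary_rowSpace (ξ : H) : IsTernary (self (H →L[ℂ] H)) (rowSpace ξ) := by
  refine ⟨?_, fun x y z hx _ _ => ?_⟩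
  · exact isClosed_eq (continuous_const.mul continuous_id) continuous_id
  · have hx' := mem_rowSpace.1 hx
    apply mem_rowSpace.2
    rw [self_act, ← mul_assoc, hx']

omit [CompleteSpace H] in
theorem isCompact_rankOne (ξ η : H) : IsCompactOperator (InnerProductSpace.rankOne ℂ ξ η) := by
  have h : IsCompactOperator (innerSL ℂ η : H →L[ℂ] ℂ) :=
    isCompactOperator_of_locallyCompactSpace_dom _
  exact h.clm_comp (ContinuousLinearMap.toSpanSingleton ℂ ξ)

theorem coeff_rowSpace {ξ : H} {b : H →L[ℂ] H}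
    (hb : b ∈ coeff (self (H →L[ℂ] H)) (rowSpace ξ)) : IsCompactOperator b := by
  have h : coeff (self (H →L[ℂ] H)) (rowSpace ξ) ⊆ {f : H →L[ℂ] H | IsCompactOperator f} := by
    apply closure_minimal _ isClosed_setOfPred_isCompactOperator
    rintro _ ⟨n, x, y, _, hy, rfl⟩
    have h1 : ∑ i, star (x i) * y i ∈ compactOperator (RingHom.id ℂ) H H := by
      refine Submodule.sum_mem _ fun i _ => ?_
      have hi := mem_rowSpace.1 (hy i)
      rw [← hi]
      exact ((isCompact_rankOne ξ ξ).comp_clm (y i)).clm_comp (star (x i))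
    exact h1
  exact h hb

theorem preLinking_fst_compact {ξ : H} {T : Op (self (H →L[ℂ] H))}
    (hT : T ∈ preLinking (self (H →L[ℂ] H)) (rowSpace ξ)) :
    IsCompactOperator (T ((1 : H →L[ℂ] H), (0 : H →L[ℂ] H))).1 := by
  obtain ⟨n, u, v, hu, -, h⟩ := hT
  rw [h, Prod.fst_sum]
  have h1 : ∑ i, (rankOne (self (H →L[ℂ] H)) (u i) (v i)
      ((1 : H →L[ℂ] H), (0 : H →L[ℂ] H))).1 ∈ compactOperator (RingHom.id ℂ) H H := by
    refine Submodule.sum_mem _ fun i _ => ?_
    exact (coeff_rowSpace (hu i).1).comp_clm _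
  exact h1

theorem linking_fst_compact {ξ : H} {T : Op (self (H →L[ℂ] H))}
    (hT : T ∈ linking (self (H →L[ℂ] H)) (rowSpace ξ)) :
    IsCompactOperator (T ((1 : H →L[ℂ] H), (0 : H →L[ℂ] H))).1 := by
  have h : (T ((1 : H →L[ℂ] H), (0 : H →L[ℂ] H))).1 ∈
      closure {f : H →L[ℂ] H | IsCompactOperator f} := by
    rw [Metric.mem_closure_iff]
    intro ε hε
    obtain ⟨S, hS, hST⟩ := hT (ε / 2) (half_pos hε)
    refine ⟨_, preLinking_fst_compact hS, ?_⟩
    rw [dist_eq_norm]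
    have h1 := hST ((1 : H →L[ℂ] H), (0 : H →L[ℂ] H))
    have h2 : hnorm (self (H →L[ℂ] H)) ((1 : H →L[ℂ] H), (0 : H →L[ℂ] H)) = ‖(1 : H →L[ℂ] H)‖ :=
      hnorm_left _ _
    have h3 := norm_fst_le (H →L[ℂ] H) ((T - S) ((1 : H →L[ℂ] H), (0 : H →L[ℂ] H)))
    have h4 := norm_one_le (H →L[ℂ] H)
    have h5 : ‖((T - S) ((1 : H →L[ℂ] H), (0 : H →L[ℂ] H))).1‖ ≤ ε / 2 := by
      refine h3.trans (h1.trans ?_)
      rw [h2]
      exact mul_le_of_le_one_right (half_pos hε).le h4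
    exact lt_of_le_of_lt h5 (half_lt_self hε)
  rwa [isClosed_setOfPred_isCompactOperator.closure_eq] at h

theorem finiteDimensional_of_bounded_below {k : H →L[ℂ] H} (hk : IsCompactOperator k)
    (h : ∀ x, ‖x‖ ≤ ‖k x‖) : FiniteDimensional ℂ H := by
  have hanti : AntilipschitzWith 1 k := by
    apply AddMonoidHomClass.antilipschitz_of_bound
    intro x
    simpa using h x
  have hemb : Topology.IsClosedEmbedding k :=
    hanti.isClosedEmbedding k.uniformContinuous
  have h1 := hk.image_closedBall_subset_compact (f := (k : H →ₗ[ℂ] H)) 1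
  obtain ⟨K, hK, hKs⟩ := h1
  have h2 : IsCompact (k ⁻¹' K) := hemb.isCompact_preimage hK
  have h3 : IsCompact (Metric.closedBall (0 : H) 1) := by
    apply h2.of_isClosed_subset Metric.isClosed_closedBall
    intro x hx
    exact hKs ⟨x, hx, rfl⟩
  exact FiniteDimensional.of_isCompact_closedBall₀ ℂ zero_lt_one h3

theorem mem_coeff_row {ξ η : H} (hξ : ‖ξ‖ = 1) :
    InnerProductSpace.rankOne ℂ η η ∈ coeff (self (H →L[ℂ] H)) (rowSpace ξ) := by
  have h1 : InnerProductSpace.rankOne ℂ ξ η ∈ rowSpace ξ := by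
    rw [mem_rowSpace, ContinuousLinearMap.mul_def, InnerProductSpace.rankOne_comp_rankOne,
      inner_self_eq_norm_sq_to_K, hξ]
    simp
  have h2 := inner_mem_coeff _ h1 h1
  have h3 : star (InnerProductSpace.rankOne ℂ ξ η : H →L[ℂ] H) *
      InnerProductSpace.rankOne ℂ ξ η = InnerProductSpace.rankOne ℂ η η := by
    rw [ContinuousLinearMap.star_eq_adjoint,
      InnerProductSpace.adjoint_rankOne, ContinuousLinearMap.mul_def,
      InnerProductSpace.rankOne_comp_rankOne, inner_self_eq_norm_sq_to_K, hξ]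
    simp
  rwa [h3] at h2

/-- The contractive idempotent `x ↦ e x` onto `rowSpace ξ`. -/
noncomputable def rowProj (ξ : H) : (H →L[ℂ] H) →ₗ[ℂ] (H →L[ℂ] H) where
  toFun x := InnerProductSpace.rankOne ℂ ξ ξ * x
  map_add' _ _ := mul_add _ _ _
  map_smul' _ _ := mul_smul_comm _ _ _

omit [CompleteSpace H] in
theorem rowProj_apply (ξ : H) (x : H →L[ℂ] H) :
    rowProj ξ x = InnerProductSpace.rankOne ℂ ξ ξ * x := rfl

omit [CompleteSpace H] in
theorem rowProj_mem {ξ : H} (hξ : ‖ξ‖ = 1) (x : H →L[ℂ] H) : rowProj ξ x ∈ rowSpace ξ := by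
  rw [mem_rowSpace, rowProj_apply, ← mul_assoc]
  rw [(InnerProductSpace.isIdempotentElem_rankOne_self hξ : _ = _)]

omit [CompleteSpace H] in
theorem norm_rowProj_le {ξ : H} (hξ : ‖ξ‖ = 1) (x : H →L[ℂ] H) : ‖rowProj ξ x‖ ≤ ‖x‖ := by
  rw [rowProj_apply]
  refine (norm_mul_le _ _).trans ?_
  rw [InnerProductSpace.norm_rankOne, hξ]
  simp

theorem norm_one_sub_two {η : H} (hη : ‖η‖ = 1) :
    ‖(1 : H →L[ℂ] H) - (2 : ℂ) • InnerProductSpace.rankOne ℂ η η‖ ≤ 1 := by
  set p : H →L[ℂ] H := InnerProductSpace.rankOne ℂ η η with hp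
  have hpp : p * p = p := InnerProductSpace.isIdempotentElem_rankOne_self hη
  have hps : star p = p := by
    rw [hp, ContinuousLinearMap.star_eq_adjoint, InnerProductSpace.adjoint_rankOne]
  have h1 : star ((1 : H →L[ℂ] H) - (2 : ℂ) • p) * ((1 : H →L[ℂ] H) - (2 : ℂ) • p) = 1 := by
    rw [star_sub, star_one, star_smul, hps]
    have : star (2 : ℂ) = 2 := by simp
    rw [this, sub_mul, mul_sub, mul_sub, smul_mul_smul_comm, hpp, one_mul, mul_one, one_mul]
    rw [show (2 : ℂ) * 2 = 2 + 2 by norm_num, add_smul]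
    abel
  have h2 := CStarRing.norm_star_mul_self (x := (1 : H →L[ℂ] H) - (2 : ℂ) • p)
  rw [h1] at h2
  have h3 : ‖(1 : H →L[ℂ] H)‖ ≤ 1 := ContinuousLinearMap.norm_id_le
  nlinarith [norm_nonneg ((1 : H →L[ℂ] H) - (2 : ℂ) • p)]

/-- In infinite dimensions there is no blockwise conditional expectation onto the linking algebra
of `rowSpace ξ`. -/
theorem not_extends {ξ : H} (hξ : ‖ξ‖ = 1) (hinf : ¬ FiniteDimensional ℂ H)
    (Φ : Op (self (H →L[ℂ] H)) → Op (self (H →L[ℂ] H))) :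
    ¬ IsBlockwiseCE (self (H →L[ℂ] H)) (rowSpace ξ) Φ := by
  intro hΦ
  apply hinf
  let e : (H →L[ℂ] H) × (H →L[ℂ] H) := ((1 : H →L[ℂ] H), (0 : H →L[ℂ] H))
  let T1 : Op (self (H →L[ℂ] H)) := rankOne (self (H →L[ℂ] H)) e e
  have hT1 : T1 ∈ linking (self (H →L[ℂ] H)) ⊤ := rankOne_mem _ _ _
  have hk := linking_fst_compact (hΦ.maps_into T1 hT1)
  let k : H →L[ℂ] H := (Φ T1 e).1
  change IsCompactOperator k at hk
  refine finiteDimensional_of_bounded_below hk ?_
  -- it suffices to treat unit vectors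
  suffices hunit : ∀ η : H, ‖η‖ = 1 → 1 ≤ ‖k η‖ by
    intro x
    rcases eq_or_ne x 0 with rfl | hx
    · simp
    have hx' : ‖x‖ ≠ 0 := norm_ne_zero_iff.2 hx
    have h1 := hunit (((‖x‖ : ℝ) : ℂ)⁻¹ • x) (by
      rw [norm_smul, norm_inv, Complex.norm_real, norm_norm, inv_mul_cancel₀ hx'])
    rw [map_smul, norm_smul, norm_inv, Complex.norm_real, norm_norm] at h1
    have h2 : 0 < ‖x‖ := norm_pos_iff.2 hx
    calc ‖x‖ = ‖x‖ * 1 := (mul_one _).symm
      _ ≤ ‖x‖ * (‖x‖⁻¹ * ‖k x‖) := mul_le_mul_of_nonneg_left h1 h2.le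
      _ = ‖k x‖ := by rw [← mul_assoc, mul_inv_cancel₀ hx', one_mul]
  intro η hη
  set p : H →L[ℂ] H := InnerProductSpace.rankOne ℂ η η with hp
  have hpp : p * p = p := InnerProductSpace.isIdempotentElem_rankOne_self hη
  have hps : star p = p := by
    rw [hp, ContinuousLinearMap.star_eq_adjoint, InnerProductSpace.adjoint_rankOne]
  let ep : (H →L[ℂ] H) × (H →L[ℂ] H) := (p, (0 : H →L[ℂ] H))
  let Tp : Op (self (H →L[ℂ] H)) := rankOne (self (H →L[ℂ] H)) ep ep
  have hTp : Tp ∈ linking (self (H →L[ℂ] H)) (rowSpace ξ) := by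
    apply mem_linking_of_pre
    exact rankOne_mem_pre _ ⟨mem_coeff_row hξ, Submodule.zero_mem (rowSpace ξ)⟩
      ⟨mem_coeff_row hξ, Submodule.zero_mem (rowSpace ξ)⟩
  let S : Op (self (H →L[ℂ] H)) := rankOne (self (H →L[ℂ] H)) ((-2 : ℂ) • ep) ep
  have hS : S = (-2 : ℂ) • Tp := by
    funext z
    change (((-2 : ℂ) • p) * _, ((-2 : ℂ) • (0 : H →L[ℂ] H)) * _) =
      ((-2 : ℂ) • (p * _), (-2 : ℂ) • ((0 : H →L[ℂ] H) * _))
    rw [smul_mul_assoc, smul_mul_assoc]
  have hSmem : S ∈ linking (self (H →L[ℂ] H)) ⊤ := rankOne_mem _ _ _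
  have hTpmem : Tp ∈ linking (self (H →L[ℂ] H)) ⊤ := rankOne_mem _ _ _
  have h1 : Φ (T1 + S) = Φ T1 + (-2 : ℂ) • Tp := by
    rw [hΦ.linear.1 T1 hT1 S hSmem, hS, hΦ.linear.2 _ Tp hTpmem, hΦ.idempotent Tp hTp]
  have hsum : T1 + S ∈ linking (self (H →L[ℂ] H)) ⊤ := by
    apply mem_linking_of_pre
    refine ⟨2, ![e, (-2 : ℂ) • ep], ![e, ep], fun _ => mem_core_top _ _,
      fun _ => mem_core_top _ _, fun z => ?_⟩
    rw [Fin.sum_univ_two]
    rfl
  have hNorm : OpNormLE (self (H →L[ℂ] H)) (T1 + S) 1 := by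
    intro z
    rw [hS]
    have h2 : (T1 + (-2 : ℂ) • Tp) z = ((1 - (2 : ℂ) • p) * z.1, (0 : H →L[ℂ] H)) := by
      change (((1 : H →L[ℂ] H) * (star (1 : H →L[ℂ] H) * z.1 + star (0 : H →L[ℂ] H) * z.2) +
        (-2 : ℂ) • (p * (star p * z.1 + star (0 : H →L[ℂ] H) * z.2))),
        ((0 : H →L[ℂ] H) * _ + (-2 : ℂ) • ((0 : H →L[ℂ] H) * _))) = _
      ext1
      · simp only [star_one, star_zero, one_mul, zero_mul, add_zero, hps, ← mul_assoc, hpp,
          sub_mul, smul_mul_assoc, neg_smul, ← sub_eq_add_neg]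
      · simp
    rw [h2]
    have h3 : hnorm (self (H →L[ℂ] H)) ((1 - (2 : ℂ) • p) * z.1, (0 : H →L[ℂ] H)) =
      ‖(1 - (2 : ℂ) • p) * z.1‖ := hnorm_left _ _
    rw [h3, one_mul]
    refine (norm_mul_le _ _).trans ?_
    refine (mul_le_of_le_one_left (norm_nonneg _) (norm_one_sub_two hη)).trans ?_
    exact norm_fst_le (H →L[ℂ] H) z
  have h4 := hΦ.contractive _ hsum _ hNorm e
  have h5 : ‖(Φ (T1 + S) e).1‖ ≤ hnorm (self (H →L[ℂ] H)) (Φ (T1 + S) e) :=
    norm_fst_le (H →L[ℂ] H) (Φ (T1 + S) e)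
  have h6 : hnorm (self (H →L[ℂ] H)) e = ‖(1 : H →L[ℂ] H)‖ := hnorm_left _ _
  rw [h6, one_mul] at h4
  have h7 : ‖(Φ (T1 + S) e).1‖ ≤ 1 := (h5.trans h4).trans (norm_one_le _)
  have h8 : (Φ (T1 + S) e).1 = k - (2 : ℂ) • p := by
    rw [h1]
    change k + (-2 : ℂ) • (p * (star p * (1 : H →L[ℂ] H) + star (0 : H →L[ℂ] H) * 0)) = _
    rw [hps, mul_one, mul_zero, add_zero, hpp, neg_smul, sub_eq_add_neg]
  rw [h8] at h7
  have h9 := ((k - (2 : ℂ) • p : H →L[ℂ] H)).le_opNorm η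
  rw [hη, mul_one] at h9
  have h10 : (k - (2 : ℂ) • p : H →L[ℂ] H) η = k η - (2 : ℂ) • η := by
    rw [_root_.sub_apply, _root_.smul_apply, hp,
      InnerProductSpace.rankOne_apply, inner_self_eq_norm_sq_to_K, hη]
    simp
  rw [h10] at h9
  have h11 : ‖(2 : ℂ) • η‖ = 2 := by rw [norm_smul, hη]; simp
  have h12 := norm_sub_norm_le ((2 : ℂ) • η) (k η)
  rw [norm_sub_rev] at h12
  linarith

theorem exists_not_extends {ξ : H} (hξ : ‖ξ‖ = 1) (hinf : ¬ FiniteDimensional ℂ H) :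
    ∃ (B : Type) (_ : NonUnitalCStarAlgebra B) (E : HilbertModule.{0, 0} B)
      (F : Submodule ℂ E.carrier) (P : E.carrier →ₗ[ℂ] E.carrier),
      IsTernary E F ∧ (∀ x, P x ∈ F) ∧ (∀ x ∈ F, P x = x) ∧ (∀ x, ‖P x‖ ≤ ‖x‖) ∧
      ¬ ExtendsToCE E F P ∧ ¬ ∃ Φ, IsBlockwiseCE E F Φ :=
  ⟨H →L[ℂ] H, inferInstance, self (H →L[ℂ] H), rowSpace ξ, rowProj ξ, isTernary_rowSpace ξ,
    rowProj_mem hξ, fun _ hx => hx, norm_rowProj_le hξ,
    fun ⟨Φ, hΦ, _⟩ => not_extends hξ hinf Φ hΦ, fun ⟨Φ, hΦ⟩ => not_extends hξ hinf Φ hΦ⟩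

end compact

end Pool.Agent.Q86.HMod
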