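import Mathlib

/-!
# Polynomials orthogonal for a moment functional and a second-order Sobolev form

From the double orthogonality we derive a fourth order symmetric differential expression.
-/

set_option autoImplicit false

open Polynomial

namespace Pool.Agent.Q86.Kr

/-- positive definite moment functionals -/
def PD (u : ℝ[X] →ₗ[ℝ] ℝ) : Prop := ∀ q : ℝ[X], q ≠ 0 → 0 < u (q * q)

theorem PD.eq_zero {u : ℝ[X] →ₗ[ℝ] ℝ} (hu : PD u) {P : ℝ[X]} (h : ∀ g, u (P * g) = 0) : P = 0 := by
  by_contra hP
  have := hu P hP
  rw [h P] at this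
  exact lt_irrefl _ this

theorem PD.one_pos {u : ℝ[X] →ₗ[ℝ] ℝ} (hu : PD u) : 0 < u 1 := by
  have := hu 1 one_ne_zero
  simpa using this

/-- a linear map which vanishes at polynomials of all degrees vanishes -/
theorem lin_zero {p : ℕ → ℝ[X]} (hp : ∀ n, (p n).degree = (n : WithBot ℕ)) {V : Type*}
    [AddCommGroup V] [Module ℝ V] (t : ℝ[X] →ₗ[ℝ] V) (ht : ∀ n, t (p n) = 0) (f : ℝ[X]) :
    t f = 0 := by
  have key : ∀ N : ℕ, ∀ f : ℝ[X], f.degree < (N : WithBot ℕ) → t f = 0 := by
    intro N
    induction N with
    | zero =>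
      intro f hf
      have : f = 0 := by
        rw [← degree_eq_bot]
        have h1 : f.degree < 0 := by simpa using hf
        exact Nat.WithBot.lt_zero_iff.mp h1
      simp [this]
    | succ N ih =>
      intro f hf
      have hpN : (p N).coeff N ≠ 0 := by
        have h1 := hp N
        exact coeff_ne_zero_of_eq_degree h1
      set c : ℝ := f.coeff N / (p N).coeff N with hc
      have hdeg : (f - c • p N).degree < (N : WithBot ℕ) := by
        rw [degree_lt_iff_coeff_zero]
        intro m hm
        rcases hm.lt_or_eq with h | h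
        · have h1 : f.coeff m = 0 := by
            rw [degree_lt_iff_coeff_zero] at hf
            exact hf m (by omega)
          have h2 : (p N).coeff m = 0 := by
            apply coeff_eq_zero_of_degree_lt
            rw [hp N]
            exact_mod_cast h
          simp [h1, h2]
        · subst h
          simp only [coeff_sub, coeff_smul, smul_eq_mul, hc]
          field_simp
          ring
      have h1 := ih _ hdeg
      rw [map_sub, map_smul, ht N, smul_zero, sub_zero] at h1
      exact h1
  by_cases hf : f = 0
  · simp [hf]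
  · apply key (f.natDegree + 1)
    rw [degree_eq_natDegree hf]
    exact_mod_cast Nat.lt_succ_self _

/-- The data: `u`, `v`, `w` functionals, `p` orthogonal for `u` and for the Sobolev form. -/
structure Sob (u v w : ℝ[X] →ₗ[ℝ] ℝ) (p : ℕ → ℝ[X]) : Prop where
  deg : ∀ n, (p n).degree = (n : WithBot ℕ)
  orth : ∀ n m, n ≠ m → u (p n * p m) = 0
  pos : ∀ n, 0 < u (p n * p n)
  sob : ∀ n m, n ≠ m → v (derivative (p n) * derivative (p m))
    + w (derivative (derivative (p n)) * derivative (derivative (p m))) = 0

variable {u v w : ℝ[X] →ₗ[ℝ] ℝ} {p : ℕ → ℝ[X]}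

/-- left multiplication -/
noncomputable def mulL (h : ℝ[X]) : ℝ[X] →ₗ[ℝ] ℝ[X] := LinearMap.mulLeft ℝ h

@[simp] theorem mulL_apply (h f : ℝ[X]) : mulL h f = h * f := rfl

/-- the Sobolev form with a fixed first argument -/
noncomputable def bform (v w : ℝ[X] →ₗ[ℝ] ℝ) (f : ℝ[X]) : ℝ[X] →ₗ[ℝ] ℝ :=
  v ∘ₗ mulL (derivative f) ∘ₗ (derivative : ℝ[X] →ₗ[ℝ] ℝ[X])
    + w ∘ₗ mulL (derivative (derivative f)) ∘ₗ (derivative : ℝ[X] →ₗ[ℝ] ℝ[X])
      ∘ₗ (derivative : ℝ[X] →ₗ[ℝ] ℝ[X])

theorem bform_apply (f g : ℝ[X]) : bform v w f g = v (derivative f * derivative g)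
    + w (derivative (derivative f) * derivative (derivative g)) := rfl

/-- existence of the image of `f` under the differential operator -/
theorem exists_img (H : Sob u v w p) (n : ℕ) : ∀ f : ℝ[X], f.degree < (n : WithBot ℕ) →
    ∃ h : ℝ[X], h.degree < (n : WithBot ℕ) ∧ ∀ g, v (derivative f * derivative g)
      + w (derivative (derivative f) * derivative (derivative g)) = u (h * g) := by
  induction n with
  | zero =>
    intro f hf
    have : f = 0 := by
      rw [← degree_eq_bot]
      have h1 : f.degree < 0 := by simpa using hf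
      exact Nat.WithBot.lt_zero_iff.mp h1
    exact ⟨0, by simp, by intro g; simp [this]⟩
  | succ N ih =>
    intro f hf
    have hpN : (p N).coeff N ≠ 0 := coeff_ne_zero_of_eq_degree (H.deg N)
    set c : ℝ := f.coeff N / (p N).coeff N with hc
    have hdeg : (f - c • p N).degree < (N : WithBot ℕ) := by
      rw [degree_lt_iff_coeff_zero]
      intro m hm
      rcases hm.lt_or_eq with h | h
      · have h1 : f.coeff m = 0 := by
          rw [degree_lt_iff_coeff_zero] at hf
          exact hf m (by omega)
        have h2 : (p N).coeff m = 0 := by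
          apply coeff_eq_zero_of_degree_lt
          rw [H.deg N]
          exact_mod_cast h
        simp [h1, h2]
      · subst h
        simp only [coeff_sub, coeff_smul, smul_eq_mul, hc]
        field_simp
        ring
    obtain ⟨h, hh, hg⟩ := ih _ hdeg
    set l : ℝ := (v (derivative (p N) * derivative (p N))
      + w (derivative (derivative (p N)) * derivative (derivative (p N)))) / u (p N * p N) with hl
    have hN : ∀ g, v (derivative (p N) * derivative g)
        + w (derivative (derivative (p N)) * derivative (derivative g)) = u ((l • p N) * g) := by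
      have h0 : ∀ g, (bform v w (p N) - u ∘ₗ mulL (l • p N)) g = 0 := by
        apply lin_zero H.deg
        intro m
        simp only [LinearMap.sub_apply, bform_apply, LinearMap.comp_apply, mulL_apply]
        by_cases hm : m = N
        · subst hm
          have := H.pos m
          rw [smul_mul_assoc, map_smul, smul_eq_mul, hl]
          field_simp
          ring
        · rw [H.sob N m (Ne.symm hm), smul_mul_assoc, map_smul, H.orth N m (Ne.symm hm)]
          simp
      intro g
      have := h0 g
      simp only [LinearMap.sub_apply, bform_apply, LinearMap.comp_apply, mulL_apply] at this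
      linarith
    refine ⟨h + c • (l • p N), ?_, ?_⟩
    · refine lt_of_le_of_lt (degree_add_le _ _) (max_lt ?_ ?_)
      · exact hh.trans (by exact_mod_cast Nat.lt_succ_self N)
      · refine lt_of_le_of_lt (degree_smul_le _ _) (lt_of_le_of_lt (degree_smul_le _ _) ?_)
        rw [H.deg N]
        exact_mod_cast Nat.lt_succ_self N
    · intro g
      have h1 := hg g
      have h2 := hN g
      have e1 : derivative f = derivative (f - c • p N) + c • derivative (p N) := by
        simp
      have e2 : derivative (derivative f) = derivative (derivative (f - c • p N))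
          + c • derivative (derivative (p N)) := by
        simp
      rw [e2, e1, add_mul, add_mul, smul_mul_assoc, smul_mul_assoc, map_add, map_add, map_smul,
        map_smul, add_mul, map_add, smul_mul_assoc, map_smul, ← h1, ← h2]
      simp only [smul_eq_mul]
      ring

theorem deg_le_of {h : ℝ[X]} {n : ℕ} (hh : h.degree < ((n + 1 : ℕ) : WithBot ℕ)) :
    h.natDegree ≤ n := by
  by_cases h0 : h = 0
  · simp [h0]
  · rw [degree_eq_natDegree h0] at hh
    have : h.natDegree < n + 1 := by exact_mod_cast hh
    omega

/-- the structural equations -/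
structure Dat (u : ℝ[X] →ₗ[ℝ] ℝ) (A B C E : ℝ[X]) : Prop where
  dA : A.natDegree ≤ 4
  dB : B.natDegree ≤ 3
  dC : C.natDegree ≤ 2
  dE : E.natDegree ≤ 1
  e1 : ∀ f, u (A * derivative f + B * f) = 0
  e2 : ∀ f, u (B * derivative (derivative f) + C * derivative f + E * f) = 0

theorem exists_dat (H : Sob u v w p) : ∃ A B C E : ℝ[X], Dat u A B C E ∧
    (∀ g, w g = u (A * g)) ∧ (∀ g, v (derivative g) = u (E * g)) ∧
    (∀ g, w (derivative (derivative g)) - v g = u (C * g)) := by
  obtain ⟨h1, hd1, k1⟩ := exists_img H 2 X (by rw [degree_X]; exact_mod_cast one_lt_two)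
  obtain ⟨h2, hd2, k2⟩ := exists_img H 3 (X ^ 2) (by rw [degree_X_pow]; exact_mod_cast (by norm_num))
  obtain ⟨h3, hd3, k3⟩ := exists_img H 4 (X ^ 3) (by rw [degree_X_pow]; exact_mod_cast (by norm_num))
  obtain ⟨h4, hd4, k4⟩ := exists_img H 5 (X ^ 4) (by rw [degree_X_pow]; exact_mod_cast (by norm_num))
  have n1 := deg_le_of hd1
  have n2 := deg_le_of hd2
  have n3 := deg_le_of hd3
  have n4 := deg_le_of hd4
  set E : ℝ[X] := h1 with hE
  set K : ℝ[X] := (1 / 2 : ℝ) • (h2 - (2 : ℝ) • (X * E)) with hK
  set B : ℝ[X] := (1 / 12 : ℝ) • (h3 - (3 : ℝ) • (X ^ 2 * E) - (6 : ℝ) • (X * K)) with hB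
  set A : ℝ[X] := (1 / 24 : ℝ) • (h4 - (4 : ℝ) • (X ^ 3 * E) - (12 : ℝ) • (X ^ 2 * K)
    - (48 : ℝ) • (X * B)) with hA
  have dE : E.natDegree ≤ 1 := n1
  have dK : K.natDegree ≤ 2 := by
    rw [hK]
    refine (natDegree_smul_le _ _).trans ((natDegree_sub_le _ _).trans (max_le n2 ?_))
    refine (natDegree_smul_le _ _).trans (natDegree_mul_le.trans ?_)
    have : (X : ℝ[X]).natDegree ≤ 1 := natDegree_X_le
    omega
  have dB : B.natDegree ≤ 3 := by
    rw [hB]
    refine (natDegree_smul_le _ _).trans ((natDegree_sub_le _ _).trans (max_le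
      ((natDegree_sub_le _ _).trans (max_le n3 ?_)) ?_))
    · refine (natDegree_smul_le _ _).trans (natDegree_mul_le.trans ?_)
      have : (X ^ 2 : ℝ[X]).natDegree ≤ 2 := natDegree_X_pow_le _
      omega
    · refine (natDegree_smul_le _ _).trans (natDegree_mul_le.trans ?_)
      have : (X : ℝ[X]).natDegree ≤ 1 := natDegree_X_le
      omega
  have dA : A.natDegree ≤ 4 := by
    rw [hA]
    refine (natDegree_smul_le _ _).trans ((natDegree_sub_le _ _).trans (max_le
      ((natDegree_sub_le _ _).trans (max_le
      ((natDegree_sub_le _ _).trans (max_le n4 ?_)) ?_)) ?_))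
    · refine (natDegree_smul_le _ _).trans (natDegree_mul_le.trans ?_)
      have : (X ^ 3 : ℝ[X]).natDegree ≤ 3 := natDegree_X_pow_le _
      omega
    · refine (natDegree_smul_le _ _).trans (natDegree_mul_le.trans ?_)
      have : (X ^ 2 : ℝ[X]).natDegree ≤ 2 := natDegree_X_pow_le _
      omega
    · refine (natDegree_smul_le _ _).trans (natDegree_mul_le.trans ?_)
      have : (X : ℝ[X]).natDegree ≤ 1 := natDegree_X_le
      omega
  -- the four identities
  have i1 : ∀ g, v (derivative g) = u (E * g) := by
    intro g
    have := k1 g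
    simp only [derivative_X, derivative_one, zero_mul, map_zero, add_zero, one_mul] at this
    exact this
  have i2 : ∀ g, w (derivative (derivative g)) - v g = u (K * g) := by
    intro g
    have a := k2 g
    have b := i1 (X * g)
    have d1 : derivative (X ^ 2 : ℝ[X]) = (2 : ℝ) • X := by
      rw [derivative_X_pow, smul_eq_C_mul]; simp
    have d2 : derivative (derivative (X ^ 2 : ℝ[X])) = (2 : ℝ) • 1 := by
      rw [d1, derivative_smul, derivative_X]
    rw [d2, d1] at a
    have d3 : derivative (X * g) = g + X * derivative g := by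
      rw [derivative_mul, derivative_X, one_mul]
    rw [d3, map_add] at b
    have e : K * g = (1 / 2 : ℝ) • (h2 * g) - E * (X * g) := by
      rw [hK, smul_mul_assoc, sub_mul, smul_mul_assoc, smul_sub, smul_smul]
      norm_num
      ring
    rw [e, map_sub, map_smul, ← a, ← b]
    simp only [smul_mul_assoc, one_mul, map_smul, smul_eq_mul]
    ring
  have i3 : ∀ g, w (derivative g) = - u (B * g) := by
    intro g
    have a := k3 g
    have b := i1 (X ^ 2 * g)
    have c := i2 (X * g)
    have d1 : derivative (X ^ 3 : ℝ[X]) = (3 : ℝ) • X ^ 2 := by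
      rw [derivative_X_pow, smul_eq_C_mul]; simp
    have d1' : derivative (X ^ 2 : ℝ[X]) = (2 : ℝ) • X := by
      rw [derivative_X_pow, smul_eq_C_mul]; simp
    have d2 : derivative (derivative (X ^ 3 : ℝ[X])) = (6 : ℝ) • X := by
      rw [d1, derivative_smul, d1', smul_smul]; norm_num
    rw [d2, d1] at a
    have d3 : derivative (X ^ 2 * g) = (2 : ℝ) • (X * g) + X ^ 2 * derivative g := by
      rw [derivative_mul, d1', smul_mul_assoc]
    have d4 : derivative (derivative (X * g)) = (2 : ℝ) • derivative g
        + X * derivative (derivative g) := by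
      rw [derivative_mul, derivative_X, one_mul, derivative_add, derivative_mul, derivative_X,
        one_mul, two_smul]
      ring
    rw [d3, map_add, map_smul] at b
    rw [d4, map_add, map_smul] at c
    have e : B * g = (1 / 12 : ℝ) • (h3 * g) - (1 / 4 : ℝ) • (E * (X ^ 2 * g))
        - (1 / 2 : ℝ) • (K * (X * g)) := by
      rw [hB, smul_mul_assoc, sub_mul, sub_mul, smul_mul_assoc, smul_mul_assoc, smul_sub,
        smul_sub, smul_smul, smul_smul]
      norm_num
      ring
    rw [e, map_sub, map_sub, map_smul, map_smul, map_smul, ← a, ← b, ← c]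
    simp only [smul_mul_assoc, map_smul, smul_eq_mul]
    ring
  have i4 : ∀ g, w g = u (A * g) := by
    intro g
    have a := k4 g
    have b := i1 (X ^ 3 * g)
    have c := i2 (X ^ 2 * g)
    have d := i3 (X * g)
    have d1'' : derivative (X ^ 4 : ℝ[X]) = (4 : ℝ) • X ^ 3 := by
      rw [derivative_X_pow, smul_eq_C_mul]; simp
    have d1 : derivative (X ^ 3 : ℝ[X]) = (3 : ℝ) • X ^ 2 := by
      rw [derivative_X_pow, smul_eq_C_mul]; simp
    have d1' : derivative (X ^ 2 : ℝ[X]) = (2 : ℝ) • X := by
      rw [derivative_X_pow, smul_eq_C_mul]; simp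
    have d2 : derivative (derivative (X ^ 4 : ℝ[X])) = (12 : ℝ) • X ^ 2 := by
      rw [d1'', derivative_smul, d1, smul_smul]; norm_num
    rw [d2, d1''] at a
    have d3 : derivative (X ^ 3 * g) = (3 : ℝ) • (X ^ 2 * g) + X ^ 3 * derivative g := by
      rw [derivative_mul, d1, smul_mul_assoc]
    have d4 : derivative (derivative (X ^ 2 * g)) = (2 : ℝ) • g + (4 : ℝ) • (X * derivative g)
        + X ^ 2 * derivative (derivative g) := by
      rw [derivative_mul, d1', derivative_add, derivative_mul, derivative_mul, derivative_smul,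
        derivative_X, d1', smul_mul_assoc, smul_mul_assoc, one_mul]
      have : (4 : ℝ) • (X * derivative g) = (2 : ℝ) • (X * derivative g)
          + (2 : ℝ) • (X * derivative g) := by rw [← add_smul]; norm_num
      rw [this]
      ring
    have d5 : derivative (X * g) = g + X * derivative g := by
      rw [derivative_mul, derivative_X, one_mul]
    rw [d3, map_add, map_smul] at b
    rw [d4, map_add, map_add, map_smul, map_smul] at c
    rw [d5, map_add] at d
    have e : A * g = (1 / 24 : ℝ) • (h4 * g) - (1 / 6 : ℝ) • (E * (X ^ 3 * g))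
        - (1 / 2 : ℝ) • (K * (X ^ 2 * g)) - (2 : ℝ) • (B * (X * g)) := by
      rw [hA, smul_mul_assoc, sub_mul, sub_mul, sub_mul, smul_mul_assoc, smul_mul_assoc,
        smul_mul_assoc, smul_sub, smul_sub, smul_sub, smul_smul, smul_smul, smul_smul]
      norm_num
      ring
    rw [e, map_sub, map_sub, map_sub, map_smul, map_smul, map_smul, map_smul, ← a, ← b, ← c]
    simp only [smul_mul_assoc, map_smul, smul_eq_mul] at d ⊢
    linarith
  refine ⟨A, B, K, E, ⟨dA, dB, dK, dE, ?_, ?_⟩, i4, i1, i2⟩
  · intro f
    rw [map_add, ← i4, i3]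
    ring
  · intro f
    have a := i3 (derivative f)
    have b := i2 (derivative f)
    have c := i1 f
    have d := i3 (derivative (derivative f))
    have e := i2 (derivative f)
    rw [map_add, map_add, ← b, ← c, d]
    ring

end Pool.Agent.Q86.Kr
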