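import Pool.Agent.Q86.KrA

/-!
# Growth of the moments and compact support
-/

set_option autoImplicit false

open Polynomial MeasureTheory

namespace Pool.Agent.Q86.Kr

variable {u : ℝ[X] →ₗ[ℝ] ℝ}

theorem u_mul_X_pow {P : ℝ[X]} {d : ℕ} (hP : P.natDegree ≤ d) (k : ℕ) :
    u (P * X ^ k) = ∑ i ∈ Finset.range d, P.coeff i * u (X ^ (k + i))
      + P.coeff d * u (X ^ (k + d)) := by
  conv_lhs => rw [P.as_sum_range' (d + 1) (by omega)]
  rw [Finset.sum_mul, map_sum, Finset.sum_range_succ]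
  have h : ∀ i : ℕ, u (monomial i (P.coeff i) * X ^ k) = P.coeff i * u (X ^ (k + i)) := by
    intro i
    rw [← C_mul_X_pow_eq_monomial, mul_assoc, ← pow_add, ← smul_eq_C_mul, map_smul, smul_eq_mul,
      add_comm i k]
  simp only [h]

/-- sum of the absolute values of the lower coefficients -/
noncomputable def nrm (P : ℝ[X]) (d : ℕ) : ℝ := ∑ i ∈ Finset.range d, |P.coeff i|

theorem nrm_nonneg (P : ℝ[X]) (d : ℕ) : 0 ≤ nrm P d := Finset.sum_nonneg fun _ _ => abs_nonneg _

theorem abs_low {P : ℝ[X]} {d : ℕ} (hP : P.natDegree ≤ d) (k : ℕ) {M : ℝ}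
    (hm : ∀ j < k + d, |u (X ^ j)| ≤ M) :
    |u (P * X ^ k) - P.coeff d * u (X ^ (k + d))| ≤ nrm P d * M := by
  rw [u_mul_X_pow hP, add_sub_cancel_right]
  refine (Finset.abs_sum_le_sum_abs _ _).trans ?_
  rw [nrm, Finset.sum_mul]
  apply Finset.sum_le_sum
  intro i hi
  rw [abs_mul]
  have := hm (k + i) (by have := Finset.mem_range.mp hi; omega)
  exact mul_le_mul_of_nonneg_left this (abs_nonneg _)

theorem geo {m : ℕ → ℝ} {Q : ℝ} (hQ : 1 ≤ Q) {N : ℕ}
    (h : ∀ k, N ≤ k → ∀ M, 0 ≤ M → (∀ j ≤ k, |m j| ≤ M) → |m (k + 1)| ≤ Q * M) :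
    ∃ K, 0 ≤ K ∧ ∀ k, |m k| ≤ K * Q ^ k := by
  set K : ℝ := ∑ j ∈ Finset.range (N + 1), |m j| with hK
  have hK0 : 0 ≤ K := Finset.sum_nonneg fun _ _ => abs_nonneg _
  have hQ0 : 0 ≤ Q := by linarith
  have key : ∀ n : ℕ, ∀ j ≤ N + n, |m j| ≤ K * Q ^ n := by
    intro n
    induction n with
    | zero =>
      intro j hj
      rw [pow_zero, mul_one, hK]
      exact Finset.single_le_sum (f := fun j => |m j|) (fun _ _ => abs_nonneg _)
        (Finset.mem_range.mpr (by omega))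
    | succ n ih =>
      intro j hj
      rcases Nat.lt_or_ge j (N + n + 1) with h1 | h1
      · refine (ih j (by omega)).trans ?_
        rw [pow_succ]
        nlinarith [mul_nonneg hK0 (pow_nonneg hQ0 n)]
      · have : j = N + n + 1 := by omega
        subst this
        have := h (N + n) (by omega) (K * Q ^ n) (mul_nonneg hK0 (pow_nonneg hQ0 n)) ih
        rw [pow_succ]
        linarith
  refine ⟨K, hK0, fun k => ?_⟩
  refine (key k k (by omega)).trans le_rfl

theorem abs_le_of_eq {a x r S M c : ℝ} (hc : 0 < c) (ha : c ≤ |a|) (h : a * x = r)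
    (hr : |r| ≤ S * M) : |x| ≤ S / c * M := by
  have h1 : |a| * |x| ≤ S * M := by rw [← abs_mul, h]; exact hr
  have h2 : c * |x| ≤ S * M := (mul_le_mul_of_nonneg_right ha (abs_nonneg _)).trans h1
  rw [div_mul_eq_mul_div, le_div_iff₀ hc]
  linarith

/-- geometric growth from the first equation -/
theorem growth_one {A B : ℝ[X]} (h : ∀ f, u (A * derivative f + B * f) = 0) {d : ℕ}
    (hA : A.natDegree ≤ d + 1) (hB : B.natDegree ≤ d) (hA0 : A.coeff (d + 1) ≠ 0) :
    ∃ K Q, 0 ≤ K ∧ 1 ≤ Q ∧ ∀ k, |u (X ^ k)| ≤ K * Q ^ k := by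
  set a := A.coeff (d + 1) with ha
  set b := B.coeff d with hb
  set S : ℝ := nrm A (d + 1) + nrm B d with hS
  have hS0 : 0 ≤ S := add_nonneg (nrm_nonneg _ _) (nrm_nonneg _ _)
  have hapos : 0 < |a| := abs_pos.mpr hA0
  set Q : ℝ := max 1 (S / (|a| / 2)) with hQ
  obtain ⟨N, hN⟩ := exists_nat_gt (2 * |b| / |a|)
  have key : ∀ k, N + d + 1 ≤ k → ∀ M, 0 ≤ M → (∀ j ≤ k, |u (X ^ j)| ≤ M) →
      |u (X ^ (k + 1))| ≤ Q * M := by
    intro k hk M hM hm
    obtain ⟨l, rfl⟩ : ∃ l, k = l + d := ⟨k - d, by omega⟩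
    have hl : N ≤ l := by omega
    have e := h (X ^ (l + 1))
    rw [derivative_X_pow, map_add] at e
    have e1 : A * (C ((l + 1 : ℕ) : ℝ) * X ^ (l + 1 - 1)) = ((l : ℝ) + 1) • (A * X ^ l) := by
      rw [smul_eq_C_mul, Nat.add_sub_cancel]
      push_cast
      ring
    rw [e1, map_smul, smul_eq_mul] at e
    have b1 := abs_low (u := u) hA l (M := M) (fun j hj => hm j (by omega))
    have b2 := abs_low (u := u) hB (l + 1) (M := M) (fun j hj => hm j (by omega))
    have r1 : l + (d + 1) = l + d + 1 := by ring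
    have r2 : l + 1 + d = l + d + 1 := by ring
    rw [r1, ← ha] at b1
    rw [r2, ← hb] at b2
    set x := u (X ^ (l + d + 1)) with hx
    have hl0 : (0 : ℝ) ≤ l := Nat.cast_nonneg _
    have hNl : (N : ℝ) ≤ l := by exact_mod_cast hl
    have heq : (((l : ℝ) + 1) * a + b) * x
        = -(((l : ℝ) + 1) * (u (A * X ^ l) - a * x) + (u (B * X ^ (l + 1)) - b * x)) := by
      linarith
    have hlow : ((l : ℝ) + 1) * (|a| / 2) ≤ |((l : ℝ) + 1) * a + b| := by
      have h1 : |((l : ℝ) + 1) * a| ≤ |((l : ℝ) + 1) * a + b| + |b| := by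
        have := abs_sub_abs_le_abs_sub (((l : ℝ) + 1) * a) (-b)
        rw [abs_neg, sub_neg_eq_add] at this
        linarith
      rw [abs_mul, abs_of_pos (by linarith : (0 : ℝ) < (l : ℝ) + 1)] at h1
      have h2 : 2 * |b| < ((l : ℝ) + 1) * |a| := by
        have := (div_lt_iff₀ hapos).mp (lt_of_lt_of_le hN (hNl.trans (by linarith :
          (l : ℝ) ≤ (l : ℝ) + 1)))
        linarith
      linarith
    have hr : |(-(((l : ℝ) + 1) * (u (A * X ^ l) - a * x) + (u (B * X ^ (l + 1)) - b * x)))|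
        ≤ (((l : ℝ) + 1) * S) * M := by
      rw [abs_neg]
      refine (abs_add_le _ _).trans ?_
      rw [abs_mul, abs_of_pos (by linarith : (0 : ℝ) < (l : ℝ) + 1)]
      have t1 : ((l : ℝ) + 1) * |u (A * X ^ l) - a * x| ≤ ((l : ℝ) + 1) * (nrm A (d + 1) * M) :=
        mul_le_mul_of_nonneg_left b1 (by linarith)
      have t2 : nrm B d * M ≤ ((l : ℝ) + 1) * (nrm B d * M) := by
        have := mul_nonneg (nrm_nonneg B d) hM
        nlinarith
      rw [hS]
      nlinarith
    have := abs_le_of_eq (mul_pos (by linarith : (0 : ℝ) < (l : ℝ) + 1) (half_pos hapos))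
      hlow heq hr
    refine this.trans (mul_le_mul_of_nonneg_right ?_ hM)
    rw [hQ, mul_div_mul_left _ _ (by linarith : ((l : ℝ) + 1) ≠ 0)]
    exact le_max_right _ _
  obtain ⟨K, hK, hK'⟩ := geo (le_max_left _ _) key
  exact ⟨K, Q, hK, le_max_left _ _, hK'⟩

/-- geometric growth from the second equation -/
theorem growth_two {B K E : ℝ[X]}
    (h : ∀ f, u (B * derivative (derivative f) + K * derivative f + E * f) = 0)
    (hB : B.natDegree ≤ 3) (hK : K.natDegree ≤ 2) (hE : E.natDegree ≤ 1)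
    (hB0 : B.coeff 3 ≠ 0) :
    ∃ K Q, 0 ≤ K ∧ 1 ≤ Q ∧ ∀ k, |u (X ^ k)| ≤ K * Q ^ k := by
  set b := B.coeff 3 with hb
  set c := K.coeff 2 with hc
  set e := E.coeff 1 with he
  set S : ℝ := nrm B 3 + nrm K 2 + nrm E 1 with hS
  have hbpos : 0 < |b| := abs_pos.mpr hB0
  set Q : ℝ := max 1 (S / (|b| / 4)) with hQ
  obtain ⟨N, hN⟩ := exists_nat_gt (4 * (|c| + |e|) / |b|)
  have key : ∀ k, N + 3 ≤ k → ∀ M, 0 ≤ M → (∀ j ≤ k, |u (X ^ j)| ≤ M) →
      |u (X ^ (k + 1))| ≤ Q * M := by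
    intro k hk M hM hm
    obtain ⟨l, rfl⟩ : ∃ l, k = l + 2 := ⟨k - 2, by omega⟩
    have hl : N ≤ l := by omega
    have eq := h (X ^ (l + 2))
    have f1 : derivative (X ^ (l + 2) : ℝ[X]) = ((l : ℝ) + 2) • X ^ (l + 1) := by
      rw [derivative_X_pow, smul_eq_C_mul]
      push_cast
      rfl
    have f2 : derivative (X ^ (l + 1) : ℝ[X]) = ((l : ℝ) + 1) • X ^ l := by
      rw [derivative_X_pow, smul_eq_C_mul]
      push_cast
      rfl
    rw [f1, derivative_smul, f2, map_add, map_add, mul_smul_comm, mul_smul_comm, mul_smul_comm,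
      map_smul, map_smul, map_smul, smul_eq_mul, smul_eq_mul, smul_eq_mul] at eq
    have b1 := abs_low (u := u) hB l (M := M) (fun j hj => hm j (by omega))
    have b2 := abs_low (u := u) hK (l + 1) (M := M) (fun j hj => hm j (by omega))
    have b3 := abs_low (u := u) hE (l + 2) (M := M) (fun j hj => hm j (by omega))
    have r2 : l + 1 + 2 = l + 3 := by ring
    have r3 : l + 2 + 1 = l + 3 := by ring
    rw [← hb] at b1
    rw [r2, ← hc] at b2
    rw [r3, ← he] at b3
    rw [r3]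
    set x := u (X ^ (l + 3)) with hx
    have hl0 : (0 : ℝ) ≤ l := Nat.cast_nonneg _
    have hNl : (N : ℝ) ≤ l := by exact_mod_cast hl
    set L : ℝ := ((l : ℝ) + 2) * ((l : ℝ) + 2) with hL
    have hLpos : 0 < L := by positivity
    have heq : (((l : ℝ) + 2) * (((l : ℝ) + 1) * b) + ((l : ℝ) + 2) * c + e) * x
        = -(((l : ℝ) + 2) * (((l : ℝ) + 1) * (u (B * X ^ l) - b * x))
          + ((l : ℝ) + 2) * (u (K * X ^ (l + 1)) - c * x) + (u (E * X ^ (l + 2)) - e * x)) := by
      linarith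
    have hlow : L * (|b| / 4) ≤ |((l : ℝ) + 2) * (((l : ℝ) + 1) * b) + ((l : ℝ) + 2) * c + e| := by
      have h1 : |((l : ℝ) + 2) * (((l : ℝ) + 1) * b)| ≤
          |((l : ℝ) + 2) * (((l : ℝ) + 1) * b) + ((l : ℝ) + 2) * c + e|
            + |((l : ℝ) + 2) * c + e| := by
        have := abs_sub_abs_le_abs_sub (((l : ℝ) + 2) * (((l : ℝ) + 1) * b))
          (-(((l : ℝ) + 2) * c + e))
        rw [abs_neg, sub_neg_eq_add, ← add_assoc] at this
        linarith
      have h3 : |((l : ℝ) + 2) * c + e| ≤ ((l : ℝ) + 2) * (|c| + |e|) := by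
        refine (abs_add_le _ _).trans ?_
        rw [abs_mul, abs_of_pos (by linarith : (0 : ℝ) < (l : ℝ) + 2)]
        nlinarith [abs_nonneg e]
      rw [abs_mul, abs_mul, abs_of_pos (by linarith : (0 : ℝ) < (l : ℝ) + 2),
        abs_of_pos (by linarith : (0 : ℝ) < (l : ℝ) + 1)] at h1
      have h2 : 4 * (|c| + |e|) < ((l : ℝ) + 2) * |b| := by
        have := (div_lt_iff₀ hbpos).mp (lt_of_lt_of_le hN (hNl.trans (by linarith :
          (l : ℝ) ≤ (l : ℝ) + 2)))
        linarith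
      have h4 : ((l : ℝ) + 2) * (|c| + |e|) ≤ L * (|b| / 4) := by
        rw [hL]
        have : (|c| + |e|) ≤ ((l : ℝ) + 2) * (|b| / 4) := by linarith
        calc ((l : ℝ) + 2) * (|c| + |e|) ≤ ((l : ℝ) + 2) * (((l : ℝ) + 2) * (|b| / 4)) :=
              mul_le_mul_of_nonneg_left this (by linarith)
          _ = _ := by ring
      have h5 : L * (|b| / 2) ≤ ((l : ℝ) + 2) * (((l : ℝ) + 1) * |b|) := by
        rw [hL]
        have : ((l : ℝ) + 2) * (|b| / 2) ≤ ((l : ℝ) + 1) * |b| := by nlinarith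
        calc ((l : ℝ) + 2) * ((l : ℝ) + 2) * (|b| / 2)
              = ((l : ℝ) + 2) * (((l : ℝ) + 2) * (|b| / 2)) := by ring
          _ ≤ _ := mul_le_mul_of_nonneg_left this (by linarith)
      linarith
    have hr : |(-(((l : ℝ) + 2) * (((l : ℝ) + 1) * (u (B * X ^ l) - b * x))
          + ((l : ℝ) + 2) * (u (K * X ^ (l + 1)) - c * x) + (u (E * X ^ (l + 2)) - e * x)))|
        ≤ (L * S) * M := by
      rw [abs_neg]
      refine (abs_add_le _ _).trans ((add_le_add_left (abs_add_le _ _) _).trans ?_)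
      rw [abs_mul, abs_mul, abs_mul, abs_of_pos (by linarith : (0 : ℝ) < (l : ℝ) + 2),
        abs_of_pos (by linarith : (0 : ℝ) < (l : ℝ) + 1)]
      have t1 : ((l : ℝ) + 2) * (((l : ℝ) + 1) * |u (B * X ^ l) - b * x|)
          ≤ L * (nrm B 3 * M) := by
        have hn := mul_nonneg (nrm_nonneg B 3) hM
        calc ((l : ℝ) + 2) * (((l : ℝ) + 1) * |u (B * X ^ l) - b * x|)
              ≤ ((l : ℝ) + 2) * (((l : ℝ) + 1) * (nrm B 3 * M)) := by gcongr
          _ ≤ ((l : ℝ) + 2) * (((l : ℝ) + 2) * (nrm B 3 * M)) := by gcongr; norm_num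
          _ = _ := by rw [hL]; ring
      have t2 : ((l : ℝ) + 2) * |u (K * X ^ (l + 1)) - c * x| ≤ L * (nrm K 2 * M) := by
        have hn := mul_nonneg (nrm_nonneg K 2) hM
        calc ((l : ℝ) + 2) * |u (K * X ^ (l + 1)) - c * x|
              ≤ ((l : ℝ) + 2) * (nrm K 2 * M) := by gcongr
          _ ≤ L * (nrm K 2 * M) := by
            gcongr
            rw [hL]; nlinarith
      have t3 : |u (E * X ^ (l + 2)) - e * x| ≤ L * (nrm E 1 * M) := by
        have hn := mul_nonneg (nrm_nonneg E 1) hM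
        refine b3.trans ?_
        have : 1 ≤ L := by rw [hL]; nlinarith
        nlinarith
      rw [hS]
      nlinarith
    have := abs_le_of_eq (mul_pos hLpos (by positivity : 0 < |b| / 4)) hlow heq hr
    refine this.trans (mul_le_mul_of_nonneg_right ?_ hM)
    rw [hQ, mul_div_mul_left _ _ hLpos.ne']
    exact le_max_right _ _
  obtain ⟨K, hK, hK'⟩ := geo (le_max_left _ _) key
  exact ⟨K, Q, hK, le_max_left _ _, hK'⟩

/-! ### moment functionals of measures -/

theorem integrable_eval {φ : Measure ℝ} (h : ∀ k : ℕ, Integrable (fun x : ℝ => x ^ k) φ)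
    (f : ℝ[X]) : Integrable (fun x => f.eval x) φ := by
  have : (fun x : ℝ => f.eval x) = fun x => ∑ i ∈ Finset.range (f.natDegree + 1),
      f.coeff i * x ^ i := by
    ext x
    exact eval_eq_sum_range x
  rw [this]
  exact integrable_finsetSum _ fun i _ => (h i).const_mul _

/-- the moment functional -/
noncomputable def mom (φ : Measure ℝ) (h : ∀ k : ℕ, Integrable (fun x : ℝ => x ^ k) φ) :
    ℝ[X] →ₗ[ℝ] ℝ where
  toFun f := ∫ x, f.eval x ∂φ
  map_add' f g := by
    simp only [eval_add]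
    exact integral_add (integrable_eval h f) (integrable_eval h g)
  map_smul' c f := by
    simp only [eval_smul, smul_eq_mul, RingHom.id_apply]
    exact integral_const_mul _ _

@[simp] theorem mom_apply {φ : Measure ℝ} {h : ∀ k : ℕ, Integrable (fun x : ℝ => x ^ k) φ}
    (f : ℝ[X]) : mom φ h f = ∫ x, f.eval x ∂φ := rfl

theorem mom_pd {φ : Measure ℝ} {h : ∀ k : ℕ, Integrable (fun x : ℝ => x ^ k) φ}
    (hs : ∀ s : Finset ℝ, φ ((↑s : Set ℝ)ᶜ) ≠ 0) : PD (mom φ h) := by
  intro q hq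
  rw [mom_apply]
  have h0 : 0 ≤ ∫ x, (q * q).eval x ∂φ :=
    integral_nonneg fun x => by simp only [eval_mul, Pi.zero_apply]; exact mul_self_nonneg _
  refine lt_of_le_of_ne h0 fun h1 => ?_
  have h2 := (integral_eq_zero_iff_of_nonneg (μ := φ) (f := fun x => (q * q).eval x)
    (fun x => by simp only [eval_mul, Pi.zero_apply]; exact mul_self_nonneg _)
    (integrable_eval h _)).mp h1.symm
  apply hs q.roots.toFinset
  have h3 : ∀ᵐ x ∂φ, (q * q).eval x = 0 := h2
  rw [ae_iff] at h3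
  refine measure_mono_null ?_ h3
  intro x hx
  simp only [Set.mem_compl_iff, Finset.mem_coe, Multiset.mem_toFinset, mem_roots hq,
    IsRoot.def] at hx
  simp only [Set.mem_ofPred_eq, eval_mul, mul_self_eq_zero]
  exact hx

theorem finite_of_int {φ : Measure ℝ} (h : ∀ k : ℕ, Integrable (fun x : ℝ => x ^ k) φ) :
    IsFiniteMeasure φ := by
  have h0 := h 0
  simp only [pow_zero] at h0
  exact (integrable_const_iff_isFiniteMeasure one_ne_zero).mp h0

theorem compact_of_growth {φ : Measure ℝ} (h : ∀ k : ℕ, Integrable (fun x : ℝ => x ^ k) φ)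
    {K Q : ℝ} (hQ : 1 ≤ Q) (hK : ∀ k, |mom φ h (X ^ k)| ≤ K * Q ^ k) :
    φ {x | Q < |x|} = 0 := by
  have := finite_of_int h
  have key : ∀ R, Q < R → φ {x | R ≤ |x|} = 0 := by
    intro R hR
    have hRpos : 0 < R := by linarith
    have b : ∀ k : ℕ, φ.real {x | R ≤ |x|} ≤ K * ((Q / R) ^ 2) ^ k := by
      intro k
      have e1 : ∫ x, (x ^ (2 * k) : ℝ) ∂φ ≤ K * Q ^ (2 * k) := by
        have := hK (2 * k)
        rw [mom_apply] at this
        simp only [eval_pow, eval_X] at this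
        exact (le_abs_self _).trans this
      have e2 := mul_meas_ge_le_integral_of_nonneg (μ := φ) (f := fun x : ℝ => x ^ (2 * k))
        (Filter.Eventually.of_forall fun x => by
          show (0 : ℝ) ≤ x ^ (2 * k)
          exact (even_two_mul k).pow_nonneg x) (h (2 * k)) (R ^ (2 * k))
      have e3 : φ.real {x | R ≤ |x|} ≤ φ.real {x : ℝ | R ^ (2 * k) ≤ x ^ (2 * k)} := by
        refine measureReal_mono ?_ (measure_ne_top _ _)
        intro x hx
        simp only [Set.mem_ofPred_eq] at hx ⊢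
        rw [← (even_two_mul k).pow_abs x]
        exact pow_le_pow_left₀ hRpos.le hx _
      have hRk : 0 < R ^ (2 * k) := by positivity
      have e4 : R ^ (2 * k) * φ.real {x | R ≤ |x|} ≤ K * Q ^ (2 * k) :=
        (mul_le_mul_of_nonneg_left e3 hRk.le).trans (e2.trans e1)
      rw [← pow_mul, div_pow, mul_div_assoc', le_div_iff₀ hRk]
      linarith
    have lim : Filter.Tendsto (fun k : ℕ => K * ((Q / R) ^ 2) ^ k) Filter.atTop (nhds (K * 0)) := by
      apply Filter.Tendsto.const_mul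
      apply tendsto_pow_atTop_nhds_zero_of_lt_one (sq_nonneg _)
      have : Q / R < 1 := (div_lt_one hRpos).mpr hR
      have h0 : 0 ≤ Q / R := by positivity
      nlinarith
    have h1 : φ.real {x | R ≤ |x|} ≤ 0 := by
      have := ge_of_tendsto' lim b
      simpa using this
    have h2 : φ.real {x | R ≤ |x|} = 0 := le_antisymm h1 measureReal_nonneg
    exact (measureReal_eq_zero_iff).mp h2
  have hU : {x : ℝ | Q < |x|} ⊆ ⋃ n : ℕ, {x : ℝ | Q + 1 / ((n : ℝ) + 1) ≤ |x|} := by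
    intro x hx
    simp only [Set.mem_ofPred_eq] at hx
    obtain ⟨n, hn⟩ := exists_nat_one_div_lt (sub_pos.mpr hx)
    exact Set.mem_iUnion.mpr ⟨n, by simp only [Set.mem_ofPred_eq]; linarith⟩
  refine measure_mono_null hU (measure_iUnion_null fun n => ?_)
  apply key
  have : 0 < 1 / ((n : ℝ) + 1) := by positivity
  linarith

end Pool.Agent.Q86.Kr
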