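import Pool.Agent.Q86.KrB

/-!
# Test functions, and the right end point of the support
-/

set_option autoImplicit false

open Polynomial MeasureTheory

namespace Pool.Agent.Q86.Kr

/-! ### no common zero of the coefficients -/

theorem pd_of_nonneg {u w : ℝ[X] →ₗ[ℝ] ℝ} (hu : PD u) {A : ℝ[X]} (hA : A ≠ 0)
    (hw : ∀ g, w g = u (A * g)) (hn : ∀ g, 0 ≤ w (g * g)) : PD w := by
  intro q hq
  refine lt_of_le_of_ne (hn q) fun h0 => ?_
  have h1 : ∀ g, w (q * g) = 0 := by
    intro g
    have key : ∀ t : ℝ, 0 ≤ t * t * w (g * g) + 2 * t * w (q * g) := by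
      intro t
      have := hn (q + t • g)
      have e : (q + t • g) * (q + t • g) = q * q + (2 * t) • (q * g) + (t * t) • (g * g) := by
        simp only [smul_eq_C_mul, C_mul]
        have : (C (2 : ℝ) : ℝ[X]) = 2 := rfl
        rw [this]
        ring
      rw [e, map_add, map_add, map_smul, map_smul, smul_eq_mul, smul_eq_mul, ← h0] at this
      linarith
    by_contra hne
    set a := w (g * g) with ha
    set b := w (q * g) with hb
    have ha0 : 0 ≤ a := hn g
    have := key (-(b / (a + 1)))
    have hpos : 0 < a + 1 := by linarith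
    have e : (-(b / (a + 1))) * (-(b / (a + 1))) * a + 2 * (-(b / (a + 1))) * b
        = b ^ 2 * (a / (a + 1) ^ 2 - 2 / (a + 1)) := by
      field_simp
      ring
    rw [e] at this
    have hb2 : 0 < b ^ 2 := by positivity
    have h3 : a / (a + 1) ^ 2 - 2 / (a + 1) < 0 := by
      rw [div_sub_div _ _ (by positivity) hpos.ne', div_neg_iff]
      right
      constructor
      · nlinarith
      · positivity
    nlinarith
  have h2 : A * q = 0 := hu.eq_zero fun g => by
    rw [mul_assoc, ← hw]; exact h1 g
  rcases mul_eq_zero.mp h2 with h | h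
  · exact hA h
  · exact hq h

theorem no_common_root {u v w : ℝ[X] →ₗ[ℝ] ℝ} {p : ℕ → ℝ[X]} (H : Sob u v w p) (hu : PD u)
    {A B K E : ℝ[X]} (D : Dat u A B K E) (hA : A ≠ 0) (hw : ∀ g, w g = u (A * g))
    (hv : ∀ g, v (derivative g) = u (E * g)) (hvk : ∀ g, w (derivative (derivative g)) - v g
      = u (K * g))
    (hn : ∀ g, 0 ≤ w (g * g)) (hnv : ∀ g, 0 ≤ v (g * g)) (d : ℝ)
    (a0 : A.eval d = 0) (b0 : B.eval d = 0) (k0 : K.eval d = 0) (e0 : E.eval d = 0) : False := by
  have hwpd := pd_of_nonneg hu hA hw hn
  have wB : ∀ g, w (derivative g) = - u (B * g) := by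
    intro g
    have := D.e1 g
    rw [map_add, ← hw] at this
    linarith
  -- the operator
  set L : ℝ[X] → ℝ[X] := fun f => A * derivative (derivative (derivative (derivative f)))
    + (2 : ℝ) • (B * derivative (derivative (derivative f))) + K * derivative (derivative f)
    + E * derivative f with hL
  have hLu : ∀ f g, v (derivative f * derivative g)
      + w (derivative (derivative f) * derivative (derivative g)) = u (L f * g) := by
    intro f g
    have t1 := hv (derivative f * g)
    have t2 := hvk (derivative (derivative f) * g)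
    have t3 := wB (derivative (derivative (derivative f)) * g)
    have t4 := hw (derivative (derivative (derivative (derivative f))) * g)
    have t5 := wB (derivative (derivative f) * derivative g)
    rw [derivative_mul, map_add] at t1 t3
    rw [derivative_mul, derivative_add, derivative_mul, derivative_mul, map_add, map_add,
      map_add] at t2
    rw [derivative_mul, map_add] at t5
    have e : L f * g = A * (derivative (derivative (derivative (derivative f))) * g)
      + (2 : ℝ) • (B * (derivative (derivative (derivative f)) * g))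
      + K * (derivative (derivative f) * g) + E * (derivative f * g) := by
      simp only [hL, add_mul, smul_mul_assoc, mul_assoc]
    rw [e, map_add, map_add, map_add, map_smul, smul_eq_mul, ← t1, ← t2, ← t4]
    linarith
  have hLd : ∀ f, (L f).eval d = 0 := by
    intro f
    simp only [hL, eval_add, eval_mul, eval_smul, a0, b0, k0, e0]
    simp
  have hzero : ∀ n, 2 ≤ n → (p n).eval d = 0 := by
    intro n hn2
    set l : ℝ := (v (derivative (p n) * derivative (p n))
      + w (derivative (derivative (p n)) * derivative (derivative (p n)))) / u (p n * p n) with hl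
    have hN : ∀ g, (bform v w (p n) - u ∘ₗ mulL (l • p n)) g = 0 := by
      apply lin_zero H.deg
      intro m
      simp only [LinearMap.sub_apply, bform_apply, LinearMap.comp_apply, mulL_apply]
      by_cases hm : m = n
      · subst hm
        have := H.pos m
        rw [smul_mul_assoc, map_smul, smul_eq_mul, hl]
        field_simp
        ring
      · rw [H.sob n m (Ne.symm hm), smul_mul_assoc, map_smul, H.orth n m (Ne.symm hm)]
        simp
    have hLn : L (p n) - l • p n = 0 := by
      apply hu.eq_zero
      intro g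
      have := hN g
      simp only [LinearMap.sub_apply, bform_apply, LinearMap.comp_apply, mulL_apply] at this
      rw [sub_mul, map_sub, ← hLu]
      linarith
    have hlpos : 0 < l := by
      rw [hl]
      apply div_pos _ (H.pos n)
      have hne : derivative (derivative (p n)) ≠ 0 := by
        intro h0
        have h1 : (derivative (derivative (p n))).coeff (n - 2) = 0 := by rw [h0]; simp
        rw [coeff_derivative, coeff_derivative] at h1
        have h2 : n - 2 + 1 + 1 = n := by omega
        rw [h2] at h1
        have h3 : (p n).coeff n ≠ 0 := coeff_ne_zero_of_eq_degree (H.deg n)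
        have h4 : ((n - 2 + 1 : ℕ) : ℝ) + 1 ≠ 0 := by positivity
        have h5 : ((n - 2 : ℕ) : ℝ) + 1 ≠ 0 := by positivity
        exact (mul_ne_zero (mul_ne_zero h3 h4) h5) h1
      have := hwpd _ hne
      have := hnv (derivative (p n))
      linarith
    have h1 : L (p n) = l • p n := sub_eq_zero.mp hLn
    have h2 := hLd (p n)
    rw [h1, eval_smul, smul_eq_mul] at h2
    exact (mul_eq_zero.mp h2).resolve_left hlpos.ne'
  -- evaluation at d is represented
  set Q : ℝ[X] := ((p 0).eval d / u (p 0 * p 0)) • p 0 + ((p 1).eval d / u (p 1 * p 1)) • p 1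
    with hQ
  have hev : ∀ f, (Polynomial.leval d - u ∘ₗ mulL Q) f = 0 := by
    apply lin_zero H.deg
    intro m
    simp only [LinearMap.sub_apply, leval_apply, LinearMap.comp_apply, mulL_apply, hQ, add_mul,
      smul_mul_assoc, map_add, map_smul, smul_eq_mul]
    rcases Nat.lt_or_ge m 2 with hm | hm
    · interval_cases m
      · rw [H.orth 1 0 (by norm_num)]
        have := (H.pos 0).ne'
        field_simp
        ring
      · rw [H.orth 0 1 (by norm_num)]
        have := (H.pos 1).ne'
        field_simp
        ring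
    · rw [hzero m hm, H.orth 0 m (by omega), H.orth 1 m (by omega)]
      simp
  have hQ0 : Q * (X - C d) = 0 := by
    apply hu.eq_zero
    intro g
    have := hev ((X - C d) * g)
    simp only [LinearMap.sub_apply, leval_apply, LinearMap.comp_apply, mulL_apply, eval_mul,
      eval_sub, eval_X, eval_C, sub_self, zero_mul] at this
    rw [mul_assoc]
    linarith
  have hQ1 : Q = 0 := (mul_eq_zero.mp hQ0).resolve_right (X_sub_C_ne_zero d)
  have := hev 1
  simp only [LinearMap.sub_apply, leval_apply, LinearMap.comp_apply, mulL_apply, eval_one,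
    hQ1, zero_mul, map_zero, sub_zero] at this
  exact one_ne_zero this

/-! ### test functions -/

theorem exists_antideriv (q : ℝ[X]) : ∃ P : ℝ[X], derivative P = q := by
  induction q using Polynomial.induction_on' with
  | add a b ha hb =>
    obtain ⟨P, rfl⟩ := ha
    obtain ⟨R, rfl⟩ := hb
    exact ⟨P + R, by simp⟩
  | monomial n c =>
    refine ⟨monomial (n + 1) (c / ((n : ℝ) + 1)), ?_⟩
    rw [derivative_monomial]
    congr 1
    have : ((n : ℝ) + 1) ≠ 0 := by positivity
    push_cast
    field_simp

theorem approx_step {Q : ℝ} (hQ : 0 ≤ Q) {f f' : ℝ → ℝ} (hf : ∀ x, HasDerivAt f (f' x) x)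
    {q : ℝ[X]} {δ : ℝ} (hq : ∀ x ∈ Set.Icc (-Q) Q, |q.eval x - f' x| ≤ δ) :
    ∃ P : ℝ[X], derivative P = q ∧ ∀ x ∈ Set.Icc (-Q) Q, |P.eval x - f x| ≤ δ * (2 * Q) := by
  obtain ⟨P0, hP0⟩ := exists_antideriv q
  set P : ℝ[X] := P0 + C (f (-Q) - P0.eval (-Q)) with hP
  have hd : derivative P = q := by rw [hP]; simp [hP0]
  refine ⟨P, hd, fun x hx => ?_⟩
  have h0 : P.eval (-Q) - f (-Q) = 0 := by rw [hP]; simp
  have hder : ∀ y ∈ Set.Icc (-Q) Q, HasDerivWithinAt (fun y => P.eval y - f y)
      (q.eval y - f' y) (Set.Icc (-Q) Q) y := by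
    intro y _
    have h1 := P.hasDerivAt y
    rw [hd] at h1
    exact (h1.sub (hf y)).hasDerivWithinAt
  have hm : (-Q) ∈ Set.Icc (-Q) Q := ⟨le_rfl, by linarith⟩
  have := Convex.norm_image_sub_le_of_norm_hasDerivWithin_le (C := δ) hder
    (fun y hy => by rw [Real.norm_eq_abs]; exact hq y hy) (convex_Icc _ _) hm hx
  simp only [h0, sub_zero, Real.norm_eq_abs] at this
  refine this.trans ?_
  have hδ : 0 ≤ δ := (abs_nonneg _).trans (hq x hx)
  have h2 : |x - -Q| ≤ 2 * Q := by
    rw [abs_le]
    constructor <;> linarith [hx.1, hx.2]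
  exact mul_le_mul_of_nonneg_left h2 hδ

theorem poly_bound (P : ℝ[X]) (Q : ℝ) : ∃ K, 0 ≤ K ∧ ∀ x ∈ Set.Icc (-Q) Q, |P.eval x| ≤ K := by
  obtain ⟨K, hK⟩ := isCompact_Icc.exists_bound_of_continuousOn (s := Set.Icc (-Q) Q)
    (f := fun x => P.eval x) P.continuous.continuousOn
  exact ⟨max K 0, le_max_right _ _, fun x hx => (hK x hx).trans (le_max_left _ _)⟩

theorem ae_Icc {φ : Measure ℝ} {Q : ℝ} (hφ : φ {x | Q < |x|} = 0) :
    ∀ᵐ x ∂φ, x ∈ Set.Icc (-Q) Q := by
  rw [ae_iff]
  refine measure_mono_null ?_ hφ
  intro x hx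
  simp only [Set.mem_ofPred_eq, Set.mem_Icc, not_and_or, not_le] at hx ⊢
  rcases hx with h | h
  · rw [lt_abs]; right; linarith
  · rw [lt_abs]; left; exact h

theorem integrable_cont {φ : Measure ℝ} [IsFiniteMeasure φ] {Q : ℝ} (hφ : φ {x | Q < |x|} = 0)
    {g : ℝ → ℝ} (hg : Continuous g) : Integrable g φ := by
  obtain ⟨K, hK⟩ := isCompact_Icc.exists_bound_of_continuousOn (s := Set.Icc (-Q) Q)
    (f := g) hg.continuousOn
  exact Integrable.of_bound hg.aestronglyMeasurable K ((ae_Icc hφ).mono fun x hx => hK x hx)

/-- extension of a second order relation from polynomials to `C²` functions -/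
theorem extend_rel {φ : Measure ℝ} [IsFiniteMeasure φ] {Q : ℝ} (hQ : 0 ≤ Q)
    (hφ : φ {x | Q < |x|} = 0) {P R S : ℝ[X]}
    (h : ∀ f : ℝ[X], ∫ x, (P * derivative (derivative f) + R * derivative f + S * f).eval x ∂φ = 0)
    {f f' f'' : ℝ → ℝ} (hf : ∀ x, HasDerivAt f (f' x) x) (hf' : ∀ x, HasDerivAt f' (f'' x) x)
    (hc : Continuous f'') :
    ∫ x, (P.eval x * f'' x + R.eval x * f' x + S.eval x * f x) ∂φ = 0 := by
  obtain ⟨KP, hKP, bP⟩ := poly_bound P Q
  obtain ⟨KR, hKR, bR⟩ := poly_bound R Q
  obtain ⟨KS, hKS, bS⟩ := poly_bound S Q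
  have hcf' : Continuous f' := continuous_iff_continuousAt.mpr fun x => (hf' x).continuousAt
  have hcf : Continuous f := continuous_iff_continuousAt.mpr fun x => (hf x).continuousAt
  set J := ∫ x, (P.eval x * f'' x + R.eval x * f' x + S.eval x * f x) ∂φ with hJ
  set T : ℝ := (KP + KR * (2 * Q) + KS * (2 * Q * (2 * Q))) * φ.real Set.univ with hT
  have hT0 : 0 ≤ T := by positivity
  have key : ∀ δ, 0 < δ → |J| ≤ T * δ := by
    intro δ hδ
    obtain ⟨q, hq⟩ := exists_polynomial_near_of_continuousOn (-Q) Q f'' hc.continuousOn δ hδ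
    obtain ⟨P1, hP1, b1⟩ := approx_step hQ hf' (q := q) (δ := δ) fun x hx => (hq x hx).le
    obtain ⟨P2, hP2, b2⟩ := approx_step hQ hf (q := P1) (δ := δ * (2 * Q)) b1
    have h0 := h P2
    rw [hP2, hP1] at h0
    have hi1 : Integrable (fun x => P.eval x * f'' x + R.eval x * f' x + S.eval x * f x) φ := by
      apply integrable_cont hφ
      have := P.continuous
      have := R.continuous
      have := S.continuous
      fun_prop
    have hi2 : Integrable (fun x => (P * q + R * P1 + S * P2).eval x) φ :=
      integrable_cont hφ (P * q + R * P1 + S * P2).continuous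
    have e : J = ∫ x, ((P.eval x * f'' x + R.eval x * f' x + S.eval x * f x)
        - (P * q + R * P1 + S * P2).eval x) ∂φ := by
      rw [integral_sub hi1 hi2, h0, sub_zero]
    rw [e]
    have hb : ∀ᵐ x ∂φ, ‖(P.eval x * f'' x + R.eval x * f' x + S.eval x * f x)
        - (P * q + R * P1 + S * P2).eval x‖ ≤ (KP + KR * (2 * Q) + KS * (2 * Q * (2 * Q))) * δ := by
      filter_upwards [ae_Icc hφ] with x hx
      have e2 : (P.eval x * f'' x + R.eval x * f' x + S.eval x * f x)
        - (P * q + R * P1 + S * P2).eval x = -(P.eval x * (q.eval x - f'' x)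
          + R.eval x * (P1.eval x - f' x) + S.eval x * (P2.eval x - f x)) := by
        simp only [eval_add, eval_mul]
        ring
      rw [e2, Real.norm_eq_abs, abs_neg]
      refine (abs_add_le _ _).trans ((add_le_add_left (abs_add_le _ _) _).trans ?_)
      rw [abs_mul, abs_mul, abs_mul]
      have m1 : |P.eval x| * |q.eval x - f'' x| ≤ KP * δ :=
        mul_le_mul (bP x hx) (hq x hx).le (abs_nonneg _) hKP
      have m2 : |R.eval x| * |P1.eval x - f' x| ≤ KR * (δ * (2 * Q)) :=
        mul_le_mul (bR x hx) (b1 x hx) (abs_nonneg _) hKR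
      have m3 : |S.eval x| * |P2.eval x - f x| ≤ KS * (δ * (2 * Q) * (2 * Q)) :=
        mul_le_mul (bS x hx) (b2 x hx) (abs_nonneg _) hKS
      linarith
    have := norm_integral_le_of_norm_le_const hb
    rw [Real.norm_eq_abs] at this
    refine this.trans (le_of_eq ?_)
    rw [hT]
    ring
  have : |J| ≤ 0 := by
    by_contra hne
    push Not at hne
    rcases hT0.eq_or_lt with h0 | h0
    · have := key 1 one_pos
      rw [← h0] at this
      linarith
    · have := key (|J| / (2 * T)) (by positivity)
      have e : T * (|J| / (2 * T)) = |J| / 2 := by field_simp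
      rw [e] at this
      linarith
  exact abs_nonpos_iff.mp this

/-- truncated powers -/
noncomputable def yp (t x : ℝ) : ℝ := max (x - t) 0

theorem yp_nonneg (t x : ℝ) : 0 ≤ yp t x := le_max_right _ _

theorem yp_of_le {t x : ℝ} (h : x ≤ t) : yp t x = 0 := max_eq_right (by linarith)

theorem yp_of_ge {t x : ℝ} (h : t ≤ x) : yp t x = x - t := max_eq_left (by linarith)

theorem yp_cont (t : ℝ) : Continuous (yp t) := by unfold yp; fun_prop

theorem yp_deriv (t x : ℝ) (n : ℕ) : HasDerivAt (fun x => yp t x ^ (n + 2))
    (((n : ℝ) + 2) * yp t x ^ (n + 1)) x := by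
  rcases lt_trichotomy x t with h | h | h
  · have h1 : (fun x => yp t x ^ (n + 2)) =ᶠ[nhds x] fun _ => (0 : ℝ) := by
      filter_upwards [Iio_mem_nhds h] with z hz
      rw [yp_of_le (le_of_lt hz)]
      simp
    rw [yp_of_le h.le]
    simp only [ne_eq, Nat.add_eq_zero_iff, one_ne_zero, and_false, not_false_eq_true, zero_pow,
      mul_zero]
    exact (hasDerivAt_const x (0 : ℝ)).congr_of_eventuallyEq h1
  · subst h
    rw [yp_of_le le_rfl]
    simp only [ne_eq, Nat.add_eq_zero_iff, one_ne_zero, and_false, not_false_eq_true, zero_pow,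
      mul_zero]
    have h2 : (fun z => yp x z ^ (n + 2)) =O[nhds x] fun z => ‖z - x‖ ^ (n + 2) := by
      apply Asymptotics.IsBigO.of_bound 1
      filter_upwards with z
      rw [one_mul, norm_pow, norm_pow, norm_norm]
      apply pow_le_pow_left₀ (norm_nonneg _)
      rw [Real.norm_eq_abs, abs_of_nonneg (yp_nonneg _ _), Real.norm_eq_abs]
      exact max_le (le_abs_self _) (abs_nonneg _)
    have h3 := h2.hasFDerivAt (𝕜 := ℝ) (by omega)
    have h4 := h3.hasDerivAt
    simpa using h4
  · have h1 : (fun x => yp t x ^ (n + 2)) =ᶠ[nhds x] fun x => (x - t) ^ (n + 2) := by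
      filter_upwards [Ioi_mem_nhds h] with z hz
      rw [yp_of_ge (le_of_lt hz)]
    rw [yp_of_ge h.le]
    have h2 : HasDerivAt (fun x : ℝ => (x - t) ^ (n + 2)) (((n + 2 : ℕ) : ℝ)
        * (x - t) ^ (n + 2 - 1) * 1) x :=
      ((hasDerivAt_id x).sub_const t).pow (n + 2)
    have h3 := h2.congr_of_eventuallyEq h1
    have e : ((n + 2 : ℕ) : ℝ) * (x - t) ^ (n + 2 - 1) * 1
        = ((n : ℝ) + 2) * (x - t) ^ (n + 1) := by
      have : n + 2 - 1 = n + 1 := rfl
      rw [this]
      push_cast
      ring
    rw [e] at h3
    exact h3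

/-! ### the right end point -/

theorem exists_right_end {φ : Measure ℝ} [IsFiniteMeasure φ] {Q : ℝ}
    (hφ : φ {x | Q < |x|} = 0) (h0 : φ Set.univ ≠ 0) :
    ∃ d, φ (Set.Ioi d) = 0 ∧ ∀ t < d, φ (Set.Ioi t) ≠ 0 := by
  set S : Set ℝ := {t | φ (Set.Ioi t) = 0} with hS
  have hne : S.Nonempty := by
    refine ⟨Q, measure_mono_null ?_ hφ⟩
    intro x hx
    simp only [Set.mem_ofPred_eq]
    exact lt_of_lt_of_le hx (le_abs_self x)
  have hbdd : BddBelow S := by
    refine ⟨-Q, fun t ht => ?_⟩
    by_contra hlt
    push Not at hlt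
    apply h0
    have : (Set.univ : Set ℝ) ⊆ Set.Ioi t ∪ {x | Q < |x|} := by
      intro x _
      by_cases hx : t < x
      · left; exact hx
      · right
        simp only [Set.mem_ofPred_eq]
        rw [lt_abs]
        right
        linarith
    exact measure_mono_null this (measure_union_null ht hφ)
  refine ⟨sInf S, ?_, ?_⟩
  · have hsub : Set.Ioi (sInf S) ⊆ ⋃ n : ℕ, Set.Ioi (sInf S + 1 / ((n : ℝ) + 1)) := by
      intro x hx
      have hx' : 0 < x - sInf S := sub_pos.mpr (Set.mem_Ioi.mp hx)
      obtain ⟨n, hn⟩ := exists_nat_one_div_lt hx'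
      exact Set.mem_iUnion.mpr ⟨n, by simp only [Set.mem_Ioi]; linarith⟩
    refine measure_mono_null hsub (measure_iUnion_null fun n => ?_)
    have hpos : (0 : ℝ) < 1 / ((n : ℝ) + 1) := by positivity
    obtain ⟨t, ht, ht'⟩ := exists_lt_of_csInf_lt hne (show sInf S < sInf S + 1 / ((n : ℝ) + 1) by
      linarith)
    exact measure_mono_null (Set.Ioi_subset_Ioi ht'.le) ht
  · intro t ht hz
    exact absurd (csInf_le hbdd hz) (not_le.mpr ht)

/-- the leading coefficient vanishes at the end point unless the test function does -/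
theorem lead_vanish {φ : Measure ℝ} {d : ℝ} (hd : φ (Set.Ioi d) = 0)
    {P : ℝ → ℝ} (hPc : Continuous P) (hP : P d ≠ 0) {wt : ℝ → ℝ} (hw : ∀ x ≤ d, 0 ≤ wt x)
    {g r : ℝ → ℝ → ℝ} {K : ℝ} (hK : 0 ≤ K) (hg : ∀ t x, 0 ≤ g t x) (hgt : ∀ t x, x ≤ t → g t x = 0)
    (hr : ∀ t x, d - 1 ≤ t → t < d → x ≤ d → |r t x| ≤ K * (d - t) * g t x)
    (hint : ∀ t, ∫ x, wt x * (P x * g t x + r t x) ∂φ = 0)
    (hi1 : ∀ t, Integrable (fun x => wt x * g t x) φ)
    (hi2 : ∀ t, Integrable (fun x => wt x * (P x * g t x + r t x)) φ) :
    ∃ t < d, ∫ x, wt x * g t x ∂φ = 0 := by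
  have hp : 0 < |P d| := abs_pos.mpr hP
  -- continuity
  obtain ⟨ε1, hε1, h1⟩ := Metric.continuous_iff.mp hPc d (|P d| / 2) (half_pos hp)
  set ε : ℝ := min (ε1 / 2) (min 1 (|P d| / (4 * (K + 1)))) with hε
  have hεpos : 0 < ε := by
    rw [hε]
    refine lt_min (half_pos hε1) (lt_min one_pos (by positivity))
  have hεa : ε ≤ ε1 / 2 := min_le_left _ _
  have hεb : ε ≤ 1 := (min_le_right _ _).trans (min_le_left _ _)
  have hεc : ε ≤ |P d| / (4 * (K + 1)) := (min_le_right _ _).trans (min_le_right _ _)
  have hKε : K * ε ≤ |P d| / 4 := by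
    have : (K + 1) * ε ≤ |P d| / 4 := by
      calc (K + 1) * ε ≤ (K + 1) * (|P d| / (4 * (K + 1))) :=
            mul_le_mul_of_nonneg_left hεc (by linarith)
        _ = |P d| / 4 := by field_simp
    nlinarith
  refine ⟨d - ε, by linarith, ?_⟩
  set t := d - ε with ht
  set s : ℝ := P d / |P d| with hs
  have hsabs : |s| = 1 := by rw [hs, abs_div, abs_abs, div_self hp.ne']
  have hsP : s * P d = |P d| := by
    rw [hs, div_mul_eq_mul_div, ← abs_mul_abs_self, mul_div_assoc, div_self hp.ne', mul_one]
  have hae : ∀ᵐ x ∂φ, x ≤ d := by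
    rw [ae_iff]
    refine measure_mono_null ?_ hd
    intro x hx
    simpa using hx
  have hpt : ∀ᵐ x ∂φ, (|P d| / 4) * (wt x * g t x) ≤ s * (wt x * (P x * g t x + r t x)) := by
    filter_upwards [hae] with x hx
    have hrx := hr t x (by linarith) (by linarith) hx
    have hdt : d - t = ε := by rw [ht]; ring
    rw [hdt] at hrx
    by_cases hxt : x ≤ t
    · have h0 := hgt t x hxt
      rw [h0, mul_zero] at hrx
      have h2 := abs_nonpos_iff.mp hrx
      rw [h0, h2]
      simp
    · push Not at hxt
      have hdist : dist x d < ε1 := by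
        rw [Real.dist_eq, abs_lt]
        constructor <;> linarith
      have h3 := h1 x hdist
      rw [Real.dist_eq] at h3
      have h4 : |P d| / 2 ≤ s * P x := by
        have : |s * (P x - P d)| < |P d| / 2 := by rw [abs_mul, hsabs, one_mul]; exact h3
        have := (abs_lt.mp this).1
        rw [mul_sub, hsP] at this
        linarith
      have hgx := hg t x
      have hwx := hw x hx
      have h5 : |s * r t x| ≤ (|P d| / 4) * g t x := by
        rw [abs_mul, hsabs, one_mul]
        exact hrx.trans (mul_le_mul_of_nonneg_right hKε hgx)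
      have h6 := (abs_le.mp h5).1
      have h7 : (|P d| / 4) * g t x ≤ s * (P x * g t x + r t x) := by
        have := mul_le_mul_of_nonneg_right h4 hgx
        nlinarith
      calc (|P d| / 4) * (wt x * g t x) = wt x * ((|P d| / 4) * g t x) := by ring
        _ ≤ wt x * (s * (P x * g t x + r t x)) := mul_le_mul_of_nonneg_left h7 hwx
        _ = _ := by ring
  have h8 := integral_mono_ae ((hi1 t).const_mul (|P d| / 4)) ((hi2 t).const_mul s) hpt
  rw [integral_const_mul, integral_const_mul, hint t, mul_zero] at h8
  have h9 : 0 ≤ ∫ x, wt x * g t x ∂φ := by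
    apply integral_nonneg_of_ae
    filter_upwards [hae] with x hx
    exact mul_nonneg (hw x hx) (hg t x)
  have : 0 < |P d| / 4 := by positivity
  nlinarith

theorem K_bound (P : ℝ[X]) (d : ℝ) : ∃ K, 0 ≤ K ∧ ∀ x, d - 1 ≤ x → x ≤ d → |P.eval x| ≤ K := by
  obtain ⟨K, hK⟩ := isCompact_Icc.exists_bound_of_continuousOn (s := Set.Icc (d - 1) d)
    (f := fun x => P.eval x) P.continuous.continuousOn
  exact ⟨max K 0, le_max_right _ _, fun x h1 h2 => (hK x ⟨h1, h2⟩).trans (le_max_left _ _)⟩

theorem yp_le {t x d : ℝ} (htd : t < d) (hx : x ≤ d) : yp t x ≤ d - t :=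
  max_le (by linarith) (by linarith)

/-- the four conclusions at the right end point -/
theorem right_end {φ : Measure ℝ} [IsFiniteMeasure φ] {Q : ℝ} (hQ : 0 ≤ Q)
    (hφ : φ {x | Q < |x|} = 0) {A B K E : ℝ[X]}
    (h1 : ∀ f : ℝ[X], ∫ x, (A * derivative f + B * f).eval x ∂φ = 0)
    (h2 : ∀ f : ℝ[X], ∫ x, (B * derivative (derivative f) + K * derivative f + E * f).eval x ∂φ = 0)
    {d : ℝ} (hd : φ (Set.Ioi d) = 0) (hd' : ∀ t < d, φ (Set.Ioi t) ≠ 0) :
    A.eval d = 0 ∧ B.eval d = 0 ∧ ((derivative A).eval d = 0 ∨ (K.eval d = 0 ∧ E.eval d = 0)) := by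
  have h1' : ∀ f : ℝ[X], ∫ x, ((0 : ℝ[X]) * derivative (derivative f) + A * derivative f
      + B * f).eval x ∂φ = 0 := by
    intro f
    simpa using h1 f
  -- positivity of the integral of truncated powers
  have hae : ∀ᵐ x ∂φ, x ≤ d := by
    rw [ae_iff]
    refine measure_mono_null ?_ hd
    intro x hx
    simpa using hx
  have hpos : ∀ n : ℕ, ∀ t < d, ∫ x, yp t x ^ (n + 1) ∂φ ≠ 0 := by
    intro n t ht h0
    have := (integral_eq_zero_iff_of_nonneg (μ := φ) (f := fun x => yp t x ^ (n + 1))
      (fun x => by positivity [yp_nonneg t x]) (integrable_cont hφ ((yp_cont t).pow _))).mp h0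
    apply hd' t ht
    have h3 : ∀ᵐ x ∂φ, yp t x ^ (n + 1) = 0 := this
    rw [ae_iff] at h3
    refine measure_mono_null ?_ h3
    intro x hx
    simp only [Set.mem_ofPred_eq, Set.mem_Ioi] at hx ⊢
    rw [yp_of_ge hx.le]
    have : 0 < x - t := by linarith
    positivity
  -- (a)
  have hA : A.eval d = 0 := by
    by_contra hne
    obtain ⟨KB, hKB, bB⟩ := K_bound B d
    obtain ⟨t, ht, h0⟩ := lead_vanish (φ := φ) hd (P := fun x => A.eval x) A.continuous hne
      (wt := fun _ => 1) (fun _ _ => zero_le_one) (g := fun t x => 3 * yp t x ^ 2)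
      (r := fun t x => B.eval x * yp t x ^ 3) (K := KB) hKB
      (fun t x => by positivity [yp_nonneg t x])
      (fun t x hx => by rw [yp_of_le hx]; norm_num)
      (fun t x ht1 ht2 hx => by
        by_cases hxt : x ≤ t
        · rw [yp_of_le hxt]; simp
        · push Not at hxt
          rw [abs_mul, abs_of_nonneg (pow_nonneg (yp_nonneg t x) 3)]
          have a1 := bB x (by linarith) hx
          have a2 := yp_le ht2 hx
          have a3 := yp_nonneg t x
          calc |B.eval x| * yp t x ^ 3 ≤ KB * yp t x ^ 3 := by gcongr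
            _ = KB * yp t x * yp t x ^ 2 := by ring
            _ ≤ KB * (d - t) * yp t x ^ 2 := by gcongr
            _ ≤ KB * (d - t) * (3 * yp t x ^ 2) := by
              have : 0 ≤ KB * (d - t) * yp t x ^ 2 :=
                mul_nonneg (mul_nonneg hKB (by linarith)) (by positivity)
              nlinarith)
      (fun t => by
        have := extend_rel hQ hφ h1' (f := fun x => yp t x ^ 3) (f' := fun x => 3 * yp t x ^ 2)
          (f'' := fun x => 3 * (2 * yp t x))
          (fun x => by
            have := yp_deriv t x 1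
            norm_num at this
            exact this)
          (fun x => by
            have := (yp_deriv t x 0).const_mul 3
            norm_num at this ⊢
            exact this)
          (by have := yp_cont t; fun_prop)
        simpa using this)
      (fun t => integrable_cont hφ (by have := yp_cont t; fun_prop))
      (fun t => integrable_cont hφ (by have := yp_cont t; have := A.continuous; have := B.continuous; fun_prop))
    apply hpos 1 t ht
    simp only [one_mul, integral_const_mul] at h0
    linarith
  -- (b)
  have hB : B.eval d = 0 := by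
    by_contra hne
    obtain ⟨KK, hKK, bK⟩ := K_bound K d
    obtain ⟨KE, hKE, bE⟩ := K_bound E d
    obtain ⟨t, ht, h0⟩ := lead_vanish (φ := φ) hd (P := fun x => B.eval x) B.continuous hne
      (wt := fun _ => 1) (fun _ _ => zero_le_one) (g := fun t x => 6 * yp t x)
      (r := fun t x => K.eval x * (3 * yp t x ^ 2) + E.eval x * yp t x ^ 3) (K := KK + KE)
      (by linarith)
      (fun t x => by positivity [yp_nonneg t x])
      (fun t x hx => by rw [yp_of_le hx]; norm_num)
      (fun t x ht1 ht2 hx => by
        by_cases hxt : x ≤ t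
        · rw [yp_of_le hxt]; simp
        · push Not at hxt
          have a1 := bK x (by linarith) hx
          have a1' := bE x (by linarith) hx
          have a2 := yp_le ht2 hx
          have a3 := yp_nonneg t x
          have a4 : yp t x ≤ 1 := by linarith
          refine (abs_add_le _ _).trans ?_
          rw [abs_mul, abs_mul (E.eval x), abs_of_nonneg (pow_nonneg a3 3),
            abs_of_nonneg (mul_nonneg (by norm_num : (0:ℝ) ≤ 3) (pow_nonneg a3 2))]
          have b1 : |K.eval x| * (3 * yp t x ^ 2) ≤ KK * (d - t) * (3 * yp t x) := by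
            calc |K.eval x| * (3 * yp t x ^ 2) ≤ KK * (3 * yp t x ^ 2) := by gcongr
              _ = KK * yp t x * (3 * yp t x) := by ring
              _ ≤ _ := by gcongr
          have b2 : |E.eval x| * yp t x ^ 3 ≤ KE * (d - t) * yp t x := by
            calc |E.eval x| * yp t x ^ 3 ≤ KE * yp t x ^ 3 := by gcongr
              _ = KE * yp t x * (yp t x * yp t x) := by ring
              _ ≤ KE * yp t x * (1 * yp t x) := by gcongr
              _ ≤ _ := by rw [one_mul]; gcongr
          have b3 : 0 ≤ KK * (d - t) * yp t x := mul_nonneg (mul_nonneg hKK (by linarith)) a3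
          have b4 : 0 ≤ KE * (d - t) * yp t x := mul_nonneg (mul_nonneg hKE (by linarith)) a3
          nlinarith)
      (fun t => by
        have := extend_rel hQ hφ h2 (f := fun x => yp t x ^ 3) (f' := fun x => 3 * yp t x ^ 2)
          (f'' := fun x => 3 * (2 * yp t x))
          (fun x => by
            have := yp_deriv t x 1
            norm_num at this
            exact this)
          (fun x => by
            have := (yp_deriv t x 0).const_mul 3
            norm_num at this ⊢
            exact this)
          (by have := yp_cont t; fun_prop)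
        rw [← this]
        apply integral_congr_ae
        filter_upwards with x
        ring)
      (fun t => integrable_cont hφ (by have := yp_cont t; fun_prop))
      (fun t => integrable_cont hφ (by
        have := yp_cont t
        have := B.continuous
        have := K.continuous
        have := E.continuous
        fun_prop))
    apply hpos 0 t ht
    simp only [one_mul, integral_const_mul] at h0
    simp only [zero_add, pow_one]
    linarith
  refine ⟨hA, hB, ?_⟩
  by_contra hcon
  push Not at hcon
  obtain ⟨hA', hKE⟩ := hcon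
  -- (c)
  obtain ⟨A1, hA1⟩ : (X - C d) ∣ A := dvd_iff_isRoot.mpr hA
  obtain ⟨B1, hB1⟩ : (X - C d) ∣ B := dvd_iff_isRoot.mpr hB
  have hA1d : A1.eval d ≠ 0 := by
    intro h0
    apply hA'
    rw [hA1, derivative_mul]
    simp [h0]
  obtain ⟨KB, hKB, bB⟩ := K_bound B1 d
  obtain ⟨t, ht, h0⟩ := lead_vanish (φ := φ) hd (P := fun x => A1.eval x) A1.continuous hA1d
      (wt := fun x => d - x) (fun x hx => by linarith) (g := fun t x => 3 * yp t x ^ 2)
      (r := fun t x => B1.eval x * yp t x ^ 3) (K := KB) hKB
      (fun t x => by positivity [yp_nonneg t x])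
      (fun t x hx => by rw [yp_of_le hx]; norm_num)
      (fun t x ht1 ht2 hx => by
        by_cases hxt : x ≤ t
        · rw [yp_of_le hxt]; simp
        · push Not at hxt
          rw [abs_mul, abs_of_nonneg (pow_nonneg (yp_nonneg t x) 3)]
          have a1 := bB x (by linarith) hx
          have a2 := yp_le ht2 hx
          have a3 := yp_nonneg t x
          calc |B1.eval x| * yp t x ^ 3 ≤ KB * yp t x ^ 3 := by gcongr
            _ = KB * yp t x * yp t x ^ 2 := by ring
            _ ≤ KB * (d - t) * yp t x ^ 2 := by gcongr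
            _ ≤ KB * (d - t) * (3 * yp t x ^ 2) := by
              have : 0 ≤ KB * (d - t) * yp t x ^ 2 :=
                mul_nonneg (mul_nonneg hKB (by linarith)) (by positivity)
              nlinarith)
      (fun t => by
        have := extend_rel hQ hφ h1' (f := fun x => yp t x ^ 3) (f' := fun x => 3 * yp t x ^ 2)
          (f'' := fun x => 3 * (2 * yp t x))
          (fun x => by
            have := yp_deriv t x 1
            norm_num at this
            exact this)
          (fun x => by
            have := (yp_deriv t x 0).const_mul 3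
            norm_num at this ⊢
            exact this)
          (by have := yp_cont t; fun_prop)
        have e : ∫ x, (d - x) * (A1.eval x * (3 * yp t x ^ 2) + B1.eval x * yp t x ^ 3) ∂φ
            = - ∫ x, ((0 : ℝ[X]).eval x * (3 * (2 * yp t x)) + A.eval x * (3 * yp t x ^ 2)
              + B.eval x * yp t x ^ 3) ∂φ := by
          rw [← integral_neg]
          apply integral_congr_ae
          filter_upwards with x
          rw [hA1, hB1]
          simp only [eval_mul, eval_sub, eval_X, eval_C, eval_zero]
          ring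
        rw [e, this, neg_zero])
      (fun t => integrable_cont hφ (by have := yp_cont t; fun_prop))
      (fun t => integrable_cont hφ (by
        have := yp_cont t
        have := A1.continuous
        have := B1.continuous
        fun_prop))
  -- no mass in (t, d)
  have hmid : φ (Set.Ioo t d) = 0 := by
    have h3 := (integral_eq_zero_iff_of_nonneg_ae (μ := φ) (f := fun x => (d - x) * (3 * yp t x ^ 2))
      (by
        filter_upwards [hae] with x hx
        exact mul_nonneg (by linarith) (by positivity [yp_nonneg t x]))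
      (integrable_cont hφ (by have := yp_cont t; fun_prop))).mp h0
    have h4 : ∀ᵐ x ∂φ, (d - x) * (3 * yp t x ^ 2) = 0 := h3
    rw [ae_iff] at h4
    refine measure_mono_null ?_ h4
    intro x hx
    simp only [Set.mem_ofPred_eq]
    rw [yp_of_ge hx.1.le]
    have h5 : 0 < x - t := by linarith [hx.1]
    have h6 : 0 < d - x := by linarith [hx.2]
    positivity
  have haed : ∀ᵐ x ∂φ, x ≤ t ∨ x = d := by
    rw [ae_iff]
    refine measure_mono_null ?_ (measure_union_null hmid hd)
    intro x hx
    simp only [Set.mem_ofPred_eq, not_or, not_le] at hx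
    rcases lt_trichotomy x d with h | h | h
    · left; exact ⟨hx.1, h⟩
    · exact absurd h hx.2
    · right; exact h
  have hm : φ.real {d} ≠ 0 := by
    intro h5
    rw [measureReal_eq_zero_iff] at h5
    apply hd' t ht
    refine measure_mono_null ?_ (measure_union_null (measure_union_null hmid hd) h5)
    intro x hx
    rcases lt_trichotomy x d with h | h | h
    · left; left; exact ⟨hx, h⟩
    · right; exact h
    · left; right; exact h
  have hloc : ∀ F : ℝ → ℝ, (∀ x ≤ t, F x = 0) → ∫ x, F x ∂φ = φ.real {d} * F d := by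
    intro F hF
    have : F =ᵐ[φ] Set.indicator {d} (fun _ => F d) := by
      filter_upwards [haed] with x hx
      rcases hx with h | h
      · rw [hF x h, Set.indicator_of_notMem]
        simp only [Set.mem_singleton_iff]
        linarith
      · rw [h]; simp
    rw [integral_congr_ae this, integral_indicator (measurableSet_singleton d)]
    simp [Measure.real]
  have hyd : yp t d = d - t := yp_of_ge ht.le
  have hdt : 0 < d - t := by linarith
  have e3 : K.eval d * (3 * (d - t) ^ 2) + E.eval d * (d - t) ^ 3 = 0 := by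
    have := extend_rel hQ hφ h2 (f := fun x => yp t x ^ 3) (f' := fun x => 3 * yp t x ^ 2)
      (f'' := fun x => 3 * (2 * yp t x))
      (fun x => by
        have := yp_deriv t x 1
        norm_num at this
        exact this)
      (fun x => by
        have := (yp_deriv t x 0).const_mul 3
        norm_num at this ⊢
        exact this)
      (by have := yp_cont t; fun_prop)
    rw [hloc _ (fun x hx => by rw [yp_of_le hx]; norm_num)] at this
    have := (mul_eq_zero.mp this).resolve_left hm
    rw [hB, hyd] at this
    linarith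
  have e4 : K.eval d * (4 * (d - t) ^ 3) + E.eval d * (d - t) ^ 4 = 0 := by
    have := extend_rel hQ hφ h2 (f := fun x => yp t x ^ 4) (f' := fun x => 4 * yp t x ^ 3)
      (f'' := fun x => 4 * (3 * yp t x ^ 2))
      (fun x => by
        have := yp_deriv t x 2
        norm_num at this
        exact this)
      (fun x => by
        have := (yp_deriv t x 1).const_mul 4
        norm_num at this ⊢
        exact this)
      (by have := yp_cont t; fun_prop)
    rw [hloc _ (fun x hx => by rw [yp_of_le hx]; norm_num)] at this
    have := (mul_eq_zero.mp this).resolve_left hm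
    rw [hB, hyd] at this
    linarith
  have hK0 : K.eval d = 0 := by
    have : (d - t) ^ 3 * K.eval d = 0 := by linear_combination e4 - (d - t) * e3
    exact (mul_eq_zero.mp this).resolve_left (by positivity)
  have hE0 : E.eval d = 0 := by
    rw [hK0] at e3
    have : (d - t) ^ 3 * E.eval d = 0 := by linear_combination e3
    exact (mul_eq_zero.mp this).resolve_left (by positivity)
  exact hKE hK0 hE0

end Pool.Agent.Q86.Kr
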