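import Pool.Agent.Q86.KrC

/-!
# Affine changes of variable, and the shape of the coefficients in the compact case
-/

set_option autoImplicit false

open Polynomial MeasureTheory

namespace Pool.Agent.Q86.Kr

/-- composition with an affine map -/
noncomputable def af (a b : ℝ) : ℝ[X] →ₗ[ℝ] ℝ[X] where
  toFun f := f.comp (C a * X + C b)
  map_add' _ _ := add_comp
  map_smul' _ _ := smul_comp _ _ _

theorem af_apply (a b : ℝ) (f : ℝ[X]) : af a b f = f.comp (C a * X + C b) := rfl

theorem af_mul (a b : ℝ) (f g : ℝ[X]) : af a b (f * g) = af a b f * af a b g := mul_comp _ _ _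

theorem af_eval (a b : ℝ) (f : ℝ[X]) (x : ℝ) : (af a b f).eval x = f.eval (a * x + b) := by
  rw [af_apply, eval_comp]
  simp

theorem af_deriv (a b : ℝ) (f : ℝ[X]) : derivative (af a b f) = a • af a b (derivative f) := by
  rw [af_apply, derivative_comp, af_apply, smul_eq_C_mul]
  simp

theorem af_af {a b : ℝ} (ha : a ≠ 0) (f : ℝ[X]) : af a b (af a⁻¹ (-(b / a)) f) = f := by
  rw [af_apply, af_apply, comp_assoc]
  have : (C a⁻¹ * X + C (-(b / a)) : ℝ[X]).comp (C a * X + C b) = X := by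
    simp only [add_comp, mul_comp, C_comp, X_comp]
    rw [mul_add, ← mul_assoc, ← C_mul, inv_mul_cancel₀ ha, C_1, one_mul, add_assoc, ← C_mul,
      ← C_add]
    have : a⁻¹ * b + -(b / a) = 0 := by field_simp; ring
    rw [this, C_0, add_zero]
  rw [this, comp_X]

theorem af_natDegree {a b : ℝ} (f : ℝ[X]) : (af a b f).natDegree ≤ f.natDegree := by
  rw [af_apply]
  refine natDegree_comp_le.trans ?_
  have : (C a * X + C b : ℝ[X]).natDegree ≤ 1 := natDegree_linear_le
  nlinarith

theorem af_injective {a b : ℝ} (ha : a ≠ 0) {f : ℝ[X]} (h : af a b f = 0) : f = 0 := by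
  have e : f = af a⁻¹ (-(b / a)) (af a b f) := by
    have h1 := af_af (a := a⁻¹) (b := -(b / a)) (inv_ne_zero ha) f
    have h2 : -(-(b / a) / a⁻¹) = b := by field_simp
    rw [inv_inv, h2] at h1
    exact h1.symm
  rw [e, h, map_zero]

theorem PD.af {u : ℝ[X] →ₗ[ℝ] ℝ} (hu : PD u) {a b : ℝ} (ha : a ≠ 0) : PD (u ∘ₗ Kr.af a b) := by
  intro q hq
  rw [LinearMap.comp_apply, af_mul]
  exact hu _ fun h => hq (af_injective ha h)

/-- transformation of the structural equations -/
theorem Dat.af {u : ℝ[X] →ₗ[ℝ] ℝ} {A B K E : ℝ[X]} (D : Dat u A B K E) {a b : ℝ} (ha : a ≠ 0) :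
    Dat (u ∘ₗ Kr.af a b) (a ^ 4 • Kr.af a⁻¹ (-(b / a)) A) (a ^ 3 • Kr.af a⁻¹ (-(b / a)) B)
      (a ^ 2 • Kr.af a⁻¹ (-(b / a)) K) (a • Kr.af a⁻¹ (-(b / a)) E) where
  dA := (natDegree_smul_le _ _).trans ((af_natDegree _).trans D.dA)
  dB := (natDegree_smul_le _ _).trans ((af_natDegree _).trans D.dB)
  dC := (natDegree_smul_le _ _).trans ((af_natDegree _).trans D.dC)
  dE := (natDegree_smul_le _ _).trans ((af_natDegree _).trans D.dE)
  e1 f := by
    have h := D.e1 (Kr.af a b f)
    rw [af_deriv] at h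
    rw [LinearMap.comp_apply, map_add, af_mul, af_mul, map_smul, map_smul, af_af ha, af_af ha]
    have e : (a ^ 4 • A) * Kr.af a b (derivative f) + (a ^ 3 • B) * Kr.af a b f
        = a ^ 3 • (A * a • Kr.af a b (derivative f) + B * Kr.af a b f) := by
      simp only [smul_eq_C_mul, C_pow]
      ring
    rw [e, map_smul, h, smul_zero]
  e2 f := by
    have h := D.e2 (Kr.af a b f)
    rw [af_deriv, derivative_smul, af_deriv] at h
    rw [LinearMap.comp_apply, map_add (Kr.af a b), map_add (Kr.af a b), af_mul, af_mul, af_mul,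
      map_smul, map_smul, map_smul, af_af ha, af_af ha, af_af ha]
    have e : (a ^ 3 • B) * Kr.af a b (derivative (derivative f))
        + (a ^ 2 • K) * Kr.af a b (derivative f) + (a • E) * Kr.af a b f
        = a • (B * a • a • Kr.af a b (derivative (derivative f))
          + K * a • Kr.af a b (derivative f) + E * Kr.af a b f) := by
      simp only [smul_eq_C_mul, C_pow]
      ring
    rw [e, map_smul, h, smul_zero]

theorem meas_af (a b : ℝ) : Measurable fun x : ℝ => a * x + b := by fun_prop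

theorem int_map {φ : Measure ℝ} (h : ∀ k : ℕ, Integrable (fun x : ℝ => x ^ k) φ) (a b : ℝ) :
    ∀ k : ℕ, Integrable (fun x : ℝ => x ^ k) (φ.map fun x => a * x + b) := by
  intro k
  rw [integrable_map_measure (by fun_prop) (meas_af a b).aemeasurable]
  have := integrable_eval h (af a b (X ^ k))
  refine this.congr (Filter.Eventually.of_forall fun x => ?_)
  simp only [af_eval, eval_pow, eval_X, Function.comp_apply]

theorem mom_map {φ : Measure ℝ} (h : ∀ k : ℕ, Integrable (fun x : ℝ => x ^ k) φ) (a b : ℝ) :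
    mom (φ.map fun x => a * x + b) (int_map h a b) = mom φ h ∘ₗ af a b := by
  apply LinearMap.ext
  intro f
  rw [LinearMap.comp_apply, mom_apply, mom_apply,
    integral_map (meas_af a b).aemeasurable f.continuous.aestronglyMeasurable]
  simp only [af_eval]

theorem sq_dvd {A : ℝ[X]} {d : ℝ} (h0 : A.eval d = 0) (h1 : (derivative A).eval d = 0) :
    ∃ A2, A = (X - C d) ^ 2 * A2 := by
  obtain ⟨A1, hA1⟩ : (X - C d) ∣ A := dvd_iff_isRoot.mpr h0
  have : A1.eval d = 0 := by
    rw [hA1, derivative_mul] at h1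
    simpa using h1
  obtain ⟨A2, hA2⟩ : (X - C d) ∣ A1 := dvd_iff_isRoot.mpr this
  exact ⟨A2, by rw [hA1, hA2]; ring⟩

/-- the shape of the coefficients when the support is compact -/
theorem compact_shape {φ : Measure ℝ} (h : ∀ k : ℕ, Integrable (fun x : ℝ => x ^ k) φ)
    (hs : ∀ s : Finset ℝ, φ ((↑s : Set ℝ)ᶜ) ≠ 0) {Q : ℝ} (hQ : 0 ≤ Q)
    (hφ : φ {x | Q < |x|} = 0) {A B K E : ℝ[X]} (D : Dat (mom φ h) A B K E) (hA : A ≠ 0)
    (hno : ∀ d, A.eval d = 0 → B.eval d = 0 → K.eval d = 0 → E.eval d = 0 → False) :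
    ∃ c d : ℝ, c < d ∧ φ (Set.Iio c) = 0 ∧ φ (Set.Ioi d) = 0 ∧
      (∃ a : ℝ, a ≠ 0 ∧ A = C a * ((X - C c) ^ 2 * (X - C d) ^ 2)) ∧
      ∃ B1, B = (X - C c) * (X - C d) * B1 := by
  have hfin := finite_of_int h
  have huniv : φ Set.univ ≠ 0 := by
    have := hs ∅
    simpa using this
  obtain ⟨d, hd, hd'⟩ := exists_right_end hφ huniv
  obtain ⟨ra, rb, rc⟩ := right_end hQ hφ D.e1 D.e2 hd hd'
  have rA' : (derivative A).eval d = 0 := by
    rcases rc with h1 | h1
    · exact h1
    · exact (hno d ra rb h1.1 h1.2).elim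
  -- the left end, by reflection
  set ψ : Measure ℝ := φ.map fun x => -1 * x + 0 with hψ
  have hψint := int_map h (-1) 0
  have Dψ : Dat (mom ψ hψint) ((-1 : ℝ) ^ 4 • Kr.af (-1)⁻¹ (-(0 / -1)) A)
      ((-1 : ℝ) ^ 3 • Kr.af (-1)⁻¹ (-(0 / -1)) B)
      ((-1 : ℝ) ^ 2 • Kr.af (-1)⁻¹ (-(0 / -1)) K) ((-1 : ℝ) • Kr.af (-1)⁻¹ (-(0 / -1)) E) := by
    have := D.af (a := -1) (b := 0) (by norm_num)
    rw [← mom_map h (-1) 0] at this
    exact this
  have hψQ : ψ {x | Q < |x|} = 0 := by
    rw [hψ, Measure.map_apply (meas_af _ _) (measurableSet_lt measurable_const (by fun_prop))]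
    refine measure_mono_null ?_ hφ
    intro x hx
    simp only [Set.mem_preimage, Set.mem_ofPred_eq] at hx ⊢
    simpa using hx
  have hψfin := finite_of_int hψint
  have hψuniv : ψ Set.univ ≠ 0 := by
    rw [hψ, Measure.map_apply (meas_af _ _) MeasurableSet.univ]
    simpa using huniv
  obtain ⟨e, he, he'⟩ := exists_right_end hψQ hψuniv
  obtain ⟨la, lb, lc⟩ := right_end hQ hψQ Dψ.e1 Dψ.e2 he he'
  have hinv : ∀ (P : ℝ[X]) (x : ℝ), (Kr.af (-1)⁻¹ (-(0 / -1)) P).eval x = P.eval (-x) := by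
    intro P x
    rw [af_eval]
    norm_num
  simp only [eval_smul, hinv, smul_eq_mul] at la lb lc
  have la' : A.eval (-e) = 0 := by norm_num at la; exact la
  have lb' : B.eval (-e) = 0 := by norm_num at lb; exact lb
  have lA' : (derivative A).eval (-e) = 0 := by
    rcases lc with h1 | h1
    · rw [derivative_smul, af_deriv] at h1
      simp only [eval_smul, hinv, smul_eq_mul] at h1
      norm_num at h1
      exact h1
    · obtain ⟨h2, h3⟩ := h1
      norm_num at h2 h3
      exact (hno (-e) la' lb' h2 h3).elim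
  have hleft : φ (Set.Iio (-e)) = 0 := by
    rw [hψ, Measure.map_apply (meas_af _ _) measurableSet_Ioi] at he
    refine measure_mono_null ?_ he
    intro x hx
    simp only [Set.mem_Iio, Set.mem_preimage, Set.mem_Ioi] at hx ⊢
    linarith
  have hlt : -e < d := by
    by_contra hle
    push Not at hle
    apply hs {d}
    refine measure_mono_null ?_ (measure_union_null hleft hd)
    intro x hx
    simp only [Finset.coe_singleton, Set.mem_compl_iff, Set.mem_singleton_iff] at hx
    rcases lt_trichotomy x d with h1 | h1 | h1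
    · left; exact lt_of_lt_of_le h1 hle
    · exact absurd h1 hx
    · right; exact h1
  refine ⟨-e, d, hlt, hleft, hd, ?_, ?_⟩
  · obtain ⟨A2, hA2⟩ := sq_dvd ra rA'
    have hne : (-e - d) ≠ 0 := by linarith
    have h2 : A2.eval (-e) = 0 := by
      rw [hA2] at la'
      simp only [eval_mul, eval_pow, eval_sub, eval_X, eval_C] at la'
      exact (mul_eq_zero.mp la').resolve_left (pow_ne_zero 2 hne)
    have h3 : (derivative A2).eval (-e) = 0 := by
      rw [hA2, derivative_mul] at lA'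
      simp only [eval_add, eval_mul, eval_pow, eval_sub, eval_X, eval_C, h2, mul_zero,
        zero_add] at lA'
      exact (mul_eq_zero.mp lA').resolve_left (pow_ne_zero 2 hne)
    obtain ⟨A3, hA3⟩ := sq_dvd h2 h3
    have hA3' : A = ((X - C d) ^ 2 * (X - C (-e)) ^ 2) * A3 := by rw [hA2, hA3]; ring
    have hA30 : A3 ≠ 0 := by
      intro h0
      rw [h0, mul_zero] at hA3'
      exact hA hA3'
    have hmon : ((X - C d) ^ 2 * (X - C (-e)) ^ 2 : ℝ[X]).Monic :=
      ((monic_X_sub_C d).pow 2).mul ((monic_X_sub_C (-e)).pow 2)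
    have hdeg4 : ((X - C d) ^ 2 * (X - C (-e)) ^ 2 : ℝ[X]).natDegree = 4 := by
      rw [Monic.natDegree_mul ((monic_X_sub_C d).pow 2) ((monic_X_sub_C (-e)).pow 2),
        natDegree_pow, natDegree_pow, natDegree_X_sub_C, natDegree_X_sub_C]
    have hdeg : A3.natDegree = 0 := by
      have h5 := D.dA
      rw [hA3', hmon.natDegree_mul' hA30, hdeg4] at h5
      omega
    obtain ⟨a, ha⟩ := natDegree_eq_zero.mp hdeg
    refine ⟨a, ?_, ?_⟩
    · intro h0
      rw [← ha, h0, C_0] at hA30
      exact hA30 rfl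
    · rw [hA3', ← ha]
      ring
  · obtain ⟨B1, hB1⟩ : (X - C d) ∣ B := dvd_iff_isRoot.mpr rb
    have h2 : B1.eval (-e) = 0 := by
      rw [hB1] at lb'
      simp only [eval_mul, eval_sub, eval_X, eval_C] at lb'
      exact (mul_eq_zero.mp lb').resolve_left (by linarith)
    obtain ⟨B2, hB2⟩ : (X - C (-e)) ∣ B1 := dvd_iff_isRoot.mpr h2
    exact ⟨B2, by rw [hB1, hB2]; ring⟩

end Pool.Agent.Q86.Kr
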