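import Pool.Agent.Q86.KrD

/-!
# The normalised compact case: algebra
-/

set_option autoImplicit false

open Polynomial MeasureTheory

namespace Pool.Agent.Q86.Kr

/-- `1 - X ^ 2` -/
noncomputable def sg : ℝ[X] := 1 - X ^ 2

theorem sg_ne : sg ≠ 0 := by
  intro h
  have : sg.eval 0 = 0 := by rw [h]; simp
  simp [sg] at this

theorem sg_one : sg.eval 1 = 0 := by simp [sg]

theorem sg_neg : sg.eval (-1) = 0 := by simp [sg]

theorem sg_deriv : derivative sg = -(2 : ℝ[X]) * X := by
  simp only [sg, derivative_sub, derivative_one, derivative_X_pow]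
  have : (C ((2 : ℕ) : ℝ) : ℝ[X]) = 2 := by push_cast; rfl
  rw [this]
  ring

theorem sder (k j : ℕ) : sg * derivative ((1 - X) ^ k * (1 + X) ^ j : ℝ[X])
    = (j : ℝ) • ((1 - X) ^ (k + 1) * (1 + X) ^ j) - (k : ℝ) • ((1 - X) ^ k * (1 + X) ^ (j + 1)) := by
  have e : sg = (1 - X) * (1 + X) := by rw [sg]; ring
  have h1 : (1 - X : ℝ[X]) * derivative ((1 - X) ^ k : ℝ[X]) = -((k : ℝ) • (1 - X) ^ k) := by
    cases k with
    | zero => simp
    | succ k =>
      rw [derivative_pow_succ, derivative_sub, derivative_one, derivative_X, smul_eq_C_mul]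
      push_cast
      simp only [map_add, map_natCast, map_one]
      ring
  have h2 : (1 + X : ℝ[X]) * derivative ((1 + X) ^ j : ℝ[X]) = (j : ℝ) • (1 + X) ^ j := by
    cases j with
    | zero => simp
    | succ j =>
      rw [derivative_pow_succ, derivative_add, derivative_one, derivative_X, smul_eq_C_mul]
      push_cast
      simp only [map_add, map_natCast, map_one]
      ring
  rw [derivative_mul, e]
  have h3 : (1 - X) * (1 + X) * (derivative ((1 - X) ^ k : ℝ[X]) * (1 + X) ^ j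
        + (1 - X) ^ k * derivative ((1 + X) ^ j : ℝ[X]))
      = ((1 - X) * derivative ((1 - X) ^ k : ℝ[X])) * (1 + X) ^ (j + 1)
        + (1 - X) ^ (k + 1) * ((1 + X) * derivative ((1 + X) ^ j : ℝ[X])) := by ring
  rw [h3, h1, h2]
  simp only [smul_eq_C_mul]
  ring

/-- polynomials vanishing at both end points are divisible -/
theorem sg_dvd {f : ℝ[X]} (h1 : f.eval 1 = 0) (h2 : f.eval (-1) = 0) : ∃ g, f = sg * g := by
  obtain ⟨g, hg⟩ : (X - C 1) ∣ f := dvd_iff_isRoot.mpr h1
  have h3 : g.eval (-1) = 0 := by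
    rw [hg] at h2
    simp only [eval_mul, eval_sub, eval_X, eval_C] at h2
    exact (mul_eq_zero.mp h2).resolve_left (by norm_num)
  obtain ⟨k, hk⟩ : (X - C (-1)) ∣ g := dvd_iff_isRoot.mpr h3
  refine ⟨-k, ?_⟩
  rw [hg, hk, sg]
  simp only [C_1, C_neg]
  ring

/-- linear interpolation at the end points -/
theorem interp (f : ℝ[X]) : ∃ g, f = sg * g + (C (f.eval 1 / 2) * (1 + X)
    + C (f.eval (-1) / 2) * (1 - X)) := by
  obtain ⟨g, hg⟩ := sg_dvd (f := f - (C (f.eval 1 / 2) * (1 + X)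
    + C (f.eval (-1) / 2) * (1 - X))) (by simp; ring) (by simp; ring)
  exact ⟨g, by rw [← hg]; ring⟩

/-- a functional killing the multiples of `1 - X ^ 2` is a combination of two evaluations -/
theorem two_point (w : ℝ[X] →ₗ[ℝ] ℝ) (hw : ∀ g, w (sg * g) = 0) (f : ℝ[X]) :
    w f = w (1 + X) / 2 * f.eval 1 + w (1 - X) / 2 * f.eval (-1) := by
  obtain ⟨g, hg⟩ := interp f
  conv_lhs => rw [hg]
  rw [map_add, hw, map_add, ← smul_eq_C_mul, ← smul_eq_C_mul, map_smul, map_smul, smul_eq_mul,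
    smul_eq_mul]
  ring

/-- The normalised data. -/
structure Nrm (u : ℝ[X] →ₗ[ℝ] ℝ) (α β : ℝ) (K E : ℝ[X]) : Prop where
  pd : PD u
  pos : ∀ k j : ℕ, 0 < u ((1 - X) ^ k * (1 + X) ^ j)
  dK : K.natDegree ≤ 2
  dE : E.natDegree ≤ 1
  e1 : ∀ f, u (sg ^ 2 * derivative f
    + sg * (C (β + 2) * (1 - X) - C (α + 2) * (1 + X)) * f) = 0
  e2 : ∀ f, u (sg * (C (β + 2) * (1 - X) - C (α + 2) * (1 + X)) * derivative (derivative f)
    + K * derivative f + E * f) = 0

variable {u : ℝ[X] →ₗ[ℝ] ℝ} {α β : ℝ} {K E : ℝ[X]}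

theorem Nrm.recu (H : Nrm u α β K E) (k j : ℕ) :
    ((k : ℝ) + 2 + α) * u ((1 - X) ^ (k + 1) * (1 + X) ^ (j + 2))
      = ((j : ℝ) + 2 + β) * u ((1 - X) ^ (k + 2) * (1 + X) ^ (j + 1)) := by
  have h := H.e1 ((1 - X) ^ k * (1 + X) ^ j)
  have e : sg ^ 2 * derivative ((1 - X) ^ k * (1 + X) ^ j : ℝ[X])
      + sg * (C (β + 2) * (1 - X) - C (α + 2) * (1 + X)) * ((1 - X) ^ k * (1 + X) ^ j)
      = ((j : ℝ) + 2 + β) • ((1 - X) ^ (k + 2) * (1 + X) ^ (j + 1))
        - ((k : ℝ) + 2 + α) • ((1 - X) ^ (k + 1) * (1 + X) ^ (j + 2)) := by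
    have h1 := sder k j
    have e' : sg = (1 - X) * (1 + X) := by rw [sg]; ring
    have h2 : sg ^ 2 * derivative ((1 - X) ^ k * (1 + X) ^ j : ℝ[X])
        = sg * (sg * derivative ((1 - X) ^ k * (1 + X) ^ j : ℝ[X])) := by ring
    rw [h2, h1, e']
    simp only [smul_eq_C_mul, C_add]
    ring
  rw [e, map_sub, map_smul, map_smul, smul_eq_mul, smul_eq_mul] at h
  linarith

theorem Nrm.alpha (H : Nrm u α β K E) : -2 < α := by
  obtain ⟨j, hj⟩ := exists_nat_gt (-β)
  have h := H.recu 0 j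
  have p1 := H.pos (0 + 1) (j + 2)
  have p2 := H.pos (0 + 2) (j + 1)
  have h1 : 0 < ((j : ℝ) + 2 + β) * u ((1 - X) ^ (0 + 2) * (1 + X) ^ (j + 1)) :=
    mul_pos (by linarith) p2
  rw [← h] at h1
  have := (pos_iff_pos_of_mul_pos h1).mpr p1
  push_cast at this
  linarith

theorem Nrm.beta (H : Nrm u α β K E) : -2 < β := by
  obtain ⟨k, hk⟩ := exists_nat_gt (-α)
  have h := H.recu k 0
  have p1 := H.pos (k + 1) (0 + 2)
  have p2 := H.pos (k + 2) (0 + 1)
  have h1 : 0 < ((k : ℝ) + 2 + α) * u ((1 - X) ^ (k + 1) * (1 + X) ^ (0 + 2)) :=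
    mul_pos (by linarith) p1
  rw [h] at h1
  have := (pos_iff_pos_of_mul_pos h1).mpr p2
  push_cast at this
  linarith

/-- the first order functional -/
noncomputable def wf (u : ℝ[X] →ₗ[ℝ] ℝ) (α β : ℝ) : ℝ[X] →ₗ[ℝ] ℝ :=
  u ∘ₗ mulL sg ∘ₗ (derivative : ℝ[X] →ₗ[ℝ] ℝ[X])
    + u ∘ₗ mulL (C (β + 1) * (1 - X) - C (α + 1) * (1 + X))

theorem wf_apply (f : ℝ[X]) : wf u α β f = u (sg * derivative f)
    + u ((C (β + 1) * (1 - X) - C (α + 1) * (1 + X)) * f) := rfl

theorem Nrm.wf_sg (H : Nrm u α β K E) (g : ℝ[X]) : wf u α β (sg * g) = 0 := by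
  rw [wf_apply, ← map_add, derivative_mul, sg_deriv]
  have h := H.e1 g
  rw [← h]
  congr 1
  simp only [C_add]
  have e1 : (C (2 : ℝ) : ℝ[X]) = 2 := rfl
  rw [e1, C_1]
  ring

/-- boundary functionals -/
noncomputable def kp (u : ℝ[X] →ₗ[ℝ] ℝ) (α β : ℝ) : ℝ := wf u α β (1 + X) / 2

/-- boundary functionals -/
noncomputable def km (u : ℝ[X] →ₗ[ℝ] ℝ) (α β : ℝ) : ℝ := wf u α β (1 - X) / 2

theorem Nrm.wf_eq (H : Nrm u α β K E) (f : ℝ[X]) : wf u α β f
    = kp u α β * f.eval 1 + km u α β * f.eval (-1) := two_point _ H.wf_sg f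

theorem Nrm.sgd (H : Nrm u α β K E) (f : ℝ[X]) : u (sg * derivative f)
    = kp u α β * f.eval 1 + km u α β * f.eval (-1)
      - u ((C (β + 1) * (1 - X) - C (α + 1) * (1 + X)) * f) := by
  rw [← H.wf_eq, wf_apply]
  ring

/-- The main algebraic consequence of the second equation. -/
theorem Nrm.star (H : Nrm u α β K E) : ∃ (t l0 l1 : ℝ), (∀ f, u ((C l0 + C l1 * X) * derivative f
      + (E - C t * (C (β + 1) * (1 - X) - C (α + 1) * (1 + X))) * f)
      = 2 * (α + 2) * kp u α β * (derivative f).eval 1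
        - 2 * (β + 2) * km u α β * (derivative f).eval (-1)
        - t * (kp u α β * f.eval 1 + km u α β * f.eval (-1))) := by
  set b0 : ℝ := β - α with hb0
  set b1 : ℝ := -(α + β + 4) with hb1
  set k0 := K.coeff 0 with hk0
  set k1 := K.coeff 1 with hk1
  set k2 := K.coeff 2 with hk2
  have hK : K = C k0 + C k1 * X + C k2 * X ^ 2 := by
    have := K.as_sum_range' 3 (by have := H.dK; omega)
    rw [Finset.sum_range_succ, Finset.sum_range_succ, Finset.sum_range_one] at this
    simp only [← C_mul_X_pow_eq_monomial, pow_zero, mul_one, pow_one] at this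
    exact this
  refine ⟨b1 ^ 2 + b1 - k2, k0 - b0 ^ 2 - b1 + (k2 - b1 ^ 2 - b1), k1 - 2 * b0 * b1 - 2 * b0,
    fun f => ?_⟩
  set B1 : ℝ[X] := C (β + 2) * (1 - X) - C (α + 2) * (1 + X) with hB1
  set τ : ℝ[X] := C (β + 1) * (1 - X) - C (α + 1) * (1 + X) with hτ
  have hB1' : B1 = C b0 + C b1 * X := by
    rw [hB1, hb0, hb1]
    simp only [C_add, C_sub, C_neg]
    have e1 : (C (2 : ℝ) : ℝ[X]) = 2 := rfl
    have e2 : (C (4 : ℝ) : ℝ[X]) = 4 := rfl
    rw [e1, e2]
    ring
  have hτ' : τ = C b0 + C (b1 + 2) * X := by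
    rw [hτ, hb0, hb1]
    simp only [C_add, C_sub, C_neg, C_1]
    have e1 : (C (2 : ℝ) : ℝ[X]) = 2 := rfl
    have e2 : (C (4 : ℝ) : ℝ[X]) = 4 := rfl
    rw [e1, e2]
    ring
  have hd : derivative B1 = C b1 := by rw [hB1']; simp
  have s1 := H.sgd (B1 * derivative f)
  have s2 := H.sgd f
  have s3 := H.e2 f
  rw [← hB1] at s3
  rw [← hτ] at s1 s2
  rw [derivative_mul, hd] at s1
  have ev1 : B1.eval 1 = -2 * (α + 2) := by rw [hB1]; simp; ring
  have ev2 : B1.eval (-1) = 2 * (β + 2) := by rw [hB1]; simp; ring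
  rw [eval_mul, eval_mul, ev1, ev2] at s1
  set t := b1 ^ 2 + b1 - k2 with ht
  have key : (C (k0 - b0 ^ 2 - b1 + (k2 - b1 ^ 2 - b1)) + C (k1 - 2 * b0 * b1 - 2 * b0) * X)
        * derivative f + (E - C t * τ) * f
      = (sg * B1 * derivative (derivative f) + K * derivative f + E * f)
        - sg * (C b1 * derivative f + B1 * derivative (derivative f))
        - τ * (B1 * derivative f) - t • (sg * derivative f) - t • (τ * f) := by
    rw [hK, hB1', hτ', ht, sg]
    simp only [smul_eq_C_mul, C_add, C_sub, C_mul, C_pow]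
    have e1 : (C (2 : ℝ) : ℝ[X]) = 2 := rfl
    rw [e1]
    ring
  rw [key, map_sub, map_sub, map_sub, map_sub, s3, s1, map_smul, map_smul, s2]
  simp only [smul_eq_mul]
  ring

theorem Nrm.concl (H : Nrm u α β K E) : -1 < α ∧ -1 < β ∧ (kp u α β ≠ 0 → α = 0) ∧
    (km u α β ≠ 0 → β = 0) ∧ (kp u α β ≠ 0 → km u α β ≠ 0 →
      kp u α β + km u α β = 0 ∨ 2 * u 1 = km u α β - kp u α β) := by
  obtain ⟨t, l0, l1, hst⟩ := H.star
  set τ : ℝ[X] := C (β + 1) * (1 - X) - C (α + 1) * (1 + X) with hτ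
  set ℓ : ℝ[X] := C l0 + C l1 * X with hℓ
  set G : ℝ[X] := -(2 : ℝ[X]) * X * ℓ - C l1 * sg - τ * ℓ + (E - C t * τ) * sg with hG
  have hGu : ∀ h, u (G * h) = -(kp u α β * (4 * (α + 2) + (l0 + l1)) * h.eval 1)
      - km u α β * (4 * (β + 2) + (l0 - l1)) * h.eval (-1) := by
    intro h
    have s1 := hst (sg * h)
    have s2 := H.sgd (ℓ * h)
    have d1 : derivative ℓ = C l1 := by rw [hℓ]; simp
    rw [derivative_mul, sg_deriv] at s1
    rw [derivative_mul, d1, ← hτ] at s2
    have v1 : ℓ.eval 1 = l0 + l1 := by rw [hℓ]; simp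
    have v2 : ℓ.eval (-1) = l0 - l1 := by rw [hℓ]; simp; ring
    simp only [eval_add, eval_mul, sg_one, sg_neg, zero_mul, add_zero, mul_zero, sub_zero, eval_X,
      eval_neg, eval_ofNat, mul_one] at s1
    rw [eval_mul, eval_mul, v1, v2] at s2
    have e : G * h = (ℓ * (-(2 : ℝ[X]) * X * h + sg * derivative h) + (E - C t * τ) * (sg * h))
        - sg * (C l1 * h + ℓ * derivative h) - τ * (ℓ * h) := by
      rw [hG]; ring
    rw [e, map_sub, map_sub, s1, s2]
    ring
  have hG0 : G = 0 := by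
    have h1 : sg * G = 0 := by
      by_contra hne
      have h2 := H.pd _ hne
      have h3 : sg * G * (sg * G) = G * (sg * (sg * G)) := by ring
      rw [h3, hGu] at h2
      simp only [eval_mul, sg_one, sg_neg, zero_mul, mul_zero, neg_zero, sub_zero] at h2
      exact lt_irrefl _ h2
    exact (mul_eq_zero.mp h1).resolve_left sg_ne
  have hp : kp u α β * (4 * (α + 2) + (l0 + l1)) = 0 := by
    have := hGu (1 + X)
    rw [hG0, zero_mul, map_zero] at this
    simp only [eval_add, eval_one, eval_X, add_neg_cancel, mul_zero, sub_zero] at this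
    linarith
  have hm : km u α β * (4 * (β + 2) + (l0 - l1)) = 0 := by
    have := hGu (1 - X)
    rw [hG0, zero_mul, map_zero] at this
    simp only [eval_sub, eval_one, eval_X, sub_self, mul_zero, neg_zero] at this
    linarith
  have ha : α * (l0 + l1) = 0 := by
    have h1 : G.eval 1 = 0 := by rw [hG0]; simp
    rw [hG, hℓ, hτ] at h1
    simp only [eval_add, eval_sub, eval_mul, eval_neg, eval_ofNat, eval_X, eval_C, eval_one,
      sg_one, mul_zero, mul_one, sub_self] at h1
    linarith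
  have hb : β * (l0 - l1) = 0 := by
    have h1 : G.eval (-1) = 0 := by rw [hG0]; simp
    rw [hG, hℓ, hτ] at h1
    simp only [eval_add, eval_sub, eval_mul, eval_neg, eval_ofNat, eval_X, eval_C, eval_one,
      sg_neg, mul_zero, mul_one] at h1
    linarith
  have hα := H.alpha
  have hβ := H.beta
  have ca : kp u α β ≠ 0 → α = 0 ∧ l0 + l1 = -8 := by
    intro h
    have h1 := (mul_eq_zero.mp hp).resolve_left h
    rcases mul_eq_zero.mp ha with h2 | h2
    · exact ⟨h2, by rw [h2] at h1; linarith⟩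
    · linarith
  have cb : km u α β ≠ 0 → β = 0 ∧ l0 - l1 = -8 := by
    intro h
    have h1 := (mul_eq_zero.mp hm).resolve_left h
    rcases mul_eq_zero.mp hb with h2 | h2
    · exact ⟨h2, by rw [h2] at h1; linarith⟩
    · linarith
  have sgf : sg = (1 - X) * (1 + X) := by rw [sg]; ring
  refine ⟨?_, ?_, fun h => (ca h).1, fun h => (cb h).1, ?_⟩
  · by_cases h : kp u α β = 0
    · have h1 := H.sgd (1 + X)
      rw [h] at h1
      simp only [eval_add, eval_one, eval_X, add_neg_cancel, mul_zero, zero_mul, derivative_add,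
        derivative_one, derivative_X, zero_add, mul_one, zero_sub] at h1
      have p1 := H.pos 1 1
      have p2 := H.pos 0 2
      rw [pow_one, pow_one] at p1
      rw [pow_zero, one_mul] at p2
      have e : (C (β + 1) * (1 - X) - C (α + 1) * (1 + X)) * (1 + X)
          = (β + 1) • ((1 - X) * (1 + X)) - (α + 1) • ((1 + X : ℝ[X]) ^ 2) := by
        simp only [smul_eq_C_mul]; ring
      rw [e, map_sub, map_smul, map_smul, sgf, smul_eq_mul, smul_eq_mul] at h1
      have h2 : 0 < (α + 1) * u ((1 + X) ^ 2) := by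
        have : (α + 1) * u ((1 + X) ^ 2) = (β + 2) * u ((1 - X) * (1 + X)) := by linarith
        rw [this]
        exact mul_pos (by linarith) p1
      have := (pos_iff_pos_of_mul_pos h2).mpr p2
      linarith
    · rw [(ca h).1]; norm_num
  · by_cases h : km u α β = 0
    · have h1 := H.sgd (1 - X)
      rw [h] at h1
      simp only [eval_sub, eval_one, eval_X, sub_self, mul_zero, zero_mul, derivative_sub,
        derivative_one, derivative_X, zero_sub, add_zero] at h1
      have p1 := H.pos 1 1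
      have p2 := H.pos 2 0
      rw [pow_one, pow_one] at p1
      rw [pow_zero, mul_one] at p2
      have e : (C (β + 1) * (1 - X) - C (α + 1) * (1 + X)) * (1 - X)
          = (β + 1) • ((1 - X : ℝ[X]) ^ 2) - (α + 1) • ((1 - X) * (1 + X)) := by
        simp only [smul_eq_C_mul]; ring
      rw [e, map_sub, map_smul, map_smul, sgf, smul_eq_mul, smul_eq_mul, mul_neg, mul_one,
        map_neg] at h1
      have h2 : 0 < (β + 1) * u ((1 - X) ^ 2) := by
        have : (β + 1) * u ((1 - X) ^ 2) = (α + 2) * u ((1 - X) * (1 + X)) := by linarith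
        rw [this]
        exact mul_pos (by linarith) p1
      have := (pos_iff_pos_of_mul_pos h2).mpr p2
      linarith
    · rw [(cb h).1]; norm_num
  · intro h1 h2
    obtain ⟨a0, c1⟩ := ca h1
    obtain ⟨b0, c2⟩ := cb h2
    have l1z : l1 = 0 := by linarith
    have l0z : l0 = -8 := by linarith
    have hτX : τ = -(2 : ℝ[X]) * X := by
      rw [hτ, a0, b0, zero_add, C_1]
      ring
    have hE : E - C t * τ = 0 := by
      have h3 : (E - C t * τ) * sg = 0 := by
        have : G = (E - C t * τ) * sg := by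
          rw [hG, hℓ, l1z, l0z, hτX]
          simp only [C_0, C_neg]
          ring
        rw [← this, hG0]
      exact (mul_eq_zero.mp h3).resolve_right sg_ne
    have s1 := hst 1
    have s2 := hst X
    rw [hE] at s1 s2
    simp only [derivative_one, derivative_X, mul_zero, zero_mul, add_zero, map_zero, eval_zero,
      eval_one, eval_X, mul_one] at s1 s2
    have e : ℓ = (-8 : ℝ) • (1 : ℝ[X]) := by
      rw [hℓ, l1z, l0z, smul_eq_C_mul]; simp
    rw [e, map_smul, smul_eq_mul, show 2 * (α + 2) = 4 by linarith,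
      show 2 * (β + 2) = 4 by linarith] at s2
    by_cases ht : t = 0
    · right
      rw [ht] at s2
      linarith
    · left
      have : t * (kp u α β + km u α β) = 0 := by linarith
      exact (mul_eq_zero.mp this).resolve_left ht

end Pool.Agent.Q86.Kr
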