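import Pool.Agent.Q86.KrE

/-!
# The Jacobi functional and the representation in the compact case
-/

set_option autoImplicit false

open Polynomial MeasureTheory

namespace Pool.Agent.Q86.Kr

/-! ### measures with a density -/

theorem dens_toReal {s : Set ℝ} {w : ℝ → ℝ} (hw0 : ∀ x ∈ s, 0 ≤ w x) (F : ℝ → ℝ) (x : ℝ) :
    (ENNReal.ofReal (s.indicator w x)).toReal • F x = s.indicator (fun x => w x * F x) x := by
  by_cases hx : x ∈ s
  · rw [Set.indicator_of_mem hx, Set.indicator_of_mem hx, ENNReal.toReal_ofReal (hw0 x hx),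
      smul_eq_mul]
  · rw [Set.indicator_of_notMem hx, Set.indicator_of_notMem hx]
    simp

theorem dens_integral {s : Set ℝ} (hs : MeasurableSet s) {w : ℝ → ℝ} (hw : Measurable w)
    (hw0 : ∀ x ∈ s, 0 ≤ w x) (F : ℝ → ℝ) :
    ∫ x, F x ∂(volume.withDensity fun x => ENNReal.ofReal (s.indicator w x))
      = ∫ x in s, w x * F x := by
  have hm : Measurable (fun x => ENNReal.ofReal (s.indicator w x)) :=
    ENNReal.measurable_ofReal.comp (hw.indicator hs)
  rw [integral_withDensity_eq_integral_toReal_smul hm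
    (Filter.Eventually.of_forall fun x => ENNReal.ofReal_lt_top)]
  simp only [dens_toReal hw0]
  rw [integral_indicator hs]

theorem dens_integrable {s : Set ℝ} (hs : MeasurableSet s) {w : ℝ → ℝ} (hw : Measurable w)
    (hw0 : ∀ x ∈ s, 0 ≤ w x) (F : ℝ → ℝ) :
    Integrable F (volume.withDensity fun x => ENNReal.ofReal (s.indicator w x))
      ↔ IntegrableOn (fun x => w x * F x) s := by
  have hm : Measurable (fun x => ENNReal.ofReal (s.indicator w x)) :=
    ENNReal.measurable_ofReal.comp (hw.indicator hs)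
  rw [integrable_withDensity_iff_integrable_smul' hm
    (Filter.Eventually.of_forall fun x => ENNReal.ofReal_lt_top)]
  simp only [dens_toReal hw0]
  rw [integrable_indicator_iff hs]

/-! ### the Jacobi weight -/

/-- Jacobi weight -/
noncomputable def jw (α β x : ℝ) : ℝ := (1 - x) ^ α * (1 + x) ^ β

theorem jw_meas (α β : ℝ) : Measurable (jw α β) := by unfold jw; fun_prop

theorem jw_int {α β : ℝ} (hα : -1 < α) (hβ : -1 < β) :
    IntervalIntegrable (jw α β) volume (-1) 1 := by
  have h1 : IntervalIntegrable (jw α β) volume (-1) 0 := by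
    have h := (intervalIntegral.intervalIntegrable_rpow' (a := 0) (b := 1) hβ).comp_add_left 1
    norm_num at h
    apply h.continuousOn_mul
    apply ContinuousOn.rpow_const (by fun_prop)
    intro x hx
    rw [Set.uIcc_of_le (by norm_num)] at hx
    left
    linarith [hx.2]
  have h2 : IntervalIntegrable (jw α β) volume 0 1 := by
    have h := (intervalIntegral.intervalIntegrable_rpow' (a := 0) (b := 1) hα).comp_sub_left 1
    norm_num at h
    have h3 := h.symm
    apply h3.mul_continuousOn
    apply ContinuousOn.rpow_const (by fun_prop)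
    intro x hx
    rw [Set.uIcc_of_le (by norm_num)] at hx
    left
    linarith [hx.1]
  exact h1.trans h2

/-- the Jacobi functional -/
noncomputable def Jf {α β : ℝ} (hα : -1 < α) (hβ : -1 < β) : ℝ[X] →ₗ[ℝ] ℝ where
  toFun f := ∫ x in (-1 : ℝ)..1, jw α β x * f.eval x
  map_add' f g := by
    simp only [eval_add, mul_add]
    exact intervalIntegral.integral_add ((jw_int hα hβ).mul_continuousOn f.continuous.continuousOn)
      ((jw_int hα hβ).mul_continuousOn g.continuous.continuousOn)
  map_smul' c f := by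
    simp only [eval_smul, smul_eq_mul, RingHom.id_apply]
    rw [← intervalIntegral.integral_const_mul]
    congr 1
    ext x
    ring

theorem Jf_apply {α β : ℝ} (hα : -1 < α) (hβ : -1 < β) (f : ℝ[X]) :
    Jf hα hβ f = ∫ x in (-1 : ℝ)..1, jw α β x * f.eval x := rfl

theorem Jf_pos {α β : ℝ} (hα : -1 < α) (hβ : -1 < β) {f : ℝ[X]}
    (hf : ∀ x ∈ Set.Ioo (-1 : ℝ) 1, 0 < f.eval x) : 0 < Jf hα hβ f := by
  rw [Jf_apply]
  apply intervalIntegral.intervalIntegral_pos_of_pos_on
    ((jw_int hα hβ).mul_continuousOn f.continuous.continuousOn) _ (by norm_num)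
  intro x hx
  apply mul_pos _ (hf x hx)
  unfold jw
  exact mul_pos (Real.rpow_pos_of_pos (by linarith [hx.2]) _)
    (Real.rpow_pos_of_pos (by linarith [hx.1]) _)

theorem Jf_eq {α β : ℝ} (hα : -1 < α) (hβ : -1 < β) (f : ℝ[X]) :
    Jf hα hβ (sg * derivative f + (C (β + 1) * (1 - X) - C (α + 1) * (1 + X)) * f) = 0 := by
  rw [Jf_apply]
  have h := intervalIntegral.integral_eq_sub_of_hasDerivAt_of_le (a := -1) (b := 1)
    (f := fun x => (1 - x) ^ (α + 1) * (1 + x) ^ (β + 1) * f.eval x)
    (f' := fun x => jw α β x * (sg * derivative f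
      + (C (β + 1) * (1 - X) - C (α + 1) * (1 + X)) * f).eval x) (by norm_num) ?_ ?_ ?_
  · rw [h]
    norm_num
    rw [Real.zero_rpow (by linarith), Real.zero_rpow (by linarith)]
    simp
  · apply ContinuousOn.mul _ f.continuous.continuousOn
    apply ContinuousOn.mul
    · apply ContinuousOn.rpow_const (by fun_prop)
      intro x _
      right
      linarith
    · apply ContinuousOn.rpow_const (by fun_prop)
      intro x _
      right
      linarith
  · intro x hx
    have h1 : 0 < 1 - x := by linarith [hx.2]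
    have h2 : 0 < 1 + x := by linarith [hx.1]
    have d1 : HasDerivAt (fun x : ℝ => (1 - x) ^ (α + 1))
        (-1 * (α + 1) * (1 - x) ^ (α + 1 - 1)) x := by
      have := ((hasDerivAt_id x).const_sub 1).rpow_const (p := α + 1) (Or.inl (by
        simpa using h1.ne'))
      simpa using this
    have d2 : HasDerivAt (fun x : ℝ => (1 + x) ^ (β + 1))
        (1 * (β + 1) * (1 + x) ^ (β + 1 - 1)) x := by
      have := ((hasDerivAt_id x).const_add 1).rpow_const (p := β + 1) (Or.inl (by
        simpa using h2.ne'))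
      simpa using this
    have d3 : HasDerivAt (fun x : ℝ => (1 - x) ^ (α + 1) * (1 + x) ^ (β + 1) * f.eval x) _ x :=
      (d1.mul d2).mul (f.hasDerivAt x)
    refine d3.congr_deriv ?_
    simp only [eval_add, eval_mul, eval_sub, eval_C, eval_one, eval_X, sg, eval_pow, jw,
      Pi.mul_apply]
    rw [add_sub_cancel_right, add_sub_cancel_right, Real.rpow_add_one h1.ne',
      Real.rpow_add_one h2.ne']
    ring
  · exact (jw_int hα hβ).mul_continuousOn (Polynomial.continuous _).continuousOn

/-- uniqueness of the functional `f ↦ u ((1 - X ^ 2) f)` -/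
theorem rec_unique {v : ℝ[X] →ₗ[ℝ] ℝ} {α β : ℝ} (hab : 0 < α + β + 4)
    (hv : ∀ f, v (sg * derivative f + (C (β + 2) * (1 - X) - C (α + 2) * (1 + X)) * f) = 0)
    (h1 : v 1 = 0) (f : ℝ[X]) : v f = 0 := by
  have e1 : (C (β + 2) * (1 - X) - C (α + 2) * (1 + X) : ℝ[X])
      = C (β - α) - C (α + β + 4) * X := by
    simp only [C_add, C_sub]
    have e1 : (C (2 : ℝ) : ℝ[X]) = 2 := rfl
    have e2 : (C (4 : ℝ) : ℝ[X]) = 4 := rfl
    rw [e1, e2]
    ring
  have key : ∀ n : ℕ, v (X ^ n) = 0 ∧ v (X ^ (n + 1)) = 0 := by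
    intro n
    induction n with
    | zero =>
      refine ⟨by simpa using h1, ?_⟩
      have h := hv 1
      rw [derivative_one, mul_zero, zero_add, mul_one, e1, map_sub, ← mul_one (C (β - α)),
        ← smul_eq_C_mul, ← smul_eq_C_mul, map_smul, map_smul, h1, smul_zero, zero_sub,
        neg_eq_zero, smul_eq_mul] at h
      rw [zero_add, pow_one]
      exact (mul_eq_zero.mp h).resolve_left hab.ne'
    | succ n ih =>
      refine ⟨ih.2, ?_⟩
      have h := hv (X ^ (n + 1))
      have e : sg * derivative (X ^ (n + 1) : ℝ[X])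
          + (C (β + 2) * (1 - X) - C (α + 2) * (1 + X)) * X ^ (n + 1)
          = ((n : ℝ) + 1) • X ^ n + (β - α) • X ^ (n + 1)
            - ((n : ℝ) + 1 + (α + β + 4)) • X ^ (n + 1 + 1) := by
        rw [e1, derivative_X_pow, sg]
        simp only [smul_eq_C_mul, C_add, C_sub, Nat.add_sub_cancel]
        push_cast
        simp only [C_add, map_natCast, C_1]
        ring
      rw [e, map_sub, map_add, map_smul, map_smul, map_smul, ih.1, ih.2, smul_zero, smul_zero,
        zero_add, zero_sub, neg_eq_zero, smul_eq_mul] at h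
      exact (mul_eq_zero.mp h).resolve_left (by positivity)
  exact lin_zero (p := fun n => X ^ n) (fun n => degree_X_pow n) v (fun n => (key n).1) f

/-- representation -/
theorem Nrm.repr {u : ℝ[X] →ₗ[ℝ] ℝ} {α β : ℝ} {K E : ℝ[X]} (H : Nrm u α β K E)
    (hα : -1 < α) (hβ : -1 < β) : ∃ c mp mm : ℝ, 0 < c ∧
      (∀ f, u f = c * Jf hα hβ f + mp * f.eval 1 + mm * f.eval (-1)) ∧
      kp u α β = -2 * (α + 1) * mp ∧ km u α β = 2 * (β + 1) * mm := by
  have hJ : 0 < Jf hα hβ sg := by
    apply Jf_pos
    intro x hx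
    simp only [sg, eval_sub, eval_one, eval_pow, eval_X]
    nlinarith [hx.1, hx.2]
  have hu : 0 < u sg := by
    have := H.pos 1 1
    rw [pow_one, pow_one] at this
    have e : sg = (1 - X) * (1 + X) := by rw [sg]; ring
    rw [e]
    exact this
  set c : ℝ := u sg / Jf hα hβ sg with hc
  have hker : ∀ g, (u - c • Jf hα hβ) (sg * g) = 0 := by
    intro g
    have := rec_unique (v := (u - c • Jf hα hβ) ∘ₗ mulL sg) (α := α) (β := β) (by linarith)
      (fun f => by
        rw [LinearMap.comp_apply, mulL_apply, LinearMap.sub_apply, LinearMap.smul_apply]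
        have h1 := H.e1 f
        have h2 := Jf_eq hα hβ (sg * f)
        have e1 : sg * (sg * derivative f + (C (β + 2) * (1 - X) - C (α + 2) * (1 + X)) * f)
          = sg ^ 2 * derivative f + sg * (C (β + 2) * (1 - X) - C (α + 2) * (1 + X)) * f := by
          ring
        have e2 : sg * (sg * derivative f + (C (β + 2) * (1 - X) - C (α + 2) * (1 + X)) * f)
          = sg * derivative (sg * f) + (C (β + 1) * (1 - X) - C (α + 1) * (1 + X)) * (sg * f) := by
          rw [derivative_mul, sg_deriv]
          simp only [C_add]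
          have e1 : (C (2 : ℝ) : ℝ[X]) = 2 := rfl
          rw [e1, C_1]
          ring
        rw [e2, h2, smul_zero, sub_zero, ← e2, e1, h1])
      (by
        rw [LinearMap.comp_apply, mulL_apply, LinearMap.sub_apply, LinearMap.smul_apply, mul_one,
          smul_eq_mul, hc]
        field_simp
        ring) g
    exact this
  set mp : ℝ := (u - c • Jf hα hβ) (1 + X) / 2 with hmp
  set mm : ℝ := (u - c • Jf hα hβ) (1 - X) / 2 with hmm
  have hrep : ∀ f, u f = c * Jf hα hβ f + mp * f.eval 1 + mm * f.eval (-1) := by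
    intro f
    have := two_point (u - c • Jf hα hβ) hker f
    rw [← hmp, ← hmm, LinearMap.sub_apply, LinearMap.smul_apply, smul_eq_mul] at this
    linarith
  refine ⟨c, mp, mm, div_pos hu hJ, hrep, ?_, ?_⟩
  · unfold kp
    rw [wf_apply, ← map_add, hrep, Jf_eq]
    simp only [eval_add, eval_mul, sg_one, sg_neg, eval_sub, eval_C, eval_one, eval_X]
    ring
  · unfold km
    rw [wf_apply, ← map_add, hrep, Jf_eq]
    simp only [eval_add, eval_mul, sg_one, sg_neg, eval_sub, eval_C, eval_one, eval_X]
    ring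

/-- the Jacobi integrals of high powers tend to zero -/
theorem Jf_tendsto {α β : ℝ} (hα : -1 < α) (hβ : -1 < β) {f : ℝ[X]}
    (hf : ∀ x ∈ Set.Ioo (-1 : ℝ) 1, |f.eval x| < 1) :
    Filter.Tendsto (fun n : ℕ => Jf hα hβ (f ^ n)) Filter.atTop (nhds 0) := by
  have hle : (-1 : ℝ) ≤ 1 := by norm_num
  simp only [Jf_apply, intervalIntegral.integral_of_le hle]
  have h0 : (0 : ℝ) = ∫ x in Set.Ioc (-1 : ℝ) 1, (0 : ℝ) := by simp
  rw [h0]
  have hae : ∀ᵐ x ∂(volume.restrict (Set.Ioc (-1 : ℝ) 1)), x ∈ Set.Ioo (-1 : ℝ) 1 := by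
    rw [← Measure.restrict_congr_set (Ioo_ae_eq_Ioc (μ := volume) (a := (-1 : ℝ)) (b := 1))]
    exact ae_restrict_mem measurableSet_Ioo
  apply tendsto_integral_of_dominated_convergence (fun x => |jw α β x|)
  · intro n
    exact ((jw_meas α β).aestronglyMeasurable.mul
      (f ^ n).continuous.aestronglyMeasurable)
  · have := (jw_int hα hβ).1
    exact this.abs
  · intro n
    filter_upwards [hae] with x hx
    rw [norm_mul, Real.norm_eq_abs, Real.norm_eq_abs, eval_pow, abs_pow]
    have := pow_le_one₀ (n := n) (abs_nonneg _) (hf x hx).le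
    nlinarith [abs_nonneg (jw α β x)]
  · filter_upwards [hae] with x hx
    simp only [eval_pow]
    have h1 := tendsto_pow_atTop_nhds_zero_of_abs_lt_one (hf x hx)
    have := h1.const_mul (jw α β x)
    simpa using this

end Pool.Agent.Q86.Kr
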