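import Pool.Agent.Q86.KrF

/-!
# The compact case
-/

set_option autoImplicit false

open Polynomial MeasureTheory

namespace Pool.Agent.Q86.Kr

/-- the list of measures -/
def IsListed (μ : Measure ℝ) : Prop :=
  (∃ α β : ℝ, -1 < α ∧ -1 < β ∧
          μ = MeasureTheory.volume.withDensity (fun x : ℝ => ENNReal.ofReal
            ((Set.Icc (-1 : ℝ) 1).indicator (fun y : ℝ => (1 - y) ^ α * (1 + y) ^ β) x)))
        ∨ (∃ α : ℝ, -1 < α ∧
          μ = MeasureTheory.volume.withDensity (fun x : ℝ => ENNReal.ofReal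
            ((Set.Ioi (0 : ℝ)).indicator (fun y : ℝ => y ^ α * Real.exp (-y)) x)))
        ∨ (μ = MeasureTheory.volume.withDensity (fun x : ℝ => ENNReal.ofReal
            (Real.exp (-(x ^ 2)))))
        ∨ (∃ A : ℝ, 0 < A ∧
          μ = MeasureTheory.volume.restrict (Set.Icc (-1 : ℝ) 1)
            + ENNReal.ofReal (1 / A) • (MeasureTheory.Measure.dirac (-1 : ℝ)
                + MeasureTheory.Measure.dirac (1 : ℝ)))
        ∨ (∃ R : ℝ, 0 < R ∧
          μ = MeasureTheory.volume.withDensity (fun x : ℝ => ENNReal.ofReal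
            ((Set.Ioi (0 : ℝ)).indicator (fun y : ℝ => Real.exp (-y)) x))
            + ENNReal.ofReal (1 / R) • MeasureTheory.Measure.dirac (0 : ℝ))
        ∨ (∃ α M : ℝ, -1 < α ∧ 0 < M ∧
          μ = MeasureTheory.volume.withDensity (fun x : ℝ => ENNReal.ofReal
            ((Set.Ico (0 : ℝ) 1).indicator (fun y : ℝ => (1 - y) ^ α) x))
            + ENNReal.ofReal (1 / M) • MeasureTheory.Measure.dirac (0 : ℝ))

/-- the conclusion, in terms of moments -/
def Good (φ : Measure ℝ) : Prop := ∃ μ : Measure ℝ, IsListed μ ∧ ∃ a b c : ℝ, a ≠ 0 ∧ c ≠ 0 ∧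
  ∀ f : ℝ[X], ∫ x, f.eval x ∂μ = c * ∫ x, f.eval (a * x + b) ∂φ

theorem Good.of_map {φ : Measure ℝ} {a b : ℝ} (ha : a ≠ 0)
    (h : Good (φ.map fun x => a * x + b)) : Good φ := by
  obtain ⟨μ, hμ, a', b', c, ha', hc, hf⟩ := h
  refine ⟨μ, hμ, a' * a, a' * b + b', c, mul_ne_zero ha' ha, hc, fun f => ?_⟩
  rw [hf f, integral_map (meas_af a b).aemeasurable
    (by fun_prop : Continuous fun x => f.eval (a' * x + b')).aestronglyMeasurable]
  congr 2
  ext x
  congr 1
  ring

theorem supp_map {φ : Measure ℝ} (hs : ∀ s : Finset ℝ, φ ((↑s : Set ℝ)ᶜ) ≠ 0) {a b : ℝ}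
    (ha : a ≠ 0) (s : Finset ℝ) : (φ.map fun x => a * x + b) ((↑s : Set ℝ)ᶜ) ≠ 0 := by
  rw [Measure.map_apply (meas_af a b) s.finite_toSet.measurableSet.compl]
  intro h0
  apply hs (s.image fun y => (y - b) / a)
  refine measure_mono_null ?_ h0
  intro x hx
  simp only [Finset.coe_image, Set.mem_compl_iff, Set.mem_image, Finset.mem_coe, not_exists,
    not_and, Set.mem_preimage] at hx ⊢
  intro h1
  apply hx _ h1
  field_simp
  ring

theorem pos_of_supp {φ : Measure ℝ} (h : ∀ k : ℕ, Integrable (fun x : ℝ => x ^ k) φ)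
    (hs : ∀ s : Finset ℝ, φ ((↑s : Set ℝ)ᶜ) ≠ 0) (h1 : φ (Set.Iio (-1)) = 0)
    (h2 : φ (Set.Ioi 1) = 0) (k j : ℕ) :
    0 < mom φ h ((1 - X) ^ k * (1 + X) ^ j) := by
  have hae : ∀ᵐ x ∂φ, x ∈ Set.Icc (-1 : ℝ) 1 := by
    rw [ae_iff]
    refine measure_mono_null ?_ (measure_union_null h1 h2)
    intro x hx
    simp only [Set.mem_ofPred_eq, Set.mem_Icc, not_and_or, not_le] at hx
    rcases hx with h | h
    · left; exact h
    · right; exact h
  rw [mom_apply]
  have hnn : 0 ≤ᵐ[φ] fun x => ((1 - X) ^ k * (1 + X) ^ j : ℝ[X]).eval x := by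
    filter_upwards [hae] with x hx
    simp only [eval_mul, eval_pow, eval_sub, eval_add, eval_one, eval_X, Pi.zero_apply]
    exact mul_nonneg (pow_nonneg (by linarith [hx.2]) _) (pow_nonneg (by linarith [hx.1]) _)
  refine lt_of_le_of_ne (integral_nonneg_of_ae hnn) fun h0 => ?_
  have h3 := (integral_eq_zero_iff_of_nonneg_ae hnn (integrable_eval h _)).mp h0.symm
  have h4 : ∀ᵐ x ∂φ, ((1 - X) ^ k * (1 + X) ^ j : ℝ[X]).eval x = 0 := h3
  rw [ae_iff] at h4
  apply hs {-1, 1}
  refine measure_mono_null ?_ h4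
  intro x hx
  simp only [Finset.coe_insert, Finset.coe_singleton, Set.mem_compl_iff, Set.mem_insert_iff,
    Set.mem_singleton_iff, not_or] at hx
  simp only [eval_mul, eval_pow, eval_sub, eval_add, eval_one, eval_X, Set.mem_ofPred_eq]
  apply mul_ne_zero
  · apply pow_ne_zero
    intro h5
    apply hx.2
    linarith
  · apply pow_ne_zero
    intro h5
    apply hx.1
    linarith

/-! ### integrals against the listed measures -/

theorem int_jacobi {α β : ℝ} (hα : -1 < α) (hβ : -1 < β) (f : ℝ[X]) :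
    ∫ x, f.eval x ∂(MeasureTheory.volume.withDensity (fun x : ℝ => ENNReal.ofReal
            ((Set.Icc (-1 : ℝ) 1).indicator (fun y : ℝ => (1 - y) ^ α * (1 + y) ^ β) x)))
      = Jf hα hβ f := by
  have h := dens_integral (s := Set.Icc (-1 : ℝ) 1) measurableSet_Icc (jw_meas α β)
    (fun x hx => mul_nonneg (Real.rpow_nonneg (by linarith [hx.2]) _)
      (Real.rpow_nonneg (by linarith [hx.1]) _)) (fun x => f.eval x)
  refine h.trans ?_
  rw [Jf_apply, intervalIntegral.integral_of_le (by norm_num), integral_Icc_eq_integral_Ioc]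

theorem int_legendre {m : ℝ} (hm : 0 ≤ m) (f : ℝ[X]) :
    ∫ x, f.eval x ∂(MeasureTheory.volume.restrict (Set.Icc (-1 : ℝ) 1)
            + ENNReal.ofReal m • (MeasureTheory.Measure.dirac (-1 : ℝ)
                + MeasureTheory.Measure.dirac (1 : ℝ)))
      = Jf (α := 0) (β := 0) (by norm_num) (by norm_num) f + m * (f.eval (-1) + f.eval 1) := by
  have i1 : Integrable (fun x => f.eval x) (volume.restrict (Set.Icc (-1 : ℝ) 1)) :=
    f.continuous.integrableOn_Icc
  have i2 : Integrable (fun x => f.eval x) (Measure.dirac (-1 : ℝ)) := integrable_dirac (by simp)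
  have i3 : Integrable (fun x => f.eval x) (Measure.dirac (1 : ℝ)) := integrable_dirac (by simp)
  rw [integral_add_measure i1 ((i2.add_measure i3).smul_measure ENNReal.ofReal_ne_top),
    integral_smul_measure, integral_add_measure i2 i3, integral_dirac, integral_dirac,
    ENNReal.toReal_ofReal hm, smul_eq_mul, Jf_apply, intervalIntegral.integral_of_le (by norm_num),
    integral_Icc_eq_integral_Ioc]
  congr 1
  apply integral_congr_ae
  filter_upwards with x
  simp [jw]

theorem int_jacobi_type {α m : ℝ} (hα : -1 < α) (hm : 0 ≤ m) (f : ℝ[X]) :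
    ∫ x, f.eval x ∂(MeasureTheory.volume.withDensity (fun x : ℝ => ENNReal.ofReal
            ((Set.Ico (0 : ℝ) 1).indicator (fun y : ℝ => (1 - y) ^ α) x))
            + ENNReal.ofReal m • MeasureTheory.Measure.dirac (0 : ℝ))
      = (∫ x in (0 : ℝ)..1, (1 - x) ^ α * f.eval x) + m * f.eval 0 := by
  have hw0 : ∀ x ∈ Set.Ico (0 : ℝ) 1, 0 ≤ (1 - x) ^ α := fun x hx =>
    Real.rpow_nonneg (by linarith [hx.2]) _
  have hwm : Measurable fun y : ℝ => (1 - y) ^ α := by fun_prop
  have i1 : Integrable (fun x => f.eval x) (MeasureTheory.volume.withDensity (fun x : ℝ =>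
      ENNReal.ofReal ((Set.Ico (0 : ℝ) 1).indicator (fun y : ℝ => (1 - y) ^ α) x))) := by
    rw [dens_integrable measurableSet_Ico hwm hw0]
    have h := (intervalIntegral.intervalIntegrable_rpow' (a := 0) (b := 1) hα).comp_sub_left 1
    norm_num at h
    have h2 := (h.symm.mul_continuousOn (f.continuous.continuousOn)).1
    exact h2.congr_set_ae (Ico_ae_eq_Ioc)
  have i2 : Integrable (fun x => f.eval x) (Measure.dirac (0 : ℝ)) := integrable_dirac (by simp)
  rw [integral_add_measure i1 (i2.smul_measure ENNReal.ofReal_ne_top),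
    integral_smul_measure, integral_dirac, dens_integral measurableSet_Ico hwm hw0,
    ENNReal.toReal_ofReal hm, smul_eq_mul, intervalIntegral.integral_of_le (by norm_num),
    setIntegral_congr_set (Ico_ae_eq_Ioc (μ := volume) (a := (0 : ℝ)) (b := 1))]

theorem half_right {α : ℝ} (hα : -1 < α) (f : ℝ[X]) :
    ∫ x in (0 : ℝ)..1, (1 - x) ^ α * f.eval x
      = (1 / 2) ^ (α + 1) * Jf hα (β := 0) (by norm_num) (af (1 / 2) (1 / 2) f) := by
  rw [Jf_apply]
  have h := intervalIntegral.integral_comp_mul_add (a := -1) (b := 1)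
    (fun x : ℝ => (1 - x) ^ α * f.eval x) (c := 1 / 2) (by norm_num) (1 / 2)
  norm_num at h
  have e : ∫ x in (-1 : ℝ)..1, jw α 0 x * (af (1 / 2) (1 / 2) f).eval x
      = ∫ x in (-1 : ℝ)..1, (2 : ℝ) ^ α * ((1 - (1 / 2 * x + 1 / 2)) ^ α
        * f.eval (1 / 2 * x + 1 / 2)) := by
    apply intervalIntegral.integral_congr
    intro x hx
    rw [Set.uIcc_of_le (by norm_num)] at hx
    simp only [jw, af_eval, Real.rpow_zero, mul_one]
    have : (1 - x) = 2 * (1 - (1 / 2 * x + 1 / 2)) := by ring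
    rw [this, Real.mul_rpow (by norm_num) (by linarith [hx.2])]
    ring
  rw [e, intervalIntegral.integral_const_mul, h, Real.rpow_add (by norm_num), Real.rpow_one]
  have h2 : ((1 : ℝ) / 2) ^ α * 2 ^ α = 1 := by
    rw [← Real.mul_rpow (by norm_num) (by norm_num)]
    norm_num
  have h3 : (1 / 2 : ℝ) ^ α * (1 / 2) * (2 ^ α * (2 * ∫ x in (0 : ℝ)..1, (1 - x) ^ α * f.eval x))
      = ((1 / 2 : ℝ) ^ α * 2 ^ α) * ∫ x in (0 : ℝ)..1, (1 - x) ^ α * f.eval x := by ring
  rw [h3, h2, one_mul]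

theorem half_left {β : ℝ} (hβ : -1 < β) (f : ℝ[X]) :
    ∫ x in (0 : ℝ)..1, (1 - x) ^ β * f.eval x
      = (1 / 2) ^ (β + 1) * Jf (α := 0) (by norm_num) hβ (af (-1 / 2) (1 / 2) f) := by
  rw [Jf_apply]
  have h := intervalIntegral.integral_comp_mul_add (a := -1) (b := 1)
    (fun x : ℝ => (1 - x) ^ β * f.eval x) (c := -1 / 2) (by norm_num) (1 / 2)
  norm_num at h
  rw [intervalIntegral.integral_symm 0 1] at h
  have e : ∫ x in (-1 : ℝ)..1, jw 0 β x * (af (-1 / 2) (1 / 2) f).eval x
      = ∫ x in (-1 : ℝ)..1, (2 : ℝ) ^ β * ((1 - (-(1 / 2 * x) + 1 / 2)) ^ β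
        * f.eval (-(1 / 2 * x) + 1 / 2)) := by
    apply intervalIntegral.integral_congr
    intro x hx
    rw [Set.uIcc_of_le (by norm_num)] at hx
    simp only [jw, af_eval, Real.rpow_zero, one_mul]
    have h1 : (1 + x) = 2 * (1 - (-(1 / 2 * x) + 1 / 2)) := by ring
    have h2 : -1 / 2 * x + 1 / 2 = -(1 / 2 * x) + 1 / 2 := by ring
    rw [h1, h2, Real.mul_rpow (by norm_num) (by linarith [hx.1])]
    ring
  rw [e, intervalIntegral.integral_const_mul, h, Real.rpow_add (by norm_num), Real.rpow_one]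
  have h2 : ((1 : ℝ) / 2) ^ β * 2 ^ β = 1 := by
    rw [← Real.mul_rpow (by norm_num) (by norm_num)]
    norm_num
  have h3 : (1 / 2 : ℝ) ^ β * (1 / 2) * (2 ^ β * -(2 * -∫ x in (0 : ℝ)..1,
        (1 - x) ^ β * f.eval x))
      = ((1 / 2 : ℝ) ^ β * 2 ^ β) * ∫ x in (0 : ℝ)..1, (1 - x) ^ β * f.eval x := by ring
  rw [h3, h2, one_mul]

/-! ### the normalised case -/

theorem mass_nonneg {φ : Measure ℝ} (h : ∀ k : ℕ, Integrable (fun x : ℝ => x ^ k) φ)
    {α β : ℝ} (hα : -1 < α) (hβ : -1 < β) {c mp mm : ℝ}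
    (hrep : ∀ f, mom φ h f = c * Jf hα hβ f + mp * f.eval 1 + mm * f.eval (-1)) :
    0 ≤ mp ∧ 0 ≤ mm := by
  have key : ∀ g : ℝ[X], (∀ x ∈ Set.Ioo (-1 : ℝ) 1, |(g * g).eval x| < 1) →
      ∀ n : ℕ, 0 ≤ c * Jf hα hβ ((g * g) ^ n) + mp * ((g * g).eval 1) ^ n
        + mm * ((g * g).eval (-1)) ^ n := by
    intro g _ n
    have h1 := hrep ((g * g) ^ n)
    rw [eval_pow, eval_pow] at h1
    rw [← h1, mom_apply]
    apply integral_nonneg
    intro x
    simp only [eval_pow, eval_mul, Pi.zero_apply]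
    exact pow_nonneg (mul_self_nonneg _) _
  constructor
  · set g : ℝ[X] := C (1 / 2) * (1 + X) with hg
    have hb : ∀ x ∈ Set.Ioo (-1 : ℝ) 1, |(g * g).eval x| < 1 := by
      intro x hx
      simp only [hg, eval_mul, eval_C, eval_add, eval_one, eval_X]
      rw [abs_of_nonneg (mul_self_nonneg _)]
      nlinarith [hx.1, hx.2]
    have hk := key g hb
    have e1 : (g * g).eval 1 = 1 := by simp [hg]; norm_num
    have e2 : (g * g).eval (-1) = 0 := by simp [hg]
    have t := (Jf_tendsto hα hβ hb).const_mul c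
    rw [mul_zero] at t
    have t2 := t.add_const mp
    rw [zero_add] at t2
    refine ge_of_tendsto t2 ?_
    filter_upwards [Filter.eventually_ge_atTop 1] with n hn
    have := hk n
    rw [e1, e2, one_pow, zero_pow (by omega)] at this
    linarith
  · set g : ℝ[X] := C (1 / 2) * (1 - X) with hg
    have hb : ∀ x ∈ Set.Ioo (-1 : ℝ) 1, |(g * g).eval x| < 1 := by
      intro x hx
      simp only [hg, eval_mul, eval_C, eval_sub, eval_one, eval_X]
      rw [abs_of_nonneg (mul_self_nonneg _)]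
      nlinarith [hx.1, hx.2]
    have hk := key g hb
    have e1 : (g * g).eval 1 = 0 := by simp [hg]
    have e2 : (g * g).eval (-1) = 1 := by simp [hg]; norm_num
    have t := (Jf_tendsto hα hβ hb).const_mul c
    rw [mul_zero] at t
    have t2 := t.add_const mm
    rw [zero_add] at t2
    refine ge_of_tendsto t2 ?_
    filter_upwards [Filter.eventually_ge_atTop 1] with n hn
    have := hk n
    rw [e1, e2, one_pow, zero_pow (by omega)] at this
    linarith

theorem good_of_nrm {φ : Measure ℝ} (h : ∀ k : ℕ, Integrable (fun x : ℝ => x ^ k) φ)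
    {α β : ℝ} {K E : ℝ[X]} (H : Nrm (mom φ h) α β K E) : Good φ := by
  obtain ⟨hα, hβ, ca, cb, cc⟩ := H.concl
  obtain ⟨c, mp, mm, hc, hrep, hkp, hkm⟩ := H.repr hα hβ
  obtain ⟨hmp, hmm⟩ := mass_nonneg h hα hβ hrep
  have ca' : mp ≠ 0 → α = 0 := fun hne => ca (by
    rw [hkp]
    exact mul_ne_zero (by linarith) hne)
  have cb' : mm ≠ 0 → β = 0 := fun hne => cb (by
    rw [hkm]
    exact mul_ne_zero (by linarith) hne)
  have hmom : ∀ f : ℝ[X], mom φ h f = ∫ x, f.eval x ∂φ := fun _ => rfl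
  by_cases h1 : mp = 0
  · by_cases h2 : mm = 0
    · refine ⟨_, Or.inl ⟨α, β, hα, hβ, rfl⟩, 1, 0, c⁻¹, one_ne_zero, inv_ne_zero hc.ne',
        fun f => ?_⟩
      rw [int_jacobi hα hβ]
      simp only [one_mul, add_zero]
      rw [← hmom, hrep, h1, h2]
      field_simp
      ring
    · have hb := cb' h2
      subst hb
      have hpos : 0 < mm := lt_of_le_of_ne hmm (Ne.symm h2)
      set m' : ℝ := (1 / 2) ^ (α + 1) * mm / c with hm'
      have hm'pos : 0 < m' := by
        rw [hm']
        have : (0 : ℝ) < (1 / 2) ^ (α + 1) := Real.rpow_pos_of_pos (by norm_num) _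
        positivity
      refine ⟨_, Or.inr (Or.inr (Or.inr (Or.inr (Or.inr ⟨α, 1 / m', hα, by positivity, rfl⟩)))),
        1 / 2, 1 / 2, (1 / 2) ^ (α + 1) / c, by norm_num, ?_, fun f => ?_⟩
      · have : (0 : ℝ) < (1 / 2) ^ (α + 1) := Real.rpow_pos_of_pos (by norm_num) _
        positivity
      · rw [one_div_one_div, int_jacobi_type hα hm'pos.le, half_right hα]
        have := hrep (af (1 / 2) (1 / 2) f)
        rw [hmom] at this
        simp only [af_eval] at this
        rw [this, h1]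
        norm_num
        rw [hm']
        field_simp
  · have ha := ca' h1
    subst ha
    have hpos : 0 < mp := lt_of_le_of_ne hmp (Ne.symm h1)
    by_cases h2 : mm = 0
    · set m' : ℝ := (1 / 2) ^ (β + 1) * mp / c with hm'
      have hm'pos : 0 < m' := by
        rw [hm']
        have : (0 : ℝ) < (1 / 2) ^ (β + 1) := Real.rpow_pos_of_pos (by norm_num) _
        positivity
      refine ⟨_, Or.inr (Or.inr (Or.inr (Or.inr (Or.inr ⟨β, 1 / m', hβ, by positivity, rfl⟩)))),
        -1 / 2, 1 / 2, (1 / 2) ^ (β + 1) / c, by norm_num, ?_, fun f => ?_⟩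
      · have : (0 : ℝ) < (1 / 2) ^ (β + 1) := Real.rpow_pos_of_pos (by norm_num) _
        positivity
      · rw [one_div_one_div, int_jacobi_type hβ hm'pos.le, half_left hβ]
        have := hrep (af (-1 / 2) (1 / 2) f)
        rw [hmom] at this
        simp only [af_eval] at this
        rw [this, h2]
        norm_num
        rw [hm']
        field_simp
    · have hb := cb' h2
      subst hb
      have hpos2 : 0 < mm := lt_of_le_of_ne hmm (Ne.symm h2)
      have hJ1 : 0 < Jf hα hβ 1 := Jf_pos hα hβ (fun x _ => by simp)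
      have heq : mm = mp := by
        have hc1 := cc (by rw [hkp]; norm_num; exact h1) (by rw [hkm]; norm_num; exact h2)
        rw [hkp, hkm] at hc1
        rcases hc1 with h3 | h3
        · linarith
        · have := hrep 1
          rw [eval_one, eval_one] at this
          have := mul_pos hc hJ1
          linarith
      refine ⟨_, Or.inr (Or.inr (Or.inr (Or.inl ⟨c / mp, by positivity, rfl⟩))),
        1, 0, c⁻¹, one_ne_zero, inv_ne_zero hc.ne', fun f => ?_⟩
      rw [one_div_div, int_legendre (by positivity)]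
      simp only [one_mul, add_zero]
      rw [← hmom, hrep, heq]
      field_simp
      ring

/-- The compact case. -/
theorem good_of_compact {φ : Measure ℝ} (h : ∀ k : ℕ, Integrable (fun x : ℝ => x ^ k) φ)
    (hs : ∀ s : Finset ℝ, φ ((↑s : Set ℝ)ᶜ) ≠ 0) {Q : ℝ} (hQ : 0 ≤ Q)
    (hφ : φ {x | Q < |x|} = 0) {A B K E : ℝ[X]} (D : Dat (mom φ h) A B K E) (hA : A ≠ 0)
    (hno : ∀ d, A.eval d = 0 → B.eval d = 0 → K.eval d = 0 → E.eval d = 0 → False) :
    Good φ ∧ A.natDegree = 4 := by
  obtain ⟨c, d, hcd, hc, hd, ⟨a, ha, hA1⟩, B1, hB1⟩ := compact_shape h hs hQ hφ D hA hno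
  constructor
  swap
  · rw [hA1]
    have hmon : ((X - C c) ^ 2 * (X - C d) ^ 2 : ℝ[X]).Monic :=
      ((monic_X_sub_C c).pow 2).mul ((monic_X_sub_C d).pow 2)
    rw [natDegree_C_mul ha, Monic.natDegree_mul ((monic_X_sub_C c).pow 2)
      ((monic_X_sub_C d).pow 2), natDegree_pow, natDegree_pow, natDegree_X_sub_C,
      natDegree_X_sub_C]
  set r : ℝ := 2 / (d - c) with hr
  set e : ℝ := -(c + d) / (d - c) with he
  have hdc : d - c ≠ 0 := by linarith
  have hr0 : 0 < r := by
    have : 0 < d - c := by linarith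
    positivity
  apply Good.of_map (a := r) (b := e) hr0.ne'
  have D' := D.af (a := r) (b := e) hr0.ne'
  rw [← mom_map h r e] at D'
  have hA' : (r ^ 4 • Kr.af r⁻¹ (-(e / r)) A : ℝ[X]) = a • sg ^ 2 := by
    have e1 : (C r⁻¹ * X + C (-(e / r)) : ℝ[X]) - C c = C ((d - c) / 2) * (1 + X) := by
      have h1 : r⁻¹ = (d - c) / 2 := by rw [hr]; field_simp
      have h2 : -(e / r) = (d - c) / 2 + c := by rw [hr, he]; field_simp; ring
      rw [h1, h2, C_add]
      ring
    have e2 : (C r⁻¹ * X + C (-(e / r)) : ℝ[X]) - C d = -(C ((d - c) / 2) * (1 - X)) := by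
      have h1 : r⁻¹ = (d - c) / 2 := by rw [hr]; field_simp
      have h2 : -(e / r) = d - (d - c) / 2 := by rw [hr, he]; field_simp; ring
      rw [h1, h2, C_sub]
      ring
    rw [af_apply, hA1, mul_comp, mul_comp, pow_comp, pow_comp, sub_comp, sub_comp, C_comp,
      X_comp, C_comp, C_comp, e1, e2, sg, smul_eq_C_mul, smul_eq_C_mul]
    have e3 : C (r ^ 4) * (C a * ((C ((d - c) / 2) * (1 + X)) ^ 2
        * (-(C ((d - c) / 2) * (1 - X))) ^ 2))
        = C a * (C (r ^ 4) * C ((d - c) / 2) ^ 4) * (1 - X ^ 2 : ℝ[X]) ^ 2 := by ring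
    rw [e3, ← C_pow, ← C_mul]
    have e4 : r ^ 4 * ((d - c) / 2) ^ 4 = 1 := by
      rw [← mul_pow, hr]
      have : 2 / (d - c) * ((d - c) / 2) = 1 := by field_simp
      rw [this, one_pow]
    rw [e4, C_1, mul_one]
  have hB' : ∃ L : ℝ[X], (r ^ 3 • Kr.af r⁻¹ (-(e / r)) B : ℝ[X]) = sg * L := by
    apply sg_dvd
    · rw [eval_smul, af_eval, hB1]
      have : r⁻¹ * 1 + -(e / r) = d := by rw [hr, he]; field_simp; ring
      rw [this]
      simp
    · rw [eval_smul, af_eval, hB1]
      have : r⁻¹ * (-1) + -(e / r) = c := by rw [hr, he]; field_simp; ring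
      rw [this]
      simp
  obtain ⟨L, hL⟩ := hB'
  have hLdeg : L.natDegree ≤ 1 := by
    have h1 := D'.dB
    rw [hL] at h1
    by_cases hL0 : L = 0
    · rw [hL0]; simp
    · rw [natDegree_mul sg_ne hL0] at h1
      have h2 : sg.natDegree = 2 := by
        rw [sg, natDegree_sub_eq_right_of_natDegree_lt]
        · rw [natDegree_X_pow]
        · rw [natDegree_X_pow, natDegree_one]; norm_num
      omega
  set l0 := L.coeff 0 with hl0
  set l1 := L.coeff 1 with hl1
  have hLe : L = C l0 + C l1 * X := by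
    have := L.as_sum_range' 2 (by omega)
    rw [Finset.sum_range_succ, Finset.sum_range_one] at this
    simp only [← C_mul_X_pow_eq_monomial, pow_zero, mul_one, pow_one] at this
    exact this
  set α : ℝ := (-(l1 / a) - 4 - l0 / a) / 2 with hα
  set β : ℝ := (-(l1 / a) - 4 + l0 / a) / 2 with hβ
  have hLa : C (β + 2) * (1 - X) - C (α + 2) * (1 + X) = a⁻¹ • L := by
    have h1 : (C (β + 2) * (1 - X) - C (α + 2) * (1 + X) : ℝ[X])
        = C (β - α) - C (α + β + 4) * X := by
      simp only [C_add, C_sub]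
      have e1 : (C (2 : ℝ) : ℝ[X]) = 2 := rfl
      have e2 : (C (4 : ℝ) : ℝ[X]) = 4 := rfl
      rw [e1, e2]
      ring
    have h2 : β - α = a⁻¹ * l0 := by rw [hα, hβ]; field_simp; ring
    have h3 : α + β + 4 = -(a⁻¹ * l1) := by rw [hα, hβ]; field_simp; ring
    rw [h1, h2, h3, hLe, smul_eq_C_mul]
    simp only [C_neg, C_mul]
    ring
  have hsupp := supp_map hs hr0.ne' (b := e)
  have hl : (φ.map fun x => r * x + e) (Set.Iio (-1)) = 0 := by
    rw [Measure.map_apply (meas_af r e) measurableSet_Iio]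
    refine measure_mono_null ?_ hc
    intro x hx
    simp only [Set.mem_preimage, Set.mem_Iio] at hx ⊢
    have : r * x + e + 1 = r * (x - c) := by rw [hr, he]; field_simp; ring
    have h2 : r * (x - c) < 0 := by linarith
    by_contra hcon
    push Not at hcon
    have : 0 ≤ r * (x - c) := mul_nonneg hr0.le (by linarith)
    linarith
  have hr' : (φ.map fun x => r * x + e) (Set.Ioi 1) = 0 := by
    rw [Measure.map_apply (meas_af r e) measurableSet_Ioi]
    refine measure_mono_null ?_ hd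
    intro x hx
    simp only [Set.mem_preimage, Set.mem_Ioi] at hx ⊢
    have : r * x + e - 1 = r * (x - d) := by rw [hr, he]; field_simp; ring
    by_contra hcon
    push Not at hcon
    have : 0 ≤ r * (d - x) := mul_nonneg hr0.le (by linarith)
    linarith
  refine good_of_nrm (int_map h r e) (α := α) (β := β)
    (K := a⁻¹ • (r ^ 2 • Kr.af r⁻¹ (-(e / r)) K)) (E := a⁻¹ • (r • Kr.af r⁻¹ (-(e / r)) E))
    ⟨mom_pd hsupp, pos_of_supp _ hsupp hl hr', (natDegree_smul_le _ _).trans D'.dC,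
      (natDegree_smul_le _ _).trans D'.dE, ?_, ?_⟩
  · intro f
    have h1 := D'.e1 f
    rw [hA', hL] at h1
    have e1 : sg ^ 2 * derivative f + sg * (C (β + 2) * (1 - X) - C (α + 2) * (1 + X)) * f
        = a⁻¹ • (a • sg ^ 2 * derivative f + sg * L * f) := by
      rw [hLa, smul_add, smul_mul_assoc, smul_smul, inv_mul_cancel₀ ha, one_smul]
      simp only [smul_eq_C_mul]
      ring
    rw [e1, map_smul, h1, smul_zero]
  · intro f
    have h1 := D'.e2 f
    rw [hL] at h1
    have e1 : sg * (C (β + 2) * (1 - X) - C (α + 2) * (1 + X)) * derivative (derivative f)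
        + (a⁻¹ • (r ^ 2 • Kr.af r⁻¹ (-(e / r)) K)) * derivative f
        + (a⁻¹ • (r • Kr.af r⁻¹ (-(e / r)) E)) * f
        = a⁻¹ • (sg * L * derivative (derivative f)
          + (r ^ 2 • Kr.af r⁻¹ (-(e / r)) K) * derivative f
          + (r • Kr.af r⁻¹ (-(e / r)) E) * f) := by
      rw [hLa]
      simp only [smul_eq_C_mul]
      ring
    rw [e1, map_smul, h1, smul_zero]

end Pool.Agent.Q86.Kr
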