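import Pool.Agent.Q86.KrG

/-!
# Laguerre, Hermite and Laguerre type functionals
-/

set_option autoImplicit false

open Polynomial MeasureTheory

namespace Pool.Agent.Q86.Kr

/-! ### Laguerre weight -/

theorem lag_integrable {n : ℝ} (hn : 0 < n) (k : ℕ) :
    IntegrableOn (fun y : ℝ => y ^ (n - 1) * Real.exp (-y) * y ^ k) (Set.Ioi 0) := by
  have h := Real.GammaIntegral_convergent (s := n + k) (by positivity)
  refine h.congr_fun ?_ measurableSet_Ioi
  intro y hy
  have hy' : (0 : ℝ) < y := hy
  simp only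
  have : n + (k : ℝ) - 1 = (n - 1) + k := by ring
  rw [this, Real.rpow_add hy', Real.rpow_natCast]
  ring

theorem lag_moment {n : ℝ} (hn : 0 < n) (k : ℕ) :
    ∫ y in Set.Ioi (0 : ℝ), y ^ (n - 1) * Real.exp (-y) * y ^ k = Real.Gamma (n + k) := by
  rw [Real.Gamma_eq_integral (by positivity)]
  apply setIntegral_congr_fun measurableSet_Ioi
  intro y hy
  have hy' : (0 : ℝ) < y := hy
  simp only
  have : n + (k : ℝ) - 1 = (n - 1) + k := by ring
  rw [this, Real.rpow_add hy', Real.rpow_natCast]
  ring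

/-- the Laguerre measure -/
noncomputable def lagM (n : ℝ) : Measure ℝ :=
  MeasureTheory.volume.withDensity (fun x : ℝ => ENNReal.ofReal
            ((Set.Ioi (0 : ℝ)).indicator (fun y : ℝ => y ^ (n - 1) * Real.exp (-y)) x))

theorem lagw_meas (n : ℝ) : Measurable (fun y : ℝ => y ^ (n - 1) * Real.exp (-y)) := by fun_prop

theorem lagw_nonneg (n : ℝ) : ∀ y ∈ Set.Ioi (0 : ℝ), 0 ≤ y ^ (n - 1) * Real.exp (-y) :=
  fun _ hy => mul_nonneg (Real.rpow_nonneg (le_of_lt hy) _) (Real.exp_pos _).le

theorem lagM_int {n : ℝ} (hn : 0 < n) : ∀ k : ℕ, Integrable (fun x : ℝ => x ^ k) (lagM n) := by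
  intro k
  rw [lagM, dens_integrable measurableSet_Ioi (lagw_meas n) (lagw_nonneg n)]
  exact lag_integrable hn k

theorem lagM_mom {n : ℝ} (hn : 0 < n) (k : ℕ) :
    mom (lagM n) (lagM_int hn) (X ^ k) = Real.Gamma (n + k) := by
  rw [mom_apply]
  simp only [eval_pow, eval_X]
  rw [lagM, dens_integral measurableSet_Ioi (lagw_meas n) (lagw_nonneg n)]
  exact lag_moment hn k

/-- the classical Laguerre case -/
theorem good_laguerre {φ : Measure ℝ} (h : ∀ k : ℕ, Integrable (fun x : ℝ => x ^ k) φ)
    (hu : PD (mom φ h)) {a b n : ℝ} (ha : a ≠ 0)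
    (hf : ∀ f : ℝ[X], (mom φ h ∘ₗ af a b) (X * derivative f + (C n - X) * f) = 0) : Good φ := by
  set u := mom φ h ∘ₗ af a b with hu'
  have hpd : PD u := hu.af ha
  have hrec : ∀ k : ℕ, u (X ^ (k + 1)) = ((k : ℝ) + n) * u (X ^ k) := by
    intro k
    have h1 := hf (X ^ k)
    have e : X * derivative (X ^ k : ℝ[X]) + (C n - X) * X ^ k
        = ((k : ℝ) + n) • X ^ k - X ^ (k + 1) := by
      cases k with
      | zero => simp [smul_eq_C_mul]
      | succ k =>
        rw [derivative_X_pow, smul_eq_C_mul]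
        simp only [Nat.add_sub_cancel, C_add]
        push_cast
        ring
    rw [e, map_sub, map_smul, smul_eq_mul] at h1
    linarith
  have h0 := hpd.one_pos
  have r0 := hrec 0
  have r1 := hrec 1
  simp only [zero_add, pow_one, pow_zero, Nat.cast_zero, Nat.cast_one] at r0 r1
  have hn : 0 < n := by
    have h2 := hpd (X - C n) (X_sub_C_ne_zero n)
    have e : (X - C n) * (X - C n) = X ^ 2 - (2 * n) • X + (n * n) • (1 : ℝ[X]) := by
      simp only [smul_eq_C_mul, C_mul]
      have e1 : (C (2 : ℝ) : ℝ[X]) = 2 := rfl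
      rw [e1]
      ring
    have r1' : u (X ^ 2) = (1 + n) * (n * u 1) := by
      have : (X ^ 2 : ℝ[X]) = X ^ (1 + 1) := by norm_num
      rw [this, r1, r0]
    rw [e, map_add, map_sub, map_smul, map_smul, smul_eq_mul, smul_eq_mul, r1', r0] at h2
    have : 0 < n * u 1 := by nlinarith
    exact (pos_iff_pos_of_mul_pos this).mpr h0
  have hG := Real.Gamma_pos_of_pos hn
  set c : ℝ := Real.Gamma n / u 1 with hc
  have hcpos : 0 < c := div_pos hG h0
  have hmomk : ∀ k : ℕ, mom (lagM n) (lagM_int hn) (X ^ k) = c * u (X ^ k) := by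
    intro k
    induction k with
    | zero =>
      rw [lagM_mom hn, hc]
      simp only [Nat.cast_zero, add_zero, pow_zero]
      field_simp
    | succ k ih =>
      rw [lagM_mom hn] at ih ⊢
      rw [hrec k]
      have : n + ((k + 1 : ℕ) : ℝ) = (n + k) + 1 := by push_cast; ring
      rw [this, Real.Gamma_add_one (by positivity), ih]
      ring
  have hall : ∀ f, (mom (lagM n) (lagM_int hn) - c • u) f = 0 :=
    lin_zero (p := fun n => X ^ n) (fun n => degree_X_pow n) _ (fun k => by
      rw [LinearMap.sub_apply, LinearMap.smul_apply, hmomk k, smul_eq_mul, sub_self])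
  refine ⟨lagM n, Or.inr (Or.inl ⟨n - 1, by linarith, rfl⟩), a, b, c, ha, hcpos.ne', fun f => ?_⟩
  have := hall f
  rw [LinearMap.sub_apply, LinearMap.smul_apply, smul_eq_mul, mom_apply, hu',
    LinearMap.comp_apply, mom_apply] at this
  simp only [af_eval] at this
  linarith

/-- the Laguerre type case -/
theorem good_laguerre_type {φ : Measure ℝ} (h : ∀ k : ℕ, Integrable (fun x : ℝ => x ^ k) φ)
    (hu : PD (mom φ h)) {a b : ℝ} (ha : a ≠ 0)
    (hf : ∀ f : ℝ[X], (mom φ h ∘ₗ af a b) (X ^ 2 * derivative f + (2 * X - X ^ 2) * f) = 0)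
    (hm : (mom φ h ∘ₗ af a b) X < (mom φ h ∘ₗ af a b) 1) : Good φ := by
  set u := mom φ h ∘ₗ af a b with hu'
  have hpd : PD u := hu.af ha
  have hrec : ∀ k : ℕ, u (X ^ (k + 2)) = ((k : ℝ) + 2) * u (X ^ (k + 1)) := by
    intro k
    have h1 := hf (X ^ k)
    have e : X ^ 2 * derivative (X ^ k : ℝ[X]) + (2 * X - X ^ 2) * X ^ k
        = ((k : ℝ) + 2) • X ^ (k + 1) - X ^ (k + 2) := by
      have e1 : (C (2 : ℝ) : ℝ[X]) = 2 := rfl
      cases k with
      | zero => simp only [smul_eq_C_mul, pow_zero, derivative_one, Nat.cast_zero, zero_add, e1]; ring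
      | succ k =>
        rw [derivative_X_pow, smul_eq_C_mul]
        simp only [Nat.add_sub_cancel, C_add, e1]
        push_cast
        ring
    rw [e, map_sub, map_smul, smul_eq_mul] at h1
    linarith
  set c : ℝ := u X with hc
  have hcpos : 0 < c := by
    have h2 := hpd X X_ne_zero
    have r := hrec 0
    simp only [zero_add, Nat.cast_zero, pow_one] at r
    have e : (X * X : ℝ[X]) = X ^ 2 := by ring
    rw [e, r] at h2
    linarith
  set m : ℝ := u 1 - c with hmdef
  have hmpos : 0 < m := by linarith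
  have hmomk : ∀ k : ℕ, u (X ^ (k + 1)) = c * mom (lagM 1) (lagM_int one_pos) (X ^ (k + 1)) := by
    intro k
    induction k with
    | zero =>
      rw [lagM_mom one_pos]
      simp only [zero_add, pow_one, Nat.cast_one]
      rw [Real.Gamma_add_one one_ne_zero, Real.Gamma_one]
      ring
    | succ k ih =>
      rw [lagM_mom one_pos] at ih ⊢
      rw [hrec k, ih]
      have : (1 : ℝ) + ((k + 1 + 1 : ℕ) : ℝ) = (1 + ((k + 1 : ℕ) : ℝ)) + 1 := by push_cast; ring
      rw [this, Real.Gamma_add_one (by positivity)]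
      push_cast
      ring
  have hl1 : mom (lagM 1) (lagM_int one_pos) 1 = 1 := by
    have := lagM_mom one_pos 0
    simpa using this
  have hall : ∀ f, (u - c • mom (lagM 1) (lagM_int one_pos) - m • (leval (0 : ℝ) : ℝ[X] →ₗ[ℝ] ℝ)) f = 0 :=
    lin_zero (p := fun n => X ^ n) (fun n => degree_X_pow n) _ (fun k => by
      rw [LinearMap.sub_apply, LinearMap.sub_apply, LinearMap.smul_apply, LinearMap.smul_apply,
        smul_eq_mul, smul_eq_mul, leval_apply]
      cases k with
      | zero => rw [pow_zero, hl1, eval_one]; linarith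
      | succ k => rw [hmomk k]; simp)
  have hlag : lagM 1 = MeasureTheory.volume.withDensity (fun x : ℝ => ENNReal.ofReal
            ((Set.Ioi (0 : ℝ)).indicator (fun y : ℝ => Real.exp (-y)) x)) := by
    rw [lagM]
    simp
  have hmc : 0 < m / c := div_pos hmpos hcpos
  refine ⟨_, Or.inr (Or.inr (Or.inr (Or.inr (Or.inl ⟨c / m, by positivity, rfl⟩)))), a, b, c⁻¹,
    ha, inv_ne_zero hcpos.ne', fun f => ?_⟩
  rw [← hlag, one_div_div, integral_add_measure (integrable_eval (lagM_int one_pos) f)
    ((integrable_dirac (by simp)).smul_measure ENNReal.ofReal_ne_top), integral_smul_measure,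
    integral_dirac, ENNReal.toReal_ofReal hmc.le, smul_eq_mul]
  have := hall f
  rw [LinearMap.sub_apply, LinearMap.sub_apply, LinearMap.smul_apply, LinearMap.smul_apply,
    smul_eq_mul, smul_eq_mul, leval_apply, mom_apply, hu', LinearMap.comp_apply, mom_apply] at this
  simp only [af_eval] at this
  have e : ∫ x, f.eval (a * x + b) ∂φ = c * (∫ x, f.eval x ∂(lagM 1)) + m * f.eval 0 := by linarith
  rw [e]
  field_simp

/-! ### Hermite weight -/

/-- the Hermite measure -/
noncomputable def herM : Measure ℝ :=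
  MeasureTheory.volume.withDensity (fun x : ℝ => ENNReal.ofReal (Real.exp (-(x ^ 2))))

theorem her_integrable (k : ℕ) : Integrable fun x : ℝ => Real.exp (-(x ^ 2)) * x ^ k := by
  have h := integrable_rpow_mul_exp_neg_mul_sq (b := 1) one_pos (s := k) (by
    have : (0 : ℝ) ≤ k := Nat.cast_nonneg k
    linarith)
  refine h.congr (Filter.Eventually.of_forall fun x => ?_)
  simp only [Real.rpow_natCast, neg_mul, one_mul]
  ring

theorem her_conv (F : ℝ → ℝ) : ∫ x, F x ∂herM = ∫ x, Real.exp (-(x ^ 2)) * F x := by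
  rw [herM, integral_withDensity_eq_integral_toReal_smul (by fun_prop)
    (Filter.Eventually.of_forall fun x => ENNReal.ofReal_lt_top)]
  simp only [ENNReal.toReal_ofReal (Real.exp_pos _).le, smul_eq_mul]

theorem herM_int : ∀ k : ℕ, Integrable (fun x : ℝ => x ^ k) herM := by
  intro k
  rw [herM, integrable_withDensity_iff_integrable_smul' (by fun_prop)
    (Filter.Eventually.of_forall fun x => ENNReal.ofReal_lt_top)]
  simp only [ENNReal.toReal_ofReal (Real.exp_pos _).le, smul_eq_mul]
  exact her_integrable k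

theorem her_rec (f : ℝ[X]) : mom herM herM_int (derivative f - 2 * X * f) = 0 := by
  rw [mom_apply, her_conv]
  have hi : ∀ g : ℝ[X], Integrable fun x : ℝ => Real.exp (-(x ^ 2)) * g.eval x := by
    intro g
    have h1 := integrable_eval herM_int g
    rw [herM, integrable_withDensity_iff_integrable_smul' (by fun_prop)
      (Filter.Eventually.of_forall fun x => ENNReal.ofReal_lt_top)] at h1
    simp only [ENNReal.toReal_ofReal (Real.exp_pos _).le, smul_eq_mul] at h1
    exact h1
  apply integral_eq_zero_of_hasDerivAt_of_integrable (f := fun x => Real.exp (-(x ^ 2)) * f.eval x)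
    _ (hi _) (hi f)
  intro x
  have d1 : HasDerivAt (fun x : ℝ => Real.exp (-(x ^ 2))) (Real.exp (-(x ^ 2)) * (-(2 * x))) x := by
    have h1 : HasDerivAt (fun x : ℝ => -(x ^ 2)) (-(2 * x)) x := by
      have := (hasDerivAt_pow 2 x).fun_neg
      simpa using this
    exact h1.exp
  have d2 := d1.mul (f.hasDerivAt x)
  refine d2.congr_deriv ?_
  simp only [eval_sub, eval_mul, eval_ofNat, eval_X]
  ring

/-- the Hermite case -/
theorem good_hermite {φ : Measure ℝ} (h : ∀ k : ℕ, Integrable (fun x : ℝ => x ^ k) φ)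
    (hu : PD (mom φ h)) {a b : ℝ} (ha : a ≠ 0)
    (hf : ∀ f : ℝ[X], (mom φ h ∘ₗ af a b) (derivative f - 2 * X * f) = 0) : Good φ := by
  set u := mom φ h ∘ₗ af a b with hu'
  have hpd : PD u := hu.af ha
  have h0 := hpd.one_pos
  set v := mom herM herM_int with hv
  have hv1 : 0 < v 1 := by
    rw [hv, mom_apply, her_conv]
    simp only [eval_one, mul_one]
    have := integral_gaussian 1
    simp only [neg_mul, one_mul, div_one] at this
    rw [this]
    exact Real.sqrt_pos.mpr Real.pi_pos
  have recu : ∀ w : ℝ[X] →ₗ[ℝ] ℝ, (∀ f : ℝ[X], w (derivative f - 2 * X * f) = 0) →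
      w X = 0 ∧ ∀ k : ℕ, w (X ^ (k + 2)) = ((k : ℝ) + 1) / 2 * w (X ^ k) := by
    intro w hw
    have e1 : (C (2 : ℝ) : ℝ[X]) = 2 := rfl
    constructor
    · have := hw 1
      have e : derivative (1 : ℝ[X]) - 2 * X * 1 = (-2 : ℝ) • X := by
        rw [smul_eq_C_mul, C_neg, e1]; simp
      rw [e, map_smul, smul_eq_mul] at this
      linarith
    · intro k
      have := hw (X ^ (k + 1))
      have e : derivative (X ^ (k + 1) : ℝ[X]) - 2 * X * X ^ (k + 1)
          = ((k : ℝ) + 1) • X ^ k - (2 : ℝ) • X ^ (k + 2) := by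
        rw [derivative_X_pow, smul_eq_C_mul, smul_eq_C_mul, e1]
        simp only [Nat.add_sub_cancel]
        push_cast
        ring
      rw [e, map_sub, map_smul, map_smul, smul_eq_mul, smul_eq_mul] at this
      linarith
  obtain ⟨ux, ur⟩ := recu u hf
  obtain ⟨vx, vr⟩ := recu v her_rec
  set c : ℝ := v 1 / u 1 with hc
  have hcpos : 0 < c := div_pos hv1 h0
  have key : ∀ k : ℕ, v (X ^ k) = c * u (X ^ k) ∧ v (X ^ (k + 1)) = c * u (X ^ (k + 1)) := by
    intro k
    induction k with
    | zero =>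
      simp only [pow_zero, zero_add, pow_one]
      refine ⟨?_, ?_⟩
      · rw [hc]; field_simp
      · rw [ux, vx, mul_zero]
    | succ k ih =>
      refine ⟨ih.2, ?_⟩
      have e : k + 1 + 1 = k + 2 := rfl
      rw [e, ur, vr, ih.1]
      ring
  have hall : ∀ f, (v - c • u) f = 0 :=
    lin_zero (p := fun n => X ^ n) (fun n => degree_X_pow n) _ (fun k => by
      rw [LinearMap.sub_apply, LinearMap.smul_apply, (key k).1, smul_eq_mul, sub_self])
  refine ⟨herM, Or.inr (Or.inr (Or.inl rfl)), a, b, c, ha, hcpos.ne', fun f => ?_⟩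
  have := hall f
  rw [LinearMap.sub_apply, LinearMap.smul_apply, smul_eq_mul, hv, mom_apply, hu',
    LinearMap.comp_apply, mom_apply] at this
  simp only [af_eval] at this
  linarith

end Pool.Agent.Q86.Kr
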