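import Pool.Agent.Q86.KrH

/-!
# The case of unbounded support: exponential generating series and a Riccati equation
-/

set_option autoImplicit false

open Polynomial

namespace Pool.Agent.Q86.Kr

/-- the exponential generating series of the moments -/
noncomputable def FS (u : ℝ[X] →ₗ[ℝ] ℝ) : PowerSeries ℝ :=
  PowerSeries.mk fun k => u (X ^ k) / (k.factorial : ℝ)

theorem FS_coeff (u : ℝ[X] →ₗ[ℝ] ℝ) (k : ℕ) :
    PowerSeries.coeff k (FS u) = u (X ^ k) / (k.factorial : ℝ) := PowerSeries.coeff_mk _ _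

theorem FS_inj {u : ℝ[X] →ₗ[ℝ] ℝ} (h : FS u = 0) (f : ℝ[X]) : u f = 0 := by
  refine lin_zero (p := fun n => X ^ n) (fun n => degree_X_pow n) u (fun k => ?_) f
  have h1 := FS_coeff u k
  rw [h] at h1
  simp only [map_zero] at h1
  have h2 : (k.factorial : ℝ) ≠ 0 := by exact_mod_cast Nat.factorial_ne_zero k
  have := (div_eq_zero_iff.mp h1.symm).resolve_right h2
  exact this

theorem FS_add (u v : ℝ[X] →ₗ[ℝ] ℝ) : FS (u + v) = FS u + FS v := by
  ext k
  rw [map_add, FS_coeff, FS_coeff, FS_coeff, LinearMap.add_apply, add_div]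

theorem FS_smul (c : ℝ) (u : ℝ[X] →ₗ[ℝ] ℝ) : FS (c • u) = PowerSeries.C c * FS u := by
  ext k
  rw [PowerSeries.coeff_C_mul, FS_coeff, FS_coeff, LinearMap.smul_apply, smul_eq_mul, mul_div_assoc]

theorem FS_mulX (u : ℝ[X] →ₗ[ℝ] ℝ) : FS (u ∘ₗ mulL X) = PowerSeries.derivative ℝ (FS u) := by
  ext k
  rw [PowerSeries.coeff_derivative, FS_coeff, FS_coeff, LinearMap.comp_apply, mulL_apply,
    Nat.factorial_succ, pow_succ']
  have h2 : (k.factorial : ℝ) ≠ 0 := by exact_mod_cast Nat.factorial_ne_zero k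
  push_cast
  field_simp

theorem FS_der (u : ℝ[X] →ₗ[ℝ] ℝ) :
    FS (u ∘ₗ (derivative : ℝ[X] →ₗ[ℝ] ℝ[X])) = PowerSeries.X * FS u := by
  ext k
  cases k with
  | zero =>
    rw [FS_coeff]
    simp
  | succ k =>
    rw [PowerSeries.coeff_succ_X_mul, FS_coeff, FS_coeff, LinearMap.comp_apply, derivative_X_pow,
      ← smul_eq_C_mul, map_smul, Nat.factorial_succ, smul_eq_mul, Nat.add_sub_cancel]
    have h2 : (k.factorial : ℝ) ≠ 0 := by exact_mod_cast Nat.factorial_ne_zero k
    push_cast
    field_simp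

theorem FS_quad (u : ℝ[X] →ₗ[ℝ] ℝ) (a2 a1 a0 : ℝ) :
    FS (u ∘ₗ mulL (C a2 * X ^ 2 + C a1 * X + C a0))
      = PowerSeries.C a2 * PowerSeries.derivative ℝ (PowerSeries.derivative ℝ (FS u))
        + PowerSeries.C a1 * PowerSeries.derivative ℝ (FS u) + PowerSeries.C a0 * FS u := by
  have e : u ∘ₗ mulL (C a2 * X ^ 2 + C a1 * X + C a0)
      = a2 • ((u ∘ₗ mulL X) ∘ₗ mulL X) + a1 • (u ∘ₗ mulL X) + a0 • u := by
    apply LinearMap.ext
    intro f
    simp only [LinearMap.comp_apply, mulL_apply, LinearMap.add_apply, LinearMap.smul_apply]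
    rw [← map_smul, ← map_smul, ← map_smul, ← map_add, ← map_add]
    congr 1
    simp only [smul_eq_C_mul]
    ring
  rw [e, FS_add, FS_add, FS_smul, FS_smul, FS_smul, FS_mulX, FS_mulX]

theorem FS_ne {u : ℝ[X] →ₗ[ℝ] ℝ} (hu : PD u) : FS u ≠ 0 := by
  intro h
  have := FS_inj h 1
  have := hu.one_pos
  linarith

/-- coercion as a ring homomorphism -/
noncomputable def io : ℝ[X] →+* PowerSeries ℝ := coeToPowerSeries.ringHom

theorem io_C (a : ℝ) : io (C a) = PowerSeries.C a := coe_C a

theorem io_X : io X = PowerSeries.X := coe_X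

theorem io_der (f : ℝ[X]) : PowerSeries.derivative ℝ (io f) = io (derivative f) :=
  PowerSeries.derivative_coe f

theorem io_inj {f : ℝ[X]} (h : io f = 0) : f = 0 := by
  apply coe_injective
  rw [coe_zero]
  exact h

theorem der_mul (f g : PowerSeries ℝ) : PowerSeries.derivative ℝ (f * g)
    = f * PowerSeries.derivative ℝ g + g * PowerSeries.derivative ℝ f := by
  rw [Derivation.leibniz, smul_eq_mul, smul_eq_mul]

/-- the Riccati identity -/
theorem riccati {F : PowerSeries ℝ} (hF : F ≠ 0) {p q r D N : ℝ[X]}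
    (h1 : io p * PowerSeries.derivative ℝ (PowerSeries.derivative ℝ F)
      + io q * PowerSeries.derivative ℝ F + io r * F = 0)
    (h2 : io D * PowerSeries.derivative ℝ F + io N * F = 0) :
    p * (N ^ 2 - derivative N * D + N * derivative D) - q * N * D + r * D ^ 2 = 0 := by
  have h3 := congrArg (PowerSeries.derivative ℝ) h2
  rw [map_add, der_mul, der_mul, io_der, io_der, map_zero] at h3
  set F1 := PowerSeries.derivative ℝ F with hF1
  set F2 := PowerSeries.derivative ℝ F1 with hF2
  apply io_inj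
  have key : io (p * (N ^ 2 - derivative N * D + N * derivative D) - q * N * D + r * D ^ 2) * F
      = 0 := by
    simp only [map_add, map_sub, map_mul, map_pow]
    linear_combination io D ^ 2 * h1 - io p * io D * h3
      - (io q * io D - io p * io (derivative D) - io p * io N) * h2
  exact (mul_eq_zero.mp key).resolve_right hF

theorem coprime_decomp {D N : ℝ[X]} (hD : D ≠ 0) : ∃ g D0 N0 : ℝ[X], g ≠ 0 ∧ D = g * D0 ∧
    N = g * N0 ∧ IsCoprime D0 N0 := by
  set g := EuclideanDomain.gcd D N with hg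
  have hg0 : g ≠ 0 := by
    intro h
    exact hD (EuclideanDomain.gcd_eq_zero_iff.mp h).1
  obtain ⟨D0, hD0⟩ := EuclideanDomain.gcd_dvd_left D N
  obtain ⟨N0, hN0⟩ := EuclideanDomain.gcd_dvd_right D N
  refine ⟨g, D0, N0, hg0, hD0, hN0, ?_⟩
  have h := EuclideanDomain.gcd_eq_gcd_ab D N
  rw [← hg] at h hD0 hN0
  refine ⟨EuclideanDomain.gcdA D N, EuclideanDomain.gcdB D N, ?_⟩
  apply mul_left_cancel₀ hg0
  calc g * (EuclideanDomain.gcdA D N * D0 + EuclideanDomain.gcdB D N * N0)
      = (g * D0) * EuclideanDomain.gcdA D N + (g * N0) * EuclideanDomain.gcdB D N := by ring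
    _ = g * 1 := by rw [← hD0, ← hN0, ← h, mul_one]

theorem natDegree_derivative_le' (f : ℝ[X]) : (derivative f).natDegree ≤ f.natDegree - 1 :=
  natDegree_derivative_le f

/-- degree bound from the Riccati identity -/
theorem ric_degree {q r D N : ℝ[X]} (hq : q.natDegree ≤ 1) (hr : r.natDegree ≤ 1)
    (h : (X - 1) * (N ^ 2 - derivative N * D + N * derivative D) - q * N * D + r * D ^ 2 = 0) :
    N.natDegree ≤ D.natDegree := by
  by_contra hlt
  push Not at hlt
  have hN0 : N ≠ 0 := by
    intro h0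
    rw [h0] at hlt
    simp at hlt
  have hX1 : (X - 1 : ℝ[X]) ≠ 0 := by
    have := X_sub_C_ne_zero (1 : ℝ)
    rwa [C_1] at this
  have hX1d : (X - 1 : ℝ[X]).natDegree = 1 := by
    have := natDegree_X_sub_C (1 : ℝ)
    rwa [C_1] at this
  have e : (X - 1) * N ^ 2 = (X - 1) * (derivative N * D) - (X - 1) * (N * derivative D)
      + q * N * D - r * D ^ 2 := by linear_combination h
  have d1 : ((X - 1) * N ^ 2 : ℝ[X]).natDegree = 1 + 2 * N.natDegree := by
    rw [natDegree_mul hX1 (pow_ne_zero 2 hN0), natDegree_pow, hX1d]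
  have dN := natDegree_derivative_le N
  have dD := natDegree_derivative_le D
  have t1 : ((X - 1) * (derivative N * D) : ℝ[X]).natDegree ≤ N.natDegree + D.natDegree + 1 := by
    refine natDegree_mul_le.trans ?_
    rw [hX1d]
    have := natDegree_mul_le (p := derivative N) (q := D)
    omega
  have t2 : ((X - 1) * (N * derivative D) : ℝ[X]).natDegree ≤ N.natDegree + D.natDegree + 1 := by
    refine natDegree_mul_le.trans ?_
    rw [hX1d]
    have := natDegree_mul_le (p := N) (q := derivative D)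
    omega
  have t3 : (q * N * D : ℝ[X]).natDegree ≤ N.natDegree + D.natDegree + 1 := by
    refine natDegree_mul_le.trans ?_
    have := natDegree_mul_le (p := q) (q := N)
    omega
  have t4 : (r * D ^ 2 : ℝ[X]).natDegree ≤ N.natDegree + D.natDegree + 1 := by
    refine natDegree_mul_le.trans ?_
    have := natDegree_pow_le (p := D) (n := 2)
    omega
  have t5 : ((X - 1) * (derivative N * D) - (X - 1) * (N * derivative D)
      + q * N * D - r * D ^ 2 : ℝ[X]).natDegree ≤ N.natDegree + D.natDegree + 1 := by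
    refine (natDegree_sub_le _ _).trans (max_le ?_ t4)
    refine (natDegree_add_le _ _).trans (max_le ?_ t3)
    exact (natDegree_sub_le _ _).trans (max_le t1 t2)
  rw [← e, d1] at t5
  omega

theorem lin_form {h : ℝ[X]} (hd : h.natDegree ≤ 1) : h = C (h.coeff 0) + C (h.coeff 1) * X := by
  have := h.as_sum_range' 2 (by omega)
  rw [Finset.sum_range_succ, Finset.sum_range_one] at this
  simp only [← C_mul_X_pow_eq_monomial, pow_zero, mul_one, pow_one] at this
  exact this

theorem quad_form {h : ℝ[X]} (hd : h.natDegree ≤ 2) : h = C (h.coeff 2) * X ^ 2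
    + C (h.coeff 1) * X + C (h.coeff 0) := by
  have := h.as_sum_range' 3 (by omega)
  rw [Finset.sum_range_succ, Finset.sum_range_succ, Finset.sum_range_one] at this
  simp only [← C_mul_X_pow_eq_monomial, pow_zero, mul_one, pow_one] at this
  calc h = _ := this
    _ = _ := by ring

theorem qc2 (a b c : ℝ) : (C a * X ^ 2 + C b * X + C c : ℝ[X]).coeff 2 = a := by
  simp [coeff_X, coeff_C]

theorem qc1 (a b c : ℝ) : (C a * X ^ 2 + C b * X + C c : ℝ[X]).coeff 1 = b := by
  simp [coeff_X_pow, coeff_C]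

theorem qc0 (a b c : ℝ) : (C a * X ^ 2 + C b * X + C c : ℝ[X]).coeff 0 = c := by
  simp

/-- functionals supported at one point are not positive definite -/
theorem no_point {u : ℝ[X] →ₗ[ℝ] ℝ} (hu : PD u) {D0 : ℝ[X]} {c : ℝ}
    (hd : D0.natDegree ≤ 2) (hD0 : D0 ≠ 0)
    (h : io D0 * (PowerSeries.derivative ℝ (FS u) + PowerSeries.C c * FS u)
      = io (derivative D0) * FS u) : False := by
  set F := FS u with hF
  set G1 := PowerSeries.derivative ℝ F + PowerSeries.C c * F with hG1
  set G2 := PowerSeries.derivative ℝ G1 + PowerSeries.C c * G1 with hG2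
  set G3 := PowerSeries.derivative ℝ G2 + PowerSeries.C c * G2 with hG3
  have hio : io D0 ≠ 0 := fun h0 => hD0 (io_inj h0)
  have k1 : io D0 * G1 = io (derivative D0) * F := h
  have k2 : io D0 * G2 = io (derivative (derivative D0)) * F := by
    have t := congrArg (PowerSeries.derivative ℝ) k1
    rw [der_mul, der_mul, io_der, io_der] at t
    apply mul_left_cancel₀ hio
    rw [hG2]
    linear_combination io D0 * t + PowerSeries.C c * io D0 * k1
      - io D0 * io (derivative D0) * hG1
  have k3 : io D0 * G3 = io (derivative (derivative (derivative D0))) * F := by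
    have t := congrArg (PowerSeries.derivative ℝ) k2
    rw [der_mul, der_mul, io_der, io_der] at t
    apply mul_left_cancel₀ hio
    rw [hG3]
    linear_combination io D0 * t + (PowerSeries.C c * io D0 - io (derivative D0)) * k2
      + io (derivative (derivative D0)) * k1 - io (derivative (derivative D0)) * io D0 * hG1
  have hd3 : derivative (derivative (derivative D0)) = 0 := by
    have := iterate_derivative_eq_zero (p := D0) (x := 3) (by omega)
    simpa using this
  rw [hd3, map_zero, zero_mul] at k3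
  have hG30 : G3 = 0 := (mul_eq_zero.mp k3).resolve_left hio
  have step : ∀ v : ℝ[X] →ₗ[ℝ] ℝ, FS (v ∘ₗ mulL (X + C c))
      = PowerSeries.derivative ℝ (FS v) + PowerSeries.C c * FS v := by
    intro v
    have e : v ∘ₗ mulL (X + C c) = v ∘ₗ mulL X + c • v := by
      apply LinearMap.ext
      intro f
      simp only [LinearMap.comp_apply, mulL_apply, LinearMap.add_apply, LinearMap.smul_apply]
      rw [← map_smul, ← map_add]
      congr 1
      simp only [smul_eq_C_mul]
      ring
    rw [e, FS_add, FS_smul, FS_mulX]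
  have h3 : FS (((u ∘ₗ mulL (X + C c)) ∘ₗ mulL (X + C c)) ∘ₗ mulL (X + C c)) = 0 := by
    rw [step, step, step, ← hF, ← hG1, ← hG2, ← hG3, hG30]
  have h4 := FS_inj h3 (X + C c)
  simp only [LinearMap.comp_apply, mulL_apply] at h4
  have h5 := hu ((X + C c) ^ 2) (pow_ne_zero 2 (X_add_C_ne_zero c))
  have e : (X + C c) ^ 2 * (X + C c) ^ 2
      = (X + C c) * ((X + C c) * ((X + C c) * (X + C c))) := by ring
  rw [e, h4] at h5
  exact lt_irrefl _ h5

/-- the normalised unbounded case -/
theorem nc_main {u : ℝ[X] →ₗ[ℝ] ℝ} (hu : PD u) {a1 a0 b1 b0 c1 c0 e1 e0 : ℝ}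
    (h1 : ∀ f, u ((C 1 * X ^ 2 + C a1 * X + C a0) * derivative f
      + (C (-1) * X ^ 2 + C b1 * X + C b0) * f) = 0)
    (h2 : ∀ f, u ((C (-1) * X ^ 2 + C b1 * X + C b0) * derivative (derivative f)
      + (C 1 * X ^ 2 + C c1 * X + C c0) * derivative f
      + (C 0 * X ^ 2 + C e1 * X + C e0) * f) = 0) :
    (∃ κ n : ℝ, ∀ f, u ((X - C κ) * derivative f + (C n - (X - C κ)) * f) = 0) ∨
    (∃ κ : ℝ, a1 = -2 * κ ∧ a0 = κ ^ 2 ∧ b1 = 2 + 2 * κ ∧ b0 = -2 * κ - κ ^ 2 ∧ e1 ≠ 0 ∧
      e0 = 2 - e1 * (1 + κ)) := by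
  set F := FS u with hFdef
  have hF : F ≠ 0 := FS_ne hu
  set F1 := PowerSeries.derivative ℝ F with hF1
  set F2 := PowerSeries.derivative ℝ F1 with hF2
  -- series form of the first equation
  have g1 : io (X - 1) * F2 + io (C a1 * X + C b1) * F1 + io (C a0 * X + C b0) * F = 0 := by
    have e : (u ∘ₗ mulL (C 1 * X ^ 2 + C a1 * X + C a0)) ∘ₗ (derivative : ℝ[X] →ₗ[ℝ] ℝ[X])
        + u ∘ₗ mulL (C (-1) * X ^ 2 + C b1 * X + C b0) = 0 := by
      apply LinearMap.ext
      intro f
      simp only [LinearMap.comp_apply, mulL_apply, LinearMap.add_apply, LinearMap.zero_apply]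
      rw [← map_add]
      exact h1 f
    have e' := congrArg FS e
    have z : FS (0 : ℝ[X] →ₗ[ℝ] ℝ) = 0 := by ext k; rw [FS_coeff]; simp
    rw [FS_add, FS_der, FS_quad, FS_quad, z, ← hFdef, ← hF1, ← hF2] at e'
    simp only [map_sub, map_add, map_mul, io_C, io_X, map_one]
    simp only [map_neg, map_one] at e'
    linear_combination e'
  have g2 : PowerSeries.X * (PowerSeries.X * (-F2 + PowerSeries.C b1 * F1 + PowerSeries.C b0 * F))
      + PowerSeries.X * (F2 + PowerSeries.C c1 * F1 + PowerSeries.C c0 * F)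
      + (PowerSeries.C e1 * F1 + PowerSeries.C e0 * F) = 0 := by
    have e : ((u ∘ₗ mulL (C (-1) * X ^ 2 + C b1 * X + C b0)) ∘ₗ (derivative : ℝ[X] →ₗ[ℝ] ℝ[X]))
          ∘ₗ (derivative : ℝ[X] →ₗ[ℝ] ℝ[X])
        + (u ∘ₗ mulL (C 1 * X ^ 2 + C c1 * X + C c0)) ∘ₗ (derivative : ℝ[X] →ₗ[ℝ] ℝ[X])
        + u ∘ₗ mulL (C 0 * X ^ 2 + C e1 * X + C e0) = 0 := by
      apply LinearMap.ext
      intro f
      simp only [LinearMap.comp_apply, mulL_apply, LinearMap.add_apply, LinearMap.zero_apply]
      rw [← map_add, ← map_add]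
      exact h2 f
    have e' := congrArg FS e
    have z : FS (0 : ℝ[X] →ₗ[ℝ] ℝ) = 0 := by ext k; rw [FS_coeff]; simp
    rw [FS_add, FS_add, FS_der, FS_der, FS_der, FS_quad, FS_quad, FS_quad, z, ← hFdef, ← hF1,
      ← hF2] at e'
    simp only [map_neg, map_one, map_zero] at e'
    linear_combination e'
  -- the first order equation
  set D : ℝ[X] := C (a1 + b1) * X ^ 2 + C (b1 + c1) * X + C e1 with hD
  set N : ℝ[X] := C (a0 + b0) * X ^ 2 + C (b0 + c0) * X + C e0 with hN
  have g3 : io D * F1 + io N * F = 0 := by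
    simp only [map_sub, map_add, map_mul, io_C, io_X, map_one] at g1
    rw [hD, hN]
    simp only [map_add, map_mul, map_pow, io_C, io_X]
    linear_combination g2 + PowerSeries.X * g1
  have hDdeg : D.natDegree ≤ 2 := by
    rw [hD]
    compute_degree
  have cD2 : D.coeff 2 = a1 + b1 := qc2 _ _ _
  have cD1 : D.coeff 1 = b1 + c1 := qc1 _ _ _
  have cD0 : D.coeff 0 = e1 := qc0 _ _ _
  have cN2 : N.coeff 2 = a0 + b0 := qc2 _ _ _
  have cN1 : N.coeff 1 = b0 + c0 := qc1 _ _ _
  have cN0 : N.coeff 0 = e0 := qc0 _ _ _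
  by_cases hD0 : D = 0
  · exfalso
    have hN0 : N = 0 := by
      rw [hD0, map_zero, zero_mul, zero_add] at g3
      exact io_inj ((mul_eq_zero.mp g3).resolve_right hF)
    rw [hD0, coeff_zero] at cD2
    rw [hN0, coeff_zero] at cN2
    have hb1 : b1 = -a1 := by linarith
    have hb0 : b0 = -a0 := by linarith
    have hX1 : io (X - 1) ≠ 0 := by
      intro h0
      have := io_inj h0
      have h3 := X_sub_C_ne_zero (1 : ℝ)
      rw [C_1] at h3
      exact h3 this
    have k : FS (u ∘ₗ mulL (C 1 * X ^ 2 + C a1 * X + C a0)) = 0 := by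
      rw [FS_quad, ← hFdef, ← hF1, ← hF2]
      apply (mul_eq_zero.mp _).resolve_left hX1
      rw [hb1, hb0] at g1
      simp only [map_sub, map_add, map_mul, io_C, io_X, map_one, map_neg] at g1 ⊢
      linear_combination g1
    have k2 : C 1 * X ^ 2 + C a1 * X + C a0 = 0 := hu.eq_zero fun g => by
      have := FS_inj k g
      simpa only [LinearMap.comp_apply, mulL_apply] using this
    have k3 : (C 1 * X ^ 2 + C a1 * X + C a0 : ℝ[X]).coeff 2 = 0 := by rw [k2]; simp
    rw [qc2] at k3
    exact one_ne_zero k3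
  obtain ⟨g, D0, N0, hg, hDg, hNg, hcop⟩ := coprime_decomp (D := D) (N := N) hD0
  have hgio : io g ≠ 0 := fun h0 => hg (io_inj h0)
  have g4 : io D0 * F1 + io N0 * F = 0 := by
    rw [hDg, hNg, map_mul, map_mul] at g3
    have : io g * (io D0 * F1 + io N0 * F) = 0 := by linear_combination g3
    exact (mul_eq_zero.mp this).resolve_left hgio
  have hD00 : D0 ≠ 0 := by
    intro h0
    rw [h0, mul_zero] at hDg
    exact hD0 hDg
  have hD0deg : D0.natDegree ≤ 2 := by
    rw [hDg, natDegree_mul hg hD00] at hDdeg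
    omega
  have hric := riccati hF g1 g4
  have hq : (C a1 * X + C b1 : ℝ[X]).natDegree ≤ 1 := natDegree_linear_le
  have hr : (C a0 * X + C b0 : ℝ[X]).natDegree ≤ 1 := natDegree_linear_le
  have hdeg := ric_degree hq hr hric
  have hdvd : D0 ∣ (X - 1) * (N0 + derivative D0) := by
    have h3 : D0 ∣ N0 * ((X - 1) * (N0 + derivative D0)) :=
      ⟨(X - 1) * derivative N0 + (C a1 * X + C b1) * N0 - (C a0 * X + C b0) * D0, by
        linear_combination hric⟩
    exact hcop.dvd_of_dvd_mul_left h3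
  have hdD := natDegree_derivative_le D0
  have hcc : D0.coeff 0 ≠ 0 := by
    intro h0
    have h3 := congrArg PowerSeries.constantCoeff g4
    rw [map_add, map_mul, map_mul, map_zero] at h3
    have k1 : PowerSeries.constantCoeff (io D0) = D0.coeff 0 := constantCoeff_coe D0
    have k2 : PowerSeries.constantCoeff (io N0) = N0.coeff 0 := constantCoeff_coe N0
    have k3 : PowerSeries.constantCoeff F = u 1 := by
      rw [← PowerSeries.coeff_zero_eq_constantCoeff_apply, hFdef, FS_coeff]
      simp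
    rw [k1, k2, k3, h0, zero_mul, zero_add] at h3
    have h4 := (mul_eq_zero.mp h3).resolve_right hu.one_pos.ne'
    obtain ⟨x, y, hxy⟩ := hcop
    have h5 := congrArg (fun f : ℝ[X] => f.coeff 0) hxy
    simp only [coeff_add, mul_coeff_zero, h0, h4, mul_zero, add_zero, coeff_one_zero] at h5
    exact zero_ne_one h5
  by_cases hroot : D0.eval 1 = 0
  swap
  · exfalso
    have hcop1 : IsCoprime D0 (X - 1) := by
      obtain ⟨Q, hQ⟩ := X_sub_C_dvd_sub_C_eval (a := 1) (p := D0)
      rw [C_1] at hQ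
      refine ⟨C (D0.eval 1)⁻¹, -C (D0.eval 1)⁻¹ * Q, ?_⟩
      have h3 : C (D0.eval 1)⁻¹ * C (D0.eval 1) = (1 : ℝ[X]) := by
        rw [← C_mul, inv_mul_cancel₀ hroot, C_1]
      linear_combination C (D0.eval 1)⁻¹ * hQ + h3
    obtain ⟨h, hh⟩ := hcop1.dvd_of_dvd_mul_left hdvd
    have hhdeg : h.natDegree = 0 := by
      by_cases h0 : h = 0
      · rw [h0]; simp
      · have h3 : (N0 + derivative D0).natDegree ≤ D0.natDegree :=
          (natDegree_add_le _ _).trans (max_le hdeg (by omega))
        rw [hh, natDegree_mul hD00 h0] at h3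
        omega
    obtain ⟨h0, hh0⟩ := natDegree_eq_zero.mp hhdeg
    refine no_point hu hD0deg hD00 (c := h0) ?_
    rw [← hh0] at hh
    have h3 := congrArg io hh
    rw [map_add, map_mul, io_C] at h3
    rw [← hFdef, ← hF1]
    linear_combination g4 - F * h3
  obtain ⟨D1, hD1⟩ : (X - 1) ∣ D0 := by
    have := dvd_iff_isRoot.mpr hroot
    rwa [C_1] at this
  have hX1 : (X - 1 : ℝ[X]) ≠ 0 := by
    have := X_sub_C_ne_zero (1 : ℝ)
    rwa [C_1] at this
  have hX1d : (X - 1 : ℝ[X]).natDegree = 1 := by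
    have := natDegree_X_sub_C (1 : ℝ)
    rwa [C_1] at this
  have hD10 : D1 ≠ 0 := by
    intro h0
    rw [h0, mul_zero] at hD1
    exact hD00 hD1
  have hD0d : D0.natDegree = 1 + D1.natDegree := by rw [hD1, natDegree_mul hX1 hD10, hX1d]
  have hder : derivative D0 = D1 + (X - 1) * derivative D1 := by
    rw [hD1, derivative_mul, derivative_sub, derivative_X, derivative_one]
    ring
  obtain ⟨h, hh⟩ : D1 ∣ N0 + (X - 1) * derivative D1 := by
    obtain ⟨k, hk⟩ := hdvd
    refine ⟨k - 1, ?_⟩
    have h3 : (X - 1) * (N0 + derivative D0) = (X - 1) * (D1 * k) := by rw [hk, hD1]; ring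
    have h4 := mul_left_cancel₀ hX1 h3
    rw [hder] at h4
    linear_combination h4
  have hhdeg : h.natDegree ≤ 1 := by
    by_cases h0 : h = 0
    · rw [h0]; simp
    · have hdd := natDegree_derivative_le D1
      have h3 : (N0 + (X - 1) * derivative D1).natDegree ≤ 1 + D1.natDegree := by
        refine (natDegree_add_le _ _).trans (max_le (by omega) ?_)
        refine natDegree_mul_le.trans ?_
        rw [hX1d]
        omega
      rw [hh, natDegree_mul hD10 h0] at h3
      omega
  have hform := lin_form hhdeg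
  set h0 := h.coeff 0 with hh0
  set hc1 := h.coeff 1 with hhc1
  by_cases hconst : D1.natDegree = 0
  · -- the Laguerre case
    left
    obtain ⟨d, hd⟩ := natDegree_eq_zero.mp hconst
    have hdne : d ≠ 0 := by
      intro h3
      rw [h3, C_0] at hd
      exact hD10 hd.symm
    refine ⟨-hc1, h0 + hc1, ?_⟩
    rw [← hd, derivative_C, mul_zero, add_zero] at hh
    have k1 : PowerSeries.C d * (PowerSeries.X * F1 - F1 + PowerSeries.C h0 * F
        + PowerSeries.C hc1 * (PowerSeries.X * F)) = 0 := by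
      rw [hD1, hh, ← hd, hform] at g4
      simp only [map_mul, map_sub, map_add, io_X, io_C, map_one] at g4
      linear_combination g4
    have hCd : PowerSeries.C d ≠ 0 := by
      intro h3
      apply hdne
      have := congrArg PowerSeries.constantCoeff h3
      simpa using this
    have k2 := (mul_eq_zero.mp k1).resolve_left hCd
    have k3 : FS ((u ∘ₗ mulL X) ∘ₗ (derivative : ℝ[X] →ₗ[ℝ] ℝ[X]) + (-1 : ℝ) • (u ∘ₗ mulL X)
        + h0 • u + hc1 • (u ∘ₗ (derivative : ℝ[X] →ₗ[ℝ] ℝ[X]))) = 0 := by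
      rw [FS_add, FS_add, FS_add, FS_smul, FS_smul, FS_smul, FS_der, FS_der, FS_mulX, ← hFdef,
        ← hF1]
      simp only [map_neg, map_one]
      linear_combination k2
    intro f
    have k4 := FS_inj k3 f
    simp only [LinearMap.add_apply, LinearMap.smul_apply, LinearMap.comp_apply, mulL_apply] at k4
    rw [← map_smul, ← map_smul, ← map_smul, ← map_add, ← map_add, ← map_add] at k4
    rw [← k4]
    congr 1
    simp only [smul_eq_C_mul, C_neg, C_add, C_1]
    ring
  · -- the Laguerre type case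
    right
    have hD1d : D1.natDegree = 1 := by omega
    have hD0d2 : D0.natDegree = 2 := by omega
    have hgd : g.natDegree = 0 := by
      rw [hDg, natDegree_mul hg hD00] at hDdeg
      omega
    obtain ⟨γ0, hγ0⟩ := natDegree_eq_zero.mp hgd
    have hD1form := lin_form (h := D1) (by omega)
    set d := D1.coeff 1 with hd
    have hdne : d ≠ 0 := by
      have h3 : D1.leadingCoeff ≠ 0 := leadingCoeff_ne_zero.mpr hD10
      rw [leadingCoeff, hD1d] at h3
      exact h3
    set ς : ℝ := -(D1.coeff 0 / d) with hς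
    have hD1' : D1 = C d * (X - C ς) := by
      rw [hD1form, mul_sub, ← C_mul]
      have : d * ς = -D1.coeff 0 := by rw [hς]; field_simp
      rw [this, C_neg]
      ring
    set γ : ℝ := γ0 * d with hγ
    have hγ0ne : γ0 ≠ 0 := by
      intro h3
      rw [h3, C_0] at hγ0
      exact hg hγ0.symm
    have hγne : γ ≠ 0 := mul_ne_zero hγ0ne hdne
    set Nh : ℝ[X] := (X - C ς) * (C h0 + C hc1 * X) - (X - 1) with hNh
    have hN0' : N0 = C d * Nh := by
      have hdd : derivative D1 = C d := by rw [hD1']; simp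
      rw [hdd, hform] at hh
      rw [hNh, ← sub_eq_zero]
      rw [← sub_eq_zero] at hh
      rw [← hh, hD1']
      ring
    have hDγ : D = C γ * ((X - 1) * (X - C ς)) := by
      rw [hDg, hD1, ← hγ0, hD1', hγ, C_mul]; ring
    have hNγ : N = C γ * Nh := by
      rw [hNg, hN0', ← hγ0, hγ, C_mul]; ring
    -- n is not zero
    have hcop' := hcop
    obtain ⟨x, y, hxy⟩ := hcop'
    have hev := congrArg (fun f : ℝ[X] => f.eval 1) hxy
    simp only [eval_add, eval_mul, hroot, mul_zero, zero_add, eval_one] at hev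
    have hN01 : N0.eval 1 ≠ 0 := by
      intro h3
      rw [h3, mul_zero] at hev
      exact zero_ne_one hev
    have hNh1 : (1 - ς) * (h0 + hc1) ≠ 0 := by
      intro h3
      apply hN01
      rw [hN0', hNh]
      simp only [eval_mul, eval_C, eval_sub, eval_X, eval_add, eval_one, mul_one]
      rw [h3]
      ring
    have hς1 : (1 - ς) ≠ 0 := left_ne_zero_of_mul hNh1
    have hn0 : h0 + hc1 ≠ 0 := right_ne_zero_of_mul hNh1
    -- coefficients
    have eD2 : a1 + b1 = γ := by
      rw [← cD2, hDγ]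
      have : C γ * ((X - 1) * (X - C ς)) = C γ * X ^ 2 + C (-γ * (1 + ς)) * X + C (γ * ς) := by
        simp only [C_mul, C_neg, C_add, C_1]; ring
      rw [this, qc2]
    have eD0 : e1 = γ * ς := by
      rw [← cD0, hDγ]
      have : C γ * ((X - 1) * (X - C ς)) = C γ * X ^ 2 + C (-γ * (1 + ς)) * X + C (γ * ς) := by
        simp only [C_mul, C_neg, C_add, C_1]; ring
      rw [this, qc0]
    have hNexp : C γ * Nh = C (γ * hc1) * X ^ 2 + C (γ * (h0 - ς * hc1 - 1)) * X
        + C (γ * (1 - ς * h0)) := by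
      rw [hNh]
      simp only [C_mul, C_sub, C_1]; ring
    have eN2 : a0 + b0 = γ * hc1 := by rw [← cN2, hNγ, hNexp, qc2]
    have eN0 : e0 = γ * (1 - ς * h0) := by rw [← cN0, hNγ, hNexp, qc0]
    -- the reduced Riccati identity
    have hric2 := riccati hF g1 g3
    set Φ : ℝ[X] := Nh * (C h0 + C hc1 * X + 1) - derivative Nh * (X - 1)
      - (C a1 * X + C b1) * Nh + (C a0 * X + C b0) * ((X - 1) * (X - C ς)) with hΦ
    have hfac : (C γ ^ 2 * (X - 1) * (X - C ς)) * Φ = 0 := by
      rw [hDγ, hNγ] at hric2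
      simp only [derivative_mul, derivative_C, zero_mul, zero_add, derivative_sub, derivative_X,
        derivative_one, sub_zero, one_mul, mul_one] at hric2
      rw [hΦ]
      have e : (X - C ς) * (C h0 + C hc1 * X) = Nh + (X - 1) := by rw [hNh]; ring
      linear_combination hric2 + (C γ ^ 2 * (X - 1)) * Nh * e
    have hΦ0 : Φ = 0 := by
      refine (mul_eq_zero.mp hfac).resolve_left ?_
      refine mul_ne_zero (mul_ne_zero (pow_ne_zero 2 ?_) hX1) (X_sub_C_ne_zero ς)
      rw [Ne, C_eq_zero]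
      exact hγne
    have hval : ∀ x : ℝ, ((x - ς) * (h0 + hc1 * x) - (x - 1)) * (h0 + hc1 * x + 1)
        - ((h0 + hc1 * x) + (x - ς) * hc1 - 1) * (x - 1)
        - (a1 * x + b1) * ((x - ς) * (h0 + hc1 * x) - (x - 1))
        + (a0 * x + b0) * ((x - 1) * (x - ς)) = 0 := by
      intro x
      have h3 : Φ.eval x = 0 := by rw [hΦ0]; simp
      rw [hΦ, hNh] at h3
      simp only [derivative_mul, derivative_C, zero_mul, zero_add, derivative_sub, derivative_X,
        derivative_one, sub_zero, one_mul, mul_one, derivative_add, eval_add, eval_sub, eval_mul,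
        eval_C, eval_X, eval_one] at h3
      linear_combination h3
    have v1 := hval 1
    have vς := hval ς
    have x0 := hval 0
    have x2 := hval 2
    have xm := hval (-1)
    have hγn : a1 + b1 = h0 + hc1 + 1 := by
      have : ((1 - ς) * (h0 + hc1)) * ((h0 + hc1 + 1) - (a1 + b1)) = 0 := by
        linear_combination v1
      have := (mul_eq_zero.mp this).resolve_left hNh1
      linarith
    have hc3 : a0 = a1 * hc1 - hc1 ^ 2 := by
      linear_combination (1 / 6 : ℝ) * (x2 - 3 * v1 + 3 * x0 - xm)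
    have hc2 : hc1 * (2 * h0 - ς * hc1) - 2 * hc1 - a1 * (h0 - ς * hc1 - 1) - b1 * hc1 + b0
        - a0 * (1 + ς) = 0 := by
      linear_combination (1 / 2 : ℝ) * (v1 - 2 * x0 + xm)
    have hpole : a1 * ς + b1 = 2 * (h0 + hc1 * ς) := by
      have : (ς - 1) * ((a1 * ς + b1) - 2 * (h0 + hc1 * ς)) = 0 := by linear_combination vς
      have h3 : ς - 1 ≠ 0 := by
        intro h4
        apply hς1
        linarith
      have := (mul_eq_zero.mp this).resolve_left h3
      linarith
    set t : ℝ := a1 - 2 * hc1 with ht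
    have ht1 : (h0 + hc1 - 1) * t = 0 := by
      rw [ht]
      have hb1 : b1 = h0 + hc1 + 1 - a1 := by linarith
      have hb0 : b0 = (h0 + hc1 + 1) * hc1 - a0 := by rw [← hγn, eD2, ← eN2]; ring
      rw [hb1, hb0, hc3] at hc2
      linear_combination -hc2
    have ht2 : t * (ς - 1) = h0 + hc1 - 1 := by
      rw [ht]
      have hb1 : b1 = h0 + hc1 + 1 - a1 := by linarith
      rw [hb1] at hpole
      linear_combination hpole
    have ht0 : t = 0 := by
      rw [← ht2] at ht1
      have h3 : t ^ 2 * (ς - 1) = 0 := by linear_combination ht1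
      have h4 : ς - 1 ≠ 0 := by
        intro h4
        apply hς1
        linarith
      exact pow_eq_zero_iff (two_ne_zero) |>.mp ((mul_eq_zero.mp h3).resolve_right h4)
    have hn1 : h0 + hc1 = 1 := by
      rw [ht0, zero_mul] at ht2
      linarith
    have ha1 : a1 = 2 * hc1 := by linarith
    have hh0' : h0 = 1 - hc1 := by linarith
    have hb1' : b1 = 2 - 2 * hc1 := by linarith
    have hγ2 : γ = 2 := by linarith
    have ha0' : a0 = hc1 ^ 2 := by rw [hc3, ha1]; ring
    have hςne : ς ≠ 0 := by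
      intro h3
      apply hcc
      rw [hD1, hD1', h3, mul_coeff_zero, mul_coeff_zero]
      simp
    refine ⟨-hc1, by linarith, by rw [ha0']; ring, by linarith, ?_, ?_, ?_⟩
    · have : b0 = γ * hc1 - a0 := by linarith
      rw [this, hγ2, ha0']; ring
    · rw [eD0, hγ2]
      exact mul_ne_zero two_ne_zero hςne
    · rw [eN0, eD0, hγ2, hh0']; ring

end Pool.Agent.Q86.Kr
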