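import Pool.Agent.Q86.KrI

/-!
# Assembly
-/

set_option autoImplicit false

open Polynomial MeasureTheory

namespace Pool.Agent.Q86.Kr

theorem p_identity {u : ℝ[X] →ₗ[ℝ] ℝ} (hu : PD u) {A B K E : ℝ[X]} (D : Dat u A B K E) :
    B * (2 * derivative A ^ 2 + 2 * A * derivative (derivative A)) + 2 * A * derivative A * K
      + E * A ^ 2 - A * (3 * derivative (derivative A) * B + 2 * derivative A * derivative B
        + derivative A * K + A * derivative K - A * derivative (derivative B)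
        - 2 * B * derivative B)
      - B * (3 * derivative A * B + A * K - A * derivative B - B ^ 2) = 0 := by
  apply hu.eq_zero
  intro g
  have h2 := D.e2 (A * A * g)
  have h1 := D.e1 (A * B * derivative g
    + (3 * derivative A * B + A * K - A * derivative B - B * B) * g)
  have e3 : derivative (3 : ℝ[X]) = 0 := by
    have : (3 : ℝ[X]) = C 3 := rfl
    rw [this, derivative_C]
  simp only [derivative_mul, derivative_add, derivative_sub, e3, zero_mul, zero_add] at h1 h2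
  have := congrArg₂ (fun a b : ℝ => a - b) h2 h1
  simp only [sub_zero, ← map_sub] at this
  rw [← this]
  congr 1
  ring

theorem top_coeff {u : ℝ[X] →ₗ[ℝ] ℝ} (hu : PD u) {A B K E : ℝ[X]} (D : Dat u A B K E)
    (hA : A.natDegree ≤ 2) (hB : B.natDegree ≤ 2) :
    B.coeff 2 * (B.coeff 2 ^ 2 - A.coeff 2 * K.coeff 2) = 0 := by
  have hP := p_identity hu D
  have fA := quad_form hA
  have fB := quad_form hB
  have fK := quad_form D.dC
  have fE := lin_form D.dE
  set a2 := A.coeff 2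
  set a1 := A.coeff 1
  set a0 := A.coeff 0
  set b2 := B.coeff 2
  set b1 := B.coeff 1
  set b0 := B.coeff 0
  set k2 := K.coeff 2
  set k1 := K.coeff 1
  set k0 := K.coeff 0
  set e1 := E.coeff 1
  set e0 := E.coeff 0
  have dq : ∀ a b c : ℝ, derivative (C a * X ^ 2 + C b * X + C c : ℝ[X]) = C (2 * a) * X + C b := by
    intro a b c
    simp only [derivative_add, derivative_mul, derivative_C, zero_mul, zero_add, derivative_X_pow,
      derivative_X, mul_one, add_zero, C_mul]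
    have : (C ((2 : ℕ) : ℝ) : ℝ[X]) = C 2 := by norm_num
    rw [this]
    simp
    ring
  have dl : ∀ a b : ℝ, derivative (C a * X + C b : ℝ[X]) = C a := by
    intro a b
    simp
  rw [fA, fB, fK, fE] at hP
  simp only [dq, dl] at hP
  have hval : ∀ x : ℝ, (b2 * x ^ 2 + b1 * x + b0) * (2 * (2 * a2 * x + a1) ^ 2
      + 2 * (a2 * x ^ 2 + a1 * x + a0) * (2 * a2))
      + 2 * (a2 * x ^ 2 + a1 * x + a0) * (2 * a2 * x + a1) * (k2 * x ^ 2 + k1 * x + k0)
      + (e0 + e1 * x) * (a2 * x ^ 2 + a1 * x + a0) ^ 2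
      - (a2 * x ^ 2 + a1 * x + a0) * (3 * (2 * a2) * (b2 * x ^ 2 + b1 * x + b0)
        + 2 * (2 * a2 * x + a1) * (2 * b2 * x + b1)
        + (2 * a2 * x + a1) * (k2 * x ^ 2 + k1 * x + k0)
        + (a2 * x ^ 2 + a1 * x + a0) * (2 * k2 * x + k1)
        - (a2 * x ^ 2 + a1 * x + a0) * (2 * b2)
        - 2 * (b2 * x ^ 2 + b1 * x + b0) * (2 * b2 * x + b1))
      - (b2 * x ^ 2 + b1 * x + b0) * (3 * (2 * a2 * x + a1) * (b2 * x ^ 2 + b1 * x + b0)
        + (a2 * x ^ 2 + a1 * x + a0) * (k2 * x ^ 2 + k1 * x + k0)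
        - (a2 * x ^ 2 + a1 * x + a0) * (2 * b2 * x + b1) - (b2 * x ^ 2 + b1 * x + b0) ^ 2) = 0 := by
    intro x
    have h3 := congrArg (fun f : ℝ[X] => f.eval x) hP
    simp only [eval_add, eval_sub, eval_mul, eval_pow, eval_C, eval_X, eval_zero,
      eval_ofNat] at h3
    linear_combination h3
  have v0 := hval 0
  have v1 := hval 1
  have v2 := hval 2
  have v3 := hval 3
  have w1 := hval (-1)
  have w2 := hval (-2)
  have w3 := hval (-3)
  linear_combination (1 / 720 : ℝ) * (v3 - 6 * v2 + 15 * v1 - 20 * v0 + 15 * w1 - 6 * w2 + w3)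

theorem af_comp (a b a' b' : ℝ) (f : ℝ[X]) : af a b (af a' b' f) = af (a' * a) (a' * b + b') f := by
  rw [af_apply, af_apply, af_apply, comp_assoc]
  congr 1
  simp only [add_comp, mul_comp, C_comp, X_comp, C_mul, C_add]
  ring

theorem af_deriv_one (b : ℝ) (f : ℝ[X]) : derivative (af 1 b f) = af 1 b (derivative f) := by
  rw [af_deriv, one_smul]

theorem af_X (a b : ℝ) : af a b X = C a * X + C b := by rw [af_apply, X_comp]

theorem af_C (a b c : ℝ) : af a b (C c) = C c := by rw [af_apply, C_comp]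

theorem drop_degree {A : ℝ[X]} {n : ℕ} (h : A.natDegree ≤ n + 1) (h0 : A.coeff (n + 1) = 0) :
    A.natDegree ≤ n := by
  rw [natDegree_le_iff_coeff_eq_zero]
  intro m hm
  rcases Nat.lt_or_ge (n + 1) m with h1 | h1
  · exact coeff_eq_zero_of_natDegree_lt (by omega)
  · have : m = n + 1 := by omega
    rw [this]
    exact h0

/-- affine change of a quadratic polynomial -/
theorem af_quad {r : ℝ} (a2 a1 a0 : ℝ) :
    af r⁻¹ (-(0 / r)) (C a2 * X ^ 2 + C a1 * X + C a0)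
      = C (a2 * (r⁻¹) ^ 2) * X ^ 2 + C (a1 * r⁻¹) * X + C a0 := by
  rw [af_apply]
  simp only [add_comp, mul_comp, C_comp, X_pow_comp, X_comp, zero_div, neg_zero, C_0, add_zero,
    C_mul, C_pow]
  ring

/-- the unbounded case with quadratic leading coefficient -/
theorem good_quad {φ : Measure ℝ} (h : ∀ k : ℕ, Integrable (fun x : ℝ => x ^ k) φ)
    (hu : PD (mom φ h)) {A B K E : ℝ[X]} (D : Dat (mom φ h) A B K E)
    (hw : ∀ g, 0 ≤ mom φ h (A * (g * g))) (hE : 0 ≤ E.coeff 1)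
    (hA : A.natDegree ≤ 2) (hB : B.natDegree ≤ 2) (ha2 : A.coeff 2 ≠ 0) (hb2 : B.coeff 2 ≠ 0)
    (hk2 : B.coeff 2 ^ 2 = A.coeff 2 * K.coeff 2) : Good φ := by
  have fA := quad_form hA
  have fB := quad_form hB
  have fK := quad_form D.dC
  have fE := lin_form D.dE
  set a2 := A.coeff 2
  set a1 := A.coeff 1
  set a0 := A.coeff 0
  set b2 := B.coeff 2
  set b1 := B.coeff 1
  set b0 := B.coeff 0
  set k2 := K.coeff 2
  set k1 := K.coeff 1
  set k0 := K.coeff 0
  set e1 := E.coeff 1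
  set e0 := E.coeff 0
  have fE' : E = C 0 * X ^ 2 + C e1 * X + C e0 := by rw [fE]; simp; ring
  set r : ℝ := -b2 / a2 with hr
  have hr0 : r ≠ 0 := div_ne_zero (neg_ne_zero.mpr hb2) ha2
  set l : ℝ := b2 ^ 2 / a2 with hl
  have hl0 : l ≠ 0 := div_ne_zero (pow_ne_zero 2 hb2) ha2
  have D' := D.af (a := r) (b := 0) hr0
  set u := mom φ h ∘ₗ Kr.af r 0 with hudef
  have hpd : PD u := hu.af hr0
  rw [fA, fB, fK, fE', af_quad, af_quad, af_quad, af_quad] at D'
  have s1 : ∀ f, u ((C 1 * X ^ 2 + C (l⁻¹ * (r ^ 4 * (a1 * r⁻¹))) * X + C (l⁻¹ * (r ^ 4 * a0)))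
      * derivative f + (C (-1) * X ^ 2 + C (l⁻¹ * (r ^ 3 * (b1 * r⁻¹))) * X
        + C (l⁻¹ * (r ^ 3 * b0))) * f) = 0 := by
    intro f
    have h1 := D'.e1 f
    have c1 : (1 : ℝ) = l⁻¹ * (r ^ 4 * (a2 * (r⁻¹) ^ 2)) := by
      rw [hl, hr]; field_simp
    have c2 : (-1 : ℝ) = l⁻¹ * (r ^ 3 * (b2 * (r⁻¹) ^ 2)) := by
      rw [hl, hr]; field_simp
    have e : (C 1 * X ^ 2 + C (l⁻¹ * (r ^ 4 * (a1 * r⁻¹))) * X + C (l⁻¹ * (r ^ 4 * a0)))
      * derivative f + (C (-1) * X ^ 2 + C (l⁻¹ * (r ^ 3 * (b1 * r⁻¹))) * X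
        + C (l⁻¹ * (r ^ 3 * b0))) * f = l⁻¹ • (r ^ 4 • (C (a2 * r⁻¹ ^ 2) * X ^ 2
          + C (a1 * r⁻¹) * X + C a0) * derivative f
          + r ^ 3 • (C (b2 * r⁻¹ ^ 2) * X ^ 2 + C (b1 * r⁻¹) * X + C b0) * f) := by
      rw [c2, c1]
      simp only [smul_eq_C_mul, C_mul]
      ring
    rw [e, map_smul, h1, smul_zero]
  have s2 : ∀ f, u ((C (-1) * X ^ 2 + C (l⁻¹ * (r ^ 3 * (b1 * r⁻¹))) * X
        + C (l⁻¹ * (r ^ 3 * b0))) * derivative (derivative f)
      + (C 1 * X ^ 2 + C (l⁻¹ * (r ^ 2 * (k1 * r⁻¹))) * X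
        + C (l⁻¹ * (r ^ 2 * k0))) * derivative f
      + (C 0 * X ^ 2 + C (l⁻¹ * (r * (e1 * r⁻¹))) * X + C (l⁻¹ * (r * e0))) * f) = 0 := by
    intro f
    have h1 := D'.e2 f
    have c1 : (1 : ℝ) = l⁻¹ * (r ^ 2 * (k2 * (r⁻¹) ^ 2)) := by
      have : k2 = l := by rw [hl, hk2]; field_simp
      rw [this]; field_simp
    have c2 : (-1 : ℝ) = l⁻¹ * (r ^ 3 * (b2 * (r⁻¹) ^ 2)) := by
      rw [hl, hr]; field_simp
    have c3 : (0 : ℝ) = l⁻¹ * (r * (0 * (r⁻¹) ^ 2)) := by ring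
    have e : (C (-1) * X ^ 2 + C (l⁻¹ * (r ^ 3 * (b1 * r⁻¹))) * X
        + C (l⁻¹ * (r ^ 3 * b0))) * derivative (derivative f)
      + (C 1 * X ^ 2 + C (l⁻¹ * (r ^ 2 * (k1 * r⁻¹))) * X
        + C (l⁻¹ * (r ^ 2 * k0))) * derivative f
      + (C 0 * X ^ 2 + C (l⁻¹ * (r * (e1 * r⁻¹))) * X + C (l⁻¹ * (r * e0))) * f
      = l⁻¹ • (r ^ 3 • (C (b2 * r⁻¹ ^ 2) * X ^ 2 + C (b1 * r⁻¹) * X + C b0)
          * derivative (derivative f)
          + r ^ 2 • (C (k2 * r⁻¹ ^ 2) * X ^ 2 + C (k1 * r⁻¹) * X + C k0) * derivative f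
          + r • (C (0 * r⁻¹ ^ 2) * X ^ 2 + C (e1 * r⁻¹) * X + C e0) * f) := by
      rw [c2, c1]
      simp only [smul_eq_C_mul, C_mul, C_0]
      ring
    rw [e, map_smul, h1, smul_zero]
  rcases nc_main hpd s1 s2 with ⟨κ, n, hL⟩ | ⟨κ, q1, q2, q3, q4, q5, q6⟩
  · have hcomp : mom φ h ∘ₗ Kr.af r (-κ) = u ∘ₗ Kr.af 1 (-κ) := by
      apply LinearMap.ext
      intro f
      rw [hudef, LinearMap.comp_apply, LinearMap.comp_apply, LinearMap.comp_apply, af_comp]
      rw [mul_zero, zero_add, one_mul]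
    refine good_laguerre h hu (a := r) (b := -κ) (n := n) hr0 ?_
    intro f
    rw [hcomp, LinearMap.comp_apply]
    have := hL (Kr.af 1 (-κ) f)
    rw [af_deriv_one] at this
    rw [map_add (Kr.af 1 (-κ)), af_mul, af_mul, map_sub (Kr.af 1 (-κ)), af_X, af_C]
    simp only [C_1, one_mul, C_neg, ← sub_eq_add_neg]
    exact this
  · have hcomp : mom φ h ∘ₗ Kr.af r (-κ) = u ∘ₗ Kr.af 1 (-κ) := by
      apply LinearMap.ext
      intro f
      rw [hudef, LinearMap.comp_apply, LinearMap.comp_apply, LinearMap.comp_apply, af_comp]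
      rw [mul_zero, zero_add, one_mul]
    refine good_laguerre_type h hu (a := r) (b := -κ) hr0 ?_ ?_
    · intro f
      rw [hcomp, LinearMap.comp_apply]
      have := s1 (Kr.af 1 (-κ) f)
      rw [af_deriv_one, q1, q2, q3, q4] at this
      have e2 : (2 : ℝ[X]) = C 2 := rfl
      rw [map_add (Kr.af 1 (-κ)), af_mul, af_mul, map_sub (Kr.af 1 (-κ)), pow_two, af_mul, af_mul,
        e2, af_X, af_C]
      rw [← this]
      congr 1
      simp only [C_1, C_neg, C_add, C_sub, C_mul, C_pow, ← e2]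
      ring
    · rw [hcomp]
      have ex1 : (u ∘ₗ Kr.af 1 (-κ)) X = u (C 1 * X + C (-κ)) := by
        rw [LinearMap.comp_apply, af_X]
      have e1' : Kr.af 1 (-κ) 1 = 1 := by rw [← C_1, af_C]
      have ex2 : (u ∘ₗ Kr.af 1 (-κ)) 1 = u 1 := by
        rw [LinearMap.comp_apply, e1']
      rw [ex1, ex2]
      have h1 := s2 1
      simp only [derivative_one, derivative_zero, mul_zero, zero_add, mul_one, C_0,
        zero_mul] at h1
      have e3 : C (l⁻¹ * (r * (e1 * r⁻¹))) * X + C (l⁻¹ * (r * e0))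
          = (l⁻¹ * (r * (e1 * r⁻¹))) • X + (l⁻¹ * (r * e0)) • (1 : ℝ[X]) := by
        simp only [smul_eq_C_mul, mul_one]
      rw [e3, map_add, map_smul, map_smul, smul_eq_mul, smul_eq_mul, q6] at h1
      have e4 : (C 1 * X + C (-κ) : ℝ[X]) = X - κ • (1 : ℝ[X]) := by
        simp only [smul_eq_C_mul, C_1, C_neg]; ring
      rw [e4, map_sub, map_smul, smul_eq_mul]
      -- sign of l
      have hlpos : 0 < l := by
        have h2 := hw 1
        rw [mul_one, mul_one] at h2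
        have h3 := hpd (X - C κ) (X_sub_C_ne_zero κ)
        have h4 : u ((X - C κ) * (X - C κ)) = l⁻¹ * r ^ 4 * mom φ h A := by
          rw [hudef, LinearMap.comp_apply]
          have : Kr.af r 0 ((X - C κ) * (X - C κ)) = (l⁻¹ * r ^ 4) • A := by
            rw [fA, af_mul, map_sub (Kr.af r 0), af_X, af_C]
            have t1 : l⁻¹ * r ^ 4 * a1 = -2 * κ * r := by
              rw [← q1]; field_simp
            have t2 : l⁻¹ * r ^ 4 * a2 = r ^ 2 := by
              rw [hl, hr]; field_simp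
            have t3 : l⁻¹ * r ^ 4 * a0 = κ ^ 2 := by rw [← q2]; ring
            rw [smul_add, smul_add, smul_eq_C_mul, smul_eq_C_mul, smul_eq_C_mul, ← mul_assoc,
              ← mul_assoc, ← C_mul, ← C_mul, ← C_mul, t1, t2, t3]
            simp only [C_mul, C_neg, C_pow, C_0]
            have : (C (2 : ℝ) : ℝ[X]) = 2 := rfl
            rw [this]
            ring
          rw [this, map_smul, smul_eq_mul]
        rw [h4] at h3
        have hr4 : 0 < r ^ 4 := by positivity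
        by_contra hneg
        have hl' : l < 0 := lt_of_le_of_ne (not_lt.mp hneg) hl0
        have : l⁻¹ < 0 := inv_lt_zero.mpr hl'
        have h5 : l⁻¹ * r ^ 4 * mom φ h A ≤ 0 := by
          apply mul_nonpos_of_nonpos_of_nonneg _ h2
          exact mul_nonpos_of_nonpos_of_nonneg this.le hr4.le
        linarith
      set ee : ℝ := l⁻¹ * (r * (e1 * r⁻¹)) with hee
      have hee' : ee = l⁻¹ * e1 := by rw [hee]; field_simp
      have hepos : 0 < ee := by
        rw [hee'] at q5 ⊢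
        have : 0 ≤ l⁻¹ * e1 := mul_nonneg (inv_nonneg.mpr hlpos.le) hE
        exact lt_of_le_of_ne this (Ne.symm q5)
      have hu1 := hpd.one_pos
      have h6 : ee * (u X - κ * u 1 - u 1) = -2 * u 1 := by linarith
      by_contra hcon
      push Not at hcon
      have h7 : 0 ≤ ee * (u X - κ * u 1 - u 1) := mul_nonneg hepos.le (by linarith)
      linarith

end Pool.Agent.Q86.Kr
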