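import Pool.Agent.Q86.KrJ

/-!
# Assembly, second part
-/

set_option autoImplicit false

open Polynomial MeasureTheory

namespace Pool.Agent.Q86.Kr

theorem good_lin {φ : Measure ℝ} (h : ∀ k : ℕ, Integrable (fun x : ℝ => x ^ k) φ)
    (hu : PD (mom φ h)) {a1 a0 b1 b0 : ℝ} (ha : a1 ≠ 0) (hb : b1 ≠ 0)
    (h1 : ∀ f, mom φ h ((C a1 * X + C a0) * derivative f + (C b1 * X + C b0) * f) = 0) :
    Good φ := by
  set s : ℝ := -b1 / a1 with hs
  have hs0 : s ≠ 0 := div_ne_zero (neg_ne_zero.mpr hb) ha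
  set κ : ℝ := -a0 / a1 with hκ
  set n : ℝ := (b0 + b1 * κ) / a1 with hn
  refine good_laguerre h hu (a := s) (b := -(s * κ)) (n := n) hs0 ?_
  intro f
  rw [LinearMap.comp_apply]
  have h2 := h1 (Kr.af s (-(s * κ)) f)
  have e : Kr.af s (-(s * κ)) (X * derivative f + (C n - X) * f)
      = a1⁻¹ • ((C a1 * X + C a0) * derivative (Kr.af s (-(s * κ)) f)
        + (C b1 * X + C b0) * Kr.af s (-(s * κ)) f) := by
    rw [map_add (Kr.af s (-(s * κ))), af_mul, af_mul, map_sub (Kr.af s (-(s * κ))), af_X, af_C,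
      af_deriv]
    set F := Kr.af s (-(s * κ)) f
    set G := Kr.af s (-(s * κ)) (derivative f)
    have t1 : (C s * X + C (-(s * κ)) : ℝ[X]) = (a1⁻¹ * s) • (C a1 * X + C a0) := by
      rw [smul_add, smul_eq_C_mul, smul_eq_C_mul, ← mul_assoc, ← C_mul, ← C_mul]
      congr 3
      · field_simp
      · rw [hκ]; field_simp
    have t2 : (C n - (C s * X + C (-(s * κ))) : ℝ[X]) = a1⁻¹ • (C b1 * X + C b0) := by
      rw [smul_add, smul_eq_C_mul, smul_eq_C_mul, ← mul_assoc, ← C_mul, ← C_mul]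
      have u1 : a1⁻¹ * b1 = -s := by rw [hs]; field_simp
      have u2 : a1⁻¹ * b0 = n + s * κ := by rw [hn, hs]; field_simp; ring
      rw [u1, u2]
      simp only [C_neg, C_add, C_mul]
      ring
    rw [t2, t1]
    simp only [smul_eq_C_mul, C_mul]
    ring
  rw [e, map_smul, h2, smul_zero]

theorem good_const {φ : Measure ℝ} (h : ∀ k : ℕ, Integrable (fun x : ℝ => x ^ k) φ)
    (hu : PD (mom φ h)) {a0 b1 b0 : ℝ} (ha : a0 ≠ 0)
    (h1 : ∀ f, mom φ h (C a0 * derivative f + (C b1 * X + C b0) * f) = 0) : Good φ := by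
  have hb : b1 ≠ 0 := by
    intro hb
    have h2 := h1 1
    rw [derivative_one, mul_zero, zero_add, mul_one, hb, C_0, zero_mul, zero_add] at h2
    have h3 : mom φ h (C b0) = b0 * mom φ h 1 := by
      rw [← smul_eq_mul, ← map_smul, smul_eq_C_mul, mul_one]
    rw [h3] at h2
    have hb0 : b0 = 0 := by
      rcases mul_eq_zero.mp h2 with h4 | h4
      · exact h4
      · exact absurd h4 hu.one_pos.ne'
    have h4 := h1 X
    rw [derivative_X, hb, hb0, C_0, zero_mul, zero_add, zero_mul, add_zero, mul_one] at h4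
    have h5 : mom φ h (C a0) = a0 * mom φ h 1 := by
      rw [← smul_eq_mul, ← map_smul, smul_eq_C_mul, mul_one]
    rw [h5] at h4
    rcases mul_eq_zero.mp h4 with h6 | h6
    · exact ha h6
    · exact hu.one_pos.ne' h6
  set κ : ℝ := -b0 / b1 with hκ
  have hlin : (C b1 * X + C b0 : ℝ[X]) = b1 • (X - C κ) := by
    rw [smul_sub, smul_eq_C_mul, smul_eq_C_mul, ← C_mul]
    have : b1 * κ = -b0 := by rw [hκ]; field_simp
    rw [this, C_neg]; ring
  have hpos : 0 < -b1 / a0 := by
    have h2 := h1 (X - C κ)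
    rw [hlin, derivative_sub, derivative_X, derivative_C, sub_zero, mul_one, map_add,
      smul_mul_assoc, map_smul, smul_eq_mul] at h2
    have h5 : mom φ h (C a0) = a0 * mom φ h 1 := by
      rw [← smul_eq_mul, ← map_smul, smul_eq_C_mul, mul_one]
    rw [h5] at h2
    have h3 := hu (X - C κ) (X_sub_C_ne_zero κ)
    have h4 := hu.one_pos
    have h6 : -b1 / a0 = mom φ h 1 / mom φ h ((X - C κ) * (X - C κ)) := by
      rw [div_eq_div_iff ha h3.ne']
      linarith
    rw [h6]
    exact div_pos h4 h3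
  set s : ℝ := Real.sqrt (-b1 / a0 / 2) with hs
  have hs0 : s ≠ 0 := (Real.sqrt_pos.mpr (by linarith)).ne'
  have hs2 : s * s = -b1 / a0 / 2 := Real.mul_self_sqrt (by linarith)
  refine good_hermite h hu (a := s) (b := -(s * κ)) hs0 ?_
  intro f
  rw [LinearMap.comp_apply]
  have h2 := h1 (Kr.af s (-(s * κ)) f)
  have e : Kr.af s (-(s * κ)) (derivative f - 2 * X * f)
      = (s * a0)⁻¹ • (C a0 * derivative (Kr.af s (-(s * κ)) f)
        + (C b1 * X + C b0) * Kr.af s (-(s * κ)) f) := by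
    have e2 : (2 : ℝ[X]) = C 2 := rfl
    rw [map_sub (Kr.af s (-(s * κ))), af_mul, af_mul, e2, af_X, af_C, af_deriv, hlin]
    set F := Kr.af s (-(s * κ)) f
    set G := Kr.af s (-(s * κ)) (derivative f)
    rw [smul_add]
    have t1 : (s * a0)⁻¹ • (C a0 * s • G) = G := by
      rw [mul_smul_comm, smul_smul, ← smul_eq_C_mul, smul_smul]
      have : (s * a0)⁻¹ * s * a0 = 1 := by field_simp
      rw [this, one_smul]
    have t2 : (s * a0)⁻¹ • (b1 • (X - C κ) * F) = -(C 2 * (C s * X + C (-(s * κ))) * F) := by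
      have u1 : (s * a0)⁻¹ * b1 = -(2 * s) := by
        have : b1 = -(2 * (s * s) * a0) := by rw [hs2]; field_simp
        rw [this]; field_simp
      rw [smul_mul_assoc, smul_smul, u1, smul_eq_C_mul]
      simp only [C_neg, C_mul]
      ring
    rw [t1, t2]
    ring
  rw [e, map_smul, h2, smul_zero]

theorem good_of_dat {φ : Measure ℝ} (h : ∀ k : ℕ, Integrable (fun x : ℝ => x ^ k) φ)
    (hs : ∀ s : Finset ℝ, φ ((↑s : Set ℝ)ᶜ) ≠ 0) {A B K E : ℝ[X]}
    (D : Dat (mom φ h) A B K E) (hA : A ≠ 0)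
    (hno : ∀ d, A.eval d = 0 → B.eval d = 0 → K.eval d = 0 → E.eval d = 0 → False)
    (hw : ∀ g, 0 ≤ mom φ h (A * (g * g))) (hE : 0 ≤ E.coeff 1) : Good φ := by
  have hu : PD (mom φ h) := mom_pd hs
  by_cases hg : ∃ K Q : ℝ, 0 ≤ K ∧ 1 ≤ Q ∧ ∀ k, |mom φ h (X ^ k)| ≤ K * Q ^ k
  · obtain ⟨K', Q, hK0, hQ, hK⟩ := hg
    exact (good_of_compact h hs (by linarith) (compact_of_growth h hQ hK) D hA hno).1
  · have a4 : A.coeff 4 = 0 := by
      by_contra h4
      exact hg (growth_one (d := 3) D.e1 D.dA D.dB h4)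
    have b3 : B.coeff 3 = 0 := by
      by_contra h3
      exact hg (growth_two D.e2 D.dB D.dC D.dE h3)
    have dA3 : A.natDegree ≤ 3 := drop_degree D.dA a4
    have dB2 : B.natDegree ≤ 2 := drop_degree D.dB b3
    have a3 : A.coeff 3 = 0 := by
      by_contra h3
      exact hg (growth_one (d := 2) D.e1 dA3 dB2 h3)
    have dA2 : A.natDegree ≤ 2 := drop_degree dA3 a3
    have htop := top_coeff hu D dA2 dB2
    by_cases ha2 : A.coeff 2 = 0
    · rw [ha2, zero_mul, sub_zero] at htop
      have b2 : B.coeff 2 = 0 := by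
        rcases mul_eq_zero.mp htop with h1 | h1
        · exact h1
        · exact pow_eq_zero_iff (by norm_num) |>.mp h1
      have dA1 : A.natDegree ≤ 1 := drop_degree dA2 ha2
      have dB1 : B.natDegree ≤ 1 := drop_degree dB2 b2
      have fA := lin_form dA1
      have fB := lin_form dB1
      by_cases ha1 : A.coeff 1 = 0
      · have ha0 : A.coeff 0 ≠ 0 := by
          intro h0
          apply hA
          rw [fA, ha1, h0]
          simp
        refine good_const h hu (a0 := A.coeff 0) (b1 := B.coeff 1) (b0 := B.coeff 0) ha0 ?_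
        intro f
        have h1 := D.e1 f
        rw [← h1]
        congr 1
        conv_rhs => rw [fA, fB]
        rw [ha1, C_0, zero_mul, add_zero, add_comm (C (B.coeff 0))]
      · have hb1 : B.coeff 1 ≠ 0 := by
          intro hb1
          exact hg (growth_one (d := 0) D.e1 dA1 (drop_degree dB1 hb1) ha1)
        refine good_lin h hu (a1 := A.coeff 1) (a0 := A.coeff 0) (b1 := B.coeff 1)
          (b0 := B.coeff 0) ha1 hb1 ?_
        intro f
        have h1 := D.e1 f
        rw [← h1]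
        congr 1
        conv_rhs => rw [fA, fB]
        rw [add_comm (C (B.coeff 0)), add_comm (C (A.coeff 0))]
    · have hb2 : B.coeff 2 ≠ 0 := by
        intro hb2
        exact hg (growth_one (d := 1) D.e1 dA2 (drop_degree dB2 hb2) ha2)
      have hk2 : B.coeff 2 ^ 2 = A.coeff 2 * K.coeff 2 := by
        rcases mul_eq_zero.mp htop with h1 | h1
        · exact absurd h1 hb2
        · linarith
      exact good_quad h hu D hw hE dA2 dB2 ha2 hb2 hk2

theorem main (φ ψ η : Measure ℝ) (p : ℕ → ℝ[X])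
    (hφ : ∀ k : ℕ, Integrable (fun x : ℝ => x ^ k) φ)
    (hψ : ∀ k : ℕ, Integrable (fun x : ℝ => x ^ k) ψ)
    (hη : ∀ k : ℕ, Integrable (fun x : ℝ => x ^ k) η)
    (hs : ∀ s : Finset ℝ, φ ((↑s : Set ℝ)ᶜ) ≠ 0) (hη0 : η ≠ 0)
    (hdeg : ∀ n : ℕ, (p n).degree = ((n : ℕ) : WithBot ℕ))
    (ho : ∀ n m : ℕ, n ≠ m → ∫ x, (p n).eval x * (p m).eval x ∂φ = 0)
    (hso : ∀ n m : ℕ, n ≠ m →
      (∫ x, (p n).eval x * (p m).eval x ∂φ)
        + (∫ x, (derivative (p n)).eval x * (derivative (p m)).eval x ∂ψ)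
        + (∫ x, (derivative (derivative (p n))).eval x
              * (derivative (derivative (p m))).eval x ∂η) = 0) : Good φ := by
  have hu : PD (mom φ hφ) := mom_pd hs
  have hmul : ∀ {μ : Measure ℝ} (h : ∀ k : ℕ, Integrable (fun x : ℝ => x ^ k) μ) (f g : ℝ[X]),
      mom μ h (f * g) = ∫ x, f.eval x * g.eval x ∂μ := by
    intro μ h f g
    rw [mom_apply]
    simp only [eval_mul]
  have H : Sob (mom φ hφ) (mom ψ hψ) (mom η hη) p := by
    refine ⟨hdeg, ?_, ?_, ?_⟩
    · intro n m hnm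
      rw [hmul]
      exact ho n m hnm
    · intro n
      apply hu
      intro h0
      have := hdeg n
      rw [h0, degree_zero] at this
      exact absurd this.symm (by simp)
    · intro n m hnm
      rw [hmul, hmul]
      have h1 := hso n m hnm
      rw [ho n m hnm, zero_add] at h1
      exact h1
  obtain ⟨A, B, K, E, D, hw, hv, hvk⟩ := exists_dat H
  have hsq : ∀ {μ : Measure ℝ} (h : ∀ k : ℕ, Integrable (fun x : ℝ => x ^ k) μ) (f : ℝ[X]),
      0 ≤ mom μ h (f * f) := by
    intro μ h f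
    rw [hmul]
    exact integral_nonneg fun x => mul_self_nonneg _
  have hA : A ≠ 0 := by
    intro h0
    have h1 := hw 1
    rw [h0, zero_mul, map_zero, mom_apply] at h1
    simp only [eval_one, integral_const, smul_eq_mul, mul_one] at h1
    have hfin : IsFiniteMeasure η := finite_of_int hη
    rw [measureReal_eq_zero_iff] at h1
    exact hη0 (Measure.measure_univ_eq_zero.mp h1)
  have hE : 0 ≤ E.coeff 1 := by
    have fE := lin_form D.dE
    have h1 := hv 1
    rw [derivative_one, map_zero, mul_one] at h1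
    have h2 := hv X
    rw [derivative_X] at h2
    have h3 : mom φ hφ (E * E) = E.coeff 1 * mom ψ hψ 1 := by
      have : E * E = E.coeff 0 • E + E.coeff 1 • (E * X) := by
        conv_lhs => rw [fE]
        conv_rhs =>
          rw [smul_eq_C_mul, smul_eq_C_mul]
        conv_rhs =>
          enter [1, 2]
          rw [fE]
        conv_rhs =>
          enter [2, 2, 1]
          rw [fE]
        ring
      rw [this, map_add, map_smul, map_smul, ← h1, ← h2, smul_zero, zero_add, smul_eq_mul]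
    by_contra hneg
    push Not at hneg
    have h4 : 0 ≤ mom ψ hψ 1 := by
      have := hsq hψ 1
      rwa [mul_one] at this
    have hE0 : E ≠ 0 := by
      intro h0
      rw [h0, coeff_zero] at hneg
      exact lt_irrefl _ hneg
    have h5 := hu E hE0
    rw [h3] at h5
    nlinarith
  refine good_of_dat hφ hs D hA ?_ ?_ hE
  · intro d ha hb hk he
    exact no_common_root H hu D hA hw hv hvk (hsq hη) (hsq hψ) d ha hb hk he
  · intro g
    rw [← hw]
    exact hsq hη g

theorem final {φ : Measure ℝ} {p : ℕ → ℝ[X]}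
    (hdeg : ∀ n : ℕ, (p n).degree = ((n : ℕ) : WithBot ℕ))
    (ho : ∀ n m : ℕ, n ≠ m → ∫ x, (p n).eval x * (p m).eval x ∂φ = 0)
    (hn : ∀ n : ℕ, ∫ x, (p n).eval x * (p n).eval x ∂φ ≠ 0) (hG : Good φ) :
    ∃ μ : Measure ℝ, IsListed μ ∧ ∃ a b : ℝ, a ≠ 0 ∧
        (∀ n : ℕ, ((p n).comp (Polynomial.C a * Polynomial.X + Polynomial.C b)).degree
            = ((n : ℕ) : WithBot ℕ)) ∧
        (∀ n m : ℕ, n ≠ m →
          ∫ x, ((p n).comp (Polynomial.C a * Polynomial.X + Polynomial.C b)).eval x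
            * ((p m).comp (Polynomial.C a * Polynomial.X + Polynomial.C b)).eval x ∂μ = 0) ∧
        (∀ n : ℕ,
          ∫ x, ((p n).comp (Polynomial.C a * Polynomial.X + Polynomial.C b)).eval x
            * ((p n).comp (Polynomial.C a * Polynomial.X + Polynomial.C b)).eval x ∂μ ≠ 0) := by
  obtain ⟨μ, hμ, a, b, c, ha, hc, hf⟩ := hG
  have hI : ∀ n m, ∫ x, ((p n).comp (C a⁻¹ * X + C (-(b / a)))).eval x
      * ((p m).comp (C a⁻¹ * X + C (-(b / a)))).eval x ∂μ
      = c * ∫ x, (p n).eval x * (p m).eval x ∂φ := by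
    intro n m
    have h1 := hf ((p n).comp (C a⁻¹ * X + C (-(b / a))) * (p m).comp (C a⁻¹ * X + C (-(b / a))))
    simp only [eval_mul] at h1
    rw [h1]
    congr 2
    ext x
    have e : ∀ q : ℝ[X], (q.comp (C a⁻¹ * X + C (-(b / a)))).eval (a * x + b) = q.eval x := by
      intro q
      rw [eval_comp]
      congr 1
      simp only [eval_add, eval_mul, eval_C, eval_X]
      field_simp
      ring
    rw [e, e]
  refine ⟨μ, hμ, a⁻¹, -(b / a), inv_ne_zero ha, ?_, ?_, ?_⟩
  · intro n
    have h0 : (p n).comp (C a⁻¹ * X + C (-(b / a))) ≠ 0 := by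
      intro h0
      have h1 := af_injective (inv_ne_zero ha) (b := -(b / a)) (f := p n) h0
      have := hdeg n
      rw [h1, degree_zero] at this
      exact absurd this.symm (by simp)
    rw [degree_eq_natDegree h0, natDegree_comp, natDegree_linear (inv_ne_zero ha), mul_one,
      natDegree_eq_of_degree_eq_some (hdeg n)]
  · intro n m hnm
    rw [hI, ho n m hnm, mul_zero]
  · intro n
    rw [hI]
    exact mul_ne_zero hc (hn n)

end Pool.Agent.Q86.Kr
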