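import Mathlib

set_option autoImplicit false

/-! Counting the elements of a finite set by a tree of labels. -/

open Finset

namespace Pool.Agent.Q86.Ks

open Classical in
/-- The number of different labels number `k` in the part of `A` which has the first `k` labels of
`i`. -/
noncomputable def cnt {ι α : Type*} (A : Finset ι) (lam : ℕ → ι → α) (k : ℕ) (i : ι) : ℕ :=
  ((A.filter fun j => ∀ l, l < k → lam l j = lam l i).image (lam k)).card

theorem leaf_sum {ι α : Type*} (m : ℕ) : ∀ (A : Finset ι) (lam : ℕ → ι → α),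
    (∀ i ∈ A, ∀ j ∈ A, (∀ l, l < m → lam l i = lam l j) → i = j) →
    ∑ i ∈ A, ∏ k ∈ Finset.range m, ((cnt A lam k i : ℝ))⁻¹ ≤ 1 := by
  classical
  induction m with
  | zero =>
    intro A lam h
    simp only [Finset.range_zero, Finset.prod_empty, Finset.sum_const, nsmul_eq_mul, mul_one]
    have h1 : A.card ≤ 1 := by
      rw [Finset.card_le_one]
      intro a ha b hb
      exact h a ha b hb (fun l hl => absurd hl (Nat.not_lt_zero l))
    exact_mod_cast h1
  | succ m ih =>
    intro A lam h
    set S := A.image (lam 0) with hS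
    have hfib : ∑ i ∈ A, ∏ k ∈ Finset.range (m + 1), ((cnt A lam k i : ℝ))⁻¹ =
        ∑ s ∈ S, ∑ i ∈ A.filter (fun i => lam 0 i = s),
          ∏ k ∈ Finset.range (m + 1), ((cnt A lam k i : ℝ))⁻¹ :=
      (Finset.sum_fiberwise_of_maps_to (fun i hi => Finset.mem_image_of_mem _ hi) _).symm
    rw [hfib]
    have hin : ∀ s ∈ S, ∑ i ∈ A.filter (fun i => lam 0 i = s),
          ∏ k ∈ Finset.range (m + 1), ((cnt A lam k i : ℝ))⁻¹ ≤ ((S.card : ℝ))⁻¹ := by
      intro s _
      set As := A.filter (fun i => lam 0 i = s) with hAs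
      have hterm : ∀ i ∈ As, ∏ k ∈ Finset.range (m + 1), ((cnt A lam k i : ℝ))⁻¹ =
          (∏ k ∈ Finset.range m, ((cnt As (fun k => lam (k + 1)) k i : ℝ))⁻¹) *
            ((S.card : ℝ))⁻¹ := by
        intro i hi
        rw [Finset.prod_range_succ']
        have hi0 : lam 0 i = s := (Finset.mem_filter.1 hi).2
        congr 1
        · refine Finset.prod_congr rfl fun k _ => ?_
          have e : cnt A lam (k + 1) i = cnt As (fun k => lam (k + 1)) k i := by
            unfold cnt
            congr 2
            ext j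
            simp only [Finset.mem_filter, hAs]
            constructor
            · rintro ⟨h1, h2⟩
              refine ⟨⟨h1, ?_⟩, fun l hl => h2 (l + 1) (by omega)⟩
              rw [h2 0 (by omega), hi0]
            · rintro ⟨⟨h1, h3⟩, h2⟩
              refine ⟨h1, fun l hl => ?_⟩
              rcases l with _ | l
              · rw [h3, hi0]
              · exact h2 l (by omega)
          rw [e]
        · have e : cnt A lam 0 i = S.card := by
            unfold cnt
            congr 2
            ext j
            simp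
          rw [e]
      rw [Finset.sum_congr rfl hterm, ← Finset.sum_mul]
      have hih := ih As (fun k => lam (k + 1)) (by
        intro i hi j hj hij
        rw [hAs, Finset.mem_filter] at hi hj
        refine h i hi.1 j hj.1 fun l hl => ?_
        rcases l with _ | l
        · rw [hi.2, hj.2]
        · exact hij l (by omega))
      have h0 : (0 : ℝ) ≤ ((S.card : ℝ))⁻¹ := by positivity
      calc _ ≤ 1 * ((S.card : ℝ))⁻¹ := mul_le_mul_of_nonneg_right hih h0
        _ = _ := one_mul _
    calc _ ≤ ∑ _s ∈ S, ((S.card : ℝ))⁻¹ := Finset.sum_le_sum hin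
      _ = S.card * ((S.card : ℝ))⁻¹ := by rw [Finset.sum_const, nsmul_eq_mul]
      _ ≤ 1 := by
        rcases Nat.eq_zero_or_pos S.card with h0 | h0
        · rw [h0]; simp
        · have : (S.card : ℝ) ≠ 0 := by exact_mod_cast h0.ne'
          rw [mul_inv_cancel₀ this]

/-- the inequality of arithmetic and geometric means for a weighted family -/
theorem amgm {ι : Type*} (m : ℕ) (A : Finset ι) (J : ℕ → ι → ℝ) (hJ : ∀ k, k < m → ∀ i ∈ A, 0 < J k i)
    (hsum : ∑ i ∈ A, ∏ k ∈ Finset.range m, (J k i)⁻¹ ≤ 1) :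
    (A.card : ℝ) ^ (m + 1) ≤ ∏ k ∈ Finset.range m, ∑ i ∈ A, J k i := by
  classical
  rcases A.eq_empty_or_nonempty with hA | hA
  · subst hA
    simp only [Finset.card_empty, Nat.cast_zero, Finset.sum_empty]
    rw [zero_pow (by omega)]
    exact Finset.prod_nonneg fun _ _ => le_rfl
  have ha : (0 : ℝ) < A.card := by exact_mod_cast hA.card_pos
  set a : ℝ := (A.card : ℝ) with hadef
  set W : ℕ → ℝ := fun k => ∑ i ∈ A, J k i with hW
  have hWpos : ∀ k, k < m → 0 < W k := fun k hk => Finset.sum_pos (fun i hi => hJ k hk i hi) hA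
  set x : ℕ → ℝ := fun k => W k / a with hx
  have hxpos : ∀ k, k < m → 0 < x k := fun k hk => div_pos (hWpos k hk) ha
  set X : ℝ := ∏ k ∈ Finset.range m, x k with hX
  have hX0 : 0 < X := Finset.prod_pos fun k hk => hxpos k (Finset.mem_range.1 hk)
  have hm0 : (0 : ℝ) < (m : ℝ) + 1 := by positivity
  have key : ∀ i ∈ A, 1 ≤ 1 / ((m : ℝ) + 1) *
      ((∑ k ∈ Finset.range m, J k i / x k) + (∏ k ∈ Finset.range m, (J k i)⁻¹) * X) := by
    intro i hi
    set z : ℕ → ℝ := fun k => if k < m then J k i / x k
      else (∏ l ∈ Finset.range m, (J l i)⁻¹) * X with hz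
    have hz0 : ∀ k ∈ Finset.range (m + 1), 0 ≤ z k := by
      intro k hk
      simp only [hz]
      split_ifs with h
      · exact (div_pos (hJ k h i hi) (hxpos k h)).le
      · exact mul_nonneg (Finset.prod_nonneg fun l hl =>
          (inv_pos.2 (hJ l (Finset.mem_range.1 hl) i hi)).le) hX0.le
    have h1 := Real.geom_mean_le_arith_mean_weighted (s := Finset.range (m + 1))
      (fun _ => 1 / ((m : ℝ) + 1)) z (fun _ _ => by positivity) (by
        rw [Finset.sum_const, Finset.card_range, nsmul_eq_mul]
        push_cast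
        field_simp) hz0
    have hzm : ∀ k ∈ Finset.range m, z k = J k i / x k := by
      intro k hk
      simp only [hz]
      rw [if_pos (Finset.mem_range.1 hk)]
    have hzl : z m = (∏ l ∈ Finset.range m, (J l i)⁻¹) * X := by
      simp only [hz]
      rw [if_neg (lt_irrefl m)]
    have hprod : ∏ k ∈ Finset.range (m + 1), z k = 1 := by
      rw [Finset.prod_range_succ, hzl, Finset.prod_congr rfl hzm, Finset.prod_div_distrib, hX,
        Finset.prod_inv_distrib]
      have h2 : (∏ k ∈ Finset.range m, J k i) ≠ 0 :=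
        (Finset.prod_pos fun k hk => hJ k (Finset.mem_range.1 hk) i hi).ne'
      have h3 : (∏ k ∈ Finset.range m, x k) ≠ 0 := hX0.ne'
      field_simp
    rw [Real.finsetProd_rpow _ _ hz0, hprod, Real.one_rpow, ← Finset.mul_sum,
      Finset.sum_range_succ, hzl, Finset.sum_congr rfl hzm] at h1
    exact h1
  have hsum2 := Finset.sum_le_sum key
  rw [← Finset.mul_sum, Finset.sum_add_distrib, Finset.sum_comm, ← Finset.sum_mul] at hsum2
  have e1 : ∑ k ∈ Finset.range m, ∑ i ∈ A, J k i / x k = m * a := by
    have : ∀ k ∈ Finset.range m, ∑ i ∈ A, J k i / x k = a := by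
      intro k hk
      rw [← Finset.sum_div]
      have h3 := hWpos k (Finset.mem_range.1 hk)
      show W k / (W k / a) = a
      field_simp
    rw [Finset.sum_congr rfl this, Finset.sum_const, Finset.card_range, nsmul_eq_mul]
  rw [e1, Finset.sum_const, nsmul_eq_mul, mul_one, ← hadef] at hsum2
  have h4 : a ≤ X := by
    have h5 : (∑ i ∈ A, ∏ k ∈ Finset.range m, (J k i)⁻¹) * X ≤ 1 * X :=
      mul_le_mul_of_nonneg_right hsum hX0.le
    have h6 : a ≤ 1 / ((m : ℝ) + 1) * (m * a + X) := by
      refine hsum2.trans ?_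
      gcongr
      linarith
    have h7 : a * ((m : ℝ) + 1) ≤ m * a + X := by
      have := mul_le_mul_of_nonneg_right h6 hm0.le
      calc _ ≤ _ := this
        _ = m * a + X := by field_simp
    linarith
  have h8 : X = (∏ k ∈ Finset.range m, W k) / a ^ m := by
    rw [hX]
    simp only [hx]
    rw [Finset.prod_div_distrib, Finset.prod_const, Finset.card_range]
  rw [h8, le_div_iff₀ (by positivity)] at h4
  calc a ^ (m + 1) = a * a ^ m := by ring
    _ ≤ _ := h4

/-- The number of the elements is bounded by the sums of the numbers of labels. -/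
theorem card_pow_le {ι α : Type*} (m : ℕ) (A : Finset ι) (lam : ℕ → ι → α)
    (h : ∀ i ∈ A, ∀ j ∈ A, (∀ l, l < m → lam l i = lam l j) → i = j) :
    (A.card : ℝ) ^ (m + 1) ≤ ∏ k ∈ Finset.range m, ∑ i ∈ A, (cnt A lam k i : ℝ) := by
  classical
  refine amgm m A (fun k i => (cnt A lam k i : ℝ)) ?_ (leaf_sum m A lam h)
  intro k _ i hi
  have : 0 < cnt A lam k i := by
    unfold cnt
    rw [Finset.card_pos]
    exact ⟨lam k i, Finset.mem_image_of_mem _ (Finset.mem_filter.2 ⟨hi, fun _ _ => rfl⟩)⟩
  show (0 : ℝ) < (cnt A lam k i : ℝ)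
  exact_mod_cast this

end Pool.Agent.Q86.Ks
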