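import Pool.Agent.W772.Tri5

set_option autoImplicit false

/-! Volumes of the parts of boxes in slabs, and separation of the normals. -/

open MeasureTheory Set Filter Topology ENNReal NNReal Metric

namespace Pool.Agent.Q86.Ks

open Pool.Agent.H810R3.Tub Pool.Agent.W772

variable {d : ℕ}

/-- the volume of the part of a box in a slab -/
theorem vol_slab {N w : ℝ} (hN : 1 ≤ N) (hw : 0 < w) {e : Space d} {f : Fin d → Space d}
    (h : Orthonormal ℝ (Fin.cons e f : Fin (d + 1) → Space d)) (a ν : Space d) (t : ℝ) :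
    volume {y | y ∈ box N e f a ∧ |inner ℝ ν y - t| ≤ w} ≤
      ENNReal.ofReal (6 * N ^ (d + 2) / (1 + N ^ 2 * |inner ℝ ν e| / (3 * w))) := by
  have hN0 : 0 < N := by linarith
  set x : ℝ := |inner ℝ ν e| with hx
  have hx0 : 0 ≤ x := abs_nonneg _
  set E : Set (Space d) := {y | y ∈ box N e f a ∧ |inner ℝ ν y - t| ≤ w} with hE
  have hcont : Continuous fun y : Space d => |(inner ℝ ν y : ℝ) - t| := by fun_prop
  have hEc : IsClosed E := (box_closed N e f a).inter (isClosed_le hcont continuous_const)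
  have hEbox : volume E ≤ ENNReal.ofReal (N ^ (d + 2)) := by
    rw [← vol_box hN h a]
    exact measure_mono fun y hy => hy.1
  rcases hx0.eq_or_lt with hxz | hxp
  · rw [← hxz]
    refine hEbox.trans (ENNReal.ofReal_le_ofReal ?_)
    simp only [mul_zero, zero_div, add_zero, div_one]
    have : 0 ≤ N ^ (d + 2) := by positivity
    linarith
  set τ : ℝ := 3 * w / x with hτ
  have hτ0 : 0 < τ := by positivity
  set Q : ℕ := ⌊N ^ 2 / τ⌋₊ with hQ
  have hQle : (Q : ℝ) ≤ N ^ 2 / τ := Nat.floor_le (by positivity)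
  have hQlt : N ^ 2 / τ < Q + 1 := Nat.lt_floor_add_one _
  have hne : ‖e‖ = 1 := norm_e h
  set T : ℕ → Set (Space d) := fun q => (fun y => y + (-((q : ℝ) * τ)) • e) ⁻¹' E with hT
  have hTvol : ∀ q, volume (T q) = volume E := fun q => measure_preimage_add_right _ _ _
  have hTm : ∀ q, MeasurableSet (T q) := fun q =>
    (hEc.preimage (by fun_prop)).measurableSet
  have hdisj : ((Finset.range (Q + 1) : Finset ℕ) : Set ℕ).PairwiseDisjoint T := by
    intro q _ q' _ hqq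
    rw [Function.onFun, Set.disjoint_left]
    intro y hy hy'
    have h1 : |inner ℝ ν (y + (-((q : ℝ) * τ)) • e) - t| ≤ w := hy.2
    have h2 : |inner ℝ ν (y + (-((q' : ℝ) * τ)) • e) - t| ≤ w := hy'.2
    rw [inner_add_right, inner_smul_right] at h1 h2
    have h3 : |((q : ℝ) - q') * τ * inner ℝ ν e| ≤ 2 * w := by
      have e1 : ((q : ℝ) - q') * τ * inner ℝ ν e =
          (inner ℝ ν y + (-((q' : ℝ) * τ)) * inner ℝ ν e - t) -
            (inner ℝ ν y + (-((q : ℝ) * τ)) * inner ℝ ν e - t) := by ring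
      rw [e1]
      refine (abs_sub _ _).trans ?_
      linarith
    rw [abs_mul, abs_mul, abs_of_pos hτ0, ← hx] at h3
    have h4 : (1 : ℝ) ≤ |(q : ℝ) - q'| := by
      have h5 : ((q : ℤ) - (q' : ℤ)) ≠ 0 := by
        intro h6
        apply hqq
        have : (q : ℤ) = q' := by linarith
        exact_mod_cast this
      have h6 := Int.one_le_abs h5
      have h7 : ((|(q : ℤ) - (q' : ℤ)| : ℤ) : ℝ) = |(q : ℝ) - q'| := by push_cast; rfl
      rw [← h7]
      exact_mod_cast h6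
    have h8 : τ * x = 3 * w := by
      rw [hτ]; field_simp
    have h9 : 3 * w ≤ |(q : ℝ) - q'| * τ * x := by
      rw [mul_assoc, h8]
      nlinarith
    linarith
  have hsub : (⋃ q ∈ Finset.range (Q + 1), T q) ⊆
      box N e f a ∪ box N e f (a + (N ^ 2) • e) := by
    intro y hy
    obtain ⟨q, hq, hy⟩ := mem_iUnion₂.1 hy
    have hq1 : (q : ℝ) * τ ≤ N ^ 2 := by
      have h1 : (q : ℝ) ≤ Q := by
        have := Finset.mem_range.1 hq
        exact_mod_cast Nat.lt_succ_iff.1 this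
      have h2 : (q : ℝ) ≤ N ^ 2 / τ := h1.trans hQle
      rwa [le_div_iff₀ hτ0] at h2
    have hq0 : 0 ≤ (q : ℝ) * τ := by positivity
    have hb : y + (-((q : ℝ) * τ)) • e ∈ box N e f a := hy.1
    obtain ⟨hb1, hb2⟩ := hb
    have e1 : y + (-((q : ℝ) * τ)) • e - a = (y - a) + (-((q : ℝ) * τ)) • e := by abel
    have hee : (inner ℝ e e : ℝ) = 1 := by rw [real_inner_self_eq_norm_sq, hne]; norm_num
    have hfe : ∀ j, (inner ℝ (f j) e : ℝ) = 0 := by
      intro j
      have := h.2 (show (j.succ : Fin (d + 1)) ≠ 0 from Fin.succ_ne_zero j)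
      simpa using this
    rw [e1, inner_add_right, inner_smul_right, hee, mul_one] at hb1
    have hb2' : ∀ j, |(inner ℝ (f j) (y - a) : ℝ)| ≤ N / 2 := by
      intro j
      have := hb2 j
      rw [e1, inner_add_right, inner_smul_right, hfe j, mul_zero, add_zero] at this
      exact this
    have hb1' := abs_le.1 hb1
    rcases le_or_gt (inner ℝ e (y - a)) (N ^ 2 / 2) with hc | hc
    · left
      refine ⟨?_, hb2'⟩
      rw [abs_le]
      constructor <;> linarith
    · right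
      have e2 : y - (a + (N ^ 2) • e) = (y - a) - (N ^ 2) • e := by abel
      refine ⟨?_, fun j => ?_⟩
      · rw [e2, inner_sub_right, inner_smul_right, hee, mul_one, abs_le]
        constructor <;> linarith
      · rw [e2, inner_sub_right, inner_smul_right, hfe j, mul_zero, sub_zero]
        exact hb2' j
  have hsum : ((Q + 1 : ℕ) : ℝ≥0∞) * volume E ≤ ENNReal.ofReal (2 * N ^ (d + 2)) := by
    calc ((Q + 1 : ℕ) : ℝ≥0∞) * volume E = ∑ q ∈ Finset.range (Q + 1), volume (T q) := by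
          rw [Finset.sum_congr rfl fun q _ => hTvol q, Finset.sum_const, Finset.card_range,
            nsmul_eq_mul]
      _ = volume (⋃ q ∈ Finset.range (Q + 1), T q) :=
          (measure_biUnion_finset hdisj fun q _ => hTm q).symm
      _ ≤ volume (box N e f a ∪ box N e f (a + (N ^ 2) • e)) := measure_mono hsub
      _ ≤ volume (box N e f a) + volume (box N e f (a + (N ^ 2) • e)) := measure_union_le _ _
      _ = ENNReal.ofReal (2 * N ^ (d + 2)) := by
          rw [vol_box hN h, vol_box hN h, ← ENNReal.ofReal_add (by positivity) (by positivity)]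
          congr 1
          ring
  have hEfin : volume E ≠ ∞ := ne_top_of_le_ne_top ENNReal.ofReal_ne_top hEbox
  set V : ℝ := (volume E).toReal with hV
  have hVE : volume E = ENNReal.ofReal V := (ENNReal.ofReal_toReal hEfin).symm
  have hV0 : 0 ≤ V := ENNReal.toReal_nonneg
  rw [hVE, ← ENNReal.ofReal_natCast, ← ENNReal.ofReal_mul (Nat.cast_nonneg _),
    ENNReal.ofReal_le_ofReal_iff (by positivity)] at hsum
  push_cast at hsum
  rw [hVE]
  apply ENNReal.ofReal_le_ofReal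
  have hden : 0 < 1 + N ^ 2 * x / (3 * w) := by positivity
  rw [le_div_iff₀ hden]
  have e5 : N ^ 2 * x / (3 * w) = N ^ 2 / τ := by
    rw [hτ]; field_simp
  rw [e5]
  have h10 : V * (1 + N ^ 2 / τ) ≤ V * (2 * ((Q : ℝ) + 1)) := by
    apply mul_le_mul_of_nonneg_left _ hV0
    have : (0 : ℝ) ≤ Q := Nat.cast_nonneg _
    linarith
  have h11 : 0 ≤ N ^ (d + 2) := by positivity
  nlinarith

/-- The slab bound with the width `K N`. -/
theorem vol_slab' {N K : ℝ} (hN : 1 ≤ N) (hK : 1 ≤ K) {e : Space d} {f : Fin d → Space d}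
    (h : Orthonormal ℝ (Fin.cons e f : Fin (d + 1) → Space d)) (a ν : Space d) (t : ℝ) :
    volume {y | y ∈ box N e f a ∧ |inner ℝ ν y - t| ≤ K * N} ≤
      ENNReal.ofReal (18 * K * N ^ (d + 2) * (1 / (1 + N * |inner ℝ ν e|))) := by
  have hN0 : 0 < N := by linarith
  refine (vol_slab hN (show 0 < K * N by positivity) h a ν t).trans (ENNReal.ofReal_le_ofReal ?_)
  set x : ℝ := |inner ℝ ν e| with hx
  have hx0 : 0 ≤ x := abs_nonneg _
  have e1 : N ^ 2 * x / (3 * (K * N)) = N * x / (3 * K) := by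
    field_simp
  rw [e1, mul_one_div, div_le_div_iff₀ (by positivity) (by positivity)]
  have h1 : 18 * K * N ^ (d + 2) * (1 + N * x / (3 * K)) = N ^ (d + 2) * (18 * K + 6 * (N * x)) := by
    field_simp
    ring
  rw [h1]
  have h2 : 0 ≤ N ^ (d + 2) := by positivity
  have h3 : 0 ≤ N * x := by positivity
  nlinarith [mul_nonneg h2 (show (0 : ℝ) ≤ 18 * K - 6 by linarith)]

theorem norm_nor (ω : Vec d) : ‖nor ω‖ = 1 := norm_dir _

theorem nor_fst (ω : Vec d) : (nor ω).fst = (nor ω).snd • (-(2 : ℝ) • ω) := by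
  have hn1 : (nor ω).fst = (√(1 + ‖-(2 : ℝ) • ω‖ ^ 2))⁻¹ • (-(2 : ℝ) • ω) := rfl
  have hn2 : (nor ω).snd = (√(1 + ‖-(2 : ℝ) • ω‖ ^ 2))⁻¹ * 1 := rfl
  rw [hn1, hn2, mul_one]

theorem nor_snd {ω : Vec d} (hω : ‖ω‖ ≤ 1) : 2 / 5 ≤ (nor ω).snd := by
  have hn2 : (nor ω).snd = (√(1 + ‖-(2 : ℝ) • ω‖ ^ 2))⁻¹ * 1 := rfl
  rw [hn2, mul_one]
  have h1 : ‖-(2 : ℝ) • ω‖ = 2 * ‖ω‖ := by
    rw [norm_smul, norm_neg]; norm_num
  rw [h1]
  have h2 : √(1 + (2 * ‖ω‖) ^ 2) ≤ 5 / 2 := by
    rw [show (5 / 2 : ℝ) = √((5 / 2) ^ 2) by rw [Real.sqrt_sq (by norm_num)]]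
    apply Real.sqrt_le_sqrt
    nlinarith [norm_nonneg ω]
  have h3 : 0 < √(1 + (2 * ‖ω‖) ^ 2) := Real.sqrt_pos.2 (by positivity)
  rw [show (2 / 5 : ℝ) = (5 / 2 : ℝ)⁻¹ by norm_num]
  exact inv_anti₀ h3 h2

/-- The normals are as far from each other as the centres of the caps. -/
theorem nor_sep {ω ω' : Vec d} (hω : ‖ω‖ ≤ 1) (hω' : ‖ω'‖ ≤ 1) :
    ‖ω - ω'‖ ≤ 4 * ‖nor ω - nor ω'‖ := by
  set h := (nor ω).snd with hh
  set h' := (nor ω').snd with hh'
  have h0 : 2 / 5 ≤ h := nor_snd hω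
  set D := nor ω - nor ω' with hD
  have hsq := norm_space_sq D
  have hD1 : ‖D.fst‖ ≤ ‖D‖ := by
    apply le_of_sq_le_sq _ (norm_nonneg _)
    nlinarith [sq_nonneg D.snd]
  have hD2 : |D.snd| ≤ ‖D‖ := by
    apply le_of_sq_le_sq _ (norm_nonneg _)
    rw [sq_abs]
    nlinarith [sq_nonneg ‖D.fst‖]
  have e1 : D.fst = h • (-(2 : ℝ) • ω) - h' • (-(2 : ℝ) • ω') := by
    show (nor ω).fst - (nor ω').fst = _
    rw [nor_fst ω, nor_fst ω']
  have e2 : D.snd = h - h' := rfl
  have e3 : h • (ω - ω') = (-(1 / 2) : ℝ) • D.fst - D.snd • ω' := by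
    rw [e1, e2]
    module
  have h1 : h * ‖ω - ω'‖ ≤ 1 / 2 * ‖D‖ + ‖D‖ * 1 := by
    calc h * ‖ω - ω'‖ = ‖h • (ω - ω')‖ := by
          rw [norm_smul, Real.norm_of_nonneg (by linarith)]
      _ ≤ ‖(-(1 / 2) : ℝ) • D.fst‖ + ‖D.snd • ω'‖ := by rw [e3]; exact norm_sub_le _ _
      _ ≤ 1 / 2 * ‖D‖ + ‖D‖ * 1 := by
          rw [norm_smul, norm_smul, Real.norm_eq_abs, Real.norm_eq_abs, abs_neg,
            abs_of_pos (by norm_num : (0 : ℝ) < 1 / 2)]
          have := norm_nonneg D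
          have h3 := norm_nonneg ω'
          have h4 := abs_nonneg D.snd
          nlinarith [mul_nonneg (sub_nonneg.2 hD2) h3]
  have h5 := norm_nonneg (ω - ω')
  nlinarith [norm_nonneg D]

theorem nor_lip (ω ω' : Vec d) : ‖nor ω - nor ω'‖ ≤ 2 * ‖ω - ω'‖ := by
  refine (dir_sub_le _ _).trans (le_of_eq ?_)
  rw [← smul_sub, norm_smul, norm_neg]
  norm_num

/-- Two boxes: one is contained in a slab which is transversal to the other. -/
theorem pair_slab {N : ℝ} (hN : 1 ≤ N) {ω ω' : Vec d} (hω : ‖ω‖ ≤ 1) (hω' : ‖ω'‖ ≤ 1)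
    {f : Fin d → Space d} (h : Orthonormal ℝ (Fin.cons (nor ω) f : Fin (d + 1) → Space d))
    (a : Space d) : ∃ ν : Space d, box N (nor ω) f a ⊆ {y | |inner ℝ ν y - inner ℝ ν a| ≤ d * N} ∧
      ‖ω - ω'‖ ≤ 10 * |inner ℝ ν (nor ω')| := by
  have hN0 : 0 < N := by linarith
  have hd0 : (0 : ℝ) ≤ d := Nat.cast_nonneg d
  set e := nor ω with he
  set e' := nor ω' with he'
  have hne : ‖e‖ = 1 := norm_nor ω
  have hne' : ‖e'‖ = 1 := norm_nor ω'
  set c : ℝ := inner ℝ e e' with hc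
  set g : Space d := e' - c • e with hg
  have hge : (inner ℝ g e : ℝ) = 0 := by
    rw [hg, inner_sub_left, inner_smul_left, real_inner_self_eq_norm_sq, hne, real_inner_comm]
    simp [hc]
  have hgg : ‖g‖ ^ 2 = 1 - c ^ 2 := by
    rw [hg, @norm_sub_sq_real, norm_smul, inner_smul_right, real_inner_comm, hne, hne',
      Real.norm_eq_abs, mul_one, sq_abs]
    show (1 : ℝ) ^ 2 - 2 * (c * c) + c ^ 2 = _
    ring
  have hge' : (inner ℝ g e' : ℝ) = 1 - c ^ 2 := by
    rw [hg, inner_sub_left, inner_smul_left, real_inner_self_eq_norm_sq, hne']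
    simp [← hc]
    ring
  have hc1 : ‖e - e'‖ ^ 2 = 2 * (1 - c) := by
    rw [@norm_sub_sq_real, hne, hne', ← hc]
    ring
  have hc2 : ‖e + e'‖ ^ 2 = 2 * (1 + c) := by
    rw [@norm_add_sq_real, hne, hne', ← hc]
    ring
  have hc3 : 16 / 25 ≤ ‖e + e'‖ ^ 2 := by
    have h1 := norm_space_sq (e + e')
    have h2 : (e + e').snd = e.snd + e'.snd := rfl
    have h3 := nor_snd hω
    have h4 := nor_snd hω'
    rw [h2] at h1
    rw [h1]
    nlinarith [sq_nonneg ‖(e + e').fst‖]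
  have hc4 : 8 / 25 ≤ 1 + c := by linarith
  have hlow : ‖ω - ω'‖ ^ 2 ≤ 100 * (1 - c ^ 2) / 1 := by
    have h1 := nor_sep hω hω'
    have h2 : ‖ω - ω'‖ ^ 2 ≤ 16 * ‖e - e'‖ ^ 2 := by
      have := norm_nonneg (ω - ω')
      have h3 := norm_nonneg (e - e')
      nlinarith
    rw [hc1] at h2
    have h5 : 0 ≤ 1 - c := by
      have := sq_nonneg ‖e - e'‖
      linarith
    have h6 : (1 - c) * (8 / 25) ≤ (1 - c) * (1 + c) := mul_le_mul_of_nonneg_left hc4 h5
    nlinarith
  rcases eq_or_ne g 0 with hg0 | hg0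
  · refine ⟨0, ?_, ?_⟩
    · intro y _
      simp only [mem_ofPred_eq, inner_zero_left, sub_zero, abs_zero]
      positivity
    · have h1 : 1 - c ^ 2 = 0 := by rw [← hgg, hg0]; simp
      rw [h1] at hlow
      have h2 : ‖ω - ω'‖ = 0 := by
        have := norm_nonneg (ω - ω')
        nlinarith
      rw [h2]
      positivity
  · have hgp : 0 < ‖g‖ := norm_pos_iff.2 hg0
    refine ⟨(‖g‖⁻¹) • g, ?_, ?_⟩
    · intro y hy
      rw [mem_ofPred_eq, ← inner_sub_right, inner_smul_left]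
      have hperp := box_perp hN h hy
      have h1 : (inner ℝ g (y - a) : ℝ) = inner ℝ g ((y - a) - (inner ℝ e (y - a) : ℝ) • e) := by
        rw [inner_sub_right g (y - a), inner_smul_right, hge, mul_zero, sub_zero]
      rw [h1]
      have h2 := abs_real_inner_le_norm g ((y - a) - (inner ℝ e (y - a) : ℝ) • e)
      rw [abs_mul]
      have h3 : |(starRingEnd ℝ) (‖g‖⁻¹)| = ‖g‖⁻¹ := by
        simp
      rw [h3]
      calc ‖g‖⁻¹ * |inner ℝ g ((y - a) - (inner ℝ e (y - a) : ℝ) • e)|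
          ≤ ‖g‖⁻¹ * (‖g‖ * (d * N / 2)) := by
            apply mul_le_mul_of_nonneg_left _ (by positivity)
            exact h2.trans (mul_le_mul_of_nonneg_left hperp hgp.le)
        _ = d * N / 2 := by field_simp
        _ ≤ d * N := by nlinarith [mul_nonneg hd0 hN0.le]
    · rw [inner_smul_left, hge', ← hgg]
      have h1 : (starRingEnd ℝ) (‖g‖⁻¹) * ‖g‖ ^ 2 = ‖g‖ := by
        simp
        field_simp
      rw [h1, abs_of_pos hgp]
      apply le_of_sq_le_sq _ (by positivity)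
      rw [mul_pow, hgg]
      nlinarith

end Pool.Agent.Q86.Ks
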