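import Pool.Agent.Q86.KsB

set_option autoImplicit false

/-! Counting caps whose normals are almost orthogonal to given vectors. -/

open MeasureTheory Set Filter Topology ENNReal NNReal Metric

namespace Pool.Agent.Q86.Ks

open Pool.Agent.H810R3.Tub Pool.Agent.W772

variable {d : ℕ}

theorem prod_three (k : ℕ) (D S Z : ℝ) (q : ℕ) :
    ∏ l ∈ Finset.range (k + q + 1), (if l < k then D else if l = k then S else Z) = D ^ k * S * Z ^ q := by
  induction q with
  | zero =>
    rw [add_zero, Finset.prod_range_succ, if_neg (lt_irrefl k), if_pos rfl, pow_zero, mul_one]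
    congr 1
    rw [Finset.prod_congr rfl (g := fun _ => D) (fun l hl => if_pos (Finset.mem_range.1 hl)),
      Finset.prod_const, Finset.card_range]
  | succ q ih =>
    rw [show k + (q + 1) + 1 = (k + q + 1) + 1 by ring, Finset.prod_range_succ, ih,
      if_neg (by omega), if_neg (by omega), pow_succ]
    ring

theorem floor_abs_le {x y B : ℝ} (h : |x| ≤ B) (hy : y = x) : |((⌊y⌋ : ℤ) : ℝ)| ≤ B + 1 := by
  subst hy
  have h1 := Int.floor_le y
  have h2 := Int.lt_floor_add_one y
  have h3 := abs_le.1 h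
  rw [abs_le]
  constructor <;> linarith

theorem count_cells {N σ A : ℝ} (hN : 1 ≤ N) (hσ : 0 < σ) (hσ1 : σ ≤ 1) (hA : 1 ≤ A)
    {ι : Type} (ω : ι → Vec d) (hω : ∀ i, ‖ω i‖ ≤ 1)
    (hsep : ∀ i j, i ≠ j → σ / N ≤ ‖ω i - ω j‖)
    (b : OrthonormalBasis (Fin (d + 1)) ℝ (Space d)) (kf : Fin (d + 1)) (c : Finset ι)
    (hc : ∀ l : Fin (d + 1), l.val < kf.val → ∀ j ∈ c, |inner ℝ (b l) (nor (ω j))| ≤ A / N)
    (G : ℤ → ℝ) (hG : ∀ z, 0 ≤ G z) (g : ι → ℝ) {Q : ℝ} (hQ : Q = 16 * (d + 1) / σ) {M : ℕ}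
    (hM : M = ⌈Q * N + 1⌉₊)
    (hg : ∀ j ∈ c, ∀ s : ℝ, 1 ≤ s → s ≤ 2 → g j ≤ G ⌊s * inner ℝ (b kf) (nor (ω j)) * (Q * N) / 2⌋) :
    N * ∑ j ∈ c, g j ≤ (3 * Q * A) ^ d * N ^ (d - kf.val) *
      ∑ z ∈ Finset.Icc (-(M : ℤ)) M, G z := by
  classical
  have hN0 : 0 < N := by linarith
  have hd0 : (0 : ℝ) ≤ d := Nat.cast_nonneg d
  have hQ16 : 16 ≤ Q := by
    rw [hQ, le_div_iff₀ hσ]
    nlinarith
  have hQ0 : 0 < Q := by linarith
  set ρ : ℝ := 2 / (Q * N) with hρ
  have hρ0 : 0 < ρ := by positivity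
  set n : ℕ := ⌈N⌉₊ with hn
  have hnN : N ≤ n := Nat.le_ceil _
  have hn0 : (0 : ℝ) < n := by linarith
  have hn2 : (n : ℝ) ≤ 2 * N := by
    have := Nat.ceil_lt_add_one hN0.le
    linarith
  set x : ι × ℕ → Space d := fun p => (1 + (p.2 : ℝ) / n) • nor (ω p.1) with hx
  set z : ι × ℕ → Fin (d + 1) → ℤ := fun p => cell ρ (b.repr (x p)) with hz
  have hzl : ∀ p l, z p l = ⌊(1 + (p.2 : ℝ) / n) * inner ℝ (b l) (nor (ω p.1)) * (Q * N) / 2⌋ := by
    intro p l
    simp only [hz, cell]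
    congr 1
    rw [OrthonormalBasis.repr_apply_apply]
    simp only [hx]
    rw [inner_smul_right, hρ]
    field_simp
  set P : Finset (ι × ℕ) := c ×ˢ Finset.range (n + 1) with hP
  have hs : ∀ p ∈ P, 1 ≤ 1 + (p.2 : ℝ) / n ∧ 1 + (p.2 : ℝ) / n ≤ 2 := by
    intro p hp
    have h1 := (Finset.mem_product.1 hp).2
    have h2 : (p.2 : ℝ) ≤ n := by
      have := Finset.mem_range.1 h1
      exact_mod_cast Nat.lt_succ_iff.1 this
    have h3 : (p.2 : ℝ) / n ≤ 1 := (div_le_one hn0).2 h2
    have h4 : 0 ≤ (p.2 : ℝ) / n := by positivity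
    constructor <;> linarith
  have hnx : ∀ p, ‖x p‖ = 1 + (p.2 : ℝ) / n := by
    intro p
    simp only [hx]
    rw [norm_smul, norm_nor, mul_one, Real.norm_of_nonneg (by positivity)]
  have hinj : Set.InjOn z (P : Set (ι × ℕ)) := by
    intro p hp p' hp' hzz
    have h1 : ‖b.repr (x p) - b.repr (x p')‖ ≤ ((d + 1 : ℕ) : ℝ) * ρ := cell_close hρ0 hzz
    rw [← map_sub, LinearIsometryEquiv.norm_map] at h1
    have h2 : ((d + 1 : ℕ) : ℝ) * ρ = σ / (8 * N) := by
      rw [hρ, hQ]
      push_cast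
      field_simp
      ring
    rw [h2] at h1
    have h3 : p.2 = p'.2 := by
      by_contra hne
      have h4 : |‖x p‖ - ‖x p'‖| ≤ ‖x p - x p'‖ := abs_norm_sub_norm_le _ _
      rw [hnx, hnx] at h4
      have h5 : (1 : ℝ) ≤ |(p.2 : ℝ) - p'.2| := by
        have h6 : ((p.2 : ℤ) - (p'.2 : ℤ)) ≠ 0 := by
          intro h7
          apply hne
          have : (p.2 : ℤ) = p'.2 := by linarith
          exact_mod_cast this
        have h7 := Int.one_le_abs h6
        have h8 : ((|(p.2 : ℤ) - (p'.2 : ℤ)| : ℤ) : ℝ) = |(p.2 : ℝ) - p'.2| := by push_cast; rfl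
        rw [← h8]
        exact_mod_cast h7
      have h6 : 1 + (p.2 : ℝ) / n - (1 + (p'.2 : ℝ) / n) = ((p.2 : ℝ) - p'.2) / n := by ring
      rw [h6, abs_div, abs_of_pos hn0] at h4
      have h7 : 1 / (2 * N) ≤ |(p.2 : ℝ) - p'.2| / n :=
        (div_le_div₀ (by positivity) h5 hn0 hn2)
      have h8 : σ / (8 * N) < 1 / (2 * N) := by
        rw [div_lt_div_iff₀ (by positivity) (by positivity)]
        nlinarith
      linarith
    by_contra hne
    have h4 : p.1 ≠ p'.1 := fun h => hne (Prod.ext h h3)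
    have h5 := hsep _ _ h4
    have h6 := nor_sep (hω p.1) (hω p'.1)
    have h7 : x p - x p' = (1 + (p.2 : ℝ) / n) • (nor (ω p.1) - nor (ω p'.1)) := by
      simp only [hx]
      rw [h3, smul_sub]
    have h8 : ‖nor (ω p.1) - nor (ω p'.1)‖ ≤ ‖x p - x p'‖ := by
      rw [h7, norm_smul, Real.norm_of_nonneg (by positivity)]
      have := (hs p hp).1
      have h9 := norm_nonneg (nor (ω p.1) - nor (ω p'.1))
      nlinarith
    have h9 : σ / (8 * N) = σ / N / 8 := by
      field_simp
    rw [h9] at h1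
    have h10 : 0 < σ / N := by positivity
    linarith
  set B : ℕ := ⌈Q * A + 1⌉₊ with hB
  set t : Fin (d + 1) → Finset ℤ := fun l =>
    if l.val < kf.val then Finset.Icc (-(B : ℤ)) B else Finset.Icc (-(M : ℤ)) M with ht
  have habs : ∀ l, ∀ j : ι, |(inner ℝ (b l) (nor (ω j)) : ℝ)| ≤ 1 := by
    intro l j
    refine (abs_real_inner_le_norm _ _).trans ?_
    rw [b.norm_eq_one, norm_nor, one_mul]
  have hmem : ∀ p ∈ P, z p ∈ Fintype.piFinset t := by
    intro p hp
    rw [Fintype.mem_piFinset]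
    intro l
    have hs1 := hs p hp
    have hpc : p.1 ∈ c := (Finset.mem_product.1 hp).1
    by_cases hl : l.val < kf.val
    · simp only [ht, if_pos hl]
      have h1 : |(1 + (p.2 : ℝ) / n) * inner ℝ (b l) (nor (ω p.1)) * (Q * N) / 2| ≤ Q * A := by
        rw [abs_div, abs_mul, abs_mul, abs_of_pos (by positivity : 0 < Q * N),
          abs_of_pos (by linarith [hs1.1] : (0 : ℝ) < 1 + (p.2 : ℝ) / n),
          abs_of_pos (by norm_num : (0 : ℝ) < 2)]
        have h2 := hc l hl p.1 hpc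
        rw [div_le_iff₀ (by norm_num)]
        calc (1 + (p.2 : ℝ) / n) * |inner ℝ (b l) (nor (ω p.1))| * (Q * N)
            ≤ 2 * (A / N) * (Q * N) := by
              have := abs_nonneg (inner ℝ (b l) (nor (ω p.1)) : ℝ)
              gcongr
              · exact hs1.2
          _ = Q * A * 2 := by field_simp
      have h2 := floor_abs_le h1 rfl
      rw [← hzl] at h2
      have h3 : |((z p l : ℤ) : ℝ)| ≤ B := h2.trans (Nat.le_ceil _)
      have h4 := abs_le.1 h3
      rw [Finset.mem_Icc]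
      exact ⟨by exact_mod_cast h4.1, by exact_mod_cast h4.2⟩
    · simp only [ht, if_neg hl]
      have h1 : |(1 + (p.2 : ℝ) / n) * inner ℝ (b l) (nor (ω p.1)) * (Q * N) / 2| ≤ Q * N := by
        rw [abs_div, abs_mul, abs_mul, abs_of_pos (by positivity : 0 < Q * N),
          abs_of_pos (by linarith [hs1.1] : (0 : ℝ) < 1 + (p.2 : ℝ) / n),
          abs_of_pos (by norm_num : (0 : ℝ) < 2)]
        have h2 := habs l p.1
        rw [div_le_iff₀ (by norm_num)]
        calc (1 + (p.2 : ℝ) / n) * |inner ℝ (b l) (nor (ω p.1))| * (Q * N)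
            ≤ 2 * 1 * (Q * N) := by
              have := abs_nonneg (inner ℝ (b l) (nor (ω p.1)) : ℝ)
              gcongr
              · exact hs1.2
          _ = Q * N * 2 := by ring
      have h2 := floor_abs_le h1 rfl
      rw [← hzl] at h2
      have h3 : |((z p l : ℤ) : ℝ)| ≤ M := by
        rw [hM]
        exact h2.trans (Nat.le_ceil _)
      have h4 := abs_le.1 h3
      rw [Finset.mem_Icc]
      exact ⟨by exact_mod_cast h4.1, by exact_mod_cast h4.2⟩
  -- the sum
  have h1 : ((n : ℝ) + 1) * ∑ j ∈ c, g j ≤ ∑ p ∈ P, G (z p kf) := by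
    have e1 : ((n : ℝ) + 1) * ∑ j ∈ c, g j = ∑ p ∈ P, g p.1 := by
      rw [hP, Finset.sum_product]
      simp only [Finset.sum_const, Finset.card_range, nsmul_eq_mul]
      rw [← Finset.mul_sum]
      push_cast
      ring
    rw [e1]
    refine Finset.sum_le_sum fun p hp => ?_
    have h2 := hg p.1 (Finset.mem_product.1 hp).1 _ (hs p hp).1 (hs p hp).2
    rw [hzl]
    exact h2
  have h2 : ∑ p ∈ P, G (z p kf) ≤ ∑ y ∈ Fintype.piFinset t, G (y kf) := by
    rw [← Finset.sum_image (f := fun y : Fin (d + 1) → ℤ => G (y kf)) hinj]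
    apply Finset.sum_le_sum_of_subset_of_nonneg
    · intro y hy
      obtain ⟨p, hp, rfl⟩ := Finset.mem_image.1 hy
      exact hmem p hp
    · intro y _ _
      exact hG _
  set S : ℝ := ∑ y ∈ Finset.Icc (-(M : ℤ)) M, G y with hS
  have hS0 : 0 ≤ S := Finset.sum_nonneg fun y _ => hG y
  have h3 : ∑ y ∈ Fintype.piFinset t, G (y kf) =
      ∏ l, ∑ y ∈ t l, (if l = kf then G y else 1) := by
    rw [Finset.prod_univ_sum]
    refine Finset.sum_congr rfl fun y _ => ?_
    rw [Finset.prod_eq_single kf]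
    · rw [if_pos rfl]
    · intro l _ hl
      rw [if_neg hl]
    · intro h
      exact absurd (Finset.mem_univ _) h
  have hQA : 1 ≤ Q * A := by nlinarith
  set D : ℝ := 3 * Q * A with hD
  have hD0 : 0 < D := by positivity
  have hcardB : ((Finset.Icc (-(B : ℤ)) B).card : ℝ) ≤ D := by
    rw [Int.card_Icc]
    have e : ((((B : ℤ) + 1 - -(B : ℤ)).toNat : ℤ) : ℝ) = ((B : ℤ) + 1 - -(B : ℤ) : ℤ) := by
      rw [Int.toNat_of_nonneg (by omega)]
    rw [Int.cast_natCast] at e
    rw [e]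
    push_cast
    have h5 : (B : ℝ) < Q * A + 1 + 1 := Nat.ceil_lt_add_one (by positivity)
    have h6 : 16 ≤ Q * A := by nlinarith
    rw [hD]
    linarith
  have hcardM : ((Finset.Icc (-(M : ℤ)) M).card : ℝ) ≤ D * N := by
    rw [Int.card_Icc]
    have e : ((((M : ℤ) + 1 - -(M : ℤ)).toNat : ℤ) : ℝ) = ((M : ℤ) + 1 - -(M : ℤ) : ℤ) := by
      rw [Int.toNat_of_nonneg (by omega)]
    rw [Int.cast_natCast] at e
    rw [e]
    push_cast
    have h5 : (M : ℝ) < Q * N + 1 + 1 := by
      rw [hM]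
      exact Nat.ceil_lt_add_one (by positivity)
    have h6 : 16 ≤ Q * N := by nlinarith
    have h7 : D * N = 3 * (Q * N) * A := by rw [hD]; ring
    rw [h7]
    nlinarith
  have h4 : ∏ l, ∑ y ∈ t l, (if l = kf then G y else 1) ≤
      ∏ l : Fin (d + 1), (if l.val < kf.val then D else if l.val = kf.val then S else D * N) := by
    apply Finset.prod_le_prod
    · intro l _
      exact Finset.sum_nonneg fun y _ => by split_ifs; exacts [hG y, zero_le_one]
    · intro l _
      by_cases hl : l.val < kf.val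
      · rw [if_pos hl]
        have hne : l ≠ kf := by
          intro h; rw [h] at hl; exact lt_irrefl _ hl
        simp only [if_neg hne, ht, if_pos hl, Finset.sum_const, nsmul_eq_mul, mul_one]
        exact hcardB
      · rw [if_neg hl]
        by_cases hl2 : l.val = kf.val
        · have he : l = kf := Fin.ext hl2
          rw [if_pos hl2]
          simp only [if_pos he, ht, if_neg hl]
          exact le_rfl
        · rw [if_neg hl2]
          have hne : l ≠ kf := fun h => hl2 (by rw [h])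
          simp only [if_neg hne, ht, if_neg hl, Finset.sum_const, nsmul_eq_mul, mul_one]
          exact hcardM
  have hkd : kf.val + (d - kf.val) = d := by
    have := kf.isLt
    omega
  have h5 : ∏ l : Fin (d + 1), (if l.val < kf.val then D else if l.val = kf.val then S else D * N) =
      D ^ d * N ^ (d - kf.val) * S := by
    rw [Fin.prod_univ_eq_prod_range
      (fun l => if l < kf.val then D else if l = kf.val then S else D * N) (d + 1)]
    have h6 := prod_three kf.val D S (D * N) (d - kf.val)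
    rw [hkd] at h6
    rw [h6, mul_pow]
    have h7 : D ^ d = D ^ kf.val * D ^ (d - kf.val) := by
      rw [← pow_add, hkd]
    rw [h7]
    ring
  by_cases hneg : 0 ≤ ∑ j ∈ c, g j
  · calc N * ∑ j ∈ c, g j ≤ ((n : ℝ) + 1) * ∑ j ∈ c, g j := by
          apply mul_le_mul_of_nonneg_right _ hneg
          linarith
      _ ≤ ∑ p ∈ P, G (z p kf) := h1
      _ ≤ ∑ y ∈ Fintype.piFinset t, G (y kf) := h2
      _ = ∏ l, ∑ y ∈ t l, (if l = kf then G y else 1) := h3
      _ ≤ _ := h4
      _ = _ := h5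
  · push Not at hneg
    have h6 : N * ∑ j ∈ c, g j ≤ 0 := by nlinarith
    refine h6.trans ?_
    positivity

end Pool.Agent.Q86.Ks
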