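import Pool.Agent.Q86.KsC

set_option autoImplicit false

/-! Consequences of the counting lemma. -/

open MeasureTheory Set Filter Topology ENNReal NNReal Metric

namespace Pool.Agent.Q86.Ks

open Pool.Agent.H810R3.Tub Pool.Agent.W772

variable {d : ℕ}

theorem M_bound {N Q : ℝ} (hN : 1 ≤ N) (hQ : 16 ≤ Q) {M : ℕ} (hM : M = ⌈Q * N + 1⌉₊) :
    (M : ℝ) + 1 ≤ 2 * Q * N := by
  have h5 : (M : ℝ) < Q * N + 1 + 1 := by
    rw [hM]
    exact Nat.ceil_lt_add_one (by positivity)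
  have h6 : 16 ≤ Q * N := by nlinarith
  linarith

theorem cancel_N {N x y : ℝ} {m : ℕ} (hN : 1 ≤ N) (hm : 1 ≤ m) (h : N * x ≤ y * N ^ m) :
    x ≤ y * N ^ (m - 1) := by
  have hN0 : 0 < N := by linarith
  obtain ⟨m, rfl⟩ : ∃ k, m = k + 1 := ⟨m - 1, by omega⟩
  rw [Nat.add_sub_cancel]
  rw [pow_succ] at h
  have h1 : N * x ≤ N * (y * N ^ m) := by
    calc N * x ≤ _ := h
      _ = _ := by ring
  exact le_of_mul_le_mul_left h1 hN0

/-- the weighted count -/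
theorem count_weight {N σ A : ℝ} (hN : 1 ≤ N) (hσ : 0 < σ) (hσ1 : σ ≤ 1) (hA : 1 ≤ A)
    {ι : Type} (ω : ι → Vec d) (hω : ∀ i, ‖ω i‖ ≤ 1)
    (hsep : ∀ i j, i ≠ j → σ / N ≤ ‖ω i - ω j‖)
    (b : OrthonormalBasis (Fin (d + 1)) ℝ (Space d)) (kf : Fin (d + 1)) (hk : kf.val < d)
    (c : Finset ι)
    (hc : ∀ l : Fin (d + 1), l.val < kf.val → ∀ j ∈ c, |inner ℝ (b l) (nor (ω j))| ≤ A / N)
    {Q : ℝ} (hQ : Q = 16 * (d + 1) / σ) :
    ∑ j ∈ c, 1 / (1 + N * |inner ℝ (b kf) (nor (ω j))|) ≤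
      ((3 * Q * A) ^ d * (2 * Q * (1 + Real.log (2 * Q)))) * (1 + Real.log N) *
        N ^ (d - kf.val - 1) := by
  have hN0 : 0 < N := by linarith
  have hd0 : (0 : ℝ) ≤ d := Nat.cast_nonneg d
  have hQ16 : 16 ≤ Q := by
    rw [hQ, le_div_iff₀ hσ]
    nlinarith
  have hQ0 : 0 < Q := by linarith
  have key := count_cells hN hσ hσ1 hA ω hω hsep b kf c hc (fun z => Q * (1 / (1 + |(z : ℝ)|)))
    (fun z => by positivity) (fun j => 1 / (1 + N * |inner ℝ (b kf) (nor (ω j))|)) hQ rfl (by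
      intro j _ s hs1 hs2
      set x : ℝ := inner ℝ (b kf) (nor (ω j)) with hx
      have h1 : |s * x * (Q * N) / 2| ≤ |x| * Q * N := by
        rw [abs_div, abs_mul, abs_mul, abs_of_pos (by positivity : 0 < Q * N),
          abs_of_pos (by linarith : (0 : ℝ) < s), abs_of_pos (by norm_num : (0 : ℝ) < 2),
          div_le_iff₀ (by norm_num)]
        have h2 := abs_nonneg x
        nlinarith [mul_nonneg (mul_nonneg h2 (by linarith : (0 : ℝ) ≤ 2 - s)) (mul_pos hQ0 hN0).le]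
      have h2 := floor_abs_le h1 rfl
      have h3 : 0 ≤ |x| := abs_nonneg x
      have h4 : 0 ≤ |((⌊s * x * (Q * N) / 2⌋ : ℤ) : ℝ)| := abs_nonneg _
      rw [mul_one_div, div_le_div_iff₀ (by positivity) (by positivity)]
      nlinarith [mul_nonneg hN0.le h3])
  rw [← Finset.mul_sum] at key
  have hM := M_bound hN hQ16 (M := ⌈Q * N + 1⌉₊) rfl
  set M : ℕ := ⌈Q * N + 1⌉₊ with hMdef
  have hsum := sum_inv M
  have hlogN : 0 ≤ Real.log N := Real.log_nonneg hN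
  have hlogQ : 0 ≤ Real.log (2 * Q) := Real.log_nonneg (by linarith)
  have hlog : Real.log (M + 1) ≤ Real.log (2 * Q) + Real.log N := by
    rw [← Real.log_mul (by positivity) (by positivity)]
    exact Real.log_le_log (by positivity) hM
  have hsum2 : ∑ z ∈ Finset.Icc (-(M : ℤ)) M, (1 : ℝ) / (1 + |(z : ℝ)|) ≤
      2 * (1 + Real.log (2 * Q)) * (1 + Real.log N) := by
    refine hsum.trans ?_
    nlinarith [mul_nonneg hlogN hlogQ]
  apply cancel_N hN (by omega)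
  refine key.trans ?_
  calc (3 * Q * A) ^ d * N ^ (d - kf.val) *
        (Q * ∑ z ∈ Finset.Icc (-(M : ℤ)) M, (1 : ℝ) / (1 + |(z : ℝ)|))
      ≤ (3 * Q * A) ^ d * N ^ (d - kf.val) * (Q * (2 * (1 + Real.log (2 * Q)) * (1 + Real.log N))) := by
        gcongr
    _ = _ := by ring

/-- the count of the normals almost orthogonal to a vector -/
theorem count_near {N σ A r : ℝ} (hN : 1 ≤ N) (hσ : 0 < σ) (hσ1 : σ ≤ 1) (hA : 1 ≤ A) (hr : 0 ≤ r)
    {ι : Type} (ω : ι → Vec d) (hω : ∀ i, ‖ω i‖ ≤ 1)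
    (hsep : ∀ i j, i ≠ j → σ / N ≤ ‖ω i - ω j‖)
    (b : OrthonormalBasis (Fin (d + 1)) ℝ (Space d)) (kf : Fin (d + 1)) (hk : kf.val < d)
    (c : Finset ι)
    (hc : ∀ l : Fin (d + 1), l.val < kf.val → ∀ j ∈ c, |inner ℝ (b l) (nor (ω j))| ≤ A / N)
    (hc2 : ∀ j ∈ c, |inner ℝ (b kf) (nor (ω j))| ≤ r)
    {Q : ℝ} (hQ : Q = 16 * (d + 1) / σ) :
    (c.card : ℝ) ≤ ((3 * Q * A) ^ d * (2 * Q)) * (1 + r * N) * N ^ (d - kf.val - 1) := by
  classical
  have hN0 : 0 < N := by linarith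
  have hd0 : (0 : ℝ) ≤ d := Nat.cast_nonneg d
  have hQ16 : 16 ≤ Q := by
    rw [hQ, le_div_iff₀ hσ]
    nlinarith
  have hQ0 : 0 < Q := by linarith
  set R : ℕ := ⌈r * Q * N + 1⌉₊ with hR
  have key := count_cells hN hσ hσ1 hA ω hω hsep b kf c hc
    (fun z => if z ∈ Finset.Icc (-(R : ℤ)) R then (1 : ℝ) else 0)
    (fun z => by split_ifs <;> norm_num) (fun _ => (1 : ℝ)) hQ rfl (by
      intro j hj s hs1 hs2
      set x : ℝ := inner ℝ (b kf) (nor (ω j)) with hx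
      have h1 : |s * x * (Q * N) / 2| ≤ r * Q * N := by
        rw [abs_div, abs_mul, abs_mul, abs_of_pos (by positivity : 0 < Q * N),
          abs_of_pos (by linarith : (0 : ℝ) < s), abs_of_pos (by norm_num : (0 : ℝ) < 2),
          div_le_iff₀ (by norm_num)]
        have h2 := hc2 j hj
        have h3 := abs_nonneg x
        calc s * |x| * (Q * N) ≤ 2 * r * (Q * N) := by
              have : s * |x| ≤ 2 * r := mul_le_mul hs2 h2 h3 (by norm_num)
              gcongr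
          _ = r * Q * N * 2 := by ring
      have h2 := floor_abs_le h1 rfl
      have h3 : |((⌊s * x * (Q * N) / 2⌋ : ℤ) : ℝ)| ≤ R := h2.trans (Nat.le_ceil _)
      have h4 := abs_le.1 h3
      rw [if_pos]
      rw [Finset.mem_Icc]
      exact ⟨by exact_mod_cast h4.1, by exact_mod_cast h4.2⟩)
  rw [Finset.sum_const, nsmul_eq_mul, mul_one] at key
  have hS : ∑ z ∈ Finset.Icc (-((⌈Q * N + 1⌉₊ : ℕ) : ℤ)) (⌈Q * N + 1⌉₊ : ℕ),
      (if z ∈ Finset.Icc (-(R : ℤ)) R then (1 : ℝ) else 0) ≤ 2 * Q * (1 + r * N) := by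
    rw [← Finset.sum_filter, Finset.sum_const, nsmul_eq_mul, mul_one]
    have h1 : ((Finset.Icc (-((⌈Q * N + 1⌉₊ : ℕ) : ℤ)) (⌈Q * N + 1⌉₊ : ℕ)).filter
        (fun z => z ∈ Finset.Icc (-(R : ℤ)) R)).card ≤ (Finset.Icc (-(R : ℤ)) R).card := by
      apply Finset.card_le_card
      intro z hz
      exact (Finset.mem_filter.1 hz).2
    have h2 : ((Finset.Icc (-(R : ℤ)) R).card : ℝ) ≤ 2 * Q * (1 + r * N) := by
      rw [Int.card_Icc]
      have e : ((((R : ℤ) + 1 - -(R : ℤ)).toNat : ℤ) : ℝ) = ((R : ℤ) + 1 - -(R : ℤ) : ℤ) := by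
        rw [Int.toNat_of_nonneg (by omega)]
      rw [Int.cast_natCast] at e
      rw [e]
      push_cast
      have h5 : (R : ℝ) < r * Q * N + 1 + 1 := Nat.ceil_lt_add_one (by positivity)
      nlinarith
    exact (by exact_mod_cast h1 : (_ : ℝ) ≤ _).trans h2
  apply cancel_N hN (by omega)
  refine key.trans ?_
  calc (3 * Q * A) ^ d * N ^ (d - kf.val) * _
      ≤ (3 * Q * A) ^ d * N ^ (d - kf.val) * (2 * Q * (1 + r * N)) := by
        gcongr
    _ = _ := by ring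

/-- the number of the caps -/
theorem card_caps {N σ : ℝ} (hN : 1 ≤ N) (hσ : 0 < σ) (hσ1 : σ ≤ 1)
    {ι : Type} [Fintype ι] (ω : ι → Vec d) (hω : ∀ i, ‖ω i‖ ≤ 1)
    (hsep : ∀ i j, i ≠ j → σ / N ≤ ‖ω i - ω j‖)
    (b : OrthonormalBasis (Fin (d + 1)) ℝ (Space d))
    {Q : ℝ} (hQ : Q = 16 * (d + 1) / σ) :
    (Fintype.card ι : ℝ) ≤ (3 * Q) ^ (d + 1) * N ^ d := by
  classical
  have hN0 : 0 < N := by linarith
  have hd0 : (0 : ℝ) ≤ d := Nat.cast_nonneg d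
  have hQ16 : 16 ≤ Q := by
    rw [hQ, le_div_iff₀ hσ]
    nlinarith
  have hQ0 : 0 < Q := by linarith
  have key := count_cells hN hσ hσ1 le_rfl ω hω hsep b (0 : Fin (d + 1)) Finset.univ
    (by intro l hl; simp at hl) (fun _ => (1 : ℝ)) (fun _ => zero_le_one) (fun _ => (1 : ℝ)) hQ rfl
    (fun _ _ _ _ _ => le_rfl)
  simp only [Finset.sum_const, nsmul_eq_mul, mul_one, Finset.card_univ] at key
  have hM := M_bound hN hQ16 (M := ⌈Q * N + 1⌉₊) rfl
  set M : ℕ := ⌈Q * N + 1⌉₊ with hMdef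
  have hcardM : ((Finset.Icc (-(M : ℤ)) M).card : ℝ) ≤ 3 * Q * N := by
    rw [Int.card_Icc]
    have e : ((((M : ℤ) + 1 - -(M : ℤ)).toNat : ℤ) : ℝ) = ((M : ℤ) + 1 - -(M : ℤ) : ℤ) := by
      rw [Int.toNat_of_nonneg (by omega)]
    rw [Int.cast_natCast] at e
    rw [e]
    push_cast
    have h5 : (M : ℝ) < Q * N + 1 + 1 := Nat.ceil_lt_add_one (by positivity)
    have h6 : 16 ≤ Q * N := by nlinarith
    linarith
  have e0 : d - ((0 : Fin (d + 1)) : ℕ) = d := by simp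
  rw [e0] at key
  have h1 : N * (Fintype.card ι : ℝ) ≤ ((3 * Q) ^ (d + 1) ) * N ^ (d + 1) := by
    refine key.trans ?_
    calc (3 * Q) ^ d * N ^ d * ((Finset.Icc (-(M : ℤ)) M).card : ℝ)
        ≤ (3 * Q) ^ d * N ^ d * (3 * Q * N) := by gcongr
      _ = _ := by ring
  have h2 := cancel_N hN (by omega) h1
  simpa using h2

theorem ext_basis (k : ℕ) (v : Fin (d + 1) → Space d)
    (hv : Orthonormal ℝ (fun l : {l : Fin (d + 1) // l.val ≤ k} => v l)) :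
    ∃ b : OrthonormalBasis (Fin (d + 1)) ℝ (Space d), ∀ l, l.val ≤ k → b l = v l := by
  have h := Orthonormal.exists_orthonormalBasis_extension_of_card_eq (𝕜 := ℝ) (E := Space d)
    (ι := Fin (d + 1)) (by rw [finrank_space, Fintype.card_fin]) (v := v)
    (s := {l | l.val ≤ k}) hv
  obtain ⟨b, hb⟩ := h
  exact ⟨b, fun l hl => hb l hl⟩

end Pool.Agent.Q86.Ks
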