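import Pool.Agent.Q86.KsD

set_option autoImplicit false

/-! Summation by parts, and the sum of the volumes of the intersections with a box. -/

open MeasureTheory Set Filter Topology ENNReal NNReal Metric

namespace Pool.Agent.Q86.Ks

open Pool.Agent.H810R3.Tub Pool.Agent.W772

theorem tele (M : ℕ) : ∀ a : ℕ, a ≤ M → (1 : ℝ) / (1 + a) =
    ∑ m ∈ Finset.range (M + 1), (if a ≤ m then (1 : ℝ) / ((m + 1) * (m + 2)) else 0) + 1 / (M + 2) := by
  induction M with
  | zero =>
    intro a ha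
    obtain rfl : a = 0 := by omega
    norm_num
  | succ M ih =>
    intro a ha
    rw [Finset.sum_range_succ]
    rcases Nat.lt_or_ge M a with h | h
    · obtain rfl : a = M + 1 := by omega
      rw [if_pos le_rfl]
      have h0 : ∑ m ∈ Finset.range (M + 1),
          (if M + 1 ≤ m then (1 : ℝ) / ((m + 1) * (m + 2)) else 0) = 0 := by
        refine Finset.sum_eq_zero fun m hm => ?_
        have := Finset.mem_range.1 hm
        rw [if_neg (by omega)]
      rw [h0]
      push_cast
      field_simp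
      ring
    · rw [if_pos (by omega)]
      have h1 := ih a h
      have h2 : (1 : ℝ) / (M + 2) = 1 / ((((M + 1 : ℕ) : ℝ) + 1) * (((M + 1 : ℕ) : ℝ) + 2)) +
          1 / (((M + 1 : ℕ) : ℝ) + 2) := by
        push_cast
        field_simp
        ring
      rw [h1, h2]
      ring

theorem abel {ι : Type} (c : Finset ι) (x : ι → ℝ) {N K : ℝ} (hN : 1 ≤ N) (hK : 0 ≤ K)
    (hx : ∀ j ∈ c, 0 ≤ x j ∧ x j ≤ 2)
    (hcount : ∀ ρ : ℝ, 0 ≤ ρ → ((c.filter fun j => x j ≤ ρ).card : ℝ) ≤ K * (1 + ρ * N)) :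
    ∑ j ∈ c, 1 / (1 + N * x j) ≤ 4 * K * (1 + Real.log N) := by
  classical
  have hN0 : 0 < N := by linarith
  set M : ℕ := ⌊2 * N⌋₊ with hM
  have hMle : (M : ℝ) ≤ 2 * N := Nat.floor_le (by positivity)
  set a : ι → ℕ := fun j => ⌊N * x j⌋₊ with ha
  have haM : ∀ j ∈ c, a j ≤ M := by
    intro j hj
    apply Nat.floor_le_floor
    have := (hx j hj).2
    nlinarith
  have hle : ∀ j ∈ c, 1 / (1 + N * x j) ≤ (1 : ℝ) / (1 + a j) := by
    intro j hj
    have h0 := (hx j hj).1
    have h1 : (a j : ℝ) ≤ N * x j := Nat.floor_le (by positivity)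
    apply one_div_le_one_div_of_le (by positivity)
    linarith
  have hcnt : ∀ m : ℕ, ((c.filter fun j => a j ≤ m).card : ℝ) ≤ K * (m + 2) := by
    intro m
    have h1 : (c.filter fun j => a j ≤ m) ⊆ c.filter fun j => x j ≤ ((m : ℝ) + 1) / N := by
      intro j hj
      rw [Finset.mem_filter] at hj ⊢
      refine ⟨hj.1, ?_⟩
      rw [le_div_iff₀ hN0]
      have h2 : N * x j < a j + 1 := Nat.lt_floor_add_one _
      have h3 : (a j : ℝ) ≤ m := by exact_mod_cast hj.2
      linarith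
    have h2 := hcount (((m : ℝ) + 1) / N) (by positivity)
    have h3 : ((c.filter fun j => a j ≤ m).card : ℝ) ≤
        ((c.filter fun j => x j ≤ ((m : ℝ) + 1) / N).card : ℝ) := by
      exact_mod_cast Finset.card_le_card h1
    refine h3.trans (h2.trans (le_of_eq ?_))
    field_simp
    ring
  have hc : (c.card : ℝ) ≤ K * (M + 2) := by
    have h1 : c.filter (fun j => a j ≤ M) = c := Finset.filter_true_of_mem haM
    have h2 := hcnt M
    rw [h1] at h2
    exact h2
  calc ∑ j ∈ c, 1 / (1 + N * x j) ≤ ∑ j ∈ c, (1 : ℝ) / (1 + a j) := Finset.sum_le_sum hle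
    _ = ∑ j ∈ c, (∑ m ∈ Finset.range (M + 1), (if a j ≤ m then (1 : ℝ) / ((m + 1) * (m + 2)) else 0)
          + 1 / (M + 2)) := Finset.sum_congr rfl fun j hj => tele M (a j) (haM j hj)
    _ = ∑ m ∈ Finset.range (M + 1), ((c.filter fun j => a j ≤ m).card : ℝ) * (1 / ((m + 1) * (m + 2)))
          + c.card * (1 / (M + 2)) := by
        rw [Finset.sum_add_distrib, Finset.sum_comm, Finset.sum_const, nsmul_eq_mul]
        congr 1
        refine Finset.sum_congr rfl fun m _ => ?_
        rw [← Finset.sum_filter, Finset.sum_const, nsmul_eq_mul]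
    _ ≤ ∑ m ∈ Finset.range (M + 1), K * (1 / (1 + m)) + K := by
        apply add_le_add
        · refine Finset.sum_le_sum fun m _ => ?_
          calc ((c.filter fun j => a j ≤ m).card : ℝ) * (1 / ((m + 1) * (m + 2)))
              ≤ K * (m + 2) * (1 / ((m + 1) * (m + 2))) := by
                apply mul_le_mul_of_nonneg_right (hcnt m) (by positivity)
            _ = K * (1 / (1 + m)) := by
                field_simp
                ring
        · calc (c.card : ℝ) * (1 / (M + 2)) ≤ K * (M + 2) * (1 / (M + 2)) := by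
                apply mul_le_mul_of_nonneg_right hc (by positivity)
            _ = K := by field_simp
    _ ≤ K * (1 + Real.log (M + 1)) + K := by
        rw [← Finset.mul_sum]
        have h := harmonic_le_one_add_log (M + 1)
        have e : ((harmonic (M + 1) : ℚ) : ℝ) = ∑ n ∈ Finset.range (M + 1), (1 : ℝ) / (1 + n) := by
          unfold harmonic
          push_cast
          refine Finset.sum_congr rfl fun n _ => ?_
          rw [one_div, add_comm]
        rw [e] at h
        push_cast at h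
        gcongr
    _ ≤ 4 * K * (1 + Real.log N) := by
        have h1 : (M : ℝ) + 1 ≤ 3 * N := by linarith
        have h2 : Real.log (M + 1) ≤ Real.log 3 + Real.log N := by
          rw [← Real.log_mul (by norm_num) (by positivity)]
          exact Real.log_le_log (by positivity) h1
        have h3 : Real.log 3 ≤ 2 := by
          have := Real.log_le_sub_one_of_pos (by norm_num : (0 : ℝ) < 3)
          linarith
        have h4 : 0 ≤ Real.log N := Real.log_nonneg hN
        nlinarith [mul_nonneg hK h4]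

variable {d : ℕ}

/-- the intersection of two boxes -/
theorem vol_pair (hd : 1 ≤ d) {N : ℝ} (hN : 1 ≤ N) {ω ω' : Vec d} (hω : ‖ω‖ ≤ 1) (hω' : ‖ω'‖ ≤ 1)
    {f f' : Fin d → Space d} (h : Orthonormal ℝ (Fin.cons (nor ω) f : Fin (d + 1) → Space d))
    (h' : Orthonormal ℝ (Fin.cons (nor ω') f' : Fin (d + 1) → Space d)) (a a' : Space d) :
    volume (box N (nor ω) f a ∩ box N (nor ω') f' a') ≤
      ENNReal.ofReal (180 * d * N ^ (d + 2) * (1 / (1 + N * ‖ω' - ω‖))) := by
  have hN0 : 0 < N := by linarith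
  have hd1 : (1 : ℝ) ≤ d := by exact_mod_cast hd
  obtain ⟨ν, h1, h2⟩ := pair_slab hN hω hω' h a
  have h3 : box N (nor ω) f a ∩ box N (nor ω') f' a' ⊆
      {y | y ∈ box N (nor ω') f' a' ∧ |inner ℝ ν y - inner ℝ ν a| ≤ d * N} :=
    fun y hy => ⟨hy.2, h1 hy.1⟩
  refine (measure_mono h3).trans ((vol_slab' hN hd1 h' a' ν _).trans (ENNReal.ofReal_le_ofReal ?_))
  set x : ℝ := |inner ℝ ν (nor ω')| with hx
  have hx0 : 0 ≤ x := abs_nonneg _
  rw [norm_sub_rev] at h2
  have h4 : 1 / (1 + N * x) ≤ 10 * (1 / (1 + N * ‖ω' - ω‖)) := by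
    rw [mul_one_div, div_le_div_iff₀ (by positivity) (by positivity)]
    nlinarith [norm_nonneg (ω' - ω)]
  calc 18 * (d : ℝ) * N ^ (d + 2) * (1 / (1 + N * x))
      ≤ 18 * d * N ^ (d + 2) * (10 * (1 / (1 + N * ‖ω' - ω‖))) := by gcongr
    _ = _ := by ring

/-- the sum over a one-dimensional class -/
theorem sum_pair (hd : 1 ≤ d) {N K : ℝ} (hN : 1 ≤ N) (hK : 0 ≤ K) {ι : Type}
    (ω : ι → Vec d) (hω : ∀ i, ‖ω i‖ ≤ 1) (f : ι → Fin d → Space d)
    (hf : ∀ i, Orthonormal ℝ (Fin.cons (nor (ω i)) (f i) : Fin (d + 1) → Space d))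
    (a : ι → Space d) (i : ι) (c : Finset ι)
    (hcount : ∀ ρ : ℝ, 0 ≤ ρ → ((c.filter fun j => ‖ω j - ω i‖ ≤ ρ).card : ℝ) ≤ K * (1 + ρ * N)) :
    ∑ j ∈ c, volume (box N (nor (ω i)) (f i) (a i) ∩ box N (nor (ω j)) (f j) (a j)) ≤
      ENNReal.ofReal (720 * d * K * N ^ (d + 2) * (1 + Real.log N)) := by
  have hN0 : 0 < N := by linarith
  have h1 := abel c (fun j => ‖ω j - ω i‖) hN hK (fun j _ => ⟨norm_nonneg _, by
    calc ‖ω j - ω i‖ ≤ ‖ω j‖ + ‖ω i‖ := norm_sub_le _ _
      _ ≤ 2 := by linarith [hω i, hω j]⟩) hcount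
  calc ∑ j ∈ c, volume (box N (nor (ω i)) (f i) (a i) ∩ box N (nor (ω j)) (f j) (a j))
      ≤ ∑ j ∈ c, ENNReal.ofReal (180 * d * N ^ (d + 2) * (1 / (1 + N * ‖ω j - ω i‖))) :=
        Finset.sum_le_sum fun j _ => vol_pair hd hN (hω i) (hω j) (hf i) (hf j) _ _
    _ = ENNReal.ofReal (180 * d * N ^ (d + 2) * ∑ j ∈ c, (1 / (1 + N * ‖ω j - ω i‖))) := by
        rw [← ENNReal.ofReal_sum_of_nonneg (fun j _ => by positivity), Finset.mul_sum]
    _ ≤ _ := by
        apply ENNReal.ofReal_le_ofReal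
        calc 180 * (d : ℝ) * N ^ (d + 2) * ∑ j ∈ c, (1 / (1 + N * ‖ω j - ω i‖))
            ≤ 180 * d * N ^ (d + 2) * (4 * K * (1 + Real.log N)) := by gcongr
          _ = _ := by ring

end Pool.Agent.Q86.Ks
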