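import Pool.Agent.Q86.KsE
import Pool.Agent.Q86.KsA

set_option autoImplicit false

/-! The integral bound for labelled families of boxes. -/

open MeasureTheory Set Filter Topology ENNReal NNReal Metric

namespace Pool.Agent.Q86.Ks

open Pool.Agent.H810R3.Tub Pool.Agent.W772

variable {d : ℕ}

/-- The number of the different labels number `k` of the boxes which contain `y` and have the same
labels as the box number `i` before the label number `k`. -/
noncomputable def labelCount {ι α : Type} {r : ℕ} (N : ℝ) (ω : ι → Vec d) (f : ι → Fin d → Space d)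
    (a : ι → Space d) (lam : Fin r → ι → α) (k : Fin r) (i : ι) (y : Space d) : ℕ :=
  Set.ncard {c : α | ∃ j, (∀ l : Fin r, l < k → lam l j = lam l i) ∧
    y ∈ box N (nor (ω j)) (f j) (a j) ∧ lam k j = c}

open Classical in
/-- the boxes through a point -/
noncomputable def At {ι : Type} [Fintype ι] (N : ℝ) (ω : ι → Vec d) (f : ι → Fin d → Space d)
    (a : ι → Space d) (y : Space d) : Finset ι :=
  Finset.univ.filter fun j => y ∈ box N (nor (ω j)) (f j) (a j)

/-- the labels, completed by the number of the box -/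
noncomputable def lamS {ι α : Type} {r : ℕ} (lam : Fin r → ι → α) (l : ℕ) (j : ι) : α ⊕ ι :=
  if h : l < r then Sum.inl (lam ⟨l, h⟩ j) else Sum.inr j

theorem mem_At {ι : Type} [Fintype ι] (N : ℝ) (ω : ι → Vec d) (f : ι → Fin d → Space d)
    (a : ι → Space d) (y : Space d) (j : ι) :
    j ∈ At N ω f a y ↔ y ∈ box N (nor (ω j)) (f j) (a j) := by
  classical
  unfold At
  rw [Finset.mem_filter]
  exact ⟨fun h => h.2, fun h => ⟨Finset.mem_univ _, h⟩⟩

theorem At_meas {ι : Type} [Fintype ι] (N : ℝ) (ω : ι → Vec d) (f : ι → Fin d → Space d)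
    (a : ι → Space d) (Φ : Finset ι → ℝ≥0∞) : Measurable fun y => Φ (At N ω f a y) := by
  classical
  let _ : MeasurableSpace (Finset ι) := ⊤
  have h1 : Measurable (At N ω f a) := by
    refine measurable_to_countable' fun B => ?_
    have e : At N ω f a ⁻¹' {B} = ⋂ j : ι, {y | y ∈ box N (nor (ω j)) (f j) (a j) ↔ j ∈ B} := by
      ext y
      simp only [mem_preimage, mem_singleton_iff, mem_iInter, mem_ofPred_eq]
      constructor
      · rintro rfl j
        exact (mem_At N ω f a y j).symm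
      · intro h
        ext j
        rw [mem_At]
        exact h j
    rw [e]
    refine MeasurableSet.iInter fun j => ?_
    have hb : MeasurableSet (box N (nor (ω j)) (f j) (a j)) := (box_closed _ _ _ _).measurableSet
    by_cases hj : j ∈ B
    · have e2 : {y | y ∈ box N (nor (ω j)) (f j) (a j) ↔ j ∈ B} = box N (nor (ω j)) (f j) (a j) := by
        ext y
        simp only [mem_ofPred_eq, hj, iff_true]
      rw [e2]
      exact hb
    · have e2 : {y | y ∈ box N (nor (ω j)) (f j) (a j) ↔ j ∈ B} = (box N (nor (ω j)) (f j) (a j))ᶜ := by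
        ext y
        simp only [mem_ofPred_eq, hj, iff_false, mem_compl_iff]
      rw [e2]
      exact hb.compl
  exact (measurable_from_top (f := Φ)).comp h1

theorem Fb_eq {ι : Type} [Fintype ι] (N : ℝ) (ω : ι → Vec d) (f : ι → Fin d → Space d)
    (a : ι → Space d) (y : Space d) : Fb N ω f a y = ((At N ω f a y).card : ℝ≥0∞) := by
  classical
  unfold Fb
  rw [Finset.card_eq_sum_ones]
  push_cast
  unfold At
  rw [Finset.sum_filter]
  refine Finset.sum_congr rfl fun j _ => ?_
  by_cases h : y ∈ box N (nor (ω j)) (f j) (a j)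
  · rw [indicator_of_mem h, if_pos h]
  · rw [indicator_of_notMem h, if_neg h]

theorem cnt_ncard {ι α : Type} (A : Finset ι) (lam : ℕ → ι → α) (k : ℕ) (i : ι) :
    cnt A lam k i = ((lam k) '' {j | j ∈ A ∧ ∀ l, l < k → lam l j = lam l i}).ncard := by
  unfold cnt
  rw [← Set.ncard_coe_finset]
  congr 1
  ext c
  simp only [Finset.coe_image, mem_image, Finset.coe_filter, mem_ofPred_eq]

theorem cnt_lt {ι α : Type} [Fintype ι] {r : ℕ} (N : ℝ) (ω : ι → Vec d) (f : ι → Fin d → Space d)
    (a : ι → Space d) (lam : Fin r → ι → α) (k : Fin r) (i : ι) (y : Space d) :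
    cnt (At N ω f a y) (lamS lam) k.val i = labelCount N ω f a lam k i y := by
  have hval : ∀ (l : Fin r) (j : ι), lamS lam l.val j = Sum.inl (lam l j) := by
    intro l j
    unfold lamS
    rw [dif_pos l.isLt]
  rw [cnt_ncard]
  unfold labelCount
  rw [← Set.ncard_image_of_injective {c : α | ∃ j, (∀ l : Fin r, l < k → lam l j = lam l i) ∧
    y ∈ box N (nor (ω j)) (f j) (a j) ∧ lam k j = c} (Sum.inl_injective (β := ι))]
  congr 1
  ext c
  simp only [mem_image, mem_ofPred_eq, mem_At]
  constructor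
  · rintro ⟨j, ⟨h2, h3⟩, h4⟩
    refine ⟨lam k j, ⟨j, fun l hl => ?_, h2, rfl⟩, ?_⟩
    · have h5 := h3 l.val hl
      rw [hval, hval] at h5
      exact Sum.inl_injective h5
    · rw [← h4, hval]
  · rintro ⟨c', ⟨j, h2, h3, h4⟩, h5⟩
    refine ⟨j, ⟨h3, fun l hl => ?_⟩, ?_⟩
    · have hlr : l < r := lt_trans hl k.isLt
      have h5 := h2 ⟨l, hlr⟩ hl
      have h6 := hval ⟨l, hlr⟩ j
      have h7 := hval ⟨l, hlr⟩ i
      simp only at h6 h7
      rw [h6, h7, h5]
    · rw [hval, h4, h5]

theorem cnt_last {ι α : Type} {r : ℕ} (A : Finset ι) (lam : Fin r → ι → α) (i : ι) :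
    cnt A (lamS lam) r i ≤ {j | j ∈ A ∧ ∀ l : Fin r, lam l j = lam l i}.ncard := by
  rw [cnt_ncard]
  have hfin : {j | j ∈ A ∧ ∀ l, l < r → lamS lam l j = lamS lam l i}.Finite :=
    A.finite_toSet.subset fun j hj => hj.1
  refine (Set.ncard_image_le hfin).trans ?_
  apply Set.ncard_le_ncard _ (A.finite_toSet.subset fun j hj => hj.1)
  rintro j ⟨h1, h2⟩
  refine ⟨h1, fun l => ?_⟩
  have h5 := h2 l.val l.isLt
  unfold lamS at h5
  rw [dif_pos l.isLt, dif_pos l.isLt] at h5
  exact Sum.inl_injective h5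

/-- the general integral bound -/
theorem gen_int {r : ℕ} (hd : d = r + 1) {N K Λ : ℝ} (M : Fin r → ℝ) (hN : 1 ≤ N) (hK : 0 ≤ K)
    {ι α : Type} [Fintype ι] (ω : ι → Vec d) (hω : ∀ i, ‖ω i‖ ≤ 1) (f : ι → Fin d → Space d)
    (hf : ∀ i, Orthonormal ℝ (Fin.cons (nor (ω i)) (f i) : Fin (d + 1) → Space d))
    (a : ι → Space d) (lam : Fin r → ι → α)
    (hcard : (Fintype.card ι : ℝ) ≤ Λ * N ^ d)
    (hcount : ∀ i, ∀ ρ : ℝ, 0 ≤ ρ →
      (({j | (∀ l, lam l j = lam l i) ∧ ‖ω j - ω i‖ ≤ ρ} : Set ι).ncard : ℝ) ≤ K * (1 + ρ * N))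
    (hlab : ∀ k : Fin r, ∑ i, ∫⁻ y in box N (nor (ω i)) (f i) (a i),
      (labelCount N ω f a lam k i y : ℝ≥0∞) ≤ ENNReal.ofReal (M k * N ^ (2 * (d + 1)))) :
    ∫⁻ y, Fb N ω f a y ^ (1 + 1 / (d : ℝ)) ≤
      (∏ k, ENNReal.ofReal (M k * N ^ (2 * (d + 1))) ^ (1 / (d : ℝ))) *
        ENNReal.ofReal (720 * d * K * Λ * (1 + Real.log N) * N ^ (2 * (d + 1))) ^ (1 / (d : ℝ)) := by
  classical
  have hN0 : 0 < N := by linarith
  have hd1 : 1 ≤ d := by omega
  have hd0 : (0 : ℝ) < d := by exact_mod_cast hd1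
  have hlogN : 0 ≤ Real.log N := Real.log_nonneg hN
  set T : ι → Set (Space d) := fun i => box N (nor (ω i)) (f i) (a i) with hT
  have hTm : ∀ i, MeasurableSet (T i) := fun i => (box_closed _ _ _ _).measurableSet
  set C : ℕ → ι → Space d → ℝ≥0∞ := fun k i y => (cnt (At N ω f a y) (lamS lam) k i : ℝ≥0∞) with hC
  have hCm : ∀ k i, Measurable (C k i) := fun k i =>
    At_meas N ω f a fun B => (cnt B (lamS lam) k i : ℝ≥0∞)
  set W : ℕ → Space d → ℝ≥0∞ := fun k y => ∑ i ∈ At N ω f a y, C k i y with hW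
  have hWm : ∀ k, Measurable (W k) := fun k =>
    At_meas N ω f a fun B => ∑ i ∈ B, (cnt B (lamS lam) k i : ℝ≥0∞)
  have hWi : ∀ k, ∫⁻ y, W k y = ∑ i, ∫⁻ y in T i, C k i y := by
    intro k
    have e : ∀ y, W k y = ∑ i, (T i).indicator (C k i) y := by
      intro y
      simp only [hW]
      unfold At
      rw [Finset.sum_filter]
      refine Finset.sum_congr rfl fun i _ => ?_
      by_cases h : y ∈ T i
      · rw [indicator_of_mem h, if_pos h]
      · rw [indicator_of_notMem h, if_neg h]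
    rw [lintegral_congr e, lintegral_finsetSum _ fun i _ => (hCm k i).indicator (hTm i)]
    refine Finset.sum_congr rfl fun i _ => ?_
    rw [lintegral_indicator (hTm i)]
  -- pointwise
  have hpt : ∀ y, Fb N ω f a y ^ (1 + 1 / (d : ℝ)) ≤
      ∏ k ∈ Finset.range (r + 1), W k y ^ (1 / (d : ℝ)) := by
    intro y
    set A := At N ω f a y with hA
    have h1 := card_pow_le (r + 1) A (lamS lam) (by
      intro i _ j _ hij
      have h2 := hij r (Nat.lt_succ_self r)
      unfold lamS at h2
      rw [dif_neg (lt_irrefl r), dif_neg (lt_irrefl r)] at h2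
      exact Sum.inr_injective h2)
    have h2 : A.card ^ (r + 1 + 1) ≤ ∏ k ∈ Finset.range (r + 1), ∑ i ∈ A, cnt A (lamS lam) k i := by
      exact_mod_cast h1
    have h3 : ((A.card : ℝ≥0∞)) ^ (r + 1 + 1) ≤ ∏ k ∈ Finset.range (r + 1), W k y := by
      have h4 : ((A.card ^ (r + 1 + 1) : ℕ) : ℝ≥0∞) ≤
          ((∏ k ∈ Finset.range (r + 1), ∑ i ∈ A, cnt A (lamS lam) k i : ℕ) : ℝ≥0∞) := by
        exact_mod_cast h2
      push_cast at h4
      exact h4
    rw [ENNReal.prod_rpow_of_nonneg (by positivity), Fb_eq, ← hA]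
    have h5 : (A.card : ℝ≥0∞) ^ (1 + 1 / (d : ℝ)) = ((A.card : ℝ≥0∞) ^ (r + 1 + 1)) ^ (1 / (d : ℝ)) := by
      rw [← ENNReal.rpow_natCast, ← ENNReal.rpow_mul]
      congr 1
      rw [hd]
      push_cast
      field_simp
    rw [h5]
    exact ENNReal.rpow_le_rpow h3 (by positivity)
  have hholder : ∫⁻ y, ∏ k ∈ Finset.range (r + 1), W k y ^ (1 / (d : ℝ)) ≤
      ∏ k ∈ Finset.range (r + 1), (∫⁻ y, W k y) ^ (1 / (d : ℝ)) := by
    refine ENNReal.lintegral_prod_norm_pow_le (μ := volume) (Finset.range (r + 1)) (f := W)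
      (fun k _ => (hWm k).aemeasurable) (p := fun _ => 1 / (d : ℝ)) ?_ (fun _ _ => by positivity)
    rw [Finset.sum_const, Finset.card_range, nsmul_eq_mul, hd]
    push_cast
    field_simp
  have hk1 : ∀ k : Fin r, ∫⁻ y, W k y ≤ ENNReal.ofReal (M k * N ^ (2 * (d + 1))) := by
    intro k
    rw [hWi]
    refine le_trans (le_of_eq ?_) (hlab k)
    refine Finset.sum_congr rfl fun i _ => ?_
    refine lintegral_congr fun y => ?_
    show ((cnt (At N ω f a y) (lamS lam) k i : ℕ) : ℝ≥0∞) = _
    rw [← cnt_lt N ω f a lam k i y]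
  have hkr : ∫⁻ y, W r y ≤ ENNReal.ofReal (720 * d * K * Λ * (1 + Real.log N) * N ^ (2 * (d + 1))) := by
    rw [hWi]
    have h1 : ∀ i, ∫⁻ y in T i, C r i y ≤
        ENNReal.ofReal (720 * d * K * N ^ (d + 2) * (1 + Real.log N)) := by
      intro i
      set c : Finset ι := Finset.univ.filter fun j => ∀ l : Fin r, lam l j = lam l i with hc
      have h2 : ∀ y, C r i y ≤ ∑ j ∈ c, (T j).indicator (fun _ => (1 : ℝ≥0∞)) y := by
        intro y
        have h3 := cnt_last (At N ω f a y) lam i
        have h4 : (((At N ω f a y).filter fun j => ∀ l : Fin r, lam l j = lam l i).card : ℝ≥0∞) =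
            ∑ j ∈ c, (T j).indicator (fun _ => (1 : ℝ≥0∞)) y := by
          rw [Finset.card_eq_sum_ones]
          push_cast
          unfold At
          rw [Finset.filter_filter, Finset.sum_filter, hc, Finset.sum_filter]
          refine Finset.sum_congr rfl fun j _ => ?_
          by_cases h5 : y ∈ box N (nor (ω j)) (f j) (a j)
          · by_cases h6 : ∀ l : Fin r, lam l j = lam l i
            · rw [if_pos ⟨h5, h6⟩, if_pos h6, indicator_of_mem (show y ∈ T j from h5)]
            · rw [if_neg (fun h => h6 h.2), if_neg h6]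
          · rw [if_neg (fun h => h5 h.1), indicator_of_notMem (show y ∉ T j from h5)]
            simp
        rw [← h4]
        show ((cnt (At N ω f a y) (lamS lam) r i : ℕ) : ℝ≥0∞) ≤ _
        have h7 : {j | j ∈ At N ω f a y ∧ ∀ l : Fin r, lam l j = lam l i}.ncard =
            ((At N ω f a y).filter fun j => ∀ l : Fin r, lam l j = lam l i).card := by
          rw [← Set.ncard_coe_finset]
          congr 1
          ext j
          simp only [mem_ofPred_eq, Finset.coe_filter]
        rw [h7] at h3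
        exact_mod_cast h3
      calc ∫⁻ y in T i, C r i y ≤ ∫⁻ y in T i, ∑ j ∈ c, (T j).indicator (fun _ => (1 : ℝ≥0∞)) y :=
            lintegral_mono h2
        _ = ∑ j ∈ c, volume (T i ∩ T j) := by
            rw [lintegral_finsetSum _ fun j _ => measurable_const.indicator (hTm j)]
            refine Finset.sum_congr rfl fun j _ => ?_
            rw [lintegral_indicator_const (hTm j), Measure.restrict_apply (hTm j), one_mul,
              inter_comm]
        _ ≤ _ := by
            refine sum_pair hd1 hN hK ω hω f hf a i c fun ρ hρ => ?_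
            refine le_trans (le_of_eq ?_) (hcount i ρ hρ)
            rw [← Set.ncard_coe_finset]
            congr 2
            ext j
            simp only [hc, Finset.coe_filter, Finset.mem_filter, Finset.mem_univ, true_and,
              mem_ofPred_eq]
    calc ∑ i, ∫⁻ y in T i, C r i y
        ≤ ∑ _i : ι, ENNReal.ofReal (720 * d * K * N ^ (d + 2) * (1 + Real.log N)) :=
          Finset.sum_le_sum fun i _ => h1 i
      _ = ENNReal.ofReal ((Fintype.card ι : ℝ) * (720 * d * K * N ^ (d + 2) * (1 + Real.log N))) := by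
          rw [Finset.sum_const, Finset.card_univ, nsmul_eq_mul, ← ENNReal.ofReal_natCast,
            ← ENNReal.ofReal_mul (Nat.cast_nonneg _)]
      _ ≤ _ := by
          apply ENNReal.ofReal_le_ofReal
          calc (Fintype.card ι : ℝ) * (720 * d * K * N ^ (d + 2) * (1 + Real.log N))
              ≤ Λ * N ^ d * (720 * d * K * N ^ (d + 2) * (1 + Real.log N)) := by gcongr
            _ = 720 * d * K * Λ * (1 + Real.log N) * (N ^ d * N ^ (d + 2)) := by ring
            _ = _ := by
              rw [← pow_add]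
              congr 2
              ring
  calc ∫⁻ y, Fb N ω f a y ^ (1 + 1 / (d : ℝ))
      ≤ ∫⁻ y, ∏ k ∈ Finset.range (r + 1), W k y ^ (1 / (d : ℝ)) := lintegral_mono hpt
    _ ≤ ∏ k ∈ Finset.range (r + 1), (∫⁻ y, W k y) ^ (1 / (d : ℝ)) := hholder
    _ = (∏ k ∈ Finset.range r, (∫⁻ y, W k y) ^ (1 / (d : ℝ))) * (∫⁻ y, W r y) ^ (1 / (d : ℝ)) :=
        Finset.prod_range_succ _ _
    _ = (∏ k : Fin r, (∫⁻ y, W k y) ^ (1 / (d : ℝ))) * (∫⁻ y, W r y) ^ (1 / (d : ℝ)) := by
        rw [Finset.prod_range]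
    _ ≤ _ := by
        refine mul_le_mul' (Finset.prod_le_prod' fun k _ => ?_) ?_
        · exact ENNReal.rpow_le_rpow (hk1 k) (by positivity)
        · exact ENNReal.rpow_le_rpow hkr (by positivity)

end Pool.Agent.Q86.Ks
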