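import Pool.Agent.Q86.KsF

set_option autoImplicit false

/-! Boxes in slabs. -/

open MeasureTheory Set Filter Topology ENNReal NNReal Metric

namespace Pool.Agent.Q86.Ks

open Pool.Agent.H810R3.Tub Pool.Agent.W772

variable {d : ℕ}

/-- extension of an orthonormal family and a further vector to a basis -/
theorem ext_fam (k : ℕ) (w : Fin k → Space d) (hw : Orthonormal ℝ w) (u : Space d)
    (hu : ‖u‖ = 1) (huw : ∀ l, (inner ℝ (w l) u : ℝ) = 0) :
    ∃ b : OrthonormalBasis (Fin (d + 1)) ℝ (Space d),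
      (∀ l : Fin (d + 1), ∀ h : l.val < k, b l = w ⟨l.val, h⟩) ∧
      ∀ l : Fin (d + 1), l.val = k → b l = u := by
  set v : Fin (d + 1) → Space d := fun l => if h : l.val < k then w ⟨l.val, h⟩ else u with hv
  have hpos : ∀ (l : Fin (d + 1)) (h : l.val < k), v l = w ⟨l.val, h⟩ := by
    intro l h
    simp only [hv]
    rw [dif_pos h]
  have hneg : ∀ (l : Fin (d + 1)), ¬ l.val < k → v l = u := by
    intro l h
    simp only [hv]
    rw [dif_neg h]
  obtain ⟨b, hb⟩ := ext_basis k v (by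
    constructor
    · rintro ⟨l, hl⟩
      by_cases h : l.val < k
      · show ‖v l‖ = 1
        rw [hpos l h]
        exact hw.1 _
      · show ‖v l‖ = 1
        rw [hneg l h]
        exact hu
    · rintro ⟨l, hl⟩ ⟨l', hl'⟩ hne
      show (inner ℝ (v l) (v l') : ℝ) = 0
      have hne' : l ≠ l' := fun h => hne (by simp only [h])
      by_cases h : l.val < k
      · by_cases h' : l'.val < k
        · rw [hpos l h, hpos l' h']
          refine hw.2 fun h2 => hne' ?_
          rw [Fin.mk.injEq] at h2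
          exact Fin.ext h2
        · rw [hpos l h, hneg l' h']
          exact huw _
      · by_cases h' : l'.val < k
        · rw [hneg l h, hpos l' h', real_inner_comm]
          exact huw _
        · exfalso
          apply hne'
          apply Fin.ext
          have h1 : l.val ≤ k := hl
          have h2 : l'.val ≤ k := hl'
          omega)
  refine ⟨b, fun l h => ?_, fun l h => ?_⟩
  · rw [hb l h.le, hpos l h]
  · rw [hb l h.le, hneg l (by omega)]

/-- a unit vector orthogonal to few vectors -/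
theorem exists_perp {m : ℕ} (hm : m < d + 1) (w : Fin m → Space d) :
    ∃ u : Space d, ‖u‖ = 1 ∧ ∀ l, (inner ℝ (w l) u : ℝ) = 0 := by
  set V : Submodule ℝ (Space d) := Submodule.span ℝ (Set.range w) with hV
  have h1 : Module.finrank ℝ V ≤ m := by
    have := finrank_range_le_card (R := ℝ) w
    rw [Fintype.card_fin] at this
    exact this
  have h2 : Vᗮ ≠ ⊥ := by
    intro h
    rw [Submodule.orthogonal_eq_bot_iff] at h
    rw [h, finrank_top, finrank_space] at h1
    omega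
  obtain ⟨x, hx, hx0⟩ := Submodule.exists_mem_ne_zero_of_ne_bot h2
  have hxp : 0 < ‖x‖ := norm_pos_iff.2 hx0
  refine ⟨(‖x‖⁻¹) • x, ?_, fun l => ?_⟩
  · rw [norm_smul, norm_inv, norm_norm, inv_mul_cancel₀ hxp.ne']
  · rw [inner_smul_right]
    have h3 : (inner ℝ (w l) x : ℝ) = 0 :=
      (Submodule.mem_orthogonal V x).1 hx _ (Submodule.subset_span (Set.mem_range_self l))
    rw [h3, mul_zero]

/-- the axis of a box in a slab is almost orthogonal to the normal of the slab -/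
theorem axis_slab {N K : ℝ} (hN : 1 ≤ N) {e : Space d} {f : Fin d → Space d}
    (h : Orthonormal ℝ (Fin.cons e f : Fin (d + 1) → Space d)) (a ν : Space d) (t : ℝ)
    (hs : ∀ y ∈ box N e f a, |inner ℝ ν y - t| ≤ K * N) :
    |inner ℝ ν e| ≤ 2 * K / N := by
  have hN0 : 0 < N := by linarith
  have hne : ‖e‖ = 1 := norm_e h
  have hee : (inner ℝ e e : ℝ) = 1 := by rw [real_inner_self_eq_norm_sq, hne]; norm_num
  have hfe : ∀ j, (inner ℝ (f j) e : ℝ) = 0 := by
    intro j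
    have := h.2 (show (j.succ : Fin (d + 1)) ≠ 0 from Fin.succ_ne_zero j)
    simpa using this
  have hmem : ∀ s : ℝ, |s| ≤ N ^ 2 / 2 → a + s • e ∈ box N e f a := by
    intro s hs'
    refine ⟨?_, fun j => ?_⟩
    · rw [add_sub_cancel_left, inner_smul_right, hee, mul_one]
      exact hs'
    · rw [add_sub_cancel_left, inner_smul_right, hfe j, mul_zero, abs_zero]
      positivity
  have h1 := hs _ (hmem (N ^ 2 / 2) (by rw [abs_of_nonneg (by positivity)]))
  have h2 := hs _ (hmem (-(N ^ 2 / 2)) (by rw [abs_neg, abs_of_nonneg (by positivity)]))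
  rw [inner_add_right, inner_smul_right] at h1 h2
  have h3 : N ^ 2 * |inner ℝ ν e| ≤ 2 * K * N := by
    have e1 : N ^ 2 * (inner ℝ ν e : ℝ) = (inner ℝ ν a + N ^ 2 / 2 * inner ℝ ν e - t) -
        (inner ℝ ν a + -(N ^ 2 / 2) * inner ℝ ν e - t) := by ring
    calc N ^ 2 * |inner ℝ ν e| = |N ^ 2 * inner ℝ ν e| := by
          rw [abs_mul, abs_of_nonneg (by positivity : (0 : ℝ) ≤ N ^ 2)]
      _ ≤ _ := by
          rw [e1]
          refine (abs_sub _ _).trans ?_
          linarith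
  rw [le_div_iff₀ hN0]
  have h4 : N * (|inner ℝ ν e| * N) ≤ N * (2 * K) := by
    calc N * (|inner ℝ ν e| * N) = N ^ 2 * |inner ℝ ν e| := by ring
      _ ≤ _ := h3
      _ = _ := by ring
  exact le_of_mul_le_mul_left h4 hN0

/-- the classes of boxes in the same slabs are one-dimensional -/
theorem slab_count {r : ℕ} (hd : d = r + 1) {N σ K : ℝ} (hN : 1 ≤ N) (hσ : 0 < σ) (hσ1 : σ ≤ 1)
    (hK : 1 ≤ K) {ι : Type} [Fintype ι] (ω : ι → Vec d) (hω : ∀ i, ‖ω i‖ ≤ 1)
    (hsep : ∀ i j, i ≠ j → σ / N ≤ ‖ω i - ω j‖) (f : ι → Fin d → Space d)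
    (hf : ∀ i, Orthonormal ℝ (Fin.cons (nor (ω i)) (f i) : Fin (d + 1) → Space d))
    (a : ι → Space d) (ν : ι → Fin r → Space d) (t : ι → Fin r → ℝ)
    (hν : ∀ i, Orthonormal ℝ (ν i))
    (hs : ∀ i k, ∀ y ∈ box N (nor (ω i)) (f i) (a i), |inner ℝ (ν i k) y - t i k| ≤ K * N)
    {Q : ℝ} (hQ : Q = 16 * (d + 1) / σ) (i : ι) (ρ : ℝ) (hρ : 0 ≤ ρ) :
    (({j | (∀ l, (ν j l, t j l) = (ν i l, t i l)) ∧ ‖ω j - ω i‖ ≤ ρ} : Set ι).ncard : ℝ) ≤
      ((3 * Q * (2 * K)) ^ d * (2 * Q) * 2) * (1 + ρ * N) := by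
  classical
  have hN0 : 0 < N := by linarith
  have hd0 : (0 : ℝ) ≤ d := Nat.cast_nonneg d
  have hQ0 : 0 < Q := by rw [hQ]; positivity
  obtain ⟨u, hu1, hu2⟩ := exists_perp (d := d) (m := r + 1) (by omega)
    (Fin.cons (nor (ω i)) (ν i) : Fin (r + 1) → Space d)
  obtain ⟨b, hb1, hb2⟩ := ext_fam r (ν i) (hν i) u hu1 (fun l => by
    have := hu2 l.succ
    rwa [Fin.cons_succ] at this)
  set c : Finset ι := Finset.univ.filter fun j =>
    (∀ l, (ν j l, t j l) = (ν i l, t i l)) ∧ ‖ω j - ω i‖ ≤ ρ with hc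
  have hcard : ({j | (∀ l, (ν j l, t j l) = (ν i l, t i l)) ∧ ‖ω j - ω i‖ ≤ ρ} : Set ι).ncard =
      c.card := by
    rw [← Set.ncard_coe_finset]
    congr 1
    ext j
    simp only [hc, Finset.coe_filter, Finset.mem_univ, true_and]
  rw [hcard]
  have hbr : b ⟨r, by omega⟩ = u := hb2 ⟨r, by omega⟩ rfl
  have key := count_near (A := 2 * K) (r := 2 * ρ) hN hσ hσ1 (by linarith) (by linarith) ω hω hsep b
    ⟨r, by omega⟩ (by simp only; omega) c (by
      intro l hl j hj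
      have hl' : l.val < r := hl
      rw [hb1 l hl']
      have h1 : ν j ⟨l.val, hl'⟩ = ν i ⟨l.val, hl'⟩ :=
        (Prod.ext_iff.1 ((Finset.mem_filter.1 hj).2.1 ⟨l.val, hl'⟩)).1
      rw [← h1]
      exact axis_slab hN (hf j) (a j) _ (t j ⟨l.val, hl'⟩) (hs j ⟨l.val, hl'⟩)) (by
      intro j hj
      rw [hbr]
      have h1 : (inner ℝ u (nor (ω i)) : ℝ) = 0 := by
        have := hu2 0
        rw [Fin.cons_zero] at this
        rw [real_inner_comm]
        exact this
      have h2 : (inner ℝ u (nor (ω j)) : ℝ) = inner ℝ u (nor (ω j) - nor (ω i)) := by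
        rw [inner_sub_right, h1, sub_zero]
      rw [h2]
      refine (abs_real_inner_le_norm _ _).trans ?_
      rw [hu1, one_mul]
      refine (nor_lip _ _).trans ?_
      have := (Finset.mem_filter.1 hj).2.2
      linarith) hQ
  have e0 : d - r - 1 = 0 := by omega
  simp only [e0, pow_zero, mul_one] at key
  refine key.trans ?_
  have h3 : 1 + 2 * ρ * N ≤ 2 * (1 + ρ * N) := by nlinarith [mul_nonneg hρ hN0.le]
  calc (3 * Q * (2 * K)) ^ d * (2 * Q) * (1 + 2 * ρ * N)
      ≤ (3 * Q * (2 * K)) ^ d * (2 * Q) * (2 * (1 + ρ * N)) := by gcongr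
    _ = _ := by ring

/-- the sum of the volumes of the parts of the boxes of a class in a slab -/
theorem slab_sum {r : ℕ} (hd : d = r + 1) {N σ K : ℝ} (hN : 1 ≤ N) (hσ : 0 < σ) (hσ1 : σ ≤ 1)
    (hK : 1 ≤ K) {ι : Type} [Fintype ι] (ω : ι → Vec d) (hω : ∀ i, ‖ω i‖ ≤ 1)
    (hsep : ∀ i j, i ≠ j → σ / N ≤ ‖ω i - ω j‖) (f : ι → Fin d → Space d)
    (hf : ∀ i, Orthonormal ℝ (Fin.cons (nor (ω i)) (f i) : Fin (d + 1) → Space d))
    (a : ι → Space d) (ν : ι → Fin r → Space d) (t : ι → Fin r → ℝ)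
    (hν : ∀ i, Orthonormal ℝ (ν i))
    (hs : ∀ i k, ∀ y ∈ box N (nor (ω i)) (f i) (a i), |inner ℝ (ν i k) y - t i k| ≤ K * N)
    {Q : ℝ} (hQ : Q = 16 * (d + 1) / σ) (k : Fin r) (i₀ : ι) (c : Finset ι)
    (hc : ∀ i ∈ c, ∀ l : Fin r, l < k → (ν i l, t i l) = (ν i₀ l, t i₀ l)) :
    ∑ i ∈ c, volume {y | y ∈ box N (nor (ω i)) (f i) (a i) ∧
        |inner ℝ (ν i₀ k) y - t i₀ k| ≤ K * N} ≤
      ENNReal.ofReal (18 * K * ((3 * Q * (2 * K)) ^ d * (2 * Q * (1 + Real.log (2 * Q)))) *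
        (1 + Real.log N) * N ^ (2 * d + 1 - k.val)) := by
  classical
  have hN0 : 0 < N := by linarith
  have hd0 : (0 : ℝ) ≤ d := Nat.cast_nonneg d
  have hkr := k.isLt
  obtain ⟨b, hb1, hb2⟩ := ext_fam (d := d) k.val (fun l : Fin k.val => ν i₀ ⟨l.val, by omega⟩)
    ((hν i₀).comp _ (fun l l' h => by
      rw [Fin.mk.injEq] at h
      exact Fin.ext h)) (ν i₀ k) ((hν i₀).1 k) (fun l => by
      refine (hν i₀).2 fun h => ?_
      have h2 : l.val = k.val := congrArg Fin.val h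
      have := l.isLt
      omega)
  have hbk : b ⟨k.val, by omega⟩ = ν i₀ k := hb2 ⟨k.val, by omega⟩ rfl
  have key := count_weight (A := 2 * K) hN hσ hσ1 (by linarith) ω hω hsep b
    ⟨k.val, by omega⟩ (by simp only; omega) c (by
      intro l hl j hj
      have hl' : l.val < k.val := hl
      rw [hb1 l hl']
      have h1 : ν j ⟨l.val, by omega⟩ = ν i₀ ⟨l.val, by omega⟩ :=
        (Prod.ext_iff.1 (hc j hj ⟨l.val, by omega⟩ hl')).1
      rw [← h1]
      exact axis_slab hN (hf j) (a j) _ (t j ⟨l.val, by omega⟩) (hs j ⟨l.val, by omega⟩)) hQ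
  rw [hbk] at key
  calc ∑ i ∈ c, volume {y | y ∈ box N (nor (ω i)) (f i) (a i) ∧
        |inner ℝ (ν i₀ k) y - t i₀ k| ≤ K * N}
      ≤ ∑ i ∈ c, ENNReal.ofReal (18 * K * N ^ (d + 2) *
          (1 / (1 + N * |inner ℝ (ν i₀ k) (nor (ω i))|))) :=
        Finset.sum_le_sum fun i _ => vol_slab' hN hK (hf i) (a i) _ _
    _ = ENNReal.ofReal (18 * K * N ^ (d + 2) *
          ∑ i ∈ c, (1 / (1 + N * |inner ℝ (ν i₀ k) (nor (ω i))|))) := by
        rw [← ENNReal.ofReal_sum_of_nonneg (fun j _ => by positivity), Finset.mul_sum]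
    _ ≤ _ := by
        apply ENNReal.ofReal_le_ofReal
        calc 18 * K * N ^ (d + 2) * ∑ i ∈ c, (1 / (1 + N * |inner ℝ (ν i₀ k) (nor (ω i))|))
            ≤ 18 * K * N ^ (d + 2) * (((3 * Q * (2 * K)) ^ d * (2 * Q * (1 + Real.log (2 * Q)))) *
                (1 + Real.log N) * N ^ (d - k.val - 1)) := by gcongr
          _ = 18 * K * ((3 * Q * (2 * K)) ^ d * (2 * Q * (1 + Real.log (2 * Q)))) *
                (1 + Real.log N) * (N ^ (d + 2) * N ^ (d - k.val - 1)) := by ring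
          _ = _ := by
            rw [← pow_add]
            congr 2
            omega

end Pool.Agent.Q86.Ks
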