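import Pool.Agent.Q86.KsG

set_option autoImplicit false

/-! The label counts of boxes in slabs, and the main theorems. -/

open MeasureTheory Set Filter Topology ENNReal NNReal Metric

namespace Pool.Agent.Q86.Ks

open Pool.Agent.H810R3.Tub Pool.Agent.W772

variable {d : ℕ}

theorem slab_labels {r : ℕ} (hd : d = r + 1) {N σ K M : ℝ} (hN : 1 ≤ N) (hσ : 0 < σ) (hσ1 : σ ≤ 1)
    (hK : 1 ≤ K) {ι : Type} [Fintype ι] (ω : ι → Vec d) (hω : ∀ i, ‖ω i‖ ≤ 1)
    (hsep : ∀ i j, i ≠ j → σ / N ≤ ‖ω i - ω j‖) (f : ι → Fin d → Space d)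
    (hf : ∀ i, Orthonormal ℝ (Fin.cons (nor (ω i)) (f i) : Fin (d + 1) → Space d))
    (a : ι → Space d) (ν : ι → Fin r → Space d) (t : ι → Fin r → ℝ)
    (hν : ∀ i, Orthonormal ℝ (ν i))
    (hs : ∀ i k, ∀ y ∈ box N (nor (ω i)) (f i) (a i), |inner ℝ (ν i k) y - t i k| ≤ K * N)
    {Q : ℝ} (hQ : Q = 16 * (d + 1) / σ) (k : Fin r)
    (hcnt : ((Set.range fun (i : ι) (l : {l : Fin r // l ≤ k}) =>
      (ν i l, t i l)).ncard : ℝ) ≤ M * N ^ (k.val + 1)) :
    ∑ i, ∫⁻ y in box N (nor (ω i)) (f i) (a i),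
      (labelCount N ω f a (fun (l : Fin r) (j : ι) => (ν j l, t j l)) k i y : ℝ≥0∞) ≤
      ENNReal.ofReal (M * (18 * K * ((3 * Q * (2 * K)) ^ d * (2 * Q * (1 + Real.log (2 * Q)))) *
        (1 + Real.log N)) * N ^ (2 * (d + 1))) := by
  classical
  have hN0 : 0 < N := by linarith
  have hd0 : (0 : ℝ) ≤ d := Nat.cast_nonneg d
  have hkr := k.isLt
  have hQ1 : 1 ≤ Q := by
    rw [hQ, le_div_iff₀ hσ]
    nlinarith
  have hlogN : 0 ≤ Real.log N := Real.log_nonneg hN
  have hlogQ : 0 ≤ Real.log (2 * Q) := Real.log_nonneg (by linarith)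
  set T : ι → Set (Space d) := fun i => box N (nor (ω i)) (f i) (a i) with hT
  have hTm : ∀ i, MeasurableSet (T i) := fun i => (box_closed _ _ _ _).measurableSet
  -- the sequences of the first slabs
  let key : ι → ({l : Fin r // l ≤ k} → Space d × ℝ) := fun i l => (ν i l, t i l)
  set P : Finset ({l : Fin r // l ≤ k} → Space d × ℝ) := Finset.univ.image key with hP
  have hPcard : (P.card : ℝ) ≤ M * N ^ (k.val + 1) := by
    have e : (P.card : ℝ) = ((Set.range key).ncard : ℝ) := by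
      rw [← Set.ncard_coe_finset, hP, Finset.coe_image, Finset.coe_univ, Set.image_univ]
    rw [e]
    exact hcnt
  set kk : {l : Fin r // l ≤ k} := ⟨k, le_rfl⟩ with hkk
  set Sl : ({l : Fin r // l ≤ k} → Space d × ℝ) → Set (Space d) :=
    fun u => {y | |inner ℝ (u kk).1 y - (u kk).2| ≤ K * N} with hSl
  have hSlm : ∀ u, MeasurableSet (Sl u) := by
    intro u
    have hcont : Continuous fun y : Space d => |(inner ℝ (u kk).1 y : ℝ) - (u kk).2| := by fun_prop
    exact (isClosed_le hcont continuous_const).measurableSet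
  let rel : ι → ({l : Fin r // l ≤ k} → Space d × ℝ) → Prop := fun i u =>
    ∀ l : {l : Fin r // l ≤ k}, l.1 < k → u l = (ν i l, t i l)
  -- pointwise bound
  have hpt : ∀ i y, (labelCount N ω f a (fun (l : Fin r) (j : ι) => (ν j l, t j l)) k i y : ℝ≥0∞) ≤
      ∑ u ∈ P.filter (fun u => rel i u), (Sl u).indicator (fun _ => (1 : ℝ≥0∞)) y := by
    intro i y
    have h1 : labelCount N ω f a (fun (l : Fin r) (j : ι) => (ν j l, t j l)) k i y ≤
        ((P.filter (fun u => rel i u)).filter (fun u => y ∈ Sl u)).card := by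
      unfold labelCount
      set F := (P.filter (fun u => rel i u)).filter (fun u => y ∈ Sl u) with hF
      refine le_trans (Set.ncard_le_ncard (t := ((F.image fun u => u kk : Finset (Space d × ℝ)) :
        Set (Space d × ℝ))) ?_ (Finset.finite_toSet _)) ?_
      · rintro c ⟨j, h2, h3, h4⟩
        rw [Finset.mem_coe, Finset.mem_image]
        refine ⟨key j, ?_, h4⟩
        rw [hF, Finset.mem_filter, Finset.mem_filter]
        refine ⟨⟨Finset.mem_image_of_mem _ (Finset.mem_univ j), ?_⟩, ?_⟩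
        · intro l hl
          exact h2 l.1 hl
        · exact hs j k y h3
      · rw [Set.ncard_coe_finset]
        exact Finset.card_image_le
    have h2 : ((((P.filter (fun u => rel i u)).filter (fun u => y ∈ Sl u)).card : ℕ) : ℝ≥0∞) =
        ∑ u ∈ P.filter (fun u => rel i u), (Sl u).indicator (fun _ => (1 : ℝ≥0∞)) y := by
      rw [Finset.card_eq_sum_ones, Finset.sum_filter]
      push_cast
      refine Finset.sum_congr rfl fun u _ => ?_
      by_cases h : y ∈ Sl u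
      · rw [indicator_of_mem h, if_pos h]
      · rw [indicator_of_notMem h, if_neg h]
    rw [← h2]
    exact_mod_cast h1
  have hone : ∀ u ∈ P, ∑ i ∈ Finset.univ.filter (fun i => rel i u), volume (T i ∩ Sl u) ≤
      ENNReal.ofReal (18 * K * ((3 * Q * (2 * K)) ^ d * (2 * Q * (1 + Real.log (2 * Q)))) *
        (1 + Real.log N) * N ^ (2 * d + 1 - k.val)) := by
    intro u hu
    obtain ⟨i₀, _, rfl⟩ := Finset.mem_image.1 hu
    exact slab_sum hd hN hσ hσ1 hK ω hω hsep f hf a ν t hν hs hQ k i₀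
      (Finset.univ.filter (fun i => rel i (key i₀))) (by
        intro i hi l hl
        have h1 := (Finset.mem_filter.1 hi).2 ⟨l, hl.le⟩ hl
        exact h1.symm)
  calc ∑ i, ∫⁻ y in T i,
        (labelCount N ω f a (fun (l : Fin r) (j : ι) => (ν j l, t j l)) k i y : ℝ≥0∞)
      ≤ ∑ i, ∫⁻ y in T i, ∑ u ∈ P.filter (fun u => rel i u),
          (Sl u).indicator (fun _ => (1 : ℝ≥0∞)) y :=
        Finset.sum_le_sum fun i _ => lintegral_mono (hpt i)
    _ = ∑ i, ∑ u ∈ P.filter (fun u => rel i u), volume (T i ∩ Sl u) := by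
        refine Finset.sum_congr rfl fun i _ => ?_
        rw [lintegral_finsetSum _ fun u _ => measurable_const.indicator (hSlm u)]
        refine Finset.sum_congr rfl fun u _ => ?_
        rw [lintegral_indicator_const (hSlm u), Measure.restrict_apply (hSlm u), one_mul,
          inter_comm]
    _ = ∑ u ∈ P, ∑ i ∈ Finset.univ.filter (fun i => rel i u), volume (T i ∩ Sl u) := by
        simp only [Finset.sum_filter]
        exact Finset.sum_comm
    _ ≤ ∑ _u ∈ P, ENNReal.ofReal (18 * K * ((3 * Q * (2 * K)) ^ d *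
          (2 * Q * (1 + Real.log (2 * Q)))) * (1 + Real.log N) * N ^ (2 * d + 1 - k.val)) :=
        Finset.sum_le_sum hone
    _ = ENNReal.ofReal ((P.card : ℝ) * (18 * K * ((3 * Q * (2 * K)) ^ d *
          (2 * Q * (1 + Real.log (2 * Q)))) * (1 + Real.log N) * N ^ (2 * d + 1 - k.val))) := by
        rw [Finset.sum_const, nsmul_eq_mul, ← ENNReal.ofReal_natCast,
          ← ENNReal.ofReal_mul (Nat.cast_nonneg _)]
    _ ≤ _ := by
        apply ENNReal.ofReal_le_ofReal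
        calc (P.card : ℝ) * (18 * K * ((3 * Q * (2 * K)) ^ d *
              (2 * Q * (1 + Real.log (2 * Q)))) * (1 + Real.log N) * N ^ (2 * d + 1 - k.val))
            ≤ (M * N ^ (k.val + 1)) * (18 * K * ((3 * Q * (2 * K)) ^ d *
              (2 * Q * (1 + Real.log (2 * Q)))) * (1 + Real.log N) * N ^ (2 * d + 1 - k.val)) := by
              apply mul_le_mul_of_nonneg_right hPcard
              positivity
          _ = M * (18 * K * ((3 * Q * (2 * K)) ^ d * (2 * Q * (1 + Real.log (2 * Q)))) *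
              (1 + Real.log N)) * (N ^ (k.val + 1) * N ^ (2 * d + 1 - k.val)) := by ring
          _ = _ := by
            rw [← pow_add]
            congr 2
            omega

/-- from a product of powers to the loss -/
theorem loss {r : ℕ} (hd : d = r + 1) (m : Fin r → ℝ) {L Z V c₁ c₂ : ℝ} (hm : ∀ k, 0 ≤ m k)
    (hL : 0 ≤ L) (hV : 0 ≤ V) (hc₁ : 0 ≤ c₁) (hZ : Z = max c₁ c₂) :
    (∏ k, ENNReal.ofReal (m k * c₁ * V) ^ (1 / (d : ℝ))) *
        ENNReal.ofReal (c₂ * L * V) ^ (1 / (d : ℝ)) ≤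
      ENNReal.ofReal (Z * ((∏ k, m k) * L) ^ (1 / (d : ℝ)) * V) := by
  have hd0 : (0 : ℝ) < d := by
    rw [hd]; positivity
  have h2 : (0 : ℝ) ≤ 1 / (d : ℝ) := by positivity
  have hZ0 : 0 ≤ Z := by rw [hZ]; exact le_max_of_le_left hc₁
  have hc₁Z : c₁ ≤ Z := by rw [hZ]; exact le_max_left _ _
  have hc₂Z : c₂ ≤ Z := by rw [hZ]; exact le_max_right _ _
  have hP : 0 ≤ ∏ k, m k := Finset.prod_nonneg fun k _ => hm k
  have hZV : 0 ≤ Z * V := mul_nonneg hZ0 hV
  calc (∏ k, ENNReal.ofReal (m k * c₁ * V) ^ (1 / (d : ℝ))) *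
        ENNReal.ofReal (c₂ * L * V) ^ (1 / (d : ℝ))
      ≤ (∏ k, ENNReal.ofReal (m k * (Z * V)) ^ (1 / (d : ℝ))) *
          ENNReal.ofReal (L * (Z * V)) ^ (1 / (d : ℝ)) := by
        refine mul_le_mul' (Finset.prod_le_prod' fun k _ => ENNReal.rpow_le_rpow
          (ENNReal.ofReal_le_ofReal ?_) h2) (ENNReal.rpow_le_rpow (ENNReal.ofReal_le_ofReal ?_) h2)
        · have := hm k
          calc m k * c₁ * V ≤ m k * Z * V := by gcongr
            _ = _ := by ring
        · calc c₂ * L * V ≤ Z * L * V := by gcongr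
            _ = _ := by ring
    _ = ENNReal.ofReal ((∏ k, (m k * (Z * V))) * (L * (Z * V))) ^ (1 / (d : ℝ)) := by
        rw [ENNReal.prod_rpow_of_nonneg h2, ← ENNReal.mul_rpow_of_nonneg _ _ h2,
          ← ENNReal.ofReal_prod_of_nonneg (fun k _ => mul_nonneg (hm k) hZV),
          ← ENNReal.ofReal_mul (Finset.prod_nonneg fun k _ => mul_nonneg (hm k) hZV)]
    _ = ENNReal.ofReal (((∏ k, m k) * L) * (Z * V) ^ d) ^ (1 / (d : ℝ)) := by
        congr 2
        rw [Finset.prod_mul_distrib, Finset.prod_const, Finset.card_univ, Fintype.card_fin, hd,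
          pow_succ]
        ring
    _ = ENNReal.ofReal (((∏ k, m k) * L) ^ (1 / (d : ℝ)) * (Z * V)) := by
        rw [ENNReal.ofReal_rpow_of_nonneg (by positivity) h2, Real.mul_rpow (by positivity)
          (by positivity), ← Real.rpow_natCast (Z * V) d, ← Real.rpow_mul hZV,
          mul_one_div_cancel hd0.ne', Real.rpow_one]
    _ = _ := by
        congr 1
        ring

/-- The comparison for labelled families. -/
theorem labelled {r : ℕ} (σ κ K : ℝ) (hσ : 0 < σ) (hσ1 : σ ≤ 1) (hκ : 0 < κ) (hK : 0 ≤ K) :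
    ∃ C : ℝ, 0 < C ∧ ∀ N : ℝ, 1 ≤ N → ∀ (ι : Type) [Fintype ι] (ω : ι → Vec (r + 1))
      (f : ι → Fin (r + 1) → Space (r + 1)), (∀ i, ‖ω i‖ ≤ 1) →
      (∀ i j, i ≠ j → σ / N ≤ ‖ω i - ω j‖) → κ * N ^ (r + 1) ≤ (Fintype.card ι : ℝ) →
      (∀ i, Orthonormal ℝ (Fin.cons (nor (ω i)) (f i) : Fin (r + 1 + 1) → Space (r + 1))) →
      ∀ (a : ι → Space (r + 1)) (α : Type) (lam : Fin r → ι → α),
      (∀ i, ∀ ρ : ℝ, 0 ≤ ρ →
        (({j | (∀ l, lam l j = lam l i) ∧ ‖ω j - ω i‖ ≤ ρ} : Set ι).ncard : ℝ) ≤ K * (1 + ρ * N)) →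
      ∀ M : Fin r → ℝ, (∀ k, 1 ≤ M k) →
      (∀ k : Fin r, ∑ i, ∫⁻ y in box N (nor (ω i)) (f i) (a i),
        (labelCount N ω f a lam k i y : ℝ≥0∞) ≤
          ENNReal.ofReal (M k * (Fintype.card ι * N ^ (r + 3)))) →
      ∀ p : ℝ≥0∞, 1 ≤ p →
        eLpNorm (fun y : Space (r + 1) => ∑ i,
            (box N (nor (ω i)) (f i) (a i)).indicator (fun _ => (1 : ℝ)) y) p volume ≤
          ENNReal.ofReal (C * (((∏ k, M k) * (1 + Real.log N)) ^ (1 / ((r : ℝ) + 1))) ^ th (r + 1) p) *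
          eLpNorm (fun y : Space (r + 1) => ∑ i,
            (box N (nor (ω i)) (f i) 0).indicator (fun _ => (1 : ℝ)) y) p volume := by
  set d : ℕ := r + 1 with hd
  have hdr : ((d : ℕ) : ℝ) = (r : ℝ) + 1 := by rw [hd]; push_cast; ring
  have hd1 : (1 : ℝ) ≤ d := by
    rw [hdr]
    have : (0 : ℝ) ≤ r := Nat.cast_nonneg r
    linarith
  set Q : ℝ := 16 * (d + 1) / σ with hQ
  have hQ0 : 0 < Q := by positivity
  set Λ : ℝ := (3 * Q) ^ (d + 1) with hΛ
  have hΛ0 : 0 < Λ := by positivity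
  set Z : ℝ := max Λ (720 * d * K * Λ) with hZ
  have hZ0 : 0 < Z := lt_of_lt_of_le hΛ0 (le_max_left _ _)
  obtain ⟨D, hD1, hD⟩ := compare_tri d (by omega) κ Z hκ hZ0
  refine ⟨D, by linarith, ?_⟩
  intro N hN ι _ ω f hω hsep hcard hf a α lam hcount M hM hlab p hp
  have hN0 : 0 < N := by linarith
  have hne : Nonempty ι := by
    have h1 : 0 < κ * N ^ d := by positivity
    have h2 : (0 : ℝ) < (Fintype.card ι : ℝ) := by linarith
    have h3 : 0 < Fintype.card ι := by exact_mod_cast h2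
    exact Fintype.card_pos_iff.1 h3
  have hlogN : 0 ≤ Real.log N := Real.log_nonneg hN
  obtain ⟨i₀⟩ := hne
  have hcard2 := card_caps hN hσ hσ1 ω hω hsep (frame (hf i₀)) hQ
  have hprod : (1 : ℝ) ≤ ∏ k, M k := by
    calc (1 : ℝ) = ∏ _k : Fin r, (1 : ℝ) := by simp
      _ ≤ _ := Finset.prod_le_prod (fun _ _ => zero_le_one) (fun k _ => hM k)
  have hX : (1 : ℝ) ≤ (∏ k, M k) * (1 + Real.log N) := by nlinarith
  have hY : (1 : ℝ) ≤ ((∏ k, M k) * (1 + Real.log N)) ^ (1 / ((r : ℝ) + 1)) :=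
    Real.one_le_rpow hX (by positivity)
  have hne' : Nonempty ι := ⟨i₀⟩
  refine hD hN hY ω f hf a hcard ?_ p hp
  have h1 := gen_int hd (fun k => M k * Λ) hN hK ω hω f hf a lam hcard2 hcount (by
    intro k
    refine (hlab k).trans (ENNReal.ofReal_le_ofReal ?_)
    have hk := hM k
    calc M k * (Fintype.card ι * N ^ (r + 3)) ≤ M k * (Λ * N ^ d * N ^ (r + 3)) := by gcongr
      _ = M k * Λ * (N ^ d * N ^ (r + 3)) := by ring
      _ = _ := by
        rw [← pow_add]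
        congr 2
        omega)
  have e1 : 720 * (d : ℝ) * K * Λ * (1 + Real.log N) * N ^ (2 * (d + 1)) =
      (720 * d * K * Λ) * (1 + Real.log N) * N ^ (2 * (d + 1)) := by ring
  rw [e1] at h1
  refine h1.trans ((loss hd M (fun k => by linarith [hM k]) (by positivity) (by positivity)
    hΛ0.le hZ).trans (le_of_eq ?_))
  rw [hdr]

/-- The comparison for boxes in slabs. -/
theorem slabs {r : ℕ} (σ κ K : ℝ) (hσ : 0 < σ) (hσ1 : σ ≤ 1) (hκ : 0 < κ) (hK : 1 ≤ K) :
    ∃ C : ℝ, 0 < C ∧ ∀ N : ℝ, 1 ≤ N → ∀ (ι : Type) [Fintype ι] (ω : ι → Vec (r + 1))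
      (f : ι → Fin (r + 1) → Space (r + 1)), (∀ i, ‖ω i‖ ≤ 1) →
      (∀ i j, i ≠ j → σ / N ≤ ‖ω i - ω j‖) → κ * N ^ (r + 1) ≤ (Fintype.card ι : ℝ) →
      (∀ i, Orthonormal ℝ (Fin.cons (nor (ω i)) (f i) : Fin (r + 1 + 1) → Space (r + 1))) →
      ∀ (a : ι → Space (r + 1)) (ν : ι → Fin r → Space (r + 1)) (t : ι → Fin r → ℝ),
      (∀ i, Orthonormal ℝ (ν i)) →
      (∀ i k, ∀ y ∈ box N (nor (ω i)) (f i) (a i), |inner ℝ (ν i k) y - t i k| ≤ K * N) →
      ∀ M : Fin r → ℝ, (∀ k, 1 ≤ M k) →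
      (∀ k : Fin r, ((Set.range fun (i : ι) (l : {l : Fin r // l ≤ k}) => (ν i l, t i l)).ncard : ℝ)
        ≤ M k * N ^ (k.val + 1)) →
      ∀ p : ℝ≥0∞, 1 ≤ p →
        eLpNorm (fun y : Space (r + 1) => ∑ i,
            (box N (nor (ω i)) (f i) (a i)).indicator (fun _ => (1 : ℝ)) y) p volume ≤
          ENNReal.ofReal (C * ((∏ k, M k) ^ (1 / ((r : ℝ) + 1)) * (1 + Real.log N)) ^ th (r + 1) p) *
          eLpNorm (fun y : Space (r + 1) => ∑ i,
            (box N (nor (ω i)) (f i) 0).indicator (fun _ => (1 : ℝ)) y) p volume := by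
  set d : ℕ := r + 1 with hd
  have hdr : ((d : ℕ) : ℝ) = (r : ℝ) + 1 := by rw [hd]; push_cast; ring
  have hd1 : (1 : ℝ) ≤ d := by
    rw [hdr]
    have : (0 : ℝ) ≤ r := Nat.cast_nonneg r
    linarith
  have hd0 : (0 : ℝ) < d := by linarith
  set Q : ℝ := 16 * (d + 1) / σ with hQ
  have hQ1 : 1 ≤ Q := by
    rw [hQ, le_div_iff₀ hσ]
    nlinarith
  have hQ0 : 0 < Q := by linarith
  have hlogQ : 0 ≤ Real.log (2 * Q) := Real.log_nonneg (by linarith)
  set Λ : ℝ := (3 * Q) ^ (d + 1) with hΛ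
  have hΛ0 : 0 < Λ := by positivity
  set c₁ : ℝ := 18 * K * ((3 * Q * (2 * K)) ^ d * (2 * Q * (1 + Real.log (2 * Q)))) with hc₁
  have hc₁0 : 0 < c₁ := by positivity
  set K' : ℝ := (3 * Q * (2 * K)) ^ d * (2 * Q) * 2 with hK'
  have hK'0 : 0 < K' := by positivity
  set Z : ℝ := max c₁ (720 * d * K' * Λ) with hZ
  have hZ0 : 0 < Z := lt_of_lt_of_le hc₁0 (le_max_left _ _)
  obtain ⟨D, hD1, hD⟩ := compare_tri d (by omega) κ Z hκ hZ0
  refine ⟨D, by linarith, ?_⟩
  intro N hN ι _ ω f hω hsep hcard hf a ν t hν hs M hM hcnt p hp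
  have hN0 : 0 < N := by linarith
  have hne : Nonempty ι := by
    have h1 : 0 < κ * N ^ d := by positivity
    have h2 : (0 : ℝ) < (Fintype.card ι : ℝ) := by linarith
    have h3 : 0 < Fintype.card ι := by exact_mod_cast h2
    exact Fintype.card_pos_iff.1 h3
  have hlogN : 0 ≤ Real.log N := Real.log_nonneg hN
  obtain ⟨i₀⟩ := hne
  have hcard2 := card_caps hN hσ hσ1 ω hω hsep (frame (hf i₀)) hQ
  have hprod : (1 : ℝ) ≤ ∏ k, M k := by
    calc (1 : ℝ) = ∏ _k : Fin r, (1 : ℝ) := by simp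
      _ ≤ _ := Finset.prod_le_prod (fun _ _ => zero_le_one) (fun k _ => hM k)
  have hX : (1 : ℝ) ≤ (∏ k, M k) ^ (1 / ((r : ℝ) + 1)) :=
    Real.one_le_rpow hprod (by positivity)
  have hY : (1 : ℝ) ≤ (∏ k, M k) ^ (1 / ((r : ℝ) + 1)) * (1 + Real.log N) := by nlinarith
  have hne' : Nonempty ι := ⟨i₀⟩
  refine hD hN hY ω f hf a hcard ?_ p hp
  have h1 := gen_int hd (fun k => M k * (c₁ * (1 + Real.log N))) hN hK'0.le ω hω f hf a
    (fun (l : Fin r) (j : ι) => (ν j l, t j l)) hcard2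
    (fun i ρ hρ => slab_count hd hN hσ hσ1 hK ω hω hsep f hf a ν t hν hs hQ i ρ hρ)
    (fun k => slab_labels hd hN hσ hσ1 hK ω hω hsep f hf a ν t hν hs hQ k (hcnt k))
  have e1 : 720 * (d : ℝ) * K' * Λ * (1 + Real.log N) * N ^ (2 * (d + 1)) =
      (720 * d * K' * Λ) * (1 + Real.log N) * N ^ (2 * (d + 1)) := by ring
  rw [e1] at h1
  have e2 : ∀ k, M k * (c₁ * (1 + Real.log N)) * N ^ (2 * (d + 1)) =
      (M k * (1 + Real.log N)) * c₁ * N ^ (2 * (d + 1)) := fun k => by ring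
  simp only [e2] at h1
  refine h1.trans ((loss hd (fun k => M k * (1 + Real.log N))
    (fun k => mul_nonneg (by linarith [hM k]) (by positivity)) (by positivity) (by positivity)
    hc₁0.le hZ).trans (le_of_eq ?_))
  have e3 : ((∏ k, M k * (1 + Real.log N)) * (1 + Real.log N)) ^ (1 / (d : ℝ)) =
      (∏ k, M k) ^ (1 / ((r : ℝ) + 1)) * (1 + Real.log N) := by
    rw [Finset.prod_mul_distrib, Finset.prod_const, Finset.card_univ, Fintype.card_fin,
      mul_assoc, ← pow_succ, ← hd, Real.mul_rpow (by linarith) (by positivity),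
      ← Real.rpow_natCast (1 + Real.log N) d, ← Real.rpow_mul (by positivity),
      mul_one_div_cancel hd0.ne', Real.rpow_one, hdr]
  rw [e3]

end Pool.Agent.Q86.Ks
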