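import Pool.Agent.Q86.KsH

set_option autoImplicit false

/-! The labels given by the coordinates of the caps. -/

open MeasureTheory Set Filter Topology ENNReal NNReal Metric

namespace Pool.Agent.Q86.Ks

open Pool.Agent.H810R3.Tub Pool.Agent.W772

theorem icc_card_le {x : ℝ} (hx : 0 ≤ x) :
    ((Finset.Icc (-((⌈x⌉₊ : ℕ) : ℤ)) (⌈x⌉₊ : ℕ)).card : ℝ) ≤ 2 * x + 3 := by
  set R : ℕ := ⌈x⌉₊ with hR
  rw [Int.card_Icc]
  have e : ((((R : ℤ) + 1 - -(R : ℤ)).toNat : ℤ) : ℝ) = ((R : ℤ) + 1 - -(R : ℤ) : ℤ) := by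
    rw [Int.toNat_of_nonneg (by omega)]
  rw [Int.cast_natCast] at e
  rw [e]
  push_cast
  have h5 : (R : ℝ) < x + 1 := Nat.ceil_lt_add_one hx
  linarith

theorem coord_thin {r : ℕ} {N σ : ℝ} (hN : 1 ≤ N) (hσ : 0 < σ) (hσ1 : σ ≤ 1) {ι : Type} [Fintype ι]
    (ω : ι → Vec (r + 1)) (hsep : ∀ i j, i ≠ j → σ / N ≤ ‖ω i - ω j‖) (i : ι) (ρ : ℝ) (hρ : 0 ≤ ρ) :
    (({j | (∀ l : Fin r, ⌊N * ω j l.castSucc⌋ = ⌊N * ω i l.castSucc⌋) ∧ ‖ω j - ω i‖ ≤ ρ} :
      Set ι).ncard : ℝ) ≤ (9 * ((r : ℝ) + 1) / σ) ^ (r + 1) * (1 + ρ * N) := by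
  classical
  have hN0 : 0 < N := by linarith
  set D : ℝ := (r : ℝ) + 1 with hD
  have hdr : (((r + 1 : ℕ)) : ℝ) = D := by rw [hD]; push_cast; ring
  have hd1 : (1 : ℝ) ≤ D := by
    have : (0 : ℝ) ≤ r := Nat.cast_nonneg r
    linarith
  set ρ₀ : ℝ := σ / (2 * D * N) with hρ₀
  have hρ₀0 : 0 < ρ₀ := by positivity
  set S : Finset ι := Finset.univ.filter fun j =>
    (∀ l : Fin r, ⌊N * ω j l.castSucc⌋ = ⌊N * ω i l.castSucc⌋) ∧ ‖ω j - ω i‖ ≤ ρ with hS
  have hcard : ({j | (∀ l : Fin r, ⌊N * ω j l.castSucc⌋ = ⌊N * ω i l.castSucc⌋) ∧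
      ‖ω j - ω i‖ ≤ ρ} : Set ι).ncard = S.card := by
    rw [← Set.ncard_coe_finset]
    congr 1
    ext j
    simp only [hS, Finset.coe_filter, Finset.mem_univ, true_and]
  rw [hcard]
  set z : ι → Fin (r + 1) → ℤ := fun j k => cell ρ₀ (ω j) k - cell ρ₀ (ω i) k with hz
  have hinj : Function.Injective z := by
    intro j l hjl
    by_contra hne
    have h1 : cell ρ₀ (ω j) = cell ρ₀ (ω l) := by
      ext k
      have := congrFun hjl k
      simp only [hz] at this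
      omega
    have h2 := cell_close hρ₀0 h1
    rw [hdr] at h2
    have h3 := hsep j l hne
    have h4 : D * ρ₀ = σ / N / 2 := by
      rw [hρ₀]; field_simp
    have h5 : 0 < σ / N := by positivity
    linarith
  set x₁ : ℝ := 2 * D / σ + 1 with hx₁
  set x₂ : ℝ := 2 * D * (ρ * N) / σ + 1 with hx₂
  have hx₁0 : 0 ≤ x₁ := by positivity
  have hx₂0 : 0 ≤ x₂ := by positivity
  set t : Fin (r + 1) → Finset ℤ := fun l => if l.val < r then Finset.Icc (-((⌈x₁⌉₊ : ℕ) : ℤ)) (⌈x₁⌉₊ : ℕ)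
    else Finset.Icc (-((⌈x₂⌉₊ : ℕ) : ℤ)) (⌈x₂⌉₊ : ℕ) with ht
  have hmem : ∀ j ∈ S, z j ∈ Fintype.piFinset t := by
    intro j hj
    rw [Fintype.mem_piFinset]
    intro l
    have hj2 := (Finset.mem_filter.1 hj).2
    have h0 := cell_sub hρ₀0 (ω j) (ω i) l
    by_cases hl : l.val < r
    · simp only [ht, if_pos hl]
      have h1 := hj2.1 ⟨l.val, hl⟩
      have e1 : (⟨l.val, hl⟩ : Fin r).castSucc = l := Fin.ext rfl
      rw [e1] at h1
      have h2 : |N * ω j l - N * ω i l| < 1 := Int.abs_sub_lt_one_of_floor_eq_floor h1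
      have h3 : |ω j l - ω i l| ≤ 1 / N := by
        rw [le_div_iff₀ hN0]
        have e2 : N * ω j l - N * ω i l = N * (ω j l - ω i l) := by ring
        rw [e2, abs_mul, abs_of_pos hN0] at h2
        linarith
      have h4 : |((z j l : ℤ) : ℝ)| ≤ x₁ := by
        refine h0.trans ?_
        rw [hx₁]
        have : |ω j l - ω i l| / ρ₀ ≤ 2 * D / σ := by
          rw [div_le_iff₀ hρ₀0, hρ₀]
          calc |ω j l - ω i l| ≤ 1 / N := h3
            _ = _ := by field_simp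
        linarith
      have h5 : |((z j l : ℤ) : ℝ)| ≤ (⌈x₁⌉₊ : ℕ) := h4.trans (Nat.le_ceil _)
      have h6 := abs_le.1 h5
      rw [Finset.mem_Icc]
      exact ⟨by exact_mod_cast h6.1, by exact_mod_cast h6.2⟩
    · simp only [ht, if_neg hl]
      have h3 : |ω j l - ω i l| ≤ ρ := by
        have h4 := PiLp.norm_apply_le (ω j - ω i) l
        rw [Real.norm_eq_abs] at h4
        exact h4.trans hj2.2
      have h4 : |((z j l : ℤ) : ℝ)| ≤ x₂ := by
        refine h0.trans ?_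
        rw [hx₂]
        have : |ω j l - ω i l| / ρ₀ ≤ 2 * D * (ρ * N) / σ := by
          rw [div_le_iff₀ hρ₀0, hρ₀]
          calc |ω j l - ω i l| ≤ ρ := h3
            _ = _ := by field_simp
        linarith
      have h5 : |((z j l : ℤ) : ℝ)| ≤ (⌈x₂⌉₊ : ℕ) := h4.trans (Nat.le_ceil _)
      have h6 := abs_le.1 h5
      rw [Finset.mem_Icc]
      exact ⟨by exact_mod_cast h6.1, by exact_mod_cast h6.2⟩
  have h1 : S.card ≤ (Fintype.piFinset t).card := by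
    rw [← Finset.card_image_of_injective S hinj]
    apply Finset.card_le_card
    intro y hy
    obtain ⟨j, hj, rfl⟩ := Finset.mem_image.1 hy
    exact hmem j hj
  have hB : ∀ x : ℝ, 1 ≤ D * x / σ → 0 ≤ x → 2 * (2 * D * x / σ + 1) + 3 ≤ 9 * D / σ * x := by
    intro x hx hx0
    have e1 : 2 * D * x / σ = 2 * (D * x / σ) := by ring
    have e2 : 9 * D / σ * x = 9 * (D * x / σ) := by ring
    rw [e1, e2]
    linarith
  have hdσ : 1 ≤ D / σ := by
    rw [le_div_iff₀ hσ]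
    linarith
  have hc₁ : (((Finset.Icc (-((⌈x₁⌉₊ : ℕ) : ℤ)) (⌈x₁⌉₊ : ℕ)).card : ℕ) : ℝ) ≤ 9 * D / σ := by
    refine (icc_card_le hx₁0).trans ?_
    have e1 : 2 * D / σ = 2 * (D / σ) := by ring
    have e2 : 9 * D / σ = 9 * (D / σ) := by ring
    rw [hx₁, e1, e2]
    linarith
  have hc₂ : (((Finset.Icc (-((⌈x₂⌉₊ : ℕ) : ℤ)) (⌈x₂⌉₊ : ℕ)).card : ℕ) : ℝ) ≤
      9 * D / σ * (1 + ρ * N) := by
    refine (icc_card_le hx₂0).trans ?_
    have h0 : 0 ≤ ρ * N := by positivity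
    have e1 : 2 * D * (ρ * N) / σ = 2 * (D / σ) * (ρ * N) := by ring
    have e2 : 9 * D / σ * (1 + ρ * N) = 9 * (D / σ) * (1 + ρ * N) := by ring
    rw [hx₂, e1, e2]
    nlinarith [mul_nonneg (show (0 : ℝ) ≤ D / σ by positivity) h0]
  have h2 : ((Fintype.piFinset t).card : ℝ) ≤ (9 * D / σ) ^ (r + 1) * (1 + ρ * N) := by
    rw [Fintype.card_piFinset]
    push_cast
    rw [Fin.prod_univ_castSucc]
    have e1 : ∀ l : Fin r, t l.castSucc = Finset.Icc (-((⌈x₁⌉₊ : ℕ) : ℤ)) (⌈x₁⌉₊ : ℕ) := by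
      intro l
      simp only [ht]
      rw [if_pos]
      exact l.isLt
    have e2 : t (Fin.last r) = Finset.Icc (-((⌈x₂⌉₊ : ℕ) : ℤ)) (⌈x₂⌉₊ : ℕ) := by
      simp only [ht]
      rw [if_neg]
      simp
    rw [e2]
    have h3 : ∏ l : Fin r, ((t l.castSucc).card : ℝ) ≤ (9 * D / σ) ^ r := by
      calc ∏ l : Fin r, ((t l.castSucc).card : ℝ) ≤ ∏ _l : Fin r, (9 * D / σ : ℝ) := by
            apply Finset.prod_le_prod
            · intro l _
              positivity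
            · intro l _
              rw [e1 l]
              exact hc₁
        _ = _ := by rw [Finset.prod_const, Finset.card_univ, Fintype.card_fin]
    calc (∏ l : Fin r, ((t l.castSucc).card : ℝ)) *
          ((Finset.Icc (-((⌈x₂⌉₊ : ℕ) : ℤ)) (⌈x₂⌉₊ : ℕ)).card : ℝ)
        ≤ (9 * D / σ) ^ r * (9 * D / σ * (1 + ρ * N)) :=
          mul_le_mul h3 hc₂ (by positivity) (by positivity)
      _ = _ := by
          rw [pow_succ]
          ring
  exact (by exact_mod_cast h1 : (S.card : ℝ) ≤ ((Fintype.piFinset t).card : ℝ)).trans h2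

end Pool.Agent.Q86.Ks
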