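import Mathlib

/-!
# Sums with an extended `M`-basis

Let `X` be a Banach space with a countable total set of functionals. Then there is a Banach space
`Z` such that `X × Z` has an extended `M`-basis.
-/

set_option autoImplicit false

open Filter Topology

open scoped ENNReal

namespace Q86.MB

variable {𝕜 : Type*} [RCLike 𝕜] {X : Type*} [NormedAddCommGroup X] [NormedSpace 𝕜 X]

/-! ### A biorthogonal sequence adapted to a sequence of functionals -/

section Gram

variable (g : ℕ → (X →L[𝕜] 𝕜))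

/-- the new functional -/
noncomputable def nf (P : X →L[𝕜] X) (h : X →L[𝕜] 𝕜) : X →L[𝕜] 𝕜 :=
  h.comp (ContinuousLinearMap.id 𝕜 X - P)

open Classical in
/-- the new vector -/
noncomputable def nv (P : X →L[𝕜] X) (h : X →L[𝕜] 𝕜) : X :=
  if hv : ∃ v, nf P h v = 1 then hv.choose - P hv.choose else 0

/-- the projections -/
noncomputable def Pr : ℕ → (X →L[𝕜] X)
  | 0 => 0
  | n + 1 => Pr n + (nf (Pr n) (g n)).smulRight (nv (Pr n) (g n))

/-- the functionals -/
noncomputable def ff (n : ℕ) : X →L[𝕜] 𝕜 := nf (Pr g n) (g n)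

/-- the vectors -/
noncomputable def ee (n : ℕ) : X := nv (Pr g n) (g n)

lemma Pr_succ (n : ℕ) (x : X) : Pr g (n + 1) x = Pr g n x + ff g n x • ee g n := rfl

lemma ff_apply (n : ℕ) (x : X) : ff g n x = g n (x - Pr g n x) := rfl

lemma ff_Pr_self (n : ℕ) (h : ∀ x, Pr g n (Pr g n x) = Pr g n x) (x : X) :
    ff g n (Pr g n x) = 0 := by
  rw [ff_apply, h, sub_self, map_zero]

/-- Either the step is trivial, or the new vector is normalised. -/
lemma ee_cases (n : ℕ) (h : ∀ x, Pr g n (Pr g n x) = Pr g n x) :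
    (ff g n = 0 ∧ ee g n = 0) ∨ (ff g n (ee g n) = 1 ∧ ∃ v, ee g n = v - Pr g n v) := by
  classical
  by_cases hv : ∃ v, nf (Pr g n) (g n) v = 1
  · right
    have he : ee g n = hv.choose - Pr g n hv.choose := by
      rw [ee, nv, dif_pos hv]
    refine ⟨?_, _, he⟩
    rw [he, map_sub, ff_Pr_self g n h, sub_zero]
    exact hv.choose_spec
  · left
    refine ⟨?_, by rw [ee, nv, dif_neg hv]⟩
    ext v
    by_contra hne
    have hne' : ff g n v ≠ 0 := by simpa using hne
    apply hv
    refine ⟨(ff g n v)⁻¹ • v, ?_⟩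
    have : ff g n ((ff g n v)⁻¹ • v) = 1 := by
      rw [map_smul, smul_eq_mul, inv_mul_cancel₀ hne']
    exact this

lemma Pr_idem (n : ℕ) : ∀ x, Pr g n (Pr g n x) = Pr g n x := by
  induction n with
  | zero => intro x; simp [Pr]
  | succ n ih =>
    intro x
    have hPe : Pr g n (ee g n) = 0 := by
      rcases ee_cases g n ih with ⟨-, h⟩ | ⟨-, v, h⟩
      · rw [h, map_zero]
      · rw [h, map_sub, ih, sub_self]
    have hfe : ff g n (ee g n) • ee g n = ee g n := by
      rcases ee_cases g n ih with ⟨-, h⟩ | ⟨h, -⟩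
      · rw [h, smul_zero]
      · rw [h, one_smul]
    rw [Pr_succ g n (Pr g (n + 1) x), Pr_succ g n x, map_add, map_add, map_smul, map_smul, ih, hPe,
      smul_zero, add_zero, ff_Pr_self g n ih, zero_add, smul_eq_mul, mul_smul, hfe]

lemma Pr_ee (n : ℕ) : Pr g n (ee g n) = 0 := by
  rcases ee_cases g n (Pr_idem g n) with ⟨-, h⟩ | ⟨-, v, h⟩
  · rw [h, map_zero]
  · rw [h, map_sub, Pr_idem, sub_self]

lemma ff_ee (n : ℕ) : ff g n (ee g n) • ee g n = ee g n := by
  rcases ee_cases g n (Pr_idem g n) with ⟨-, h⟩ | ⟨h, -⟩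
  · rw [h, smul_zero]
  · rw [h, one_smul]

/-- later projections fix what earlier projections fix -/
lemma Pr_fix {n k : ℕ} (hnk : n ≤ k) {x : X} (hx : Pr g n x = x) : Pr g k x = x := by
  induction k, hnk using Nat.le_induction with
  | base => exact hx
  | succ k _ ih => rw [Pr_succ, ff_apply, ih, sub_self, map_zero, zero_smul, add_zero]

lemma ff_Pr_of_le {n k : ℕ} (hnk : n ≤ k) (x : X) : ff g k (Pr g n x) = 0 := by
  rw [ff_apply, Pr_fix g hnk (Pr_idem g n x), sub_self, map_zero]

lemma Pr_ee_of_lt {m n : ℕ} (h : m < n) : Pr g n (ee g m) = ee g m := by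
  refine Pr_fix g (Nat.succ_le_of_lt h) ?_
  rw [Nat.succ_eq_add_one, Pr_succ, Pr_ee, zero_add, ff_ee]

lemma ff_Pr_of_lt {k n : ℕ} (h : k < n) (x : X) : ff g k (Pr g n x) = ff g k x := by
  have h1 : ∀ n, k < n → (∀ x, ff g k (Pr g n x) = ff g k x) := by
    intro n hn
    induction n, hn using Nat.le_induction with
    | base =>
      intro x
      rw [Nat.succ_eq_add_one, Pr_succ, map_add, ff_Pr_of_le g le_rfl, zero_add, map_smul, smul_eq_mul]
      rcases ee_cases g k (Pr_idem g k) with ⟨h, -⟩ | ⟨h, -⟩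
      · rw [h]; simp
      · rw [h, mul_one]
    | succ n hn ih =>
      intro x
      have h2 : ff g k (ee g n) = 0 := by
        rcases ee_cases g n (Pr_idem g n) with ⟨-, h⟩ | ⟨-, v, h⟩
        · rw [h, map_zero]
        · rw [h, map_sub, ih, sub_self]
      rw [Pr_succ, map_add, ih, map_smul, h2, smul_zero, add_zero]
  exact h1 n h x

lemma ff_ee_ne {i j : ℕ} (h : i ≠ j) : ff g i (ee g j) = 0 := by
  rcases lt_or_gt_of_ne h with h | h
  · have h1 := ff_Pr_of_lt g h (ee g j)
    rw [Pr_ee, map_zero] at h1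
    exact h1.symm
  · rw [ff_apply, Pr_ee_of_lt g h, sub_self, map_zero]

lemma ff_total (hg : ∀ v, (∀ n, g n v = 0) → v = 0) (v : X) (h : ∀ n, ff g n v = 0) : v = 0 := by
  have h1 : ∀ n, Pr g n v = 0 := by
    intro n
    induction n with
    | zero => simp [Pr]
    | succ n ih => rw [Pr_succ, ih, h, zero_smul, add_zero]
  apply hg
  intro n
  have h2 := h n
  rwa [ff_apply, h1, sub_zero] at h2

end Gram

end Q86.MB
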