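import Pool.Agent.Q86.MBasisSum

/-!
# Sums with an extended `M`-basis: the space and the basis
-/

set_option autoImplicit false

open Filter Topology

open scoped ENNReal

namespace Q86.MB

/-- The family `x` is an extended `M`-basis (Markushevich basis with an arbitrary index set) of `E`:
its closed linear span is `E`, and there is a total family of functionals which is biorthogonal
to it. -/
def IsExtendedMBasis (𝕜 : Type*) [RCLike 𝕜] {E : Type*} [NormedAddCommGroup E] [NormedSpace 𝕜 E]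
    {I : Type*} (x : I → E) : Prop :=
  (Submodule.span 𝕜 (Set.range x)).topologicalClosure = ⊤ ∧
    ∃ f : I → (E →L[𝕜] 𝕜), ((∀ i, f i (x i) = 1) ∧ ∀ i j, i ≠ j → f i (x j) = 0) ∧
      ∀ v, (∀ i, f i v = 0) → v = 0

section Ell

variable {𝕜 : Type*} [RCLike 𝕜] {Γ : Type*}

lemma summable_one (z : lp (fun _ : Γ => 𝕜) 1) : Summable fun γ => ‖z γ‖ := by
  have := (memℓp_gen_iff (p := 1) (by norm_num)).1 (lp.memℓp z)
  simpa using this

lemma norm_one_eq (z : lp (fun _ : Γ => 𝕜) 1) : ‖z‖ = ∑' γ, ‖z γ‖ := by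
  have := lp.norm_rpow_eq_tsum (p := 1) (by norm_num) z
  simpa using this

lemma summable_pair {c : Γ → 𝕜} {C : ℝ} (hc : ∀ γ, ‖c γ‖ ≤ C) (z : lp (fun _ : Γ => 𝕜) 1) :
    Summable fun γ => c γ * z γ := by
  refine Summable.of_norm_bounded ((summable_one z).mul_left C) fun γ => ?_
  rw [norm_mul]
  exact mul_le_mul_of_nonneg_right (hc γ) (norm_nonneg _)

/-- the functional with bounded coefficients `c` -/
noncomputable def pair (c : Γ → 𝕜) {C : ℝ} (hc : ∀ γ, ‖c γ‖ ≤ C) :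
    lp (fun _ : Γ => 𝕜) 1 →L[𝕜] 𝕜 :=
  LinearMap.mkContinuous
    { toFun := fun z => ∑' γ, c γ * z γ
      map_add' := fun z w => by
        rw [← (summable_pair hc z).tsum_add (summable_pair hc w)]
        exact tsum_congr fun γ => by rw [lp.coeFn_add, Pi.add_apply, mul_add]
      map_smul' := fun a z => by
        rw [RingHom.id_apply, smul_eq_mul, ← tsum_mul_left]
        exact tsum_congr fun γ => by rw [lp.coeFn_smul, Pi.smul_apply, smul_eq_mul]; ring } C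
    (fun z => by
      rw [norm_one_eq, ← tsum_mul_left]
      refine tsum_of_norm_bounded ((summable_one z).mul_left C).hasSum fun γ => ?_
      rw [norm_mul]
      exact mul_le_mul_of_nonneg_right (hc γ) (norm_nonneg _))

open Classical in
/-- the unit vectors of `ℓ₁(Γ)` -/
noncomputable def sg (𝕜 : Type*) [RCLike 𝕜] (γ : Γ) : lp (fun _ : Γ => 𝕜) 1 := lp.single 1 γ 1

lemma sg_self (γ : Γ) : sg 𝕜 γ γ = 1 := by
  classical
  exact lp.single_apply_self _ _ _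

lemma sg_ne {γ δ : Γ} (h : δ ≠ γ) : sg 𝕜 γ δ = 0 := by
  classical
  exact lp.single_apply_ne _ _ _ h

lemma norm_sg (γ : Γ) : ‖sg 𝕜 γ‖ = 1 := by
  classical
  rw [sg, lp.norm_single (by norm_num), norm_one]

lemma pair_single (c : Γ → 𝕜) {C : ℝ} (hc : ∀ γ, ‖c γ‖ ≤ C) (γ : Γ) :
    pair c hc (sg 𝕜 γ) = c γ := by
  show ∑' δ, c δ * sg 𝕜 γ δ = c γ
  rw [tsum_eq_single γ]
  · rw [sg_self, mul_one]
  · intro δ hδ
    rw [sg_ne hδ, mul_zero]

lemma hasSum_sg (z : lp (fun _ : Γ => 𝕜) 1) : HasSum (fun γ => z γ • sg 𝕜 γ) z := by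
  classical
  have h := lp.hasSum_single (p := 1) (by norm_num) z
  have h2 : (fun γ => z γ • sg 𝕜 γ) = fun γ => lp.single 1 γ (z γ) := by
    funext γ
    rw [sg, ← lp.single_smul, smul_eq_mul, mul_one]
  rw [h2]
  exact h

end Ell

section Main

variable {𝕜 : Type*} [RCLike 𝕜] {X : Type*} [NormedAddCommGroup X] [NormedSpace 𝕜 X]
  (g : ℕ → (X →L[𝕜] 𝕜))

/-- the index set of the second summand: the unit ball, repeated countably often -/
abbrev Ga (X : Type*) [NormedAddCommGroup X] : Type _ := {y : X // ‖y‖ ≤ 1} × ℕ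

/-- the second summand -/
abbrev Z (𝕜 : Type*) [RCLike 𝕜] (X : Type*) [NormedAddCommGroup X] : Type _ :=
  lp (fun _ : Ga X => 𝕜) 1

/-- the active indices -/
abbrev Act : Type := {n : ℕ // ff g n ≠ 0}

lemma ff_ee_act (k : Act g) : ff g k.1 (ee g k.1) = 1 := by
  rcases ee_cases g k.1 (Pr_idem g k.1) with ⟨h, -⟩ | ⟨h, -⟩
  · exact absurd h k.2
  · exact h

/-- the coefficients of the correcting functionals -/
noncomputable def co (k : ℕ) (γ : Ga X) : 𝕜 :=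
  -(((γ.2 : 𝕜) + 1) * ff g k (γ.1.1 - Pr g γ.2 γ.1.1))

lemma norm_co_le (k : ℕ) (γ : Ga X) : ‖co g k γ‖ ≤ ((k : ℝ) + 1) * ‖ff g k‖ := by
  rw [co, norm_neg, norm_mul]
  have h0 : 0 ≤ ‖ff g k‖ := norm_nonneg _
  rcases le_or_gt γ.2 k with h | h
  · rw [map_sub, ff_Pr_of_le g h, sub_zero]
    have h1 : ‖(γ.2 : 𝕜) + 1‖ ≤ (k : ℝ) + 1 := by
      have h2 : ((γ.2 : 𝕜) + 1) = ((γ.2 + 1 : ℕ) : 𝕜) := by push_cast; ring
      rw [h2, RCLike.norm_natCast]
      exact_mod_cast Nat.succ_le_succ h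
    have h3 : ‖ff g k γ.1.1‖ ≤ ‖ff g k‖ := by
      have := (ff g k).le_opNorm γ.1.1
      nlinarith [γ.1.2]
    exact mul_le_mul h1 h3 (norm_nonneg _) (by positivity)
  · rw [map_sub, ff_Pr_of_lt g h, sub_self, norm_zero, mul_zero]
    positivity

/-- the index set of the basis -/
abbrev Idx : Type _ := Act g ⊕ Ga X

/-- the vectors of the basis -/
noncomputable def bx : Idx g → X × Z 𝕜 X
  | .inl k => (ee g k.1, 0)
  | .inr γ => (((γ.2 : 𝕜) + 1) • (γ.1.1 - Pr g γ.2 γ.1.1), sg 𝕜 γ)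

/-- the functionals of the basis -/
noncomputable def bf : Idx g → (X × Z 𝕜 X →L[𝕜] 𝕜)
  | .inl k => (ff g k.1).comp (ContinuousLinearMap.fst 𝕜 _ _) +
      (pair (co g k.1) (norm_co_le g k.1)).comp (ContinuousLinearMap.snd 𝕜 _ _)
  | .inr γ => (lp.evalCLM 𝕜 (fun _ : Ga X => 𝕜) 1 γ).comp (ContinuousLinearMap.snd 𝕜 _ _)

lemma bf_inl (k : Act g) (v : X × Z 𝕜 X) :
    bf g (.inl k) v = ff g k.1 v.1 + pair (co g k.1) (norm_co_le g k.1) v.2 := rfl

lemma bf_inr (γ : Ga X) (v : X × Z 𝕜 X) : bf g (.inr γ) v = v.2 γ := rfl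

lemma bf_bx_self (i : Idx g) : bf g i (bx g i) = 1 := by
  classical
  rcases i with k | γ
  · rw [bf_inl]
    show ff g k.1 (ee g k.1) + pair (co g k.1) (norm_co_le g k.1) 0 = 1
    rw [map_zero, add_zero, ff_ee_act]
  · rw [bf_inr]
    exact sg_self γ

lemma bf_bx_ne (i j : Idx g) (h : i ≠ j) : bf g i (bx g j) = 0 := by
  classical
  rcases i with k | γ <;> rcases j with l | δ
  · rw [bf_inl]
    show ff g k.1 (ee g l.1) + pair (co g k.1) (norm_co_le g k.1) 0 = 0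
    rw [map_zero, add_zero]
    exact ff_ee_ne g fun hkl => h (congrArg _ (Subtype.ext hkl))
  · rw [bf_inl]
    show ff g k.1 (((δ.2 : 𝕜) + 1) • (δ.1.1 - Pr g δ.2 δ.1.1)) +
      pair (co g k.1) (norm_co_le g k.1) (sg 𝕜 δ) = 0
    rw [pair_single, co, map_smul, smul_eq_mul, add_neg_cancel]
  · rw [bf_inr]
    rfl
  · rw [bf_inr]
    exact sg_ne fun hγ => h (congrArg _ hγ)

theorem total (hg : ∀ v, (∀ n, g n v = 0) → v = 0) (v : X × Z 𝕜 X)
    (h : ∀ i, bf g i v = 0) : v = 0 := by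
  have h2 : v.2 = 0 := by
    ext γ
    have := h (.inr γ)
    rw [bf_inr] at this
    simpa using this
  have h1 : v.1 = 0 := by
    apply ff_total g hg
    intro n
    by_cases hn : ff g n = 0
    · rw [hn]; rfl
    · have := h (.inl ⟨n, hn⟩)
      rwa [bf_inl, h2, map_zero, add_zero] at this
  exact Prod.ext h1 h2

theorem fundamental : (Submodule.span 𝕜 (Set.range (bx g))).topologicalClosure = ⊤ := by
  classical
  set M := (Submodule.span 𝕜 (Set.range (bx g))).topologicalClosure with hM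
  have hMc : IsClosed (M : Set (X × Z 𝕜 X)) := Submodule.isClosed_topologicalClosure _
  have hb : ∀ i, bx g i ∈ M := fun i =>
    Submodule.le_topologicalClosure _ (Submodule.subset_span ⟨i, rfl⟩)
  have he : ∀ n, ((ee g n, 0) : X × Z 𝕜 X) ∈ M := by
    intro n
    by_cases hn : ff g n = 0
    · have : ee g n = 0 := by
        have h := ff_ee g n
        rw [hn] at h
        simpa using h.symm
      rw [this]
      exact M.zero_mem
    · exact hb (.inl ⟨n, hn⟩)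
  have hP : ∀ n (x : X), ((Pr g n x, 0) : X × Z 𝕜 X) ∈ M := by
    intro n x
    induction n with
    | zero =>
      have : Pr g 0 x = 0 := by simp [Pr]
      rw [this]
      exact M.zero_mem
    | succ n ih =>
      rw [Pr_succ]
      have : ((Pr g n x + ff g n x • ee g n, 0) : X × Z 𝕜 X) =
          (Pr g n x, 0) + ff g n x • (ee g n, 0) := by
        ext <;> simp
      rw [this]
      exact M.add_mem ih (M.smul_mem _ (he n))
  have hball : ∀ y : X, ‖y‖ ≤ 1 → ((y, 0) : X × Z 𝕜 X) ∈ M := by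
    intro y hy
    have h1 : ∀ n : ℕ, ((y, ((n : 𝕜) + 1)⁻¹ • sg 𝕜 (((⟨y, hy⟩, n) : Ga X))) : X × Z 𝕜 X) ∈ M := by
      intro n
      have hn : ((n : 𝕜) + 1) ≠ 0 := Nat.cast_add_one_ne_zero n
      have h2 := M.add_mem (M.smul_mem ((n : 𝕜) + 1)⁻¹ (hb (.inr (⟨y, hy⟩, n)))) (hP n y)
      have h3 : ((n : 𝕜) + 1)⁻¹ • bx g (.inr (⟨y, hy⟩, n)) + (Pr g n y, 0) =
          ((y, ((n : 𝕜) + 1)⁻¹ • sg 𝕜 (((⟨y, hy⟩, n) : Ga X))) : X × Z 𝕜 X) := by
        refine Prod.ext ?_ ?_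
        · show ((n : 𝕜) + 1)⁻¹ • (((n : 𝕜) + 1) • (y - Pr g n y)) + Pr g n y = y
          rw [smul_smul, inv_mul_cancel₀ hn, one_smul, sub_add_cancel]
        · show ((n : 𝕜) + 1)⁻¹ • sg 𝕜 (((⟨y, hy⟩, n) : Ga X)) + 0 = _
          rw [add_zero]
      rw [h3] at h2
      exact h2
    have h4 : Tendsto (fun n : ℕ =>
        ((y, ((n : 𝕜) + 1)⁻¹ • sg 𝕜 (((⟨y, hy⟩, n) : Ga X))) : X × Z 𝕜 X)) atTop (𝓝 (y, 0)) := by
      refine Tendsto.prodMk_nhds tendsto_const_nhds ?_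
      rw [tendsto_zero_iff_norm_tendsto_zero]
      have h5 : ∀ n : ℕ, ‖((n : 𝕜) + 1)⁻¹ • sg 𝕜 (((⟨y, hy⟩, n) : Ga X))‖ =
          1 / ((n : ℝ) + 1) := by
        intro n
        rw [norm_smul, norm_inv, norm_sg, mul_one, one_div]
        congr 1
        have h2 : ((n : 𝕜) + 1) = ((n + 1 : ℕ) : 𝕜) := by push_cast; ring
        rw [h2, RCLike.norm_natCast]
        push_cast
        ring
      simp_rw [h5]
      exact tendsto_one_div_add_atTop_nhds_zero_nat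
    exact hMc.mem_of_tendsto h4 (Eventually.of_forall h1)
  have hX : ∀ x : X, ((x, 0) : X × Z 𝕜 X) ∈ M := by
    intro x
    rcases eq_or_ne x 0 with rfl | hx
    · exact M.zero_mem
    · have hn : 0 < ‖x‖ := norm_pos_iff.2 hx
      have h1 := M.smul_mem ((‖x‖ : ℝ) : 𝕜) (hball (((‖x‖ : ℝ) : 𝕜)⁻¹ • x) (by
        rw [norm_smul, norm_inv, RCLike.norm_ofReal, abs_norm, inv_mul_cancel₀ hn.ne']))
      have h2 : ((‖x‖ : ℝ) : 𝕜) ≠ 0 := by exact_mod_cast hn.ne'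
      have h3 : ((‖x‖ : ℝ) : 𝕜) • ((((‖x‖ : ℝ) : 𝕜)⁻¹ • x, 0) : X × Z 𝕜 X) = (x, 0) := by
        refine Prod.ext ?_ ?_
        · show ((‖x‖ : ℝ) : 𝕜) • (((‖x‖ : ℝ) : 𝕜)⁻¹ • x) = x
          rw [smul_smul, mul_inv_cancel₀ h2, one_smul]
        · show ((‖x‖ : ℝ) : 𝕜) • (0 : Z 𝕜 X) = 0
          rw [smul_zero]
      rwa [h3] at h1
  have hs : ∀ γ : Ga X, ((0, sg 𝕜 γ) : X × Z 𝕜 X) ∈ M := by
    intro γ
    have h1 := M.sub_mem (hb (.inr γ)) (hX (((γ.2 : 𝕜) + 1) • (γ.1.1 - Pr g γ.2 γ.1.1)))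
    have h2 : bx g (.inr γ) - (((γ.2 : 𝕜) + 1) • (γ.1.1 - Pr g γ.2 γ.1.1), 0) =
        ((0, sg 𝕜 γ) : X × Z 𝕜 X) := by
      refine Prod.ext ?_ ?_
      · show ((γ.2 : 𝕜) + 1) • (γ.1.1 - Pr g γ.2 γ.1.1) - _ = _
        rw [sub_self]
      · show sg 𝕜 γ - 0 = _
        rw [sub_zero]
    rwa [h2] at h1
  have hZ : ∀ z : Z 𝕜 X, ((0, z) : X × Z 𝕜 X) ∈ M := by
    intro z
    have h1 := hasSum_sg z
    have h2 : Tendsto (fun s : Finset (Ga X) =>
        ((0, ∑ γ ∈ s, z γ • sg 𝕜 γ) : X × Z 𝕜 X)) atTop (𝓝 (0, z)) :=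
      Tendsto.prodMk_nhds tendsto_const_nhds h1
    refine hMc.mem_of_tendsto h2 (Eventually.of_forall fun s => ?_)
    have h3 : ((0, ∑ γ ∈ s, z γ • sg 𝕜 γ) : X × Z 𝕜 X) =
        ∑ γ ∈ s, z γ • ((0, sg 𝕜 γ) : X × Z 𝕜 X) := by
      refine Prod.ext ?_ ?_
      · rw [Prod.fst_sum]
        simp
      · rw [Prod.snd_sum]
        rfl
    rw [h3]
    exact M.sum_mem fun γ _ => M.smul_mem _ (hs γ)
  rw [eq_top_iff]
  rintro ⟨x, z⟩ -
  have h1 := M.add_mem (hX x) (hZ z)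
  have h2 : ((x, 0) : X × Z 𝕜 X) + (0, z) = (x, z) := by simp
  rwa [h2] at h1

/-- A Banach space with a countable total set of functionals is a direct summand of a Banach
space with an extended `M`-basis. -/
theorem isExtendedMBasis (hg : ∀ v, (∀ n, g n v = 0) → v = 0) : IsExtendedMBasis 𝕜 (bx g) :=
  ⟨fundamental g, bf g, ⟨bf_bx_self g, bf_bx_ne g⟩, total g hg⟩

end Main

end Q86.MB
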