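import Pool.Agent.Q88.MF.Stm

/-!
Lemma job LIP of project MF (helper88), MP_d8ee74_an.
-/

set_option autoImplicit false

open Set

noncomputable section

namespace Pool.Agent.Q86.MF_LIP

open Pool.Agent.Q88.MF

/-- The smooth formula. -/
def g (a t : ℝ) : ℝ := Real.exp (1 - t ^ (-a))

lemma g_deriv (a t : ℝ) (ht : 0 < t) :
    HasDerivAt (g a) (Real.exp (1 - t ^ (-a)) * (0 - (-a) * t ^ (-a - 1))) t := by
  have h1 : HasDerivAt (fun x : ℝ => x ^ (-a)) ((-a) * t ^ (-a - 1)) t :=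
    Real.hasDerivAt_rpow_const (Or.inl ht.ne')
  have h2 : HasDerivAt (fun x : ℝ => 1 - x ^ (-a)) (0 - (-a) * t ^ (-a - 1)) t :=
    (hasDerivAt_const t (1 : ℝ)).sub h1
  exact h2.exp

lemma g_bound (a t : ℝ) (ha : 1 < a) (ht : 0 < t) :
    ‖Real.exp (1 - t ^ (-a)) * (0 - (-a) * t ^ (-a - 1))‖ ≤ 6 * a := by
  have he : Real.exp 1 < 3 := lt_trans Real.exp_one_lt_d9 (by norm_num)
  have h0 : 0 < t ^ (-a - 1) := Real.rpow_pos_of_pos ht _
  have hu : 0 < t ^ (-a) := Real.rpow_pos_of_pos ht _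
  have hE : 0 < Real.exp (1 - t ^ (-a)) := Real.exp_pos _
  rw [Real.norm_eq_abs, abs_of_nonneg (by nlinarith [mul_pos hE (mul_pos (by linarith : 0 < a) h0)])]
  suffices h : Real.exp (1 - t ^ (-a)) * t ^ (-a - 1) ≤ 6 by nlinarith
  rcases le_total t 1 with h1 | h1
  · have h2 : t ^ (-a - 1) ≤ (t ^ (-a)) ^ 2 := by
      rw [← Real.rpow_natCast (t ^ (-a)) 2, ← Real.rpow_mul ht.le]
      apply Real.rpow_le_rpow_of_exponent_ge ht h1
      push_cast
      linarith
    have h3 : (t ^ (-a)) ^ 2 ≤ 2 * Real.exp (t ^ (-a)) := by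
      have := Real.quadratic_le_exp_of_nonneg hu.le
      nlinarith
    calc Real.exp (1 - t ^ (-a)) * t ^ (-a - 1)
        ≤ Real.exp (1 - t ^ (-a)) * (2 * Real.exp (t ^ (-a))) :=
          mul_le_mul_of_nonneg_left (h2.trans h3) hE.le
      _ = 2 * (Real.exp (1 - t ^ (-a)) * Real.exp (t ^ (-a))) := by ring
      _ = 2 * Real.exp 1 := by rw [← Real.exp_add]; norm_num
      _ ≤ 6 := by linarith
  · have h2 : t ^ (-a - 1) ≤ 1 := Real.rpow_le_one_of_one_le_of_nonpos h1 (by linarith)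
    have h3 : Real.exp (1 - t ^ (-a)) ≤ Real.exp 1 := Real.exp_le_exp.mpr (by linarith)
    nlinarith

lemma g_lip (a : ℝ) (ha : 1 < a) (t t' : ℝ) (ht : 0 < t) (ht' : 0 < t') :
    |g a t - g a t'| ≤ 6 * a * |t - t'| := by
  have h := Convex.norm_image_sub_le_of_norm_hasDerivWithin_le (f := g a)
    (f' := fun t => Real.exp (1 - t ^ (-a)) * (0 - (-a) * t ^ (-a - 1))) (s := Ioi (0 : ℝ)) (C := 6 * a)
    (x := t') (y := t)
    (fun x hx => (g_deriv a x hx).hasDerivWithinAt) (fun x hx => g_bound a x ha hx)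
    (convex_Ioi 0) ht' ht
  simpa [Real.norm_eq_abs] using h

lemma mf_nonpos (a t : ℝ) (ht : t ≤ 0) : mf a t = 0 := by simp [mf, ht]

lemma mf_mid (a t : ℝ) (ht : 0 < t) (h1 : t ≤ 1) : mf a t = g a t := by
  unfold mf g
  rw [if_neg (not_le.mpr ht)]
  split_ifs with h
  · rfl
  · have : t = 1 := le_antisymm h1 (not_lt.mp h)
    subst this
    simp

lemma mf_big (a t : ℝ) (h1 : 1 ≤ t) : mf a t = t := by
  unfold mf
  rw [if_neg (by linarith), if_neg (by linarith)]

lemma lip_aux (h : S_rat) (a : ℝ) (ha : 1 < a) (t t' : ℝ) (htt : t ≤ t') :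
    |mf a t - mf a t'| ≤ 6 * a * (t' - t) := by
  have h6 : 1 ≤ 6 * a := by linarith
  have hd : 0 ≤ t' - t := by linarith
  rcases le_or_gt t' 0 with h0 | h0
  · rw [mf_nonpos a t (htt.trans h0), mf_nonpos a t' h0]
    simp only [sub_zero, abs_zero]
    positivity
  rcases le_or_gt t 0 with h1 | h1
  · rw [mf_nonpos a t h1, zero_sub, abs_neg]
    have h2 : 0 < mf a t' := (h a t' t' ha h0 le_rfl).1
    rw [abs_of_pos h2]
    have h3 : mf a t' ≤ t' := by
      rcases le_total t' 1 with h4 | h4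
      · have h5 := (h a t' 1 ha h0 h4).2
        rw [mf_big a 1 le_rfl] at h5
        linarith
      · exact (mf_big a t' h4).le
    nlinarith
  rcases le_total t' 1 with h2 | h2
  · rw [mf_mid a t h1 (htt.trans h2), mf_mid a t' h0 h2]
    have h3 := g_lip a ha t t' h1 h0
    rwa [abs_of_nonpos (by linarith : t - t' ≤ 0), neg_sub] at h3
  rcases le_total t 1 with h3 | h3
  · have h4 := g_lip a ha t 1 h1 one_pos
    have h5 : g a 1 = 1 := by simp [g]
    rw [h5, abs_of_nonpos (by linarith : t - 1 ≤ 0), neg_sub, ← mf_mid a t h1 h3] at h4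
    rw [mf_big a t' h2]
    calc |mf a t - t'| = |(mf a t - 1) + (1 - t')| := by ring_nf
      _ ≤ |mf a t - 1| + |1 - t'| := abs_add_le _ _
      _ ≤ 6 * a * (1 - t) + (t' - 1) := by
          rw [abs_of_nonpos (by linarith : 1 - t' ≤ 0), neg_sub]
          linarith
      _ ≤ 6 * a * (t' - t) := by nlinarith
  · rw [mf_big a t h3, mf_big a t' h2, abs_of_nonpos (by linarith : t - t' ≤ 0), neg_sub]
    nlinarith

theorem lip (h : S_rat) : S_lip := by
  intro a ha
  refine ⟨6 * a, by linarith, fun t t' => ?_⟩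
  rcases le_total t t' with h1 | h1
  · rw [abs_of_nonpos (by linarith : t - t' ≤ 0), neg_sub]
    exact lip_aux h a ha t t' h1
  · rw [abs_sub_comm, abs_of_nonneg (by linarith : 0 ≤ t - t')]
    exact lip_aux h a ha t' t h1

end Pool.Agent.Q86.MF_LIP
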