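import Pool.Agent.Q86.DiscAlg

set_option autoImplicit false

/-!
# An open semigroup for which `d (a ^ n) ^ (1 / n)` does not converge
-/

namespace Pool.Agent.Q86.DiscAlg

open Metric Set Filter Topology

/-- On the unit circle `f` has no zeros and equals `c` times the square of a continuous function. -/
def SqClass (c : ℂ → ℂ) (f : A) : Prop :=
  ∃ h : ℂ → ℂ, ContinuousOn h (sphere 0 1) ∧
    ∀ z ∈ sphere (0 : ℂ) 1, val f z ≠ 0 ∧ val f z = c z * h z ^ 2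

/-- The even class: a square on the circle. -/
def Even' (f : A) : Prop := SqClass (fun _ => 1) f

/-- The odd class: `z` times a square on the circle. -/
def Odd' (f : A) : Prop := SqClass (fun z => z) f

/-- The open semigroup. -/
def S : Set A := {f | Even' f ∨ (Odd' f ∧ ∃ z, ‖z‖ < 1 / 2 ∧ val f z = 0)}

theorem SqClass.ne {c : ℂ → ℂ} {f : A} (h : SqClass c f) :
    ∀ z ∈ sphere (0 : ℂ) 1, val f z ≠ 0 := by
  obtain ⟨_, -, h2⟩ := h
  exact fun z hz => (h2 z hz).1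

theorem SqClass.of_close {c : ℂ → ℂ} {f : A} (h : SqClass c f) {m : ℝ} (h0 : 0 < m)
    (hm : ∀ z ∈ sphere (0 : ℂ) 1, m ≤ ‖val f z‖) {g : A} (hg : ‖g - f‖ < m) : SqClass c g := by
  obtain ⟨k, hk, hk2⟩ := exists_factor hm h0 hg
  obtain ⟨u, hu, hu2⟩ := h
  refine ⟨fun z => u z * k z, hu.mul hk, fun z hz => ⟨?_, ?_⟩⟩
  · rw [(hk2 z hz).2]
    exact mul_ne_zero (hu2 z hz).1 (pow_ne_zero 2 (hk2 z hz).1)
  · rw [(hk2 z hz).2, (hu2 z hz).2]; ring

theorem isOpen_S : IsOpen S := by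
  rw [Metric.isOpen_iff]
  rintro f (hf | ⟨hf, z, hz, hfz⟩)
  · obtain ⟨m, hm0, hm⟩ := exists_lower hf.ne
    refine ⟨m, hm0, fun g hg => Or.inl ?_⟩
    rw [mem_ball, dist_eq_norm] at hg
    exact SqClass.of_close hf hm0 hm hg
  · obtain ⟨m, hm0, hm⟩ := exists_lower hf.ne
    obtain ⟨δ, hδ, hp⟩ := persist hf.ne (by norm_num : (1 / 2 : ℝ) < 1) hz hfz
    refine ⟨min m δ, lt_min hm0 hδ, fun g hg => Or.inr ?_⟩
    rw [mem_ball, dist_eq_norm] at hg
    exact ⟨SqClass.of_close hf hm0 hm (hg.trans_le (min_le_left _ _)),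
      hp g (hg.trans_le (min_le_right _ _))⟩

theorem mul_mem_S {f g : A} (hf : f ∈ S) (hg : g ∈ S) : f * g ∈ S := by
  rcases hf with hf | ⟨hf, z, hz, hfz⟩
  · rcases hg with hg | ⟨hg, w, hw, hgw⟩
    · left
      obtain ⟨u, hu, hu2⟩ := hf
      obtain ⟨v, hv, hv2⟩ := hg
      refine ⟨fun z => u z * v z, hu.mul hv, fun z hz => ⟨?_, ?_⟩⟩
      · rw [val_mul]; exact mul_ne_zero (hu2 z hz).1 (hv2 z hz).1
      · rw [val_mul, (hu2 z hz).2, (hv2 z hz).2]; ring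
    · right
      refine ⟨?_, w, hw, by rw [val_mul, hgw, mul_zero]⟩
      obtain ⟨u, hu, hu2⟩ := hf
      obtain ⟨v, hv, hv2⟩ := hg
      refine ⟨fun z => u z * v z, hu.mul hv, fun z hz => ⟨?_, ?_⟩⟩
      · rw [val_mul]; exact mul_ne_zero (hu2 z hz).1 (hv2 z hz).1
      · rw [val_mul, (hu2 z hz).2, (hv2 z hz).2]; ring
  · rcases hg with hg | ⟨hg, w, hw, hgw⟩
    · right
      refine ⟨?_, z, hz, by rw [val_mul, hfz, zero_mul]⟩
      obtain ⟨u, hu, hu2⟩ := hf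
      obtain ⟨v, hv, hv2⟩ := hg
      refine ⟨fun z => u z * v z, hu.mul hv, fun z hz => ⟨?_, ?_⟩⟩
      · rw [val_mul]; exact mul_ne_zero (hu2 z hz).1 (hv2 z hz).1
      · rw [val_mul, (hu2 z hz).2, (hv2 z hz).2]; ring
    · left
      obtain ⟨u, hu, hu2⟩ := hf
      obtain ⟨v, hv, hv2⟩ := hg
      refine ⟨fun z => z * (u z * v z), continuousOn_id.mul (hu.mul hv), fun z hz => ⟨?_, ?_⟩⟩
      · rw [val_mul]; exact mul_ne_zero (hu2 z hz).1 (hv2 z hz).1
      · rw [val_mul, (hu2 z hz).2, (hv2 z hz).2]; ring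

theorem norm_val_Z_pow (n : ℕ) {z : ℂ} (hz : z ∈ sphere (0 : ℂ) 1) : ‖val (Z ^ n) z‖ = 1 := by
  rw [val_Z_pow n (sphere_subset hz), norm_pow, mem_sphere_zero_iff_norm.1 hz, one_pow]

theorem even_Z_pow (k : ℕ) : Even' (Z ^ (2 * k)) := by
  refine ⟨fun z => z ^ k, (continuous_pow k).continuousOn, fun z hz => ⟨?_, ?_⟩⟩
  · rw [← norm_ne_zero_iff, norm_val_Z_pow _ hz]; exact one_ne_zero
  · rw [val_Z_pow _ (sphere_subset hz), one_mul, ← pow_mul, mul_comm]

theorem Z_mem : Z ∈ S := by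
  right
  refine ⟨⟨fun _ => 1, continuousOn_const, fun z hz => ⟨?_, ?_⟩⟩, 0, by norm_num, ?_⟩
  · rw [val_Z (sphere_subset hz)]
    rintro rfl
    simp at hz
  · rw [val_Z (sphere_subset hz)]; ring
  · rw [val_Z (mem_closedBall_self zero_le_one)]

theorem zero_notMem : (0 : A) ∉ S := by
  have h0 : ∀ z, val (0 : A) z = 0 := by
    intro z
    have := val_sub (0 : A) 0 z
    rwa [sub_self, sub_self] at this
  have h1 : (1 : ℂ) ∈ sphere (0 : ℂ) 1 := by simp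
  rintro (h | ⟨h, -⟩)
  · exact h.ne 1 h1 (h0 1)
  · exact h.ne 1 h1 (h0 1)

/-- `z ^ (2 k + 1)` is at distance at most `2 ^ (-(2 k + 1))` from the complement of `S`. -/
theorem infDist_odd_le (k : ℕ) : infDist (Z ^ (2 * k + 1)) Sᶜ ≤ (1 / 2 : ℝ) ^ (2 * k + 1) := by
  set c : ℂ := (1 / 2 : ℂ) ^ (2 * k + 1) with hc
  have hcn : ‖c‖ = (1 / 2 : ℝ) ^ (2 * k + 1) := by
    rw [hc, norm_pow]; norm_num
  let g : A := Z ^ (2 * k + 1) - algebraMap ℂ A c
  have hval : ∀ z ∈ closedBall (0 : ℂ) 1, val g z = z ^ (2 * k + 1) - c := by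
    intro z hz
    rw [val_sub, val_Z_pow _ hz, val_const _ hz]
  have hdist : ‖g - Z ^ (2 * k + 1)‖ ≤ (1 / 2 : ℝ) ^ (2 * k + 1) := by
    apply norm_le_of_val (by positivity)
    intro z hz
    rw [val_sub, hval z hz, val_Z_pow _ hz]
    rw [show z ^ (2 * k + 1) - c - z ^ (2 * k + 1) = -c by ring, norm_neg, hcn]
  have hlt : (1 / 2 : ℝ) ^ (2 * k + 1) < 1 :=
    pow_lt_one₀ (by norm_num) (by norm_num) (by omega)
  have hg : g ∈ Sᶜ := by
    rintro (h | ⟨-, z, hz, hgz⟩)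
    · -- `g` is not a square on the circle
      obtain ⟨u, hu, hu2⟩ := h
      obtain ⟨v, hv, hv2⟩ := exists_factor (f := Z ^ (2 * k + 1)) (g := g) (m := 1)
        (fun z hz => (norm_val_Z_pow _ hz).ge) one_pos (lt_of_le_of_lt hdist hlt)
      have hz0 : ∀ z ∈ sphere (0 : ℂ) 1, z ≠ 0 := by
        rintro z hz rfl
        simp at hz
      refine no_sqrt (h := fun z => u z / (z ^ k * v z)) ?_ ?_
      · refine hu.div ((continuous_pow k).continuousOn.mul hv) fun z hz => ?_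
        exact mul_ne_zero (pow_ne_zero k (hz0 z hz)) (hv2 z hz).1
      · intro z hz
        have h1 := (hu2 z hz).2
        have h2 := (hv2 z hz).2
        rw [h1, val_Z_pow _ (sphere_subset hz), one_mul] at h2
        change (u z / (z ^ k * v z)) ^ 2 = z
        rw [div_pow, h2, div_eq_iff (pow_ne_zero 2
          (mul_ne_zero (pow_ne_zero k (hz0 z hz)) (hv2 z hz).1))]
        ring
    · have hzc : z ∈ closedBall (0 : ℂ) 1 := by
        rw [mem_closedBall_zero_iff]; linarith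
      rw [hval z hzc, sub_eq_zero] at hgz
      have h1 : ‖z‖ ^ (2 * k + 1) = (1 / 2 : ℝ) ^ (2 * k + 1) := by
        rw [← norm_pow, hgz, hcn]
      have h2 : ‖z‖ ^ (2 * k + 1) < (1 / 2 : ℝ) ^ (2 * k + 1) :=
        pow_lt_pow_left₀ hz (norm_nonneg _) (by omega)
      linarith
  refine (infDist_le_dist_of_mem hg).trans ?_
  rw [dist_eq_norm, norm_sub_rev]
  exact hdist

theorem one_le_infDist_even (k : ℕ) : 1 ≤ infDist (Z ^ (2 * k)) Sᶜ := by
  rw [le_infDist ⟨0, zero_notMem⟩]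
  intro g hg
  rw [dist_comm, dist_eq_norm]
  by_contra h
  push Not at h
  exact hg (Or.inl (SqClass.of_close (even_Z_pow k) one_pos
    (fun z hz => (norm_val_Z_pow _ hz).ge) h))

theorem no_limit : ¬ ∃ L : ℝ, Tendsto (fun n : ℕ => infDist (Z ^ n) Sᶜ ^ (1 / (n : ℝ))) atTop
    (𝓝 L) := by
  rintro ⟨L, hL⟩
  have heven : Tendsto (fun k : ℕ => infDist (Z ^ (2 * k)) Sᶜ ^ (1 / ((2 * k : ℕ) : ℝ))) atTop
      (𝓝 L) := hL.comp (tendsto_atTop_mono (fun k => by simp only [id]; omega) tendsto_id)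
  have hodd : Tendsto (fun k : ℕ => infDist (Z ^ (2 * k + 1)) Sᶜ ^ (1 / ((2 * k + 1 : ℕ) : ℝ)))
      atTop (𝓝 L) :=
    hL.comp (tendsto_atTop_mono (fun k => by simp only [id]; omega) tendsto_id)
  have h1 : 1 ≤ L := by
    refine ge_of_tendsto' heven fun k => ?_
    exact Real.one_le_rpow (one_le_infDist_even k) (by positivity)
  have h2 : L ≤ 1 / 2 := by
    refine le_of_tendsto' hodd fun k => ?_
    have h3 : infDist (Z ^ (2 * k + 1)) Sᶜ ^ (1 / ((2 * k + 1 : ℕ) : ℝ)) ≤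
        ((1 / 2 : ℝ) ^ (2 * k + 1)) ^ (1 / ((2 * k + 1 : ℕ) : ℝ)) :=
      Real.rpow_le_rpow infDist_nonneg (infDist_odd_le k) (by positivity)
    refine h3.trans_eq ?_
    rw [one_div ((2 * k + 1 : ℕ) : ℝ)]
    exact Real.pow_rpow_inv_natCast (by norm_num) (by omega)
  linarith

theorem norm_one_A : ‖(1 : A)‖ = 1 := by
  apply le_antisymm
  · apply norm_le_of_val zero_le_one
    intro z hz
    rw [val_one hz, norm_one]
  · have h := norm_val_le (1 : A) 0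
    rwa [val_one (mem_closedBall_self zero_le_one), norm_one] at h

end Pool.Agent.Q86.DiscAlg
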