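import Pool.Agent.Q86.Fitting

set_option autoImplicit false

/-!
# Commuting invertible compact perturbations of the pair `(T, T)`
-/

namespace Pool.Agent.Q86.PairPert

open Pool.Agent.Q86.Fitting Polynomial

section defs

variable {H : Type*} [NormedAddCommGroup H] [InnerProductSpace ℂ H]

/-- Taylor invertibility of the pair `(S₁, S₂)`: exactness of its Koszul complex. -/
def IsInvertiblePair (S₁ S₂ : H →L[ℂ] H) : Prop :=
  (∀ x, S₁ x = 0 → S₂ x = 0 → x = 0) ∧ (∀ y, ∃ a b, y = S₁ a + S₂ b) ∧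
    ∀ x y, S₁ y = S₂ x → ∃ z, x = S₁ z ∧ y = S₂ z

/-- A Fredholm operator: closed range, finite-dimensional kernel and cokernel. -/
def IsFredholmOp (T : H →L[ℂ] H) : Prop :=
  IsClosed (Set.range T) ∧ FiniteDimensional ℂ (LinearMap.ker (T : H →ₗ[ℂ] H)) ∧
    FiniteDimensional ℂ (H ⧸ LinearMap.range (T : H →ₗ[ℂ] H))

/-- There are compact operators `K₁`, `K₂` such that `T + K₁` and `T + K₂` commute and form an
invertible pair. -/
def HasInvertiblePair (T : H →L[ℂ] H) : Prop :=
  ∃ K₁ K₂ : H →L[ℂ] H, IsCompactOperator K₁ ∧ IsCompactOperator K₂ ∧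
    (T + K₁) ∘L (T + K₂) = (T + K₂) ∘L (T + K₁) ∧ IsInvertiblePair (T + K₁) (T + K₂)

/-- There is a compact operator `K` such that `T + K` is bijective (equivalently, if `T` is
Fredholm, the index of `T` is zero). -/
def HasInvertiblePerturbation (T : H →L[ℂ] H) : Prop :=
  ∃ K : H →L[ℂ] H, IsCompactOperator K ∧ Function.Bijective (T + K)

end defs

variable {H : Type*} [NormedAddCommGroup H] [InnerProductSpace ℂ H] [CompleteSpace H]

omit [CompleteSpace H] in
theorem HasInvertiblePerturbation.pair {T : H →L[ℂ] H} (h : HasInvertiblePerturbation T) :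
    HasInvertiblePair T := by
  obtain ⟨K, hK, hb⟩ := h
  refine ⟨K, K, hK, hK, rfl, ?_, ?_, ?_⟩
  · intro x hx _
    exact hb.1 (by rw [hx, map_zero])
  · intro y
    obtain ⟨a, ha⟩ := hb.2 y
    exact ⟨a, 0, by rw [map_zero, add_zero, ha]⟩
  · intro x y hxy
    obtain ⟨z, hz⟩ := hb.2 x
    have : y = x := hb.1 hxy
    exact ⟨z, hz.symm, by rw [this, hz]⟩

/-- A Fredholm operator has an inverse modulo compact operators. -/
theorem exists_quasi {T : H →L[ℂ] H} (hT : IsFredholmOp T) :
    ∃ L : H →L[ℂ] H, (∃ C : H →L[ℂ] H, IsCompactOperator C ∧ L * T = 1 - C) ∧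
      ∃ C : H →L[ℂ] H, IsCompactOperator C ∧ T * L = 1 - C := by
  obtain ⟨hcl, hker, hcok⟩ := hT
  let Z : Submodule ℂ H := LinearMap.ker (T : H →ₗ[ℂ] H)
  let R : Submodule ℂ H := LinearMap.range (T : H →ₗ[ℂ] H)
  have hRc : IsClosed (R : Set H) := hcl
  have : FiniteDimensional ℂ Z := hker
  have : FiniteDimensional ℂ (H ⧸ R) := hcok
  have : CompleteSpace R := hRc.completeSpace_coe
  -- the orthogonal complement of the range is finite-dimensional
  have hRo : FiniteDimensional ℂ Rᗮ := by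
    have h1 : IsCompl R Rᗮ := Submodule.isCompl_orthogonal _
    exact LinearEquiv.finiteDimensional (Submodule.quotientEquivOfIsCompl R Rᗮ h1)
  let e0 : Zᗮ →L[ℂ] R := (T ∘L (Zᗮ).subtypeL).codRestrict R (fun x => ⟨x, rfl⟩)
  have hinj : Function.Injective e0 := by
    rw [injective_iff_map_eq_zero]
    intro x hx
    have h1 : T x = 0 := congrArg Subtype.val hx
    have h2 : (x : H) ∈ Z := h1
    have h3 : inner ℂ (x : H) (x : H) = 0 := x.2 x h2
    exact Subtype.ext (inner_self_eq_zero.1 h3)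
  have hsurj : Function.Surjective e0 := by
    rintro ⟨_, x, rfl⟩
    refine ⟨⟨x - Z.starProjection x, Z.sub_starProjection_mem_orthogonal x⟩, ?_⟩
    apply Subtype.ext
    change T (x - Z.starProjection x) = T x
    have h1 : T (Z.starProjection x) = 0 := Z.starProjection_apply_mem x
    rw [map_sub, h1, sub_zero]
  let e : Zᗮ ≃L[ℂ] R := ContinuousLinearEquiv.ofBijective e0 (LinearMap.ker_eq_bot.2 hinj)
    (LinearMap.range_eq_top.2 hsurj)
  have he : ∀ x : Zᗮ, (e x : H) = T x := fun x => rfl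
  let L : H →L[ℂ] H := (Zᗮ).subtypeL ∘L (e.symm : R →L[ℂ] Zᗮ) ∘L R.orthogonalProjectionOnto
  refine ⟨L, ⟨Z.starProjection, isCompact_starProjection Z, ?_⟩,
    ⟨Rᗮ.starProjection, isCompact_starProjection Rᗮ, ?_⟩⟩
  · ext x
    change ((e.symm (R.orthogonalProjectionOnto (T x)) : Zᗮ) : H) = x - Z.starProjection x
    have h1 : R.orthogonalProjectionOnto (T x) = ⟨T x, x, rfl⟩ :=
      Submodule.orthogonalProjectionOnto_mem_subspace_eq_self (⟨T x, ⟨x, rfl⟩⟩ : R)
    rw [h1]
    have h2 : (⟨T x, x, rfl⟩ : R) =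
        e ⟨x - Z.starProjection x, Z.sub_starProjection_mem_orthogonal x⟩ := by
      apply Subtype.ext
      rw [he]
      change T x = T (x - Z.starProjection x)
      have h1 : T (Z.starProjection x) = 0 := Z.starProjection_apply_mem x
      rw [map_sub, h1, sub_zero]
    rw [h2, ContinuousLinearEquiv.symm_apply_apply]
  · ext x
    change T ((e.symm (R.orthogonalProjectionOnto x) : Zᗮ) : H) = x - Rᗮ.starProjection x
    rw [← he, ContinuousLinearEquiv.apply_symm_apply]
    have h1 := R.starProjection_add_starProjection_orthogonal x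
    have h2 : ((R.orthogonalProjectionOnto x : R) : H) = R.starProjection x := rfl
    rw [h2]
    exact eq_sub_of_add_eq h1

/-- A compact perturbation of a Fredholm operator has finite-dimensional kernel and cokernel. -/
theorem finite_of_perturb {T K : H →L[ℂ] H} (hT : IsFredholmOp T) (hK : IsCompactOperator K) :
    FiniteDimensional ℂ (LinearMap.ker ((T + K : H →L[ℂ] H) : H →ₗ[ℂ] H)) ∧
    FiniteDimensional ℂ (H ⧸ LinearMap.range ((T + K : H →L[ℂ] H) : H →ₗ[ℂ] H)) := by
  obtain ⟨L, ⟨C, hC, hLT⟩, ⟨C', hC', hTL⟩⟩ := exists_quasi hT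
  constructor
  · have h1 : IsCompactOperator (C - L * K : H →L[ℂ] H) := hC.sub (hK.clm_comp L)
    apply finiteDimensional_ker h1
    · intro x hx
      have hx' : T x + K x = 0 := hx
      have h2 : L (T x) = x - C x := by
        have := congrArg (fun A : H →L[ℂ] H => A x) hLT
        exact this
      have h3 : L (T x) + L (K x) = 0 := by rw [← map_add, hx', map_zero]
      change C x - L (K x) = x
      rw [h2] at h3
      have h4 : L (K x) = -(x - C x) := eq_neg_of_add_eq_zero_right h3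
      rw [h4]; abel
    · exact (T + K).isClosed_ker
  · have h1 : IsCompactOperator (C' - K * L : H →L[ℂ] H) := hC'.sub (hK.comp_clm L)
    have h2 : (T + K) * L = 1 - (C' - K * L) := by rw [add_mul, hTL]; abel
    obtain ⟨k, hk, hF, -, hdec⟩ := fitting h1
    rw [← h2] at hF hdec
    set F : Submodule ℂ H := LinearMap.ker ((((T + K) * L) ^ k : H →L[ℂ] H) : H →ₗ[ℂ] H) with hFd
    let R : Submodule ℂ H := LinearMap.range ((T + K : H →L[ℂ] H) : H →ₗ[ℂ] H)
    apply FiniteDimensional.of_surjective (R.mkQ ∘ₗ F.subtype)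
    intro q
    obtain ⟨y, rfl⟩ := R.mkQ_surjective q
    obtain ⟨x, f, hf, hy⟩ := hdec y
    refine ⟨⟨f, hf⟩, ?_⟩
    change R.mkQ f = R.mkQ y
    rw [← sub_eq_zero, ← map_sub, Submodule.mkQ_apply, Submodule.Quotient.mk_eq_zero]
    have h3 : f - y = -((((T + K) * L) ^ k) x) := by rw [hy]; abel
    rw [h3]
    apply R.neg_mem
    obtain ⟨m, rfl⟩ := Nat.exists_eq_add_of_le hk
    rw [pow_add, pow_one]
    exact ⟨L ((((T + K) * L) ^ m) x), rfl⟩

section algebra

variable {S D : H →L[ℂ] H}

omit [CompleteSpace H] in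
theorem commute_aeval (hSD : S * D = D * S) (p : ℂ[X]) (x : H) :
    aeval D p (S x) = S (aeval D p x) := by
  induction p using Polynomial.induction_on' with
  | add p q hp hq => simp only [map_add, _root_.add_apply, hp, hq]
  | monomial n a =>
    have h1 : ∀ n : ℕ, ∀ x, (D ^ n) (S x) = S ((D ^ n) x) := by
      intro n
      induction n with
      | zero => intro x; simp
      | succ n ih =>
        intro x
        rw [pow_succ_apply', pow_succ_apply', ← ih]
        congr 1
        exact (congrArg (fun A : H →L[ℂ] H => A x) hSD).symm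
    rw [aeval_monomial, Algebra.algebraMap_eq_smul_one, smul_one_mul]
    simp only [_root_.smul_apply, map_smul, h1]

omit [CompleteSpace H] in
/-- There is an operator `Q = q (D)`, `q (0) = 0`, with `1 - Q` zero on the kernel of `S` and
mapping into the range of `S`. -/
theorem exists_Q (hSD : S * D = D * S) (hD : IsCompactOperator D)
    (hker : FiniteDimensional ℂ (LinearMap.ker (S : H →ₗ[ℂ] H)))
    (hcok : FiniteDimensional ℂ (H ⧸ LinearMap.range (S : H →ₗ[ℂ] H)))
    (h1 : ∀ x, S x = 0 → D x = 0 → x = 0) (h2 : ∀ y, ∃ a b, y = S a + D b) :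
    ∃ Q : H →L[ℂ] H, IsCompactOperator Q ∧ S * Q = Q * S ∧ (∀ x, S x = 0 → (1 - Q) x = 0) ∧
      ∀ y, ∃ z, (1 - Q) y = S z := by
  have hcomm : ∀ x, S (D x) = D (S x) := fun x => congrArg (fun A : H →L[ℂ] H => A x) hSD
  let Z : Submodule ℂ H := LinearMap.ker (S : H →ₗ[ℂ] H)
  let R : Submodule ℂ H := LinearMap.range (S : H →ₗ[ℂ] H)
  have : FiniteDimensional ℂ Z := hker
  have : FiniteDimensional ℂ (H ⧸ R) := hcok
  have hZ : ∀ x ∈ Z, (D : H →ₗ[ℂ] H) x ∈ Z := by
    intro x hx
    have hx' : S x = 0 := hx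
    change S (D x) = 0
    rw [hcomm, hx', map_zero]
  have hR : R ≤ R.comap (D : H →ₗ[ℂ] H) := by
    rintro _ ⟨x, rfl⟩
    exact ⟨D x, hcomm x⟩
  let g : Z →ₗ[ℂ] Z := (D : H →ₗ[ℂ] H).restrict hZ
  let h : (H ⧸ R) →ₗ[ℂ] (H ⧸ R) := R.mapQ R (D : H →ₗ[ℂ] H) hR
  have hginj : Function.Injective g := by
    rw [injective_iff_map_eq_zero]
    intro x hx
    apply Subtype.ext
    exact h1 x x.2 (congrArg Subtype.val hx)
  have hhsurj : Function.Surjective h := by
    intro q
    obtain ⟨y, rfl⟩ := R.mkQ_surjective q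
    obtain ⟨a, b, rfl⟩ := h2 y
    refine ⟨R.mkQ b, ?_⟩
    change R.mkQ (D b) = R.mkQ (S a + D b)
    have : R.mkQ (S a) = 0 := by
      rw [Submodule.mkQ_apply, Submodule.Quotient.mk_eq_zero]; exact ⟨a, rfl⟩
    rw [map_add, this, zero_add]
  have hhinj : Function.Injective h := LinearMap.injective_iff_surjective.2 hhsurj
  have hcoeff : ∀ {V : Type _} [AddCommGroup V] [Module ℂ V] [FiniteDimensional ℂ V]
      (f : V →ₗ[ℂ] V), Function.Injective f → f.charpoly.coeff 0 ≠ 0 := by
    intro V _ _ _ f hf h0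
    have h3 := LinearMap.det_eq_sign_charpoly_coeff f
    rw [h0, mul_zero] at h3
    have h4 := LinearMap.bot_lt_ker_of_det_eq_zero h3
    rw [LinearMap.ker_eq_bot.2 hf] at h4
    exact lt_irrefl _ h4
  have hg0 := hcoeff g hginj
  have hh0 := hcoeff h hhinj
  set p : ℂ[X] := g.charpoly * h.charpoly with hp
  have hp0 : p.coeff 0 ≠ 0 := by
    rw [hp, mul_coeff_zero]; exact mul_ne_zero hg0 hh0
  -- values on the kernel
  have hgval : ∀ (q : ℂ[X]) (x : Z), ((aeval g q x : Z) : H) = aeval D q (x : H) := by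
    intro q
    induction q using Polynomial.induction_on' with
    | add q r hq hr =>
      intro x
      simp only [map_add, LinearMap.add_apply, Submodule.coe_add, hq, hr]
      rfl
    | monomial n a =>
      have h3 : ∀ n : ℕ, ∀ x : Z, (((g ^ n) x : Z) : H) = (D ^ n) (x : H) := by
        intro n
        induction n with
        | zero => intro x; simp
        | succ n ih =>
          intro x
          rw [pow_succ_apply', pow_succ, Module.End.mul_apply, ih]
          rfl
      intro x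
      rw [aeval_monomial, aeval_monomial, Algebra.algebraMap_eq_smul_one,
        Algebra.algebraMap_eq_smul_one, smul_one_mul, smul_one_mul]
      simp only [LinearMap.smul_apply, _root_.smul_apply, Submodule.coe_smul, h3]
  have hhval : ∀ (q : ℂ[X]) (x : H), aeval h q (R.mkQ x) = R.mkQ (aeval D q x) := by
    intro q
    induction q using Polynomial.induction_on' with
    | add q r hq hr =>
      intro x
      simp only [map_add, LinearMap.add_apply, hq, hr]
      rw [← map_add]; rfl
    | monomial n a =>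
      have h3 : ∀ n : ℕ, ∀ x : H, (h ^ n) (R.mkQ x) = R.mkQ ((D ^ n) x) := by
        intro n
        induction n with
        | zero => intro x; simp
        | succ n ih =>
          intro x
          rw [pow_succ_apply', pow_succ, Module.End.mul_apply, ← ih]
          rfl
      intro x
      rw [aeval_monomial, aeval_monomial, Algebra.algebraMap_eq_smul_one,
        Algebra.algebraMap_eq_smul_one, smul_one_mul, smul_one_mul]
      simp only [LinearMap.smul_apply, _root_.smul_apply, map_smul, h3]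
  -- the operator
  let Q : H →L[ℂ] H := -((p.coeff 0)⁻¹ • (aeval D p.divX * D))
  have hQ : 1 - Q = (p.coeff 0)⁻¹ • aeval D p := by
    have h3 : aeval D p = aeval D p.divX * D + p.coeff 0 • 1 := by
      conv_lhs => rw [← divX_mul_X_add p]
      rw [map_add, map_mul, aeval_X, aeval_C, Algebra.algebraMap_eq_smul_one]
    rw [h3, smul_add, smul_smul, inv_mul_cancel₀ hp0, one_smul]
    simp only [Q]
    abel
  refine ⟨Q, ?_, ?_, ?_, ?_⟩
  · have h3 : IsCompactOperator (aeval D p.divX * D : H →L[ℂ] H) := hD.clm_comp _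
    exact (h3.smul (p.coeff 0)⁻¹).neg
  · ext x
    change S (-((p.coeff 0)⁻¹ • (aeval D p.divX (D x)))) =
      -((p.coeff 0)⁻¹ • (aeval D p.divX (D (S x))))
    rw [map_neg, map_smul, ← commute_aeval hSD, hcomm]
  · intro x hx
    rw [hQ]
    change (p.coeff 0)⁻¹ • (aeval D p x) = 0
    have h3 : aeval D p x = 0 := by
      rw [hp, mul_comm, map_mul]
      change aeval D h.charpoly (aeval D g.charpoly x) = 0
      have h4 := hgval g.charpoly ⟨x, hx⟩
      rw [LinearMap.aeval_self_charpoly] at h4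
      have h5 : aeval D g.charpoly x = 0 := h4.symm
      rw [h5, map_zero]
    rw [h3, smul_zero]
  · intro y
    have h4 := hhval h.charpoly y
    rw [LinearMap.aeval_self_charpoly, LinearMap.zero_apply] at h4
    have h5 : aeval D h.charpoly y ∈ R := by
      rw [← Submodule.Quotient.mk_eq_zero, ← Submodule.mkQ_apply]; exact h4.symm
    obtain ⟨z, hz⟩ := h5
    have hz' : S z = aeval D h.charpoly y := hz
    refine ⟨(p.coeff 0)⁻¹ • aeval D g.charpoly z, ?_⟩
    rw [hQ, map_smul, ← commute_aeval hSD, hz', hp, map_mul]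
    rfl

end algebra

theorem main_perturb {S D : H →L[ℂ] H} (hSD : S * D = D * S) (hD : IsCompactOperator D)
    (hker : FiniteDimensional ℂ (LinearMap.ker (S : H →ₗ[ℂ] H)))
    (hcok : FiniteDimensional ℂ (H ⧸ LinearMap.range (S : H →ₗ[ℂ] H)))
    (h1 : ∀ x, S x = 0 → D x = 0 → x = 0) (h2 : ∀ y, ∃ a b, y = S a + D b) :
    HasInvertiblePerturbation S := by
  obtain ⟨Q, hQ, hSQ, hQ1, hQ2⟩ := exists_Q hSD hD hker hcok h1 h2
  obtain ⟨k, hk, hFd, hFR, hdec⟩ := fitting hQ
  obtain ⟨Qk, hQk, hpow⟩ := pow_sub_compact hQ k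
  set N : H →L[ℂ] H := 1 - Q with hN
  have hSN : ∀ x, S (N x) = N (S x) := by
    intro x
    have : S (Q x) = Q (S x) := congrArg (fun A : H →L[ℂ] H => A x) hSQ
    change S (x - Q x) = S x - Q (S x)
    rw [map_sub, this]
  have hSNk : ∀ j : ℕ, ∀ x, S ((N ^ j) x) = (N ^ j) (S x) := by
    intro j
    induction j with
    | zero => intro x; simp
    | succ j ih => intro x; rw [pow_succ_apply', pow_succ_apply', ih, hSN]
  let F : Submodule ℂ H := LinearMap.ker ((N ^ k : H →L[ℂ] H) : H →ₗ[ℂ] H)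
  have hmemF : ∀ x, x ∈ F ↔ (N ^ k) x = 0 := fun x => Iff.rfl
  have : FiniteDimensional ℂ F := hFd
  let P : H →L[ℂ] H := F.starProjection
  have hPmem : ∀ x, (N ^ k) (P x) = 0 := fun x => F.starProjection_apply_mem x
  have hPself : ∀ x, (N ^ k) x = 0 → P x = x := fun x hx => F.starProjection_eq_self_iff.2 hx
  -- `S` is injective on the range of `N ^ k`
  have hSinj : ∀ x, S ((N ^ k) x) = 0 → (N ^ k) x = 0 := by
    intro x hx
    have h3 := hQ1 _ hx
    apply hFR
    obtain ⟨m, rfl⟩ := Nat.exists_eq_add_of_le hk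
    conv_lhs => rw [add_comm 1 m, pow_succ_apply']
    have h4 : N ((N ^ (m + 1)) x) = 0 := by rw [add_comm m 1]; exact h3
    rw [h4, map_zero]
  -- every element of the range of `N ^ k` is `S (N ^ k z)`
  have hSsurj : ∀ x, ∃ z, (N ^ k) x = S ((N ^ k) z) := by
    intro x
    -- `N ^ k x = N (N ^ k w)`
    obtain ⟨w, hw⟩ : ∃ w, (N ^ k) x = N ((N ^ k) w) := by
      obtain ⟨u, f, hf, hx⟩ := hdec x
      obtain ⟨m, hm⟩ := Nat.exists_eq_add_of_le hk
      refine ⟨(N ^ m) u, ?_⟩
      conv_lhs => rw [hx, map_add, hf, add_zero]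
      rw [← pow_add_apply, ← pow_add_apply]
      have h5 : ∀ (j : ℕ) (v : H), N ((N ^ j) v) = (N ^ (j + 1)) v := by
        intro j v; rw [pow_succ']; rfl
      rw [h5]
      congr 2
      omega
    obtain ⟨z, hz⟩ := hQ2 ((N ^ k) w)
    obtain ⟨u, f, hf, hzd⟩ := hdec z
    refine ⟨u, ?_⟩
    have h3 : S f = (N ^ k) x - S ((N ^ k) u) := by
      rw [hw, hz]
      conv_rhs => rw [hzd]
      rw [map_add]; abel
    have h4 : (N ^ k) (S f) = 0 := by rw [← hSNk, hf, map_zero]
    have h5 : S f = (N ^ k) (x - S u) := by rw [h3, hSNk, map_sub]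
    have h6 : S f = 0 := by
      rw [h5]; apply hFR; rw [← h5]; exact h4
    rw [h6] at h3
    exact (sub_eq_zero.1 h3.symm)
  refine ⟨P - S * Qk, (isCompact_starProjection F).sub (hQk.clm_comp S), ?_⟩
  have hV : ∀ x, (S + (P - S * Qk)) x = S ((N ^ k) x) + P x := by
    intro x
    change S x + (P x - S (Qk x)) = _
    have h3 : (N ^ k) x = x - Qk x := by rw [hpow]; rfl
    rw [h3, map_sub]; abel
  constructor
  · rw [injective_iff_map_eq_zero]
    intro x hx
    rw [hV] at hx
    have h3 : P x = -S ((N ^ k) x) := eq_neg_of_add_eq_zero_right hx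
    have h4 : (N ^ k) (S ((N ^ k) x)) = 0 := by
      have h5 := hPmem x
      rw [h3, map_neg, neg_eq_zero] at h5
      exact h5
    have h6 : S ((N ^ k) x) = 0 := by
      rw [hSNk] at h4 ⊢
      exact hFR _ h4
    have h7 := hSinj x h6
    have h8 := hPself x h7
    rw [h6, neg_zero] at h3
    rw [← h8, h3]
  · intro y
    obtain ⟨x, f, hf, hy⟩ := hdec y
    obtain ⟨z, hz⟩ := hSsurj x
    refine ⟨z + (f - P z), ?_⟩
    have h3 : (N ^ k) (f - P z) = 0 := by rw [map_sub, hf, hPmem, sub_zero]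
    rw [hV, map_add, h3, add_zero, map_add, hPself _ h3, hy, hz]
    abel

theorem HasInvertiblePair.perturbation {T : H →L[ℂ] H} (hT : IsFredholmOp T)
    (h : HasInvertiblePair T) : HasInvertiblePerturbation T := by
  obtain ⟨K₁, K₂, hK₁, hK₂, hcomm, h1, h2, -⟩ := h
  obtain ⟨hf1, hf2⟩ := finite_of_perturb hT hK₁
  have hcomm' : (T + K₁) * (T + K₂) = (T + K₂) * (T + K₁) := hcomm
  have hD : K₁ - K₂ = (T + K₁) - (T + K₂) := by abel
  have hSD : (T + K₁) * (K₁ - K₂) = (K₁ - K₂) * (T + K₁) := by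
    rw [hD, mul_sub, sub_mul, hcomm']
  obtain ⟨C, hC, hb⟩ := main_perturb hSD (hK₁.sub hK₂) hf1 hf2 (by
      intro x hx hx2
      apply h1 x hx
      have h3 : (T + K₂) x = (T + K₁) x - (K₁ - K₂) x := by
        change T x + K₂ x = T x + K₁ x - (K₁ x - K₂ x); abel
      rw [h3, hx, hx2, sub_zero]) (by
      intro y
      obtain ⟨a, b, rfl⟩ := h2 y
      refine ⟨a + b, -b, ?_⟩
      change T a + K₁ a + (T b + K₂ b) = T (a + b) + K₁ (a + b) + (K₁ (-b) - K₂ (-b))
      simp only [map_add, map_neg]; abel)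
  refine ⟨K₁ + C, hK₁.add hC, ?_⟩
  rw [← add_assoc]; exact hb

/-- An injective operator with an invertible compact perturbation is surjective. -/
theorem surjective_of_injective {T : H →L[ℂ] H} (h : HasInvertiblePerturbation T)
    (hinj : Function.Injective T) : Function.Surjective T := by
  obtain ⟨K, hK, hb⟩ := h
  let e : H ≃L[ℂ] H := ContinuousLinearEquiv.ofBijective (T + K) (LinearMap.ker_eq_bot.2 hb.1)
    (LinearMap.range_eq_top.2 hb.2)
  have he : ∀ x, e x = T x + K x := fun x => rfl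
  have hC : IsCompactOperator ((e.symm : H →L[ℂ] H) * K : H →L[ℂ] H) :=
    hK.clm_comp (e.symm : H →L[ℂ] H)
  have h1 : ∀ x, (1 - (e.symm : H →L[ℂ] H) * K) x = e.symm (T x) := by
    intro x
    change x - e.symm (K x) = e.symm (T x)
    have h2 : e.symm (T x) + e.symm (K x) = x := by
      rw [← map_add, ← he, ContinuousLinearEquiv.symm_apply_apply]
    exact sub_eq_of_eq_add h2.symm
  have h2 := bijective_of_injective hC (by
    intro x hx
    rw [h1] at hx
    have h3 : T x = 0 := by simpa using hx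
    exact hinj (by rw [h3, map_zero]))
  intro y
  obtain ⟨x, hx⟩ := h2.2 (e.symm y)
  rw [h1] at hx
  exact ⟨x, e.symm.injective hx⟩

end Pool.Agent.Q86.PairPert
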