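import Mathlib

set_option autoImplicit false

/-!
Polynomials along rectifiable paths in a compact plane set.
-/

namespace Pool.Agent.Q86.PlaneDiff

open Set Topology Filter Metric

/-- there is a path of length at most `L` in `X` from `z` to `w` -/
def JoinedLE (X : Set ℂ) (L : ℝ) (z w : ℂ) : Prop :=
  ∃ γ : ℝ → ℂ, ContinuousOn γ (Icc 0 1) ∧ (∀ t ∈ Icc (0 : ℝ) 1, γ t ∈ X) ∧ γ 0 = z ∧ γ 1 = w ∧
    eVariationOn γ (Icc 0 1) ≤ ENNReal.ofReal L

theorem exists_antideriv (p : Polynomial ℂ) :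
    ∃ P : Polynomial ℂ, Polynomial.derivative P = p := by
  induction p using Polynomial.induction_on' with
  | add p q hp hq =>
    obtain ⟨P, hP⟩ := hp
    obtain ⟨Q, hQ⟩ := hq
    exact ⟨P + Q, by rw [map_add, hP, hQ]⟩
  | monomial n a =>
    refine ⟨Polynomial.monomial (n + 1) (a / (n + 1)), ?_⟩
    rw [Polynomial.derivative_monomial]
    have : ((n : ℂ) + 1) ≠ 0 := by exact_mod_cast Nat.succ_ne_zero n
    simp only [Nat.add_sub_cancel]
    congr 1
    push_cast
    field_simp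

theorem local_lip {X : Set ℂ} (hX : IsCompact X) (P : Polynomial ℂ) {M : ℝ}
    (hM : ∀ z ∈ X, ‖P.derivative.eval z‖ ≤ M) {ε : ℝ} (hε : 0 < ε) :
    ∃ δ : ℝ, 0 < δ ∧ ∀ z ∈ X, ∀ w, ‖w - z‖ < δ → ‖P.eval w - P.eval z‖ ≤ (M + ε) * ‖w - z‖ := by
  have hK : IsCompact (cthickening 1 X) := hX.cthickening
  have huc : UniformContinuousOn (fun z => P.derivative.eval z) (cthickening 1 X) :=
    hK.uniformContinuousOn_of_continuous P.derivative.continuous.continuousOn
  rw [Metric.uniformContinuousOn_iff] at huc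
  obtain ⟨δ, hδ, h⟩ := huc ε hε
  refine ⟨min δ 1, by positivity, ?_⟩
  intro z hz w hw
  have hb : ∀ x ∈ ball z (min δ 1), ‖P.derivative.eval x‖ ≤ M + ε := by
    intro x hx
    have hx' : dist x z < min δ 1 := hx
    have h1 : x ∈ cthickening 1 X := by
      refine mem_cthickening_of_dist_le x z 1 X hz ?_
      exact (hx'.trans_le (min_le_right _ _)).le
    have h2 := h x h1 z (self_subset_cthickening X hz) (hx'.trans_le (min_le_left _ _))
    have h3 := hM z hz
    rw [dist_eq_norm] at h2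
    calc ‖P.derivative.eval x‖ = ‖P.derivative.eval z + (P.derivative.eval x - P.derivative.eval z)‖ := by
          congr 1; ring
      _ ≤ ‖P.derivative.eval z‖ + ‖P.derivative.eval x - P.derivative.eval z‖ := norm_add_le _ _
      _ ≤ M + ε := by linarith
  refine (convex_ball z (min δ 1)).norm_image_sub_le_of_norm_hasDerivWithin_le
    (f := fun x => P.eval x) (f' := fun x => P.derivative.eval x) ?_ hb
    (mem_ball_self (by positivity)) ?_
  · intro x _
    exact (P.hasDerivAt x).hasDerivWithinAt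
  · rw [mem_ball, dist_eq_norm]; exact hw

theorem path_bound {X : Set ℂ} (hX : IsCompact X) (P : Polynomial ℂ) {M L : ℝ} (hM0 : 0 ≤ M)
    (hL : 0 ≤ L) (hM : ∀ z ∈ X, ‖P.derivative.eval z‖ ≤ M) {z w : ℂ} (h : JoinedLE X L z w) :
    ‖P.eval w - P.eval z‖ ≤ M * L := by
  obtain ⟨γ, hc, hin, h0, h1, hlen⟩ := h
  refine le_of_forall_pos_le_add fun e he => ?_
  -- choose the local constant
  set ε : ℝ := e / (L + 1) with hεd
  have hε : 0 < ε := by positivity
  obtain ⟨δ, hδ, hl⟩ := local_lip hX P hM hε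
  have huc : UniformContinuousOn γ (Icc 0 1) := isCompact_Icc.uniformContinuousOn_of_continuous hc
  rw [Metric.uniformContinuousOn_iff] at huc
  obtain ⟨η, hη, hγ⟩ := huc δ hδ
  obtain ⟨N, hN⟩ := exists_nat_gt (1 / η)
  have hN0 : (0 : ℝ) < N := lt_trans (by positivity) hN
  have hN1 : 1 / (N : ℝ) < η := by
    rw [div_lt_iff₀ hN0]
    rw [div_lt_iff₀ hη] at hN
    linarith
  set u : ℕ → ℝ := fun i => min ((i : ℝ) / N) 1 with hu
  have humono : Monotone u := by
    intro a b hab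
    have : (a : ℝ) / N ≤ (b : ℝ) / N := by
      have : (a : ℝ) ≤ b := by exact_mod_cast hab
      gcongr
    exact min_le_min_right _ this
  have huI : ∀ i, u i ∈ Icc (0 : ℝ) 1 := fun i => ⟨by
    refine le_min (by positivity) zero_le_one, min_le_right _ _⟩
  have hsum := eVariationOn.sum_le (f := γ) (s := Icc (0 : ℝ) 1) (n := N) humono huI
  have hstep : ∀ i, ‖P.eval (γ (u (i + 1))) - P.eval (γ (u i))‖ ≤
      (M + ε) * ‖γ (u (i + 1)) - γ (u i)‖ := by
    intro i
    refine hl _ (hin _ (huI i)) _ ?_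
    rw [← dist_eq_norm]
    refine hγ _ (huI _) _ (huI _) ?_
    rw [Real.dist_eq, abs_of_nonneg (sub_nonneg.2 (humono (Nat.le_succ i)))]
    refine lt_of_le_of_lt ?_ hN1
    simp only [hu]
    rcases le_total ((i : ℝ) / N) 1 with h | h
    · rw [min_eq_left h]
      have : min (((i + 1 : ℕ) : ℝ) / N) 1 ≤ ((i + 1 : ℕ) : ℝ) / N := min_le_left _ _
      push_cast at this ⊢
      have e2 : ((i : ℝ) + 1) / N = (i : ℝ) / N + 1 / N := by ring
      rw [e2] at this ⊢
      linarith
    · rw [min_eq_right h]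
      have : min (((i + 1 : ℕ) : ℝ) / N) 1 ≤ 1 := min_le_right _ _
      have h4 : (0 : ℝ) ≤ 1 / N := by positivity
      linarith
  have htel : P.eval w - P.eval z =
      ∑ i ∈ Finset.range N, (P.eval (γ (u (i + 1))) - P.eval (γ (u i))) := by
    rw [Finset.sum_range_sub (fun i => P.eval (γ (u i)))]
    have e0 : u 0 = 0 := by simp [hu]
    have e1 : u N = 1 := by
      simp only [hu]
      rw [div_self hN0.ne', min_self]
    rw [e0, e1, h0, h1]
  have hvar : ∑ i ∈ Finset.range N, ‖γ (u (i + 1)) - γ (u i)‖ ≤ L := by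
    have h2 := hsum.trans hlen
    have e3 : ∑ i ∈ Finset.range N, edist (γ (u (i + 1))) (γ (u i)) =
        ENNReal.ofReal (∑ i ∈ Finset.range N, ‖γ (u (i + 1)) - γ (u i)‖) := by
      rw [ENNReal.ofReal_sum_of_nonneg (fun i _ => norm_nonneg _)]
      refine Finset.sum_congr rfl fun i _ => ?_
      rw [edist_dist, dist_eq_norm]
    rw [e3] at h2
    exact (ENNReal.ofReal_le_ofReal_iff hL).1 h2
  rw [htel]
  calc ‖∑ i ∈ Finset.range N, (P.eval (γ (u (i + 1))) - P.eval (γ (u i)))‖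
      ≤ ∑ i ∈ Finset.range N, ‖P.eval (γ (u (i + 1))) - P.eval (γ (u i))‖ := norm_sum_le _ _
    _ ≤ ∑ i ∈ Finset.range N, (M + ε) * ‖γ (u (i + 1)) - γ (u i)‖ :=
        Finset.sum_le_sum fun i _ => hstep i
    _ = (M + ε) * ∑ i ∈ Finset.range N, ‖γ (u (i + 1)) - γ (u i)‖ := by rw [Finset.mul_sum]
    _ ≤ (M + ε) * L := by gcongr
    _ = M * L + ε * L := by ring
    _ ≤ M * L + e := by
        have : ε * L ≤ ε * (L + 1) := by nlinarith
        have e5 : ε * (L + 1) = e := by rw [hεd]; field_simp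
        linarith

end Pool.Agent.Q86.PlaneDiff
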