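import Pool.Agent.Q82.QD.Stm

/-! Project QD (helper82), job QD-CONC2 (helper86). -/

set_option autoImplicit false

open MeasureTheory Filter Topology Real InnerProductSpace Laplacian Set
open Pool.Agent.Q82.QC (E Om pp lg bd pot mol Ctl HolderConv S_MASS S_POT0 S_POT3 S_POTH S_POTL S_MOL
  S_MOLI)

namespace Pool.Agent.Q82.QD

lemma conc2_B_nonneg (F : ℝ → ℝ) (N : ℝ) (x : E) : 0 ≤ B F N x := by
  unfold B
  have h : (N ^ 5) ^ 4 = ((N ^ 5) ^ 2) ^ 2 := by ring
  rw [h]
  positivity

lemma conc2_split (h1 : S_BT) (h2 : S_MOLI) (F : ℝ → ℝ) (hF : Prof F) (N e : ℕ → ℝ)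
    (h f : ℕ → E → ℝ) (hN : ∀ k, 0 < N k) (he : ∀ k, 0 < e k)
    (hh : ∀ k, Continuous (h k) ∧ HasCompactSupport (h k))
    (hf : ∀ k, ∀ x ∈ Metric.ball (0 : E) (3 / 2), f k x = B F (N k) x + mol (e k) (h k) x)
    (x : E) (r : ℝ) (hsub : Metric.ball x r ⊆ Metric.ball (0 : E) (3 / 2)) (k : ℕ) :
    ∫ y in Metric.ball x r, f k y =
      (∫ y in Metric.ball x r, B F (N k) y) + ∫ y in Metric.ball x r, mol (e k) (h k) y := by
  rw [setIntegral_congr_fun measurableSet_ball (fun y hy => hf k y (hsub hy))]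
  exact integral_add (((h1 F hF).1 (N k) (hN k)).1.integrableOn)
    (h2 (e k) (h k) (he k) (hh k).1 (hh k).2).2.1.integrableOn

lemma conc2_mol (h2 : S_MOLI) (e : ℕ → ℝ) (h : ℕ → E → ℝ) (he : ∀ k, 0 < e k)
    (hh : ∀ k, Continuous (h k) ∧ HasCompactSupport (h k))
    (hh0 : Tendsto (fun k => ∫ x, |h k x|) atTop (𝓝 0)) (x : E) (r : ℝ) :
    Tendsto (fun k => ∫ y in Metric.ball x r, mol (e k) (h k) y) atTop (𝓝 0) := by
  apply squeeze_zero_norm _ hh0
  intro k
  obtain ⟨-, hi, hle⟩ := h2 (e k) (h k) (he k) (hh k).1 (hh k).2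
  calc ‖∫ y in Metric.ball x r, mol (e k) (h k) y‖
      ≤ ∫ y in Metric.ball x r, ‖mol (e k) (h k) y‖ := norm_integral_le_integral_norm _
    _ ≤ ∫ y, ‖mol (e k) (h k) y‖ :=
        setIntegral_le_integral hi.norm (Eventually.of_forall fun y => norm_nonneg _)
    _ ≤ ∫ y, |h k y| := hle

theorem conc2 (h1 : S_BT) (h2 : S_MOLI) : S_CONC2 := by
  intro F hF N e h f hN hNt he hh hh0 hf
  obtain ⟨hB, hT⟩ := h1 F hF
  refine ⟨?_, ?_⟩
  · intro r hr hr2
    have hx0 : ‖x0‖ = 1 := by simp [x0]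
    have hsub : Metric.ball x0 r ⊆ Metric.ball (0 : E) (3 / 2) := by
      apply Metric.ball_subset_ball'
      rw [dist_zero_right, hx0]
      linarith
    simp_rw [conc2_split h1 h2 F hF N e h f hN he hh hf x0 r hsub]
    have hm := conc2_mol h2 e h he hh hh0 x0 r
    have hb : Tendsto (fun k => ∫ y in Metric.ball x0 r, B F (N k) y) atTop (𝓝 (mm F)) := by
      have h3 : ∀ k, ∫ y in Metric.ball x0 r, B F (N k) y =
          mm F - ∫ y in (Metric.ball x0 r)ᶜ, B F (N k) y := by
        intro k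
        have h4 := integral_add_compl (μ := volume) (measurableSet_ball (x := x0) (ε := r))
          (hB (N k) (hN k)).1
        rw [(hB (N k) (hN k)).2] at h4
        linarith
      simp_rw [h3]
      simpa using (tendsto_const_nhds (x := mm F)).sub ((hT r hr).comp hNt)
    simpa using hb.add hm
  · intro x hx hxne
    have hd : 0 < dist x x0 := dist_pos.mpr hxne
    have hx' : ‖x‖ < 3 / 2 := by simpa using hx
    refine ⟨min (3 / 2 - ‖x‖) (dist x x0 / 2), lt_min (by linarith) (by linarith), ?_⟩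
    intro r hr hr0
    have hr1 : r < 3 / 2 - ‖x‖ := lt_of_lt_of_le hr0 (min_le_left _ _)
    have hr2 : r < dist x x0 / 2 := lt_of_lt_of_le hr0 (min_le_right _ _)
    have hsub : Metric.ball x r ⊆ Metric.ball (0 : E) (3 / 2) := by
      apply Metric.ball_subset_ball'
      rw [dist_zero_right]
      linarith
    simp_rw [conc2_split h1 h2 F hF N e h f hN he hh hf x r hsub]
    have hm := conc2_mol h2 e h he hh hh0 x r
    have hb : Tendsto (fun k => ∫ y in Metric.ball x r, B F (N k) y) atTop (𝓝 0) := by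
      refine squeeze_zero (fun k => integral_nonneg fun y => conc2_B_nonneg _ _ _) ?_
        ((hT (dist x x0 / 2) (by linarith)).comp hNt)
      intro k
      apply setIntegral_mono_set
      · exact (hB (N k) (hN k)).1.integrableOn
      · exact Eventually.of_forall fun y => conc2_B_nonneg _ _ _
      · apply HasSubset.Subset.eventuallyLE
        intro y hy
        rw [Metric.mem_ball] at hy
        rw [Set.mem_compl_iff, Metric.mem_ball, not_lt]
        have h5 := dist_triangle x y x0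
        rw [dist_comm x y] at h5
        linarith
    simpa using hb.add hm

end Pool.Agent.Q82.QD
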