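import Mathlib

/-! Newtonian potential of a ball in R^3 (Newton's theorem), by slicing. -/

set_option autoImplicit false

open MeasureTheory Metric Set

noncomputable section

namespace Q86.Shell

abbrev E := EuclideanSpace ℝ (Fin 3)
abbrev E2 := EuclideanSpace ℝ (Fin 2)
abbrev W := WithLp 2 (ℝ × E2)

/-- the kernel is integrable on balls about the origin -/
lemma kint0 (r : ℝ) : IntegrableOn (fun u : E => ‖u‖⁻¹) (ball 0 r) := by
  have h := (integrableOn_fun_norm_addHaar (E := E) (μ := volume) (f := fun y : ℝ => y⁻¹)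
    (r := r)).2
  apply h
  have hc : IntegrableOn (fun y : ℝ => y) (Ioo 0 r) :=
    (continuous_id.integrableOn_Icc (a := 0) (b := r)).mono_set Ioo_subset_Icc_self
  refine hc.congr_fun ?_ measurableSet_Ioo
  intro y hy
  have : y ≠ 0 := hy.1.ne'
  simp only [finrank_euclideanSpace, Fintype.card_fin, smul_eq_mul]
  field_simp

lemma kint2 (r : ℝ) : IntegrableOn (fun u : E => (‖u‖^2)⁻¹) (ball 0 r) := by
  have h := (integrableOn_fun_norm_addHaar (E := E) (μ := volume) (f := fun y : ℝ => (y^2)⁻¹)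
    (r := r)).2
  apply h
  have hc : IntegrableOn (fun _ : ℝ => (1:ℝ)) (Ioo 0 r) :=
    (continuous_const.integrableOn_Icc (a := 0) (b := r)).mono_set Ioo_subset_Icc_self
  refine hc.congr_fun ?_ measurableSet_Ioo
  intro y hy
  have : y ≠ 0 := hy.1.ne'
  simp only [finrank_euclideanSpace, Fintype.card_fin, smul_eq_mul]
  field_simp

lemma shift_int (g : E → ℝ) (s : ℝ) (hg : IntegrableOn g (ball 0 s)) (z : E) :
    IntegrableOn (fun u => g (z - u)) (ball z s) := by
  have hmp : MeasurePreserving (fun u : E => z - u) volume volume := by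
    have := (measurePreserving_add_left (volume : Measure E) z).comp
      (Measure.measurePreserving_neg (volume : Measure E))
    simpa [Function.comp_def, sub_eq_add_neg] using this
  have hemb : MeasurableEmbedding (fun u : E => z - u) :=
    (MeasurableEquiv.subLeft z).measurableEmbedding
  have := (hmp.integrableOn_comp_preimage hemb (f := g) (s := ball 0 s)).2 hg
  have e : (fun u : E => z - u) ⁻¹' ball 0 s = ball z s := by
    ext u; simp [mem_ball, dist_eq_norm, norm_sub_rev]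
  rw [e] at this
  exact this

lemma kint (z : E) (A : Set E) (hA : Bornology.IsBounded A) :
    IntegrableOn (fun u : E => ‖z - u‖⁻¹) A := by
  obtain ⟨s, hs⟩ := hA.subset_ball z
  exact (shift_int (fun u => ‖u‖⁻¹) s (kint0 s) z).mono_set hs

lemma kint2' (z : E) (A : Set E) (hA : Bornology.IsBounded A) :
    IntegrableOn (fun u : E => (‖z - u‖^2)⁻¹) A := by
  obtain ⟨s, hs⟩ := hA.subset_ball z
  exact (shift_int (fun u => (‖u‖^2)⁻¹) s (kint2 s) z).mono_set hs

/-- rotate `z` to the first axis -/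
lemma exists_iso (z : E) : ∃ Φ : E ≃ₗᵢ[ℝ] W, Φ z = WithLp.toLp 2 (‖z‖, (0 : E2)) := by
  have hfr : Module.finrank ℝ E = Module.finrank ℝ W := by
    have h1 : Module.finrank ℝ W = Module.finrank ℝ (ℝ × E2) :=
      (WithLp.linearEquiv 2 ℝ (ℝ × E2)).finrank_eq
    rw [h1]
    simp
  let Ψ : E ≃ₗᵢ[ℝ] W :=
    (stdOrthonormalBasis ℝ E).equiv (stdOrthonormalBasis ℝ W) (finCongr hfr)
  have hn : ‖Ψ z‖ = ‖(WithLp.toLp 2 (‖z‖, (0 : E2)) : W)‖ := by
    rw [LinearIsometryEquiv.norm_map, WithLp.prod_norm_eq_of_L2]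
    simp
  refine ⟨Ψ.trans (Submodule.reflection (ℝ ∙ (Ψ z - WithLp.toLp 2 (‖z‖, (0 : E2))))ᗮ), ?_⟩
  simp only [LinearIsometryEquiv.trans_apply]
  exact Submodule.reflection_sub hn


/-- inner (planar) radial integral -/
lemma inner_int (τ s : ℝ) (hτ : τ ≠ 0) (hs : 0 ≤ s) :
    ∫ v : E2, (if ‖v‖^2 < s then (Real.sqrt (τ^2 + ‖v‖^2))⁻¹ else 0)
      = 2 * Real.pi * (Real.sqrt (τ^2 + s) - |τ|) := by
  have h := integral_fun_norm_addHaar (E := E2) (volume : Measure E2)
    (fun y : ℝ => if y^2 < s then (Real.sqrt (τ^2 + y^2))⁻¹ else 0)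
  rw [h]
  have hv : (volume : Measure E2).real (ball 0 1) = Real.pi := by
    rw [Measure.real, EuclideanSpace.volume_ball_fin_two]
    simp [Real.pi_pos.le]
  rw [hv]
  have h2 : ∫ y in Ioi (0:ℝ), y ^ (Module.finrank ℝ E2 - 1) •
      (if y^2 < s then (Real.sqrt (τ^2 + y^2))⁻¹ else 0)
      = ∫ y in (0:ℝ)..(Real.sqrt s), y * (Real.sqrt (τ^2 + y^2))⁻¹ := by
    rw [intervalIntegral.integral_of_le (Real.sqrt_nonneg s)]
    rw [← integral_indicator measurableSet_Ioi, ← integral_indicator measurableSet_Ioc]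
    apply integral_congr_ae
    have hne : ∀ᵐ y : ℝ, y ≠ Real.sqrt s := by
      simp [ae_iff]
    filter_upwards [hne] with y hy
    simp only [indicator, mem_Ioi, mem_Ioc, finrank_euclideanSpace, Fintype.card_fin, smul_eq_mul]
    by_cases h0 : 0 < y
    · have key : y^2 < s ↔ y ≤ Real.sqrt s := by
        constructor
        · intro h; exact Real.le_sqrt_of_sq_le h.le
        · intro h
          have h' : y < Real.sqrt s := lt_of_le_of_ne h hy
          exact (Real.lt_sqrt h0.le).1 h'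
      by_cases h1 : y^2 < s
      · simp [h0, h1, key.1 h1]
      · have : ¬ y ≤ Real.sqrt s := fun h => h1 (key.2 h)
        simp [h0, h1, this]
    · simp [h0]
  rw [h2]
  have h3 : ∫ y in (0:ℝ)..(Real.sqrt s), y * (Real.sqrt (τ^2 + y^2))⁻¹
      = Real.sqrt (τ^2 + s) - |τ| := by
    have hpos : ∀ y : ℝ, 0 < τ^2 + y^2 := fun y => by positivity
    have hd : ∀ y ∈ uIcc (0:ℝ) (Real.sqrt s), HasDerivAt (fun y => Real.sqrt (τ^2 + y^2))
        (y * (Real.sqrt (τ^2 + y^2))⁻¹) y := by
      intro y _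
      have h1 : HasDerivAt (fun y : ℝ => τ^2 + y^2) (2*y) y := by
        have := (hasDerivAt_pow 2 y).const_add (τ^2)
        simpa using this
      have h2 := h1.sqrt (hpos y).ne'
      convert h2 using 1
      have : Real.sqrt (τ^2 + y^2) ≠ 0 := (Real.sqrt_pos.2 (hpos y)).ne'
      field_simp
    have hi : IntervalIntegrable (fun y : ℝ => y * (Real.sqrt (τ^2 + y^2))⁻¹) volume 0
        (Real.sqrt s) := by
      apply Continuous.intervalIntegrable
      have : Continuous fun y : ℝ => (Real.sqrt (τ^2 + y^2))⁻¹ := by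
        apply Continuous.inv₀
        · fun_prop
        · intro y; exact (Real.sqrt_pos.2 (hpos y)).ne'
      exact continuous_id.mul this
    rw [intervalIntegral.integral_eq_sub_of_hasDerivAt hd hi]
    rw [Real.sq_sqrt hs]
    simp [Real.sqrt_sq_eq_abs]
  rw [h3]
  simp only [finrank_euclideanSpace, Fintype.card_fin, smul_eq_mul, nsmul_eq_mul]
  push_cast
  ring


lemma W_norm (t : ℝ) (v : E2) : ‖(WithLp.toLp 2 (t, v) : W)‖ = Real.sqrt (t^2 + ‖v‖^2) := by
  rw [WithLp.prod_norm_eq_of_L2]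
  simp

lemma slice (z : E) (r : ℝ) (hr : 0 < r) :
    ∫ u in ball (0:E) r, ‖z - u‖⁻¹
      = ∫ t in (-r)..r, 2 * Real.pi * (Real.sqrt (‖z‖^2 + r^2 - 2*‖z‖*t) - |‖z‖ - t|) := by
  obtain ⟨Φ, hΦ⟩ := exists_iso z
  set d := ‖z‖ with hd
  -- to W
  have h1 : ∫ u in ball (0:E) r, ‖z - u‖⁻¹
      = ∫ w : W, (if ‖w‖ < r then ‖Φ z - w‖⁻¹ else 0) := by
    rw [← integral_indicator measurableSet_ball]
    have := (Φ.measurePreserving).integral_comp Φ.toHomeomorph.measurableEmbedding
      (fun w : W => (if ‖w‖ < r then ‖Φ z - w‖⁻¹ else 0))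
    rw [← this]
    congr 1
    ext u
    simp only [indicator, mem_ball_zero_iff, LinearIsometryEquiv.norm_map, ← map_sub]
  have hint1 : Integrable (fun w : W => (if ‖w‖ < r then ‖Φ z - w‖⁻¹ else 0)) := by
    have hk := kint z (ball 0 r) isBounded_ball
    rw [← integrable_indicator_iff measurableSet_ball] at hk
    have := (Φ.measurePreserving).integrable_comp_emb Φ.toHomeomorph.measurableEmbedding
      (g := fun w : W => (if ‖w‖ < r then ‖Φ z - w‖⁻¹ else 0))
    rw [← this]
    have e0 : (fun w : W => (if ‖w‖ < r then ‖Φ z - w‖⁻¹ else 0)) ∘ Φ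
        = (ball (0:E) r).indicator (fun u => ‖z - u‖⁻¹) := by
      ext u
      simp only [indicator, mem_ball_zero_iff, LinearIsometryEquiv.norm_map, ← map_sub,
        Function.comp]
    rw [e0]
    exact hk
  have hmp := WithLp.volume_preserving_toLp ℝ E2
  have hemb : MeasurableEmbedding (@WithLp.toLp 2 (ℝ × E2)) :=
    (MeasurableEquiv.toLp 2 (ℝ × E2)).measurableEmbedding
  have h2 := hmp.integral_comp hemb (fun w : W => (if ‖w‖ < r then ‖Φ z - w‖⁻¹ else 0))
  have hint2 := (hmp.integrable_comp_emb hemb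
    (g := fun w : W => (if ‖w‖ < r then ‖Φ z - w‖⁻¹ else 0))).2 hint1
  rw [h1, ← h2]
  have e1 : ∀ p : ℝ × E2, (if ‖(WithLp.toLp 2 p : W)‖ < r then
      ‖Φ z - WithLp.toLp 2 p‖⁻¹ else 0)
      = if ‖p.2‖^2 < r^2 - p.1^2 then (Real.sqrt ((d - p.1)^2 + ‖p.2‖^2))⁻¹ else 0 := by
    rintro ⟨t, v⟩
    rw [hΦ]
    have e2 : (WithLp.toLp 2 (d, (0:E2)) : W) - WithLp.toLp 2 (t, v)
        = WithLp.toLp 2 (d - t, - v) := by
      rw [← WithLp.toLp_sub]; simp
    rw [e2, W_norm, W_norm]
    have e3 : Real.sqrt (t^2 + ‖v‖^2) < r ↔ ‖v‖^2 < r^2 - t^2 := by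
      rw [Real.sqrt_lt' hr]
      constructor <;> intro h <;> linarith
    simp only [norm_neg]
    by_cases h : ‖v‖^2 < r^2 - t^2
    · rw [if_pos (e3.2 h), if_pos h]
    · rw [if_neg (fun h' => h (e3.1 h')), if_neg h]
  simp only [Function.comp_def] at hint2
  simp only [e1] at hint2 ⊢
  rw [Measure.volume_eq_prod] at hint2 ⊢
  rw [integral_prod _ hint2]
  rw [intervalIntegral.integral_of_le (by linarith : -r ≤ r)]
  rw [← integral_indicator measurableSet_Ioc]
  apply integral_congr_ae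
  have hne1 : ∀ᵐ t : ℝ, t ≠ d := by simp [ae_iff]
  filter_upwards [hne1] with t ht
  simp only [indicator, mem_Ioc]
  by_cases htr : t^2 ≤ r^2
  · have habs := abs_le_of_sq_le_sq' htr hr.le
    have hin := inner_int (d - t) (r^2 - t^2) (sub_ne_zero.2 (Ne.symm ht)) (by linarith)
    rw [hin]
    by_cases h0 : -r < t
    · rw [if_pos ⟨h0, habs.2⟩]
      congr 3
      ring
    · have : t = -r := le_antisymm (not_lt.1 h0) habs.1
      subst this
      simp
      rw [Real.sqrt_sq_eq_abs]
      simp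
  · have hno : ¬ (-r < t ∧ t ≤ r) := by
      rintro ⟨h1, h2⟩
      apply htr
      nlinarith
    rw [if_neg hno]
    have : ∀ v : E2, (if ‖v‖^2 < r^2 - t^2 then (Real.sqrt ((d - t)^2 + ‖v‖^2))⁻¹ else 0) = 0 := by
      intro v
      rw [if_neg]
      push Not at htr ⊢
      nlinarith [sq_nonneg ‖v‖]
    simp [this]


lemma int_abs (d r : ℝ) (hr : 0 < r) (hd : 0 ≤ d) :
    ∫ t in (-r)..r, |d - t| = if d ≤ r then d^2 + r^2 else 2*r*d := by
  have h1 : ∫ t in (-r)..r, |d - t| = ∫ x in (d - r)..(d + r), |x| := by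
    rw [intervalIntegral.integral_comp_sub_left (fun x => |x|) d]
    simp
  rw [h1]
  have hint : ∀ a b : ℝ, IntervalIntegrable (fun x : ℝ => |x|) volume a b :=
    fun a b => continuous_abs.intervalIntegrable a b
  split_ifs with h
  · rw [← intervalIntegral.integral_add_adjacent_intervals (hint (d - r) 0) (hint 0 (d+r))]
    have e1 : ∫ x in (d - r)..0, |x| = ∫ x in (d - r)..0, -x := by
      apply intervalIntegral.integral_congr
      intro x hx
      rw [uIcc_of_le (by linarith)] at hx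
      exact abs_of_nonpos hx.2
    have e2 : ∫ x in (0:ℝ)..(d + r), |x| = ∫ x in (0:ℝ)..(d + r), x := by
      apply intervalIntegral.integral_congr
      intro x hx
      rw [uIcc_of_le (by linarith)] at hx
      exact abs_of_nonneg hx.1
    rw [e1, e2, intervalIntegral.integral_neg, integral_id, integral_id]
    ring
  · push Not at h
    have e2 : ∫ x in (d - r)..(d + r), |x| = ∫ x in (d - r)..(d + r), x := by
      apply intervalIntegral.integral_congr
      intro x hx
      rw [uIcc_of_le (by linarith)] at hx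
      exact abs_of_nonneg (by linarith [hx.1])
    rw [e2, integral_id]
    ring

lemma int_sqrt (d r : ℝ) (hr : 0 < r) (hd : 0 < d) :
    ∫ t in (-r)..r, Real.sqrt (d^2 + r^2 - 2*d*t) = ((d + r)^3 - |d - r|^3) / (3*d) := by
  have hder : ∀ t ∈ uIcc (-r) r, HasDerivAt
      (fun t : ℝ => -((d^2 + r^2 - 2*d*t) ^ (3/2 : ℝ)) / (3*d))
      (Real.sqrt (d^2 + r^2 - 2*d*t)) t := by
    intro t _
    have h1 : HasDerivAt (fun t : ℝ => d^2 + r^2 - 2*d*t) (-(2*d)) t := by
      have := ((hasDerivAt_id t).const_mul (2*d)).const_sub (d^2 + r^2)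
      simpa using this
    have h2 := h1.rpow_const (p := (3/2 : ℝ)) (Or.inr (by norm_num))
    have h3 := (h2.neg).div_const (3*d)
    refine h3.congr_deriv ?_
    rw [Real.sqrt_eq_rpow]
    have : (3/2 : ℝ) - 1 = 1/2 := by norm_num
    rw [this]
    field_simp
  have hi : IntervalIntegrable (fun t : ℝ => Real.sqrt (d^2 + r^2 - 2*d*t)) volume (-r) r := by
    apply Continuous.intervalIntegrable
    fun_prop
  rw [intervalIntegral.integral_eq_sub_of_hasDerivAt hder hi]
  have p1 : (d^2 + r^2 - 2*d*r) ^ (3/2 : ℝ) = |d - r|^3 := by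
    have : d^2 + r^2 - 2*d*r = |d - r|^2 := by rw [sq_abs]; ring
    rw [this, ← Real.rpow_natCast, ← Real.rpow_natCast, ← Real.rpow_mul (abs_nonneg _)]
    norm_num
  have p2 : (d^2 + r^2 - 2*d*(-r)) ^ (3/2 : ℝ) = (d + r)^3 := by
    have : d^2 + r^2 - 2*d*(-r) = (d + r)^2 := by ring
    rw [this, ← Real.rpow_natCast, ← Real.rpow_natCast, ← Real.rpow_mul (by positivity)]
    norm_num
  rw [p1, p2]
  ring

/-- Newton's theorem for a ball. -/
theorem newton (z : E) (r : ℝ) (hr : 0 < r) :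
    ∫ u in ball (0:E) r, ‖z - u‖⁻¹
      = if ‖z‖ ≤ r then 2*Real.pi*r^2 - 2*Real.pi/3 * ‖z‖^2 else 4*Real.pi/3 * r^3 * ‖z‖⁻¹ := by
  rw [slice z r hr]
  set d := ‖z‖ with hd
  have hd0 : 0 ≤ d := norm_nonneg z
  have i1 : IntervalIntegrable (fun t : ℝ => Real.sqrt (d^2 + r^2 - 2*d*t)) volume (-r) r := by
    apply Continuous.intervalIntegrable
    fun_prop
  have i2 : IntervalIntegrable (fun t : ℝ => |d - t|) volume (-r) r := by
    apply Continuous.intervalIntegrable
    fun_prop
  rw [intervalIntegral.integral_const_mul, intervalIntegral.integral_sub i1 i2,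
    int_abs d r hr hd0]
  rcases eq_or_lt_of_le hd0 with h0 | h0
  · rw [← h0]
    have : ∫ t in (-r)..r, Real.sqrt (0^2 + r^2 - 2*0*t) = 2*r*r := by
      have : ∀ t : ℝ, Real.sqrt (0^2 + r^2 - 2*0*t) = r := by
        intro t
        have : (0:ℝ)^2 + r^2 - 2*0*t = r^2 := by ring
        rw [this, Real.sqrt_sq hr.le]
      simp only [this]
      rw [intervalIntegral.integral_const, smul_eq_mul]
      ring
    rw [this, if_pos hr.le, if_pos hr.le]
    ring
  · rw [int_sqrt d r hr h0]
    split_ifs with h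
    · rw [abs_of_nonpos (by linarith : d - r ≤ 0)]
      field_simp
      ring
    · push Not at h
      rw [abs_of_pos (by linarith : 0 < d - r)]
      field_simp
      ring

end Q86.Shell
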