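import Pool.Agent.Q86.ShellA

/-! Newtonian potentials of bounded densities; the mean value formula over balls. -/

set_option autoImplicit false

open MeasureTheory Metric Set

noncomputable section

namespace Q86.Shell

def vol (r : ℝ) : ℝ := 4*Real.pi/3 * r^3

lemma vol_pos {r : ℝ} (hr : 0 < r) : 0 < vol r := by
  unfold vol; positivity

lemma vol_eq (x : E) {r : ℝ} (hr : 0 < r) : (volume : Measure E).real (ball x r) = vol r := by
  rw [Measure.real, EuclideanSpace.volume_ball_fin_three]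
  simp only [ENNReal.toReal_mul, ENNReal.toReal_pow]
  rw [ENNReal.toReal_ofReal hr.le, ENNReal.toReal_ofReal (by positivity)]
  unfold vol; ring

def P (r : ℝ) (z : E) : ℝ := ∫ u in ball (0:E) r, ‖z - u‖⁻¹

def K (r : ℝ) (z : E) : ℝ := ‖z‖⁻¹ - P r z / vol r

lemma P_in {r : ℝ} (hr : 0 < r) {z : E} (hz : ‖z‖ ≤ r) :
    P r z = 2*Real.pi*r^2 - 2*Real.pi/3 * ‖z‖^2 := by
  unfold P; rw [newton z r hr, if_pos hz]

lemma P_out {r : ℝ} (hr : 0 < r) {z : E} (hz : r ≤ ‖z‖) :
    P r z = vol r * ‖z‖⁻¹ := by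
  unfold P vol; rw [newton z r hr]
  split_ifs with h
  · have : ‖z‖ = r := le_antisymm h hz
    rw [this]
    field_simp
    ring
  · rfl

lemma P_nonneg {r : ℝ} (z : E) : 0 ≤ P r z :=
  integral_nonneg fun _ => inv_nonneg.2 (norm_nonneg _)

lemma P_le {r : ℝ} (hr : 0 < r) (z : E) : P r z ≤ 2*Real.pi*r^2 := by
  have hpi := Real.pi_pos
  rcases le_total ‖z‖ r with h | h
  · rw [P_in hr h]; nlinarith [sq_nonneg ‖z‖, mul_nonneg hpi.le (sq_nonneg ‖z‖)]
  · rw [P_out hr h]
    have h0 : 0 < ‖z‖ := lt_of_lt_of_le hr h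
    have h1 : ‖z‖⁻¹ ≤ r⁻¹ := inv_anti₀ hr h
    calc vol r * ‖z‖⁻¹ ≤ vol r * r⁻¹ := mul_le_mul_of_nonneg_left h1 (vol_pos hr).le
      _ = 4*Real.pi/3 * r^2 := by unfold vol; field_simp
      _ ≤ 2*Real.pi*r^2 := by nlinarith [mul_nonneg hpi.le (sq_nonneg r)]

lemma K_zero {r : ℝ} (hr : 0 < r) {z : E} (hz : r ≤ ‖z‖) : K r z = 0 := by
  unfold K; rw [P_out hr hz]
  have := (vol_pos hr).ne'
  field_simp
  simp

lemma K_in {r : ℝ} (hr : 0 < r) {z : E} (hz : ‖z‖ ≤ r) (h0 : z ≠ 0) :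
    K r z = (r - ‖z‖)^2 * (2*r + ‖z‖) / (2*r^3*‖z‖) := by
  unfold K vol; rw [P_in hr hz]
  have hpi := Real.pi_pos
  have : 0 < ‖z‖ := norm_pos_iff.2 h0
  field_simp
  ring

lemma K_nonneg {r : ℝ} (hr : 0 < r) {z : E} (h0 : z ≠ 0) : 0 ≤ K r z := by
  rcases le_total ‖z‖ r with h | h
  · rw [K_in hr h h0]
    positivity
  · rw [K_zero hr h]

lemma K_lower {r : ℝ} (hr : 0 < r) {z : E} (h0 : z ≠ 0) (hz : ‖z‖ ≤ r/2) :
    1/(2*r) ≤ K r z := by
  have hz0 : 0 < ‖z‖ := norm_pos_iff.2 h0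
  rw [K_in hr (by linarith) h0, div_le_div_iff₀ (by positivity) (by positivity)]
  have h1 : (r/2)^2 ≤ (r - ‖z‖)^2 := by
    apply pow_le_pow_left₀ (by linarith); linarith
  have h2 : 2*r ≤ 2*r + ‖z‖ := by linarith
  have h3 : (r/2)^2 * (2*r) ≤ (r - ‖z‖)^2 * (2*r + ‖z‖) :=
    mul_le_mul h1 h2 (by positivity) (by positivity)
  nlinarith [mul_le_mul_of_nonneg_right h3 (by positivity : (0:ℝ) ≤ 2*r),
    mul_le_mul_of_nonneg_left hz (by positivity : (0:ℝ) ≤ 2*r^3)]

lemma K_le {r : ℝ} (hr : 0 < r) (z : E) : K r z ≤ ‖z‖⁻¹ := by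
  unfold K
  have := div_nonneg (P_nonneg (r := r) z) (vol_pos hr).le
  linarith

/-- admissible densities -/
structure Adm (ρ : E → ℝ) (R : ℝ) : Prop where
  meas : Measurable ρ
  nonneg : ∀ y, 0 ≤ ρ y
  le_one : ∀ y, ρ y ≤ 1
  supp : ∀ y, R < ‖y‖ → ρ y = 0

def V (ρ : E → ℝ) (x : E) : ℝ := ∫ y, ρ y * ‖x - y‖⁻¹

lemma ker_meas (x : E) : Measurable (fun y : E => ‖x - y‖⁻¹) := by fun_prop

lemma Adm.le_ind {ρ : E → ℝ} {R : ℝ} (h : Adm ρ R) (y : E) :
    ρ y ≤ (closedBall (0:E) R).indicator (fun _ => (1:ℝ)) y := by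
  by_cases hy : y ∈ closedBall (0:E) R
  · rw [indicator_of_mem hy]; exact h.le_one y
  · rw [indicator_of_notMem hy, h.supp y (by simpa using hy)]

lemma Adm.integrable_mul {ρ : E → ℝ} {R : ℝ} (h : Adm ρ R) {g : E → ℝ} (hm : Measurable g)
    (hg : IntegrableOn g (closedBall 0 R)) : Integrable (fun y => ρ y * g y) := by
  have h1 : Integrable ((closedBall (0:E) R).indicator g) :=
    (integrable_indicator_iff measurableSet_closedBall).2 hg
  refine h1.mono (h.meas.mul hm).aestronglyMeasurable (Filter.Eventually.of_forall fun y => ?_)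
  rw [Real.norm_eq_abs, Real.norm_eq_abs, abs_mul, abs_of_nonneg (h.nonneg y)]
  by_cases hy : y ∈ closedBall (0:E) R
  · rw [indicator_of_mem hy]
    exact mul_le_of_le_one_left (abs_nonneg _) (h.le_one y)
  · rw [h.supp y (by simpa using hy)]; simp

lemma Adm.integrable_ker {ρ : E → ℝ} {R : ℝ} (h : Adm ρ R) (x : E) :
    Integrable (fun y => ρ y * ‖x - y‖⁻¹) :=
  h.integrable_mul (ker_meas x) (kint x _ isBounded_closedBall)

lemma Adm.integrable_P {ρ : E → ℝ} {R : ℝ} (h : Adm ρ R) {r : ℝ} (hr : 0 < r) (x : E)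
    (hm : Measurable (P r)) : Integrable (fun y => ρ y * P r (x - y)) := by
  apply h.integrable_mul (hm.comp (measurable_const.sub measurable_id))
  refine Measure.integrableOn_of_bounded (M := 2*Real.pi*r^2)
    (measure_closedBall_lt_top.ne) (hm.comp (measurable_const.sub measurable_id)).aestronglyMeasurable ?_
  refine Filter.Eventually.of_forall fun y => ?_
  show ‖P r (x - y)‖ ≤ _
  rw [Real.norm_eq_abs, abs_of_nonneg (P_nonneg _)]
  exact P_le hr _

lemma P_meas {r : ℝ} (hr : 0 < r) : Measurable (P r) := by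
  have : P r = fun z : E => if ‖z‖ ≤ r then 2*Real.pi*r^2 - 2*Real.pi/3 * ‖z‖^2
      else 4*Real.pi/3 * r^3 * ‖z‖⁻¹ := by
    ext z; exact newton z r hr
  rw [this]
  apply Measurable.ite
  · exact measurableSet_le measurable_norm measurable_const
  · fun_prop
  · fun_prop

lemma K_meas {r : ℝ} (hr : 0 < r) : Measurable (K r) := by
  unfold K
  exact (measurable_norm.inv).sub ((P_meas hr).div_const _)

lemma Adm.integrable_K {ρ : E → ℝ} {R : ℝ} (h : Adm ρ R) {r : ℝ} (hr : 0 < r) (x : E) :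
    Integrable (fun y => ρ y * K r (x - y)) := by
  have h1 := h.integrable_ker x
  have h2 := (h.integrable_P hr x (P_meas hr)).div_const (vol r)
  have := h1.sub h2
  refine this.congr (Filter.Eventually.of_forall fun y => ?_)
  simp only [K, Pi.sub_apply]
  ring

lemma V_nonneg {ρ : E → ℝ} {R : ℝ} (h : Adm ρ R) (x : E) : 0 ≤ V ρ x :=
  integral_nonneg fun y => mul_nonneg (h.nonneg y) (inv_nonneg.2 (norm_nonneg _))

lemma ball_ae (x : E) (R : ℝ) : (ball x R : Set E) =ᵐ[volume] closedBall x R :=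
  ae_eq_of_subset_of_measure_ge ball_subset_closedBall
    (le_of_eq (Measure.addHaar_closedBall_eq_addHaar_ball volume x R))
    measurableSet_ball.nullMeasurableSet measure_closedBall_lt_top.ne

lemma V_le_P {ρ : E → ℝ} {R : ℝ} (h : Adm ρ R) (x : E) : V ρ x ≤ P R x := by
  have h1 : P R x = ∫ y, (closedBall (0:E) R).indicator (fun y => ‖x - y‖⁻¹) y := by
    rw [integral_indicator measurableSet_closedBall]
    unfold P
    exact setIntegral_congr_set (ball_ae 0 R)
  rw [h1]
  unfold V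
  apply integral_mono (h.integrable_ker x)
  · exact (integrable_indicator_iff measurableSet_closedBall).2 (kint x _ isBounded_closedBall)
  · intro y
    simp only
    by_cases hy : y ∈ closedBall (0:E) R
    · rw [indicator_of_mem hy]
      exact mul_le_of_le_one_left (inv_nonneg.2 (norm_nonneg _)) (h.le_one y)
    · rw [h.supp y (by simpa using hy), indicator_of_notMem hy]; simp


def avg (f : E → ℝ) (x : E) (r : ℝ) : ℝ := (∫ u in ball x r, f u) / vol r

lemma int_shift (g : E → ℝ) (x : E) (r : ℝ) :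
    ∫ u in ball x r, g u = ∫ v in ball (0:E) r, g (x - v) := by
  rw [← integral_indicator measurableSet_ball, ← integral_indicator measurableSet_ball]
  rw [← integral_sub_left_eq_self _ volume x]
  congr 1
  ext v
  have : x - v ∈ ball x r ↔ v ∈ ball (0:E) r := by
    simp [mem_ball, dist_eq_norm]
  by_cases h : v ∈ ball (0:E) r
  · rw [indicator_of_mem h, indicator_of_mem (this.2 h)]
  · rw [indicator_of_notMem h, indicator_of_notMem (fun h' => h (this.1 h'))]

lemma int_ker (x y : E) (r : ℝ) : ∫ u in ball x r, ‖u - y‖⁻¹ = P r (x - y) := by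
  rw [int_shift]
  unfold P
  congr 1
  ext v
  congr 2
  abel

/-- integral of a potential over a ball -/
lemma int_V {ρ : E → ℝ} {R : ℝ} (h : Adm ρ R) (hR : 0 < R) (x : E) {r : ℝ} :
    ∫ u in ball x r, V ρ u = ∫ y, ρ y * P r (x - y) := by
  have hmeas : AEStronglyMeasurable (fun p : E × E => ρ p.2 * ‖p.1 - p.2‖⁻¹)
      ((volume.restrict (ball x r)).prod volume) := by
    have : Measurable (fun p : E × E => ρ p.2 * ‖p.1 - p.2‖⁻¹) :=
      (h.meas.comp measurable_snd).mul (by fun_prop)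
    exact this.aestronglyMeasurable
  have hint : Integrable (fun p : E × E => ρ p.2 * ‖p.1 - p.2‖⁻¹)
      ((volume.restrict (ball x r)).prod volume) := by
    rw [integrable_prod_iff hmeas]
    refine ⟨Filter.Eventually.of_forall fun u => h.integrable_ker u, ?_⟩
    have hm2 : AEStronglyMeasurable (fun u : E => ∫ y, ‖ρ y * ‖u - y‖⁻¹‖)
        (volume.restrict (ball x r)) := hmeas.norm.integral_prod_right'
    refine Measure.integrableOn_of_bounded (M := 2*Real.pi*R^2) (measure_ball_lt_top.ne) ?_ ?_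
    · have : Measurable (fun p : E × E => ρ p.2 * ‖p.1 - p.2‖⁻¹) :=
        (h.meas.comp measurable_snd).mul (by fun_prop)
      exact (this.norm.stronglyMeasurable.integral_prod_right').aestronglyMeasurable
    · refine Filter.Eventually.of_forall fun u => ?_
      have e : (∫ y, ‖ρ y * ‖u - y‖⁻¹‖) = V ρ u := by
        unfold V
        congr 1
        ext y
        rw [Real.norm_eq_abs, abs_of_nonneg (mul_nonneg (h.nonneg y) (inv_nonneg.2 (norm_nonneg _)))]
      rw [e, Real.norm_eq_abs, abs_of_nonneg (V_nonneg h u)]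
      exact (V_le_P h u).trans (P_le hR u)
  have hsw := integral_integral_swap (f := fun (u : E) (y : E) => ρ y * ‖u - y‖⁻¹) hint
  unfold V
  rw [hsw]
  congr 1
  ext y
  rw [integral_const_mul, int_ker]

lemma avg_V {ρ : E → ℝ} {R : ℝ} (h : Adm ρ R) (hR : 0 < R) (x : E) {r : ℝ} (hr : 0 < r) :
    avg (V ρ) x r = V ρ x - ∫ y, ρ y * K r (x - y) := by
  unfold avg
  rw [int_V h hR x]
  have h1 := h.integrable_ker x
  have h2 := h.integrable_K hr x
  unfold V
  rw [← integral_sub h1 h2, ← integral_div]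
  congr 1
  ext y
  simp only [K]
  ring

/-- potentials are superharmonic -/
lemma avg_V_le {ρ : E → ℝ} {R : ℝ} (h : Adm ρ R) (hR : 0 < R) (x : E) {r : ℝ} (hr : 0 < r) :
    avg (V ρ) x r ≤ V ρ x := by
  rw [avg_V h hR x hr]
  have : 0 ≤ ∫ y, ρ y * K r (x - y) := by
    apply integral_nonneg_of_ae
    have hne : ∀ᵐ y : E, y ≠ x := by simp [ae_iff]
    filter_upwards [hne] with y hy
    exact mul_nonneg (h.nonneg y) (K_nonneg hr (sub_ne_zero.2 (Ne.symm hy)))
  linarith

/-- potentials are harmonic off the support -/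
lemma avg_V_eq {ρ : E → ℝ} {R : ℝ} (h : Adm ρ R) (hR : 0 < R) (x : E) {r : ℝ} (hr : 0 < r)
    (h0 : ∀ᵐ y : E, y ∈ ball x r → ρ y = 0) :
    avg (V ρ) x r = V ρ x := by
  rw [avg_V h hR x hr]
  have : ∫ y, ρ y * K r (x - y) = 0 := by
    apply integral_eq_zero_of_ae
    filter_upwards [h0] with y hy
    by_cases hyb : y ∈ ball x r
    · simp [hy hyb]
    · have : r ≤ ‖x - y‖ := by
        rw [← dist_eq_norm, dist_comm]; simpa using hyb
      simp [K_zero hr this]
  linarith

end Q86.Shell
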