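import Pool.Agent.Q86.ShellB

/-! Continuity of potentials; averages of the polynomials involved; maximum principle. -/

set_option autoImplicit false

open MeasureTheory Metric Set

noncomputable section

namespace Q86.Shell

/-- uniform bound for the squared kernel -/
lemma ker2_bound (R : ℝ) (x : E) :
    ∫ y in closedBall (0:E) R, (‖x - y‖^2)⁻¹
      ≤ (∫ y in ball (0:E) 1, (‖y‖^2)⁻¹) + (volume : Measure E).real (closedBall 0 R) := by
  have h1 : ∫ y in ball (0:E) 1, (‖y‖^2)⁻¹ = ∫ y, (ball x 1).indicator (fun y => (‖x - y‖^2)⁻¹) y := by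
    rw [integral_indicator measurableSet_ball, int_shift _ x 1]
    simp only [sub_sub_cancel]
  have h2 : (volume : Measure E).real (closedBall 0 R)
      = ∫ y, (closedBall (0:E) R).indicator (fun _ => (1:ℝ)) y := by
    rw [integral_indicator measurableSet_closedBall]
    simp
  have i1 : Integrable ((ball x 1).indicator (fun y : E => (‖x - y‖^2)⁻¹)) :=
    (integrable_indicator_iff measurableSet_ball).2 (kint2' x _ isBounded_ball)
  have i2 : Integrable ((closedBall (0:E) R).indicator (fun _ => (1:ℝ))) :=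
    (integrable_indicator_iff measurableSet_closedBall).2
      (integrableOn_const (measure_closedBall_lt_top.ne))
  have i0 : Integrable ((closedBall (0:E) R).indicator (fun y : E => (‖x - y‖^2)⁻¹)) :=
    (integrable_indicator_iff measurableSet_closedBall).2 (kint2' x _ isBounded_closedBall)
  rw [h1, h2, ← integral_add i1 i2, ← integral_indicator measurableSet_closedBall]
  apply integral_mono i0 (i1.add i2)
  intro y
  simp only [Pi.add_apply]
  have hn : 0 ≤ (‖x - y‖^2)⁻¹ := by positivity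
  by_cases hy : y ∈ closedBall (0:E) R
  · rw [indicator_of_mem hy, indicator_of_mem hy]
    by_cases hb : y ∈ ball x 1
    · rw [indicator_of_mem hb]; linarith
    · rw [indicator_of_notMem hb]
      have h3 : 1 ≤ ‖x - y‖ := by
        rw [← dist_eq_norm, dist_comm]; simpa using hb
      have h4 : 1 ≤ ‖x - y‖^2 := one_le_pow₀ h3
      have := inv_le_one_of_one_le₀ h4
      linarith
  · rw [indicator_of_notMem hy, indicator_of_notMem hy]
    by_cases hb : y ∈ ball x 1
    · rw [indicator_of_mem hb]; linarith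
    · rw [indicator_of_notMem hb]; simp

lemma ker_diff (x x' y : E) (h1 : y ≠ x) (h2 : y ≠ x') :
    |‖x - y‖⁻¹ - ‖x' - y‖⁻¹| ≤ ‖x - x'‖ * ((‖x - y‖^2)⁻¹ + (‖x' - y‖^2)⁻¹) / 2 := by
  have a1 : 0 < ‖x - y‖ := norm_pos_iff.2 (sub_ne_zero.2 (Ne.symm h1))
  have a2 : 0 < ‖x' - y‖ := norm_pos_iff.2 (sub_ne_zero.2 (Ne.symm h2))
  set a := ‖x - y‖
  set b := ‖x' - y‖
  have hab : |b - a| ≤ ‖x - x'‖ := by
    have := abs_norm_sub_norm_le (x' - y) (x - y)
    have e : x' - y - (x - y) = x' - x := by abel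
    rw [e, norm_sub_rev x' x] at this
    exact this
  have e : a⁻¹ - b⁻¹ = (b - a) * (a⁻¹ * b⁻¹) := by field_simp
  rw [e, abs_mul, abs_of_pos (by positivity : 0 < a⁻¹ * b⁻¹)]
  have h3 : a⁻¹ * b⁻¹ ≤ ((a^2)⁻¹ + (b^2)⁻¹) / 2 := by
    have := sq_nonneg (a⁻¹ - b⁻¹)
    have e1 : (a^2)⁻¹ = (a⁻¹)^2 := by rw [inv_pow]
    have e2 : (b^2)⁻¹ = (b⁻¹)^2 := by rw [inv_pow]
    rw [e1, e2]; nlinarith
  calc |b - a| * (a⁻¹ * b⁻¹) ≤ ‖x - x'‖ * (((a^2)⁻¹ + (b^2)⁻¹) / 2) :=
        mul_le_mul hab h3 (by positivity) (norm_nonneg _)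
    _ = _ := by ring

lemma V_lip {ρ : E → ℝ} {R : ℝ} (h : Adm ρ R) :
    ∃ M : ℝ, 0 ≤ M ∧ ∀ x x' : E, |V ρ x - V ρ x'| ≤ M * ‖x - x'‖ := by
  refine ⟨(∫ y in ball (0:E) 1, (‖y‖^2)⁻¹) + (volume : Measure E).real (closedBall 0 R), ?_, ?_⟩
  · have : 0 ≤ ∫ y in ball (0:E) 1, (‖y‖^2)⁻¹ := integral_nonneg fun y => by positivity
    positivity
  intro x x'
  set M := (∫ y in ball (0:E) 1, (‖y‖^2)⁻¹) + (volume : Measure E).real (closedBall 0 R)
  have hm : ∀ z : E, Measurable (fun y : E => (‖z - y‖^2)⁻¹) := fun z => by fun_prop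
  have i1 : ∀ z : E, Integrable (fun y => ρ y * (‖z - y‖^2)⁻¹) := fun z =>
    h.integrable_mul (hm z) (kint2' z _ isBounded_closedBall)
  have b1 : ∀ z : E, ∫ y, ρ y * (‖z - y‖^2)⁻¹ ≤ M := by
    intro z
    refine le_trans ?_ (ker2_bound R z)
    rw [← integral_indicator measurableSet_closedBall]
    apply integral_mono (i1 z)
    · exact (integrable_indicator_iff measurableSet_closedBall).2 (kint2' z _ isBounded_closedBall)
    · intro y
      simp only
      by_cases hy : y ∈ closedBall (0:E) R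
      · rw [indicator_of_mem hy]
        exact mul_le_of_le_one_left (by positivity) (h.le_one y)
      · rw [h.supp y (by simpa using hy), indicator_of_notMem hy]; simp
  have e : V ρ x - V ρ x' = ∫ y, ρ y * (‖x - y‖⁻¹ - ‖x' - y‖⁻¹) := by
    unfold V
    rw [← integral_sub (h.integrable_ker x) (h.integrable_ker x')]
    congr 1; ext y; ring
  rw [e]
  calc |∫ y, ρ y * (‖x - y‖⁻¹ - ‖x' - y‖⁻¹)|
      ≤ ∫ y, |ρ y * (‖x - y‖⁻¹ - ‖x' - y‖⁻¹)| := abs_integral_le_integral_abs
    _ ≤ ∫ y, ‖x - x'‖ / 2 * (ρ y * (‖x - y‖^2)⁻¹ + ρ y * (‖x' - y‖^2)⁻¹) := by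
        apply integral_mono_ae
        · have := (h.integrable_ker x).sub (h.integrable_ker x')
          refine this.abs.congr (Filter.Eventually.of_forall fun y => ?_)
          simp only [Pi.sub_apply]
          congr 1; ring
        · exact (((i1 x).add (i1 x')).const_mul _)
        · have n1 : ∀ᵐ y : E, y ≠ x := by simp [ae_iff]
          have n2 : ∀ᵐ y : E, y ≠ x' := by simp [ae_iff]
          filter_upwards [n1, n2] with y h1 h2
          rw [abs_mul, abs_of_nonneg (h.nonneg y)]
          have := mul_le_mul_of_nonneg_left (ker_diff x x' y h1 h2) (h.nonneg y)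
          refine this.trans (le_of_eq ?_)
          ring
    _ = ‖x - x'‖ / 2 * ((∫ y, ρ y * (‖x - y‖^2)⁻¹) + ∫ y, ρ y * (‖x' - y‖^2)⁻¹) := by
        rw [integral_const_mul, integral_add (i1 x) (i1 x')]
    _ ≤ ‖x - x'‖ / 2 * (M + M) := by
        apply mul_le_mul_of_nonneg_left (add_le_add (b1 x) (b1 x')) (by positivity)
    _ = M * ‖x - x'‖ := by ring

lemma V_cont {ρ : E → ℝ} {R : ℝ} (h : Adm ρ R) : Continuous (V ρ) := by
  obtain ⟨M, hM, hl⟩ := V_lip h
  have : LipschitzWith ⟨M, hM⟩ (V ρ) := by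
    apply LipschitzWith.of_dist_le_mul
    intro x y
    rw [Real.dist_eq, dist_eq_norm]
    exact hl x y
  exact this.continuous

lemma cint {f : E → ℝ} (hf : Continuous f) (x : E) (r : ℝ) : IntegrableOn f (ball x r) :=
  (hf.continuousOn.integrableOn_compact (isCompact_closedBall x r)).mono_set
    ball_subset_closedBall

lemma avg_add {f g : E → ℝ} (hf : Continuous f) (hg : Continuous g) (x : E) (r : ℝ) :
    avg (fun u => f u + g u) x r = avg f x r + avg g x r := by
  unfold avg
  rw [integral_add (cint hf x r) (cint hg x r), add_div]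

lemma avg_sub {f g : E → ℝ} (hf : Continuous f) (hg : Continuous g) (x : E) (r : ℝ) :
    avg (fun u => f u - g u) x r = avg f x r - avg g x r := by
  unfold avg
  rw [integral_sub (cint hf x r) (cint hg x r), sub_div]

lemma avg_mul (c : ℝ) (f : E → ℝ) (x : E) (r : ℝ) :
    avg (fun u => c * f u) x r = c * avg f x r := by
  unfold avg
  rw [integral_const_mul, mul_div_assoc]

lemma avg_const (c : ℝ) (x : E) {r : ℝ} (hr : 0 < r) : avg (fun _ => c) x r = c := by
  unfold avg
  rw [setIntegral_const, vol_eq x hr, smul_eq_mul]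
  have := (vol_pos hr).ne'
  field_simp

lemma avg_congr {f g : E → ℝ} (x : E) (r : ℝ) (h : ∀ u ∈ ball x r, f u = g u) :
    avg f x r = avg g x r := by
  unfold avg
  rw [setIntegral_congr_fun measurableSet_ball h]

/-- coordinate flips -/
def flip (i : Fin 3) : E ≃ₗᵢ[ℝ] E :=
  LinearIsometryEquiv.piLpCongrRight 2
    (fun j => if j = i then LinearIsometryEquiv.neg ℝ else LinearIsometryEquiv.refl ℝ ℝ)

lemma flip_apply (i j : Fin 3) (v : E) : flip i v j = if j = i then - v j else v j := by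
  unfold flip
  simp only [LinearIsometryEquiv.piLpCongrRight_apply]
  split_ifs <;> simp

lemma int_flip (i : Fin 3) (F : E → ℝ) (r : ℝ) :
    ∫ v in ball (0:E) r, F (flip i v) = ∫ v in ball (0:E) r, F v := by
  rw [← integral_indicator measurableSet_ball, ← integral_indicator measurableSet_ball]
  have h := ((flip i).measurePreserving).integral_comp (flip i).toHomeomorph.measurableEmbedding
    ((ball (0:E) r).indicator F)
  rw [← h]
  congr 1
  ext v
  simp only [indicator, mem_ball_zero_iff, LinearIsometryEquiv.norm_map]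

lemma int_cubic (b0 b1 b2 : ℝ) {r : ℝ} (hr : 0 < r) :
    ∫ v in ball (0:E) r, (b0 - v 0) * (b1 - v 1) * (b2 - v 2) = vol r * (b0 * b1 * b2) := by
  have c0 : Continuous (fun v : E => v 0) := by fun_prop
  have c1 : Continuous (fun v : E => v 1) := by fun_prop
  have c2 : Continuous (fun v : E => v 2) := by fun_prop
  have s0 : ∫ v in ball (0:E) r, (b0 - v 0) * (b1 - v 1) * (b2 - v 2)
      = ∫ v in ball (0:E) r, b0 * (b1 - v 1) * (b2 - v 2) := by
    have h := int_flip 0 (fun v : E => (b0 - v 0) * (b1 - v 1) * (b2 - v 2)) r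
    simp only [flip_apply] at h
    simp only [if_true, if_false, Fin.isValue, one_ne_zero, Fin.reduceEq, sub_neg_eq_add] at h
    have i1 := cint (f := fun v : E => (b0 + v 0) * (b1 - v 1) * (b2 - v 2)) (by fun_prop) 0 r
    have i2 := cint (f := fun v : E => (b0 - v 0) * (b1 - v 1) * (b2 - v 2)) (by fun_prop) 0 r
    have h2 : (∫ v in ball (0:E) r, (b0 + v 0) * (b1 - v 1) * (b2 - v 2)) +
        ∫ v in ball (0:E) r, (b0 - v 0) * (b1 - v 1) * (b2 - v 2)
        = 2 * ∫ v in ball (0:E) r, b0 * (b1 - v 1) * (b2 - v 2) := by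
      rw [← integral_add i1 i2, ← integral_const_mul]
      congr 1; ext v; ring
    linarith
  have s1 : ∫ v in ball (0:E) r, b0 * (b1 - v 1) * (b2 - v 2)
      = ∫ v in ball (0:E) r, b0 * b1 * (b2 - v 2) := by
    have h := int_flip 1 (fun v : E => b0 * (b1 - v 1) * (b2 - v 2)) r
    simp only [flip_apply] at h
    simp only [if_true, if_false, Fin.isValue, Fin.reduceEq, sub_neg_eq_add] at h
    have i1 := cint (f := fun v : E => b0 * (b1 + v 1) * (b2 - v 2)) (by fun_prop) 0 r
    have i2 := cint (f := fun v : E => b0 * (b1 - v 1) * (b2 - v 2)) (by fun_prop) 0 r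
    have h2 : (∫ v in ball (0:E) r, b0 * (b1 + v 1) * (b2 - v 2)) +
        ∫ v in ball (0:E) r, b0 * (b1 - v 1) * (b2 - v 2)
        = 2 * ∫ v in ball (0:E) r, b0 * b1 * (b2 - v 2) := by
      rw [← integral_add i1 i2, ← integral_const_mul]
      congr 1; ext v; ring
    linarith
  have s2 : ∫ v in ball (0:E) r, b0 * b1 * (b2 - v 2)
      = ∫ v in ball (0:E) r, b0 * b1 * b2 := by
    have h := int_flip 2 (fun v : E => b0 * b1 * (b2 - v 2)) r
    simp only [flip_apply] at h
    simp only [if_true, sub_neg_eq_add] at h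
    have i1 := cint (f := fun v : E => b0 * b1 * (b2 + v 2)) (by fun_prop) 0 r
    have i2 := cint (f := fun v : E => b0 * b1 * (b2 - v 2)) (by fun_prop) 0 r
    have h2 : (∫ v in ball (0:E) r, b0 * b1 * (b2 + v 2)) +
        ∫ v in ball (0:E) r, b0 * b1 * (b2 - v 2)
        = 2 * ∫ v in ball (0:E) r, b0 * b1 * b2 := by
      rw [← integral_add i1 i2, ← integral_const_mul]
      congr 1; ext v; ring
    linarith
  rw [s0, s1, s2, setIntegral_const, vol_eq 0 hr, smul_eq_mul]

lemma avg_cubic (a x : E) {r : ℝ} (hr : 0 < r) :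
    avg (fun u : E => (u 0 + a 0) * (u 1 + a 1) * (u 2 + a 2)) x r
      = (x 0 + a 0) * (x 1 + a 1) * (x 2 + a 2) := by
  unfold avg
  rw [int_shift]
  have : ∀ v : E, ((x - v) 0 + a 0) * ((x - v) 1 + a 1) * ((x - v) 2 + a 2)
      = ((x 0 + a 0) - v 0) * ((x 1 + a 1) - v 1) * ((x 2 + a 2) - v 2) := by
    intro v
    simp only [PiLp.sub_apply]
    ring
  simp only [this]
  rw [int_cubic _ _ _ hr]
  have := (vol_pos hr).ne'
  field_simp

lemma avg_inner (a x : E) {r : ℝ} (hr : 0 < r) :
    avg (fun u : E => inner ℝ u a) x r = inner ℝ x a := by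
  unfold avg
  rw [int_shift]
  have i0 := cint (f := fun v : E => (inner ℝ v a : ℝ)) (by fun_prop) 0 r
  have hodd : ∫ v in ball (0:E) r, (inner ℝ v a : ℝ) = 0 := by
    have h := ((LinearIsometryEquiv.neg ℝ : E ≃ₗᵢ[ℝ] E).measurePreserving).integral_comp
      (LinearIsometryEquiv.neg ℝ : E ≃ₗᵢ[ℝ] E).toHomeomorph.measurableEmbedding
      ((ball (0:E) r).indicator (fun v => (inner ℝ v a : ℝ)))
    rw [integral_indicator measurableSet_ball] at h
    have e : (fun x : E => (ball (0:E) r).indicator (fun v => (inner ℝ v a : ℝ))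
        ((LinearIsometryEquiv.neg ℝ : E ≃ₗᵢ[ℝ] E) x))
        = fun x => - (ball (0:E) r).indicator (fun v => (inner ℝ v a : ℝ)) x := by
      ext v
      simp only [LinearIsometryEquiv.coe_neg, indicator, mem_ball_zero_iff, norm_neg]
      split_ifs <;> simp
    rw [e, integral_neg, integral_indicator measurableSet_ball] at h
    linarith
  have : ∀ v : E, (inner ℝ (x - v) a : ℝ) = inner ℝ x a - inner ℝ v a := fun v => inner_sub_left _ _ _
  simp only [this]
  rw [integral_sub (cint (f := fun _ : E => (inner ℝ x a : ℝ)) continuous_const 0 r) i0, hodd,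
    setIntegral_const, vol_eq 0 hr, smul_eq_mul]
  have := (vol_pos hr).ne'
  field_simp
  ring

end Q86.Shell
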