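import Pool.Agent.Q86.ShellC

/-! Maximum principle and the obstacle function `Q`. -/

set_option autoImplicit false

open MeasureTheory Metric Set

noncomputable section

namespace Q86.Shell

lemma exists_farther (x : E) {r : ℝ} (hr : 0 < r) : ∃ y ∈ ball x r, ‖x‖ < ‖y‖ := by
  by_cases hx : x = 0
  · refine ⟨EuclideanSpace.single 0 (r/2), ?_, ?_⟩
    · rw [hx, mem_ball_zero_iff, EuclideanSpace.norm_single, Real.norm_eq_abs,
        abs_of_pos (by positivity)]
      linarith
    · rw [hx, norm_zero, EuclideanSpace.norm_single, Real.norm_eq_abs, abs_of_pos (by positivity)]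
      positivity
  · have hn : 0 < ‖x‖ := norm_pos_iff.2 hx
    refine ⟨(1 + r/(2*‖x‖)) • x, ?_, ?_⟩
    · rw [mem_ball, dist_eq_norm]
      have : (1 + r/(2*‖x‖)) • x - x = (r/(2*‖x‖)) • x := by
        rw [add_smul, one_smul]; abel
      rw [this, norm_smul, Real.norm_eq_abs, abs_of_pos (by positivity)]
      have : r/(2*‖x‖) * ‖x‖ = r/2 := by field_simp
      rw [this]; linarith
    · rw [norm_smul, Real.norm_eq_abs, abs_of_pos (by positivity)]
      have : (1 + r/(2*‖x‖)) * ‖x‖ = ‖x‖ + r/2 := by field_simp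
      rw [this]; linarith

lemma max_pr {g : E → ℝ} (hg : Continuous g) {L : ℝ} (hb : ∀ x, ‖x‖ = L → g x ≤ 0)
    (hi : ∀ x, ‖x‖ < L → 0 < g x → ∃ r0 > 0, ∀ r, 0 < r → r < r0 → g x ≤ avg g x r) :
    ∀ x, ‖x‖ ≤ L → g x ≤ 0 := by
  intro x0 hx0
  by_contra hpos
  push Not at hpos
  have hcomp : IsCompact (closedBall (0:E) L) := isCompact_closedBall _ _
  obtain ⟨xm, hxm, hmax⟩ := hcomp.exists_isMaxOn ⟨x0, by simpa using hx0⟩ hg.continuousOn
  have hm : 0 < g xm := lt_of_lt_of_le hpos (hmax (by simpa using hx0))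
  have hS : IsCompact (closedBall (0:E) L ∩ g ⁻¹' {g xm}) :=
    hcomp.inter_right (isClosed_singleton.preimage hg)
  obtain ⟨xs, hxs, hfar⟩ := hS.exists_isMaxOn ⟨xm, hxm, rfl⟩ continuous_norm.continuousOn
  have hxsv : g xs = g xm := hxs.2
  have hxsn : ‖xs‖ ≤ L := by simpa using hxs.1
  have hlt : ‖xs‖ < L := by
    rcases lt_or_eq_of_le hxsn with h | h
    · exact h
    · have := hb xs h; linarith
  obtain ⟨r0, hr0, hav⟩ := hi xs hlt (by rw [hxsv]; exact hm)
  set r := min (r0/2) ((L - ‖xs‖)/2) with hr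
  have hrpos : 0 < r := lt_min (by linarith) (by linarith)
  have hrr0 : r < r0 := lt_of_le_of_lt (min_le_left _ _) (by linarith)
  have hrL : ‖xs‖ + r < L := by
    have : r ≤ (L - ‖xs‖)/2 := min_le_right _ _
    linarith
  have hsub : ∀ u ∈ ball xs r, u ∈ closedBall (0:E) L := by
    intro u hu
    have h1 : ‖u - xs‖ < r := by simpa [dist_eq_norm] using hu
    have h2 : ‖u‖ ≤ ‖xs‖ + ‖u - xs‖ := by
      have := norm_add_le xs (u - xs)
      simpa using this
    simp; linarith
  have h1 := hav r hrpos hrr0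
  have h2 : ∫ u in ball xs r, (g xm - g u) ≤ 0 := by
    rw [integral_sub (cint continuous_const _ _) (cint hg _ _), setIntegral_const,
      vol_eq xs hrpos, smul_eq_mul]
    unfold avg at h1
    rw [le_div_iff₀ (vol_pos hrpos), hxsv] at h1
    linarith
  have hnn : 0 ≤ᵐ[volume.restrict (ball xs r)] (fun u => g xm - g u) := by
    rw [Filter.EventuallyLE, ae_restrict_iff' measurableSet_ball]
    refine Filter.Eventually.of_forall fun u hu => ?_
    have := hmax (hsub u hu)
    simp only [mem_setOf_eq] at this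
    simp only [Pi.zero_apply]
    linarith
  have hz : ∫ u in ball xs r, (g xm - g u) = 0 :=
    le_antisymm h2 (integral_nonneg_of_ae hnn)
  have hae := (integral_eq_zero_iff_of_nonneg_ae hnn
    (cint (continuous_const.sub hg) xs r)).1 hz
  have heq := Measure.eqOn_open_of_ae_eq hae isOpen_ball
    (continuous_const.sub hg).continuousOn continuousOn_const
  obtain ⟨y, hy, hyn⟩ := exists_farther xs hrpos
  have hgy : g y = g xm := by
    have := heq hy
    simp only [Pi.zero_apply] at this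
    linarith
  have := hfar (show y ∈ closedBall (0:E) L ∩ g ⁻¹' {g xm} from ⟨hsub y hy, hgy⟩)
  simp only [mem_setOf_eq] at this
  linarith

/-- the constants -/
def eps : ℝ := 1/10000000

def Q (c : ℝ) (x : E) : ℝ := c - 2*Real.pi/3 * ‖x‖^2 + eps * (x 0 * x 1 * x 2)

lemma Q_cont (c : ℝ) : Continuous (Q c) := by
  unfold Q; fun_prop

def one (S : ℝ) : E → ℝ := (closedBall (0:E) S).indicator (fun _ => 1)

lemma one_adm (S : ℝ) : Adm (one S) S where
  meas := measurable_const.indicator measurableSet_closedBall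
  nonneg := fun y => indicator_nonneg (fun _ _ => zero_le_one) y
  le_one := fun y => by
    unfold one
    by_cases h : y ∈ closedBall (0:E) S
    · rw [indicator_of_mem h]
    · rw [indicator_of_notMem h]; exact zero_le_one
  supp := fun y hy => indicator_of_notMem (by simpa using hy) _

lemma one_in {S : ℝ} {y : E} (h : ‖y‖ ≤ S) : one S y = 1 := by
  unfold one; rw [indicator_of_mem (by simpa using h)]

lemma V_one (S : ℝ) (x : E) : V (one S) x = P S x := by
  unfold V P
  rw [setIntegral_congr_set (ball_ae 0 S), ← integral_indicator measurableSet_closedBall]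
  congr 1
  ext y
  unfold one
  by_cases h : y ∈ closedBall (0:E) S
  · rw [indicator_of_mem h, indicator_of_mem h]; simp
  · rw [indicator_of_notMem h, indicator_of_notMem h]; simp

lemma avg_sq {S r : ℝ} {x : E} (hr : 0 < r) (hx : ‖x‖ + r ≤ S) :
    avg (fun u : E => 2*Real.pi/3 * ‖u‖^2) x r
      = 2*Real.pi/3 * ‖x‖^2 + ∫ y, one S y * K r (x - y) := by
  have hS : 0 < S := by linarith [norm_nonneg x]
  have h1 := avg_V (one_adm S) hS x hr
  have h2 : avg (V (one S)) x r
      = avg (fun u : E => 2*Real.pi*S^2 - 2*Real.pi/3 * ‖u‖^2) x r := by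
    apply avg_congr
    intro u hu
    have hn : ‖u - x‖ < r := by simpa [dist_eq_norm] using hu
    have : ‖u‖ ≤ ‖x‖ + ‖u - x‖ := by
      have := norm_add_le x (u - x)
      simpa using this
    rw [V_one, P_in hS (by linarith)]
  rw [h2, avg_sub continuous_const (by fun_prop), avg_const _ _ hr, V_one,
    P_in hS (by linarith)] at h1
  linarith

lemma avg_Q (c : ℝ) {S r : ℝ} {x : E} (hr : 0 < r) (hx : ‖x‖ + r ≤ S) :
    avg (Q c) x r = Q c x - ∫ y, one S y * K r (x - y) := by
  have e : avg (Q c) x r = avg (fun u : E => (c - 2*Real.pi/3 * ‖u‖^2) + eps * (u 0 * u 1 * u 2)) x r := rfl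
  rw [e, avg_add (by fun_prop) (by fun_prop), avg_sub continuous_const (by fun_prop),
    avg_const _ _ hr, avg_sq hr hx, avg_mul]
  have h3 := avg_cubic 0 x hr
  simp only [PiLp.zero_apply, add_zero] at h3
  rw [h3]
  unfold Q
  ring

lemma avg_w (c : ℝ) {ρ : E → ℝ} {R : ℝ} (h : Adm ρ R) (hR : 0 < R) {S r : ℝ} {x : E}
    (hr : 0 < r) (hx : ‖x‖ + r ≤ S) :
    avg (fun u => V ρ u - Q c u) x r
      = (V ρ x - Q c x) + ∫ y, (one S y - ρ y) * K r (x - y) := by
  rw [avg_sub (V_cont h) (Q_cont c), avg_V h hR x hr, avg_Q c hr hx]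
  have : ∫ y, (one S y - ρ y) * K r (x - y)
      = (∫ y, one S y * K r (x - y)) - ∫ y, ρ y * K r (x - y) := by
    rw [← integral_sub ((one_adm S).integrable_K hr x) (h.integrable_K hr x)]
    congr 1; ext y; ring
  rw [this]; ring

lemma coord_le (x : E) (i : Fin 3) : |x i| ≤ ‖x‖ := by
  simpa using PiLp.norm_apply_le x i

lemma cube_le (x : E) : |x 0 * x 1 * x 2| ≤ ‖x‖^3 := by
  rw [abs_mul, abs_mul]
  calc |x 0| * |x 1| * |x 2| ≤ ‖x‖ * ‖x‖ * ‖x‖ := by
        apply mul_le_mul (mul_le_mul (coord_le x 0) (coord_le x 1) (abs_nonneg _) (norm_nonneg _))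
          (coord_le x 2) (abs_nonneg _) (by positivity)
    _ = ‖x‖^3 := by ring

lemma Q_upper (c : ℝ) {x : E} (hx : ‖x‖ ≤ 300) : Q c x ≤ c - Real.pi/2 * ‖x‖^2 := by
  unfold Q
  have h1 := (abs_le.1 (cube_le x)).2
  have h2 : ‖x‖^3 ≤ 300 * ‖x‖^2 := by
    have : ‖x‖^3 = ‖x‖ * ‖x‖^2 := by ring
    rw [this]; exact mul_le_mul_of_nonneg_right hx (sq_nonneg _)
  have h3 : eps * (x 0 * x 1 * x 2) ≤ eps * (300 * ‖x‖^2) :=
    mul_le_mul_of_nonneg_left (h1.trans h2) (by unfold eps; norm_num)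
  have hpi := Real.pi_gt_three
  unfold eps at *
  nlinarith [sq_nonneg ‖x‖, mul_nonneg (sub_nonneg.2 hpi.le) (sq_nonneg ‖x‖)]

end Q86.Shell
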