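import Pool.Agent.Q86.ShellD

/-! From the Euler-Lagrange conditions to a solution set of the obstacle problem. -/

set_option autoImplicit false

open MeasureTheory Metric Set Filter Topology

noncomputable section

namespace Q86.Shell

structure EL (c : ℝ) (ρ : E → ℝ) : Prop where
  adm : Adm ρ 300
  low : ∀ᵐ y : E, ‖y‖ < 300 → V ρ y < Q c y → ρ y = 1
  high : ∀ᵐ y : E, ‖y‖ < 300 → Q c y < V ρ y → ρ y = 0

def chi (D : Set E) : E → ℝ := D.indicator (fun _ => 1)

structure IsSol (c : ℝ) (D : Set E) : Prop where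
  closed : IsClosed D
  bdd : D ⊆ closedBall 0 300
  ge : ∀ x : E, ‖x‖ ≤ 300 → Q c x ≤ V (chi D) x
  iff : ∀ x : E, ‖x‖ ≤ 300 → (x ∈ D ↔ V (chi D) x = Q c x)

lemma EL.ge {c : ℝ} (hc : c ≤ 32*Real.pi) {ρ : E → ℝ} (h : EL c ρ) :
    ∀ x : E, ‖x‖ ≤ 300 → Q c x ≤ V ρ x := by
  have hcont : Continuous (fun x => Q c x - V ρ x) := (Q_cont c).sub (V_cont h.adm)
  have key := max_pr (g := fun x => Q c x - V ρ x) hcont (L := 300) ?_ ?_
  · intro x hx
    have := key x hx
    linarith
  · intro x hx
    have h1 := Q_upper c (le_of_eq hx)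
    have h2 := V_nonneg h.adm x
    rw [hx] at h1
    have := Real.pi_pos
    have h3 : Q c x ≤ 0 := by nlinarith
    linarith
  · intro x hx hpos
    have hopen : IsOpen {u : E | ‖u‖ < 300 ∧ V ρ u < Q c u} :=
      (isOpen_lt continuous_norm continuous_const).inter
        (isOpen_lt (V_cont h.adm) (Q_cont c))
    obtain ⟨r0, hr0, hsub⟩ := Metric.isOpen_iff.1 hopen x ⟨hx, by linarith⟩
    refine ⟨r0, hr0, fun r hr hrr => ?_⟩
    have hS : ‖x‖ + r ≤ max 300 (‖x‖ + r) := le_max_right _ _
    have e1 := avg_w c h.adm (by norm_num : (0:ℝ) < 300) hr hS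
    have e2 : avg (fun u => Q c u - V ρ u) x r = - avg (fun u => V ρ u - Q c u) x r := by
      have := avg_mul (-1) (fun u => V ρ u - Q c u) x r
      have e3 : (fun u => -1 * (V ρ u - Q c u)) = fun u => Q c u - V ρ u := by
        ext u; ring
      rw [e3] at this
      linarith
    have e4 : ∫ y, (one (max 300 (‖x‖ + r)) y - ρ y) * K r (x - y) = 0 := by
      apply integral_eq_zero_of_ae
      filter_upwards [h.low] with y hy
      by_cases hyb : y ∈ ball x r
      · have hyr := hsub (ball_subset_ball hrr.le hyb)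
        have h1 : ‖y‖ ≤ max 300 (‖x‖ + r) := hyr.1.le.trans (le_max_left _ _)
        simp [hy hyr.1 hyr.2, one_in h1]
      · have : r ≤ ‖x - y‖ := by
          rw [← dist_eq_norm, dist_comm]; simpa using hyb
        simp [K_zero hr this]
    rw [e2, e1, e4]
    linarith

lemma one_sub_nonneg {ρ : E → ℝ} {R S : ℝ} (h : Adm ρ R) (hS : R ≤ S) (y : E) :
    0 ≤ one S y - ρ y := by
  by_cases hy : ‖y‖ ≤ S
  · rw [one_in hy]; linarith [h.le_one y]
  · push Not at hy
    rw [h.supp y (by linarith), (one_adm S).supp y hy]; simp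

lemma one_sub_le {ρ : E → ℝ} {R S : ℝ} (h : Adm ρ R) (y : E) :
    one S y - ρ y ≤ 1 := by
  linarith [h.nonneg y, (one_adm S).le_one y]

lemma int_sub_nonneg {ρ : E → ℝ} {R S : ℝ} (h : Adm ρ R) (hS : R ≤ S) {r : ℝ} (hr : 0 < r)
    (x : E) : 0 ≤ ∫ y, (one S y - ρ y) * K r (x - y) := by
  apply integral_nonneg_of_ae
  have hne : ∀ᵐ y : E, y ≠ x := by simp [ae_iff]
  filter_upwards [hne] with y hy
  exact mul_nonneg (one_sub_nonneg h hS y) (K_nonneg hr (sub_ne_zero.2 (Ne.symm hy)))

/-- upper bound for the gap integral -/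
lemma int_sub_le {ρ : E → ℝ} {R S : ℝ} (h : Adm ρ R) (hS : R ≤ S) {r : ℝ} (hr : 0 < r)
    (x : E) : ∫ y, (one S y - ρ y) * K r (x - y) ≤ 2*Real.pi*r^2 := by
  have e : (2*Real.pi*r^2) = ∫ y, (ball x r).indicator (fun y => ‖x - y‖⁻¹) y := by
    rw [integral_indicator measurableSet_ball, int_shift]
    have := P_in hr (z := 0) (by simpa using hr.le)
    simp only [norm_zero] at this
    have e2 : 2*Real.pi*r^2 = P r 0 := by rw [this]; ring
    rw [e2]
    unfold P
    congr 1
    ext v
    rw [sub_sub_cancel, zero_sub, norm_neg]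
  rw [e]
  have i1 : Integrable (fun y => (one S y - ρ y) * K r (x - y)) := by
    refine (((one_adm S).integrable_K hr x).sub (h.integrable_K hr x)).congr
      (Eventually.of_forall fun y => ?_)
    simp only [Pi.sub_apply]; ring
  apply integral_mono_ae i1
  · exact (integrable_indicator_iff measurableSet_ball).2 (kint x _ isBounded_ball)
  · have hne : ∀ᵐ y : E, y ≠ x := by simp [ae_iff]
    filter_upwards [hne] with y hy
    have hK := K_nonneg hr (sub_ne_zero.2 (Ne.symm hy))
    by_cases hyb : y ∈ ball x r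
    · rw [indicator_of_mem hyb]
      calc (one S y - ρ y) * K r (x - y) ≤ 1 * K r (x - y) :=
            mul_le_mul_of_nonneg_right (one_sub_le h y) hK
        _ ≤ ‖x - y‖⁻¹ := by rw [one_mul]; exact K_le hr _
    · have : r ≤ ‖x - y‖ := by
        rw [← dist_eq_norm, dist_comm]; simpa using hyb
      rw [indicator_of_notMem hyb, K_zero hr this]; simp

/-- sup bound for `w` near a contact point -/
lemma sup_bound {c : ℝ} {ρ : E → ℝ} (h : Adm ρ 300)
    (hge : ∀ x : E, ‖x‖ ≤ 300 → Q c x ≤ V ρ x) {x : E} (hx : V ρ x = Q c x) {r : ℝ} (hr : 0 < r)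
    (hxr : ‖x‖ + 2*r ≤ 300) {y : E} (hy : y ∈ ball x r) :
    V ρ y - Q c y ≤ 64*Real.pi*r^2 := by
  have hdist : ‖y - x‖ < r := by simpa [dist_eq_norm] using hy
  have hyn : ‖y‖ ≤ ‖x‖ + ‖y - x‖ := by
    have := norm_add_le x (y - x)
    simpa using this
  have e1 := avg_w c h (by norm_num : (0:ℝ) < 300) hr (S := 300) (x := y) (by linarith)
  have e1' := int_sub_nonneg h (le_refl 300) hr y
  have hcont : Continuous (fun u => V ρ u - Q c u) := (V_cont h).sub (Q_cont c)
  have e2 : avg (fun u => V ρ u - Q c u) y r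
      ≤ 8 * avg (fun u => V ρ u - Q c u) x (2*r) := by
    unfold avg
    have hv : vol (2*r) = 8 * vol r := by unfold vol; ring
    have : ∫ u in ball y r, (V ρ u - Q c u) ≤ ∫ u in ball x (2*r), (V ρ u - Q c u) := by
      apply setIntegral_mono_set (cint hcont _ _)
      · rw [Filter.EventuallyLE, ae_restrict_iff' measurableSet_ball]
        refine Filter.Eventually.of_forall fun u hu => ?_
        have h1 : ‖u - x‖ < 2*r := by simpa [dist_eq_norm] using hu
        have h2 : ‖u‖ ≤ ‖x‖ + ‖u - x‖ := by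
          have := norm_add_le x (u - x)
          simpa using this
        have := hge u (by linarith)
        simp only [Pi.zero_apply]; linarith
      · apply LE.le.eventuallyLE
        intro u hu
        have h1 : dist u y < r := hu
        have h2 : dist y x < r := hy
        have := dist_triangle u y x
        simp only [mem_ball]; linarith
    rw [hv, div_le_iff₀ (vol_pos hr)]
    have hvp := vol_pos hr
    calc ∫ u in ball y r, (V ρ u - Q c u) ≤ ∫ u in ball x (2*r), (V ρ u - Q c u) := this
      _ = 8 * ((∫ u in ball x (2*r), (V ρ u - Q c u)) / (8 * vol r)) * vol r := by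
          field_simp
  have e3 := avg_w c h (by norm_num : (0:ℝ) < 300) (by linarith : 0 < 2*r) (S := 300) (x := x)
    (by linarith)
  have e4 := int_sub_le h (le_refl 300) (by linarith : 0 < 2*r) x
  rw [hx] at e3
  nlinarith

/-- density comparison at a contact point -/
lemma dens_bound {c : ℝ} {ρ : E → ℝ} (h : Adm ρ 300)
    (hge : ∀ x : E, ‖x‖ ≤ 300 → Q c x ≤ V ρ x) {x : E} (hx : V ρ x = Q c x) {r : ℝ} (hr : 0 < r)
    (hxr : ‖x‖ + 2*r ≤ 300) :
    ∫ y in ball x (r/2), (1 - ρ y)
      ≤ 128 * r^3 * Real.pi * (∫ y in ball x r, {u | V ρ u ≠ Q c u}.indicator (fun _ => (1:ℝ)) y) / vol r := by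
  have e1 := avg_w c h (by norm_num : (0:ℝ) < 300) hr (S := 300) (x := x) (by linarith)
  rw [hx] at e1
  have hcont : Continuous (fun u => V ρ u - Q c u) := (V_cont h).sub (Q_cont c)
  have hmeasN : MeasurableSet {u : E | V ρ u ≠ Q c u} :=
    (isClosed_eq (V_cont h) (Q_cont c)).isOpen_compl.measurableSet
  -- lower bound for the gap integral
  have low : (1/(2*r)) * ∫ y in ball x (r/2), (1 - ρ y)
      ≤ ∫ y, (one 300 y - ρ y) * K r (x - y) := by
    rw [← integral_const_mul, ← integral_indicator measurableSet_ball]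
    have i1 : Integrable (fun y => (one 300 y - ρ y) * K r (x - y)) := by
      refine (((one_adm 300).integrable_K hr x).sub (h.integrable_K hr x)).congr
        (Eventually.of_forall fun y => ?_)
      simp only [Pi.sub_apply]; ring
    have i2 : IntegrableOn (fun y => 1/(2*r) * (1 - ρ y)) (ball x (r/2)) := by
      apply Integrable.const_mul
      refine Measure.integrableOn_of_bounded (M := 1) measure_ball_lt_top.ne
        (measurable_const.sub h.meas).aestronglyMeasurable (Eventually.of_forall fun y => ?_)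
      rw [Real.norm_eq_abs, abs_of_nonneg (by linarith [h.le_one y])]
      linarith [h.nonneg y]
    apply integral_mono_ae ((integrable_indicator_iff measurableSet_ball).2 i2) i1
    have hne : ∀ᵐ y : E, y ≠ x := by simp [ae_iff]
    filter_upwards [hne] with y hy
    have hne' : x - y ≠ 0 := sub_ne_zero.2 (Ne.symm hy)
    by_cases hyb : y ∈ ball x (r/2)
    · rw [indicator_of_mem hyb]
      have hd : ‖x - y‖ < r/2 := by rw [← dist_eq_norm, dist_comm]; exact hyb
      have hyn : ‖y‖ ≤ ‖x‖ + ‖x - y‖ := by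
        have := norm_sub_le x (x - y)
        simpa using this
      rw [one_in (by linarith : ‖y‖ ≤ 300)]
      have := mul_le_mul_of_nonneg_right (K_lower hr hne' hd.le)
        (by linarith [h.le_one y] : 0 ≤ 1 - ρ y)
      linarith
    · rw [indicator_of_notMem hyb]
      exact mul_nonneg (one_sub_nonneg h (le_refl 300) y) (K_nonneg hr hne')
  -- upper bound for the average
  have up : avg (fun u => V ρ u - Q c u) x r
      ≤ 64*Real.pi*r^2 * (∫ y in ball x r, {u | V ρ u ≠ Q c u}.indicator (fun _ => (1:ℝ)) y) / vol r := by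
    unfold avg
    rw [div_le_div_iff_of_pos_right (vol_pos hr), ← integral_const_mul]
    apply setIntegral_mono_on (cint hcont _ _)
    · apply Integrable.const_mul
      refine Measure.integrableOn_of_bounded (M := 1) measure_ball_lt_top.ne
        (measurable_const.indicator hmeasN).aestronglyMeasurable (Eventually.of_forall fun y => ?_)
      by_cases hy : y ∈ {u | V ρ u ≠ Q c u}
      · rw [indicator_of_mem hy]; simp
      · rw [indicator_of_notMem hy]; simp
    · exact measurableSet_ball
    · intro y hy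
      by_cases hyn : V ρ y = Q c y
      · rw [hyn, indicator_of_notMem (by simpa using hyn)]; simp
      · rw [indicator_of_mem (by simpa using hyn), mul_one]
        exact sup_bound h hge hx hr hxr hy
  have e5 : (1/(2*r)) * ∫ y in ball x (r/2), (1 - ρ y)
      ≤ 64*Real.pi*r^2 * (∫ y in ball x r, {u | V ρ u ≠ Q c u}.indicator (fun _ => (1:ℝ)) y) / vol r := by
    refine low.trans ?_
    linarith
  have e6 := mul_le_mul_of_nonneg_left e5 (by positivity : 0 ≤ 2*r)
  have e7 : 2*r * (1/(2*r) * ∫ y in ball x (r/2), (1 - ρ y)) = ∫ y in ball x (r/2), (1 - ρ y) := by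
    field_simp
  rw [e7] at e6
  refine e6.trans (le_of_eq ?_)
  ring


lemma closed_avg (f : E → ℝ) (x : E) {r : ℝ} (hr : 0 < r) :
    (⨍ y in closedBall x r, f y) = (∫ y in ball x r, f y) / vol r := by
  rw [setAverage_eq, Measure.real, Measure.addHaar_closedBall_eq_addHaar_ball,
    ← setIntegral_congr_set (ball_ae x r), ← Measure.real, vol_eq x hr, smul_eq_mul]
  ring

lemma one_on_contact {c : ℝ} {ρ : E → ℝ} (h : Adm ρ 300)
    (hge : ∀ x : E, ‖x‖ ≤ 300 → Q c x ≤ V ρ x) :
    ∀ᵐ x : E, ‖x‖ < 300 → V ρ x = Q c x → ρ x = 1 := by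
  have hmeasN : MeasurableSet {u : E | V ρ u ≠ Q c u} :=
    (isClosed_eq (V_cont h) (Q_cont c)).isOpen_compl.measurableSet
  have l1 : LocallyIntegrable ρ (volume : Measure E) := by
    apply LocallyIntegrable.mono (g := ρ) (f := fun _ : E => (1:ℝ))
    · exact continuous_const.locallyIntegrable
    · exact h.meas.aestronglyMeasurable
    · refine Eventually.of_forall fun y => ?_
      rw [Real.norm_eq_abs, abs_of_nonneg (h.nonneg y)]
      simpa using h.le_one y
  have l2 : LocallyIntegrable ({u : E | V ρ u ≠ Q c u}.indicator (fun _ => (1:ℝ)))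
      (volume : Measure E) := by
    apply LocallyIntegrable.mono (f := fun _ : E => (1:ℝ))
    · exact continuous_const.locallyIntegrable
    · exact (measurable_const.indicator hmeasN).aestronglyMeasurable
    · refine Eventually.of_forall fun y => ?_
      by_cases hy : y ∈ {u | V ρ u ≠ Q c u}
      · rw [indicator_of_mem hy]
      · rw [indicator_of_notMem hy]; simp
  have t1 := IsUnifLocDoublingMeasure.ae_tendsto_average (μ := (volume : Measure E)) l1 1
  have t2 := IsUnifLocDoublingMeasure.ae_tendsto_average (μ := (volume : Measure E)) l2 1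
  filter_upwards [t1, t2] with x h1 h2 hx hxc
  have lim0 : Tendsto (fun r : ℝ => r) (𝓝[>] 0) (𝓝[>] 0) := tendsto_id
  have lim1 : Tendsto (fun r : ℝ => r/2) (𝓝[>] 0) (𝓝[>] 0) := by
    apply tendsto_nhdsWithin_of_tendsto_nhds_of_eventually_within
    · have : Tendsto (fun r : ℝ => r/2) (𝓝 0) (𝓝 (0/2)) := tendsto_id.div_const 2
      rw [zero_div] at this
      exact this.mono_left nhdsWithin_le_nhds
    · filter_upwards [self_mem_nhdsWithin] with r hr
      have : 0 < r := hr
      exact half_pos this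
  have a1 := h1 (fun _ : ℝ => x) (fun r => r/2) lim1 (by
    filter_upwards [self_mem_nhdsWithin] with r hr
    have : 0 < r := hr
    simp; positivity)
  have a2 := h2 (fun _ : ℝ => x) (fun r => r) lim0 (by
    filter_upwards [self_mem_nhdsWithin] with r hr
    have : 0 < r := hr
    simp; positivity)
  have hf2 : ({u : E | V ρ u ≠ Q c u}.indicator (fun _ => (1:ℝ))) x = 0 :=
    indicator_of_notMem (by simpa using hxc) _
  rw [hf2] at a2
  -- inequality
  have key : ∀ᶠ r : ℝ in 𝓝[>] 0, 1 - (⨍ y in closedBall x (r/2), ρ y)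
      ≤ 768 * (⨍ y in closedBall x r, ({u : E | V ρ u ≠ Q c u}.indicator (fun _ => (1:ℝ))) y) := by
    have hsmall : ∀ᶠ r : ℝ in 𝓝[>] 0, r < (300 - ‖x‖)/2 := by
      apply mem_nhdsWithin_of_mem_nhds
      exact Iio_mem_nhds (by linarith)
    filter_upwards [self_mem_nhdsWithin, hsmall] with r hr hrs
    have hr0 : 0 < r := hr
    have hb := dens_bound h hge hxc hr0 (by linarith)
    rw [closed_avg _ _ (by positivity : 0 < r/2), closed_avg _ _ hr0]
    have i1 : IntegrableOn ρ (ball x (r/2)) := by
      refine Measure.integrableOn_of_bounded (M := 1) measure_ball_lt_top.ne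
        h.meas.aestronglyMeasurable (Eventually.of_forall fun y => ?_)
      rw [Real.norm_eq_abs, abs_of_nonneg (h.nonneg y)]; exact h.le_one y
    have e1 : ∫ y in ball x (r/2), (1 - ρ y) = vol (r/2) - ∫ y in ball x (r/2), ρ y := by
      rw [integral_sub (cint continuous_const _ _) i1, setIntegral_const,
        vol_eq x (by positivity), smul_eq_mul, mul_one]
    rw [e1] at hb
    have hv2 := vol_pos (by positivity : 0 < r/2)
    have hv := vol_pos hr0
    have hpi := Real.pi_pos
    set A := ∫ y in ball x r, ({u : E | V ρ u ≠ Q c u}.indicator (fun _ => (1:ℝ))) y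
    set B := ∫ y in ball x (r/2), ρ y
    have e2 : 1 - B / vol (r/2) = (vol (r/2) - B) / vol (r/2) := by
      rw [sub_div, div_self hv2.ne']
    rw [e2, div_le_iff₀ hv2]
    refine hb.trans (le_of_eq ?_)
    have : vol (r/2) = Real.pi * r^3 / 6 := by unfold vol; ring
    rw [this]
    ring
  have lim := le_of_tendsto_of_tendsto (tendsto_const_nhds.sub a1) (a2.const_mul 768) key
  rw [mul_zero] at lim
  linarith [h.le_one x]

lemma Q_neg_of_large {c : ℝ} (hc : c ≤ 32*Real.pi) {x : E} (hx : ‖x‖ ≤ 300) (hx2 : 8 < ‖x‖) :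
    Q c x < 0 := by
  have h1 := Q_upper c hx
  have hpi := Real.pi_pos
  have h2 : 64 < ‖x‖^2 := by nlinarith
  nlinarith [mul_lt_mul_of_pos_left h2 hpi]

theorem EL.isSol {c : ℝ} (hc : c ≤ 32*Real.pi) {ρ : E → ℝ} (h : EL c ρ) :
    ∃ D : Set E, IsSol c D := by
  have hge := h.ge hc
  set D : Set E := {x | ‖x‖ ≤ 300 ∧ V ρ x = Q c x} with hD
  have hclosed : IsClosed D :=
    (isClosed_le continuous_norm continuous_const).inter (isClosed_eq (V_cont h.adm) (Q_cont c))
  have hae : ρ =ᵐ[volume] chi D := by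
    have hs : ∀ᵐ y : E, y ∉ sphere (0:E) 300 := by
      rw [ae_iff]
      have : {a : E | ¬ a ∉ sphere (0:E) 300} = sphere 0 300 := by ext; simp
      rw [this]
      exact Measure.addHaar_sphere _ _ _
    filter_upwards [h.high, one_on_contact h.adm hge, hs] with y h1 h2 h3
    unfold chi
    rcases lt_trichotomy ‖y‖ 300 with hy | hy | hy
    · rcases eq_or_lt_of_le (hge y hy.le) with he | he
      · rw [indicator_of_mem (show y ∈ D from ⟨hy.le, he.symm⟩)]
        exact h2 hy he.symm
      · rw [indicator_of_notMem (fun hyD : y ∈ D => by have := hyD.2; linarith)]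
        exact h1 hy he
    · exact absurd (by simpa using hy) h3
    · rw [indicator_of_notMem (fun hyD : y ∈ D => by have := hyD.1; linarith)]
      exact h.adm.supp y hy
  have hV : ∀ x, V (chi D) x = V ρ x := by
    intro x
    unfold V
    apply integral_congr_ae
    filter_upwards [hae] with y hy
    rw [hy]
  refine ⟨D, hclosed, ?_, ?_, ?_⟩
  · intro x hx; simpa using hx.1
  · intro x hx; rw [hV]; exact hge x hx
  · intro x hx
    rw [hV]
    exact ⟨fun h => h.2, fun h => ⟨hx, h⟩⟩

end Q86.Shell
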