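import Pool.Agent.Q86.ShellC

/-! Positive definiteness of the Newton kernel. -/

set_option autoImplicit false

open MeasureTheory Metric Set Filter Topology

noncomputable section

namespace Q86.Shell

def k2 (x z : E) : ℝ := (‖x - z‖^2)⁻¹

lemma k2_nonneg (x z : E) : 0 ≤ k2 x z := by unfold k2; positivity

lemma k2_meas : Measurable (fun p : E × E => k2 p.1 p.2) := by
  unfold k2; fun_prop

def II (x y : E) : ENNReal := ∫⁻ z : E, ENNReal.ofReal (k2 x z * k2 y z)

lemma II_trans (x y a : E) : II (x - a) (y - a) = II x y := by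
  unfold II
  have h := lintegral_sub_right_eq_self (μ := (volume : Measure E))
    (fun z => ENNReal.ofReal (k2 (x - a) z * k2 (y - a) z)) a
  rw [← h]
  congr 1
  ext z
  unfold k2
  simp only [sub_sub_sub_cancel_right]

lemma II_rot (Φ : E ≃ₗᵢ[ℝ] E) (x y : E) : II (Φ x) (Φ y) = II x y := by
  unfold II
  have h := (Φ.measurePreserving).lintegral_comp_emb Φ.toHomeomorph.measurableEmbedding
    (fun z => ENNReal.ofReal (k2 (Φ x) z * k2 (Φ y) z))
  rw [← h]
  congr 1
  ext z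
  unfold k2
  simp only [← map_sub, LinearIsometryEquiv.norm_map]

lemma II_scale {a : ℝ} (ha : 0 < a) (x y : E) :
    II (a • x) (a • y) = ENNReal.ofReal (a⁻¹) * II x y := by
  unfold II
  have hmap := Measure.map_addHaar_smul (volume : Measure E) ha.ne'
  have hm : Measurable (fun z : E => ENNReal.ofReal (k2 (a • x) z * k2 (a • y) z)) := by
    unfold k2; fun_prop
  have h1 : ∫⁻ z : E, ENNReal.ofReal (k2 (a • x) (a • z) * k2 (a • y) (a • z))
      = ∫⁻ z, ENNReal.ofReal (k2 (a • x) z * k2 (a • y) z) ∂(Measure.map (a • ·) (volume : Measure E)) := by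
    rw [lintegral_map hm (measurable_const_smul a)]
  rw [hmap, lintegral_smul_measure] at h1
  have h2 : ∀ z : E, ENNReal.ofReal (k2 (a • x) (a • z) * k2 (a • y) (a • z))
      = ENNReal.ofReal ((a^4)⁻¹) * ENNReal.ofReal (k2 x z * k2 y z) := by
    intro z
    rw [← ENNReal.ofReal_mul (by positivity)]
    congr 1
    unfold k2
    rw [← smul_sub, ← smul_sub, norm_smul, norm_smul, Real.norm_eq_abs, abs_of_pos ha]
    field_simp
  simp only [h2] at h1
  rw [lintegral_const_mul' _ _ ENNReal.ofReal_ne_top] at h1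
  have hfr : Module.finrank ℝ E = 3 := by simp
  rw [hfr, abs_of_pos (by positivity : 0 < (a^3)⁻¹)] at h1
  -- multiply by a^3
  have h3 : ENNReal.ofReal (a^3) * (ENNReal.ofReal ((a^3)⁻¹) •
      ∫⁻ z, ENNReal.ofReal (k2 (a • x) z * k2 (a • y) z)) =
      ∫⁻ z, ENNReal.ofReal (k2 (a • x) z * k2 (a • y) z) := by
    rw [smul_eq_mul, ← mul_assoc, ← ENNReal.ofReal_mul (by positivity),
      mul_inv_cancel₀ (by positivity), ENNReal.ofReal_one, one_mul]
  rw [← h3, ← h1, ← mul_assoc, ← ENNReal.ofReal_mul (by positivity)]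
  congr 2
  field_simp

def e0 : E := EuclideanSpace.single 0 1

lemma e0_norm : ‖e0‖ = 1 := by
  unfold e0; simp

lemma exists_rot (z w : E) (h : ‖z‖ = ‖w‖) : ∃ Φ : E ≃ₗᵢ[ℝ] E, Φ z = w := by
  obtain ⟨Φ1, h1⟩ := exists_iso z
  obtain ⟨Φ2, h2⟩ := exists_iso w
  refine ⟨Φ1.trans Φ2.symm, ?_⟩
  simp only [LinearIsometryEquiv.trans_apply]
  rw [h1, h, ← h2, LinearIsometryEquiv.symm_apply_apply]

lemma II_eq {x y : E} (h : x ≠ y) : II x y = ENNReal.ofReal (‖x - y‖⁻¹) * II e0 0 := by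
  have hn : 0 < ‖x - y‖ := norm_pos_iff.2 (sub_ne_zero.2 h)
  have h1 := II_trans x y y
  rw [sub_self] at h1
  have hw : ‖x - y‖ = ‖(‖x - y‖ • e0 : E)‖ := by
    rw [norm_smul, e0_norm, norm_norm, mul_one]
  obtain ⟨Φ, hΦ⟩ := exists_rot _ _ hw
  have h2 := II_rot Φ (x - y) 0
  rw [map_zero, hΦ] at h2
  have h3 := II_scale hn e0 0
  rw [smul_zero] at h3
  rw [← h1, ← h2, h3]

lemma II_finite : II e0 0 ≠ ⊤ := by
  have hb : ∀ z : E, k2 e0 z * k2 0 z ≤
      (closedBall (0:E) 2).indicator (fun z => 4*((‖e0 - z‖^2)⁻¹ + (‖(0:E) - z‖^2)⁻¹)) z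
      + (if 2 ≤ ‖z‖ then 4*(‖z‖^4)⁻¹ else 0) := by
    intro z
    unfold k2
    rw [zero_sub, norm_neg]
    have hn2 : (0:ℝ) ≤ (if 2 ≤ ‖z‖ then 4*(‖z‖^4)⁻¹ else 0) := by
      split_ifs <;> positivity
    by_cases hz : z ∈ closedBall (0:E) 2
    · rw [indicator_of_mem hz, zero_sub, norm_neg]
      have htri : 1 ≤ ‖e0 - z‖ + ‖z‖ := by
        have := norm_add_le (e0 - z) z
        rw [sub_add_cancel, e0_norm] at this
        exact this
      have key : (‖e0 - z‖^2)⁻¹ * (‖z‖^2)⁻¹ ≤ 4*((‖e0 - z‖^2)⁻¹ + (‖z‖^2)⁻¹) := by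
        have p1 : 0 ≤ (‖e0 - z‖^2)⁻¹ := by positivity
        have p2 : 0 ≤ (‖z‖^2)⁻¹ := by positivity
        rcases le_total (1/2) ‖z‖ with h | h
        · have : (‖z‖^2)⁻¹ ≤ 4 := by
            have h1 : (1/4:ℝ) ≤ ‖z‖^2 := by nlinarith
            calc (‖z‖^2)⁻¹ ≤ (1/4:ℝ)⁻¹ := inv_anti₀ (by norm_num) h1
              _ = 4 := by norm_num
          nlinarith
        · have : (‖e0 - z‖^2)⁻¹ ≤ 4 := by
            have h0 : 1/2 ≤ ‖e0 - z‖ := by linarith
            have h1 : (1/4:ℝ) ≤ ‖e0 - z‖^2 := by nlinarith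
            calc (‖e0 - z‖^2)⁻¹ ≤ (1/4:ℝ)⁻¹ := inv_anti₀ (by norm_num) h1
              _ = 4 := by norm_num
          nlinarith
      linarith
    · rw [indicator_of_notMem hz]
      have hz2 : 2 < ‖z‖ := by simpa using hz
      rw [if_pos hz2.le]
      have h1 : ‖z‖/2 ≤ ‖e0 - z‖ := by
        have := norm_sub_norm_le z e0
        rw [e0_norm, norm_sub_rev] at this
        linarith
      have h2 : (‖e0 - z‖^2)⁻¹ ≤ 4 * (‖z‖^2)⁻¹ := by
        have : (‖z‖/2)^2 ≤ ‖e0 - z‖^2 := pow_le_pow_left₀ (by positivity) h1 2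
        have h3 := inv_anti₀ (by positivity) this
        refine h3.trans (le_of_eq ?_)
        have : ‖z‖ ≠ 0 := by linarith
        field_simp
        norm_num
      have h4 : (‖z‖^4)⁻¹ = (‖z‖^2)⁻¹ * (‖z‖^2)⁻¹ := by
        rw [← mul_inv]; congr 1; ring
      rw [h4]
      have p2 : 0 ≤ (‖z‖^2)⁻¹ := by positivity
      nlinarith
  have i1 : Integrable ((closedBall (0:E) 2).indicator
      (fun z : E => 4*((‖e0 - z‖^2)⁻¹ + (‖(0:E) - z‖^2)⁻¹))) := by
    rw [integrable_indicator_iff measurableSet_closedBall]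
    exact ((kint2' e0 _ isBounded_closedBall).add (kint2' 0 _ isBounded_closedBall)).const_mul 4
  have i2 : Integrable (fun z : E => (if 2 ≤ ‖z‖ then 4*(‖z‖^4)⁻¹ else (0:ℝ))) := by
    have := (integrable_fun_norm_addHaar (volume : Measure E)
      (f := fun t : ℝ => if 2 ≤ t then 4*(t^4)⁻¹ else (0:ℝ))).2 ?_
    · exact this
    · have h1 : IntegrableOn (fun t : ℝ => 4 * t^(-2:ℝ)) (Ioi 1) :=
        (integrableOn_Ioi_rpow_of_lt (by norm_num) (by norm_num)).const_mul 4
      have h2 : IntegrableOn (fun t : ℝ => 4 * t^(-2:ℝ)) (Ici 2) :=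
        h1.mono_set (fun t ht => lt_of_lt_of_le (by norm_num : (1:ℝ) < 2) ht)
      have h3 : Integrable ((Ici (2:ℝ)).indicator (fun t : ℝ => 4 * t^(-2:ℝ))) :=
        (integrable_indicator_iff measurableSet_Ici).2 h2
      refine (h3.integrableOn (s := Ioi 0)).congr_fun ?_ measurableSet_Ioi
      intro t ht
      have ht0 : 0 < t := ht
      simp only [finrank_euclideanSpace, Fintype.card_fin, smul_eq_mul, indicator, mem_Ici]
      split_ifs with h
      · have e : t^(-2:ℝ) = (t^2)⁻¹ := by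
          rw [Real.rpow_neg ht0.le]
          congr 1
          exact Real.rpow_natCast t 2
        rw [e]
        field_simp
      · simp
  have i3 := i1.add i2
  have hle : II e0 0 ≤ ∫⁻ z : E, ENNReal.ofReal (((closedBall (0:E) 2).indicator
      (fun z : E => 4*((‖e0 - z‖^2)⁻¹ + (‖(0:E) - z‖^2)⁻¹)) +
      (fun z : E => (if 2 ≤ ‖z‖ then 4*(‖z‖^4)⁻¹ else (0:ℝ)))) z) := by
    unfold II
    apply lintegral_mono
    intro z
    exact ENNReal.ofReal_le_ofReal (hb z)
  have hfin := i3.lintegral_lt_top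
  exact (lt_of_le_of_lt hle hfin).ne

lemma II_ne_zero : II e0 0 ≠ 0 := by
  unfold II
  intro h
  have hm : Measurable (fun z : E => ENNReal.ofReal (k2 e0 z * k2 0 z)) := by
    unfold k2; fun_prop
  rw [lintegral_eq_zero_iff hm] at h
  have hne1 : ∀ᵐ z : E, z ≠ 0 := by simp [ae_iff]
  have hne2 : ∀ᵐ z : E, z ≠ e0 := by simp [ae_iff]
  have hfalse : ∀ᵐ z : E, False := by
    filter_upwards [h, hne1, hne2] with z h1 h2 h3
    simp only [Pi.zero_apply, ENNReal.ofReal_eq_zero] at h1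
    have p1 : 0 < k2 e0 z := by
      unfold k2
      have : 0 < ‖e0 - z‖ := norm_pos_iff.2 (sub_ne_zero.2 (Ne.symm h3))
      positivity
    have p2 : 0 < k2 0 z := by
      unfold k2
      have : 0 < ‖(0:E) - z‖ := norm_pos_iff.2 (sub_ne_zero.2 (Ne.symm h2))
      positivity
    have := mul_pos p1 p2
    linarith
  have := hfalse.exists
  obtain ⟨z, hz⟩ := this
  exact hz

def CC : ℝ := (II e0 0).toReal

lemma CC_pos : 0 < CC := ENNReal.toReal_pos II_ne_zero II_finite

lemma k2_int {x y : E} (h : x ≠ y) : Integrable (fun z => k2 x z * k2 y z) := by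
  have hm : AEStronglyMeasurable (fun z => k2 x z * k2 y z) (volume : Measure E) := by
    have : Measurable (fun z => k2 x z * k2 y z) := by unfold k2; fun_prop
    exact this.aestronglyMeasurable
  refine ⟨hm, ?_⟩
  rw [hasFiniteIntegral_iff_ofReal (Eventually.of_forall fun z =>
    mul_nonneg (k2_nonneg x z) (k2_nonneg y z))]
  have := II_eq h
  unfold II at this
  rw [this]
  exact ENNReal.mul_lt_top ENNReal.ofReal_lt_top (lt_top_iff_ne_top.2 II_finite)

lemma k2_integral {x y : E} (h : x ≠ y) : ∫ z, k2 x z * k2 y z = CC * ‖x - y‖⁻¹ := by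
  rw [integral_eq_lintegral_of_nonneg_ae (Eventually.of_forall fun z =>
    mul_nonneg (k2_nonneg x z) (k2_nonneg y z)) (k2_int h).aestronglyMeasurable]
  have := II_eq h
  unfold II at this
  rw [this, ENNReal.toReal_mul, ENNReal.toReal_ofReal (by positivity)]
  unfold CC II
  ring

end Q86.Shell
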