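import Pool.Agent.Q86.ShellF

/-! Abstract minimization and positivity of the Newton form. -/

set_option autoImplicit false

open MeasureTheory Metric Set Filter Topology

noncomputable section

namespace Q86.Shell

theorem exists_min {H : Type*} [NormedAddCommGroup H] [InnerProductSpace ℝ H] [CompleteSpace H]
    (K : Set H) (hcl : IsClosed K) (hne : K.Nonempty)
    {M : ℝ} (hb : ∀ f ∈ K, ‖f‖ ≤ M) (J : H → ℝ) (hJ : ContinuousOn J K) (hJc : ConvexOn ℝ K J)
    {m0 : ℝ} (hm : ∀ f ∈ K, m0 ≤ J f) : ∃ f ∈ K, ∀ g ∈ K, J f ≤ J g := by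
  set m := sInf (J '' K) with hmdef
  have hbdd : BddBelow (J '' K) := ⟨m0, by rintro _ ⟨f, hf, rfl⟩; exact hm f hf⟩
  have hmle : ∀ f ∈ K, m ≤ J f := fun f hf => csInf_le hbdd ⟨f, hf, rfl⟩
  set Kn : ℕ → Set H := fun n => {f | f ∈ K ∧ J f ≤ m + 1/((n:ℝ)+1)} with hKn
  have hKn_cl : ∀ n, IsClosed (Kn n) := by
    intro n
    have := hJ.preimage_isClosed_of_isClosed hcl (isClosed_Iic (a := m + 1/((n:ℝ)+1)))
    exact this
  have hKn_ne : ∀ n, (Kn n).Nonempty := by
    intro n
    have h1 : m < m + 1/((n:ℝ)+1) := by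
      have : (0:ℝ) < 1/((n:ℝ)+1) := by positivity
      linarith
    obtain ⟨_, ⟨f, hf, rfl⟩, hlt⟩ := exists_lt_of_csInf_lt (hne.image J) h1
    exact ⟨f, hf, hlt.le⟩
  have hKn_conv : ∀ n, Convex ℝ (Kn n) := fun n => hJc.convex_le _
  have hKn_mono : ∀ n k, n ≤ k → Kn k ⊆ Kn n := by
    intro n k hnk f hf
    refine ⟨hf.1, hf.2.trans ?_⟩
    have : (1:ℝ)/((k:ℝ)+1) ≤ 1/((n:ℝ)+1) := by
      apply one_div_le_one_div_of_le (by positivity)
      have : (n:ℝ) ≤ k := by exact_mod_cast hnk
      linarith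
    linarith
  have hex : ∀ n, ∃ v ∈ Kn n, ∀ w ∈ Kn n, 0 ≤ (inner ℝ v (w - v) : ℝ) := by
    intro n
    obtain ⟨v, hv, hvm⟩ := exists_norm_eq_iInf_of_complete_convex (hKn_ne n)
      (hKn_cl n).isComplete (hKn_conv n) (0:H)
    refine ⟨v, hv, fun w hw => ?_⟩
    have := (norm_eq_iInf_iff_real_inner_le_zero (hKn_conv n) hv).1 hvm w hw
    rw [zero_sub, inner_neg_left] at this
    linarith
  choose v hv hvi using hex
  have hdist : ∀ n k, n ≤ k → ‖v k - v n‖^2 ≤ ‖v k‖^2 - ‖v n‖^2 := by
    intro n k hnk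
    have h1 := hvi n (v k) (hKn_mono n k hnk (hv k))
    have h2 : ‖v k‖^2 = ‖v n‖^2 + 2 * (inner ℝ (v n) (v k - v n) : ℝ) + ‖v k - v n‖^2 := by
      have := norm_add_sq_real (v n) (v k - v n)
      rw [add_sub_cancel] at this
      exact this
    linarith
  have hmono : Monotone (fun n => ‖v n‖^2) := by
    intro n k hnk
    have := hdist n k hnk
    have h2 := sq_nonneg ‖v k - v n‖
    show ‖v n‖^2 ≤ ‖v k‖^2
    linarith
  have hbd : BddAbove (range (fun n => ‖v n‖^2)) := by
    refine ⟨M^2, ?_⟩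
    rintro _ ⟨n, rfl⟩
    exact pow_le_pow_left₀ (norm_nonneg _) (hb _ (hv n).1) 2
  have hlim := tendsto_atTop_ciSup hmono hbd
  set L := ⨆ n, ‖v n‖^2
  have hle : ∀ n, ‖v n‖^2 ≤ L := fun n => le_ciSup hbd n
  have hcau : CauchySeq v := by
    rw [Metric.cauchySeq_iff']
    intro ε hε
    have hev : ∀ᶠ n in atTop, L - ε^2 < ‖v n‖^2 :=
      hlim.eventually (lt_mem_nhds (by nlinarith))
    obtain ⟨N, hN⟩ := hev.exists
    refine ⟨N, fun n hn => ?_⟩
    rw [dist_eq_norm]
    have h1 := hdist N n hn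
    have h2 := hle n
    have h3 : ‖v n - v N‖^2 < ε^2 := by linarith
    exact lt_of_pow_lt_pow_left₀ 2 hε.le h3
  obtain ⟨f, hf⟩ := cauchySeq_tendsto_of_complete hcau
  have hfK : f ∈ K := hcl.mem_of_tendsto hf (Eventually.of_forall fun n => (hv n).1)
  refine ⟨f, hfK, fun g hg => ?_⟩
  have h1 : Tendsto (fun n => J (v n)) atTop (𝓝 (J f)) := by
    have := (hJ f hfK)
    exact this.tendsto.comp (tendsto_nhdsWithin_iff.2 ⟨hf, Eventually.of_forall fun n => (hv n).1⟩)
  have h2 : Tendsto (fun n : ℕ => m + 1/((n:ℝ)+1)) atTop (𝓝 (m + 0)) :=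
    tendsto_const_nhds.add tendsto_one_div_add_atTop_nhds_zero_nat
  have h3 := le_of_tendsto_of_tendsto h1 h2 (Eventually.of_forall fun n => (hv n).2)
  have := hmle g hg
  linarith

/-- a bounded measurable function with support in the big ball -/
structure Bd (h : E → ℝ) : Prop where
  meas : Measurable h
  adm : Adm (fun x => |h x|) 300

lemma Bd.integrable_mul {h : E → ℝ} (hh : Bd h) {g : E → ℝ} (hm : Measurable g)
    (hg : IntegrableOn g (closedBall 0 300)) : Integrable (fun y => h y * g y) := by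
  have h1 := hh.adm.integrable_mul hm hg
  refine h1.mono (hh.meas.mul hm).aestronglyMeasurable (Eventually.of_forall fun y => ?_)
  rw [Real.norm_eq_abs, Real.norm_eq_abs, abs_mul, abs_mul, abs_abs]

lemma Bd.integrable_cont {h : E → ℝ} (hh : Bd h) {g : E → ℝ} (hg : Continuous g) :
    Integrable (fun y => h y * g y) :=
  hh.integrable_mul hg.measurable
    (hg.continuousOn.integrableOn_compact (isCompact_closedBall _ _))

lemma ne_ae : ∀ᵐ p : E × E, p.1 ≠ p.2 := by
  have hm : MeasurableSet {p : E × E | p.1 ≠ p.2} := by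
    have : IsOpen {p : E × E | p.1 ≠ p.2} := isOpen_ne_fun continuous_fst continuous_snd
    exact this.measurableSet
  have := (Measure.ae_prod_mem_iff_ae_ae_mem (μ := (volume : Measure E))
    (ν := (volume : Measure E)) hm).2 ?_
  · exact this
  · refine Eventually.of_forall fun x => ?_
    have : ∀ᵐ y : E, y ≠ x := by simp [ae_iff]
    filter_upwards [this] with y hy
    exact Ne.symm hy

lemma prod_int {h g : E → ℝ} (hh : Bd h) (hg : Bd g) :
    Integrable (fun p : E × E => h p.1 * g p.2 * ‖p.1 - p.2‖⁻¹) := by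
  have hm : Measurable (fun p : E × E => h p.1 * g p.2 * ‖p.1 - p.2‖⁻¹) := by
    have := hh.meas
    have := hg.meas
    fun_prop
  rw [Measure.volume_eq_prod, integrable_prod_iff hm.aestronglyMeasurable]
  constructor
  · refine Eventually.of_forall fun x => ?_
    have := (hg.integrable_mul (ker_meas x) (kint x _ isBounded_closedBall)).const_mul (h x)
    refine this.congr (Eventually.of_forall fun y => ?_)
    simp only; ring
  · have e : (fun x : E => ∫ y, ‖h x * g y * ‖x - y‖⁻¹‖) = fun x => |h x| * V (fun y => |g y|) x := by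
      ext x
      unfold V
      rw [← integral_const_mul]
      congr 1
      ext y
      rw [Real.norm_eq_abs, abs_mul, abs_mul, abs_of_nonneg (inv_nonneg.2 (norm_nonneg (x - y)))]
      ring
    show Integrable (fun x : E => ∫ y, ‖h x * g y * ‖x - y‖⁻¹‖) volume
    rw [e]
    exact hh.adm.integrable_mul (V_cont hg.adm).measurable
      ((V_cont hg.adm).continuousOn.integrableOn_compact (isCompact_closedBall _ _))

lemma int_V_eq {h g : E → ℝ} (hh : Bd h) (hg : Bd g) :
    ∫ x, h x * V g x = ∫ p : E × E, h p.1 * g p.2 * ‖p.1 - p.2‖⁻¹ := by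
  have := prod_int hh hg
  rw [Measure.volume_eq_prod] at this ⊢
  rw [integral_prod _ this]
  congr 1
  ext x
  unfold V
  rw [← integral_const_mul]
  congr 1
  ext y
  simp only; ring

lemma V_symm {h g : E → ℝ} (hh : Bd h) (hg : Bd g) :
    ∫ x, h x * V g x = ∫ x, g x * V h x := by
  rw [int_V_eq hh hg, int_V_eq hg hh]
  have := integral_prod_swap (μ := (volume : Measure E)) (ν := (volume : Measure E))
    (fun p : E × E => g p.1 * h p.2 * ‖p.1 - p.2‖⁻¹)
  rw [Measure.volume_eq_prod, ← this]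
  congr 1
  ext p
  simp only [Prod.fst_swap, Prod.snd_swap]
  rw [norm_sub_rev]
  ring

theorem V_pos {h : E → ℝ} (hh : Bd h) : 0 ≤ ∫ x, h x * V h x := by
  rw [int_V_eq hh hh]
  have hG := prod_int hh hh
  set F : (E × E) × E → ℝ := fun q => h q.1.1 * h q.1.2 * (k2 q.1.1 q.2 * k2 q.1.2 q.2) with hF
  have hFm : Measurable F := by
    have := hh.meas
    simp only [hF, k2]
    fun_prop
  have hFi : Integrable F ((volume : Measure (E × E)).prod (volume : Measure E)) := by
    rw [integrable_prod_iff hFm.aestronglyMeasurable]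
    constructor
    · filter_upwards [ne_ae] with p hp
      exact (k2_int hp).const_mul (h p.1 * h p.2)
    · have hG' := (hG.norm).const_mul CC
      refine hG'.congr ?_
      filter_upwards [ne_ae] with p hp
      simp only [hF]
      have : ∀ z, ‖h p.1 * h p.2 * (k2 p.1 z * k2 p.2 z)‖ = |h p.1 * h p.2| * (k2 p.1 z * k2 p.2 z) := by
        intro z
        rw [Real.norm_eq_abs, abs_mul, abs_of_nonneg (mul_nonneg (k2_nonneg _ _) (k2_nonneg _ _))]
      simp only [this]
      rw [integral_const_mul, k2_integral hp, Real.norm_eq_abs, abs_mul (h p.1 * h p.2),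
        abs_of_nonneg (inv_nonneg.2 (norm_nonneg _))]
      ring
  have e1 : ∫ p : E × E, ∫ z : E, F (p, z) = CC * ∫ p : E × E, h p.1 * h p.2 * ‖p.1 - p.2‖⁻¹ := by
    rw [← integral_const_mul]
    apply integral_congr_ae
    filter_upwards [ne_ae] with p hp
    simp only [hF]
    rw [integral_const_mul, k2_integral hp]
    ring
  have e2 := integral_integral_swap (μ := (volume : Measure (E × E))) (ν := (volume : Measure E))
    (f := fun p z => F (p, z)) hFi
  have e3 : 0 ≤ ∫ z : E, ∫ p : E × E, F (p, z) := by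
    apply integral_nonneg
    intro z
    show 0 ≤ ∫ p : E × E, F (p, z)
    have e4 : ∫ p : E × E, F (p, z) = (∫ x : E, h x * k2 x z) * ∫ x : E, h x * k2 x z := by
      rw [← integral_prod_mul, Measure.volume_eq_prod]
      congr 1
      ext p
      simp only [hF]
      ring
    rw [e4]
    exact mul_self_nonneg _
  rw [← e2, e1] at e3
  exact nonneg_of_mul_nonneg_right e3 CC_pos

end Q86.Shell
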