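import Pool.Agent.Q86.ShellE
import Pool.Agent.Q86.ShellG

/-! Existence of the equilibrium density by convex minimization. -/

set_option autoImplicit false

open MeasureTheory Metric Set Filter Topology

noncomputable section

namespace Q86.Shell

lemma Adm.bd {ρ : E → ℝ} (h : Adm ρ 300) : Bd ρ := by
  refine ⟨h.meas, ?_⟩
  have : (fun x => |ρ x|) = ρ := by
    ext x; exact abs_of_nonneg (h.nonneg x)
  rw [this]; exact h

lemma Adm.sub_bd {ρ σ : E → ℝ} (h : Adm ρ 300) (h' : Adm σ 300) : Bd (fun x => σ x - ρ x) := by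
  refine ⟨h'.meas.sub h.meas, ?_, ?_, ?_, ?_⟩
  · have := (h'.meas.sub h.meas)
    exact measurable_norm.comp this
  · intro y; positivity
  · intro y
    rw [abs_le]
    constructor
    · linarith [h'.nonneg y, h.le_one y]
    · linarith [h.nonneg y, h'.le_one y]
  · intro y hy
    simp [h.supp y hy, h'.supp y hy]

lemma int_hV {h g : E → ℝ} (hh : Bd h) (hg : Bd g) : Integrable (fun x => h x * V g x) := by
  have := prod_int hh hg
  rw [Measure.volume_eq_prod] at this
  have h2 := this.integral_prod_left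
  refine h2.congr (Eventually.of_forall fun x => ?_)
  simp only
  unfold V
  rw [← integral_const_mul]
  congr 1
  ext y
  ring

def JJ (c : ℝ) (ρ : E → ℝ) : ℝ := (∫ x, ρ x * V ρ x)/2 - ∫ x, ρ x * Q c x

lemma V_lin {ρ h : E → ℝ} (hρ : Bd ρ) (hh : Bd h) (t : ℝ) (x : E) :
    V (fun y => ρ y + t * h y) x = V ρ x + t * V h x := by
  unfold V
  rw [← integral_const_mul, ← integral_add]
  · congr 1
    ext y
    ring
  · exact hρ.integrable_mul (ker_meas x) (kint x _ isBounded_closedBall)
  · exact (hh.integrable_mul (ker_meas x) (kint x _ isBounded_closedBall)).const_mul _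

lemma expand (c : ℝ) {ρ h : E → ℝ} (hρ : Bd ρ) (hh : Bd h) (t : ℝ) :
    JJ c (fun y => ρ y + t * h y)
      = JJ c ρ + t * ((∫ x, h x * V ρ x) - ∫ x, h x * Q c x) + t^2/2 * ∫ x, h x * V h x := by
  unfold JJ
  have e1 : ∫ x, (ρ x + t * h x) * V (fun y => ρ y + t * h y) x
      = (∫ x, ρ x * V ρ x) + t * (∫ x, ρ x * V h x) + t * (∫ x, h x * V ρ x)
        + t^2 * ∫ x, h x * V h x := by
    simp only [V_lin hρ hh t]
    have j1 := int_hV hρ hρ
    have j2 := (int_hV hρ hh).const_mul t
    have j3 := (int_hV hh hρ).const_mul t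
    have j4 := (int_hV hh hh).const_mul (t^2)
    have j12 : Integrable (fun x => ρ x * V ρ x + t * (ρ x * V h x)) := j1.add j2
    have j123 : Integrable (fun x => ρ x * V ρ x + t * (ρ x * V h x) + t * (h x * V ρ x)) :=
      j12.add j3
    rw [← integral_const_mul, ← integral_const_mul, ← integral_const_mul,
      ← integral_add j1 j2, ← integral_add j12 j3, ← integral_add j123 j4]
    congr 1
    ext x
    ring
  have e2 : ∫ x, (ρ x + t * h x) * Q c x = (∫ x, ρ x * Q c x) + t * ∫ x, h x * Q c x := by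
    rw [← integral_const_mul, ← integral_add (hρ.integrable_cont (Q_cont c))
      ((hh.integrable_cont (Q_cont c)).const_mul t)]
    congr 1
    ext x
    ring
  rw [e1, e2, V_symm hρ hh]
  ring

lemma JJ_congr (c : ℝ) {ρ σ : E → ℝ} (h : ρ =ᵐ[volume] σ) : JJ c ρ = JJ c σ := by
  have hV : ∀ x, V ρ x = V σ x := by
    intro x
    unfold V
    apply integral_congr_ae
    filter_upwards [h] with y hy
    rw [hy]
  unfold JJ
  congr 1
  · congr 1
    apply integral_congr_ae
    filter_upwards [h] with y hy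
    rw [hy, hV]
  · apply integral_congr_ae
    filter_upwards [h] with y hy
    rw [hy]

def mu0 : Measure E := volume.restrict (closedBall (0:E) 300)

instance : IsFiniteMeasure mu0 := by
  unfold mu0
  constructor
  rw [Measure.restrict_apply_univ]
  exact measure_closedBall_lt_top

abbrev HH := Lp ℝ 2 mu0

def rep (f : HH) : E → ℝ := (closedBall (0:E) 300).indicator (fun x => max 0 (min 1 (f x)))

lemma rep_adm (f : HH) : Adm (rep f) 300 where
  meas := by
    unfold rep
    apply Measurable.indicator _ measurableSet_closedBall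
    have := (Lp.stronglyMeasurable f).measurable
    exact measurable_const.max (measurable_const.min this)
  nonneg := fun y => indicator_nonneg (fun _ _ => le_max_left _ _) y
  le_one := fun y => by
    unfold rep
    by_cases h : y ∈ closedBall (0:E) 300
    · rw [indicator_of_mem h]; exact max_le zero_le_one (min_le_left _ _)
    · rw [indicator_of_notMem h]; exact zero_le_one
  supp := fun y hy => by
    unfold rep
    rw [indicator_of_notMem (by simpa using hy)]

def KK : Set HH := {f | ∀ᵐ x ∂mu0, 0 ≤ f x ∧ f x ≤ 1}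

lemma ae_mu0 {p : E → Prop} (h : ∀ᵐ x ∂mu0, p x) (h' : ∀ x : E, 300 < ‖x‖ → p x) :
    ∀ᵐ x : E, p x := by
  unfold mu0 at h
  rw [ae_restrict_iff' measurableSet_closedBall] at h
  filter_upwards [h] with x hx
  by_cases hx' : x ∈ closedBall (0:E) 300
  · exact hx hx'
  · exact h' x (by simpa using hx')

lemma rep_ae {f : HH} (hf : f ∈ KK) : ∀ᵐ x ∂mu0, rep f x = f x := by
  have h1 : ∀ᵐ x ∂mu0, x ∈ closedBall (0:E) 300 := by
    unfold mu0
    exact ae_restrict_mem measurableSet_closedBall
  filter_upwards [hf, h1] with x hx hx1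
  unfold rep
  rw [indicator_of_mem hx1, min_eq_right hx.2, max_eq_right hx.1]

lemma mem_of_adm {σ : E → ℝ} (h : Adm σ 300) : MemLp σ 2 mu0 :=
  MemLp.of_bound h.meas.aestronglyMeasurable 1 (Eventually.of_forall fun y => by
    rw [Real.norm_eq_abs, abs_of_nonneg (h.nonneg y)]; exact h.le_one y)

lemma mk_mem {σ : E → ℝ} (h : Adm σ 300) : (mem_of_adm h).toLp σ ∈ KK := by
  filter_upwards [(mem_of_adm h).coeFn_toLp] with x hx
  rw [hx]
  exact ⟨h.nonneg x, h.le_one x⟩

lemma rep_mk {σ : E → ℝ} (h : Adm σ 300) : rep ((mem_of_adm h).toLp σ) =ᵐ[volume] σ := by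
  apply ae_mu0
  · filter_upwards [rep_ae (mk_mem h), (mem_of_adm h).coeFn_toLp] with x h1 h2
    rw [h1, h2]
  · intro x hx
    rw [h.supp x hx, (rep_adm _).supp x hx]

lemma rep_comb {f g : HH} (hf : f ∈ KK) (hg : g ∈ KK) {a b : ℝ} (ha : 0 ≤ a) (hb : 0 ≤ b)
    (hab : a + b = 1) : a • f + b • g ∈ KK ∧
      rep (a • f + b • g) =ᵐ[volume] fun x => rep f x + b * (rep g x - rep f x) := by
  have hval : ∀ᵐ x ∂mu0, (a • f + b • g : HH) x = a * f x + b * g x := by
    filter_upwards [Lp.coeFn_add (a • f) (b • g), Lp.coeFn_smul a f, Lp.coeFn_smul b g]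
      with x h1 h2 h3
    rw [h1, Pi.add_apply, h2, h3]
    rfl
  have hmem : a • f + b • g ∈ KK := by
    show ∀ᵐ x ∂mu0, 0 ≤ (a • f + b • g : HH) x ∧ (a • f + b • g : HH) x ≤ 1
    filter_upwards [hval, hf, hg] with x h1 h2 h3
    rw [h1]
    constructor
    · have := mul_nonneg ha h2.1
      have := mul_nonneg hb h3.1
      linarith
    · have := mul_le_mul_of_nonneg_left h2.2 ha
      have := mul_le_mul_of_nonneg_left h3.2 hb
      linarith
  refine ⟨hmem, ?_⟩
  apply ae_mu0
  · filter_upwards [hval, rep_ae hmem, rep_ae hf, rep_ae hg] with x h1 h2 h3 h4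
    rw [h2, h1, h3, h4]
    have : a = 1 - b := by linarith
    rw [this]; ring
  · intro x hx
    simp [(rep_adm _).supp x hx]

lemma KK_closed : IsClosed KK := by
  have h1 : KK = Icc (0:HH) ((mem_of_adm (one_adm 300)).toLp (one 300)) := by
    ext f
    have hc : ∀ᵐ x ∂mu0, x ∈ closedBall (0:E) 300 := by
      unfold mu0
      exact ae_restrict_mem measurableSet_closedBall
    constructor
    · intro hf
      refine ⟨?_, ?_⟩
      · rw [← Lp.coeFn_le]
        filter_upwards [hf, Lp.coeFn_zero ℝ 2 mu0] with x hx h0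
        rw [h0]; exact hx.1
      · rw [← Lp.coeFn_le]
        filter_upwards [hf, (mem_of_adm (one_adm 300)).coeFn_toLp, hc] with x hx h0 hxc
        rw [h0, one_in (by simpa using hxc)]; exact hx.2
    · rintro ⟨h1, h2⟩
      rw [← Lp.coeFn_le] at h1 h2
      filter_upwards [h1, h2, Lp.coeFn_zero ℝ 2 mu0,
        (mem_of_adm (one_adm 300)).coeFn_toLp, hc] with x a1 a2 a3 a4 a5
      rw [a3] at a1
      rw [a4, one_in (by simpa using a5)] at a2
      exact ⟨a1, a2⟩
  rw [h1]
  exact isClosed_Icc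

def MM : ℝ := (measureUnivNNReal mu0 : ℝ) ^ ((2:ENNReal).toReal⁻¹)

lemma MM_nonneg : 0 ≤ MM := by unfold MM; positivity

lemma norm_bd {u : HH} {C : ℝ} (hC : 0 ≤ C) (h : ∀ᵐ x ∂mu0, ‖u x‖ ≤ C) : ‖u‖ ≤ MM * C := by
  have := Lp.norm_le_of_ae_bound hC h
  unfold MM
  exact_mod_cast this

lemma KK_bd {f : HH} (hf : f ∈ KK) : ‖f‖ ≤ MM * 1 := by
  apply norm_bd zero_le_one
  filter_upwards [hf] with x hx
  rw [Real.norm_eq_abs, abs_of_nonneg hx.1]; exact hx.2

/-- Lipschitz bound -/
lemma J_lip (c : ℝ) : ∃ C : ℝ, 0 ≤ C ∧ ∀ f ∈ KK, ∀ g ∈ KK,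
    |JJ c (rep g) - JJ c (rep f)| ≤ C * ‖g - f‖ := by
  obtain ⟨MQ, hMQ⟩ := (isCompact_closedBall (0:E) 300).exists_bound_of_continuousOn
    (Q_cont c).continuousOn
  set W : ℝ := 2*Real.pi*300^2 + |MQ| + 2*Real.pi*300^2 with hW
  have hpi := Real.pi_pos
  have hW0 : 0 ≤ W := by positivity
  refine ⟨MM * W, mul_nonneg MM_nonneg hW0, ?_⟩
  intro f hf g hg
  set ρ := rep f with hρ
  set σ := rep g with hσ
  have aρ : Adm ρ 300 := rep_adm f
  have aσ : Adm σ 300 := rep_adm g
  have bh := aρ.sub_bd aσ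
  have ex := expand c aρ.bd bh 1
  have e0 : (fun y => ρ y + 1 * (σ y - ρ y)) = σ := by ext y; ring
  rw [e0] at ex
  set w : E → ℝ := fun x => V ρ x - Q c x + 1/2 * V (fun x => σ x - ρ x) x with hw
  have hVh : ∀ x, V (fun x => σ x - ρ x) x = V σ x - V ρ x := by
    intro x
    have := V_lin aσ.bd aρ.bd (-1) x
    have e : (fun y => σ y + -1 * ρ y) = fun y => σ y - ρ y := by ext y; ring
    rw [e] at this
    rw [this]; ring
  have hwc : Continuous w := by
    have : w = fun x => V ρ x - Q c x + 1/2 * (V σ x - V ρ x) := by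
      ext x; rw [hw]; simp only [hVh]
    rw [this]
    have := V_cont aρ
    have := V_cont aσ
    have := Q_cont c
    fun_prop
  have e1 : JJ c σ - JJ c ρ = ∫ x, (σ x - ρ x) * w x := by
    have i1 := int_hV bh aρ.bd
    have i2 := bh.integrable_cont (Q_cont c)
    have i3 := (int_hV bh bh).const_mul (1/2)
    have : ∫ x, (σ x - ρ x) * w x = (∫ x, (σ x - ρ x) * V ρ x) - (∫ x, (σ x - ρ x) * Q c x)
        + 1/2 * ∫ x, (σ x - ρ x) * V (fun x => σ x - ρ x) x := by
      have i12 : Integrable (fun x => (σ x - ρ x) * V ρ x - (σ x - ρ x) * Q c x) := i1.sub i2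
      rw [← integral_const_mul, ← integral_sub i1 i2, ← integral_add i12 i3]
      congr 1
      ext x
      rw [hw]
      simp only
      ring
    rw [this, ex]
    ring
  have hwb : ∀ x ∈ closedBall (0:E) 300, |w x| ≤ W := by
    intro x hx
    rw [hw]
    simp only
    have h1 : |Q c x| ≤ |MQ| := (hMQ x hx).trans (le_abs_self _)
    have h2 := V_nonneg aρ x
    have h3 := V_nonneg aσ x
    have h4 := (V_le_P aρ x).trans (P_le (by norm_num) x)
    have h5 := (V_le_P aσ x).trans (P_le (by norm_num) x)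
    rw [hVh, abs_le]
    have h6 := abs_le.1 h1
    constructor <;> nlinarith
  have hwm : MemLp w 2 mu0 := by
    apply MemLp.of_bound hwc.measurable.aestronglyMeasurable W
    unfold mu0
    filter_upwards [ae_restrict_mem measurableSet_closedBall] with x hx
    exact hwb x hx
  have e2 : ∫ x, (σ x - ρ x) * w x = inner ℝ (hwm.toLp w) (g - f) := by
    rw [L2.inner_def]
    have e3 : ∫ x, (σ x - ρ x) * w x = ∫ x, (σ x - ρ x) * w x ∂mu0 := by
      unfold mu0
      rw [← integral_indicator measurableSet_closedBall]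
      congr 1
      ext x
      by_cases hx : x ∈ closedBall (0:E) 300
      · rw [indicator_of_mem hx]
      · rw [indicator_of_notMem hx, aρ.supp x (by simpa using hx), aσ.supp x (by simpa using hx)]
        ring
    rw [e3]
    apply integral_congr_ae
    filter_upwards [rep_ae hf, rep_ae hg, Lp.coeFn_sub g f, hwm.coeFn_toLp] with x h1 h2 h3 h4
    rw [h3, h4, Pi.sub_apply, hρ, hσ, h1, h2]
    simp [mul_comm]
  rw [e1, e2]
  refine (abs_real_inner_le_norm _ _).trans ?_
  apply mul_le_mul_of_nonneg_right _ (norm_nonneg _)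
  apply norm_bd hW0
  filter_upwards [hwm.coeFn_toLp, (by unfold mu0; exact ae_restrict_mem measurableSet_closedBall :
    ∀ᵐ x ∂mu0, x ∈ closedBall (0:E) 300)] with x h1 h2
  rw [h1]
  exact hwb x h2

theorem exists_minimizer (c : ℝ) : ∃ ρ : E → ℝ, Adm ρ 300 ∧
    ∀ σ, Adm σ 300 → 0 ≤ (∫ x, (σ x - ρ x) * V ρ x) - ∫ x, (σ x - ρ x) * Q c x := by
  obtain ⟨C, hC0, hC⟩ := J_lip c
  have hne : KK.Nonempty := ⟨_, mk_mem (one_adm 300)⟩
  have hcont : ContinuousOn (fun f : HH => JJ c (rep f)) KK := by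
    have : LipschitzOnWith ⟨C, hC0⟩ (fun f : HH => JJ c (rep f)) KK := by
      apply LipschitzOnWith.of_dist_le_mul
      intro f hf g hg
      rw [Real.dist_eq, dist_eq_norm]
      exact hC g hg f hf
    exact this.continuousOn
  have hconv : ConvexOn ℝ KK (fun f : HH => JJ c (rep f)) := by
    refine ⟨fun f hf g hg a b ha hb hab => (rep_comb hf hg ha hb hab).1, ?_⟩
    intro f hf g hg a b ha hb hab
    have h1 := JJ_congr c (rep_comb hf hg ha hb hab).2
    simp only
    rw [h1]
    have bh := (rep_adm f).sub_bd (rep_adm g)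
    have e1 := expand c (rep_adm f).bd bh b
    have e2 := expand c (rep_adm f).bd bh 1
    have e0 : (fun y => rep f y + 1 * (rep g y - rep f y)) = rep g := by ext y; ring
    rw [e0] at e2
    have hp := V_pos bh
    rw [e1, e2]
    have ha' : a = 1 - b := by linarith
    subst ha'
    simp only [smul_eq_mul]
    have : 0 ≤ (b - b^2) * ∫ x, (rep g x - rep f x) * V (fun x => rep g x - rep f x) x := by
      apply mul_nonneg _ hp
      nlinarith
    nlinarith
  obtain ⟨f0, hf0⟩ := hne
  obtain ⟨f, hf, hmin⟩ := exists_min KK KK_closed ⟨f0, hf0⟩ (fun f hf => KK_bd hf)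
    (fun f : HH => JJ c (rep f)) hcont hconv (m0 := JJ c (rep f0) - C * (MM * 1 + MM * 1)) (by
      intro g hg
      have h1 := hC f0 hf0 g hg
      have h2 : ‖g - f0‖ ≤ MM * 1 + MM * 1 := (norm_sub_le _ _).trans (add_le_add (KK_bd hg) (KK_bd hf0))
      have h3 := mul_le_mul_of_nonneg_left h2 hC0
      have h4 := abs_le.1 h1
      linarith)
  refine ⟨rep f, rep_adm f, fun σ hσ => ?_⟩
  have bh := (rep_adm f).sub_bd hσ
  set D := (∫ x, (σ x - rep f x) * V (rep f) x) - ∫ x, (σ x - rep f x) * Q c x with hD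
  set B := ∫ x, (σ x - rep f x) * V (fun x => σ x - rep f x) x with hB
  have key : ∀ t : ℝ, 0 < t → t ≤ 1 → 0 ≤ D + t/2 * B := by
    intro t ht ht1
    obtain ⟨m1, m2⟩ := rep_comb hf (mk_mem hσ) (by linarith : 0 ≤ 1 - t) ht.le (by ring)
    have h1 := hmin _ m1
    simp only at h1
    rw [JJ_congr c m2] at h1
    have h2 : (fun x => rep f x + t * (rep ((mem_of_adm hσ).toLp σ) x - rep f x))
        =ᵐ[volume] fun x => rep f x + t * (σ x - rep f x) := by
      filter_upwards [rep_mk hσ] with x hx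
      rw [hx]
    rw [JJ_congr c h2, expand c (rep_adm f).bd bh t] at h1
    have h3 : 0 ≤ t * (D + t/2 * B) := by
      rw [hD, hB]
      nlinarith
    exact nonneg_of_mul_nonneg_right h3 ht
  by_contra hneg
  push Not at hneg
  have hBp : 0 ≤ B := V_pos bh
  have h1 := key (min 1 (-D/(B+1))) (lt_min one_pos (div_pos (by linarith) (by linarith)))
    (min_le_left _ _)
  have h2 : min 1 (-D/(B+1)) * B ≤ -D := by
    calc min 1 (-D/(B+1)) * B ≤ (-D/(B+1)) * B :=
          mul_le_mul_of_nonneg_right (min_le_right _ _) hBp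
      _ ≤ (-D/(B+1)) * (B+1) :=
          mul_le_mul_of_nonneg_left (by linarith) (div_nonneg (by linarith) (by linarith))
      _ = -D := by field_simp
  nlinarith

theorem exists_EL (c : ℝ) : ∃ ρ : E → ℝ, EL c ρ := by
  obtain ⟨ρ, hρ, hmin⟩ := exists_minimizer c
  refine ⟨ρ, ?_⟩
  have hVc := V_cont hρ
  have hQc := Q_cont c
  set σ : E → ℝ := fun y => if ‖y‖ ≤ 300 then (if V ρ y < Q c y then 1 else
    if Q c y < V ρ y then 0 else ρ y) else 0 with hσ
  have aσ : Adm σ 300 := by
    constructor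
    · have h1 : MeasurableSet {y : E | ‖y‖ ≤ 300} := measurableSet_le measurable_norm measurable_const
      have h2 : MeasurableSet {y : E | V ρ y < Q c y} :=
        measurableSet_lt hVc.measurable hQc.measurable
      have h3 : MeasurableSet {y : E | Q c y < V ρ y} :=
        measurableSet_lt hQc.measurable hVc.measurable
      exact Measurable.ite h1 (Measurable.ite h2 measurable_const
        (Measurable.ite h3 measurable_const hρ.meas)) measurable_const
    · intro y
      simp only [hσ]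
      split_ifs <;> first | exact hρ.nonneg y | norm_num
    · intro y
      simp only [hσ]
      split_ifs <;> first | exact hρ.le_one y | norm_num
    · intro y hy
      simp only [hσ]
      rw [if_neg (by linarith)]
  have hm := hmin σ aσ
  have bh := hρ.sub_bd aσ
  have i1 := int_hV bh hρ.bd
  have i2 := bh.integrable_cont (Q_cont c)
  rw [← integral_sub i1 i2] at hm
  have hpt : ∀ y, (σ y - ρ y) * V ρ y - (σ y - ρ y) * Q c y ≤ 0 := by
    intro y
    have e : (σ y - ρ y) * V ρ y - (σ y - ρ y) * Q c y = (σ y - ρ y) * (V ρ y - Q c y) := by ring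
    rw [e]
    simp only [hσ]
    have h1 := hρ.nonneg y
    have h2 := hρ.le_one y
    split_ifs with a1 a2 a3
    · exact mul_nonpos_of_nonneg_of_nonpos (by linarith) (by linarith)
    · exact mul_nonpos_of_nonpos_of_nonneg (by linarith) (by linarith)
    · simp
    · rw [hρ.supp y (by linarith)]; simp
  have hz : ∫ y, -((σ y - ρ y) * V ρ y - (σ y - ρ y) * Q c y) = 0 := by
    rw [integral_neg]
    have : ∫ y, ((σ y - ρ y) * V ρ y - (σ y - ρ y) * Q c y) ≤ 0 :=
      integral_nonpos hpt
    linarith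
  have i3 : Integrable (fun y => -((σ y - ρ y) * V ρ y - (σ y - ρ y) * Q c y)) :=
    (i1.sub i2).neg
  have hnn : ∀ y, 0 ≤ -((σ y - ρ y) * V ρ y - (σ y - ρ y) * Q c y) := fun y => by
    linarith [hpt y]
  have hae := (integral_eq_zero_iff_of_nonneg
    (f := fun y => -((σ y - ρ y) * V ρ y - (σ y - ρ y) * Q c y)) hnn i3).1 hz
  refine ⟨hρ, ?_, ?_⟩
  · filter_upwards [hae] with y hy hn hlt
    simp only [Pi.zero_apply] at hy
    have e : (σ y - ρ y) * (V ρ y - Q c y) = 0 := by linarith
    rcases mul_eq_zero.1 e with h | h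
    · simp only [hσ] at h
      rw [if_pos hn.le, if_pos hlt] at h
      linarith
    · linarith
  · filter_upwards [hae] with y hy hn hlt
    simp only [Pi.zero_apply] at hy
    have e : (σ y - ρ y) * (V ρ y - Q c y) = 0 := by linarith
    rcases mul_eq_zero.1 e with h | h
    · simp only [hσ] at h
      rw [if_pos hn.le, if_neg (by linarith), if_pos hlt] at h
      linarith
    · linarith

theorem exists_sol {c : ℝ} (hc : c ≤ 32*Real.pi) : ∃ D : Set E, IsSol c D := by
  obtain ⟨ρ, h⟩ := exists_EL c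
  exact h.isSol hc

end Q86.Shell
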