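import Pool.Agent.Q86.ShellH

/-! Size and strict star-shapedness of the solution sets. -/

set_option autoImplicit false

open MeasureTheory Metric Set Filter Topology

noncomputable section

namespace Q86.Shell

lemma chi_adm {D : Set E} (hcl : IsClosed D) {R : ℝ} (hb : D ⊆ closedBall 0 R) : Adm (chi D) R where
  meas := measurable_const.indicator hcl.measurableSet
  nonneg := fun y => indicator_nonneg (fun _ _ => zero_le_one) y
  le_one := fun y => by
    unfold chi
    by_cases h : y ∈ D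
    · rw [indicator_of_mem h]
    · rw [indicator_of_notMem h]; exact zero_le_one
  supp := fun y hy => by
    unfold chi
    rw [indicator_of_notMem]
    intro h
    have := hb h
    rw [mem_closedBall_zero_iff] at this
    linarith

lemma sol_bdd {a : ℝ} (ha : 1 ≤ a) {D : Set E} (h : IsSol (2*Real.pi*a^2) D) :
    D ⊆ closedBall 0 (2*a) := by
  intro x hx
  have hx3 : ‖x‖ ≤ 300 := by simpa using h.bdd hx
  have h1 := (h.iff x hx3).1 hx
  have h2 := Q_upper (2*Real.pi*a^2) hx3
  have h3 := V_nonneg (chi_adm h.closed h.bdd) x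
  rw [mem_closedBall_zero_iff]
  have hpi := Real.pi_pos
  have h4 : Real.pi/2 * ‖x‖^2 ≤ Real.pi/2 * (2*a)^2 := by nlinarith
  have h5 : ‖x‖^2 ≤ (2*a)^2 := le_of_mul_le_mul_left h4 (by positivity)
  exact le_of_sq_le_sq h5 (by positivity)

lemma avg_comb {f g : E → ℝ} (hf : Continuous f) (hg : Continuous g) (κ A0 B0 C1 C2 : ℝ) (a x : E)
    {r : ℝ} (hr : 0 < r) :
    avg (fun u => f u - κ * g u - (A0 + B0 * (inner ℝ u a : ℝ) + C1 * (u 0 * u 1 * u 2)
        - C2 * ((u 0 + a 0) * (u 1 + a 1) * (u 2 + a 2)))) x r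
      = avg f x r - κ * avg g x r - (A0 + B0 * (inner ℝ x a : ℝ) + C1 * (x 0 * x 1 * x 2)
        - C2 * ((x 0 + a 0) * (x 1 + a 1) * (x 2 + a 2))) := by
  have h0 := avg_cubic 0 x hr
  simp only [PiLp.zero_apply, add_zero] at h0
  have h1 := avg_cubic a x hr
  have h2 := avg_inner a x hr
  rw [avg_sub (by fun_prop) (by fun_prop), avg_sub hf (by fun_prop), avg_mul,
    avg_sub (by fun_prop) (by fun_prop), avg_add (by fun_prop) (by fun_prop),
    avg_add (by fun_prop) (by fun_prop), avg_const _ _ hr, avg_mul, avg_mul, avg_mul, h0, h1, h2]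

open scoped Pointwise in
lemma avg_scale (F : E → ℝ) {l : ℝ} (hl : 0 < l) (a x : E) {r : ℝ} (hr : 0 < r) :
    avg (fun u => F (l • (u + a))) x r = avg F (l • (x + a)) (l * r) := by
  unfold avg
  rw [int_shift (fun u => F (l • (u + a))) x r, int_shift F (l • (x + a)) (l * r)]
  have h1 : ∀ v : E, F (l • (x - v + a)) = (fun w => F (l • (x + a) - w)) (l • v) := by
    intro v
    simp only
    congr 1
    rw [← smul_sub]
    congr 1
    abel
  simp only [h1]
  rw [Measure.setIntegral_comp_smul_of_pos (volume : Measure E)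
    (fun w => F (l • (x + a) - w)) (ball (0:E) r) hl]
  have h2 : l • ball (0:E) r = ball 0 (l * r) := by
    rw [_root_.smul_ball hl.ne', smul_zero, Real.norm_eq_abs, abs_of_pos hl]
  rw [h2]
  have hfr : Module.finrank ℝ E = 3 := by simp
  rw [hfr, smul_eq_mul]
  have : vol (l * r) = l^3 * vol r := by unfold vol; ring
  rw [this]
  have := (vol_pos hr).ne'
  field_simp

lemma avg_off {D : Set E} (hcl : IsClosed D) {R : ℝ} (hR : 0 < R) (hb : D ⊆ closedBall 0 R)
    {x : E} (hx : x ∉ D) : ∃ r0 > 0, ∀ r, 0 < r → r < r0 → avg (V (chi D)) x r = V (chi D) x := by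
  obtain ⟨r0, hr0, hsub⟩ := Metric.isOpen_iff.1 hcl.isOpen_compl x hx
  refine ⟨r0, hr0, fun r hr hrr => ?_⟩
  apply avg_V_eq (chi_adm hcl hb) hR x hr
  refine Eventually.of_forall fun y hy => ?_
  unfold chi
  exact indicator_of_notMem (hsub (ball_subset_ball hrr.le hy)) _

lemma V_far {D : Set E} (hcl : IsClosed D) {a : ℝ} (ha : 1 ≤ a) (ha4 : a ≤ 4)
    (hb : D ⊆ closedBall 0 (2*a)) {x : E} (hx : ‖x‖ = 128) :
    V (chi D) x ≤ Real.pi/3 * a^2 := by
  have h1 := V_le_P (chi_adm hcl hb) x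
  rw [P_out (by positivity) (by rw [hx]; linarith), hx] at h1
  refine h1.trans ?_
  have hpi := Real.pi_pos
  have h2 : a^3 ≤ 4 * a^2 := by nlinarith [sq_nonneg a]
  have h3 : vol (2 * a) * 128⁻¹ = Real.pi/12 * a^3 := by unfold vol; ring
  have h4 : Real.pi/12 * a^3 ≤ Real.pi/12 * (4*a^2) := mul_le_mul_of_nonneg_left h2 (by positivity)
  linarith

lemma ball_in {a : ℝ} (ha : 1 ≤ a) (ha4 : a ≤ 4) {D : Set E} (h : IsSol (2*Real.pi*a^2) D)
    {x : E} (hx : ‖x‖^2 ≤ a^2/3) : x ∈ D := by
  have hpi := Real.pi_pos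
  have hpi3 := Real.pi_gt_three
  have hb := sol_bdd ha h
  set s := Real.sqrt (a^2/3) with hs
  have hs2 : s^2 = a^2/3 := Real.sq_sqrt (by positivity)
  have hspos : 0 < s := Real.sqrt_pos.2 (by positivity)
  have hadm := chi_adm h.closed hb
  set C0 := 2*Real.pi*a^2 - 2*Real.pi*s^2 with hC0
  have hC0' : C0 = 4*Real.pi/3 * a^2 := by rw [hC0, hs2]; ring
  -- the auxiliary function
  set g : E → ℝ := fun u => V (chi D) u - 1 * V (one s) u - (C0 + 0 * (inner ℝ u (0:E) : ℝ)
    + eps * (u 0 * u 1 * u 2) - 0 * ((u 0 + (0:E) 0) * (u 1 + (0:E) 1) * (u 2 + (0:E) 2))) with hg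
  have hgval : ∀ u, g u = V (chi D) u - V (one s) u - C0 - eps * (u 0 * u 1 * u 2) := by
    intro u; simp only [hg]; ring
  have hVc := V_cont hadm
  have hOc := V_cont (one_adm s)
  have hgc : Continuous g := by
    have : g = fun u => V (chi D) u - V (one s) u - C0 - eps * (u 0 * u 1 * u 2) := by
      ext u; exact hgval u
    rw [this]; fun_prop
  have key := max_pr hgc (L := 128) ?_ ?_
  · have hx300 : ‖x‖ ≤ 128 := by
      have : a^2/3 ≤ 128^2 := by nlinarith
      exact le_of_sq_le_sq (hx.trans this) (by norm_num)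
    have h1 := key x hx300
    rw [hgval, V_one, P_in hspos (by
      rw [hs]; exact Real.le_sqrt_of_sq_le hx)] at h1
    rw [h.iff x (by linarith)]
    apply le_antisymm _ (h.ge x (by linarith))
    unfold Q
    rw [hC0] at h1
    linarith
  · intro u hu
    rw [hgval]
    have h1 := V_far h.closed ha ha4 hb hu
    have h2 := V_nonneg (one_adm s) u
    have h3 := (abs_le.1 (cube_le u)).1
    rw [hu] at h3
    have h4 : -(3:ℝ)/10 ≤ eps * (u 0 * u 1 * u 2) := by
      have : eps * (-(128:ℝ)^3) ≤ eps * (u 0 * u 1 * u 2) :=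
        mul_le_mul_of_nonneg_left h3 (by unfold eps; norm_num)
      have h5 : -(3:ℝ)/10 ≤ eps * (-(128:ℝ)^3) := by unfold eps; norm_num
      linarith
    rw [hC0']
    nlinarith
  · intro u hu hpos
    have hnD : u ∉ D := by
      intro hD
      rw [hgval] at hpos
      have h1 := (h.iff u (by linarith)).1 hD
      have h2 : 2*Real.pi*s^2 - 2*Real.pi/3 * ‖u‖^2 ≤ V (one s) u := by
        rw [V_one]
        rcases le_total ‖u‖ s with hus | hus
        · rw [P_in hspos hus]
        · rw [P_out hspos hus]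
          unfold vol
          have hup : 0 < ‖u‖ := by linarith
          have h5 : 3 * s^2 * ‖u‖ ≤ 2 * s^3 + ‖u‖^3 := by
            nlinarith [mul_nonneg (by linarith : 0 ≤ ‖u‖ + 2*s) (sq_nonneg (‖u‖ - s))]
          have h6 : 3 * s^2 ≤ 2 * s^3 * ‖u‖⁻¹ + ‖u‖^2 := by
            have : 3 * s^2 = 3 * s^2 * ‖u‖ * ‖u‖⁻¹ := by field_simp
            rw [this]
            have e : 2 * s^3 * ‖u‖⁻¹ + ‖u‖^2 = (2 * s^3 + ‖u‖^3) * ‖u‖⁻¹ := by
              field_simp
            rw [e]
            exact mul_le_mul_of_nonneg_right h5 (by positivity)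
          have e2 : 4*Real.pi/3 * s^3 * ‖u‖⁻¹ = 2*Real.pi/3 * (2 * s^3 * ‖u‖⁻¹) := by ring
          rw [e2]
          nlinarith
      rw [h1] at hpos
      unfold Q at hpos
      rw [hC0] at hpos
      linarith
    obtain ⟨r0, hr0, hr⟩ := avg_off h.closed (by positivity : 0 < 2*a) hb hnD
    refine ⟨r0, hr0, fun r hrp hrr => ?_⟩
    have e := avg_comb hVc hOc 1 C0 0 eps 0 (0:E) u hrp
    show g u ≤ avg g u r
    rw [hg]
    rw [e, hr r hrp hrr]
    have := avg_V_le (one_adm s) hspos u hrp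
    simp only
    linarith

/-- boundary estimate -/
lemma star_bd {a : ℝ} (ha : 1 ≤ a) (ha4 : a ≤ 4) {D : Set E} (h : IsSol (2*Real.pi*a^2) D)
    {l : ℝ} (hl1 : 1 < l) (hl2 : l ≤ 2) (x : E) (hx : ‖x‖ = 128) :
    (V (chi D) x - Q (2*Real.pi*a^2) x)
      - (l^2)⁻¹ * (V (chi D) (l • x) - Q (2*Real.pi*a^2) (l • x)) < 0 := by
  have hpi := Real.pi_pos
  have hpi3 := Real.pi_gt_three
  have hb := sol_bdd ha h
  have hadm := chi_adm h.closed hb
  have hl0 : 0 < l := by linarith
  have h1 := V_far h.closed ha ha4 hb hx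
  have hVx := V_nonneg hadm x
  -- lower bound for V at l x
  have h2 : (1 + 16/15*(l-1))⁻¹ * V (chi D) x ≤ V (chi D) (l • x) := by
    unfold V
    rw [← integral_const_mul]
    apply integral_mono ((hadm.integrable_ker x).const_mul _) (hadm.integrable_ker (l • x))
    intro y
    simp only
    by_cases hy : y ∈ D
    · have hy2 : ‖y‖ ≤ 8 := by
        have := hb hy
        rw [mem_closedBall_zero_iff] at this
        linarith
      have h3 : 120 ≤ ‖x - y‖ := by
        have := norm_sub_norm_le x y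
        linarith
      have h4 : ‖l • x - y‖ ≤ (1 + 16/15*(l-1)) * ‖x - y‖ := by
        have e : l • x - y = (x - y) + (l-1) • x := by
          rw [sub_smul, one_smul]; abel
        rw [e]
        refine (norm_add_le _ _).trans ?_
        rw [norm_smul, Real.norm_eq_abs, abs_of_pos (by linarith : 0 < l - 1), hx]
        nlinarith
      have h5 : 0 < ‖l • x - y‖ := by
        have := norm_sub_norm_le (l • x) y
        rw [norm_smul, Real.norm_eq_abs, abs_of_pos hl0, hx] at this
        nlinarith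
      have h6 := inv_anti₀ h5 h4
      rw [mul_inv] at h6
      have h7 := mul_le_mul_of_nonneg_left h6 (hadm.nonneg y)
      calc (1 + 16/15*(l-1))⁻¹ * (chi D y * ‖x - y‖⁻¹)
          = chi D y * ((1 + 16/15*(l-1))⁻¹ * ‖x - y‖⁻¹) := by ring
        _ ≤ chi D y * ‖l • x - y‖⁻¹ := h7
    · unfold chi
      rw [indicator_of_notMem hy]
      simp
  have h3 := (abs_le.1 (cube_le x)).1
  have h3' := (abs_le.1 (cube_le x)).2
  rw [hx] at h3 h3'
  have hQ : Q (2*Real.pi*a^2) x - (l^2)⁻¹ * Q (2*Real.pi*a^2) (l • x)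
      = (1 - (l^2)⁻¹) * (2*Real.pi*a^2) - eps * (l - 1) * (x 0 * x 1 * x 2) := by
    unfold Q
    simp only [PiLp.smul_apply, smul_eq_mul, norm_smul, Real.norm_eq_abs, abs_of_pos hl0]
    field_simp
    ring
  set t := l - 1 with ht
  have hlt : l = 1 + t := by rw [ht]; ring
  have htpos : 0 < t := by linarith
  have ht1 : t ≤ 1 := by linarith
  set q := (l^2)⁻¹ with hq
  have hqpos : 0 < q := by positivity
  have hql : q * l^2 = 1 := by rw [hq]; field_simp
  have hq1 : 3/4 * t ≤ 1 - q := by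
    have e : (1 - q - 3/4*t) * l^2 = l^2 - 1 - 3/4*t*l^2 := by
      have : q * l^2 = 1 := hql
      linear_combination (-1) * this
    have h8 : 0 ≤ (1 - q - 3/4*t) * l^2 := by
      rw [e, hlt]
      nlinarith [mul_nonneg htpos.le (by linarith : 0 ≤ 1 - t), sq_nonneg t,
        mul_nonneg (mul_nonneg htpos.le htpos.le) (by linarith : 0 ≤ 1 - t)]
    have h9 := nonneg_of_mul_nonneg_left h8 (by positivity : 0 < l^2)
    linarith
  have hepsb : |eps * t * (x 0 * x 1 * x 2)| ≤ 3/10 * t := by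
    have he : (0:ℝ) < eps := by unfold eps; norm_num
    rw [abs_mul, abs_of_pos (mul_pos he htpos)]
    have : |x 0 * x 1 * x 2| ≤ 128^3 := by
      have := cube_le x
      rwa [hx] at this
    calc eps * t * |x 0 * x 1 * x 2| ≤ eps * t * 128^3 :=
          mul_le_mul_of_nonneg_left this (by positivity)
      _ = (eps * 128^3) * t := by ring
      _ ≤ 3/10 * t := mul_le_mul_of_nonneg_right (by unfold eps; norm_num) htpos.le
  -- combine
  set v := V (chi D) x with hv
  set m := (1 + 16/15*t)⁻¹ with hm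
  have hmlow : 1 - 16/15*t ≤ m := by
    rw [hm, ← one_div, le_div_iff₀ (by positivity)]
    nlinarith
  have h10 : v - q * V (chi D) (l • x) ≤ v * (1 - q) + v * (16/15*t) := by
    have h11 : q * (m * v) ≤ q * V (chi D) (l • x) := mul_le_mul_of_nonneg_left h2 hqpos.le
    have hq1' : q ≤ 1 := by nlinarith
    have h12 : q * (m * v) ≥ q * ((1 - 16/15*t) * v) :=
      mul_le_mul_of_nonneg_left (mul_le_mul_of_nonneg_right hmlow hVx) hqpos.le
    have h13 : q * (16/15*t*v) ≤ 1 * (16/15*t*v) :=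
      mul_le_mul_of_nonneg_right hq1' (by positivity)
    linarith
  have hA : 3 ≤ Real.pi * a^2 := by nlinarith
  have h14 : v * (1 - q) ≤ Real.pi/3 * a^2 * (1 - q) :=
    mul_le_mul_of_nonneg_right h1 (by linarith)
  have h15 : v * (16/15*t) ≤ Real.pi/3 * a^2 * (16/15 * (4/3 * (1 - q))) := by
    apply mul_le_mul h1 _ (by positivity) (by positivity)
    linarith
  have h16 := (abs_le.1 hepsb).2
  have h17 : 3/10 * t ≤ 2/5 * (1 - q) := by linarith
  have h1q : 0 < 1 - q := by linarith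
  have h18 : 3 * (1 - q) ≤ Real.pi * a^2 * (1 - q) := mul_le_mul_of_nonneg_right hA h1q.le
  have e5 : v - Q (2*Real.pi*a^2) x - q * (V (chi D) (l • x) - Q (2*Real.pi*a^2) (l • x))
      = (v - q * V (chi D) (l • x)) - ((1 - q) * (2*Real.pi*a^2) - eps * t * (x 0 * x 1 * x 2)) := by
    rw [← hQ]; ring
  rw [e5]
  nlinarith

lemma unif_neg {g : E → E → ℝ} (hgc : Continuous (fun p : E × E => g p.1 p.2))
    (hbd : ∀ x : E, ‖x‖ = 128 → g 0 x < 0) :
    ∃ δ > 0, ∀ b : E, ‖b‖ < δ → ∀ x : E, ‖x‖ = 128 → g b x < 0 := by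
  have hunif : ∀ᶠ b : E in 𝓝 0, ∀ x ∈ sphere (0:E) 128, g b x < 0 := by
    apply IsCompact.eventually_forall_of_forall_eventually (isCompact_sphere _ _)
    intro x hx
    have hx' : ‖x‖ = 128 := by simpa using hx
    have h1 : ContinuousAt (fun p : E × E => g p.1 p.2) (0, x) := hgc.continuousAt
    have h3 := h1.eventually_lt (continuousAt_const (y := (0:ℝ))) (hbd x hx')
    exact h3
  obtain ⟨δ0, hδ0, hδ⟩ := Metric.eventually_nhds_iff.1 hunif
  refine ⟨δ0, hδ0, fun b hb x hx => ?_⟩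
  exact hδ (by rwa [dist_zero_right]) x (by simpa using hx)

/-- strict star-shapedness -/
lemma strict_star {a : ℝ} (ha : 1 ≤ a) (ha4 : a ≤ 4) {D : Set E} (h : IsSol (2*Real.pi*a^2) D)
    {l : ℝ} (hl1 : 1 < l) (hl2 : l ≤ 2) : ∃ δ > 0, ∀ y ∈ D, ball (l⁻¹ • y) δ ⊆ D := by
  have hpi := Real.pi_pos
  have hpi3 := Real.pi_gt_three
  have hb := sol_bdd ha h
  have hadm := chi_adm h.closed hb
  have hVc := V_cont hadm
  have hl0 : 0 < l := by linarith
  set w : E → ℝ := fun x => V (chi D) x - Q (2*Real.pi*a^2) x with hw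
  have hwc : Continuous w := hVc.sub (Q_cont _)
  have hw0 : ∀ x, ‖x‖ ≤ 300 → 0 ≤ w x := fun x hx => by
    have := h.ge x hx
    simp only [hw]; linarith
  set g : E → E → ℝ := fun b x => w x - (l^2)⁻¹ * w (l • (x + b)) with hg
  have hgc : Continuous (fun p : E × E => g p.1 p.2) := by
    simp only [hg]; fun_prop
  obtain ⟨δ0, hδ0, hδ⟩ := unif_neg (g := g) hgc (by
    intro x hx
    have := star_bd ha ha4 h hl1 hl2 x hx
    simp only [hg, hw, add_zero]
    exact this)
  refine ⟨min δ0 1, lt_min hδ0 one_pos, ?_⟩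
  intro y hy z hz
  rw [mem_ball, dist_eq_norm] at hz
  set b : E := l⁻¹ • y - z with hb0
  have hbn : ‖b‖ < min δ0 1 := by rw [hb0, norm_sub_rev]; exact hz
  have hbn1 : ‖b‖ < 1 := hbn.trans_le (min_le_right _ _)
  have hyn : ‖y‖ ≤ 8 := by
    have := hb hy
    rw [mem_closedBall_zero_iff] at this
    linarith
  have hln : ‖l⁻¹ • y‖ ≤ 8 := by
    rw [norm_smul, norm_inv, Real.norm_eq_abs, abs_of_pos hl0]
    have : l⁻¹ ≤ 1 := inv_le_one_of_one_le₀ hl1.le
    nlinarith [norm_nonneg y]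
  have hzn : ‖z‖ ≤ 9 := by
    have : z = l⁻¹ • y - b := by rw [hb0]; abel
    rw [this]
    refine (norm_sub_le _ _).trans ?_
    linarith
  have hgb : Continuous (g b) := by
    simp only [hg]; fun_prop
  have key := max_pr hgb (L := 128) ?_ ?_
  · have h1 := key z (by linarith)
    simp only [hg] at h1
    have e1 : l • (z + b) = y := by
      rw [hb0]
      have : z + (l⁻¹ • y - z) = l⁻¹ • y := by abel
      rw [this, smul_smul, mul_inv_cancel₀ hl0.ne', one_smul]
    rw [e1] at h1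
    have h2 : w y = 0 := by
      have := (h.iff y (by linarith)).1 hy
      simp only [hw]; linarith
    rw [h2, mul_zero, sub_zero] at h1
    have h3 := hw0 z (by linarith)
    rw [h.iff z (by linarith)]
    simp only [hw] at h1 h3
    linarith
  · intro x hx
    exact (hδ b (hbn.trans_le (min_le_left _ _)) x hx).le
  · intro x hx hpos
    have hlx : ‖l • (x + b)‖ ≤ 300 := by
      rw [norm_smul, Real.norm_eq_abs, abs_of_pos hl0]
      have h1 := norm_add_le x b
      have h2 : ‖x + b‖ ≤ 129 := by linarith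
      nlinarith [norm_nonneg (x + b)]
    have hnD : x ∉ D := by
      intro hD
      simp only [hg] at hpos
      have h1 : w x = 0 := by
        have := (h.iff x (by linarith)).1 hD
        simp only [hw]; linarith
      have h2 := hw0 _ hlx
      rw [h1] at hpos
      have h3 : 0 ≤ (l^2)⁻¹ * w (l • (x + b)) := mul_nonneg (by positivity) h2
      linarith
    obtain ⟨r0, hr0, hr⟩ := avg_off h.closed (by positivity : 0 < 2*a) hb hnD
    refine ⟨r0, hr0, fun r hrp hrr => ?_⟩
    have hform : ∀ u, g b u = V (chi D) u - (l^2)⁻¹ * V (chi D) (l • (u + b))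
        - (((1 - (l^2)⁻¹) * (2*Real.pi*a^2) + 2*Real.pi/3 * ‖b‖^2)
          + 4*Real.pi/3 * (inner ℝ u b : ℝ) + eps * (u 0 * u 1 * u 2)
          - (eps * l) * ((u 0 + b 0) * (u 1 + b 1) * (u 2 + b 2))) := by
      intro u
      simp only [hg, hw]
      unfold Q
      simp only [PiLp.smul_apply, PiLp.add_apply, smul_eq_mul, norm_smul, Real.norm_eq_abs,
        abs_of_pos hl0]
      have e := norm_add_sq_real u b
      rw [mul_pow, e]
      field_simp
      ring
    have hgfun : g b = fun u => V (chi D) u - (l^2)⁻¹ * V (chi D) (l • (u + b))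
        - (((1 - (l^2)⁻¹) * (2*Real.pi*a^2) + 2*Real.pi/3 * ‖b‖^2)
          + 4*Real.pi/3 * (inner ℝ u b : ℝ) + eps * (u 0 * u 1 * u 2)
          - (eps * l) * ((u 0 + b 0) * (u 1 + b 1) * (u 2 + b 2))) := funext hform
    have hVc2 : Continuous (fun u => V (chi D) (l • (u + b))) := by fun_prop
    rw [hgfun]
    rw [avg_comb hVc hVc2, hr r hrp hrr, avg_scale _ hl0 b x hrp]
    · have h1 := avg_V_le hadm (by positivity : 0 < 2*a) (l • (x + b)) (mul_pos hl0 hrp)
      have h2 := mul_le_mul_of_nonneg_left h1 (by positivity : 0 ≤ (l^2)⁻¹)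
      simp only
      linarith
    · exact hrp

end Q86.Shell
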