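import Pool.Agent.Q86.ShellI

/-! Geometry of strictly star-shaped bodies; the final comparison. -/

set_option autoImplicit false

open MeasureTheory Metric Set Filter Topology

noncomputable section

namespace Q86.Shell

structure StarBody (D : Set E) : Prop where
  closed : IsClosed D
  bdd : ∃ R > 0, D ⊆ closedBall 0 R
  inner : ∃ s > 0, closedBall 0 s ⊆ D
  star : ∀ l : ℝ, 1 < l → l ≤ 2 → ∃ δ > 0, ∀ y ∈ D, ball (l⁻¹ • y) δ ⊆ D

lemma sol_star {a : ℝ} (ha : 1 ≤ a) (ha4 : a ≤ 4) {D : Set E} (h : IsSol (2*Real.pi*a^2) D) :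
    StarBody D where
  closed := h.closed
  bdd := ⟨2*a, by positivity, sol_bdd ha h⟩
  inner := ⟨1/2, by norm_num, fun x hx => ball_in ha ha4 h (by
    rw [mem_closedBall_zero_iff] at hx
    have := norm_nonneg x
    nlinarith)⟩
  star := fun _ h1 h2 => strict_star ha ha4 h h1 h2

namespace StarBody

variable {D : Set E}

lemma zero_mem (h : StarBody D) : (0:E) ∈ interior D := by
  obtain ⟨s, hs, hsub⟩ := h.inner
  rw [mem_interior]
  exact ⟨ball 0 s, ball_subset_closedBall.trans hsub, isOpen_ball, mem_ball_self hs⟩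

lemma scale_half (h : StarBody D) {m : ℝ} (h1 : 1/2 ≤ m) (h2 : m < 1) {y : E} (hy : y ∈ D) :
    m • y ∈ interior D := by
  have hm : 0 < m := by linarith
  obtain ⟨δ, hδ, hs⟩ := h.star m⁻¹ ((one_lt_inv₀ hm).2 h2) (by
    rw [inv_le_comm₀ hm (by norm_num)]; linarith)
  have := hs y hy
  rw [inv_inv] at this
  rw [mem_interior]
  exact ⟨_, this, isOpen_ball, mem_ball_self hδ⟩

lemma scale_pow (h : StarBody D) (n : ℕ) : ∀ m : ℝ, (1/2)^(n+1) ≤ m → m < 1 → ∀ y ∈ D,
    m • y ∈ interior D := by
  induction n with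
  | zero => intro m h1 h2 y hy; exact h.scale_half (by simpa using h1) h2 hy
  | succ n ih =>
    intro m h1 h2 y hy
    by_cases hm : 1/2 ≤ m
    · exact h.scale_half hm h2 hy
    · push Not at hm
      have e1 : (1/2:ℝ)^(n+1) ≤ 2*m := by
        have : (1/2:ℝ)^(n+1+1) = (1/2)^(n+1) * (1/2) := pow_succ _ _
        rw [this] at h1
        linarith
      have h3 := ih (2*m) e1 (by linarith) y hy
      have h4 := h.scale_half (le_refl (1/2:ℝ)) (by norm_num) (interior_subset h3)
      rw [smul_smul] at h4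
      have : (1/2:ℝ) * (2*m) = m := by ring
      rwa [this] at h4

lemma scale (h : StarBody D) {m : ℝ} (h1 : 0 ≤ m) (h2 : m < 1) {y : E} (hy : y ∈ D) :
    m • y ∈ interior D := by
  rcases eq_or_lt_of_le h1 with h0 | h0
  · rw [← h0, zero_smul]; exact h.zero_mem
  · obtain ⟨n, hn⟩ := exists_pow_lt_of_lt_one h0 (by norm_num : (1/2:ℝ) < 1)
    apply h.scale_pow n m _ h2 y hy
    have : (1/2:ℝ)^(n+1) ≤ (1/2)^n := pow_le_pow_of_le_one (by norm_num) (by norm_num) (by omega)
    linarith

lemma closure_interior (h : StarBody D) : closure (interior D) = D := by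
  apply le_antisymm
  · exact closure_minimal interior_subset h.closed
  · intro y hy
    have h1 : Tendsto (fun m : ℝ => m • y) (𝓝[<] 1) (𝓝 ((1:ℝ) • y)) := by
      have : Continuous (fun m : ℝ => m • y) := by fun_prop
      exact (this.tendsto 1).mono_left nhdsWithin_le_nhds
    rw [one_smul] at h1
    apply mem_closure_of_tendsto h1
    have h2 : ∀ᶠ m : ℝ in 𝓝[<] 1, 0 ≤ m :=
      mem_nhdsWithin_of_mem_nhds (Ici_mem_nhds (by norm_num))
    filter_upwards [h2, self_mem_nhdsWithin] with m hm1 hm2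
    exact h.scale hm1 hm2 hy

lemma frontier_eq (h : StarBody D) : frontier D = D \ interior D := h.closed.frontier_eq

lemma frontier_interior (h : StarBody D) : frontier (interior D) = frontier D := by
  rw [h.frontier_eq, frontier, h.closure_interior, interior_interior]

lemma compact (h : StarBody D) : IsCompact D := by
  obtain ⟨R, _, hR⟩ := h.bdd
  exact (isCompact_closedBall _ _).of_isClosed_subset h.closed hR

lemma connected (h : StarBody D) : IsConnected (interior D) := by
  have hs : StarConvex ℝ (0:E) (interior D) := by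
    rw [starConvex_zero_iff]
    intro x hx a ha0 ha1
    rcases eq_or_lt_of_le ha1 with h1 | h1
    · rw [h1, one_smul]; exact hx
    · exact h.scale ha0 h1 (interior_subset hx)
  exact (hs.isPathConnected h.zero_mem).isConnected

lemma norm_pos_of_frontier (h : StarBody D) {x : E} (hx : x ∈ frontier D) : 0 < ‖x‖ := by
  rw [norm_pos_iff]
  rintro rfl
  rw [h.frontier_eq] at hx
  exact hx.2 h.zero_mem

lemma homeo (h : StarBody D) : Nonempty (frontier D ≃ₜ sphere (0:E) 1) := by
  have hcomp : IsCompact (frontier D) := h.compact.of_isClosed_subset isClosed_frontier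
    (h.closed.frontier_subset)
  have : CompactSpace (frontier D) := isCompact_iff_compactSpace.1 hcomp
  set φ : frontier D → sphere (0:E) 1 := fun x => ⟨‖(x:E)‖⁻¹ • (x:E), by
    have := h.norm_pos_of_frontier x.2
    rw [mem_sphere_zero_iff_norm, norm_smul, norm_inv, norm_norm]
    field_simp⟩ with hφ
  have hcont : Continuous φ := by
    apply Continuous.subtype_mk
    have hinv : Continuous (fun x : frontier D => ‖(x:E)‖⁻¹) := by
      apply Continuous.inv₀ (continuous_norm.comp continuous_subtype_val)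
      intro x
      exact (h.norm_pos_of_frontier x.2).ne'
    exact hinv.smul continuous_subtype_val
  have key : ∀ x y : E, x ∈ frontier D → y ∈ frontier D → ‖x‖⁻¹ • x = ‖y‖⁻¹ • y → ‖x‖ ≤ ‖y‖ := by
    intro x y hx hy hxy
    by_contra hlt
    push Not at hlt
    have px := h.norm_pos_of_frontier hx
    have py := h.norm_pos_of_frontier hy
    have e : y = (‖y‖ * ‖x‖⁻¹) • x := by
      rw [mul_smul, hxy, smul_smul, mul_inv_cancel₀ py.ne', one_smul]
    have h1 : ‖y‖ * ‖x‖⁻¹ < 1 := by
      rw [← div_eq_mul_inv, div_lt_one px]; exact hlt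
    have h2 := h.scale (by positivity) h1 (h.closed.frontier_subset hx)
    rw [← e] at h2
    rw [h.frontier_eq] at hy
    exact hy.2 h2
  have hinj : Function.Injective φ := by
    intro x y hxy
    have hv : ‖(x:E)‖⁻¹ • (x:E) = ‖(y:E)‖⁻¹ • (y:E) := congrArg Subtype.val hxy
    have hn : ‖(x:E)‖ = ‖(y:E)‖ :=
      le_antisymm (key x y x.2 y.2 hv) (key y x y.2 x.2 hv.symm)
    have py := h.norm_pos_of_frontier y.2
    apply Subtype.ext
    rw [hn] at hv
    exact smul_right_injective E (inv_ne_zero py.ne') hv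
  have hsurj : Function.Surjective φ := by
    rintro ⟨u, hu⟩
    rw [mem_sphere_zero_iff_norm] at hu
    obtain ⟨R, hR, hb⟩ := h.bdd
    obtain ⟨s, hs, hsub⟩ := h.inner
    set T : Set ℝ := {t | t ∈ Icc (0:ℝ) R ∧ t • u ∈ D} with hT
    have hTc : IsCompact T := by
      apply isCompact_Icc.of_isClosed_subset _ (fun t ht => ht.1)
      exact isClosed_Icc.inter (h.closed.preimage (by fun_prop : Continuous fun t : ℝ => t • u))
    have hn : ∀ t : ℝ, 0 ≤ t → ‖t • u‖ = t := by
      intro t ht
      rw [norm_smul, hu, mul_one, Real.norm_eq_abs, abs_of_nonneg ht]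
    have hsT : s ∈ T := by
      have h1 : s • u ∈ D := hsub (by rw [mem_closedBall_zero_iff, hn s hs.le])
      refine ⟨⟨hs.le, ?_⟩, h1⟩
      have := hb h1
      rwa [mem_closedBall_zero_iff, hn s hs.le] at this
    obtain ⟨t, htT, htm⟩ := hTc.exists_isGreatest ⟨s, hsT⟩
    have htpos : 0 < t := hs.trans_le (htm hsT)
    have hfr : t • u ∈ frontier D := by
      rw [h.frontier_eq]
      refine ⟨htT.2, fun hint => ?_⟩
      obtain ⟨ε, hε, hball⟩ := Metric.isOpen_iff.1 isOpen_interior _ hint
      have h1 : (t + ε/2) • u ∈ D := by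
        apply interior_subset
        apply hball
        rw [mem_ball, dist_eq_norm, ← sub_smul]
        have : t + ε/2 - t = ε/2 := by ring
        rw [this, hn _ (by positivity)]
        linarith
      have h2 : t + ε/2 ∈ T := by
        refine ⟨⟨by positivity, ?_⟩, h1⟩
        have := hb h1
        rwa [mem_closedBall_zero_iff, hn _ (by positivity)] at this
      have := htm h2
      linarith
    refine ⟨⟨t • u, hfr⟩, ?_⟩
    apply Subtype.ext
    show ‖t • u‖⁻¹ • (t • u) = u
    rw [hn t htpos.le, smul_smul, inv_mul_cancel₀ htpos.ne', one_smul]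
  exact ⟨Continuous.homeoOfEquivCompactToT2 (f := Equiv.ofBijective φ ⟨hinj, hsurj⟩) hcont⟩

open scoped Pointwise in
lemma null (h : StarBody D) : volume (frontier D) = 0 := by
  rw [h.frontier_eq]
  have hfin : volume D ≠ ⊤ := h.compact.measure_lt_top.ne
  have hfinI : volume (interior D) ≠ ⊤ :=
    ((measure_mono interior_subset).trans_lt h.compact.measure_lt_top).ne
  have key : ∀ m : ℝ, 0 < m → m < 1 → m^3 * (volume D).toReal ≤ (volume (interior D)).toReal := by
    intro m hm0 hm1
    have h1 : m • D ⊆ interior D := by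
      rintro _ ⟨y, hy, rfl⟩
      exact h.scale hm0.le hm1 hy
    have h2 := measure_mono (μ := (volume : Measure E)) h1
    rw [Measure.addHaar_smul] at h2
    have hfr : Module.finrank ℝ E = 3 := by simp
    rw [hfr, abs_of_pos (by positivity)] at h2
    have h3 := ENNReal.toReal_mono hfinI h2
    rwa [ENNReal.toReal_mul, ENNReal.toReal_ofReal (by positivity)] at h3
  have hle : (volume D).toReal ≤ (volume (interior D)).toReal := by
    have h1 : Tendsto (fun m : ℝ => m^3 * (volume D).toReal) (𝓝[<] 1)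
        (𝓝 (1^3 * (volume D).toReal)) := by
      have : Continuous (fun m : ℝ => m^3 * (volume D).toReal) := by fun_prop
      exact (this.tendsto 1).mono_left nhdsWithin_le_nhds
    rw [one_pow, one_mul] at h1
    apply le_of_tendsto h1
    have h2 : ∀ᶠ m : ℝ in 𝓝[<] 1, 0 < m :=
      mem_nhdsWithin_of_mem_nhds (Ioi_mem_nhds (by norm_num))
    filter_upwards [h2, self_mem_nhdsWithin] with m hm1 hm2
    exact key m hm1 hm2
  rw [measure_sdiff interior_subset isOpen_interior.nullMeasurableSet hfinI]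
  rw [tsub_eq_zero_iff_le]
  exact (ENNReal.toReal_le_toReal hfin hfinI).1 hle

end StarBody

lemma meet_frontier {t D : Set E} (ht : IsPreconnected t) (hD : IsClosed D) (h1 : (t ∩ D).Nonempty)
    (h2 : (t ∩ Dᶜ).Nonempty) : (t ∩ frontier D).Nonempty := by
  by_contra hne
  rw [not_nonempty_iff_eq_empty] at hne
  have hsub : ∀ x ∈ t, x ∈ D → x ∈ interior D := by
    intro x hx hxD
    by_contra hi
    have : x ∈ t ∩ frontier D := ⟨hx, by rw [hD.frontier_eq]; exact ⟨hxD, hi⟩⟩
    rw [hne] at this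
    exact this
  obtain ⟨x, hxt, hx1, hx2⟩ := ht (interior D) Dᶜ isOpen_interior hD.isOpen_compl
    (fun x hx => by
      by_cases hxD : x ∈ D
      · exact Or.inl (hsub x hx hxD)
      · exact Or.inr hxD)
    (by obtain ⟨x, hx, hxD⟩ := h1; exact ⟨x, hx, hsub x hx hxD⟩)
    h2
  exact hx2 (interior_subset hx1)

lemma ball_of_frontier {D : Set E} (hc : IsCompact D) (hi : (interior D).Nonempty) {k : ℝ}
    (hk : 0 < k) (hf : frontier D = sphere 0 k) : D = closedBall 0 k := by
  have hout : D ⊆ closedBall 0 k := by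
    intro x hx
    rw [mem_closedBall_zero_iff]
    by_contra hlt
    push Not at hlt
    have hxp : 0 < ‖x‖ := hk.trans hlt
    set t : Set E := (fun s : ℝ => s • x) '' Ici 1 with ht
    have htp : IsPreconnected t := isPreconnected_Ici.image _ (by fun_prop)
    obtain ⟨R, hR⟩ := hc.isBounded.subset_closedBall (0:E)
    have h2 : (t ∩ Dᶜ).Nonempty := by
      refine ⟨((|R| + 1) / ‖x‖ + 1) • x, ⟨_, ?_, rfl⟩, ?_⟩
      · rw [mem_Ici]
        have : 0 ≤ (|R| + 1) / ‖x‖ := by positivity
        linarith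
      · intro hD
        have h3 := hR hD
        rw [mem_closedBall_zero_iff, norm_smul, Real.norm_eq_abs,
          abs_of_nonneg (by positivity)] at h3
        have h4 : ((|R| + 1) / ‖x‖ + 1) * ‖x‖ = |R| + 1 + ‖x‖ := by field_simp
        rw [h4] at h3
        have := le_abs_self R
        linarith
    obtain ⟨z, ⟨s, hs, rfl⟩, hz⟩ := meet_frontier htp hc.isClosed ⟨x, ⟨1, by simp, by simp⟩, hx⟩ h2
    rw [hf, mem_sphere_zero_iff_norm, norm_smul, Real.norm_eq_abs] at hz
    have hs1 : 1 ≤ s := hs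
    rw [abs_of_nonneg (by linarith)] at hz
    nlinarith
  apply Subset.antisymm hout
  · have hball : ball (0:E) k ⊆ D := by
      by_contra hnot
      rw [not_subset] at hnot
      obtain ⟨z, hz, hzD⟩ := hnot
      have hpre : IsPreconnected (ball (0:E) k) := (convex_ball _ _).isPreconnected
      have hdis : ball (0:E) k ∩ D = ∅ := by
        by_contra hne
        have hne' : (ball (0:E) k ∩ D).Nonempty := nonempty_iff_ne_empty.2 hne
        obtain ⟨y, hy1, hy2⟩ := meet_frontier hpre hc.isClosed hne' ⟨z, hz, hzD⟩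
        rw [hf, mem_sphere_zero_iff_norm] at hy2
        rw [mem_ball_zero_iff] at hy1
        linarith
      -- the interior would avoid the sphere and the ball
      obtain ⟨y, hy⟩ := hi
      have hyf : y ∉ frontier D := fun hyf => by
        rw [hc.isClosed.frontier_eq] at hyf
        exact hyf.2 hy
      rw [hf, mem_sphere_zero_iff_norm] at hyf
      have hyb : ¬ ‖y‖ < k := fun hlt => by
        have : y ∈ ball (0:E) k ∩ D := ⟨by simpa using hlt, interior_subset hy⟩
        rw [hdis] at this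
        exact this
      have hyo := hout (interior_subset hy)
      rw [mem_closedBall_zero_iff] at hyo
      exact hyb (lt_of_le_of_ne hyo hyf)
    have := closure_minimal hball hc.isClosed
    rwa [closure_ball _ hk.ne'] at this

lemma body_of_frontier {D : Set E} (h : StarBody D) (f : E ≃ᵃ[ℝ] E) {k : ℝ} (hk : 0 < k)
    (hf : frontier D = f '' sphere 0 k) : D = f '' closedBall 0 k := by
  set F : E ≃ₜ E := f.toHomeomorphOfFiniteDimensional with hF
  have hFf : ∀ x, F x = f x := fun x => by rw [hF]; rfl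
  have himg : ∀ s : Set E, F '' s = f '' s := fun s => by
    apply image_congr; intro x _; exact hFf x
  have hpre : F ⁻¹' (F '' sphere (0:E) k) = sphere 0 k := preimage_image_eq _ F.injective
  have e1 : frontier (F ⁻¹' D) = sphere 0 k := by
    rw [← F.preimage_frontier, hf, ← himg, hpre]
  have hcomp : IsCompact (F ⁻¹' D) := by
    rw [← F.image_symm]
    exact h.compact.image F.symm.continuous
  have hint : (interior (F ⁻¹' D)).Nonempty := by
    rw [← F.preimage_interior]
    exact ⟨F.symm 0, by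
      show F (F.symm 0) ∈ interior D
      rw [F.apply_symm_apply]; exact h.zero_mem⟩
  have e2 := ball_of_frontier hcomp hint hk e1
  rw [← himg, ← e2, image_preimage_eq _ F.surjective]

lemma int_affine (F : E → ℝ) {k : ℝ} (hk : 0 < k) (b : E) :
    ∫ w : E, F (k • w + b) = (k^3)⁻¹ * ∫ y, F y := by
  have h1 := Measure.integral_comp_smul (volume : Measure E) (fun y => F (y + b)) k
  have hfr : Module.finrank ℝ E = 3 := by simp
  rw [hfr, abs_of_pos (by positivity), smul_eq_mul] at h1
  rw [h1, integral_add_right_eq_self]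

lemma V_affine {D₁ D₂ : Set E} {k : ℝ} (hk : 0 < k) (b : E)
    (h : ∀ w : E, k • w + b ∈ D₁ ↔ w ∈ D₂) (z : E) :
    V (chi D₁) (k • z + b) = k^2 * V (chi D₂) z := by
  have h1 := int_affine (fun y => chi D₁ y * ‖k • z + b - y‖⁻¹) hk b
  have h2 : ∀ w : E, chi D₁ (k • w + b) * ‖k • z + b - (k • w + b)‖⁻¹
      = k⁻¹ * (chi D₂ w * ‖z - w‖⁻¹) := by
    intro w
    have e1 : chi D₁ (k • w + b) = chi D₂ w := by
      unfold chi
      by_cases hw : w ∈ D₂
      · rw [indicator_of_mem hw, indicator_of_mem ((h w).2 hw)]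
      · rw [indicator_of_notMem hw, indicator_of_notMem (fun hh => hw ((h w).1 hh))]
    have e2 : k • z + b - (k • w + b) = k • (z - w) := by rw [smul_sub]; abel
    rw [e1, e2, norm_smul, Real.norm_eq_abs, abs_of_pos hk, mul_inv]
    ring
  simp only [h2] at h1
  rw [integral_const_mul] at h1
  unfold V
  have : ∫ y, chi D₁ y * ‖k • z + b - y‖⁻¹ = k^3 * ((k^3)⁻¹ * ∫ y, chi D₁ y * ‖k • z + b - y‖⁻¹) := by
    field_simp
  rw [this, ← h1]
  field_simp

lemma norm_sq3 (v : E) : ‖v‖^2 = v 0 ^ 2 + v 1 ^ 2 + v 2 ^ 2 := by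
  rw [EuclideanSpace.real_norm_sq_eq, Fin.sum_univ_three]

/-- the final comparison -/
lemma no_affine {D₁ D₂ : Set E} (h1 : IsSol (2*Real.pi*1^2) D₁) (h2 : IsSol (2*Real.pi*4^2) D₂)
    (f : E ≃ᵃ[ℝ] E) {k : ℝ} (hk0 : 0 < k) (hk1 : k < 1)
    (e2 : frontier D₂ = f '' sphere 0 1) (e1 : frontier D₁ = f '' sphere 0 k) : False := by
  have s1 := sol_star (le_refl 1) (by norm_num) h1
  have s2 := sol_star (by norm_num) (le_refl 4) h2
  have b1 := body_of_frontier s1 f hk0 e1
  have b2 := body_of_frontier s2 f one_pos e2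
  set b : E := (1-k) • f 0 with hb
  have hline : ∀ u : E, f (k • u) = k • f u + b := by
    intro u
    have h := f.apply_lineMap 0 u k
    rw [AffineMap.lineMap_apply, AffineMap.lineMap_apply] at h
    simp only [vsub_eq_sub, sub_zero, vadd_eq_add, add_zero] at h
    rw [h, hb]
    module
  have hiff : ∀ w : E, k • w + b ∈ D₁ ↔ w ∈ D₂ := by
    intro w
    obtain ⟨u, rfl⟩ := f.surjective w
    rw [← hline, b1, b2]
    rw [f.injective.mem_set_image, f.injective.mem_set_image, mem_closedBall_zero_iff,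
      mem_closedBall_zero_iff, norm_smul, Real.norm_eq_abs, abs_of_pos hk0]
    constructor
    · intro h; nlinarith
    · intro h; nlinarith
  have hVa := fun z => V_affine hk0 b hiff z
  have eqn : ∀ z : E, ‖z‖^2 ≤ 4^2/3 → Q (2*Real.pi*1^2) (k • z + b) = k^2 * Q (2*Real.pi*4^2) z := by
    intro z hz
    have hz2 : z ∈ D₂ := ball_in (by norm_num) (le_refl 4) h2 hz
    have hz1 : k • z + b ∈ D₁ := (hiff z).2 hz2
    have n2 : ‖z‖ ≤ 300 := by simpa using h2.bdd hz2
    have n1 : ‖k • z + b‖ ≤ 300 := by simpa using h1.bdd hz1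
    rw [← (h1.iff _ n1).1 hz1, ← (h2.iff _ n2).1 hz2]
    exact hVa z
  have eqs : ∀ s0 s1 s2 : ℝ, s0^2 = 1 → s1^2 = 1 → s2^2 = 1 →
      2*Real.pi*1^2 - 2*Real.pi/3 * ((k*s0 + b 0)^2 + (k*s1 + b 1)^2 + (k*s2 + b 2)^2)
        + eps * ((k*s0 + b 0) * (k*s1 + b 1) * (k*s2 + b 2))
      = k^2 * (2*Real.pi*4^2 - 2*Real.pi/3 * (s0^2 + s1^2 + s2^2) + eps * (s0 * s1 * s2)) := by
    intro s0 s1 s2 q0 q1 q2
    have h := eqn (!₂[s0, s1, s2]) (by
      rw [norm_sq3]
      have t0 : (!₂[s0, s1, s2] : E) 0 = s0 := rfl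
      have t1 : (!₂[s0, s1, s2] : E) 1 = s1 := rfl
      have t2 : (!₂[s0, s1, s2] : E) 2 = s2 := rfl
      rw [t0, t1, t2, q0, q1, q2]
      norm_num)
    unfold Q at h
    rw [norm_sq3, norm_sq3] at h
    exact h
  have g1 := eqs 1 1 1 (by norm_num) (by norm_num) (by norm_num)
  have g2 := eqs 1 1 (-1) (by norm_num) (by norm_num) (by norm_num)
  have g3 := eqs 1 (-1) 1 (by norm_num) (by norm_num) (by norm_num)
  have g4 := eqs 1 (-1) (-1) (by norm_num) (by norm_num) (by norm_num)
  have g5 := eqs (-1) 1 1 (by norm_num) (by norm_num) (by norm_num)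
  have g6 := eqs (-1) 1 (-1) (by norm_num) (by norm_num) (by norm_num)
  have g7 := eqs (-1) (-1) 1 (by norm_num) (by norm_num) (by norm_num)
  have g8 := eqs (-1) (-1) (-1) (by norm_num) (by norm_num) (by norm_num)
  have hfin : 8 * eps * k^3 = 8 * eps * k^2 := by
    linear_combination g1 - g2 - g3 + g4 - g5 + g6 + g7 - g8
  have he : (0:ℝ) < eps := by unfold eps; norm_num
  have hk3 : k^3 = k^2 := mul_left_cancel₀ (by positivity : 8 * eps ≠ 0) hfin
  have hk2 : 0 < k^2 := by positivity
  nlinarith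

/-- the potential of the shell -/
lemma shell_potential {D₁ D₂ : Set E} (h1 : IsSol (2*Real.pi*1^2) D₁)
    (h2 : IsSol (2*Real.pi*4^2) D₂) (hsub : D₁ ⊆ interior D₂) {p : E} (hp : p ∈ interior D₁) :
    ∫ y in interior D₂ \ closure (interior D₁), (dist p y)⁻¹ = 30 * Real.pi := by
  have s1 := sol_star (le_refl 1) (by norm_num) h1
  have s2 := sol_star (by norm_num) (le_refl 4) h2
  rw [s1.closure_interior]
  have hp1 : p ∈ D₁ := interior_subset hp
  have hp2 : p ∈ D₂ := interior_subset (hsub hp1)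
  have n : ‖p‖ ≤ 300 := by simpa using h1.bdd hp1
  have v1 := (h1.iff p n).1 hp1
  have v2 := (h2.iff p n).1 hp2
  have a1 := chi_adm h1.closed h1.bdd
  have a2 := chi_adm h2.closed h2.bdd
  have hfr : ∀ᵐ y : E, y ∉ frontier D₂ := by
    rw [ae_iff]
    have : {a : E | ¬ a ∉ frontier D₂} = frontier D₂ := by ext; simp
    rw [this]
    exact s2.null
  have e : ∫ y in interior D₂ \ D₁, (dist p y)⁻¹ = V (chi D₂) p - V (chi D₁) p := by
    rw [← integral_indicator (isOpen_interior.measurableSet.diff h1.closed.measurableSet)]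
    unfold V
    rw [← integral_sub (a2.integrable_ker p) (a1.integrable_ker p)]
    apply integral_congr_ae
    filter_upwards [hfr] with y hy
    unfold chi
    simp only [dist_eq_norm]
    by_cases hy1 : y ∈ D₁
    · have hy2 : y ∈ D₂ := interior_subset (hsub hy1)
      rw [indicator_of_notMem (fun hh => hh.2 hy1), indicator_of_mem hy1, indicator_of_mem hy2]
      ring
    · by_cases hy2 : y ∈ D₂
      · have hyi : y ∈ interior D₂ := by
          by_contra hi
          exact hy (by rw [s2.frontier_eq]; exact ⟨hy2, hi⟩)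
        rw [indicator_of_mem (show y ∈ interior D₂ \ D₁ from ⟨hyi, hy1⟩), indicator_of_mem hy2,
          indicator_of_notMem hy1]
        ring
      · rw [indicator_of_notMem (fun hh => hy2 (interior_subset hh.1)), indicator_of_notMem hy1,
          indicator_of_notMem hy2]
        ring
  rw [e, v1, v2]
  unfold Q
  ring

theorem main : ∃ D₁ D₂ : Set E, StarBody D₁ ∧ StarBody D₂ ∧ D₁ ⊆ interior D₂ ∧
    (∀ p ∈ interior D₁, ∫ y in interior D₂ \ closure (interior D₁), (dist p y)⁻¹ = 30 * Real.pi) ∧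
    ∀ (f : E ≃ᵃ[ℝ] E) (k : ℝ), 0 < k → k < 1 → frontier D₂ = f '' sphere 0 1 →
      frontier D₁ = f '' sphere 0 k → False := by
  have hpi := Real.pi_pos
  obtain ⟨D₁, h1⟩ := exists_sol (c := 2*Real.pi*1^2) (by linarith)
  obtain ⟨D₂, h2⟩ := exists_sol (c := 2*Real.pi*4^2) (by linarith)
  have s1 := sol_star (le_refl 1) (by norm_num) h1
  have s2 := sol_star (by norm_num) (le_refl 4) h2
  have hsub : D₁ ⊆ interior D₂ := by
    intro x hx
    have h3 := sol_bdd (le_refl 1) h1 hx
    rw [mem_closedBall_zero_iff] at h3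
    rw [mem_interior]
    refine ⟨ball 0 (23/10), ?_, isOpen_ball, ?_⟩
    · intro y hy
      rw [mem_ball_zero_iff] at hy
      apply ball_in (by norm_num) (le_refl 4) h2
      have := norm_nonneg y
      nlinarith
    · rw [mem_ball_zero_iff]; linarith
  refine ⟨D₁, D₂, s1, s2, hsub, fun p hp => shell_potential h1 h2 hsub hp, ?_⟩
  intro f k hk0 hk1 e2 e1
  exact no_affine h1 h2 f hk0 hk1 e2 e1

end Q86.Shell
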