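import Pool.Agent.Q86.PairPert

set_option autoImplicit false

/-!
# The unilateral shift
-/

namespace Pool.Agent.Q86.PairPert

open scoped ENNReal

/-- The Hilbert space of square summable sequences. -/
abbrev L2 : Type := lp (fun _ : ℕ => ℂ) 2

theorem memlp_iff (f : ℕ → ℂ) : Memℓp (E := fun _ : ℕ => ℂ) f 2 ↔ Summable fun n => ‖f n‖ ^ 2 := by
  rw [memℓp_gen_iff (by norm_num)]
  simp

theorem norm_sq_L2 (x : L2) : ‖x‖ ^ 2 = ∑' n, ‖x n‖ ^ 2 := by
  have h := lp.norm_rpow_eq_tsum (p := 2) (by norm_num) x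
  simpa using h

/-- The shifted sequence. -/
def sh (x : ℕ → ℂ) : ℕ → ℂ
  | 0 => 0
  | n + 1 => x n

theorem memlp_sh {x : ℕ → ℂ} (hx : Memℓp (E := fun _ : ℕ => ℂ) x 2) :
    Memℓp (E := fun _ : ℕ => ℂ) (sh x) 2 := by
  rw [memlp_iff] at hx ⊢
  rw [← summable_nat_add_iff 1]
  exact hx

theorem memlp_tail {x : ℕ → ℂ} (hx : Memℓp (E := fun _ : ℕ => ℂ) x 2) :
    Memℓp (E := fun _ : ℕ => ℂ) (fun n => x (n + 1)) 2 := by
  rw [memlp_iff] at hx ⊢
  exact (summable_nat_add_iff 1).2 hx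

/-- The unilateral shift. -/
noncomputable def shift : L2 →ₗᵢ[ℂ] L2 where
  toFun x := ⟨sh x, memlp_sh x.2⟩
  map_add' x y := by
    apply Subtype.ext
    funext n
    rcases n with _ | n
    · exact (add_zero (0 : ℂ)).symm
    · rfl
  map_smul' c x := by
    apply Subtype.ext
    funext n
    rcases n with _ | n
    · exact (smul_zero c).symm
    · rfl
  norm_map' x := by
    rw [← sq_eq_sq₀ (norm_nonneg _) (norm_nonneg _), norm_sq_L2, norm_sq_L2]
    have hs : Summable fun n => ‖sh x n‖ ^ 2 := (memlp_iff _).1 (memlp_sh x.2)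
    change ∑' n, ‖sh x n‖ ^ 2 = _
    rw [hs.tsum_eq_zero_add]
    simp [sh]

theorem shift_zero (x : L2) : shift x 0 = 0 := rfl

theorem shift_succ (x : L2) (n : ℕ) : shift x (n + 1) = x n := rfl

/-- The first basis vector. -/
noncomputable def e0 : L2 := lp.single 2 (0 : ℕ) (1 : ℂ)

theorem e0_zero : e0 0 = 1 := by simp [e0]

theorem e0_succ (n : ℕ) : e0 (n + 1) = 0 := by simp [e0]

theorem not_surjective : ¬ Function.Surjective (shift.toContinuousLinearMap : L2 →L[ℂ] L2) := by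
  intro h
  obtain ⟨x, hx⟩ := h e0
  have h1 : shift x 0 = e0 0 := congrArg (fun y : L2 => y 0) hx
  rw [shift_zero, e0_zero] at h1
  exact zero_ne_one h1

theorem isFredholm_shift : IsFredholmOp (shift.toContinuousLinearMap : L2 →L[ℂ] L2) := by
  refine ⟨?_, ?_, ?_⟩
  · exact shift.isometry.isClosedEmbedding.isClosed_range
  · have h : LinearMap.ker ((shift.toContinuousLinearMap : L2 →L[ℂ] L2) : L2 →ₗ[ℂ] L2) = ⊥ :=
      LinearMap.ker_eq_bot.2 shift.injective
    rw [h]; infer_instance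
  · set R := LinearMap.range ((shift.toContinuousLinearMap : L2 →L[ℂ] L2) : L2 →ₗ[ℂ] L2) with hR
    apply FiniteDimensional.of_surjective (R.mkQ ∘ₗ LinearMap.toSpanSingleton ℂ L2 e0)
    intro q
    obtain ⟨y, rfl⟩ := R.mkQ_surjective q
    refine ⟨y 0, ?_⟩
    change R.mkQ ((y 0 : ℂ) • e0) = R.mkQ y
    rw [← sub_eq_zero, ← map_sub, Submodule.mkQ_apply, Submodule.Quotient.mk_eq_zero]
    refine ⟨⟨fun n => -(y (n + 1)), (memlp_tail y.2).neg⟩, ?_⟩
    apply Subtype.ext
    funext n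
    rcases n with _ | n
    · change (0 : ℂ) = y 0 * e0 0 - y 0
      rw [e0_zero]; ring
    · change -(y (n + 1)) = y 0 * e0 (n + 1) - y (n + 1)
      rw [e0_succ]; ring

theorem shift_no_pair : ¬ HasInvertiblePair (shift.toContinuousLinearMap : L2 →L[ℂ] L2) :=
  fun h => not_surjective
    (surjective_of_injective (h.perturbation isFredholm_shift) shift.injective)

end Pool.Agent.Q86.PairPert
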