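import Mathlib

/-!
# Norm-one unital functionals on bounded functions whose values on a tangent ball of frequencies
are polynomial
-/

set_option autoImplicit false

open Filter Topology Set Polynomial
open scoped BoundedContinuousFunction

noncomputable section

namespace Pool.Agent.Q86.Sym

/-! ### polynomials in two variables -/

/-- evaluation of a polynomial in two variables at real points -/
def hev (H : Polynomial (Polynomial ℂ)) (s y : ℝ) : ℂ :=
  (H.map (Polynomial.evalRingHom (s : ℂ))).eval (y : ℂ)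

/-- the coefficients, as functions of the first variable -/
def co (H : Polynomial (Polynomial ℂ)) (k : ℕ) (s : ℝ) : ℂ := (H.coeff k).eval (s : ℂ)

lemma hev_eq (H : Polynomial (Polynomial ℂ)) (s y : ℝ) :
    hev H s y = ∑ k ∈ Finset.range (H.natDegree + 1), co H k s * (y : ℂ) ^ k := by
  rw [hev, Polynomial.eval_eq_sum_range' (n := H.natDegree + 1)]
  · refine Finset.sum_congr rfl fun k _ => ?_
    rw [Polynomial.coeff_map]
    rfl
  · exact lt_of_le_of_lt Polynomial.natDegree_map_le (Nat.lt_succ_self _)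

lemma co_cont (H : Polynomial (Polynomial ℂ)) (k : ℕ) : Continuous (co H k) := by
  unfold co
  exact (H.coeff k).continuous.comp Complex.continuous_ofReal

lemma co_lip (H : Polynomial (Polynomial ℂ)) (k : ℕ) (r : ℝ) :
    ∃ C : ℝ, 0 ≤ C ∧ ∀ s ∈ Icc 0 r, ‖co H k s - co H k 0‖ ≤ C * s := by
  obtain ⟨C, hC⟩ := (isCompact_Icc (a := (0:ℝ)) (b := r)).exists_bound_of_continuousOn
    (f := fun s : ℝ => ((H.coeff k).divX).eval (s : ℂ))
    ((((H.coeff k).divX).continuous.comp Complex.continuous_ofReal).continuousOn)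
  refine ⟨max C 0, le_max_right _ _, fun s hs => ?_⟩
  have h1 : ∀ z : ℂ, (H.coeff k).eval z = ((H.coeff k).divX).eval z * z + (H.coeff k).coeff 0 := by
    intro z
    conv_lhs => rw [← Polynomial.divX_mul_X_add (H.coeff k)]
    simp
  have h2 : co H k s - co H k 0 = ((H.coeff k).divX).eval (s : ℂ) * s := by
    unfold co
    rw [h1, h1]
    simp
  rw [h2, norm_mul, Complex.norm_real, Real.norm_eq_abs, abs_of_nonneg hs.1]
  exact mul_le_mul_of_nonneg_right ((hC s hs).trans (le_max_left _ _)) hs.1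

/-- alternating sums -/
def kap (J k : ℕ) : ℂ :=
  (-1) ^ J * ∑ i ∈ Finset.range (2 * J + 1), (-1) ^ i * ((2 * J).choose i : ℂ) * ((i : ℂ) - J) ^ k

lemma kap_zero (J k : ℕ) (h : k < 2 * J) : kap J k = 0 := by
  have h1 := congrFun (fwdDiff_iter_pow_eq_zero_of_lt (R := ℂ) h) (-(J : ℂ))
  rw [fwdDiff_iter_eq_sum_shift] at h1
  have h2 : ∑ i ∈ Finset.range (2 * J + 1), (-1) ^ i * ((2 * J).choose i : ℂ) * ((i : ℂ) - J) ^ k =
      ∑ i ∈ Finset.range (2 * J + 1),
        ((-1 : ℤ) ^ (2 * J - i) * ((2 * J).choose i : ℤ)) • (fun r : ℂ => r ^ k) (-(J : ℂ) + i • 1) := by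
    refine Finset.sum_congr rfl fun i hi => ?_
    have hi' : i ≤ 2 * J := Nat.lt_succ_iff.1 (Finset.mem_range.1 hi)
    have e1 : ((-1 : ℤ) ^ (2 * J - i)) = (-1) ^ i := by
      have e2 : (-1 : ℤ) ^ (2 * J - i) * (-1) ^ i = 1 := by
        rw [← pow_add, Nat.sub_add_cancel hi']
        exact Even.neg_one_pow ⟨J, by ring⟩
      have e3 : (-1 : ℤ) ^ i * (-1) ^ i = 1 := by
        rw [← pow_add]
        exact Even.neg_one_pow ⟨i, rfl⟩
      have e4 : (-1 : ℤ) ^ i ≠ 0 := pow_ne_zero _ (by norm_num)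
      exact mul_right_cancel₀ e4 (e2.trans e3.symm)
    rw [e1, zsmul_eq_mul]
    push_cast
    have : (i : ℂ) - J = -(J : ℂ) + i • 1 := by
      rw [nsmul_eq_mul, mul_one]; ring
    rw [this]
  rw [kap, h2, h1]
  simp

/-- the difference quotients -/
def DD (H : Polynomial (Polynomial ℂ)) (J : ℕ) (s t : ℝ) : ℂ :=
  (-1) ^ J * ∑ i ∈ Finset.range (2 * J + 1), (-1) ^ i * ((2 * J).choose i : ℂ) *
    hev H s (((i : ℝ) - J) * t)

lemma DD_eq (H : Polynomial (Polynomial ℂ)) (J : ℕ) (s t : ℝ) :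
    DD H J s t = ∑ k ∈ Finset.range (H.natDegree + 1), co H k s * kap J k * (t : ℂ) ^ k := by
  unfold DD kap
  simp_rw [hev_eq, Finset.mul_sum]
  rw [Finset.sum_comm]
  refine Finset.sum_congr rfl fun k _ => ?_
  rw [Finset.sum_mul]
  refine Finset.sum_congr rfl fun i _ => ?_
  push_cast
  rw [mul_pow]
  ring

/-- the limit of the difference quotients -/
def PP (H : Polynomial (Polynomial ℂ)) (J : ℕ) (s : ℝ) : ℂ :=
  if 2 * J < H.natDegree + 1 then co H (2 * J) s * kap J (2 * J) else 0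

lemma PP_lip (H : Polynomial (Polynomial ℂ)) (J : ℕ) (r : ℝ) :
    ∃ C : ℝ, 0 ≤ C ∧ ∀ s ∈ Icc 0 r, ‖PP H J s - PP H J 0‖ ≤ C * s := by
  by_cases h : 2 * J < H.natDegree + 1
  · obtain ⟨C, hC0, hC⟩ := co_lip H (2 * J) r
    refine ⟨C * ‖kap J (2 * J)‖, by positivity, fun s hs => ?_⟩
    rw [PP, PP, if_pos h, if_pos h, ← sub_mul, norm_mul]
    calc _ ≤ (C * s) * ‖kap J (2 * J)‖ := mul_le_mul_of_nonneg_right (hC s hs) (norm_nonneg _)
      _ = _ := by ring
  · refine ⟨0, le_rfl, fun s _ => ?_⟩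
    rw [PP, PP, if_neg h, if_neg h]
    simp

lemma DD_approx (H : Polynomial (Polynomial ℂ)) (J : ℕ) (r : ℝ) :
    ∃ C : ℝ, 0 ≤ C ∧ ∀ s ∈ Icc 0 r, ∀ t ∈ Ioc (0:ℝ) 1,
      ‖DD H J s t / (t : ℂ) ^ (2 * J) - PP H J s‖ ≤ C * t := by
  have hb : ∀ k, ∃ C : ℝ, ∀ s ∈ Icc 0 r, ‖co H k s‖ ≤ C := fun k =>
    (isCompact_Icc (a := (0:ℝ)) (b := r)).exists_bound_of_continuousOn (co_cont H k).continuousOn
  choose B hB using hb
  have hB0 : ∀ k, 0 ≤ |B k| := fun k => abs_nonneg _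
  refine ⟨∑ k ∈ Finset.range (H.natDegree + 1), |B k| * ‖kap J k‖,
    Finset.sum_nonneg fun k _ => mul_nonneg (hB0 k) (norm_nonneg _), fun s hs t ht => ?_⟩
  have ht0 : (t : ℂ) ≠ 0 := by exact_mod_cast ht.1.ne'
  -- termwise estimate
  have key : DD H J s t / (t : ℂ) ^ (2 * J) - PP H J s =
      ∑ k ∈ Finset.range (H.natDegree + 1),
        (if 2 * J < k then co H k s * kap J k * (t : ℂ) ^ (k - 2 * J) else 0) := by
    have h1 : PP H J s = ∑ k ∈ Finset.range (H.natDegree + 1),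
        (if k = 2 * J then co H k s * kap J k else 0) := by
      rw [Finset.sum_ite_eq']
      unfold PP
      simp only [Finset.mem_range]
    rw [h1, DD_eq, Finset.sum_div, ← Finset.sum_sub_distrib]
    refine Finset.sum_congr rfl fun k _ => ?_
    rcases lt_trichotomy k (2 * J) with h | h | h
    · rw [kap_zero J k h, if_neg (by omega), if_neg (by omega)]
      simp
    · subst h
      rw [if_pos rfl, if_neg (by omega)]
      field_simp
      ring
    · rw [if_neg (by omega), if_pos h, sub_zero]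
      have : (t : ℂ) ^ k = (t : ℂ) ^ (k - 2 * J) * (t : ℂ) ^ (2 * J) := by
        rw [← pow_add]; congr 1; omega
      rw [this]
      field_simp
  rw [key, Finset.sum_mul]
  refine (norm_sum_le _ _).trans (Finset.sum_le_sum fun k _ => ?_)
  split_ifs with h
  · rw [norm_mul, norm_mul, norm_pow, Complex.norm_real, Real.norm_eq_abs, abs_of_pos ht.1]
    have h1 : t ^ (k - 2 * J) ≤ t := by
      calc t ^ (k - 2 * J) ≤ t ^ 1 := pow_le_pow_of_le_one ht.1.le ht.2 (by omega)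
        _ = t := pow_one t
    have h2 : ‖co H k s‖ ≤ |B k| := (hB k s hs).trans (le_abs_self _)
    have h3 : 0 ≤ t ^ (k - 2 * J) := pow_nonneg ht.1.le _
    exact mul_le_mul (mul_le_mul_of_nonneg_right h2 (norm_nonneg _)) h1 h3
      (mul_nonneg (hB0 k) (norm_nonneg _))
  · rw [norm_zero]
    exact mul_nonneg (mul_nonneg (hB0 k) (norm_nonneg _)) ht.1.le

/-! ### positivity -/

section pos

variable {X : Type} [TopologicalSpace X] (Λ : (X →ᵇ ℂ) →L[ℂ] ℂ) (hn : ∀ g, ‖Λ g‖ ≤ ‖g‖)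
  (h1 : Λ 1 = 1)

include hn h1

lemma pos (F : X →ᵇ ℂ) (hF : ∀ x, 0 ≤ (F x).re) : 0 ≤ (Λ F).re := by
  by_contra hcon
  push Not at hcon
  set B := ‖F‖ with hB
  have hB0 : 0 ≤ B := norm_nonneg _
  have key : ∀ ε : ℝ, 0 < ε → -(ε * (B ^ 2 + 1)) ≤ (Λ F).re := by
    intro ε hε
    have hx : ∀ x, ‖(1 - (ε : ℂ) • F) x‖ ≤ 1 + ε ^ 2 * (B ^ 2 + 1) := by
      intro x
      have e1 : (1 - (ε : ℂ) • F) x = 1 - (ε : ℂ) * F x := rfl
      have e2 : ‖(1 - (ε : ℂ) * F x : ℂ)‖ ^ 2 = 1 - 2 * ε * (F x).re + ε ^ 2 * ‖F x‖ ^ 2 := by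
        rw [← Complex.normSq_eq_norm_sq, ← Complex.normSq_eq_norm_sq, Complex.normSq_apply,
          Complex.normSq_apply]
        simp only [Complex.sub_re, Complex.one_re, Complex.re_ofReal_mul, Complex.sub_im,
          Complex.one_im, Complex.im_ofReal_mul]
        ring
      have e3 : ‖F x‖ ≤ B := F.norm_coe_le_norm x
      have e4 : ‖F x‖ ^ 2 ≤ B ^ 2 := by
        have := norm_nonneg (F x)
        nlinarith
      rw [e1]
      refine abs_le_of_sq_le_sq' ?_ (by positivity) |>.2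
      rw [e2]
      have e5 := hF x
      have e6 : 0 ≤ ε * (F x).re := mul_nonneg hε.le e5
      nlinarith [sq_nonneg ε, sq_nonneg (ε ^ 2 * (B ^ 2 + 1)), mul_le_mul_of_nonneg_left e4
        (sq_nonneg ε)]
    have h2 : ‖1 - (ε : ℂ) • F‖ ≤ 1 + ε ^ 2 * (B ^ 2 + 1) :=
      (BoundedContinuousFunction.norm_le (by positivity)).2 hx
    have h3 := hn (1 - (ε : ℂ) • F)
    have h4 : (Λ (1 - (ε : ℂ) • F)).re = 1 - ε * (Λ F).re := by
      rw [map_sub, map_smul, h1, smul_eq_mul, Complex.sub_re, Complex.one_re,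
        Complex.re_ofReal_mul]
    have h5 := Complex.re_le_norm (Λ (1 - (ε : ℂ) • F))
    rw [h4] at h5
    have h6 : -(ε * (Λ F).re) ≤ ε * (ε * (B ^ 2 + 1)) := by nlinarith
    have h7 : -(Λ F).re ≤ ε * (B ^ 2 + 1) := by
      have : ε * (-(Λ F).re) ≤ ε * (ε * (B ^ 2 + 1)) := by linarith
      exact le_of_mul_le_mul_left this hε
    linarith
  have hpos : 0 < -(Λ F).re / (2 * (B ^ 2 + 1)) := by
    apply div_pos (by linarith) (by positivity)
  have h := key _ hpos
  have e : -(Λ F).re / (2 * (B ^ 2 + 1)) * (B ^ 2 + 1) = -(Λ F).re / 2 := by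
    have : (B ^ 2 + 1) ≠ 0 := by positivity
    field_simp
  rw [e] at h
  linarith

lemma mono (F G : X →ᵇ ℂ) (h : ∀ x, (F x).re ≤ (G x).re) : (Λ F).re ≤ (Λ G).re := by
  have := pos Λ hn h1 (G - F) (fun x => by
    show 0 ≤ (G x - F x).re
    rw [Complex.sub_re]
    linarith [h x])
  rw [map_sub, Complex.sub_re] at this
  linarith

end pos

/-! ### the phases -/

section main

variable {X : Type} [TopologicalSpace X] (a b : C(X, ℝ))

/-- `exp (i (-s a + y b))` -/
def ph (s y : ℝ) : X →ᵇ ℂ :=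
  BoundedContinuousFunction.ofNormedAddCommGroup
    (fun x => Complex.exp (((-s * a x + y * b x : ℝ) : ℂ) * Complex.I)) (by fun_prop) 1
    (fun x => by rw [Complex.norm_exp_ofReal_mul_I])

lemma ph_apply (s y : ℝ) (x : X) :
    ph a b s y x = Complex.exp (((-s * a x + y * b x : ℝ) : ℂ) * Complex.I) := rfl

/-- dyadic scales -/
def tn (n : ℕ) : ℝ := (1 / 2) ^ n

lemma tn_pos (n : ℕ) : 0 < tn n := by unfold tn; positivity
lemma tn_le (n : ℕ) : tn n ≤ 1 := pow_le_one₀ (by norm_num) (by norm_num)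
lemma tn_succ (n : ℕ) : tn n = 2 * tn (n + 1) := by unfold tn; rw [pow_succ]; ring
lemma tn_tendsto : Tendsto tn atTop (𝓝 0) :=
  tendsto_pow_atTop_nhds_zero_of_lt_one (by norm_num) (by norm_num)

/-- the normalised weights -/
def uu (n : ℕ) (x : X) : ℝ := (2 - 2 * Real.cos (tn n * b x)) / tn n ^ 2

lemma uu_nonneg (n : ℕ) (x : X) : 0 ≤ uu b n x := by
  unfold uu
  have := Real.cos_le_one (tn n * b x)
  have := tn_pos n
  apply div_nonneg (by linarith) (by positivity)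

lemma uu_le (n : ℕ) (x : X) : uu b n x ≤ 4 / tn n ^ 2 := by
  unfold uu
  have := Real.neg_one_le_cos (tn n * b x)
  have := tn_pos n
  apply div_le_div_of_nonneg_right (by linarith) (by positivity)

lemma uu_succ (n : ℕ) (x : X) : uu b n x ≤ uu b (n + 1) x := by
  unfold uu
  have h := tn_pos (n + 1)
  rw [tn_succ n]
  set t := tn (n + 1) with ht
  have e1 : Real.cos (2 * t * b x) = 2 * Real.cos (t * b x) ^ 2 - 1 := by
    rw [mul_assoc, Real.cos_two_mul]
  rw [e1, div_le_div_iff₀ (by positivity) (by positivity)]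
  have h2 := Real.cos_le_one (t * b x)
  have h3 : 0 ≤ t ^ 4 := by positivity
  have h4 : 0 ≤ t ^ 2 := by positivity
  nlinarith [mul_nonneg h4 (sq_nonneg (1 - Real.cos (t * b x)))]

/-- the weights as bounded continuous functions -/
def U (n : ℕ) : X →ᵇ ℂ :=
  ((tn n : ℂ) ^ 2)⁻¹ • (2 - ph a b 0 (tn n) - ph a b 0 (-tn n))

lemma U_apply (n : ℕ) (x : X) : U a b n x = (uu b n x : ℂ) := by
  have e1 : U a b n x = ((tn n : ℂ) ^ 2)⁻¹ *
      (2 - Complex.exp (((-0 * a x + tn n * b x : ℝ) : ℂ) * Complex.I) -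
        Complex.exp (((-0 * a x + -tn n * b x : ℝ) : ℂ) * Complex.I)) := rfl
  rw [e1, uu, Complex.exp_mul_I, Complex.exp_mul_I]
  simp only [neg_zero, zero_mul, zero_add, neg_mul, Complex.ofReal_neg, Complex.cos_neg,
    Complex.sin_neg]
  push_cast
  rw [div_eq_inv_mul]
  congr 1
  ring

lemma U_pow_apply (n J : ℕ) (x : X) : (U a b n ^ J) x = ((uu b n x ^ J : ℝ) : ℂ) := by
  have : (U a b n ^ J) x = (U a b n x) ^ J := rfl
  rw [this, U_apply, Complex.ofReal_pow]

lemma one_sub_ph_re (s : ℝ) (x : X) : ((1 - ph a b s 0 : X →ᵇ ℂ) x).re = 1 - Real.cos (s * a x) := by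
  have e1 : (1 - ph a b s 0 : X →ᵇ ℂ) x = 1 - ph a b s 0 x := rfl
  rw [e1, ph_apply, Complex.sub_re, Complex.one_re, Complex.exp_ofReal_mul_I_re]
  congr 1
  rw [zero_mul, add_zero, neg_mul, Real.cos_neg]

lemma U_mul_re (n J : ℕ) (s : ℝ) (x : X) :
    ((U a b n ^ J * (1 - ph a b s 0) : X →ᵇ ℂ) x).re =
      uu b n x ^ J * (1 - Real.cos (s * a x)) := by
  have e1 : (U a b n ^ J * (1 - ph a b s 0) : X →ᵇ ℂ) x =
      (U a b n ^ J) x * (1 - ph a b s 0 : X →ᵇ ℂ) x := rfl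
  rw [e1, U_pow_apply, Complex.re_ofReal_mul, one_sub_ph_re]

/-- binomial expansion -/
lemma U_mul_ph (n J : ℕ) (s : ℝ) :
    U a b n ^ J * ph a b s 0 = ((tn n : ℂ) ^ (2 * J))⁻¹ • ((-1) ^ J : ℂ) •
      ∑ i ∈ Finset.range (2 * J + 1), ((-1) ^ i * ((2 * J).choose i : ℂ)) •
        ph a b s (((i : ℝ) - J) * tn n) := by
  ext x
  have e1 : (U a b n ^ J * ph a b s 0 : X →ᵇ ℂ) x = (U a b n x) ^ J * ph a b s 0 x := rfl
  have e2 : (((tn n : ℂ) ^ (2 * J))⁻¹ • ((-1) ^ J : ℂ) •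
      ∑ i ∈ Finset.range (2 * J + 1), ((-1) ^ i * ((2 * J).choose i : ℂ)) •
        ph a b s (((i : ℝ) - J) * tn n) : X →ᵇ ℂ) x = ((tn n : ℂ) ^ (2 * J))⁻¹ * ((-1) ^ J *
      ∑ i ∈ Finset.range (2 * J + 1), ((-1) ^ i * ((2 * J).choose i : ℂ)) *
        ph a b s (((i : ℝ) - J) * tn n) x) := by
    rw [BoundedContinuousFunction.coe_smul, BoundedContinuousFunction.coe_smul]
    simp only [smul_eq_mul, BoundedContinuousFunction.coe_sum, Finset.sum_apply,
      BoundedContinuousFunction.coe_smul]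
  rw [e1, e2]
  set z : ℂ := Complex.exp (((tn n * b x : ℝ) : ℂ) * Complex.I) with hz
  have hz0 : z ≠ 0 := Complex.exp_ne_zero _
  set p : ℂ := ph a b s 0 x with hp
  have hph : ∀ i : ℕ, ph a b s (((i : ℝ) - J) * tn n) x = p * (z ^ i / z ^ J) := by
    intro i
    rw [hp, ph_apply, ph_apply, hz, ← Complex.exp_nat_mul, ← Complex.exp_nat_mul,
      ← Complex.exp_sub, ← Complex.exp_add]
    congr 1
    push_cast
    ring
  have hU : U a b n x = ((tn n : ℂ) ^ 2)⁻¹ * (-(1 - z) ^ 2 / z) := by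
    have e3 : U a b n x = ((tn n : ℂ) ^ 2)⁻¹ *
      (2 - Complex.exp (((-0 * a x + tn n * b x : ℝ) : ℂ) * Complex.I) -
        Complex.exp (((-0 * a x + -tn n * b x : ℝ) : ℂ) * Complex.I)) := rfl
    have e4 : Complex.exp (((-0 * a x + tn n * b x : ℝ) : ℂ) * Complex.I) = z := by
      rw [hz]; congr 2; push_cast; ring
    have e5 : Complex.exp (((-0 * a x + -tn n * b x : ℝ) : ℂ) * Complex.I) = z⁻¹ := by
      rw [hz, ← Complex.exp_neg]; congr 1; push_cast; ring
    rw [e3, e4, e5]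
    congr 1
    field_simp
    ring
  have hbin : (1 - z) ^ (2 * J) = ∑ i ∈ Finset.range (2 * J + 1),
      (-1) ^ i * ((2 * J).choose i : ℂ) * z ^ i := by
    have := add_pow (-z) 1 (2 * J)
    rw [show (1 - z) = -z + 1 by ring, this]
    refine Finset.sum_congr rfl fun i _ => ?_
    rw [one_pow, neg_pow]
    ring
  rw [hU, mul_pow, div_pow, neg_pow ((1 - z) ^ 2), ← pow_mul, hbin, inv_pow, ← pow_mul]
  simp_rw [hph]
  have hz1 : z ^ J ≠ 0 := pow_ne_zero _ hz0
  rw [mul_assoc]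
  congr 1
  rw [mul_div_assoc, mul_assoc]
  congr 1
  rw [div_mul_eq_mul_div, Finset.sum_mul, Finset.sum_div]
  refine Finset.sum_congr rfl fun i _ => ?_
  field_simp

variable (Λ : (X →ᵇ ℂ) →L[ℂ] ℂ) (hn : ∀ g, ‖Λ g‖ ≤ ‖g‖) (h1 : Λ 1 = 1)
  (H : Polynomial (Polynomial ℂ)) (r : ℝ) (hr : 0 < r)
  (hH : ∀ s y : ℝ, 0 ≤ s → s ≤ r → y ^ 2 ≤ 2 * r * s - s ^ 2 → Λ (ph a b s y) = hev H s y)

/-- the even moments at scale `n` -/
def bet (J n : ℕ) : ℝ := (Λ (U a b n ^ J)).re

/-- the weighted tails at scale `n` -/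
def rho (J n : ℕ) (s : ℝ) : ℝ := (Λ (U a b n ^ J * (1 - ph a b s 0))).re

include hn h1

lemma bet_mono (J : ℕ) : Monotone (bet a b Λ J) := by
  refine monotone_nat_of_le_succ fun n => ?_
  refine mono Λ hn h1 _ _ fun x => ?_
  rw [U_pow_apply, U_pow_apply, Complex.ofReal_re, Complex.ofReal_re]
  exact pow_le_pow_left₀ (uu_nonneg b n x) (uu_succ b n x) J

lemma rho_mono (J : ℕ) (s : ℝ) {m n : ℕ} (h : m ≤ n) : rho a b Λ J m s ≤ rho a b Λ J n s := by
  refine mono Λ hn h1 _ _ fun x => ?_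
  rw [U_mul_re, U_mul_re]
  refine mul_le_mul_of_nonneg_right (pow_le_pow_left₀ (uu_nonneg b m x) ?_ J)
    (by linarith [Real.cos_le_one (s * a x)])
  exact monotone_nat_of_le_succ (f := fun n => uu b n x) (fun n => uu_succ b n x) h

lemma rho_nonneg (J n : ℕ) (s : ℝ) : 0 ≤ rho a b Λ J n s := by
  refine pos Λ hn h1 _ fun x => ?_
  rw [U_mul_re]
  exact mul_nonneg (pow_nonneg (uu_nonneg b n x) J) (by linarith [Real.cos_le_one (s * a x)])

lemma rho_sub (J : ℕ) (s : ℝ) {m n : ℕ} (h : m ≤ n) :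
    rho a b Λ J n s - rho a b Λ J m s ≤ 2 * (bet a b Λ J n - bet a b Λ J m) := by
  have key : 0 ≤ (Λ ((2 : ℂ) • (U a b n ^ J - U a b m ^ J) -
      (U a b n ^ J * (1 - ph a b s 0) - U a b m ^ J * (1 - ph a b s 0)))).re := by
    refine pos Λ hn h1 _ fun x => ?_
    have e1 : ((2 : ℂ) • (U a b n ^ J - U a b m ^ J) -
      (U a b n ^ J * (1 - ph a b s 0) - U a b m ^ J * (1 - ph a b s 0)) : X →ᵇ ℂ) x =
      (2 : ℂ) * ((U a b n ^ J) x - (U a b m ^ J) x) -
      ((U a b n ^ J * (1 - ph a b s 0) : X →ᵇ ℂ) x - (U a b m ^ J * (1 - ph a b s 0) : X →ᵇ ℂ) x) :=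
      rfl
    rw [e1, U_pow_apply, U_pow_apply, Complex.sub_re, Complex.sub_re, U_mul_re, U_mul_re]
    have e2 : ((2 : ℂ) * (((uu b n x ^ J : ℝ) : ℂ) - ((uu b m x ^ J : ℝ) : ℂ))).re =
        2 * (uu b n x ^ J - uu b m x ^ J) := by
      rw [← Complex.ofReal_sub, show (2 : ℂ) = ((2 : ℝ) : ℂ) by push_cast; rfl,
        ← Complex.ofReal_mul, Complex.ofReal_re]
    rw [e2]
    have h2 : uu b m x ^ J ≤ uu b n x ^ J := pow_le_pow_left₀ (uu_nonneg b m x)
      (monotone_nat_of_le_succ (f := fun n => uu b n x) (fun n => uu_succ b n x) h) J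
    have h3 := Real.neg_one_le_cos (s * a x)
    nlinarith
  rw [map_sub, map_smul, map_sub, map_sub, Complex.sub_re, Complex.sub_re, smul_eq_mul] at key
  have e3 : ((2 : ℂ) * (Λ (U a b n ^ J) - Λ (U a b m ^ J))).re =
      2 * (bet a b Λ J n - bet a b Λ J m) := by
    rw [show (2 : ℂ) = ((2 : ℝ) : ℂ) by push_cast; rfl, Complex.re_ofReal_mul, Complex.sub_re]
    rfl
  rw [e3] at key
  show (Λ _).re - (Λ _).re ≤ _
  linarith

lemma rho_succ (J n : ℕ) (s : ℝ) :
    rho a b Λ (J + 1) n s ≤ 4 / tn n ^ 2 * rho a b Λ J n s := by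
  have key := mono Λ hn h1 (U a b n ^ (J + 1) * (1 - ph a b s 0))
    (((4 / tn n ^ 2 : ℝ) : ℂ) • (U a b n ^ J * (1 - ph a b s 0))) (fun x => by
      have e1 : (((4 / tn n ^ 2 : ℝ) : ℂ) • (U a b n ^ J * (1 - ph a b s 0)) : X →ᵇ ℂ) x =
        ((4 / tn n ^ 2 : ℝ) : ℂ) * (U a b n ^ J * (1 - ph a b s 0) : X →ᵇ ℂ) x := rfl
      rw [e1, Complex.re_ofReal_mul, U_mul_re, U_mul_re, pow_succ, mul_comm (uu b n x ^ J),
        mul_assoc]
      refine mul_le_mul_of_nonneg_right (uu_le b n x) ?_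
      exact mul_nonneg (pow_nonneg (uu_nonneg b n x) J) (by linarith [Real.cos_le_one (s * a x)]))
  rw [map_smul, smul_eq_mul, Complex.re_ofReal_mul] at key
  exact key

omit hn h1 in
include hH in
lemma U_value (J n : ℕ) (s : ℝ) (hs : 0 ≤ s) (hsr : s ≤ r)
    (hJ : ((J : ℝ) * tn n) ^ 2 ≤ 2 * r * s - s ^ 2) :
    Λ (U a b n ^ J * ph a b s 0) = DD H J s (tn n) / (tn n : ℂ) ^ (2 * J) := by
  rw [U_mul_ph, map_smul, map_smul, map_sum, DD, div_eq_inv_mul, smul_eq_mul, smul_eq_mul]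
  congr 2
  refine Finset.sum_congr rfl fun i hi => ?_
  rw [map_smul, smul_eq_mul, hH s _ hs hsr]
  refine le_trans ?_ hJ
  have hi' : i ≤ 2 * J := Nat.lt_succ_iff.1 (Finset.mem_range.1 hi)
  have hi2 : (i : ℝ) ≤ 2 * J := by exact_mod_cast hi'
  have hi0 : (0 : ℝ) ≤ i := Nat.cast_nonneg i
  rw [mul_pow, mul_pow]
  refine mul_le_mul_of_nonneg_right ?_ (sq_nonneg _)
  nlinarith

omit hn h1 in
include hH in
lemma rho_eq (J n : ℕ) (s : ℝ) (hs : 0 ≤ s) (hsr : s ≤ r)
    (hJ : ((J : ℝ) * tn n) ^ 2 ≤ 2 * r * s - s ^ 2) :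
    rho a b Λ J n s = bet a b Λ J n - (DD H J s (tn n) / (tn n : ℂ) ^ (2 * J)).re := by
  have h2 : U a b n ^ J * (1 - ph a b s 0) = U a b n ^ J - U a b n ^ J * ph a b s 0 := by
    rw [mul_sub, mul_one]
  rw [rho, h2, map_sub, Complex.sub_re, U_value a b Λ H r hH J n s hs hsr hJ]
  rfl

include hr hH

/-- the induction -/
lemma main_induction (J : ℕ) : (∃ C : ℝ, ∀ n, ∀ s, 0 < s → s ≤ r → rho a b Λ J n s ≤ C * s) ∧
    (∃ M : ℝ, Tendsto (bet a b Λ J) atTop (𝓝 M) ∧ M = (PP H J 0).re) := by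
  have hdom : ∀ (J : ℕ) (s : ℝ), 0 < s → s ≤ r → ∀ᶠ n in atTop,
      ((J : ℝ) * tn n) ^ 2 ≤ 2 * r * s - s ^ 2 := by
    intro J s hs hsr
    have h2 : Tendsto (fun n => ((J : ℝ) * tn n) ^ 2) atTop (𝓝 (((J : ℝ) * 0) ^ 2)) :=
      (tn_tendsto.const_mul (J : ℝ)).pow 2
    have h3 : ((J : ℝ) * 0) ^ 2 < 2 * r * s - s ^ 2 := by nlinarith
    filter_upwards [h2.eventually (gt_mem_nhds h3)] with n hn using hn.le
  -- if the moments are bounded, the rest follows
  have step : ∀ J : ℕ, (∃ B : ℝ, ∀ n, bet a b Λ J n ≤ B) →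
      (∀ n, Tendsto (fun s => rho a b Λ J n s) (𝓝[>] 0) (𝓝 0)) →
      (∃ C : ℝ, ∀ n, ∀ s, 0 < s → s ≤ r → rho a b Λ J n s ≤ C * s) ∧
      (∃ M : ℝ, Tendsto (bet a b Λ J) atTop (𝓝 M) ∧ M = (PP H J 0).re) := by
    intro J hB hzero
    obtain ⟨B, hB⟩ := hB
    have hmono := bet_mono a b Λ hn h1 J
    obtain ⟨M, hM⟩ : ∃ M, Tendsto (bet a b Λ J) atTop (𝓝 M) :=
      ⟨_, tendsto_atTop_ciSup hmono ⟨B, by rintro _ ⟨n, rfl⟩; exact hB n⟩⟩
    obtain ⟨C1, hC10, hC1⟩ := DD_approx H J r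
    obtain ⟨C2, hC20, hC2⟩ := PP_lip H J r
    have hDlim : ∀ s, 0 < s → s ≤ r →
        Tendsto (fun n => (DD H J s (tn n) / (tn n : ℂ) ^ (2 * J)).re) atTop (𝓝 (PP H J s).re) := by
      intro s hs hsr
      have h3 : Tendsto (fun n => DD H J s (tn n) / (tn n : ℂ) ^ (2 * J) - PP H J s) atTop
          (𝓝 0) := by
        refine squeeze_zero_norm (fun n => hC1 s ⟨hs.le, hsr⟩ (tn n) ⟨tn_pos n, tn_le n⟩) ?_
        simpa using tn_tendsto.const_mul C1
      have h4 := h3.add_const (PP H J s)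
      simp only [sub_add_cancel, zero_add] at h4
      exact (Complex.continuous_re.tendsto _).comp h4
    have hrholim : ∀ s, 0 < s → s ≤ r →
        Tendsto (fun n => rho a b Λ J n s) atTop (𝓝 (M - (PP H J s).re)) := by
      intro s hs hsr
      have h3 := hM.sub (hDlim s hs hsr)
      refine h3.congr' ?_
      filter_upwards [hdom J s hs hsr] with n hn'
      exact (rho_eq a b Λ H r hH J n s hs.le hsr hn').symm
    have hrhole : ∀ n s, 0 < s → s ≤ r → rho a b Λ J n s ≤ M - (PP H J s).re := by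
      intro n s hs hsr
      refine ge_of_tendsto (hrholim s hs hsr) ?_
      filter_upwards [eventually_ge_atTop n] with k hk
      exact rho_mono a b Λ hn h1 J s hk
    have hPlim : Tendsto (fun s => (PP H J s).re) (𝓝[>] 0) (𝓝 (PP H J 0).re) := by
      have h3 : Tendsto (fun s => PP H J s - PP H J 0) (𝓝[>] (0:ℝ)) (𝓝 0) := by
        have h4 : Tendsto (fun s : ℝ => C2 * s) (𝓝[>] (0:ℝ)) (𝓝 0) := by
          have : Tendsto (fun s : ℝ => C2 * s) (𝓝 (0:ℝ)) (𝓝 (C2 * 0)) :=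
            (continuous_const.mul continuous_id).tendsto 0
          rw [mul_zero] at this
          exact this.mono_left nhdsWithin_le_nhds
        refine squeeze_zero_norm' ?_ h4
        have h5 : Ioc 0 r ∈ 𝓝[>] (0:ℝ) := Ioc_mem_nhdsGT hr
        filter_upwards [h5] with s hs
        exact hC2 s ⟨hs.1.le, hs.2⟩
      have h4 := h3.add_const (PP H J 0)
      simp only [sub_add_cancel, zero_add] at h4
      exact (Complex.continuous_re.tendsto _).comp h4
    have hMeq : M = (PP H J 0).re := by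
      apply le_antisymm
      · -- M ≤ Re P(0) + 2 ε
        refine le_of_forall_pos_le_add fun ε hε => ?_
        have h3 : ∀ᶠ n in atTop, M - ε / 2 < bet a b Λ J n :=
          hM.eventually (lt_mem_nhds (by linarith))
        obtain ⟨m, hm⟩ := h3.exists
        have h4 : ∀ s, 0 < s → s ≤ r → M - (PP H J s).re ≤ rho a b Λ J m s + ε := by
          intro s hs hsr
          refine le_of_tendsto (hrholim s hs hsr) ?_
          filter_upwards [eventually_ge_atTop m] with n hmn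
          have h5 := rho_sub a b Λ hn h1 J s hmn
          have h6 : bet a b Λ J n ≤ M := hmono.ge_of_tendsto hM n
          linarith
        have h7 : M - (PP H J 0).re ≤ 0 + ε := by
          refine le_of_tendsto_of_tendsto (b := 𝓝[>] (0:ℝ)) (hPlim.const_sub M)
            ((hzero m).add_const ε) ?_
          have h5 : Ioc 0 r ∈ 𝓝[>] (0:ℝ) := Ioc_mem_nhdsGT hr
          filter_upwards [h5] with s hs
          exact h4 s hs.1 hs.2
        linarith
      · have h7 : 0 ≤ M - (PP H J 0).re := by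
          refine ge_of_tendsto (hPlim.const_sub M) ?_
          have h5 : Ioc 0 r ∈ 𝓝[>] (0:ℝ) := Ioc_mem_nhdsGT hr
          filter_upwards [h5] with s hs
          exact (rho_nonneg a b Λ hn h1 J 0 s).trans (hrhole 0 s hs.1 hs.2)
        linarith
    refine ⟨⟨C2, fun n s hs hsr => ?_⟩, M, hM, hMeq⟩
    have h3 := hrhole n s hs hsr
    have h4 := hC2 s ⟨hs.le, hsr⟩
    have h5 := Complex.abs_re_le_norm (PP H J s - PP H J 0)
    rw [Complex.sub_re] at h5
    have h6 := neg_abs_le ((PP H J s).re - (PP H J 0).re)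
    rw [hMeq] at h3
    linarith
  -- tails at a fixed scale tend to zero
  have hzero : ∀ J n, Tendsto (fun s => rho a b Λ J n s) (𝓝[>] 0) (𝓝 0) := by
    intro J
    induction J with
    | zero =>
      intro n
      obtain ⟨C2, hC20, hC2⟩ := PP_lip H 0 r
      have hval : ∀ s, 0 < s → s ≤ r → rho a b Λ 0 n s = (hev H 0 0 - hev H s 0).re := by
        intro s hs hsr
        have e1 : U a b n ^ 0 * (1 - ph a b s 0) = 1 - ph a b s 0 := by rw [pow_zero, one_mul]
        rw [rho, e1, map_sub, h1, hH s 0 hs.le hsr (by nlinarith)]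
        have e2 : ph a b 0 0 = 1 := by
          ext x
          rw [ph_apply]
          simp
        have e3 := hH 0 0 le_rfl hr.le (by simp)
        rw [e2, h1] at e3
        rw [← e3]
      have hcont : Tendsto (fun s : ℝ => (hev H 0 0 - hev H s 0).re) (𝓝[>] 0) (𝓝 0) := by
        have h3 : Continuous (fun s : ℝ => (hev H 0 0 - hev H s 0).re) := by
          have : ∀ s : ℝ, hev H s 0 = ∑ k ∈ Finset.range (H.natDegree + 1),
              co H k s * ((0 : ℝ) : ℂ) ^ k := fun s => hev_eq H s 0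
          simp_rw [this]
          have := fun k => co_cont H k
          fun_prop
        have h4 := h3.tendsto 0
        simp only [sub_self, Complex.zero_re] at h4
        exact h4.mono_left nhdsWithin_le_nhds
      refine hcont.congr' ?_
      have h5 : Ioc 0 r ∈ 𝓝[>] (0:ℝ) := Ioc_mem_nhdsGT hr
      filter_upwards [h5] with s hs
      exact (hval s hs.1 hs.2).symm
    | succ J ih =>
      intro n
      refine squeeze_zero (fun s => rho_nonneg a b Λ hn h1 (J + 1) n s)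
        (fun s => rho_succ a b Λ hn h1 J n s) ?_
      simpa using (ih n).const_mul (4 / tn n ^ 2)
  induction J with
  | zero =>
    refine step 0 ⟨1, fun n => ?_⟩ (hzero 0)
    rw [bet, pow_zero, h1, Complex.one_re]
  | succ J ih =>
    refine step (J + 1) ?_ (hzero (J + 1))
    obtain ⟨⟨C, hC⟩, _⟩ := ih
    obtain ⟨C1, hC10, hC1⟩ := DD_approx H (J + 1) r
    obtain ⟨C2, hC20, hC2⟩ := PP_lip H (J + 1) r
    -- choose s = (J+1)^2 t^2 / r
    have hev' : ∀ᶠ n in atTop, ((J : ℝ) + 1) ^ 2 * tn n ^ 2 / r ≤ r := by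
      have h2 : Tendsto (fun n => ((J : ℝ) + 1) ^ 2 * tn n ^ 2 / r) atTop
          (𝓝 (((J : ℝ) + 1) ^ 2 * 0 ^ 2 / r)) := ((tn_tendsto.pow 2).const_mul _).div_const r
      have h3 : ((J : ℝ) + 1) ^ 2 * 0 ^ 2 / r < r := by simpa using hr
      filter_upwards [h2.eventually (gt_mem_nhds h3)] with n hn using hn.le
    obtain ⟨N, hN⟩ := eventually_atTop.1 hev'
    have hbound : ∀ n, N ≤ n → bet a b Λ (J + 1) n ≤
        4 * |C| * ((J : ℝ) + 1) ^ 2 / r + (C1 + (‖PP H (J + 1) 0‖ + C2 * r)) := by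
      intro n hNn
      set s : ℝ := ((J : ℝ) + 1) ^ 2 * tn n ^ 2 / r with hs
      have ht := tn_pos n
      have hs0 : 0 < s := by positivity
      have hsr : s ≤ r := hN n hNn
      have hsrr : r * s = ((J : ℝ) + 1) ^ 2 * tn n ^ 2 := by
        rw [hs]; field_simp
      have hdom' : (((J + 1 : ℕ) : ℝ) * tn n) ^ 2 ≤ 2 * r * s - s ^ 2 := by
        push_cast
        rw [mul_pow, ← hsrr]
        nlinarith
      have h3 := rho_eq a b Λ H r hH (J + 1) n s hs0.le hsr hdom'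
      have h4 := rho_succ a b Λ hn h1 J n s
      have h5 := hC n s hs0 hsr
      have h6 : 4 / tn n ^ 2 * rho a b Λ J n s ≤ 4 * |C| * ((J : ℝ) + 1) ^ 2 / r := by
        have h7 : rho a b Λ J n s ≤ |C| * s :=
          h5.trans (mul_le_mul_of_nonneg_right (le_abs_self C) hs0.le)
        calc 4 / tn n ^ 2 * rho a b Λ J n s ≤ 4 / tn n ^ 2 * (|C| * s) :=
              mul_le_mul_of_nonneg_left h7 (by positivity)
          _ = 4 * |C| * ((J : ℝ) + 1) ^ 2 / r := by
              rw [hs]; field_simp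
      have h8 := hC1 s ⟨hs0.le, hsr⟩ (tn n) ⟨ht, tn_le n⟩
      have h9 : (DD H (J + 1) s (tn n) / (tn n : ℂ) ^ (2 * (J + 1))).re ≤
          C1 + (‖PP H (J + 1) 0‖ + C2 * r) := by
        refine (Complex.re_le_norm _).trans ?_
        have q1 : ‖DD H (J + 1) s (tn n) / (tn n : ℂ) ^ (2 * (J + 1))‖ ≤
            ‖DD H (J + 1) s (tn n) / (tn n : ℂ) ^ (2 * (J + 1)) - PP H (J + 1) s‖ +
              ‖PP H (J + 1) s‖ := by
          have := norm_add_le (DD H (J + 1) s (tn n) / (tn n : ℂ) ^ (2 * (J + 1)) -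
            PP H (J + 1) s) (PP H (J + 1) s)
          rwa [sub_add_cancel] at this
        have q2 : ‖PP H (J + 1) s‖ ≤ ‖PP H (J + 1) s - PP H (J + 1) 0‖ + ‖PP H (J + 1) 0‖ := by
          have := norm_add_le (PP H (J + 1) s - PP H (J + 1) 0) (PP H (J + 1) 0)
          rwa [sub_add_cancel] at this
        have q3 := hC2 s ⟨hs0.le, hsr⟩
        have q4 : C2 * s ≤ C2 * r := mul_le_mul_of_nonneg_left hsr hC20
        have q5 : C1 * tn n ≤ C1 := by
          have := mul_le_mul_of_nonneg_left (tn_le n) hC10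
          rwa [mul_one] at this
        linarith
      linarith
    refine ⟨4 * |C| * ((J : ℝ) + 1) ^ 2 / r + (C1 + (‖PP H (J + 1) 0‖ + C2 * r)), fun n => ?_⟩
    rcases le_total N n with h | h
    · exact hbound n h
    · exact (bet_mono a b Λ hn h1 (J + 1) h).trans (hbound N le_rfl)

/-- high moments vanish -/
lemma bet_zero (J : ℕ) (hJ : H.natDegree + 1 ≤ 2 * J) (n : ℕ) : bet a b Λ J n ≤ 0 := by
  obtain ⟨_, M, hM, hM2⟩ := main_induction a b Λ hn h1 H r hr hH J
  have h2 : PP H J 0 = 0 := by rw [PP, if_neg (by omega)]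
  rw [h2, Complex.zero_re] at hM2
  rw [hM2] at hM
  exact (bet_mono a b Λ hn h1 J).ge_of_tendsto hM n

/-- the functional does not see the second phase -/
lemma shift_eq (n : ℕ) (s : ℝ) : Λ (ph a b s (tn n)) = Λ (ph a b s 0) := by
  rw [← sub_eq_zero, ← map_sub, ← norm_le_zero_iff]
  refine le_of_forall_pos_le_add fun ε hε => ?_
  rw [zero_add]
  set J := H.natDegree + 1 with hJ
  have hb := bet_zero a b Λ hn h1 H r hr hH J (by omega) n
  set F : X →ᵇ ℂ := ph a b s (tn n) - ph a b s 0 with hF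
  -- rotate
  obtain ⟨c, hc1, hc2⟩ : ∃ c : ℂ, ‖c‖ = 1 ∧ c * Λ F = ((‖Λ F‖ : ℝ) : ℂ) := by
    rcases eq_or_ne (Λ F) 0 with h | h
    · exact ⟨1, norm_one, by rw [h]; simp⟩
    · refine ⟨((‖Λ F‖ : ℝ) : ℂ) / Λ F, ?_, by field_simp⟩
      rw [norm_div, Complex.norm_real, norm_norm, div_self (norm_ne_zero_iff.2 h)]
  have ht := tn_pos n
  -- pointwise bound
  set K : ℝ := 2 / (ε ^ 2) ^ J * (tn n ^ 2) ^ J with hK
  have hK0 : 0 ≤ K := by positivity
  have hpt : ∀ x, ((c • F : X →ᵇ ℂ) x).re ≤ ((((ε : ℝ) : ℂ) • 1 + ((K : ℝ) : ℂ) • U a b n ^ J :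
      X →ᵇ ℂ) x).re := by
    intro x
    have e1 : (c • F : X →ᵇ ℂ) x = c * (ph a b s (tn n) x - ph a b s 0 x) := rfl
    have e2 : (((ε : ℝ) : ℂ) • 1 + ((K : ℝ) : ℂ) • U a b n ^ J : X →ᵇ ℂ) x =
      ((ε : ℝ) : ℂ) * 1 + ((K : ℝ) : ℂ) * (U a b n ^ J) x := rfl
    rw [e1, e2, U_pow_apply, mul_one, ← Complex.ofReal_mul, ← Complex.ofReal_add,
      Complex.ofReal_re]
    refine (Complex.re_le_norm _).trans ?_
    rw [norm_mul, hc1, one_mul]
    -- the norm of the difference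
    have e3 : ph a b s (tn n) x - ph a b s 0 x = ph a b s 0 x *
        (Complex.exp (((tn n * b x : ℝ) : ℂ) * Complex.I) - 1) := by
      rw [ph_apply, ph_apply, mul_sub, mul_one, ← Complex.exp_add]
      congr 2
      push_cast
      ring
    have e4 : ‖ph a b s 0 x‖ = 1 := by rw [ph_apply, Complex.norm_exp_ofReal_mul_I]
    rw [e3, norm_mul, e4, one_mul]
    set w : ℝ := 2 - 2 * Real.cos (tn n * b x) with hw
    have e5 : ‖Complex.exp (((tn n * b x : ℝ) : ℂ) * Complex.I) - 1‖ ^ 2 = w := by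
      rw [← Complex.normSq_eq_norm_sq, Complex.normSq_apply, Complex.sub_re, Complex.sub_im,
        Complex.exp_ofReal_mul_I_re, Complex.exp_ofReal_mul_I_im, Complex.one_re, Complex.one_im]
      have := Real.sin_sq_add_cos_sq (tn n * b x)
      rw [hw]; nlinarith
    have hw0 : 0 ≤ w := by rw [← e5]; positivity
    have e6 : uu b n x = w / tn n ^ 2 := rfl
    have e7 : K * uu b n x ^ J = 2 * (w / ε ^ 2) ^ J := by
      rw [e6, hK, div_pow, div_pow]
      field_simp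
    rw [e7]
    have hnn := norm_nonneg (Complex.exp (((tn n * b x : ℝ) : ℂ) * Complex.I) - 1)
    rcases le_total (‖Complex.exp (((tn n * b x : ℝ) : ℂ) * Complex.I) - 1‖) ε with h | h
    · have : 0 ≤ 2 * (w / ε ^ 2) ^ J := by positivity
      linarith
    · have h3 : 1 ≤ w / ε ^ 2 := by
        rw [le_div_iff₀ (by positivity), one_mul, ← e5]
        nlinarith
      have h4 : 1 ≤ (w / ε ^ 2) ^ J := one_le_pow₀ h3
      have h5 : ‖Complex.exp (((tn n * b x : ℝ) : ℂ) * Complex.I) - 1‖ ≤ 2 := by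
        refine (norm_sub_le _ _).trans ?_
        rw [Complex.norm_exp_ofReal_mul_I, norm_one]
        norm_num
      linarith
  have hfin := mono Λ hn h1 _ _ hpt
  rw [map_smul, smul_eq_mul, hc2, Complex.ofReal_re, map_add, map_smul, map_smul, h1,
    Complex.add_re, smul_eq_mul, smul_eq_mul, mul_one, Complex.ofReal_re,
    Complex.re_ofReal_mul] at hfin
  have hb' : K * (Λ (U a b n ^ J)).re ≤ 0 := mul_nonpos_of_nonneg_of_nonpos hK0 hb
  linarith

/-- **the polynomial does not depend on the tangential variable** -/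
theorem indep (s y : ℝ) : hev H s y = hev H s 0 := by
  -- for `s` in `(0, r]` the coefficients of positive degree vanish
  have hco : ∀ s : ℝ, 0 < s → s ≤ r → ∀ k, k ≠ 0 → co H k s = 0 := by
    intro s hs hsr k hk
    set p : Polynomial ℂ := H.map (Polynomial.evalRingHom (s : ℂ)) - Polynomial.C (hev H s 0)
      with hp
    have hroots : ∀ᶠ n in atTop, p.eval ((tn n : ℝ) : ℂ) = 0 := by
      have h2 : Tendsto (fun n => tn n ^ 2) atTop (𝓝 (0 ^ 2)) := tn_tendsto.pow 2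
      have h3 : (0:ℝ) ^ 2 < 2 * r * s - s ^ 2 := by nlinarith
      filter_upwards [h2.eventually (gt_mem_nhds h3)] with n hn'
      have e1 := shift_eq a b Λ hn h1 H r hr hH n s
      rw [hH s _ hs.le hsr hn'.le, hH s 0 hs.le hsr (by nlinarith)] at e1
      rw [hp, Polynomial.eval_sub, Polynomial.eval_C, sub_eq_zero]
      exact e1
    have hp0 : p = 0 := by
      obtain ⟨N, hN⟩ := eventually_atTop.1 hroots
      apply Polynomial.eq_zero_of_infinite_isRoot
      refine Set.Infinite.mono (s := range fun n : ℕ => ((tn (N + n) : ℝ) : ℂ)) ?_ ?_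
      · rintro _ ⟨n, rfl⟩
        exact hN (N + n) (Nat.le_add_right _ _)
      · refine Set.infinite_range_of_injective fun m n hmn => ?_
        have h4 : tn (N + m) = tn (N + n) := by exact_mod_cast hmn
        have h5 : N + m = N + n :=
          (pow_right_injective₀ (by norm_num : (0:ℝ) < 1 / 2) (by norm_num)) h4
        omega
    have h6 : (H.map (Polynomial.evalRingHom (s : ℂ))).coeff k = 0 := by
      have : H.map (Polynomial.evalRingHom (s : ℂ)) = Polynomial.C (hev H s 0) :=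
        sub_eq_zero.1 hp0
      rw [this, Polynomial.coeff_C, if_neg hk]
    rw [Polynomial.coeff_map] at h6
    exact h6
  -- hence the coefficients vanish identically
  have hcoeff : ∀ k, k ≠ 0 → H.coeff k = 0 := by
    intro k hk
    apply Polynomial.eq_zero_of_infinite_isRoot
    refine Set.Infinite.mono (s := (fun s : ℝ => (s : ℂ)) '' Ioc 0 r) ?_ ?_
    · rintro _ ⟨s, hs, rfl⟩
      exact hco s hs.1 hs.2 k hk
    · exact (Ioc_infinite hr).image (Complex.ofReal_injective.injOn)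
  rw [hev_eq, hev_eq]
  refine Finset.sum_congr rfl fun k _ => ?_
  rcases eq_or_ne k 0 with rfl | hk
  · simp
  · rw [co, hcoeff k hk]
    simp

end main

end Pool.Agent.Q86.Sym
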