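import Mathlib

/-!
# Bernstein spaces and constant coefficient differential operators: definitions and the action on
trigonometric polynomials
-/

set_option autoImplicit false

open Filter Topology Set MeasureTheory
open scoped BoundedContinuousFunction InnerProductSpace ContDiff SchwartzMap FourierTransform

noncomputable section

namespace Pool.Agent.Q86.Sym

/-- `ℝⁿ` -/
abbrev EE (n : ℕ) : Type := EuclideanSpace ℝ (Fin n)

/-- `D_k = (1/i) ∂/∂x_k` -/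
def pd {n : ℕ} (k : Fin n) (f : EE n → ℂ) : EE n → ℂ :=
  fun x => (-Complex.I) * fderiv ℝ f x (EuclideanSpace.single k 1)

/-- `D^α = D_1^{α_1} ⋯ D_n^{α_n}` -/
def Dmon {n : ℕ} (α : Fin n →₀ ℕ) (f : EE n → ℂ) : EE n → ℂ :=
  (List.finRange n).foldr (fun k g => (pd k)^[α k] g) f

/-- `τ(D) f = ∑ c_α D^α f` -/
def tauD {n : ℕ} (τ : MvPolynomial (Fin n) ℂ) (f : EE n → ℂ) (x : EE n) : ℂ :=
  ∑ α ∈ τ.support, τ.coeff α * Dmon α f x

/-- `f` belongs to the Bernstein space `B(K)`: it is bounded (and smooth, as such functions are)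
and its Fourier transform, as a tempered distribution, vanishes off `K`: `∫ f ψ^ = 0` for every
Schwartz function `ψ` with support disjoint from `K`, `ψ^(x) = ∫ ψ(ξ) e^{-i⟨x,ξ⟩} dξ`. -/
def InB {n : ℕ} (K : Set (EE n)) (f : EE n → ℂ) : Prop :=
  ContDiff ℝ ∞ f ∧ (∃ C : ℝ, ∀ x, ‖f x‖ ≤ C) ∧
    ∀ ψ : 𝓢(EE n, ℂ), Disjoint (tsupport ψ) K →
      ∫ x, f x * (∫ ξ, ψ ξ * Complex.exp (-(⟪x, ξ⟫_ℝ : ℂ) * Complex.I)) = 0

/-- The value of `τ` at a point of `ℝⁿ`. -/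
def tv {n : ℕ} (τ : MvPolynomial (Fin n) ℂ) (ξ : EE n) : ℂ :=
  MvPolynomial.eval (fun i => (ξ i : ℂ)) τ

/-- The norm of `τ(D)` on `B(K)`. -/
def opN {n : ℕ} (τ : MvPolynomial (Fin n) ℂ) (K : Set (EE n)) : ℝ :=
  sInf {C : ℝ | 0 ≤ C ∧ ∀ f, InB K f → ∀ x, ‖tauD τ f x‖ ≤ C * ⨆ y, ‖f y‖}

/-- `max_{ξ ∈ K} |τ(ξ)|` -/
def maxAbs {n : ℕ} (τ : MvPolynomial (Fin n) ℂ) (K : Set (EE n)) : ℝ :=
  sSup ((fun ξ : EE n => ‖tv τ ξ‖) '' K)

/-- `τ` is a ridge polynomial: `τ = ρ ∘ ⟨a, ·⟩`. -/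
def IsRidge {n : ℕ} (τ : MvPolynomial (Fin n) ℂ) : Prop :=
  ∃ (a : EE n) (ρ : Polynomial ℂ), ∀ ξ : EE n, tv τ ξ = ρ.eval ((⟪a, ξ⟫_ℝ : ℝ) : ℂ)

/-! ### trigonometric polynomials -/

section trig

variable {n : ℕ} {ι : Type}

/-- `∑ a_j e^{i⟨x,ξ_j⟩}` -/
def tps (s : Finset ι) (a : ι → ℂ) (ξ : ι → EE n) (x : EE n) : ℂ :=
  ∑ j ∈ s, a j * Complex.exp ((⟪x, ξ j⟫_ℝ : ℂ) * Complex.I)

lemma hasFDerivAt_exp (ξ x : EE n) :
    HasFDerivAt (fun x : EE n => Complex.exp ((⟪x, ξ⟫_ℝ : ℂ) * Complex.I))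
      ((Complex.exp ((⟪x, ξ⟫_ℝ : ℂ) * Complex.I) * Complex.I) •
        (Complex.ofRealCLM.comp (innerSL ℝ ξ))) x := by
  have h1 : HasFDerivAt (fun x : EE n => (⟪x, ξ⟫_ℝ : ℝ)) (innerSL ℝ ξ) x := by
    have := (innerSL ℝ ξ).hasFDerivAt (x := x)
    refine this.congr_of_eventuallyEq (Eventually.of_forall fun y => ?_)
    exact (real_inner_comm _ _)
  have h2 : HasFDerivAt (fun x : EE n => ((⟪x, ξ⟫_ℝ : ℝ) : ℂ))
      (Complex.ofRealCLM.comp (innerSL ℝ ξ)) x :=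
    (Complex.ofRealCLM.hasFDerivAt).comp x h1
  have h3 := (h2.mul_const Complex.I).cexp
  refine h3.congr_fderiv ?_
  ext v
  simp
  ring

lemma tps_smooth (s : Finset ι) (a : ι → ℂ) (ξ : ι → EE n) : ContDiff ℝ ∞ (tps s a ξ) := by
  unfold tps
  refine ContDiff.sum fun j _ => ContDiff.mul contDiff_const ?_
  have h1 : ContDiff ℝ ∞ (fun x : EE n => ((⟪x, ξ j⟫_ℝ : ℝ) : ℂ)) :=
    Complex.ofRealCLM.contDiff.comp (contDiff_id.inner ℝ contDiff_const)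
  exact (h1.mul contDiff_const).cexp

lemma pd_tps (k : Fin n) (s : Finset ι) (a : ι → ℂ) (ξ : ι → EE n) :
    pd k (tps s a ξ) = tps s (fun j => a j * (ξ j k : ℂ)) ξ := by
  funext x
  have h1 : HasFDerivAt (tps s a ξ) (∑ j ∈ s, a j •
      ((Complex.exp ((⟪x, ξ j⟫_ℝ : ℂ) * Complex.I) * Complex.I) •
        (Complex.ofRealCLM.comp (innerSL ℝ (ξ j))))) x := by
    unfold tps
    refine HasFDerivAt.fun_sum fun j _ => ?_
    exact (hasFDerivAt_exp (ξ j) x).const_mul (a j)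
  rw [pd, h1.fderiv, tps]
  rw [FunLike.coe_sum, Finset.sum_apply, Finset.mul_sum]
  refine Finset.sum_congr rfl fun j _ => ?_
  have h2 : (a j • ((Complex.exp ((⟪x, ξ j⟫_ℝ : ℂ) * Complex.I) * Complex.I) •
      (Complex.ofRealCLM.comp (innerSL ℝ (ξ j))))) (EuclideanSpace.single k 1) =
      a j * ((Complex.exp ((⟪x, ξ j⟫_ℝ : ℂ) * Complex.I) * Complex.I) *
        ((⟪ξ j, EuclideanSpace.single k 1⟫_ℝ : ℝ) : ℂ)) := rfl
  rw [h2, EuclideanSpace.inner_single_right]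
  simp only [one_mul, conj_trivial]
  linear_combination (-(a j * Complex.exp ((⟪x, ξ j⟫_ℝ : ℂ) * Complex.I) * (ξ j k : ℂ))) *
    Complex.I_mul_I

lemma pd_iter (k : Fin n) (m : ℕ) (s : Finset ι) (a : ι → ℂ) (ξ : ι → EE n) :
    (pd k)^[m] (tps s a ξ) = tps s (fun j => a j * (ξ j k : ℂ) ^ m) ξ := by
  induction m generalizing a with
  | zero => simp
  | succ m ih =>
    rw [Function.iterate_succ_apply, pd_tps, ih]
    congr 1
    funext j
    rw [pow_succ]; ring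

lemma Dmon_tps (α : Fin n →₀ ℕ) (s : Finset ι) (a : ι → ℂ) (ξ : ι → EE n) :
    Dmon α (tps s a ξ) = tps s (fun j => a j * ∏ k, (ξ j k : ℂ) ^ α k) ξ := by
  have h : ∀ l : List (Fin n), l.foldr (fun k g => (pd k)^[α k] g) (tps s a ξ) =
      tps s (fun j => a j * (l.map fun k => (ξ j k : ℂ) ^ α k).prod) ξ := by
    intro l
    induction l with
    | nil => simp
    | cons k l ih =>
      rw [List.foldr_cons, ih, pd_iter]
      congr 1
      funext j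
      rw [List.map_cons, List.prod_cons]
      ring
  rw [Dmon, h]
  simp_rw [Fin.prod_univ_def]

lemma tauD_tps (τ : MvPolynomial (Fin n) ℂ) (s : Finset ι) (a : ι → ℂ) (ξ : ι → EE n) (x : EE n) :
    tauD τ (tps s a ξ) x = tps s (fun j => a j * tv τ (ξ j)) ξ x := by
  rw [tauD]
  simp_rw [Dmon_tps, tps, Finset.mul_sum]
  rw [Finset.sum_comm]
  refine Finset.sum_congr rfl fun j _ => ?_
  rw [tv, MvPolynomial.eval_eq', Finset.mul_sum, Finset.sum_mul]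
  refine Finset.sum_congr rfl fun α _ => ?_
  ring

/-- the Fourier transform of a Schwartz function in the convention without `2π` -/
lemma ft_eq (ψ : 𝓢(EE n, ℂ)) (x : EE n) :
    ∫ ξ, ψ ξ * Complex.exp (-(⟪x, ξ⟫_ℝ : ℂ) * Complex.I) =
      (𝓕 (ψ : EE n → ℂ)) ((2 * Real.pi)⁻¹ • x) := by
  rw [Real.fourier_eq']
  refine integral_congr_ae (Eventually.of_forall fun ξ => ?_)
  simp only [smul_eq_mul]
  rw [mul_comm]
  congr 2
  rw [real_inner_smul_right, real_inner_comm]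
  have := Real.pi_ne_zero
  push_cast
  field_simp

lemma integral_exp_ft (ψ : 𝓢(EE n, ℂ)) (ξ : EE n) :
    ∫ x : EE n, Complex.exp ((⟪x, ξ⟫_ℝ : ℂ) * Complex.I) *
      (𝓕 (ψ : EE n → ℂ)) ((2 * Real.pi)⁻¹ • x) =
      |(((2 * Real.pi)⁻¹ : ℝ) ^ Module.finrank ℝ (EE n))⁻¹| • ψ ξ := by
  have h1 : ∀ x : EE n, Complex.exp ((⟪x, ξ⟫_ℝ : ℂ) * Complex.I) *
      (𝓕 (ψ : EE n → ℂ)) ((2 * Real.pi)⁻¹ • x) =
      (fun y : EE n => Complex.exp (((2 * Real.pi * ⟪y, ξ⟫_ℝ : ℝ) : ℂ) * Complex.I) •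
        (𝓕 (ψ : EE n → ℂ)) y) ((2 * Real.pi)⁻¹ • x) := by
    intro x
    simp only [smul_eq_mul]
    congr 3
    rw [real_inner_smul_left]
    have := Real.pi_ne_zero
    push_cast
    field_simp
  have h0 := Measure.integral_comp_smul volume
    (fun y : EE n => Complex.exp (((2 * Real.pi * ⟪y, ξ⟫_ℝ : ℝ) : ℂ) * Complex.I) •
        (𝓕 (ψ : EE n → ℂ)) y) ((2 * Real.pi)⁻¹)
  refine (integral_congr_ae (Eventually.of_forall h1)).trans (h0.trans ?_)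
  congr 1
  have h2 : ∫ y : EE n, Complex.exp (((2 * Real.pi * ⟪y, ξ⟫_ℝ : ℝ) : ℂ) * Complex.I) •
        (𝓕 (ψ : EE n → ℂ)) y = 𝓕⁻ (𝓕 (ψ : EE n → ℂ)) ξ := by
    rw [Real.fourierInv_eq']
  rw [h2]
  have h3 : 𝓕⁻ (𝓕 (ψ : EE n → ℂ)) = ψ := by
    have h4 : Integrable (𝓕 (ψ : EE n → ℂ)) := by
      have := (𝓕 ψ).integrable (μ := volume)
      rwa [SchwartzMap.fourier_coe] at this
    exact ψ.continuous.fourierInv_fourier_eq ψ.integrable h4
  rw [h3]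

lemma tps_bound (s : Finset ι) (a : ι → ℂ) (ξ : ι → EE n) (x : EE n) :
    ‖tps s a ξ x‖ ≤ ∑ j ∈ s, ‖a j‖ := by
  refine (norm_sum_le _ _).trans (Finset.sum_le_sum fun j _ => ?_)
  rw [norm_mul, Complex.norm_exp_ofReal_mul_I, mul_one]

lemma tps_inB (K : Set (EE n)) (s : Finset ι) (a : ι → ℂ) (ξ : ι → EE n)
    (hK : ∀ j ∈ s, ξ j ∈ K) : InB K (tps s a ξ) := by
  refine ⟨tps_smooth s a ξ, ⟨_, tps_bound s a ξ⟩, fun ψ hψ => ?_⟩
  simp_rw [ft_eq, tps, Finset.sum_mul]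
  have hint : Integrable (fun x : EE n => (𝓕 (ψ : EE n → ℂ)) ((2 * Real.pi)⁻¹ • x)) := by
    have h4 : Integrable (𝓕 (ψ : EE n → ℂ)) := by
      have := (𝓕 ψ).integrable (μ := volume)
      rwa [SchwartzMap.fourier_coe] at this
    exact h4.comp_smul (inv_ne_zero (by positivity))
  rw [integral_finsetSum]
  · refine Finset.sum_eq_zero fun j hj => ?_
    have h1 : ∀ x : EE n, a j * Complex.exp ((⟪x, ξ j⟫_ℝ : ℂ) * Complex.I) *
        (𝓕 (ψ : EE n → ℂ)) ((2 * Real.pi)⁻¹ • x) =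
        a j * (Complex.exp ((⟪x, ξ j⟫_ℝ : ℂ) * Complex.I) *
        (𝓕 (ψ : EE n → ℂ)) ((2 * Real.pi)⁻¹ • x)) := fun x => by ring
    simp_rw [h1]
    rw [integral_const_mul, integral_exp_ft]
    have h2 : ψ (ξ j) = 0 := by
      by_contra h
      have : ξ j ∈ tsupport ψ := subset_tsupport _ h
      exact (Set.disjoint_left.1 hψ this) (hK j hj)
    rw [h2, smul_zero, mul_zero]
  · intro j _
    refine Integrable.bdd_mul (c := ‖a j‖) hint ?_ (Eventually.of_forall fun x => ?_)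
    · exact Continuous.aestronglyMeasurable (by fun_prop)
    · rw [norm_mul, Complex.norm_exp_ofReal_mul_I, mul_one]

end trig

end Pool.Agent.Q86.Sym
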