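import Mathlib

/-!
# Maximal abelian subalgebras of a Lie algebra with an invariant inner product

Every isometric automorphism preserves a maximal abelian subalgebra; regular elements exist.
-/

set_option autoImplicit false
set_option linter.unusedSectionVars false
set_option linter.deprecated false

open scoped RealInnerProductSpace
open Submodule

namespace Pool.Agent.Q86.Tig

variable {E : Type*} [NormedAddCommGroup E] [InnerProductSpace ℝ E] [FiniteDimensional ℝ E]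

/-- A subalgebra `g` of `(E, ad)`, with invariant inner product. -/
structure Alg (g : Submodule ℝ E) (ad : E →ₗ[ℝ] (E →L[ℝ] E)) : Prop where
  cl : ∀ x ∈ g, ∀ y ∈ g, ad x y ∈ g
  self : ∀ x, ad x x = 0
  jac : ∀ x y z, ad x (ad y z) = ad (ad x y) z + ad y (ad x z)
  inv : ∀ x ∈ g, ∀ y z, ⟪ad x y, z⟫ = - ⟪y, ad x z⟫

/-- a maximal abelian subalgebra of `g` -/
structure Tor (g : Submodule ℝ E) (ad : E →ₗ[ℝ] (E →L[ℝ] E)) (t : Submodule ℝ E) : Prop where
  le : t ≤ g
  ab : ∀ x ∈ t, ∀ y ∈ t, ad x y = 0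
  max : ∀ x ∈ g, (∀ y ∈ t, ad x y = 0) → x ∈ t

variable {g : Submodule ℝ E} {ad : E →ₗ[ℝ] (E →L[ℝ] E)}

lemma Alg.anti (h : Alg g ad) (x y : E) : ad x y = - ad y x := by
  have h1 := h.self (x + y)
  simp only [map_add, ContinuousLinearMap.add_apply, h.self] at h1
  have h2 : ad x y + ad y x = 0 := by
    rw [zero_add, add_zero, add_comm] at h1
    exact h1
  exact eq_neg_of_add_eq_zero_left h2

lemma span_ab (s : Set E) (hs : ∀ x ∈ s, ∀ y ∈ s, ad x y = 0) :
    ∀ x ∈ span ℝ s, ∀ y ∈ span ℝ s, ad x y = 0 := by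
  have h1 : ∀ x ∈ s, ∀ y ∈ span ℝ s, ad x y = 0 := by
    intro x hx y hy
    have : span ℝ s ≤ LinearMap.ker ((ad x : E →L[ℝ] E) : E →ₗ[ℝ] E) :=
      span_le.2 fun z hz => hs x hx z hz
    exact this hy
  intro x hx y hy
  induction hx using Submodule.span_induction with
  | mem x hx => exact h1 x hx y hy
  | zero => simp
  | add a b _ _ ha hb => simp [ha, hb]
  | smul c a _ ha => simp [ha]

/-- every isometric automorphism preserves a maximal abelian subalgebra -/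
theorem exists_stable (h : Alg g ad) (σ : E ≃ₗᵢ[ℝ] E) (hg : ∀ x ∈ g, σ x ∈ g ∧ σ.symm x ∈ g)
    (hσ : ∀ x y, σ (ad x y) = ad (σ x) (σ y)) :
    ∃ t, Tor g ad t ∧ ∀ x ∈ t, σ x ∈ t ∧ σ.symm x ∈ t := by
  have hσ' : ∀ x y, σ.symm (ad x y) = ad (σ.symm x) (σ.symm y) := by
    intro x y
    apply σ.injective
    rw [hσ]; simp
  let S : Set (Submodule ℝ E) := {a | a ≤ g ∧ (∀ x ∈ a, ∀ y ∈ a, ad x y = 0) ∧
    ∀ x ∈ a, σ x ∈ a ∧ σ.symm x ∈ a}
  have hS : S.Nonempty := by
    refine ⟨⊥, bot_le, ?_, ?_⟩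
    · intro x hx y hy
      rw [(mem_bot ℝ).1 hx]; simp
    · intro x hx
      rw [(mem_bot ℝ).1 hx]; simp
  obtain ⟨a, ⟨hag, haa, has⟩, hmax⟩ := WellFounded.has_min (wellFounded_gt (α := Submodule ℝ E)) S hS
  refine ⟨a, ⟨hag, haa, ?_⟩, has⟩
  by_contra hcon
  push Not at hcon
  obtain ⟨x, hxg, hxa, hx⟩ := hcon
  -- a new stable abelian subspace gives a contradiction
  have key : ∀ s : Set E, s ⊆ g → (∀ u ∈ s, ∀ y ∈ a, ad u y = 0) → (∀ u ∈ s, ∀ v ∈ s, ad u v = 0) →
      (∀ u ∈ s, σ u ∈ span ℝ s ∧ σ.symm u ∈ span ℝ s) → (∃ u ∈ s, u ∉ a) → False := by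
    intro s hsg hsa hss hsσ ⟨u, hu, hua⟩
    refine hmax (span ℝ ((a : Set E) ∪ s)) ⟨?_, ?_, ?_⟩ ?_
    · rw [span_le]
      exact Set.union_subset hag hsg
    · refine span_ab _ ?_
      rintro p (hp | hp) q (hq | hq)
      · exact haa p hp q hq
      · rw [h.anti, hsa q hq p hp, neg_zero]
      · exact hsa p hp q hq
      · exact hss p hp q hq
    · have hb : ∀ τ : E →ₗ[ℝ] E, (∀ p ∈ a, τ p ∈ a) → (∀ p ∈ s, τ p ∈ span ℝ s) →
          ∀ p ∈ span ℝ ((a : Set E) ∪ s), τ p ∈ span ℝ ((a : Set E) ∪ s) := by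
        intro τ h1 h2 p hp
        have : span ℝ ((a : Set E) ∪ s) ≤ (span ℝ ((a : Set E) ∪ s)).comap τ := by
          rw [span_le]
          rintro q (hq | hq)
          · exact subset_span (Or.inl (h1 q hq))
          · exact span_mono Set.subset_union_right (h2 q hq)
        exact this hp
      intro p hp
      exact ⟨hb (σ : E →ₗ[ℝ] E) (fun p hp => (has p hp).1) (fun p hp => (hsσ p hp).1) p hp,
        hb (σ.symm : E →ₗ[ℝ] E) (fun p hp => (has p hp).2) (fun p hp => (hsσ p hp).2) p hp⟩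
    · refine lt_of_le_of_ne (fun p hp => subset_span (Or.inl hp)) ?_
      intro he
      apply hua
      rw [he]
      exact subset_span (Or.inr hu)
  -- the centralizer
  let z : Submodule ℝ E :=
    { carrier := {x | x ∈ g ∧ ∀ y ∈ a, ad x y = 0}
      add_mem' := fun {p q} hp hq => ⟨g.add_mem hp.1 hq.1, fun y hy => by
        simp [hp.2 y hy, hq.2 y hy]⟩
      zero_mem' := ⟨g.zero_mem, fun y _ => by simp⟩
      smul_mem' := fun c p hp => ⟨g.smul_mem c hp.1, fun y hy => by simp [hp.2 y hy]⟩ }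
  have hz : ∀ p, p ∈ z ↔ p ∈ g ∧ ∀ y ∈ a, ad p y = 0 := fun p => Iff.rfl
  let c : Submodule ℝ E := z ⊓ aᗮ
  have hc : ∀ p, p ∈ c ↔ (p ∈ g ∧ ∀ y ∈ a, ad p y = 0) ∧ ∀ y ∈ a, ⟪y, p⟫ = 0 := fun p => by
    rw [mem_inf, hz, mem_orthogonal]
  have hcσ : ∀ p ∈ c, σ p ∈ c := by
    intro p hp
    rw [hc] at hp ⊢
    refine ⟨⟨(hg p hp.1.1).1, fun y hy => ?_⟩, fun y hy => ?_⟩
    · have h1 := hp.1.2 _ (has y hy).2
      have h2 := congrArg σ h1
      rw [hσ] at h2
      simpa using h2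
    · have h1 := hp.2 _ (has y hy).2
      rw [← σ.inner_map_map] at h1
      simpa using h1
  have hcσ' : ∀ p ∈ c, σ.symm p ∈ c := by
    intro p hp
    rw [hc] at hp ⊢
    refine ⟨⟨(hg p hp.1.1).2, fun y hy => ?_⟩, fun y hy => ?_⟩
    · have h1 := hp.1.2 _ (has y hy).1
      have h2 := congrArg σ.symm h1
      rw [hσ'] at h2
      simpa using h2
    · have h1 := hp.2 _ (has y hy).1
      rw [← σ.symm.inner_map_map] at h1
      simpa using h1
  -- `c` is nonzero
  have hc0 : c ≠ ⊥ := by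
    intro h0
    have h1 : x - (a.starProjection x : E) ∈ c := by
      rw [hc]
      have hpr : (a.starProjection x : E) ∈ a := a.starProjection_apply_mem x
      refine ⟨⟨g.sub_mem hxg (hag hpr), fun y hy => ?_⟩, fun y hy => ?_⟩
      · rw [map_sub, ContinuousLinearMap.sub_apply, hxa y hy, haa _ hpr y hy, sub_zero]
      · have := a.sub_starProjection_mem_orthogonal x
        exact (mem_orthogonal a _).1 this y hy
    rw [h0, mem_bot, sub_eq_zero] at h1
    apply hx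
    rw [h1]
    exact a.starProjection_apply_mem x
  have : Nontrivial c := (Submodule.nontrivial_iff_ne_bot).2 hc0
  let T : E →ₗ[ℝ] E := (σ : E →ₗ[ℝ] E) + (σ.symm : E →ₗ[ℝ] E)
  have hT : ∀ p, T p = σ p + σ.symm p := fun p => rfl
  have hTs : T.IsSymmetric := by
    intro p q
    rw [hT, hT, inner_add_left, inner_add_right]
    have h1 : ⟪σ p, q⟫ = ⟪p, σ.symm q⟫ := by
      rw [← σ.symm.inner_map_map]; simp
    have h2 : ⟪σ.symm p, q⟫ = ⟪p, σ q⟫ := by
      rw [← σ.inner_map_map]; simp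
    rw [h1, h2, add_comm]
  have hTc : ∀ p ∈ c, T p ∈ c := fun p hp => c.add_mem (hcσ p hp) (hcσ' p hp)
  have hev := (hTs.restrict_invariant hTc).hasEigenvalue_iSup_of_finiteDimensional
  obtain ⟨u', hu'⟩ := hev.exists_hasEigenvector
  set μ : ℝ := ((⨆ x : { x : c // x ≠ 0 }, RCLike.re ⟪(T.restrict hTc) x, x⟫ / ‖(x : c)‖ ^ 2 : ℝ) : ℝ)
    with hμ
  have hu1 : T (u' : E) = μ • (u' : E) := by
    have := hu'.apply_eq_smul
    have h2 := congrArg (Subtype.val) this
    simpa using h2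
  have hu0 : (u' : E) ≠ 0 := fun h0 => hu'.2 (Subtype.ext h0)
  obtain ⟨u, hu⟩ : ∃ u : E, u = (u' : E) := ⟨_, rfl⟩
  have huc : u ∈ c := hu ▸ u'.2
  rw [← hu] at hu1 hu0
  have hsu : σ.symm u = μ • u - σ u := by
    rw [← hu1, hT]; abel
  have hssu : σ (σ u) = μ • σ u - u := by
    have h1 := congrArg σ hsu
    rw [map_sub, map_smul, LinearIsometryEquiv.apply_symm_apply] at h1
    rw [eq_sub_iff_add_eq, add_comm, ← eq_sub_iff_add_eq]
    exact h1
  have hnota : ∀ p ∈ c, p ≠ 0 → p ∉ a := by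
    intro p hp hp0 hpa
    rw [hc] at hp
    exact hp0 (inner_self_eq_zero.1 (hp.2 p hpa))
  have huc' := (hc u).1 huc
  have hvc := hcσ u huc
  have hvc' := (hc _).1 hvc
  by_cases hw : ad u (σ u) = 0
  · refine key {u, σ u} ?_ ?_ ?_ ?_ ⟨u, by simp, hnota u huc hu0⟩
    · rintro p (rfl | rfl)
      · exact huc'.1.1
      · exact hvc'.1.1
    · rintro p (rfl | rfl)
      · exact huc'.1.2
      · exact hvc'.1.2
    · rintro p (rfl | rfl) q (rfl | rfl)
      · exact h.self _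
      · exact hw
      · rw [h.anti, hw, neg_zero]
      · exact h.self _
    · have m1 : u ∈ span ℝ ({u, σ u} : Set E) := subset_span (by simp)
      have m2 : σ u ∈ span ℝ ({u, σ u} : Set E) := subset_span (by simp)
      rintro p (rfl | rfl)
      · exact ⟨m2, by rw [hsu]; exact sub_mem (smul_mem _ _ m1) m2⟩
      · refine ⟨by rw [hssu]; exact sub_mem (smul_mem _ _ m2) m1, by simpa using m1⟩
  · have hwσ : σ (ad u (σ u)) = ad u (σ u) := by
      rw [hσ, hssu, map_sub, map_smul, h.self, smul_zero, zero_sub, h.anti, neg_neg]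
    have hwσ' : σ.symm (ad u (σ u)) = ad u (σ u) := by
      conv_lhs => rw [← hwσ]
      simp
    have hwg : ad u (σ u) ∈ g := h.cl _ huc'.1.1 _ hvc'.1.1
    have hwc : ad u (σ u) ∈ c := by
      rw [hc]
      refine ⟨⟨hwg, fun y hy => ?_⟩, fun y hy => ?_⟩
      · rw [h.anti, h.jac]
        have h1 : ad y u = 0 := by rw [h.anti, huc'.1.2 y hy, neg_zero]
        have h2 : ad y (σ u) = 0 := by rw [h.anti, hvc'.1.2 y hy, neg_zero]
        rw [h1, h2]; simp
      · rw [real_inner_comm, h.inv u huc'.1.1, huc'.1.2 y hy]; simp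
    refine key {ad u (σ u)} ?_ ?_ ?_ ?_ ⟨_, rfl, hnota _ hwc hw⟩
    · rintro p rfl; exact hwg
    · rintro p rfl; exact ((hc _).1 hwc).1.2
    · rintro p rfl q rfl; exact h.self _
    · rintro p rfl
      rw [hwσ, hwσ']
      exact ⟨subset_span rfl, subset_span rfl⟩

/-- existence of regular elements -/
theorem exists_regular (h : Alg g ad) {t : Submodule ℝ E} (ht : Tor g ad t) :
    ∃ X ∈ t, ∀ y ∈ g, ad X y = 0 → y ∈ t := by
  let N : E → Submodule ℝ E := fun X => g ⊓ LinearMap.ker ((ad X : E →L[ℝ] E) : E →ₗ[ℝ] E)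
  have hN : ∀ X y, y ∈ N X ↔ y ∈ g ∧ ad X y = 0 := fun X y => Iff.rfl
  obtain ⟨X, hX, hmin⟩ : ∃ X ∈ t, ∀ Y ∈ t, Module.finrank ℝ (N X) ≤ Module.finrank ℝ (N Y) := by
    have hne : ∃ n, ∃ X ∈ t, Module.finrank ℝ (N X) = n := ⟨_, 0, t.zero_mem, rfl⟩
    classical
    obtain ⟨X, hX, hn⟩ := Nat.find_spec hne
    exact ⟨X, hX, fun Y hY => by rw [hn]; exact Nat.find_min' hne ⟨Y, hY, rfl⟩⟩
  refine ⟨X, hX, ?_⟩
  by_contra hcon
  push Not at hcon
  obtain ⟨y0, hy0, hXy0, hy0t⟩ := hcon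
  obtain ⟨b, hb, hb0⟩ : ∃ b ∈ t, ad y0 b ≠ 0 := by
    by_contra h1
    push Not at h1
    exact hy0t (ht.max y0 hy0 h1)
  have hby0 : ad b y0 ≠ 0 := by
    rw [h.anti]; simpa using hb0
  let R : Submodule ℝ E := g ⊓ (N X)ᗮ
  have hR : ∀ p, p ∈ R ↔ p ∈ g ∧ ∀ y ∈ N X, ⟪y, p⟫ = 0 := fun p => by
    rw [mem_inf, mem_orthogonal]
  let f : R →ₗ[ℝ] E := ((ad X : E →L[ℝ] E) : E →ₗ[ℝ] E).domRestrict R
  have hf : LinearMap.ker f = ⊥ := by
    rw [LinearMap.ker_eq_bot']
    intro p hp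
    have h1 := (hR p).1 p.2
    have h2 : (p : E) ∈ N X := (hN X p).2 ⟨h1.1, hp⟩
    have h3 := h1.2 p h2
    exact Subtype.ext (inner_self_eq_zero.1 h3)
  obtain ⟨K, hK0, hK⟩ := f.exists_antilipschitzWith hf
  have hKle : ∀ p ∈ R, ‖p‖ ≤ K * ‖ad X p‖ := by
    intro p hp
    have := hK.le_mul_dist (⟨p, hp⟩ : R) 0
    rw [dist_zero_right, map_zero, dist_zero_right] at this
    exact this
  let ε : ℝ := 1 / (2 * (K + 1) * (‖ad b‖ + 1))
  have hε : 0 < ε := by positivity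
  have hcomm : ∀ p, ad X (ad b p) = ad b (ad X p) := by
    intro p
    rw [h.jac, ht.ab X hX b hb]; simp
  have hcommN : ∀ p ∈ N X, ad b p ∈ N X := by
    intro p hp
    rw [hN] at hp ⊢
    exact ⟨h.cl b (ht.le hb) p hp.1, by rw [hcomm, hp.2]; simp⟩
  have hlt : N (X + ε • b) < N X := by
    have hle : ∀ y ∈ N (X + ε • b), y ∈ N X ∧ ad b y = 0 := by
      intro y hy
      rw [hN] at hy
      obtain ⟨hyg, hy⟩ := hy
      rw [map_add, map_smul, ContinuousLinearMap.add_apply, ContinuousLinearMap.smul_apply] at hy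
      obtain ⟨n, hn⟩ : ∃ n : E, n = ((N X).starProjection y : E) := ⟨_, rfl⟩
      have hnN : n ∈ N X := by rw [hn]; exact (N X).starProjection_apply_mem y
      obtain ⟨r, hr⟩ : ∃ r : E, r = y - n := ⟨_, rfl⟩
      have hrR : r ∈ R := by
        rw [mem_inf]
        refine ⟨?_, ?_⟩
        · rw [hr]; exact g.sub_mem hyg ((hN X n).1 hnN).1
        · rw [hr, hn]; exact (N X).sub_starProjection_mem_orthogonal y
      have hynr : y = n + r := by rw [hr]; abel
      have e1 : ε • ad b n + (ad X r + ε • ad b r) = 0 := by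
        rw [hynr, map_add, map_add, ((hN X n).1 hnN).2, zero_add, smul_add] at hy
        rw [← hy]; abel
      have hperp : ∀ q ∈ N X, ⟪q, ad X r + ε • ad b r⟫ = 0 := by
        intro q hq
        have h1 : ⟪q, ad X r⟫ = 0 := by
          have := h.inv X (ht.le hX) q r
          rw [((hN X q).1 hq).2, inner_zero_left] at this
          linarith
        have h2 : ⟪q, ad b r⟫ = 0 := by
          have := h.inv b (ht.le hb) q r
          rw [((hR r).1 hrR).2 _ (hcommN q hq)] at this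
          linarith
        rw [inner_add_right, inner_smul_right, h1, h2]; simp
      have h3 : ε • ad b n = 0 := by
        have h4 : ε • ad b n ∈ N X := (N X).smul_mem _ (hcommN n hnN)
        have h5 := hperp _ h4
        have h6 : ad X r + ε • ad b r = - (ε • ad b n) := by
          rw [← sub_eq_zero, sub_neg_eq_add, add_comm]; exact e1
        rw [h6, inner_neg_right, neg_eq_zero] at h5
        exact inner_self_eq_zero.1 h5
      have h7 : ad X r = - (ε • ad b r) := by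
        rw [h3, zero_add] at e1
        exact eq_neg_of_add_eq_zero_left e1
      have hr0 : r = 0 := by
        by_contra hr0
        have hrpos : 0 < ‖r‖ := norm_pos_iff.2 hr0
        have h8 := hKle r hrR
        rw [h7, norm_neg, norm_smul, Real.norm_of_nonneg hε.le] at h8
        have h9 : ‖ad b r‖ ≤ ‖ad b‖ * ‖r‖ := (ad b).le_opNorm r
        have h10 : (K : ℝ) * (ε * ‖ad b r‖) ≤ K * (ε * (‖ad b‖ * ‖r‖)) := by gcongr
        have h11 : (K : ℝ) * (ε * (‖ad b‖ * ‖r‖)) ≤ (1 / 2) * ‖r‖ := by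
          have hK' : (0 : ℝ) ≤ K := K.2
          have h12 : (K : ℝ) * (ε * ‖ad b‖) ≤ 1 / 2 := by
            show (K : ℝ) * (1 / (2 * (K + 1) * (‖ad b‖ + 1)) * ‖ad b‖) ≤ 1 / 2
            rw [one_div, ← mul_assoc, ← div_eq_mul_inv, div_mul_eq_mul_div,
              div_le_iff₀ (by positivity)]
            have : 0 ≤ ‖ad b‖ := norm_nonneg _
            nlinarith
          calc (K : ℝ) * (ε * (‖ad b‖ * ‖r‖)) = K * (ε * ‖ad b‖) * ‖r‖ := by ring
            _ ≤ _ := by gcongr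
        linarith
      rw [hr0, add_zero] at hynr
      rw [hynr]
      refine ⟨hnN, ?_⟩
      exact (smul_eq_zero.1 h3).resolve_left hε.ne'
    refine lt_of_le_of_ne (fun y hy => (hle y hy).1) ?_
    intro he
    have h1 : y0 ∈ N (X + ε • b) := by
      rw [he]
      exact (hN X y0).2 ⟨hy0, hXy0⟩
    exact hby0 (hle y0 h1).2
  have h1 := hmin _ (t.add_mem hX (t.smul_mem ε hb))
  have h2 := Submodule.finrank_lt_finrank_of_lt hlt
  omega

/-- a stable maximal abelian ideal is everything -/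
theorem ideal_eq (h : Alg g ad) {t : Submodule ℝ E} (ht : Tor g ad t)
    (hid : ∀ z ∈ g, ∀ x ∈ t, ad z x ∈ t) : ∀ x ∈ g, ∀ y ∈ g, ad x y = 0 := by
  have h1 : ∀ z ∈ g, ∀ x ∈ t, ad z x = 0 := by
    intro z hz x hx
    have h2 : ⟪ad z x, ad z x⟫ = 0 := by
      have h3 : ad z x = - ad x z := h.anti z x
      have h4 : ⟪ad x z, ad z x⟫ = 0 := by
        rw [h.inv x (ht.le hx), ht.ab x hx _ (hid z hz x hx)]
        simp
      calc ⟪ad z x, ad z x⟫ = ⟪- ad x z, ad z x⟫ := by rw [← h3]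
        _ = 0 := by rw [inner_neg_left, h4, neg_zero]
    exact inner_self_eq_zero.1 h2
  have h2 : ∀ z ∈ g, z ∈ t := fun z hz => ht.max z hz (h1 z hz)
  intro x hx y hy
  exact ht.ab x (h2 x hx) y (h2 y hy)

end Pool.Agent.Q86.Tig
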