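import Pool.Agent.TH77.Ad
import Pool.Agent.Q86.TigA

/-!
# Topologically invariably generated compact groups act through commuting operators on the identity component
-/

set_option autoImplicit false
set_option linter.unusedSectionVars false
set_option linter.deprecated false

open scoped RealInnerProductSpace
open Filter Topology Set Pool.Agent.TH77

namespace Pool.Agent.Q86.Tig

section lin

variable {E : Type*} [NormedAddCommGroup E] [InnerProductSpace ℝ E] [FiniteDimensional ℝ E]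

lemma exp_apply_eq [CompleteSpace E] (A : E →L[ℝ] E) (y : E) (h : A y = 0) :
    NormedSpace.exp A y = y := by
  have h1 : ∀ t : ℝ, HasDerivAt (fun u : ℝ => NormedSpace.exp (u • A) y) 0 t := by
    intro t
    have h2 := (hasDerivAt_exp_smul_const A t).clm_apply (hasDerivAt_const t y)
    have h3 : (NormedSpace.exp (t • A) * A) y + NormedSpace.exp (t • A) (0 : E) = 0 := by
      rw [ContinuousLinearMap.mul_apply, h]; simp
    rw [h3] at h2
    exact h2
  have h4 := is_const_of_deriv_eq_zero (f := fun u : ℝ => NormedSpace.exp (u • A) y)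
    (fun t => (h1 t).differentiableAt) (fun t => (h1 t).deriv) 1 0
  simpa using h4

lemma deriv_mem (D : Submodule ℝ E) (A : E →L[ℝ] E) (y : E)
    (h : ∀ t : ℝ, NormedSpace.exp (t • A) y ∈ D) : A y ∈ D := by
  have : CompleteSpace E := FiniteDimensional.complete ℝ E
  have h1 := LG.op_hasDerivAt A y
  have hcl : IsClosed (D : Set E) := D.closed_of_finiteDimensional
  rw [hasDerivAt_iff_tendsto_slope] at h1
  refine hcl.mem_of_tendsto h1 (Eventually.of_forall fun t => ?_)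
  rw [slope_def_module]
  exact D.smul_mem _ (D.sub_mem (h t) (h 0))

end lin

section main

variable {G : Type*} [Group G] [TopologicalSpace G] [IsTopologicalGroup G] [CompactSpace G]
  {H : Type*} [Group H] [TopologicalSpace H] [IsTopologicalGroup H] [T2Space H]
  {E : Type*} [NormedAddCommGroup E] [InnerProductSpace ℝ E] [FiniteDimensional ℝ E]
  (L : LG H E) (φ : G →* H) (hφ : Continuous φ)

/-- the identity component -/
abbrev G0 (G : Type*) [Group G] [TopologicalSpace G] [IsTopologicalGroup G] : Subgroup G :=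
  Subgroup.connectedComponentOfOne G

lemma isClosed_G0 : IsClosed ((G0 G : Subgroup G) : Set G) := isClosed_connectedComponent

lemma conj_mem_G0 {h : G} (hh : h ∈ G0 G) (g : G) : g * h * g⁻¹ ∈ G0 G := by
  have h1 : (fun x => g * x * g⁻¹) '' connectedComponent (1 : G) ⊆
      connectedComponent ((fun x => g * x * g⁻¹) (1 : G)) :=
    Continuous.image_connectedComponent_subset (f := fun x => g * x * g⁻¹) (by fun_prop) 1
  have h2 := h1 ⟨h, hh, rfl⟩
  show g * h * g⁻¹ ∈ connectedComponent (1 : G)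
  simpa using h2

lemma isClosed_map (hφ : Continuous φ) : IsClosed (((G0 G).map φ : Subgroup H) : Set H) := by
  rw [Subgroup.coe_map]
  exact ((isClosed_G0 (G := G)).isCompact.image hφ).isClosed

/-- the Lie algebra of the image of the identity component -/
noncomputable def alg (hφ : Continuous φ) : Submodule ℝ E := L.lie ((G0 G).map φ) (isClosed_map φ hφ)

lemma mem_alg {hφ : Continuous φ} {x : E} :
    x ∈ alg L φ hφ ↔ ∀ t : ℝ, ∃ h ∈ G0 G, φ h = L.exp (t • x) := by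
  unfold alg
  rw [LG.mem_lie]
  rfl

lemma Ad_mem {x : E} (hx : x ∈ alg L φ hφ) (g : G) :
    (L.Ad (φ g) : E →L[ℝ] E) x ∈ alg L φ hφ := by
  rw [mem_alg] at hx ⊢
  intro t
  obtain ⟨h, hh, he⟩ := hx t
  refine ⟨g * h * g⁻¹, conj_mem_G0 hh g, ?_⟩
  rw [← map_smul, L.exp_Ad, map_mul, map_mul, map_inv, he]

/-- the isometry given by an element -/
noncomputable def iso (hiso : ∀ (g : G) (x : E), ‖(L.Ad (φ g) : E →L[ℝ] E) x‖ = ‖x‖) (g : G) :
    E ≃ₗᵢ[ℝ] E where
  toLinearEquiv := (ContinuousLinearEquiv.unitsEquiv ℝ E (L.Ad (φ g))).toLinearEquiv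
  norm_map' := hiso g

variable (hiso : ∀ (g : G) (x : E), ‖(L.Ad (φ g) : E →L[ℝ] E) x‖ = ‖x‖)

lemma iso_apply (g : G) (x : E) : iso L φ hiso g x = (L.Ad (φ g) : E →L[ℝ] E) x := rfl

lemma Ad_mul_apply (g h : G) (x : E) : (L.Ad (φ (g * h)) : E →L[ℝ] E) x =
    (L.Ad (φ g) : E →L[ℝ] E) ((L.Ad (φ h) : E →L[ℝ] E) x) := by
  rw [map_mul, map_mul]; rfl

lemma Ad_inv_apply (g : G) (x : E) : (L.Ad (φ g⁻¹) : E →L[ℝ] E) ((L.Ad (φ g) : E →L[ℝ] E) x) = x := by
  rw [← Ad_mul_apply, inv_mul_cancel, map_one, map_one]; rfl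

lemma Ad_apply_inv (g : G) (x : E) : (L.Ad (φ g) : E →L[ℝ] E) ((L.Ad (φ g⁻¹) : E →L[ℝ] E) x) = x := by
  rw [← Ad_mul_apply, mul_inv_cancel, map_one, map_one]; rfl

lemma iso_symm_apply (g : G) (x : E) :
    (iso L φ hiso g).symm x = (L.Ad (φ g⁻¹) : E →L[ℝ] E) x := by
  apply (iso L φ hiso g).injective
  rw [LinearIsometryEquiv.apply_symm_apply, iso_apply, Ad_apply_inv]

include hiso in
lemma inner_Ad (g : G) (x y : E) : ⟪(L.Ad (φ g) : E →L[ℝ] E) x, (L.Ad (φ g) : E →L[ℝ] E) y⟫ = ⟪x, y⟫ := by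
  rw [← iso_apply L φ hiso, ← iso_apply L φ hiso]
  exact (iso L φ hiso g).inner_map_map x y

lemma exp_ad {x : E} (hx : x ∈ alg L φ hφ) (t : ℝ) : ∃ h ∈ G0 G,
    NormedSpace.exp (t • L.ad x) = (L.Ad (φ h) : E →L[ℝ] E) := by
  obtain ⟨h, hh, he⟩ := (mem_alg L φ).1 hx t
  exact ⟨h, hh, by rw [he, L.Ad_exp, map_smul]⟩

include hiso in
lemma isAlg : Alg (alg L φ hφ) L.ad where
  cl x hx y hy := by
    refine deriv_mem _ _ _ fun t => ?_
    obtain ⟨h, hh, he⟩ := exp_ad L φ hφ hx t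
    rw [he]
    exact Ad_mem L φ hφ hy h
  self := L.ad_self
  jac := L.jacobi
  inv x hx y z := by
    have : CompleteSpace E := FiniteDimensional.complete ℝ E
    have h1 : ∀ t : ℝ, ⟪NormedSpace.exp (t • L.ad x) y, NormedSpace.exp (t • L.ad x) z⟫ = ⟪y, z⟫ := by
      intro t
      obtain ⟨h, hh, he⟩ := exp_ad L φ hφ hx t
      rw [he]
      exact inner_Ad L φ hiso h y z
    have h2 := (LG.op_hasDerivAt (L.ad x) y).inner ℝ (LG.op_hasDerivAt (L.ad x) z)
    simp only [h1] at h2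
    have h3 := h2.unique (hasDerivAt_const (0 : ℝ) ⟪y, z⟫)
    simp only [zero_smul, NormedSpace.exp_zero, ContinuousLinearMap.one_apply] at h3
    linarith

lemma continuous_Ad_apply (hφ : Continuous φ) (x : E) :
    Continuous fun g : G => (L.Ad (φ g) : E →L[ℝ] E) x := by
  have h1 : Continuous fun g : G => (L.Ad (φ g) : E →L[ℝ] E) :=
    Units.continuous_val.comp (L.continuous_Ad.comp hφ)
  exact h1.clm_apply continuous_const

include hiso in
/-- maximal abelian subalgebras are conjugate -/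
theorem conj_tor {t₁ t₂ : Submodule ℝ E} (h₁ : Tor (alg L φ hφ) L.ad t₁)
    (h₂ : Tor (alg L φ hφ) L.ad t₂) : ∃ h ∈ G0 G,
    (∀ x ∈ t₁, (L.Ad (φ h) : E →L[ℝ] E) x ∈ t₂) ∧ (∀ x ∈ t₂, (L.Ad (φ h⁻¹) : E →L[ℝ] E) x ∈ t₁) := by
  have : CompleteSpace E := FiniteDimensional.complete ℝ E
  have hA := isAlg L φ hφ hiso
  obtain ⟨X, hX, hXr⟩ := exists_regular hA h₁
  obtain ⟨Y, hY, hYr⟩ := exists_regular hA h₂
  have hcont : Continuous fun g : G => ⟪(L.Ad (φ g) : E →L[ℝ] E) X, Y⟫ :=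
    (continuous_Ad_apply L φ hφ X).inner continuous_const
  obtain ⟨h, hh, hmin⟩ := (isClosed_G0 (G := G)).isCompact.exists_isMinOn ⟨1, (G0 G).one_mem⟩
    hcont.continuousOn
  refine ⟨h, hh, ?_⟩
  obtain ⟨X', hX'⟩ : ∃ X' : E, X' = (L.Ad (φ h) : E →L[ℝ] E) X := ⟨_, rfl⟩
  have hX'g : X' ∈ alg L φ hφ := hX' ▸ Ad_mem L φ hφ (h₁.le hX) h
  have hYg : Y ∈ alg L φ hφ := h₂.le hY
  have hcrit : ∀ z ∈ alg L φ hφ, ⟪L.ad z X', Y⟫ = 0 := by
    intro z hz
    have hd := (LG.op_hasDerivAt (L.ad z) X').inner ℝ (hasDerivAt_const (0 : ℝ) Y)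
    have hlm : IsLocalMin (fun t : ℝ => ⟪NormedSpace.exp (t • L.ad z) X', Y⟫) 0 := by
      refine Eventually.of_forall fun t => ?_
      obtain ⟨k, hk, he⟩ := exp_ad L φ hφ hz t
      have h3 := hmin ((G0 G).mul_mem hk hh)
      simp only [mem_setOf_eq] at h3
      rw [Ad_mul_apply, ← he, ← hX'] at h3
      simpa [NormedSpace.exp_zero] using h3
    have h4 := hlm.hasDerivAt_eq_zero hd
    simpa using h4
  have hcomm : L.ad X' Y = 0 := by
    have h5 := hcrit _ (hA.cl _ hX'g _ hYg)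
    rw [hA.anti, inner_neg_left, hA.inv _ hX'g, neg_neg] at h5
    exact inner_self_eq_zero.1 h5
  have hX'2 : X' ∈ t₂ := hYr X' hX'g (by rw [hA.anti, hcomm, neg_zero])
  have hback : ∀ x ∈ t₂, (L.Ad (φ h⁻¹) : E →L[ℝ] E) x ∈ t₁ := by
    intro x hx
    refine hXr _ (Ad_mem L φ hφ (h₂.le hx) _) ?_
    have h6 : L.ad X' x = 0 := h₂.ab _ hX'2 _ hx
    have h7 := congrArg (L.Ad (φ h⁻¹) : E →L[ℝ] E) h6
    rw [L.Ad_ad, hX', Ad_inv_apply] at h7
    simpa using h7
  refine ⟨?_, hback⟩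
  intro x hx
  refine h₂.max _ (Ad_mem L φ hφ (h₁.le hx) _) ?_
  intro y hy
  have h8 : L.ad x ((L.Ad (φ h⁻¹) : E →L[ℝ] E) y) = 0 := h₁.ab _ hx _ (hback y hy)
  have h9 := congrArg (L.Ad (φ h) : E →L[ℝ] E) h8
  rw [L.Ad_ad, Ad_apply_inv] at h9
  simpa using h9

/-- the stabilizer of a subspace -/
def stab (t : Submodule ℝ E) : Subgroup G where
  carrier := {g | ∀ x ∈ t, (L.Ad (φ g) : E →L[ℝ] E) x ∈ t ∧ (L.Ad (φ g⁻¹) : E →L[ℝ] E) x ∈ t}
  one_mem' := by
    intro x hx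
    rw [inv_one, map_one, map_one]
    exact ⟨hx, hx⟩
  mul_mem' := by
    intro a b ha hb x hx
    rw [mul_inv_rev, Ad_mul_apply, Ad_mul_apply]
    exact ⟨(ha _ (hb x hx).1).1, (hb _ (ha x hx).2).2⟩
  inv_mem' := by
    intro a ha x hx
    rw [inv_inv]
    exact ⟨(ha x hx).2, (ha x hx).1⟩

lemma mem_stab {t : Submodule ℝ E} {g : G} : g ∈ stab L φ t ↔
    ∀ x ∈ t, (L.Ad (φ g) : E →L[ℝ] E) x ∈ t ∧ (L.Ad (φ g⁻¹) : E →L[ℝ] E) x ∈ t := Iff.rfl

lemma isClosed_stab (hφ : Continuous φ) (t : Submodule ℝ E) :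
    IsClosed ((stab L φ t : Subgroup G) : Set G) := by
  have hcl : IsClosed (t : Set E) := t.closed_of_finiteDimensional
  have : ((stab L φ t : Subgroup G) : Set G) =
      ⋂ x ∈ t, ({g : G | (L.Ad (φ g) : E →L[ℝ] E) x ∈ t} ∩ {g : G | (L.Ad (φ g⁻¹) : E →L[ℝ] E) x ∈ t}) := by
    ext g
    simp only [mem_iInter, mem_inter_iff, mem_setOf_eq]
    exact Iff.rfl
  rw [this]
  refine isClosed_biInter fun x _ => ?_
  refine (hcl.preimage (continuous_Ad_apply L φ hφ x)).inter ?_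
  exact hcl.preimage ((continuous_Ad_apply L φ hφ x).comp continuous_inv)

include hφ hiso in
/-- the image of the identity component of a topologically invariably generated compact group in a
Lie group with an invariant inner product is abelian -/
theorem comm_of_tig (hT : ∀ f : G → G,
      (Subgroup.closure (Set.range (fun x : G => f x * x * (f x)⁻¹))).topologicalClosure = ⊤)
    (a b : G) (ha : a ∈ G0 G) (hb : b ∈ G0 G) : φ (a * b) = φ (b * a) := by
  have : CompleteSpace E := FiniteDimensional.complete ℝ E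
  have hA := isAlg L φ hφ hiso
  have hst : ∀ g : G, ∃ t, Tor (alg L φ hφ) L.ad t ∧ ∀ x ∈ t,
      (L.Ad (φ g) : E →L[ℝ] E) x ∈ t ∧ (L.Ad (φ g⁻¹) : E →L[ℝ] E) x ∈ t := by
    intro g
    obtain ⟨t, ht, h⟩ := exists_stable hA (iso L φ hiso g) (fun x hx => ⟨Ad_mem L φ hφ hx g, by
      rw [iso_symm_apply]; exact Ad_mem L φ hφ hx _⟩) (fun x y => L.Ad_ad _ x y)
    exact ⟨t, ht, fun x hx => ⟨(h x hx).1, by
      have := (h x hx).2
      rwa [iso_symm_apply] at this⟩⟩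
  obtain ⟨t, ht, -⟩ := hst 1
  have hcj : ∀ g : G, ∃ h : G, h⁻¹ * g * h ∈ stab L φ t := by
    intro g
    obtain ⟨t', ht', hs⟩ := hst g
    obtain ⟨h, hh, h1, h2⟩ := conj_tor L φ hφ hiso ht ht'
    refine ⟨h, ?_⟩
    rw [mem_stab]
    intro x hx
    have e : (h⁻¹ * g * h)⁻¹ = h⁻¹ * g⁻¹ * h := by group
    rw [e]
    simp only [Ad_mul_apply]
    exact ⟨h2 _ (hs _ (h1 x hx)).1, h2 _ (hs _ (h1 x hx)).2⟩
  choose h hh using hcj
  have htop := hT fun g => (h g)⁻¹
  have hle : (Subgroup.closure (Set.range (fun x : G => (h x)⁻¹ * x * ((h x)⁻¹)⁻¹))) ≤ stab L φ t := by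
    rw [Subgroup.closure_le]
    rintro _ ⟨x, rfl⟩
    simp only [inv_inv]
    exact hh x
  have hall : ∀ g : G, g ∈ stab L φ t := by
    intro g
    have h1 := Subgroup.topologicalClosure_minimal _ hle (isClosed_stab L φ hφ t)
    rw [htop] at h1
    exact h1 (Subgroup.mem_top g)
  have hid : ∀ z ∈ alg L φ hφ, ∀ x ∈ t, L.ad z x ∈ t := by
    intro z hz x hx
    refine deriv_mem _ _ _ fun s => ?_
    obtain ⟨k, hk, he⟩ := exp_ad L φ hφ hz s
    rw [he]
    exact (hall k x hx).1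
  have hab := ideal_eq hA ht hid
  have hexp : ∀ x ∈ alg L φ hφ, ∀ y ∈ alg L φ hφ, L.exp x * L.exp y = L.exp y * L.exp x := by
    intro x hx y hy
    have h1 : (L.Ad (L.exp x) : E →L[ℝ] E) y = y := by
      rw [L.Ad_exp]
      exact exp_apply_eq _ _ (hab x hx y hy)
    have h2 := L.exp_Ad (L.exp x) y
    rw [h1] at h2
    rw [eq_mul_inv_iff_mul_eq] at h2
    exact h2.symm
  have hcomm : ∀ u ∈ L.exp '' (alg L φ hφ : Set E), ∀ v ∈ L.exp '' (alg L φ hφ : Set E),
      u * v = v * u := by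
    rintro _ ⟨x, hx, rfl⟩ _ ⟨y, hy, rfl⟩
    exact hexp x hx y hy
  have hmem : ∀ a ∈ G0 G, φ a ∈ L.gen (alg L φ hφ : Set E) := by
    intro a ha
    have : PreconnectedSpace (G0 G) := Subtype.preconnectedSpace isPreconnected_connectedComponent
    exact L.path_mem_gen ((G0 G).map φ) (isClosed_map φ hφ) (X := G0 G) (c := fun x => φ x)
      (hφ.comp continuous_subtype_val) (fun x => ⟨x, x.2, rfl⟩) (x₀ := 1) (by simp) ⟨a, ha⟩
  have hfin := (Subgroup.closureCommGroupOfComm hcomm).mul_comm ⟨φ a, hmem a ha⟩ ⟨φ b, hmem b hb⟩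
  have := congrArg Subtype.val hfin
  rw [map_mul, map_mul]
  exact this

end main

end Pool.Agent.Q86.Tig
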