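import Pool.Agent.Y842.CX.Sep
import Pool.Agent.Q86.TigB

/-!
# Unitary matrices with the Frobenius inner product; the identity component of a topologically
invariably generated compact group is abelian
-/

set_option autoImplicit false
set_option linter.unusedSectionVars false
set_option linter.deprecated false

open scoped RealInnerProductSpace Matrix.Norms.Frobenius
open Filter Topology Set Pool.Agent.TH77 Matrix

namespace Pool.Agent.Q86.Tig

section frob

variable {r : ℕ}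

lemma frob_sq (A : Matrix (Fin r) (Fin r) ℂ) : ‖A‖ * ‖A‖ = ∑ i, ∑ j, ‖A i j‖ * ‖A i j‖ := by
  rw [frobenius_norm_def, ← Real.sqrt_eq_rpow, Real.mul_self_sqrt (by positivity)]
  simp [sq]

lemma frob_par (x y : Matrix (Fin r) (Fin r) ℂ) : ‖x + y‖ * ‖x + y‖ + ‖x - y‖ * ‖x - y‖ =
    2 * (‖x‖ * ‖x‖ + ‖y‖ * ‖y‖) := by
  rw [frob_sq, frob_sq, frob_sq, frob_sq, ← Finset.sum_add_distrib, ← Finset.sum_add_distrib,
    Finset.mul_sum]
  refine Finset.sum_congr rfl fun i _ => ?_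
  rw [← Finset.sum_add_distrib, ← Finset.sum_add_distrib, Finset.mul_sum]
  refine Finset.sum_congr rfl fun j _ => ?_
  have h := parallelogram_law_with_norm ℝ (x i j) (y i j)
  simp only [sq] at h
  exact h

/-- the Frobenius inner product -/
noncomputable abbrev frobIPS (r : ℕ) : InnerProductSpace ℝ (Matrix (Fin r) (Fin r) ℂ) :=
  InnerProductSpace.ofNorm _ frob_par

lemma frob_trace (A : Matrix (Fin r) (Fin r) ℂ) : ‖A‖ * ‖A‖ = (Matrix.trace (Aᴴ * A)).re := by
  rw [frob_sq, Matrix.trace]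
  simp only [Matrix.diag_apply, Matrix.mul_apply, Matrix.conjTranspose_apply, Complex.re_sum]
  rw [Finset.sum_comm]
  refine Finset.sum_congr rfl fun i _ => Finset.sum_congr rfl fun j _ => ?_
  have h1 : star (A j i) * A j i = ((‖A j i‖ ^ 2 : ℝ) : ℂ) := by
    rw [Complex.ofReal_pow]
    exact Complex.conj_mul' _
  rw [h1, Complex.ofReal_re, sq]

lemma frob_mul_left (U A : Matrix (Fin r) (Fin r) ℂ) (hU : Uᴴ * U = 1) : ‖U * A‖ = ‖A‖ := by
  have h1 : ‖U * A‖ * ‖U * A‖ = ‖A‖ * ‖A‖ := by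
    rw [frob_trace, frob_trace, Matrix.conjTranspose_mul]
    have : Aᴴ * Uᴴ * (U * A) = Aᴴ * (Uᴴ * U) * A := by simp only [Matrix.mul_assoc]
    rw [this, hU, Matrix.mul_one]
  exact (mul_self_inj_of_nonneg (norm_nonneg _) (norm_nonneg _)).1 h1

lemma frob_mul_right (U A : Matrix (Fin r) (Fin r) ℂ) (hU : U * Uᴴ = 1) : ‖A * U‖ = ‖A‖ := by
  rw [← frobenius_norm_conjTranspose (A * U), Matrix.conjTranspose_mul, frob_mul_left,
    frobenius_norm_conjTranspose]
  rw [Matrix.conjTranspose_conjTranspose]; exact hU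

end frob

/-- one unitary representation -/
theorem comm_rep {G : Type*} [Group G] [TopologicalSpace G] [IsTopologicalGroup G] [CompactSpace G]
    (hT : ∀ f : G → G,
      (Subgroup.closure (Set.range (fun x : G => f x * x * (f x)⁻¹))).topologicalClosure = ⊤)
    (r : ℕ) (ρ : G →* Matrix.unitaryGroup (Fin r) ℂ) (hρ : Continuous ρ)
    (a b : G) (ha : a ∈ G0 G) (hb : b ∈ G0 G) : ρ (a * b) = ρ (b * a) := by
  let _ := frobIPS r
  have : CompleteSpace (Matrix (Fin r) (Fin r) ℂ) := FiniteDimensional.complete ℝ _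
  let φ : G →* (Matrix (Fin r) (Fin r) ℂ)ˣ := (Unitary.toUnits (R := Matrix (Fin r) (Fin r) ℂ)).comp ρ
  have hv : ∀ g, ((φ g : (Matrix (Fin r) (Fin r) ℂ)ˣ) : Matrix (Fin r) (Fin r) ℂ) = ρ g := fun g => rfl
  have hφ : Continuous φ := by
    rw [Units.continuous_iff]
    refine ⟨continuous_subtype_val.comp hρ, ?_⟩
    have h1 : Continuous fun g : G => ((ρ g⁻¹ : Matrix.unitaryGroup (Fin r) ℂ) : Matrix (Fin r) (Fin r) ℂ) :=
      continuous_subtype_val.comp (hρ.comp continuous_inv)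
    refine h1.congr fun g => ?_
    rw [← hv, map_inv]
  let L : LG (Matrix (Fin r) (Fin r) ℂ)ˣ (Matrix (Fin r) (Fin r) ℂ) := LG.units _
  have hAd : ∀ (u : (Matrix (Fin r) (Fin r) ℂ)ˣ) (x : Matrix (Fin r) (Fin r) ℂ),
      (L.Ad u).val x = u * x * (u⁻¹ : (Matrix (Fin r) (Fin r) ℂ)ˣ) := by
    intro u x
    refine L.eq_of_forall_exp fun t => ?_
    rw [← map_smul, L.exp_Ad]
    apply Units.ext
    have e1 : ∀ y, ((L.exp y : (Matrix (Fin r) (Fin r) ℂ)ˣ) : Matrix (Fin r) (Fin r) ℂ) =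
        NormedSpace.exp y := fun y => rfl
    rw [Units.val_mul, Units.val_mul, e1, e1]
    have e2 : t • ((u : Matrix (Fin r) (Fin r) ℂ) * x * (u⁻¹ : (Matrix (Fin r) (Fin r) ℂ)ˣ)) =
        (u : Matrix (Fin r) (Fin r) ℂ) * (t • x) * (u⁻¹ : (Matrix (Fin r) (Fin r) ℂ)ˣ) := by
      rw [mul_smul_comm, smul_mul_assoc]
    rw [e2]
    let _ : NormedAlgebra ℚ (Matrix (Fin r) (Fin r) ℂ) := NormedAlgebra.restrictScalars ℚ ℝ _
    exact (NormedSpace.exp_units_conj u (t • x)).symm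
  have hiso : ∀ (g : G) (x : Matrix (Fin r) (Fin r) ℂ), ‖(L.Ad (φ g)).val x‖ = ‖x‖ := by
    intro g x
    rw [hAd]
    have h1 : ((φ g : (Matrix (Fin r) (Fin r) ℂ)ˣ) : Matrix (Fin r) (Fin r) ℂ)ᴴ * (φ g : (Matrix (Fin r) (Fin r) ℂ)ˣ) = 1 := by
      rw [hv]
      exact Matrix.mem_unitaryGroup_iff'.1 (ρ g).2
    have h2 : (((φ g)⁻¹ : (Matrix (Fin r) (Fin r) ℂ)ˣ) : Matrix (Fin r) (Fin r) ℂ) *
        (((φ g)⁻¹ : (Matrix (Fin r) (Fin r) ℂ)ˣ) : Matrix (Fin r) (Fin r) ℂ)ᴴ = 1 := by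
      rw [← map_inv, hv]
      exact Matrix.mem_unitaryGroup_iff.1 (ρ g⁻¹).2
    rw [frob_mul_right _ _ h2, frob_mul_left _ _ h1]
  have hfin := comm_of_tig L φ hφ hiso hT a b ha hb
  apply Subtype.ext
  exact congrArg (fun u : (Matrix (Fin r) (Fin r) ℂ)ˣ => (u : Matrix (Fin r) (Fin r) ℂ)) hfin

/-- the identity component of a topologically invariably generated compact group is abelian -/
theorem comm_of_tig' {G : Type} [Group G] [TopologicalSpace G] [IsTopologicalGroup G] [CompactSpace G]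
    [T2Space G] (hT : ∀ f : G → G,
      (Subgroup.closure (Set.range (fun x : G => f x * x * (f x)⁻¹))).topologicalClosure = ⊤)
    (a b : G) (ha : a ∈ G0 G) (hb : b ∈ G0 G) : a * b = b * a := by
  by_contra hab
  obtain ⟨r, ρ, hρ, hne⟩ := Pool.Agent.Y842.CX.separated_of_compact G _ _ hab
  exact hne (comm_rep hT r ρ hρ a b ha hb)

end Pool.Agent.Q86.Tig
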