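import Mathlib

/-!
# Connected abelian by profinite compact groups are topologically invariably generated
-/

set_option autoImplicit false
set_option linter.unusedSectionVars false

open Filter Topology Set

namespace Pool.Agent.Q86.Tig

/-- Jordan: a subgroup of a finite group meeting every conjugacy class is everything. -/
theorem jordan {F : Type*} [Group F] [Finite F] (S : Subgroup F) (h : ∀ x : F, ∃ f : F, f * x * f⁻¹ ∈ S) :
    S = ⊤ := by
  classical
  have := Fintype.ofFinite F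
  have := Fintype.ofFinite (F ⧸ S)
  by_contra hS
  have hb := MulAction.sum_card_fixedBy_eq_card_orbits_mul_card_group F (F ⧸ S)
  have horb : Fintype.card (Quotient (MulAction.orbitRel F (F ⧸ S))) = 1 := by
    rw [Fintype.card_eq_one_iff_nonempty_unique]
    have hsub : Subsingleton (Quotient (MulAction.orbitRel F (F ⧸ S))) :=
      (MulAction.pretransitive_iff_subsingleton_quotient F (F ⧸ S)).1 inferInstance
    exact ⟨⟨⟨Quotient.mk'' ((1 : F) : F ⧸ S)⟩, fun x => Subsingleton.elim _ _⟩⟩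
  rw [horb, one_mul] at hb
  have hge : ∀ x : F, 1 ≤ Fintype.card (MulAction.fixedBy (F ⧸ S) x) := by
    intro x
    obtain ⟨f, hf⟩ := h x
    rw [Nat.one_le_iff_ne_zero, Ne, Fintype.card_eq_zero_iff]
    intro he
    refine he.false ⟨((f⁻¹ : F) : F ⧸ S), ?_⟩
    show x • ((f⁻¹ : F) : F ⧸ S) = ((f⁻¹ : F) : F ⧸ S)
    rw [MulAction.Quotient.smul_coe, smul_eq_mul]
    rw [QuotientGroup.eq]
    have e : (x * f⁻¹)⁻¹ * f⁻¹ = (f * x * f⁻¹)⁻¹ := by group
    rw [e]
    exact S.inv_mem hf
  have h1 : 1 < Fintype.card (MulAction.fixedBy (F ⧸ S) (1 : F)) := by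
    have e : Fintype.card (MulAction.fixedBy (F ⧸ S) (1 : F)) = Fintype.card (F ⧸ S) := by
      refine Fintype.card_congr (Equiv.subtypeUnivEquiv fun x => ?_)
      show (1 : F) • x = x
      exact one_smul _ _
    rw [e, ← Nat.card_eq_fintype_card]
    have h2 : S.index ≠ 1 := fun h3 => hS (Subgroup.index_eq_one.1 h3)
    have h3 : S.index ≠ 0 := Subgroup.index_ne_zero_of_finite
    have h4 : S.index = Nat.card (F ⧸ S) := rfl
    omega
  have hlt : ∑ _x : F, 1 < ∑ x : F, Fintype.card (MulAction.fixedBy (F ⧸ S) x) :=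
    Finset.sum_lt_sum (fun x _ => hge x) ⟨1, Finset.mem_univ _, h1⟩
  rw [hb, Finset.sum_const, Finset.card_univ] at hlt
  simp at hlt

/-- profinite groups: a closed subgroup meeting every conjugacy class is everything -/
theorem profinite_eq {Q : Type*} [Group Q] [TopologicalSpace Q] [IsTopologicalGroup Q] [CompactSpace Q]
    [TotallyDisconnectedSpace Q] (S : Subgroup Q) (hS : IsClosed (S : Set Q))
    (h : ∀ x : Q, ∃ f : Q, f * x * f⁻¹ ∈ S) (q : Q) : q ∈ S := by
  have h1 := ProfiniteGrp.closedSubgroup_eq_sInf_open (⟨S, hS⟩ : ClosedSubgroup Q)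
  have h2 : S = sInf {N : Subgroup Q | IsOpen (N : Set Q) ∧ S ≤ N} := by
    simpa using h1
  rw [h2, Subgroup.mem_sInf]
  rintro N ⟨hNo, hSN⟩
  obtain ⟨W, hW⟩ := ProfiniteGrp.exist_openNormalSubgroup_sub_open_nhds_of_one hNo N.one_mem
  have : (W : Subgroup Q).Normal := W.isNormal'
  have : Finite (Q ⧸ (W : Subgroup Q)) := Subgroup.quotient_finite_of_isOpen _ W.isOpen'
  have hWN : (W : Subgroup Q) ≤ N := hW
  have h3 : N.map (QuotientGroup.mk' (W : Subgroup Q)) = ⊤ := by
    refine jordan _ fun x => ?_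
    obtain ⟨x, rfl⟩ := QuotientGroup.mk'_surjective _ x
    obtain ⟨f, hf⟩ := h x
    exact ⟨QuotientGroup.mk' _ f, f * x * f⁻¹, hSN hf, by simp⟩
  have h4 : QuotientGroup.mk' (W : Subgroup Q) q ∈ N.map (QuotientGroup.mk' (W : Subgroup Q)) := by
    rw [h3]; exact Subgroup.mem_top _
  obtain ⟨n, hn, hnq⟩ := h4
  have h5 : n⁻¹ * q ∈ (W : Subgroup Q) := QuotientGroup.eq.1 hnq
  have h6 := N.mul_mem hn (hWN h5)
  rwa [mul_inv_cancel_left] at h6

/-- (abelian normal) by profinite compact groups are topologically invariably generated -/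
theorem tig_of_ext {G : Type*} [Group G] [TopologicalSpace G] [IsTopologicalGroup G] [CompactSpace G]
    (N : Subgroup G) (hN : N.Normal) (hab : ∀ a ∈ N, ∀ b ∈ N, a * b = b * a)
    (hcl : IsClosed (N : Set G))
    (htd : TotallyDisconnectedSpace (G ⧸ N)) (f : G → G) :
    (Subgroup.closure (Set.range (fun x : G => f x * x * (f x)⁻¹))).topologicalClosure = ⊤ := by
  obtain ⟨S, hSdef⟩ : ∃ S : Subgroup G, S =
    (Subgroup.closure (Set.range (fun x : G => f x * x * (f x)⁻¹))).topologicalClosure := ⟨_, rfl⟩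
  rw [← hSdef]
  have hScl : IsClosed (S : Set G) := by rw [hSdef]; exact Subgroup.isClosed_topologicalClosure _
  have hSf : ∀ x, f x * x * (f x)⁻¹ ∈ S := by
    intro x
    rw [hSdef]
    exact Subgroup.le_topologicalClosure _ (Subgroup.subset_closure ⟨x, rfl⟩)
  -- the image in the quotient
  have hq : ∀ q : G ⧸ N, q ∈ S.map (QuotientGroup.mk' N) := by
    have : T3Space (G ⧸ N) := inferInstance
    have hc : IsClosed ((S.map (QuotientGroup.mk' N) : Subgroup (G ⧸ N)) : Set (G ⧸ N)) := by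
      rw [Subgroup.coe_map]
      have hmk : Continuous (QuotientGroup.mk' N) := continuous_quot_mk
      exact (hScl.isCompact.image hmk).isClosed
    refine profinite_eq _ hc fun x => ?_
    obtain ⟨x, rfl⟩ := QuotientGroup.mk'_surjective _ x
    exact ⟨QuotientGroup.mk' _ (f x), f x * x * (f x)⁻¹, hSf x, by simp⟩
  have hdec : ∀ g : G, ∃ s ∈ S, ∃ n ∈ N, g = s * n := by
    intro g
    obtain ⟨s, hs, hsg⟩ := hq (QuotientGroup.mk' N g)
    have h5 : s⁻¹ * g ∈ N := QuotientGroup.eq.1 hsg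
    exact ⟨s, hs, s⁻¹ * g, h5, by group⟩
  have hnorm : ∀ g : G, ∀ x ∈ S ⊓ N, g * x * g⁻¹ ∈ S ⊓ N := by
    intro g x hx
    obtain ⟨s, hs, n, hn, rfl⟩ := hdec g
    have h1 : n * x * n⁻¹ = x := by
      rw [hab n hn x hx.2, mul_inv_cancel_right]
    have h2 : s * n * x * (s * n)⁻¹ = s * x * s⁻¹ := by
      calc s * n * x * (s * n)⁻¹ = s * (n * x * n⁻¹) * s⁻¹ := by group
        _ = _ := by rw [h1]
    rw [h2]
    exact ⟨S.mul_mem (S.mul_mem hs hx.1) (S.inv_mem hs), hN.conj_mem x hx.2 s⟩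
  have hNS : N ≤ S := by
    intro a ha
    have h1 : f a * a * (f a)⁻¹ ∈ S ⊓ N := ⟨hSf a, hN.conj_mem a ha _⟩
    have h2 := hnorm (f a)⁻¹ _ h1
    have h3 : (f a)⁻¹ * (f a * a * (f a)⁻¹) * (f a)⁻¹⁻¹ = a := by group
    rw [h3] at h2
    exact h2.1
  rw [eq_top_iff]
  intro g _
  obtain ⟨s, hs, n, hn, rfl⟩ := hdec g
  exact S.mul_mem hs (hNS hn)

/-- the quotient by the identity component is totally disconnected -/
theorem totDisc {G : Type*} [Group G] [TopologicalSpace G] [IsTopologicalGroup G] :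
    TotallyDisconnectedSpace (G ⧸ Subgroup.connectedComponentOfOne G) := by
  have hq : IsQuotientMap (QuotientGroup.mk : G → G ⧸ Subgroup.connectedComponentOfOne G) :=
    QuotientGroup.isQuotientMap_mk _
  have hfib0 : ∀ a : G, (QuotientGroup.mk : G → G ⧸ Subgroup.connectedComponentOfOne G) ⁻¹'
      {(a : G ⧸ Subgroup.connectedComponentOfOne G)} = (fun x => a * x) '' connectedComponent (1 : G) := by
    intro a
    ext x
    constructor
    · intro hx
      have h1 : a⁻¹ * x ∈ Subgroup.connectedComponentOfOne G := QuotientGroup.eq.1 (Eq.symm hx)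
      exact ⟨a⁻¹ * x, h1, by simp⟩
    · rintro ⟨y, hy, rfl⟩
      show ((a * y : G) : G ⧸ Subgroup.connectedComponentOfOne G) = a
      rw [eq_comm, QuotientGroup.eq]
      rw [inv_mul_cancel_left]
      exact hy
  have hfib : ∀ y : G ⧸ Subgroup.connectedComponentOfOne G, IsConnected
      ((QuotientGroup.mk : G → G ⧸ Subgroup.connectedComponentOfOne G) ⁻¹' {y}) := by
    intro y
    obtain ⟨a, rfl⟩ := QuotientGroup.mk_surjective y
    rw [hfib0]
    exact isConnected_connectedComponent.image _ (by fun_prop)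
  rw [totallyDisconnectedSpace_iff_connectedComponent_singleton]
  intro y
  obtain ⟨a, rfl⟩ := QuotientGroup.mk_surjective y
  have h1 := hq.isCoinducing.image_connectedComponent hfib a
  rw [← h1]
  have h2 : connectedComponent a ⊆ (QuotientGroup.mk : G → G ⧸ Subgroup.connectedComponentOfOne G) ⁻¹'
      {(a : G ⧸ Subgroup.connectedComponentOfOne G)} := by
    intro x hx
    rw [hfib0]
    refine ⟨a⁻¹ * x, ?_, by simp⟩
    have h3 : (fun z => a⁻¹ * z) '' connectedComponent a ⊆ connectedComponent ((fun z => a⁻¹ * z) a) :=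
      Continuous.image_connectedComponent_subset (f := fun z => a⁻¹ * z) (by fun_prop) a
    have h4 := h3 ⟨x, hx, rfl⟩
    simpa using h4
  apply Subset.antisymm
  · rintro _ ⟨x, hx, rfl⟩
    exact h2 hx
  · rintro _ rfl
    exact ⟨a, mem_connectedComponent, rfl⟩

end Pool.Agent.Q86.Tig
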