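import Pool.Agent.Q86.ToepGH

set_option autoImplicit false

/-!
# The symbol
-/

namespace Pool.Agent.Q86.Toep

open MeasureTheory AddCircle Filter Topology
open scoped ComplexConjugate ENNReal InnerProductSpace
open Pool.Agent.Helper917.Hardy

/-- continuous functions in `L²` -/
noncomputable def tl (f : C(Circ, ℂ)) : L2 ℂ := ContinuousMap.toLp 2 mu ℂ f

theorem coeFn_tl (f : C(Circ, ℂ)) : tl f =ᵐ[mu] f := ContinuousMap.coeFn_toLp mu f

theorem norm_tl_le {f : C(Circ, ℂ)} {C : ℝ} (hC : 0 ≤ C) (h : ∀ t, ‖f t‖ ≤ C) : ‖tl f‖ ≤ C := by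
  have h1 := Lp.norm_le_of_ae_bound (f := tl f) hC (by
    filter_upwards [coeFn_tl f] with t ht
    rw [ht]; exact h t)
  have h2 : measureUnivNNReal mu = 1 := by
    unfold measureUnivNNReal
    rw [measure_univ, ENNReal.toNNReal_one]
  rwa [h2, NNReal.coe_one, Real.one_rpow, one_mul] at h1

theorem tl_ne_zero {f : C(Circ, ℂ)} (h : f ≠ 0) : tl f ≠ 0 := by
  intro h0
  apply h
  apply ContinuousMap.toLp_injective (p := 2) (𝕜 := ℂ) mu
  rw [map_zero]
  exact h0

/-- the errors -/
noncomputable def ep (k : ℕ) : ℝ := 1 / 800 * (1 / 2) ^ k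

theorem ep_pos (k : ℕ) : 0 < ep k := by unfold ep; positivity

theorem hasSum_ep : HasSum ep (1 / 400) := by
  have h1 := (hasSum_geometric_two).mul_left (1 / 800 : ℝ)
  have h2 : (1 / 800 : ℝ) * 2 = 1 / 400 := by norm_num
  rw [h2] at h1
  exact h1

theorem exists_v (k : ℕ) : ∃ v : C(Circ, ℂ), (∃ d : ℕ, Deg v d) ∧ ∀ t, ‖v t - be k t‖ ≤ ep k :=
  exists_approx (be k) (ep_pos k)

theorem eta_pos (k : ℕ) : 0 < ‖tl (ga k)‖ / 400 :=
  div_pos (norm_pos_iff.2 (tl_ne_zero (ga_ne_zero k))) (by norm_num)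

theorem exists_u (k : ℕ) :
    ∃ u : C(Circ, ℂ), (∃ d : ℕ, Deg u d) ∧ ∀ t, ‖u t - ga k t‖ ≤ ‖tl (ga k)‖ / 400 :=
  exists_approx (ga k) (eta_pos k)

noncomputable def v (k : ℕ) : C(Circ, ℂ) := (exists_v k).choose

noncomputable def u (k : ℕ) : C(Circ, ℂ) := (exists_u k).choose

noncomputable def dv (k : ℕ) : ℕ := (exists_v k).choose_spec.1.choose

noncomputable def du (k : ℕ) : ℕ := (exists_u k).choose_spec.1.choose

theorem deg_v (k : ℕ) : Deg (v k) (dv k) := (exists_v k).choose_spec.1.choose_spec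

theorem deg_u (k : ℕ) : Deg (u k) (du k) := (exists_u k).choose_spec.1.choose_spec

theorem v_sub (k : ℕ) (t : Circ) : ‖v k t - be k t‖ ≤ ep k := (exists_v k).choose_spec.2 t

theorem u_sub (k : ℕ) (t : Circ) : ‖u k t - ga k t‖ ≤ ‖tl (ga k)‖ / 400 :=
  (exists_u k).choose_spec.2 t

/-- the frequencies, minus one -/
noncomputable def nn (k : ℕ) : ℕ := 2 * du k + dv k + k

/-- the terms of the symbol -/
noncomputable def tm (k : ℕ) (t : Circ) : ℂ := fourier ((nn k : ℤ) + 1) t * v k t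

/-- the terms without the errors -/
noncomputable def bm (k : ℕ) (t : Circ) : ℂ := fourier ((nn k : ℤ) + 1) t * be k t

theorem norm_four (n : ℤ) (t : Circ) : ‖(fourier n t : ℂ)‖ = 1 := by
  rw [fourier_apply]
  exact Circle.norm_coe _

theorem tm_sub_bm (k : ℕ) (t : Circ) : ‖tm k t - bm k t‖ ≤ ep k := by
  unfold tm bm
  rw [← mul_sub, norm_mul, norm_four, one_mul]
  exact v_sub k t

theorem bm_hasSum (t : Circ) : ∃ z : ℂ, HasSum (fun k => bm k t) z ∧ ‖z‖ ≤ 1 ∧
    Summable fun k => ‖bm k t‖ := by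
  by_cases h : ∃ k, be k t ≠ 0
  · obtain ⟨k, hk⟩ := h
    have h0 : ∀ l, l ≠ k → bm l t = 0 := by
      intro l hl
      unfold bm
      rw [be_disj hl.symm hk, mul_zero]
    refine ⟨bm k t, hasSum_single k h0, ?_, ?_⟩
    · unfold bm
      rw [norm_mul, norm_four, one_mul]
      exact norm_be_le k t
    · apply (hasSum_single k (f := fun l => ‖bm l t‖) ?_).summable
      intro l hl
      rw [h0 l hl, norm_zero]
  · push Not at h
    have h0 : ∀ l, bm l t = 0 := by
      intro l
      unfold bm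
      rw [h l, mul_zero]
    refine ⟨0, ?_, by simp, ?_⟩
    · simp only [h0]; exact hasSum_zero
    · simp only [h0, norm_zero]; exact summable_zero

theorem tm_summable (t : Circ) : Summable fun k => tm k t := by
  obtain ⟨z, hz, -, -⟩ := bm_hasSum t
  have h1 : Summable fun k => tm k t - bm k t :=
    Summable.of_norm_bounded hasSum_ep.summable fun k => tm_sub_bm k t
  have h2 := h1.add hz.summable
  refine h2.congr fun k => ?_
  ring

/-- the symbol -/
noncomputable def g (t : Circ) : ℂ := ∑' k, tm k t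

theorem norm_partial_le (t : Circ) (K : ℕ) : ‖∑ k ∈ Finset.range K, tm k t‖ ≤ 2 := by
  have h1 : ∑ k ∈ Finset.range K, tm k t =
      ∑ k ∈ Finset.range K, (tm k t - bm k t) + ∑ k ∈ Finset.range K, bm k t := by
    rw [← Finset.sum_add_distrib]
    refine Finset.sum_congr rfl fun k _ => ?_
    ring
  rw [h1]
  refine (norm_add_le _ _).trans ?_
  have h2 : ‖∑ k ∈ Finset.range K, (tm k t - bm k t)‖ ≤ 1 / 400 := by
    refine (norm_sum_le _ _).trans ?_
    refine (Finset.sum_le_sum fun k _ => tm_sub_bm k t).trans ?_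
    exact sum_le_hasSum _ (fun k _ => (ep_pos k).le) hasSum_ep
  have h3 : ‖∑ k ∈ Finset.range K, bm k t‖ ≤ 1 := by
    by_cases h : ∃ k, be k t ≠ 0
    · obtain ⟨k, hk⟩ := h
      have h0 : ∀ l, l ≠ k → bm l t = 0 := by
        intro l hl
        unfold bm
        rw [be_disj hl.symm hk, mul_zero]
      by_cases hkK : k ∈ Finset.range K
      · rw [Finset.sum_eq_single k (fun l _ hl => h0 l hl) (fun h => absurd hkK h)]
        unfold bm
        rw [norm_mul, norm_four, one_mul]
        exact norm_be_le k t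
      · rw [Finset.sum_eq_zero]
        · simp
        · intro l hl
          apply h0
          rintro rfl
          exact hkK hl
    · push Not at h
      rw [Finset.sum_eq_zero]
      · simp
      · intro l _
        unfold bm
        rw [h l, mul_zero]
  linarith

theorem tendsto_partial (t : Circ) :
    Tendsto (fun K => ∑ k ∈ Finset.range K, tm k t) atTop (𝓝 (g t)) :=
  (tm_summable t).hasSum.tendsto_sum_nat

theorem norm_g_le (t : Circ) : ‖g t‖ ≤ 2 :=
  le_of_tendsto (tendsto_partial t).norm (Eventually.of_forall fun K => norm_partial_le t K)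

theorem continuous_partial (K : ℕ) : Continuous fun t => ∑ k ∈ Finset.range K, tm k t := by
  apply continuous_finsetSum
  intro k _
  unfold tm
  exact (fourier _).continuous.mul (v k).continuous

theorem bd_g : Bd g := by
  refine ⟨?_, 2, norm_g_le⟩
  apply aestronglyMeasurable_of_tendsto_ae atTop
    (f := fun (K : ℕ) (t : Circ) => ∑ k ∈ Finset.range K, tm k t)
  · intro K
    exact (continuous_partial K).aestronglyMeasurable
  · exact ae_of_all _ tendsto_partial

theorem an_tm (k : ℕ) : ∀ n : ℤ, n < 0 → fourierCoeff (tm k) n = 0 := by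
  intro n hn
  have h1 : tm k = fun t => fourier ((nn k : ℤ) + 1) t * v k t := rfl
  rw [h1, fourierCoeff_shift]
  apply deg_v
  have h2 : (nn k : ℤ) = 2 * du k + dv k + k := by unfold nn; push_cast; ring
  rw [abs_of_neg (by omega)]
  omega

theorem an_g : An g := by
  intro n hn
  have h1 : Tendsto (fun K : ℕ => ∫ t : Circ, fourier (-n) t • ∑ k ∈ Finset.range K, tm k t ∂mu)
      atTop (𝓝 (∫ t : Circ, fourier (-n) t • g t ∂mu)) := by
    apply tendsto_integral_of_dominated_convergence (fun _ => 2)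
    · intro K
      exact ((fourier (-n)).continuous.smul (continuous_partial K)).aestronglyMeasurable
    · exact integrable_const _
    · intro K
      refine ae_of_all _ fun t => ?_
      rw [norm_smul, norm_four, one_mul]
      exact norm_partial_le t K
    · exact ae_of_all _ fun t => (tendsto_partial t).const_smul _
  have h2 : ∀ K : ℕ, ∫ t : Circ, fourier (-n) t • ∑ k ∈ Finset.range K, tm k t ∂mu = 0 := by
    intro K
    simp_rw [Finset.smul_sum]
    rw [integral_finsetSum]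
    · apply Finset.sum_eq_zero
      intro k _
      exact an_tm k n hn
    · intro k _
      have h3 : Continuous fun t => fourier (-n) t • tm k t := by
        unfold tm
        exact (fourier (-n)).continuous.smul ((fourier _).continuous.mul (v k).continuous)
      exact integrable_cont ⟨_, h3⟩
  simp_rw [h2] at h1
  exact tendsto_nhds_unique h1 tendsto_const_nhds |>.symm ▸ rfl

/-- Near the `k`-th arc the symbol is close to a power. -/
theorem g_near (k : ℕ) (t : Circ) (h : ga k t ≠ 0) : ‖g t - fourier ((nn k : ℤ) + 1) t‖ ≤ 1 / 400 := by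
  have hb : be k t = 1 := be_eq_one h
  have hb0 : be k t ≠ 0 := by rw [hb]; exact one_ne_zero
  have h0 : ∀ l, l ≠ k → bm l t = 0 := by
    intro l hl
    unfold bm
    rw [be_disj hl.symm hb0, mul_zero]
  have h1 : HasSum (fun l => bm l t) (fourier ((nn k : ℤ) + 1) t) := by
    have h2 := hasSum_single k h0
    have h3 : bm k t = fourier ((nn k : ℤ) + 1) t := by
      unfold bm
      rw [hb, mul_one]
    rwa [h3] at h2
  have h4 := (tm_summable t).hasSum.sub h1
  have h5 : g t - fourier ((nn k : ℤ) + 1) t = ∑' l, (tm l t - bm l t) := h4.tsum_eq.symm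
  rw [h5]
  exact tsum_of_norm_bounded hasSum_ep fun l => tm_sub_bm l t

/-- the test function -/
noncomputable def F (k : ℕ) : C(Circ, ℂ) := fourier (du k : ℤ) * u k

theorem coeff_F (k : ℕ) (n : ℤ) : fourierCoeff (tl (F k)) n = fourierCoeff (u k) (n - du k) := by
  rw [fourierCoeff_congr_ae (coeFn_tl (F k))]
  exact fourierCoeff_shift (du k : ℤ) (u k) n

theorem io_pr_F (k : ℕ) : io (pr (tl (F k))) = tl (F k) := by
  apply io_pr
  intro n hn
  rw [coeff_F]
  apply deg_u
  rw [abs_of_neg (by omega)]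
  omega

theorem P_F (k : ℕ) : P (nn k) (pr (tl (F k))) = pr (tl (F k)) := by
  ext j
  rw [P_apply, pr_apply]
  split_ifs with hj
  · rfl
  · rw [coeff_F, deg_u]
    have h2 : (nn k : ℤ) = 2 * du k + dv k + k := by unfold nn; push_cast; ring
    rw [abs_of_pos (by omega)]
    omega

theorem norm_F_ge (k : ℕ) : 399 / 400 * ‖tl (ga k)‖ ≤ ‖tl (F k)‖ := by
  have h1 : ‖tl (F k)‖ = ‖tl (u k)‖ := by
    apply le_antisymm
    · apply Lp.norm_le_norm_of_ae_le
      filter_upwards [coeFn_tl (F k), coeFn_tl (u k)] with t h1 h2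
      rw [h1, h2]
      change ‖fourier (du k : ℤ) t * u k t‖ ≤ _
      rw [norm_mul, norm_four, one_mul]
    · apply Lp.norm_le_norm_of_ae_le
      filter_upwards [coeFn_tl (F k), coeFn_tl (u k)] with t h1 h2
      rw [h1, h2]
      change _ ≤ ‖fourier (du k : ℤ) t * u k t‖
      rw [norm_mul, norm_four, one_mul]
  have h2 : ‖tl (ga k - u k)‖ ≤ ‖tl (ga k)‖ / 400 := by
    apply norm_tl_le (eta_pos k).le
    intro t
    rw [ContinuousMap.sub_apply, norm_sub_rev]
    exact u_sub k t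
  have h3 : tl (ga k) = tl (u k) + tl (ga k - u k) := by
    unfold tl
    rw [map_sub]; abel
  have h4 : ‖tl (ga k)‖ ≤ ‖tl (u k)‖ + ‖tl (ga k - u k)‖ := by
    conv_lhs => rw [h3]
    exact norm_add_le _ _
  rw [h1]
  linarith

theorem norm_err (k : ℕ) :
    ‖M (bd_g.sub (bd_fourier ((nn k : ℤ) + 1))) (tl (F k))‖ ≤ ‖tl (ga k)‖ / 100 := by
  have h1 : ‖M (bd_g.sub (bd_fourier ((nn k : ℤ) + 1))) (tl (F k))‖ ≤
      ‖tl ((1 / 400 : ℂ) • ga k + ((3 * (‖tl (ga k)‖ / 400) : ℝ) : ℂ) • (1 : C(Circ, ℂ)))‖ := by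
    apply Lp.norm_le_norm_of_ae_le
    filter_upwards [coeFn_M (bd_g.sub (bd_fourier ((nn k : ℤ) + 1))) (tl (F k)),
      coeFn_tl (F k),
      coeFn_tl ((1 / 400 : ℂ) • ga k + ((3 * (‖tl (ga k)‖ / 400) : ℝ) : ℂ) • (1 : C(Circ, ℂ)))]
      with t h1 h2 h3
    rw [h1, h2, h3]
    have hη := (eta_pos k).le
    have h4 : ‖((1 / 400 : ℂ) • ga k + ((3 * (‖tl (ga k)‖ / 400) : ℝ) : ℂ) • (1 : C(Circ, ℂ))) t‖ =
        1 / 400 * ‖ga k t‖ + 3 * (‖tl (ga k)‖ / 400) := by
      have h5 : ((1 / 400 : ℂ) • ga k + ((3 * (‖tl (ga k)‖ / 400) : ℝ) : ℂ) • (1 : C(Circ, ℂ))) t =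
          ((1 / 400 * max 0 (1 - 2 * ds k t) + 3 * (‖tl (ga k)‖ / 400) : ℝ) : ℂ) := by
        rw [ContinuousMap.add_apply, ContinuousMap.smul_apply, ContinuousMap.smul_apply, ga_apply,
          ContinuousMap.one_apply]
        simp only [smul_eq_mul, mul_one]
        push_cast
        ring
      rw [h5, ga_apply, Complex.norm_real, Complex.norm_real, Real.norm_of_nonneg,
        Real.norm_of_nonneg (le_max_left _ _)]
      have := le_max_left (0 : ℝ) (1 - 2 * ds k t)
      positivity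
    rw [h4]
    change ‖(g t - fourier ((nn k : ℤ) + 1) t) * (fourier (du k : ℤ) t * u k t)‖ ≤ _
    rw [norm_mul, norm_mul, norm_four, one_mul]
    have h6 : ‖u k t‖ ≤ ‖ga k t‖ + ‖tl (ga k)‖ / 400 := by
      have h7 : u k t = ga k t + (u k t - ga k t) := by ring
      rw [h7]
      exact (norm_add_le _ _).trans (by linarith [u_sub k t])
    have h8 : ‖g t - fourier ((nn k : ℤ) + 1) t‖ ≤ 3 := by
      refine (norm_sub_le _ _).trans ?_
      rw [norm_four]
      linarith [norm_g_le t]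
    have h9 : ‖g t - fourier ((nn k : ℤ) + 1) t‖ * ‖ga k t‖ ≤ 1 / 400 * ‖ga k t‖ := by
      by_cases h0 : ga k t = 0
      · rw [h0, norm_zero, mul_zero, mul_zero]
      · exact mul_le_mul_of_nonneg_right (g_near k t h0) (norm_nonneg _)
    calc _ ≤ ‖g t - fourier ((nn k : ℤ) + 1) t‖ * (‖ga k t‖ + ‖tl (ga k)‖ / 400) :=
          mul_le_mul_of_nonneg_left h6 (norm_nonneg _)
      _ = ‖g t - fourier ((nn k : ℤ) + 1) t‖ * ‖ga k t‖ +
          ‖g t - fourier ((nn k : ℤ) + 1) t‖ * (‖tl (ga k)‖ / 400) := by ring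
      _ ≤ _ := add_le_add h9 (mul_le_mul_of_nonneg_right h8 hη)
  refine h1.trans ?_
  have h2 : tl ((1 / 400 : ℂ) • ga k + ((3 * (‖tl (ga k)‖ / 400) : ℝ) : ℂ) • (1 : C(Circ, ℂ))) =
      (1 / 400 : ℂ) • tl (ga k) + ((3 * (‖tl (ga k)‖ / 400) : ℝ) : ℂ) • tl 1 := by
    unfold tl
    rw [map_add, map_smul, map_smul]
  rw [h2]
  refine (norm_add_le _ _).trans ?_
  rw [norm_smul, norm_smul, Complex.norm_real, Real.norm_of_nonneg
    (mul_nonneg (by norm_num) (eta_pos k).le)]
  have h3 : ‖tl 1‖ ≤ 1 := norm_tl_le zero_le_one (fun t => by simp)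
  have h4 : ‖(1 / 400 : ℂ)‖ = 1 / 400 := by
    rw [norm_div, norm_one]
    norm_num
  rw [h4]
  have h5 := mul_le_mul_of_nonneg_left h3 (mul_nonneg (by norm_num : (0:ℝ) ≤ 3) (eta_pos k).le)
  linarith

/-- The symbol has the properties which we need. -/
theorem g_low (m : ℕ) : ∃ n ≥ m, ∃ f : E, f ≠ 0 ∧ P n f = f ∧
    ‖M (bd_g.sub (bd_fourier ((n : ℤ) + 1))) (io f)‖ ≤ 1 / 90 * ‖f‖ := by
  refine ⟨nn m, by unfold nn; omega, pr (tl (F m)), ?_, P_F m, ?_⟩
  · intro h0
    have h1 := io_pr_F m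
    rw [h0, map_zero] at h1
    have h2 := norm_F_ge m
    rw [← h1, norm_zero] at h2
    linarith [eta_pos m]
  · rw [io_pr_F]
    have h1 : ‖pr (tl (F m))‖ = ‖tl (F m)‖ := by
      rw [← LinearIsometry.norm_map io, io_pr_F]
    rw [h1]
    have h2 := norm_err m
    have h3 := norm_F_ge m
    linarith [eta_pos m]

end Pool.Agent.Q86.Toep
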