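import Pool.Agent.Q86.ToepLow

set_option autoImplicit false

/-!
# A bounded analytic function which behaves like `z ^ N` on small arcs
-/

namespace Pool.Agent.Q86.Toep

open MeasureTheory AddCircle Filter Topology
open scoped ComplexConjugate ENNReal InnerProductSpace
open Pool.Agent.Helper917.Hardy

/-- The half length of the arcs. -/
noncomputable def hk (k : ℕ) : ℝ := 1 / 2 ^ (k + 4)

theorem hk_pos (k : ℕ) : 0 < hk k := by unfold hk; positivity

/-- The distance from the centre of the arc, normalised. -/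
noncomputable def ds (k : ℕ) (t : Circ) : ℝ := |‖t‖ - 3 * hk k| / hk k

theorem continuous_ds (k : ℕ) : Continuous (ds k) := by
  unfold ds
  exact ((continuous_norm.sub continuous_const).abs).div_const _

/-- The outer bump. -/
noncomputable def be (k : ℕ) : C(Circ, ℂ) :=
  ⟨fun t => ((max 0 (min 1 (2 - 2 * ds k t)) : ℝ) : ℂ), by
    have := continuous_ds k
    fun_prop⟩

/-- The inner bump. -/
noncomputable def ga (k : ℕ) : C(Circ, ℂ) :=
  ⟨fun t => ((max 0 (1 - 2 * ds k t) : ℝ) : ℂ), by
    have := continuous_ds k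
    fun_prop⟩

theorem be_apply (k : ℕ) (t : Circ) : be k t = ((max 0 (min 1 (2 - 2 * ds k t)) : ℝ) : ℂ) := rfl

theorem ga_apply (k : ℕ) (t : Circ) : ga k t = ((max 0 (1 - 2 * ds k t) : ℝ) : ℂ) := rfl

theorem norm_be_le (k : ℕ) (t : Circ) : ‖be k t‖ ≤ 1 := by
  rw [be_apply, Complex.norm_real, Real.norm_eq_abs, abs_of_nonneg (le_max_left _ _)]
  exact max_le zero_le_one (min_le_left _ _)

theorem be_supp {k : ℕ} {t : Circ} (h : be k t ≠ 0) : 2 * hk k < ‖t‖ ∧ ‖t‖ < 4 * hk k := by
  have h1 : ds k t < 1 := by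
    by_contra hle
    push Not at hle
    apply h
    rw [be_apply, max_eq_left, Complex.ofReal_zero]
    exact (min_le_right _ _).trans (by linarith)
  unfold ds at h1
  rw [div_lt_one (hk_pos k), abs_lt] at h1
  constructor <;> linarith

theorem be_disj {k l : ℕ} (hkl : k ≠ l) {t : Circ} (h : be k t ≠ 0) : be l t = 0 := by
  by_contra h'
  obtain ⟨h1, h2⟩ := be_supp h
  obtain ⟨h3, h4⟩ := be_supp h'
  have key : ∀ a b : ℕ, a < b → 4 * hk b ≤ 2 * hk a := by
    intro a b hab
    unfold hk
    have h5 : (2 : ℝ) ^ (a + 4) * 2 ≤ 2 ^ (b + 4) := by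
      rw [← pow_succ]
      exact pow_le_pow_right₀ (by norm_num) (by omega)
    rw [mul_one_div, mul_one_div, div_le_div_iff₀ (by positivity) (by positivity)]
    linarith
  rcases lt_or_gt_of_ne hkl with h5 | h5
  · have := key k l h5; linarith
  · have := key l k h5; linarith

theorem be_eq_one {k : ℕ} {t : Circ} (h : ga k t ≠ 0) : be k t = 1 := by
  have h1 : ds k t < 1 / 2 := by
    by_contra hle
    push Not at hle
    apply h
    rw [ga_apply, max_eq_left, Complex.ofReal_zero]
    linarith
  rw [be_apply, min_eq_left (by linarith), max_eq_right zero_le_one, Complex.ofReal_one]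

theorem ga_ne_zero (k : ℕ) : ga k ≠ 0 := by
  intro h
  have h1 := congrArg (fun f : C(Circ, ℂ) => f ((3 * hk k : ℝ) : Circ)) h
  have h2 : hk k ≤ 1 / 16 := by
    unfold hk
    have h3 : (1 : ℝ) ≤ 2 ^ k := one_le_pow₀ (by norm_num)
    rw [pow_add, div_le_div_iff₀ (by positivity) (by norm_num)]
    linarith
  have h3 : ‖((3 * hk k : ℝ) : Circ)‖ = 3 * hk k := by
    rw [(AddCircle.norm_coe_eq_abs_iff (1 : ℝ) one_ne_zero).2]
    · exact abs_of_pos (by linarith [hk_pos k])
    · rw [abs_of_pos (by linarith [hk_pos k]), abs_one]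
      linarith
  simp only [ga_apply, ContinuousMap.zero_apply] at h1
  unfold ds at h1
  rw [h3, sub_self, abs_zero, zero_div, mul_zero, sub_zero, max_eq_right zero_le_one] at h1
  exact one_ne_zero (Complex.ofReal_injective (h1.trans Complex.ofReal_zero.symm))

/-- The functions of degree at most `d`. -/
def Deg (v : Circ → ℂ) (d : ℕ) : Prop := ∀ n : ℤ, (d : ℤ) < |n| → fourierCoeff v n = 0

theorem integrable_cont (v : C(Circ, ℂ)) : Integrable v mu :=
  v.continuous.integrable_of_hasCompactSupport (HasCompactSupport.of_compactSpace _)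

theorem exists_deg {v : C(Circ, ℂ)} (hv : v ∈ Submodule.span ℂ (Set.range (@fourier 1))) :
    ∃ d : ℕ, Deg v d := by
  induction hv using Submodule.span_induction with
  | mem x hx =>
    obtain ⟨m, rfl⟩ := hx
    refine ⟨m.natAbs, fun n hn => ?_⟩
    have h1 := congrFun (fourierCoeff_fourier (T := (1 : ℝ)) m) n
    rw [h1, Pi.single_eq_of_ne]
    rintro rfl
    rw [Int.natCast_natAbs] at hn
    exact lt_irrefl _ hn
  | zero => exact ⟨0, fun n _ => by simp [fourierCoeff]⟩
  | add x y _ _ hx hy =>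
    obtain ⟨d, hd⟩ := hx
    obtain ⟨e, he⟩ := hy
    refine ⟨max d e, fun n hn => ?_⟩
    have h1 := hd n (lt_of_le_of_lt (by exact_mod_cast le_max_left d e) hn)
    have h2 := he n (lt_of_le_of_lt (by exact_mod_cast le_max_right d e) hn)
    unfold fourierCoeff at h1 h2 ⊢
    have h3 : ∀ t : Circ, fourier (-n) t • (x + y) t =
        fourier (-n) t • x t + fourier (-n) t • y t := fun t => by
      rw [ContinuousMap.add_apply, smul_add]
    simp_rw [h3]
    rw [integral_add, h1, h2, add_zero]
    · exact (integrable_cont x).fourier_smul _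
    · exact (integrable_cont y).fourier_smul _
  | smul c x _ hx =>
    obtain ⟨d, hd⟩ := hx
    refine ⟨d, fun n hn => ?_⟩
    have h1 := hd n hn
    unfold fourierCoeff at h1 ⊢
    have h3 : ∀ t : Circ, fourier (-n) t • (c • x) t = c • (fourier (-n) t • x t) := fun t => by
      rw [ContinuousMap.smul_apply, smul_comm]
    simp_rw [h3]
    rw [integral_smul, h1, smul_zero]

/-- Approximation by trigonometric polynomials. -/
theorem exists_approx (f : C(Circ, ℂ)) {ε : ℝ} (hε : 0 < ε) :
    ∃ v : C(Circ, ℂ), (∃ d : ℕ, Deg v d) ∧ ∀ t, ‖v t - f t‖ ≤ ε := by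
  have h1 : f ∈ (Submodule.span ℂ (Set.range (@fourier 1))).topologicalClosure := by
    rw [span_fourier_closure_eq_top]; trivial
  have h2 : f ∈ closure (Submodule.span ℂ (Set.range (@fourier 1)) : Set C(Circ, ℂ)) := h1
  obtain ⟨v, hv, hd⟩ := Metric.mem_closure_iff.1 h2 ε hε
  refine ⟨v, exists_deg hv, fun t => ?_⟩
  have h3 := ContinuousMap.dist_apply_le_dist (f := f) (g := v) t
  rw [dist_comm, dist_eq_norm] at h3
  exact h3.trans hd.le

theorem fourierCoeff_shift (m : ℤ) (v : Circ → ℂ) (n : ℤ) :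
    fourierCoeff (fun t => fourier m t * v t) n = fourierCoeff v (n - m) := by
  unfold fourierCoeff
  congr 1
  funext t
  rw [smul_eq_mul, smul_eq_mul, ← mul_assoc, ← fourier_add]
  congr 3
  ring

end Pool.Agent.Q86.Toep
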