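import Pool.Agent.Helper917.VecL2

set_option autoImplicit false

/-!
# Toeplitz operators with bounded symbols as operators on `ℓ²(ℕ)`
-/

namespace Pool.Agent.Q86.Toep

open MeasureTheory AddCircle Filter Topology
open scoped ComplexConjugate ENNReal InnerProductSpace
open Pool.Agent.Helper917.Hardy

/-- Square summable sequences. -/
abbrev E : Type := lp (fun _ : ℕ => ℂ) 2

/-- The unit vectors. -/
noncomputable abbrev ee (k : ℕ) : E := lp.single 2 k (1 : ℂ)

theorem ee_apply (k j : ℕ) : ee k j = if j = k then 1 else 0 := by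
  rw [lp.single_apply]
  by_cases h : j = k
  · subst h; simp
  · rw [if_neg h, Pi.single_eq_of_ne h]

theorem inner_ee (k : ℕ) (x : E) : ⟪ee k, x⟫_ℂ = x k := by
  have := lp.inner_single_left (𝕜 := ℂ) (G := fun _ : ℕ => ℂ) k 1 x
  rw [this]
  simp

theorem ext_inner_ee {x y : E} (h : ∀ k, ⟪ee k, x⟫_ℂ = ⟪ee k, y⟫_ℂ) : x = y := by
  ext k
  rw [← inner_ee, ← inner_ee, h]

/-- Bounded measurable functions on the circle. -/
def Bd (g : Circ → ℂ) : Prop := AEStronglyMeasurable g mu ∧ ∃ C : ℝ, ∀ t, ‖g t‖ ≤ C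

/-- Multiplication operator. -/
noncomputable def M {g : Circ → ℂ} (h : Bd g) : L2 ℂ →L[ℂ] L2 ℂ :=
  mulS g h.1 h.2.choose (ae_of_all _ h.2.choose_spec)

theorem coeFn_M {g : Circ → ℂ} (h : Bd g) (f : L2 ℂ) : M h f =ᵐ[mu] fun t => g t * f t :=
  coeFn_mulS _ _ _ _ f

theorem norm_M_le {g : Circ → ℂ} (h : Bd g) {C : ℝ} (hC : ∀ t, ‖g t‖ ≤ C) (f : L2 ℂ) :
    ‖M h f‖ ≤ C * ‖f‖ := by
  apply Lp.norm_le_mul_norm_of_ae_le_mul
  filter_upwards [coeFn_M h f] with t h2
  rw [h2, norm_mul]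
  exact mul_le_mul_of_nonneg_right (hC t) (norm_nonneg _)

theorem Bd.conj {g : Circ → ℂ} (h : Bd g) : Bd fun t => conj (g t) := by
  refine ⟨Complex.continuous_conj.comp_aestronglyMeasurable h.1, ?_⟩
  obtain ⟨C, hC⟩ := h.2
  exact ⟨C, fun t => by rw [RCLike.norm_conj]; exact hC t⟩

theorem Bd.mul {g k : Circ → ℂ} (h : Bd g) (h' : Bd k) : Bd fun t => g t * k t := by
  refine ⟨h.1.mul h'.1, ?_⟩
  obtain ⟨C, hC⟩ := h.2
  obtain ⟨D, hD⟩ := h'.2
  refine ⟨C * D, fun t => ?_⟩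
  rw [norm_mul]
  exact mul_le_mul (hC t) (hD t) (norm_nonneg _) ((norm_nonneg _).trans (hC t))

theorem Bd.neg {g : Circ → ℂ} (h : Bd g) : Bd fun t => g (-t) := by
  refine ⟨h.1.comp_quasiMeasurePreserving
    (Measure.measurePreserving_neg mu).quasiMeasurePreserving, ?_⟩
  obtain ⟨C, hC⟩ := h.2
  exact ⟨C, fun t => hC _⟩

theorem inner_M_left {g : Circ → ℂ} (h : Bd g) (f k : L2 ℂ) :
    ⟪M h f, k⟫_ℂ = ⟪f, M h.conj k⟫_ℂ := by
  rw [L2.inner_def, L2.inner_def]
  apply integral_congr_ae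
  filter_upwards [coeFn_M h f, coeFn_M h.conj k] with t h1 h2
  rw [h1, h2]
  simp only [RCLike.inner_apply, map_mul]
  ring

theorem M_M {g k : Circ → ℂ} (h : Bd g) (h' : Bd k) (f : L2 ℂ) :
    M h (M h' f) = M (h.mul h') f := by
  apply Lp.ext
  filter_upwards [coeFn_M h (M h' f), coeFn_M h' f, coeFn_M (h.mul h') f] with t h1 h2 h3
  rw [h1, h2, h3, mul_assoc]

/-- The embedding of `ℓ²(ℕ)` as the Hardy space. -/
noncomputable def io : E →ₗᵢ[ℂ] L2 ℂ :=
  ((orthogonalFamily_mono (E := ℂ)).comp (f := fun n : ℕ => (n : ℤ))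
    Nat.cast_injective).linearIsometry

theorem io_ee (k : ℕ) : io (ee k) = mono (k : ℤ) (1 : ℂ) := by
  have := ((orthogonalFamily_mono (E := ℂ)).comp (f := fun n : ℕ => (n : ℤ))
    Nat.cast_injective).linearIsometry_apply_single (i := k) (1 : ℂ)
  exact this

/-- The adjoint of the embedding. -/
noncomputable def pr : L2 ℂ →L[ℂ] E := ContinuousLinearMap.adjoint io.toContinuousLinearMap

theorem inner_pr (x : E) (f : L2 ℂ) : ⟪x, pr f⟫_ℂ = ⟪io x, f⟫_ℂ :=
  ContinuousLinearMap.adjoint_inner_right _ _ _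

theorem pr_apply (f : L2 ℂ) (j : ℕ) : pr f j = fourierCoeff f (j : ℤ) := by
  rw [← inner_ee, inner_pr, io_ee, inner_mono]
  simp

theorem pr_io (x : E) : pr (io x) = x := by
  apply ext_inner_ee
  intro k
  rw [inner_pr, LinearIsometry.inner_map_map]

theorem norm_pr_le (f : L2 ℂ) : ‖pr f‖ ≤ ‖f‖ := by
  have h1 : ‖pr‖ ≤ 1 := by
    unfold pr
    rw [LinearIsometryEquiv.norm_map]
    exact LinearIsometry.norm_toContinuousLinearMap_le _
  exact (pr.le_opNorm f).trans (mul_le_of_le_one_left (norm_nonneg _) h1)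

theorem io_pr {f : L2 ℂ} (h : ∀ n : ℤ, n < 0 → fourierCoeff f n = 0) : io (pr f) = f := by
  apply ext_fourierCoeff
  intro n
  have h1 : ∀ (m : ℤ) (k : L2 ℂ), fourierCoeff k m = ⟪mono m (1 : ℂ), k⟫_ℂ := by
    intro m k
    rw [inner_mono]; simp
  rcases le_or_gt 0 n with hn | hn
  · lift n to ℕ using hn
    rw [h1, ← io_ee, LinearIsometry.inner_map_map, inner_ee, pr_apply]
  · rw [h n hn, h1]
    have h2 : ⟪io (pr f), mono n (1 : ℂ)⟫_ℂ = 0 := by
      rw [← inner_pr]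
      have h3 : pr (mono n (1 : ℂ)) = 0 := by
        ext j
        rw [pr_apply, fourierCoeff_mono, if_neg (by omega)]
        rfl
      rw [h3, inner_zero_right]
    rw [← inner_conj_symm, h2, map_zero]

/-- The Toeplitz operator. -/
noncomputable def toep {g : Circ → ℂ} (h : Bd g) : E →L[ℂ] E :=
  pr ∘L M h ∘L io.toContinuousLinearMap

theorem toep_apply {g : Circ → ℂ} (h : Bd g) (x : E) : toep h x = pr (M h (io x)) := rfl

theorem fourierCoeff_M_mono {g : Circ → ℂ} (h : Bd g) (k n : ℤ) :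
    fourierCoeff (M h (mono k (1 : ℂ))) n = fourierCoeff g (n - k) := by
  have h1 : (M h (mono k (1 : ℂ)) : Circ → ℂ) =ᵐ[mu] fun t => fourier k t * g t := by
    filter_upwards [coeFn_M h (mono k (1 : ℂ)), coeFn_mono k (1 : ℂ)] with t h1 h2
    rw [h1, h2, smul_eq_mul, mul_one, mul_comm]
  rw [fourierCoeff_congr_ae h1]
  unfold fourierCoeff
  congr 1
  funext t
  rw [smul_eq_mul, smul_eq_mul, ← mul_assoc, ← fourier_add]
  congr 3
  ring

theorem toep_entry {g : Circ → ℂ} (h : Bd g) (j k : ℕ) :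
    (toep h (ee k)) j = fourierCoeff g ((j : ℤ) - (k : ℤ)) := by
  rw [toep_apply, pr_apply, io_ee, fourierCoeff_M_mono]

theorem adjoint_toep {g : Circ → ℂ} (h : Bd g) :
    ContinuousLinearMap.adjoint (toep h) = toep h.conj := by
  symm
  rw [ContinuousLinearMap.eq_adjoint_iff]
  intro x y
  rw [toep_apply, toep_apply, inner_pr, ← inner_conj_symm, inner_pr, inner_conj_symm,
    inner_M_left h.conj]
  congr 1
  apply Lp.ext
  filter_upwards [coeFn_M h.conj.conj (io y), coeFn_M h (io y)] with t h1 h2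
  rw [h1, h2, Complex.conj_conj]

/-- Analytic functions. -/
def An (g : Circ → ℂ) : Prop := ∀ n : ℤ, n < 0 → fourierCoeff g n = 0

theorem fourierCoeff_conj (g : Circ → ℂ) (n : ℤ) :
    fourierCoeff (fun t => conj (g t)) n = conj (fourierCoeff g (-n)) := by
  unfold fourierCoeff
  rw [← integral_conj]
  congr 1
  funext t
  rw [smul_eq_mul, smul_eq_mul, map_mul, neg_neg, fourier_neg]

theorem fourierCoeff_neg (g : Circ → ℂ) (n : ℤ) :
    fourierCoeff (fun t => g (-t)) n = fourierCoeff g (-n) := by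
  unfold fourierCoeff
  have h1 := integral_neg_eq_self (μ := mu) (fun t => fourier (- -n) t • g t)
  rw [← h1]
  congr 1
  funext t
  have h2 : (fourier (- -n) (-t) : ℂ) = fourier (-n) t := by
    rw [fourier_apply, fourier_apply]
    congr 2
    simp
  rw [h2]

theorem io_toep {g : Circ → ℂ} (h : Bd g) (ha : An g) (x : E) : io (toep h x) = M h (io x) := by
  rw [toep_apply]
  apply io_pr
  intro n hn
  have h1 : fourierCoeff (M h (io x)) n = ⟪mono n (1 : ℂ), M h (io x)⟫_ℂ := by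
    rw [inner_mono]; simp
  have h2 : ⟪M h (io x), mono n (1 : ℂ)⟫_ℂ = ⟪x, pr (M h.conj (mono n (1 : ℂ)))⟫_ℂ := by
    rw [inner_M_left, inner_pr]
  have h3 : pr (M h.conj (mono n (1 : ℂ))) = 0 := by
    ext j
    rw [pr_apply, fourierCoeff_M_mono, fourierCoeff_conj, ha _ (by omega), map_zero]
    rfl
  rw [h1, ← inner_conj_symm, h2, h3, inner_zero_right, map_zero]

theorem toep_conj_mul_toep {g : Circ → ℂ} (h : Bd g) (ha : An g) :
    toep h.conj * toep h = toep (h.conj.mul h) := by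
  ext1 x
  change toep h.conj (toep h x) = _
  rw [toep_apply h.conj, io_toep h ha, M_M, toep_apply]

/-- The symbols as elements of `L^∞`. -/
theorem exists_Lp {g : Circ → ℂ} (h : Bd g) :
    ∃ a : Lp ℂ ⊤ (volume : Measure (AddCircle (1 : ℝ))), ∀ n : ℤ,
      fourierCoeff (a : AddCircle (1 : ℝ) → ℂ) n = fourierCoeff g n := by
  have hv : (volume : Measure (AddCircle (1 : ℝ))) = mu := by
    rw [AddCircle.volume_eq_smul_haarAddCircle, ENNReal.ofReal_one, one_smul]
  rw [hv]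
  obtain ⟨C, hC⟩ := h.2
  have hm : MemLp g ⊤ mu := memLp_top_of_bound h.1 C (ae_of_all _ hC)
  exact ⟨hm.toLp g, fun n => congrFun (fourierCoeff_congr_ae hm.coeFn_toLp) n⟩

end Pool.Agent.Q86.Toep
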