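import Pool.Agent.Q86.ToepSec

set_option autoImplicit false

/-!
# The finite sections do not tend to zero
-/

namespace Pool.Agent.Q86.Toep

open MeasureTheory AddCircle Filter Topology
open scoped ComplexConjugate ENNReal InnerProductSpace
open Pool.Agent.Helper917.Hardy

theorem norm_fourier_apply (N : ℤ) (t : Circ) : ‖(fourier N t : ℂ)‖ ≤ 1 := by
  rw [fourier_apply]
  exact (Circle.norm_coe _).le

theorem bd_fourier (N : ℤ) : Bd fun t => fourier N t :=
  ⟨(fourier N).continuous.aestronglyMeasurable, 1, norm_fourier_apply N⟩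

theorem Bd.sub {g k : Circ → ℂ} (h : Bd g) (h' : Bd k) : Bd fun t => g t - k t := by
  refine ⟨h.1.sub h'.1, ?_⟩
  obtain ⟨C, hC⟩ := h.2
  obtain ⟨D, hD⟩ := h'.2
  exact ⟨C + D, fun t => (norm_sub_le _ _).trans (add_le_add (hC t) (hD t))⟩

theorem M_sub {g k : Circ → ℂ} (h : Bd g) (h' : Bd k) (f : L2 ℂ) :
    M (h.sub h') f = M h f - M h' f := by
  apply Lp.ext
  filter_upwards [coeFn_M (h.sub h') f, coeFn_M h f, coeFn_M h' f,
    Lp.coeFn_sub (M h f) (M h' f)] with t h1 h2 h3 h4
  rw [h1, h4, Pi.sub_apply, h2, h3, sub_mul]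

theorem norm_M_congr {g k : Circ → ℂ} (h : Bd g) (h' : Bd k) (hgk : ∀ t, ‖g t‖ = ‖k t‖)
    (f : L2 ℂ) : ‖M h f‖ = ‖M h' f‖ := by
  apply le_antisymm
  · apply Lp.norm_le_norm_of_ae_le
    filter_upwards [coeFn_M h f, coeFn_M h' f] with t h1 h2
    rw [h1, h2, norm_mul, norm_mul, hgk]
  · apply Lp.norm_le_norm_of_ae_le
    filter_upwards [coeFn_M h f, coeFn_M h' f] with t h1 h2
    rw [h1, h2, norm_mul, norm_mul, hgk]

theorem fourierCoeff_io (x : E) (n : ℤ) (hn : n < 0) : fourierCoeff (io x) n = 0 := by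
  have h1 : fourierCoeff (io x) n = ⟪mono n (1 : ℂ), io x⟫_ℂ := by
    rw [inner_mono]; simp
  have h2 : ⟪io x, mono n (1 : ℂ)⟫_ℂ = 0 := by
    rw [← inner_pr]
    have h3 : pr (mono n (1 : ℂ)) = 0 := by
      ext j
      rw [pr_apply, fourierCoeff_mono, if_neg (by omega)]
      rfl
    rw [h3, inner_zero_right]
  rw [h1, ← inner_conj_symm, h2, map_zero]

theorem fourierCoeff_io_nat (x : E) (n : ℕ) : fourierCoeff (io x) (n : ℤ) = x n := by
  rw [← pr_apply, pr_io]

theorem fourierCoeff_M_fourier (N : ℤ) (f : L2 ℂ) (n : ℤ) :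
    fourierCoeff (M (bd_fourier N) f) n = fourierCoeff f (n - N) := by
  rw [fourierCoeff_congr_ae (coeFn_M (bd_fourier N) f)]
  unfold fourierCoeff
  congr 1
  funext t
  rw [smul_eq_mul, smul_eq_mul, ← mul_assoc, ← fourier_add]
  congr 3
  ring

/-- The main estimate. -/
theorem lower {g : Circ → ℂ} (h : Bd g) (ha : An g) (hC : ∀ t, ‖g t‖ ≤ 2) {n : ℕ} {f : E}
    (hf : P n f = f) {δ : ℝ}
    (hδ : ‖M (h.sub (bd_fourier ((n : ℤ) + 1))) (io f)‖ ≤ δ * ‖f‖) :
    ‖S h n f - f‖ ≤ 45 * δ * ‖f‖ := by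
  have hc : ∀ t, ‖conj (g t)‖ ≤ 2 := fun t => by rw [RCLike.norm_conj]; exact hC t
  have hsup : ∀ j : ℕ, n < j → f j = 0 := by
    intro j hj
    rw [← hf, P_apply, if_neg (by omega)]
  have hδ0 : 0 ≤ δ * ‖f‖ := (norm_nonneg _).trans hδ
  set N : ℤ := (n : ℤ) + 1 with hN
  -- the conjugate symbol
  have hδ' : ‖M (h.conj.sub (bd_fourier (-N))) (io f)‖ ≤ δ * ‖f‖ := by
    refine le_trans (le_of_eq ?_) hδ
    apply norm_M_congr
    intro t
    have e1 : conj (g t) - fourier (-N) t = conj (g t - fourier N t) := by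
      rw [map_sub, fourier_neg]
    rw [e1, RCLike.norm_conj]
  -- `P T f`
  have hT : ‖P n (toep h f)‖ ≤ δ * ‖f‖ := by
    have e1 : P n (toep h f) = P n (pr (M (h.sub (bd_fourier N)) (io f))) := by
      rw [M_sub h (bd_fourier N), map_sub, map_sub, toep_apply]
      have e2 : P n (pr (M (bd_fourier N) (io f))) = 0 := by
        ext j
        rw [P_apply, pr_apply, fourierCoeff_M_fourier]
        split_ifs with hj
        · rw [fourierCoeff_io _ _ (by omega)]; rfl
        · rfl
      rw [e2, sub_zero]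
    rw [e1]
    exact (norm_P_le _ _).trans ((norm_pr_le _).trans hδ)
  have hT' : ‖toep h.conj f‖ ≤ δ * ‖f‖ := by
    have e1 : toep h.conj f = pr (M (h.conj.sub (bd_fourier (-N))) (io f)) := by
      rw [M_sub h.conj (bd_fourier (-N)), map_sub, toep_apply]
      have e2 : pr (M (bd_fourier (-N)) (io f)) = 0 := by
        ext j
        rw [pr_apply, fourierCoeff_M_fourier]
        have e3 : (j : ℤ) - -N = ((j + n + 1 : ℕ) : ℤ) := by push_cast; omega
        rw [e3, fourierCoeff_io_nat, hsup _ (by omega)]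
        rfl
      rw [e2, sub_zero]
    rw [e1]
    exact (norm_pr_le _).trans hδ'
  have hR : ‖toep (h.conj.mul h) f - f‖ ≤ 3 * (δ * ‖f‖) := by
    have e1 : toep (h.conj.mul h) f - f = pr (M h.conj (M (h.sub (bd_fourier N)) (io f)) +
        M (bd_fourier N) (M (h.conj.sub (bd_fourier (-N))) (io f))) := by
      have e2 : M h.conj (M (h.sub (bd_fourier N)) (io f)) +
          M (bd_fourier N) (M (h.conj.sub (bd_fourier (-N))) (io f)) =
          M (h.conj.mul h) (io f) - io f := by
        apply Lp.ext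
        filter_upwards [coeFn_M h.conj (M (h.sub (bd_fourier N)) (io f)),
          coeFn_M (h.sub (bd_fourier N)) (io f),
          coeFn_M (bd_fourier N) (M (h.conj.sub (bd_fourier (-N))) (io f)),
          coeFn_M (h.conj.sub (bd_fourier (-N))) (io f),
          coeFn_M (h.conj.mul h) (io f),
          Lp.coeFn_sub (M (h.conj.mul h) (io f)) (io f),
          Lp.coeFn_add (M h.conj (M (h.sub (bd_fourier N)) (io f)))
            (M (bd_fourier N) (M (h.conj.sub (bd_fourier (-N))) (io f)))]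
          with t h1 h2 h3 h4 h5 h6 h7
        rw [h7, h6, Pi.add_apply, Pi.sub_apply, h1, h2, h3, h4, h5]
        have h8 : (fourier N t : ℂ) * fourier (-N) t = 1 := by
          rw [← fourier_add, add_neg_cancel, fourier_zero]
        linear_combination (-(io f t)) * h8
      rw [e2, map_sub, pr_io, toep_apply]
    rw [e1]
    refine (norm_pr_le _).trans ((norm_add_le _ _).trans ?_)
    have h1 := (norm_M_le h.conj hc (M (h.sub (bd_fourier N)) (io f))).trans
      (mul_le_mul_of_nonneg_left hδ (by norm_num))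
    have h2 := (norm_M_le (bd_fourier N) (C := 1) (norm_fourier_apply N)
      (M (h.conj.sub (bd_fourier (-N))) (io f))).trans
      (mul_le_mul_of_nonneg_left hδ' (by norm_num))
    linarith
  have hPR : ‖P n (toep (h.conj.mul h) (P n f)) - f‖ ≤ 3 * (δ * ‖f‖) := by
    have e1 : P n (toep (h.conj.mul h) (P n f)) - f = P n (toep (h.conj.mul h) f - f) := by
      rw [map_sub, hf]
    rw [e1]
    exact (norm_P_le _ _).trans hR
  have hA2 : ‖A2 h n f - f‖ ≤ 5 * (δ * ‖f‖) := by
    rw [A2_apply h ha]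
    have e1 : P n (toep (h.conj.mul h) (P n f)) - toep h.conj (P n (toep h f)) - f =
        (P n (toep (h.conj.mul h) (P n f)) - f) - toep h.conj (P n (toep h f)) := by abel
    rw [e1]
    refine (norm_sub_le _ _).trans ?_
    have h1 := (norm_toep_le h.conj hc (P n (toep h f))).trans
      (mul_le_mul_of_nonneg_left hT (by norm_num))
    linarith
  have hA1 : ‖A1 h n f - f‖ ≤ 5 * (δ * ‖f‖) := by
    rw [A1_apply h ha]
    have e1 : P n (toep (h.conj.mul h) (P n f)) - P n (toep h (toep h.conj (P n f))) - f =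
        (P n (toep (h.conj.mul h) (P n f)) - f) - P n (toep h (toep h.conj (P n f))) := by abel
    rw [e1]
    refine (norm_sub_le _ _).trans ?_
    rw [hf] at hPR ⊢
    have h1 := (norm_P_le n (toep h (toep h.conj f))).trans
      ((norm_toep_le h hC (toep h.conj f)).trans
      (mul_le_mul_of_nonneg_left hT' (by norm_num)))
    linarith
  have e1 : S h n f - f = A1 h n (A2 h n f - f) + (A1 h n f - f) := by
    rw [map_sub]
    change A1 h n (A2 h n f) - f = _
    abel
  rw [e1]
  refine (norm_add_le _ _).trans ?_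
  have h1 := (norm_A1_le h ha hC n (A2 h n f - f)).trans
    (mul_le_mul_of_nonneg_left hA2 (by norm_num))
  linarith

/-- The flips tend weakly to zero. -/
theorem weak_W (x y : E) : Tendsto (fun n => ⟪y, W n x⟫_ℂ) atTop (𝓝 0) := by
  have hx : Tendsto (fun j : ℕ => x j) atTop (𝓝 0) := by
    have h1 := (lp.memℓp x).summable (by norm_num)
    have h2 := h1.tendsto_atTop_zero
    rw [tendsto_zero_iff_norm_tendsto_zero]
    have h3 : Tendsto (fun j : ℕ => ‖x j‖ ^ 2) atTop (𝓝 0) := by
      refine h2.congr fun j => ?_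
      norm_num
    have h4 := h3.sqrt
    rw [Real.sqrt_zero] at h4
    refine h4.congr fun j => ?_
    rw [Real.sqrt_sq (norm_nonneg _)]
  have hfin : ∀ k, Tendsto (fun n => ⟪P k y, W n x⟫_ℂ) atTop (𝓝 0) := by
    intro k
    have h1 : ∀ n ≥ k, ⟪P k y, W n x⟫_ℂ = ∑ j ∈ Finset.range (k + 1), conj (y j) * x (n - j) := by
      intro n hn
      rw [P_eq, sum_inner]
      refine Finset.sum_congr rfl fun j hj => ?_
      rw [Finset.mem_range] at hj
      rw [inner_smul_left, inner_ee, W_apply, if_pos (by omega)]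
    have h2 : Tendsto (fun n => ∑ j ∈ Finset.range (k + 1), conj (y j) * x (n - j)) atTop
        (𝓝 (∑ j ∈ Finset.range (k + 1), conj (y j) * 0)) := by
      apply tendsto_finsetSum
      intro j _
      exact (hx.comp (tendsto_sub_atTop_nat j)).const_mul _
    simp only [mul_zero, Finset.sum_const_zero] at h2
    refine h2.congr' ?_
    filter_upwards [eventually_ge_atTop k] with n hn
    exact (h1 n hn).symm
  rw [Metric.tendsto_atTop]
  intro ε hε
  have h1 : Tendsto (fun k => ‖y - P k y‖ * ‖x‖) atTop (𝓝 0) := by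
    have h2 := (tendsto_iff_norm_sub_tendsto_zero.1 (tendsto_P y)).mul_const ‖x‖
    rw [zero_mul] at h2
    refine h2.congr fun k => ?_
    rw [norm_sub_rev]
  obtain ⟨k, hk⟩ := (h1.eventually (gt_mem_nhds (half_pos hε))).exists
  obtain ⟨N, hN⟩ := (Metric.tendsto_atTop.1 (hfin k)) (ε / 2) (half_pos hε)
  refine ⟨N, fun n hn => ?_⟩
  have h3 := hN n hn
  rw [dist_zero_right] at h3 ⊢
  have h4 : ⟪y, W n x⟫_ℂ = ⟪y - P k y, W n x⟫_ℂ + ⟪P k y, W n x⟫_ℂ := by
    rw [← inner_add_left, sub_add_cancel]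
  rw [h4]
  have h5 : ‖⟪y - P k y, W n x⟫_ℂ‖ ≤ ‖y - P k y‖ * ‖x‖ :=
    (norm_inner_le_norm _ _).trans (mul_le_mul_of_nonneg_left (norm_W_le _ _) (norm_nonneg _))
  calc _ ≤ _ := norm_add_le _ _
    _ < ε := by linarith

/-- A compact operator maps the flips of a vector to a null sequence. -/
theorem compact_W {K : E →L[ℂ] E} (hK : IsCompactOperator K) (x : E) :
    Tendsto (fun n => K (W n x)) atTop (𝓝 0) := by
  obtain ⟨Z, hZ, hKZ⟩ := hK.image_subset_compact_of_bounded (f := (K : E →ₛₗ[RingHom.id ℂ] E))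
    (Metric.isBounded_closedBall (x := (0 : E)) (r := ‖x‖))
  apply tendsto_of_subseq_tendsto
  intro ns hns
  have hmem : ∀ n, K (W (ns n) x) ∈ Z := fun n =>
    hKZ ⟨_, by rw [mem_closedBall_zero_iff]; exact norm_W_le _ _, rfl⟩
  obtain ⟨z, _, ms, hms, hlim⟩ := hZ.tendsto_subseq hmem
  refine ⟨ms, ?_⟩
  have hz : z = 0 := by
    apply ext_inner_left ℂ
    intro y
    rw [inner_zero_right]
    have h1 : Tendsto (fun n => ⟪y, K (W (ns (ms n)) x)⟫_ℂ) atTop (𝓝 ⟪y, z⟫_ℂ) :=
      (tendsto_const_nhds (x := y)).inner hlim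
    have h2 : Tendsto (fun n => ⟪y, K (W (ns (ms n)) x)⟫_ℂ) atTop (𝓝 0) := by
      have h3 := (weak_W x (ContinuousLinearMap.adjoint K y)).comp
        (hns.comp hms.tendsto_atTop)
      refine h3.congr fun n => ?_
      rw [Function.comp_apply, ContinuousLinearMap.adjoint_inner_left]
      rfl
    exact tendsto_nhds_unique h1 h2
  rw [hz] at hlim
  exact hlim

/-- The sequence is not in the ideal `J`. -/
theorem not_in_J {A : ℕ → E →L[ℂ] E} (h1 : ∀ x, Tendsto (fun n => A n x) atTop (𝓝 0))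
    (h2 : ∀ x, Tendsto (fun n => (W n * A n * W n) x) atTop (𝓝 0))
    (h3 : ¬ Tendsto (fun n => ‖A n‖) atTop (𝓝 0)) :
    ¬ ∃ K K' : E →L[ℂ] E, IsCompactOperator K ∧ IsCompactOperator K' ∧
      ∃ C : ℕ → (E →L[ℂ] E), (∀ n, C n = P n * C n * P n) ∧
        Tendsto (fun n => ‖C n‖) atTop (𝓝 0) ∧
        ∀ n, A n = P n * K * P n + W n * K' * W n + C n := by
  rintro ⟨K, K', -, hK', C, -, hC, hA⟩
  have hCx : ∀ y : ℕ → E, (∃ B : ℝ, ∀ n, ‖y n‖ ≤ B) →
      Tendsto (fun n => C n (y n)) atTop (𝓝 0) := by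
    rintro y ⟨B, hB⟩
    apply squeeze_zero_norm (a := fun n => ‖C n‖ * B)
    · intro n
      exact ((C n).le_opNorm _).trans (mul_le_mul_of_nonneg_left (hB n) (norm_nonneg _))
    · have := hC.mul_const B
      rwa [zero_mul] at this
  have hK0 : K = 0 := by
    ext1 x
    have e1 : Tendsto (fun n => P n (K (P n x)) + W n (K' (W n x)) + C n x) atTop
        (𝓝 (K x + 0 + 0)) := by
      apply Tendsto.add
      · apply Tendsto.add
        · exact tendsto_P_of ((K.continuous.tendsto _).comp (tendsto_P x))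
        · apply squeeze_zero_norm (a := fun n => ‖K' (W n x)‖)
          · intro n; exact norm_W_le _ _
          · have := (compact_W hK' x).norm
            rwa [norm_zero] at this
      · exact hCx _ ⟨‖x‖, fun _ => le_rfl⟩
    rw [add_zero, add_zero] at e1
    refine tendsto_nhds_unique e1 ((h1 x).congr fun n => ?_)
    rw [hA n]
    rfl
  have hK0' : K' = 0 := by
    ext1 x
    have e1 : Tendsto (fun n => P n (K' (P n x)) + W n (C n (W n x))) atTop
        (𝓝 (K' x + 0)) := by
      apply Tendsto.add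
      · exact tendsto_P_of ((K'.continuous.tendsto _).comp (tendsto_P x))
      · apply squeeze_zero_norm (a := fun n => ‖C n (W n x)‖)
        · intro n; exact norm_W_le _ _
        · have := (hCx (fun n => W n x) ⟨‖x‖, fun n => norm_W_le _ _⟩).norm
          rwa [norm_zero] at this
    rw [add_zero] at e1
    refine tendsto_nhds_unique e1 ((h2 x).congr fun n => ?_)
    rw [hA n, hK0]
    change W n (P n ((0 : E →L[ℂ] E) (P n (W n x))) + W n (K' (W n (W n x))) + C n (W n x)) = _
    rw [zero_apply, map_zero, zero_add, map_add, W_W, W_W]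
  apply h3
  refine hC.congr fun n => ?_
  rw [hA n, hK0, hK0']
  simp

end Pool.Agent.Q86.Toep
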