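import Mathlib

/-!
# The mini-max ratio of self-adjoint Toeplitz matrices: definitions and tools
-/

set_option autoImplicit false

open MeasureTheory AddCircle Set
open scoped ENNReal ComplexConjugate

noncomputable section

namespace Pool.Agent.Q86.ToepMM

instance factTwoPi : Fact (0 < 2 * Real.pi) := ⟨Real.two_pi_pos⟩

/-- the unit circle, as the circle of length `2π` -/
abbrev 𝕋 : Type := AddCircle (2 * Real.pi)

/-- The Toeplitz matrix `(a_{j-k})`, `0 ≤ j, k ≤ N`. -/
def toep (N : ℕ) (a : ℤ → ℂ) : Matrix (Fin (N + 1)) (Fin (N + 1)) ℂ :=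
  Matrix.of fun j k => a ((j : ℤ) - (k : ℤ))

/-- The spectral norm `‖A‖` of the Toeplitz matrix `A` of `a`. -/
def opn (N : ℕ) (a : ℤ → ℂ) : ℝ := ‖Matrix.toEuclideanCLM (𝕜 := ℂ) (toep N a)‖

/-- `𝒢_A`: the functions in `L^∞` whose Fourier coefficients with `|n| ≤ N` are the `a_n`. -/
def GA (N : ℕ) (a : ℤ → ℂ) : Set (𝕋 → ℂ) :=
  {f | MemLp f ∞ haarAddCircle ∧ ∀ n : ℤ, |n| ≤ N → fourierCoeff f n = a n}

/-- `c_A`: the least sup norm of a function in `𝒢_A`. -/
def cA (N : ℕ) (a : ℤ → ℂ) : ℝ :=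
  sInf ((fun f : 𝕋 → ℂ => (eLpNorm f ∞ haarAddCircle).toReal) '' GA N a)

/-- The ratios `c_A/‖A‖` for nonzero self-adjoint Toeplitz matrices of size `N + 1`. -/
def ratios (N : ℕ) : Set ℝ :=
  {r | ∃ a : ℤ → ℂ, (∀ n, a (-n) = conj (a n)) ∧ toep N a ≠ 0 ∧ r = cA N a / opn N a}

/-- The mini-max ratio `c_N`. -/
def cN (N : ℕ) : ℝ := sSup (ratios N)

/-! ### trigonometric polynomials -/

lemma integral_fourier (n : ℤ) :
    ∫ x : 𝕋, fourier n x ∂haarAddCircle = if n = 0 then 1 else 0 := by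
  split_ifs with h
  · subst h
    simp
  · exact integral_eq_zero_of_add_right_eq_neg (μ := haarAddCircle)
      (fourier_add_half_inv_index h Real.two_pi_pos)

lemma fourierCoeff_fourier (m n : ℤ) :
    fourierCoeff (T := 2 * Real.pi) (fun x => fourier m x) n = if n = m then 1 else 0 := by
  unfold fourierCoeff
  have h1 : ∀ x : 𝕋, (fourier (-n) x : ℂ) • (fourier m x : ℂ) = fourier (m - n) x := by
    intro x
    rw [smul_eq_mul, ← fourier_add]
    congr 2
    ring
  simp_rw [h1]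
  rw [integral_fourier]
  by_cases h : n = m
  · simp [h]
  · have : m - n ≠ 0 := fun h' => h (by linarith)
    simp [h, this]

lemma mem_linf_fourier (n : ℤ) (c : ℂ) :
    MemLp (fun x : 𝕋 => c * fourier n x) ∞ haarAddCircle := by
  refine memLp_top_of_bound (by fun_prop) ‖c‖ (Filter.Eventually.of_forall fun x => ?_)
  rw [norm_mul]
  have : ‖(fourier n x : ℂ)‖ = 1 := by
    rw [fourier_apply]; exact Circle.norm_coe _
  rw [this, mul_one]

/-- the trigonometric polynomial with coefficients `a_n`, `|n| ≤ N` -/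
def trig (N : ℕ) (a : ℤ → ℂ) (x : 𝕋) : ℂ :=
  ∑ m ∈ Finset.Icc (-(N : ℤ)) N, a m * fourier m x

lemma trig_mem (N : ℕ) (a : ℤ → ℂ) : trig N a ∈ GA N a := by
  constructor
  · exact memLp_finsetSum _ fun m _ => mem_linf_fourier m (a m)
  · intro n hn
    have h1 : trig N a = ∑ m ∈ Finset.Icc (-(N : ℤ)) N, (fun x : 𝕋 => a m * fourier m x) := by
      funext x
      rw [Finset.sum_apply]
      rfl
    rw [h1, fourierCoeff.sum]
    · rw [Finset.sum_apply, Finset.sum_eq_single n]
      · rw [fourierCoeff.const_mul, fourierCoeff_fourier]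
        simp
      · intro m _ hm
        rw [fourierCoeff.const_mul, fourierCoeff_fourier, if_neg (fun h => hm h.symm), mul_zero]
      · intro h
        exact absurd (Finset.mem_Icc.2 (abs_le.1 hn)) h
    · intro m _
      exact (mem_linf_fourier m (a m)).integrable le_top

/-- duality: trigonometric polynomials test the sup norm -/
lemma pair_le (f : 𝕋 → ℂ) (hf : MemLp f ∞ haarAddCircle) (s : Finset ℤ) (c : ℤ → ℂ) (k : ℤ)
    (hk : k ≠ 0) :
    ‖∑ n ∈ s, c n * fourierCoeff f (-(k * n))‖ ≤ (eLpNorm f ∞ haarAddCircle).toReal *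
      ∫ x : 𝕋, ‖∑ n ∈ s, c n * fourier n x‖ ∂haarAddCircle := by
  have hfi : Integrable f haarAddCircle := hf.integrable le_top
  have h1 : ∑ n ∈ s, c n * fourierCoeff f (-(k * n)) =
      ∫ x : 𝕋, (∑ n ∈ s, c n * fourier (k * n) x) * f x ∂haarAddCircle := by
    simp_rw [Finset.sum_mul]
    rw [integral_finsetSum]
    · refine Finset.sum_congr rfl fun n _ => ?_
      rw [fourierCoeff, neg_neg, ← integral_const_mul]
      refine integral_congr_ae (Filter.Eventually.of_forall fun x => ?_)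
      simp only [smul_eq_mul]
      ring
    · intro n _
      have h2 := hfi.fourier_smul (k * n)
      have h3 := h2.const_mul (c n)
      refine h3.congr (Filter.Eventually.of_forall fun x => ?_)
      simp only [smul_eq_mul]
      ring
  have hmp : MeasurePreserving (fun x : 𝕋 => k • x) haarAddCircle haarAddCircle :=
    Measure.measurePreserving_zsmul haarAddCircle hk
  have h2 : ∫ x : 𝕋, ‖∑ n ∈ s, c n * fourier (k * n) x‖ ∂haarAddCircle =
      ∫ x : 𝕋, ‖∑ n ∈ s, c n * fourier n x‖ ∂haarAddCircle := by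
    have h3 : ∀ x : 𝕋, ‖∑ n ∈ s, c n * fourier (k * n) x‖ =
        (fun y : 𝕋 => ‖∑ n ∈ s, c n * fourier n y‖) (k • x) := by
      intro x
      show _ = ‖∑ n ∈ s, c n * fourier n (k • x)‖
      congr 1
      refine Finset.sum_congr rfl fun n _ => ?_
      rw [fourier_apply, fourier_apply, mul_comm k n, mul_smul]
    have h4 : AEStronglyMeasurable (fun y : 𝕋 => ‖∑ n ∈ s, c n * fourier n y‖)
        (Measure.map (fun x : 𝕋 => k • x) haarAddCircle) :=
      Continuous.aestronglyMeasurable (by fun_prop)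
    have h5 := integral_map hmp.measurable.aemeasurable h4
    rw [hmp.map_eq] at h5
    rw [h5]
    exact integral_congr_ae (Filter.Eventually.of_forall h3)
  rw [h1, ← h2, ← integral_const_mul]
  refine norm_integral_le_of_norm_le ?_ ?_
  · refine Integrable.const_mul ?_ _
    exact Continuous.integrable_of_hasCompactSupport (by fun_prop)
      (HasCompactSupport.of_compactSpace _)
  · have h4 : ∀ᵐ x ∂(haarAddCircle : Measure 𝕋), ‖f x‖ ≤ (eLpNorm f ∞ haarAddCircle).toReal := by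
      have h5 := ae_le_eLpNormEssSup (f := f) (μ := haarAddCircle)
      filter_upwards [h5] with x hx
      rw [eLpNorm_exponent_top]
      have h6 : eLpNormEssSup f haarAddCircle ≠ ∞ := by
        have := hf.2.ne
        rwa [eLpNorm_exponent_top] at this
      have h7 := ENNReal.toReal_mono h6 hx
      simpa using h7
    filter_upwards [h4] with x hx
    rw [norm_mul, mul_comm]
    exact mul_le_mul_of_nonneg_right hx (norm_nonneg _)

/-- integrals over the circle are interval integrals -/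
lemma integral_circle (g : 𝕋 → ℝ) (a : ℝ) :
    ∫ x : 𝕋, g x ∂haarAddCircle = (2 * Real.pi)⁻¹ * ∫ x in a..a + 2 * Real.pi, g (x : 𝕋) := by
  rw [AddCircle.intervalIntegral_preimage, volume_eq_smul_haarAddCircle, integral_smul_measure,
    ENNReal.toReal_ofReal Real.two_pi_pos.le, smul_eq_mul, ← mul_assoc,
    inv_mul_cancel₀ Real.two_pi_pos.ne', one_mul]

lemma fourier_real (n : ℤ) (x : ℝ) :
    (fourier n (x : 𝕋) : ℂ) = Complex.exp ((n * x : ℝ) * Complex.I) := by
  rw [fourier_coe_apply]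
  congr 1
  have : (Real.pi : ℂ) ≠ 0 := by exact_mod_cast Real.pi_ne_zero
  push_cast
  field_simp

lemma fourier_cos (n : ℤ) (x : ℝ) :
    (fourier n (x : 𝕋) : ℂ) + fourier (-n) (x : 𝕋) = ((2 * Real.cos (n * x) : ℝ) : ℂ) := by
  rw [fourier_real, fourier_real, Complex.exp_mul_I, Complex.exp_mul_I]
  push_cast
  rw [neg_mul, Complex.cos_neg, Complex.sin_neg]
  ring

/-! ### upper bound -/

lemma opn_nonneg (N : ℕ) (a : ℤ → ℂ) : 0 ≤ opn N a := norm_nonneg _

lemma opn_le_of (N : ℕ) (a : ℤ → ℂ) (C : ℝ) (hC : 0 ≤ C)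
    (h : ∀ x : EuclideanSpace ℂ (Fin (N + 1)),
      ∑ j, ‖((toep N a).mulVec x.ofLp) j‖ ^ 2 ≤ C ^ 2 * ∑ j, ‖x.ofLp j‖ ^ 2) : opn N a ≤ C := by
  refine ContinuousLinearMap.opNorm_le_bound _ hC fun x => ?_
  have h1 := h x
  rw [EuclideanSpace.norm_eq, EuclideanSpace.norm_eq, ← Real.sqrt_sq hC,
    ← Real.sqrt_mul (sq_nonneg C)]
  exact Real.sqrt_le_sqrt h1

lemma entry_le (N : ℕ) (a : ℤ → ℂ) (j k : Fin (N + 1)) : ‖toep N a j k‖ ≤ opn N a := by
  have h1 := (Matrix.toEuclideanCLM (𝕜 := ℂ) (toep N a)).le_opNorm (EuclideanSpace.single k 1)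
  rw [EuclideanSpace.norm_single, norm_one, mul_one] at h1
  refine le_trans ?_ h1
  have h2 := PiLp.norm_apply_le ((Matrix.toEuclideanCLM (𝕜 := ℂ) (toep N a))
    (EuclideanSpace.single k (1 : ℂ))) j
  refine le_trans (le_of_eq ?_) h2
  congr 1
  show _ = ((toep N a).mulVec (EuclideanSpace.single k (1 : ℂ)).ofLp) j
  simp

lemma coeff_le (N : ℕ) (a : ℤ → ℂ) (n : ℤ) (hn : |n| ≤ N) : ‖a n‖ ≤ opn N a := by
  rcases le_total 0 n with h | h
  · obtain ⟨m, rfl⟩ := Int.eq_ofNat_of_zero_le h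
    have hm : m < N + 1 := by
      rw [abs_of_nonneg h] at hn
      exact_mod_cast Nat.lt_succ_of_le (by exact_mod_cast hn)
    have := entry_le N a ⟨m, hm⟩ ⟨0, Nat.succ_pos N⟩
    simpa [toep] using this
  · obtain ⟨m, hm'⟩ := Int.eq_ofNat_of_zero_le (neg_nonneg.2 h)
    have hn' : n = -(m : ℤ) := by rw [← hm', neg_neg]
    subst hn'
    have hm : m < N + 1 := by
      rw [abs_of_nonpos h, neg_neg] at hn
      exact_mod_cast Nat.lt_succ_of_le (by exact_mod_cast hn)
    have := entry_le N a ⟨0, Nat.succ_pos N⟩ ⟨m, hm⟩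
    simpa [toep] using this

lemma cA_le (N : ℕ) (a : ℤ → ℂ) : cA N a ≤ (2 * N + 1) * opn N a := by
  have hb : BddBelow ((fun f : 𝕋 → ℂ => (eLpNorm f ∞ haarAddCircle).toReal) '' GA N a) :=
    ⟨0, by rintro _ ⟨f, _, rfl⟩; exact ENNReal.toReal_nonneg⟩
  refine (csInf_le hb ⟨trig N a, trig_mem N a, rfl⟩).trans ?_
  have h1 : eLpNorm (trig N a) ∞ haarAddCircle ≤ ENNReal.ofReal ((2 * N + 1) * opn N a) := by
    rw [eLpNorm_exponent_top]
    refine eLpNormEssSup_le_of_ae_bound (Filter.Eventually.of_forall fun x => ?_)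
    refine (norm_sum_le _ _).trans ?_
    refine (Finset.sum_le_card_nsmul _ _ (opn N a) fun m hm => ?_).trans ?_
    · rw [norm_mul]
      have : ‖(fourier m x : ℂ)‖ = 1 := by
        rw [fourier_apply]; exact Circle.norm_coe _
      rw [this, mul_one]
      exact coeff_le N a m (abs_le.2 (Finset.mem_Icc.1 hm))
    · rw [nsmul_eq_mul]
      refine mul_le_mul_of_nonneg_right ?_ (opn_nonneg N a)
      simp only [Int.card_Icc]
      have : ((N : ℤ) + 1 - -(N : ℤ)).toNat = 2 * N + 1 := by omega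
      rw [this]
      push_cast
      exact le_refl _
  have h2 := ENNReal.toReal_mono ENNReal.ofReal_ne_top h1
  rwa [ENNReal.toReal_ofReal (mul_nonneg (by positivity) (opn_nonneg N a))] at h2

lemma bdd (N : ℕ) : BddAbove (ratios N) := by
  refine ⟨2 * N + 1, ?_⟩
  rintro _ ⟨a, _, _, rfl⟩
  rcases (opn_nonneg N a).eq_or_lt with h | h
  · rw [← h, div_zero]
    positivity
  · rw [div_le_iff₀ h]
    exact cA_le N a

/-- lower bounds for `c_N` from a matrix of norm at most one and a test polynomial -/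
lemma lower (N : ℕ) (a : ℤ → ℂ) (ha : ∀ n, a (-n) = conj (a n)) (hne : toep N a ≠ 0)
    (hop : opn N a ≤ 1) (L : ℝ) (hL : 0 ≤ L)
    (h : ∀ f ∈ GA N a, L ≤ (eLpNorm f ∞ haarAddCircle).toReal) :
    ∃ r ∈ ratios N, L ≤ r := by
  refine ⟨_, ⟨a, ha, hne, rfl⟩, ?_⟩
  have h1 : L ≤ cA N a := by
    refine le_csInf ⟨_, ⟨trig N a, trig_mem N a, rfl⟩⟩ ?_
    rintro _ ⟨f, hf, rfl⟩
    exact h f hf
  have h2 : 0 < opn N a := by
    refine lt_of_le_of_ne (opn_nonneg N a) fun h0 => hne ?_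
    ext j k
    have := entry_le N a j k
    rw [← h0] at this
    simpa using norm_le_zero_iff.1 this
  rw [le_div_iff₀ h2]
  nlinarith

end Pool.Agent.Q86.ToepMM
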