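import Pool.Agent.Q86.ToepL2

set_option autoImplicit false

/-!
# Finite sections of Toeplitz operators
-/

namespace Pool.Agent.Q86.Toep

open MeasureTheory AddCircle Filter Topology
open scoped ComplexConjugate ENNReal InnerProductSpace
open Pool.Agent.Helper917.Hardy

/-- The finite section projections. -/
noncomputable def P (n : ℕ) : E →L[ℂ] E :=
  ∑ j ∈ Finset.range (n + 1), (innerSL ℂ (ee j)).smulRight (ee j)

/-- The flips. -/
noncomputable def W (n : ℕ) : E →L[ℂ] E :=
  ∑ j ∈ Finset.range (n + 1), (innerSL ℂ (ee (n - j))).smulRight (ee j)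

theorem P_eq (n : ℕ) (x : E) : P n x = ∑ j ∈ Finset.range (n + 1), x j • ee j := by
  rw [P, sum_apply]
  refine Finset.sum_congr rfl fun j _ => ?_
  rw [ContinuousLinearMap.smulRight_apply, innerSL_apply_apply, inner_ee]

theorem W_eq (n : ℕ) (x : E) : W n x = ∑ j ∈ Finset.range (n + 1), x (n - j) • ee j := by
  rw [W, sum_apply]
  refine Finset.sum_congr rfl fun j _ => ?_
  rw [ContinuousLinearMap.smulRight_apply, innerSL_apply_apply, inner_ee]

theorem sum_ee_apply (n : ℕ) (c : ℕ → ℂ) (i : ℕ) :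
    (∑ j ∈ Finset.range (n + 1), c j • ee j : E) i = if i ≤ n then c i else 0 := by
  rw [← inner_ee, inner_sum]
  simp_rw [inner_smul_right, inner_ee, ee_apply]
  rw [Finset.sum_congr rfl (fun j _ => by rw [mul_ite, mul_one, mul_zero]),
    Finset.sum_ite_eq]
  simp

theorem P_apply (n : ℕ) (x : E) (j : ℕ) : (P n x) j = if j ≤ n then x j else 0 := by
  rw [P_eq, sum_ee_apply]

theorem W_apply (n : ℕ) (x : E) (j : ℕ) : (W n x) j = if j ≤ n then x (n - j) else 0 := by
  rw [W_eq, sum_ee_apply]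

theorem P_P (n : ℕ) (x : E) : P n (P n x) = P n x := by
  ext j
  rw [P_apply, P_apply]
  split_ifs <;> rfl

theorem W_W (n : ℕ) (x : E) : W n (W n x) = P n x := by
  ext j
  rw [W_apply, W_apply, P_apply]
  by_cases h : j ≤ n
  · rw [if_pos h, if_pos (by omega), if_pos h, Nat.sub_sub_self h]
  · rw [if_neg h, if_neg h]

theorem W_P (n : ℕ) (x : E) : W n (P n x) = W n x := by
  ext j
  rw [W_apply, W_apply, P_apply]
  by_cases h : j ≤ n
  · rw [if_pos h, if_pos (by omega), if_pos h]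
  · rw [if_neg h, if_neg h]

theorem P_W (n : ℕ) (x : E) : P n (W n x) = W n x := by
  ext j
  rw [P_apply, W_apply]
  split_ifs <;> rfl

theorem inner_P (n : ℕ) (x y : E) : ⟪P n x, y⟫_ℂ = ⟪x, P n y⟫_ℂ := by
  rw [P_eq, P_eq, sum_inner, inner_sum]
  refine Finset.sum_congr rfl fun j _ => ?_
  rw [inner_smul_left, inner_smul_right, inner_ee, ← inner_conj_symm x, inner_ee, mul_comm]

theorem inner_W (n : ℕ) (x y : E) : ⟪W n x, y⟫_ℂ = ⟪x, W n y⟫_ℂ := by
  rw [W_eq, W_eq, sum_inner, inner_sum]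
  simp_rw [inner_smul_left, inner_smul_right, inner_ee, ← inner_conj_symm x, inner_ee]
  rw [← Finset.sum_range_reflect]
  refine Finset.sum_congr rfl fun j hj => ?_
  rw [Finset.mem_range] at hj
  have h1 : n + 1 - 1 - j = n - j := by omega
  have h2 : n - (n - j) = j := by omega
  rw [h1, h2, mul_comm]

theorem norm_P_le (n : ℕ) (x : E) : ‖P n x‖ ≤ ‖x‖ := by
  have h1 : ‖P n x‖ ^ 2 ≤ ‖x‖ * ‖P n x‖ := by
    have h2 : ⟪P n x, P n x⟫_ℂ = ⟪x, P n x⟫_ℂ := by rw [inner_P, P_P]
    have h3 : ‖P n x‖ ^ 2 = ‖⟪P n x, P n x⟫_ℂ‖ := by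
      rw [inner_self_eq_norm_sq_to_K]
      norm_cast
      rw [abs_of_nonneg (sq_nonneg _)]
    rw [h3, h2]
    exact norm_inner_le_norm _ _
  by_contra hlt
  push Not at hlt
  nlinarith [norm_nonneg x, norm_nonneg (P n x)]

theorem norm_W_le (n : ℕ) (x : E) : ‖W n x‖ ≤ ‖x‖ := by
  have h1 : ‖W n x‖ ^ 2 ≤ ‖x‖ * ‖x‖ := by
    have h2 : ⟪W n x, W n x⟫_ℂ = ⟪x, P n x⟫_ℂ := by rw [inner_W, W_W]
    have h3 : ‖W n x‖ ^ 2 = ‖⟪W n x, W n x⟫_ℂ‖ := by
      rw [inner_self_eq_norm_sq_to_K]
      norm_cast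
      rw [abs_of_nonneg (sq_nonneg _)]
    rw [h3, h2]
    exact (norm_inner_le_norm _ _).trans (mul_le_mul_of_nonneg_left (norm_P_le n x) (norm_nonneg _))
  nlinarith [norm_nonneg x, norm_nonneg (W n x)]

theorem tendsto_P (x : E) : Tendsto (fun n => P n x) atTop (𝓝 x) := by
  have h1 := (lp.hasSum_single (p := 2) (by norm_num) x).tendsto_sum_nat
  have h2 := h1.comp (tendsto_add_atTop_nat 1)
  refine h2.congr fun n => ?_
  rw [Function.comp_apply, P_eq]
  refine Finset.sum_congr rfl fun j _ => ?_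
  rw [← lp.single_smul, smul_eq_mul, mul_one]

theorem clm_ext {A B : E →L[ℂ] E} (h : ∀ k, A (ee k) = B (ee k)) : A = B := by
  ext1 x
  have h1 : ∀ n, A (P n x) = B (P n x) := by
    intro n
    rw [P_eq, map_sum, map_sum]
    refine Finset.sum_congr rfl fun j _ => ?_
    rw [map_smul, map_smul, h]
  have h2 := (A.continuous.tendsto _).comp (tendsto_P x)
  have h3 := (B.continuous.tendsto _).comp (tendsto_P x)
  refine tendsto_nhds_unique h2 (h3.congr fun n => ?_)
  exact (h1 n).symm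

theorem P_ee (n k : ℕ) : P n (ee k) = if k ≤ n then ee k else 0 := by
  ext j
  rw [P_apply]
  by_cases hk : k ≤ n
  · rw [if_pos hk, ee_apply]
    split_ifs with h1 h2 h2
    · rfl
    · rfl
    · omega
    · rfl
  · rw [if_neg hk, ee_apply]
    split_ifs with h1 h2
    · omega
    · rfl
    · rfl

theorem W_ee (n k : ℕ) : W n (ee k) = if k ≤ n then ee (n - k) else 0 := by
  ext j
  rw [W_apply]
  by_cases hk : k ≤ n
  · rw [if_pos hk, ee_apply, ee_apply]
    split_ifs with h1 h2 h3 h3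
    · rfl
    · omega
    · omega
    · rfl
    · omega
    · rfl
  · rw [if_neg hk, ee_apply]
    split_ifs with h1 h2
    · omega
    · rfl
    · rfl

/-- Flipping a finite section. -/
theorem flip {g : Circ → ℂ} (h : Bd g) (n : ℕ) :
    W n * (P n * toep h * P n) * W n = P n * toep h.neg * P n := by
  apply clm_ext
  intro k
  change W n (P n (toep h (P n (W n (ee k))))) = P n (toep h.neg (P n (ee k)))
  rw [W_P, P_W, W_ee, P_ee]
  by_cases hk : k ≤ n
  · rw [if_pos hk, if_pos hk]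
    ext j
    rw [W_apply, P_apply, toep_entry, toep_entry]
    by_cases hj : j ≤ n
    · rw [if_pos hj, if_pos hj, fourierCoeff_neg]
      congr 1
      omega
    · rw [if_neg hj, if_neg hj]
  · rw [if_neg hk, if_neg hk]
    simp

theorem W_mul_W (n : ℕ) : W n * W n = P n := by
  ext1 x; exact W_W n x

theorem P_mul_W (n : ℕ) : P n * W n = W n := by
  ext1 x; exact P_W n x

theorem W_mul_P (n : ℕ) : W n * P n = W n := by
  ext1 x; exact W_P n x

theorem P_mul_P (n : ℕ) : P n * P n = P n := by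
  ext1 x; exact P_P n x

theorem toep_congr {g g' : Circ → ℂ} (h : Bd g) (h' : Bd g') (e : g = g') :
    toep h = toep h' := by subst e; rfl

/-- The first sequence. -/
noncomputable def A1 {g : Circ → ℂ} (h : Bd g) (n : ℕ) : E →L[ℂ] E :=
  P n * toep (h.conj.mul h) * P n - (P n * toep h * P n) * (P n * toep h.conj * P n)

/-- The second sequence. -/
noncomputable def A2 {g : Circ → ℂ} (h : Bd g) (n : ℕ) : E →L[ℂ] E :=
  P n * toep (h.conj.mul h) * P n - (P n * toep h.conj * P n) * (P n * toep h * P n)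

theorem flip_mul {A B : E →L[ℂ] E} (n : ℕ) :
    W n * ((P n * A * P n) * (P n * B * P n)) * W n =
      (W n * (P n * A * P n) * W n) * (W n * (P n * B * P n) * W n) := by
  have h1 : (W n * (P n * A * P n) * W n) * (W n * (P n * B * P n) * W n) =
      W n * (P n * A * P n) * (W n * W n) * (P n * B * P n) * W n := by
    simp only [mul_assoc]
  rw [h1, W_mul_W]
  have h2 : W n * (P n * A * P n) * P n = W n * (P n * A * P n) := by
    rw [mul_assoc, mul_assoc (P n * A), P_mul_P]
  rw [h2]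
  simp only [mul_assoc]

/-- The reflected symbol. -/
theorem Bd.sharp {g : Circ → ℂ} (h : Bd g) : Bd fun t => conj (g (-t)) := h.neg.conj

theorem An.sharp {g : Circ → ℂ} (ha : An g) : An fun t => conj (g (-t)) := by
  intro n hn
  rw [fourierCoeff_conj (fun t => g (-t)), fourierCoeff_neg, neg_neg, ha n hn, map_zero]

theorem flip_A1 {g : Circ → ℂ} (h : Bd g) (n : ℕ) : W n * A1 h n * W n = A2 h.sharp n := by
  unfold A1 A2
  rw [mul_sub, sub_mul, flip_mul, flip, flip, flip]
  have e1 : toep (h.conj.mul h).neg = toep (h.sharp.conj.mul h.sharp) := by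
    apply toep_congr
    funext t
    rw [Complex.conj_conj, mul_comm]
  have e2 : toep h.neg = toep h.sharp.conj := by
    apply toep_congr
    funext t
    rw [Complex.conj_conj]
  have e3 : toep h.conj.neg = toep h.sharp := rfl
  rw [e1, e2, e3]

theorem flip_A2 {g : Circ → ℂ} (h : Bd g) (n : ℕ) : W n * A2 h n * W n = A1 h.sharp n := by
  unfold A1 A2
  rw [mul_sub, sub_mul, flip_mul, flip, flip, flip]
  have e1 : toep (h.conj.mul h).neg = toep (h.sharp.conj.mul h.sharp) := by
    apply toep_congr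
    funext t
    rw [Complex.conj_conj, mul_comm]
  have e2 : toep h.neg = toep h.sharp.conj := by
    apply toep_congr
    funext t
    rw [Complex.conj_conj]
  have e3 : toep h.conj.neg = toep h.sharp := rfl
  rw [e1, e2, e3]

theorem P_toep_conj {g : Circ → ℂ} (h : Bd g) (ha : An g) (n : ℕ) (x : E) :
    P n (toep h.conj (P n x)) = toep h.conj (P n x) := by
  have key : P n * (toep h.conj * P n) = toep h.conj * P n := by
    apply clm_ext
    intro k
    change P n (toep h.conj (P n (ee k))) = toep h.conj (P n (ee k))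
    rw [P_ee]
    by_cases hk : k ≤ n
    · rw [if_pos hk]
      ext j
      rw [P_apply, toep_entry, fourierCoeff_conj]
      split_ifs with hj
      · rfl
      · rw [ha _ (by omega), map_zero]
    · rw [if_neg hk, map_zero, map_zero]
  exact congrArg (fun A : E →L[ℂ] E => A x) key

theorem P_toep {g : Circ → ℂ} (h : Bd g) (ha : An g) (n : ℕ) (x : E) :
    P n (toep h (P n x)) = P n (toep h x) := by
  have key : P n * (toep h * P n) = P n * toep h := by
    apply clm_ext
    intro k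
    change P n (toep h (P n (ee k))) = P n (toep h (ee k))
    rw [P_ee]
    by_cases hk : k ≤ n
    · rw [if_pos hk]
    · rw [if_neg hk, map_zero, map_zero]
      ext j
      rw [P_apply, toep_entry]
      split_ifs with hj
      · rw [ha _ (by omega)]; rfl
      · rfl
  exact congrArg (fun A : E →L[ℂ] E => A x) key

theorem A1_apply {g : Circ → ℂ} (h : Bd g) (ha : An g) (n : ℕ) (x : E) :
    A1 h n x = P n (toep (h.conj.mul h) (P n x)) - P n (toep h (toep h.conj (P n x))) := by
  change P n (toep (h.conj.mul h) (P n x)) -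
    P n (toep h (P n (P n (toep h.conj (P n x))))) = _
  rw [P_P, P_toep h ha]

theorem A2_apply {g : Circ → ℂ} (h : Bd g) (ha : An g) (n : ℕ) (x : E) :
    A2 h n x = P n (toep (h.conj.mul h) (P n x)) - toep h.conj (P n (toep h x)) := by
  change P n (toep (h.conj.mul h) (P n x)) -
    P n (toep h.conj (P n (P n (toep h (P n x))))) = _
  rw [P_P, P_toep_conj h ha, P_toep h ha]

/-- Strong convergence of `P n y n`. -/
theorem tendsto_P_of {y : ℕ → E} {z : E} (hy : Tendsto y atTop (𝓝 z)) :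
    Tendsto (fun n => P n (y n)) atTop (𝓝 z) := by
  have h1 : Tendsto (fun n => P n (y n - z)) atTop (𝓝 0) := by
    apply squeeze_zero_norm (a := fun n => ‖y n - z‖)
    · intro n; exact norm_P_le n _
    · rw [← tendsto_iff_norm_sub_tendsto_zero]; exact hy
  have h2 := h1.add (tendsto_P z)
  rw [zero_add] at h2
  refine h2.congr fun n => ?_
  rw [← map_add, sub_add_cancel]

theorem tendsto_A2 {g : Circ → ℂ} (h : Bd g) (ha : An g) (x : E) :
    Tendsto (fun n => A2 h n x) atTop (𝓝 0) := by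
  have h1 : Tendsto (fun n => P n (toep (h.conj.mul h) (P n x)) - toep h.conj (P n (toep h x)))
      atTop (𝓝 (toep (h.conj.mul h) x - toep h.conj (toep h x))) := by
    apply Tendsto.sub
    · exact tendsto_P_of (((toep (h.conj.mul h)).continuous.tendsto _).comp (tendsto_P x))
    · exact ((toep h.conj).continuous.tendsto _).comp (tendsto_P _)
  have h2 : toep (h.conj.mul h) x - toep h.conj (toep h x) = 0 := by
    rw [← toep_conj_mul_toep h ha]
    exact sub_self _
  rw [h2] at h1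
  exact h1.congr fun n => (A2_apply h ha n x).symm

theorem tendsto_A1 {g : Circ → ℂ} (h : Bd g) (ha : An g) (x : E) :
    Tendsto (fun n => A1 h n x) atTop (𝓝 (toep (h.conj.mul h) x - toep h (toep h.conj x))) := by
  have h1 : Tendsto (fun n => P n (toep (h.conj.mul h) (P n x)) -
      P n (toep h (toep h.conj (P n x))))
      atTop (𝓝 (toep (h.conj.mul h) x - toep h (toep h.conj x))) := by
    apply Tendsto.sub
    · exact tendsto_P_of (((toep (h.conj.mul h)).continuous.tendsto _).comp (tendsto_P x))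
    · exact tendsto_P_of (((toep h).continuous.tendsto _).comp
        (((toep h.conj).continuous.tendsto _).comp (tendsto_P x)))
  exact h1.congr fun n => (A1_apply h ha n x).symm

theorem norm_toep_le {g : Circ → ℂ} (h : Bd g) {C : ℝ} (hC : ∀ t, ‖g t‖ ≤ C) (x : E) :
    ‖toep h x‖ ≤ C * ‖x‖ := by
  rw [toep_apply]
  refine (norm_pr_le _).trans ((norm_M_le h hC _).trans ?_)
  rw [LinearIsometry.norm_map]

theorem norm_A1_le {g : Circ → ℂ} (h : Bd g) (ha : An g) (hC : ∀ t, ‖g t‖ ≤ 2) (n : ℕ) (x : E) :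
    ‖A1 h n x‖ ≤ 8 * ‖x‖ := by
  rw [A1_apply h ha]
  have hc : ∀ t, ‖conj (g t)‖ ≤ 2 := fun t => by rw [RCLike.norm_conj]; exact hC t
  have hcc : ∀ t, ‖conj (g t) * g t‖ ≤ 4 := fun t => by
    rw [norm_mul]
    calc _ ≤ (2 : ℝ) * 2 := mul_le_mul (hc t) (hC t) (norm_nonneg _) (by norm_num)
      _ = 4 := by norm_num
  have h1 : ‖P n (toep (h.conj.mul h) (P n x))‖ ≤ 4 * ‖x‖ :=
    (norm_P_le _ _).trans ((norm_toep_le _ hcc _).trans
      (mul_le_mul_of_nonneg_left (norm_P_le _ _) (by norm_num)))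
  have h2 : ‖P n (toep h (toep h.conj (P n x)))‖ ≤ 4 * ‖x‖ := by
    refine (norm_P_le _ _).trans ((norm_toep_le _ hC _).trans ?_)
    have h3 := (norm_toep_le h.conj hc (P n x)).trans
      (mul_le_mul_of_nonneg_left (norm_P_le n x) (by norm_num))
    linarith
  calc _ ≤ _ := norm_sub_le _ _
    _ ≤ 8 * ‖x‖ := by linarith

/-- The product sequence. -/
noncomputable def S {g : Circ → ℂ} (h : Bd g) (n : ℕ) : E →L[ℂ] E := A1 h n * A2 h n

theorem tendsto_S {g : Circ → ℂ} (h : Bd g) (ha : An g) (hC : ∀ t, ‖g t‖ ≤ 2) (x : E) :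
    Tendsto (fun n => S h n x) atTop (𝓝 0) := by
  apply squeeze_zero_norm (a := fun n => 8 * ‖A2 h n x‖)
  · intro n; exact norm_A1_le h ha hC n _
  · have h1 := (tendsto_A2 h ha x).norm.const_mul 8
    rwa [norm_zero, mul_zero] at h1

theorem P_mul_A1 {g : Circ → ℂ} (h : Bd g) (n : ℕ) : A1 h n * P n = A1 h n := by
  unfold A1
  rw [sub_mul]
  congr 1
  · rw [mul_assoc, P_mul_P]
  · rw [mul_assoc, mul_assoc (P n * toep h.conj), P_mul_P]

theorem flip_S {g : Circ → ℂ} (h : Bd g) (n : ℕ) :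
    W n * S h n * W n = A2 h.sharp n * A1 h.sharp n := by
  rw [← flip_A1 h, ← flip_A2 h]
  have h1 : W n * A1 h n * W n * (W n * A2 h n * W n) =
      W n * (A1 h n * (W n * W n)) * A2 h n * W n := by simp only [mul_assoc]
  rw [h1, W_mul_W, P_mul_A1]
  unfold S
  simp only [mul_assoc]

theorem norm_A2_le {g : Circ → ℂ} (h : Bd g) (ha : An g) (hC : ∀ t, ‖g t‖ ≤ 2) (n : ℕ) (x : E) :
    ‖A2 h n x‖ ≤ 8 * ‖x‖ := by
  rw [A2_apply h ha]
  have hc : ∀ t, ‖conj (g t)‖ ≤ 2 := fun t => by rw [RCLike.norm_conj]; exact hC t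
  have hcc : ∀ t, ‖conj (g t) * g t‖ ≤ 4 := fun t => by
    rw [norm_mul]
    calc _ ≤ (2 : ℝ) * 2 := mul_le_mul (hc t) (hC t) (norm_nonneg _) (by norm_num)
      _ = 4 := by norm_num
  have h1 : ‖P n (toep (h.conj.mul h) (P n x))‖ ≤ 4 * ‖x‖ :=
    (norm_P_le _ _).trans ((norm_toep_le _ hcc _).trans
      (mul_le_mul_of_nonneg_left (norm_P_le _ _) (by norm_num)))
  have h2 : ‖toep h.conj (P n (toep h x))‖ ≤ 4 * ‖x‖ := by
    refine (norm_toep_le _ hc _).trans ?_
    have h3 := (norm_P_le n (toep h x)).trans (norm_toep_le h hC x)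
    linarith
  calc _ ≤ _ := norm_sub_le _ _
    _ ≤ 8 * ‖x‖ := by linarith

theorem tendsto_WSW {g : Circ → ℂ} (h : Bd g) (ha : An g) (hC : ∀ t, ‖g t‖ ≤ 2) (x : E) :
    Tendsto (fun n => (W n * S h n * W n) x) atTop (𝓝 0) := by
  have hC' : ∀ t, ‖conj (g (-t))‖ ≤ 2 := fun t => by rw [RCLike.norm_conj]; exact hC _
  obtain ⟨z, hz⟩ : ∃ z, Tendsto (fun n => A1 h.sharp n x) atTop (𝓝 z) :=
    ⟨_, tendsto_A1 h.sharp ha.sharp x⟩
  have h1 : Tendsto (fun n => A2 h.sharp n (A1 h.sharp n x - z)) atTop (𝓝 0) := by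
    apply squeeze_zero_norm (a := fun n => 8 * ‖A1 h.sharp n x - z‖)
    · intro n; exact norm_A2_le h.sharp ha.sharp hC' n _
    · have h2 := (tendsto_iff_norm_sub_tendsto_zero.1 hz).const_mul 8
      rwa [mul_zero] at h2
  have h2 := h1.add (tendsto_A2 h.sharp ha.sharp z)
  rw [add_zero] at h2
  refine h2.congr fun n => ?_
  rw [flip_S, ← map_add, sub_add_cancel]
  rfl

end Pool.Agent.Q86.Toep
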