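import Pool.Agent.Q86.FrMod

set_option autoImplicit false

/-!
# No non-zero injective modules over non-normable Fréchet algebras with zero multiplication
-/

namespace Pool.Agent.Q86.FrMod

open TopologicalSpace Filter Topology

universe u v

instance isFrechet_prod (E : Type u) (F : Type v) [AddCommGroup E] [Module ℂ E]
    [TopologicalSpace E] [IsFrechet E] [AddCommGroup F] [Module ℂ F] [TopologicalSpace F]
    [IsFrechet F] : IsFrechet (E × F) where
  continuous_add_sub := inferInstance
  continuous_smul := inferInstance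
  locally_convex := inferInstance
  completely_metrizable := inferInstance

instance isFrechet_complex : IsFrechet ℂ where
  continuous_add_sub := inferInstance
  continuous_smul := inferInstance
  locally_convex := inferInstance
  completely_metrizable := inferInstance

section general

variable {A : FrechetAlgebra.{v}}

/-- The extension of `J` by a one-dimensional module: `a · (x, t) = (a x + t f(a) w, 0)`. -/
noncomputable def ext (h0 : ∀ a b : A.carrier, a * b = 0) (J : FrechetModule.{u, v} A)
    (w : J.carrier) (hw : ∀ a, J.act a w = 0) (f : A.carrier →L[ℂ] ℂ) :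
    FrechetModule.{u, v} A where
  carrier := J.carrier × ℂ
  act := LinearMap.mk₂ ℂ (fun (a : A.carrier) (x : J.carrier × ℂ) =>
      ((J.act a x.1 + (x.2 * f a) • w, 0) : J.carrier × ℂ))
    (fun a b x => by
      ext
      · simp only [map_add, LinearMap.add_apply, mul_add, add_smul, Prod.fst_add]; abel
      · simp)
    (fun c a x => by
      ext
      · simp only [map_smul, LinearMap.smul_apply, smul_eq_mul, Prod.smul_fst, smul_add,
          smul_smul]
        ring_nf
      · simp)
    (fun a x y => by
      ext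
      · simp only [map_add, Prod.fst_add, Prod.snd_add, add_mul, add_smul]; abel
      · simp)
    (fun c a x => by
      ext
      · simp only [map_smul, smul_eq_mul, Prod.smul_fst, Prod.smul_snd, smul_add,
          smul_smul]
        ring_nf
      · simp)
  act_mul a b x := by
    have h1 : J.act a (J.act b x.1) = 0 := by
      rw [← J.act_mul, h0, map_zero, LinearMap.zero_apply]
    rw [h0, map_zero, LinearMap.zero_apply]
    simp only [LinearMap.mk₂_apply, map_add, map_smul, h1, hw, zero_mul, zero_smul, smul_zero,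
      add_zero]
    rfl
  act_continuous := by
    have h1 : Continuous fun p : A.carrier × (J.carrier × ℂ) => J.act p.1 p.2.1 :=
      J.act_continuous.comp (continuous_fst.prodMk (continuous_fst.comp continuous_snd))
    have h2 : Continuous fun p : A.carrier × (J.carrier × ℂ) => (p.2.2 * f p.1) • w :=
      ((continuous_snd.comp continuous_snd).mul (f.continuous.comp continuous_fst)).smul
        continuous_const
    exact (h1.add h2).prodMk continuous_const

/-- In an injective module every functional times an annihilated vector is given by the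
action on some element. -/
theorem exists_of_injective (h0 : ∀ a b : A.carrier, a * b = 0) (J : FrechetModule.{u, v} A)
    (hJ : IsInjective J) (w : J.carrier) (hw : ∀ a, J.act a w = 0)
    (f : A.carrier →L[ℂ] ℂ) : ∃ j : J.carrier, ∀ a, J.act a j = f a • w := by
  obtain ⟨ψ, hψ, hψ2⟩ := hJ (ext h0 J w hw f) (ContinuousLinearMap.inl ℂ J.carrier ℂ)
    (by
      intro a x
      change ((J.act a x, 0) : J.carrier × ℂ) = (J.act a x + ((0 : ℂ) * f a) • w, 0)
      simp)
    ⟨ContinuousLinearMap.fst ℂ J.carrier ℂ, fun x => rfl⟩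
  refine ⟨ψ ((0, 1) : J.carrier × ℂ), fun a => ?_⟩
  have h1 := hψ a ((0, 1) : J.carrier × ℂ)
  rw [← h1]
  have h2 : (ext h0 J w hw f).act a ((0, 1) : J.carrier × ℂ) =
      ContinuousLinearMap.inl ℂ J.carrier ℂ (f a • w) := by
    change ((J.act a 0 + ((1 : ℂ) * f a) • w, 0) : J.carrier × ℂ) = (f a • w, 0)
    simp
  rw [h2]
  exact hψ2 _

/-- Let the Fréchet algebra `A` have zero multiplication, and suppose that on every
neighbourhood of `0` some continuous functional is unbounded.  Then an injective module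
contains no non-zero annihilated vector. -/
theorem annihilated_eq_zero (h0 : ∀ a b : A.carrier, a * b = 0)
    (hA : ∀ U ∈ 𝓝 (0 : A.carrier), ∃ f : A.carrier →L[ℂ] ℂ, ∀ C : ℝ, ∃ a ∈ U, C < ‖f a‖)
    (J : FrechetModule.{u, v} A) (hJ : IsInjective J)
    (w : J.carrier) (hw : ∀ a, J.act a w = 0) : w = 0 := by
  by_contra hne
  have : T1Space J.carrier := by
    have : TopologicalSpace.MetrizableSpace J.carrier := inferInstance
    infer_instance
  obtain ⟨g0, hg0⟩ := RCLike.geometric_hahn_banach_point_point (𝕜 := ℂ) hne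
  have hg1 : g0 w ≠ 0 := by
    intro h
    rw [h, map_zero, map_zero, map_zero] at hg0
    exact lt_irrefl _ hg0
  obtain ⟨g, hg⟩ : ∃ g : J.carrier →L[ℂ] ℂ, g w = 1 :=
    ⟨(g0 w)⁻¹ • g0, by simp [hg1]⟩
  have hW : {x : J.carrier | ‖g x‖ < 1} ∈ 𝓝 (0 : J.carrier) := by
    apply (isOpen_lt (continuous_norm.comp g.continuous) continuous_const).mem_nhds
    simp
  have hc : Tendsto (fun p : A.carrier × J.carrier => J.act p.1 p.2) (𝓝 (0, 0)) (𝓝 0) := by
    have := (J.act_continuous).tendsto ((0, 0) : A.carrier × J.carrier)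
    simpa using this
  have h1 := hc hW
  rw [mem_map, nhds_prod_eq, mem_prod_iff] at h1
  obtain ⟨U, hU, V, hV, hUV⟩ := h1
  obtain ⟨f, hf⟩ := hA U hU
  obtain ⟨j, hj⟩ := exists_of_injective h0 J hJ w hw f
  -- `V` absorbs `j`
  obtain ⟨s, hs, hsV⟩ : ∃ s : ℂ, s ≠ 0 ∧ s • j ∈ V := by
    have hcont : Tendsto (fun s : ℂ => s • j) (𝓝 0) (𝓝 0) := by
      have : Continuous fun s : ℂ => s • j := continuous_id.smul continuous_const
      simpa using this.tendsto 0
    have h2 : ∀ᶠ s : ℂ in 𝓝[≠] 0, s • j ∈ V := (hcont.mono_left nhdsWithin_le_nhds) hV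
    have h3 : ∀ᶠ s : ℂ in 𝓝[≠] 0, s ≠ 0 := eventually_mem_nhdsWithin
    obtain ⟨s, hs⟩ := (h3.and h2).exists
    exact ⟨s, hs.1, hs.2⟩
  obtain ⟨a, ha, hfa⟩ := hf (‖s‖⁻¹)
  have h4 := hUV (Set.mk_mem_prod ha hsV)
  rw [Set.mem_preimage, Set.mem_ofPred_eq, map_smul, hj, smul_smul, map_smul, hg, norm_smul,
    norm_mul, norm_one, mul_one] at h4
  have h5 : 0 < ‖s‖ := norm_pos_iff.2 hs
  have h6 : 1 < ‖s‖ * ‖f a‖ := by
    calc (1 : ℝ) = ‖s‖ * ‖s‖⁻¹ := (mul_inv_cancel₀ h5.ne').symm
      _ < ‖s‖ * ‖f a‖ := mul_lt_mul_of_pos_left hfa h5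
  linarith

/-- Over a Fréchet algebra with zero multiplication and no weakly bounded neighbourhood of `0`
no non-zero Fréchet module is injective. -/
theorem not_injective (h0 : ∀ a b : A.carrier, a * b = 0)
    (hA : ∀ U ∈ 𝓝 (0 : A.carrier), ∃ f : A.carrier →L[ℂ] ℂ, ∀ C : ℝ, ∃ a ∈ U, C < ‖f a‖)
    (J : FrechetModule.{u, v} A) (hJ : Nontrivial J.carrier) : ¬ IsInjective J := by
  intro hinj
  obtain ⟨x, hx⟩ := exists_ne (0 : J.carrier)
  apply hx
  apply annihilated_eq_zero h0 hA J hinj x
  intro a
  apply annihilated_eq_zero h0 hA J hinj (J.act a x)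
  intro b
  rw [← J.act_mul, h0, map_zero, LinearMap.zero_apply]

end general

/-- Over every Fréchet algebra there is a non-zero Fréchet module (with zero action). -/
theorem exists_nontrivial_module (A : FrechetAlgebra.{v}) :
    ∃ X : FrechetModule.{u, v} A, Nontrivial X.carrier := by
  have : IsFrechet (ULift.{u} ℂ) :=
    { continuous_add_sub := inferInstance
      continuous_smul := inferInstance
      locally_convex := inferInstance
      completely_metrizable := inferInstance }
  refine ⟨{ carrier := ULift.{u} ℂ, act := 0, act_mul := fun _ _ _ => rfl,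
            act_continuous := continuous_const }, ?_⟩
  exact inferInstanceAs (Nontrivial (ULift.{u} ℂ))

/-! ### The algebra `ℂ^ℕ` with zero multiplication -/

/-- The Fréchet space `ℂ^ℕ` of all complex sequences. -/
def SeqSpace : Type := ℕ → ℂ

namespace SeqSpace

noncomputable instance : AddCommGroup SeqSpace := inferInstanceAs (AddCommGroup (ℕ → ℂ))
noncomputable instance : Module ℂ SeqSpace := inferInstanceAs (Module ℂ (ℕ → ℂ))
noncomputable instance : TopologicalSpace SeqSpace := inferInstanceAs (TopologicalSpace (ℕ → ℂ))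

instance : IsFrechet SeqSpace where
  continuous_add_sub := inferInstanceAs (IsTopologicalAddGroup (ℕ → ℂ))
  continuous_smul := inferInstanceAs (ContinuousSMul ℂ (ℕ → ℂ))
  locally_convex := inferInstanceAs (LocallyConvexSpace ℝ (ℕ → ℂ))
  completely_metrizable := inferInstanceAs (IsCompletelyMetrizableSpace (ℕ → ℂ))

/-- The zero multiplication. -/
noncomputable instance : NonUnitalRing SeqSpace where
  __ := (inferInstance : AddCommGroup SeqSpace)
  mul _ _ := 0
  left_distrib _ _ _ := (add_zero 0).symm
  right_distrib _ _ _ := (add_zero 0).symm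
  zero_mul _ := rfl
  mul_zero _ := rfl
  mul_assoc _ _ _ := rfl

instance : IsScalarTower ℂ SeqSpace SeqSpace := ⟨fun c _ _ => (smul_zero c).symm⟩
instance : SMulCommClass ℂ SeqSpace SeqSpace := ⟨fun c _ _ => (smul_zero c)⟩
instance : ContinuousMul SeqSpace := ⟨continuous_const⟩

theorem exists_unbounded (U : Set (ℕ → ℂ)) (hU : U ∈ 𝓝 (0 : ℕ → ℂ)) :
    ∃ f : (ℕ → ℂ) →L[ℂ] ℂ, ∀ C : ℝ, ∃ a ∈ U, C < ‖f a‖ := by
  rw [nhds_pi, mem_pi'] at hU
  obtain ⟨I, t, ht, hIt⟩ := hU
  obtain ⟨n, hn⟩ := Infinite.exists_notMem_finset I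
  refine ⟨ContinuousLinearMap.proj n, fun C => ?_⟩
  refine ⟨fun k => if k = n then ((|C| + 1 : ℝ) : ℂ) else 0, ?_, ?_⟩
  · apply hIt
    intro i hi
    have : i ≠ n := fun h => hn (h ▸ hi)
    simp only [if_neg this]
    exact mem_of_mem_nhds (ht i)
  · have h1 : (0 : ℝ) ≤ |C| + 1 := by positivity
    simp only [ContinuousLinearMap.proj_apply, if_true, Complex.norm_real, Real.norm_eq_abs,
      abs_of_nonneg h1]
    linarith [le_abs_self C]

end SeqSpace

/-- The Fréchet algebra `ℂ^ℕ` with zero multiplication. -/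
noncomputable def zeroAlg : FrechetAlgebra.{0} where
  carrier := SeqSpace

theorem zeroAlg_not_injective (J : FrechetModule.{u, 0} zeroAlg)
    (hJ : Nontrivial J.carrier) : ¬ IsInjective J :=
  not_injective (fun _ _ => rfl) SeqSpace.exists_unbounded J hJ

end Pool.Agent.Q86.FrMod
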